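import Pool.Agent.Lib.MP_17fa2c_pr.TD.SpecM

/-!
# MP_17fa2c_pr, block K: multi-scale edge estimates and improved time regularity

Goal: replace `exp (C k³ / D)` in `SpecTSI` by `exp (C (k³ / D)^{1/2})`.
Every module: file `TD/XXX.lean`, `import Pool.Agent.Lib.MP_17fa2c_pr.TD.SpecK`,
`theorem specXXX (hYYY : SpecYYY) .. : SpecXXX`, own lemmas in the namespace `XXXM`.
-/

set_option autoImplicit false

open MeasureTheory ProbabilityTheory Filter Topology Polynomial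
open scoped RealInnerProductSpace NNReal ENNReal

namespace Pool.Agent.Lib.MP17fa2c

/-- partial sums over all intervals of length `≤ max 1 (1/κ)` are at most `κ` -/
structure EdgeK (α B : ℕ → ℝ) (N : ℕ) (κ : ℝ) : Prop where
  pos : 0 < κ
  B_pos : ∀ l < N, 0 < B l
  sumα : ∀ i j, i ≤ j → j ≤ N → (j : ℝ) - i ≤ max 1 (1 / κ) → |∑ l ∈ Finset.Ico i j, α l| ≤ κ
  sumB : ∀ i j, i ≤ j → j ≤ N → (j : ℝ) - i ≤ max 1 (1 / κ) →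
    |∑ l ∈ Finset.Ico i j, (B l ^ 2 - 1)| ≤ κ

/-- exponent of the multi-scale edge estimates -/
noncomputable def exK (N : ℕ) (κ : ℝ) (B : ℕ → ℝ) : ℝ :=
  1 + N * κ + ∑ l ∈ Finset.range N, max 0 (-Real.log (2 * B l))

/-- **LMK** (250 lines). Norm of a Jacobi matrix, multi-scale version of LMX.
Proof. `κ ≤ 1/64` (else `≤ 2 + 2 κ ≤ 2 + 128 κ²`). `S = ∑ x²`, `𝒟 = ∑ (x_l - x_{l+1})²`. As in LMX `2 ∑ B_l x_l x_{l+1} =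
2 ∑ x_l x_{l+1} + ∑ z_l x_l x_{l+1} - ∑ (B_l - 1)² x_l x_{l+1}`, `2 ∑ x_l x_{l+1} = 2 S - x_0² - x_{N-1}² - 𝒟`. Cut `[0, N)` into blocks of
length `m ∈ [ℓ, 2 ℓ)`, `ℓ = ⌈1/(32 κ)⌉` (one block if `N < 2 ℓ`). Abel summation in each block: interior terms in total
`≤ κ ∑ |x_l - x_{l+1}| |x_l + x_{l+1}| ≤ 4 κ² S + 𝒟/4`, the same for the `z` part. Boundary terms `κ x_e²` (`e` = last index of
the block): `x_e² ≤ (2/m) S_I + 2 m 𝒟_I`, so `κ x_e² ≤ 64 κ² S_I + (3/16) 𝒟_I`; `z` part: `κ |x_e x_{e+1}| ≤ (3/2) κ x_e² + (κ/2) (x_e - x_{e+1})²`. The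
coefficients of `𝒟` add up to less than `1`. (One block with `N < ℓ`: the boundary term is killed by `-x_{N-1}²`.)
Lower bound by symmetry as in LMX. -/
def SpecLMK : Prop := ∀ (α B : ℕ → ℝ) (N : ℕ) (κ : ℝ), EdgeK α B N κ → ∀ x : ℕ → ℝ,
  |∑ l ∈ Finset.range N, α l * x l ^ 2 +
    2 * ∑ l ∈ Finset.range (N - 1), B l * (x l * x (l + 1))| ≤
  (2 + 1000 * κ ^ 2) * ∑ l ∈ Finset.range N, x l ^ 2

/-- **EKB** (250 lines). Growth over one block.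
Notation `u_l = B_{l-1} p_l - p_{l-1}` (`l ≥ 1`), `σ = max κ √(2 - y)`. Claim: `σ² p_l² + u_{l+1}²` grows at most by a constant
factor from `l = b` to `l = b + L`, `L ≤ 1/κ`.
Proof. `u_{l+1} = B_{l-1} u_l + (y - 2) p_l + v_l p_l`, `v_l = 1 - B_{l-1}² - α_l` (`l ≥ 1`). `V_l = ∑_{b < i ≤ l} v_i`, `|V_l| ≤ 2 κ`; `w_{l+1} = u_{l+1} - V_l p_l`:
for `l > b`: `p_l = B_{l-1}⁻¹ ((1 + V_{l-1}) p_{l-1} + w_l)`, `w_{l+1} = B_{l-1} w_l + (y - 2) p_l - V_{l-1} (p_l - B_{l-1} p_{l-1})`,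
`p_l - B_{l-1} p_{l-1} = B_{l-1}⁻¹ (w_l + (1 + V_{l-1} - B_{l-1}²) p_{l-1})`, `|B² - 1| ≤ κ`. If `y > 2 - κ²` (`|y - 2| ≤ 1000 κ²`, `σ = κ`): `|w| + κ |p|` grows by
`≤ 1 + C κ` in each step. If `y = 2 - s²`, `κ ≤ s ≤ √2`: the form `s² p² + s² p w + w²` is preserved by `(p, w) ↦ (p + w, w - s² (p + w))`, is
comparable to `s² p² + w²`, and the true step differs by `≤ C κ (s |p| + |w|)` in this norm. `L` steps: factor `e^{C κ L} ≤ e^C`;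
`|u - w| ≤ 2 κ |p| ≤ 2 σ |p|`. -/
def SpecEKB : Prop := ∃ C : ℝ, 1 ≤ C ∧ ∀ (α B : ℕ → ℝ) (N : ℕ) (κ y : ℝ) (p : ℕ → ℝ) (b L : ℕ),
  EdgeK α B N κ → κ ≤ 1 / 64 → PolRec α B N y p → 0 ≤ y → y ≤ 2 + 1000 * κ ^ 2 →
  b + L < N → (L : ℝ) ≤ 1 / κ →
  max κ (Real.sqrt (2 - y)) ^ 2 * p (b + L) ^ 2 + (B (b + L) * p (b + L + 1) - p (b + L)) ^ 2 ≤
    C * (max κ (Real.sqrt (2 - y)) ^ 2 * p b ^ 2 + (B b * p (b + 1) - p b) ^ 2)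

/-- **EKG** (200 lines; from EKB). Multi-scale edge estimates (compare EDG).
Proof. `κ ≤ 1/64`, `y ≥ 0`: at most `1 + 2 κ N` blocks of length `⌊1/κ⌋`, EKB for each (start: `p_0 = 1`, `B_0 p_1 - p_0 = y - α_0 - 1`); so
`σ² p_l² + u_{l+1}² ≤ C e^{C (1 + N κ)}` for all `l < N`; `p_{l+1} - p_l = B_l⁻¹ (u_{l+1} + (1 - B_l) p_l)`, `|1 - B_l| ≤ κ ≤ σ`. Third:
`B_{l+1} p_{l+2} - B_l p_l = B_{l+1} (p_{l+2} - p_{l+1}) + B_l (p_{l+1} - p_l) + (B_{l+1} - B_l) p_{l+1}`, `|B_{l+1} - B_l| ≤ 2 κ`, `κ |p| ≤ σ |p|`. `y ≤ 0`: `(-1)^l p_l` is the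
recursion for `-α`, `-y`. `κ ≥ 1/64`: `|α_l| ≤ κ`, `B_l ≤ 1 + κ`, `B_l⁻¹ ≤ 2 exp (max 0 (-log (2 B_l)))`, crude bound as in EDC. -/
def SpecEKG : Prop := ∃ C : ℝ, 0 < C ∧ ∀ (α B : ℕ → ℝ) (N : ℕ) (κ y : ℝ) (p : ℕ → ℝ),
  EdgeK α B N κ → PolRec α B N y p → |y| ≤ 2 + 1000 * κ ^ 2 →
  (0 ≤ y → ∀ l < N, |p (l + 1) - p l| ≤ C * Real.exp (C * exK N κ B)) ∧
  (y ≤ 0 → ∀ l < N, |p (l + 1) + p l| ≤ C * Real.exp (C * exK N κ B)) ∧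
  (∀ l, l + 1 < N → |B (l + 1) * p (l + 2) - B l * p l| ≤ C * Real.exp (C * exK N κ B)) ∧
  (0 < N → |y - α 0| ≤ C * Real.exp (C * exK N κ B))

/-- hypotheses of the gradient bound, at scale `R`, multi-scale version -/
structure GDataK {E : Type} [NormedAddCommGroup E] [InnerProductSpace ℝ E]
    (A : E →L[ℝ] E) (u : E) (k : ℕ) (R κ : ℝ) : Prop where
  sym : ∀ x y, ⟪A x, y⟫ = ⟪x, A y⟫
  unit : ‖u‖ = 1
  R_pos : 0 < R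
  pos : 0 < κ
  b_ne : ∀ l ≤ 2 * k + 2, bv A u l ≠ 0
  suma : ∀ i j, i ≤ j → j ≤ 2 * k + 3 → (j : ℝ) - i ≤ max 1 (1 / κ) →
    |∑ l ∈ Finset.Ico i j, av A u l / Real.sqrt R| ≤ κ
  sumb : ∀ i j, i ≤ j → j ≤ 2 * k + 3 → (j : ℝ) - i ≤ max 1 (1 / κ) →
    |∑ l ∈ Finset.Ico i j, (bv A u l ^ 2 / R - 1)| ≤ κ

/-- **NRK** (200 lines; from BLK, OPD, SPB, LMK, EKG, LO). Same as NRM (see `SpecNRM` and `TD/NRM.lean`) with LMK, EKG in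
place of LMX, EDG. -/
def SpecNRK : Prop := ∃ C : ℝ, 0 < C ∧ ∀ (E : Type) [NormedAddCommGroup E]
  [InnerProductSpace ℝ E] [FiniteDimensional ℝ E] (A : E →L[ℝ] E) (u : E) (k : ℕ) (κ : ℝ),
  GDataK A u k 1 κ → ∀ i < k,
  ‖bv A u k • aeval A (opp (av A u) (bv A u) (i + 1) (k - 1 - i)).2 (qv A u (k + 1)) -
      aeval A (opp (av A u) (bv A u) (i + 1) (k - 1 - i)).1 (qv A u k)‖ ≤
    C * Real.exp (C * exK (2 * k + 3) κ (bv A u)) ∧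
  ‖(av A u (k + 1) - av A u k) • aeval A (opp (av A u) (bv A u) (i + 1) (k - 1 - i)).2
        (qv A u (k + 1)) +
      bv A u (k + 1) • aeval A (opp (av A u) (bv A u) (i + 1) (k - 1 - i)).2 (qv A u (k + 2)) -
      aeval A (opp (av A u) (bv A u) (i + 1) (k - 1 - i)).1 (qv A u (k + 1))‖ ≤
    C * Real.exp (C * exK (2 * k + 3) κ (bv A u))

/-- **GBK** (150 lines; from NRK, CHD, GRA, GRB, DIF, SCL). Same as GBD (see `SpecGBD` and `TD/GBD.lean`) with NRK in place of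
NRM. -/
def SpecGBK : Prop := ∃ C : ℝ, 0 < C ∧ ∀ (E : Type) [NormedAddCommGroup E]
  [InnerProductSpace ℝ E] [FiniteDimensional ℝ E] (A : E →L[ℝ] E) (u : E) (k : ℕ) (R κ : ℝ),
  GDataK A u k R κ → ∃ x y : ℕ → E,
  (∀ H : E →L[ℝ] E, (∀ x y, ⟪H x, y⟫ = ⟪x, H y⟫) →
    fderiv ℝ (fun A : E →L[ℝ] E => av A u k) A H =
      ∑ i ∈ Finset.range (k + 1), ⟪x i, H (qv A u i)⟫) ∧
  (∀ H : E →L[ℝ] E, (∀ x y, ⟪H x, y⟫ = ⟪x, H y⟫) →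
    fderiv ℝ (fun A : E →L[ℝ] E => bv A u k ^ 2) A H =
      ∑ i ∈ Finset.range (k + 1), ⟪y i, H (qv A u i)⟫) ∧
  ∑ i ∈ Finset.range (k + 1), ‖x i‖ ^ 2 ≤
    C * (k + 1) * Real.exp (C * exK (2 * k + 3) κ (fun l => bv A u l / Real.sqrt R)) ∧
  ∑ i ∈ Finset.range (k + 1), ‖y i‖ ^ 2 ≤
    C * R * (k + 1) * Real.exp (C * exK (2 * k + 3) κ (fun l => bv A u l / Real.sqrt R))

/-! ## The random `κ` -/

/-- the partial sums are fine at scale `κ` -/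
def GoodK (K : ℕ) (R : ℝ) (a b : ℕ → ℝ) (κ : ℝ) : Prop :=
  ∀ i j, i ≤ j → j ≤ K → (j : ℝ) - i ≤ max 1 (1 / κ) →
    |∑ l ∈ Finset.Ico i j, a l / Real.sqrt R| ≤ κ ∧
    |∑ l ∈ Finset.Ico i j, (b l ^ 2 / R - 1)| ≤ κ

/-- the least `κ = 2^i / K` at which the partial sums are fine -/
noncomputable def kap (K : ℕ) (R : ℝ) (a b : ℕ → ℝ) : ℝ :=
  2 ^ (sInf {i : ℕ | GoodK K R a b (2 ^ i / K)}) / K

/-- **KM0** (80 lines). `kap` is positive and good (`K ≥ 1`): for large `i` only intervals of length `≤ 1` count. It is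
measurable in `(a, b)`. -/
def SpecKM0 : Prop := ∀ (K : ℕ) (R : ℝ), 1 ≤ K →
  (∀ a b, 0 < kap K R a b ∧ GoodK K R a b (kap K R a b)) ∧
  Measurable fun p : (ℕ → ℝ) × (ℕ → ℝ) => kap K R p.1 p.2

/-- **KM1** (150 lines; from MGC). Tail bound.
Proof. Union over at most `(K+1)²` intervals `I` of length `ℓ ≤ max 1 (1/κ)`. `∑_I a/√D ~ N(0, 2 ℓ/D)`: `2 exp (-κ² D/(4 ℓ))`.
`E exp (± s ∑_I (b²/D - 1)) ≤ exp (2 s² ℓ/D + s ℓ β K/D)` for `0 ≤ s ≤ D/4` (as in EXC), `ℓ β K/D ≤ κ/2` (as `κ² ≥ 2 β K/D`, `β K/D ≤ 1/2`); take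
`s = κ D/(8 ℓ)` for `κ ≤ 1`, `s = D/8` for `κ > 1`. -/
def SpecKM1 : Prop := ∀ (β K D : ℕ) (κ : ℝ), 1 ≤ K → 4 * (β + 1) * K ≤ D → 0 < κ →
  2 * β * K / D ≤ κ ^ 2 →
  deLaw (fun j => D - β * (j + 1)) K {w | ¬ GoodK K D (xa w) (xb w) κ} ≤
    ENNReal.ofReal (4 * ((K : ℝ) + 1) ^ 2 * Real.exp (-(D * min (κ ^ 3) κ) / 32))

/-- **KMO** (200 lines; from KM0, KM1, SMB). Exponential moments.
Proof. `exp (s exK) ≤ e^s (e^{2 s K κ} + e^{2 s ∑ ..})/2`, SMB for the second. With `κ_i = 2^i/K`: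
`E e^{2 s K kap} ≤ e^{4 s K κ₁} + ∑_{κ_i ≥ κ₁} e^{4 s K κ_i} P(¬ GoodK κ_i)`, `κ₁ = A max (√(K/D), (log (K+1)/D)^{1/3}, 1/K)`, `A` large (depending on
`s, β`); KM1 makes the sum `≤ C`. `K (log (K+1)/D)^{1/3} = ((K³/D)^{1/2})^{2/3} (log (K+1))^{1/3} ≤ η log (K+1) + C_η (K³/D)^{1/2}` (Young),
`4 s A η ≤ 1/100`. -/
def SpecKMO : Prop := ∀ (β : ℕ) (s : ℝ), 0 < s → ∃ C : ℝ, 0 < C ∧ ∀ (K D : ℕ), 1 ≤ K → C * K ≤ D →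
  ∫⁻ w, ENNReal.ofReal (Real.exp (s * exK K (kap K D (xa w) (xb w))
      (fun l => xb w l / Real.sqrt D))) ∂(deLaw (fun j => D - β * (j + 1)) K) ≤
  ENNReal.ofReal (C * (K : ℝ) ^ (1 / 100 : ℝ) * Real.exp (C * Real.sqrt ((K : ℝ) ^ 3 / D)))

/-- **DBK** (150 lines; from GBK, VAR, DEL, KMO, KM0, LOR, LHM). Same as the first two claims of DBD (see `TD/DBD.lean`,
`TD/DMO.lean`) with `κ = kap (2k+3) D ..` in place of `osc`. -/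
def SpecDBK : Prop := ∀ (ι : Type) [Fintype ι] [DecidableEq ι],
  ∃ C : ℝ, 0 < C ∧ ∀ (E : Type) [NormedAddCommGroup E]
  [InnerProductSpace ℝ E] [FiniteDimensional ℝ E] (S : BStr ι E) (u : E)
  (ν : Measure (Unit → E →L[ℝ] E)), GFam S (fun _ _ => 1) ν → ‖u‖ = 1 → ∀ k : ℕ,
  C * (k + 1) ≤ dm E →
  ∫⁻ M, ∫⁻ G, ENNReal.ofReal
      ((fderiv ℝ (fun A : E →L[ℝ] E => av A u k) (M ()) (G ())) ^ 4) ∂ν ∂ν ≤
    ENNReal.ofReal (C * ((k : ℝ) + 1) ^ 2 * ((k : ℝ) + 1) ^ (1 / 100 : ℝ) *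
      Real.exp (C * Real.sqrt (((k : ℝ) + 1) ^ 3 / dm E))) ∧
  ∫⁻ M, ∫⁻ G, ENNReal.ofReal
      ((fderiv ℝ (fun A : E →L[ℝ] E => bv A u k ^ 2) (M ()) (G ())) ^ 4) ∂ν ∂ν ≤
    ENNReal.ofReal (C * dm E ^ 2 * ((k : ℝ) + 1) ^ 2 * ((k : ℝ) + 1) ^ (1 / 100 : ℝ) *
      Real.exp (C * Real.sqrt (((k : ℝ) + 1) ^ 3 / dm E)))

/-- **INK** (150 lines; from PSA, DIF, MDF, ROT). Increments along the path, general form (see `TD/INC.lean`). -/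
def SpecINK : Prop := ∀ (ι : Type) [Fintype ι] [DecidableEq ι],
  ∃ C : ℝ, 0 < C ∧ ∀ (E : Type) [NormedAddCommGroup E]
  [InnerProductSpace ℝ E] [FiniteDimensional ℝ E] (S : BStr ι E) (u : E)
  (ν : Measure (Unit → E →L[ℝ] E)), GFam S (fun _ _ => 1) ν → ‖u‖ = 1 → ∀ (k : ℕ) (φ : ℝ),
  C * (k + 1) ≤ dm E → 0 ≤ φ →
  ∫⁻ p, ENNReal.ofReal ((av (Real.cos φ • p.1 () + Real.sin φ • p.2 ()) u k -
      av (p.1 ()) u k) ^ 4) ∂(ν.prod ν) ≤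
    ENNReal.ofReal (φ ^ 4) * ∫⁻ M, ∫⁻ G, ENNReal.ofReal
      ((fderiv ℝ (fun A : E →L[ℝ] E => av A u k) (M ()) (G ())) ^ 4) ∂ν ∂ν ∧
  ∫⁻ p, ENNReal.ofReal ((bv (Real.cos φ • p.1 () + Real.sin φ • p.2 ()) u k ^ 2 -
      bv (p.1 ()) u k ^ 2) ^ 4) ∂(ν.prod ν) ≤
    ENNReal.ofReal (φ ^ 4) * ∫⁻ M, ∫⁻ G, ENNReal.ofReal
      ((fderiv ℝ (fun A : E →L[ℝ] E => bv A u k ^ 2) (M ()) (G ())) ^ 4) ∂ν ∂ν

/-- **TSK** (80 lines; from DBK, INK, PRL, UNQ, MRG, MEA). Fourth moment of the increments of the process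
(see `TD/TSI.lean`). -/
def SpecTSK : Prop := ∀ (ι : Type) [Fintype ι] [DecidableEq ι],
  ∃ C : ℝ, 0 < C ∧ ∀ (E : Type) [NormedAddCommGroup E]
  [InnerProductSpace ℝ E] [FiniteDimensional ℝ E] (S : BStr ι E) (u : E) (τ : ℝ)
  (μ : Measure (Fin 2 → E →L[ℝ] E)), 0 ≤ τ → GFam S (c2 (Real.exp (-τ))) μ → ‖u‖ = 1 →
  ∀ (k : ℕ), C * (k + 1) ≤ dm E →
  ∫⁻ M, ENNReal.ofReal ((av (M 1) u k - av (M 0) u k) ^ 4) ∂μ ≤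
    ENNReal.ofReal (C * τ ^ 2 * ((k : ℝ) + 1) ^ 2 * ((k : ℝ) + 1) ^ (1 / 100 : ℝ) *
      Real.exp (C * Real.sqrt (((k : ℝ) + 1) ^ 3 / dm E))) ∧
  ∫⁻ M, ENNReal.ofReal ((bv (M 1) u k ^ 2 - bv (M 0) u k ^ 2) ^ 4) ∂μ ≤
    ENNReal.ofReal (C * dm E ^ 2 * τ ^ 2 * ((k : ℝ) + 1) ^ 2 * ((k : ℝ) + 1) ^ (1 / 100 : ℝ) *
      Real.exp (C * Real.sqrt (((k : ℝ) + 1) ^ 3 / dm E)))

end Pool.Agent.Lib.MP17fa2c
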