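import Pool.Agent.Lib.MP_17fa2c_pr.TD.SpecM
import Pool.Agent.Lib.MP_17fa2c_pr.TD.SpecK

section
/-!
# MP_17fa2c_pr, block M, module DBD: moments of the derivatives in a Gaussian direction
-/
set_option autoImplicit false

open MeasureTheory ProbabilityTheory Filter Topology
open scoped RealInnerProductSpace NNReal ENNReal

namespace Pool.Agent.Lib.MP17fa2c

namespace DBDM

lemma sma_nonneg (K : ℕ) (R : ℝ) (a : ℕ → ℝ) : 0 ≤ sma K R a := by
  have h := Finset.le_sup' (fun l => |∑ i ∈ Finset.range l, a i / Real.sqrt R|)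
    (show 0 ∈ Finset.range (K + 1) by simp)
  have h0 : |∑ i ∈ Finset.range 0, a i / Real.sqrt R| = 0 := by simp
  unfold sma
  linarith [h, h0]

lemma smb_nonneg (K : ℕ) (R : ℝ) (b : ℕ → ℝ) : 0 ≤ smb K R b := by
  have h := Finset.le_sup' (fun l => |∑ i ∈ Finset.range l, (b i ^ 2 / R - 1)|)
    (show 0 ∈ Finset.range (K + 1) by simp)
  have h0 : |∑ i ∈ Finset.range 0, (b i ^ 2 / R - 1)| = 0 := by simp
  unfold smb
  linarith [h, h0]

lemma Ico_le_sma (K : ℕ) (R : ℝ) (a : ℕ → ℝ) (i j : ℕ) (hij : i ≤ j) (hj : j ≤ K) :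
    |∑ l ∈ Finset.Ico i j, a l / Real.sqrt R| ≤ 2 * sma K R a := by
  have h1 := Finset.le_sup' (fun l => |∑ i ∈ Finset.range l, a i / Real.sqrt R|)
    (show j ∈ Finset.range (K + 1) by simp; omega)
  have h2 := Finset.le_sup' (fun l => |∑ i ∈ Finset.range l, a i / Real.sqrt R|)
    (show i ∈ Finset.range (K + 1) by simp; omega)
  rw [Finset.sum_Ico_eq_sub _ hij]
  have h3 := abs_sub (∑ l ∈ Finset.range j, a l / Real.sqrt R)
    (∑ l ∈ Finset.range i, a l / Real.sqrt R)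
  unfold sma
  linarith [h1, h2, h3]

lemma Ico_le_smb (K : ℕ) (R : ℝ) (b : ℕ → ℝ) (i j : ℕ) (hij : i ≤ j) (hj : j ≤ K) :
    |∑ l ∈ Finset.Ico i j, (b l ^ 2 / R - 1)| ≤ 2 * smb K R b := by
  have h1 := Finset.le_sup' (fun l => |∑ i ∈ Finset.range l, (b i ^ 2 / R - 1)|)
    (show j ∈ Finset.range (K + 1) by simp; omega)
  have h2 := Finset.le_sup' (fun l => |∑ i ∈ Finset.range l, (b i ^ 2 / R - 1)|)
    (show i ∈ Finset.range (K + 1) by simp; omega)
  rw [Finset.sum_Ico_eq_sub _ hij]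
  have h3 := abs_sub (∑ l ∈ Finset.range j, (b l ^ 2 / R - 1))
    (∑ l ∈ Finset.range i, (b l ^ 2 / R - 1))
  unfold smb
  linarith [h1, h2, h3]

variable {ι : Type} [Fintype ι] [DecidableEq ι] {E : Type} [NormedAddCommGroup E]
  [InnerProductSpace ℝ E]

lemma gdata (S : BStr ι E) (A : E →L[ℝ] E) (u : E) (hA : Herm S A) (hu : ‖u‖ = 1) (k : ℕ)
    (hb : ∀ l < 2 * k + 3, bv A u l ≠ 0) (hD : 0 < dm E) :
    GData A u k (dm E) (osc (2 * k + 3) (dm E) (av A u) (bv A u)) where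
  sym := hA.1
  unit := hu
  R_pos := hD
  pos := by
    unfold osc
    have h1 := sma_nonneg (2 * k + 3) (dm E) (av A u)
    have h2 := smb_nonneg (2 * k + 3) (dm E) (bv A u)
    have h3 : (0 : ℝ) < 1 / ((2 * k + 3 : ℕ) : ℝ) := by positivity
    linarith
  b_ne := fun l hl => hb l (by omega)
  suma := by
    intro i j hij hj
    refine (Ico_le_sma (2 * k + 3) (dm E) (av A u) i j hij hj).trans ?_
    unfold osc
    have h2 := smb_nonneg (2 * k + 3) (dm E) (bv A u)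
    have h3 : (0 : ℝ) < 1 / ((2 * k + 3 : ℕ) : ℝ) := by positivity
    linarith
  sumb := by
    intro i j hij hj
    refine (Ico_le_smb (2 * k + 3) (dm E) (bv A u) i j hij hj).trans ?_
    unfold osc
    have h2 := sma_nonneg (2 * k + 3) (dm E) (av A u)
    have h3 : (0 : ℝ) < 1 / ((2 * k + 3 : ℕ) : ℝ) := by positivity
    linarith

lemma q_on (hLOR : SpecLOR) (hLHM : SpecLHM) (S : BStr ι E) (A : E →L[ℝ] E) (u : E)
    (hA : Herm S A) (hu : ‖u‖ = 1) (k : ℕ) (hb : ∀ l < k, bv A u l ≠ 0) :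
    ∀ a, ∀ i < k + 1, ∀ j < k + 1,
      ⟪qv A u i, S.J a (qv A u j)⟫ = if a = S.o ∧ i = j then 1 else 0 := by
  obtain ⟨h1, h2, -⟩ := hLOR E A u hA.1 hu
  intro a i hi j hj
  by_cases ha : a = S.o
  · by_cases hij : i = j
    · subst hij
      rw [if_pos ⟨ha, rfl⟩, ha, S.J_o, real_inner_self_eq_norm_sq,
        h2 i (fun l hl => hb l (by omega))]
      norm_num
    · rw [if_neg (fun h => hij h.2), ha, S.J_o, h1 i j hij]
  · rw [if_neg (fun h => ha h.1), hLHM ι E S A u hA a ha i j]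

lemma inner_bounds [FiniteDimensional ℝ E] {C₀ : ℝ}
    (hG : ∀ (E : Type) [NormedAddCommGroup E]
      [InnerProductSpace ℝ E] [FiniteDimensional ℝ E] (A : E →L[ℝ] E) (u : E) (k : ℕ) (R ω : ℝ),
      GData A u k R ω → ∃ x y : ℕ → E,
      (∀ H : E →L[ℝ] E, (∀ x y, ⟪H x, y⟫ = ⟪x, H y⟫) →
        fderiv ℝ (fun A : E →L[ℝ] E => av A u k) A H =
          ∑ i ∈ Finset.range (k + 1), ⟪x i, H (qv A u i)⟫) ∧
      (∀ H : E →L[ℝ] E, (∀ x y, ⟪H x, y⟫ = ⟪x, H y⟫) →
        fderiv ℝ (fun A : E →L[ℝ] E => bv A u k ^ 2) A H =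
          ∑ i ∈ Finset.range (k + 1), ⟪y i, H (qv A u i)⟫) ∧
      ∑ i ∈ Finset.range (k + 1), ‖x i‖ ^ 2 ≤
        C₀ * (k + 1) * Real.exp (C₀ * ex (2 * k + 3) ω (fun l => bv A u l / Real.sqrt R)) ∧
      ∑ i ∈ Finset.range (k + 1), ‖y i‖ ^ 2 ≤
        C₀ * R * (k + 1) * Real.exp (C₀ * ex (2 * k + 3) ω (fun l => bv A u l / Real.sqrt R)))
    (hVAR : SpecVAR) (hLOR : SpecLOR) (hLHM : SpecLHM)
    (S : BStr ι E) (ν : Measure (Unit → E →L[ℝ] E)) (hν : GFam S (fun _ _ => 1) ν)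
    (A : E →L[ℝ] E) (u : E) (hA : Herm S A) (hu : ‖u‖ = 1) (k : ℕ)
    (hb : ∀ l < 2 * k + 3, bv A u l ≠ 0) (hD : 0 < dm E) :
    ∫⁻ G, ENNReal.ofReal ((fderiv ℝ (fun A : E →L[ℝ] E => av A u k) A (G ())) ^ 4) ∂ν ≤
      ENNReal.ofReal (12 * (C₀ * (k + 1) *
        Real.exp (C₀ * xe (2 * k + 3) (dm E) (av A u) (bv A u))) ^ 2) ∧
    ∫⁻ G, ENNReal.ofReal ((fderiv ℝ (fun A : E →L[ℝ] E => bv A u k ^ 2) A (G ())) ^ 4) ∂ν ≤
      ENNReal.ofReal (12 * (C₀ * dm E * (k + 1) *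
        Real.exp (C₀ * xe (2 * k + 3) (dm E) (av A u) (bv A u))) ^ 2) ∧
    ∫⁻ G, ENNReal.ofReal |fderiv ℝ (fun A : E →L[ℝ] E => bv A u k ^ 2) A (G ())| ∂ν ≤
      ENNReal.ofReal (Real.sqrt (2 * (C₀ * dm E * (k + 1) *
        Real.exp (C₀ * xe (2 * k + 3) (dm E) (av A u) (bv A u))))) := by
  obtain ⟨x, y, hx, hy, hxb, hyb⟩ := hG E A u k (dm E) _ (gdata S A u hA hu k hb hD)
  have hq := q_on hLOR hLHM S A u hA hu k (fun l hl => hb l (by omega))
  obtain ⟨hx4, -⟩ := hVAR ι E S ν hν (k + 1) x (qv A u) hq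
  obtain ⟨hy4, hy1⟩ := hVAR ι E S ν hν (k + 1) y (qv A u) hq
  have hxs : 0 ≤ ∑ i ∈ Finset.range (k + 1), ‖x i‖ ^ 2 := Finset.sum_nonneg fun _ _ => sq_nonneg _
  have hys : 0 ≤ ∑ i ∈ Finset.range (k + 1), ‖y i‖ ^ 2 := Finset.sum_nonneg fun _ _ => sq_nonneg _
  refine ⟨?_, ?_, ?_⟩
  · have h1 : ∫⁻ G, ENNReal.ofReal ((fderiv ℝ (fun A : E →L[ℝ] E => av A u k) A (G ())) ^ 4) ∂ν =
        ∫⁻ G, ENNReal.ofReal ((∑ i ∈ Finset.range (k + 1), ⟪x i, G () (qv A u i)⟫) ^ 4) ∂ν := by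
      refine lintegral_congr_ae ?_
      filter_upwards [hν.herm] with G hGh
      rw [hx (G ()) (hGh ()).1]
    rw [h1]
    refine hx4.trans (ENNReal.ofReal_le_ofReal ?_)
    have := pow_le_pow_left₀ hxs hxb 2
    exact mul_le_mul_of_nonneg_left this (by norm_num)
  · have h1 : ∫⁻ G, ENNReal.ofReal ((fderiv ℝ (fun A : E →L[ℝ] E => bv A u k ^ 2) A
        (G ())) ^ 4) ∂ν =
        ∫⁻ G, ENNReal.ofReal ((∑ i ∈ Finset.range (k + 1), ⟪y i, G () (qv A u i)⟫) ^ 4) ∂ν := by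
      refine lintegral_congr_ae ?_
      filter_upwards [hν.herm] with G hGh
      rw [hy (G ()) (hGh ()).1]
    rw [h1]
    refine hy4.trans (ENNReal.ofReal_le_ofReal ?_)
    have := pow_le_pow_left₀ hys hyb 2
    exact mul_le_mul_of_nonneg_left this (by norm_num)
  · have h1 : ∫⁻ G, ENNReal.ofReal |fderiv ℝ (fun A : E →L[ℝ] E => bv A u k ^ 2) A (G ())| ∂ν =
        ∫⁻ G, ENNReal.ofReal |∑ i ∈ Finset.range (k + 1), ⟪y i, G () (qv A u i)⟫| ∂ν := by
      refine lintegral_congr_ae ?_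
      filter_upwards [hν.herm] with G hGh
      rw [hy (G ()) (hGh ()).1]
    rw [h1]
    refine hy1.trans (ENNReal.ofReal_le_ofReal (Real.sqrt_le_sqrt ?_))
    exact mul_le_mul_of_nonneg_left hyb (by norm_num)

/-- integration of the bounds of the fourth moments -/
lemma fourth (μ : Measure (Unit → E →L[ℝ] E)) (F : (Unit → E →L[ℝ] E) → ℝ≥0∞)
    (X : (Unit → E →L[ℝ] E) → ℝ) (B C₀ C₁ C K D : ℝ) (k : ℕ)
    (hC₀ : 0 < C₀) (hC₁ : 0 < C₁) (hD : 0 < D) (hK : K = 2 * k + 3) (hC : 36 * C₀ ^ 2 * C₁ ≤ C)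
    (hC' : 27 * C₁ ≤ C)
    (h1 : ∀ᵐ M ∂μ, F M ≤ ENNReal.ofReal (12 * (C₀ * B * (k + 1) * Real.exp (C₀ * X M)) ^ 2))
    (h2 : ∫⁻ M, ENNReal.ofReal (Real.exp (2 * C₀ * X M)) ∂μ ≤
      ENNReal.ofReal (C₁ * K ^ (1 / 100 : ℝ) * Real.exp (C₁ * K ^ 3 / D))) :
    ∫⁻ M, F M ∂μ ≤ ENNReal.ofReal (C * B ^ 2 * ((k : ℝ) + 1) ^ 2 * ((k : ℝ) + 1) ^ (1 / 100 : ℝ) *
      Real.exp (C * (k + 1) ^ 3 / D)) := by
  have hk : (0 : ℝ) ≤ k := Nat.cast_nonneg _
  have hK0 : 0 < K := by rw [hK]; positivity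
  have hK3 : K ≤ 3 * ((k : ℝ) + 1) := by rw [hK]; linarith
  calc ∫⁻ M, F M ∂μ ≤ ∫⁻ M, ENNReal.ofReal (12 * C₀ ^ 2 * B ^ 2 * ((k : ℝ) + 1) ^ 2) *
        ENNReal.ofReal (Real.exp (2 * C₀ * X M)) ∂μ := by
        refine lintegral_mono_ae ?_
        filter_upwards [h1] with M hM
        refine hM.trans (le_of_eq ?_)
        rw [← ENNReal.ofReal_mul (by positivity)]
        congr 1
        have : Real.exp (2 * C₀ * X M) = Real.exp (C₀ * X M) ^ 2 := by
          rw [← Real.exp_nat_mul]; congr 1; push_cast; ring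
        rw [this]
        ring
    _ ≤ ENNReal.ofReal (12 * C₀ ^ 2 * B ^ 2 * ((k : ℝ) + 1) ^ 2) *
        ENNReal.ofReal (C₁ * K ^ (1 / 100 : ℝ) * Real.exp (C₁ * K ^ 3 / D)) := by
        rw [lintegral_const_mul' _ _ ENNReal.ofReal_ne_top]
        gcongr
    _ ≤ _ := by
        rw [← ENNReal.ofReal_mul (by positivity)]
        apply ENNReal.ofReal_le_ofReal
        have hp : K ^ (1 / 100 : ℝ) ≤ 3 * ((k : ℝ) + 1) ^ (1 / 100 : ℝ) := by
          calc K ^ (1 / 100 : ℝ) ≤ (3 * ((k : ℝ) + 1)) ^ (1 / 100 : ℝ) :=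
                Real.rpow_le_rpow hK0.le hK3 (by norm_num)
            _ = 3 ^ (1 / 100 : ℝ) * ((k : ℝ) + 1) ^ (1 / 100 : ℝ) :=
                Real.mul_rpow (by norm_num) (by positivity)
            _ ≤ 3 * ((k : ℝ) + 1) ^ (1 / 100 : ℝ) := by
                gcongr
                calc (3 : ℝ) ^ (1 / 100 : ℝ) ≤ (3 : ℝ) ^ (1 : ℝ) :=
                      Real.rpow_le_rpow_of_exponent_le (by norm_num) (by norm_num)
                  _ = 3 := Real.rpow_one 3
        have he : Real.exp (C₁ * K ^ 3 / D) ≤ Real.exp (C * (k + 1) ^ 3 / D) := by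
          apply Real.exp_le_exp.mpr
          apply div_le_div_of_nonneg_right _ hD.le
          have h3 : K ^ 3 ≤ 27 * ((k : ℝ) + 1) ^ 3 := by
            calc K ^ 3 ≤ (3 * ((k : ℝ) + 1)) ^ 3 := pow_le_pow_left₀ hK0.le hK3 3
              _ = 27 * ((k : ℝ) + 1) ^ 3 := by ring
          calc C₁ * K ^ 3 ≤ C₁ * (27 * ((k : ℝ) + 1) ^ 3) := mul_le_mul_of_nonneg_left h3 hC₁.le
            _ = 27 * C₁ * ((k : ℝ) + 1) ^ 3 := by ring
            _ ≤ C * ((k : ℝ) + 1) ^ 3 := mul_le_mul_of_nonneg_right hC' (by positivity)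
        calc 12 * C₀ ^ 2 * B ^ 2 * ((k : ℝ) + 1) ^ 2 *
              (C₁ * K ^ (1 / 100 : ℝ) * Real.exp (C₁ * K ^ 3 / D))
            ≤ 12 * C₀ ^ 2 * B ^ 2 * ((k : ℝ) + 1) ^ 2 *
              (C₁ * (3 * ((k : ℝ) + 1) ^ (1 / 100 : ℝ)) * Real.exp (C * (k + 1) ^ 3 / D)) := by
              gcongr
          _ = 36 * C₀ ^ 2 * C₁ * (B ^ 2 * ((k : ℝ) + 1) ^ 2 * ((k : ℝ) + 1) ^ (1 / 100 : ℝ) *
              Real.exp (C * (k + 1) ^ 3 / D)) := by ring
          _ ≤ C * (B ^ 2 * ((k : ℝ) + 1) ^ 2 * ((k : ℝ) + 1) ^ (1 / 100 : ℝ) *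
              Real.exp (C * (k + 1) ^ 3 / D)) := by
              apply mul_le_mul_of_nonneg_right hC (by positivity)
          _ = _ := by ring

instance chi_prob (N : ℕ) : IsProbabilityMeasure (chi N) := by
  unfold chi
  exact Measure.isProbabilityMeasure_map (by fun_prop)

lemma inv4 (b : ℝ) (N : ℕ) (hN : 0 < N) :
    (b ^ 4)⁻¹ = ((N : ℝ) ^ 2)⁻¹ * (b ^ 2 / N) ^ (-(2 : ℝ)) := by
  have hN' : (0 : ℝ) < N := by exact_mod_cast hN
  rw [Real.rpow_neg (by positivity), Real.rpow_two, div_pow]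
  rw [inv_div]
  field_simp

lemma neg4 [FiniteDimensional ℝ E] (hDEL : SpecDEL) (hNEG : SpecNEG) (S : BStr ι E) (u : E)
    (ν : Measure (Unit → E →L[ℝ] E)) (hν : GFam S (fun _ _ => 1) ν) (hu : ‖u‖ = 1) (k : ℕ)
    (hk : Fintype.card ι * (k + 1) + 8 ≤ Module.finrank ℝ E) :
    AEMeasurable (fun M => bv (M ()) u k) ν ∧
    ∫⁻ M, ENNReal.ofReal ((bv (M ()) u k ^ 4)⁻¹) ∂ν ≠ ⊤ := by
  obtain ⟨-, hlaw⟩ := hDEL ι E S u ν hν hu (k + 1) (by omega)
  obtain ⟨C, hC, hneg⟩ := hNEG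
  set N := Module.finrank ℝ E - Fintype.card ι * (k + 1) with hN
  have hN8 : 8 ≤ N := by omega
  have : IsProbabilityMeasure
      (deLaw (fun j => Module.finrank ℝ E - Fintype.card ι * (j + 1)) (k + 1)) := by
    unfold deLaw; infer_instance
  set Φ : (Unit → E →L[ℝ] E) → Fin (k + 1) → ℝ × ℝ :=
    fun M j => (av (M ()) u j, bv (M ()) u j) with hΦ
  have hΦm : AEMeasurable Φ ν := by
    have : NeZero (ν.map Φ) := by
      rw [hlaw]
      exact ⟨IsProbabilityMeasure.ne_zero _⟩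
    exact aemeasurable_of_map_neZero this
  have hpr : Measurable fun w : Fin (k + 1) → ℝ × ℝ => (w (Fin.last k)).2 :=
    (measurable_pi_apply _).snd
  have hbm : AEMeasurable (fun M : Unit → E →L[ℝ] E => bv (M ()) u k) ν := by
    have := hpr.comp_aemeasurable hΦm
    refine this.congr (ae_of_all _ fun M => ?_)
    simp [hΦ]
  refine ⟨hbm, ?_⟩
  have h1 : ∫⁻ M, ENNReal.ofReal ((bv (M ()) u k ^ 4)⁻¹) ∂ν =
      ∫⁻ b, ENNReal.ofReal ((b ^ 4)⁻¹) ∂(chi N) := by
    calc ∫⁻ M, ENNReal.ofReal ((bv (M ()) u k ^ 4)⁻¹) ∂ν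
        = ∫⁻ w, ENNReal.ofReal (((w (Fin.last k)).2 ^ 4)⁻¹) ∂(ν.map Φ) := by
          rw [lintegral_map' (by
            have := (((hpr.pow_const 4).inv).ennreal_ofReal).aemeasurable (μ := ν.map Φ)
            exact this) hΦm]
          refine lintegral_congr fun M => ?_
          simp [hΦ]
      _ = ∫⁻ w, ENNReal.ofReal (((w (Fin.last k)).2 ^ 4)⁻¹)
            ∂(deLaw (fun j => Module.finrank ℝ E - Fintype.card ι * (j + 1)) (k + 1)) := by
          rw [hlaw]
      _ = ∫⁻ z, ENNReal.ofReal ((z.2 ^ 4)⁻¹) ∂((gaussianReal 0 2).prod (chi N)) := by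
          have h2 := (measurePreserving_eval (fun j : Fin (k + 1) => (gaussianReal 0 2).prod
            (chi (Module.finrank ℝ E - Fintype.card ι * ((j : ℕ) + 1)))) (Fin.last k)).lintegral_comp
            (f := fun z : ℝ × ℝ => ENNReal.ofReal ((z.2 ^ 4)⁻¹))
            (((measurable_snd.pow_const 4).inv).ennreal_ofReal)
          exact h2
      _ = ∫⁻ b, ENNReal.ofReal ((b ^ 4)⁻¹) ∂(chi N) := by
          have h3 : AEMeasurable (fun z : ℝ × ℝ => ENNReal.ofReal ((z.2 ^ 4)⁻¹))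
            ((gaussianReal 0 2).prod (chi N)) :=
            (((measurable_snd.pow_const 4).inv).ennreal_ofReal).aemeasurable
          rw [lintegral_prod _ h3]
          simp
  rw [h1]
  have h4 : ∫⁻ b, ENNReal.ofReal ((b ^ 4)⁻¹) ∂(chi N) =
      ENNReal.ofReal (((N : ℝ) ^ 2)⁻¹) *
        ∫⁻ b, ENNReal.ofReal ((b ^ 2 / N) ^ (-(2 : ℝ))) ∂(chi N) := by
    rw [← lintegral_const_mul' _ _ ENNReal.ofReal_ne_top]
    refine lintegral_congr fun b => ?_
    rw [← ENNReal.ofReal_mul (by positivity), ← inv4 b N (by omega)]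
  rw [h4]
  have h5 := hneg N 2 (by omega) (by norm_num) (by
    have : (8 : ℝ) ≤ N := by exact_mod_cast hN8
    linarith)
  exact ENNReal.mul_ne_top ENNReal.ofReal_ne_top (ne_top_of_le_ne_top ENNReal.ofReal_ne_top h5)

end DBDM

open DBDM in
theorem specDBD (hGBD : SpecGBD) (hVAR : SpecVAR) (hDMO : SpecDMO) (hLOR : SpecLOR)
    (hLHM : SpecLHM) (hDEL : SpecDEL) (hNEG : SpecNEG) : SpecDBD := by
  intro ι _ _
  obtain ⟨C₀, hC₀, hG⟩ := hGBD
  obtain ⟨C₁, hC₁, hM⟩ := hDMO ι (2 * C₀) (by positivity)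
  refine ⟨36 * C₀ ^ 2 * C₁ + 27 * C₁ + Fintype.card ι + 8, by positivity, ?_⟩
  intro E _ _ _ S u ν hν hu k hCk
  set C := 36 * C₀ ^ 2 * C₁ + 27 * C₁ + Fintype.card ι + 8 with hC
  have hι : (0 : ℝ) ≤ Fintype.card ι := Nat.cast_nonneg _
  have hk : (0 : ℝ) ≤ k := Nat.cast_nonneg _
  have hcc : 0 ≤ 36 * C₀ ^ 2 * C₁ := by positivity
  have hle : ∀ c : ℝ, c ≤ C → c * (k + 1) ≤ dm E := fun c hc =>
    (mul_le_mul_of_nonneg_right hc (by positivity)).trans hCk
  have hD : 0 < dm E := lt_of_lt_of_le (by positivity : (0 : ℝ) < 1 * (k + 1))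
    (hle 1 (by rw [hC]; nlinarith))
  have hK : C₁ * ((2 * k + 3 : ℕ) : ℝ) ≤ dm E := by
    have := hle (3 * C₁) (by rw [hC]; nlinarith)
    push_cast
    nlinarith
  obtain ⟨hne, hexp⟩ := hM E S u ν hν hu (2 * k + 3) (by omega) hK
  have hin := (hne.and hν.herm).mono fun M hM =>
    inner_bounds hG hVAR hLOR hLHM S ν hν (M ()) u (hM.2 ()) hu k hM.1 hD
  have hexp' : ∫⁻ M, ENNReal.ofReal (Real.exp (2 * C₀ *
      xe (2 * k + 3) (dm E) (av (M ()) u) (bv (M ()) u))) ∂ν ≤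
      ENNReal.ofReal (C₁ * ((2 * k + 3 : ℕ) : ℝ) ^ (1 / 100 : ℝ) *
        Real.exp (C₁ * ((2 * k + 3 : ℕ) : ℝ) ^ 3 / dm E)) := hexp
  refine ⟨?_, ?_, ?_⟩
  · have h := fourth ν (fun M => ∫⁻ G, ENNReal.ofReal
      ((fderiv ℝ (fun A : E →L[ℝ] E => av A u k) (M ()) (G ())) ^ 4) ∂ν)
      (fun M => xe (2 * k + 3) (dm E) (av (M ()) u) (bv (M ()) u)) 1 C₀ C₁ C
      ((2 * k + 3 : ℕ) : ℝ) (dm E) k hC₀ hC₁ hD (by push_cast; ring)
      (by rw [hC]; nlinarith) (by rw [hC]; nlinarith)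
      (by
        filter_upwards [hin] with M hM
        rw [mul_one]
        exact hM.1) hexp'
    rw [one_pow, mul_one] at h
    exact h
  · exact fourth ν (fun M => ∫⁻ G, ENNReal.ofReal
      ((fderiv ℝ (fun A : E →L[ℝ] E => bv A u k ^ 2) (M ()) (G ())) ^ 4) ∂ν)
      (fun M => xe (2 * k + 3) (dm E) (av (M ()) u) (bv (M ()) u)) (dm E) C₀ C₁ C
      ((2 * k + 3 : ℕ) : ℝ) (dm E) k hC₀ hC₁ hD (by push_cast; ring)
      (by rw [hC]; nlinarith) (by rw [hC]; nlinarith)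
      (by
        filter_upwards [hin] with M hM
        exact hM.2.1) hexp'
  · have hfin : Fintype.card ι * (k + 1) + 8 ≤ Module.finrank ℝ E := by
      have h1 := hle (Fintype.card ι + 8) (by rw [hC]; nlinarith)
      have h2 : ((Fintype.card ι * (k + 1) + 8 : ℕ) : ℝ) ≤ (Module.finrank ℝ E : ℝ) := by
        push_cast
        unfold dm at h1
        nlinarith
      exact_mod_cast h2
    obtain ⟨hbm, hb4⟩ := neg4 hDEL hNEG S u ν hν hu k hfin
    set c : ℝ := 2 * (C₀ * dm E * (k + 1)) with hc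
    have hc0 : 0 ≤ c := by positivity
    have hbd : ∀ᵐ M ∂ν, ∫⁻ G, ENNReal.ofReal
        (|fderiv ℝ (fun A : E →L[ℝ] E => bv A u k ^ 2) (M ()) (G ())| / bv (M ()) u k ^ 2) ∂ν ≤
        ENNReal.ofReal ((bv (M ()) u k ^ 4)⁻¹) + ENNReal.ofReal c * (1 + ENNReal.ofReal
          (Real.exp (2 * C₀ * xe (2 * k + 3) (dm E) (av (M ()) u) (bv (M ()) u)))) := by
      filter_upwards [hin] with M hM
      obtain ⟨-, -, h1⟩ := hM
      set X := xe (2 * k + 3) (dm E) (av (M ()) u) (bv (M ()) u) with hX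
      set b := bv (M ()) u k with hb
      have hv0 : 0 ≤ c * Real.exp (C₀ * X) := by positivity
      have hveq : 2 * (C₀ * dm E * (k + 1) * Real.exp (C₀ * X)) = c * Real.exp (C₀ * X) := by
        rw [hc]; ring
      calc ∫⁻ G, ENNReal.ofReal
            (|fderiv ℝ (fun A : E →L[ℝ] E => bv A u k ^ 2) (M ()) (G ())| / b ^ 2) ∂ν
          = ENNReal.ofReal ((b ^ 2)⁻¹) * ∫⁻ G, ENNReal.ofReal
            |fderiv ℝ (fun A : E →L[ℝ] E => bv A u k ^ 2) (M ()) (G ())| ∂ν := by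
            rw [← lintegral_const_mul' _ _ ENNReal.ofReal_ne_top]
            refine lintegral_congr fun G => ?_
            rw [← ENNReal.ofReal_mul (by positivity)]
            congr 1
            rw [div_eq_inv_mul]
        _ ≤ ENNReal.ofReal ((b ^ 2)⁻¹) * ENNReal.ofReal (Real.sqrt (c * Real.exp (C₀ * X))) := by
            rw [← hveq]
            gcongr
        _ = ENNReal.ofReal ((b ^ 2)⁻¹ * Real.sqrt (c * Real.exp (C₀ * X))) := by
            rw [← ENNReal.ofReal_mul (by positivity)]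
        _ ≤ ENNReal.ofReal ((b ^ 4)⁻¹ + c * (1 + Real.exp (2 * C₀ * X))) := by
            apply ENNReal.ofReal_le_ofReal
            have h2 : (b ^ 4)⁻¹ = ((b ^ 2)⁻¹) ^ 2 := by
              rw [inv_pow, ← pow_mul]
            have h3 : Real.sqrt (c * Real.exp (C₀ * X)) ^ 2 = c * Real.exp (C₀ * X) :=
              Real.sq_sqrt hv0
            have h4 : Real.exp (C₀ * X) ≤ 1 + Real.exp (2 * C₀ * X) := by
              have : Real.exp (2 * C₀ * X) = Real.exp (C₀ * X) ^ 2 := by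
                rw [← Real.exp_nat_mul]; congr 1; push_cast; ring
              rw [this]
              nlinarith [sq_nonneg (Real.exp (C₀ * X) - 1), Real.exp_pos (C₀ * X)]
            have h5 := mul_le_mul_of_nonneg_left h4 hc0
            rw [h2]
            nlinarith [sq_nonneg ((b ^ 2)⁻¹ - Real.sqrt (c * Real.exp (C₀ * X)))]
        _ = _ := by
            rw [ENNReal.ofReal_add (by positivity) (by positivity), ENNReal.ofReal_mul hc0,
              ENNReal.ofReal_add zero_le_one (by positivity), ENNReal.ofReal_one]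
    refine ne_top_of_le_ne_top ?_ (lintegral_mono_ae hbd)
    rw [lintegral_add_left' (by fun_prop), lintegral_const_mul' _ _ ENNReal.ofReal_ne_top,
      lintegral_add_left measurable_const]
    have := hν.gauss
    rw [lintegral_const, measure_univ, mul_one]
    refine ENNReal.add_ne_top.mpr ⟨hb4, ENNReal.mul_ne_top ENNReal.ofReal_ne_top
      (ENNReal.add_ne_top.mpr ⟨ENNReal.one_ne_top, ?_⟩)⟩
    exact ne_top_of_le_ne_top ENNReal.ofReal_ne_top hexp'

end Pool.Agent.Lib.MP17fa2c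
end

section
/-!
# MP_17fa2c_pr, module DMO: exponential moments under the law of the Lanczos data
-/
set_option autoImplicit false

open MeasureTheory ProbabilityTheory Filter Topology
open scoped RealInnerProductSpace NNReal ENNReal

namespace Pool.Agent.Lib.MP17fa2c

namespace DMOM

theorem meas_xa (K l : ℕ) : Measurable fun w : Fin K → ℝ × ℝ => xa w l := by
  unfold xa
  split_ifs with h
  · exact measurable_fst.comp (measurable_pi_apply _)
  · exact measurable_const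

theorem meas_xb (K l : ℕ) : Measurable fun w : Fin K → ℝ × ℝ => xb w l := by
  unfold xb
  split_ifs with h
  · exact measurable_snd.comp (measurable_pi_apply _)
  · exact measurable_const

theorem meas_sup {α : Type} [MeasurableSpace α] (K : ℕ) (f : ℕ → α → ℝ)
    (hf : ∀ l, Measurable (f l)) (h : (Finset.range (K + 1)).Nonempty) :
    Measurable fun w => (Finset.range (K + 1)).sup' h fun l => f l w := by
  have h1 := Finset.measurable_sup' (s := Finset.range (K + 1)) (f := f) h fun l _ => hf l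
  have h2 : (fun w => (Finset.range (K + 1)).sup' h fun l => f l w) =
      (Finset.range (K + 1)).sup' h f := by
    funext w
    rw [Finset.sup'_apply]
  rw [h2]
  exact h1

theorem meas_xe (K : ℕ) (R : ℝ) :
    Measurable fun w : Fin K → ℝ × ℝ => xe K R (xa w) (xb w) := by
  have h1 : Measurable fun w : Fin K → ℝ × ℝ => sma K R (xa w) := by
    unfold sma
    refine meas_sup K (fun l w => |∑ i ∈ Finset.range l, xa w i / Real.sqrt R|) (fun l => ?_) _
    exact (Finset.measurable_sum _ fun i _ => (meas_xa K i).div_const _).abs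
  have h2 : Measurable fun w : Fin K → ℝ × ℝ => smb K R (xb w) := by
    unfold smb
    refine meas_sup K (fun l w => |∑ i ∈ Finset.range l, (xb w i ^ 2 / R - 1)|) (fun l => ?_) _
    exact (Finset.measurable_sum _ fun i _ =>
      (((meas_xb K i).pow_const 2).div_const _).sub_const _).abs
  unfold xe ex osc
  refine Measurable.add ?_ ?_
  · exact ((((h1.const_mul 2).const_add _).add (h2.const_mul 2))).const_mul _
  · refine Finset.measurable_sum _ fun i _ => ?_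
    exact measurable_const.max
      ((Real.measurable_log.comp (((meas_xb K i).div_const _).const_mul 2)).neg)

theorem xe_congr {K : ℕ} {R : ℝ} {a b a' b' : ℕ → ℝ} (ha : ∀ l < K, a l = a' l)
    (hb : ∀ l < K, b l = b' l) : xe K R a b = xe K R a' b' := by
  have h1 : sma K R a = sma K R a' := by
    unfold sma
    refine Finset.sup'_congr _ rfl fun l hl => ?_
    rw [Finset.sum_congr rfl fun i hi => ?_]
    rw [ha i (by
      have h2 := Finset.mem_range.1 hl
      have h3 := Finset.mem_range.1 hi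
      omega)]
  have h2 : smb K R b = smb K R b' := by
    unfold smb
    refine Finset.sup'_congr _ rfl fun l hl => ?_
    rw [Finset.sum_congr rfl fun i hi => ?_]
    rw [hb i (by
      have h2 := Finset.mem_range.1 hl
      have h3 := Finset.mem_range.1 hi
      omega)]
  unfold xe ex osc
  rw [h1, h2]
  congr 1
  refine Finset.sum_congr rfl fun i hi => ?_
  beta_reduce
  rw [hb i (Finset.mem_range.1 hi)]

end DMOM

open DMOM in
theorem specDMO (hDEL : SpecDEL) (hXMO : SpecXMO) (hMEA : SpecMEA) : SpecDMO := by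
  intro ι _ _ s hs
  obtain ⟨C, hC, hX⟩ := hXMO (Fintype.card ι) s hs
  refine ⟨C + (Fintype.card ι + 1), by positivity, ?_⟩
  intro E _ _ _ S u ν hν hu K hK hCK
  have hK0 : (1 : ℝ) ≤ K := by exact_mod_cast hK
  have hβ : (0 : ℝ) ≤ Fintype.card ι := Nat.cast_nonneg _
  have hCK' : C * K + (Fintype.card ι + 1) * K ≤ dm E := by
    rw [← add_mul]
    exact hCK
  have h1 : C * K ≤ (Module.finrank ℝ E : ℕ) := by
    have : dm E = (Module.finrank ℝ E : ℕ) := rfl
    rw [← this]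
    nlinarith
  have h2 : Fintype.card ι * K < Module.finrank ℝ E := by
    have h3 : (Fintype.card ι : ℝ) * K < Module.finrank ℝ E := by
      have : dm E = (Module.finrank ℝ E : ℕ) := rfl
      rw [← this]
      nlinarith [mul_pos hC (lt_of_lt_of_le one_pos hK0)]
    exact_mod_cast h3
  obtain ⟨hb, hlaw⟩ := hDEL ι E S u ν hν hu K h2
  refine ⟨hb, ?_⟩
  have h3 := hX K (Module.finrank ℝ E) hK h1
  let _ : MeasurableSpace E := borel E
  have : BorelSpace E := ⟨rfl⟩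
  have hpast : Measurable fun (M : Unit → E →L[ℝ] E) (j : Fin K) =>
      (av (M ()) u j, bv (M ()) u j) := measurable_pi_iff.2 fun j =>
    ((hMEA ι E Unit S u j).2.2.1 ()).prodMk ((hMEA ι E Unit S u j).2.2.2.1 ())
  have hm : Measurable fun w : Fin K → ℝ × ℝ => ENNReal.ofReal (Real.exp (s *
      xe K (Module.finrank ℝ E : ℕ) (xa w) (xb w))) :=
    ENNReal.measurable_ofReal.comp (Real.measurable_exp.comp ((meas_xe K _).const_mul s))
  rw [← hlaw, lintegral_map hm hpast] at h3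
  have e1 : ∀ M : Unit → E →L[ℝ] E,
      xe K (Module.finrank ℝ E : ℕ) (xa (fun j : Fin K => (av (M ()) u j, bv (M ()) u j)))
        (xb (fun j : Fin K => (av (M ()) u j, bv (M ()) u j))) =
      xe K (dm E) (av (M ()) u) (bv (M ()) u) := by
    intro M
    refine xe_congr (fun l hl => ?_) fun l hl => ?_
    · rw [xa, dif_pos hl]
    · rw [xb, dif_pos hl]
  simp_rw [e1] at h3
  refine h3.trans (ENNReal.ofReal_le_ofReal ?_)
  have hd : (0 : ℝ) ≤ (Module.finrank ℝ E : ℕ) := Nat.cast_nonneg _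
  have h4 : Real.exp (C * K ^ 3 / (Module.finrank ℝ E : ℕ)) ≤
      Real.exp ((C + (Fintype.card ι + 1)) * K ^ 3 / dm E) := by
    refine Real.exp_le_exp.2 ?_
    change _ ≤ (C + (Fintype.card ι + 1)) * (K : ℝ) ^ 3 / (Module.finrank ℝ E : ℕ)
    refine div_le_div_of_nonneg_right ?_ hd
    exact mul_le_mul_of_nonneg_right (by linarith) (by positivity)
  refine mul_le_mul (mul_le_mul_of_nonneg_right (by linarith) (by positivity)) h4
    (by positivity) (by positivity)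

end Pool.Agent.Lib.MP17fa2c
end

section
/-!
# MP_17fa2c_pr, block K, module DBK: moments of the derivatives, multi-scale version
-/
set_option autoImplicit false

open MeasureTheory ProbabilityTheory Filter Topology
open scoped RealInnerProductSpace NNReal ENNReal

namespace Pool.Agent.Lib.MP17fa2c

namespace DBKM

theorem good_congr {K : ℕ} {R : ℝ} {a b a' b' : ℕ → ℝ} {κ : ℝ} (ha : ∀ l < K, a l = a' l)
    (hb : ∀ l < K, b l = b' l) (h : GoodK K R a b κ) : GoodK K R a' b' κ := by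
  intro i j hij hj hl
  obtain ⟨h1, h2⟩ := h i j hij hj hl
  have e1 : ∑ l ∈ Finset.Ico i j, a' l / Real.sqrt R = ∑ l ∈ Finset.Ico i j, a l / Real.sqrt R := by
    refine Finset.sum_congr rfl fun l hl => ?_
    rw [ha l (by have := (Finset.mem_Ico.1 hl).2; omega)]
  have e2 : ∑ l ∈ Finset.Ico i j, (b' l ^ 2 / R - 1) =
      ∑ l ∈ Finset.Ico i j, (b l ^ 2 / R - 1) := by
    refine Finset.sum_congr rfl fun l hl => ?_
    rw [hb l (by have := (Finset.mem_Ico.1 hl).2; omega)]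
  rw [e1, e2]
  exact ⟨h1, h2⟩

theorem kap_congr {K : ℕ} {R : ℝ} {a b a' b' : ℕ → ℝ} (ha : ∀ l < K, a l = a' l)
    (hb : ∀ l < K, b l = b' l) : kap K R a b = kap K R a' b' := by
  have h : {i : ℕ | GoodK K R a b (2 ^ i / K)} = {i : ℕ | GoodK K R a' b' (2 ^ i / K)} := by
    ext i
    exact ⟨fun h => good_congr ha hb h,
      fun h => good_congr (fun l hl => (ha l hl).symm) (fun l hl => (hb l hl).symm) h⟩
  unfold kap
  rw [h]

/-- the exponent -/
noncomputable def xk (K : ℕ) (R : ℝ) (a b : ℕ → ℝ) : ℝ :=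
  exK K (kap K R a b) (fun l => b l / Real.sqrt R)

theorem xk_congr {K : ℕ} {R : ℝ} {a b a' b' : ℕ → ℝ} (ha : ∀ l < K, a l = a' l)
    (hb : ∀ l < K, b l = b' l) : xk K R a b = xk K R a' b' := by
  unfold xk exK
  rw [kap_congr ha hb]
  congr 1
  refine Finset.sum_congr rfl fun i hi => ?_
  beta_reduce
  rw [hb i (Finset.mem_range.1 hi)]

theorem meas_kap (K : ℕ) (f : (ℕ → ℝ) × (ℕ → ℝ) → ℝ) (h0 : Measurable f) :
    Measurable fun w : Fin K → ℝ × ℝ => f (xa w, xb w) := by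
  have h1 : Measurable fun w : Fin K → ℝ × ℝ => ((xa w, xb w) : (ℕ → ℝ) × (ℕ → ℝ)) :=
    (measurable_pi_iff.2 fun l => DMOM.meas_xa K l).prodMk
      (measurable_pi_iff.2 fun l => DMOM.meas_xb K l)
  exact h0.comp h1

theorem meas_xk (hKM0 : SpecKM0) (K : ℕ) (R : ℝ) (hK : 1 ≤ K) :
    Measurable fun w : Fin K → ℝ × ℝ => xk K R (xa w) (xb w) := by
  have h2 : Measurable fun w : Fin K → ℝ × ℝ => kap K R (xa w) (xb w) :=
    meas_kap K (fun p => kap K R p.1 p.2) (hKM0 K R hK).2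
  have h3 : Measurable fun w : Fin K → ℝ × ℝ => ∑ l ∈ Finset.range K,
      max 0 (-Real.log (2 * (xb w l / Real.sqrt R))) := by
    refine Finset.measurable_sum _ fun i _ => ?_
    exact measurable_const.max
      ((Real.measurable_log.comp (((DMOM.meas_xb K i).div_const _).const_mul 2)).neg)
  have h4 : (fun w : Fin K → ℝ × ℝ => xk K R (xa w) (xb w)) = fun w =>
      (1 + K * kap K R (xa w) (xb w)) + ∑ l ∈ Finset.range K,
        max 0 (-Real.log (2 * (xb w l / Real.sqrt R))) := by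
    funext w
    rfl
  rw [h4]
  exact ((h2.const_mul _).const_add _).add h3

variable {ι : Type} [Fintype ι] [DecidableEq ι] {E : Type} [NormedAddCommGroup E]
  [InnerProductSpace ℝ E]

lemma gdata (hKM0 : SpecKM0) (S : BStr ι E) (A : E →L[ℝ] E) (u : E) (hA : Herm S A)
    (hu : ‖u‖ = 1) (k : ℕ) (hb : ∀ l < 2 * k + 3, bv A u l ≠ 0) (hD : 0 < dm E) :
    GDataK A u k (dm E) (kap (2 * k + 3) (dm E) (av A u) (bv A u)) := by
  obtain ⟨h1, h2⟩ := (hKM0 (2 * k + 3) (dm E) (by omega)).1 (av A u) (bv A u)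
  exact
    { sym := hA.1
      unit := hu
      R_pos := hD
      pos := h1
      b_ne := fun l hl => hb l (by omega)
      suma := fun i j hij hj hl => (h2 i j hij hj hl).1
      sumb := fun i j hij hj hl => (h2 i j hij hj hl).2 }

lemma inner_bounds [FiniteDimensional ℝ E] {C₀ : ℝ}
    (hG : ∀ (E : Type) [NormedAddCommGroup E]
      [InnerProductSpace ℝ E] [FiniteDimensional ℝ E] (A : E →L[ℝ] E) (u : E) (k : ℕ) (R κ : ℝ),
      GDataK A u k R κ → ∃ x y : ℕ → E,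
      (∀ H : E →L[ℝ] E, (∀ x y, ⟪H x, y⟫ = ⟪x, H y⟫) →
        fderiv ℝ (fun A : E →L[ℝ] E => av A u k) A H =
          ∑ i ∈ Finset.range (k + 1), ⟪x i, H (qv A u i)⟫) ∧
      (∀ H : E →L[ℝ] E, (∀ x y, ⟪H x, y⟫ = ⟪x, H y⟫) →
        fderiv ℝ (fun A : E →L[ℝ] E => bv A u k ^ 2) A H =
          ∑ i ∈ Finset.range (k + 1), ⟪y i, H (qv A u i)⟫) ∧
      ∑ i ∈ Finset.range (k + 1), ‖x i‖ ^ 2 ≤
        C₀ * (k + 1) * Real.exp (C₀ * exK (2 * k + 3) κ (fun l => bv A u l / Real.sqrt R)) ∧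
      ∑ i ∈ Finset.range (k + 1), ‖y i‖ ^ 2 ≤
        C₀ * R * (k + 1) * Real.exp (C₀ * exK (2 * k + 3) κ (fun l => bv A u l / Real.sqrt R)))
    (hVAR : SpecVAR) (hLOR : SpecLOR) (hLHM : SpecLHM) (hKM0 : SpecKM0)
    (S : BStr ι E) (ν : Measure (Unit → E →L[ℝ] E)) (hν : GFam S (fun _ _ => 1) ν)
    (A : E →L[ℝ] E) (u : E) (hA : Herm S A) (hu : ‖u‖ = 1) (k : ℕ)
    (hb : ∀ l < 2 * k + 3, bv A u l ≠ 0) (hD : 0 < dm E) :
    ∫⁻ G, ENNReal.ofReal ((fderiv ℝ (fun A : E →L[ℝ] E => av A u k) A (G ())) ^ 4) ∂ν ≤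
      ENNReal.ofReal (12 * (C₀ * (k + 1) *
        Real.exp (C₀ * xk (2 * k + 3) (dm E) (av A u) (bv A u))) ^ 2) ∧
    ∫⁻ G, ENNReal.ofReal ((fderiv ℝ (fun A : E →L[ℝ] E => bv A u k ^ 2) A (G ())) ^ 4) ∂ν ≤
      ENNReal.ofReal (12 * (C₀ * dm E * (k + 1) *
        Real.exp (C₀ * xk (2 * k + 3) (dm E) (av A u) (bv A u))) ^ 2) := by
  obtain ⟨x, y, hx, hy, hxb, hyb⟩ := hG E A u k (dm E) _ (gdata hKM0 S A u hA hu k hb hD)
  have hq := DBDM.q_on hLOR hLHM S A u hA hu k (fun l hl => hb l (by omega))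
  obtain ⟨hx4, -⟩ := hVAR ι E S ν hν (k + 1) x (qv A u) hq
  obtain ⟨hy4, -⟩ := hVAR ι E S ν hν (k + 1) y (qv A u) hq
  have hxs : 0 ≤ ∑ i ∈ Finset.range (k + 1), ‖x i‖ ^ 2 := Finset.sum_nonneg fun _ _ => sq_nonneg _
  have hys : 0 ≤ ∑ i ∈ Finset.range (k + 1), ‖y i‖ ^ 2 := Finset.sum_nonneg fun _ _ => sq_nonneg _
  refine ⟨?_, ?_⟩
  · have h1 : ∫⁻ G, ENNReal.ofReal ((fderiv ℝ (fun A : E →L[ℝ] E => av A u k) A (G ())) ^ 4) ∂ν =
        ∫⁻ G, ENNReal.ofReal ((∑ i ∈ Finset.range (k + 1), ⟪x i, G () (qv A u i)⟫) ^ 4) ∂ν := by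
      refine lintegral_congr_ae ?_
      filter_upwards [hν.herm] with G hGh
      rw [hx (G ()) (hGh ()).1]
    rw [h1]
    refine hx4.trans (ENNReal.ofReal_le_ofReal ?_)
    have := pow_le_pow_left₀ hxs hxb 2
    exact mul_le_mul_of_nonneg_left this (by norm_num)
  · have h1 : ∫⁻ G, ENNReal.ofReal ((fderiv ℝ (fun A : E →L[ℝ] E => bv A u k ^ 2) A
        (G ())) ^ 4) ∂ν =
        ∫⁻ G, ENNReal.ofReal ((∑ i ∈ Finset.range (k + 1), ⟪y i, G () (qv A u i)⟫) ^ 4) ∂ν := by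
      refine lintegral_congr_ae ?_
      filter_upwards [hν.herm] with G hGh
      rw [hy (G ()) (hGh ()).1]
    rw [h1]
    refine hy4.trans (ENNReal.ofReal_le_ofReal ?_)
    have := pow_le_pow_left₀ hys hyb 2
    exact mul_le_mul_of_nonneg_left this (by norm_num)

/-- integration of the bounds of the fourth moments -/
lemma fourth (μ : Measure (Unit → E →L[ℝ] E)) (F : (Unit → E →L[ℝ] E) → ℝ≥0∞)
    (X : (Unit → E →L[ℝ] E) → ℝ) (B C₀ C₁ C K D : ℝ) (k : ℕ)
    (hC₀ : 0 < C₀) (hC₁ : 0 < C₁) (hD : 0 < D) (hK : K = 2 * k + 3) (hC : 36 * C₀ ^ 2 * C₁ ≤ C)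
    (hC' : 6 * C₁ ≤ C)
    (h1 : ∀ᵐ M ∂μ, F M ≤ ENNReal.ofReal (12 * (C₀ * B * (k + 1) * Real.exp (C₀ * X M)) ^ 2))
    (h2 : ∫⁻ M, ENNReal.ofReal (Real.exp (2 * C₀ * X M)) ∂μ ≤
      ENNReal.ofReal (C₁ * K ^ (1 / 100 : ℝ) * Real.exp (C₁ * Real.sqrt (K ^ 3 / D)))) :
    ∫⁻ M, F M ∂μ ≤ ENNReal.ofReal (C * B ^ 2 * ((k : ℝ) + 1) ^ 2 * ((k : ℝ) + 1) ^ (1 / 100 : ℝ) *
      Real.exp (C * Real.sqrt (((k : ℝ) + 1) ^ 3 / D))) := by
  have hk : (0 : ℝ) ≤ k := Nat.cast_nonneg _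
  have hK0 : 0 < K := by rw [hK]; positivity
  have hK3 : K ≤ 3 * ((k : ℝ) + 1) := by rw [hK]; linarith
  calc ∫⁻ M, F M ∂μ ≤ ∫⁻ M, ENNReal.ofReal (12 * C₀ ^ 2 * B ^ 2 * ((k : ℝ) + 1) ^ 2) *
        ENNReal.ofReal (Real.exp (2 * C₀ * X M)) ∂μ := by
        refine lintegral_mono_ae ?_
        filter_upwards [h1] with M hM
        refine hM.trans (le_of_eq ?_)
        rw [← ENNReal.ofReal_mul (by positivity)]
        congr 1
        have : Real.exp (2 * C₀ * X M) = Real.exp (C₀ * X M) ^ 2 := by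
          rw [← Real.exp_nat_mul]; congr 1; push_cast; ring
        rw [this]
        ring
    _ ≤ ENNReal.ofReal (12 * C₀ ^ 2 * B ^ 2 * ((k : ℝ) + 1) ^ 2) *
        ENNReal.ofReal (C₁ * K ^ (1 / 100 : ℝ) * Real.exp (C₁ * Real.sqrt (K ^ 3 / D))) := by
        rw [lintegral_const_mul' _ _ ENNReal.ofReal_ne_top]
        gcongr
    _ ≤ _ := by
        rw [← ENNReal.ofReal_mul (by positivity)]
        apply ENNReal.ofReal_le_ofReal
        have hp : K ^ (1 / 100 : ℝ) ≤ 3 * ((k : ℝ) + 1) ^ (1 / 100 : ℝ) := by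
          calc K ^ (1 / 100 : ℝ) ≤ (3 * ((k : ℝ) + 1)) ^ (1 / 100 : ℝ) :=
                Real.rpow_le_rpow hK0.le hK3 (by norm_num)
            _ = 3 ^ (1 / 100 : ℝ) * ((k : ℝ) + 1) ^ (1 / 100 : ℝ) :=
                Real.mul_rpow (by norm_num) (by positivity)
            _ ≤ 3 * ((k : ℝ) + 1) ^ (1 / 100 : ℝ) := by
                gcongr
                calc (3 : ℝ) ^ (1 / 100 : ℝ) ≤ (3 : ℝ) ^ (1 : ℝ) :=
                      Real.rpow_le_rpow_of_exponent_le (by norm_num) (by norm_num)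
                  _ = 3 := Real.rpow_one 3
        have hs : Real.sqrt (K ^ 3 / D) ≤ 6 * Real.sqrt (((k : ℝ) + 1) ^ 3 / D) := by
          have h3 : K ^ 3 ≤ 27 * ((k : ℝ) + 1) ^ 3 := by
            calc K ^ 3 ≤ (3 * ((k : ℝ) + 1)) ^ 3 := pow_le_pow_left₀ hK0.le hK3 3
              _ = 27 * ((k : ℝ) + 1) ^ 3 := by ring
          have h4 : K ^ 3 / D ≤ 6 ^ 2 * (((k : ℝ) + 1) ^ 3 / D) := by
            rw [← mul_div_assoc]
            apply div_le_div_of_nonneg_right _ hD.le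
            nlinarith [pow_nonneg (by positivity : (0 : ℝ) ≤ (k : ℝ) + 1) 3]
          calc Real.sqrt (K ^ 3 / D) ≤ Real.sqrt (6 ^ 2 * (((k : ℝ) + 1) ^ 3 / D)) :=
                Real.sqrt_le_sqrt h4
            _ = 6 * Real.sqrt (((k : ℝ) + 1) ^ 3 / D) := by
                rw [Real.sqrt_mul (by norm_num), Real.sqrt_sq (by norm_num)]
        have he : Real.exp (C₁ * Real.sqrt (K ^ 3 / D)) ≤
            Real.exp (C * Real.sqrt (((k : ℝ) + 1) ^ 3 / D)) := by
          apply Real.exp_le_exp.mpr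
          calc C₁ * Real.sqrt (K ^ 3 / D) ≤ C₁ * (6 * Real.sqrt (((k : ℝ) + 1) ^ 3 / D)) :=
                mul_le_mul_of_nonneg_left hs hC₁.le
            _ = 6 * C₁ * Real.sqrt (((k : ℝ) + 1) ^ 3 / D) := by ring
            _ ≤ C * Real.sqrt (((k : ℝ) + 1) ^ 3 / D) :=
                mul_le_mul_of_nonneg_right hC' (Real.sqrt_nonneg _)
        calc 12 * C₀ ^ 2 * B ^ 2 * ((k : ℝ) + 1) ^ 2 *
              (C₁ * K ^ (1 / 100 : ℝ) * Real.exp (C₁ * Real.sqrt (K ^ 3 / D)))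
            ≤ 12 * C₀ ^ 2 * B ^ 2 * ((k : ℝ) + 1) ^ 2 *
              (C₁ * (3 * ((k : ℝ) + 1) ^ (1 / 100 : ℝ)) *
                Real.exp (C * Real.sqrt (((k : ℝ) + 1) ^ 3 / D))) := by
              gcongr
          _ = 36 * C₀ ^ 2 * C₁ * (B ^ 2 * ((k : ℝ) + 1) ^ 2 * ((k : ℝ) + 1) ^ (1 / 100 : ℝ) *
              Real.exp (C * Real.sqrt (((k : ℝ) + 1) ^ 3 / D))) := by ring
          _ ≤ C * (B ^ 2 * ((k : ℝ) + 1) ^ 2 * ((k : ℝ) + 1) ^ (1 / 100 : ℝ) *
              Real.exp (C * Real.sqrt (((k : ℝ) + 1) ^ 3 / D))) := by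
              apply mul_le_mul_of_nonneg_right hC (by positivity)
          _ = _ := by ring

/-- exponential moments under the law of the matrix -/
lemma exp_moment [FiniteDimensional ℝ E] (hDEL : SpecDEL) (hKM0 : SpecKM0) (hMEA : SpecMEA)
    {s C₁ : ℝ}
    (hX : ∀ (K D : ℕ), 1 ≤ K → C₁ * K ≤ D →
      ∫⁻ w, ENNReal.ofReal (Real.exp (s * exK K (kap K D (xa w) (xb w))
        (fun l => xb w l / Real.sqrt D)))
        ∂(deLaw (fun j => D - Fintype.card ι * (j + 1)) K) ≤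
      ENNReal.ofReal (C₁ * (K : ℝ) ^ (1 / 100 : ℝ) * Real.exp (C₁ * Real.sqrt ((K : ℝ) ^ 3 / D))))
    (S : BStr ι E) (u : E) (ν : Measure (Unit → E →L[ℝ] E)) (hν : GFam S (fun _ _ => 1) ν)
    (hu : ‖u‖ = 1) (K : ℕ) (hK : 1 ≤ K) (h1 : C₁ * K ≤ (Module.finrank ℝ E : ℕ))
    (h2 : Fintype.card ι * K < Module.finrank ℝ E) :
    (∀ᵐ M ∂ν, ∀ l < K, bv (M ()) u l ≠ 0) ∧
    ∫⁻ M, ENNReal.ofReal (Real.exp (s * xk K (dm E) (av (M ()) u) (bv (M ()) u))) ∂ν ≤
      ENNReal.ofReal (C₁ * (K : ℝ) ^ (1 / 100 : ℝ) *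
        Real.exp (C₁ * Real.sqrt ((K : ℝ) ^ 3 / dm E))) := by
  obtain ⟨hb, hlaw⟩ := hDEL ι E S u ν hν hu K h2
  refine ⟨hb, ?_⟩
  have h3 : ∫⁻ w, ENNReal.ofReal (Real.exp (s *
      xk K (Module.finrank ℝ E : ℕ) (xa w) (xb w)))
      ∂(deLaw (fun j => Module.finrank ℝ E - Fintype.card ι * (j + 1)) K) ≤
      ENNReal.ofReal (C₁ * (K : ℝ) ^ (1 / 100 : ℝ) *
        Real.exp (C₁ * Real.sqrt ((K : ℝ) ^ 3 / (Module.finrank ℝ E : ℕ)))) :=
    hX K (Module.finrank ℝ E) hK h1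
  let _ : MeasurableSpace E := borel E
  have : BorelSpace E := ⟨rfl⟩
  have hpast : Measurable fun (M : Unit → E →L[ℝ] E) (j : Fin K) =>
      (av (M ()) u j, bv (M ()) u j) := measurable_pi_iff.2 fun j =>
    ((hMEA ι E Unit S u j).2.2.1 ()).prodMk ((hMEA ι E Unit S u j).2.2.2.1 ())
  have hm : Measurable fun w : Fin K → ℝ × ℝ => ENNReal.ofReal (Real.exp (s *
      xk K (Module.finrank ℝ E : ℕ) (xa w) (xb w))) :=
    ENNReal.measurable_ofReal.comp (Real.measurable_exp.comp ((meas_xk hKM0 K _ hK).const_mul s))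
  rw [← hlaw, lintegral_map hm hpast] at h3
  have e1 : ∀ M : Unit → E →L[ℝ] E,
      xk K (Module.finrank ℝ E : ℕ) (xa (fun j : Fin K => (av (M ()) u j, bv (M ()) u j)))
        (xb (fun j : Fin K => (av (M ()) u j, bv (M ()) u j))) =
      xk K (dm E) (av (M ()) u) (bv (M ()) u) := by
    intro M
    refine xk_congr (fun l hl => ?_) fun l hl => ?_
    · rw [xa, dif_pos hl]
    · rw [xb, dif_pos hl]
  simp_rw [e1] at h3
  exact h3

end DBKM

open DBKM in
theorem specDBK (hGBK : SpecGBK) (hVAR : SpecVAR) (hDEL : SpecDEL) (hKMO : SpecKMO)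
    (hKM0 : SpecKM0) (hLOR : SpecLOR) (hLHM : SpecLHM) (hMEA : SpecMEA) : SpecDBK := by
  intro ι _ _
  obtain ⟨C₀, hC₀, hG⟩ := hGBK
  obtain ⟨C₁, hC₁, hM⟩ := hKMO (Fintype.card ι) (2 * C₀) (by positivity)
  refine ⟨36 * C₀ ^ 2 * C₁ + 6 * C₁ + 3 * Fintype.card ι + 1, by positivity, ?_⟩
  intro E _ _ _ S u ν hν hu k hCk
  set C := 36 * C₀ ^ 2 * C₁ + 6 * C₁ + 3 * Fintype.card ι + 1 with hC
  have hι : (0 : ℝ) ≤ Fintype.card ι := Nat.cast_nonneg _
  have hk : (0 : ℝ) ≤ k := Nat.cast_nonneg _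
  have hcc : 0 ≤ 36 * C₀ ^ 2 * C₁ := by positivity
  have hle : ∀ c : ℝ, c ≤ C → c * (k + 1) ≤ dm E := fun c hc =>
    (mul_le_mul_of_nonneg_right hc (by positivity)).trans hCk
  have hD : 0 < dm E := lt_of_lt_of_le (by positivity : (0 : ℝ) < 1 * (k + 1))
    (hle 1 (by rw [hC]; linarith))
  have hdm : dm E = ((Module.finrank ℝ E : ℕ) : ℝ) := rfl
  have hK : C₁ * ((2 * k + 3 : ℕ) : ℝ) ≤ ((Module.finrank ℝ E : ℕ) : ℝ) := by
    have := hle (3 * C₁) (by rw [hC]; linarith)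
    rw [← hdm]
    push_cast
    nlinarith
  have hK2 : Fintype.card ι * (2 * k + 3) < Module.finrank ℝ E := by
    have h1 := hle (3 * Fintype.card ι + 1) (by rw [hC]; linarith)
    have h2 : ((Fintype.card ι * (2 * k + 3) : ℕ) : ℝ) < ((Module.finrank ℝ E : ℕ) : ℝ) := by
      rw [← hdm]
      push_cast
      nlinarith
    exact_mod_cast h2
  obtain ⟨hne, hexp⟩ := exp_moment hDEL hKM0 hMEA hM S u ν hν hu (2 * k + 3) (by omega) hK hK2
  have hin := (hne.and hν.herm).mono fun M hM =>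
    inner_bounds hG hVAR hLOR hLHM hKM0 S ν hν (M ()) u (hM.2 ()) hu k hM.1 hD
  refine ⟨?_, ?_⟩
  · have h := fourth ν (fun M => ∫⁻ G, ENNReal.ofReal
      ((fderiv ℝ (fun A : E →L[ℝ] E => av A u k) (M ()) (G ())) ^ 4) ∂ν)
      (fun M => xk (2 * k + 3) (dm E) (av (M ()) u) (bv (M ()) u)) 1 C₀ C₁ C
      ((2 * k + 3 : ℕ) : ℝ) (dm E) k hC₀ hC₁ hD (by push_cast; ring)
      (by rw [hC]; linarith) (by rw [hC]; linarith)
      (by
        filter_upwards [hin] with M hM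
        rw [mul_one]
        exact hM.1) hexp
    rw [one_pow, mul_one] at h
    exact h
  · exact fourth ν (fun M => ∫⁻ G, ENNReal.ofReal
      ((fderiv ℝ (fun A : E →L[ℝ] E => bv A u k ^ 2) (M ()) (G ())) ^ 4) ∂ν)
      (fun M => xk (2 * k + 3) (dm E) (av (M ()) u) (bv (M ()) u)) (dm E) C₀ C₁ C
      ((2 * k + 3 : ℕ) : ℝ) (dm E) k hC₀ hC₁ hD (by push_cast; ring)
      (by rw [hC]; linarith) (by rw [hC]; linarith)
      (by
        filter_upwards [hin] with M hM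
        exact hM.2) hexp

end Pool.Agent.Lib.MP17fa2c
end

section
/-!
# MP_17fa2c_pr, module EKG: multi-scale edge estimates
-/
set_option autoImplicit false

namespace Pool.Agent.Lib.MP17fa2c

namespace EKGM

lemma one_le_max (κ : ℝ) (l : ℕ) : (((l + 1 : ℕ) : ℝ) - l) ≤ max 1 (1 / κ) := by
  push_cast
  rw [add_sub_cancel_left]
  exact le_max_left _ _

section Basic

variable {α B : ℕ → ℝ} {N : ℕ} {κ : ℝ} (hE : EdgeK α B N κ)

include hE

lemma ha : ∀ l < N, |α l| ≤ κ := by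
  intro l hl
  have h := hE.sumα l (l + 1) (by omega) hl (one_le_max κ l)
  rwa [Nat.Ico_succ_singleton, Finset.sum_singleton] at h

lemma hb2 : ∀ l < N, |B l ^ 2 - 1| ≤ κ := by
  intro l hl
  have h := hE.sumB l (l + 1) (by omega) hl (one_le_max κ l)
  rwa [Nat.Ico_succ_singleton, Finset.sum_singleton] at h

lemma hb : ∀ l < N, |B l - 1| ≤ κ := by
  intro l hl
  have h1 := hb2 hE l hl
  have hp := hE.B_pos l hl
  have h2 : |B l - 1| ≤ |B l ^ 2 - 1| := by
    have : B l ^ 2 - 1 = (B l + 1) * (B l - 1) := by ring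
    rw [this, abs_mul, abs_of_pos (by linarith : (0 : ℝ) < B l + 1)]
    nlinarith [abs_nonneg (B l - 1)]
  linarith

lemma edge_neg : EdgeK (fun l => -α l) B N κ where
  pos := hE.pos
  B_pos := hE.B_pos
  sumα := by
    intro i j hij hj h
    rw [Finset.sum_neg_distrib, abs_neg]
    exact hE.sumα i j hij hj h
  sumB := hE.sumB

end Basic

lemma pol_neg {α B : ℕ → ℝ} {N : ℕ} {y : ℝ} {p : ℕ → ℝ} (h : PolRec α B N y p) :
    PolRec (fun l => -α l) B N (-y) (fun l => (-1) ^ l * p l) where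
  zero := by simp [h.zero]
  one := by
    intro hN
    have := h.one hN
    linear_combination -this
  succ := by
    intro l hl
    have := h.succ l hl
    rw [pow_succ, pow_succ]
    linear_combination ((-1) ^ l) * this

lemma sum_nn (N : ℕ) (B : ℕ → ℝ) : 0 ≤ ∑ l ∈ Finset.range N, max 0 (-Real.log (2 * B l)) :=
  Finset.sum_nonneg fun _ _ => le_max_left _ _

lemma exK_ge (N : ℕ) (κ : ℝ) (B : ℕ → ℝ) : 1 + (N : ℝ) * κ ≤ exK N κ B := by
  unfold exK
  have := sum_nn N B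
  linarith

/-! ### small `κ` -/

/-- all estimates for `0 ≤ y`, small `κ` -/
lemma small {C : ℝ} (hC1 : 1 ≤ C) (hEKB : ∀ (α B : ℕ → ℝ) (N : ℕ) (κ y : ℝ) (p : ℕ → ℝ) (b L : ℕ),
      EdgeK α B N κ → κ ≤ 1 / 64 → PolRec α B N y p → 0 ≤ y → y ≤ 2 + 1000 * κ ^ 2 →
      b + L < N → (L : ℝ) ≤ 1 / κ →
      max κ (Real.sqrt (2 - y)) ^ 2 * p (b + L) ^ 2 +
          (B (b + L) * p (b + L + 1) - p (b + L)) ^ 2 ≤
        C * (max κ (Real.sqrt (2 - y)) ^ 2 * p b ^ 2 + (B b * p (b + 1) - p b) ^ 2))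
    (α B : ℕ → ℝ) (N : ℕ) (κ y : ℝ) (p : ℕ → ℝ) (hE : EdgeK α B N κ) (hκ : κ ≤ 1 / 64)
    (hP : PolRec α B N y p) (hy0 : 0 ≤ y) (hy : y ≤ 2 + 1000 * κ ^ 2) :
    (∀ l < N, |p (l + 1) - p l| ≤ 6 * Real.exp (Real.log C * exK N κ B)) ∧
    ∀ l, l + 1 < N → |B (l + 1) * p (l + 2) - B l * p l| ≤
      28 * Real.exp (Real.log C * exK N κ B) := by
  have hκ0 := hE.pos
  have hlog : 0 ≤ Real.log C := Real.log_nonneg hC1
  have hC0 : 0 < C := by linarith
  set σ : ℝ := max κ (Real.sqrt (2 - y)) with hσ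
  have hσκ : κ ≤ σ := le_max_left _ _
  have hσ0 : 0 < σ := lt_of_lt_of_le hκ0 hσκ
  have hσ2 : σ ^ 2 ≤ 2 := by
    rcases max_choice κ (Real.sqrt (2 - y)) with h | h
    · rw [hσ, h]; nlinarith
    · rw [hσ, h]
      rcases le_total 0 (2 - y) with h1 | h1
      · rw [Real.sq_sqrt h1]; linarith
      · rw [Real.sqrt_eq_zero_of_nonpos h1]; norm_num
  set Q : ℕ → ℝ := fun l => σ ^ 2 * p l ^ 2 + (B l * p (l + 1) - p l) ^ 2 with hQ
  have hQ0 : ∀ l, 0 ≤ Q l := fun l => by positivity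
  set m : ℕ := ⌊1 / κ⌋₊ with hm
  have h64 : (64 : ℝ) ≤ 1 / κ := by
    rw [le_div_iff₀ hκ0]; linarith
  have hmle : (m : ℝ) ≤ 1 / κ := Nat.floor_le (by positivity)
  have hmgt : 1 / κ < m + 1 := Nat.lt_floor_add_one _
  have hm1 : (1 : ℝ) ≤ 2 * κ * m := by
    have h1 : (1 : ℝ) / κ ≤ 2 * m := by linarith
    rw [div_le_iff₀ hκ0] at h1
    linarith
  have hmpos : 0 < m := by
    have : (0 : ℝ) < m := by linarith
    exact_mod_cast this
  have hstart : 0 < N → Q 0 ≤ 4 := by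
    intro hN
    have h1 := hP.one hN
    have h0 := hP.zero
    have h2 := abs_le.1 (ha hE 0 hN)
    simp only [hQ, zero_add, h1, h0]
    have h3 : κ ^ 2 ≤ (1 / 64) ^ 2 := pow_le_pow_left₀ hκ0.le hκ 2
    have h4 : -(13 / 10) ≤ y - α 0 - 1 := by linarith [h2.2]
    have h5 : y - α 0 - 1 ≤ 13 / 10 := by linarith [h2.1]
    nlinarith
  have hgrow : ∀ l, l < N → Q l ≤ C ^ (l / m + 1) * 4 := by
    intro l
    induction l using Nat.strong_induction_on with
    | _ l ih =>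
      intro hl
      rcases lt_or_ge l m with hlm | hlm
      · have h1 := hEKB α B N κ y p 0 l hE hκ hP hy0 hy (by omega)
          ((by exact_mod_cast hlm.le : (l : ℝ) ≤ m).trans hmle)
        rw [zero_add] at h1
        rw [Nat.div_eq_of_lt hlm, zero_add, pow_one]
        exact h1.trans (mul_le_mul_of_nonneg_left (hstart (by omega)) hC0.le)
      · have h1 := hEKB α B N κ y p (l - m) m hE hκ hP hy0 hy (by omega) hmle
        have e : l - m + m = l := by omega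
        rw [e] at h1
        have h2 := ih (l - m) (by omega) (by omega)
        have e2 : l / m = (l - m) / m + 1 := Nat.div_eq_sub_div hmpos hlm
        rw [e2, pow_succ]
        calc Q l ≤ C * Q (l - m) := h1
          _ ≤ C * (C ^ ((l - m) / m + 1) * 4) := mul_le_mul_of_nonneg_left h2 hC0.le
          _ = _ := by ring
  set X := exK N κ B with hX
  have hXge := exK_ge N κ B
  have hQX : ∀ l < N, Q l ≤ 4 * Real.exp (2 * (Real.log C * X)) := by
    intro l hl
    refine (hgrow l hl).trans ?_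
    rw [mul_comm]
    apply mul_le_mul_of_nonneg_left _ (by norm_num)
    have h1 : C ^ (l / m + 1) = Real.exp (((l / m + 1 : ℕ) : ℝ) * Real.log C) := by
      rw [Real.exp_nat_mul, Real.exp_log hC0]
    rw [h1]
    apply Real.exp_le_exp.2
    have h2 : ((l / m : ℕ) : ℝ) ≤ 2 * (N * κ) := by
      have h3 : ((l / m : ℕ) : ℝ) * m ≤ N := by
        have : l / m * m ≤ N := (Nat.div_mul_le_self l m).trans hl.le
        exact_mod_cast this
      have h4 : (0 : ℝ) ≤ ((l / m : ℕ) : ℝ) := Nat.cast_nonneg _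
      calc ((l / m : ℕ) : ℝ) = ((l / m : ℕ) : ℝ) * 1 := (mul_one _).symm
        _ ≤ ((l / m : ℕ) : ℝ) * (2 * κ * m) := mul_le_mul_of_nonneg_left hm1 h4
        _ = 2 * κ * (((l / m : ℕ) : ℝ) * m) := by ring
        _ ≤ 2 * κ * N := mul_le_mul_of_nonneg_left h3 (by linarith)
        _ = _ := by ring
    have h5 : ((l / m + 1 : ℕ) : ℝ) ≤ 2 * X := by
      push_cast at h2 ⊢
      have : 0 ≤ (N : ℝ) * κ := by positivity
      linarith
    calc ((l / m + 1 : ℕ) : ℝ) * Real.log C ≤ 2 * X * Real.log C :=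
          mul_le_mul_of_nonneg_right h5 hlog
      _ = _ := by ring
  set Y := Real.exp (Real.log C * X) with hY
  have hY0 : 0 < Y := Real.exp_pos _
  have hY2 : Real.exp (2 * (Real.log C * X)) = Y ^ 2 := by
    rw [hY, ← Real.exp_nat_mul]; norm_num
  have hpσ : ∀ l < N, σ * |p l| ≤ 2 * Y := by
    intro l hl
    apply le_of_sq_le_sq _ (by positivity)
    rw [mul_pow, sq_abs]
    have h1 := hQX l hl
    rw [hY2] at h1
    simp only [hQ] at h1
    nlinarith [sq_nonneg (B l * p (l + 1) - p l)]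
  have hdiff : ∀ l < N, |p (l + 1) - p l| ≤ 6 * Y := by
    intro l hl
    have h1 := hQX l hl
    rw [hY2] at h1
    simp only [hQ] at h1
    have hbl := hb hE l hl
    have hB12 : 63 / 64 ≤ B l := by linarith [(abs_le.1 hbl).1]
    have h2 : B l * (p (l + 1) - p l) = (B l * p (l + 1) - p l) + -((B l - 1) * p l) := by ring
    have h3 : |B l * (p (l + 1) - p l)| ≤ |B l * p (l + 1) - p l| + σ * |p l| := by
      rw [h2]
      refine (abs_add_le _ _).trans (add_le_add le_rfl ?_)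
      rw [abs_neg, abs_mul]
      exact mul_le_mul_of_nonneg_right (hbl.trans hσκ) (abs_nonneg _)
    rw [abs_mul, abs_of_pos (by linarith : 0 < B l)] at h3
    have h4 : (|B l * p (l + 1) - p l| + σ * |p l|) ^ 2 ≤ 8 * Y ^ 2 := by
      have h5 : |B l * p (l + 1) - p l| ^ 2 + (σ * |p l|) ^ 2 ≤ 4 * Y ^ 2 := by
        rw [mul_pow, sq_abs, sq_abs]; linarith
      nlinarith [sq_nonneg (|B l * p (l + 1) - p l| - σ * |p l|)]
    have h5 : |B l * p (l + 1) - p l| + σ * |p l| ≤ 3 * Y := by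
      apply le_of_sq_le_sq _ (by positivity)
      nlinarith [sq_nonneg Y]
    have h6 := abs_nonneg (p (l + 1) - p l)
    nlinarith
  refine ⟨hdiff, ?_⟩
  intro l hl
  have e1 : B (l + 1) * p (l + 2) - B l * p l = B (l + 1) * (p (l + 2) - p (l + 1))
      + B l * (p (l + 1) - p l) + (B (l + 1) - B l) * p (l + 1) := by ring
  have b1 := hb hE (l + 1) hl
  have b0 := hb hE l (by omega)
  have b1' : |B (l + 1)| ≤ 2 := by
    rw [abs_of_pos (hE.B_pos _ hl)]
    linarith [(abs_le.1 b1).2]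
  have b0' : |B l| ≤ 2 := by
    rw [abs_of_pos (hE.B_pos l (by omega))]
    linarith [(abs_le.1 b0).2]
  have h1 : |B (l + 1) * (p (l + 2) - p (l + 1))| ≤ 2 * (6 * Y) := by
    rw [abs_mul]
    exact mul_le_mul b1' (hdiff (l + 1) hl) (abs_nonneg _) (by norm_num)
  have h2 : |B l * (p (l + 1) - p l)| ≤ 2 * (6 * Y) := by
    rw [abs_mul]
    exact mul_le_mul b0' (hdiff l (by omega)) (abs_nonneg _) (by norm_num)
  have h3 : |(B (l + 1) - B l) * p (l + 1)| ≤ 2 * (2 * Y) := by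
    rw [abs_mul]
    have h4 : |B (l + 1) - B l| ≤ 2 * σ := by
      have h5 := abs_sub (B (l + 1) - 1) (B l - 1)
      have h8 : B (l + 1) - 1 - (B l - 1) = B (l + 1) - B l := by ring
      rw [h8] at h5
      linarith
    calc |B (l + 1) - B l| * |p (l + 1)| ≤ 2 * σ * |p (l + 1)| :=
          mul_le_mul_of_nonneg_right h4 (abs_nonneg _)
      _ = 2 * (σ * |p (l + 1)|) := by ring
      _ ≤ _ := mul_le_mul_of_nonneg_left (hpσ (l + 1) hl) (by norm_num)
  rw [e1]
  have h5 := abs_add_le (B (l + 1) * (p (l + 2) - p (l + 1)) + B l * (p (l + 1) - p l))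
    ((B (l + 1) - B l) * p (l + 1))
  have h6 := abs_add_le (B (l + 1) * (p (l + 2) - p (l + 1))) (B l * (p (l + 1) - p l))
  linarith

/-! ### large `κ` -/

theorem inv_le {b g : ℝ} (hb : 0 < b) (hg : -Real.log (2 * b) ≤ g) : b⁻¹ ≤ 2 * Real.exp g := by
  have h1 : Real.exp (-Real.log (2 * b)) ≤ Real.exp g := Real.exp_le_exp.2 hg
  rw [Real.exp_neg, Real.exp_log (by positivity)] at h1
  have h2 : b⁻¹ = 2 * (2 * b)⁻¹ := by
    field_simp
  rw [h2]
  linarith

theorem const_le {κ : ℝ} (h : 1 / 64 ≤ κ) : 2006 * (1 + κ) ^ 2 ≤ Real.exp (600 * κ) := by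
  have h1 : 1 + κ ≤ Real.exp κ := by linarith [Real.add_one_le_exp κ]
  have h2 : (1 + κ) ^ 2 ≤ Real.exp κ ^ 2 := pow_le_pow_left₀ (by linarith) h1 2
  have h3 : (2006 : ℝ) ≤ Real.exp 8 := by
    have h4 : (2.7182818283 : ℝ) < Real.exp 1 := Real.exp_one_gt_d9
    have h5 : Real.exp 8 = Real.exp 1 ^ 8 := by
      rw [← Real.exp_nat_mul]
      norm_num
    rw [h5]
    calc (2006 : ℝ) ≤ 2.7182818283 ^ 8 := by norm_num
      _ ≤ Real.exp 1 ^ 8 := pow_le_pow_left₀ (by norm_num) h4.le 8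
  have h6 : Real.exp 8 ≤ Real.exp (598 * κ) := Real.exp_le_exp.2 (by linarith)
  have h7 : Real.exp (600 * κ) = Real.exp (598 * κ) * Real.exp κ ^ 2 := by
    rw [← Real.exp_nat_mul, ← Real.exp_add]
    congr 1
    push_cast
    ring
  rw [h7]
  exact mul_le_mul (h3.trans h6) h2 (by positivity) (Real.exp_pos _).le

/-- one step -/
theorem step {κ b b' a y q q' r g M : ℝ} (hκ : 1 / 64 ≤ κ) (hb : 0 < b) (hg0 : 0 ≤ g)
    (hg : -Real.log (2 * b) ≤ g) (hb'0 : 0 ≤ b') (hb' : b' ≤ 1 + κ) (ha : |a| ≤ κ)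
    (hy : |y| ≤ 2 + 1000 * κ ^ 2) (hq : |q| ≤ M) (hq' : |q'| ≤ M)
    (hr : b * r = (y - a) * q - b' * q') : |r| ≤ Real.exp (600 * (κ + g)) * M := by
  have hM : 0 ≤ M := (abs_nonneg _).trans hq
  have e1 : r = b⁻¹ * ((y - a) * q - b' * q') := by
    rw [← hr, ← mul_assoc, inv_mul_cancel₀ hb.ne', one_mul]
  have e2 : |(y - a) * q - b' * q'| ≤ (2 + 1000 * κ ^ 2 + κ) * M + (1 + κ) * M := by
    refine (abs_sub _ _).trans ?_
    rw [abs_mul, abs_mul, abs_of_nonneg hb'0]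
    refine add_le_add ?_ ?_
    · refine mul_le_mul ?_ hq (abs_nonneg _) (by positivity)
      refine (abs_sub _ _).trans ?_
      linarith
    · exact mul_le_mul hb' hq' (abs_nonneg _) (by linarith)
  have e3 : |r| ≤ 2 * Real.exp g * ((2 + 1000 * κ ^ 2 + κ) * M + (1 + κ) * M) := by
    rw [e1, abs_mul, abs_of_pos (inv_pos.2 hb)]
    exact mul_le_mul (inv_le hb hg) e2 (abs_nonneg _) (by positivity)
  have e4 : 2 * ((2 + 1000 * κ ^ 2 + κ) * M + (1 + κ) * M) ≤ 2006 * (1 + κ) ^ 2 * M := by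
    have : 2 * ((2 + 1000 * κ ^ 2 + κ) + (1 + κ)) ≤ 2006 * (1 + κ) ^ 2 := by nlinarith
    calc 2 * ((2 + 1000 * κ ^ 2 + κ) * M + (1 + κ) * M) =
        2 * ((2 + 1000 * κ ^ 2 + κ) + (1 + κ)) * M := by ring
      _ ≤ _ := mul_le_mul_of_nonneg_right this hM
  have e5 : Real.exp g ≤ Real.exp (600 * g) := Real.exp_le_exp.2 (by linarith)
  calc |r| ≤ Real.exp g * (2 * ((2 + 1000 * κ ^ 2 + κ) * M + (1 + κ) * M)) := by linarith
    _ ≤ Real.exp g * (2006 * (1 + κ) ^ 2 * M) := mul_le_mul_of_nonneg_left e4 (Real.exp_pos _).le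
    _ ≤ Real.exp (600 * g) * (Real.exp (600 * κ) * M) := by
      refine mul_le_mul e5 ?_ (by positivity) (Real.exp_pos _).le
      exact mul_le_mul_of_nonneg_right (const_le hκ) hM
    _ = _ := by
      rw [mul_add, Real.exp_add]
      ring

lemma crude (α B : ℕ → ℝ) (N : ℕ) (κ y : ℝ) (p : ℕ → ℝ) (hE : EdgeK α B N κ) (hκ : 1 / 64 ≤ κ)
    (hp : PolRec α B N y p) (hy : |y| ≤ 2 + 1000 * κ ^ 2) (l : ℕ) (hl : l ≤ N) :
    |p l| ≤ Real.exp (600 * exK N κ B) := by
  set g : ℕ → ℝ := fun l => max 0 (-Real.log (2 * B l)) with hg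
  have hg0 : ∀ l, 0 ≤ g l := fun l => le_max_left _ _
  have hg1 : ∀ l, -Real.log (2 * B l) ≤ g l := fun l => le_max_right _ _
  set F : ℕ → ℝ := fun l => l * κ + ∑ i ∈ Finset.range l, g i with hF
  have hFs : ∀ l, F (l + 1) = F l + (κ + g l) := by
    intro l
    rw [hF]
    simp only
    rw [Finset.sum_range_succ]
    push_cast
    ring
  have hF0 : F 0 = 0 := by simp [hF]
  have hFmono : Monotone F := by
    refine monotone_nat_of_le_succ fun l => ?_
    rw [hFs]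
    have := hg0 l
    linarith
  have hEmono : ∀ {i j}, i ≤ j → Real.exp (600 * F i) ≤ Real.exp (600 * F j) := by
    intro i j hij
    exact Real.exp_le_exp.2 (mul_le_mul_of_nonneg_left (hFmono hij) (by norm_num))
  have hα := ha hE
  have hB : ∀ l < N, B l ≤ 1 + κ := fun l hl => by linarith [(abs_le.1 (hb hE l hl)).2]
  have hsucc : ∀ l, Real.exp (600 * F (l + 1)) = Real.exp (600 * (κ + g l)) * Real.exp (600 * F l) := by
    intro l
    rw [← Real.exp_add, hFs]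
    congr 1
    ring
  have key : ∀ l, l + 1 ≤ N → |p l| ≤ Real.exp (600 * F l) ∧
      |p (l + 1)| ≤ Real.exp (600 * F (l + 1)) := by
    intro l
    induction l with
    | zero =>
      intro h
      have h0 : |p 0| ≤ Real.exp (600 * F 0) := by
        rw [hp.zero, hF0]
        simp
      refine ⟨h0, ?_⟩
      rw [hsucc]
      refine step (b' := 0) (q := p 0) (q' := 0) (a := α 0) hκ (hE.B_pos 0 h) (hg0 0) (hg1 0)
        le_rfl (by linarith) (hα 0 h) hy h0 (by rw [abs_zero]; exact (Real.exp_pos _).le) ?_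
      rw [hp.one h, hp.zero]
      ring
    | succ l ih =>
      intro h
      obtain ⟨h1, h2⟩ := ih (by omega)
      refine ⟨h2, ?_⟩
      rw [hsucc]
      exact step hκ (hE.B_pos (l + 1) h) (hg0 _) (hg1 _) (hE.B_pos l (by omega)).le
        (hB l (by omega)) (hα (l + 1) h) hy h2 (h1.trans (hEmono (by omega))) (hp.succ l h)
  have hfin : |p l| ≤ Real.exp (600 * F l) := by
    rcases Nat.eq_zero_or_pos l with h0 | h0
    · subst h0
      rw [hp.zero, hF0]
      simp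
    · obtain ⟨l', rfl⟩ : ∃ l', l = l' + 1 := ⟨l - 1, by omega⟩
      exact (key l' hl).2
  refine hfin.trans ((hEmono hl).trans (Real.exp_le_exp.2 ?_))
  apply mul_le_mul_of_nonneg_left _ (by norm_num)
  have : exK N κ B = 1 + F N := by
    unfold exK
    rw [hF]
    ring
  rw [this]
  linarith

end EKGM

open EKGM in
theorem specEKG (hEKB : SpecEKB) : SpecEKG := by
  obtain ⟨C, hC1, hK⟩ := hEKB
  have hlog : 0 ≤ Real.log C := Real.log_nonneg hC1
  set D := Real.log C + 3000 with hD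
  refine ⟨D, by linarith, ?_⟩
  intro α B N κ y p hE hP hy
  have hκ0 := hE.pos
  have hXge := exK_ge N κ B
  set X := exK N κ B with hX
  have hNκ : 0 ≤ (N : ℝ) * κ := by positivity
  have hX1 : 1 ≤ X := by linarith
  have up : ∀ c, 0 ≤ c → c ≤ 3000 → c * Real.exp (Real.log C * X) ≤ D * Real.exp (D * X) := by
    intro c hc0 hc
    apply mul_le_mul (by linarith) _ (Real.exp_pos _).le (by linarith)
    exact Real.exp_le_exp.2 (mul_le_mul_of_nonneg_right (by linarith) (by linarith))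
  have hfour : 0 < N → |y - α 0| ≤ D * Real.exp (D * X) := by
    intro hN
    have hN1 : (1 : ℝ) ≤ N := by exact_mod_cast hN
    have hκX : κ ≤ X := by nlinarith
    have h1 := ha hE 0 hN
    have h2 := abs_sub y (α 0)
    have h3 : κ ^ 2 ≤ X ^ 2 := pow_le_pow_left₀ hκ0.le hκX 2
    have h4 := Real.quadratic_le_exp_of_nonneg (show 0 ≤ X by linarith)
    have h5 : |y - α 0| ≤ 3000 * Real.exp X := by
      nlinarith
    refine h5.trans ?_
    apply mul_le_mul (by linarith) _ (Real.exp_pos _).le (by linarith)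
    apply Real.exp_le_exp.2
    nlinarith
  rcases le_total κ (1 / 64) with hκ | hκ
  · have hpos : 0 ≤ y → _ := fun hy0 =>
      small hC1 hK α B N κ y p hE hκ hP hy0 ((abs_le.1 hy).2)
    have hneg : y ≤ 0 → _ := fun hy0 =>
      small hC1 hK _ B N κ (-y) _ (edge_neg hE) hκ (pol_neg hP) (by linarith)
        (by linarith [(abs_le.1 hy).1])
    refine ⟨fun hy0 l hl => ((hpos hy0).1 l hl).trans (up 6 (by norm_num) (by norm_num)), ?_, ?_,
      hfour⟩
    · intro hy0 l hl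
      have h1 := (hneg hy0).1 l hl
      have h2 : (-1 : ℝ) ^ (l + 1) * p (l + 1) - (-1) ^ l * p l
          = -((-1) ^ l * (p (l + 1) + p l)) := by rw [pow_succ]; ring
      rw [h2, abs_neg, abs_mul, abs_pow, abs_neg, abs_one, one_pow, one_mul] at h1
      exact h1.trans (up 6 (by norm_num) (by norm_num))
    · intro l hl
      rcases le_total 0 y with hy0 | hy0
      · exact ((hpos hy0).2 l hl).trans (up 28 (by norm_num) (by norm_num))
      · have h1 := (hneg hy0).2 l hl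
        have h2 : B (l + 1) * ((-1 : ℝ) ^ (l + 2) * p (l + 2)) - B l * ((-1) ^ l * p l)
            = (-1) ^ l * (B (l + 1) * p (l + 2) - B l * p l) := by rw [pow_add]; ring
        rw [h2, abs_mul, abs_pow, abs_neg, abs_one, one_pow, one_mul] at h1
        exact h1.trans (up 28 (by norm_num) (by norm_num))
  · have hcr := crude α B N κ y p hE hκ hP hy
    have hE0 := Real.exp_pos (600 * X)
    have h2D : 2 * Real.exp (600 * X) ≤ D * Real.exp (D * X) := by
      apply mul_le_mul (by linarith) _ (Real.exp_pos _).le (by linarith)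
      exact Real.exp_le_exp.2 (mul_le_mul_of_nonneg_right (by linarith) (by linarith))
    refine ⟨fun _ l hl => ?_, fun _ l hl => ?_, fun l hl => ?_, hfour⟩
    · have h1 := hcr l hl.le
      have h2 := hcr (l + 1) hl
      have h3 := abs_sub (p (l + 1)) (p l)
      linarith
    · have h1 := hcr l hl.le
      have h2 := hcr (l + 1) hl
      have h3 := abs_add_le (p (l + 1)) (p l)
      linarith
    · have h1 := hcr l (by omega)
      have h2 := hcr (l + 2) (by omega)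
      have hN1 : (1 : ℝ) ≤ N := by exact_mod_cast (by omega : 1 ≤ N)
      have hκX : κ ≤ X := by nlinarith
      have hB : ∀ l < N, |B l| ≤ Real.exp X := by
        intro l hl
        rw [abs_of_pos (hE.B_pos l hl)]
        have h3 := (abs_le.1 (hb hE l hl)).2
        have h4 := Real.add_one_le_exp X
        linarith
      have h3 := abs_sub (B (l + 1) * p (l + 2)) (B l * p l)
      rw [abs_mul, abs_mul] at h3
      have h4 : |B (l + 1)| * |p (l + 2)| ≤ Real.exp X * Real.exp (600 * X) :=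
        mul_le_mul (hB _ hl) h2 (abs_nonneg _) (Real.exp_pos _).le
      have h5 : |B l| * |p l| ≤ Real.exp X * Real.exp (600 * X) :=
        mul_le_mul (hB _ (by omega)) h1 (abs_nonneg _) (Real.exp_pos _).le
      have h6 : Real.exp X * Real.exp (600 * X) = Real.exp (601 * X) := by
        rw [← Real.exp_add]
        congr 1
        ring
      have h7 : 2 * Real.exp (601 * X) ≤ D * Real.exp (D * X) := by
        apply mul_le_mul (by linarith) _ (Real.exp_pos _).le (by linarith)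
        exact Real.exp_le_exp.2 (mul_le_mul_of_nonneg_right (by linarith) (by linarith))
      linarith

end Pool.Agent.Lib.MP17fa2c
end

section
/-!
# MP_17fa2c_pr, block K, module GBK: the gradient bound, multi-scale version
-/
set_option autoImplicit false

open MeasureTheory ProbabilityTheory Filter Topology Polynomial
open scoped RealInnerProductSpace NNReal ENNReal

namespace Pool.Agent.Lib.MP17fa2c

namespace GBKM

/-- `exK` is nonnegative -/
theorem exK_nonneg (N : ℕ) (κ : ℝ) (B : ℕ → ℝ) (hκ : 0 < κ) : 0 ≤ exK N κ B := by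
  unfold exK
  have h1 : 0 ≤ ∑ l ∈ Finset.range N, max 0 (-Real.log (2 * B l)) :=
    Finset.sum_nonneg fun l _ => le_max_left _ _
  have h2 : (0 : ℝ) ≤ N * κ := by positivity
  linarith

theorem le_exK (N : ℕ) (κ : ℝ) (B : ℕ → ℝ) (hκ : 0 < κ) (l : ℕ) (hl : l < N) :
    -Real.log (2 * B l) ≤ exK N κ B := by
  unfold exK
  have h1 : max 0 (-Real.log (2 * B l)) ≤
      ∑ l ∈ Finset.range N, max 0 (-Real.log (2 * B l)) :=
    Finset.single_le_sum (f := fun l => max 0 (-Real.log (2 * B l)))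
      (fun i _ => le_max_left _ _) (Finset.mem_range.2 hl)
  have h2 : (0 : ℝ) ≤ N * κ := by positivity
  have h3 : -Real.log (2 * B l) ≤ max 0 (-Real.log (2 * B l)) := le_max_right _ _
  linarith

theorem om_le_exK (N : ℕ) (κ : ℝ) (B : ℕ → ℝ) (hκ : 0 < κ) (hN : 1 ≤ N) :
    κ ≤ exK N κ B := by
  unfold exK
  have h1 : 0 ≤ ∑ l ∈ Finset.range N, max 0 (-Real.log (2 * B l)) :=
    Finset.sum_nonneg fun l _ => le_max_left _ _
  have h2 : (1 : ℝ) ≤ N := by exact_mod_cast hN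
  nlinarith

theorem inv_le (N : ℕ) (κ : ℝ) (B : ℕ → ℝ) (hκ : 0 < κ) (l : ℕ) (hl : l < N)
    (hB : 0 < B l) : (B l)⁻¹ ≤ 2 * Real.exp (exK N κ B) := by
  have h := le_exK N κ B hκ l hl
  have h2 : Real.exp (-Real.log (2 * B l)) ≤ Real.exp (exK N κ B) := Real.exp_le_exp.2 h
  rw [Real.exp_neg, Real.exp_log (by positivity)] at h2
  have h3 : (B l)⁻¹ = 2 * (2 * B l)⁻¹ := by
    field_simp
  rw [h3]
  linarith

/-- the gradient bound at scale `1` -/
def G1 : Prop := ∃ C : ℝ, 0 < C ∧ ∀ (E : Type) [NormedAddCommGroup E]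
  [InnerProductSpace ℝ E] [FiniteDimensional ℝ E] (A : E →L[ℝ] E) (u : E) (k : ℕ) (κ : ℝ),
  GDataK A u k 1 κ → ∃ x y : ℕ → E,
  (∀ H : E →L[ℝ] E, (∀ x y, ⟪H x, y⟫ = ⟪x, H y⟫) →
    fderiv ℝ (fun A : E →L[ℝ] E => av A u k) A H =
      ∑ i ∈ Finset.range (k + 1), ⟪x i, H (qv A u i)⟫) ∧
  (∀ H : E →L[ℝ] E, (∀ x y, ⟪H x, y⟫ = ⟪x, H y⟫) →
    fderiv ℝ (fun A : E →L[ℝ] E => bv A u k ^ 2) A H =
      ∑ i ∈ Finset.range (k + 1), ⟪y i, H (qv A u i)⟫) ∧
  ∑ i ∈ Finset.range (k + 1), ‖x i‖ ^ 2 ≤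
    C * (k + 1) * Real.exp (C * exK (2 * k + 3) κ (bv A u)) ∧
  ∑ i ∈ Finset.range (k + 1), ‖y i‖ ^ 2 ≤
    C * (k + 1) * Real.exp (C * exK (2 * k + 3) κ (bv A u))

theorem sq_bound {C0 e a b w : ℝ} (hC0 : 0 < C0) (he : 0 ≤ e) (ha : 0 ≤ a) (hb : 0 ≤ b)
    (hw : 0 ≤ w) (ha' : a ≤ 2 * Real.exp e) (hb' : b ≤ 2 * Real.exp e)
    (hw' : w ≤ C0 * Real.exp (C0 * e)) :
    (a * b * w) ^ 2 ≤ (16 * C0 ^ 2 + 2 * C0 + 4) *
      Real.exp ((16 * C0 ^ 2 + 2 * C0 + 4) * e) := by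
  have h1 : a * b * w ≤ (2 * Real.exp e) * (2 * Real.exp e) * (C0 * Real.exp (C0 * e)) := by
    apply mul_le_mul _ hw' hw (by positivity)
    exact mul_le_mul ha' hb' hb (by positivity)
  have h0 : 0 ≤ a * b * w := by positivity
  have h2 : (a * b * w) ^ 2 ≤
      ((2 * Real.exp e) * (2 * Real.exp e) * (C0 * Real.exp (C0 * e))) ^ 2 :=
    pow_le_pow_left₀ h0 h1 2
  have h3 : ((2 * Real.exp e) * (2 * Real.exp e) * (C0 * Real.exp (C0 * e))) ^ 2 =
      16 * C0 ^ 2 * Real.exp ((2 * C0 + 4) * e) := by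
    have : Real.exp ((2 * C0 + 4) * e) = Real.exp e ^ 4 * Real.exp (C0 * e) ^ 2 := by
      rw [← Real.exp_nat_mul, ← Real.exp_nat_mul, ← Real.exp_add]
      congr 1
      push_cast
      ring
    rw [this]
    ring
  rw [h3] at h2
  refine h2.trans ?_
  apply mul_le_mul
  · linarith
  · apply Real.exp_le_exp.2
    have : 0 ≤ 16 * C0 ^ 2 * e := by positivity
    nlinarith
  · positivity
  · positivity

theorem g1 (hNRK : SpecNRK) (hCHD : SpecCHD) (hGRA : SpecGRA) (hGRB : SpecGRB)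
    (hDIF : SpecDIF) : G1 := by
  obtain ⟨C0, hC0, hN⟩ := hNRK
  refine ⟨16 * C0 ^ 2 + 2 * C0 + 4, by positivity, ?_⟩
  intro E _ _ _ A u k κ hG
  set e := exK (2 * k + 3) κ (bv A u) with he
  have he0 : 0 ≤ e := exK_nonneg _ _ _ hG.pos
  have hbpos : ∀ l ≤ 2 * k + 2, 0 < bv A u l := fun l hl =>
    lt_of_le_of_ne (norm_nonneg _) (hG.b_ne l hl).symm
  have hbinv : ∀ l ≤ 2 * k + 2, (bv A u l)⁻¹ ≤ 2 * Real.exp e := fun l hl =>
    inv_le _ _ _ hG.pos l (by omega) (hbpos l hl)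
  have hbk : bv A u k ≤ Real.exp e := by
    have h1 := hG.sumb k (k + 1) (by omega) (by omega) (by
      push_cast
      refine le_trans (le_of_eq ?_) (le_max_left _ _)
      ring)
    simp only [Nat.Ico_succ_singleton, Finset.sum_singleton, div_one] at h1
    have h2 : bv A u k ^ 2 ≤ 1 + κ := by
      have := (abs_le.1 h1).2
      linarith
    have h3 : bv A u k ≤ 1 + κ := by
      by_contra hc
      push Not at hc
      have hκ := hG.pos
      nlinarith
    have h4 : 1 + κ ≤ Real.exp κ := by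
      have := Real.add_one_le_exp κ
      linarith
    have h5 : Real.exp κ ≤ Real.exp e :=
      Real.exp_le_exp.2 (om_le_exK _ _ _ hG.pos (by omega))
    linarith
  have hchain : ∀ H : E →L[ℝ] E, (∀ x y, ⟪H x, y⟫ = ⟪x, H y⟫) →
      Chain A H (k + 2) (qv A u) (fun j => fderiv ℝ (fun A : E →L[ℝ] E => qv A u j) A H)
        (av A u) (bv A u)
        (fun j => fderiv ℝ (fun A : E →L[ℝ] E => av A u j) A H)
        (fun j => fderiv ℝ (fun A : E →L[ℝ] E => bv A u j) A H) := fun H hH =>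
    hCHD E u A H (k + 2) hG.sym hH hG.unit (fun l hl => hG.b_ne l (by omega))
  have hq : ∀ i ≤ k + 2, ‖qv A u i‖ = 1 := by
    intro i hi
    have h1 := (hchain 0 (by simp)).on i hi i hi
    simp only [if_true] at h1
    rw [real_inner_self_eq_norm_sq] at h1
    have h2 : (‖qv A u i‖ - 1) * (‖qv A u i‖ + 1) = 0 := by ring_nf; linarith
    rcases mul_eq_zero.1 h2 with h | h
    · linarith
    · have := norm_nonneg (qv A u i)
      linarith
  set w1 : ℕ → E := fun i =>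
    bv A u k • aeval A (opp (av A u) (bv A u) (i + 1) (k - 1 - i)).2 (qv A u (k + 1)) -
      aeval A (opp (av A u) (bv A u) (i + 1) (k - 1 - i)).1 (qv A u k) with hw1
  set w2 : ℕ → E := fun i =>
    (av A u (k + 1) - av A u k) • aeval A (opp (av A u) (bv A u) (i + 1) (k - 1 - i)).2
        (qv A u (k + 1)) +
      bv A u (k + 1) • aeval A (opp (av A u) (bv A u) (i + 1) (k - 1 - i)).2 (qv A u (k + 2)) -
      aeval A (opp (av A u) (bv A u) (i + 1) (k - 1 - i)).1 (qv A u (k + 1)) with hw2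
  have hnw1 : ∀ i < k, ‖w1 i‖ ≤ C0 * Real.exp (C0 * e) := fun i hi =>
    (hN E A u k κ hG i hi).1
  have hnw2 : ∀ i < k, ‖w2 i‖ ≤ C0 * Real.exp (C0 * e) := fun i hi =>
    (hN E A u k κ hG i hi).2
  have he1 : 1 ≤ Real.exp e := Real.one_le_exp he0
  refine ⟨fun i => if i < k then (2 * (bv A u i)⁻¹) • w1 i else qv A u k,
    fun i => if i < k then (2 * bv A u k * (bv A u i)⁻¹) • w2 i
      else (2 * bv A u k) • qv A u (k + 1), ?_, ?_, ?_, ?_⟩
  · intro H hH
    have h1 := hGRA E A H (k + 2) _ _ _ _ _ _ (hchain H hH) k (by omega)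
    rw [h1, Finset.sum_range_succ, add_comm]
    beta_reduce
    rw [if_neg (lt_irrefl k)]
    congr 1
    apply Finset.sum_congr rfl
    intro i hi
    rw [Finset.mem_range] at hi
    rw [if_pos hi, real_inner_smul_left]
  · intro H hH
    have hd : DifferentiableAt ℝ (fun A : E →L[ℝ] E => bv A u k) A :=
      (hDIF E u A k (fun l hl => hG.b_ne l (by omega))).2.2.2.2 (hG.b_ne k (by omega))
    have h1 := hGRB E A H (k + 2) _ _ _ _ _ _ (hchain H hH) k (by omega)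
    have h2 : fderiv ℝ (fun A : E →L[ℝ] E => bv A u k ^ 2) A H =
        2 * bv A u k * fderiv ℝ (fun A : E →L[ℝ] E => bv A u k) A H := by
      have h3 := (hd.hasFDerivAt.pow 2).fderiv
      rw [h3]
      simp
    rw [h2, h1, Finset.sum_range_succ]
    beta_reduce
    rw [if_neg (lt_irrefl k), real_inner_smul_left, mul_add, add_comm]
    congr 1
    rw [Finset.mul_sum]
    apply Finset.sum_congr rfl
    intro i hi
    rw [Finset.mem_range] at hi
    rw [if_pos hi, real_inner_smul_left]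
    ring
  · have hb : ∀ i ∈ Finset.range (k + 1),
        ‖(if i < k then (2 * (bv A u i)⁻¹) • w1 i else qv A u k)‖ ^ 2 ≤
        (16 * C0 ^ 2 + 2 * C0 + 4) * Real.exp ((16 * C0 ^ 2 + 2 * C0 + 4) * e) := by
      intro i hi
      rw [Finset.mem_range] at hi
      by_cases hik : i < k
      · rw [if_pos hik, norm_smul, Real.norm_eq_abs, abs_of_nonneg
          (by have := hbpos i (by omega); positivity)]
        exact sq_bound hC0 he0 (by norm_num) (inv_nonneg.2 (hbpos i (by omega)).le)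
          (norm_nonneg _) (by linarith) (hbinv i (by omega)) (hnw1 i hik)
      · rw [if_neg hik, hq k (by omega)]
        have h1 : 1 ≤ Real.exp ((16 * C0 ^ 2 + 2 * C0 + 4) * e) :=
          Real.one_le_exp (by positivity)
        have h2 : 0 ≤ 16 * C0 ^ 2 + 2 * C0 := by positivity
        nlinarith
    refine (Finset.sum_le_card_nsmul _ _ _ hb).trans ?_
    rw [Finset.card_range, nsmul_eq_mul]
    push_cast
    apply le_of_eq
    ring
  · have hb : ∀ i ∈ Finset.range (k + 1),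
        ‖(if i < k then (2 * bv A u k * (bv A u i)⁻¹) • w2 i
          else (2 * bv A u k) • qv A u (k + 1))‖ ^ 2 ≤
        (16 * C0 ^ 2 + 2 * C0 + 4) * Real.exp ((16 * C0 ^ 2 + 2 * C0 + 4) * e) := by
      intro i hi
      rw [Finset.mem_range] at hi
      have hbk0 := hbpos k (by omega)
      by_cases hik : i < k
      · rw [if_pos hik, norm_smul, Real.norm_eq_abs, abs_of_nonneg
          (by have := hbpos i (by omega); positivity)]
        exact sq_bound hC0 he0 (by positivity) (inv_nonneg.2 (hbpos i (by omega)).le)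
          (norm_nonneg _) (by linarith) (hbinv i (by omega)) (hnw2 i hik)
      · rw [if_neg hik, norm_smul, hq (k + 1) (by omega), mul_one, Real.norm_eq_abs,
          abs_of_nonneg (by positivity)]
        have h1 : (2 * bv A u k) ^ 2 ≤ (2 * Real.exp e) ^ 2 :=
          pow_le_pow_left₀ (by positivity) (by linarith) 2
        have h2 : (2 * Real.exp e) ^ 2 = 4 * Real.exp (2 * e) := by
          have : Real.exp (2 * e) = Real.exp e ^ 2 := by
            rw [← Real.exp_nat_mul]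
            norm_num
          rw [this]
          ring
        rw [h2] at h1
        refine h1.trans ?_
        have h3 : 0 ≤ 16 * C0 ^ 2 + 2 * C0 := by positivity
        apply mul_le_mul (by linarith) _ (by positivity) (by positivity)
        apply Real.exp_le_exp.2
        nlinarith
    refine (Finset.sum_le_card_nsmul _ _ _ hb).trans ?_
    rw [Finset.card_range, nsmul_eq_mul]
    push_cast
    apply le_of_eq
    ring

end GBKM

theorem specGBK (hNRK : SpecNRK) (hCHD : SpecCHD) (hGRA : SpecGRA) (hGRB : SpecGRB)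
    (hDIF : SpecDIF) (hSCL : SpecSCL) : SpecGBK := by
  obtain ⟨C, hC, h1⟩ := GBKM.g1 hNRK hCHD hGRA hGRB hDIF
  refine ⟨C, hC, ?_⟩
  intro E _ _ _ A u k R κ hG
  set c : ℝ := (Real.sqrt R)⁻¹ with hc
  have hsR : 0 < Real.sqrt R := Real.sqrt_pos.2 hG.R_pos
  have hc0 : 0 < c := by positivity
  have hc2 : c ^ 2 = R⁻¹ := by
    rw [hc, inv_pow, Real.sq_sqrt hG.R_pos.le]
  have hsc := hSCL E A u c hc0
  have hfs : (fun l => bv A u l / Real.sqrt R) = bv (c • A) u := by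
    funext l
    rw [(hsc l).2.2.2, hc]
    field_simp
  have hG1 : GDataK (c • A) u k 1 κ := by
    refine ⟨?_, hG.unit, one_pos, hG.pos, ?_, ?_, ?_⟩
    · intro x y
      simp only [_root_.smul_apply, real_inner_smul_left, real_inner_smul_right,
        hG.sym x y]
    · intro l hl
      rw [(hsc l).2.2.2]
      exact mul_ne_zero hc0.ne' (hG.b_ne l hl)
    · intro i j hij hj hl
      have h2 := hG.suma i j hij hj hl
      refine le_of_eq_of_le ?_ h2
      congr 1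
      apply Finset.sum_congr rfl
      intro l _
      rw [(hsc l).2.2.1, Real.sqrt_one, div_one, hc]
      field_simp
    · intro i j hij hj hl
      have h2 := hG.sumb i j hij hj hl
      refine le_of_eq_of_le ?_ h2
      congr 1
      apply Finset.sum_congr rfl
      intro l _
      rw [(hsc l).2.2.2, div_one, mul_pow, hc2]
      field_simp
  obtain ⟨x, y, hx, hy, hxb, hyb⟩ := h1 E (c • A) u k κ hG1
  rw [← hfs] at hxb hyb
  have hbne : ∀ l < k, bv (c • A) u l ≠ 0 := fun l hl => hG1.b_ne l (by omega)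
  have hsm : HasFDerivAt (fun B : E →L[ℝ] E => c • B)
      (c • ContinuousLinearMap.id ℝ (E →L[ℝ] E)) A :=
    (c • ContinuousLinearMap.id ℝ (E →L[ℝ] E)).hasFDerivAt
  refine ⟨x, fun i => Real.sqrt R • y i, ?_, ?_, hxb, ?_⟩
  · intro H hH
    have hd : DifferentiableAt ℝ (fun A : E →L[ℝ] E => av A u k) (c • A) :=
      (hDIF E u (c • A) k hbne).2.2.1
    have h2 : (fun A : E →L[ℝ] E => av A u k) = fun B : E →L[ℝ] E =>
        c⁻¹ * (fun A : E →L[ℝ] E => av A u k) (c • B) := by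
      funext B
      show av B u k = c⁻¹ * av (c • B) u k
      rw [(hSCL E B u c hc0 k).2.2.1]
      field_simp
    have h3 : HasFDerivAt (fun B : E →L[ℝ] E =>
        c⁻¹ * (fun A : E →L[ℝ] E => av A u k) (c • B))
        (c⁻¹ • ((fderiv ℝ (fun A : E →L[ℝ] E => av A u k) (c • A)).comp
          (c • ContinuousLinearMap.id ℝ (E →L[ℝ] E)))) A :=
      (hd.hasFDerivAt.comp A hsm).const_mul c⁻¹
    rw [h2, h3.fderiv]
    simp only [_root_.smul_apply, ContinuousLinearMap.comp_apply,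
      ContinuousLinearMap.id_apply, map_smul, smul_eq_mul]
    rw [← mul_assoc, inv_mul_cancel₀ hc0.ne', one_mul, hx H hH]
    apply Finset.sum_congr rfl
    intro i _
    rw [(hsc i).2.1]
  · intro H hH
    have hd : DifferentiableAt ℝ (fun A : E →L[ℝ] E => bv A u k ^ 2) (c • A) :=
      (hDIF E u (c • A) k hbne).2.2.2.1
    have h2 : (fun A : E →L[ℝ] E => bv A u k ^ 2) = fun B : E →L[ℝ] E =>
        (c ^ 2)⁻¹ * (fun A : E →L[ℝ] E => bv A u k ^ 2) (c • B) := by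
      funext B
      show bv B u k ^ 2 = (c ^ 2)⁻¹ * bv (c • B) u k ^ 2
      rw [(hSCL E B u c hc0 k).2.2.2]
      field_simp
    have h3 : HasFDerivAt (fun B : E →L[ℝ] E =>
        (c ^ 2)⁻¹ * (fun A : E →L[ℝ] E => bv A u k ^ 2) (c • B))
        ((c ^ 2)⁻¹ • ((fderiv ℝ (fun A : E →L[ℝ] E => bv A u k ^ 2) (c • A)).comp
          (c • ContinuousLinearMap.id ℝ (E →L[ℝ] E)))) A :=
      (hd.hasFDerivAt.comp A hsm).const_mul (c ^ 2)⁻¹
    rw [h2, h3.fderiv]
    simp only [_root_.smul_apply, ContinuousLinearMap.comp_apply,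
      ContinuousLinearMap.id_apply, map_smul, smul_eq_mul]
    rw [hy H hH, ← mul_assoc, Finset.mul_sum]
    apply Finset.sum_congr rfl
    intro i _
    rw [(hsc i).2.1, real_inner_smul_left]
    congr 1
    rw [hc]
    field_simp
  · have h4 : ∀ i, ‖Real.sqrt R • y i‖ ^ 2 = R * ‖y i‖ ^ 2 := by
      intro i
      rw [norm_smul, mul_pow, Real.norm_eq_abs, sq_abs, Real.sq_sqrt hG.R_pos.le]
    simp only [h4]
    rw [← Finset.mul_sum]
    calc R * ∑ i ∈ Finset.range (k + 1), ‖y i‖ ^ 2 ≤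
        R * (C * (k + 1) * Real.exp (C * exK (2 * k + 3) κ
          (fun l => bv A u l / Real.sqrt R))) :=
          mul_le_mul_of_nonneg_left hyb hG.R_pos.le
      _ = _ := by ring

end Pool.Agent.Lib.MP17fa2c
end
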