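import Pool.Agent.Lib.MP_17fa2c_pr.TD.UNQ

/-!
# Module IND: independence of the blocks
-/

set_option autoImplicit false

open MeasureTheory ProbabilityTheory Filter Topology
open scoped RealInnerProductSpace NNReal ENNReal

namespace Pool.Agent.Lib.MP17fa2c

namespace INDM

open UNQM (phi phi_apply expandL covphi U)

variable {E : Type} [NormedAddCommGroup E] [InnerProductSpace ℝ E] {T : Type} [Fintype T]

/-- the map `G ↦ (R ∘ G i ∘ Q)_i` -/
noncomputable def blk (R Q : E →L[ℝ] E) : (T → E →L[ℝ] E) →L[ℝ] (T → E →L[ℝ] E) :=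
  ContinuousLinearMap.pi fun i =>
    ((ContinuousLinearMap.compL ℝ E E E R) ∘L
      ((ContinuousLinearMap.compL ℝ E E E).flip Q)) ∘L
      (ContinuousLinearMap.proj (R := ℝ) (φ := fun _ : T => E →L[ℝ] E) i)

omit [Fintype T] in
theorem blk_apply (R Q : E →L[ℝ] E) (G : T → E →L[ℝ] E) :
    blk R Q G = fun i => R ∘L G i ∘L Q := rfl

omit [Fintype T] in
theorem phi_blk (R Q : E →L[ℝ] E) (hR : ∀ x y, ⟪R x, y⟫ = ⟪x, R y⟫) (i : T) (x y : E) :
    (phi i x y) ∘L (blk R Q) = phi i (R x) (Q y) := by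
  refine ContinuousLinearMap.ext fun G => ?_
  show ⟪x, R (G i (Q y))⟫ = ⟪R x, G i (Q y)⟫
  rw [hR]

end INDM

open INDM UNQM in
/-- **IND.** -/
theorem specIND (hJON : SpecJON) : SpecIND := by
  classical
  intro ι _ _ E _ _ _ T _ S c ν hν Q hQ
  obtain ⟨-, -, j3, -, -, -⟩ := hJON ι E S
  have hg := hν.gauss
  have hC := j3 Q hQ
  have hcQ : ∀ x, Q (cp Q x) = 0 := by
    intro x
    show Q (x - Q x) = 0
    rw [map_sub, hQ.2, sub_self]
  have hX : (fun G : T → E →L[ℝ] E => fun i => cp Q ∘L G i ∘L cp Q) =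
      (blk (cp Q) (cp Q) : (T → E →L[ℝ] E) →L[ℝ] (T → E →L[ℝ] E)) := rfl
  have hY : (fun G : T → E →L[ℝ] E => fun i => Q ∘L G i ∘L cp Q) =
      (blk Q (cp Q) : (T → E →L[ℝ] E) →L[ℝ] (T → E →L[ℝ] E)) := rfl
  rw [hX, hY]
  have hid : HasGaussianLaw (fun G : T → E →L[ℝ] E => G) ν := IsGaussian.hasGaussianLaw_id
  have hXY : HasGaussianLaw (fun G : T → E →L[ℝ] E => (blk (cp Q) (cp Q) G, blk Q (cp Q) G)) ν :=
    hid.map ((blk (cp Q) (cp Q)).prod (blk Q (cp Q)))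
  refine hXY.indepFun_of_covariance_strongDual fun L₁ L₂ => ?_
  have h1 : cov[L₁ ∘ (blk (cp Q) (cp Q)), L₂ ∘ (blk Q (cp Q)); ν] =
      covarianceBilinDual ν (L₁ ∘L blk (cp Q) (cp Q)) (L₂ ∘L blk Q (cp Q)) :=
    (covarianceBilinDual_eq_covariance (μ := ν) IsGaussian.memLp_two_id
      (L₁ ∘L blk (cp Q) (cp Q)) (L₂ ∘L blk Q (cp Q))).symm
  rw [h1]
  have key : ∀ (i l : T) (x y x' y' : E),
      covarianceBilinDual ν (phi i (cp Q x) (cp Q y)) (phi l (Q x') (cp Q y')) = 0 := by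
    intro i l x y x' y'
    rw [covphi hν]
    have h0 : ∀ a z z', ⟪cp Q z, S.J a (Q z')⟫ = 0 := by
      intro a z z'
      rw [← hQ.1.2, ← hQ.1.1, hcQ, inner_zero_left]
    have h2 : ∀ a, ⟪cp Q x, S.J a (Q x')⟫ * ⟪cp Q y, S.J a (cp Q y')⟫ +
        ⟪cp Q x, S.J a (cp Q y')⟫ * ⟪cp Q y, S.J a (Q x')⟫ = 0 := by
      intro a
      rw [h0, h0]
      ring
    rw [Finset.sum_congr rfl fun a _ => h2 a, Finset.sum_const_zero, mul_zero]
  have e1 : ∀ L : StrongDual ℝ (T → E →L[ℝ] E), ∀ R : E →L[ℝ] E,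
      (∀ x y, ⟪R x, y⟫ = ⟪x, R y⟫) → L ∘L blk R (cp Q) = ∑ i, ∑ a, ∑ b, L (U i a b) •
        phi i (R (stdOrthonormalBasis ℝ E a)) (cp Q (stdOrthonormalBasis ℝ E b)) := by
    intro L R hR
    conv_lhs => rw [expandL L]
    refine ContinuousLinearMap.ext fun G => ?_
    simp only [ContinuousLinearMap.comp_apply, _root_.sum_apply, _root_.smul_apply]
    refine Finset.sum_congr rfl fun i _ => Finset.sum_congr rfl fun a _ =>
      Finset.sum_congr rfl fun b _ => ?_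
    rw [← phi_blk R (cp Q) hR]
    rfl
  rw [e1 L₁ (cp Q) hC.1.1, e1 L₂ Q hQ.1.1]
  simp only [map_sum, map_smul, _root_.sum_apply, _root_.smul_apply, key, smul_zero,
    Finset.sum_const_zero]

end Pool.Agent.Lib.MP17fa2c
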