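import Pool.Agent.Lib.MP_17fa2c_pr.TD.SpecT
import Pool.Agent.Lib.MP_17fa2c_pr.TD.SpecK

section
/-!
# MP_17fa2c_pr, module BLK: the Jacobi block
-/
set_option autoImplicit false

open MeasureTheory ProbabilityTheory Filter Topology Polynomial
open scoped RealInnerProductSpace NNReal ENNReal

namespace Pool.Agent.Lib.MP17fa2c

namespace BLKM

variable {E : Type} [NormedAddCommGroup E] [InnerProductSpace ℝ E]

/-- abstract block -/
structure Bk (A : E →L[ℝ] E) (N : ℕ) (q : ℕ → E) (a b : ℕ → ℝ) (r : E) : Prop where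
  sym : ∀ x y, ⟪A x, y⟫ = ⟪x, A y⟫
  orth : ∀ s s', s ≠ s' → ⟪q s, q s'⟫ = 0
  nrm : ∀ s ≤ N, ‖q s‖ = 1
  rc : ∀ s, A (q (s + 1)) = b (s + 1) • q (s + 2) + a (s + 1) • q (s + 1) + b s • q s
  rc0 : A (q 0) = b 0 • q 1 + a 0 • q 0 + r
  rr : ∀ s < N, ⟪q s, r⟫ = 0

/-- the projection -/
noncomputable def pj (q : ℕ → E) (N : ℕ) : E →L[ℝ] E :=
  ∑ s ∈ Finset.range N, InnerProductSpace.rankOne ℝ (q s) (q s)

lemma pj_apply (q : ℕ → E) (N : ℕ) (x : E) :
    pj q N x = ∑ s ∈ Finset.range N, ⟪q s, x⟫ • q s := by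
  simp [pj, InnerProductSpace.rankOne_apply]

lemma pj_sym (q : ℕ → E) (N : ℕ) (x y : E) : ⟪pj q N x, y⟫ = ⟪x, pj q N y⟫ := by
  rw [pj_apply, pj_apply, sum_inner, inner_sum]
  refine Finset.sum_congr rfl fun s _ => ?_
  rw [real_inner_smul_left, real_inner_smul_right, real_inner_comm x (q s)]
  ring

section
variable {A : E →L[ℝ] E} {N : ℕ} {q : ℕ → E} {a b : ℕ → ℝ} {r : E}

lemma inner_qq (H : Bk A N q a b r) {s : ℕ} (hs : s ≤ N) (s' : ℕ) :
    ⟪q s', q s⟫ = if s' = s then 1 else 0 := by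
  split_ifs with h
  · subst h
    rw [real_inner_self_eq_norm_sq, H.nrm _ hs]
    norm_num
  · exact H.orth _ _ h

lemma pj_q (H : Bk A N q a b r) {s : ℕ} (hs : s < N) : pj q N (q s) = q s := by
  rw [pj_apply, Finset.sum_eq_single s]
  · rw [inner_qq H hs.le, if_pos rfl, one_smul]
  · intro s' _ hne
    rw [inner_qq H hs.le, if_neg hne, zero_smul]
  · intro h
    exact absurd (Finset.mem_range.2 hs) h

lemma pj_r (H : Bk A N q a b r) : pj q N r = 0 := by
  rw [pj_apply]
  refine Finset.sum_eq_zero fun s hs => ?_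
  rw [H.rr s (Finset.mem_range.1 hs), zero_smul]

/-- the block -/
noncomputable def bk (A : E →L[ℝ] E) (q : ℕ → E) (N : ℕ) : E →L[ℝ] E :=
  pj q N ∘L A ∘L pj q N

lemma bk_apply (x : E) : bk A q N x = pj q N (A (pj q N x)) := rfl

lemma bk_sym (H : Bk A N q a b r) (x y : E) : ⟪bk A q N x, y⟫ = ⟪x, bk A q N y⟫ := by
  rw [bk_apply, bk_apply, pj_sym, H.sym, pj_sym]

lemma bk_q (H : Bk A N q a b r) {s : ℕ} (hs : s + 2 < N) :
    bk A q N (q (s + 1)) = A (q (s + 1)) := by
  rw [bk_apply, pj_q H (by omega), H.rc, map_add, map_add, map_smul, map_smul, map_smul,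
    pj_q H hs, pj_q H (by omega), pj_q H (by omega)]

lemma bk_q0 (H : Bk A N q a b r) (hs : 1 < N) :
    bk A q N (q 0) = b 0 • q 1 + a 0 • q 0 := by
  rw [bk_apply, pj_q H (by omega), H.rc0, map_add, map_add, map_smul, map_smul,
    pj_q H hs, pj_q H (by omega), pj_r H, add_zero]

lemma quad (H : Bk A N q a b r) (c : ℕ → ℝ) : ∀ M, M ≤ N →
    ⟪∑ s ∈ Finset.range M, c s • q s, A (∑ s ∈ Finset.range M, c s • q s)⟫ =
      ∑ s ∈ Finset.range M, a s * c s ^ 2 +
        2 * ∑ s ∈ Finset.range (M - 1), b s * (c s * c (s + 1)) := by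
  intro M
  induction M with
  | zero => intro _; simp
  | succ M ih =>
    intro hM
    have ih' := ih (by omega)
    have hcross : ⟪∑ s ∈ Finset.range M, c s • q s, A (q M)⟫ =
        if M = 0 then 0 else b (M - 1) * c (M - 1) := by
      rcases Nat.eq_zero_or_pos M with h0 | h0
      · subst h0; simp
      · obtain ⟨m, rfl⟩ : ∃ m, M = m + 1 := ⟨M - 1, by omega⟩
        rw [if_neg (by omega), sum_inner]
        have : ∀ s ∈ Finset.range (m + 1), ⟪c s • q s, A (q (m + 1))⟫ =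
            if s = m then b m * c m else 0 := by
          intro s hs
          have hs' := Finset.mem_range.1 hs
          rw [H.rc, real_inner_smul_left, inner_add_right, inner_add_right,
            real_inner_smul_right, real_inner_smul_right, real_inner_smul_right,
            H.orth s (m + 2) (by omega), H.orth s (m + 1) (by omega),
            inner_qq H (by omega : m ≤ N)]
          split_ifs with h
          · subst h; ring
          · ring
        rw [Finset.sum_congr rfl this, Finset.sum_ite_eq' (Finset.range (m + 1)) m]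
        simp
    have hdiag : ⟪q M, A (q M)⟫ = a M := by
      rcases Nat.eq_zero_or_pos M with h0 | h0
      · subst h0
        rw [H.rc0, inner_add_right, inner_add_right, real_inner_smul_right, real_inner_smul_right,
          H.rr 0 (by omega), H.orth 0 1 (by omega), inner_qq H (by omega : 0 ≤ N), if_pos rfl]
        ring
      · obtain ⟨m, rfl⟩ : ∃ m, M = m + 1 := ⟨M - 1, by omega⟩
        rw [H.rc, inner_add_right, inner_add_right,
            real_inner_smul_right, real_inner_smul_right, real_inner_smul_right,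
            H.orth (m + 1) (m + 2) (by omega), H.orth (m + 1) m (by omega),
            inner_qq H (by omega : m + 1 ≤ N), if_pos rfl]
        ring
    rw [Finset.sum_range_succ, map_add, inner_add_left, inner_add_right, inner_add_right, ih',
      map_smul, real_inner_smul_right, real_inner_smul_left, real_inner_smul_left,
      real_inner_smul_right, hcross, hdiag, ← H.sym, real_inner_comm, hcross]
    rw [Finset.sum_range_succ (fun s => a s * c s ^ 2)]
    rcases Nat.eq_zero_or_pos M with h0 | h0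
    · subst h0; simp; ring
    · obtain ⟨m, rfl⟩ : ∃ m, M = m + 1 := ⟨M - 1, by omega⟩
      rw [if_neg (by omega)]
      simp only [Nat.add_sub_cancel]
      rw [Finset.sum_range_succ (fun s => b s * (c s * c (s + 1))) m]
      ring

lemma bessel (H : Bk A N q a b r) (x : E) :
    ∑ s ∈ Finset.range N, ⟪q s, x⟫ ^ 2 ≤ ‖x‖ ^ 2 := by
  have ho : Orthonormal ℝ (fun s : Fin N => q s) := by
    constructor
    · intro s
      exact H.nrm _ s.2.le
    · intro s s' hne
      exact H.orth _ _ (fun h => hne (Fin.ext h))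
  have := ho.sum_inner_products_le x (s := Finset.univ)
  rw [Finset.sum_range]
  simpa [Real.norm_eq_abs, sq_abs] using this

lemma aev (T : E →L[ℝ] E) (c : ℝ) (x : E) : aeval T (C c) x = c • x := by
  rw [aeval_C, Algebra.algebraMap_eq_smul_one]
  rfl

lemma opq (H : Bk A N q a b r) (α β : ℕ → ℝ) (i : ℕ) (hα : ∀ s, α (i + s) = a s)
    (hβ : ∀ s, β (i + s) = b s) (hb : ∀ s < N, b s ≠ 0) : ∀ l, l < N →
    aeval (bk A q N) (opp α β i l).2 (q 0) = q l ∧
    aeval (bk A q N) (opp α β i l).1 (q 0) = if l = 0 then 0 else b (l - 1) • q (l - 1) := by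
  intro l
  induction l with
  | zero =>
    intro _
    simp [opp]
  | succ l ih =>
    intro hl
    obtain ⟨h1, h2⟩ := ih (by omega)
    constructor
    · have : (opp α β i (l + 1)).2 =
        C (β (i + l))⁻¹ * ((X - C (α (i + l))) * (opp α β i l).2 - (opp α β i l).1) := rfl
      rw [this, map_mul, map_sub, map_mul, map_sub, aeval_X]
      rw [mul_apply_eq_comp, aev, sub_apply,
        mul_apply_eq_comp, h1, h2, sub_apply, aev, hα, hβ]
      have hb' := hb l (by omega)
      rcases Nat.eq_zero_or_pos l with h0 | h0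
      · subst h0
        rw [bk_q0 H (by omega), if_pos rfl, sub_zero, add_sub_cancel_right, smul_smul,
          inv_mul_cancel₀ hb', one_smul]
      · obtain ⟨m, rfl⟩ : ∃ m, l = m + 1 := ⟨l - 1, by omega⟩
        rw [bk_q H (by omega), H.rc, if_neg (by omega)]
        simp only [Nat.add_sub_cancel]
        have : b (m + 1) • q (m + 2) + a (m + 1) • q (m + 1) + b m • q m - a (m + 1) • q (m + 1) -
            b m • q m = b (m + 1) • q (m + 2) := by abel
        rw [this, smul_smul, inv_mul_cancel₀ hb', one_smul]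
    · have : (opp α β i (l + 1)).1 = C (β (i + l)) * (opp α β i l).2 := rfl
      rw [this, map_mul, mul_apply_eq_comp, h1, aev, hβ, if_neg (by omega)]
      simp

/-- vectors supported on `q_{s'}`, `lo ≤ s' ≤ hi` -/
def Spn (q : ℕ → E) (lo hi : ℕ) : Submodule ℝ E := Submodule.span ℝ (q '' Set.Icc lo hi)

lemma A_Spn (H : Bk A N q a b r) {lo hi : ℕ} {x : E} (hlo : 1 ≤ lo) (hx : x ∈ Spn q lo hi) :
    A x ∈ Spn q (lo - 1) (hi + 1) := by
  unfold Spn at hx
  induction hx using Submodule.span_induction with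
  | mem x hx =>
    obtain ⟨s, ⟨hs1, hs2⟩, rfl⟩ := hx
    obtain ⟨m, rfl⟩ : ∃ m, s = m + 1 := ⟨s - 1, by omega⟩
    rw [H.rc]
    refine Submodule.add_mem _ (Submodule.add_mem _ ?_ ?_) ?_
    · exact Submodule.smul_mem _ _ (Submodule.subset_span ⟨m + 2, ⟨by omega, by omega⟩, rfl⟩)
    · exact Submodule.smul_mem _ _ (Submodule.subset_span ⟨m + 1, ⟨by omega, by omega⟩, rfl⟩)
    · exact Submodule.smul_mem _ _ (Submodule.subset_span ⟨m, ⟨by omega, by omega⟩, rfl⟩)
  | zero => rw [map_zero]; exact Submodule.zero_mem _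
  | add x y _ _ hx hy => rw [map_add]; exact Submodule.add_mem _ hx hy
  | smul c x _ hx => rw [map_smul]; exact Submodule.smul_mem _ _ hx

lemma bk_Spn (H : Bk A N q a b r) {lo hi : ℕ} {x : E} (hlo : 1 ≤ lo) (hhi : hi + 1 < N)
    (hx : x ∈ Spn q lo hi) : bk A q N x = A x := by
  unfold Spn at hx
  induction hx using Submodule.span_induction with
  | mem x hx =>
    obtain ⟨s, ⟨hs1, hs2⟩, rfl⟩ := hx
    obtain ⟨m, rfl⟩ : ∃ m, s = m + 1 := ⟨s - 1, by omega⟩
    exact bk_q H (by omega)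
  | zero => rw [map_zero, map_zero]
  | add x y _ _ hx hy => rw [map_add, map_add, hx, hy]
  | smul c x _ hx => rw [map_smul, map_smul, hx]

lemma pow_q (H : Bk A N q a b r) {s : ℕ} : ∀ e, e ≤ s → e + s < N →
    (bk A q N ^ e) (q s) = (A ^ e) (q s) ∧ (A ^ e) (q s) ∈ Spn q (s - e) (s + e) := by
  intro e
  induction e with
  | zero =>
    intro _ _
    refine ⟨by simp, ?_⟩
    simp only [pow_zero, one_apply_eq_self]
    exact Submodule.subset_span ⟨s, ⟨by omega, by omega⟩, rfl⟩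
  | succ e ih =>
    intro h1 h2
    obtain ⟨h3, h4⟩ := ih (by omega) (by omega)
    rw [pow_succ', pow_succ', mul_apply_eq_comp, mul_apply_eq_comp, h3]
    refine ⟨bk_Spn H (by omega) (by omega) h4, ?_⟩
    have := A_Spn H (by omega) h4
    have e1 : s - e - 1 = s - (e + 1) := by omega
    have e2 : s + e + 1 = s + (e + 1) := by omega
    rwa [e1, e2] at this

lemma aeval_apply (T : E →L[ℝ] E) (f : ℝ[X]) (x : E) :
    aeval T f x = ∑ e ∈ Finset.range (f.natDegree + 1), f.coeff e • (T ^ e) x := by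
  rw [aeval_eq_sum_range]
  simp

end

end BLKM

open BLKM

theorem specBLK (hLO : SpecLO) : SpecBLK := by
  intro E _ _ A u i N hA hu hb
  obtain ⟨h1, h2, -, h4, h5, h6, -, -⟩ := hLO E A u hA hu
  have H : Bk A N (fun s => qv A u (i + s)) (fun s => av A u (i + s)) (fun s => bv A u (i + s))
      (lan A u i).1 := by
    refine ⟨hA, fun s s' h => h1 _ _ (by omega), fun s hs => h2 _ fun l hl => hb l (by omega),
      fun s => ?_, ?_, fun s hs => ?_⟩
    · have := h4 (i + (s + 1))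
      have e1 : i + (s + 1) + 1 = i + (s + 2) := by omega
      have e2 : (lan A u (i + (s + 1))).1 = bv A u (i + s) • qv A u (i + s) := h5 (i + s)
      rw [e1, e2] at this
      exact this
    · exact h4 i
    · rcases Nat.eq_zero_or_pos i with h0 | h0
      · subst h0
        simp [lan]
      · obtain ⟨m, rfl⟩ : ∃ m, i = m + 1 := ⟨i - 1, by omega⟩
        rw [h5 m, real_inner_smul_right, h1 _ _ (by omega), mul_zero]
  have hbk : blk A u i N = bk A (fun s => qv A u (i + s)) N := rfl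
  rw [hbk]
  refine ⟨bk_sym H, fun x => ?_, bessel H, fun l hl => ?_, fun s hs f hf1 hf2 => ?_⟩
  · rw [← bk_sym H, bk_apply, pj_sym, real_inner_comm, pj_apply]
    exact quad H (fun s => ⟪qv A u (i + s), x⟫) N le_rfl
  · exact (opq H (av A u) (bv A u) i (fun _ => rfl) (fun _ => rfl)
      (fun s hs => hb _ (by omega)) l hl).1
  · rw [aeval_apply, aeval_apply]
    refine Finset.sum_congr rfl fun e he => ?_
    have he' := Finset.mem_range.1 he
    have := (pow_q H e (s := s) (by omega) (by omega)).1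
    rw [this]

end Pool.Agent.Lib.MP17fa2c
end

section
/-!
# MP_17fa2c_pr, module CHD: the Lanczos data are a Jacobi chain with first variation
-/
set_option autoImplicit false

open MeasureTheory ProbabilityTheory Filter Topology Polynomial
open scoped RealInnerProductSpace NNReal ENNReal

namespace Pool.Agent.Lib.MP17fa2c

namespace CHDM

variable {E : Type} [NormedAddCommGroup E] [InnerProductSpace ℝ E]

/-- the three term recursion, for every operator -/
theorem rec3 (A : E →L[ℝ] E) (u : E) (j : ℕ) :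
    A (qv A u j) = bv A u j • qv A u (j + 1) + av A u j • qv A u j + (lan A u j).1 := by
  have h1 : qv A u (j + 1) = (bv A u j)⁻¹ • wv A u j := rfl
  have h2 : bv A u j • qv A u (j + 1) = wv A u j := by
    rw [h1, smul_smul]
    by_cases h : bv A u j = 0
    · have hw : wv A u j = 0 := by
        have : ‖wv A u j‖ = 0 := h
        exact norm_eq_zero.mp this
      rw [hw, smul_zero]
    · rw [mul_inv_cancel₀ h, one_smul]
  rw [h2]
  unfold wv
  abel

/-- derivative along a line -/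
theorem line {F : Type*} [NormedAddCommGroup F] [NormedSpace ℝ F] {f : (E →L[ℝ] E) → F}
    {A H : E →L[ℝ] E} (hf : DifferentiableAt ℝ f A) :
    HasDerivAt (fun s : ℝ => f (A + s • H)) (fderiv ℝ f A H) 0 := by
  have h1 : HasDerivAt (fun s : ℝ => A + s • H) H 0 := by
    have := ((hasDerivAt_id (0 : ℝ)).smul_const H).const_add A
    simpa using this
  have h2 : HasFDerivAt f (fderiv ℝ f A) (A + (0 : ℝ) • H) := by
    rw [zero_smul, add_zero]
    exact hf.hasFDerivAt
  exact h2.comp_hasDerivAt (0 : ℝ) h1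

end CHDM

open CHDM in
theorem specCHD (hDIF : SpecDIF) (hLO : SpecLO) : SpecCHD := by
  intro E _ _ u A H K hA hH hu hb
  have hLOA := hLO E A u hA hu
  obtain ⟨h1, h2, -, h4, h5, -, -, -⟩ := hLOA
  have hq : ∀ j ≤ K, DifferentiableAt ℝ (fun A : E →L[ℝ] E => qv A u j) A := fun j hj =>
    (hDIF E u A j (fun l hl => hb l (by omega))).2.1
  have hav : ∀ j ≤ K, DifferentiableAt ℝ (fun A : E →L[ℝ] E => av A u j) A := fun j hj =>
    (hDIF E u A j (fun l hl => hb l (by omega))).2.2.1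
  have hbv : ∀ j ≤ K, DifferentiableAt ℝ (fun A : E →L[ℝ] E => bv A u j) A := fun j hj =>
    (hDIF E u A j (fun l hl => hb l (by omega))).2.2.2.2 (hb j hj)
  have hdapp : ∀ j ≤ K, HasDerivAt (fun s : ℝ => (A + s • H) (qv (A + s • H) u j))
      (H (qv A u j) + A (fderiv ℝ (fun A : E →L[ℝ] E => qv A u j) A H)) 0 := by
    intro j hj
    have e1 : HasDerivAt (fun s : ℝ => A + s • H) H 0 := by
      have := ((hasDerivAt_id (0 : ℝ)).smul_const H).const_add A
      simpa using this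
    have e2 := e1.clm_apply (line (H := H) (hq j hj))
    simpa using e2
  have hsym : ∀ s : ℝ, ∀ x y, ⟪(A + s • H) x, y⟫ = ⟪x, (A + s • H) y⟫ := by
    intro s x y
    simp only [ContinuousLinearMap.add_apply, ContinuousLinearMap.smul_apply, inner_add_left,
      inner_add_right, inner_smul_left, inner_smul_right, hA, hH]
    simp
  refine ⟨hA, hH, ?_, ?_, ?_, ?_, ?_, ?_, ?_, ?_⟩
  · -- dq0
    have : (fun A : E →L[ℝ] E => qv A u 0) = fun _ => u := rfl
    simp [this]
  · -- on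
    intro i hi j hj
    by_cases hij : i = j
    · subst hij
      rw [if_pos rfl, real_inner_self_eq_norm_sq, h2 i (fun l hl => hb l (by omega))]
      norm_num
    · rw [if_neg hij]
      exact h1 i j hij
  · intro j hj
    exact hb j (by omega)
  · intro hK
    have := h4 0
    have e0 : (lan A u 0).1 = 0 := rfl
    rw [e0, add_zero, add_comm] at this
    exact this
  · intro j hj
    rw [h4 (j + 1), h5 j]
    abel
  · -- dj0
    intro hK
    have e1 := hdapp 0 (by omega)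
    have e2 : HasDerivAt (fun s : ℝ => bv (A + s • H) u 0 • qv (A + s • H) u 1
        + av (A + s • H) u 0 • qv (A + s • H) u 0) _ 0 :=
      ((line (H := H) (hbv 0 (by omega))).smul (line (H := H) (hq 1 (by omega)))).add
        ((line (H := H) (hav 0 (by omega))).smul (line (H := H) (hq 0 (by omega))))
    have e3 : (fun s : ℝ => (A + s • H) (qv (A + s • H) u 0))
        = fun s : ℝ => bv (A + s • H) u 0 • qv (A + s • H) u 1
        + av (A + s • H) u 0 • qv (A + s • H) u 0 := by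
      funext s
      have := rec3 (A + s • H) u 0
      have e0 : (lan (A + s • H) u 0).1 = 0 := rfl
      rw [e0, add_zero] at this
      exact this
    rw [e3] at e1
    have e4 := e1.unique e2
    simp only [zero_smul, add_zero] at e4
    rw [e4]
    abel
  · -- dj
    intro j hj
    have e1 := hdapp (j + 1) (by omega)
    have e2 : HasDerivAt (fun s : ℝ => bv (A + s • H) u (j + 1) • qv (A + s • H) u (j + 2)
        + av (A + s • H) u (j + 1) • qv (A + s • H) u (j + 1)
        + bv (A + s • H) u j • qv (A + s • H) u j) _ 0 :=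
      (((line (H := H) (hbv (j + 1) (by omega))).smul (line (H := H) (hq (j + 2) (by omega)))).add
        ((line (H := H) (hav (j + 1) (by omega))).smul (line (H := H) (hq (j + 1) (by omega))))).add
        ((line (H := H) (hbv j (by omega))).smul (line (H := H) (hq j (by omega))))
    have e3 : (fun s : ℝ => (A + s • H) (qv (A + s • H) u (j + 1)))
        = fun s : ℝ => bv (A + s • H) u (j + 1) • qv (A + s • H) u (j + 2)
        + av (A + s • H) u (j + 1) • qv (A + s • H) u (j + 1)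
        + bv (A + s • H) u j • qv (A + s • H) u j := by
      funext s
      exact rec3 (A + s • H) u (j + 1)
    rw [e3] at e1
    have e4 := e1.unique e2
    simp only [zero_smul, add_zero] at e4
    rw [e4]
    abel
  · -- don
    intro i hi j hj
    have e1 : HasDerivAt (fun s : ℝ => ⟪qv (A + s • H) u i, qv (A + s • H) u j⟫) _ 0 :=
      (line (H := H) (hq i hi)).inner ℝ (line (H := H) (hq j hj))
    have e2 : HasDerivAt (fun s : ℝ => ⟪qv (A + s • H) u i, qv (A + s • H) u j⟫) 0 0 := by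
      have hc : ∀ᶠ s : ℝ in 𝓝 0, ⟪qv (A + s • H) u i, qv (A + s • H) u j⟫
          = if i = j then (1 : ℝ) else 0 := by
        by_cases hij : i = j
        · subst hij
          have hne : ∀ᶠ s : ℝ in 𝓝 0, ∀ l ∈ Finset.range i, bv (A + s • H) u l ≠ 0 := by
            rw [Finset.eventually_all]
            intro l hl
            rw [Finset.mem_range] at hl
            have hcont : ContinuousAt (fun s : ℝ => bv (A + s • H) u l) 0 :=
              (line (H := H) (hbv l (by omega))).continuousAt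
            apply hcont.eventually_ne
            rw [zero_smul, add_zero]
            exact hb l (by omega)
          filter_upwards [hne] with s hs
          rw [if_pos rfl, real_inner_self_eq_norm_sq]
          have := (hLO E (A + s • H) u (hsym s) hu).2.1 i (fun l hl => hs l (Finset.mem_range.2 hl))
          rw [this]
          norm_num
        · refine Eventually.of_forall fun s => ?_
          show ⟪qv (A + s • H) u i, qv (A + s • H) u j⟫ = if i = j then (1 : ℝ) else 0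
          rw [if_neg hij]
          exact (hLO E (A + s • H) u (hsym s) hu).1 i j hij
      exact (hasDerivAt_const (0 : ℝ) (if i = j then (1 : ℝ) else 0)).congr_of_eventuallyEq hc
    have e3 := e1.unique e2
    simp only [zero_smul, add_zero] at e3
    linarith

end Pool.Agent.Lib.MP17fa2c
end

section
/-!
# MP_17fa2c_pr, module DIF: differentiability of the Lanczos data
-/
set_option autoImplicit false

open MeasureTheory ProbabilityTheory Filter Topology Polynomial
open scoped RealInnerProductSpace NNReal ENNReal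

namespace Pool.Agent.Lib.MP17fa2c

namespace DIFM

variable {E : Type} [NormedAddCommGroup E] [InnerProductSpace ℝ E]

theorem lan_succ (A : E →L[ℝ] E) (u : E) (j : ℕ) :
    lan A u (j + 1) = (bv A u j • qv A u j, (bv A u j)⁻¹ • wv A u j) := rfl

theorem qv_diff {u : E} {A : E →L[ℝ] E} {j : ℕ}
    (h : DifferentiableAt ℝ (fun A : E →L[ℝ] E => lan A u j) A) :
    DifferentiableAt ℝ (fun A : E →L[ℝ] E => qv A u j) A := h.snd

theorem fst_diff {u : E} {A : E →L[ℝ] E} {j : ℕ}
    (h : DifferentiableAt ℝ (fun A : E →L[ℝ] E => lan A u j) A) :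
    DifferentiableAt ℝ (fun A : E →L[ℝ] E => (lan A u j).1) A := h.fst

theorem app_diff {u : E} {A : E →L[ℝ] E} {j : ℕ}
    (h : DifferentiableAt ℝ (fun A : E →L[ℝ] E => qv A u j) A) :
    DifferentiableAt ℝ (fun A : E →L[ℝ] E => A (qv A u j)) A :=
  differentiableAt_id.clm_apply h

theorem av_diff {u : E} {A : E →L[ℝ] E} {j : ℕ}
    (h : DifferentiableAt ℝ (fun A : E →L[ℝ] E => lan A u j) A) :
    DifferentiableAt ℝ (fun A : E →L[ℝ] E => av A u j) A := by
  unfold av
  exact (qv_diff h).inner ℝ (app_diff (qv_diff h))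

theorem wv_diff {u : E} {A : E →L[ℝ] E} {j : ℕ}
    (h : DifferentiableAt ℝ (fun A : E →L[ℝ] E => lan A u j) A) :
    DifferentiableAt ℝ (fun A : E →L[ℝ] E => wv A u j) A := by
  unfold wv
  exact ((app_diff (qv_diff h)).sub ((av_diff h).smul (qv_diff h))).sub (fst_diff h)

theorem bv_diff {u : E} {A : E →L[ℝ] E} {j : ℕ}
    (h : DifferentiableAt ℝ (fun A : E →L[ℝ] E => lan A u j) A) (hb : bv A u j ≠ 0) :
    DifferentiableAt ℝ (fun A : E →L[ℝ] E => bv A u j) A := by
  have hw : wv A u j ≠ 0 := by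
    intro h0
    apply hb
    unfold bv
    rw [h0, norm_zero]
  unfold bv
  exact (wv_diff h).norm ℝ hw

theorem lan_diff {u : E} {A : E →L[ℝ] E} : ∀ {j : ℕ}, (∀ l < j, bv A u l ≠ 0) →
    DifferentiableAt ℝ (fun A : E →L[ℝ] E => lan A u j) A
  | 0, _ => by
    have : (fun A : E →L[ℝ] E => lan A u 0) = fun _ => ((0 : E), u) := rfl
    rw [this]
    exact differentiableAt_const _
  | j + 1, h => by
    have ih := lan_diff (j := j) (fun l hl => h l (by omega))
    have hb := h j (by omega)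
    have h1 : (fun A : E →L[ℝ] E => lan A u (j + 1))
        = fun A => (bv A u j • qv A u j, (bv A u j)⁻¹ • wv A u j) := by
      funext A
      exact lan_succ A u j
    rw [h1]
    have hbd := bv_diff ih hb
    exact (hbd.smul (qv_diff ih)).prodMk ((hbd.inv hb).smul (wv_diff ih))

end DIFM

open DIFM in
theorem specDIF : SpecDIF := by
  intro E _ _ u A j h
  have hl := lan_diff h
  refine ⟨hl, qv_diff hl, av_diff hl, ?_, fun hb => bv_diff hl hb⟩
  unfold bv
  exact (wv_diff hl).norm_sq ℝ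

end Pool.Agent.Lib.MP17fa2c
end

section
set_option autoImplicit false

open MeasureTheory ProbabilityTheory Filter Topology Polynomial
open scoped RealInnerProductSpace NNReal ENNReal

namespace Pool.Agent.Lib.MP17fa2c

namespace EDAM

theorem b_bounds {ω b : ℝ} (hω0 : 0 < ω) (hω : ω ≤ 1 / 8) (hb : 0 < b)
    (hb2 : |b ^ 2 - 1| ≤ 2 * ω) : |b - 1| ≤ 2 * ω ∧ b⁻¹ ≤ 1 + 2 * ω := by
  have h1 := abs_le.1 hb2
  have hb3 : 4 / 5 ≤ b := by nlinarith [h1.1, h1.2]
  constructor
  · have h2 : |b - 1| * (b + 1) ≤ 2 * ω := by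
      have h3 : |b ^ 2 - 1| = |b - 1| * (b + 1) := by
        have h4 : b ^ 2 - 1 = (b - 1) * (b + 1) := by ring
        rw [h4, abs_mul, abs_of_pos (show (0 : ℝ) < b + 1 by linarith)]
      rw [← h3]
      exact hb2
    nlinarith [abs_nonneg (b - 1)]
  · rw [inv_le_comm₀ hb (by linarith)]
    rw [inv_le_iff_one_le_mul₀ (by linarith)]
    nlinarith [h1.1, h1.2]

/-- one step -/
theorem step {ω b w w' q q' v y : ℝ} (hω0 : 0 < ω) (hω : ω ≤ 1 / 8) (hb : 0 < b)
    (hb2 : |b ^ 2 - 1| ≤ 2 * ω) (hv : |v| ≤ 2 * ω) (hy : |y - 2| ≤ 100 * ω ^ 2)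
    (hw : w = b * q' - (1 + v) * q) (hw' : w' = b * w + (y - 2) * q' - v * (q' - b * q)) :
    |w'| + ω * |q'| ≤ (1 + 200 * ω) * (|w| + ω * |q|) := by
  obtain ⟨hb1, hc⟩ := b_bounds hω0 hω hb hb2
  have hb1' := abs_le.1 hb1
  have hc0 : 0 < b⁻¹ := inv_pos.2 hb
  have e1 : q' = b⁻¹ * (w + (1 + v) * q) := by
    rw [hw]
    field_simp
    ring
  have e2 : q' - b * q = b⁻¹ * (w + (1 + v - b ^ 2) * q) := by
    rw [hw]
    field_simp
    ring
  have hv' := abs_le.1 hv
  have h1v : |1 + v| ≤ 1 + 2 * ω := by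
    rw [abs_le]
    constructor <;> linarith
  have h2v : |1 + v - b ^ 2| ≤ 4 * ω := by
    have := abs_le.1 hb2
    rw [abs_le]
    constructor <;> linarith
  have f1 : |q'| ≤ (1 + 2 * ω) * (|w| + (1 + 2 * ω) * |q|) := by
    rw [e1, abs_mul, abs_of_pos hc0]
    refine mul_le_mul hc ?_ (abs_nonneg _) (by linarith)
    refine (abs_add_le _ _).trans ?_
    rw [abs_mul]
    have := mul_le_mul_of_nonneg_right h1v (abs_nonneg q)
    linarith
  have f2 : |q' - b * q| ≤ (1 + 2 * ω) * (|w| + 4 * ω * |q|) := by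
    rw [e2, abs_mul, abs_of_pos hc0]
    refine mul_le_mul hc ?_ (abs_nonneg _) (by linarith)
    refine (abs_add_le _ _).trans ?_
    rw [abs_mul]
    have := mul_le_mul_of_nonneg_right h2v (abs_nonneg q)
    linarith
  have f3 : |w'| ≤ (1 + 2 * ω) * |w| + 100 * ω ^ 2 * |q'| + 2 * ω * |q' - b * q| := by
    rw [hw']
    refine (abs_sub _ _).trans ?_
    refine add_le_add ((abs_add_le _ _).trans (add_le_add ?_ ?_)) ?_
    · rw [abs_mul, abs_of_pos hb]
      exact mul_le_mul_of_nonneg_right (by linarith [hb1'.2]) (abs_nonneg _)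
    · rw [abs_mul]
      exact mul_le_mul_of_nonneg_right hy (abs_nonneg _)
    · rw [abs_mul]
      exact mul_le_mul_of_nonneg_right hv (abs_nonneg _)
  set A := |w| with hA
  set Q := |q| with hQ
  have hA0 : 0 ≤ A := abs_nonneg _
  have hQ0 : 0 ≤ Q := abs_nonneg _
  have hωA : 0 ≤ ω * A := by positivity
  have hωQ : 0 ≤ ω * Q := by positivity
  have hω2 : ω ^ 2 ≤ ω / 8 := by nlinarith
  have g1 : ω * |q'| ≤ 5 / 4 * (ω * A) + (1 + 9 / 2 * ω) * (ω * Q) := by
    have h1 := mul_le_mul_of_nonneg_left f1 hω0.le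
    have h2 : ω * ((1 + 2 * ω) * (A + (1 + 2 * ω) * Q)) =
        (1 + 2 * ω) * (ω * A) + (1 + 4 * ω + 4 * ω ^ 2) * (ω * Q) := by ring
    have h3 : (1 + 2 * ω) * (ω * A) ≤ 5 / 4 * (ω * A) :=
      mul_le_mul_of_nonneg_right (by linarith) hωA
    have h4 : (1 + 4 * ω + 4 * ω ^ 2) * (ω * Q) ≤ (1 + 9 / 2 * ω) * (ω * Q) :=
      mul_le_mul_of_nonneg_right (by linarith) hωQ
    linarith
  have g2 : 100 * ω ^ 2 * |q'| ≤ 20 * (ω * A) + 160 * (ω * (ω * Q)) := by
    have h1 : 100 * ω ^ 2 * |q'| = 100 * ω * (ω * |q'|) := by ring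
    have h2 : 100 * ω * (ω * |q'|) ≤ 100 * ω * (5 / 4 * (ω * A) + (1 + 9 / 2 * ω) * (ω * Q)) :=
      mul_le_mul_of_nonneg_left g1 (by positivity)
    have h3 : 100 * ω * (5 / 4 * (ω * A)) ≤ 20 * (ω * A) := by nlinarith
    have h4 : 100 * ω * ((1 + 9 / 2 * ω) * (ω * Q)) ≤ 160 * (ω * (ω * Q)) := by
      have h5 : 100 * ω * ((1 + 9 / 2 * ω) * (ω * Q)) =
          (100 + 450 * ω) * (ω * (ω * Q)) := by ring
      rw [h5]
      exact mul_le_mul_of_nonneg_right (by linarith) (by positivity)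
    rw [h1]
    linarith
  have g3 : 2 * ω * |q' - b * q| ≤ 5 / 2 * (ω * A) + 10 * (ω * (ω * Q)) := by
    have h1 : 2 * ω * |q' - b * q| ≤ 2 * ω * ((1 + 2 * ω) * (A + 4 * ω * Q)) :=
      mul_le_mul_of_nonneg_left f2 (by positivity)
    have h2 : 2 * ω * ((1 + 2 * ω) * (A + 4 * ω * Q)) =
        (1 + 2 * ω) * (2 * (ω * A) + 8 * (ω * (ω * Q))) := by ring
    have h3 : (1 + 2 * ω) * (2 * (ω * A) + 8 * (ω * (ω * Q))) ≤
        5 / 4 * (2 * (ω * A) + 8 * (ω * (ω * Q))) :=
      mul_le_mul_of_nonneg_right (by linarith) (by positivity)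
    linarith
  have h9 : (1 + 200 * ω) * (A + ω * Q) = A + 200 * (ω * A) + ω * Q + 200 * (ω * (ω * Q)) := by
    ring
  have h10 : 0 ≤ ω * (ω * Q) := by positivity
  rw [h9]
  have h11 : (1 + 2 * ω) * A = A + 2 * (ω * A) := by ring
  have h12 : (1 + 9 / 2 * ω) * (ω * Q) = ω * Q + 9 / 2 * (ω * (ω * Q)) := by ring
  linarith

theorem last {ω b w q q' v : ℝ} (hω0 : 0 < ω) (hω : ω ≤ 1 / 8) (hb : 0 < b)
    (hb2 : |b ^ 2 - 1| ≤ 2 * ω) (hv : |v| ≤ 2 * ω)
    (hw : w = b * q' - (1 + v) * q) : |q' - q| ≤ 5 * (|w| + ω * |q|) := by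
  obtain ⟨hb1, hc⟩ := b_bounds hω0 hω hb hb2
  have hc0 : 0 < b⁻¹ := inv_pos.2 hb
  have e1 : q' - q = b⁻¹ * (w + (1 + v - b) * q) := by
    rw [hw]
    field_simp
    ring
  have h1v : |1 + v - b| ≤ 4 * ω := by
    have h1 := abs_le.1 hb1
    have h2 := abs_le.1 hv
    rw [abs_le]
    constructor <;> linarith
  have f1 : |q' - q| ≤ (1 + 2 * ω) * (|w| + 4 * ω * |q|) := by
    rw [e1, abs_mul, abs_of_pos hc0]
    refine mul_le_mul hc ?_ (abs_nonneg _) (by linarith)
    refine (abs_add_le _ _).trans ?_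
    rw [abs_mul]
    have := mul_le_mul_of_nonneg_right h1v (abs_nonneg q)
    linarith
  refine f1.trans ?_
  have h2 : (1 + 2 * ω) * (|w| + 4 * ω * |q|) ≤ 5 / 4 * (|w| + 4 * ω * |q|) :=
    mul_le_mul_of_nonneg_right (by linarith) (by positivity)
  have h3 : 0 ≤ |w| := abs_nonneg _
  linarith

end EDAM

open EDAM

theorem specEDA : SpecEDA := by
  refine ⟨200, by norm_num, ?_⟩
  intro α B N ω y p hE hω hp hy l hl
  have hω0 := hE.pos
  set v : ℕ → ℝ := fun l => -(∑ i ∈ Finset.range (l + 1), α i) -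
    ∑ i ∈ Finset.range l, (B i ^ 2 - 1) with hv
  set w : ℕ → ℝ := fun l => B l * p (l + 1) - (1 + v l) * p l with hw
  have hvb : ∀ l < N, |v l| ≤ 2 * ω := by
    intro l hl
    have h1 := abs_le.1 (hE.sumα (l + 1) hl)
    have h2 := abs_le.1 (hE.sumB l hl.le)
    rw [hv, abs_le]
    constructor <;> linarith [h1.1, h1.2, h2.1, h2.2]
  have hBb : ∀ l < N, |B l ^ 2 - 1| ≤ 2 * ω := by
    intro l hl
    have h1 := abs_le.1 (hE.sumB l hl.le)
    have h2 := abs_le.1 (hE.sumB (l + 1) hl)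
    rw [Finset.sum_range_succ] at h2
    rw [abs_le]
    constructor <;> linarith [h1.1, h1.2, h2.1, h2.2]
  have hvs : ∀ l, v (l + 1) = v l - α (l + 1) - (B l ^ 2 - 1) := by
    intro l
    rw [hv]
    simp only
    rw [Finset.sum_range_succ α (l + 1), Finset.sum_range_succ (fun i => B i ^ 2 - 1) l]
    ring
  have hstep : ∀ l, l + 1 < N → w (l + 1) = B l * w l + (y - 2) * p (l + 1) -
      v l * (p (l + 1) - B l * p l) := by
    intro l hl
    rw [hw]
    simp only
    rw [hp.succ l hl, hvs]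
    ring
  have hN0 : 0 < N → |w 0| + ω * |p 0| ≤ 4 := by
    intro h0
    have h1 : w 0 = y - 1 := by
      rw [hw]
      simp only
      rw [zero_add, hp.one h0, hp.zero, hv]
      simp only [zero_add, Finset.sum_range_one, Finset.sum_range_zero]
      ring
    rw [h1, hp.zero]
    have h2 := abs_le.1 hy
    have h3 : ω ^ 2 ≤ 1 / 64 := by nlinarith
    have h4 : |y - 1| ≤ 3 := by
      rw [abs_le]
      constructor <;> linarith
    rw [abs_one]
    linarith
  have key : ∀ l, l < N → |w l| + ω * |p l| ≤ 4 * Real.exp (200 * (l * ω)) := by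
    intro l
    induction l with
    | zero =>
      intro h
      have := hN0 h
      simpa using this
    | succ l ih =>
      intro h
      have h1 := step hω0 hω (hE.B_pos l (by omega)) (hBb l (by omega)) (hvb l (by omega)) hy
        (show w l = B l * p (l + 1) - (1 + v l) * p l from rfl) (hstep l h)
      have h2 := ih (by omega)
      have h3 : 1 + 200 * ω ≤ Real.exp (200 * ω) := by
        linarith [Real.add_one_le_exp (200 * ω)]
      have h4 : 0 ≤ |w l| + ω * |p l| := by positivity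
      calc |w (l + 1)| + ω * |p (l + 1)| ≤ (1 + 200 * ω) * (|w l| + ω * |p l|) := h1
        _ ≤ Real.exp (200 * ω) * (4 * Real.exp (200 * (l * ω))) :=
          mul_le_mul h3 h2 h4 (Real.exp_pos _).le
        _ = 4 * Real.exp (200 * ((l + 1 : ℕ) * ω)) := by
          have h5 : Real.exp (200 * ((l + 1 : ℕ) * ω)) =
              Real.exp (200 * ω) * Real.exp (200 * (l * ω)) := by
            rw [← Real.exp_add]
            congr 1
            push_cast
            ring
          rw [h5]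
          ring
  have h1 := last hω0 hω (hE.B_pos l hl) (hBb l hl) (hvb l hl)
    (show w l = B l * p (l + 1) - (1 + v l) * p l from rfl)
  have h2 := key l hl
  have h3 : Real.exp (200 * (l * ω)) ≤ Real.exp (200 * (N * ω)) := by
    refine Real.exp_le_exp.2 (mul_le_mul_of_nonneg_left ?_ (by norm_num))
    refine mul_le_mul_of_nonneg_right ?_ hω0.le
    exact_mod_cast hl.le
  have h4 := Real.exp_pos (200 * (N * ω))
  linarith

end Pool.Agent.Lib.MP17fa2c
end

section
set_option autoImplicit false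

namespace Pool.Agent.Lib.MP17fa2c

namespace EDBM

/-- the quadratic form -/
noncomputable def Q (s p w : ℝ) : ℝ := s ^ 2 * p ^ 2 + s ^ 2 * p * w + w ^ 2

lemma Q_low {s : ℝ} (hs0 : 0 ≤ s) (hs : s ^ 2 ≤ 2) (p w : ℝ) :
    s ^ 2 * p ^ 2 + w ^ 2 ≤ 4 * Q s p w := by
  unfold Q
  have hs1 : s ≤ 3 / 2 := by nlinarith
  have hs2 : s * s ≤ 3 / 2 * s := by nlinarith
  -- 3 a² + 4 s a w + 3 w² ≥ 0 with a = s p
  nlinarith [sq_nonneg (s * p + w), sq_nonneg (s * p - w), mul_nonneg hs0 (sq_nonneg (s * p + w)),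
    mul_nonneg hs0 (sq_nonneg (s * p - w)), sq_nonneg (s * p), sq_nonneg w,
    mul_nonneg (sub_nonneg.2 hs1) (sq_nonneg (s * p - w)),
    mul_nonneg (sub_nonneg.2 hs1) (sq_nonneg (s * p + w))]

lemma Q_up {s : ℝ} (hs0 : 0 ≤ s) (hs : s ^ 2 ≤ 2) (p w : ℝ) :
    Q s p w ≤ 2 * (s ^ 2 * p ^ 2 + w ^ 2) := by
  unfold Q
  have hs1 : s ≤ 3 / 2 := by nlinarith
  nlinarith [sq_nonneg (s * p + w), sq_nonneg (s * p - w), mul_nonneg hs0 (sq_nonneg (s * p + w)),
    mul_nonneg hs0 (sq_nonneg (s * p - w)), sq_nonneg (s * p), sq_nonneg w,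
    mul_nonneg (sub_nonneg.2 hs1) (sq_nonneg (s * p - w)),
    mul_nonneg (sub_nonneg.2 hs1) (sq_nonneg (s * p + w))]

lemma Q_nonneg {s : ℝ} (hs0 : 0 ≤ s) (hs : s ^ 2 ≤ 2) (p w : ℝ) : 0 ≤ Q s p w := by
  have := Q_low hs0 hs p w
  nlinarith [sq_nonneg (s * p), sq_nonneg w]

/-- `Q` is preserved by the free step -/
lemma Q_free (s p w : ℝ) : Q s (p + w) (w - s ^ 2 * (p + w)) = Q s p w := by
  unfold Q; ring

/-- the polar inequality -/
lemma Q_add {s : ℝ} (hs0 : 0 ≤ s) (hs : s ^ 2 ≤ 2) {t : ℝ} (ht : 0 < t) (p w e f : ℝ) :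
    Q s (p + e) (w + f) ≤ (1 + t) * Q s p w + (1 + 1 / t) * Q s e f := by
  have h := Q_nonneg hs0 hs (t * p - e) (t * w - f)
  have key : t * ((1 + t) * Q s p w + (1 + 1 / t) * Q s e f - Q s (p + e) (w + f))
      = Q s (t * p - e) (t * w - f) := by
    unfold Q
    field_simp
    ring
  have h2 : 0 ≤ t * ((1 + t) * Q s p w + (1 + 1 / t) * Q s e f - Q s (p + e) (w + f)) := by
    rw [key]; exact h
  have h3 := nonneg_of_mul_nonneg_right h2 ht
  linarith

set_option maxHeartbeats 1000000 in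
lemma step {ω s V B p u p' u' : ℝ} (hω : 0 < ω) (hω8 : ω ≤ 1 / 8) (hsω : ω ≤ s) (hs : s ^ 2 ≤ 2)
    (hV : |V| ≤ 2 * ω) (hB : |B - 1| ≤ 2 * ω) (hB2 : |B ^ 2 - 1| ≤ 2 * ω)
    (hp : B * p' = (1 + V) * p + u) (hu : u' = B * u - s ^ 2 * p' - V * (p' - B * p)) :
    Q s p' u' ≤ (1 + 10000 * ω) * Q s p u := by
  have hs0 : 0 ≤ s := by linarith
  have hs1 : s ≤ 3 / 2 := by nlinarith
  have hB34 : 3 / 4 ≤ B := by
    have := (abs_le.1 hB).1; linarith
  have hBpos : 0 < B := by linarith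
  have hBinv : ∀ x : ℝ, |x| ≤ 4 / 3 * |B * x| := by
    intro x
    rw [abs_mul, abs_of_pos hBpos]
    nlinarith [abs_nonneg x]
  set a : ℝ := s * |p| with ha
  set b : ℝ := |u| with hb
  have ha0 : 0 ≤ a := mul_nonneg hs0 (abs_nonneg p)
  have hb0 : 0 ≤ b := abs_nonneg u
  -- first error
  set e : ℝ := p' - (p + u) with he
  have hBe : B * e = (1 + V - B) * p + (1 - B) * u := by
    rw [he]; linear_combination hp
  have he1 : |e| ≤ 6 * ω * |p| + 3 * ω * b := by
    have h1 : |B * e| ≤ 4 * ω * |p| + 2 * ω * b := by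
      rw [hBe]
      have h2 : |(1 + V - B) * p| ≤ 4 * ω * |p| := by
        rw [abs_mul]
        apply mul_le_mul_of_nonneg_right _ (abs_nonneg p)
        have : 1 + V - B = V - (B - 1) := by ring
        rw [this]
        have := abs_sub V (B - 1)
        linarith
      have h3 : |(1 - B) * u| ≤ 2 * ω * b := by
        rw [abs_mul, abs_sub_comm]
        exact mul_le_mul_of_nonneg_right hB (abs_nonneg u)
      exact (abs_add_le _ _).trans (add_le_add h2 h3)
    have := hBinv e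
    have hpp : 0 ≤ ω * |p| := mul_nonneg hω.le (abs_nonneg p)
    have hbb : 0 ≤ ω * b := mul_nonneg hω.le hb0
    nlinarith
  have hse : s * |e| ≤ ω * (6 * a + 5 * b) := by
    have h1 := mul_le_mul_of_nonneg_left he1 hs0
    have h2 : s * (ω * b) ≤ 3 / 2 * (ω * b) := mul_le_mul_of_nonneg_right hs1 (mul_nonneg hω.le hb0)
    have hbb : 0 ≤ ω * b := mul_nonneg hω.le hb0
    rw [ha]
    nlinarith
  -- second error
  set f : ℝ := u' - (u - s ^ 2 * (p + u)) with hf
  have hfe : f = (B - 1) * u - s ^ 2 * e - V * (p' - B * p) := by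
    rw [hf, hu, he]; ring
  have hd : |p' - B * p| ≤ 4 / 3 * (4 * ω * |p| + b) := by
    refine (hBinv _).trans ?_
    apply mul_le_mul_of_nonneg_left _ (by norm_num)
    have : B * (p' - B * p) = (V - (B ^ 2 - 1)) * p + u := by linear_combination hp
    rw [this]
    have h2 : |(V - (B ^ 2 - 1)) * p| ≤ 4 * ω * |p| := by
      rw [abs_mul]
      apply mul_le_mul_of_nonneg_right _ (abs_nonneg p)
      have := abs_sub V (B ^ 2 - 1)
      linarith
    exact (abs_add_le _ _).trans (add_le_add h2 le_rfl)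
  have hVd : |V * (p' - B * p)| ≤ ω * (11 * a + 3 * b) := by
    rw [abs_mul]
    have h1 : |V| * |p' - B * p| ≤ 2 * ω * (4 / 3 * (4 * ω * |p| + b)) :=
      mul_le_mul hV hd (abs_nonneg _) (by linarith)
    have h2 : ω * |p| ≤ a := mul_le_mul_of_nonneg_right hsω (abs_nonneg p)
    have h3 := mul_le_mul_of_nonneg_left h2 hω.le
    have hbb : 0 ≤ ω * b := mul_nonneg hω.le hb0
    have haa : 0 ≤ ω * a := mul_nonneg hω.le ha0
    nlinarith
  have hf1 : |f| ≤ ω * (20 * a + 13 * b) := by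
    rw [hfe]
    have h1 : |(B - 1) * u| ≤ 2 * ω * b := by
      rw [abs_mul]
      exact mul_le_mul_of_nonneg_right hB (abs_nonneg u)
    have h2 : |s ^ 2 * e| ≤ 3 / 2 * (ω * (6 * a + 5 * b)) := by
      rw [abs_mul, abs_of_nonneg (sq_nonneg s), pow_two, mul_assoc]
      have h0 : 0 ≤ s * |e| := mul_nonneg hs0 (abs_nonneg e)
      calc s * (s * |e|) ≤ 3 / 2 * (s * |e|) := mul_le_mul_of_nonneg_right hs1 h0
        _ ≤ _ := mul_le_mul_of_nonneg_left hse (by norm_num)
    have h3 := abs_sub ((B - 1) * u - s ^ 2 * e) (V * (p' - B * p))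
    have h4 := abs_sub ((B - 1) * u) (s ^ 2 * e)
    have hbb : 0 ≤ ω * b := mul_nonneg hω.le hb0
    have haa : 0 ≤ ω * a := mul_nonneg hω.le ha0
    nlinarith
  -- the form of the error
  have hab : a ^ 2 + b ^ 2 ≤ 4 * Q s p u := by
    have := Q_low hs0 hs p u
    rw [ha, hb, mul_pow, sq_abs, sq_abs]
    exact this
  have hQe : Q s e f ≤ 8000 * ω ^ 2 * Q s p u := by
    have h1 := Q_up hs0 hs e f
    have h2 : s ^ 2 * e ^ 2 ≤ (ω * (6 * a + 5 * b)) ^ 2 := by
      have : s ^ 2 * e ^ 2 = (s * |e|) ^ 2 := by rw [mul_pow, sq_abs]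
      rw [this]
      exact pow_le_pow_left₀ (mul_nonneg hs0 (abs_nonneg e)) hse 2
    have h3 : f ^ 2 ≤ (ω * (20 * a + 13 * b)) ^ 2 := by
      rw [← sq_abs f]
      exact pow_le_pow_left₀ (abs_nonneg f) hf1 2
    have h4 : (ω * (6 * a + 5 * b)) ^ 2 + (ω * (20 * a + 13 * b)) ^ 2
        ≤ ω ^ 2 * (1000 * (a ^ 2 + b ^ 2)) := by
      have : (6 * a + 5 * b) ^ 2 + (20 * a + 13 * b) ^ 2 ≤ 1000 * (a ^ 2 + b ^ 2) := by
        nlinarith [sq_nonneg (a - b)]
      have h5 := mul_le_mul_of_nonneg_left this (sq_nonneg ω)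
      calc _ = ω ^ 2 * ((6 * a + 5 * b) ^ 2 + (20 * a + 13 * b) ^ 2) := by ring
        _ ≤ _ := h5
    have h6 := mul_le_mul_of_nonneg_left hab (sq_nonneg ω)
    nlinarith
  have hadd := Q_add hs0 hs hω (p + u) (u - s ^ 2 * (p + u)) e f
  rw [Q_free] at hadd
  have hp' : p + u + e = p' := by rw [he]; ring
  have hu' : u - s ^ 2 * (p + u) + f = u' := by rw [hf]; ring
  rw [hp', hu'] at hadd
  have hQ0 := Q_nonneg hs0 hs p u
  have h7 : (1 + 1 / ω) * Q s e f ≤ (1 + 1 / ω) * (8000 * ω ^ 2 * Q s p u) :=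
    mul_le_mul_of_nonneg_left hQe (by positivity)
  have h8 : (1 + 1 / ω) * (8000 * ω ^ 2 * Q s p u) = (8000 * ω ^ 2 + 8000 * ω) * Q s p u := by
    field_simp
  have h9 : (8000 * ω ^ 2 + 8000 * ω) * Q s p u ≤ 9000 * ω * Q s p u := by
    apply mul_le_mul_of_nonneg_right _ hQ0
    nlinarith
  have h10 : 0 ≤ ω * Q s p u := mul_nonneg hω.le hQ0
  calc Q s p' u' ≤ (1 + ω) * Q s p u + (1 + 1 / ω) * Q s e f := hadd
    _ ≤ (1 + ω) * Q s p u + 9000 * ω * Q s p u := by
      apply add_le_add le_rfl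
      exact h7.trans (h8.le.trans h9)
    _ = (1 + 10000 * ω) * Q s p u - 999 * (ω * Q s p u) := by ring
    _ ≤ _ := by
      apply sub_le_self
      exact mul_nonneg (by norm_num) h10

end EDBM

theorem specEDB : SpecEDB := by
  refine ⟨5000, by norm_num, ?_⟩
  intro α B N ω y p hE hω8 hP hy0 hy2 l hl
  have hω := hE.pos
  set s : ℝ := Real.sqrt (2 - y) with hsdef
  have h2y : 0 ≤ 2 - y := by nlinarith [sq_nonneg ω]
  have hs2 : s ^ 2 = 2 - y := Real.sq_sqrt h2y
  have hs0 : 0 ≤ s := Real.sqrt_nonneg _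
  have hsω : ω ≤ s := Real.le_sqrt_of_sq_le (by linarith)
  have hs : s ^ 2 ≤ 2 := by rw [hs2]; linarith
  let V : ℕ → ℝ := fun l => -(∑ i ∈ Finset.range (l + 1), α i) - ∑ i ∈ Finset.range l, (B i ^ 2 - 1)
  let u : ℕ → ℝ := fun l => B l * p (l + 1) - (1 + V l) * p l
  have hV : ∀ l < N, |V l| ≤ 2 * ω := by
    intro l hl
    have h1 := hE.sumα (l + 1) hl
    have h2 := hE.sumB l hl.le
    have h3 := abs_sub (-(∑ i ∈ Finset.range (l + 1), α i)) (∑ i ∈ Finset.range l, (B i ^ 2 - 1))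
    rw [abs_neg] at h3
    change |-(∑ i ∈ Finset.range (l + 1), α i) - ∑ i ∈ Finset.range l, (B i ^ 2 - 1)| ≤ 2 * ω
    linarith
  have hB2 : ∀ l < N, |B l ^ 2 - 1| ≤ 2 * ω := by
    intro l hl
    have h1 := hE.sumB (l + 1) hl
    have h2 := hE.sumB l hl.le
    rw [Finset.sum_range_succ] at h1
    have h3 := abs_sub (∑ i ∈ Finset.range l, (B i ^ 2 - 1) + (B l ^ 2 - 1))
      (∑ i ∈ Finset.range l, (B i ^ 2 - 1))
    rw [add_sub_cancel_left] at h3
    linarith
  have hB : ∀ l < N, |B l - 1| ≤ 2 * ω := by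
    intro l hl
    have h1 := hB2 l hl
    have hp := hE.B_pos l hl
    have h2 : |B l - 1| ≤ |B l ^ 2 - 1| := by
      have : B l ^ 2 - 1 = (B l + 1) * (B l - 1) := by ring
      rw [this, abs_mul, abs_of_pos (by linarith : (0 : ℝ) < B l + 1)]
      nlinarith [abs_nonneg (B l - 1)]
    linarith
  have hu0 : 0 < N → u 0 = y - 1 := by
    intro hN
    have h1 := hP.one hN
    have h0 := hP.zero
    simp only [u, V, Finset.sum_range_succ, Finset.sum_range_zero, zero_add, h1, h0]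
    ring
  have hus : ∀ l, l + 1 < N → u (l + 1) = B l * u l - s ^ 2 * p (l + 1) - V l * (p (l + 1) - B l * p l) := by
    intro l hl
    have h1 := hP.succ l hl
    have h2 : V (l + 1) = V l - α (l + 1) - (B l ^ 2 - 1) := by
      simp only [V, Finset.sum_range_succ]
      ring
    have h3 : u (l + 1) = B (l + 1) * p (l + 1 + 1) - (1 + V (l + 1)) * p (l + 1) := rfl
    rw [h3, h1, h2, hs2]
    simp only [u]
    ring
  have hbound : ∀ l < N, EDBM.Q s (p l) (u l) ≤ 5 * Real.exp (10000 * ω * l) := by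
    intro l
    induction l with
    | zero =>
      intro hN
      rw [hP.zero, hu0 hN]
      have : EDBM.Q s 1 (y - 1) ≤ 5 := by
        unfold EDBM.Q
        have hy : y - 1 = 1 - s ^ 2 := by rw [hs2]; ring
        rw [hy]
        nlinarith [sq_nonneg s, sq_nonneg (s ^ 2)]
      simpa using this
    | succ l ih =>
      intro hl
      have h0 := ih (by omega)
      have h1 := EDBM.step (p := p l) (u := u l) (p' := p (l + 1)) (u' := u (l + 1)) hω hω8 hsω hs
        (hV l (by omega)) (hB l (by omega)) (hB2 l (by omega)) (by simp only [u]; ring) (hus l hl)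
      have h2 : (1 : ℝ) + 10000 * ω ≤ Real.exp (10000 * ω) := by
        have := Real.add_one_le_exp (10000 * ω); linarith
      have h3 := EDBM.Q_nonneg hs0 hs (p l) (u l)
      calc _ ≤ (1 + 10000 * ω) * EDBM.Q s (p l) (u l) := h1
        _ ≤ Real.exp (10000 * ω) * (5 * Real.exp (10000 * ω * l)) :=
          mul_le_mul h2 h0 h3 (Real.exp_pos _).le
        _ = 5 * Real.exp (10000 * ω * ((l + 1 : ℕ) : ℝ)) := by
          push_cast
          rw [mul_add, Real.exp_add]
          ring_nf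
  -- conclusion
  have hQ := hbound l hl
  have hlow := EDBM.Q_low hs0 hs (p l) (u l)
  have hBl := hB l hl
  have hB34 : 3 / 4 ≤ B l := by
    have := (abs_le.1 hBl).1; linarith
  have hBpos : 0 < B l := by linarith
  have h1 : B l * (p (l + 1) - p l) = (V l - (B l - 1)) * p l + u l := by
    simp only [u]; ring
  have h2 : |B l * (p (l + 1) - p l)| ≤ 4 * (s * |p l|) + |u l| := by
    rw [h1]
    refine (abs_add_le _ _).trans (add_le_add ?_ le_rfl)
    rw [abs_mul]
    have h3 := abs_sub (V l) (B l - 1)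
    have h4 := hV l hl
    have h5 : |V l - (B l - 1)| ≤ 4 * s := by linarith
    calc _ ≤ 4 * s * |p l| := mul_le_mul_of_nonneg_right h5 (abs_nonneg _)
      _ = _ := by ring
  have h3 : |p (l + 1) - p l| ≤ 4 / 3 * (4 * (s * |p l|) + |u l|) := by
    rw [abs_mul, abs_of_pos hBpos] at h2
    nlinarith [abs_nonneg (p (l + 1) - p l)]
  have h4 : (4 / 3 * (4 * (s * |p l|) + |u l|)) ^ 2 ≤ 640 * Real.exp (10000 * ω * l) := by
    have h5 : (s * |p l|) ^ 2 + |u l| ^ 2 ≤ 20 * Real.exp (10000 * ω * l) := by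
      rw [mul_pow, sq_abs, sq_abs]
      linarith
    nlinarith [sq_nonneg (s * |p l| - 4 * |u l|)]
  have h6 : |p (l + 1) - p l| ^ 2 ≤ (5000 * Real.exp (5000 * (N * ω))) ^ 2 := by
    calc _ ≤ (4 / 3 * (4 * (s * |p l|) + |u l|)) ^ 2 := pow_le_pow_left₀ (abs_nonneg _) h3 2
      _ ≤ 640 * Real.exp (10000 * ω * l) := h4
      _ ≤ 640 * Real.exp (10000 * ω * N) := by
        have : (l : ℝ) ≤ N := by exact_mod_cast hl.le
        have : 10000 * ω * l ≤ 10000 * ω * N := mul_le_mul_of_nonneg_left this (by positivity)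
        have := Real.exp_le_exp.2 this
        linarith
      _ ≤ _ := by
        rw [mul_pow, ← Real.exp_nat_mul]
        have : ((2 : ℕ) : ℝ) * (5000 * (N * ω)) = 10000 * ω * N := by push_cast; ring
        rw [this]
        nlinarith [Real.exp_pos (10000 * ω * N)]
  exact (pow_le_pow_iff_left₀ (abs_nonneg _) (by positivity) (by norm_num)).1 h6

end Pool.Agent.Lib.MP17fa2c
end

section
set_option autoImplicit false

open MeasureTheory ProbabilityTheory Filter Topology Polynomial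
open scoped RealInnerProductSpace NNReal ENNReal

namespace Pool.Agent.Lib.MP17fa2c

namespace EDCM

theorem inv_le {b g : ℝ} (hb : 0 < b) (hg : -Real.log (2 * b) ≤ g) : b⁻¹ ≤ 2 * Real.exp g := by
  have h1 : Real.exp (-Real.log (2 * b)) ≤ Real.exp g := Real.exp_le_exp.2 hg
  rw [Real.exp_neg, Real.exp_log (by positivity)] at h1
  have h2 : b⁻¹ = 2 * (2 * b)⁻¹ := by
    field_simp
  rw [h2]
  linarith

theorem const_le {ω : ℝ} (h : 1 / 8 ≤ ω) : 206 * (1 + ω) ^ 2 ≤ Real.exp (50 * ω) := by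
  have h1 : 1 + ω ≤ Real.exp ω := by linarith [Real.add_one_le_exp ω]
  have h2 : (1 + ω) ^ 2 ≤ Real.exp ω ^ 2 := pow_le_pow_left₀ (by linarith) h1 2
  have h3 : (206 : ℝ) ≤ Real.exp 6 := by
    have h4 : (2.7182818283 : ℝ) < Real.exp 1 := Real.exp_one_gt_d9
    have h5 : Real.exp 6 = Real.exp 1 ^ 6 := by
      rw [← Real.exp_nat_mul]
      norm_num
    rw [h5]
    calc (206 : ℝ) ≤ 2.7182818283 ^ 6 := by norm_num
      _ ≤ Real.exp 1 ^ 6 := pow_le_pow_left₀ (by norm_num) h4.le 6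
  have h6 : Real.exp 6 ≤ Real.exp (48 * ω) := Real.exp_le_exp.2 (by linarith)
  have h7 : Real.exp (50 * ω) = Real.exp (48 * ω) * Real.exp ω ^ 2 := by
    rw [← Real.exp_nat_mul, ← Real.exp_add]
    congr 1
    push_cast
    ring
  rw [h7]
  exact mul_le_mul (h3.trans h6) h2 (by positivity) (Real.exp_pos _).le

/-- one step -/
theorem step {ω b b' a y q q' r g M : ℝ} (hω : 1 / 8 ≤ ω) (hb : 0 < b) (hg0 : 0 ≤ g)
    (hg : -Real.log (2 * b) ≤ g) (hb'0 : 0 ≤ b') (hb' : b' ≤ 1 + ω) (ha : |a| ≤ 2 * ω)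
    (hy : |y| ≤ 2 + 100 * ω ^ 2) (hq : |q| ≤ M) (hq' : |q'| ≤ M)
    (hr : b * r = (y - a) * q - b' * q') : |r| ≤ Real.exp (50 * (ω + g)) * M := by
  have hM : 0 ≤ M := (abs_nonneg _).trans hq
  have e1 : r = b⁻¹ * ((y - a) * q - b' * q') := by
    rw [← hr, ← mul_assoc, inv_mul_cancel₀ hb.ne', one_mul]
  have e2 : |(y - a) * q - b' * q'| ≤ (2 + 100 * ω ^ 2 + 2 * ω) * M + (1 + ω) * M := by
    refine (abs_sub _ _).trans ?_
    rw [abs_mul, abs_mul, abs_of_nonneg hb'0]
    refine add_le_add ?_ ?_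
    · refine mul_le_mul ?_ hq (abs_nonneg _) (by positivity)
      refine (abs_sub _ _).trans ?_
      linarith
    · exact mul_le_mul hb' hq' (abs_nonneg _) (by linarith)
  have e3 : |r| ≤ 2 * Real.exp g * ((2 + 100 * ω ^ 2 + 2 * ω) * M + (1 + ω) * M) := by
    rw [e1, abs_mul, abs_of_pos (inv_pos.2 hb)]
    exact mul_le_mul (inv_le hb hg) e2 (abs_nonneg _) (by positivity)
  have e4 : 2 * ((2 + 100 * ω ^ 2 + 2 * ω) * M + (1 + ω) * M) ≤ 206 * (1 + ω) ^ 2 * M := by
    have : 2 * ((2 + 100 * ω ^ 2 + 2 * ω) + (1 + ω)) ≤ 206 * (1 + ω) ^ 2 := by nlinarith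
    calc 2 * ((2 + 100 * ω ^ 2 + 2 * ω) * M + (1 + ω) * M) =
        2 * ((2 + 100 * ω ^ 2 + 2 * ω) + (1 + ω)) * M := by ring
      _ ≤ _ := mul_le_mul_of_nonneg_right this hM
  have e5 : Real.exp g ≤ Real.exp (50 * g) := Real.exp_le_exp.2 (by linarith)
  calc |r| ≤ Real.exp g * (2 * ((2 + 100 * ω ^ 2 + 2 * ω) * M + (1 + ω) * M)) := by linarith
    _ ≤ Real.exp g * (206 * (1 + ω) ^ 2 * M) := mul_le_mul_of_nonneg_left e4 (Real.exp_pos _).le
    _ ≤ Real.exp (50 * g) * (Real.exp (50 * ω) * M) := by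
      refine mul_le_mul e5 ?_ (by positivity) (Real.exp_pos _).le
      exact mul_le_mul_of_nonneg_right (const_le hω) hM
    _ = _ := by
      rw [mul_add, Real.exp_add]
      ring

end EDCM

open EDCM

theorem specEDC : SpecEDC := by
  refine ⟨50, by norm_num, ?_⟩
  intro α B N ω y p hE hω hp hy l hl
  set g : ℕ → ℝ := fun l => max 0 (-Real.log (2 * B l)) with hg
  have hg0 : ∀ l, 0 ≤ g l := fun l => le_max_left _ _
  have hg1 : ∀ l, -Real.log (2 * B l) ≤ g l := fun l => le_max_right _ _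
  set F : ℕ → ℝ := fun l => l * ω + ∑ i ∈ Finset.range l, g i with hF
  have hFs : ∀ l, F (l + 1) = F l + (ω + g l) := by
    intro l
    rw [hF]
    simp only
    rw [Finset.sum_range_succ]
    push_cast
    ring
  have hF0 : F 0 = 0 := by simp [hF]
  have hFmono : Monotone F := by
    refine monotone_nat_of_le_succ fun l => ?_
    rw [hFs]
    have := hg0 l
    linarith
  have hEmono : ∀ {i j}, i ≤ j → Real.exp (50 * F i) ≤ Real.exp (50 * F j) := by
    intro i j hij
    exact Real.exp_le_exp.2 (mul_le_mul_of_nonneg_left (hFmono hij) (by norm_num))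
  have hα : ∀ l < N, |α l| ≤ 2 * ω := by
    intro l hl
    have h1 := abs_le.1 (hE.sumα l hl.le)
    have h2 := abs_le.1 (hE.sumα (l + 1) hl)
    rw [Finset.sum_range_succ] at h2
    rw [abs_le]
    constructor <;> linarith [h1.1, h1.2, h2.1, h2.2]
  have hB : ∀ l < N, B l ≤ 1 + ω := by
    intro l hl
    have h1 := abs_le.1 (hE.sumB l hl.le)
    have h2 := abs_le.1 (hE.sumB (l + 1) hl)
    rw [Finset.sum_range_succ] at h2
    have h3 : B l ^ 2 ≤ 1 + 2 * ω := by linarith [h1.1, h2.2]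
    nlinarith [hE.B_pos l hl, hE.pos]
  have hsucc : ∀ l, Real.exp (50 * F (l + 1)) = Real.exp (50 * (ω + g l)) * Real.exp (50 * F l) := by
    intro l
    rw [← Real.exp_add, hFs]
    congr 1
    ring
  have key : ∀ l, l + 1 ≤ N → |p l| ≤ Real.exp (50 * F l) ∧
      |p (l + 1)| ≤ Real.exp (50 * F (l + 1)) := by
    intro l
    induction l with
    | zero =>
      intro h
      have h0 : |p 0| ≤ Real.exp (50 * F 0) := by
        rw [hp.zero, hF0]
        simp
      refine ⟨h0, ?_⟩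
      rw [hsucc]
      refine step (b' := 0) (q := p 0) (q' := 0) (a := α 0) hω (hE.B_pos 0 h) (hg0 0) (hg1 0)
        le_rfl (by linarith) (hα 0 h) hy h0 (by rw [abs_zero]; exact (Real.exp_pos _).le) ?_
      rw [hp.one h, hp.zero]
      ring
    | succ l ih =>
      intro h
      obtain ⟨h1, h2⟩ := ih (by omega)
      refine ⟨h2, ?_⟩
      rw [hsucc]
      exact step hω (hE.B_pos (l + 1) h) (hg0 _) (hg1 _) (hE.B_pos l (by omega)).le
        (hB l (by omega)) (hα (l + 1) h) hy h2 (h1.trans (hEmono (Nat.le_succ l)))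
        (hp.succ l h)
  have hfin : |p l| ≤ Real.exp (50 * F l) := by
    rcases l with _ | l
    · rw [hp.zero, hF0]
      simp
    · exact (key l hl).2
  exact hfin.trans (hEmono hl)

end Pool.Agent.Lib.MP17fa2c
end

section
set_option autoImplicit false

namespace Pool.Agent.Lib.MP17fa2c

namespace EDGM

lemma ex_ge (N : ℕ) (ω : ℝ) (B : ℕ → ℝ) : (N : ℝ) * ω ≤ ex N ω B := by
  unfold ex
  have : 0 ≤ ∑ l ∈ Finset.range N, max 0 (-Real.log (2 * B l)) :=
    Finset.sum_nonneg fun _ _ => le_max_left _ _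
  linarith

lemma edge_neg {α B : ℕ → ℝ} {N : ℕ} {ω : ℝ} (h : EdgeData α B N ω) :
    EdgeData (fun l => -α l) B N ω where
  pos := h.pos
  B_pos := h.B_pos
  sumα := by
    intro l hl
    rw [Finset.sum_neg_distrib, abs_neg]
    exact h.sumα l hl
  sumB := h.sumB

lemma pol_neg {α B : ℕ → ℝ} {N : ℕ} {y : ℝ} {p : ℕ → ℝ} (h : PolRec α B N y p) :
    PolRec (fun l => -α l) B N (-y) (fun l => (-1) ^ l * p l) where
  zero := by simp [h.zero]
  one := by
    intro hN
    have := h.one hN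
    linear_combination -this
  succ := by
    intro l hl
    have := h.succ l hl
    rw [pow_succ, pow_succ]
    linear_combination ((-1) ^ l) * this

/-- the differences for `0 ≤ y` -/
lemma diff_bound {C : ℝ} (hA : ∀ (α B : ℕ → ℝ) (N : ℕ) (ω y : ℝ) (p : ℕ → ℝ),
      EdgeData α B N ω → ω ≤ 1 / 8 → PolRec α B N y p → |y - 2| ≤ 100 * ω ^ 2 →
      ∀ l < N, |p (l + 1) - p l| ≤ C * Real.exp (C * (N * ω)))
    (hB : ∀ (α B : ℕ → ℝ) (N : ℕ) (ω y : ℝ) (p : ℕ → ℝ),
      EdgeData α B N ω → ω ≤ 1 / 8 → PolRec α B N y p → 0 ≤ y → y ≤ 2 - ω ^ 2 →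
      ∀ l < N, |p (l + 1) - p l| ≤ C * Real.exp (C * (N * ω)))
    (hC : ∀ (α B : ℕ → ℝ) (N : ℕ) (ω y : ℝ) (p : ℕ → ℝ),
      EdgeData α B N ω → 1 / 8 ≤ ω → PolRec α B N y p → |y| ≤ 2 + 100 * ω ^ 2 →
      ∀ l ≤ N, |p l| ≤ Real.exp (C * ex N ω B)) (hC2 : 2 ≤ C)
    (α B : ℕ → ℝ) (N : ℕ) (ω y : ℝ) (p : ℕ → ℝ) (hE : EdgeData α B N ω) (hP : PolRec α B N y p)
    (hy : |y| ≤ 2 + 100 * ω ^ 2) (hy0 : 0 ≤ y) :
    ∀ l < N, |p (l + 1) - p l| ≤ C * Real.exp (C * ex N ω B) := by
  intro l hl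
  have hex := ex_ge N ω B
  have hmono : C * Real.exp (C * (N * ω)) ≤ C * Real.exp (C * ex N ω B) := by
    apply mul_le_mul_of_nonneg_left _ (by linarith)
    exact Real.exp_le_exp.2 (mul_le_mul_of_nonneg_left hex (by linarith))
  rcases le_total ω (1 / 8) with h8 | h8
  · rcases le_total y (2 - ω ^ 2) with hy2 | hy2
    · exact (hB α B N ω y p hE h8 hP hy0 hy2 l hl).trans hmono
    · refine (hA α B N ω y p hE h8 hP ?_ l hl).trans hmono
      have := (abs_le.1 hy).2
      rw [abs_le]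
      constructor <;> nlinarith [sq_nonneg ω]
  · have h1 := hC α B N ω y p hE h8 hP hy l hl.le
    have h2 := hC α B N ω y p hE h8 hP hy (l + 1) hl
    have h3 := abs_sub (p (l + 1)) (p l)
    nlinarith [Real.exp_pos (C * ex N ω B)]

/-- all estimates for `0 ≤ y` -/
lemma third {C : ℝ} (hC2 : 2 ≤ C) (α B : ℕ → ℝ) (N : ℕ) (ω y : ℝ) (p : ℕ → ℝ)
    (hE : EdgeData α B N ω) (hP : PolRec α B N y p)
    (hd : ∀ l < N, |p (l + 1) - p l| ≤ C * Real.exp (C * ex N ω B)) :
    ∀ l, l + 1 < N → |B (l + 1) * p (l + 2) - B l * p l| ≤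
      (10 * C + 300) * Real.exp ((10 * C + 300) * ex N ω B) := by
  intro l hl
  have hω := hE.pos
  have hex := ex_ge N ω B
  set X := ex N ω B with hX
  set D := C * Real.exp (C * X) with hD
  have hN1 : (1 : ℝ) ≤ N := by
    have : 1 ≤ N := by omega
    exact_mod_cast this
  have hωX : ω ≤ X := by nlinarith
  have hX0 : 0 ≤ X := by linarith
  have hD0 : 0 ≤ D := by positivity
  have hB2 : ∀ l < N, |B l ^ 2 - 1| ≤ 2 * ω := by
    intro l hl
    have h1 := hE.sumB (l + 1) hl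
    have h2 := hE.sumB l hl.le
    rw [Finset.sum_range_succ] at h1
    have h3 := abs_sub (∑ i ∈ Finset.range l, (B i ^ 2 - 1) + (B l ^ 2 - 1))
      (∑ i ∈ Finset.range l, (B i ^ 2 - 1))
    rw [add_sub_cancel_left] at h3
    linarith
  have hB : ∀ l < N, |B l - 1| ≤ 2 * ω := by
    intro l hl
    have h1 := hB2 l hl
    have hp := hE.B_pos l hl
    have h2 : |B l - 1| ≤ |B l ^ 2 - 1| := by
      have : B l ^ 2 - 1 = (B l + 1) * (B l - 1) := by ring
      rw [this, abs_mul, abs_of_pos (by linarith : (0 : ℝ) < B l + 1)]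
      nlinarith [abs_nonneg (B l - 1)]
    linarith
  have hBu : ∀ l < N, |B l| ≤ 1 + 2 * X := by
    intro l hl
    rw [abs_of_pos (hE.B_pos l hl)]
    have := (abs_le.1 (hB l hl)).2
    linarith
  have hp : ∀ l ≤ N, |p l| ≤ 1 + l * D := by
    intro l
    induction l with
    | zero => intro _; simp [hP.zero]
    | succ l ih =>
      intro hl
      have h1 := ih (by omega)
      have h2 := hd l (by omega)
      have h3 : |p (l + 1)| ≤ |p (l + 1) - p l| + |p l| := by
        have := abs_add_le (p (l + 1) - p l) (p l)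
        rwa [sub_add_cancel] at this
      push_cast
      linarith
  have e1 : B (l + 1) * p (l + 2) - B l * p l = B (l + 1) * (p (l + 2) - p (l + 1))
      + B l * (p (l + 1) - p l) + (B (l + 1) - B l) * p (l + 1) := by ring
  have h1 : |B (l + 1) * (p (l + 2) - p (l + 1))| ≤ (1 + 2 * X) * D := by
    rw [abs_mul]
    exact mul_le_mul (hBu _ hl) (hd (l + 1) hl) (abs_nonneg _) (by linarith)
  have h2 : |B l * (p (l + 1) - p l)| ≤ (1 + 2 * X) * D := by
    rw [abs_mul]
    exact mul_le_mul (hBu l (by omega)) (hd l (by omega)) (abs_nonneg _) (by linarith)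
  have h3 : |(B (l + 1) - B l) * p (l + 1)| ≤ 4 * X * (1 + D) := by
    rw [abs_mul]
    have h4 : |B (l + 1) - B l| ≤ 4 * ω := by
      have h5 := abs_sub (B (l + 1) - 1) (B l - 1)
      have h6 := hB (l + 1) hl
      have h7 := hB l (by omega)
      have h8 : B (l + 1) - 1 - (B l - 1) = B (l + 1) - B l := by ring
      rw [h8] at h5
      linarith
    have h5 := hp (l + 1) hl.le
    have h6 : ((l + 1 : ℕ) : ℝ) ≤ N := by exact_mod_cast hl.le
    have h7 : |p (l + 1)| ≤ N * (1 + D) := by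
      have : ((l + 1 : ℕ) : ℝ) * D ≤ N * D := mul_le_mul_of_nonneg_right h6 hD0
      linarith
    calc _ ≤ 4 * ω * (N * (1 + D)) := mul_le_mul h4 h7 (abs_nonneg _) (by linarith)
      _ = 4 * (N * ω) * (1 + D) := by ring
      _ ≤ _ := by
        apply mul_le_mul_of_nonneg_right _ (by linarith)
        linarith
  have h4 : |B (l + 1) * p (l + 2) - B l * p l| ≤ 2 * ((1 + 2 * X) * D) + 4 * X * (1 + D) := by
    rw [e1]
    refine (abs_add_le _ _).trans ?_
    have := abs_add_le (B (l + 1) * (p (l + 2) - p (l + 1))) (B l * (p (l + 1) - p l))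
    linarith
  refine h4.trans ?_
  have hX1 : 1 + X ≤ Real.exp X := by
    have := Real.add_one_le_exp X; linarith
  have h5 : 2 * ((1 + 2 * X) * D) + 4 * X * (1 + D) ≤ (8 * D + 4) * (1 + X) := by
    nlinarith [mul_nonneg hX0 hD0]
  have h6 : (8 * D + 4) * (1 + X) ≤ (8 * D + 4) * Real.exp X :=
    mul_le_mul_of_nonneg_left hX1 (by linarith)
  have h7 : D * Real.exp X = C * Real.exp ((C + 1) * X) := by
    rw [hD, mul_assoc, ← Real.exp_add]; ring_nf
  have h8 : Real.exp ((C + 1) * X) ≤ Real.exp ((10 * C + 300) * X) :=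
    Real.exp_le_exp.2 (mul_le_mul_of_nonneg_right (by linarith) hX0)
  have h9 : Real.exp X ≤ Real.exp ((10 * C + 300) * X) := by
    apply Real.exp_le_exp.2
    nlinarith
  have hE0 := Real.exp_pos ((10 * C + 300) * X)
  calc _ ≤ (8 * D + 4) * (1 + X) := h5
    _ ≤ _ := h6
    _ = 8 * (D * Real.exp X) + 4 * Real.exp X := by ring
    _ = 8 * (C * Real.exp ((C + 1) * X)) + 4 * Real.exp X := by rw [h7]
    _ ≤ 8 * (C * Real.exp ((10 * C + 300) * X)) + 4 * Real.exp ((10 * C + 300) * X) := by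
      apply add_le_add
      · apply mul_le_mul_of_nonneg_left _ (by norm_num)
        exact mul_le_mul_of_nonneg_left h8 (by linarith)
      · linarith
    _ ≤ _ := by nlinarith

end EDGM

theorem specEDG (hEDA : SpecEDA) (hEDB : SpecEDB) (hEDC : SpecEDC) : SpecEDG := by
  obtain ⟨C1, hC1, hA⟩ := hEDA
  obtain ⟨C2, hC2, hB⟩ := hEDB
  obtain ⟨C3, hC3, hC⟩ := hEDC
  set C := C1 + C2 + C3 + 2 with hCdef
  have hc1 : C1 ≤ C := by linarith
  have hc2 : C2 ≤ C := by linarith
  have hc3 : C3 ≤ C := by linarith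
  have hC2' : 2 ≤ C := by linarith
  have mono : ∀ (c x : ℝ), 0 < c → c ≤ C → 0 ≤ x → c * Real.exp (c * x) ≤ C * Real.exp (C * x) := by
    intro c x hc hcC hx
    exact mul_le_mul hcC (Real.exp_le_exp.2 (mul_le_mul_of_nonneg_right hcC hx)) (Real.exp_pos _).le
      (by linarith)
  have hA' : ∀ (α B : ℕ → ℝ) (N : ℕ) (ω y : ℝ) (p : ℕ → ℝ),
      EdgeData α B N ω → ω ≤ 1 / 8 → PolRec α B N y p → |y - 2| ≤ 100 * ω ^ 2 →
      ∀ l < N, |p (l + 1) - p l| ≤ C * Real.exp (C * (N * ω)) := by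
    intro α B N ω y p hE h8 hP hy l hl
    exact (hA α B N ω y p hE h8 hP hy l hl).trans
      (mono C1 _ hC1 hc1 (mul_nonneg (Nat.cast_nonneg _) hE.pos.le))
  have hB' : ∀ (α B : ℕ → ℝ) (N : ℕ) (ω y : ℝ) (p : ℕ → ℝ),
      EdgeData α B N ω → ω ≤ 1 / 8 → PolRec α B N y p → 0 ≤ y → y ≤ 2 - ω ^ 2 →
      ∀ l < N, |p (l + 1) - p l| ≤ C * Real.exp (C * (N * ω)) := by
    intro α B N ω y p hE h8 hP hy hy2 l hl
    exact (hB α B N ω y p hE h8 hP hy hy2 l hl).trans
      (mono C2 _ hC2 hc2 (mul_nonneg (Nat.cast_nonneg _) hE.pos.le))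
  have hC' : ∀ (α B : ℕ → ℝ) (N : ℕ) (ω y : ℝ) (p : ℕ → ℝ),
      EdgeData α B N ω → 1 / 8 ≤ ω → PolRec α B N y p → |y| ≤ 2 + 100 * ω ^ 2 →
      ∀ l ≤ N, |p l| ≤ Real.exp (C * ex N ω B) := by
    intro α B N ω y p hE h8 hP hy l hl
    refine (hC α B N ω y p hE h8 hP hy l hl).trans (Real.exp_le_exp.2 ?_)
    apply mul_le_mul_of_nonneg_right hc3
    exact (mul_nonneg (Nat.cast_nonneg _) hE.pos.le).trans (EDGM.ex_ge N ω B)
  refine ⟨10 * C + 300, by linarith, ?_⟩
  intro α B N ω y p hE hP hy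
  have hex := EDGM.ex_ge N ω B
  have hX0 : 0 ≤ ex N ω B := (mul_nonneg (Nat.cast_nonneg _) hE.pos.le).trans hex
  have up : C * Real.exp (C * ex N ω B) ≤ (10 * C + 300) * Real.exp ((10 * C + 300) * ex N ω B) := by
    apply mul_le_mul (by linarith) _ (Real.exp_pos _).le (by linarith)
    exact Real.exp_le_exp.2 (mul_le_mul_of_nonneg_right (by linarith) hX0)
  have hy' : |-y| ≤ 2 + 100 * ω ^ 2 := by rwa [abs_neg]
  have hneg := EDGM.diff_bound hA' hB' hC' hC2' _ B N ω (-y) _ (EDGM.edge_neg hE)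
    (EDGM.pol_neg hP) hy'
  have hpos := EDGM.diff_bound hA' hB' hC' hC2' α B N ω y p hE hP hy
  have hnegp : y ≤ 0 → ∀ l < N, |p (l + 1) + p l| ≤ C * Real.exp (C * ex N ω B) := by
    intro hy0 l hl
    have h1 := hneg (by linarith) l hl
    have h2 : (-1 : ℝ) ^ (l + 1) * p (l + 1) - (-1) ^ l * p l
        = -((-1) ^ l * (p (l + 1) + p l)) := by rw [pow_succ]; ring
    rw [h2, abs_neg, abs_mul, abs_pow, abs_neg, abs_one, one_pow, one_mul] at h1
    exact h1
  refine ⟨fun hy0 l hl => (hpos hy0 l hl).trans up, fun hy0 l hl => (hnegp hy0 l hl).trans up, ?_, ?_⟩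
  · rcases le_total 0 y with hy0 | hy0
    · exact EDGM.third hC2' α B N ω y p hE hP (hpos hy0)
    · intro l hl
      have h1 := EDGM.third hC2' _ B N ω (-y) _ (EDGM.edge_neg hE) (EDGM.pol_neg hP)
        (hneg (by linarith)) l hl
      have h2 : B (l + 1) * ((-1 : ℝ) ^ (l + 2) * p (l + 2)) - B l * ((-1) ^ l * p l)
          = (-1) ^ l * (B (l + 1) * p (l + 2) - B l * p l) := by rw [pow_add]; ring
      rw [h2, abs_mul, abs_pow, abs_neg, abs_one, one_pow, one_mul] at h1
      exact h1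
  · intro hN
    have hN1 : (1 : ℝ) ≤ N := by exact_mod_cast hN
    have hω := hE.pos
    set X := ex N ω B with hX
    have hωX : ω ≤ X := by nlinarith
    have h1 : |α 0| ≤ ω := by simpa using hE.sumα 1 hN
    have h2 := abs_sub y (α 0)
    have h3 : ω ^ 2 ≤ X ^ 2 := pow_le_pow_left₀ hω.le hωX 2
    have h4 := Real.quadratic_le_exp_of_nonneg hX0
    have h5 : |y - α 0| ≤ 300 * Real.exp X := by
      nlinarith
    refine h5.trans ?_
    apply mul_le_mul (by linarith) _ (Real.exp_pos _).le (by linarith)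
    apply Real.exp_le_exp.2
    nlinarith
end Pool.Agent.Lib.MP17fa2c
end

section
/-!
# MP_17fa2c_pr, block K, module EKB: growth over one block
-/
set_option autoImplicit false

open Finset

namespace Pool.Agent.Lib.MP17fa2c

namespace EKBM

/-- the potential, started at `b` -/
noncomputable def VV (α B : ℕ → ℝ) (b l : ℕ) : ℝ :=
  -(∑ i ∈ Finset.Ico (b + 1) (l + 1), α i) - ∑ i ∈ Finset.Ico b l, (B i ^ 2 - 1)

theorem VV_zero (α B : ℕ → ℝ) (b : ℕ) : VV α B b b = 0 := by
  simp [VV]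

theorem VV_succ (α B : ℕ → ℝ) (b l : ℕ) (h : b ≤ l) :
    VV α B b (l + 1) = VV α B b l - α (l + 1) - (B l ^ 2 - 1) := by
  unfold VV
  rw [Finset.sum_Ico_succ_top (by omega : b + 1 ≤ l + 1), Finset.sum_Ico_succ_top h]
  ring

theorem VV_le {α B : ℕ → ℝ} {N : ℕ} {κ : ℝ} (hE : EdgeK α B N κ) {b L l : ℕ}
    (hL : (L : ℝ) ≤ 1 / κ) (hb : b ≤ l) (hl : l ≤ b + L) (hN : l < N) : |VV α B b l| ≤ 2 * κ := by
  have h0 : (l : ℝ) - b ≤ max 1 (1 / κ) := by
    have : (l : ℝ) ≤ b + L := by exact_mod_cast hl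
    have h2 := le_max_right 1 (1 / κ)
    linarith
  have h1 := hE.sumα (b + 1) (l + 1) (by omega) (by omega) (by push_cast; linarith)
  have h2 := hE.sumB b l hb hN.le h0
  have h3 := abs_sub (-(∑ i ∈ Finset.Ico (b + 1) (l + 1), α i))
    (∑ i ∈ Finset.Ico b l, (B i ^ 2 - 1))
  rw [abs_neg] at h3
  unfold VV
  linarith

theorem B2_le {α B : ℕ → ℝ} {N : ℕ} {κ : ℝ} (hE : EdgeK α B N κ) {l : ℕ} (hN : l < N) :
    |B l ^ 2 - 1| ≤ κ := by
  have h := hE.sumB l (l + 1) (by omega) hN (by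
    push_cast
    have := le_max_left 1 (1 / κ)
    linarith)
  rwa [Finset.sum_Ico_succ_top le_rfl, Finset.Ico_self, Finset.sum_empty, zero_add] at h

theorem B1_le {α B : ℕ → ℝ} {N : ℕ} {κ : ℝ} (hE : EdgeK α B N κ) {l : ℕ} (hN : l < N) :
    |B l - 1| ≤ κ := by
  have h1 := B2_le hE hN
  have hp := hE.B_pos l hN
  have h2 : |B l - 1| ≤ |B l ^ 2 - 1| := by
    have e : B l ^ 2 - 1 = (B l + 1) * (B l - 1) := by ring
    rw [e, abs_mul, abs_of_pos (by linarith : (0 : ℝ) < B l + 1)]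
    have h3 : 0 ≤ B l * |B l - 1| := mul_nonneg hp.le (abs_nonneg _)
    have h4 : (B l + 1) * |B l - 1| = B l * |B l - 1| + |B l - 1| := by ring
    linarith
  exact h2.trans h1

/-- the modified variable -/
noncomputable def ww (α B p : ℕ → ℝ) (b l : ℕ) : ℝ := B l * p (l + 1) - (1 + VV α B b l) * p l

theorem ww_succ {α B p : ℕ → ℝ} {N : ℕ} {y : ℝ} (hP : PolRec α B N y p) {b l : ℕ} (h : b ≤ l)
    (hN : l + 1 < N) : ww α B p b (l + 1) = B l * ww α B p b l + (y - 2) * p (l + 1) -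
      VV α B b l * (p (l + 1) - B l * p l) := by
  unfold ww
  rw [show l + 1 + 1 = l + 2 from rfl, hP.succ l hN, VV_succ α B b l h]
  ring

theorem exp_step (c : ℝ) (f : ℕ → ℝ) (L : ℕ) (h0 : ∀ n ≤ L, 0 ≤ f n)
    (h : ∀ n, n < L → f (n + 1) ≤ (1 + c) * f n) : f L ≤ Real.exp (c * L) * f 0 := by
  have key : ∀ n ≤ L, f n ≤ Real.exp (c * n) * f 0 := by
    intro n
    induction n with
    | zero => intro _; simp
    | succ n ih =>
      intro hn
      have h1 := ih (by omega)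
      have h2 := h n (by omega)
      have h3 : 1 + c ≤ Real.exp c := by linarith [Real.add_one_le_exp c]
      have h4 : Real.exp (c * ((n + 1 : ℕ) : ℝ)) = Real.exp c * Real.exp (c * n) := by
        rw [← Real.exp_add]
        congr 1
        push_cast
        ring
      calc f (n + 1) ≤ (1 + c) * f n := h2
        _ ≤ Real.exp c * f n := mul_le_mul_of_nonneg_right h3 (h0 n (by omega))
        _ ≤ Real.exp c * (Real.exp (c * n) * f 0) :=
          mul_le_mul_of_nonneg_left h1 (Real.exp_pos _).le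
        _ = _ := by rw [h4]; ring
  exact key L le_rfl

/-- the case `|y - 2| ≤ 1600 κ²` -/
theorem caseA {α B : ℕ → ℝ} {N : ℕ} {κ y : ℝ} {p : ℕ → ℝ} {b L : ℕ} (hE : EdgeK α B N κ)
    (hκ : κ ≤ 1 / 64) (hP : PolRec α B N y p) (hy : |y - 2| ≤ 1600 * κ ^ 2) (hN : b + L < N)
    (hL : (L : ℝ) ≤ 1 / κ) :
    max κ (Real.sqrt (2 - y)) ^ 2 * p (b + L) ^ 2 + (B (b + L) * p (b + L + 1) - p (b + L)) ^ 2 ≤
    (4000 * Real.exp 1600) *
      (max κ (Real.sqrt (2 - y)) ^ 2 * p b ^ 2 + (B b * p (b + 1) - p b) ^ 2) := by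
  have hκ0 := hE.pos
  have hω0 : 0 < 4 * κ := by linarith
  have hω8 : 4 * κ ≤ 1 / 8 := by linarith
  have hLκ : 200 * (4 * κ) * L ≤ 800 := by
    have h1 : κ * L ≤ κ * (1 / κ) := mul_le_mul_of_nonneg_left hL hκ0.le
    have h2 : κ * (1 / κ) = 1 := by field_simp
    linarith
  have hgrow := exp_step (200 * (4 * κ))
    (fun n => |ww α B p b (b + n)| + 4 * κ * |p (b + n)|) L
    (fun n _ => by positivity) (fun n hn => by
      have h1 := VV_le hE hL (by omega : b ≤ b + n) (by omega) (by omega)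
      have h2 := B2_le hE (by omega : b + n < N)
      exact EDAM.step hω0 hω8 (hE.B_pos (b + n) (by omega)) (h2.trans (by linarith))
        (h1.trans (by linarith)) (hy.trans (by
          have : 100 * (4 * κ) ^ 2 = 1600 * κ ^ 2 := by ring
          rw [this])) rfl (ww_succ hP (by omega : b ≤ b + n) (by omega : b + n + 1 < N)))
  simp only [add_zero] at hgrow
  have hw0 : ww α B p b b = B b * p (b + 1) - p b := by
    unfold ww
    rw [VV_zero]
    ring
  rw [hw0] at hgrow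
  have hV := VV_le hE hL (by omega : b ≤ b + L) le_rfl hN
  have huL : B (b + L) * p (b + L + 1) - p (b + L) =
      ww α B p b (b + L) + VV α B b (b + L) * p (b + L) := by
    unfold ww
    ring
  -- bounds for σ
  have hσ1 : κ ≤ max κ (Real.sqrt (2 - y)) := le_max_left _ _
  have hσ2 : max κ (Real.sqrt (2 - y)) ≤ 40 * κ := by
    refine max_le (by linarith) ?_
    refine Real.sqrt_le_iff.2 ⟨by linarith, ?_⟩
    have h1 := (abs_le.1 hy).1
    have h2 : (40 * κ) ^ 2 = 1600 * κ ^ 2 := by ring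
    rw [h2]
    linarith
  generalize hσ : max κ (Real.sqrt (2 - y)) = σ at *
  rw [huL]
  generalize ww α B p b (b + L) = wL at *
  generalize VV α B b (b + L) = VL at *
  generalize p (b + L) = pL at *
  generalize B b * p (b + 1) - p b = ub at *
  generalize p b = pb at *
  obtain ⟨M, hM⟩ : ∃ M : ℝ, M = |wL| + 4 * κ * |pL| := ⟨_, rfl⟩
  obtain ⟨M0, hM0⟩ : ∃ M0 : ℝ, M0 = |ub| + 4 * κ * |pb| := ⟨_, rfl⟩
  have hMn : 0 ≤ M := by rw [hM]; positivity
  have hM0n : 0 ≤ M0 := by rw [hM0]; positivity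
  have hgrow2 : M ≤ Real.exp 800 * M0 := by
    rw [hM, hM0]
    refine hgrow.trans (mul_le_mul_of_nonneg_right (Real.exp_le_exp.2 hLκ) (by positivity))
  have hκp : κ * |pL| ≤ M / 4 := by
    rw [hM]
    have := abs_nonneg wL
    linarith
  have hwM : |wL| ≤ M := by
    rw [hM]
    have : 0 ≤ 4 * κ * |pL| := by positivity
    linarith
  have t1 : σ ^ 2 * pL ^ 2 ≤ 100 * M ^ 2 := by
    have h1 : σ * |pL| ≤ 10 * M := by
      have h2 : σ * |pL| ≤ 40 * κ * |pL| := mul_le_mul_of_nonneg_right hσ2 (abs_nonneg _)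
      linarith
    have h3 : (σ * |pL|) ^ 2 ≤ (10 * M) ^ 2 :=
      pow_le_pow_left₀ (mul_nonneg (hκ0.le.trans hσ1) (abs_nonneg _)) h1 2
    have h4 : (σ * |pL|) ^ 2 = σ ^ 2 * pL ^ 2 := by rw [mul_pow, sq_abs]
    have h5 : (10 * M) ^ 2 = 100 * M ^ 2 := by ring
    rw [← h4, ← h5]
    exact h3
  have t2 : (wL + VL * pL) ^ 2 ≤ 4 * M ^ 2 := by
    have h1 : |wL + VL * pL| ≤ 2 * M := by
      refine (abs_add_le _ _).trans ?_
      have h2 : |VL * pL| ≤ 2 * κ * |pL| := by
        rw [abs_mul]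
        exact mul_le_mul_of_nonneg_right hV (abs_nonneg _)
      linarith
    have h3 : |wL + VL * pL| ^ 2 ≤ (2 * M) ^ 2 := pow_le_pow_left₀ (abs_nonneg _) h1 2
    rw [sq_abs] at h3
    have h5 : (2 * M) ^ 2 = 4 * M ^ 2 := by ring
    rw [← h5]
    exact h3
  have t3 : M ^ 2 ≤ Real.exp 1600 * M0 ^ 2 := by
    have h1 : M ^ 2 ≤ (Real.exp 800 * M0) ^ 2 := pow_le_pow_left₀ hMn hgrow2 2
    have h2 : (Real.exp 800 * M0) ^ 2 = Real.exp 1600 * M0 ^ 2 := by
      rw [mul_pow, ← Real.exp_nat_mul]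
      norm_num
    rw [← h2]
    exact h1
  have t4 : M0 ^ 2 ≤ 32 * (σ ^ 2 * pb ^ 2 + ub ^ 2) := by
    have h1 : M0 ^ 2 ≤ 2 * ub ^ 2 + 32 * (κ ^ 2 * pb ^ 2) := by
      have h2 : 0 ≤ (|ub| - 4 * κ * |pb|) ^ 2 := sq_nonneg _
      have h3 : M0 ^ 2 = 2 * |ub| ^ 2 + 32 * (κ ^ 2 * |pb| ^ 2) - (|ub| - 4 * κ * |pb|) ^ 2 := by
        rw [hM0]
        ring
      rw [sq_abs, sq_abs] at h3
      linarith
    have h2 : κ ^ 2 * pb ^ 2 ≤ σ ^ 2 * pb ^ 2 :=
      mul_le_mul_of_nonneg_right (pow_le_pow_left₀ hκ0.le hσ1 2) (sq_nonneg _)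
    have h3 : 0 ≤ ub ^ 2 := sq_nonneg _
    linarith
  have t5 : Real.exp 1600 * M0 ^ 2 ≤ Real.exp 1600 * (32 * (σ ^ 2 * pb ^ 2 + ub ^ 2)) :=
    mul_le_mul_of_nonneg_left t4 (Real.exp_pos _).le
  have t6 : 0 ≤ Real.exp 1600 * (σ ^ 2 * pb ^ 2 + ub ^ 2) := by positivity
  have t7 : Real.exp 1600 * (32 * (σ ^ 2 * pb ^ 2 + ub ^ 2)) =
    32 * (Real.exp 1600 * (σ ^ 2 * pb ^ 2 + ub ^ 2)) := by ring
  have t8 : 4000 * Real.exp 1600 * (σ ^ 2 * pb ^ 2 + ub ^ 2) =
    4000 * (Real.exp 1600 * (σ ^ 2 * pb ^ 2 + ub ^ 2)) := by ring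
  rw [t8]
  linarith

/-- the case `y < 2 - 1600 κ²` -/
theorem caseB {α B : ℕ → ℝ} {N : ℕ} {κ y : ℝ} {p : ℕ → ℝ} {b L : ℕ} (hE : EdgeK α B N κ)
    (hκ : κ ≤ 1 / 64) (hP : PolRec α B N y p) (hy0 : 0 ≤ y) (hy : y < 2 - 1600 * κ ^ 2)
    (hN : b + L < N) (hL : (L : ℝ) ≤ 1 / κ) :
    max κ (Real.sqrt (2 - y)) ^ 2 * p (b + L) ^ 2 + (B (b + L) * p (b + L + 1) - p (b + L)) ^ 2 ≤
    (16 * Real.exp 40000) *
      (max κ (Real.sqrt (2 - y)) ^ 2 * p b ^ 2 + (B b * p (b + 1) - p b) ^ 2) := by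
  have hκ0 := hE.pos
  have hω0 : 0 < 4 * κ := by linarith
  have hω8 : 4 * κ ≤ 1 / 8 := by linarith
  have hκ2 : 0 < κ ^ 2 := by positivity
  have h2y : 0 ≤ 2 - y := by linarith
  have hLκ : 10000 * (4 * κ) * L ≤ 40000 := by
    have h1 : κ * L ≤ κ * (1 / κ) := mul_le_mul_of_nonneg_left hL hκ0.le
    have h2 : κ * (1 / κ) = 1 := by field_simp
    linarith
  have hs2 : Real.sqrt (2 - y) ^ 2 = 2 - y := Real.sq_sqrt h2y
  have hs0 : 0 ≤ Real.sqrt (2 - y) := Real.sqrt_nonneg _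
  have hsκ : 40 * κ ≤ Real.sqrt (2 - y) := Real.le_sqrt_of_sq_le (by
    have : (40 * κ) ^ 2 = 1600 * κ ^ 2 := by ring
    rw [this]
    linarith)
  have hmax : max κ (Real.sqrt (2 - y)) = Real.sqrt (2 - y) := max_eq_right (by linarith)
  rw [hmax]
  generalize Real.sqrt (2 - y) = s at *
  have hs22 : s ^ 2 ≤ 2 := by rw [hs2]; linarith
  have hgrow := exp_step (10000 * (4 * κ))
    (fun n => EDBM.Q s (p (b + n)) (ww α B p b (b + n))) L
    (fun n _ => EDBM.Q_nonneg hs0 hs22 _ _) (fun n hn => by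
      have h1 := VV_le hE hL (by omega : b ≤ b + n) (by omega) (by omega)
      have h2 := B2_le hE (by omega : b + n < N)
      have h3 := B1_le hE (by omega : b + n < N)
      have h4 := ww_succ hP (by omega : b ≤ b + n) (by omega : b + n + 1 < N)
      refine EDBM.step (V := VV α B b (b + n)) (B := B (b + n)) hω0 hω8 (by linarith) hs22
        (h1.trans (by linarith)) (h3.trans (by linarith)) (h2.trans (by linarith)) ?_ ?_
      · unfold ww
        ring_nf
      · rw [show b + (n + 1) = b + n + 1 from rfl, h4, hs2]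
        ring)
  simp only [add_zero] at hgrow
  have hw0 : ww α B p b b = B b * p (b + 1) - p b := by
    unfold ww
    rw [VV_zero]
    ring
  rw [hw0] at hgrow
  have hV := VV_le hE hL (by omega : b ≤ b + L) le_rfl hN
  have huL : B (b + L) * p (b + L + 1) - p (b + L) =
      ww α B p b (b + L) + VV α B b (b + L) * p (b + L) := by
    unfold ww
    ring
  rw [huL]
  generalize ww α B p b (b + L) = wL at *
  generalize VV α B b (b + L) = VL at *
  generalize p (b + L) = pL at *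
  generalize B b * p (b + 1) - p b = ub at *
  generalize p b = pb at *
  have q1 := EDBM.Q_low hs0 hs22 pL wL
  have q2 := EDBM.Q_up hs0 hs22 pb ub
  have q0 := EDBM.Q_nonneg hs0 hs22 pb ub
  have q3 : EDBM.Q s pL wL ≤ Real.exp 40000 * EDBM.Q s pb ub :=
    hgrow.trans (mul_le_mul_of_nonneg_right (Real.exp_le_exp.2 hLκ) q0)
  have t1 : (wL + VL * pL) ^ 2 ≤ 2 * wL ^ 2 + s ^ 2 * pL ^ 2 := by
    have h1 : (wL + VL * pL) ^ 2 = 2 * wL ^ 2 + 2 * (VL ^ 2 * pL ^ 2) - (wL - VL * pL) ^ 2 := by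
      ring
    have h2 : 0 ≤ (wL - VL * pL) ^ 2 := sq_nonneg _
    have h3 : VL ^ 2 ≤ (2 * κ) ^ 2 := by
      rw [← sq_abs]
      exact pow_le_pow_left₀ (abs_nonneg _) hV 2
    have h4 : (40 * κ) ^ 2 ≤ s ^ 2 := pow_le_pow_left₀ (by linarith) hsκ 2
    have h5 : 2 * VL ^ 2 ≤ s ^ 2 := by
      have e1 : (2 * κ) ^ 2 = 4 * κ ^ 2 := by ring
      have e2 : (40 * κ) ^ 2 = 1600 * κ ^ 2 := by ring
      rw [e1] at h3
      rw [e2] at h4
      linarith
    have h6 : 2 * VL ^ 2 * pL ^ 2 ≤ s ^ 2 * pL ^ 2 := mul_le_mul_of_nonneg_right h5 (sq_nonneg _)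
    have h7 : 2 * VL ^ 2 * pL ^ 2 = 2 * (VL ^ 2 * pL ^ 2) := by ring
    linarith
  have t2 : Real.exp 40000 * EDBM.Q s pb ub ≤
      Real.exp 40000 * (2 * (s ^ 2 * pb ^ 2 + ub ^ 2)) :=
    mul_le_mul_of_nonneg_left q2 (Real.exp_pos _).le
  have t3 : 16 * Real.exp 40000 * (s ^ 2 * pb ^ 2 + ub ^ 2) =
    8 * (Real.exp 40000 * (2 * (s ^ 2 * pb ^ 2 + ub ^ 2))) := by ring
  rw [t3]
  linarith

end EKBM

theorem specEKB : SpecEKB := by
  refine ⟨4000 * Real.exp 40000, ?_, ?_⟩
  · have := Real.one_le_exp (show (0 : ℝ) ≤ 40000 by norm_num)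
    linarith
  · intro α B N κ y p b L hE hκ hP hy0 hy hN hL
    have hκ2 : 0 ≤ κ ^ 2 := sq_nonneg _
    have hpos : 0 ≤ max κ (Real.sqrt (2 - y)) ^ 2 * p b ^ 2 + (B b * p (b + 1) - p b) ^ 2 := by
      positivity
    by_cases h : y < 2 - 1600 * κ ^ 2
    · refine (EKBM.caseB hE hκ hP hy0 h hN hL).trans (mul_le_mul_of_nonneg_right ?_ hpos)
      have := Real.exp_pos 40000
      linarith
    · push Not at h
      refine (EKBM.caseA hE hκ hP (abs_le.2 ⟨by linarith, by linarith⟩) hN hL).trans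
        (mul_le_mul_of_nonneg_right ?_ hpos)
      have : Real.exp 1600 ≤ Real.exp 40000 := Real.exp_le_exp.2 (by norm_num)
      linarith

end Pool.Agent.Lib.MP17fa2c
end

section
/-!
# MP_17fa2c_pr, block K, module KMO: exponential moments of the multi-scale exponent
-/
set_option autoImplicit false

open MeasureTheory ProbabilityTheory Filter Topology
open scoped RealInnerProductSpace NNReal ENNReal

namespace Pool.Agent.Lib.MP17fa2c

namespace KMOM

instance chi_prob (N : ℕ) : IsProbabilityMeasure (chi N) := by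
  unfold chi
  exact Measure.isProbabilityMeasure_map (by fun_prop)

/-- the deterministic inequality at one scale: `κ ≥ A m / K`, `m = θ X + η L + 1` -/
theorem scale {s A θ η X L K D κ : ℝ} (hs : 0 < s) (hA : 8 * (4 * s + 1) ≤ A) (hθ : 1 ≤ θ)
    (hη : 0 < η) (hθη : η * θ ^ 2 = 1) (hX : 0 ≤ X) (hX2 : X ^ 2 = K ^ 3 / D) (hL : 0 ≤ L)
    (hLK : L ≤ K) (hK : 1 ≤ K) (hD : (64 * (4 * s + 1) + 128) * K ≤ D)
    (hκ : A * (θ * X + η * L + 1) ≤ K * κ) :
    (4 * s + 1) * (K * κ) + 2 * L ≤ D * min (κ ^ 3) κ / 32 ∧ A ^ 2 * K ≤ κ ^ 2 * D := by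
  have hA8 : 8 ≤ A := by linarith
  have hA0 : 0 < A := by linarith
  have hKp : 0 < K := by linarith
  have hDp : 0 < D := lt_of_lt_of_le (by positivity) hD
  have hm1 : 1 ≤ θ * X + η * L + 1 := by
    have h1 : 0 ≤ θ * X := by positivity
    have h2 : 0 ≤ η * L := by positivity
    linarith
  have hKκ : 0 < K * κ := lt_of_lt_of_le (by positivity) hκ
  have hκp : 0 < κ := pos_of_mul_pos_right hKκ hKp.le
  -- `X² D = K³`
  have hXD : X ^ 2 * D = K ^ 3 := by rw [hX2]; field_simp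
  -- (a): `A² K ≤ κ² D`
  have h1 : A * X ≤ K * κ := by
    refine le_trans ?_ hκ
    refine mul_le_mul_of_nonneg_left ?_ hA0.le
    have h2 : 0 ≤ η * L := by positivity
    nlinarith
  have h2 : (A * X) ^ 2 ≤ (K * κ) ^ 2 := pow_le_pow_left₀ (by positivity) h1 2
  have ha : A ^ 2 * K ≤ κ ^ 2 * D := by
    have h3 : A ^ 2 * K ^ 3 ≤ K ^ 2 * (κ ^ 2 * D) := by
      calc A ^ 2 * K ^ 3 = (A * X) ^ 2 * D := by rw [← hXD]; ring
        _ ≤ (K * κ) ^ 2 * D := mul_le_mul_of_nonneg_right h2 hDp.le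
        _ = _ := by ring
    have h4 : K ^ 2 * (A ^ 2 * K) ≤ K ^ 2 * (κ ^ 2 * D) := by
      calc K ^ 2 * (A ^ 2 * K) = A ^ 2 * K ^ 3 := by ring
        _ ≤ _ := h3
    exact le_of_mul_le_mul_left h4 (by positivity)
  -- (b): `A³ L ≤ κ³ D`
  have hb : A ^ 3 * L ≤ κ ^ 3 * D := by
    have h3 : A * (θ * X + η * L) ≤ K * κ := le_trans
      (mul_le_mul_of_nonneg_left (by linarith) hA0.le) hκ
    have h4 : (A * (θ * X + η * L)) ^ 3 ≤ (K * κ) ^ 3 := pow_le_pow_left₀ (by positivity) h3 3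
    have h5 : X ^ 2 * L ≤ (θ * X + η * L) ^ 3 := by
      have e : (θ * X + η * L) ^ 3 = (θ * X) ^ 3 + 3 * (η * θ ^ 2) * (X ^ 2 * L) +
          3 * (θ * X) * (η * L) ^ 2 + (η * L) ^ 3 := by ring
      rw [e, hθη]
      have e1 : 0 ≤ (θ * X) ^ 3 := by positivity
      have e2 : 0 ≤ 3 * (θ * X) * (η * L) ^ 2 := by positivity
      have e3 : 0 ≤ (η * L) ^ 3 := by positivity
      have e4 : 0 ≤ X ^ 2 * L := by positivity
      linarith
    have h6 : K ^ 3 * (A ^ 3 * L) ≤ K ^ 3 * (κ ^ 3 * D) := by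
      calc K ^ 3 * (A ^ 3 * L) = A ^ 3 * (X ^ 2 * L) * D := by rw [← hXD]; ring
        _ ≤ A ^ 3 * (θ * X + η * L) ^ 3 * D := by
          refine mul_le_mul_of_nonneg_right (mul_le_mul_of_nonneg_left h5 (by positivity)) hDp.le
        _ = (A * (θ * X + η * L)) ^ 3 * D := by ring
        _ ≤ (K * κ) ^ 3 * D := mul_le_mul_of_nonneg_right h4 hDp.le
        _ = _ := by ring
    exact le_of_mul_le_mul_left h6 (by positivity)
  refine ⟨?_, ha⟩
  rcases le_or_gt κ 1 with hκ1 | hκ1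
  · have hmin : min (κ ^ 3) κ = κ ^ 3 := min_eq_left (by
      have : κ ^ 3 ≤ κ ^ 1 := pow_le_pow_of_le_one hκp.le hκ1 (by norm_num)
      simpa using this)
    rw [hmin]
    have e1 : 64 * ((4 * s + 1) * (K * κ)) ≤ D * κ ^ 3 := by
      calc 64 * ((4 * s + 1) * (K * κ)) ≤ A ^ 2 * (K * κ) := by
            have : 64 * (4 * s + 1) ≤ A ^ 2 := by nlinarith
            nlinarith
        _ = κ * (A ^ 2 * K) := by ring
        _ ≤ κ * (κ ^ 2 * D) := mul_le_mul_of_nonneg_left ha hκp.le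
        _ = _ := by ring
    have e2 : 128 * L ≤ D * κ ^ 3 := by
      calc 128 * L ≤ A ^ 3 * L := by
            refine mul_le_mul_of_nonneg_right ?_ hL
            have : (8 : ℝ) ^ 3 ≤ A ^ 3 := pow_le_pow_left₀ (by norm_num) hA8 3
            linarith
        _ ≤ κ ^ 3 * D := hb
        _ = _ := by ring
    linarith
  · have hmin : min (κ ^ 3) κ = κ := min_eq_right (by
      have : κ ^ 1 ≤ κ ^ 3 := pow_le_pow_right₀ hκ1.le (by norm_num)
      simpa using this)
    rw [hmin]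
    have e1 : (64 * (4 * s + 1) + 128) * K * κ ≤ D * κ :=
      mul_le_mul_of_nonneg_right hD hκp.le
    have e2 : L ≤ K * κ := by nlinarith
    nlinarith

theorem exp_pow_le (i : ℕ) : Real.exp (-(2 : ℝ) ^ i) ≤ (1 / 2) ^ i := by
  have h1 : (i : ℝ) ≤ 2 ^ i := by exact_mod_cast (Nat.lt_two_pow_self (n := i)).le
  have h2 : Real.exp (-(2 : ℝ) ^ i) ≤ Real.exp (-(i : ℝ)) := Real.exp_le_exp.2 (by linarith)
  have h3 : Real.exp (-(i : ℝ)) = (Real.exp (-1)) ^ i := by
    rw [← Real.exp_nat_mul]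
    congr 1
    ring
  have h4 : Real.exp (-1) ≤ 1 / 2 := by
    rw [Real.exp_neg, ← one_div]
    exact one_div_le_one_div_of_le (by norm_num) (by linarith [Real.add_one_le_exp (1 : ℝ)])
  rw [h3] at h2
  exact h2.trans (pow_le_pow_left₀ (Real.exp_pos _).le h4 i)

end KMOM

open KMOM in
/-- **KMO** -/
theorem specKMO (hKM1 : SpecKM1) (hSMB : SpecSMB) : SpecKMO := by
  intro β s hs
  obtain ⟨C₂, hC₂, hsmb⟩ := hSMB β (2 * s) (by positivity)
  set A : ℝ := 8 * (4 * s + 1) + 2 * β with hA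
  have hβ : (0 : ℝ) ≤ β := Nat.cast_nonneg _
  have hA1 : 8 * (4 * s + 1) ≤ A := by rw [hA]; linarith
  have hA8 : 8 ≤ A := by linarith
  have hA0 : 0 < A := by linarith
  set η : ℝ := 1 / (400 * s * A + 1) with hη
  have hden : 0 < 400 * s * A + 1 := by positivity
  have hη0 : 0 < η := one_div_pos.2 hden
  have hη1 : η ≤ 1 := by
    rw [hη, div_le_one hden]
    have : 0 ≤ 400 * s * A := by positivity
    linarith
  have hηA : 4 * s * A * η ≤ 1 / 100 := by
    rw [hη, mul_one_div, div_le_div_iff₀ hden (by norm_num)]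
    nlinarith
  set θ : ℝ := 1 / Real.sqrt η with hθ
  have hsq : 0 < Real.sqrt η := Real.sqrt_pos.2 hη0
  have hθη : η * θ ^ 2 = 1 := by
    rw [hθ, div_pow, one_pow, Real.sq_sqrt hη0.le]
    field_simp
  have hθ1 : 1 ≤ θ := by
    rw [hθ, le_div_iff₀ hsq, one_mul]
    calc Real.sqrt η ≤ Real.sqrt 1 := Real.sqrt_le_sqrt hη1
      _ = 1 := Real.sqrt_one
  have hes : 0 < Real.exp s := Real.exp_pos _
  have heA : 0 < Real.exp (4 * s * A) := Real.exp_pos _
  set C : ℝ := (64 * (4 * s + 1) + 128) + 4 * (β + 1) + C₂ + 4 * s * A * θ +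
    Real.exp s * (2 * Real.exp (4 * s * A) + 10) with hC
  have hθ0 : 0 < θ := by linarith
  have hCp : 0 < C := by positivity
  refine ⟨C, hCp, ?_⟩
  intro K D hK hCK
  have hKr : (1 : ℝ) ≤ K := by exact_mod_cast hK
  have hKp : (0 : ℝ) < K := by linarith
  have hp1 : 0 ≤ 4 * s * A * θ := by positivity
  have hp2 : 0 ≤ Real.exp s * (2 * Real.exp (4 * s * A) + 10) := by positivity
  have hle : ∀ c : ℝ, c ≤ C → c * K ≤ D := fun c hc =>
    (mul_le_mul_of_nonneg_right hc hKp.le).trans hCK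
  have hD1 : (64 * (4 * s + 1) + 128) * K ≤ D := hle _ (by rw [hC]; linarith)
  have hD2 : (4 * (β + 1) : ℝ) * K ≤ D := hle _ (by rw [hC]; linarith)
  have hD3 : C₂ * K ≤ D := hle _ (by rw [hC]; linarith)
  have hDp : (0 : ℝ) < D := lt_of_lt_of_le (by positivity) hD1
  set μ := deLaw (fun j => D - β * (j + 1)) K with hμ
  have hprob : IsProbabilityMeasure μ := by
    rw [hμ]
    unfold deLaw
    infer_instance
  set X : ℝ := Real.sqrt ((K : ℝ) ^ 3 / D) with hX
  have hX0 : 0 ≤ X := Real.sqrt_nonneg _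
  have hX2 : X ^ 2 = (K : ℝ) ^ 3 / D := Real.sq_sqrt (by positivity)
  set L : ℝ := Real.log (K + 1) with hL
  have hL0 : 0 ≤ L := Real.log_nonneg (by linarith)
  have hLK : L ≤ K := by
    have := Real.log_le_sub_one_of_pos (show (0 : ℝ) < K + 1 by linarith)
    linarith
  have hexpL : Real.exp L = K + 1 := Real.exp_log (by linarith)
  set m : ℝ := θ * X + η * L + 1 with hm
  have hm1 : 1 ≤ m := by
    rw [hm]
    have h1 : 0 ≤ θ * X := by positivity
    have h2 : 0 ≤ η * L := by positivity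
    linarith
  have hAm : 1 ≤ A * m := by nlinarith
  obtain ⟨n, hn1, hn2⟩ := exists_nat_pow_near hAm (one_lt_two : (1 : ℝ) < 2)
  set i₁ : ℕ := n + 1 with hi₁
  have hup : (2 : ℝ) ^ i₁ ≤ 2 * (A * m) := by
    rw [hi₁, pow_succ]
    linarith
  -- the bad sets
  let S : ℕ → Set (Fin K → ℝ × ℝ) := fun i =>
    toMeasurable μ {w | ¬ GoodK K D (xa w) (xb w) (2 ^ i / K)}
  have hSm : ∀ i, MeasurableSet (S i) := fun i => measurableSet_toMeasurable _ _
  let c : ℕ → ℝ≥0∞ := fun i => if i₁ ≤ i then ENNReal.ofReal (Real.exp (4 * s * 2 ^ i)) else 0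
  let F : (Fin K → ℝ × ℝ) → ℝ≥0∞ := fun w => ENNReal.ofReal (Real.exp (2 * s * 2 ^ i₁)) +
    ∑' i, (S i).indicator (fun _ => c i) w
  have hFm : Measurable F := by
    refine measurable_const.add (Measurable.ennreal_tsum fun i => ?_)
    exact measurable_const.indicator (hSm i)
  let Z : (Fin K → ℝ × ℝ) → ℝ := fun w => ∑ l ∈ Finset.range K,
    max 0 (-Real.log (2 * (xb w l / Real.sqrt D)))
  -- pointwise
  have hpt : ∀ w, ENNReal.ofReal (Real.exp (s * exK K (kap K D (xa w) (xb w))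
      (fun l => xb w l / Real.sqrt D))) ≤
      ENNReal.ofReal (Real.exp s) * (F w + ENNReal.ofReal (Real.exp (2 * s * Z w))) := by
    intro w
    set i := sInf {i : ℕ | GoodK K D (xa w) (xb w) (2 ^ i / K)} with hi
    have hκ : (K : ℝ) * kap K D (xa w) (xb w) = 2 ^ i := by
      unfold kap
      rw [← hi]
      field_simp
    have e1 : s * exK K (kap K D (xa w) (xb w)) (fun l => xb w l / Real.sqrt D) =
        s + (s * 2 ^ i + s * Z w) := by
      unfold exK
      rw [hκ]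
      show s * (1 + 2 ^ i + Z w) = _
      ring
    have e2 : Real.exp (s * 2 ^ i + s * Z w) ≤
        Real.exp (2 * s * 2 ^ i) + Real.exp (2 * s * Z w) := by
      have x1 : Real.exp (2 * s * 2 ^ i) = Real.exp (s * 2 ^ i) ^ 2 := by
        rw [← Real.exp_nat_mul]; congr 1; push_cast; ring
      have x2 : Real.exp (2 * s * Z w) = Real.exp (s * Z w) ^ 2 := by
        rw [← Real.exp_nat_mul]; congr 1; push_cast; ring
      rw [Real.exp_add, x1, x2]
      nlinarith [sq_nonneg (Real.exp (s * 2 ^ i) - Real.exp (s * Z w)),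
        sq_nonneg (Real.exp (s * 2 ^ i)), sq_nonneg (Real.exp (s * Z w)),
        sq_nonneg (Real.exp (s * 2 ^ i) + Real.exp (s * Z w))]
    have e3 : ENNReal.ofReal (Real.exp (2 * s * 2 ^ i)) ≤ F w := by
      rcases le_or_gt i i₁ with h | h
      · refine le_trans (ENNReal.ofReal_le_ofReal (Real.exp_le_exp.2 ?_)) le_self_add
        have : (2 : ℝ) ^ i ≤ 2 ^ i₁ := pow_le_pow_right₀ one_le_two h
        nlinarith
      · obtain ⟨i', hi'⟩ : ∃ i', i = i' + 1 := ⟨i - 1, by omega⟩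
        have h2 : w ∈ S i' := by
          apply subset_toMeasurable
          have h3 : i' ∉ {i : ℕ | GoodK K D (xa w) (xb w) (2 ^ i / K)} := by
            apply Nat.notMem_of_lt_sInf
            rw [← hi, hi']
            exact Nat.lt_succ_self _
          exact h3
        refine le_trans ?_ (le_add_self : ∑' i, (S i).indicator (fun _ => c i) w ≤ F w)
        refine le_trans (le_of_eq ?_) (ENNReal.le_tsum i')
        rw [Set.indicator_of_mem h2]
        show _ = if i₁ ≤ i' then ENNReal.ofReal (Real.exp (4 * s * 2 ^ i')) else 0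
        rw [if_pos (by omega), hi', pow_succ]
        congr 2
        ring
    rw [e1, Real.exp_add, ENNReal.ofReal_mul hes.le]
    refine mul_le_mul_right (le_trans (ENNReal.ofReal_le_ofReal e2) ?_) _
    rw [ENNReal.ofReal_add (Real.exp_pos _).le (Real.exp_pos _).le]
    exact add_le_add e3 le_rfl
  -- the probabilities
  have hprobS : ∀ i, c i * μ (S i) ≤ ENNReal.ofReal (4 * (1 / 2) ^ i) := by
    intro i
    show (if i₁ ≤ i then ENNReal.ofReal (Real.exp (4 * s * 2 ^ i)) else 0) * μ (S i) ≤ _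
    by_cases hii : i₁ ≤ i
    · rw [if_pos hii]
      have hKκ : (K : ℝ) * (2 ^ i / K) = 2 ^ i := by field_simp
      have hκ : A * m ≤ K * ((2 : ℝ) ^ i / K) := by
        rw [hKκ]
        exact hn2.le.trans (pow_le_pow_right₀ one_le_two hii)
      obtain ⟨q1, q2⟩ := scale hs hA1 hθ1 hη0 hθη hX0 hX2 hL0 hLK hKr hD1 hκ
      have hpos : (0 : ℝ) < 2 ^ i / K := by positivity
      have q3 : 2 * (β : ℝ) * K / D ≤ (2 ^ i / K) ^ 2 := by
        rw [div_le_iff₀ hDp]
        refine le_trans ?_ q2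
        refine mul_le_mul_of_nonneg_right ?_ hKp.le
        nlinarith
      have q4 := hKM1 β K D (2 ^ i / K) hK (by exact_mod_cast hD2) hpos q3
      have q5 : μ (S i) ≤ ENNReal.ofReal (4 * ((K : ℝ) + 1) ^ 2 *
          Real.exp (-(D * min (((2 : ℝ) ^ i / K) ^ 3) ((2 : ℝ) ^ i / K)) / 32)) := by
        show μ (toMeasurable μ _) ≤ _
        rw [measure_toMeasurable]
        exact q4
      refine (mul_le_mul_right q5 _).trans ?_
      rw [← ENNReal.ofReal_mul (Real.exp_pos _).le]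
      refine ENNReal.ofReal_le_ofReal ?_
      have e1 : ((K : ℝ) + 1) ^ 2 = Real.exp (2 * L) := by
        rw [← hexpL, ← Real.exp_nat_mul]
        congr 1
      rw [hKκ] at q1
      calc Real.exp (4 * s * 2 ^ i) * (4 * ((K : ℝ) + 1) ^ 2 *
            Real.exp (-(D * min (((2 : ℝ) ^ i / K) ^ 3) ((2 : ℝ) ^ i / K)) / 32))
          = 4 * Real.exp (4 * s * 2 ^ i + 2 * L +
              -(D * min (((2 : ℝ) ^ i / K) ^ 3) ((2 : ℝ) ^ i / K)) / 32) := by
            rw [e1, Real.exp_add, Real.exp_add]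
            ring
        _ ≤ 4 * Real.exp (-(2 : ℝ) ^ i) := by
            refine mul_le_mul_of_nonneg_left (Real.exp_le_exp.2 ?_) (by norm_num)
            linarith
        _ ≤ 4 * (1 / 2) ^ i := mul_le_mul_of_nonneg_left (exp_pow_le i) (by norm_num)
    · rw [if_neg hii, zero_mul]
      exact zero_le
  have hFint : ∫⁻ w, F w ∂μ ≤ ENNReal.ofReal (Real.exp (4 * s * A * m) + 8) := by
    have h1 : ∫⁻ w, F w ∂μ = ENNReal.ofReal (Real.exp (2 * s * 2 ^ i₁)) + ∑' i, c i * μ (S i) := by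
      show ∫⁻ w, (ENNReal.ofReal (Real.exp (2 * s * 2 ^ i₁)) +
        ∑' i, (S i).indicator (fun _ => c i) w) ∂μ = _
      rw [lintegral_add_left measurable_const, lintegral_const, measure_univ, mul_one,
        lintegral_tsum fun i => (measurable_const.indicator (hSm i)).aemeasurable]
      congr 1
      exact tsum_congr fun i => lintegral_indicator_const (hSm i) _
    rw [h1, ENNReal.ofReal_add (Real.exp_pos _).le (by norm_num)]
    refine add_le_add (ENNReal.ofReal_le_ofReal (Real.exp_le_exp.2 ?_)) ?_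
    · have h2 : 0 < 2 * s := by positivity
      calc 2 * s * 2 ^ i₁ ≤ 2 * s * (2 * (A * m)) := mul_le_mul_of_nonneg_left hup h2.le
        _ = 4 * s * A * m := by ring
    · refine (ENNReal.tsum_le_tsum hprobS).trans ?_
      have hsum : Summable fun i : ℕ => 4 * ((1 : ℝ) / 2) ^ i :=
        summable_geometric_two.mul_left 4
      rw [← ENNReal.ofReal_tsum_of_nonneg (fun i => by positivity) hsum]
      refine ENNReal.ofReal_le_ofReal (le_of_eq ?_)
      rw [tsum_mul_left, tsum_geometric_two]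
      norm_num
  -- the main exponential
  have hmain : Real.exp (4 * s * A * m) ≤
      2 * Real.exp (4 * s * A) * ((K : ℝ) ^ (1 / 100 : ℝ) * Real.exp (C * X)) := by
    have e1 : 4 * s * A * m = 4 * s * A + (4 * s * A * θ) * X + (4 * s * A * η) * L := by
      rw [hm]; ring
    rw [e1, Real.exp_add, Real.exp_add]
    have e2 : Real.exp (4 * s * A * η * L) ≤ 2 * (K : ℝ) ^ (1 / 100 : ℝ) := by
      have x1 : Real.exp (4 * s * A * η * L) ≤ Real.exp (1 / 100 * L) :=
        Real.exp_le_exp.2 (mul_le_mul_of_nonneg_right hηA hL0)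
      have x2 : Real.exp (1 / 100 * L) = ((K : ℝ) + 1) ^ (1 / 100 : ℝ) := by
        rw [Real.rpow_def_of_pos (by linarith), ← hL]
        congr 1
        ring
      have x3 : ((K : ℝ) + 1) ^ (1 / 100 : ℝ) ≤ (2 * K) ^ (1 / 100 : ℝ) :=
        Real.rpow_le_rpow (by linarith) (by linarith) (by norm_num)
      have x4 : (2 * (K : ℝ)) ^ (1 / 100 : ℝ) = 2 ^ (1 / 100 : ℝ) * (K : ℝ) ^ (1 / 100 : ℝ) :=
        Real.mul_rpow (by norm_num) hKp.le
      have x5 : (2 : ℝ) ^ (1 / 100 : ℝ) ≤ 2 := by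
        calc (2 : ℝ) ^ (1 / 100 : ℝ) ≤ 2 ^ (1 : ℝ) :=
              Real.rpow_le_rpow_of_exponent_le (by norm_num) (by norm_num)
          _ = 2 := Real.rpow_one 2
      calc _ ≤ _ := x1
        _ = _ := x2
        _ ≤ _ := x3
        _ = _ := x4
        _ ≤ _ := mul_le_mul_of_nonneg_right x5 (by positivity)
    have e3 : Real.exp (4 * s * A * θ * X) ≤ Real.exp (C * X) :=
      Real.exp_le_exp.2 (mul_le_mul_of_nonneg_right (by rw [hC]; linarith) hX0)
    calc Real.exp (4 * s * A) * Real.exp (4 * s * A * θ * X) * Real.exp (4 * s * A * η * L)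
        ≤ Real.exp (4 * s * A) * Real.exp (C * X) * (2 * (K : ℝ) ^ (1 / 100 : ℝ)) := by
          refine mul_le_mul (mul_le_mul_of_nonneg_left e3 heA.le) e2 (Real.exp_pos _).le
            (by positivity)
      _ = _ := by ring
  have hone : 1 ≤ (K : ℝ) ^ (1 / 100 : ℝ) * Real.exp (C * X) := by
    have x1 : 1 ≤ (K : ℝ) ^ (1 / 100 : ℝ) := Real.one_le_rpow hKr (by norm_num)
    have x2 : 1 ≤ Real.exp (C * X) := Real.one_le_exp (by positivity)
    nlinarith
  have hZint := hsmb K D hK hD3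
  calc ∫⁻ w, ENNReal.ofReal (Real.exp (s * exK K (kap K D (xa w) (xb w))
        (fun l => xb w l / Real.sqrt D))) ∂μ
      ≤ ∫⁻ w, ENNReal.ofReal (Real.exp s) * (F w + ENNReal.ofReal (Real.exp (2 * s * Z w))) ∂μ :=
        lintegral_mono hpt
    _ = ENNReal.ofReal (Real.exp s) *
          (∫⁻ w, F w ∂μ + ∫⁻ w, ENNReal.ofReal (Real.exp (2 * s * Z w)) ∂μ) := by
        rw [lintegral_const_mul' _ _ ENNReal.ofReal_ne_top, lintegral_add_left hFm]
    _ ≤ ENNReal.ofReal (Real.exp s) * (ENNReal.ofReal (Real.exp (4 * s * A * m) + 8) +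
          ENNReal.ofReal 2) := by
        refine mul_le_mul_right (add_le_add hFint ?_) _
        rw [show ENNReal.ofReal 2 = 2 by simp]
        exact hZint
    _ = ENNReal.ofReal (Real.exp s * (Real.exp (4 * s * A * m) + 10)) := by
        rw [← ENNReal.ofReal_add (by positivity) (by norm_num), ← ENNReal.ofReal_mul hes.le]
        congr 2
        ring
    _ ≤ ENNReal.ofReal (C * (K : ℝ) ^ (1 / 100 : ℝ) * Real.exp (C * X)) := by
        refine ENNReal.ofReal_le_ofReal ?_
        set W : ℝ := (K : ℝ) ^ (1 / 100 : ℝ) * Real.exp (C * X) with hW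
        calc Real.exp s * (Real.exp (4 * s * A * m) + 10)
            ≤ Real.exp s * (2 * Real.exp (4 * s * A) * W + 10 * W) := by
              refine mul_le_mul_of_nonneg_left (add_le_add hmain ?_) hes.le
              linarith
          _ = Real.exp s * (2 * Real.exp (4 * s * A) + 10) * W := by ring
          _ ≤ C * W := by
              refine mul_le_mul_of_nonneg_right ?_ (by linarith)
              rw [hC]
              have : (0 : ℝ) ≤ 64 * (4 * s + 1) + 128 + 4 * (β + 1) + C₂ := by positivity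
              linarith
          _ = _ := by rw [hW]; ring

end Pool.Agent.Lib.MP17fa2c
end
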