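import Pool.Agent.Lib.MP_17fa2c_pr.TD.SpecF

/-!
# MP_17fa2c_pr, block L: large deviations of the exploration of a pair

Every module: file `TD/XXX.lean`, `import Pool.Agent.Lib.MP_17fa2c_pr.TD.SpecL`,
`theorem specXXX (hYYY : SpecYYY) .. : SpecXXX`, own lemmas in the namespace `XXXM`.
Notation of the docstrings: see `SpecE`; `T = Fin 2`, `c = e^{-τ}`, `κ = k + 1`.
-/

set_option autoImplicit false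

open MeasureTheory ProbabilityTheory Filter Topology
open scoped RealInnerProductSpace NNReal ENNReal BoundedContinuousFunction

namespace Pool.Agent.Lib.MP17fa2c

/-- **NCM** (150 lines; from ISO). Laplace transform of a noncentral quadratic form.
Proof. ISO: `∑ Q (G i (r i))` has the law of `σ Q x`, `x` standard; `‖σ Q x + s‖² ≥ ‖σ Q x + Q s‖²` (as `‖y + s‖² = ‖Q(y+s)‖² + ‖cp Q s‖²`
for `y` in the range of `Q`). In an orthonormal basis of the range of `Q` (`tr Q` = its dimension; eigenbasis of `Q`) the integral is a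
product of `E exp (-λ (σ z + m)²) = (1 + 2 λ σ²)^{-1/2} exp (-λ m²/(1 + 2 λ σ²)) ≤ (1 + 2 λ σ²)^{-1/2}`. -/
def SpecNCM : Prop := ∀ (ι : Type) [Fintype ι] [DecidableEq ι] (E : Type) [NormedAddCommGroup E]
  [InnerProductSpace ℝ E] [FiniteDimensional ℝ E] (T : Type) [Fintype T] (S : BStr ι E)
  (c : T → T → ℝ) (ν : Measure (T → E →L[ℝ] E)), GFam S c ν → (∀ i l, c i l = c l i) →
  ∀ (Q : E →L[ℝ] E) (r : T → E) (s : E) (lam σ2 : ℝ), IsPr S Q → (∀ i, Q (r i) = 0) → 0 ≤ lam →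
  σ2 = ∑ i, ∑ l, c i l * ⟪r i, r l⟫ →
  ∫⁻ G, ENNReal.ofReal (Real.exp (-lam * ‖(∑ i, Q (G i (r i))) + s‖ ^ 2)) ∂ν ≤
    ENNReal.ofReal ((1 + 2 * lam * σ2) ^ (-(tr Q) / 2))

/-- **RUP** (120 lines; from DEL, MRG, MGC). Upper tail of `ρ`.
Proof. `ρ_j² = ∏ b_l²/D ≤ exp (∑_{l<j} (b_l²/D - 1))`; `E exp (s ∑ (b_l²/D - 1)) ≤ exp (2 s² j/D)` for `0 ≤ s ≤ D/4` (MGC, `N_l ≤ D`,
`-log (1 - x) ≤ x + x²`). Markov with `s = x D/(4 κ)`, union over `j ≤ k`. -/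
def SpecRUP : Prop := ∀ (ι : Type) [Fintype ι] [DecidableEq ι], ∃ C : ℝ, 0 < C ∧
  ∀ (E : Type) [NormedAddCommGroup E]
  [InnerProductSpace ℝ E] [FiniteDimensional ℝ E] (T : Type) [Fintype T] (S : BStr ι E) (u : E)
  (c : T → T → ℝ) (ν : Measure (T → E →L[ℝ] E)), GFam S c ν → Cor c → ‖u‖ = 1 →
  ∀ (i : T) (k : ℕ) (x : ℝ), C * (k + 1) ≤ dm E → 0 < x → x ≤ 1 →
  ν {M | ∃ j ≤ k, Real.exp x < rho (M i) u j ^ 2} ≤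
    ENNReal.ofReal (C * (k + 1) * Real.exp (-(x ^ 2 * dm E / (C * (k + 1)))))

/-- **ZLO** (200 lines; from RPE, NCM, STP, STK, MEB). Lower tail of `‖R_k^0 + R_k^1‖²`.
Proof. `Z_j = R_j^0 + R_j^1`, `G_j = {ρ_{j'}^i ² ≤ 3 for all j' ≤ j, i}` (known at level `j`). STP, STK, NCM (`λ = s/D`, shift `S_j^0 + S_j^1`):
`E[e^{-s ‖Z_{j+1}‖²}; G_j] ≤ E[(1 + 2 s σ²/D)^{-tr Q/2}; G_j]`, `σ² = ‖R^0‖² + ‖R^1‖² + 2 c ⟪R^0, R^1⟫ ≤ 12` on `G_j` and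
`σ² ≥ ((1 + c)/2) ‖Z_j‖²` (`‖Z‖² - σ² = 2 (1 - c) ⟪R^0, R^1⟫ ≤ ((1 - c)/2) ‖Z‖²`). With `log (1 + y) ≥ y - y²/2` and `D - 2 β (j+1) ≤ tr Q ≤ D`:
`E[e^{-s ‖Z_{j+1}‖²}; G_j] ≤ e^{C s²/D} E[e^{-s (1 - 2 β (j+1)/D) ((1+c)/2) ‖Z_j‖²}; G_{j-1}]`. Iterate down to `‖Z_0‖² = 4`:
`E[e^{-s ‖Z_k‖²}; G_k] ≤ exp (-4 s (1 - C κ²/D - κ τ) + C k s²/D)`; Markov with `s = x D/(2 C κ)`. (For all `s ≥ 0`.) -/
def SpecZLO : Prop := ∀ (ι : Type) [Fintype ι] [DecidableEq ι],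
  ∃ C : ℝ, 0 < C ∧ ∀ (E : Type) [NormedAddCommGroup E]
  [InnerProductSpace ℝ E] [FiniteDimensional ℝ E] (S : BStr ι E) (u : E) (τ : ℝ)
  (μ : Measure (Fin 2 → E →L[ℝ] E)), 0 ≤ τ → GFam S (c2 (Real.exp (-τ))) μ → ‖u‖ = 1 →
  ∀ (k : ℕ) (x : ℝ), C * (k + 1) ^ 2 ≤ dm E → (k + 1) * τ ≤ 1 → 0 < x → x ≤ 1 →
  μ {M | (∀ j ≤ k, ∀ i, rho (M i) u j ^ 2 ≤ 3) ∧ ‖rh S u M k 0 + rh S u M k 1‖ ^ 2 <
      4 * (1 - C * ((k + 1) ^ 2 / dm E + (k + 1) * τ)) - x} ≤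
    ENNReal.ofReal (C * Real.exp (-(x ^ 2 * dm E / (C * (k + 1)))))

/-- **LDV** (120 lines; from RUP, ZLO, STP). The residuals of a pair are close.
Proof. Off the events of RUP (`x`, and `x = 1` : `e ≤ 3`) and ZLO: `‖R^0 - R^1‖² = 2 ‖R^0‖² + 2 ‖R^1‖² - ‖R^0 + R^1‖² ≤
4 e^x - 4 (1 - C (κ²/D + κ τ)) + x`, so `4 ⟪R^0, R^1⟫ ≥ 4 - C' (x + κ τ)`, and `⟪r^0, r^1⟫ = ⟪R^0, R^1⟫/(ρ_0 ρ_1) ≥ ⟪R^0, R^1⟫ e^{-x}` (if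
`⟪R^0, R^1⟫ ≥ 0`; otherwise the claim is trivial for a large constant). `‖r^i‖ ≤ 1`. -/
def SpecLDV : Prop := ∀ (ι : Type) [Fintype ι] [DecidableEq ι],
  ∃ C : ℝ, 0 < C ∧ ∀ (E : Type) [NormedAddCommGroup E]
  [InnerProductSpace ℝ E] [FiniteDimensional ℝ E] (S : BStr ι E) (u : E) (τ : ℝ)
  (μ : Measure (Fin 2 → E →L[ℝ] E)), 0 ≤ τ → GFam S (c2 (Real.exp (-τ))) μ → ‖u‖ = 1 →
  ∀ (k : ℕ) (x : ℝ), C * (k + 1) ^ 2 ≤ x * dm E → (k + 1) * τ ≤ 1 → 0 < x → x ≤ 1 →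
  μ {M | C * (x + (k + 1) * τ) < 1 - ⟪rr S u M k 0, rr S u M k 1⟫} ≤
    ENNReal.ofReal (C * (k + 1) * Real.exp (-(x ^ 2 * dm E / (C * (k + 1)))))

/-- **ETA** (120 lines; from RPE, DEL, MRG, GLF, STP, STK, MEB). Exponential moments of the residual of `a_k`.
Proof. `a_k = ⟪r, M r⟫ + η` with `η = 2 ⟪r, M Π_k q⟫ + ⟪Π_k q, M Π_k q⟫` known at level `k`. `e^{s²} = E e^{s a_k} = E [e^{s η} E_G e^{s ⟪r, G r⟫}]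
= E e^{s η + s² ‖r‖⁴}` (RPE, `⟪r, M' r⟫ = ⟪r, G r⟫ ~ N(0, 2 ‖r‖⁴)`, `a_k ~ N(0, 2)` by DEL). -/
def SpecETA : Prop := ∀ (ι : Type) [Fintype ι] [DecidableEq ι], ∃ C : ℝ, 0 < C ∧
  ∀ (E : Type) [NormedAddCommGroup E]
  [InnerProductSpace ℝ E] [FiniteDimensional ℝ E] (T : Type) [Fintype T] (S : BStr ι E) (u : E)
  (c : T → T → ℝ) (ν : Measure (T → E →L[ℝ] E)), GFam S c ν → Cor c → ‖u‖ = 1 →
  ∀ (i : T) (k : ℕ) (s : ℝ), C * (k + 1) ≤ dm E →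
  ∫⁻ M, ENNReal.ofReal (Real.exp (s * (av (M i) u k - ⟪rr S u M k i, M i (rr S u M k i)⟫) -
    s ^ 2 * (1 - ‖rr S u M k i‖ ^ 4))) ∂ν ≤ 1

/-- **LDA** (200 lines; from LDV, ETA, RPE, GLF, STP, STK, MEB). Large deviations of the increments of `a_k`.
Proof. `w = C (ε + κ τ)`, good event `B = {1 - ⟪r^0, r^1⟫ ≤ w}` (known at level `k`; complement: LDV with `x = ε`). On `B`: `1 - ‖r^i‖⁴ ≤ 4 w`
(`⟪r^0, r^1⟫ ≤ ‖r^i‖`), so `P(|η_i| > x/4; B) ≤ 2 exp (-s x/4 + 4 w s²)`, `s = x/(32 w)`. `a_k(M_1) - a_k(M_0) = Z + η_1 - η_0`,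
`Z = ⟪r_1, M_1 r_1⟫ - ⟪r_0, M_0 r_0⟫`, given level `k` Gaussian with variance `2 ‖r_1‖⁴ + 2 ‖r_0‖⁴ - 4 c ∑_a ⟪r_0, J a r_1⟫² ≤ 4 - 4 c ⟪r_0, r_1⟫² ≤ C w`
on `B` (`1 - c ≤ τ`): `P(|Z| > x/2; B) ≤ 2 exp (-x²/(C w))`. -/
def SpecLDA : Prop := ∀ (ι : Type) [Fintype ι] [DecidableEq ι],
  ∃ C : ℝ, 0 < C ∧ ∀ (E : Type) [NormedAddCommGroup E]
  [InnerProductSpace ℝ E] [FiniteDimensional ℝ E] (S : BStr ι E) (u : E) (τ : ℝ)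
  (μ : Measure (Fin 2 → E →L[ℝ] E)), 0 ≤ τ → GFam S (c2 (Real.exp (-τ))) μ → ‖u‖ = 1 →
  ∀ (k : ℕ) (ε x : ℝ), C * (k + 1) ^ 2 ≤ ε * dm E → (k + 1) * τ ≤ 1 → 0 < ε → ε ≤ 1 → 0 < x →
  μ {M | x < |av (M 1) u k - av (M 0) u k|} ≤
    ENNReal.ofReal (C * (k + 1) * Real.exp (-(ε ^ 2 * dm E / (C * (k + 1)))) +
      C * Real.exp (-(x ^ 2 / (C * (ε + (k + 1) * τ)))))

/-- **QFX** (120 lines). Exponential moments of quadratic forms of a standard Gaussian vector.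
Proof. Eigenbasis: `E exp (λ (z² - 1)) = e^{-λ} (1 - 2 λ)^{-1/2} ≤ e^{2 λ²}` for `|λ| ≤ 1/4`; `tr B² = ∑ λ_i²`. -/
def SpecQFX : Prop := ∀ (F : Type) [NormedAddCommGroup F]
  [InnerProductSpace ℝ F] [FiniteDimensional ℝ F] [MeasurableSpace F] [BorelSpace F]
  (B : F →L[ℝ] F), (∀ x y, ⟪B x, y⟫ = ⟪x, B y⟫) → ‖B‖ ≤ 1 / 4 →
  ∫⁻ x, ENNReal.ofReal (Real.exp (⟪x, B x⟫ - tr B)) ∂(stdGaussian F) ≤
    ENNReal.ofReal (Real.exp (2 * tr (B ∘L B)))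

/-- **QUE** (150 lines; from QFX). Exponential moments of the forms `∑ m_i ‖Q G_i r_i‖²`: as QFC and QUA (see `TD/QFC.lean`,
`TD/QUA.lean`), with QFX in place of QFE. -/
def SpecQUE : Prop := ∀ (ι : Type) [Fintype ι] [DecidableEq ι] (T : Type) [Fintype T],
  ∃ C : ℝ, 0 < C ∧ ∀ (E : Type) [NormedAddCommGroup E]
  [InnerProductSpace ℝ E] [FiniteDimensional ℝ E] (S : BStr ι E)
  (c : T → T → ℝ) (ν : Measure (T → E →L[ℝ] E)), GFam S c ν → Cor c →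
  ∀ (Q : E →L[ℝ] E) (r : T → E) (m : T → ℝ) (κ V : ℝ), IsPr S Q → (∀ i, Q (r i) = 0) →
  (∀ i, ‖r i‖ ≤ 1) → (∀ i, |m i| ≤ κ) → C * κ ≤ 1 →
  V = tr Q * ∑ i, ∑ l, m i * m l * c i l ^ 2 * ∑ a, ⟪r i, S.J a (r l)⟫ ^ 2 →
  ∫⁻ G, ENNReal.ofReal (Real.exp (∑ i, m i * (‖Q (G i (r i))‖ ^ 2 - tr Q * ‖r i‖ ^ 2))) ∂ν ≤
    ENNReal.ofReal (Real.exp (2 * V))

/-- conditional mean of `b_k² - N_k` given level `k` -/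
noncomputable def zb {ι : Type} [Fintype ι] [DecidableEq ι] {E : Type} [NormedAddCommGroup E]
    [InnerProductSpace ℝ E] [FiniteDimensional ℝ E] {T : Type} [Fintype T] (S : BStr ι E) (u : E)
    (ν : Measure (T → E →L[ℝ] E)) (M : T → E →L[ℝ] E) (k : ℕ) (i : T) : ℝ :=
  ∫ G, (bv (res (expl S u M k) M G i) u k ^ 2 - nk ι E k) ∂ν

/-- **ZE0** (200 lines; from RPE, STP, STK, KNO, IND, ISO, CHN, GI1, PIN, MEB, LOR, EXP). Structure of `b_k²` after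
resampling (see the proof of RSB in `TD/RSB.lean`).
Proof. `M' = res Π_k M G`, `Q = Q_k`, `s = Q M Π_k q`: `Q w_k(M') = Q G r + s`; `cp Q w_k(M') = y + g`, `y` known, `g = cp Q cp Π_k G r - ⟪r, G r⟫ q` a
function of `cp Q G cp Q`. So `b_k(M')² = ‖Q G r‖² + 2 ⟪Q G r, s⟫ + ‖s‖² + ‖y + g‖²`, `zb = tr Q ‖r‖² + ‖s‖² + ‖y‖² + E ‖g‖² - N_k`, and
`b_k(M')² - N_k - zb - (‖Q G r‖² - tr Q ‖r‖²) = 2 ⟪Q G r, s⟫ + 2 ⟪y, g⟫ + ‖g‖² - E ‖g‖²`. -/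
def SpecZE0 : Prop := ∀ (ι : Type) [Fintype ι] [DecidableEq ι] (T : Type) [Fintype T],
  ∃ C : ℝ, 1 ≤ C ∧ ∀ (E : Type) [NormedAddCommGroup E]
  [InnerProductSpace ℝ E] [FiniteDimensional ℝ E] [MeasurableSpace E] [BorelSpace E]
  (S : BStr ι E) (u : E)
  (c : T → T → ℝ) (ν : Measure (T → E →L[ℝ] E)), GFam S c ν → Cor c → ‖u‖ = 1 →
  ∀ (i : T) (k : ℕ), C * (k + 1) ≤ dm E → ∀ᵐ M ∂ν, ∃ (s y : E) (g : (T → E →L[ℝ] E) → E) (γ : ℝ),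
  qq S u M k s = s ∧ 0 ≤ γ ∧ γ ≤ C ∧ ‖s‖ ^ 2 + ‖y‖ ^ 2 ≤
    zb S u ν M k i + nk ι E k - tr (qq S u M k) * ‖rr S u M k i‖ ^ 2 ∧
  (∀ x : ℝ, 0 < x → ν {G | x < |⟪y, g G⟫|} ≤
    ENNReal.ofReal (2 * Real.exp (-(x ^ 2 / (C * ‖y‖ ^ 2))))) ∧
  (∀ x : ℝ, 0 < x → ν {G | x < ‖g G‖ ^ 2} ≤ ENNReal.ofReal (C * Real.exp (-(x / C)))) ∧
  IndepFun (fun G : T → E →L[ℝ] E => qq S u M k (G i (rr S u M k i))) g ν ∧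
  ∀ᵐ G ∂ν, bv (res (expl S u M k) M G i) u k ^ 2 - nk ι E k - zb S u ν M k i -
      (‖qq S u M k (G i (rr S u M k i))‖ ^ 2 - tr (qq S u M k) * ‖rr S u M k i‖ ^ 2) =
    2 * ⟪qq S u M k (G i (rr S u M k i)), s⟫ + 2 * ⟪y, g G⟫ + ‖g G‖ ^ 2 - γ

/-- **ZE1** (200 lines; from ZE0, RPE, DEL, MRG, MGC, ISO, CHN, MEB). Exponential moments of the conditional mean.
Proof. `E e^{θ (b² - N)} = e^{-θ N} (1 - 2 θ)^{-N/2} ≤ exp (θ² N + C |θ|³ N)` (DEL, MGC, `|θ| ≤ 1/8`). Given level `k`: by ZE0, independence, Jensen for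
the `g`-part (mean `0`: `E ‖g‖² = γ`, from the definition of `zb`) and symmetry (`x ↦ -x` for `Q G r`: `cosh ≥ 1`):
`E_G e^{θ (b(M')² - N)} ≥ e^{θ zb} E_G e^{θ (‖Q G r‖² - tr Q ‖r‖²)} = e^{θ zb} e^{-θ tr Q ‖r‖²} (1 - 2 θ ‖r‖²)^{-tr Q/2} ≥ exp (θ zb + θ² tr Q ‖r‖⁴ - C |θ|³ D)`. -/
def SpecZE1 : Prop := ∀ (ι : Type) [Fintype ι] [DecidableEq ι] (T : Type) [Fintype T],
  ∃ C : ℝ, 1 ≤ C ∧ ∀ (E : Type) [NormedAddCommGroup E]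
  [InnerProductSpace ℝ E] [FiniteDimensional ℝ E] (S : BStr ι E) (u : E)
  (c : T → T → ℝ) (ν : Measure (T → E →L[ℝ] E)), GFam S c ν → Cor c → ‖u‖ = 1 →
  ∀ (i : T) (k : ℕ) (θ : ℝ), C * (k + 1) ≤ dm E → C * |θ| ≤ 1 →
  ∫⁻ M, ENNReal.ofReal (Real.exp (θ * zb S u ν M k i -
    θ ^ 2 * (nk ι E k - tr (qq S u M k) * ‖rr S u M k i‖ ^ 4))) ∂ν ≤
  ENNReal.ofReal (Real.exp (C * |θ| ^ 3 * dm E))

/-- **LDZ** (200 lines; from ZE0, ZE1, RPE, STP, STK, GI1, MEB). Large deviations of the residual of `b_k²`.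
Proof. On `{1 - ‖r‖² ≤ w}`: `N_k - tr Q ‖r‖⁴ ≤ C D w` (`N_k - tr Q ≤ β t κ`). ZE1 with `θ = ± c x/(w √D)`:
`P(|zb| > x √D; 1 - ‖r‖² ≤ w) ≤ 2 exp (-|θ| x √D + C θ² D w + C |θ|³ D) ≤ 2 exp (-c' x²/w)` as `|θ|³ D ≤ (x²/w) · c³ x/(w² √D)`, `w² √D ≥ 1`, `x ≤ 1`.
On `{|zb| ≤ x √D, 1 - ‖r‖² ≤ w}` `‖s‖² + ‖y‖² ≤ C D w` (`x √D ≤ D w`), so `⟪Q G r, s⟫` (Gaussian, variance `≤ ‖s‖²`) and `⟪y, g⟫` exceed `x √D/8` with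
probability `≤ 4 exp (-x²/(C w))`, `‖g‖² > x √D/8` with probability `≤ C exp (-x √D/C)`. -/
def SpecLDZ : Prop := ∀ (ι : Type) [Fintype ι] [DecidableEq ι] (T : Type) [Fintype T],
  ∃ C : ℝ, 1 ≤ C ∧ ∀ (E : Type) [NormedAddCommGroup E]
  [InnerProductSpace ℝ E] [FiniteDimensional ℝ E] (S : BStr ι E) (u : E)
  (c : T → T → ℝ) (ν : Measure (T → E →L[ℝ] E)), GFam S c ν → Cor c → ‖u‖ = 1 →
  ∀ (i : T) (k : ℕ) (w x : ℝ), C * (k + 1) ≤ w * dm E → w ≤ 1 → 1 ≤ w ^ 2 * Real.sqrt (dm E) →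
  0 < w → 0 < x → x ≤ 1 →
  ν {M | 1 - ‖rr S u M k i‖ ^ 2 ≤ w ∧ x * Real.sqrt (dm E) < |bv (M i) u k ^ 2 - nk ι E k -
    (‖qq S u M k (M i (rr S u M k i))‖ ^ 2 - tr (qq S u M k) * ‖rr S u M k i‖ ^ 2)|} ≤
    ENNReal.ofReal (C * Real.exp (-(x ^ 2 / (C * w))) +
      C * Real.exp (-(x * Real.sqrt (dm E) / C)))

/-- **LDB** (200 lines; from LDV, LDZ, QUE, RPE, STP, STK, MEB). Large deviations of the increments of `bn`.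
Proof. As LDA: `√N (bn(M_1) - bn(M_0)) = A_1 - A_0 + ζ_1 - ζ_0`, `N ≥ D/2`; good event `B` with `w = C (ε + κ τ)` (`ε² √D ≥ 1`; if `w > 1` nothing to prove
for a large constant); `ζ_i`: LDZ; on `B` QUE with `m = ± θ/√N`, `V = θ² (tr Q/N) (‖r_1‖⁴ + ‖r_0‖⁴ - 2 c² ∑_a ⟪r_0, J a r_1⟫²) ≤ C θ² w`, `θ = c x/w` (`C θ/√N ≤ 1` as
`w √D ≥ 1`). -/
def SpecLDB : Prop := ∀ (ι : Type) [Fintype ι] [DecidableEq ι],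
  ∃ C : ℝ, 1 ≤ C ∧ ∀ (E : Type) [NormedAddCommGroup E]
  [InnerProductSpace ℝ E] [FiniteDimensional ℝ E] (S : BStr ι E) (u : E) (τ : ℝ)
  (μ : Measure (Fin 2 → E →L[ℝ] E)), 0 ≤ τ → GFam S (c2 (Real.exp (-τ))) μ → ‖u‖ = 1 →
  ∀ (k : ℕ) (ε x : ℝ), C * (k + 1) ^ 2 ≤ ε * dm E → (k + 1) * τ ≤ 1 → 0 < ε → ε ≤ 1 →
  1 ≤ ε ^ 2 * Real.sqrt (dm E) → 0 < x → x ≤ 1 →
  μ {M | x < |bn ι (M 1) u k - bn ι (M 0) u k|} ≤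
    ENNReal.ofReal (C * (k + 1) * Real.exp (-(ε ^ 2 * dm E / (C * (k + 1)))) +
      C * Real.exp (-(x ^ 2 / (C * (ε + (k + 1) * τ)))) +
      C * Real.exp (-(x * Real.sqrt (dm E) / C)))

/-- **LDF** (120 lines; from LDA, LDB). Final form, small time lags.
Proof. `ε = θ D^{-1/7}`, `θ` small depending on `x, H`: `x²/(C (ε + κ τ)) ≥ 2 H D^{1/7}`; `κ ≤ δ D^{3/7}`: `C κ² ≤ C δ² D^{6/7} ≤ ε D`, `ε² D/(C κ) ≥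
θ² D^{2/7}/(C δ) ≥ 2 H D^{1/7} + log κ`; `ε² √D = θ² D^{3/14} ≥ 1`. (For `x > 1` use `x = 1`.) -/
def SpecLDF : Prop := ∀ (ι : Type) [Fintype ι] [DecidableEq ι] (x H : ℝ), 0 < x → 0 < H →
  ∃ δ : ℝ, 0 < δ ∧ ∀ (E : Type) [NormedAddCommGroup E]
  [InnerProductSpace ℝ E] [FiniteDimensional ℝ E] (S : BStr ι E) (u : E) (τ : ℝ)
  (μ : Measure (Fin 2 → E →L[ℝ] E)), 0 ≤ τ → GFam S (c2 (Real.exp (-τ))) μ → ‖u‖ = 1 →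
  ∀ (k : ℕ), 1 / δ ≤ dm E → (k : ℝ) + 1 ≤ δ * dm E ^ (3 / 7 : ℝ) →
  (k + 1) * τ ≤ δ * dm E ^ (-(1 / 7) : ℝ) →
  μ {M | x < |av (M 1) u k - av (M 0) u k|} ≤
    ENNReal.ofReal (1 / δ * Real.exp (-H * dm E ^ (1 / 7 : ℝ))) ∧
  μ {M | x < |bn ι (M 1) u k - bn ι (M 0) u k|} ≤
    ENNReal.ofReal (1 / δ * Real.exp (-H * dm E ^ (1 / 7 : ℝ)))

/-- **LDP** (150 lines; from LDA, LDB, DEL, MRG, QFE or MGC). Polynomial form, all time lags.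
Proof. `ε = D^{-1/7}`, `a = κ τ ≤ 1`. For `x ≤ 1`: `exp (-x²/(C (ε + a))) ≤ C' (ε + a)⁴ x^{-8} ≤ C'' (a³ + D^{-4/7}) x^{-8}`, the other exponentials are
`≤ C D^{-1}`. For `x > 1`: `P(|Δ| > x) ≤ P(|Δ| > x)^{1/2} P(|Δ| > 1)^{1/2} ≤ (C x^{-4})^{1/2} (C exp (-1/(C (ε + a))) + ..)^{1/2} ≤ C x^{-2} (a³ + D^{-4/7})`, with
`E Δ⁴ ≤ C` (`a_k ~ N(0, 2)`, `E (b² - N)⁴ ≤ C N²`). -/
def SpecLDP : Prop := ∀ (ι : Type) [Fintype ι] [DecidableEq ι],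
  ∃ C δ : ℝ, 0 < C ∧ 0 < δ ∧ ∀ (E : Type) [NormedAddCommGroup E]
  [InnerProductSpace ℝ E] [FiniteDimensional ℝ E] (S : BStr ι E) (u : E) (τ : ℝ)
  (μ : Measure (Fin 2 → E →L[ℝ] E)), 0 ≤ τ → GFam S (c2 (Real.exp (-τ))) μ → ‖u‖ = 1 →
  ∀ (k : ℕ) (x : ℝ), 1 / δ ≤ dm E → (k : ℝ) + 1 ≤ δ * dm E ^ (3 / 7 : ℝ) →
  (k + 1) * τ ≤ 1 → 0 < x →
  μ {M | x < |av (M 1) u k - av (M 0) u k|} ≤
    ENNReal.ofReal (C * (((k + 1) * τ) ^ 3 + dm E ^ (-(4 / 7) : ℝ)) *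
      ((x ^ 2)⁻¹ + (x ^ 8)⁻¹)) ∧
  μ {M | x < |bn ι (M 1) u k - bn ι (M 0) u k|} ≤
    ENNReal.ofReal (C * (((k + 1) * τ) ^ 3 + dm E ^ (-(4 / 7) : ℝ)) *
      ((x ^ 2)⁻¹ + (x ^ 8)⁻¹))

end Pool.Agent.Lib.MP17fa2c
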