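import Pool.Agent.Lib.MP_17fa2c_pr.TD.SpecF
import Pool.Agent.Lib.MP_17fa2c_pr.TD.SpecL

section
/-!
# CF1: the characteristic function for a fixed projection
-/
set_option autoImplicit false

open MeasureTheory ProbabilityTheory Filter Topology
open scoped RealInnerProductSpace NNReal ENNReal BoundedContinuousFunction

namespace Pool.Agent.Lib.MP17fa2c

namespace CF1M

lemma gauss_int {v : ℝ} (hv : 0 ≤ 2 * v) :
    ∫ x : ℝ, Complex.exp (Complex.I * ((x : ℝ) : ℂ)) ∂(gaussianReal 0 (2 * v).toNNReal) =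
      Complex.exp (-(v : ℂ)) := by
  have h := charFun_gaussianReal (μ := 0) (v := (2 * v).toNNReal) 1
  rw [charFun_apply_real] at h
  have e1 : ∀ x : ℝ, Complex.exp (Complex.I * ((x : ℝ) : ℂ)) =
      Complex.exp (((1 : ℝ) : ℂ) * (x : ℂ) * Complex.I) := by
    intro x
    rw [Complex.ofReal_one, one_mul, mul_comm]
  simp only [e1]
  rw [h]
  congr 1
  have h2 : (((2 * v).toNNReal : ℝ) : ℂ) = 2 * v := by
    rw [Real.coe_toNNReal _ hv]
    push_cast
    rfl
  have h3 : (((2 * v).toNNReal : ℝ≥0) : ℂ) = (((2 * v).toNNReal : ℝ) : ℂ) := rfl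
  push_cast
  simp only [mul_zero, zero_mul, zero_sub, one_pow, mul_one]
  rw [show (((2 * v).toNNReal : ℝ) : ℂ) = 2 * v from h2]
  ring

end CF1M

theorem specCF1 (hIND : SpecIND) (hGLF : SpecGLF) (hQUA : SpecQUA) (hJON : SpecJON) : SpecCF1 := by
  intro ι _ _ T _
  obtain ⟨C, hC, hQ4⟩ := hQUA ι T
  refine ⟨C, hC, ?_⟩
  intro E _ _ _ S c ν hν hc Q r lam mu L N v V hQ hQr hr hN hL hmu hv hV
  obtain ⟨-, -, j3, -, -, -⟩ := hJON ι E S
  have hg := hν.gauss
  have hsN : 0 < Real.sqrt N := Real.sqrt_pos.2 hN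
  have hcp := j3 Q hQ
  have hcr : ∀ p, cp Q (r p) = r p := by
    intro p
    show r p - Q (r p) = r p
    rw [hQr, sub_zero]
  -- first factor
  obtain ⟨hv0, hlaw⟩ := hGLF ι E T S c ν hν T (fun p => p) (fun p => lam p • r p) r (2 * v) (by
    rw [hv, Finset.mul_sum]
    refine Finset.sum_congr rfl fun p _ => ?_
    rw [Finset.mul_sum]
    refine Finset.sum_congr rfl fun q _ => ?_
    rw [Finset.mul_sum, Finset.mul_sum, Finset.mul_sum]
    refine Finset.sum_congr rfl fun a _ => ?_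
    rw [map_smul, inner_smul_left, inner_smul_left, inner_smul_right]
    simp only [RCLike.conj_to_real]
    ring)
  -- second factor
  have hV' : V = tr Q * ∑ i, ∑ l, (mu i / Real.sqrt N) * (mu l / Real.sqrt N) * c i l ^ 2 *
      ∑ a, ⟪r i, S.J a (r l)⟫ ^ 2 := by
    rw [hV, div_mul_eq_mul_div, mul_div_assoc, Finset.sum_div]
    congr 1
    refine Finset.sum_congr rfl fun p _ => ?_
    rw [Finset.sum_div]
    refine Finset.sum_congr rfl fun q _ => ?_
    have h1 : (mu p / Real.sqrt N) * (mu q / Real.sqrt N) = mu p * mu q / N := by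
      rw [div_mul_div_comm, Real.mul_self_sqrt hN.le]
    rw [h1]
    ring
  obtain ⟨-, hsq, -, hcf⟩ := hQ4 E S c ν hν hc.symm hc.one hc.le Q r
    (fun p => mu p / Real.sqrt N) (L / Real.sqrt N) V hQ hQr hr (by
      intro p
      rw [abs_div, abs_of_pos hsN]
      exact div_le_div_of_nonneg_right (hmu p) hsN.le) hV'
  have hV0 : 0 ≤ V := by
    have h1 : 0 ≤ 2 * V := by
      rw [← hsq]
      exact integral_nonneg fun G => sq_nonneg _
    linarith
  refine ⟨by linarith, hV0, ?_⟩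
  -- the two functions
  let φ1 : (T → E →L[ℝ] E) → ℂ := fun B =>
    Complex.exp (Complex.I * ((∑ p, ⟪lam p • r p, B p (r p)⟫ : ℝ) : ℂ))
  let φ2 : (T → E →L[ℝ] E) → ℂ := fun B =>
    Complex.exp (Complex.I * ((∑ p, mu p / Real.sqrt N *
      (‖B p (r p)‖ ^ 2 - tr Q * ‖r p‖ ^ 2) : ℝ) : ℂ))
  have hc1 : Continuous φ1 := by
    refine Complex.continuous_exp.comp (continuous_const.mul (Complex.continuous_ofReal.comp ?_))
    refine continuous_finsetSum _ fun p _ => ?_
    exact continuous_const.inner ((continuous_apply p).clm_apply continuous_const)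
  have hc2 : Continuous φ2 := by
    refine Complex.continuous_exp.comp (continuous_const.mul (Complex.continuous_ofReal.comp ?_))
    refine continuous_finsetSum _ fun p _ => ?_
    refine continuous_const.mul (Continuous.sub (Continuous.pow (Continuous.norm ?_) 2)
      continuous_const)
    exact (continuous_apply p).clm_apply continuous_const
  have hind := (hIND ι E T S c ν hν Q hQ).comp hc1.measurable hc2.measurable
  have e1 : ∀ G : T → E →L[ℝ] E, (φ1 ∘ fun G : T → E →L[ℝ] E => fun i => cp Q ∘L G i ∘L cp Q) G =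
      φ1 G := by
    intro G
    have h1 : ∀ p, ⟪lam p • r p, (cp Q ∘L G p ∘L cp Q) (r p)⟫ = ⟪lam p • r p, G p (r p)⟫ := by
      intro p
      show ⟪lam p • r p, cp Q (G p (cp Q (r p)))⟫ = _
      rw [← hcp.1.1, map_smul, hcr]
    simp only [Function.comp_apply, φ1, h1]
  have e2 : ∀ G : T → E →L[ℝ] E, (φ2 ∘ fun G : T → E →L[ℝ] E => fun i => Q ∘L G i ∘L cp Q) G =
      Complex.exp (Complex.I * ((∑ p, mu p / Real.sqrt N *
        (‖Q (G p (r p))‖ ^ 2 - tr Q * ‖r p‖ ^ 2) : ℝ) : ℂ)) := by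
    intro G
    have h1 : ∀ p, (Q ∘L G p ∘L cp Q) (r p) = Q (G p (r p)) := by
      intro p
      show Q (G p (cp Q (r p))) = _
      rw [hcr]
    simp only [Function.comp_apply, φ2, h1]
  have e3 : ∀ G : T → E →L[ℝ] E, Complex.exp (Complex.I * (∑ p, (lam p * ⟪r p, G p (r p)⟫ +
      mu p * ((‖Q (G p (r p))‖ ^ 2 - tr Q * ‖r p‖ ^ 2) / Real.sqrt N)) : ℝ)) =
      (φ1 ∘ fun G : T → E →L[ℝ] E => fun i => cp Q ∘L G i ∘L cp Q) G *
      (φ2 ∘ fun G : T → E →L[ℝ] E => fun i => Q ∘L G i ∘L cp Q) G := by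
    intro G
    rw [e1, e2]
    simp only [φ1]
    rw [← Complex.exp_add, ← mul_add, ← Complex.ofReal_add]
    congr 3
    rw [← Finset.sum_add_distrib]
    refine Finset.sum_congr rfl fun p _ => ?_
    rw [inner_smul_left]
    simp only [RCLike.conj_to_real]
    ring
  have hm1 : AEStronglyMeasurable
      (φ1 ∘ fun G : T → E →L[ℝ] E => fun i => cp Q ∘L G i ∘L cp Q) ν := by
    have h1 : (φ1 ∘ fun G : T → E →L[ℝ] E => fun i => cp Q ∘L G i ∘L cp Q) = φ1 := funext e1
    rw [h1]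
    exact hc1.aestronglyMeasurable
  have hm2 : AEStronglyMeasurable
      (φ2 ∘ fun G : T → E →L[ℝ] E => fun i => Q ∘L G i ∘L cp Q) ν := by
    refine Continuous.aestronglyMeasurable ?_
    refine hc2.comp ?_
    refine continuous_pi fun i => ?_
    exact continuous_const.clm_comp ((continuous_apply i).clm_comp continuous_const)
  have e4 := hind.integral_fun_mul_eq_mul_integral hm1 hm2
  have e5 : ∫ G, (φ1 ∘ fun G : T → E →L[ℝ] E => fun i => cp Q ∘L G i ∘L cp Q) G ∂ν =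
      Complex.exp (-(v : ℂ)) := by
    rw [← CF1M.gauss_int hv0, ← hlaw, integral_map]
    · exact integral_congr_ae (Filter.Eventually.of_forall fun G => by rw [e1])
    · refine Continuous.aemeasurable ?_
      refine continuous_finsetSum _ fun p _ => ?_
      exact continuous_const.inner ((continuous_apply p).clm_apply continuous_const)
    · exact (Complex.continuous_exp.comp (continuous_const.mul
        Complex.continuous_ofReal)).aestronglyMeasurable
  have e6 : ∫ G, (φ2 ∘ fun G : T → E →L[ℝ] E => fun i => Q ∘L G i ∘L cp Q) G ∂ν =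
      ∫ G, Complex.exp (Complex.I * ((∑ p, mu p / Real.sqrt N *
        (‖Q (G p (r p))‖ ^ 2 - tr Q * ‖r p‖ ^ 2) : ℝ) : ℂ)) ∂ν :=
    integral_congr_ae (Filter.Eventually.of_forall fun G => by simp only [e2])
  simp only [e3]
  rw [e4, e5, e6]
  have e7 : Complex.exp (-((v + V : ℝ) : ℂ)) = Complex.exp (-(v : ℂ)) * Complex.exp (-(V : ℂ)) := by
    rw [← Complex.exp_add]
    congr 1
    push_cast
    ring
  rw [e7, ← mul_sub, norm_mul]
  have e8 : ‖Complex.exp (-(v : ℂ))‖ ≤ 1 := by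
    rw [Complex.norm_exp]
    have : (-(v : ℂ)).re = -v := by simp
    rw [this]
    exact Real.exp_le_one_iff.2 (by linarith)
  calc _ ≤ 1 * _ := mul_le_mul_of_nonneg_right e8 (norm_nonneg _)
    _ ≤ _ := by
      rw [one_mul]
      exact hcf

end Pool.Agent.Lib.MP17fa2c
end

section
/-!
# MP_17fa2c_pr, module CHF: characteristic function at one depth
-/
set_option autoImplicit false

open MeasureTheory ProbabilityTheory Filter Topology
open scoped RealInnerProductSpace NNReal ENNReal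

namespace Pool.Agent.Lib.MP17fa2c

namespace CHFM

/-! ## elementary inequalities -/

theorem expI_sub (x y : ℝ) :
    ‖Complex.exp (Complex.I * (x : ℂ)) - Complex.exp (Complex.I * (y : ℂ))‖ ≤ |x - y| := by
  have h1 : Complex.exp (Complex.I * (x : ℂ)) - Complex.exp (Complex.I * (y : ℂ)) =
      Complex.exp (Complex.I * (y : ℂ)) *
        (Complex.exp (Complex.I * ((x - y : ℝ) : ℂ)) - 1) := by
    rw [mul_sub, ← Complex.exp_add, mul_one]
    congr 2
    push_cast
    ring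
  rw [h1, norm_mul, Complex.norm_exp_I_mul_ofReal, one_mul]
  exact Real.norm_exp_I_mul_ofReal_sub_one_le

theorem exp_sub_le {x y b : ℝ} (hx : x ≤ b) (hy : y ≤ b) :
    |Real.exp x - Real.exp y| ≤ Real.exp b * |x - y| := by
  have key : ∀ u w : ℝ, u ≤ w → w ≤ b → Real.exp w - Real.exp u ≤ Real.exp b * (w - u) := by
    intro u w huw hwb
    have h1 : Real.exp w - Real.exp u = Real.exp w * (1 - Real.exp (u - w)) := by
      rw [mul_sub, ← Real.exp_add]; ring_nf
    have h2 : 1 - Real.exp (u - w) ≤ w - u := by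
      have := Real.add_one_le_exp (u - w)
      linarith
    have h3 : Real.exp w ≤ Real.exp b := Real.exp_le_exp.2 hwb
    rw [h1]
    calc Real.exp w * (1 - Real.exp (u - w)) ≤ Real.exp w * (w - u) :=
          mul_le_mul_of_nonneg_left h2 (Real.exp_pos _).le
      _ ≤ Real.exp b * (w - u) := mul_le_mul_of_nonneg_right h3 (by linarith)
  rcases le_total x y with h | h
  · rw [abs_sub_comm, abs_sub_comm x y, abs_of_nonneg (sub_nonneg.2 (Real.exp_le_exp.2 h)),
      abs_of_nonneg (sub_nonneg.2 h)]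
    exact key x y h hy
  · rw [abs_of_nonneg (sub_nonneg.2 (Real.exp_le_exp.2 h)), abs_of_nonneg (sub_nonneg.2 h)]
    exact key y x h hx

theorem norm_cexp_sub_le {v V W b : ℝ} (hx : -(v + V) ≤ b) (hy : -W ≤ b) :
    ‖Complex.exp (-((v + V : ℝ) : ℂ)) - Complex.exp (-((W : ℝ) : ℂ))‖ ≤
      Real.exp b * |v + V - W| := by
  have h1 : Complex.exp (-((v + V : ℝ) : ℂ)) - Complex.exp (-((W : ℝ) : ℂ)) =
      ((Real.exp (-(v + V)) - Real.exp (-W) : ℝ) : ℂ) := by
    push_cast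
    rfl
  rw [h1, Complex.norm_real, Real.norm_eq_abs]
  refine (exp_sub_le hx hy).trans (le_of_eq ?_)
  congr 1
  rw [abs_sub_comm]
  congr 1
  ring

/-- Cauchy–Schwarz on a probability space -/
theorem int_abs_le {α : Type*} [MeasurableSpace α] {ν : Measure α} [IsProbabilityMeasure ν]
    {f : α → ℝ} (hf : Integrable f ν) (hf2 : Integrable (fun x => f x ^ 2) ν) {B : ℝ}
    (hB : ∫ x, f x ^ 2 ∂ν ≤ B) : ∫ x, |f x| ∂ν ≤ Real.sqrt B := by
  refine Real.le_sqrt_of_sq_le ?_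
  refine le_trans ?_ hB
  have h1 : 0 ≤ ∫ x, (|f x| - ∫ y, |f y| ∂ν) ^ 2 ∂ν := integral_nonneg fun x => sq_nonneg _
  have h2 : ∀ x, (|f x| - ∫ y, |f y| ∂ν) ^ 2 =
      f x ^ 2 - 2 * (∫ y, |f y| ∂ν) * |f x| + (∫ y, |f y| ∂ν) ^ 2 := by
    intro x
    rw [sub_sq, sq_abs]
    ring
  simp only [h2] at h1
  have h3 : Integrable (fun x => 2 * (∫ y, |f y| ∂ν) * |f x|) ν := hf.abs.const_mul _
  have h4 : Integrable (fun x => f x ^ 2 - 2 * (∫ y, |f y| ∂ν) * |f x|) ν := hf2.sub h3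
  rw [integral_add h4 (integrable_const _), integral_sub hf2 h3,
    integral_const_mul] at h1
  simp only [integral_const, probReal_univ, smul_eq_mul, one_mul] at h1
  nlinarith

section alg

variable {ι : Type} [Fintype ι] [DecidableEq ι] {T : Type} [Fintype T]

theorem sq_sum_le (o : ι) (x : ι → ℝ) (hx : ∀ a, |x a| ≤ 1) (y : ℝ) (hy : |y| ≤ 1) :
    |∑ a, x a ^ 2 - y ^ 2| ≤ 2 * ∑ a, |x a - if a = o then y else 0| := by
  have h1 : y ^ 2 = ∑ a, (if a = o then y else 0) ^ 2 := by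
    rw [Finset.sum_eq_single o]
    · simp
    · intro a _ ha; simp [ha]
    · intro h; exact absurd (Finset.mem_univ _) h
  rw [h1, ← Finset.sum_sub_distrib, Finset.mul_sum]
  refine (Finset.abs_sum_le_sum_abs _ _).trans (Finset.sum_le_sum fun a _ => ?_)
  rw [sq_sub_sq, abs_mul, mul_comm]
  have h2 : |x a + if a = o then y else 0| ≤ 2 := by
    refine (abs_add_le _ _).trans ?_
    have h3 : |if a = o then y else 0| ≤ 1 := by
      split_ifs
      · exact hy
      · simp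
    linarith [hx a]
  rw [mul_comm]
  exact mul_le_mul_of_nonneg_right h2 (abs_nonneg _)

/-- quadratic sums are close -/
theorem quad_le (o : ι) (x : T → T → ι → ℝ) (hx : ∀ p q a, |x p q a| ≤ 1)
    (y g : T → T → ℝ) (hy : ∀ p q, |y p q| ≤ 1) (hg : ∀ p q, |g p q| ≤ 1) (w : T → ℝ) (L : ℝ)
    (hL : 0 ≤ L) (hw : ∀ p, |w p| ≤ L) :
    |(∑ p, ∑ q, w p * w q * g p q * ∑ a, x p q a ^ 2) -
      ∑ p, ∑ q, w p * w q * g p q * y p q ^ 2| ≤
      2 * L ^ 2 * ∑ p, ∑ q, ∑ a, |x p q a - if a = o then y p q else 0| := by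
  rw [← Finset.sum_sub_distrib, Finset.mul_sum]
  refine (Finset.abs_sum_le_sum_abs _ _).trans (Finset.sum_le_sum fun p _ => ?_)
  rw [← Finset.sum_sub_distrib, Finset.mul_sum]
  refine (Finset.abs_sum_le_sum_abs _ _).trans (Finset.sum_le_sum fun q _ => ?_)
  rw [← mul_sub, abs_mul, abs_mul, abs_mul]
  have h1 := sq_sum_le o (x p q) (hx p q) (y p q) (hy p q)
  have h2 : |w p| * |w q| * |g p q| ≤ L ^ 2 := by
    have h3 : |w p| * |w q| ≤ L * L := mul_le_mul (hw p) (hw q) (abs_nonneg _) hL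
    calc |w p| * |w q| * |g p q| ≤ (L * L) * 1 :=
          mul_le_mul h3 (hg p q) (abs_nonneg _) (mul_nonneg hL hL)
      _ = L ^ 2 := by ring
  calc |w p| * |w q| * |g p q| * |∑ a, x p q a ^ 2 - y p q ^ 2| ≤
        L ^ 2 * (2 * ∑ a, |x p q a - if a = o then y p q else 0|) :=
          mul_le_mul h2 h1 (abs_nonneg _) (sq_nonneg _)
    _ = _ := by ring

/-- trivial bound of the quadratic sums -/
theorem quad_abs (x : T → T → ι → ℝ) (hx : ∀ p q a, |x p q a| ≤ 1)
    (g : T → T → ℝ) (hg : ∀ p q, |g p q| ≤ 1) (w : T → ℝ) (L : ℝ)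
    (hL : 0 ≤ L) (hw : ∀ p, |w p| ≤ L) :
    |∑ p, ∑ q, w p * w q * g p q * ∑ a, x p q a ^ 2| ≤
      (Fintype.card T : ℝ) ^ 2 * L ^ 2 * Fintype.card ι := by
  have h0 : ∀ p q, |w p * w q * g p q * ∑ a, x p q a ^ 2| ≤ L ^ 2 * Fintype.card ι := by
    intro p q
    rw [abs_mul, abs_mul, abs_mul]
    have h3 : |w p| * |w q| ≤ L * L := mul_le_mul (hw p) (hw q) (abs_nonneg _) hL
    have h2 : |w p| * |w q| * |g p q| ≤ L ^ 2 := by
      calc |w p| * |w q| * |g p q| ≤ (L * L) * 1 :=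
            mul_le_mul h3 (hg p q) (abs_nonneg _) (mul_nonneg hL hL)
        _ = L ^ 2 := by ring
    have h4 : |∑ a, x p q a ^ 2| ≤ Fintype.card ι := by
      rw [abs_of_nonneg (Finset.sum_nonneg fun a _ => sq_nonneg _)]
      calc ∑ a, x p q a ^ 2 ≤ ∑ _a : ι, (1 : ℝ) := by
            refine Finset.sum_le_sum fun a _ => ?_
            rw [← sq_abs]
            exact pow_le_one₀ (abs_nonneg _) (hx p q a)
        _ = Fintype.card ι := by simp
    exact mul_le_mul h2 h4 (abs_nonneg _) (sq_nonneg _)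
  calc |∑ p, ∑ q, w p * w q * g p q * ∑ a, x p q a ^ 2| ≤
        ∑ p, ∑ q, |w p * w q * g p q * ∑ a, x p q a ^ 2| :=
        (Finset.abs_sum_le_sum_abs _ _).trans
          (Finset.sum_le_sum fun p _ => Finset.abs_sum_le_sum_abs _ _)
    _ ≤ ∑ _p : T, ∑ _q : T, L ^ 2 * (Fintype.card ι : ℝ) :=
        Finset.sum_le_sum fun p _ => Finset.sum_le_sum fun q _ => h0 p q
    _ = _ := by simp; ring

end alg

theorem pr_norm {ι : Type} [Fintype ι] [DecidableEq ι] {E : Type} [NormedAddCommGroup E]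
    [InnerProductSpace ℝ E]
    {S : BStr ι E} {Q : E →L[ℝ] E} (hQ : IsPr S Q) (x : E) : ‖Q x‖ ≤ ‖x‖ := by
  have h1 : ‖Q x‖ ^ 2 ≤ ‖x‖ * ‖Q x‖ := by
    rw [← real_inner_self_eq_norm_sq, hQ.1.1, hQ.2]
    exact real_inner_le_norm _ _
  by_contra h
  push Not at h
  have h2 : 0 < ‖Q x‖ := lt_of_le_of_lt (norm_nonneg _) h
  nlinarith

/-! ## the two abstract steps -/

theorem step1 {α : Type*} [MeasurableSpace α] {ν : Measure α} [IsProbabilityMeasure ν]
    {X : α → ℂ} (hX : Measurable X) (hX1 : ∀ x, ‖X x‖ ≤ 1) {P P' h : α → ℝ}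
    (mP : Measurable P) (mP' : Measurable P') (ih : Integrable h ν)
    (hh : ∀ᵐ x ∂ν, |P x - P' x| ≤ h x) :
    ‖(∫ x, X x * Complex.exp (Complex.I * (P x : ℂ)) ∂ν) -
      ∫ x, X x * Complex.exp (Complex.I * (P' x : ℂ)) ∂ν‖ ≤ ∫ x, h x ∂ν := by
  have meas : ∀ {R : α → ℝ}, Measurable R →
      Measurable fun x => X x * Complex.exp (Complex.I * (R x : ℂ)) := by
    intro R mR
    exact hX.mul (Complex.measurable_exp.comp
      (Measurable.const_mul (Complex.measurable_ofReal.comp mR) _))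
  have int : ∀ {R : α → ℝ}, Measurable R →
      Integrable (fun x => X x * Complex.exp (Complex.I * (R x : ℂ))) ν := by
    intro R mR
    refine Integrable.of_bound (meas mR).aestronglyMeasurable 1
      (Filter.Eventually.of_forall fun x => ?_)
    rw [norm_mul, Complex.norm_exp_I_mul_ofReal, mul_one]
    exact hX1 x
  rw [← integral_sub (int mP) (int mP')]
  refine norm_integral_le_of_norm_le ih ?_
  filter_upwards [hh] with x hx
  rw [← mul_sub, norm_mul]
  calc ‖X x‖ * ‖Complex.exp (Complex.I * (P x : ℂ)) - Complex.exp (Complex.I * (P' x : ℂ))‖ ≤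
        1 * |P x - P' x| := mul_le_mul (hX1 x) (expI_sub _ _) (norm_nonneg _) zero_le_one
    _ ≤ h x := by rw [one_mul]; exact hx

theorem step2 {α : Type*} [MeasurableSpace α] {ν : Measure α} [IsProbabilityMeasure ν]
    {X H : α → ℂ} (hX : Measurable X) (hX1 : ∀ x, ‖X x‖ ≤ 1) (iH : Integrable H ν)
    {v V y : α → ℝ} {Wa Wb E2 K6 m : ℝ} (iy : Integrable y ν)
    (hh : ∀ᵐ x ∂ν, 0 ≤ v x ∧ 0 ≤ V x ∧
      ‖H x - X x * Complex.exp (-((v x + V x : ℝ) : ℂ))‖ ≤ E2 ∧ |v x - Wa| ≤ y x ∧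
      |V x - Wb| ≤ y x + K6) (hm : 2 * ∫ x, y x ∂ν + K6 ≤ m) (hm1 : m ≤ 1) :
    ‖(∫ x, H x ∂ν) - Complex.exp (-((Wa + Wb : ℝ) : ℂ)) * ∫ x, X x ∂ν‖ ≤ E2 + 3 * m := by
  have iX : Integrable X ν :=
    Integrable.of_bound hX.aestronglyMeasurable 1 (Filter.Eventually.of_forall hX1)
  have ib : Integrable (fun x => 2 * y x + K6) ν := (iy.const_mul 2).add (integrable_const _)
  have hib : ∫ x, (2 * y x + K6) ∂ν = 2 * ∫ x, y x ∂ν + K6 := by
    rw [integral_add (iy.const_mul 2) (integrable_const _), integral_const_mul]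
    simp
  have hW : -(Wa + Wb) ≤ 1 := by
    have h1 : ∫ _x, -(Wa + Wb) ∂ν ≤ ∫ x, (2 * y x + K6) ∂ν := by
      refine integral_mono_ae (integrable_const _) ib ?_
      filter_upwards [hh] with x hx
      have h2 := (abs_le.1 hx.2.2.2.1)
      have h3 := (abs_le.1 hx.2.2.2.2)
      have h4 := hx.1
      have h5 := hx.2.1
      linarith [h2.1, h2.2, h3.1, h3.2]
    rw [hib] at h1
    simp only [integral_const, probReal_univ, smul_eq_mul, one_mul] at h1
    linarith
  have he : Real.exp 1 ≤ 3 := by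
    have := Real.exp_one_lt_d9
    linarith
  rw [← integral_const_mul, ← integral_sub iH (iX.const_mul _)]
  have ib2 : Integrable (fun x => E2 + 3 * (2 * y x + K6)) ν :=
    (integrable_const _).add (ib.const_mul 3)
  refine (norm_integral_le_of_norm_le ib2 ?_).trans ?_
  · filter_upwards [hh] with x hx
    obtain ⟨h1, h2, h3, h4, h5⟩ := hx
    have h6 : H x - Complex.exp (-((Wa + Wb : ℝ) : ℂ)) * X x =
        (H x - X x * Complex.exp (-((v x + V x : ℝ) : ℂ))) +
        X x * (Complex.exp (-((v x + V x : ℝ) : ℂ)) - Complex.exp (-((Wa + Wb : ℝ) : ℂ))) := by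
      ring
    have h7 : ‖Complex.exp (-((v x + V x : ℝ) : ℂ)) - Complex.exp (-((Wa + Wb : ℝ) : ℂ))‖ ≤
        Real.exp 1 * |v x + V x - (Wa + Wb)| :=
      norm_cexp_sub_le (by linarith) hW
    have h8 : |v x + V x - (Wa + Wb)| ≤ 2 * y x + K6 := by
      have h9 : v x + V x - (Wa + Wb) = (v x - Wa) + (V x - Wb) := by ring
      rw [h9]
      refine (abs_add_le _ _).trans ?_
      linarith
    rw [h6]
    refine (norm_add_le _ _).trans (add_le_add h3 ?_)
    rw [norm_mul]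
    calc ‖X x‖ * ‖Complex.exp (-((v x + V x : ℝ) : ℂ)) -
          Complex.exp (-((Wa + Wb : ℝ) : ℂ))‖ ≤ 1 * (3 * (2 * y x + K6)) := by
          refine mul_le_mul (hX1 x) (h7.trans ?_) (norm_nonneg _) zero_le_one
          exact mul_le_mul he h8 (abs_nonneg _) (by norm_num)
      _ = 3 * (2 * y x + K6) := one_mul _
  · rw [integral_add (integrable_const _) (ib.const_mul 3), integral_const_mul, hib]
    simp only [integral_const, probReal_univ, smul_eq_mul, one_mul]
    linarith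

/-! ## numbers -/

theorem num {β A δ k D N : ℝ} (hβ : 0 ≤ β) (hA : 1 + 2 * β ≤ A) (hδ : δ = 1 / A)
    (hk1 : 1 ≤ k) (hk : k ≤ δ * Real.sqrt D) (hD0 : 0 ≤ D) (hN : N = D - β * k) :
    0 < δ ∧ δ ≤ 1 ∧ 1 ≤ Real.sqrt D ∧ 1 ≤ D ∧ D / 2 ≤ N ∧ N ≤ D ∧ k ^ 2 ≤ δ * D ∧
    k / Real.sqrt D ≤ δ ∧ 1 / Real.sqrt D ≤ k / Real.sqrt D ∧ A * δ = 1 := by
  have hA0 : 0 < A := by linarith
  have hδ0 : 0 < δ := by rw [hδ]; positivity
  have hAδ : A * δ = 1 := by rw [hδ]; field_simp
  have hδ1 : δ ≤ 1 := by nlinarith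
  have hsD1 : 1 ≤ Real.sqrt D := by
    have h1 : 1 ≤ δ * Real.sqrt D := hk1.trans hk
    have h2 : 0 ≤ Real.sqrt D := Real.sqrt_nonneg _
    nlinarith
  have hsD0 : 0 < Real.sqrt D := by linarith
  have hsq : Real.sqrt D * Real.sqrt D = D := Real.mul_self_sqrt hD0
  have hD1 : 1 ≤ D := by nlinarith
  have hsDD : Real.sqrt D ≤ D := by nlinarith
  have hkD : k ^ 2 ≤ δ * D := by
    have h1 : k ^ 2 ≤ (δ * Real.sqrt D) ^ 2 := pow_le_pow_left₀ (by linarith) hk 2
    have h2 : (δ * Real.sqrt D) ^ 2 = δ * (δ * D) := by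
      rw [mul_pow, sq, sq, hsq]; ring
    rw [h2] at h1
    have h3 : δ * (δ * D) ≤ 1 * (δ * D) := mul_le_mul_of_nonneg_right hδ1 (by positivity)
    linarith
  have hND : D / 2 ≤ N := by
    have h1 : β * k ≤ β * (δ * Real.sqrt D) := mul_le_mul_of_nonneg_left hk hβ
    have h2 : β * (δ * Real.sqrt D) ≤ β * (δ * D) :=
      mul_le_mul_of_nonneg_left (mul_le_mul_of_nonneg_left hsDD hδ0.le) hβ
    have h4 : (2 * β) * δ ≤ A * δ := mul_le_mul_of_nonneg_right (by linarith) hδ0.le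
    have h3 : β * (δ * D) ≤ D / 2 := by
      have h5 : (2 * β * δ) * D ≤ 1 * D := mul_le_mul_of_nonneg_right (by linarith) hD0
      linarith
    rw [hN]
    linarith
  have hND' : N ≤ D := by
    rw [hN]
    have : 0 ≤ β * k := mul_nonneg hβ (by linarith)
    linarith
  refine ⟨hδ0, hδ1, hsD1, hD1, hND, hND', hkD, ?_, ?_, hAδ⟩
  · rw [div_le_iff₀ hsD0]; exact hk
  · exact div_le_div_of_nonneg_right hk1 hsD0.le

/-- the two square roots of step 1 -/
theorem num2 {C k D N : ℝ} (hC : 0 ≤ C) (hk : 0 ≤ k) (hD : 0 < D) (hN : D / 2 ≤ N) :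
    1 / Real.sqrt N * Real.sqrt (C * k * Real.sqrt D) ≤
      Real.sqrt (2 * C) * Real.sqrt (k / Real.sqrt D) := by
  have hN0 : 0 < N := by linarith
  have hsN : 0 < Real.sqrt N := Real.sqrt_pos.2 hN0
  have hsD : 0 < Real.sqrt D := Real.sqrt_pos.2 hD
  have hsq : Real.sqrt D * Real.sqrt D = D := Real.mul_self_sqrt hD.le
  rw [← Real.sqrt_mul (by positivity), div_mul_eq_mul_div, one_mul, div_le_iff₀ hsN,
    ← Real.sqrt_mul (by positivity)]
  apply Real.sqrt_le_sqrt
  have h1 : C * k * Real.sqrt D = 2 * C * (k / Real.sqrt D) * (D / 2) := by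
    calc C * k * Real.sqrt D = C * k * (D / Real.sqrt D) := by rw [Real.div_sqrt]
      _ = _ := by ring
  rw [h1]
  exact mul_le_mul_of_nonneg_left hN (by positivity)

end CHFM

open CHFM in
theorem specCHF (hCF1 : SpecCF1) (hRSA : SpecRSA) (hRSB : SpecRSB) (hOVU : SpecOVU)
    (hRPI : SpecRPI) (hSTP : SpecSTP) (hSTK : SpecSTK) (hPIN : SpecPIN) (hMEB : SpecMEB)
    (hMEA : SpecMEA) : SpecCHF := by
  intro ι _ _ T _ L ε hL hε
  obtain ⟨C1, hC1, H1⟩ := hRSA ι T
  obtain ⟨C2, hC2, H2⟩ := hRSB ι T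
  obtain ⟨C3, hC3, H3⟩ := hCF1 ι T
  obtain ⟨C4, hC4, H4⟩ := hOVU ι T
  obtain ⟨t, ht⟩ : ∃ t : ℝ, t = (Fintype.card T : ℝ) := ⟨_, rfl⟩
  obtain ⟨β, hβ⟩ : ∃ β : ℝ, β = (Fintype.card ι : ℝ) := ⟨_, rfl⟩
  have ht0 : 0 ≤ t := by rw [ht]; exact Nat.cast_nonneg _
  have hβ0 : 0 ≤ β := by rw [hβ]; exact Nat.cast_nonneg _
  obtain ⟨C5, hC5⟩ : ∃ C5 : ℝ, C5 =
      4 * L ^ 2 * (t ^ 2 * β * C4) + 2 * β * (t + 1) * (t ^ 2 * L ^ 2 * β) := ⟨_, rfl⟩
  have hC50 : 0 ≤ C5 := by rw [hC5]; positivity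
  obtain ⟨K, hK⟩ : ∃ K : ℝ, K = t * L * (Real.sqrt C1 + Real.sqrt (2 * C2)) +
    4 * C3 * L * ((1 + t) * (t ^ 2 * L ^ 2 * β)) + 3 * C5 := ⟨_, rfl⟩
  have hK0 : 0 ≤ K := by rw [hK]; positivity
  obtain ⟨A, hA⟩ : ∃ A : ℝ, A = 1 + 2 * β + C1 + C2 + C4 + C5 + (K / ε) ^ 2 := ⟨_, rfl⟩
  have hKε : 0 ≤ (K / ε) ^ 2 := sq_nonneg _
  have hA0 : 0 < A := by linarith
  refine ⟨1 / A, by positivity, ?_⟩
  intro E _ _ _ S u c ν hG hc hu lam mu k X hlam hmu hk hXm hX1 hXK
  rcases isEmpty_or_nonempty T with hT | hT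
  · simp [hε.le]
  obtain ⟨p0⟩ := hT
  obtain ⟨δ, hδ⟩ : ∃ δ : ℝ, δ = 1 / A := ⟨_, rfl⟩
  rw [← hδ] at hk
  obtain ⟨D, hD⟩ : ∃ D : ℝ, D = dm E := ⟨_, rfl⟩
  obtain ⟨N, hN⟩ : ∃ N : ℝ, N = nk ι E k := ⟨_, rfl⟩
  obtain ⟨k1, hk1⟩ : ∃ k1 : ℝ, k1 = (k : ℝ) + 1 := ⟨_, rfl⟩
  have hk11 : 1 ≤ k1 := by
    rw [hk1]
    have : (0 : ℝ) ≤ (k : ℝ) := Nat.cast_nonneg _
    linarith
  have hD0 : 0 ≤ D := by
    rw [hD]; unfold dm; positivity
  have hNeq : N = D - β * k1 := by rw [hN, hD, hk1, hβ]; rfl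
  have H1' := fun (i : T) => H1 E S u c ν hG hc hu i k
  have H2' := fun (i : T) => H2 E S u c ν hG hc hu i k
  have H4' := fun (a : ι) (i l : T) => H4 E S u c ν hG hc hu a i l k
  rw [← hk1, ← hD] at hk
  simp only [← hk1, ← hD, ← hN] at H1' H2' H4'
  obtain ⟨hδ0, hδ1, hsD1, hD1, hND, hND', hkD, hκδ, hiD, hAδ⟩ :=
    num hβ0 (by linarith) hδ hk11 hk hD0 hNeq
  have hN0 : 0 < N := by linarith
  have hDpos : 0 < D := by linarith
  have hsN0 : 0 < Real.sqrt N := Real.sqrt_pos.2 hN0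
  have hsD0 : 0 < Real.sqrt D := by linarith
  have hCk : ∀ C : ℝ, 0 ≤ C → C ≤ A → C * k1 ^ 2 ≤ D := by
    intro C h1 h2
    have h3 : C * δ ≤ 1 := by
      rw [← hAδ]; exact mul_le_mul_of_nonneg_right h2 hδ0.le
    calc C * k1 ^ 2 ≤ C * (δ * D) := mul_le_mul_of_nonneg_left hkD h1
      _ = (C * δ) * D := by ring
      _ ≤ 1 * D := mul_le_mul_of_nonneg_right h3 hD0
      _ = D := one_mul _
  have H1'' := fun i => H1' i (hCk C1 hC1.le (by linarith))
  have H2'' := fun i => H2' i (hCk C2 hC2.le (by linarith))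
  have H4'' := fun a i l => H4' a i l (hCk C4 hC4.le (by linarith))
  obtain ⟨κ, hκ⟩ : ∃ κ : ℝ, κ = k1 / Real.sqrt D := ⟨_, rfl⟩
  rw [← hκ] at hκδ hiD
  have hκ0 : 0 < κ := by rw [hκ]; positivity
  have := hG.gauss
  have hprob : IsProbabilityMeasure ν := inferInstance
  let _ : MeasurableSpace E := borel E
  have hBor : BorelSpace E := ⟨rfl⟩
  -- measurability
  have mav : ∀ p, Measurable fun M : T → E →L[ℝ] E => av (M p) u k :=
    fun p => (hMEA ι E T S u k).2.2.1 p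
  have mbv : ∀ p, Measurable fun M : T → E →L[ℝ] E => bv (M p) u k :=
    fun p => (hMEA ι E T S u k).2.2.2.1 p
  have mrr : ∀ p, Measurable fun M : T → E →L[ℝ] E => rr S u M k p :=
    fun p => (hMEB ι E T S u k p).2.1
  have mtr : ∀ _p : T, Measurable fun M : T → E →L[ℝ] E => tr (qq S u M k) :=
    fun p => (hMEB ι E T S u k p).2.2.2.2.1
  have mMr : ∀ p, Measurable fun M : T → E →L[ℝ] E => M p (rr S u M k p) :=
    fun p => (hMEB ι E T S u k p).2.2.2.2.2.2.1
  have mQMr : ∀ p, Measurable fun M : T → E →L[ℝ] E => qq S u M k (M p (rr S u M k p)) :=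
    fun p => (hMEB ι E T S u k p).2.2.2.2.2.2.2.2
  -- the functions
  obtain ⟨f, hf⟩ : ∃ f : T → (T → E →L[ℝ] E) → ℝ, f = fun p M =>
    av (M p) u k - ⟪rr S u M k p, M p (rr S u M k p)⟫ := ⟨_, rfl⟩
  obtain ⟨g, hg⟩ : ∃ g : T → (T → E →L[ℝ] E) → ℝ, g = fun p M =>
    bv (M p) u k ^ 2 - N - (‖qq S u M k (M p (rr S u M k p))‖ ^ 2 -
      tr (qq S u M k) * ‖rr S u M k p‖ ^ 2) := ⟨_, rfl⟩
  have mf : ∀ p, Measurable (f p) := fun p => by
    rw [hf]; exact (mav p).sub ((mrr p).inner (mMr p))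
  have mg : ∀ p, Measurable (g p) := fun p => by
    rw [hg]
    exact (((mbv p).pow_const 2).sub_const _).sub
      (((mQMr p).norm.pow_const 2).sub ((mtr p).mul ((mrr p).norm.pow_const 2)))
  have hST := fun (M : T → E →L[ℝ] E) (hM : HermF S M) (p : T) => hSTP ι E T S u M hM hu k p
  have hPI := hPIN ι E T S c ν hG
  have hβk : β * k1 ≤ D / 2 := by linarith
  have htrabs : ∀ x : ℝ, D - β * t * k1 ≤ x → x ≤ D → |x| ≤ D * (1 + t) := by
    intro x h1 h2
    have h3 : β * t * k1 ≤ t * (D / 2) := by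
      calc β * t * k1 = t * (β * k1) := by ring
        _ ≤ t * (D / 2) := mul_le_mul_of_nonneg_left hβk ht0
    have h4 : 0 ≤ t * D := mul_nonneg ht0 hD0
    rw [abs_le]
    constructor <;> nlinarith
  have bfg : ∀ p, ∀ᵐ M ∂ν, |f p M| ≤ 2 * (1 + ∑ i, ‖M i‖) ^ 1 ∧
      |g p M| ≤ (2 + D * (2 + t)) * (1 + ∑ i, ‖M i‖) ^ 2 := by
    intro p
    filter_upwards [hG.herm, hPI.2 u hu] with M hM hM2
    obtain ⟨ha, hb, -, -, -⟩ := hM2 p k
    obtain ⟨-, -, -, -, -, -, -, hr1, -, -, -, hQ, htr1, htr2, -⟩ := hST M hM p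
    obtain ⟨s, hs⟩ : ∃ s : ℝ, s = 1 + ∑ i, ‖M i‖ := ⟨_, rfl⟩
    rw [← hs]
    have hMs : ‖M p‖ + 1 ≤ s := by
      have := Finset.single_le_sum (f := fun i => ‖M i‖) (fun i _ => norm_nonneg _)
        (Finset.mem_univ p)
      linarith
    have hM0 : 0 ≤ ‖M p‖ := norm_nonneg _
    have hMr : ‖M p (rr S u M k p)‖ ≤ ‖M p‖ := by
      refine ((M p).le_opNorm _).trans ?_
      exact mul_le_of_le_one_right hM0 hr1
    constructor
    · rw [hf, pow_one]
      simp only
      refine (abs_sub _ _).trans ?_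
      have h1 : |⟪rr S u M k p, M p (rr S u M k p)⟫| ≤ ‖M p‖ := by
        refine (abs_real_inner_le_norm _ _).trans ?_
        calc ‖rr S u M k p‖ * ‖M p (rr S u M k p)‖ ≤ 1 * ‖M p‖ :=
              mul_le_mul hr1 hMr (norm_nonneg _) zero_le_one
          _ = ‖M p‖ := one_mul _
      linarith
    · rw [hg]
      simp only
      have h1 : ‖qq S u M k (M p (rr S u M k p))‖ ^ 2 ≤ ‖M p‖ ^ 2 :=
        pow_le_pow_left₀ (norm_nonneg _) ((pr_norm hQ _).trans hMr) 2
      have h2 : bv (M p) u k ^ 2 ≤ ‖M p‖ ^ 2 :=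
        pow_le_pow_left₀ (norm_nonneg _) hb 2
      have h0 : 0 ≤ bv (M p) u k ^ 2 := sq_nonneg _
      have h00 : 0 ≤ ‖qq S u M k (M p (rr S u M k p))‖ ^ 2 := sq_nonneg _
      have h3 : ‖rr S u M k p‖ ^ 2 ≤ 1 := pow_le_one₀ (norm_nonneg _) hr1
      have h3' : 0 ≤ ‖rr S u M k p‖ ^ 2 := sq_nonneg _
      have h4 : |tr (qq S u M k) * ‖rr S u M k p‖ ^ 2| ≤ D * (1 + t) := by
        rw [abs_mul, abs_of_nonneg h3']
        have h5 : |tr (qq S u M k)| ≤ D * (1 + t) := by
          refine htrabs _ ?_ ?_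
          · rw [hD, hβ, ht, hk1]; exact htr1
          · rw [hD]; exact htr2
        calc |tr (qq S u M k)| * ‖rr S u M k p‖ ^ 2 ≤ D * (1 + t) * 1 :=
              mul_le_mul h5 h3 h3' (by positivity)
          _ = _ := mul_one _
      have h6 : ‖M p‖ ^ 2 ≤ s ^ 2 := pow_le_pow_left₀ hM0 (by linarith) 2
      have h7 : 1 ≤ s ^ 2 := one_le_pow₀ (by linarith)
      have h8 : |bv (M p) u k ^ 2 - N| ≤ s ^ 2 + D := by
        rw [abs_le]; constructor <;> linarith
      have h9 : |‖qq S u M k (M p (rr S u M k p))‖ ^ 2 -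
          tr (qq S u M k) * ‖rr S u M k p‖ ^ 2| ≤ s ^ 2 + D * (1 + t) := by
        refine (abs_sub _ _).trans ?_
        rw [abs_of_nonneg h00]
        linarith
      refine (abs_sub _ _).trans ?_
      have h10 : D * (2 + t) * 1 ≤ D * (2 + t) * s ^ 2 :=
        mul_le_mul_of_nonneg_left h7 (by positivity)
      linarith
  have hsq_int : ∀ (F : (T → E →L[ℝ] E) → ℝ) (C : ℝ) (m : ℕ), Measurable F → 0 ≤ C →
      (∀ᵐ M ∂ν, |F M| ≤ C * (1 + ∑ i, ‖M i‖) ^ m) →
      Integrable F ν ∧ Integrable (fun M => F M ^ 2) ν := by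
    intro F C m mF hC hb
    refine ⟨hPI.1 F C m mF hb, hPI.1 _ (C ^ 2) (m * 2) (mF.pow_const 2) ?_⟩
    filter_upwards [hb] with M hM
    rw [abs_pow, pow_mul, ← mul_pow]
    exact pow_le_pow_left₀ (abs_nonneg _) hM 2
  have iff' : ∀ p, Integrable (f p) ν ∧ Integrable (fun M => f p M ^ 2) ν := fun p =>
    hsq_int (f p) 2 1 (mf p) (by norm_num) ((bfg p).mono fun M h => h.1)
  have igg : ∀ p, Integrable (g p) ν ∧ Integrable (fun M => g p M ^ 2) ν := fun p =>
    hsq_int (g p) _ 2 (mg p) (by positivity) ((bfg p).mono fun M h => h.2)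
  have hEf : ∀ p, ∫ M, |f p M| ∂ν ≤ Real.sqrt C1 * Real.sqrt κ := by
    intro p
    rw [← Real.sqrt_mul hC1.le]
    refine int_abs_le (iff' p).1 (iff' p).2 ?_
    have := H1'' p
    rw [hf, hκ]
    simp only
    rw [← mul_div_assoc]
    exact this
  have hEg : ∀ p, 1 / Real.sqrt N * ∫ M, |g p M| ∂ν ≤ Real.sqrt (2 * C2) * Real.sqrt κ := by
    intro p
    have h1 : ∫ M, |g p M| ∂ν ≤ Real.sqrt (C2 * k1 * Real.sqrt D) := by
      refine int_abs_le (igg p).1 (igg p).2 ?_
      have := H2'' p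
      rw [hg]
      exact this
    refine (mul_le_mul_of_nonneg_left h1 (by positivity)).trans ?_
    rw [hκ]
    exact num2 hC2.le (by linarith) hDpos hND
  -- first step
  obtain ⟨P', hP'⟩ : ∃ P' : (T → E →L[ℝ] E) → ℝ, P' = fun M =>
    ∑ p, (lam p * ⟪rr S u M k p, M p (rr S u M k p)⟫ +
      mu p * ((‖qq S u M k (M p (rr S u M k p))‖ ^ 2 -
        tr (qq S u M k) * ‖rr S u M k p‖ ^ 2) / Real.sqrt N)) := ⟨_, rfl⟩
  have mP' : Measurable P' := by
    rw [hP']
    refine Finset.measurable_sum _ fun p _ => ?_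
    exact (((mrr p).inner (mMr p)).const_mul _).add
      (((((mQMr p).norm.pow_const 2).sub ((mtr p).mul
        ((mrr p).norm.pow_const 2))).div_const _).const_mul _)
  have mP : Measurable fun M : T → E →L[ℝ] E =>
      ∑ p, (lam p * av (M p) u k + mu p * bn ι (M p) u k) := by
    refine Finset.measurable_sum _ fun p _ => ?_
    unfold bn
    exact ((mav p).const_mul _).add
      (((((mbv p).pow_const 2).sub_const _).div_const _).const_mul _)
  have s1 : ‖(∫ M, X M * Complex.exp (Complex.I * ((∑ p, (lam p * av (M p) u k +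
      mu p * bn ι (M p) u k) : ℝ) : ℂ)) ∂ν) -
      ∫ M, X M * Complex.exp (Complex.I * (P' M : ℂ)) ∂ν‖ ≤
      t * L * (Real.sqrt C1 + Real.sqrt (2 * C2)) * Real.sqrt κ := by
    have ih : ∀ p, Integrable
        (fun M => L * |f p M| + L * (1 / Real.sqrt N * |g p M|)) ν := fun p =>
      ((iff' p).1.abs.const_mul _).add (((igg p).1.abs.const_mul _).const_mul _)
    refine (step1 (ν := ν) (h := fun M => ∑ p, (L * |f p M| + L * (1 / Real.sqrt N * |g p M|)))
      hXm hX1 mP mP' (integrable_finsetSum _ fun p _ => ih p) ?_).trans ?_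
    · refine Filter.Eventually.of_forall fun M => ?_
      rw [hP']
      simp only
      rw [← Finset.sum_sub_distrib]
      refine (Finset.abs_sum_le_sum_abs _ _).trans (Finset.sum_le_sum fun p _ => ?_)
      have h1 : lam p * av (M p) u k + mu p * bn ι (M p) u k -
          (lam p * ⟪rr S u M k p, M p (rr S u M k p)⟫ +
        mu p * ((‖qq S u M k (M p (rr S u M k p))‖ ^ 2 -
          tr (qq S u M k) * ‖rr S u M k p‖ ^ 2) / Real.sqrt N)) =
          lam p * f p M + mu p * (1 / Real.sqrt N * g p M) := by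
        unfold bn
        rw [← hN, hf, hg]
        simp only
        ring
      rw [h1]
      refine (abs_add_le _ _).trans (add_le_add ?_ ?_)
      · rw [abs_mul]
        exact mul_le_mul_of_nonneg_right (hlam p) (abs_nonneg _)
      · rw [abs_mul, abs_mul, abs_of_pos (by positivity : (0 : ℝ) < 1 / Real.sqrt N)]
        exact mul_le_mul_of_nonneg_right (hmu p) (by positivity)
    · rw [integral_finsetSum _ fun p _ => ih p]
      calc ∑ p, ∫ M, (L * |f p M| + L * (1 / Real.sqrt N * |g p M|)) ∂ν ≤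
            ∑ _p : T, L * (Real.sqrt C1 + Real.sqrt (2 * C2)) * Real.sqrt κ := by
            refine Finset.sum_le_sum fun p _ => ?_
            rw [integral_add ((iff' p).1.abs.const_mul _)
              (((igg p).1.abs.const_mul _).const_mul _), integral_const_mul,
              integral_const_mul, integral_const_mul]
            have h1 := mul_le_mul_of_nonneg_left (hEf p) hL.le
            have h2 := mul_le_mul_of_nonneg_left (hEg p) hL.le
            linarith
        _ = _ := by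
            rw [Finset.sum_const, Finset.card_univ, nsmul_eq_mul, ← ht]
            ring
  -- second step
  have mF : Measurable fun M => X M * Complex.exp (Complex.I * (P' M : ℂ)) :=
    hXm.mul (Complex.measurable_exp.comp
      (Measurable.const_mul (Complex.measurable_ofReal.comp mP') _))
  have iF : Integrable (fun M => X M * Complex.exp (Complex.I * (P' M : ℂ))) ν := by
    refine Integrable.of_bound mF.aestronglyMeasurable 1
      (Filter.Eventually.of_forall fun x => ?_)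
    rw [norm_mul, Complex.norm_exp_I_mul_ofReal, mul_one]
    exact hX1 x
  obtain ⟨-, iH, hEq⟩ := (hRPI ι E T S c ν u hG k).2 _ mF iF
  rw [hEq] at s1
  obtain ⟨x, hx⟩ : ∃ x : (T → E →L[ℝ] E) → T → T → ι → ℝ, x = fun M p q a =>
    ⟪rr S u M k p, S.J a (rr S u M k q)⟫ := ⟨_, rfl⟩
  have mx : ∀ p q a, Measurable fun M => x M p q a := fun p q a => by
    rw [hx]
    exact (mrr p).inner ((S.J a).continuous.measurable.comp (mrr q))
  have hx1 : ∀ M, HermF S M → ∀ p q a, |x M p q a| ≤ 1 := by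
    intro M hM p q a
    rw [hx]
    simp only
    refine (abs_real_inner_le_norm _ _).trans ?_
    rw [S.norm_J]
    obtain ⟨-, -, -, -, -, -, -, hr1, -⟩ := hST M hM p
    obtain ⟨-, -, -, -, -, -, -, hr2, -⟩ := hST M hM q
    exact mul_le_one₀ hr1 (norm_nonneg _) hr2
  have hck : ∀ (m : ℕ) p q, |c p q ^ m| ≤ 1 := by
    intro m p q
    rw [abs_pow]
    exact pow_le_one₀ (abs_nonneg _) (hc.le p q)
  have iY : ∀ p q a, Integrable (fun M => |x M p q a - if a = S.o then c p q ^ k else 0|) ν := by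
    intro p q a
    refine Integrable.of_bound (C := 2)
      (((mx p q a).sub_const _).abs).aestronglyMeasurable ?_
    filter_upwards [hG.herm] with M hM
    rw [Real.norm_eq_abs, abs_abs]
    refine (abs_sub _ _).trans ?_
    have h1 := hx1 M hM p q a
    have h2 : |if a = S.o then c p q ^ k else 0| ≤ 1 := by
      split_ifs
      · exact hck k p q
      · simp
    linarith
  obtain ⟨y, hy⟩ : ∃ y : (T → E →L[ℝ] E) → ℝ, y = fun M =>
    2 * L ^ 2 * ∑ p, ∑ q, ∑ a, |x M p q a - if a = S.o then c p q ^ k else 0| := ⟨_, rfl⟩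
  have iy : Integrable y ν := by
    rw [hy]
    exact (integrable_finsetSum _ fun p _ => integrable_finsetSum _ fun q _ =>
      integrable_finsetSum _ fun a _ => iY p q a).const_mul _
  have hEy : ∫ M, y M ∂ν ≤ 2 * L ^ 2 * (t ^ 2 * β * (C4 * κ)) := by
    rw [hy, integral_const_mul]
    refine mul_le_mul_of_nonneg_left ?_ (by positivity)
    rw [integral_finsetSum _ fun p _ => integrable_finsetSum _ fun q _ =>
      integrable_finsetSum _ fun a _ => iY p q a]
    calc ∑ p, ∫ M, (∑ q, ∑ a, |x M p q a - if a = S.o then c p q ^ k else 0|) ∂ν ≤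
          ∑ _p : T, ∑ _q : T, ∑ _a : ι, C4 * κ := by
          refine Finset.sum_le_sum fun p _ => ?_
          rw [integral_finsetSum _ fun q _ => integrable_finsetSum _ fun a _ => iY p q a]
          refine Finset.sum_le_sum fun q _ => ?_
          rw [integral_finsetSum _ fun a _ => iY p q a]
          refine Finset.sum_le_sum fun a _ => ?_
          have h := H4'' a p q
          rw [hκ, hx, ← mul_div_assoc]
          exact h
      _ = _ := by
          simp only [Finset.sum_const, Finset.card_univ, nsmul_eq_mul, ← ht, ← hβ]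
          ring
  obtain ⟨B, hB⟩ : ∃ B : ℝ, B = t ^ 2 * L ^ 2 * β := ⟨_, rfl⟩
  have hB0 : 0 ≤ B := by rw [hB]; positivity
  have hiN : 1 / Real.sqrt N ≤ 2 * κ := by
    have h1 : Real.sqrt D ≤ 2 * Real.sqrt N := by
      have h2 : Real.sqrt D ≤ Real.sqrt (2 ^ 2 * N) := Real.sqrt_le_sqrt (by linarith)
      rw [Real.sqrt_mul (by positivity), Real.sqrt_sq (by norm_num)] at h2
      exact h2
    calc 1 / Real.sqrt N ≤ 2 * (1 / Real.sqrt D) := by
          rw [mul_one_div, div_le_div_iff₀ hsN0 hsD0]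
          linarith
      _ ≤ 2 * κ := mul_le_mul_of_nonneg_left hiD (by norm_num)
  have hm1 : C5 * κ ≤ 1 := by
    calc C5 * κ ≤ A * δ := mul_le_mul (by linarith) hκδ hκ0.le hA0.le
      _ = 1 := hAδ
  have s2 : ‖(∫ M, (∫ G, (fun M => X M * Complex.exp (Complex.I * (P' M : ℂ)))
        (res (expl S u M k) M G) ∂ν) ∂ν) -
      Complex.exp (-(((∑ p, ∑ q, lam p * lam q * c p q * (c p q ^ k) ^ 2) +
        (∑ p, ∑ q, mu p * mu q * c p q ^ 2 * (c p q ^ k) ^ 2) : ℝ) : ℂ)) * ∫ M, X M ∂ν‖ ≤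
      4 * C3 * L * ((1 + t) * B) * κ + 3 * (C5 * κ) := by
    refine step2 (ν := ν) hXm hX1 iH
      (v := fun M => ∑ p, ∑ q, lam p * lam q * c p q *
        ∑ a, ⟪rr S u M k p, S.J a (rr S u M k q)⟫ ^ 2)
      (V := fun M => tr (qq S u M k) / N * ∑ p, ∑ q, mu p * mu q * c p q ^ 2 *
        ∑ a, ⟪rr S u M k p, S.J a (rr S u M k q)⟫ ^ 2)
      (y := y) (K6 := 2 * β * (t + 1) * B * κ) iy ?_ ?_ hm1
    · filter_upwards [hG.herm] with M hM
      obtain ⟨-, -, -, -, -, -, -, -, -, -, -, hQ, htr1, htr2, -⟩ := hST M hM p0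
      have hQr : ∀ p, qq S u M k (rr S u M k p) = 0 := fun p => (hST M hM p).2.1
      have her : ∀ p, expl S u M k (rr S u M k p) = 0 := fun p => (hST M hM p).2.2.2.2.1
      have hr1 : ∀ p, ‖rr S u M k p‖ ≤ 1 := fun p => (hST M hM p).2.2.2.2.2.2.2.1
      have hcf := H3 E S c ν hG hc (qq S u M k) (fun p => rr S u M k p) lam mu L N _ _ hQ hQr
        hr1 hN0 hL.le hmu rfl rfl
      obtain ⟨hv0, hV0, hcf⟩ := hcf
      have hxM : ∀ p q a, |⟪rr S u M k p, S.J a (rr S u M k q)⟫| ≤ 1 := by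
        intro p q a
        have := hx1 M hM p q a
        rw [hx] at this
        exact this
      have hSabs : |∑ p, ∑ q, mu p * mu q * c p q ^ 2 *
          ∑ a, ⟪rr S u M k p, S.J a (rr S u M k q)⟫ ^ 2| ≤ B := by
        rw [hB, ht, hβ]
        exact quad_abs (fun p q a => ⟪rr S u M k p, S.J a (rr S u M k q)⟫) hxM
          (fun p q => c p q ^ 2) (hck 2) mu L hL.le hmu
      have htr1' : D - β * t * k1 ≤ tr (qq S u M k) := by
        rw [hD, hβ, ht, hk1]; exact htr1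
      have htr2' : tr (qq S u M k) ≤ D := by rw [hD]; exact htr2
      refine ⟨hv0, hV0, ?_, ?_, ?_⟩
      · -- the integral over G
        have hH : (∫ G, (fun M => X M * Complex.exp (Complex.I * (P' M : ℂ)))
            (res (expl S u M k) M G) ∂ν) =
            X M * ∫ G, Complex.exp (Complex.I * (∑ p, (lam p *
              ⟪rr S u M k p, G p (rr S u M k p)⟫ +
              mu p * ((‖qq S u M k (G p (rr S u M k p))‖ ^ 2 -
                tr (qq S u M k) * ‖rr S u M k p‖ ^ 2) / Real.sqrt N)) : ℝ)) ∂ν := by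
          rw [← integral_const_mul]
          refine integral_congr_ae ?_
          filter_upwards [hG.herm] with G hGh
          have hX' : X (res (expl S u M k) M G) = X M := hXK M G hM hGh
          have hP'' : P' (res (expl S u M k) M G) = ∑ p, (lam p *
              ⟪rr S u M k p, G p (rr S u M k p)⟫ +
              mu p * ((‖qq S u M k (G p (rr S u M k p))‖ ^ 2 -
                tr (qq S u M k) * ‖rr S u M k p‖ ^ 2) / Real.sqrt N)) := by
            rw [hP']
            simp only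
            refine Finset.sum_congr rfl fun p _ => ?_
            obtain ⟨-, -, -, -, k5, -, k7, -, -, -, -, k12⟩ := hSTK ι E T S u hu k p
            have e5 := k5 M G hM hGh
            have e7 := k7 M G hM hGh
            simp only at e5 e7
            obtain ⟨e1, e2, -, -⟩ := k12 M G hM hGh (rr S u M k p) (her p)
            rw [e5, e7, e1, e2]
          simp only [hX', hP'']
        rw [hH, ← mul_sub, norm_mul]
        refine (mul_le_mul (hX1 M) hcf (norm_nonneg _) zero_le_one).trans ?_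
        rw [one_mul]
        have hVle : tr (qq S u M k) / N * ∑ p, ∑ q, mu p * mu q * c p q ^ 2 *
            ∑ a, ⟪rr S u M k p, S.J a (rr S u M k q)⟫ ^ 2 ≤ 2 * (1 + t) * B := by
          refine (le_abs_self _).trans ?_
          rw [abs_mul]
          refine mul_le_mul ?_ hSabs (abs_nonneg _) (by positivity)
          rw [abs_div, abs_of_pos hN0, div_le_iff₀ hN0]
          refine (htrabs _ htr1' htr2').trans ?_
          nlinarith
        calc C3 * (L / Real.sqrt N) * (tr (qq S u M k) / N * ∑ p, ∑ q, mu p * mu q *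
            c p q ^ 2 * ∑ a, ⟪rr S u M k p, S.J a (rr S u M k q)⟫ ^ 2) ≤
              C3 * (L * (2 * κ)) * (2 * (1 + t) * B) := by
              refine mul_le_mul ?_ hVle hV0 (by positivity)
              refine mul_le_mul_of_nonneg_left ?_ hC3.le
              rw [div_eq_mul_one_div]
              exact mul_le_mul_of_nonneg_left hiN hL.le
          _ = _ := by ring
      · have := quad_le S.o (fun p q a => ⟪rr S u M k p, S.J a (rr S u M k q)⟫) hxM
          (fun p q => c p q ^ k) c (hck k) hc.le lam L hL.le hlam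
        rw [hy, hx]
        exact this
      · have h1 := quad_le S.o (fun p q a => ⟪rr S u M k p, S.J a (rr S u M k q)⟫) hxM
          (fun p q => c p q ^ k) (fun p q => c p q ^ 2) (hck k) (hck 2) mu L hL.le hmu
        have h2 : |tr (qq S u M k) / N - 1| ≤ 2 * β * (t + 1) * κ := by
          have h3 : tr (qq S u M k) / N - 1 = (tr (qq S u M k) - N) / N := by
            field_simp
          rw [h3, abs_div, abs_of_pos hN0, div_le_iff₀ hN0]
          have h4 : |tr (qq S u M k) - N| ≤ β * (t + 1) * k1 := by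
            have h5 : 0 ≤ β * t * k1 := by positivity
            have h6 : 0 ≤ β * k1 := by positivity
            rw [abs_le, hNeq]
            constructor <;> linarith
          refine h4.trans ?_
          have h7 : k1 ≤ 2 * κ * N := by
            have h8 : κ * Real.sqrt D = k1 := by
              rw [hκ]; field_simp
            have h9 : Real.sqrt D ≤ D := by
              have := Real.mul_self_sqrt hD0
              nlinarith
            calc k1 = κ * Real.sqrt D := h8.symm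
              _ ≤ κ * D := mul_le_mul_of_nonneg_left h9 hκ0.le
              _ ≤ κ * (2 * N) := mul_le_mul_of_nonneg_left (by linarith) hκ0.le
              _ = _ := by ring
          calc β * (t + 1) * k1 ≤ β * (t + 1) * (2 * κ * N) :=
                mul_le_mul_of_nonneg_left h7 (by positivity)
            _ = _ := by ring
        have h3 : tr (qq S u M k) / N * (∑ p, ∑ q, mu p * mu q * c p q ^ 2 *
            ∑ a, ⟪rr S u M k p, S.J a (rr S u M k q)⟫ ^ 2) -
            ∑ p, ∑ q, mu p * mu q * c p q ^ 2 * (c p q ^ k) ^ 2 =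
            ((∑ p, ∑ q, mu p * mu q * c p q ^ 2 *
            ∑ a, ⟪rr S u M k p, S.J a (rr S u M k q)⟫ ^ 2) -
            ∑ p, ∑ q, mu p * mu q * c p q ^ 2 * (c p q ^ k) ^ 2) +
            (tr (qq S u M k) / N - 1) * (∑ p, ∑ q, mu p * mu q * c p q ^ 2 *
            ∑ a, ⟪rr S u M k p, S.J a (rr S u M k q)⟫ ^ 2) := by ring
        rw [h3]
        refine (abs_add_le _ _).trans (add_le_add ?_ ?_)
        · rw [hy, hx]
          exact h1
        · rw [abs_mul]
          calc |tr (qq S u M k) / N - 1| * |∑ p, ∑ q, mu p * mu q * c p q ^ 2 *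
              ∑ a, ⟪rr S u M k p, S.J a (rr S u M k q)⟫ ^ 2| ≤
                (2 * β * (t + 1) * κ) * B := mul_le_mul h2 hSabs (abs_nonneg _) (by positivity)
            _ = _ := by ring
    · have : C5 * κ = 2 * (2 * L ^ 2 * (t ^ 2 * β * (C4 * κ))) + 2 * β * (t + 1) * B * κ := by
        rw [hC5, hB]; ring
      rw [this]
      linarith
  -- end
  have hW : ((∑ p, ∑ q, lam p * lam q * c p q * (c p q ^ k) ^ 2) +
        (∑ p, ∑ q, mu p * mu q * c p q ^ 2 * (c p q ^ k) ^ 2) : ℝ) =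
      ∑ p, ∑ q, (lam p * lam q * c p q ^ (2 * k + 1) +
      mu p * mu q * c p q ^ (2 * k + 2)) := by
    rw [← Finset.sum_add_distrib]
    refine Finset.sum_congr rfl fun p _ => ?_
    rw [← Finset.sum_add_distrib]
    refine Finset.sum_congr rfl fun q _ => ?_
    ring
  rw [hW] at s2
  have hfin := norm_sub_le_norm_sub_add_norm_sub
    (∫ M, X M * Complex.exp (Complex.I * ((∑ p, (lam p * av (M p) u k +
      mu p * bn ι (M p) u k) : ℝ) : ℂ)) ∂ν)
    (∫ M, (∫ G, (fun M => X M * Complex.exp (Complex.I * (P' M : ℂ)))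
        (res (expl S u M k) M G) ∂ν) ∂ν)
    (Complex.exp (-((∑ p, ∑ q, (lam p * lam q * c p q ^ (2 * k + 1) +
      mu p * mu q * c p q ^ (2 * k + 2)) : ℝ) : ℂ)) * ∫ M, X M ∂ν)
  refine hfin.trans ((add_le_add s1 s2).trans ?_)
  have hsκ : Real.sqrt κ ≤ Real.sqrt δ := Real.sqrt_le_sqrt hκδ
  have hδs : δ ≤ Real.sqrt δ := by
    refine Real.le_sqrt_of_sq_le ?_
    nlinarith
  have hκs : κ ≤ Real.sqrt δ := hκδ.trans hδs
  have hKs : K * Real.sqrt δ ≤ ε := by
    have h1 : (K / ε * Real.sqrt δ) ^ 2 ≤ 1 := by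
      rw [mul_pow, Real.sq_sqrt hδ0.le, ← hAδ]
      exact mul_le_mul_of_nonneg_right (by linarith) hδ0.le
    have h2 : K / ε * Real.sqrt δ ≤ 1 := by
      have h3 : 0 ≤ K / ε * Real.sqrt δ := by positivity
      nlinarith
    calc K * Real.sqrt δ = ε * (K / ε * Real.sqrt δ) := by field_simp
      _ ≤ ε * 1 := mul_le_mul_of_nonneg_left h2 hε.le
      _ = ε := mul_one _
  refine le_trans ?_ hKs
  have e1 : t * L * (Real.sqrt C1 + Real.sqrt (2 * C2)) * Real.sqrt κ ≤
      t * L * (Real.sqrt C1 + Real.sqrt (2 * C2)) * Real.sqrt δ :=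
    mul_le_mul_of_nonneg_left hsκ (by positivity)
  have e2 : 4 * C3 * L * ((1 + t) * B) * κ ≤ 4 * C3 * L * ((1 + t) * B) * Real.sqrt δ :=
    mul_le_mul_of_nonneg_left hκs (by positivity)
  have e3 : 3 * (C5 * κ) ≤ 3 * (C5 * Real.sqrt δ) :=
    mul_le_mul_of_nonneg_left (mul_le_mul_of_nonneg_left hκs hC50) (by norm_num)
  have e4 : K * Real.sqrt δ = t * L * (Real.sqrt C1 + Real.sqrt (2 * C2)) * Real.sqrt δ +
      (4 * C3 * L * ((1 + t) * B) * Real.sqrt δ + 3 * (C5 * Real.sqrt δ)) := by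
    rw [hK, hB]; ring
  rw [e4]
  linarith

end Pool.Agent.Lib.MP17fa2c
end

section
/-!
# MP_17fa2c_pr, block L, module LDA: large deviations of the increments of `a_k`
-/
set_option autoImplicit false

open MeasureTheory ProbabilityTheory Filter Topology
open scoped RealInnerProductSpace NNReal ENNReal BoundedContinuousFunction

namespace Pool.Agent.Lib.MP17fa2c

namespace LDAM

/-- Gaussian tail -/
lemma gauss_tail (v : ℝ≥0) (V y : ℝ) (hV : 0 < V) (hvV : (v : ℝ) ≤ V) (hy : 0 < y) :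
    gaussianReal 0 v {z | y < |z|} ≤ ENNReal.ofReal (2 * Real.exp (-(y ^ 2 / (2 * V)))) := by
  have hexp : ∀ s : ℝ, ∫⁻ z, ENNReal.ofReal (Real.exp (s * z)) ∂(gaussianReal 0 v) ≤
      ENNReal.ofReal (Real.exp (V * s ^ 2 / 2)) := by
    intro s
    rw [← ofReal_integral_eq_lintegral_ofReal (integrable_exp_mul_gaussianReal s)
      (Eventually.of_forall fun x => (Real.exp_pos _).le)]
    apply ENNReal.ofReal_le_ofReal
    have h1 : ∫ x, Real.exp (s * x) ∂(gaussianReal 0 v) = Real.exp (v * s ^ 2 / 2) := by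
      have h2 := congrFun (mgf_id_gaussianReal (μ := 0) (v := v)) s
      simp only [mgf, id_eq] at h2
      rw [h2]
      simp
    rw [h1]
    apply Real.exp_le_exp.mpr
    have : (v : ℝ) * s ^ 2 ≤ V * s ^ 2 := mul_le_mul_of_nonneg_right hvV (sq_nonneg s)
    linarith
  have hone : ∀ s : ℝ, s = y / V ∨ s = -(y / V) →
      gaussianReal 0 v {z | y ^ 2 / V < s * z} ≤ ENNReal.ofReal (Real.exp (-(y ^ 2 / (2 * V)))) := by
    intro s hs
    have hs2 : V * s ^ 2 / 2 = y ^ 2 / (2 * V) := by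
      rcases hs with rfl | rfl <;> field_simp
    have hm : Measurable fun z : ℝ => ENNReal.ofReal (Real.exp (-(y ^ 2 / V))) *
        ENNReal.ofReal (Real.exp (s * z)) := by fun_prop
    calc gaussianReal 0 v {z | y ^ 2 / V < s * z}
        ≤ gaussianReal 0 v {z | 1 ≤ ENNReal.ofReal (Real.exp (-(y ^ 2 / V))) *
            ENNReal.ofReal (Real.exp (s * z))} := by
          refine measure_mono fun z hz => ?_
          have hz' : y ^ 2 / V < s * z := hz
          show 1 ≤ ENNReal.ofReal (Real.exp (-(y ^ 2 / V))) * ENNReal.ofReal (Real.exp (s * z))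
          rw [← ENNReal.ofReal_mul (Real.exp_pos _).le, ← Real.exp_add, ← ENNReal.ofReal_one]
          apply ENNReal.ofReal_le_ofReal
          apply Real.one_le_exp
          linarith
      _ ≤ ∫⁻ z, ENNReal.ofReal (Real.exp (-(y ^ 2 / V))) *
            ENNReal.ofReal (Real.exp (s * z)) ∂(gaussianReal 0 v) := by
          have := mul_meas_ge_le_lintegral hm (μ := gaussianReal 0 v) 1
          rwa [one_mul] at this
      _ ≤ ENNReal.ofReal (Real.exp (-(y ^ 2 / V))) *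
            ENNReal.ofReal (Real.exp (V * s ^ 2 / 2)) := by
          rw [lintegral_const_mul' _ _ ENNReal.ofReal_ne_top]
          exact mul_le_mul_right (hexp s) _
      _ = ENNReal.ofReal (Real.exp (-(y ^ 2 / (2 * V)))) := by
          rw [← ENNReal.ofReal_mul (Real.exp_pos _).le, ← Real.exp_add, hs2]
          congr 2
          field_simp
          ring
  have hsub : {z : ℝ | y < |z|} ⊆ {z | y ^ 2 / V < (y / V) * z} ∪ {z | y ^ 2 / V < -(y / V) * z} := by
    intro z hz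
    have hz' : y < |z| := hz
    have hyV : 0 < y / V := by positivity
    have e1 : y ^ 2 / V = y / V * y := by ring
    rcases lt_abs.mp hz' with h | h
    · left
      show y ^ 2 / V < (y / V) * z
      rw [e1]
      exact mul_lt_mul_of_pos_left h hyV
    · right
      show y ^ 2 / V < -(y / V) * z
      rw [e1, neg_mul, ← mul_neg]
      exact mul_lt_mul_of_pos_left h hyV
  calc gaussianReal 0 v {z | y < |z|} ≤ _ := measure_mono hsub
    _ ≤ _ := measure_union_le _ _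
    _ ≤ ENNReal.ofReal (Real.exp (-(y ^ 2 / (2 * V)))) +
        ENNReal.ofReal (Real.exp (-(y ^ 2 / (2 * V)))) :=
        add_le_add (hone _ (Or.inl rfl)) (hone _ (Or.inr rfl))
    _ = ENNReal.ofReal (2 * Real.exp (-(y ^ 2 / (2 * V)))) := by
        rw [← ENNReal.ofReal_add (Real.exp_pos _).le (Real.exp_pos _).le]
        congr 1
        ring

variable {ι : Type} [Fintype ι] [DecidableEq ι]
  {E : Type} [NormedAddCommGroup E] [InnerProductSpace ℝ E] [FiniteDimensional ℝ E]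

omit [FiniteDimensional ℝ E] in
lemma sum_self (hJON : SpecJON) (S : BStr ι E) (r : E) :
    ∑ a, ⟪r, S.J a r⟫ ^ 2 = ‖r‖ ^ 4 := by
  obtain ⟨h1, -⟩ := hJON ι E S
  have h2 : ∀ a, ⟪r, S.J a r⟫ = if S.o = a then ‖r‖ ^ 2 else 0 := by
    intro a
    have := h1 S.o a r
    rwa [S.J_o] at this
  simp_rw [h2]
  rw [Finset.sum_eq_single S.o]
  · simp only [if_true]
    ring
  · intro a _ ha
    rw [if_neg (fun h => ha h.symm)]
    norm_num
  · intro h
    exact absurd (Finset.mem_univ _) h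

omit [FiniteDimensional ℝ E] in
lemma sum_cross (S : BStr ι E) (r r' : E) :
    ⟪r, r'⟫ ^ 2 ≤ ∑ a, ⟪r, S.J a r'⟫ ^ 2 := by
  have h := Finset.single_le_sum (f := fun a => ⟪r, S.J a r'⟫ ^ 2) (s := Finset.univ)
    (fun a _ => sq_nonneg _) (Finset.mem_univ S.o)
  simp only [S.J_o] at h
  exact h

/-- the conditional tail of `Z` -/
lemma tail_Z (hGLF : SpecGLF) (hJON : SpecJON) (S : BStr ι E) (c : ℝ)
    (μ : Measure (Fin 2 → E →L[ℝ] E)) (hμ : GFam S (c2 c) μ) (hc0 : 0 ≤ c) (r0 r1 : E)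
    (h0 : ‖r0‖ ≤ 1) (h1 : ‖r1‖ ≤ 1) (V y : ℝ) (hV : 0 < V) (hy : 0 < y)
    (hvV : 4 - 4 * c * ⟪r0, r1⟫ ^ 2 ≤ V) :
    μ {G | y < |⟪r1, G 1 r1⟫ - ⟪r0, G 0 r0⟫|} ≤
      ENNReal.ofReal (2 * Real.exp (-(y ^ 2 / (2 * V)))) := by
  set x' : Fin 2 → E := fun i => if i = 0 then -r0 else r1 with hx'
  set y' : Fin 2 → E := fun i => if i = 0 then r0 else r1 with hy'
  set v := ∑ k, ∑ k', c2 c (id k) (id k') * ∑ a, (⟪x' k, S.J a (x' k')⟫ * ⟪y' k, S.J a (y' k')⟫ +
    ⟪x' k, S.J a (y' k')⟫ * ⟪y' k, S.J a (x' k')⟫) with hv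
  obtain ⟨hv0, hlaw⟩ := hGLF ι E (Fin 2) S (c2 c) μ hμ (Fin 2) id x' y' v hv
  have hvle : v ≤ V := by
    refine le_trans ?_ hvV
    have e1 : v = 2 * ∑ a, ⟪r0, S.J a r0⟫ ^ 2 + 2 * ∑ a, ⟪r1, S.J a r1⟫ ^ 2 -
        2 * c * ∑ a, ⟪r0, S.J a r1⟫ ^ 2 - 2 * c * ∑ a, ⟪r1, S.J a r0⟫ ^ 2 := by
      rw [hv]
      simp only [Fin.sum_univ_two, hx', hy', c2, id_eq, if_true, Fin.isValue, one_ne_zero,
        zero_ne_one, if_false, map_neg, inner_neg_left, inner_neg_right, Finset.mul_sum,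
        ← Finset.sum_add_distrib, ← Finset.sum_sub_distrib]
      refine Finset.sum_congr rfl fun a _ => ?_
      ring
    rw [e1, sum_self hJON, sum_self hJON]
    have h2 := sum_cross S r0 r1
    have h3 := sum_cross S r1 r0
    rw [real_inner_comm] at h3
    have h4 : ‖r0‖ ^ 4 ≤ 1 := pow_le_one₀ (norm_nonneg _) h0
    have h5 : ‖r1‖ ^ 4 ≤ 1 := pow_le_one₀ (norm_nonneg _) h1
    have h6 := mul_le_mul_of_nonneg_left h2 (show 0 ≤ 2 * c by positivity)
    have h7 := mul_le_mul_of_nonneg_left h3 (show 0 ≤ 2 * c by positivity)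
    linarith
  set Z : (Fin 2 → E →L[ℝ] E) → ℝ := fun G => ∑ k, ⟪x' k, G (id k) (y' k)⟫ with hZ
  have hZm : AEMeasurable Z μ := by
    have : NeZero (μ.map Z) := by
      rw [hlaw]
      exact ⟨IsProbabilityMeasure.ne_zero _⟩
    exact aemeasurable_of_map_neZero this
  have hZe : ∀ G : Fin 2 → E →L[ℝ] E, Z G = ⟪r1, G 1 r1⟫ - ⟪r0, G 0 r0⟫ := by
    intro G
    simp only [hZ, Fin.sum_univ_two, hx', hy', id_eq, if_true, Fin.isValue, one_ne_zero,
      if_false, inner_neg_left]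
    ring
  have hset : MeasurableSet {z : ℝ | y < |z|} := measurableSet_lt measurable_const (by fun_prop)
  calc μ {G | y < |⟪r1, G 1 r1⟫ - ⟪r0, G 0 r0⟫|} = μ (Z ⁻¹' {z | y < |z|}) := by
        congr 1
        ext G
        show y < |⟪r1, G 1 r1⟫ - ⟪r0, G 0 r0⟫| ↔ y < |Z G|
        rw [hZe]
    _ = (μ.map Z) {z | y < |z|} := (Measure.map_apply_of_aemeasurable hZm hset).symm
    _ ≤ _ := by
        rw [hlaw]
        exact gauss_tail _ V y hV (by rw [Real.coe_toNNReal v hv0]; exact hvle) hy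

end LDAM

open LDAM in
theorem specLDA (hLDV : SpecLDV) (hETA : SpecETA) (hRPE : SpecRPE) (hGLF : SpecGLF)
    (hJON : SpecJON) (hSTP : SpecSTP) (hSTK : SpecSTK) (hMEA : SpecMEA) (hMEB : SpecMEB) :
    SpecLDA := by
  intro ι _ _
  obtain ⟨C₁, hC₁, hldv⟩ := hLDV ι
  obtain ⟨C₂, hC₂, heta⟩ := hETA ι
  refine ⟨320 * C₁ + 38 + C₂, by positivity, ?_⟩
  intro E _ _ _ S u τ μ hτ hμ hu k ε x hCk hkτ hε hε1 hx
  set C := 320 * C₁ + 38 + C₂ with hC
  have := hμ.gauss
  let _ : MeasurableSpace E := borel E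
  have _ : BorelSpace E := ⟨rfl⟩
  have hk0 : (0 : ℝ) ≤ k := Nat.cast_nonneg _
  have hk1 : (0 : ℝ) < (k : ℝ) + 1 := by positivity
  have hkk : (k : ℝ) + 1 ≤ ((k : ℝ) + 1) ^ 2 := by nlinarith
  have hC0 : 0 < C := by positivity
  have hεD : 0 < ε * dm E := lt_of_lt_of_le (by positivity) hCk
  have hD : 0 < dm E := (mul_pos_iff_of_pos_left hε).mp hεD
  have hεD1 : ε * dm E ≤ dm E := mul_le_of_le_one_left hD.le hε1
  set c := Real.exp (-τ) with hc
  have hc0 : 0 < c := Real.exp_pos _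
  have hc1 : c ≤ 1 := by rw [hc]; exact Real.exp_le_one_iff.mpr (by linarith)
  have hcτ : 1 - c ≤ τ := by
    have := Real.add_one_le_exp (-τ)
    rw [hc]; linarith
  set q := ε + ((k : ℝ) + 1) * τ with hq
  have hq0 : 0 < q := by positivity
  set w := C₁ * q with hw
  have hw0 : 0 < w := by positivity
  set r : Fin 2 → (Fin 2 → E →L[ℝ] E) → E := fun i M => rr S u M k i with hr
  set η : Fin 2 → (Fin 2 → E →L[ℝ] E) → ℝ := fun i M =>
    av (M i) u k - ⟪rr S u M k i, M i (rr S u M k i)⟫ with hη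
  set Z : (Fin 2 → E →L[ℝ] E) → ℝ := fun M =>
    ⟪rr S u M k 1, M 1 (rr S u M k 1)⟫ - ⟪rr S u M k 0, M 0 (rr S u M k 0)⟫ with hZ
  have hcor : Cor (c2 c) :=
    ⟨fun i l => by unfold c2; simp only [eq_comm], fun i => by simp [c2], fun i l => by
      unfold c2
      split_ifs
      · simp
      · rw [abs_of_pos hc0]; exact hc1⟩
  -- measurability
  have hmr : ∀ i, Measurable (r i) := fun i => (hMEB ι E (Fin 2) S u k i).2.1
  have hmMr : ∀ i : Fin 2, Measurable fun M : Fin 2 → E →L[ℝ] E => M i (rr S u M k i) :=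
    fun i => (hMEB ι E (Fin 2) S u k i).2.2.2.2.2.2.1
  have hma : ∀ i : Fin 2, Measurable fun M : Fin 2 → E →L[ℝ] E => av (M i) u k :=
    (hMEA ι E (Fin 2) S u k).2.2.1
  have hmin : ∀ i : Fin 2, Measurable fun M : Fin 2 → E →L[ℝ] E =>
      ⟪rr S u M k i, M i (rr S u M k i)⟫ := fun i => (hmr i).inner (hmMr i)
  have hmη : ∀ i, Measurable (η i) := fun i => (hma i).sub (hmin i)
  have hmZ : Measurable Z := (hmin 1).sub (hmin 0)
  have hmip : Measurable fun M : Fin 2 → E →L[ℝ] E => ⟪rr S u M k 0, rr S u M k 1⟫ :=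
    (hmr 0).inner (hmr 1)
  -- the bad event
  have hB := hldv E S u τ μ hτ hμ hu k ε (by
    refine le_trans ?_ hCk
    apply mul_le_mul_of_nonneg_right _ (sq_nonneg _)
    rw [hC]; linarith) hkτ hε hε1
  rw [← hq, ← hw] at hB
  -- the parts η
  have hηb : ∀ i : Fin 2, μ {M | 1 - ⟪rr S u M k 0, rr S u M k 1⟫ ≤ w ∧ x / 4 < |η i M|} ≤
      ENNReal.ofReal (2 * Real.exp (-(x ^ 2 / (256 * w)))) := by
    intro i
    have hone : ∀ s : ℝ, s ^ 2 = (x / (32 * w)) ^ 2 →
        μ {M | 1 - ⟪rr S u M k 0, rr S u M k 1⟫ ≤ w ∧ x / (32 * w) * (x / 4) < s * η i M} ≤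
        ENNReal.ofReal (Real.exp (-(x ^ 2 / (256 * w)))) := by
      intro s hs
      have h1 := heta E (Fin 2) S u (c2 c) μ hμ hcor hu i k s (by
        refine le_trans ?_ (hCk.trans hεD1)
        calc C₂ * ((k : ℝ) + 1) ≤ C * ((k : ℝ) + 1) := by
              apply mul_le_mul_of_nonneg_right _ hk1.le
              rw [hC]; linarith
          _ ≤ C * ((k : ℝ) + 1) ^ 2 := mul_le_mul_of_nonneg_left hkk hC0.le)
      set f : (Fin 2 → E →L[ℝ] E) → ℝ≥0∞ := fun M =>
        ENNReal.ofReal (Real.exp (x ^ 2 / (256 * w))) * ENNReal.ofReal (Real.exp (s * η i M -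
          s ^ 2 * (1 - ‖rr S u M k i‖ ^ 4))) with hf
      have hfm : Measurable f := by
        refine Measurable.const_mul ?_ _
        exact ((((hmη i).const_mul s).sub
          ((((hmr i).norm.pow_const 4).const_sub 1).const_mul _)).exp).ennreal_ofReal
      have hkey : ∫⁻ M, f M ∂μ ≤ ENNReal.ofReal (Real.exp (x ^ 2 / (256 * w))) := by
        simp only [hf]
        rw [lintegral_const_mul' _ _ ENNReal.ofReal_ne_top]
        calc _ ≤ ENNReal.ofReal (Real.exp (x ^ 2 / (256 * w))) * 1 := mul_le_mul_right h1 _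
          _ = _ := mul_one _
      set f' : (Fin 2 → E →L[ℝ] E) → ℝ≥0∞ := fun M =>
        ENNReal.ofReal (Real.exp (-(x ^ 2 / (128 * w)))) * f M with hf'
      have hfm' : Measurable f' := hfm.const_mul _
      calc μ {M | 1 - ⟪rr S u M k 0, rr S u M k 1⟫ ≤ w ∧ x / (32 * w) * (x / 4) < s * η i M}
          ≤ μ {M | 1 ≤ f' M} := by
            refine measure_mono_ae ?_
            filter_upwards [hμ.herm] with M hM hMs
            obtain ⟨hM1, hM2⟩ := hMs
            have hn : ∀ i, ‖rr S u M k i‖ ≤ 1 := fun i =>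
              (hSTP ι E (Fin 2) S u M hM hu k i).2.2.2.2.2.2.2.1
            have hip := real_inner_le_norm (rr S u M k 0) (rr S u M k 1)
            have hni : 1 - ‖rr S u M k i‖ ≤ w := by
              have h2 : ⟪rr S u M k 0, rr S u M k 1⟫ ≤ ‖rr S u M k i‖ := by
                refine hip.trans ?_
                fin_cases i
                · exact mul_le_of_le_one_right (norm_nonneg _) (hn 1)
                · exact mul_le_of_le_one_left (norm_nonneg _) (hn 0)
              linarith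
            have h4 : 1 - ‖rr S u M k i‖ ^ 4 ≤ 4 * w := by
              have hn1 := hn i
              have hn0 := norm_nonneg (rr S u M k i)
              have e1 : 1 - ‖rr S u M k i‖ ^ 4 = (1 - ‖rr S u M k i‖) *
                ((1 + ‖rr S u M k i‖) * (1 + ‖rr S u M k i‖ ^ 2)) := by ring
              rw [e1]
              have h5 : (1 + ‖rr S u M k i‖) * (1 + ‖rr S u M k i‖ ^ 2) ≤ 4 := by
                have : ‖rr S u M k i‖ ^ 2 ≤ 1 := pow_le_one₀ hn0 hn1
                nlinarith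
              have h6 : 0 ≤ 1 - ‖rr S u M k i‖ := by linarith
              nlinarith
            show 1 ≤ f' M
            simp only [hf', hf]
            rw [← ENNReal.ofReal_mul (Real.exp_pos _).le, ← ENNReal.ofReal_mul (Real.exp_pos _).le,
              ← Real.exp_add, ← Real.exp_add, ← ENNReal.ofReal_one]
            apply ENNReal.ofReal_le_ofReal
            apply Real.one_le_exp
            have h7 : s ^ 2 * (1 - ‖rr S u M k i‖ ^ 4) ≤ x ^ 2 / (256 * w) := by
              calc s ^ 2 * (1 - ‖rr S u M k i‖ ^ 4) ≤ s ^ 2 * (4 * w) :=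
                    mul_le_mul_of_nonneg_left h4 (sq_nonneg s)
                _ = x ^ 2 / (256 * w) := by rw [hs]; field_simp; norm_num
            have h8 : x / (32 * w) * (x / 4) = x ^ 2 / (128 * w) := by field_simp; norm_num
            rw [h8] at hM2
            linarith
        _ ≤ ∫⁻ M, f' M ∂μ := by
            have := mul_meas_ge_le_lintegral hfm' (μ := μ) 1
            rwa [one_mul] at this
        _ ≤ ENNReal.ofReal (Real.exp (-(x ^ 2 / (128 * w)))) *
              ENNReal.ofReal (Real.exp (x ^ 2 / (256 * w))) := by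
            simp only [hf']
            rw [lintegral_const_mul' _ _ ENNReal.ofReal_ne_top]
            exact mul_le_mul_right hkey _
        _ = ENNReal.ofReal (Real.exp (-(x ^ 2 / (256 * w)))) := by
            rw [← ENNReal.ofReal_mul (Real.exp_pos _).le, ← Real.exp_add]
            congr 2
            field_simp
            ring
    have hsub : {M | 1 - ⟪rr S u M k 0, rr S u M k 1⟫ ≤ w ∧ x / 4 < |η i M|} ⊆
        {M | 1 - ⟪rr S u M k 0, rr S u M k 1⟫ ≤ w ∧
          x / (32 * w) * (x / 4) < (x / (32 * w)) * η i M} ∪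
        {M | 1 - ⟪rr S u M k 0, rr S u M k 1⟫ ≤ w ∧
          x / (32 * w) * (x / 4) < -(x / (32 * w)) * η i M} := by
      rintro M ⟨h1, h2⟩
      have hp : 0 < x / (32 * w) := by positivity
      rcases lt_abs.mp h2 with h | h
      · exact Or.inl ⟨h1, mul_lt_mul_of_pos_left h hp⟩
      · refine Or.inr ⟨h1, ?_⟩
        rw [neg_mul, ← mul_neg]
        exact mul_lt_mul_of_pos_left h hp
    calc _ ≤ _ := measure_mono hsub
      _ ≤ _ := measure_union_le _ _
      _ ≤ ENNReal.ofReal (Real.exp (-(x ^ 2 / (256 * w)))) +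
          ENNReal.ofReal (Real.exp (-(x ^ 2 / (256 * w)))) :=
          add_le_add (hone _ rfl) (hone _ (by ring))
      _ = _ := by
        rw [← ENNReal.ofReal_add (Real.exp_pos _).le (Real.exp_pos _).le]
        congr 1
        ring
  -- the part Z
  set V := (4 / C₁ + 8) * w with hV
  have hV0 : 0 < V := by positivity
  have hZb : μ {M | 1 - ⟪rr S u M k 0, rr S u M k 1⟫ ≤ w ∧ x / 2 < |Z M|} ≤
      ENNReal.ofReal (2 * Real.exp (-((x / 2) ^ 2 / (2 * V)))) := by
    classical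
    set A : Set (Fin 2 → E →L[ℝ] E) :=
      {M | 1 - ⟪rr S u M k 0, rr S u M k 1⟫ ≤ w ∧ x / 2 < |Z M|} with hA
    have hAm : MeasurableSet A :=
      (measurableSet_le (hmip.const_sub 1) measurable_const).inter
        (measurableSet_lt measurable_const hmZ.abs)
    have h1 := hRPE ι E (Fin 2) S (c2 c) μ u hμ k (A.indicator fun _ => 1)
      (measurable_const.indicator hAm)
    have h2 : ∫⁻ M, A.indicator (fun _ => (1 : ℝ≥0∞)) M ∂μ = μ A := by
      rw [lintegral_indicator hAm, lintegral_const, one_mul, Measure.restrict_apply_univ]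
    rw [← h2, h1]
    calc ∫⁻ M, ∫⁻ G, A.indicator (fun _ => (1 : ℝ≥0∞)) (res (expl S u M k) M G) ∂μ ∂μ
        ≤ ∫⁻ _M, ENNReal.ofReal (2 * Real.exp (-((x / 2) ^ 2 / (2 * V)))) ∂μ := by
          refine lintegral_mono_ae ?_
          filter_upwards [hμ.herm] with M hM
          have hstp := fun i => hSTP ι E (Fin 2) S u M hM hu k i
          have hn : ∀ i, ‖rr S u M k i‖ ≤ 1 := fun i => (hstp i).2.2.2.2.2.2.2.1
          have hex0 : ∀ i, expl S u M k (rr S u M k i) = 0 := fun i => (hstp i).2.2.2.2.1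
          have hMG : ∀ᵐ G ∂μ, (1 - ⟪rr S u (res (expl S u M k) M G) k 0,
              rr S u (res (expl S u M k) M G) k 1⟫ = 1 - ⟪rr S u M k 0, rr S u M k 1⟫) ∧
              Z (res (expl S u M k) M G) =
                ⟪rr S u M k 1, G 1 (rr S u M k 1)⟫ - ⟪rr S u M k 0, G 0 (rr S u M k 0)⟫ := by
            filter_upwards [hμ.herm] with G hG
            have hre : ∀ i, rr S u (res (expl S u M k) M G) k i = rr S u M k i := fun i =>
              (hSTK ι E (Fin 2) S u hu k i).2.2.2.2.1 M G hM hG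
            have hin : ∀ i, ⟪rr S u M k i, res (expl S u M k) M G i (rr S u M k i)⟫ =
                ⟪rr S u M k i, G i (rr S u M k i)⟫ := fun i =>
              ((hSTK ι E (Fin 2) S u hu k i).2.2.2.2.2.2.2.2.2.2.2 M G hM hG _ (hex0 i)).2.1
            refine ⟨by rw [hre, hre], ?_⟩
            simp only [hZ]
            rw [hre, hre, hin, hin]
          by_cases hg : 1 - ⟪rr S u M k 0, rr S u M k 1⟫ ≤ w
          · have hvV : 4 - 4 * c * ⟪rr S u M k 0, rr S u M k 1⟫ ^ 2 ≤ V := by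
              set p := ⟪rr S u M k 0, rr S u M k 1⟫ with hp
              have hC1q : 4 / C₁ * w = 4 * q := by rw [hw]; field_simp
              have hVe : V = 4 * q + 8 * w := by rw [hV, add_mul, hC1q]
              have hqτ : τ ≤ q := by
                rw [hq]
                nlinarith
              rw [hVe]
              rcases le_or_gt w 1 with hw1 | hw1
              · have hp1 : 1 - w ≤ p := by linarith
                have hp2 : 1 - 2 * w ≤ p ^ 2 := by nlinarith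
                have h5 : c * (1 - 2 * w) ≤ c * p ^ 2 := mul_le_mul_of_nonneg_left hp2 hc0.le
                nlinarith
              · have h5 : 0 ≤ c * p ^ 2 := by positivity
                linarith
            have htail := tail_Z hGLF hJON S c μ hμ hc0.le (rr S u M k 0) (rr S u M k 1)
              (hn 0) (hn 1) V (x / 2) hV0 (by positivity) hvV
            refine le_trans ?_ htail
            have hmG : MeasurableSet {G : Fin 2 → E →L[ℝ] E | x / 2 <
                |⟪rr S u M k 1, G 1 (rr S u M k 1)⟫ - ⟪rr S u M k 0, G 0 (rr S u M k 0)⟫|} := by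
              refine measurableSet_lt measurable_const ?_
              have hcont : Continuous fun G : Fin 2 → E →L[ℝ] E =>
                |⟪rr S u M k 1, G 1 (rr S u M k 1)⟫ - ⟪rr S u M k 0, G 0 (rr S u M k 0)⟫| := by
                fun_prop
              exact hcont.measurable
            rw [← lintegral_indicator_one hmG]
            refine lintegral_mono_ae ?_
            filter_upwards [hMG] with G hG
            by_cases hGA : res (expl S u M k) M G ∈ A
            · rw [Set.indicator_of_mem hGA, Set.indicator_of_mem]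
              · simp
              · show x / 2 < _
                rw [← hG.2]
                exact hGA.2
            · rw [Set.indicator_of_notMem hGA]
              exact zero_le
          · have h0 : ∀ᵐ G ∂μ, A.indicator (fun _ => (1 : ℝ≥0∞))
                (res (expl S u M k) M G) = 0 := by
              filter_upwards [hMG] with G hG
              rw [Set.indicator_of_notMem]
              intro hGA
              apply hg
              rw [← hG.1]
              exact hGA.1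
            rw [lintegral_congr_ae h0, lintegral_zero]
            exact zero_le
      _ = _ := by rw [lintegral_const, measure_univ, mul_one]
  -- assembly
  have hsub : {M : Fin 2 → E →L[ℝ] E | x < |av (M 1) u k - av (M 0) u k|} ⊆
      {M | w < 1 - ⟪rr S u M k 0, rr S u M k 1⟫} ∪
      (({M | 1 - ⟪rr S u M k 0, rr S u M k 1⟫ ≤ w ∧ x / 4 < |η 0 M|} ∪
        {M | 1 - ⟪rr S u M k 0, rr S u M k 1⟫ ≤ w ∧ x / 4 < |η 1 M|}) ∪
      {M | 1 - ⟪rr S u M k 0, rr S u M k 1⟫ ≤ w ∧ x / 2 < |Z M|}) := by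
    intro M hM
    have hM' : x < |av (M 1) u k - av (M 0) u k| := hM
    by_cases hg : 1 - ⟪rr S u M k 0, rr S u M k 1⟫ ≤ w
    · right
      by_contra hcon
      simp only [Set.mem_union, not_or] at hcon
      obtain ⟨⟨n0, n1⟩, n2⟩ := hcon
      have m0 : |η 0 M| ≤ x / 4 := not_lt.mp fun h => n0 ⟨hg, h⟩
      have m1 : |η 1 M| ≤ x / 4 := not_lt.mp fun h => n1 ⟨hg, h⟩
      have m2 : |Z M| ≤ x / 2 := not_lt.mp fun h => n2 ⟨hg, h⟩
      have e1 : av (M 1) u k - av (M 0) u k = Z M + η 1 M - η 0 M := by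
        simp only [hZ, hη]; ring
      rw [e1] at hM'
      obtain ⟨a1, a2⟩ := abs_le.mp m0
      obtain ⟨b1, b2⟩ := abs_le.mp m1
      obtain ⟨c1, c2⟩ := abs_le.mp m2
      have : |Z M + η 1 M - η 0 M| ≤ x := by
        rw [abs_le]; constructor <;> linarith
      linarith
    · left
      exact not_le.mp hg
  have hCq : 0 < C * q := by positivity
  have hE1 : Real.exp (-(x ^ 2 / (256 * w))) ≤ Real.exp (-(x ^ 2 / (C * q))) := by
    apply Real.exp_le_exp.mpr
    apply neg_le_neg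
    apply div_le_div_of_nonneg_left (by positivity) (by positivity)
    rw [hw, ← mul_assoc]
    apply mul_le_mul_of_nonneg_right _ hq0.le
    rw [hC]; linarith
  have hE2 : Real.exp (-((x / 2) ^ 2 / (2 * V))) ≤ Real.exp (-(x ^ 2 / (C * q))) := by
    apply Real.exp_le_exp.mpr
    apply neg_le_neg
    have e1 : (x / 2) ^ 2 / (2 * V) = x ^ 2 / (8 * V) := by
      field_simp
      norm_num
    rw [e1]
    apply div_le_div_of_nonneg_left (by positivity) (by positivity)
    have e2 : 8 * V = (32 + 64 * C₁) * q := by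
      rw [hV, hw]; field_simp; ring
    rw [e2]
    apply mul_le_mul_of_nonneg_right _ hq0.le
    rw [hC]; linarith
  have hE3 : C₁ * ((k : ℝ) + 1) * Real.exp (-(ε ^ 2 * dm E / (C₁ * ((k : ℝ) + 1)))) ≤
      C * ((k : ℝ) + 1) * Real.exp (-(ε ^ 2 * dm E / (C * ((k : ℝ) + 1)))) := by
    have hCC : C₁ ≤ C := by rw [hC]; linarith
    apply mul_le_mul _ _ (Real.exp_pos _).le (by positivity)
    · exact mul_le_mul_of_nonneg_right hCC hk1.le
    · apply Real.exp_le_exp.mpr
      apply neg_le_neg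
      apply div_le_div_of_nonneg_left (by positivity) (by positivity)
      exact mul_le_mul_of_nonneg_right hCC hk1.le
  set e1 := Real.exp (-(x ^ 2 / (256 * w)))
  set e2 := Real.exp (-((x / 2) ^ 2 / (2 * V)))
  set e3 := Real.exp (-(x ^ 2 / (C * q)))
  have he1 : 0 < e1 := Real.exp_pos _
  have he2 : 0 < e2 := Real.exp_pos _
  have he3 : 0 < e3 := Real.exp_pos _
  set b1 := C₁ * ((k : ℝ) + 1) * Real.exp (-(ε ^ 2 * dm E / (C₁ * ((k : ℝ) + 1))))
  have hb1 : 0 ≤ b1 := by positivity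
  calc μ {M | x < |av (M 1) u k - av (M 0) u k|} ≤ _ := measure_mono hsub
    _ ≤ _ := measure_union_le _ _
    _ ≤ ENNReal.ofReal b1 + ((ENNReal.ofReal (2 * e1) + ENNReal.ofReal (2 * e1)) +
        ENNReal.ofReal (2 * e2)) := by
        refine add_le_add hB ((measure_union_le _ _).trans (add_le_add
          ((measure_union_le _ _).trans (add_le_add (hηb 0) (hηb 1))) hZb))
    _ = ENNReal.ofReal (b1 + ((2 * e1 + 2 * e1) + 2 * e2)) := by
        rw [← ENNReal.ofReal_add (by positivity) (by positivity),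
          ← ENNReal.ofReal_add (by positivity) (by positivity),
          ← ENNReal.ofReal_add hb1 (by positivity)]
    _ ≤ _ := by
        apply ENNReal.ofReal_le_ofReal
        have h6 : 6 * e3 ≤ C * e3 := by
          apply mul_le_mul_of_nonneg_right _ he3.le
          rw [hC]; linarith
        linarith

end Pool.Agent.Lib.MP17fa2c
end

section
/-!
# MP_17fa2c_pr, module LDB: large deviations of the increments of `bn`
-/
set_option autoImplicit false

open MeasureTheory ProbabilityTheory Filter Topology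
open scoped RealInnerProductSpace NNReal ENNReal

namespace Pool.Agent.Lib.MP17fa2c

namespace LDBM

theorem cor_c2 (τ : ℝ) (h : 0 ≤ τ) : Cor (c2 (Real.exp (-τ))) := by
  refine ⟨fun i l => ?_, fun i => by simp [c2], fun i l => ?_⟩
  · unfold c2
    by_cases h1 : i = l
    · rw [if_pos h1, if_pos h1.symm]
    · rw [if_neg h1, if_neg (Ne.symm h1)]
  · unfold c2
    split_ifs
    · simp
    · rw [abs_of_pos (Real.exp_pos _)]
      exact Real.exp_le_one_iff.2 (by linarith)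

/-- exponential Markov inequality -/
theorem chernoff {Ω : Type*} [MeasurableSpace Ω] (μ : Measure Ω) (f : Ω → ℝ) (hf : Measurable f)
    (t B : ℝ) (h : ∫⁻ ω, ENNReal.ofReal (Real.exp (f ω)) ∂μ ≤ ENNReal.ofReal (Real.exp B)) :
    μ {ω | t < f ω} ≤ ENNReal.ofReal (Real.exp (B - t)) := by
  have hm : Measurable fun ω => ENNReal.ofReal (Real.exp (f ω)) := by fun_prop
  have hsub : {ω | t < f ω} ⊆ {ω | ENNReal.ofReal (Real.exp t) ≤
      ENNReal.ofReal (Real.exp (f ω))} := by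
    intro ω hω
    exact ENNReal.ofReal_le_ofReal (Real.exp_le_exp.mpr (le_of_lt hω))
  have hmk := mul_meas_ge_le_lintegral (μ := μ) hm (ENNReal.ofReal (Real.exp t))
  have h3 : ENNReal.ofReal (Real.exp t) * μ {ω | t < f ω} ≤ ENNReal.ofReal (Real.exp B) :=
    (mul_le_mul_right (measure_mono hsub) _).trans (hmk.trans h)
  have h4 : μ {ω | t < f ω} = ENNReal.ofReal (Real.exp (-t)) *
      (ENNReal.ofReal (Real.exp t) * μ {ω | t < f ω}) := by
    rw [← mul_assoc, ← ENNReal.ofReal_mul (Real.exp_pos _).le, ← Real.exp_add]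
    simp
  rw [h4]
  refine (mul_le_mul_right h3 _).trans_eq ?_
  rw [← ENNReal.ofReal_mul (Real.exp_pos _).le, ← Real.exp_add]
  congr 2
  ring

variable {ι : Type} [Fintype ι] [DecidableEq ι] {E : Type} [NormedAddCommGroup E]
  [InnerProductSpace ℝ E]

/-- the squares of the inner products -/
theorem self_sum (S : BStr ι E) {r : E} (hr : ‖r‖ ≤ 1) : ∑ a, ⟪r, S.J a r⟫ ^ 2 ≤ 1 := by
  have hself : ∀ a, ⟪r, S.J a r⟫ = if a = S.o then ‖r‖ ^ 2 else 0 := by
    intro a
    split_ifs with ha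
    · rw [ha, S.J_o, real_inner_self_eq_norm_sq]
    · have h1 := S.skew a ha r r
      rw [real_inner_comm] at h1
      linarith
  simp only [hself]
  rw [Finset.sum_eq_single S.o]
  · rw [if_pos rfl, ← pow_mul]
    exact pow_le_one₀ (norm_nonneg _) hr
  · intro a _ ha
    simp [ha]
  · intro h
    exact absurd (Finset.mem_univ _) h

theorem cross_sum (S : BStr ι E) (r s : E) : ⟪r, s⟫ ^ 2 ≤ ∑ a, ⟪r, S.J a s⟫ ^ 2 := by
  have h := Finset.single_le_sum (f := fun a => ⟪r, S.J a s⟫ ^ 2)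
    (fun a _ => sq_nonneg _) (Finset.mem_univ S.o)
  simp only [S.J_o] at h
  exact h

/-- bound for the variance -/
theorem V_le (S : BStr ι E) (r : Fin 2 → E) (hr : ∀ i, ‖r i‖ ≤ 1) (τ w a t D : ℝ) (hτ : 0 ≤ τ)
    (hw : w ≤ 1) (hy : 1 - w ≤ ⟪r 0, r 1⟫) (ht0 : 0 ≤ t) (htD : t ≤ D)
    (m : Fin 2 → ℝ) (h0 : m 0 = -a) (h1 : m 1 = a) :
    t * ∑ i, ∑ l, m i * m l * c2 (Real.exp (-τ)) i l ^ 2 * ∑ b, ⟪r i, S.J b (r l)⟫ ^ 2 ≤
      D * (a ^ 2 * (4 * (w + τ))) := by
  set e := Real.exp (-τ) with he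
  have a00 := self_sum S (hr 0)
  have a11 := self_sum S (hr 1)
  have a01 := cross_sum S (r 0) (r 1)
  have a10 := cross_sum S (r 1) (r 0)
  have hU : ∑ i, ∑ l, m i * m l * c2 e i l ^ 2 * ∑ b, ⟪r i, S.J b (r l)⟫ ^ 2 =
      a ^ 2 * ((∑ b, ⟪r 0, S.J b (r 0)⟫ ^ 2) + (∑ b, ⟪r 1, S.J b (r 1)⟫ ^ 2) -
      e ^ 2 * ((∑ b, ⟪r 0, S.J b (r 1)⟫ ^ 2) + ∑ b, ⟪r 1, S.J b (r 0)⟫ ^ 2)) := by
    simp only [Fin.sum_univ_two, c2, if_true, one_pow, Fin.isValue, one_ne_zero, if_false,
      zero_ne_one, h0, h1]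
    ring
  rw [hU]
  rw [real_inner_comm (r 0) (r 1)] at a10
  generalize (∑ b, ⟪r 0, S.J b (r 0)⟫ ^ 2) = A00 at *
  generalize (∑ b, ⟪r 0, S.J b (r 1)⟫ ^ 2) = A01 at *
  generalize (∑ b, ⟪r 1, S.J b (r 0)⟫ ^ 2) = A10 at *
  generalize (∑ b, ⟪r 1, S.J b (r 1)⟫ ^ 2) = A11 at *
  have hyl : ⟪r 0, r 1⟫ ≤ 1 := by
    refine (le_abs_self _).trans ((abs_real_inner_le_norm _ _).trans ?_)
    exact mul_le_one₀ (hr 0) (norm_nonneg _) (hr 1)
  set y : ℝ := ⟪r 0, r 1⟫ with hyd
  have hw0 : 0 ≤ w := by linarith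
  have he2 : 1 - 2 * τ ≤ e ^ 2 := by
    rw [he, ← Real.exp_nat_mul]
    have := Real.one_sub_le_exp_neg (2 * τ)
    have e1 : ((2 : ℕ) : ℝ) * -τ = -(2 * τ) := by push_cast; ring
    rw [e1]
    exact this
  have hy2 : 1 - 2 * w ≤ y ^ 2 := by nlinarith
  have hy3 : y ^ 2 ≤ 1 := by nlinarith
  have he0 : 0 ≤ e ^ 2 := by positivity
  have h5 : 1 - 2 * w - 2 * τ ≤ e ^ 2 * y ^ 2 := by
    have h6 : (1 - 2 * τ) * y ^ 2 ≤ e ^ 2 * y ^ 2 :=
      mul_le_mul_of_nonneg_right he2 (sq_nonneg _)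
    nlinarith
  have h7 : e ^ 2 * (2 * y ^ 2) ≤ e ^ 2 * (A01 + A10) :=
    mul_le_mul_of_nonneg_left (by linarith) he0
  have h8 : A00 + A11 - e ^ 2 * (A01 + A10) ≤ 4 * (w + τ) := by linarith
  have h9 : a ^ 2 * (A00 + A11 - e ^ 2 * (A01 + A10)) ≤ a ^ 2 * (4 * (w + τ)) :=
    mul_le_mul_of_nonneg_left h8 (sq_nonneg _)
  have h10 : 0 ≤ a ^ 2 * (4 * (w + τ)) := by positivity
  exact (mul_le_mul_of_nonneg_left h9 ht0).trans (mul_le_mul_of_nonneg_right htD h10)

variable [FiniteDimensional ℝ E]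

/-- resampling of an event -/
theorem rpe_le {T : Type} [Fintype T] (hRPE : SpecRPE) {S : BStr ι E} {c : T → T → ℝ}
    {ν : Measure (T → E →L[ℝ] E)} (hG : GFam S c ν) (u : E) (j : ℕ)
    (A : Set (T → E →L[ℝ] E)) (hA : MeasurableSet A) (b : ℝ≥0∞)
    (h : ∀ M, HermF S M → ∃ A' : Set (T → E →L[ℝ] E),
      (∀ G, HermF S G → res (expl S u M j) M G ∈ A → G ∈ A') ∧ ν A' ≤ b) : ν A ≤ b := by
  have := hG.gauss
  have h1 : ν A = ∫⁻ M, ∫⁻ G, A.indicator 1 (res (expl S u M j) M G) ∂ν ∂ν := by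
    rw [← hRPE ι E T S c ν u hG j (A.indicator 1) (measurable_one.indicator hA),
      lintegral_indicator_one hA]
  rw [h1]
  calc ∫⁻ M, ∫⁻ G, A.indicator 1 (res (expl S u M j) M G) ∂ν ∂ν ≤ ∫⁻ _M, b ∂ν := by
        refine lintegral_mono_ae (hG.herm.mono fun M hM => ?_)
        obtain ⟨A', hA', hb⟩ := h M hM
        refine le_trans ?_ hb
        refine le_trans ?_ (lintegral_indicator_one_le A')
        refine lintegral_mono_ae (hG.herm.mono fun G hGh => ?_)
        by_cases hx : res (expl S u M j) M G ∈ A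
        · rw [Set.indicator_of_mem hx, Set.indicator_of_mem (hA' G hGh hx)]
          exact le_of_eq rfl
        · rw [Set.indicator_of_notMem hx]
          exact bot_le
    _ = b := by simp

/-- one-sided tail -/
theorem one_sided {S : BStr ι E} {τ : ℝ} {ν : Measure (Fin 2 → E →L[ℝ] E)} {CQ : ℝ}
    (hCQ : 0 < CQ) (hτ : 0 ≤ τ) (hTRA : SpecTRA)
    (hQUE : ∀ (Q : E →L[ℝ] E) (r : Fin 2 → E) (m : Fin 2 → ℝ) (κ V : ℝ), IsPr S Q →
      (∀ i, Q (r i) = 0) → (∀ i, ‖r i‖ ≤ 1) → (∀ i, |m i| ≤ κ) → CQ * κ ≤ 1 →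
      V = tr Q * ∑ i, ∑ l, m i * m l * c2 (Real.exp (-τ)) i l ^ 2 *
        ∑ a, ⟪r i, S.J a (r l)⟫ ^ 2 →
      ∫⁻ G, ENNReal.ofReal (Real.exp (∑ i, m i * (‖Q (G i (r i))‖ ^ 2 -
        tr Q * ‖r i‖ ^ 2))) ∂ν ≤ ENNReal.ofReal (Real.exp (2 * V)))
    (Q : E →L[ℝ] E) (hQ : IsPr S Q) (r : Fin 2 → E) (hQr : ∀ i, Q (r i) = 0)
    (hr : ∀ i, ‖r i‖ ≤ 1) (N x K W w s : ℝ) (hN : 0 < N) (hx : 0 < x) (hx1 : x ≤ 1) (hK : CQ ≤ K)
    (hW : 0 < W) (hWD : 1 ≤ W * Real.sqrt (dm E)) (hND : dm E ≤ 2 * N)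
    (hw : w ≤ 1) (hy : 1 - w ≤ ⟪r 0, r 1⟫) (hwK : 8 * (w + τ) ≤ K * W)
    (hs : s = 1 ∨ s = -1) :
    ν {G | x * Real.sqrt N / 2 < s * ((‖Q (G 1 (r 1))‖ ^ 2 - tr Q * ‖r 1‖ ^ 2) -
      (‖Q (G 0 (r 0))‖ ^ 2 - tr Q * ‖r 0‖ ^ 2))} ≤
      ENNReal.ofReal (Real.exp (-(x ^ 2 / (32 * K * W)))) := by
  have hK0 : 0 < K := lt_of_lt_of_le hCQ hK
  have hD0 : 0 ≤ dm E := Nat.cast_nonneg _
  have hsN : 0 < Real.sqrt N := Real.sqrt_pos.2 hN
  have hs2 : s ^ 2 = 1 := by rcases hs with h | h <;> rw [h] <;> norm_num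
  have hsa : |s| = 1 := by rcases hs with h | h <;> rw [h] <;> norm_num
  set θ : ℝ := x / (8 * K * W) with hθ
  have hθ0 : 0 < θ := by rw [hθ]; positivity
  set a : ℝ := s * (θ / Real.sqrt N) with ha
  set m : Fin 2 → ℝ := fun i => if i = 0 then -a else a with hm
  have hm0 : m 0 = -a := by simp [hm]
  have hm1 : m 1 = a := by simp [hm]
  have haa : |a| = θ / Real.sqrt N := by
    rw [ha, abs_mul, hsa, one_mul, abs_of_pos (by positivity)]
  have ha2 : a ^ 2 = θ ^ 2 / N := by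
    rw [← sq_abs, haa, div_pow, Real.sq_sqrt hN.le]
  have hDN : Real.sqrt (dm E) ≤ 2 * Real.sqrt N := by
    rw [show (2 : ℝ) * Real.sqrt N = Real.sqrt (4 * N) by
      rw [Real.sqrt_mul (by norm_num), show (4 : ℝ) = 2 ^ 2 by norm_num,
        Real.sqrt_sq (by norm_num)]]
    exact Real.sqrt_le_sqrt (by linarith)
  have hmk : ∀ i, |m i| ≤ θ / Real.sqrt N := by
    intro i
    fin_cases i
    · show |m 0| ≤ _
      rw [hm0, abs_neg, haa]
    · show |m 1| ≤ _
      rw [hm1, haa]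
  have hκ : CQ * (θ / Real.sqrt N) ≤ 1 := by
    have h1 : 1 ≤ 2 * (W * Real.sqrt N) := by
      have : W * Real.sqrt (dm E) ≤ W * (2 * Real.sqrt N) := mul_le_mul_of_nonneg_left hDN hW.le
      linarith
    rw [hθ, div_div, mul_div_assoc', div_le_one (by positivity)]
    have h2 : CQ * x ≤ K * 1 := mul_le_mul hK hx1 hx.le hK0.le
    have h3 : K * 1 ≤ K * (2 * (W * Real.sqrt N)) := mul_le_mul_of_nonneg_left h1 hK0.le
    have h4 : K * (2 * (W * Real.sqrt N)) ≤ 8 * K * W * Real.sqrt N := by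
      have : 0 ≤ K * (W * Real.sqrt N) := by positivity
      nlinarith
    linarith
  obtain ⟨t0, t1, -⟩ := hTRA ι E S Q hQ
  have hV := V_le S r hr τ w a (tr Q) (dm E) hτ hw hy t0 t1 m hm0 hm1
  have hq := hQUE Q r m (θ / Real.sqrt N) _ hQ hQr hr hmk hκ rfl
  have hw0 : 0 ≤ w := by
    have hyl : ⟪r 0, r 1⟫ ≤ 1 := by
      refine (le_abs_self _).trans ((abs_real_inner_le_norm _ _).trans ?_)
      exact mul_le_one₀ (hr 0) (norm_nonneg _) (hr 1)
    linarith
  have hV2 : dm E * (a ^ 2 * (4 * (w + τ))) ≤ θ ^ 2 * (K * W) := by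
    rw [ha2]
    have h1 : dm E * (θ ^ 2 / N * (4 * (w + τ))) = (dm E / N) * (θ ^ 2 * (4 * (w + τ))) := by
      field_simp
    rw [h1]
    have h2 : dm E / N ≤ 2 := by rw [div_le_iff₀ hN]; linarith
    have h3 : 0 ≤ θ ^ 2 * (4 * (w + τ)) := by positivity
    have h4 : θ ^ 2 * (8 * (w + τ)) ≤ θ ^ 2 * (K * W) :=
      mul_le_mul_of_nonneg_left hwK (sq_nonneg _)
    nlinarith
  have hfm : Measurable fun G : Fin 2 → E →L[ℝ] E =>
      ∑ i, m i * (‖Q (G i (r i))‖ ^ 2 - tr Q * ‖r i‖ ^ 2) := by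
    have : Continuous fun G : Fin 2 → E →L[ℝ] E =>
        ∑ i, m i * (‖Q (G i (r i))‖ ^ 2 - tr Q * ‖r i‖ ^ 2) := by
      refine continuous_finsetSum _ fun i _ => continuous_const.mul
        (Continuous.sub ((Q.continuous.comp ?_).norm.pow 2) continuous_const)
      exact (continuous_apply i).clm_apply continuous_const
    exact this.measurable
  have hch := chernoff ν _ hfm (θ * x / 2) _ hq
  refine (measure_mono ?_).trans (hch.trans (ENNReal.ofReal_le_ofReal
    (Real.exp_le_exp.mpr ?_)))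
  · intro G hGm
    have h1 : x * Real.sqrt N / 2 < s * ((‖Q (G 1 (r 1))‖ ^ 2 - tr Q * ‖r 1‖ ^ 2) -
      (‖Q (G 0 (r 0))‖ ^ 2 - tr Q * ‖r 0‖ ^ 2)) := hGm
    show θ * x / 2 < ∑ i, m i * (‖Q (G i (r i))‖ ^ 2 - tr Q * ‖r i‖ ^ 2)
    rw [Fin.sum_univ_two, hm0, hm1]
    have h2 := mul_lt_mul_of_pos_left h1 (show 0 < θ / Real.sqrt N by positivity)
    have h3 : θ / Real.sqrt N * (x * Real.sqrt N / 2) = θ * x / 2 := by field_simp
    rw [h3] at h2
    refine h2.trans_eq ?_
    rw [ha]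
    ring
  · have h1 : 2 * (tr Q * ∑ i, ∑ l, m i * m l * c2 (Real.exp (-τ)) i l ^ 2 *
        ∑ a, ⟪r i, S.J a (r l)⟫ ^ 2) ≤ 2 * (θ ^ 2 * (K * W)) := by linarith
    have h2 : 2 * (θ ^ 2 * (K * W)) - θ * x / 2 = -(x ^ 2 / (32 * K * W)) := by
      rw [hθ]
      field_simp
      ring
    linarith

end LDBM

open LDBM in
/-- Module LDB. -/
theorem specLDB (hLDV : SpecLDV) (hLDZ : SpecLDZ) (hQUE : SpecQUE) (hRPE : SpecRPE)
    (hSTP : SpecSTP) (hSTK : SpecSTK) (hMEB : SpecMEB) (hTRA : SpecTRA) : SpecLDB := by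
  intro ι _ _
  obtain ⟨CV, hCV, hV⟩ := hLDV ι
  obtain ⟨CZ, hCZ, hZ⟩ := hLDZ ι (Fin 2)
  obtain ⟨CQ, hCQ, hQ⟩ := hQUE ι (Fin 2)
  set β : ℝ := (Fintype.card ι : ℝ) with hβ
  have hβ0 : 0 ≤ β := Nat.cast_nonneg _
  set K : ℝ := 8 * (CV + 1) + CQ with hK
  have hK0 : 0 < K := by positivity
  have hCZ0 : 0 < CZ := by linarith
  set C : ℝ := 64 * CZ * (2 * CV + 1) + 32 * K + 8 * CZ + CV + 2 * β + 3 with hC
  have hp1 : 0 ≤ 64 * CZ * (2 * CV + 1) := by positivity
  have hC1 : CV ≤ C := by linarith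
  have hC2 : 8 * CZ ≤ C := by linarith
  have hC3 : 2 * β + 2 ≤ C := by linarith
  have hC4 : 3 ≤ C := by linarith
  have hC5 : 64 * CZ * (2 * CV + 1) ≤ C := by linarith
  have hC6 : 32 * K ≤ C := by linarith
  have hC7 : 2 * CV + 1 ≤ C := by nlinarith
  have hC0 : 0 < C := by linarith
  refine ⟨C, by linarith, ?_⟩
  intro E _ _ _ S u τ μ hτ hG hu k ε x hk hkτ hε0 hε1 hεD hx0 hx1
  let _ : MeasurableSpace E := borel E
  have : BorelSpace E := ⟨rfl⟩
  have := hG.gauss
  have hcor := cor_c2 τ hτ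
  set κ : ℝ := (k : ℝ) + 1 with hκ
  have hκ1 : 1 ≤ κ := by
    have : (0 : ℝ) ≤ k := Nat.cast_nonneg _
    linarith
  have hκ2 : κ ≤ κ ^ 2 := by nlinarith
  set D : ℝ := dm E with hD
  have hDε : C * κ ^ 2 ≤ D := by
    refine hk.trans ?_
    have hD0 : 0 ≤ D := Nat.cast_nonneg _
    nlinarith
  have hD0 : 0 < D := by nlinarith
  set N : ℝ := nk ι E k with hN
  have hNd : N = D - β * κ := rfl
  have hβκ : 2 * (β * κ) ≤ D := by
    have h1 : 2 * β * κ ≤ C * κ ^ 2 := by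
      have : 2 * β * κ ≤ C * κ := mul_le_mul_of_nonneg_right (by linarith) (by linarith)
      have : C * κ ≤ C * κ ^ 2 := mul_le_mul_of_nonneg_left hκ2 hC0.le
      linarith
    nlinarith
  have hN0 : 0 < N := by linarith
  have hND : D ≤ 2 * N := by linarith
  have hsN : 0 < Real.sqrt N := Real.sqrt_pos.2 hN0
  have hsD : 0 < Real.sqrt D := Real.sqrt_pos.2 hD0
  set W : ℝ := ε + κ * τ with hW
  have hκτ0 : 0 ≤ κ * τ := by positivity
  have hW0 : 0 < W := by linarith
  -- the trivial case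
  by_cases hw1 : 1 < (2 * CV + 1) * W
  · have h1 : (1 : ℝ) ≤ C * Real.exp (-(x ^ 2 / (C * W))) := by
      have h2 : x ^ 2 / (C * W) ≤ 1 := by
        rw [div_le_one (by positivity)]
        have h3 : (2 * CV + 1) * W ≤ C * W := mul_le_mul_of_nonneg_right hC7 hW0.le
        nlinarith
      have h3 : Real.exp (-1) ≤ Real.exp (-(x ^ 2 / (C * W))) :=
        Real.exp_le_exp.mpr (by linarith)
      have h4 : (1 : ℝ) / 3 ≤ Real.exp (-1) := by
        rw [Real.exp_neg, one_div]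
        apply inv_anti₀ (Real.exp_pos _)
        have := Real.exp_one_lt_d9
        linarith
      nlinarith
    refine prob_le_one.trans ?_
    rw [← ENNReal.ofReal_one]
    apply ENNReal.ofReal_le_ofReal
    have h2 : 0 ≤ C * κ * Real.exp (-(ε ^ 2 * D / (C * κ))) := by positivity
    have h3 : 0 ≤ C * Real.exp (-(x * Real.sqrt D / C)) := by positivity
    linarith
  push Not at hw1
  set w' : ℝ := (2 * CV + 1) * W with hw'
  have hεW : ε ≤ W := by linarith
  have hWw : W ≤ w' := by rw [hw']; nlinarith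
  have hw'0 : 0 < w' := by linarith
  have hCVW : CV * W ≤ 1 := by nlinarith
  -- the bad events
  set B0 : Set (Fin 2 → E →L[ℝ] E) :=
    {M | CV * (ε + κ * τ) < 1 - ⟪rr S u M k 0, rr S u M k 1⟫} with hB0
  set Z : Fin 2 → Set (Fin 2 → E →L[ℝ] E) := fun i =>
    {M | 1 - ‖rr S u M k i‖ ^ 2 ≤ w' ∧ x / 8 * Real.sqrt D < |bv (M i) u k ^ 2 - nk ι E k -
      (‖qq S u M k (M i (rr S u M k i))‖ ^ 2 - tr (qq S u M k) * ‖rr S u M k i‖ ^ 2)|} with hZd
  set X : Fin 2 → (Fin 2 → E →L[ℝ] E) → ℝ := fun i M =>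
    ‖qq S u M k (M i (rr S u M k i))‖ ^ 2 - tr (qq S u M k) * ‖rr S u M k i‖ ^ 2 with hXd
  set P : ℝ → Set (Fin 2 → E →L[ℝ] E) := fun s =>
    {M | 1 - CV * W ≤ ⟪rr S u M k 0, rr S u M k 1⟫ ∧
      x * Real.sqrt N / 2 < s * (X 1 M - X 0 M)} with hP
  have hsub : ∀ᵐ M ∂μ, M ∈ {M | x < |bn ι (M 1) u k - bn ι (M 0) u k|} →
      M ∈ (B0 ∪ (Z 0 ∪ Z 1)) ∪ (P 1 ∪ P (-1)) := by
    filter_upwards [hG.herm] with M hM hbad
    have hbad' : x < |bn ι (M 1) u k - bn ι (M 0) u k| := hbad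
    by_contra hcon
    simp only [Set.mem_union, not_or] at hcon
    obtain ⟨⟨h0, hz0, hz1⟩, hp1, hp2⟩ := hcon
    simp only [hB0, hZd, hP, Set.mem_ofPred_eq, not_and, not_lt] at h0 hz0 hz1 hp1 hp2
    obtain ⟨-, -, -, -, -, -, -, n0, -⟩ := hSTP ι E (Fin 2) S u M hM hu k 0
    obtain ⟨-, -, -, -, -, -, -, n1, -⟩ := hSTP ι E (Fin 2) S u M hM hu k 1
    have hy : 1 - CV * W ≤ ⟪rr S u M k 0, rr S u M k 1⟫ := by
      have : 1 - ⟪rr S u M k 0, rr S u M k 1⟫ ≤ CV * W := h0
      linarith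
    have hi : ⟪rr S u M k 0, rr S u M k 1⟫ ≤ ‖rr S u M k 0‖ * ‖rr S u M k 1‖ :=
      real_inner_le_norm _ _
    have g0 := norm_nonneg (rr S u M k 0)
    have g1 := norm_nonneg (rr S u M k 1)
    have hn0 : 1 - CV * W ≤ ‖rr S u M k 0‖ := by nlinarith
    have hn1 : 1 - CV * W ≤ ‖rr S u M k 1‖ := by nlinarith
    have hq0 : 1 - ‖rr S u M k 0‖ ^ 2 ≤ w' := by rw [hw']; nlinarith
    have hq1 : 1 - ‖rr S u M k 1‖ ^ 2 ≤ w' := by rw [hw']; nlinarith
    have z0 := hz0 hq0
    have z1 := hz1 hq1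
    have p1 := hp1 hy
    have p2 := hp2 hy
    have e1 : Real.sqrt N * (bn ι (M 1) u k - bn ι (M 0) u k) =
        (bv (M 1) u k ^ 2 - N) - (bv (M 0) u k ^ 2 - N) := by
      unfold bn
      rw [← hN]
      field_simp
    have hDN : Real.sqrt D ≤ 2 * Real.sqrt N := by
      rw [show (2 : ℝ) * Real.sqrt N = Real.sqrt (4 * N) by
        rw [Real.sqrt_mul (by norm_num), show (4 : ℝ) = 2 ^ 2 by norm_num,
          Real.sqrt_sq (by norm_num)]]
      exact Real.sqrt_le_sqrt (by linarith)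
    have e2 : Real.sqrt N * x < |(bv (M 1) u k ^ 2 - N) - (bv (M 0) u k ^ 2 - N)| := by
      rw [← e1, abs_mul, abs_of_pos hsN]
      exact mul_lt_mul_of_pos_left hbad' hsN
    have e3 : |X 1 M - X 0 M| ≤ x * Real.sqrt N / 2 := abs_le.2 ⟨by linarith, by linarith⟩
    have e4 : |(bv (M 1) u k ^ 2 - N) - (bv (M 0) u k ^ 2 - N)| ≤
        |bv (M 1) u k ^ 2 - N - X 1 M| + |bv (M 0) u k ^ 2 - N - X 0 M| +
          |X 1 M - X 0 M| := by
      have : (bv (M 1) u k ^ 2 - N) - (bv (M 0) u k ^ 2 - N) =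
        (bv (M 1) u k ^ 2 - N - X 1 M) - (bv (M 0) u k ^ 2 - N - X 0 M) + (X 1 M - X 0 M) := by
        ring
      rw [this]
      exact (abs_add_le _ _).trans (add_le_add_left (abs_sub _ _) _)
    have z0' : |bv (M 0) u k ^ 2 - N - X 0 M| ≤ x / 8 * Real.sqrt D := z0
    have z1' : |bv (M 1) u k ^ 2 - N - X 1 M| ≤ x / 8 * Real.sqrt D := z1
    have e5 : x / 8 * Real.sqrt D ≤ x / 8 * (2 * Real.sqrt N) :=
      mul_le_mul_of_nonneg_left hDN (by positivity)
    linarith
  -- measurability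
  obtain ⟨-, mr0, -, -, mtr, -, -, -, mQ0⟩ := hMEB ι E (Fin 2) S u k 0
  obtain ⟨-, mr1, -, -, -, -, -, -, mQ1⟩ := hMEB ι E (Fin 2) S u k 1
  have mX0 : Measurable (X 0) := (mQ0.norm.pow_const 2).sub (mtr.mul (mr0.norm.pow_const 2))
  have mX1 : Measurable (X 1) := (mQ1.norm.pow_const 2).sub (mtr.mul (mr1.norm.pow_const 2))
  have mS : ∀ s : ℝ, Measurable fun M : Fin 2 → E →L[ℝ] E => s * (X 1 M - X 0 M) :=
    fun s => (mX1.sub mX0).const_mul s
  have mI : Measurable fun M : Fin 2 → E →L[ℝ] E => ⟪rr S u M k 0, rr S u M k 1⟫ :=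
    mr0.inner mr1
  have mP : ∀ s, MeasurableSet (P s) := fun s =>
    MeasurableSet.inter (s₁ := {M | 1 - CV * W ≤ ⟪rr S u M k 0, rr S u M k 1⟫})
      (s₂ := {M | x * Real.sqrt N / 2 < s * (X 1 M - X 0 M)})
      (measurableSet_le measurable_const mI) (measurableSet_lt measurable_const (mS s))
  -- estimates
  have hWD : 1 ≤ W * Real.sqrt D := by
    have h1 : ε ^ 2 * Real.sqrt D ≤ ε * Real.sqrt D := by
      apply mul_le_mul_of_nonneg_right _ hsD.le
      nlinarith
    have h2 : ε * Real.sqrt D ≤ W * Real.sqrt D := mul_le_mul_of_nonneg_right hεW hsD.le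
    linarith
  have bP : ∀ s : ℝ, (s = 1 ∨ s = -1) → μ (P s) ≤
      ENNReal.ofReal (Real.exp (-(x ^ 2 / (C * W)))) := by
    intro s hs
    have h1 : ENNReal.ofReal (Real.exp (-(x ^ 2 / (32 * K * W)))) ≤
        ENNReal.ofReal (Real.exp (-(x ^ 2 / (C * W)))) := by
      apply ENNReal.ofReal_le_ofReal
      apply Real.exp_le_exp.mpr
      have : x ^ 2 / (C * W) ≤ x ^ 2 / (32 * K * W) := by
        apply div_le_div_of_nonneg_left (by positivity) (by positivity)
        exact mul_le_mul_of_nonneg_right hC6 hW0.le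
      linarith
    refine le_trans (rpe_le hRPE hG u k (P s) (mP s) _ ?_) h1
    intro M hM
    by_cases hy : 1 - CV * W ≤ ⟪rr S u M k 0, rr S u M k 1⟫
    swap
    · refine ⟨∅, fun G hGh hx => ?_, by simp⟩
      obtain ⟨hx1, -⟩ := hx
      obtain ⟨-, -, -, -, k0, -⟩ := hSTK ι E (Fin 2) S u hu k 0
      obtain ⟨-, -, -, -, k1, -⟩ := hSTK ι E (Fin 2) S u hu k 1
      have q0 : rr S u (res (expl S u M k) M G) k 0 = rr S u M k 0 := k0 M G hM hGh
      have q1 : rr S u (res (expl S u M k) M G) k 1 = rr S u M k 1 := k1 M G hM hGh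
      rw [q0, q1] at hx1
      exact hy hx1
    have hstp := fun i => hSTP ι E (Fin 2) S u M hM hu k i
    have b1 := one_sided (E := E) (S := S) (τ := τ) (ν := μ) hCQ hτ hTRA
      (fun Q r m κ V => hQ E S _ μ hG hcor Q r m κ V) (qq S u M k)
      (hstp 0).2.2.2.2.2.2.2.2.2.2.2.1 (rr S u M k) (fun i => (hstp i).2.1)
      (fun i => (hstp i).2.2.2.2.2.2.2.1) N x K W (CV * W) s hN0 hx0 hx1
      (by rw [hK]; linarith) hW0 hWD hND hCVW hy
      (by
        have h3 : τ ≤ W := by nlinarith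
        rw [hK]
        nlinarith [mul_pos hCQ hW0]) hs
    refine ⟨_, fun G hGh hx => ?_, b1⟩
    obtain ⟨-, hx2⟩ := hx
    obtain ⟨-, -, -, -, k0, -, k7, -, -, -, -, k12⟩ := hSTK ι E (Fin 2) S u hu k 0
    obtain ⟨-, -, -, -, k1, -, -, -, -, -, -, k12'⟩ := hSTK ι E (Fin 2) S u hu k 1
    have q0 : rr S u (res (expl S u M k) M G) k 0 = rr S u M k 0 := k0 M G hM hGh
    have q1 : rr S u (res (expl S u M k) M G) k 1 = rr S u M k 1 := k1 M G hM hGh
    have q7 : qq S u (res (expl S u M k) M G) k = qq S u M k := k7 M G hM hGh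
    have l0 := (k12 M G hM hGh _ (hstp 0).2.2.2.2.1).1
    have l1 := (k12' M G hM hGh _ (hstp 1).2.2.2.2.1).1
    simp only [hXd] at hx2
    rw [q0, q1, q7, l0, l1] at hx2
    exact hx2
  have bZ : ∀ i, μ (Z i) ≤ ENNReal.ofReal (CZ * Real.exp (-(x ^ 2 / (C * W))) +
      CZ * Real.exp (-(x * Real.sqrt D / C))) := by
    intro i
    have h1 := hZ E S u _ μ hG hcor hu i k w' (x / 8)
      (by
        have h2 : CZ * κ ≤ C * κ ^ 2 := mul_le_mul (by linarith) hκ2 (by linarith) hC0.le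
        have h3 : ε * D ≤ w' * D := mul_le_mul_of_nonneg_right (by linarith) hD0.le
        linarith) hw1
      (by
        have h2 : ε ^ 2 ≤ w' ^ 2 := pow_le_pow_left₀ hε0.le (by linarith) 2
        have h3 : ε ^ 2 * Real.sqrt D ≤ w' ^ 2 * Real.sqrt D :=
          mul_le_mul_of_nonneg_right h2 hsD.le
        linarith) hw'0 (by positivity) (by linarith)
    refine h1.trans (ENNReal.ofReal_le_ofReal ?_)
    have h2 : Real.exp (-((x / 8) ^ 2 / (CZ * w'))) ≤ Real.exp (-(x ^ 2 / (C * W))) := by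
      apply Real.exp_le_exp.mpr
      have h3 : x ^ 2 / (C * W) ≤ x ^ 2 / (64 * CZ * (2 * CV + 1) * W) := by
        apply div_le_div_of_nonneg_left (by positivity) (by positivity)
        exact mul_le_mul_of_nonneg_right hC5 hW0.le
      have h4 : (x / 8) ^ 2 / (CZ * w') = x ^ 2 / (64 * CZ * (2 * CV + 1) * W) := by
        rw [hw']
        field_simp
        ring
      linarith
    have h3 : Real.exp (-(x / 8 * Real.sqrt D / CZ)) ≤ Real.exp (-(x * Real.sqrt D / C)) := by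
      apply Real.exp_le_exp.mpr
      have h4 : x * Real.sqrt D / C ≤ x * Real.sqrt D / (8 * CZ) :=
        div_le_div_of_nonneg_left (by positivity) (by positivity) hC2
      have h5 : x / 8 * Real.sqrt D / CZ = x * Real.sqrt D / (8 * CZ) := by field_simp
      linarith
    exact add_le_add (mul_le_mul_of_nonneg_left h2 hCZ0.le)
      (mul_le_mul_of_nonneg_left h3 hCZ0.le)
  have bB : μ B0 ≤ ENNReal.ofReal (C * κ * Real.exp (-(ε ^ 2 * D / (C * κ)))) := by
    have h1 := hV E S u τ μ hτ hG hu k ε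
      ((mul_le_mul_of_nonneg_right hC1 (by positivity)).trans hk) hkτ hε0 hε1
    refine h1.trans (ENNReal.ofReal_le_ofReal ?_)
    have h2 : Real.exp (-(ε ^ 2 * D / (CV * κ))) ≤ Real.exp (-(ε ^ 2 * D / (C * κ))) := by
      apply Real.exp_le_exp.mpr
      have h4 : ε ^ 2 * D / (C * κ) ≤ ε ^ 2 * D / (CV * κ) := by
        apply div_le_div_of_nonneg_left (by positivity) (by positivity)
        exact mul_le_mul_of_nonneg_right hC1 (by linarith)
      linarith
    exact mul_le_mul (mul_le_mul_of_nonneg_right hC1 (by linarith)) h2 (Real.exp_pos _).le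
      (by positivity)
  -- conclusion
  have hmain := measure_mono_ae (μ := μ) hsub
  refine hmain.trans ?_
  refine (measure_union_le _ _).trans ((add_le_add ((measure_union_le _ _).trans
    (add_le_add bB ((measure_union_le _ _).trans (add_le_add (bZ 0) (bZ 1)))))
    ((measure_union_le _ _).trans (add_le_add (bP 1 (Or.inl rfl)) (bP (-1) (Or.inr rfl))))).trans ?_)
  rw [← ENNReal.ofReal_add (by positivity) (by positivity),
    ← ENNReal.ofReal_add (by positivity) (by positivity),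
    ← ENNReal.ofReal_add (by positivity) (by positivity),
    ← ENNReal.ofReal_add (by positivity) (by positivity)]
  apply ENNReal.ofReal_le_ofReal
  have h1 : 0 < Real.exp (-(x ^ 2 / (C * W))) := Real.exp_pos _
  have h2 : 0 < Real.exp (-(x * Real.sqrt D / C)) := Real.exp_pos _
  have h3 : (2 * CZ + 2) * Real.exp (-(x ^ 2 / (C * W))) ≤ C * Real.exp (-(x ^ 2 / (C * W))) :=
    mul_le_mul_of_nonneg_right (by linarith) h1.le
  have h4 : 2 * CZ * Real.exp (-(x * Real.sqrt D / C)) ≤ C * Real.exp (-(x * Real.sqrt D / C)) :=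
    mul_le_mul_of_nonneg_right (by linarith) h2.le
  linarith

end Pool.Agent.Lib.MP17fa2c
end

section
/-!
# Row 233, LDF (helper70): large deviations, final form, small time lags
-/
set_option autoImplicit false

open MeasureTheory ProbabilityTheory Filter Topology
open scoped RealInnerProductSpace NNReal ENNReal BoundedContinuousFunction

namespace Pool.Agent.Lib.MP17fa2c

namespace LDFM

/-- the numbers -/
theorem numbers (c C H x θ δ D L κ a : ℝ) (hc : 0 < c) (hcC : c ≤ C) (hC : 1 ≤ C) (hH : 0 < H)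
    (hx0 : 0 < x) (hx1 : x ≤ 1) (hθ0 : 0 < θ) (hθ1 : θ ≤ 1) (hθ : 2 * C * H * θ ≤ x ^ 2)
    (hδ0 : 0 < δ) (hδ1 : δ * (C * (H + 1)) ≤ θ ^ 2) (hL : 1 ≤ θ ^ 2 * L) (hD : D = L ^ 7)
    (hκ1 : 1 ≤ κ) (hκ : κ ≤ δ * L ^ 3) (ha0 : 0 ≤ a) (ha : a * L ≤ δ) :
    c * κ ^ 2 ≤ θ / L * D ∧ a ≤ 1 ∧ 0 < θ / L ∧ θ / L ≤ 1 ∧ 1 ≤ (θ / L) ^ 2 * Real.sqrt D ∧
    c * κ * Real.exp (-((θ / L) ^ 2 * D / (c * κ))) ≤ 6 * C * Real.exp (-H * L) ∧
    c * Real.exp (-(x ^ 2 / (c * (θ / L + a)))) ≤ C * Real.exp (-H * L) ∧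
    c * Real.exp (-(x * Real.sqrt D / c)) ≤ C * Real.exp (-H * L) := by
  have hC0 : 0 < C := by linarith
  have hθ2 : θ ^ 2 ≤ θ := by nlinarith
  have hθ21 : θ ^ 2 ≤ 1 := by nlinarith
  have hθ20 : 0 < θ ^ 2 := by positivity
  have hL0 : 0 < L := by
    by_contra h
    have h1 : L ≤ 0 := not_lt.1 h
    have := mul_nonpos_of_nonneg_of_nonpos hθ20.le h1
    linarith
  have hL1 : 1 ≤ L := by
    have h1 : θ ^ 2 * L ≤ 1 * L := mul_le_mul_of_nonneg_right hθ21 hL0.le
    linarith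
  have hL3 : 0 < L ^ 3 := by positivity
  have hCH : 0 < C * (H + 1) := by positivity
  have hCH1 : 1 ≤ C * (H + 1) := by nlinarith
  have hδθ2 : δ ≤ θ ^ 2 := by
    have h1 : δ * 1 ≤ δ * (C * (H + 1)) := mul_le_mul_of_nonneg_left hCH1 hδ0.le
    linarith
  have hδθ : δ ≤ θ := by linarith
  have hδ11 : δ ≤ 1 := by linarith
  have hCδ : C * δ ≤ θ ^ 2 := by
    have h1 : 0 ≤ δ * (C * H) := by positivity
    nlinarith
  have hκ0 : 0 < κ := by linarith
  have hsq : L ^ 3 ≤ Real.sqrt D := by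
    apply Real.le_sqrt_of_sq_le
    rw [hD]
    calc (L ^ 3) ^ 2 = L ^ 6 := by ring
      _ ≤ L ^ 7 := pow_le_pow_right₀ hL1 (by norm_num)
  have hεD : θ / L * D = θ * L ^ 6 := by rw [hD]; field_simp
  have hε2D : (θ / L) ^ 2 * D = θ ^ 2 * L ^ 5 := by rw [hD]; field_simp
  refine ⟨?_, ?_, by positivity, ?_, ?_, ?_, ?_, ?_⟩
  · rw [hεD]
    calc c * κ ^ 2 ≤ C * (δ * L ^ 3) ^ 2 :=
          mul_le_mul hcC (pow_le_pow_left₀ hκ0.le hκ 2) (sq_nonneg _) hC0.le
      _ = (C * δ) * δ * L ^ 6 := by ring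
      _ ≤ θ ^ 2 * 1 * L ^ 6 := by
          apply mul_le_mul_of_nonneg_right _ (by positivity)
          exact mul_le_mul hCδ hδ11 hδ0.le hθ20.le
      _ ≤ θ * L ^ 6 := by
          rw [mul_one]
          exact mul_le_mul_of_nonneg_right hθ2 (by positivity)
  · have h1 : a * 1 ≤ a * L := mul_le_mul_of_nonneg_left hL1 ha0
    linarith
  · rw [div_le_one hL0]
    linarith
  · calc (1 : ℝ) ≤ θ ^ 2 * L := hL
      _ = (θ / L) ^ 2 * L ^ 3 := by field_simp
      _ ≤ (θ / L) ^ 2 * Real.sqrt D := mul_le_mul_of_nonneg_left hsq (by positivity)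
  · have h1 : H * L + L ≤ (θ / L) ^ 2 * D / (c * κ) := by
      rw [hε2D, le_div_iff₀ (mul_pos hc hκ0)]
      calc (H * L + L) * (c * κ) ≤ (H * L + L) * (C * (δ * L ^ 3)) := by
            apply mul_le_mul_of_nonneg_left _ (by positivity)
            exact mul_le_mul hcC hκ hκ0.le hC0.le
        _ = (δ * (C * (H + 1))) * L ^ 4 := by ring
        _ ≤ θ ^ 2 * L ^ 4 := mul_le_mul_of_nonneg_right hδ1 (by positivity)
        _ ≤ θ ^ 2 * L ^ 5 :=
            mul_le_mul_of_nonneg_left (pow_le_pow_right₀ hL1 (by norm_num)) hθ20.le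
    have h2 : κ ≤ 6 * Real.exp L := by
      have h3 : L ^ 3 / 6 ≤ Real.exp L := by
        have := Real.pow_div_factorial_le_exp L hL0.le 3
        norm_num [Nat.factorial] at this
        linarith
      have h4 : δ * L ^ 3 ≤ 1 * L ^ 3 := mul_le_mul_of_nonneg_right hδ11 hL3.le
      linarith
    have h5 : Real.exp (-((θ / L) ^ 2 * D / (c * κ))) ≤ Real.exp (-(H * L + L)) :=
      Real.exp_le_exp.2 (by linarith)
    calc c * κ * Real.exp (-((θ / L) ^ 2 * D / (c * κ)))
        ≤ c * κ * Real.exp (-(H * L + L)) := mul_le_mul_of_nonneg_left h5 (by positivity)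
      _ ≤ C * (6 * Real.exp L) * Real.exp (-(H * L + L)) := by
          apply mul_le_mul_of_nonneg_right _ (Real.exp_pos _).le
          exact mul_le_mul hcC h2 hκ0.le hC0.le
      _ = 6 * C * (Real.exp L * Real.exp (-(H * L + L))) := by ring
      _ = 6 * C * Real.exp (-H * L) := by
          rw [← Real.exp_add]
          congr 2
          ring
  · have hε0 : 0 < θ / L := by positivity
    have h1 : H * L ≤ x ^ 2 / (c * (θ / L + a)) := by
      rw [le_div_iff₀ (mul_pos hc (by linarith))]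
      calc H * L * (c * (θ / L + a)) ≤ H * L * (C * (θ / L + a)) := by
            apply mul_le_mul_of_nonneg_left _ (by positivity)
            exact mul_le_mul_of_nonneg_right hcC (by linarith)
        _ = C * H * (θ + a * L) := by field_simp
        _ ≤ C * H * (θ + θ) := by
            apply mul_le_mul_of_nonneg_left _ (by positivity)
            linarith
        _ = 2 * C * H * θ := by ring
        _ ≤ x ^ 2 := hθ
    have h2 : Real.exp (-(x ^ 2 / (c * (θ / L + a)))) ≤ Real.exp (-H * L) :=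
      Real.exp_le_exp.2 (by linarith)
    exact mul_le_mul hcC h2 (Real.exp_pos _).le hC0.le
  · have h1 : H * L ≤ x * Real.sqrt D / c := by
      rw [le_div_iff₀ hc]
      have h3 : H * C ≤ x * L := by
        -- 1 ≤ θ ^ 2 L ≤ θ L, 2 C H θ ≤ x ^ 2 ≤ x
        have h4 : 1 ≤ θ * L := by
          have := mul_le_mul_of_nonneg_right hθ2 hL0.le
          linarith
        have h5 : x ^ 2 ≤ x := by nlinarith
        have h6 : 0 ≤ H * C := by positivity
        calc H * C ≤ 2 * (H * C) * 1 := by linarith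
          _ ≤ 2 * (H * C) * (θ * L) := mul_le_mul_of_nonneg_left h4 (by positivity)
          _ = (2 * C * H * θ) * L := by ring
          _ ≤ x * L := mul_le_mul_of_nonneg_right (hθ.trans h5) hL0.le
      calc H * L * c ≤ H * L * C := mul_le_mul_of_nonneg_left hcC (by positivity)
        _ = (H * C) * L := by ring
        _ ≤ (x * L) * L := mul_le_mul_of_nonneg_right h3 hL0.le
        _ = x * L ^ 2 := by ring
        _ ≤ x * L ^ 3 := mul_le_mul_of_nonneg_left (pow_le_pow_right₀ hL1 (by norm_num)) hx0.le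
        _ ≤ x * Real.sqrt D := mul_le_mul_of_nonneg_left hsq hx0.le
    have h2 : Real.exp (-(x * Real.sqrt D / c)) ≤ Real.exp (-H * L) :=
      Real.exp_le_exp.2 (by linarith)
    exact mul_le_mul hcC h2 (Real.exp_pos _).le hC0.le

end LDFM

theorem specLDF (hLDA : SpecLDA) (hLDB : SpecLDB) : SpecLDF := by
  intro ι _ _ x₀ H hx₀ hH
  obtain ⟨C1, hC1, hA⟩ := hLDA ι
  obtain ⟨C2, hC2, hB⟩ := hLDB ι
  have hC20 : 0 < C2 := by linarith
  obtain ⟨C, hCdef⟩ : ∃ C, C = max C1 C2 := ⟨_, rfl⟩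
  have h1C : C1 ≤ C := by rw [hCdef]; exact le_max_left _ _
  have h2C : C2 ≤ C := by rw [hCdef]; exact le_max_right _ _
  have hC : 1 ≤ C := by linarith
  have hC0 : 0 < C := by linarith
  obtain ⟨x, hxdef⟩ : ∃ x, x = min x₀ 1 := ⟨_, rfl⟩
  have hx0 : 0 < x := by rw [hxdef]; exact lt_min hx₀ one_pos
  have hx1 : x ≤ 1 := by rw [hxdef]; exact min_le_right _ _
  have hxx : x ≤ x₀ := by rw [hxdef]; exact min_le_left _ _
  obtain ⟨θ, hθdef⟩ : ∃ θ, θ = min 1 (x ^ 2 / (2 * C * H)) := ⟨_, rfl⟩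
  have hθ0 : 0 < θ := by rw [hθdef]; exact lt_min one_pos (by positivity)
  have hθ1 : θ ≤ 1 := by rw [hθdef]; exact min_le_left _ _
  have hθ : 2 * C * H * θ ≤ x ^ 2 := by
    have h1 : θ ≤ x ^ 2 / (2 * C * H) := by rw [hθdef]; exact min_le_right _ _
    rw [le_div_iff₀ (by positivity)] at h1
    linarith
  obtain ⟨δ, hδdef⟩ : ∃ δ, δ = min (θ ^ 2 / (C * (H + 1))) (min (θ ^ 14) (1 / (8 * C))) :=
    ⟨_, rfl⟩
  have hδ0 : 0 < δ := by
    rw [hδdef]
    exact lt_min (by positivity) (lt_min (by positivity) (by positivity))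
  have hδ1 : δ * (C * (H + 1)) ≤ θ ^ 2 := by
    have h1 : δ ≤ θ ^ 2 / (C * (H + 1)) := by rw [hδdef]; exact min_le_left _ _
    rwa [le_div_iff₀ (by positivity)] at h1
  have hδ2 : δ ≤ θ ^ 14 := by
    rw [hδdef]; exact (min_le_right _ _).trans (min_le_left _ _)
  have hδ3 : 8 * C ≤ 1 / δ := by
    have h1 : δ ≤ 1 / (8 * C) := by
      rw [hδdef]; exact (min_le_right _ _).trans (min_le_right _ _)
    rw [le_div_iff₀ hδ0]
    rw [le_div_iff₀ (by positivity)] at h1
    linarith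
  refine ⟨δ, hδ0, ?_⟩
  intro E _ _ _ S u τ μ hτ hμ hu k hD1 hk hkτ
  obtain ⟨D, hD⟩ : ∃ D : ℝ, D = dm E := ⟨_, rfl⟩
  rw [← hD] at hD1 hk hkτ
  rw [← hD]
  have hD0 : 0 < D := lt_of_lt_of_le (by positivity) hD1
  obtain ⟨L, hL⟩ : ∃ L : ℝ, L = D ^ (1 / 7 : ℝ) := ⟨_, rfl⟩
  have hL0 : 0 < L := by rw [hL]; positivity
  have hL7 : D = L ^ 7 := by
    rw [hL, ← Real.rpow_natCast, ← Real.rpow_mul hD0.le]
    norm_num
  have hL3 : D ^ (3 / 7 : ℝ) = L ^ 3 := by
    rw [hL, ← Real.rpow_natCast, ← Real.rpow_mul hD0.le]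
    norm_num
  have hLi : D ^ (-(1 / 7) : ℝ) = L⁻¹ := by
    rw [hL, Real.rpow_neg hD0.le]
  have hLθ : 1 ≤ θ ^ 2 * L := by
    by_contra h
    have h1 : θ ^ 2 * L < 1 := not_le.1 h
    have h2 : (θ ^ 2 * L) ^ 7 < 1 := pow_lt_one₀ (by positivity) h1 (by norm_num)
    have h3 : (θ ^ 2 * L) ^ 7 = θ ^ 14 * D := by rw [hL7]; ring
    have h4 : δ * D ≤ θ ^ 14 * D := mul_le_mul_of_nonneg_right hδ2 hD0.le
    have h5 : 1 ≤ δ * D := by
      rw [div_le_iff₀ hδ0] at hD1
      linarith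
    linarith
  have hκ1 : (1 : ℝ) ≤ (k : ℝ) + 1 := by
    have : (0 : ℝ) ≤ k := Nat.cast_nonneg k
    linarith
  have ha0 : 0 ≤ ((k : ℝ) + 1) * τ := by positivity
  have ha : ((k : ℝ) + 1) * τ * L ≤ δ := by
    rw [hLi] at hkτ
    calc ((k : ℝ) + 1) * τ * L ≤ δ * L⁻¹ * L := mul_le_mul_of_nonneg_right hkτ hL0.le
      _ = δ := by rw [mul_assoc, inv_mul_cancel₀ hL0.ne', mul_one]
  rw [hL3] at hk
  rw [← hL]
  obtain ⟨a1, a2, a3, a4, a5, a6, a7, a8⟩ := LDFM.numbers C1 C H x θ δ D L ((k : ℝ) + 1)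
    (((k : ℝ) + 1) * τ) hC1 h1C hC hH hx0 hx1 hθ0 hθ1 hθ hδ0 hδ1 hLθ hL7 hκ1 hk ha0 ha
  obtain ⟨b1, b2, b3, b4, b5, b6, b7, b8⟩ := LDFM.numbers C2 C H x θ δ D L ((k : ℝ) + 1)
    (((k : ℝ) + 1) * τ) hC20 h2C hC hH hx0 hx1 hθ0 hθ1 hθ hδ0 hδ1 hLθ hL7 hκ1 hk ha0 ha
  have hfin : 8 * C * Real.exp (-H * L) ≤ 1 / δ * Real.exp (-H * L) :=
    mul_le_mul_of_nonneg_right hδ3 (Real.exp_pos _).le
  have hexp : 0 < C * Real.exp (-H * L) := mul_pos hC0 (Real.exp_pos _)
  constructor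
  · have h1 := hA E S u τ μ hτ hμ hu k (θ / L) x (by rw [← hD]; exact a1) a2 a3 a4 hx0
    refine le_trans (measure_mono fun M hM => lt_of_le_of_lt hxx hM) (h1.trans ?_)
    apply ENNReal.ofReal_le_ofReal
    rw [← hD]
    linarith
  · have h1 := hB E S u τ μ hτ hμ hu k (θ / L) x (by rw [← hD]; exact b1) b2 b3 b4
      (by rw [← hD]; exact b5) hx0 hx1
    refine le_trans (measure_mono fun M hM => lt_of_le_of_lt hxx hM) (h1.trans ?_)
    apply ENNReal.ofReal_le_ofReal
    rw [← hD]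
    linarith

end Pool.Agent.Lib.MP17fa2c
end

section
set_option autoImplicit false

open MeasureTheory ProbabilityTheory Filter Topology
open scoped RealInnerProductSpace NNReal ENNReal BoundedContinuousFunction

namespace Pool.Agent.Lib.MP17fa2c

namespace LDVM

theorem cor_c2 (τ : ℝ) (h : 0 ≤ τ) : Cor (c2 (Real.exp (-τ))) := by
  refine ⟨fun i l => ?_, fun i => by simp [c2], fun i l => ?_⟩
  · unfold c2
    by_cases h1 : i = l
    · rw [if_pos h1, if_pos h1.symm]
    · rw [if_neg h1, if_neg (Ne.symm h1)]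
  · unfold c2
    split_ifs
    · simp
    · rw [abs_of_pos (Real.exp_pos _)]
      exact Real.exp_le_one_iff.2 (by linarith)

theorem exp_le (x : ℝ) (h0 : 0 < x) (h1 : x ≤ 1) : Real.exp x ≤ 1 + 2 * x := by
  have h := Real.abs_exp_sub_one_sub_id_le (x := x) (by rw [abs_of_pos h0]; exact h1)
  have h2 := (abs_le.1 h).2
  nlinarith

/-- the deterministic part -/
theorem det {E : Type} [NormedAddCommGroup E] [InnerProductSpace ℝ E] (r0 r1 : E)
    (ρ0 ρ1 x a C2 K : ℝ) (hx0 : 0 < x) (hx1 : x ≤ 1) (hr0 : ‖r0‖ ≤ 1) (hr1 : ‖r1‖ ≤ 1)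
    (h0 : 0 ≤ ρ0) (h1 : 0 ≤ ρ1) (e0 : ρ0 ^ 2 ≤ Real.exp x) (e1 : ρ1 ^ 2 ≤ Real.exp x)
    (hC2 : 0 < C2) (hK : K ≤ x) (ha : 0 ≤ a)
    (hz : 4 * (1 - C2 * (K + a)) - x ≤ ‖ρ0 • r0 + ρ1 • r1‖ ^ 2) :
    1 - ⟪r0, r1⟫ ≤ (4 * C2 + 7) * (x + a) := by
  have hex := exp_le x hx0 hx1
  set y := ⟪r0, r1⟫ with hy
  have hy1 : |y| ≤ 1 := by
    refine (abs_real_inner_le_norm r0 r1).trans ?_
    nlinarith [norm_nonneg r0, norm_nonneg r1]
  rw [abs_le] at hy1
  have hsq : ‖ρ0 • r0 + ρ1 • r1‖ ^ 2 = ρ0 ^ 2 * ‖r0‖ ^ 2 + 2 * (ρ0 * ρ1 * y) + ρ1 ^ 2 * ‖r1‖ ^ 2 := by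
    rw [norm_add_sq_real, norm_smul, norm_smul, inner_smul_left, inner_smul_right, mul_pow,
      mul_pow, Real.norm_eq_abs, Real.norm_eq_abs, sq_abs, sq_abs, ← hy]
    simp only [conj_trivial]
    ring
  have n0 : ρ0 ^ 2 * ‖r0‖ ^ 2 ≤ Real.exp x := by
    have : ‖r0‖ ^ 2 ≤ 1 := by nlinarith [norm_nonneg r0]
    nlinarith [sq_nonneg ρ0]
  have n1 : ρ1 ^ 2 * ‖r1‖ ^ 2 ≤ Real.exp x := by
    have : ‖r1‖ ^ 2 ≤ 1 := by nlinarith [norm_nonneg r1]
    nlinarith [sq_nonneg ρ1]
  have hK' : C2 * (K + a) ≤ C2 * (x + a) := mul_le_mul_of_nonneg_left (by linarith) hC2.le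
  have hR : 1 - (2 * C2 + 5 / 2) * (x + a) ≤ ρ0 * ρ1 * y := by
    rw [hsq] at hz
    nlinarith
  have hρ : ρ0 * ρ1 ≤ Real.exp x := by nlinarith [sq_nonneg (ρ0 - ρ1)]
  have hρ0 : 0 ≤ ρ0 * ρ1 := mul_nonneg h0 h1
  rcases le_or_gt 0 y with h | h
  · have h3 : ρ0 * ρ1 * y ≤ y + 2 * x := by
      have : ρ0 * ρ1 * y ≤ (1 + 2 * x) * y := mul_le_mul_of_nonneg_right (hρ.trans hex) h
      nlinarith
    nlinarith
  · have h3 : ρ0 * ρ1 * y ≤ 0 := mul_nonpos_of_nonneg_of_nonpos hρ0 h.le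
    nlinarith

end LDVM

open LDVM in
/-- LDV -/
theorem specLDV (hRUP : SpecRUP) (hZLO : SpecZLO) (hSTP : SpecSTP) : SpecLDV := by
  intro ι _ _
  obtain ⟨C1, hC1, hrup⟩ := hRUP ι
  obtain ⟨C2, hC2, hzlo⟩ := hZLO ι
  refine ⟨2 * C1 + 5 * C2 + 8, by positivity, ?_⟩
  intro E _ _ _ S u τ μ hτ hG hu k x hk hkτ hx0 hx1
  set C : ℝ := 2 * C1 + 5 * C2 + 8 with hC
  set D : ℝ := dm E with hD
  have hk0 : (0 : ℝ) ≤ k := Nat.cast_nonneg k
  have hk1 : (1 : ℝ) ≤ (k : ℝ) + 1 := by linarith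
  have hC0 : 0 < C := by positivity
  have hksq : (k : ℝ) + 1 ≤ ((k : ℝ) + 1) ^ 2 := by nlinarith
  have hsq0 : (0 : ℝ) < ((k : ℝ) + 1) ^ 2 := by positivity
  have hD0 : 0 < D := by
    have h1 : 0 < C * ((k : ℝ) + 1) ^ 2 := by positivity
    have h2 : 0 < x * D := lt_of_lt_of_le h1 hk
    exact (mul_pos_iff_of_pos_left hx0).1 h2
  have hkD : C * ((k : ℝ) + 1) ^ 2 ≤ D := hk.trans (by nlinarith)
  have c1 : C1 * ((k : ℝ) + 1) ≤ D := by
    have h1 : C1 * ((k : ℝ) + 1) ≤ C * ((k : ℝ) + 1) ^ 2 := by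
      have h2 : C1 ≤ C := by rw [hC]; linarith
      exact mul_le_mul h2 hksq (by positivity) hC0.le
    linarith
  have c2' : C2 * ((k : ℝ) + 1) ^ 2 ≤ D := by
    have h2 : C2 ≤ C := by rw [hC]; linarith
    have := mul_le_mul_of_nonneg_right h2 hsq0.le
    linarith
  have hcor := cor_c2 τ hτ
  have m0 := hrup E (Fin 2) S u _ μ hG hcor hu 0 k x c1 hx0 hx1
  have m1 := hrup E (Fin 2) S u _ μ hG hcor hu 1 k x c1 hx0 hx1
  have m2 := hzlo E S u τ μ hτ hG hu k x c2' hkτ hx0 hx1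
  set A0 : Set (Fin 2 → E →L[ℝ] E) := {M | ∃ j ≤ k, Real.exp x < rho (M 0) u j ^ 2} with hA0
  set A1 : Set (Fin 2 → E →L[ℝ] E) := {M | ∃ j ≤ k, Real.exp x < rho (M 1) u j ^ 2} with hA1
  set A2 : Set (Fin 2 → E →L[ℝ] E) := {M | (∀ j ≤ k, ∀ i, rho (M i) u j ^ 2 ≤ 3) ∧
    ‖rh S u M k 0 + rh S u M k 1‖ ^ 2 <
      4 * (1 - C2 * ((k + 1) ^ 2 / dm E + (k + 1) * τ)) - x} with hA2
  have hex3 : Real.exp x ≤ 3 := by
    have := exp_le x hx0 hx1
    linarith
  have hsub : ∀ᵐ M ∂μ, M ∈ {M | C * (x + (k + 1) * τ) < 1 - ⟪rr S u M k 0, rr S u M k 1⟫} →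
      M ∈ A0 ∪ A1 ∪ A2 := by
    filter_upwards [hG.herm] with M hM hbad
    by_contra hcon
    simp only [Set.mem_union, not_or] at hcon
    obtain ⟨⟨h0, h1⟩, h2⟩ := hcon
    simp only [hA0, hA1, Set.mem_ofPred_eq, not_exists, not_and, not_lt] at h0 h1
    have h3 : ∀ j ≤ k, ∀ i, rho (M i) u j ^ 2 ≤ 3 := by
      intro j hj i
      fin_cases i
      · exact (h0 j hj).trans hex3
      · exact (h1 j hj).trans hex3
    have h4 : 4 * (1 - C2 * ((k + 1) ^ 2 / dm E + (k + 1) * τ)) - x ≤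
        ‖rh S u M k 0 + rh S u M k 1‖ ^ 2 := by
      by_contra hlt
      push Not at hlt
      exact h2 ⟨h3, hlt⟩
    obtain ⟨-, -, -, -, -, -, -, n0, p0, -⟩ := hSTP ι E (Fin 2) S u M hM hu k 0
    obtain ⟨-, -, -, -, -, -, -, n1, p1, -⟩ := hSTP ι E (Fin 2) S u M hM hu k 1
    have hK : ((k : ℝ) + 1) ^ 2 / dm E ≤ x := by
      rw [div_le_iff₀ hD0]
      have h5 : (1 : ℝ) ≤ C := by rw [hC]; linarith
      have h6 := mul_le_mul_of_nonneg_right h5 hsq0.le
      linarith
    have h7 := det (rr S u M k 0) (rr S u M k 1) (rho (M 0) u k) (rho (M 1) u k) x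
      ((k + 1) * τ) C2 (((k : ℝ) + 1) ^ 2 / dm E) hx0 hx1 n0 n1 p0 p1 (h0 k le_rfl)
      (h1 k le_rfl) hC2 hK (by positivity) h4
    have h8 : (4 * C2 + 7) * (x + (k + 1) * τ) ≤ C * (x + (k + 1) * τ) := by
      refine mul_le_mul_of_nonneg_right ?_ (by positivity)
      rw [hC]; linarith
    exact absurd hbad (not_lt.2 (h7.trans h8))
  have hexp : ∀ c : ℝ, 0 < c → c ≤ C → Real.exp (-(x ^ 2 * dm E / (c * (k + 1)))) ≤
      Real.exp (-(x ^ 2 * dm E / (C * (k + 1)))) := by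
    intro c hc hcC
    refine Real.exp_le_exp.2 (neg_le_neg ?_)
    refine div_le_div_of_nonneg_left (by positivity) (by positivity) ?_
    exact mul_le_mul_of_nonneg_right hcC (by positivity)
  have e1 := hexp C1 hC1 (by rw [hC]; linarith)
  have e2 := hexp C2 hC2 (by rw [hC]; linarith)
  calc μ {M | C * (x + (k + 1) * τ) < 1 - ⟪rr S u M k 0, rr S u M k 1⟫}
      ≤ μ (A0 ∪ A1 ∪ A2) := measure_mono_ae hsub
    _ ≤ μ (A0 ∪ A1) + μ A2 := measure_union_le _ _
    _ ≤ μ A0 + μ A1 + μ A2 := by gcongr; exact measure_union_le _ _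
    _ ≤ ENNReal.ofReal (C1 * (k + 1) * Real.exp (-(x ^ 2 * dm E / (C1 * (k + 1))))) +
        ENNReal.ofReal (C1 * (k + 1) * Real.exp (-(x ^ 2 * dm E / (C1 * (k + 1))))) +
        ENNReal.ofReal (C2 * Real.exp (-(x ^ 2 * dm E / (C2 * (k + 1))))) := by
      gcongr
    _ = ENNReal.ofReal (C1 * (k + 1) * Real.exp (-(x ^ 2 * dm E / (C1 * (k + 1)))) +
        C1 * (k + 1) * Real.exp (-(x ^ 2 * dm E / (C1 * (k + 1)))) +
        C2 * Real.exp (-(x ^ 2 * dm E / (C2 * (k + 1))))) := by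
      rw [← ENNReal.ofReal_add (by positivity) (by positivity),
        ← ENNReal.ofReal_add (by positivity) (by positivity)]
    _ ≤ ENNReal.ofReal (C * (k + 1) * Real.exp (-(x ^ 2 * dm E / (C * (k + 1))))) := by
      refine ENNReal.ofReal_le_ofReal ?_
      set X := Real.exp (-(x ^ 2 * dm E / (C * (k + 1)))) with hX
      have hX0 : 0 < X := Real.exp_pos _
      have f1 : C1 * (k + 1) * Real.exp (-(x ^ 2 * dm E / (C1 * (k + 1)))) ≤
          C1 * (k + 1) * X := mul_le_mul_of_nonneg_left e1 (by positivity)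
      have f2 : C2 * Real.exp (-(x ^ 2 * dm E / (C2 * (k + 1)))) ≤ C2 * (k + 1) * X := by
        calc C2 * Real.exp (-(x ^ 2 * dm E / (C2 * (k + 1)))) ≤ C2 * X :=
              mul_le_mul_of_nonneg_left e2 hC2.le
          _ ≤ C2 * (k + 1) * X := by
              refine mul_le_mul_of_nonneg_right ?_ hX0.le
              nlinarith
      have f3 : (C1 * (k + 1) * X + C1 * (k + 1) * X + C2 * (k + 1) * X) ≤ C * (k + 1) * X := by
        have : C1 * (k + 1) * X + C1 * (k + 1) * X + C2 * (k + 1) * X =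
          (2 * C1 + C2) * ((k + 1) * X) := by ring
        rw [this, mul_assoc C]
        refine mul_le_mul_of_nonneg_right ?_ (by positivity)
        rw [hC]; linarith
      linarith

end Pool.Agent.Lib.MP17fa2c
end

section
/-!
# MP_17fa2c_pr, block L, module LDZ: large deviations of the residual of `b_k²`
-/
set_option autoImplicit false

open MeasureTheory ProbabilityTheory Filter Topology
open scoped RealInnerProductSpace NNReal ENNReal BoundedContinuousFunction

namespace Pool.Agent.Lib.MP17fa2c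

namespace LDZM

/-- Gaussian tail -/
lemma gauss_tail (v : ℝ≥0) (V y : ℝ) (hV : 0 < V) (hvV : (v : ℝ) ≤ V) (hy : 0 < y) :
    gaussianReal 0 v {z | y < |z|} ≤ ENNReal.ofReal (2 * Real.exp (-(y ^ 2 / (2 * V)))) := by
  have hexp : ∀ s : ℝ, ∫⁻ z, ENNReal.ofReal (Real.exp (s * z)) ∂(gaussianReal 0 v) ≤
      ENNReal.ofReal (Real.exp (V * s ^ 2 / 2)) := by
    intro s
    rw [← ofReal_integral_eq_lintegral_ofReal (integrable_exp_mul_gaussianReal s)
      (Eventually.of_forall fun x => (Real.exp_pos _).le)]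
    apply ENNReal.ofReal_le_ofReal
    have h1 : ∫ x, Real.exp (s * x) ∂(gaussianReal 0 v) = Real.exp (v * s ^ 2 / 2) := by
      have h2 := congrFun (mgf_id_gaussianReal (μ := 0) (v := v)) s
      simp only [mgf, id_eq] at h2
      rw [h2]
      simp
    rw [h1]
    apply Real.exp_le_exp.mpr
    have : (v : ℝ) * s ^ 2 ≤ V * s ^ 2 := mul_le_mul_of_nonneg_right hvV (sq_nonneg s)
    linarith
  have hone : ∀ s : ℝ, s = y / V ∨ s = -(y / V) →
      gaussianReal 0 v {z | y ^ 2 / V < s * z} ≤ ENNReal.ofReal (Real.exp (-(y ^ 2 / (2 * V)))) := by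
    intro s hs
    have hs2 : V * s ^ 2 / 2 = y ^ 2 / (2 * V) := by
      rcases hs with rfl | rfl <;> field_simp
    have hm : Measurable fun z : ℝ => ENNReal.ofReal (Real.exp (-(y ^ 2 / V))) *
        ENNReal.ofReal (Real.exp (s * z)) := by fun_prop
    calc gaussianReal 0 v {z | y ^ 2 / V < s * z}
        ≤ gaussianReal 0 v {z | 1 ≤ ENNReal.ofReal (Real.exp (-(y ^ 2 / V))) *
            ENNReal.ofReal (Real.exp (s * z))} := by
          refine measure_mono fun z hz => ?_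
          have hz' : y ^ 2 / V < s * z := hz
          show 1 ≤ ENNReal.ofReal (Real.exp (-(y ^ 2 / V))) * ENNReal.ofReal (Real.exp (s * z))
          rw [← ENNReal.ofReal_mul (Real.exp_pos _).le, ← Real.exp_add, ← ENNReal.ofReal_one]
          apply ENNReal.ofReal_le_ofReal
          apply Real.one_le_exp
          linarith
      _ ≤ ∫⁻ z, ENNReal.ofReal (Real.exp (-(y ^ 2 / V))) *
            ENNReal.ofReal (Real.exp (s * z)) ∂(gaussianReal 0 v) := by
          have := mul_meas_ge_le_lintegral hm (μ := gaussianReal 0 v) 1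
          rwa [one_mul] at this
      _ ≤ ENNReal.ofReal (Real.exp (-(y ^ 2 / V))) *
            ENNReal.ofReal (Real.exp (V * s ^ 2 / 2)) := by
          rw [lintegral_const_mul' _ _ ENNReal.ofReal_ne_top]
          exact mul_le_mul_right (hexp s) _
      _ = ENNReal.ofReal (Real.exp (-(y ^ 2 / (2 * V)))) := by
          rw [← ENNReal.ofReal_mul (Real.exp_pos _).le, ← Real.exp_add, hs2]
          congr 2
          field_simp
          ring
  have hsub : {z : ℝ | y < |z|} ⊆ {z | y ^ 2 / V < (y / V) * z} ∪ {z | y ^ 2 / V < -(y / V) * z} := by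
    intro z hz
    have hz' : y < |z| := hz
    have hyV : 0 < y / V := by positivity
    have e1 : y ^ 2 / V = y / V * y := by ring
    rcases lt_abs.mp hz' with h | h
    · left
      show y ^ 2 / V < (y / V) * z
      rw [e1]
      exact mul_lt_mul_of_pos_left h hyV
    · right
      show y ^ 2 / V < -(y / V) * z
      rw [e1, neg_mul, ← mul_neg]
      exact mul_lt_mul_of_pos_left h hyV
  calc gaussianReal 0 v {z | y < |z|} ≤ _ := measure_mono hsub
    _ ≤ _ := measure_union_le _ _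
    _ ≤ ENNReal.ofReal (Real.exp (-(y ^ 2 / (2 * V)))) +
        ENNReal.ofReal (Real.exp (-(y ^ 2 / (2 * V)))) :=
        add_le_add (hone _ (Or.inl rfl)) (hone _ (Or.inr rfl))
    _ = ENNReal.ofReal (2 * Real.exp (-(y ^ 2 / (2 * V)))) := by
        rw [← ENNReal.ofReal_add (Real.exp_pos _).le (Real.exp_pos _).le]
        congr 1
        ring

variable {ι : Type} [Fintype ι] [DecidableEq ι]
  {E : Type} [NormedAddCommGroup E] [InnerProductSpace ℝ E] [FiniteDimensional ℝ E]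
  {T : Type} [Fintype T] {S : BStr ι E} {c : T → T → ℝ} {ν : Measure (T → E →L[ℝ] E)}

/-- the tail of `⟪Q G r, s⟫` -/
lemma tail_s (hGI1 : SpecGI1) (hg : GFam S c ν) (hc : Cor c) (Q : E →L[ℝ] E) (hQ : IsPr S Q)
    (i : T) (r s : E) (hr : Q r = 0) (hr1 : ‖r‖ ≤ 1) (hs : Q s = s) (V y : ℝ) (hV : 0 < V)
    (hy : 0 < y) (hsV : ‖s‖ ^ 2 ≤ V) :
    ν {G | y < |⟪Q (G i r), s⟫|} ≤ ENNReal.ofReal (2 * Real.exp (-(y ^ 2 / (2 * V)))) := by
  have := hg.gauss
  obtain ⟨g1, g2, -⟩ := hGI1 ι E T S c ν hg hc Q hQ i i r r hr hr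
  obtain ⟨L, hLe⟩ : ∃ L : StrongDual ℝ (T → E →L[ℝ] E), ∀ G, L G = ⟪s, Q (G i r)⟫ :=
    ⟨(innerSL ℝ s).comp (Q.comp ((ContinuousLinearMap.apply ℝ E r).comp
      (ContinuousLinearMap.proj i))), fun G => rfl⟩
  have hm : ∫ G, L G ∂ν = 0 := by simp_rw [hLe]; exact g1 s
  have hLm : Measurable fun G => L G := L.continuous.measurable
  have hv : Var[L; ν] = ‖s‖ ^ 2 * ‖r‖ ^ 2 := by
    rw [variance_of_integral_eq_zero hLm.aemeasurable hm]
    simp_rw [hLe]
    rw [g2 s, hs]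
  have hlaw : ν.map L = gaussianReal 0 (Var[L; ν]).toNNReal := by
    rw [IsGaussian.map_eq_gaussianReal L, hm]
  have hset : MeasurableSet {z : ℝ | y < |z|} := measurableSet_lt measurable_const (by fun_prop)
  have hV0 : Var[L; ν] ≤ V := by
    rw [hv]
    have h1 : ‖r‖ ^ 2 ≤ 1 := pow_le_one₀ (norm_nonneg _) hr1
    have h2 : 0 ≤ ‖s‖ ^ 2 := by positivity
    nlinarith
  calc ν {G | y < |⟪Q (G i r), s⟫|} = ν (L ⁻¹' {z | y < |z|}) := by
        congr 1
        ext G
        show y < |⟪Q (G i r), s⟫| ↔ y < |L G|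
        rw [hLe, real_inner_comm]
    _ = (ν.map L) {z | y < |z|} := (Measure.map_apply hLm hset).symm
    _ ≤ _ := by
        rw [hlaw]
        exact gauss_tail _ V y hV (by rw [Real.coe_toNNReal _ (variance_nonneg _ _)]; exact hV0) hy

end LDZM

namespace LDZM

/-- the exponents in the Markov inequality -/
lemma expo {C₁ w x sD D θ0 : ℝ} (hC₁ : 1 ≤ C₁) (hw : 0 < w) (hx : 0 < x) (hx1 : x ≤ 1)
    (hsD : 0 < sD) (hD : D = sD ^ 2) (hwD : 1 ≤ w ^ 2 * sD)
    (hθ : θ0 = 1 / (32 * C₁) * x / (w * sD)) :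
    -(θ0 * (x * sD / 4)) + 3 * θ0 ^ 2 * (w * D) + C₁ * θ0 ^ 3 * D ≤ -(x ^ 2 / (256 * C₁ * w)) := by
  have hC0 : 0 < C₁ := by linarith
  set a : ℝ := 1 / (32 * C₁) with ha
  have ha0 : 0 < a := by positivity
  have haC : C₁ * a = 1 / 32 := by rw [ha]; field_simp
  have ha1 : a ≤ 1 / 32 := by nlinarith
  set p : ℝ := x ^ 2 / w with hp
  have hp0 : 0 < p := by positivity
  have e1 : θ0 * (x * sD / 4) = a * p / 4 := by
    rw [hθ, hp]; field_simp
  have e2 : 3 * θ0 ^ 2 * (w * D) = 3 * a ^ 2 * p := by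
    rw [hθ, hp, hD]; field_simp
  have e3 : θ0 ^ 3 * D = a ^ 3 * p * (x / (w ^ 2 * sD)) := by
    rw [hθ, hp, hD]; field_simp
  have e4 : x / (w ^ 2 * sD) ≤ 1 := by
    rw [div_le_one (by positivity)]
    linarith
  have e5 : θ0 ^ 3 * D ≤ a ^ 3 * p := by
    rw [e3]
    exact mul_le_of_le_one_right (by positivity) e4
  have e6 : x ^ 2 / (256 * C₁ * w) = a * p / 8 := by
    rw [ha, hp]; field_simp; norm_num
  have e7 : C₁ * θ0 ^ 3 * D ≤ (1 / 32) * a ^ 2 * p := by
    calc C₁ * θ0 ^ 3 * D = C₁ * (θ0 ^ 3 * D) := by ring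
      _ ≤ C₁ * (a ^ 3 * p) := mul_le_mul_of_nonneg_left e5 hC0.le
      _ = (C₁ * a) * (a ^ 2 * p) := by ring
      _ = _ := by rw [haC]; ring
  rw [e1, e2, e6]
  have hap : 0 < a * p := by positivity
  have e8 : a ^ 2 * p ≤ (1 / 32) * (a * p) := by
    calc a ^ 2 * p = a * (a * p) := by ring
      _ ≤ _ := mul_le_mul_of_nonneg_right ha1 hap.le
  nlinarith

/-- the traces -/
lemma trc {D N q R b w : ℝ} (hN : N ≤ D) (hq : D - b ≤ q) (hqD : q ≤ D) (hR0 : 0 ≤ R)
    (hR1 : R ≤ 1) (hRw : 1 - R ≤ w) (hb : b ≤ w * D) (hD : 0 < D) :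
    N - q * R ≤ 2 * (w * D) ∧ N - q * R ^ 2 ≤ 3 * (w * D) := by
  have h1 : 0 ≤ 1 - R := by linarith
  have h2 : q * (1 - R) ≤ D * (1 - R) := mul_le_mul_of_nonneg_right hqD h1
  have h3 : D * (1 - R) ≤ D * w := mul_le_mul_of_nonneg_left hRw hD.le
  refine ⟨by nlinarith, ?_⟩
  have h4 : 0 ≤ 1 - R ^ 2 := by nlinarith
  have h5 : q * (1 - R ^ 2) ≤ D * (1 - R ^ 2) := mul_le_mul_of_nonneg_right hqD h4
  have h6 : 1 - R ^ 2 ≤ 2 * w := by nlinarith
  have h7 : D * (1 - R ^ 2) ≤ D * (2 * w) := mul_le_mul_of_nonneg_left h6 hD.le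
  nlinarith

end LDZM

open LDZM in
theorem specLDZ (hZE0 : SpecZE0) (hZE1 : SpecZE1) (hRPE : SpecRPE) (hSTP : SpecSTP)
    (hSTK : SpecSTK) (hGI1 : SpecGI1) (hMEA : SpecMEA) (hMEB : SpecMEB) : SpecLDZ := by
  intro ι _ _ T _
  obtain ⟨C₀, hC₀, hze0⟩ := hZE0 ι T
  obtain ⟨C₁, hC₁, hze1⟩ := hZE1 ι T
  set bt : ℝ := (Fintype.card ι : ℝ) * Fintype.card T with hbt
  have hbt0 : 0 ≤ bt := by positivity
  refine ⟨1536 + 768 * C₀ + 256 * C₁ + bt, by linarith, ?_⟩
  intro E _ _ _ S u c ν hg hc hu i k w x hCk hw1 hwD hw0 hx0 hx1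
  set C := 1536 + 768 * C₀ + 256 * C₁ + bt with hC
  have := hg.gauss
  let _ : MeasurableSpace E := borel E
  have _ : BorelSpace E := ⟨rfl⟩
  have hk0 : (0 : ℝ) ≤ k := Nat.cast_nonneg _
  have hk1 : (0 : ℝ) < (k : ℝ) + 1 := by positivity
  have hC1 : 1 ≤ C := by rw [hC]; linarith
  have hC0 : 0 < C := by linarith
  have hwD0 : 0 < w * dm E := lt_of_lt_of_le (by positivity) hCk
  have hD0 : 0 < dm E := (mul_pos_iff_of_pos_left hw0).mp hwD0
  set sD := Real.sqrt (dm E) with hsD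
  have hsD0 : 0 < sD := Real.sqrt_pos.2 hD0
  have hsD2 : dm E = sD ^ 2 := (Real.sq_sqrt hD0.le).symm
  have hws : 1 ≤ w * sD := by
    have : w ^ 2 * sD ≤ w * sD := by
      have h1 : 0 < w * sD := by positivity
      nlinarith
    linarith
  have hsDw : sD ≤ w * dm E := by
    rw [hsD2]
    nlinarith
  have hwDD : w * dm E ≤ dm E := mul_le_of_le_one_left hD0.le hw1
  have hCkD : C * ((k : ℝ) + 1) ≤ dm E := hCk.trans hwDD
  have hle : ∀ A : ℝ, A ≤ C → A * ((k : ℝ) + 1) ≤ w * dm E := fun A hA =>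
    (mul_le_mul_of_nonneg_right hA hk1.le).trans hCk
  have hk00 : C₀ * ((k : ℝ) + 1) ≤ dm E := (hle C₀ (by rw [hC]; linarith)).trans hwDD
  have hk01 : C₁ * ((k : ℝ) + 1) ≤ dm E := (hle C₁ (by rw [hC]; linarith)).trans hwDD
  have hkbt : bt * ((k : ℝ) + 1) ≤ w * dm E := hle bt (by rw [hC]; linarith)
  have hnk : nk ι E k ≤ dm E := by
    unfold nk
    have : (0 : ℝ) ≤ Fintype.card ι * ((k : ℝ) + 1) := by positivity
    linarith
  -- measurability
  have hmr : Measurable fun M : T → E →L[ℝ] E => rr S u M k i := (hMEB ι E T S u k i).2.1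
  have hmtr : Measurable fun M : T → E →L[ℝ] E => tr (qq S u M k) :=
    (hMEB ι E T S u k i).2.2.2.2.1
  have hmq : Measurable fun M : T → E →L[ℝ] E => qq S u M k (M i (rr S u M k i)) :=
    (hMEB ι E T S u k i).2.2.2.2.2.2.2.2
  have hmb : Measurable fun M : T → E →L[ℝ] E => bv (M i) u k := (hMEA ι E T S u k).2.2.2.1 i
  have hmres : Measurable fun p : (T → E →L[ℝ] E) × (T → E →L[ℝ] E) =>
      res (expl S u p.1 k) p.1 p.2 := by
    have h2 : Measurable (fun p : (T → E →L[ℝ] E) × (T → E →L[ℝ] E) =>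
        (expl S u p.1 k, p.1, p.2)) :=
      ((hMEA ι E T S u k).1.comp measurable_fst).prodMk (measurable_fst.prodMk measurable_snd)
    exact (hMEA ι E T S u k).2.2.2.2.2.comp h2
  have hmz : Measurable fun M : T → E →L[ℝ] E => zb S u ν M k i := by
    have h1 : Measurable fun p : (T → E →L[ℝ] E) × (T → E →L[ℝ] E) =>
        bv (res (expl S u p.1 k) p.1 p.2 i) u k ^ 2 - nk ι E k :=
      ((hmb.comp hmres).pow_const 2).sub_const _
    exact h1.stronglyMeasurable.integral_prod_right'.measurable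
  -- the conditional mean
  set Z : Set (T → E →L[ℝ] E) :=
    {M | 1 - ‖rr S u M k i‖ ^ 2 ≤ w ∧ x * sD / 4 < |zb S u ν M k i|} with hZdef
  have hZm : MeasurableSet Z :=
    (measurableSet_le ((hmr.norm.pow_const 2).const_sub 1) measurable_const).inter
      (measurableSet_lt measurable_const hmz.abs)
  obtain ⟨θ0, hθ0⟩ : ∃ θ0 : ℝ, θ0 = 1 / (32 * C₁) * x / (w * sD) := ⟨_, rfl⟩
  have hθ0p : 0 < θ0 := by rw [hθ0]; positivity
  have hθ0C : C₁ * θ0 ≤ 1 := by
    have h1 : C₁ * θ0 = x / (32 * (w * sD)) := by rw [hθ0]; field_simp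
    rw [h1, div_le_one (by positivity)]
    nlinarith
  have hone : ∀ θ : ℝ, |θ| = θ0 →
      ν {M | 1 - ‖rr S u M k i‖ ^ 2 ≤ w ∧ θ0 * (x * sD / 4) < θ * zb S u ν M k i} ≤
      ENNReal.ofReal (Real.exp (-(x ^ 2 / (256 * C₁ * w)))) := by
    intro θ hθ
    have hθ2 : θ ^ 2 = θ0 ^ 2 := by rw [← hθ, sq_abs]
    have h1 := hze1 E S u c ν hg hc hu i k θ hk01 (by rw [hθ]; exact hθ0C)
    rw [hθ] at h1
    set f : (T → E →L[ℝ] E) → ℝ≥0∞ := fun M => ENNReal.ofReal (Real.exp (θ * zb S u ν M k i -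
      θ ^ 2 * (nk ι E k - tr (qq S u M k) * ‖rr S u M k i‖ ^ 4))) with hf
    have hfm : Measurable f :=
      (((hmz.const_mul θ).sub (((hmtr.mul (hmr.norm.pow_const 4)).const_sub _).const_mul
        _)).exp).ennreal_ofReal
    set f' : (T → E →L[ℝ] E) → ℝ≥0∞ := fun M =>
      ENNReal.ofReal (Real.exp (-(θ0 * (x * sD / 4)) + 3 * θ0 ^ 2 * (w * dm E))) * f M with hf'
    have hfm' : Measurable f' := hfm.const_mul _
    calc ν {M | 1 - ‖rr S u M k i‖ ^ 2 ≤ w ∧ θ0 * (x * sD / 4) < θ * zb S u ν M k i}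
        ≤ ν {M | 1 ≤ f' M} := by
          refine measure_mono_ae ?_
          filter_upwards [hg.herm] with M hM hMs
          obtain ⟨hM1, hM2⟩ := hMs
          obtain ⟨-, -, -, -, -, -, -, h8, -, -, -, -, h13, h14, -⟩ := hSTP ι E T S u M hM hu k i
          have hR1 : ‖rr S u M k i‖ ^ 2 ≤ 1 := pow_le_one₀ (norm_nonneg _) h8
          have ht := (trc (b := bt * ((k : ℝ) + 1)) hnk (by
            rw [hbt]; linarith) h14 (by positivity) hR1 hM1 hkbt hD0).2
          have e4 : (‖rr S u M k i‖ ^ 2) ^ 2 = ‖rr S u M k i‖ ^ 4 := by ring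
          rw [e4] at ht
          show 1 ≤ f' M
          simp only [hf', hf]
          rw [← ENNReal.ofReal_mul (Real.exp_pos _).le, ← Real.exp_add, ← ENNReal.ofReal_one]
          apply ENNReal.ofReal_le_ofReal
          apply Real.one_le_exp
          have h5 := mul_le_mul_of_nonneg_left ht (sq_nonneg θ0)
          rw [hθ2]
          linarith
      _ ≤ ∫⁻ M, f' M ∂ν := by
          have := mul_meas_ge_le_lintegral hfm' (μ := ν) 1
          rwa [one_mul] at this
      _ ≤ ENNReal.ofReal (Real.exp (-(θ0 * (x * sD / 4)) + 3 * θ0 ^ 2 * (w * dm E))) *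
            ENNReal.ofReal (Real.exp (C₁ * θ0 ^ 3 * dm E)) := by
          simp only [hf']
          rw [lintegral_const_mul' _ _ ENNReal.ofReal_ne_top]
          exact mul_le_mul_right h1 _
      _ ≤ _ := by
          rw [← ENNReal.ofReal_mul (Real.exp_pos _).le, ← Real.exp_add]
          apply ENNReal.ofReal_le_ofReal
          apply Real.exp_le_exp.mpr
          exact expo hC₁ hw0 hx0 hx1 hsD0 hsD2 hwD hθ0
  have hZb : ν Z ≤ ENNReal.ofReal (2 * Real.exp (-(x ^ 2 / (256 * C₁ * w)))) := by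
    have hsub : Z ⊆
        {M | 1 - ‖rr S u M k i‖ ^ 2 ≤ w ∧ θ0 * (x * sD / 4) < θ0 * zb S u ν M k i} ∪
        {M | 1 - ‖rr S u M k i‖ ^ 2 ≤ w ∧ θ0 * (x * sD / 4) < -θ0 * zb S u ν M k i} := by
      rintro M ⟨h1, h2⟩
      rcases lt_abs.mp h2 with h | h
      · exact Or.inl ⟨h1, mul_lt_mul_of_pos_left h hθ0p⟩
      · refine Or.inr ⟨h1, ?_⟩
        rw [neg_mul, ← mul_neg]
        exact mul_lt_mul_of_pos_left h hθ0p
    calc _ ≤ _ := measure_mono hsub
      _ ≤ _ := measure_union_le _ _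
      _ ≤ ENNReal.ofReal (Real.exp (-(x ^ 2 / (256 * C₁ * w)))) +
          ENNReal.ofReal (Real.exp (-(x ^ 2 / (256 * C₁ * w)))) :=
          add_le_add (hone _ (abs_of_pos hθ0p)) (hone _ (by rw [abs_neg, abs_of_pos hθ0p]))
      _ = _ := by
        rw [← ENNReal.ofReal_add (Real.exp_pos _).le (Real.exp_pos _).le]
        congr 1
        ring
  -- the small deviations
  set A : Set (T → E →L[ℝ] E) := {M | 1 - ‖rr S u M k i‖ ^ 2 ≤ w ∧ x * sD <
    |bv (M i) u k ^ 2 - nk ι E k - (‖qq S u M k (M i (rr S u M k i))‖ ^ 2 -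
      tr (qq S u M k) * ‖rr S u M k i‖ ^ 2)|} with hA
  have hAm : MeasurableSet A :=
    (measurableSet_le ((hmr.norm.pow_const 2).const_sub 1) measurable_const).inter
      (measurableSet_lt measurable_const ((((hmb.pow_const 2).sub_const _).sub
        ((hmq.norm.pow_const 2).sub (hmtr.mul (hmr.norm.pow_const 2)))).abs))
  have hE1 : ∀ B : ℝ, 0 < B → B ≤ C → Real.exp (-(x ^ 2 / (B * w))) ≤
      Real.exp (-(x ^ 2 / (C * w))) := by
    intro B hB hBC
    apply Real.exp_le_exp.mpr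
    apply neg_le_neg
    apply div_le_div_of_nonneg_left (by positivity) (by positivity)
    exact mul_le_mul_of_nonneg_right hBC hw0.le
  rcases lt_or_ge (x * sD) (8 * C₀) with hsmall | hbig
  · -- trivial bound
    have h1 : ν A ≤ 1 := prob_le_one
    refine h1.trans ?_
    rw [← ENNReal.ofReal_one]
    apply ENNReal.ofReal_le_ofReal
    have h2 : x * sD / C ≤ 1 := by
      rw [div_le_one hC0, hC]
      linarith
    have h3 : Real.exp (-1) ≤ Real.exp (-(x * sD / C)) := Real.exp_le_exp.mpr (by linarith)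
    have h4 : (1 : ℝ) / 3 ≤ Real.exp (-1) := by
      have := Real.exp_one_lt_d9
      rw [Real.exp_neg, one_div]
      apply inv_anti₀ (Real.exp_pos _)
      linarith
    have h5 : 0 ≤ C * Real.exp (-(x ^ 2 / (C * w))) := by positivity
    have h6 : (3 : ℝ) ≤ C := by rw [hC]; linarith
    nlinarith
  have hDelta : ∀ᵐ M ∂ν, ∫⁻ G, A.indicator (fun _ => (1 : ℝ≥0∞)) (res (expl S u M k) M G) ∂ν ≤
      Z.indicator (fun _ => (1 : ℝ≥0∞)) M +
        ENNReal.ofReal (4 * Real.exp (-(x ^ 2 / (C * w))) + C₀ * Real.exp (-(x * sD / C))) := by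
    filter_upwards [hg.herm, hze0 E S u c ν hg hc hu i k hk00] with M hM hze
    by_cases hMZ : M ∈ Z
    · refine le_trans ?_ le_self_add
      rw [Set.indicator_of_mem hMZ]
      calc _ ≤ ∫⁻ _G : T → E →L[ℝ] E, (1 : ℝ≥0∞) ∂ν := by
            refine lintegral_mono fun G => ?_
            by_cases h : res (expl S u M k) M G ∈ A
            · rw [Set.indicator_of_mem h]
            · rw [Set.indicator_of_notMem h]; exact zero_le
        _ = 1 := by rw [lintegral_const, measure_univ, mul_one]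
    refine le_trans ?_ le_add_self
    obtain ⟨-, h2, -, -, h5, -, -, h8, -, -, -, h12, h13, h14, -⟩ := hSTP ι E T S u M hM hu k i
    obtain ⟨s, y, g, γ, hs, hγ0, hγ, hsy, hy, hgn, -, hid⟩ := hze
    have hmG : Measurable fun G : T → E →L[ℝ] E => res (expl S u M k) M G :=
      hmres.comp (measurable_const.prodMk measurable_id)
    have hstk := hSTK ι E T S u hu k i
    have hkeep : ∀ᵐ G ∂ν, rr S u (res (expl S u M k) M G) k i = rr S u M k i ∧
        qq S u (res (expl S u M k) M G) k = qq S u M k ∧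
        qq S u M k (res (expl S u M k) M G i (rr S u M k i)) =
          qq S u M k (G i (rr S u M k i)) := by
      filter_upwards [hg.herm] with G hG
      exact ⟨hstk.2.2.2.2.1 M G hM hG, hstk.2.2.2.2.2.2.1 M G hM hG,
        (hstk.2.2.2.2.2.2.2.2.2.2.2 M G hM hG _ h5).1⟩
    by_cases hgood : 1 - ‖rr S u M k i‖ ^ 2 ≤ w
    swap
    · have h0 : ∀ᵐ G ∂ν, A.indicator (fun _ => (1 : ℝ≥0∞)) (res (expl S u M k) M G) = 0 := by
        filter_upwards [hkeep] with G hG
        rw [Set.indicator_of_notMem]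
        rintro ⟨hGA, -⟩
        rw [hG.1] at hGA
        exact hgood hGA
      rw [lintegral_congr_ae h0, lintegral_zero]
      exact zero_le
    have hzb : |zb S u ν M k i| ≤ x * sD / 4 := not_lt.1 fun h => hMZ ⟨hgood, h⟩
    have hR1 : ‖rr S u M k i‖ ^ 2 ≤ 1 := pow_le_one₀ (norm_nonneg _) h8
    have ht := (trc (b := bt * ((k : ℝ) + 1)) hnk (by
      rw [hbt]; linarith) h14 (by positivity) hR1 hgood hkbt hD0).1
    have hxs : x * sD ≤ w * dm E := (mul_le_of_le_one_left hsD0.le hx1).trans hsDw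
    have hsum : ‖s‖ ^ 2 + ‖y‖ ^ 2 ≤ 3 * (w * dm E) := by
      have := (abs_le.1 hzb).2
      linarith
    have hs2 : ‖s‖ ^ 2 ≤ 3 * (w * dm E) := by nlinarith [sq_nonneg ‖y‖]
    have hy2 : ‖y‖ ^ 2 ≤ 3 * (w * dm E) := by nlinarith [sq_nonneg ‖s‖]
    have hxsD : 0 < x * sD := by positivity
    -- the three tails
    have t1 : ν {G | x * sD / 16 < |⟪qq S u M k (G i (rr S u M k i)), s⟫|} ≤
        ENNReal.ofReal (2 * Real.exp (-(x ^ 2 / (C * w)))) := by
      refine (tail_s hGI1 hg hc (qq S u M k) h12 i (rr S u M k i) s h2 h8 hs (3 * (w * dm E))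
        (x * sD / 16) (by positivity) (by positivity) hs2).trans ?_
      apply ENNReal.ofReal_le_ofReal
      apply mul_le_mul_of_nonneg_left _ (by norm_num)
      have e1 : (x * sD / 16) ^ 2 / (2 * (3 * (w * dm E))) = x ^ 2 / (1536 * w) := by
        rw [hsD2]; field_simp; norm_num
      rw [e1]
      exact hE1 1536 (by norm_num) (by rw [hC]; linarith)
    have t2 : ν {G | x * sD / 16 < |⟪y, g G⟫|} ≤
        ENNReal.ofReal (2 * Real.exp (-(x ^ 2 / (C * w)))) := by
      by_cases hy0 : ‖y‖ = 0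
      · have : {G : T → E →L[ℝ] E | x * sD / 16 < |⟪y, g G⟫|} = ∅ := by
          ext G
          rw [norm_eq_zero] at hy0
          simp only [hy0, inner_zero_left, abs_zero, Set.mem_ofPred_eq, Set.mem_empty_iff_false,
            iff_false, not_lt]
          positivity
        rw [this, measure_empty]
        exact zero_le
      · refine (hy (x * sD / 16) (by positivity)).trans ?_
        apply ENNReal.ofReal_le_ofReal
        apply mul_le_mul_of_nonneg_left _ (by norm_num)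
        have hyp : 0 < ‖y‖ ^ 2 := by positivity
        have e1 : x ^ 2 / (768 * C₀ * w) = (x * sD / 16) ^ 2 / (C₀ * (3 * (w * dm E))) := by
          rw [hsD2]; field_simp; norm_num
        have e2 : x ^ 2 / (768 * C₀ * w) ≤ (x * sD / 16) ^ 2 / (C₀ * ‖y‖ ^ 2) := by
          rw [e1]
          apply div_le_div_of_nonneg_left (by positivity) (by positivity)
          exact mul_le_mul_of_nonneg_left hy2 (by linarith)
        refine (Real.exp_le_exp.mpr (neg_le_neg e2)).trans ?_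
        exact hE1 (768 * C₀) (by positivity) (by rw [hC]; linarith)
    have t3 : ν {G | x * sD / 8 < ‖g G‖ ^ 2} ≤
        ENNReal.ofReal (C₀ * Real.exp (-(x * sD / C))) := by
      refine (hgn (x * sD / 8) (by positivity)).trans ?_
      apply ENNReal.ofReal_le_ofReal
      apply mul_le_mul_of_nonneg_left _ (by linarith)
      apply Real.exp_le_exp.mpr
      apply neg_le_neg
      have e1 : x * sD / 8 / C₀ = x * sD / (8 * C₀) := by field_simp
      rw [e1]
      apply div_le_div_of_nonneg_left (by positivity) (by positivity)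
      rw [hC]; linarith
    have hAG : MeasurableSet {G : T → E →L[ℝ] E | res (expl S u M k) M G ∈ A} := hmG hAm
    calc ∫⁻ G, A.indicator (fun _ => (1 : ℝ≥0∞)) (res (expl S u M k) M G) ∂ν
        = ν {G | res (expl S u M k) M G ∈ A} := by
          rw [← lintegral_indicator_one hAG]
          rfl
      _ ≤ ν (({G | x * sD / 16 < |⟪qq S u M k (G i (rr S u M k i)), s⟫|} ∪
            {G | x * sD / 16 < |⟪y, g G⟫|}) ∪ {G | x * sD / 8 < ‖g G‖ ^ 2}) := by
          refine measure_mono_ae ?_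
          filter_upwards [hkeep, hid] with G hG hGid hGA
          obtain ⟨k1, k2, k3⟩ := hG
          have hGA2 : x * sD < |bv (res (expl S u M k) M G i) u k ^ 2 - nk ι E k -
            (‖qq S u (res (expl S u M k) M G) k (res (expl S u M k) M G i
              (rr S u (res (expl S u M k) M G) k i))‖ ^ 2 -
              tr (qq S u (res (expl S u M k) M G) k) *
                ‖rr S u (res (expl S u M k) M G) k i‖ ^ 2)| := hGA.2
          rw [k1, k2, k3] at hGA2
          by_contra hcon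
          have hcon' : ¬ ((x * sD / 16 < |⟪qq S u M k (G i (rr S u M k i)), s⟫| ∨
            x * sD / 16 < |⟪y, g G⟫|) ∨ x * sD / 8 < ‖g G‖ ^ 2) := hcon
          push Not at hcon'
          obtain ⟨⟨n1, n2⟩, n3⟩ := hcon'
          have e1 : bv (res (expl S u M k) M G i) u k ^ 2 - nk ι E k -
              (‖qq S u M k (G i (rr S u M k i))‖ ^ 2 - tr (qq S u M k) *
                ‖rr S u M k i‖ ^ 2) = zb S u ν M k i +
              (2 * ⟪qq S u M k (G i (rr S u M k i)), s⟫ + 2 * ⟪y, g G⟫ + ‖g G‖ ^ 2 - γ) := by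
            linarith
          rw [e1] at hGA2
          have a1 := abs_le.1 n1
          have a2 := abs_le.1 n2
          have a3 := abs_le.1 hzb
          have a4 : 0 ≤ ‖g G‖ ^ 2 := by positivity
          have : |zb S u ν M k i + (2 * ⟪qq S u M k (G i (rr S u M k i)), s⟫ + 2 * ⟪y, g G⟫ +
              ‖g G‖ ^ 2 - γ)| ≤ x * sD := by
            rw [abs_le]
            constructor
            · linarith [a1.1, a2.1, a3.1]
            · linarith [a1.2, a2.2, a3.2]
          linarith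
      _ ≤ _ := measure_union_le _ _
      _ ≤ (ENNReal.ofReal (2 * Real.exp (-(x ^ 2 / (C * w)))) +
            ENNReal.ofReal (2 * Real.exp (-(x ^ 2 / (C * w))))) +
            ENNReal.ofReal (C₀ * Real.exp (-(x * sD / C))) :=
          add_le_add ((measure_union_le _ _).trans (add_le_add t1 t2)) t3
      _ = _ := by
          rw [← ENNReal.ofReal_add (by positivity) (by positivity),
            ← ENNReal.ofReal_add (by positivity) (by positivity)]
          congr 1
          ring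
  -- assembly
  have h1 := hRPE ι E T S c ν u hg k (A.indicator fun _ => 1) (measurable_const.indicator hAm)
  have h2 : ∫⁻ M, A.indicator (fun _ => (1 : ℝ≥0∞)) M ∂ν = ν A := by
    rw [lintegral_indicator hAm, lintegral_const, one_mul, Measure.restrict_apply_univ]
  have h3 : ∫⁻ M, Z.indicator (fun _ => (1 : ℝ≥0∞)) M ∂ν = ν Z := by
    rw [lintegral_indicator hZm, lintegral_const, one_mul, Measure.restrict_apply_univ]
  show ν A ≤ _
  rw [← h2, h1]
  calc _ ≤ ∫⁻ M, (Z.indicator (fun _ => (1 : ℝ≥0∞)) M +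
        ENNReal.ofReal (4 * Real.exp (-(x ^ 2 / (C * w))) + C₀ * Real.exp (-(x * sD / C)))) ∂ν :=
        lintegral_mono_ae hDelta
    _ = ν Z + ENNReal.ofReal (4 * Real.exp (-(x ^ 2 / (C * w))) +
          C₀ * Real.exp (-(x * sD / C))) := by
        rw [lintegral_add_right _ measurable_const, h3, lintegral_const, measure_univ, mul_one]
    _ ≤ ENNReal.ofReal (2 * Real.exp (-(x ^ 2 / (C * w)))) +
          ENNReal.ofReal (4 * Real.exp (-(x ^ 2 / (C * w))) + C₀ * Real.exp (-(x * sD / C))) := by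
        refine add_le_add (hZb.trans (ENNReal.ofReal_le_ofReal ?_)) le_rfl
        apply mul_le_mul_of_nonneg_left _ (by norm_num)
        exact hE1 (256 * C₁) (by positivity) (by rw [hC]; linarith)
    _ ≤ _ := by
        rw [← ENNReal.ofReal_add (by positivity) (by positivity)]
        apply ENNReal.ofReal_le_ofReal
        have q1 : 0 < Real.exp (-(x ^ 2 / (C * w))) := Real.exp_pos _
        have q2 : 0 < Real.exp (-(x * sD / C)) := Real.exp_pos _
        have q3 : 6 * Real.exp (-(x ^ 2 / (C * w))) ≤ C * Real.exp (-(x ^ 2 / (C * w))) :=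
          mul_le_mul_of_nonneg_right (by rw [hC]; linarith) q1.le
        have q4 : C₀ * Real.exp (-(x * sD / C)) ≤ C * Real.exp (-(x * sD / C)) :=
          mul_le_mul_of_nonneg_right (by rw [hC]; linarith) q2.le
        linarith

end Pool.Agent.Lib.MP17fa2c
end
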