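import Pool.Agent.Lib.MP_17fa2c_pr.TD.SpecB
import Pool.Agent.Lib.MP_17fa2c_pr.TD.SpecK
import Pool.Agent.Lib.MP_17fa2c_pr.TD.SpecL

/-!
# MP_17fa2c_pr, block X: three-scale tightness criterion and the final assembly

Every module: file `TD/XXX.lean`, `import Pool.Agent.Lib.MP_17fa2c_pr.TD.SpecX`,
`theorem specXXX (hYYY : SpecYYY) .. : SpecXXX`, own lemmas in the namespace `XXXM`.
-/

set_option autoImplicit false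

open MeasureTheory ProbabilityTheory Filter Topology
open scoped RealInnerProductSpace NNReal ENNReal BoundedContinuousFunction Quaternion

namespace Pool.Agent.Lib.MP17fa2c

/-- piecewise linear interpolation at the dyadic points of level `L` -/
def IsItp {K : Type} (I : ℕ → Pth K → Pth K) : Prop :=
  ∀ (L : ℕ) (x : Pth K) (i : ℕ) (f : ℝ≥0), f ≤ 1 →
    I L x (((i : ℝ≥0) + f) / 2 ^ L) =
      ((1 : ℝ) - f) • x ((i : ℝ≥0) / 2 ^ L) + (f : ℝ) • x (((i : ℝ≥0) + 1) / 2 ^ L)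

/-- Three-scale bound of the increments. -/
structure ThreeScale {K : Type} [Fintype K] {Ω : Type*} [MeasurableSpace Ω] (P : Measure Ω)
    (X : Ω → Pth K) (C0 a e : ℝ) (L : ℕ) : Prop where
  ha : 1 ≤ a
  he : 0 ≤ e
  heL : e * 4 ^ L ≤ 1
  fine : ∀ s t : ℝ≥0, |(t : ℝ) - s| ≤ 1 →
    ∫⁻ ω, ENNReal.ofReal (‖X ω t - X ω s‖ ^ 4) ∂P ≤ ENNReal.ofReal (a * ((t : ℝ) - s) ^ 2)
  coarse : ∀ s t : ℝ≥0, |(t : ℝ) - s| ≤ 1 → ∀ x : ℝ, 0 < x →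
    P {ω | x < ‖X ω t - X ω s‖} ≤
      ENNReal.ofReal (C0 * (|(t : ℝ) - s| ^ 3 + e) * ((x ^ 2)⁻¹ + (x ^ 8)⁻¹))

/-- **ITP** (120 lines). Interpolation exists. -/
def SpecITP : Prop := ∀ (K : Type) [Fintype K], ∃ I : ℕ → Pth K → Pth K, IsItp I

/-- **TI3** (200 lines; from DYA). Tightness of the interpolations.
Proof. If all increments of `x` over dyadic intervals of level `l ≤ L` in `[0, N]` are `≤ A 2^{-l/8}` then `DyB N A (I L x)`: at levels `l > L` the increments of the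
interpolation are `≤ 2^{-(l-L)} A 2^{-L/8}`. Union bound with `coarse`, `x = A 2^{-l/8}`, `A ≥ 1`: `∑_{l ≤ L} N 2^l C0 (2^{-3l} + e) A^{-2} (2^{l/4} + 2^l) ≤ 2 C0 N A^{-2} ∑_{l ≤ L}
(2^{-l} + e 4^l) ≤ C A^{-2}` (`e 4^L ≤ 1`). Then DYA as in TGT (`TD/TGT.lean`). -/
def SpecTI3 : Prop := ∀ (C0 C1 ε : ℝ), 0 ≤ C0 → 0 ≤ C1 → 0 < ε → ∃ h : ℕ → ℝ,
  ∀ (K : Type) [Fintype K] (I : ℕ → Pth K → Pth K) (Ω : Type)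
  [MeasurableSpace Ω] (P : Measure Ω) [IsProbabilityMeasure P] (X : Ω → Pth K) (a e : ℝ) (L : ℕ),
  IsItp I → (∀ t, Measurable fun ω => X ω t) → ThreeScale P X C0 a e L →
  (∀ R : ℝ, 0 < R → P {ω | R < ‖X ω 0‖} ≤ ENNReal.ofReal (C1 / R ^ 2)) →
  P {ω | I L (X ω) ∉ HK h} ≤ ENNReal.ofReal ε

/-- **SU3** (250 lines). Distance between the path and its interpolation.
Proof. `L ≤ L2`. Bad events: (a) for some dyadic `t ≤ N + 1` of level `L2` and `s` one of the two ends of the level-`L` cell of `t`, or for the two ends of a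
level-`L` cell: `‖X_t - X_s‖ > x`: probability `≤ C (N+1) 2^{L2} p`; (b) for some `l > L2` some increment of level `l` in `[0, N+1]` is `> c x 2^{-(l-L2)/8}`
(`c = (1 - 2^{-1/8})/2`): by `fine` and Markov `≤ ∑_{l > L2} (N+1) 2^l a 4^{-l} (c x)^{-4} 2^{(l-L2)/2} ≤ C (N+1) a 2^{-L2} x^{-4}`. Off these events: for `t' = ⌊2^{L2} t⌋/2^{L2}`
`‖X_t - X_{t'}‖ ≤ x` (chaining from `t'` to `t` through the binary digits, continuity), `‖X_{t'} - I_{t'}‖ ≤ x` (convex combination), `‖I_t - I_{t'}‖ ≤ x`. -/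
def SpecSU3 : Prop := ∀ (N : ℕ), ∃ C : ℝ, 0 < C ∧
  ∀ (K : Type) [Fintype K] (I : ℕ → Pth K → Pth K) (Ω : Type)
  [MeasurableSpace Ω] (P : Measure Ω) [IsProbabilityMeasure P] (X : Ω → Pth K)
  (C0 a e x p : ℝ) (L L2 : ℕ),
  IsItp I → (∀ t, Measurable fun ω => X ω t) → ThreeScale P X C0 a e L → L ≤ L2 → 0 < x → 0 ≤ p →
  (∀ s t : ℝ≥0, |(t : ℝ) - s| ≤ 1 / 2 ^ L → P {ω | x < ‖X ω t - X ω s‖} ≤ ENNReal.ofReal p) →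
  P {ω | ∃ t : ℝ≥0, t ≤ N ∧ 3 * x < ‖X ω t - I L (X ω) t‖} ≤
    ENNReal.ofReal (C * (2 ^ L2 * p + a / (2 ^ L2 * x ^ 4)))

/-- **WC3** (300 lines; from ITP, TI3, SU3, ARZ, UNI, INP, TGT, MSR; compare `TD/WCV.lean`). Weak convergence, three-scale version.
Proof. Choose `L2` with `a √w ≤ 2^{L2} ≤ 2 a √w` (`≥ 2^L` as `4^L ≤ w`): SU3 with `p = ε/(a w)` gives `P(sup_{[0,N]} ‖X - I_L X‖ > 3 x) ≤ C (2 ε/√w + 1/(√w x⁴)) → 0` for all `N, x`.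
`X̃ = I_L X` is in the compact set `HK h` with probability `≥ 1 - ε` (TI3), `Y` too (TGT). UNI: `|Φ(X) - Φ(X̃)| ≤ ε` if `X̃ ∈ HK h` and `sup_{[0,N]} ‖X - X̃‖ ≤ δ`. In the same way
`|Φ(I_m X̃) - Φ(X̃)| ≤ ε` (INP, UNI), and `I_m X` is uniformly close to `I_m X̃`, which is close to `X̃`; so `E Φ(X) ≈ E Φ(X̃) ≈ E Φ(I_m X) → E Φ(I_m Y) ≈ E Φ(Y)`. -/
def SpecWC3 : Prop := ∀ (K : Type) [Fintype K] (Ω : ℕ → Type) [∀ n, MeasurableSpace (Ω n)]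
  (P : ∀ n, Measure (Ω n)) [∀ n, IsProbabilityMeasure (P n)] (X : ∀ n, Ω n → Pth K)
  (Ω' : Type) [MeasurableSpace Ω'] (P' : Measure Ω') [IsProbabilityMeasure P'] (Y : Ω' → Pth K)
  (C0 C1 : ℝ) (a e w : ℕ → ℝ) (L : ℕ → ℕ) (a' e' : ℝ),
  (∀ n t, Measurable fun ω => X n ω t) → (∀ t, Measurable fun ω => Y ω t) →
  0 ≤ C0 → 0 ≤ C1 → (∀ᶠ n in atTop, ThreeScale (P n) (X n) C0 (a n) (e n) (L n)) →
  Tendsto w atTop atTop → (∀ᶠ n in atTop, (4 : ℝ) ^ L n ≤ w n) →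
  (∀ x : ℝ, 0 < x → ∀ ε : ℝ, 0 < ε → ∀ᶠ n in atTop, ∀ s t : ℝ≥0, |(t : ℝ) - s| ≤ 1 / 2 ^ L n →
    P n {ω | x < ‖X n ω t - X n ω s‖} ≤ ENNReal.ofReal (ε / (a n * w n))) →
  TwoScale P' Y C0 a' e' →
  (∀ᶠ n in atTop, ∀ R : ℝ, 0 < R → P n {ω | R < ‖X n ω 0‖} ≤ ENNReal.ofReal (C1 / R ^ 2)) →
  (∀ R : ℝ, 0 < R → P' {ω | R < ‖Y ω 0‖} ≤ ENNReal.ofReal (C1 / R ^ 2)) →
  (∀ (m : ℕ) (t : Fin m → ℝ≥0) (f : (Fin m → K → ℝ) →ᵇ ℝ),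
    Tendsto (fun n => ∫ ω, f (fun i => X n ω (t i)) ∂(P n)) atTop
      (𝓝 (∫ ω, f (fun i => Y ω (t i)) ∂P'))) →
  ∀ Φ : Pth K →ᵇ ℝ, Tendsto (fun n => ∫ ω, Φ (X n ω) ∂(P n)) atTop (𝓝 (∫ ω, Φ (Y ω) ∂P'))

/-- **TX3** (200 lines; from TSK, LDP, RHO). Three-scale bound for the process of rescaled entries.
Proof. As TSX (`TD/TSX.lean`): the pair law at times `s/(k+1)`, `t/(k+1)` is `GFam (c2 (exp (-τ)))`, `(k+1) τ = |t - s|`. `fine`: TSK, `κ^{1/100} exp (C √(κ³/D)) ≤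
exp (D^{1/7})/(..)` for `κ ≤ δ D^{3/7}`, `D ≥ D₀`. `coarse`: LDP for each component, `e = D^{-4/7}` (constants in `C₀`), `e 4^L ≤ 4 D^{1/3 - 4/7} ≤ 1`. Initial value: Chebyshev. -/
def SpecTX3 : Prop := ∀ (ι : Type) [Fintype ι] [DecidableEq ι] (j : ℕ),
  ∃ C₀ C₁ D₀ δ : ℝ, 0 ≤ C₀ ∧ 0 ≤ C₁ ∧ 0 < δ ∧ ∀ (E : Type) [NormedAddCommGroup E]
  [InnerProductSpace ℝ E] [FiniteDimensional ℝ E] (S : BStr ι E) (u : E)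
  (Ω : Type) [MeasurableSpace Ω] (P : Measure Ω) [IsProbabilityMeasure P]
  (Z : Ω → ℝ≥0 → E →L[ℝ] E) (kk : Fin j → ℕ) (X : Ω → Pth (Fin j ⊕ Fin j)) (L : ℕ),
  ‖u‖ = 1 → OPr S P Z → D₀ ≤ dm E →
  (∀ i, (kk i : ℝ) + 1 ≤ δ * dm E ^ (3 / 7 : ℝ)) → (2 : ℝ) ^ L ≤ 2 * dm E ^ (1 / 6 : ℝ) →
  (∀ t, Measurable fun ω => X ω t) →
  (∀ t, ∀ᵐ ω ∂P, X ω t = ent ι u (Z ω) kk t) →
  ThreeScale P X C₀ (Real.exp (dm E ^ (1 / 7 : ℝ))) (dm E ^ (-(4 / 7) : ℝ)) L ∧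
  ∀ R : ℝ, 0 < R → P {ω | R < ‖X ω 0‖} ≤ ENNReal.ofReal (C₁ / R ^ 2)

/-- **MID** (120 lines; from LDF). The middle scale. Proof: LDF with `H = 3` for each of the `2 j` components. -/
def SpecMID : Prop := ∀ (ι : Type) [Fintype ι] [DecidableEq ι] (j : ℕ) (x ε : ℝ), 0 < x → 0 < ε →
  ∃ δ : ℝ, 0 < δ ∧ ∀ (E : Type) [NormedAddCommGroup E]
  [InnerProductSpace ℝ E] [FiniteDimensional ℝ E] (S : BStr ι E) (u : E)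
  (Ω : Type) [MeasurableSpace Ω] (P : Measure Ω) [IsProbabilityMeasure P]
  (Z : Ω → ℝ≥0 → E →L[ℝ] E) (kk : Fin j → ℕ) (X : Ω → Pth (Fin j ⊕ Fin j)),
  ‖u‖ = 1 → OPr S P Z → 1 / δ ≤ dm E →
  (∀ i, (kk i : ℝ) + 1 ≤ δ * dm E ^ (3 / 7 : ℝ)) →
  (∀ t, ∀ᵐ ω ∂P, X ω t = ent ι u (Z ω) kk t) →
  ∀ s t : ℝ≥0, |(t : ℝ) - s| ≤ dm E ^ (-(1 / 6) : ℝ) →
  P {ω | x < ‖X ω t - X ω s‖} ≤
    ENNReal.ofReal (ε / (Real.exp (dm E ^ (1 / 7 : ℝ)) * Real.exp (dm E ^ (1 / 7 : ℝ))))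

/-- **PR2** (150 lines; from FDD, TX3, MID, OUT, WC3). The process theorem. Proof: WC3 with `a = w = exp (D^{1/7})`, `e = D^{-4/7}`,
`D^{1/6} ≤ 2^L ≤ 2 D^{1/6}`. -/
def SpecPR2 : Prop := ∀ (ι : Type) [Fintype ι] [DecidableEq ι] (E : ℕ → Type)
  [∀ n, NormedAddCommGroup (E n)] [∀ n, InnerProductSpace ℝ (E n)]
  [∀ n, FiniteDimensional ℝ (E n)] (S : ∀ n, BStr ι (E n)) (u : ∀ n, E n)
  (Ω : ℕ → Type) [∀ n, MeasurableSpace (Ω n)]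
  (P : ∀ n, Measure (Ω n)) [∀ n, IsProbabilityMeasure (P n)] (Z : ∀ n, Ω n → ℝ≥0 → E n →L[ℝ] E n)
  (j : ℕ) (kk : ℕ → Fin j → ℕ) (X : ∀ n, Ω n → Pth (Fin j ⊕ Fin j))
  (Ω' : Type) [MeasurableSpace Ω'] (P' : Measure Ω') [IsProbabilityMeasure P']
  (Y : Ω' → Pth (Fin j ⊕ Fin j)),
  (∀ n, ‖u n‖ = 1) → (∀ n, OPr (S n) (P n) (Z n)) → Tendsto (fun n => dm (E n)) atTop atTop →
  (∀ i, Tendsto (fun n => kk n i) atTop atTop) → (∀ᶠ n in atTop, Function.Injective (kk n)) →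
  (∀ i, Tendsto (fun n => ((kk n i : ℝ) + 1) / dm (E n) ^ (3 / 7 : ℝ)) atTop (𝓝 0)) →
  (∀ n, 0 < dm (E n)) → (∀ n t, Measurable fun ω => X n ω t) →
  (∀ᶠ n in atTop, ∀ t, ∀ᵐ ω ∂(P n), X n ω t = ent ι (u n) (Z n ω) (kk n) t) → IsOU P' Y →
  ∀ Φ : Pth (Fin j ⊕ Fin j) →ᵇ ℝ,
    Tendsto (fun n => ∫ ω, Φ (X n ω) ∂(P n)) atTop (𝓝 (∫ ω, Φ (Y ω) ∂P'))

/-- **AS2** (200 lines; from PR2, TRI, GFM, BST, DEL; copy of `TD/ASM.lean`). The main theorem. -/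
def SpecAS2 : Prop := ∀ (β : ℕ) (𝔽 : Type) [NormedRing 𝔽]
  [StarRing 𝔽] [InnerProductSpace ℝ 𝔽] [IsScalarTower ℝ 𝔽 𝔽] [SMulCommClass ℝ 𝔽 𝔽]
  [FiniteDimensional ℝ 𝔽] (F : FStr (Fin β) 𝔽), ((F.o : Fin β) : ℕ) = 0 →
  ∀ k : ℕ → ℕ, Tendsto (fun n => (k n : ℝ) / (n : ℝ) ^ (3 / 7 : ℝ)) atTop (𝓝 0) →
  SHolds (fun a x => ⟪F.e a, x⟫) k

/-- **KS2** (60 lines). The explicit sequence `k(n) = ⌊n^{2/5}⌋`. -/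
def SpecKS2 : Prop :=
  Tendsto (fun n : ℕ => (⌊(n : ℝ) ^ (2 / 5 : ℝ)⌋₊ : ℝ) / (n : ℝ) ^ (1 / 3 : ℝ)) atTop atTop ∧
  Tendsto (fun n : ℕ => (⌊(n : ℝ) ^ (2 / 5 : ℝ)⌋₊ : ℝ) / (n : ℝ) ^ (3 / 7 : ℝ)) atTop (𝓝 0) ∧
  (∀ k : ℕ → ℕ, Tendsto (fun n => (k n : ℝ) / (n : ℝ) ^ (3 / 7 : ℝ)) atTop (𝓝 0) →
    Tendsto (fun n => (k n : ℝ) / n) atTop (𝓝 0)) ∧
  Tendsto (fun n : ℕ => ⌊(n : ℝ) ^ (2 / 5 : ℝ)⌋₊) atTop atTop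

end Pool.Agent.Lib.MP17fa2c
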