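import Pool.Agent.Lib.MP_17fa2c_pr.TD.SpecW
import Pool.Agent.Lib.MP_17fa2c_pr.TD.SpecX

section
/-! # Module ARZ: compactness of sets of Hölder paths. -/
set_option autoImplicit false

open MeasureTheory ProbabilityTheory Filter Topology
open scoped NNReal ENNReal BoundedContinuousFunction

namespace Pool.Agent.Lib.MP17fa2c

namespace ARZM

/-- The conditions, for arbitrary functions. -/
def TT (K : Type) [Fintype K] (h : ℕ → ℝ) : Set (ℝ≥0 → K → ℝ) :=
  {x | ∀ N : ℕ, (∀ t : ℝ≥0, t ≤ N → ‖x t‖ ≤ h N) ∧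
    ∀ s t : ℝ≥0, s ≤ N → t ≤ N → ‖x t - x s‖ ≤ h N * |(t : ℝ) - s| ^ (1 / 8 : ℝ)}

theorem closed_TT (K : Type) [Fintype K] (h : ℕ → ℝ) : IsClosed (TT K h) := by
  have h1 : TT K h = ⋂ N : ℕ, ((⋂ t : ℝ≥0, {x : ℝ≥0 → K → ℝ | t ≤ N → ‖x t‖ ≤ h N}) ∩
      ⋂ s : ℝ≥0, ⋂ t : ℝ≥0, {x : ℝ≥0 → K → ℝ | s ≤ N → t ≤ N →
        ‖x t - x s‖ ≤ h N * |(t : ℝ) - s| ^ (1 / 8 : ℝ)}) := by
    ext x
    simp only [TT, Set.mem_ofPred_eq, Set.mem_iInter, Set.mem_inter_iff]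
  rw [h1]
  refine isClosed_iInter fun N => IsClosed.inter ?_ ?_
  · refine isClosed_iInter fun t => ?_
    by_cases ht : t ≤ N
    · simp only [ht, true_imp_iff]
      exact isClosed_le (continuous_apply t).norm continuous_const
    · simp only [ht, false_imp_iff]
      exact isClosed_univ
  · refine isClosed_iInter fun s => isClosed_iInter fun t => ?_
    by_cases hs : s ≤ N
    · by_cases ht : t ≤ N
      · simp only [hs, ht, true_imp_iff]
        exact isClosed_le ((continuous_apply t).sub (continuous_apply s)).norm continuous_const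
      · simp only [ht, false_imp_iff, imp_true_iff]
        exact isClosed_univ
    · simp only [hs, false_imp_iff]
      exact isClosed_univ

/-- The modulus tends to zero. -/
theorem modulus (c : ℝ) (t : ℝ≥0) :
    Tendsto (fun s : ℝ≥0 => c * |(s : ℝ) - t| ^ (1 / 8 : ℝ)) (𝓝 t) (𝓝 0) := by
  have h1 : Continuous fun s : ℝ≥0 => c * |(s : ℝ) - t| ^ (1 / 8 : ℝ) := by
    refine continuous_const.mul ?_
    exact ((continuous_abs.comp (NNReal.continuous_coe.sub continuous_const)).rpow_const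
      (fun x => Or.inr (by norm_num)))
  have h2 := h1.tendsto t
  simpa using h2

theorem cont_TT (K : Type) [Fintype K] (h : ℕ → ℝ) (x : ℝ≥0 → K → ℝ) (hx : x ∈ TT K h) :
    Continuous x := by
  rw [continuous_iff_continuousAt]
  intro t
  obtain ⟨N, hN⟩ := exists_nat_gt t
  have h1 : ∀ᶠ s in 𝓝 t, s ≤ (N : ℝ≥0) :=
    (eventually_lt_nhds hN).mono fun s hs => le_of_lt hs
  have h2 : Tendsto (fun s => ‖x s - x t‖) (𝓝 t) (𝓝 0) := by
    refine squeeze_zero' (Eventually.of_forall fun s => norm_nonneg _) ?_ (modulus (h N) t)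
    filter_upwards [h1] with s hs
    exact (hx N).2 t s hN.le hs
  exact tendsto_iff_norm_sub_tendsto_zero.mpr h2

end ARZM

open ARZM in
/-- ARZ. -/
theorem specARZ : SpecARZ := by
  intro K _ h
  refine ArzelaAscoli.isCompact_of_equicontinuous _ ?_ ?_
  · have himg : (ContinuousMap.toFun '' (HK (K := K) h)) = TT K h := by
      ext x
      constructor
      · rintro ⟨y, hy, rfl⟩
        exact hy
      · intro hx
        exact ⟨⟨x, cont_TT K h x hx⟩, hx, rfl⟩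
    rw [himg]
    choose N hN using fun t : ℝ≥0 => exists_nat_gt t
    refine IsCompact.of_isClosed_subset
      (isCompact_univ_pi (fun t : ℝ≥0 => isCompact_closedBall (0 : K → ℝ) (h (N t))))
      (closed_TT K h) ?_
    intro x hx t _
    rw [mem_closedBall_zero_iff]
    exact (hx (N t)).1 t (hN t).le
  · intro t
    obtain ⟨N, hN⟩ := exists_nat_gt t
    rw [Metric.equicontinuousAt_iff_right]
    intro ε hε
    have h1 : ∀ᶠ s in 𝓝 t, s ≤ (N : ℝ≥0) :=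
      (eventually_lt_nhds hN).mono fun s hs => le_of_lt hs
    have h2 : ∀ᶠ s : ℝ≥0 in 𝓝 t, h N * |(s : ℝ) - t| ^ (1 / 8 : ℝ) < ε :=
      (modulus (h N) t).eventually_lt_const hε
    filter_upwards [h1, h2] with s hs hs2
    rintro ⟨x, hx⟩
    show dist (x t) (x s) < ε
    rw [dist_comm, dist_eq_norm]
    exact lt_of_le_of_lt ((hx N).2 t s hN.le hs) hs2

end Pool.Agent.Lib.MP17fa2c
end

section
/-!
# MP_17fa2c_pr, CHP: probability of a large dyadic increment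
-/
set_option autoImplicit false

open MeasureTheory ProbabilityTheory Filter Topology
open scoped NNReal ENNReal BoundedContinuousFunction

namespace Pool.Agent.Lib.MP17fa2c

namespace CHPM

/-- `√2` -/
noncomputable def sq : ℝ := Real.sqrt 2

theorem sq_sq : sq ^ 2 = 2 := Real.sq_sqrt (by norm_num)

theorem sq_pos : 0 < sq := Real.sqrt_pos.2 (by norm_num)

theorem sq_ge : 4 / 3 ≤ sq := by
  have h1 := sq_sq
  have h2 := sq_pos
  nlinarith

theorem sq_le : sq ≤ 3 / 2 := by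
  have h1 := sq_sq
  have h2 := sq_pos
  nlinarith

/-- the bound for the level `l` -/
noncomputable def bd (C0 a e : ℝ) (L l : ℕ) : ℝ :=
  if l < L then 2 * C0 * ((sq ^ l)⁻¹ + e * (sq ^ 3) ^ l) else a * (sq ^ l)⁻¹

theorem inv_step (l : ℕ) : (sq ^ l)⁻¹ ≤ 4 * ((sq ^ l)⁻¹ - (sq ^ (l + 1))⁻¹) := by
  have h1 := sq_pos
  have h2 : 0 < (sq ^ l)⁻¹ := by positivity
  have h3 : (sq ^ (l + 1))⁻¹ = (sq ^ l)⁻¹ * sq⁻¹ := by
    rw [pow_succ, mul_inv]
  have h4 : sq⁻¹ ≤ 3 / 4 := by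
    rw [inv_le_comm₀ h1 (by norm_num)]
    have := sq_ge
    norm_num
    exact this
  rw [h3]
  nlinarith

theorem pow_step (l : ℕ) : (sq ^ 3) ^ l ≤ (sq ^ 3) ^ (l + 1) - (sq ^ 3) ^ l := by
  have h1 := sq_pos
  have h2 : 0 < (sq ^ 3) ^ l := by positivity
  have h3 : 2 ≤ sq ^ 3 := by
    have h4 : sq ^ 3 = 2 * sq := by
      rw [pow_succ, sq_sq]
    have := sq_ge
    rw [h4]
    linarith
  rw [pow_succ (sq ^ 3) l]
  nlinarith

theorem sum1 (C0 a e : ℝ) (hC0 : 0 ≤ C0) (he : 0 ≤ e) (L n : ℕ) (hn : n ≤ L) :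
    ∑ l ∈ Finset.range n, bd C0 a e L l ≤
      2 * C0 * (4 * (1 - (sq ^ n)⁻¹) + e * (sq ^ 3) ^ n) := by
  induction n with
  | zero =>
    rw [Finset.sum_range_zero, pow_zero, pow_zero, inv_one, sub_self, mul_zero, zero_add, mul_one]
    positivity
  | succ n ih =>
    rw [Finset.sum_range_succ, bd, if_pos (by omega)]
    have h1 := ih (by omega)
    have h2 := inv_step n
    have h3 := mul_le_mul_of_nonneg_left (pow_step n) he
    have h4 : 2 * C0 * ((sq ^ n)⁻¹ + e * (sq ^ 3) ^ n) ≤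
        2 * C0 * (4 * ((sq ^ n)⁻¹ - (sq ^ (n + 1))⁻¹) + e * ((sq ^ 3) ^ (n + 1) - (sq ^ 3) ^ n)) :=
      mul_le_mul_of_nonneg_left (by linarith) (by linarith)
    linarith

theorem sum2 (C0 a e : ℝ) (hC0 : 0 ≤ C0) (he : 0 ≤ e) (ha : 0 ≤ a) (L k : ℕ) :
    ∑ l ∈ Finset.range (L + k), bd C0 a e L l ≤
      2 * C0 * (4 + e * (sq ^ 3) ^ L) + 4 * a * ((sq ^ L)⁻¹ - (sq ^ (L + k))⁻¹) := by
  induction k with
  | zero =>
    have h1 := sum1 C0 a e hC0 he L L le_rfl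
    have h2 : 0 < (sq ^ L)⁻¹ := by
      have := sq_pos
      positivity
    have h3 : 0 ≤ 2 * C0 * (4 * (sq ^ L)⁻¹) := by positivity
    rw [add_zero, sub_self, mul_zero, add_zero]
    linarith
  | succ k ih =>
    rw [← add_assoc, Finset.sum_range_succ, bd, if_neg (by omega)]
    have h2 := mul_le_mul_of_nonneg_left (inv_step (L + k)) ha
    linarith

theorem sum3 (C0 a e : ℝ) (hC0 : 0 ≤ C0) (he : 0 ≤ e) (ha : 1 ≤ a) (hea : e * a ^ 3 ≤ 1) :
    ∃ L : ℕ, ∀ n : ℕ, ∑ l ∈ Finset.range n, bd C0 a e L l ≤ 24 * C0 + 4 := by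
  obtain ⟨n0, h1, h2⟩ := exists_nat_pow_near ha (lt_of_lt_of_le (by norm_num) sq_ge)
  refine ⟨n0 + 1, fun n => ?_⟩
  have hs := sq_pos
  have hbd : ∀ l, 0 ≤ bd C0 a e (n0 + 1) l := by
    intro l
    rw [bd]
    split_ifs
    · positivity
    · positivity
  have h3 : ∑ l ∈ Finset.range n, bd C0 a e (n0 + 1) l ≤
      ∑ l ∈ Finset.range (n0 + 1 + n), bd C0 a e (n0 + 1) l :=
    Finset.sum_le_sum_of_subset_of_nonneg (Finset.range_mono (by omega)) fun l _ _ => hbd l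
  refine h3.trans ((sum2 C0 a e hC0 he (by linarith) (n0 + 1) n).trans ?_)
  have h4 : (sq ^ 3) ^ (n0 + 1) ≤ 8 * a ^ 3 := by
    have h5 : sq ^ (n0 + 1) ≤ 2 * a := by
      rw [pow_succ]
      have := sq_le
      nlinarith [pow_pos hs n0]
    calc (sq ^ 3) ^ (n0 + 1) = (sq ^ (n0 + 1)) ^ 3 := by rw [← pow_mul, ← pow_mul, mul_comm]
      _ ≤ (2 * a) ^ 3 := pow_le_pow_left₀ (by positivity) h5 3
      _ = 8 * a ^ 3 := by ring
  have h6 : e * (sq ^ 3) ^ (n0 + 1) ≤ 8 := by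
    have := mul_le_mul_of_nonneg_left h4 he
    linarith
  have h7 : a * (sq ^ (n0 + 1))⁻¹ ≤ 1 := by
    rw [← div_eq_mul_inv, div_le_one (by positivity)]
    exact h2.le
  have h8 : 0 ≤ a * (sq ^ (n0 + 1 + n))⁻¹ := by positivity
  have h9 : 2 * C0 * (4 + e * (sq ^ 3) ^ (n0 + 1)) ≤ 2 * C0 * (4 + 8) :=
    mul_le_mul_of_nonneg_left (by linarith) (by linarith)
  linarith

/-- `x = A 2^(-l/8)`, `x⁴ = A⁴/√2^l`. -/
theorem x_four (A : ℝ) (l : ℕ) : (A * (2 : ℝ) ^ (-(l : ℝ) / 8)) ^ 4 = A ^ 4 * (sq ^ l)⁻¹ := by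
  rw [mul_pow]
  congr 1
  rw [← Real.rpow_natCast, ← Real.rpow_mul (by norm_num), sq, Real.sqrt_eq_rpow,
    ← Real.rpow_natCast, ← Real.rpow_mul (by norm_num), ← Real.rpow_neg (by norm_num)]
  congr 1
  push_cast
  ring

theorem x_two (A : ℝ) (hA : 1 ≤ A) (l : ℕ) :
    A ^ 2 * (sq ^ l)⁻¹ ≤ (A * (2 : ℝ) ^ (-(l : ℝ) / 8)) ^ 2 := by
  have h1 := x_four A l
  have h2 : 0 < A * (2 : ℝ) ^ (-(l : ℝ) / 8) := by positivity
  set x := A * (2 : ℝ) ^ (-(l : ℝ) / 8)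
  have h3 : 0 < (sq ^ l)⁻¹ := by
    have := sq_pos
    positivity
  have h4 : (sq ^ l)⁻¹ ≤ 1 := by
    apply inv_le_one_of_one_le₀
    exact one_le_pow₀ (by have := sq_ge; linarith)
  have h5 : (A ^ 2 * (sq ^ l)⁻¹) ^ 2 ≤ (x ^ 2) ^ 2 := by
    have h6 : (x ^ 2) ^ 2 = A ^ 4 * (sq ^ l)⁻¹ := by rw [← h1]; ring
    rw [h6]
    have h7 : 0 ≤ A ^ 4 * (sq ^ l)⁻¹ := by positivity
    nlinarith
  exact (le_abs_self _).trans (abs_le_of_sq_le_sq h5 (by positivity))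

theorem two_pow (l : ℕ) : (2 : ℝ) ^ l = (sq ^ l) ^ 2 := by
  rw [← pow_mul, mul_comm, pow_mul, sq_sq]

theorem ineq2 (C0 e A : ℝ) (hC0 : 0 ≤ C0) (he : 0 ≤ e) (hA : 1 ≤ A) (l : ℕ) :
    C0 * (((2 ^ l : ℝ)⁻¹) ^ 2 + e) * (((A * (2 : ℝ) ^ (-(l : ℝ) / 8)) ^ 2)⁻¹ +
      ((A * (2 : ℝ) ^ (-(l : ℝ) / 8)) ^ 4)⁻¹) ≤
    (A ^ 2)⁻¹ * (2 ^ l : ℝ)⁻¹ * (2 * C0 * ((sq ^ l)⁻¹ + e * (sq ^ 3) ^ l)) := by
  have h1 := x_four A l
  have h2 := x_two A hA l
  have h3 : (sq ^ 3) ^ l = (sq ^ l) ^ 3 := by rw [← pow_mul, ← pow_mul, mul_comm]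
  have hS : 0 < sq ^ l := pow_pos sq_pos l
  rw [two_pow, h3, h1]
  set S := sq ^ l
  set x := A * (2 : ℝ) ^ (-(l : ℝ) / 8)
  have hA0 : 0 < A := by linarith
  have h4 : (x ^ 2)⁻¹ ≤ (A ^ 2)⁻¹ * S := by
    have h5 := inv_anti₀ (by positivity) h2
    rwa [mul_inv, inv_inv] at h5
  have h6 : (A ^ 4 * S⁻¹)⁻¹ ≤ (A ^ 2)⁻¹ * S := by
    rw [mul_inv, inv_inv]
    refine mul_le_mul_of_nonneg_right ?_ hS.le
    exact inv_anti₀ (by positivity) (pow_le_pow_right₀ hA (by norm_num))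
  calc C0 * (((S ^ 2)⁻¹) ^ 2 + e) * ((x ^ 2)⁻¹ + (A ^ 4 * S⁻¹)⁻¹)
      ≤ C0 * (((S ^ 2)⁻¹) ^ 2 + e) * ((A ^ 2)⁻¹ * S + (A ^ 2)⁻¹ * S) :=
        mul_le_mul_of_nonneg_left (by linarith) (by positivity)
    _ = (A ^ 2)⁻¹ * (S ^ 2)⁻¹ * (2 * C0 * (S⁻¹ + e * S ^ 3)) := by
        field_simp
        ring

theorem ineq1 (a A : ℝ) (ha : 1 ≤ a) (hA : 1 ≤ A) (l : ℕ) :
    a * ((2 ^ l : ℝ)⁻¹) ^ 2 / (A * (2 : ℝ) ^ (-(l : ℝ) / 8)) ^ 4 ≤
    (A ^ 2)⁻¹ * (2 ^ l : ℝ)⁻¹ * (a * (sq ^ l)⁻¹) := by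
  rw [two_pow, x_four]
  have hS : 0 < sq ^ l := pow_pos sq_pos l
  set S := sq ^ l
  have hA0 : 0 < A := by linarith
  have h1 : a * ((S ^ 2)⁻¹) ^ 2 / (A ^ 4 * S⁻¹) =
      (A ^ 4)⁻¹ * ((S ^ 2)⁻¹ * (a * S⁻¹)) := by
    field_simp
  rw [h1, mul_assoc]
  refine mul_le_mul_of_nonneg_right ?_ (by positivity)
  exact inv_anti₀ (by positivity) (pow_le_pow_right₀ hA (by norm_num))

theorem diff (i l : ℕ) : ((((((i : ℝ≥0) + 1) / 2 ^ l : ℝ≥0)) : ℝ) -
    (((i : ℝ≥0) / 2 ^ l : ℝ≥0) : ℝ)) = (2 ^ l : ℝ)⁻¹ := by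
  push_cast
  ring

theorem level {K : Type} [Fintype K] {Ω : Type} [MeasurableSpace Ω] (P : Measure Ω)
    (X : Ω → Pth K) (C0 a e : ℝ) (hC0 : 0 ≤ C0) (hX : ∀ t, Measurable fun ω => X ω t)
    (hT : TwoScale P X C0 a e) (A : ℝ) (hA : 1 ≤ A) (L l i : ℕ) :
    P {ω | A * (2 : ℝ) ^ (-(l : ℝ) / 8) <
      ‖X ω (((i : ℝ≥0) + 1) / 2 ^ l) - X ω ((i : ℝ≥0) / 2 ^ l)‖} ≤
    ENNReal.ofReal ((A ^ 2)⁻¹ * (2 ^ l : ℝ)⁻¹ * bd C0 a e L l) := by
  obtain ⟨ha, he, -, h4, h2⟩ := hT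
  have hx : 0 < A * (2 : ℝ) ^ (-(l : ℝ) / 8) := by
    have : 0 < A := by linarith
    positivity
  have hd := diff i l
  have hle : |((((((i : ℝ≥0) + 1) / 2 ^ l : ℝ≥0)) : ℝ) -
      (((i : ℝ≥0) / 2 ^ l : ℝ≥0) : ℝ))| ≤ 1 := by
    rw [hd, abs_of_nonneg (by positivity)]
    exact inv_le_one_of_one_le₀ (one_le_pow₀ (by norm_num))
  rw [bd]
  split_ifs with hl
  · refine (h2 _ _ hle _ hx).trans (ENNReal.ofReal_le_ofReal ?_)
    rw [hd]
    exact ineq2 C0 e A hC0 he hA l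
  · have h5 := h4 _ _ hle
    rw [hd] at h5
    set x := A * (2 : ℝ) ^ (-(l : ℝ) / 8)
    have hm : Measurable fun ω => ENNReal.ofReal
        (‖X ω (((i : ℝ≥0) + 1) / 2 ^ l) - X ω ((i : ℝ≥0) / 2 ^ l)‖ ^ 4) :=
      ((((hX _).sub (hX _)).norm).pow_const 4).ennreal_ofReal
    have h6 := meas_ge_le_lintegral_div (μ := P) hm.aemeasurable
      (ε := ENNReal.ofReal (x ^ 4)) (by
        rw [Ne, ENNReal.ofReal_eq_zero, not_le]
        positivity) ENNReal.ofReal_ne_top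
    refine le_trans (measure_mono ?_) (h6.trans ?_)
    · intro ω hω
      rw [Set.mem_ofPred_eq] at hω ⊢
      exact ENNReal.ofReal_le_ofReal (pow_le_pow_left₀ hx.le hω.le 4)
    · calc _ ≤ ENNReal.ofReal (a * ((2 ^ l : ℝ)⁻¹) ^ 2) / ENNReal.ofReal (x ^ 4) :=
            ENNReal.div_le_div_right h5 _
        _ = ENNReal.ofReal (a * ((2 ^ l : ℝ)⁻¹) ^ 2 / x ^ 4) :=
            (ENNReal.ofReal_div_of_pos (by positivity)).symm
        _ ≤ _ := ENNReal.ofReal_le_ofReal (ineq1 a A ha hA l)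

end CHPM

open CHPM in
theorem specCHP : SpecCHP := by
  intro C0 N hC0
  refine ⟨N * (24 * C0 + 4), ?_⟩
  intro K _ Ω _ P _ X a e hX hT A hA
  obtain ⟨ha, he, hea, -, -⟩ := id hT
  obtain ⟨L, hL⟩ := sum3 C0 a e hC0 he ha hea
  have hs := sq_pos
  have hA0 : 0 < A := by linarith
  have hbd : ∀ l, 0 ≤ bd C0 a e L l := by
    intro l
    rw [bd]
    split_ifs
    · positivity
    · positivity
  set E : ℕ → ℕ → Set Ω := fun l i => {ω | A * (2 : ℝ) ^ (-(l : ℝ) / 8) <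
      ‖X ω (((i : ℝ≥0) + 1) / 2 ^ l) - X ω ((i : ℝ≥0) / 2 ^ l)‖} with hE
  have hsub : {ω | ¬ DyB N A (X ω)} ⊆ ⋃ l, ⋃ i ∈ Finset.range (N * 2 ^ l), E l i := by
    intro ω hω
    rw [Set.mem_ofPred_eq, DyB] at hω
    push Not at hω
    obtain ⟨l, i, hi, h⟩ := hω
    exact Set.mem_iUnion.2 ⟨l, Set.mem_iUnion₂.2 ⟨i, Finset.mem_range.2 hi, h⟩⟩
  have hlev : ∀ l, P (⋃ i ∈ Finset.range (N * 2 ^ l), E l i) ≤
      ENNReal.ofReal (N * (A ^ 2)⁻¹ * bd C0 a e L l) := by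
    intro l
    calc P (⋃ i ∈ Finset.range (N * 2 ^ l), E l i)
        ≤ ∑ i ∈ Finset.range (N * 2 ^ l), P (E l i) := measure_biUnion_finset_le _ _
      _ ≤ ∑ i ∈ Finset.range (N * 2 ^ l),
          ENNReal.ofReal ((A ^ 2)⁻¹ * (2 ^ l : ℝ)⁻¹ * bd C0 a e L l) :=
          Finset.sum_le_sum fun i _ => level P X C0 a e hC0 hX hT A hA L l i
      _ = ENNReal.ofReal (N * (A ^ 2)⁻¹ * bd C0 a e L l) := by
          rw [Finset.sum_const, Finset.card_range, nsmul_eq_mul, ← ENNReal.ofReal_natCast,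
            ← ENNReal.ofReal_mul (Nat.cast_nonneg _)]
          congr 1
          push_cast
          have : (2 ^ l : ℝ) ≠ 0 := by positivity
          field_simp
  calc P {ω | ¬ DyB N A (X ω)} ≤ P (⋃ l, ⋃ i ∈ Finset.range (N * 2 ^ l), E l i) :=
        measure_mono hsub
    _ ≤ ∑' l, P (⋃ i ∈ Finset.range (N * 2 ^ l), E l i) := measure_iUnion_le _
    _ ≤ ∑' l, ENNReal.ofReal (N * (A ^ 2)⁻¹ * bd C0 a e L l) := ENNReal.tsum_le_tsum hlev
    _ ≤ ENNReal.ofReal (N * (24 * C0 + 4) / A ^ 2) := by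
        rw [ENNReal.tsum_eq_iSup_nat]
        refine iSup_le fun n => ?_
        rw [← ENNReal.ofReal_sum_of_nonneg fun l _ => mul_nonneg (by positivity) (hbd l),
          ← Finset.mul_sum]
        refine ENNReal.ofReal_le_ofReal ?_
        calc N * (A ^ 2)⁻¹ * ∑ l ∈ Finset.range n, bd C0 a e L l
            ≤ N * (A ^ 2)⁻¹ * (24 * C0 + 4) := mul_le_mul_of_nonneg_left (hL n) (by positivity)
          _ = N * (24 * C0 + 4) / A ^ 2 := by
              field_simp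

end Pool.Agent.Lib.MP17fa2c
end

section
/-!
# Module DYA: dyadic chaining
-/
set_option autoImplicit false

open MeasureTheory ProbabilityTheory Filter Topology
open scoped NNReal ENNReal BoundedContinuousFunction

namespace Pool.Agent.Lib.MP17fa2c

namespace DYAM

noncomputable section

/-- the ratio `2^(-1/8)` -/
def r : ℝ := (2 : ℝ) ^ (-(1 : ℝ) / 8)

theorem r_pos : 0 < r := Real.rpow_pos_of_pos (by norm_num) _

theorem r_lt_one : r < 1 := by
  unfold r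
  exact Real.rpow_lt_one_of_one_lt_of_neg (by norm_num) (by norm_num)

theorem pow_eq (l : ℕ) : (2 : ℝ) ^ (-(l : ℝ) / 8) = r ^ l := by
  unfold r
  rw [← Real.rpow_natCast, ← Real.rpow_mul (by norm_num)]
  congr 1
  ring

/-- the index of the point of level `l` to the left of `t` -/
def fl (l : ℕ) (t : ℝ≥0) : ℕ := ⌊(t : ℝ) * 2 ^ l⌋₊

/-- the point of level `l` to the left of `t` -/
def pt (l : ℕ) (t : ℝ≥0) : ℝ≥0 := (fl l t : ℝ≥0) / 2 ^ l

theorem fl_le {l N : ℕ} {t : ℝ≥0} (ht : t ≤ N) : fl l t ≤ N * 2 ^ l := by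
  unfold fl
  apply Nat.floor_le_of_le
  push_cast
  have : (t : ℝ) ≤ N := by exact_mod_cast ht
  exact mul_le_mul_of_nonneg_right this (by positivity)

theorem fl_succ (l : ℕ) (t : ℝ≥0) : fl (l + 1) t = 2 * fl l t ∨ fl (l + 1) t = 2 * fl l t + 1 := by
  have ht : (0 : ℝ) ≤ (t : ℝ) * 2 ^ l := mul_nonneg t.2 (by positivity)
  have h1 : ((fl l t : ℕ) : ℝ) ≤ (t : ℝ) * 2 ^ l := Nat.floor_le ht
  have h2 : (t : ℝ) * 2 ^ l < (fl l t : ℝ) + 1 := Nat.lt_floor_add_one _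
  have e : (t : ℝ) * 2 ^ (l + 1) = 2 * ((t : ℝ) * 2 ^ l) := by ring
  have h3 : 2 * fl l t ≤ fl (l + 1) t := by
    apply Nat.le_floor
    rw [e]
    push_cast
    linarith
  have h4 : fl (l + 1) t < 2 * fl l t + 2 := by
    unfold fl
    rw [Nat.floor_lt (by rw [e]; linarith), e]
    push_cast
    change 2 * ((t : ℝ) * 2 ^ l) < 2 * (fl l t : ℝ) + 2
    linarith
  omega

theorem half (n l : ℕ) : ((2 * n : ℕ) : ℝ≥0) / 2 ^ (l + 1) = (n : ℝ≥0) / 2 ^ l := by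
  rw [pow_succ, Nat.cast_mul]
  push_cast
  rw [mul_comm ((2 : ℝ≥0) ^ l) 2]
  exact mul_div_mul_left _ _ (by norm_num)

variable {K : Type} [Fintype K]

theorem incr {N : ℕ} {A : ℝ} {x : Pth K} (hA : 0 ≤ A) (h : DyB N A x) {t : ℝ≥0} (ht : t ≤ N)
    (l : ℕ) : ‖x (pt (l + 1) t) - x (pt l t)‖ ≤ A * r ^ (l + 1) := by
  have hr := r_pos
  rcases fl_succ l t with h1 | h1
  · have e : pt (l + 1) t = pt l t := by
      unfold pt
      rw [h1, half]
    rw [e, sub_self, norm_zero]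
    positivity
  · have hlt : 2 * fl l t < N * 2 ^ (l + 1) := by
      have := fl_le (l := l + 1) ht
      omega
    have h2 := h (l + 1) (2 * fl l t) hlt
    rw [pow_eq] at h2
    have e1 : (((2 * fl l t : ℕ) : ℝ≥0) + 1) / 2 ^ (l + 1) = pt (l + 1) t := by
      unfold pt
      rw [h1]
      push_cast
      rfl
    rw [e1, half] at h2
    exact h2

theorem tel {N : ℕ} {A : ℝ} {x : Pth K} (hA : 0 ≤ A) (h : DyB N A x) {t : ℝ≥0} (ht : t ≤ N)
    (l m : ℕ) : ‖x (pt (l + m) t) - x (pt l t)‖ ≤ r / (1 - r) * A * r ^ l * (1 - r ^ m) := by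
  have hr := r_pos
  have hr1 : 0 < 1 - r := by linarith [r_lt_one]
  induction m with
  | zero => simp
  | succ m ih =>
    have h1 := incr hA h ht (l + m)
    have h2 : ‖x (pt (l + (m + 1)) t) - x (pt l t)‖
        ≤ ‖x (pt (l + m + 1) t) - x (pt (l + m) t)‖ + ‖x (pt (l + m) t) - x (pt l t)‖ := by
      have : x (pt (l + (m + 1)) t) - x (pt l t)
          = (x (pt (l + m + 1) t) - x (pt (l + m) t)) + (x (pt (l + m) t) - x (pt l t)) := by
        rw [sub_add_sub_cancel]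
        rfl
      rw [this]
      exact norm_add_le _ _
    refine h2.trans ((add_le_add h1 ih).trans (le_of_eq ?_))
    have e : r / (1 - r) * A * r ^ l * (1 - r ^ (m + 1))
        = r / (1 - r) * A * r ^ l * (1 - r ^ m) + (r / (1 - r) * (1 - r)) * A * r ^ l * r ^ m := by
      ring
    rw [e, div_mul_cancel₀ _ hr1.ne']
    ring

theorem tendsto_pt (t : ℝ≥0) : Tendsto (fun m => pt m t) atTop (𝓝 t) := by
  rw [← NNReal.tendsto_coe]
  have h1 : Tendsto (fun y : ℝ => ((⌊(t : ℝ) * y⌋₊ : ℕ) : ℝ) / y) atTop (𝓝 (t : ℝ)) :=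
    tendsto_nat_floor_mul_div_atTop t.2
  have h2 : Tendsto (fun m : ℕ => (2 : ℝ) ^ m) atTop atTop :=
    tendsto_pow_atTop_atTop_of_one_lt (by norm_num)
  refine (h1.comp h2).congr ?_
  intro m
  unfold pt fl
  push_cast
  rfl

theorem lim {N : ℕ} {A : ℝ} {x : Pth K} (hA : 0 ≤ A) (h : DyB N A x) {t : ℝ≥0} (ht : t ≤ N)
    (l : ℕ) : ‖x t - x (pt l t)‖ ≤ r / (1 - r) * A * r ^ l := by
  have hr := r_pos
  have hr1 : 0 < 1 - r := by linarith [r_lt_one]
  have h1 : Tendsto (fun m => pt (l + m) t) atTop (𝓝 t) := by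
    have := (tendsto_pt t).comp (tendsto_add_atTop_nat l)
    refine this.congr ?_
    intro m
    simp only [Function.comp_apply]
    rw [Nat.add_comm]
  have h2 : Tendsto (fun m => ‖x (pt (l + m) t) - x (pt l t)‖) atTop (𝓝 ‖x t - x (pt l t)‖) := by
    apply Tendsto.norm
    apply Tendsto.sub_const
    exact (x.continuous.tendsto t).comp h1
  refine le_of_tendsto' h2 (fun m => (tel hA h ht l m).trans ?_)
  have h3 : 0 ≤ r / (1 - r) * A * r ^ l := by positivity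
  have h4 : 0 < r ^ m := by positivity
  nlinarith

theorem level {N : ℕ} {A : ℝ} {x : Pth K} (hA : 0 ≤ A) (h : DyB N A x) {s t : ℝ≥0} (ht : t ≤ N)
    (hst : s ≤ t) (l : ℕ) (hl : ((t : ℝ) - s) * 2 ^ l ≤ 1) :
    ‖x (pt l t) - x (pt l s)‖ ≤ A * r ^ l := by
  have hr := r_pos
  have hst' : (s : ℝ) ≤ t := by exact_mod_cast hst
  have h1 : fl l s ≤ fl l t := by
    apply Nat.floor_le_floor
    exact mul_le_mul_of_nonneg_right hst' (by positivity)
  have h2 : fl l t ≤ fl l s + 1 := by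
    unfold fl
    rw [← Nat.floor_add_one (mul_nonneg (NNReal.coe_nonneg s) (by positivity))]
    apply Nat.floor_le_floor
    linarith
  rcases (show fl l t = fl l s ∨ fl l t = fl l s + 1 by omega) with h3 | h3
  · have e : pt l t = pt l s := by
      unfold pt
      rw [h3]
    rw [e, sub_self, norm_zero]
    positivity
  · have hlt : fl l s < N * 2 ^ l := by
      have := fl_le (l := l) ht
      omega
    have h4 := h l (fl l s) hlt
    rw [pow_eq] at h4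
    have e1 : ((fl l s : ℝ≥0) + 1) / 2 ^ l = pt l t := by
      unfold pt
      rw [h3]
      push_cast
      rfl
    rw [e1] at h4
    exact h4

theorem chain0 {N : ℕ} {A : ℝ} {x : Pth K} (h : DyB N A x) (a k : ℕ)
    (hk : a + k ≤ N) : ‖x ((a + k : ℕ) : ℝ≥0) - x ((a : ℕ) : ℝ≥0)‖ ≤ k * A := by
  induction k with
  | zero => simp
  | succ k ih =>
    have h1 := ih (by omega)
    have h2 := h 0 (a + k) (by simpa using (by omega : a + k < N))
    rw [pow_eq] at h2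
    simp only [pow_zero, div_one, mul_one] at h2
    have e : (((a + k : ℕ) : ℝ≥0) + 1) = ((a + (k + 1) : ℕ) : ℝ≥0) := by
      push_cast
      ring
    rw [e] at h2
    calc ‖x ((a + (k + 1) : ℕ) : ℝ≥0) - x ((a : ℕ) : ℝ≥0)‖
        ≤ ‖x ((a + (k + 1) : ℕ) : ℝ≥0) - x ((a + k : ℕ) : ℝ≥0)‖
          + ‖x ((a + k : ℕ) : ℝ≥0) - x ((a : ℕ) : ℝ≥0)‖ := by
          rw [← sub_add_sub_cancel (x ((a + (k + 1) : ℕ) : ℝ≥0)) (x ((a + k : ℕ) : ℝ≥0))]
          exact norm_add_le _ _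
      _ ≤ A + k * A := add_le_add h2 h1
      _ = ((k + 1 : ℕ) : ℝ) * A := by
          push_cast
          ring

/-- the increment over level `0` points -/
theorem level0 {N : ℕ} {A : ℝ} {x : Pth K} (hA : 0 ≤ A) (h : DyB N A x) {s t : ℝ≥0} (ht : t ≤ N)
    (hst : s ≤ t) : ‖x (pt 0 t) - x (pt 0 s)‖ ≤ N * A := by
  have hst' : (s : ℝ) ≤ t := by exact_mod_cast hst
  have h1 : fl 0 s ≤ fl 0 t := by
    apply Nat.floor_le_floor
    exact mul_le_mul_of_nonneg_right hst' (by positivity)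
  have h2 : fl 0 t ≤ N := by
    have := fl_le (l := 0) ht
    simpa using this
  have h3 := chain0 h (fl 0 s) (fl 0 t - fl 0 s) (by omega)
  have e : fl 0 s + (fl 0 t - fl 0 s) = fl 0 t := by omega
  rw [e] at h3
  have e1 : ∀ u : ℝ≥0, pt 0 u = ((fl 0 u : ℕ) : ℝ≥0) := by
    intro u
    unfold pt
    simp
  rw [e1, e1]
  refine h3.trans ?_
  apply mul_le_mul_of_nonneg_right _ hA
  exact_mod_cast (by omega : fl 0 t - fl 0 s ≤ N)

/-- the choice of the level -/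
theorem exists_level {d : ℝ} (hd : 0 < d) (hd1 : d ≤ 1) :
    ∃ l : ℕ, d * 2 ^ l ≤ 1 ∧ r ^ l ≤ 2 * d ^ (1 / 8 : ℝ) := by
  obtain ⟨n, h1, h2⟩ := exists_nat_pow_near_of_lt_one hd hd1 (show (0 : ℝ) < 1 / 2 by norm_num)
    (by norm_num)
  refine ⟨n, ?_, ?_⟩
  · calc d * 2 ^ n ≤ (1 / 2) ^ n * 2 ^ n := mul_le_mul_of_nonneg_right h2 (by positivity)
      _ = 1 := by
        rw [← mul_pow]
        norm_num
  · have h3 : ((1 / 2 : ℝ) ^ (n + 1)) ^ (1 / 8 : ℝ) ≤ d ^ (1 / 8 : ℝ) :=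
      Real.rpow_le_rpow (by positivity) h1.le (by norm_num)
    have h4 : ((1 / 2 : ℝ) ^ (n + 1)) ^ (1 / 8 : ℝ) = r ^ (n + 1) := by
      rw [← pow_eq, one_div (2 : ℝ), inv_pow, ← Real.rpow_natCast, ← Real.rpow_neg (by norm_num),
        ← Real.rpow_mul (by norm_num)]
      congr 1
      ring
    rw [h4] at h3
    have hr := r_pos
    have h5 : 1 / 2 ≤ r := by
      unfold r
      calc (1 / 2 : ℝ) = 2 ^ (-1 : ℝ) := by
            rw [Real.rpow_neg_one]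
            norm_num
        _ ≤ (2 : ℝ) ^ (-(1 : ℝ) / 8) :=
            Real.rpow_le_rpow_of_exponent_le (by norm_num) (by norm_num)
    have h6 : 0 < r ^ n := by positivity
    have h7 : r ^ (n + 1) = r ^ n * r := pow_succ _ _
    nlinarith

theorem main_le {N : ℕ} {A : ℝ} {x : Pth K} (hA : 0 ≤ A) (h : DyB N A x) {s t : ℝ≥0}
    (hs : s ≤ N) (ht : t ≤ N) (hst : s ≤ t) :
    ‖x t - x s‖ ≤ 2 * (2 * (r / (1 - r)) + N + 1) * A * ((t : ℝ) - s) ^ (1 / 8 : ℝ) := by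
  have hr := r_pos
  have hr1 : 0 < 1 - r := by linarith [r_lt_one]
  have hst' : (s : ℝ) ≤ t := by exact_mod_cast hst
  have hc : 0 < r / (1 - r) := by positivity
  have tri : ∀ l : ℕ, ‖x t - x s‖
      ≤ ‖x t - x (pt l t)‖ + ‖x (pt l t) - x (pt l s)‖ + ‖x s - x (pt l s)‖ := by
    intro l
    have e : x t - x s = (x t - x (pt l t)) + (x (pt l t) - x (pt l s)) - (x s - x (pt l s)) := by
      abel
    rw [e]
    refine (norm_sub_le _ _).trans ?_
    gcongr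
    exact norm_add_le _ _
  -- a common form
  have key : ∀ (l : ℕ) (B : ℝ), 0 ≤ B → B ≤ N + 1 → ‖x (pt l t) - x (pt l s)‖ ≤ B * A * r ^ l →
      r ^ l ≤ 2 * ((t : ℝ) - s) ^ (1 / 8 : ℝ) →
      ‖x t - x s‖ ≤ 2 * (2 * (r / (1 - r)) + N + 1) * A * ((t : ℝ) - s) ^ (1 / 8 : ℝ) := by
    intro l B hB0 hB h1 h2
    have h3 := lim hA h ht l
    have h4 := lim hA h hs l
    have h5 : ‖x t - x s‖ ≤ (2 * (r / (1 - r)) + N + 1) * A * r ^ l := by
      have h6 : B * A * r ^ l ≤ (N + 1) * A * r ^ l := by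
        apply mul_le_mul_of_nonneg_right _ (by positivity)
        exact mul_le_mul_of_nonneg_right hB hA
      have h7 := tri l
      have e : (2 * (r / (1 - r)) + N + 1) * A * r ^ l
          = r / (1 - r) * A * r ^ l + (N + 1) * A * r ^ l + r / (1 - r) * A * r ^ l := by ring
      rw [e]
      linarith
    refine h5.trans ?_
    calc (2 * (r / (1 - r)) + N + 1) * A * r ^ l
        ≤ (2 * (r / (1 - r)) + N + 1) * A * (2 * ((t : ℝ) - s) ^ (1 / 8 : ℝ)) := by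
          apply mul_le_mul_of_nonneg_left h2 (by positivity)
      _ = _ := by ring
  rcases hst.eq_or_lt with heq | hlt
  · subst heq
    rw [sub_self, norm_zero, sub_self, Real.zero_rpow (by norm_num)]
    simp
  have hlt' : (s : ℝ) < t := by exact_mod_cast hlt
  rcases le_or_gt ((t : ℝ) - s) 1 with hle | hgt
  · obtain ⟨l, hl1, hl2⟩ := exists_level (sub_pos.mpr hlt') hle
    refine key l 1 (by norm_num) (by have : (0 : ℝ) ≤ N := Nat.cast_nonneg N; linarith) ?_ hl2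
    rw [one_mul]
    exact level hA h ht hst l hl1
  · refine key 0 N (Nat.cast_nonneg N) (by linarith) ?_ ?_
    · rw [pow_zero, mul_one]
      exact level0 hA h ht hst
    · rw [pow_zero]
      have : (1 : ℝ) ≤ ((t : ℝ) - s) ^ (1 / 8 : ℝ) :=
        Real.one_le_rpow hgt.le (by norm_num)
      linarith

end

end DYAM

theorem specDYA : SpecDYA := by
  refine ⟨fun N => 2 * (2 * (DYAM.r / (1 - DYAM.r)) + N + 1), ?_⟩
  intro K _ N A x hA h s t hs ht
  rcases le_total s t with hst | hst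
  · have hst' : (s : ℝ) ≤ t := by exact_mod_cast hst
    rw [abs_of_nonneg (sub_nonneg.mpr hst')]
    exact DYAM.main_le hA h hs ht hst
  · have hst' : (t : ℝ) ≤ s := by exact_mod_cast hst
    rw [abs_of_nonpos (sub_nonpos.mpr hst'), neg_sub, norm_sub_rev]
    exact DYAM.main_le hA h ht hs hst

end Pool.Agent.Lib.MP17fa2c
end

section
/-! # Module INP: interpolation. -/
set_option autoImplicit false

open MeasureTheory ProbabilityTheory Filter Topology Uniformity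
open scoped NNReal ENNReal BoundedContinuousFunction

namespace Pool.Agent.Lib.MP17fa2c

namespace INPM

/-- Hat functions. -/
noncomputable def hat (s : ℝ) (i : ℕ) : ℝ := max 0 (1 - |s - i|)

theorem hat_nonneg (s : ℝ) (i : ℕ) : 0 ≤ hat s i := le_max_left _ _

theorem hat_pos (s : ℝ) (i : ℕ) (h : hat s i ≠ 0) : |s - i| < 1 := by
  by_contra hc
  apply h
  unfold hat
  apply max_eq_left
  linarith [not_lt.mp hc]

/-- The hat functions form a partition of unity. -/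
theorem sum_hat (M : ℕ) (s : ℝ) (h0 : 0 ≤ s) (h1 : s < M) :
    ∑ i : Fin (M + 1), hat s i = 1 := by
  rw [Finset.sum_range (fun i => hat s i) |>.symm]
  have hj := Nat.floor_le h0
  have hj2 := Nat.lt_floor_add_one s
  set j : ℕ := ⌊s⌋₊ with hjdef
  have hjM : j < M := by
    have h2 : (j : ℝ) < M := lt_of_le_of_lt hj h1
    exact_mod_cast h2
  have hsub : ({j, j + 1} : Finset ℕ) ⊆ Finset.range (M + 1) := by
    intro i hi
    simp only [Finset.mem_insert, Finset.mem_singleton] at hi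
    rw [Finset.mem_range]
    omega
  rw [← Finset.sum_subset hsub]
  · rw [Finset.sum_pair (by omega)]
    unfold hat
    have e1 : |s - (j : ℝ)| = s - j := abs_of_nonneg (by linarith)
    have e2 : |s - ((j + 1 : ℕ) : ℝ)| = j + 1 - s := by
      push_cast
      rw [abs_of_nonpos (by linarith)]
      ring
    rw [e1, e2, max_eq_right (by linarith), max_eq_right (by linarith)]
    ring
  · intro i _ hi
    simp only [Finset.mem_insert, Finset.mem_singleton, not_or] at hi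
    by_contra hc
    have h3 := abs_lt.mp (hat_pos s i hc)
    have h4 : (i : ℝ) < j + 2 := by linarith
    have h5 : (j : ℝ) < i + 1 := by linarith
    have h6 : i < j + 2 := by exact_mod_cast h4
    have h7 : j < i + 1 := by exact_mod_cast h5
    omega

/-- The interpolation operator. -/
noncomputable def II {K : Type} [Fintype K] (m : ℕ) (v : Fin (m ^ 2 + 1) → K → ℝ) : Pth K where
  toFun t := ∑ i : Fin (m ^ 2 + 1), hat (m * t) i • v i
  continuous_toFun := by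
    unfold hat
    fun_prop

theorem cont_II {K : Type} [Fintype K] (m : ℕ) : Continuous (II (K := K) m) := by
  apply ContinuousMap.continuous_of_continuous_uncurry
  show Continuous fun p : (Fin (m ^ 2 + 1) → K → ℝ) × ℝ≥0 =>
    ∑ i : Fin (m ^ 2 + 1), hat (m * p.2) i • p.1 i
  unfold hat
  fun_prop

/-- The general approximation. -/
theorem approx {K : Type} [Fintype K] (x : Pth K) (N m : ℕ) (hm : N < m) (t : ℝ≥0) (ht : t ≤ N)
    (η : ℝ) (hx : ∀ i : ℕ, |(m : ℝ) * t - i| < 1 → ‖x t - x ((i : ℝ≥0) / m)‖ ≤ η) :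
    ‖x t - II m (fun i => x (((i : ℕ) : ℝ≥0) / m)) t‖ ≤ η := by
  have hm0 : 0 < m := by omega
  have hm1 : (0 : ℝ) < m := by exact_mod_cast hm0
  have htN : (t : ℝ) ≤ N := by exact_mod_cast ht
  have hNm : (N : ℝ) < m := by exact_mod_cast hm
  have hsum : ∑ i : Fin (m ^ 2 + 1), hat (m * t) i = 1 := by
    apply sum_hat
    · positivity
    · push_cast
      rw [pow_two]
      exact mul_lt_mul_of_pos_left (lt_of_le_of_lt htN hNm) hm1
  have h1 : x t - II m (fun i => x (((i : ℕ) : ℝ≥0) / m)) t =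
      ∑ i : Fin (m ^ 2 + 1), hat (m * t) i • (x t - x (((i : ℕ) : ℝ≥0) / m)) := by
    have h2 : II m (fun i => x (((i : ℕ) : ℝ≥0) / m)) t =
        ∑ i : Fin (m ^ 2 + 1), hat (m * t) i • x (((i : ℕ) : ℝ≥0) / m) := rfl
    rw [h2]
    simp only [smul_sub]
    rw [Finset.sum_sub_distrib, ← Finset.sum_smul, hsum, one_smul]
  rw [h1]
  refine le_trans (norm_sum_le _ _) ?_
  have h3 : ∀ i : Fin (m ^ 2 + 1), ‖hat (m * t) i • (x t - x (((i : ℕ) : ℝ≥0) / m))‖ ≤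
      hat (m * t) i * η := by
    intro i
    rw [norm_smul, Real.norm_eq_abs, abs_of_nonneg (hat_nonneg _ _)]
    by_cases hz : hat (m * t) i = 0
    · rw [hz, zero_mul, zero_mul]
    · exact mul_le_mul_of_nonneg_left (hx i (hat_pos _ _ hz)) (hat_nonneg _ _)
  refine le_trans (Finset.sum_le_sum fun i _ => h3 i) ?_
  rw [← Finset.sum_mul, hsum, one_mul]

/-- The nodes which contribute are near. -/
theorem near (m : ℕ) (hm : 0 < m) (t : ℝ≥0) (i : ℕ) (h : |(m : ℝ) * t - i| < 1) :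
    |(t : ℝ) - (((i : ℝ≥0) / m : ℝ≥0) : ℝ)| < 1 / m := by
  have hm1 : (0 : ℝ) < m := by exact_mod_cast hm
  have h1 : (t : ℝ) - (((i : ℝ≥0) / m : ℝ≥0) : ℝ) = ((m : ℝ) * t - i) / m := by
    push_cast
    field_simp
  rw [h1, abs_div, abs_of_pos hm1]
  exact div_lt_div_of_pos_right h hm1

theorem near_le (m : ℕ) (hm : 0 < m) (N : ℕ) (t : ℝ≥0) (ht : t ≤ N) (i : ℕ)
    (h : |(m : ℝ) * t - i| < 1) : (i : ℝ≥0) / m ≤ ((N + 1 : ℕ) : ℝ≥0) := by
  have h1 := near m hm t i h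
  have hm1 : (1 : ℝ) ≤ m := by exact_mod_cast hm
  have h2 : (1 : ℝ) / m ≤ 1 := by
    rw [div_le_one (by linarith)]
    exact hm1
  have h3 := (abs_lt.mp h1).1
  have htN : (t : ℝ) ≤ N := by exact_mod_cast ht
  have h4 : (((i : ℝ≥0) / m : ℝ≥0) : ℝ) ≤ ((N + 1 : ℕ) : ℝ) := by
    push_cast at h3 ⊢
    linarith
  exact_mod_cast h4

end INPM

open INPM in
/-- INP. -/
theorem specINP : SpecINP := by
  intro K _
  refine ⟨fun m v => II m v, fun m => cont_II m, ?_, ?_⟩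
  · intro h N δ hδ
    have h1 : Tendsto (fun m : ℕ => |h (N + 1)| * ((1 : ℝ) / m) ^ (1 / 8 : ℝ)) atTop (𝓝 0) := by
      have h2 : Tendsto (fun m : ℕ => ((1 : ℝ) / m) ^ (1 / 8 : ℝ)) atTop (𝓝 ((0 : ℝ) ^ (1 / 8 : ℝ))) :=
        (tendsto_one_div_atTop_nhds_zero_nat).rpow_const (Or.inr (by norm_num))
      rw [Real.zero_rpow (by norm_num)] at h2
      simpa using h2.const_mul (|h (N + 1)|)
    have h3 := (h1.eventually_lt_const hδ).and (eventually_gt_atTop N)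
    obtain ⟨m0, hm0⟩ := eventually_atTop.mp h3
    refine ⟨m0, ?_⟩
    intro m hm x hx t ht
    obtain ⟨h4, h5⟩ := hm0 m hm
    have hmpos : 0 < m := by omega
    refine approx x N m h5 t ht δ ?_
    intro i hi
    have h6 := near m hmpos t i hi
    have h7 := near_le m hmpos N t ht i hi
    have ht' : t ≤ ((N + 1 : ℕ) : ℝ≥0) := by
      refine le_trans ht ?_
      exact_mod_cast Nat.le_succ N
    have h8 := (hx (N + 1)).2 ((i : ℝ≥0) / m) t h7 ht'
    refine le_trans h8 (le_trans ?_ h4.le)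
    have h9 : |(t : ℝ) - (((i : ℝ≥0) / m : ℝ≥0) : ℝ)| ^ (1 / 8 : ℝ) ≤
        ((1 : ℝ) / m) ^ (1 / 8 : ℝ) :=
      Real.rpow_le_rpow (abs_nonneg _) h6.le (by norm_num)
    exact mul_le_mul (le_abs_self _) h9 (by positivity) (abs_nonneg _)
  · intro x
    rw [ContinuousMap.tendsto_iff_forall_isCompact_tendstoUniformlyOn]
    intro C hC
    obtain ⟨M, hM⟩ := hC.bddAbove
    obtain ⟨N, hN⟩ := exists_nat_gt M
    rw [Metric.tendstoUniformlyOn_iff]
    intro ε hε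
    have hcomp : IsCompact (Set.Icc (0 : ℝ≥0) ((N + 1 : ℕ) : ℝ≥0)) := isCompact_Icc
    have huc := hcomp.uniformContinuousOn_of_continuous x.continuous.continuousOn
    rw [Metric.uniformContinuousOn_iff] at huc
    obtain ⟨δ, hδ, huc⟩ := huc (ε / 2) (by linarith)
    have h3 := ((tendsto_one_div_atTop_nhds_zero_nat (𝕜 := ℝ)).eventually_lt_const hδ).and
      (eventually_gt_atTop N)
    filter_upwards [h3] with m hm
    obtain ⟨h4, h5⟩ := hm
    have hmpos : 0 < m := by omega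
    intro t htC
    have ht : t ≤ (N : ℝ≥0) := le_trans (hM htC) hN.le
    rw [dist_eq_norm]
    refine lt_of_le_of_lt (approx x N m h5 t ht (ε / 2) ?_) (by linarith)
    intro i hi
    have h6 := near m hmpos t i hi
    have h7 := near_le m hmpos N t ht i hi
    have ht' : t ≤ ((N + 1 : ℕ) : ℝ≥0) := by
      refine le_trans ht ?_
      exact_mod_cast Nat.le_succ N
    have h8 := huc t ⟨zero_le, ht'⟩ ((i : ℝ≥0) / m) ⟨zero_le, h7⟩ (by
      rw [NNReal.dist_eq]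
      exact lt_trans h6 h4)
    rw [dist_eq_norm] at h8
    exact h8.le

end Pool.Agent.Lib.MP17fa2c
end

section
/-!
# Module LCF (helper20): the continuity theorem of Lévy in `Fin m → K → ℝ`
-/
set_option autoImplicit false

open MeasureTheory ProbabilityTheory Filter Topology
open scoped NNReal ENNReal BoundedContinuousFunction RealInnerProductSpace

namespace Pool.Agent.Lib.MP17fa2c

namespace LCFM

variable {K : Type} [Fintype K] {m : ℕ}

/-- to the Euclidean space -/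
noncomputable def tE (z : Fin m → K → ℝ) : EuclideanSpace ℝ (Fin m × K) :=
  WithLp.toLp 2 (fun p => z p.1 p.2)

/-- back -/
def fE (x : EuclideanSpace ℝ (Fin m × K)) : Fin m → K → ℝ := fun i k => x (i, k)

omit [Fintype K] in
theorem fE_tE (z : Fin m → K → ℝ) : fE (tE z) = z := by
  funext i k
  rfl

omit [Fintype K] in
theorem cont_tE : Continuous (tE (K := K) (m := m)) := by
  unfold tE
  fun_prop

omit [Fintype K] in
theorem cont_fE : Continuous (fE (K := K) (m := m)) := by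
  unfold fE
  fun_prop

theorem inner_tE (z : Fin m → K → ℝ) (t : EuclideanSpace ℝ (Fin m × K)) :
    ⟪tE z, t⟫ = ∑ i, ∑ k, fE t i k * z i k := by
  rw [PiLp.inner_apply, Fintype.sum_prod_type]
  refine Finset.sum_congr rfl fun i _ => Finset.sum_congr rfl fun k _ => ?_
  simp [tE, fE]

theorem char_map {Ω : Type} [MeasurableSpace Ω] (P : Measure Ω) (Z : Ω → Fin m → K → ℝ)
    (hZ : Measurable Z) (t : EuclideanSpace ℝ (Fin m × K)) :
    charFun (P.map (fun ω => tE (Z ω))) t =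
      ∫ ω, Complex.exp (Complex.I * (∑ i, ∑ k, fE t i k * Z ω i k : ℝ)) ∂P := by
  rw [charFun_apply, integral_map]
  · refine integral_congr_ae (Eventually.of_forall fun ω => ?_)
    simp only [inner_tE]
    rw [mul_comm]
  · exact (cont_tE.measurable.comp hZ).aemeasurable
  · exact Continuous.aestronglyMeasurable (by fun_prop)

/-- the law as a probability measure -/
noncomputable def pm {Ω : Type} [MeasurableSpace Ω] (P : Measure Ω) [IsProbabilityMeasure P]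
    (Z : Ω → Fin m → K → ℝ) (hZ : Measurable Z) :
    ProbabilityMeasure (EuclideanSpace ℝ (Fin m × K)) :=
  ⟨P.map (fun ω => tE (Z ω)),
    Measure.isProbabilityMeasure_map (cont_tE.measurable.comp hZ).aemeasurable⟩

theorem pm_coe {Ω : Type} [MeasurableSpace Ω] (P : Measure Ω) [IsProbabilityMeasure P]
    (Z : Ω → Fin m → K → ℝ) (hZ : Measurable Z) :
    ((pm P Z hZ : ProbabilityMeasure (EuclideanSpace ℝ (Fin m × K))) :
      Measure (EuclideanSpace ℝ (Fin m × K))) = P.map (fun ω => tE (Z ω)) := rfl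

theorem pm_int {Ω : Type} [MeasurableSpace Ω] (P : Measure Ω) [IsProbabilityMeasure P]
    (Z : Ω → Fin m → K → ℝ) (hZ : Measurable Z) (f : (Fin m → K → ℝ) →ᵇ ℝ) :
    ∫ x, (f.compContinuous ⟨fE, cont_fE⟩) x ∂((pm P Z hZ :
      ProbabilityMeasure (EuclideanSpace ℝ (Fin m × K))) :
        Measure (EuclideanSpace ℝ (Fin m × K))) = ∫ ω, f (Z ω) ∂P := by
  have hm : AEMeasurable (fun ω => tE (Z ω)) P := (cont_tE.measurable.comp hZ).aemeasurable
  rw [pm_coe, integral_map hm (BoundedContinuousFunction.continuous _).aestronglyMeasurable]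
  refine integral_congr_ae (Eventually.of_forall fun ω => ?_)
  simp [fE_tE]

end LCFM

open LCFM in
theorem specLCF : SpecLCF := by
  intro K _ m Ω _ P _ Z Ω' _ P' _ W hZ hW h f
  have key : Tendsto (fun n => pm (P n) (Z n) (hZ n)) atTop (𝓝 (pm P' W hW)) := by
    apply ProbabilityMeasure.tendsto_of_tendsto_charFun
    intro t
    simp only [pm_coe, char_map _ _ hW, char_map _ _ (hZ _)]
    exact h (fE t)
  rw [ProbabilityMeasure.tendsto_iff_forall_integral_tendsto] at key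
  have h2 := key (f.compContinuous ⟨fE, cont_fE⟩)
  simp only [pm_int] at h2
  exact h2

end Pool.Agent.Lib.MP17fa2c
end

section
/-! # Module MSR: measurability. -/
set_option autoImplicit false

open MeasureTheory ProbabilityTheory Filter Topology
open scoped NNReal ENNReal BoundedContinuousFunction

namespace Pool.Agent.Lib.MP17fa2c

/-- MSR. -/
theorem specMSR (hINP : SpecINP) : SpecMSR := by
  intro K _ Ω _ X Φ hX hΦ
  obtain ⟨I, hI, _, hlim⟩ := hINP K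
  refine measurable_of_tendsto_metrizable
    (f := fun (m : ℕ) (ω : Ω) => Φ (I m (fun i => X ω (((i : ℕ) : ℝ≥0) / m)))) ?_ ?_
  · intro m
    exact (hΦ.comp (hI m)).measurable.comp (measurable_pi_lambda _ fun i => hX _)
  · rw [tendsto_pi_nhds]
    intro ω
    exact (hΦ.tendsto (X ω)).comp (hlim (X ω))

end Pool.Agent.Lib.MP17fa2c
end

section
/-!
# Module SU3: distance between a path and its interpolation
-/
set_option autoImplicit false

open MeasureTheory ProbabilityTheory Filter Topology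
open scoped RealInnerProductSpace NNReal ENNReal BoundedContinuousFunction Quaternion

namespace Pool.Agent.Lib.MP17fa2c

namespace SU3M

section det

variable {K : Type} [Fintype K]

/-- increments of the levels `L2 + m + 1` are at most `A (9/10)^(m+1)` -/
def DyC (N L2 : ℕ) (A : ℝ) (x : Pth K) : Prop :=
  ∀ m i : ℕ, i < N * 2 ^ (L2 + m + 1) →
    ‖x (((i : ℝ≥0) + 1) / 2 ^ (L2 + m + 1)) - x ((i : ℝ≥0) / 2 ^ (L2 + m + 1))‖ ≤
      A * (9 / 10) ^ (m + 1)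

theorem incr {N L2 : ℕ} {A : ℝ} {x : Pth K} (hA : 0 ≤ A) (h : DyC N L2 A x) {t : ℝ≥0}
    (ht : t ≤ N) (m : ℕ) :
    ‖x (DYAM.pt (L2 + m + 1) t) - x (DYAM.pt (L2 + m) t)‖ ≤ A * (9 / 10) ^ (m + 1) := by
  rcases DYAM.fl_succ (L2 + m) t with h1 | h1
  · have e : DYAM.pt (L2 + m + 1) t = DYAM.pt (L2 + m) t := by
      unfold DYAM.pt
      rw [h1, DYAM.half]
    rw [e, sub_self, norm_zero]
    positivity
  · have hlt : 2 * DYAM.fl (L2 + m) t < N * 2 ^ (L2 + m + 1) := by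
      have := DYAM.fl_le (l := L2 + m + 1) ht
      omega
    have h2 := h m (2 * DYAM.fl (L2 + m) t) hlt
    have e1 : (((2 * DYAM.fl (L2 + m) t : ℕ) : ℝ≥0) + 1) / 2 ^ (L2 + m + 1) =
        DYAM.pt (L2 + m + 1) t := by
      unfold DYAM.pt
      rw [h1]
      push_cast
      rfl
    rw [e1, DYAM.half] at h2
    exact h2

theorem tel {N L2 : ℕ} {A : ℝ} {x : Pth K} (hA : 0 ≤ A) (h : DyC N L2 A x) {t : ℝ≥0}
    (ht : t ≤ N) (m : ℕ) :
    ‖x (DYAM.pt (L2 + m) t) - x (DYAM.pt L2 t)‖ ≤ 9 * A * (1 - (9 / 10) ^ m) := by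
  induction m with
  | zero => simp
  | succ m ih =>
    have h1 := incr hA h ht m
    have h2 : ‖x (DYAM.pt (L2 + (m + 1)) t) - x (DYAM.pt L2 t)‖
        ≤ ‖x (DYAM.pt (L2 + m + 1) t) - x (DYAM.pt (L2 + m) t)‖ +
          ‖x (DYAM.pt (L2 + m) t) - x (DYAM.pt L2 t)‖ := by
      have : x (DYAM.pt (L2 + (m + 1)) t) - x (DYAM.pt L2 t)
          = (x (DYAM.pt (L2 + m + 1) t) - x (DYAM.pt (L2 + m) t)) +
            (x (DYAM.pt (L2 + m) t) - x (DYAM.pt L2 t)) := by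
        rw [sub_add_sub_cancel]
        rfl
      rw [this]
      exact norm_add_le _ _
    refine h2.trans ((add_le_add h1 ih).trans (le_of_eq ?_))
    rw [pow_succ]
    ring

theorem lim {N L2 : ℕ} {A : ℝ} {x : Pth K} (hA : 0 ≤ A) (h : DyC N L2 A x) {t : ℝ≥0}
    (ht : t ≤ N) : ‖x t - x (DYAM.pt L2 t)‖ ≤ 9 * A := by
  have h1 : Tendsto (fun m => DYAM.pt (L2 + m) t) atTop (𝓝 t) := by
    have := (DYAM.tendsto_pt t).comp (tendsto_add_atTop_nat L2)
    refine this.congr ?_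
    intro m
    simp only [Function.comp_apply]
    rw [Nat.add_comm]
  have h2 : Tendsto (fun m => ‖x (DYAM.pt (L2 + m) t) - x (DYAM.pt L2 t)‖) atTop
      (𝓝 ‖x t - x (DYAM.pt L2 t)‖) := by
    apply Tendsto.norm
    apply Tendsto.sub_const
    exact (x.continuous.tendsto t).comp h1
  refine le_of_tendsto' h2 (fun m => (tel hA h ht m).trans ?_)
  have h4 : (0 : ℝ) < (9 / 10) ^ m := by positivity
  nlinarith

/-- the level-`L` cell of a point of level `L + d` -/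
theorem fl_div (L d : ℕ) (t : ℝ≥0) : DYAM.fl (L + d) t / 2 ^ d = DYAM.fl L t := by
  unfold DYAM.fl
  have h : (t : ℝ) * 2 ^ L = (t : ℝ) * 2 ^ (L + d) / ((2 ^ d : ℕ) : ℝ) := by
    push_cast
    rw [pow_add, ← mul_assoc, mul_div_cancel_right₀ _ (by positivity)]
  rw [h, Nat.floor_div_natCast]

theorem det {N L d : ℕ} {I : ℕ → Pth K → Pth K} (hI : IsItp I) {y : ℝ} (x : Pth K) (hy : 0 ≤ y)
    (h1 : DyC N (L + d) (y / 9) x)
    (h2 : ∀ i < N * 2 ^ (L + d) + 1,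
      ‖x ((i : ℝ≥0) / 2 ^ (L + d)) - x (((i / 2 ^ d : ℕ) : ℝ≥0) / 2 ^ L)‖ ≤ y)
    (h3 : ∀ i < N * 2 ^ (L + d) + 1,
      ‖x ((i : ℝ≥0) / 2 ^ (L + d)) - x ((((i / 2 ^ d : ℕ) : ℝ≥0) + 1) / 2 ^ L)‖ ≤ y)
    (t : ℝ≥0) (ht : t ≤ N) : ‖x t - I L x t‖ ≤ 3 * y := by
  have hi : DYAM.fl (L + d) t < N * 2 ^ (L + d) + 1 := Nat.lt_succ_of_le (DYAM.fl_le ht)
  have a2 := h2 _ hi
  have a3 := h3 _ hi
  rw [fl_div] at a2 a3
  have a1 := lim (by positivity) h1 ht
  have e1 : 9 * (y / 9) = y := by ring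
  rw [e1] at a1
  have hle : ((DYAM.fl L t : ℕ) : ℝ) ≤ (t : ℝ) * 2 ^ L :=
    Nat.floor_le (mul_nonneg t.2 (by positivity))
  have hlt : (t : ℝ) * 2 ^ L < (DYAM.fl L t : ℝ) + 1 := Nat.lt_floor_add_one _
  have hle' : ((DYAM.fl L t : ℕ) : ℝ≥0) ≤ t * 2 ^ L := by
    rw [← NNReal.coe_le_coe]
    push_cast
    exact hle
  set j := DYAM.fl L t with hj
  set f : ℝ≥0 := t * 2 ^ L - j with hf
  have hjf : (j : ℝ≥0) + f = t * 2 ^ L := add_tsub_cancel_of_le hle'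
  have hfr : (f : ℝ) = (t : ℝ) * 2 ^ L - j := by
    rw [hf, NNReal.coe_sub hle']
    push_cast
    rfl
  have hf1 : f ≤ 1 := by
    rw [← NNReal.coe_le_coe, hfr]
    push_cast
    linarith
  have ht' : ((j : ℝ≥0) + f) / 2 ^ L = t := by
    rw [hjf, mul_div_cancel_right₀ _ (by positivity)]
  have hIt := hI L x j f hf1
  rw [ht'] at hIt
  have hf0 : (0 : ℝ) ≤ f := f.2
  have hf1' : (f : ℝ) ≤ 1 := by exact_mod_cast hf1
  have a4 : ‖x (DYAM.pt (L + d) t) - I L x t‖ ≤ y := by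
    rw [hIt]
    have e2 : x (DYAM.pt (L + d) t) -
        (((1 : ℝ) - f) • x ((j : ℝ≥0) / 2 ^ L) + (f : ℝ) • x (((j : ℝ≥0) + 1) / 2 ^ L)) =
        ((1 : ℝ) - f) • (x (DYAM.pt (L + d) t) - x ((j : ℝ≥0) / 2 ^ L)) +
        (f : ℝ) • (x (DYAM.pt (L + d) t) - x (((j : ℝ≥0) + 1) / 2 ^ L)) := by
      module
    rw [e2]
    refine (norm_add_le _ _).trans ?_
    rw [norm_smul, norm_smul, Real.norm_of_nonneg (by linarith), Real.norm_of_nonneg hf0]
    have b2 := mul_le_mul_of_nonneg_left a2 (by linarith : (0 : ℝ) ≤ 1 - f)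
    have b3 := mul_le_mul_of_nonneg_left a3 hf0
    unfold DYAM.pt
    linarith
  have a5 : ‖x t - I L x t‖ ≤ ‖x t - x (DYAM.pt (L + d) t)‖ + ‖x (DYAM.pt (L + d) t) - I L x t‖ := by
    have : x t - I L x t = (x t - x (DYAM.pt (L + d) t)) + (x (DYAM.pt (L + d) t) - I L x t) := by
      rw [sub_add_sub_cancel]
    rw [this]
    exact norm_add_le _ _
  linarith

/-- distances of a point of level `L + d` from the ends of its level-`L` cell -/
theorem dist_cell (L d i : ℕ) :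
    |(((((i / 2 ^ d : ℕ) : ℝ≥0) / 2 ^ L : ℝ≥0)) : ℝ) - (((i : ℝ≥0) / 2 ^ (L + d) : ℝ≥0) : ℝ)| ≤
      1 / 2 ^ L ∧
    |((((((i / 2 ^ d : ℕ) : ℝ≥0) + 1) / 2 ^ L : ℝ≥0)) : ℝ) -
      (((i : ℝ≥0) / 2 ^ (L + d) : ℝ≥0) : ℝ)| ≤ 1 / 2 ^ L := by
  have h1 : 2 ^ d * (i / 2 ^ d) ≤ i := Nat.mul_div_le i _
  have h2 : i < 2 ^ d * (i / 2 ^ d) + 2 ^ d := by
    have := Nat.div_add_mod i (2 ^ d)
    have h3 := Nat.mod_lt i (show 0 < 2 ^ d by positivity)
    omega
  set j := i / 2 ^ d with hj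
  have h1' : (2 : ℝ) ^ d * j ≤ i := by exact_mod_cast h1
  have h2' : (i : ℝ) ≤ 2 ^ d * j + 2 ^ d := by exact_mod_cast h2.le
  have hL : (0 : ℝ) < 2 ^ L := by positivity
  have hd : (0 : ℝ) < 2 ^ d := by positivity
  have e1 : (i : ℝ) / 2 ^ (L + d) = (i / 2 ^ d) / 2 ^ L := by
    rw [pow_add, mul_comm, div_div]
  have h3 : (j : ℝ) ≤ i / 2 ^ d := by
    rw [le_div_iff₀ hd]
    linarith
  have h4 : (i : ℝ) / 2 ^ d ≤ j + 1 := by
    rw [div_le_iff₀ hd]
    linarith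
  push_cast
  rw [e1, ← sub_div, ← sub_div, abs_div, abs_div, abs_of_pos hL]
  constructor
  · apply div_le_div_of_nonneg_right _ hL.le
    rw [abs_le]
    constructor
    · linarith
    · linarith
  · apply div_le_div_of_nonneg_right _ hL.le
    rw [abs_le]
    constructor
    · linarith
    · linarith

end det

section prob

theorem lev (N L2 m : ℕ) {a A : ℝ} (hA : 0 < A) :
    ((N * 2 ^ (L2 + m + 1) : ℕ) : ℝ) *
      (a * (1 / 2 ^ (L2 + m + 1)) ^ 2 / (A * (9 / 10) ^ (m + 1)) ^ 4) =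
    N * a / (2 ^ L2 * A ^ 4) * (5000 / 6561) ^ (m + 1) := by
  have e1 : (2 : ℝ) ^ (L2 + m + 1) = 2 ^ L2 * 2 ^ (m + 1) := by rw [add_assoc, pow_add]
  have e2 : (5000 / 6561 : ℝ) ^ (m + 1) = (2 ^ (m + 1) * ((9 / 10) ^ (m + 1)) ^ 4)⁻¹ := by
    rw [← pow_mul, mul_comm (m + 1) 4, pow_mul, ← mul_pow, ← inv_pow]
    norm_num
  push_cast
  rw [e1, e2]
  have h1 : (0 : ℝ) < 2 ^ L2 := by positivity
  have h2 : (0 : ℝ) < 2 ^ (m + 1) := by positivity
  have h3 : (0 : ℝ) < (9 / 10) ^ (m + 1) := by positivity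
  generalize (2 : ℝ) ^ L2 = u at *
  generalize (2 : ℝ) ^ (m + 1) = v at *
  generalize (9 / 10 : ℝ) ^ (m + 1) = w at *
  field_simp

theorem tsumb (c : ℝ) (hc : 0 ≤ c) :
    ∑' m : ℕ, ENNReal.ofReal (c * (5000 / 6561) ^ (m + 1)) ≤ ENNReal.ofReal (4 * c) := by
  have hg := summable_geometric_of_lt_one (by norm_num : (0 : ℝ) ≤ 5000 / 6561) (by norm_num)
  have hs : Summable fun m : ℕ => c * (5000 / 6561 : ℝ) ^ (m + 1) := by
    refine (hg.mul_left (c * (5000 / 6561))).congr fun m => ?_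
    rw [pow_succ]
    ring
  rw [← ENNReal.ofReal_tsum_of_nonneg (fun m => by positivity) hs]
  apply ENNReal.ofReal_le_ofReal
  have h1 : ∑' m : ℕ, c * (5000 / 6561 : ℝ) ^ (m + 1) =
      c * (5000 / 6561) * (1 - 5000 / 6561)⁻¹ := by
    rw [← tsum_geometric_of_lt_one (by norm_num) (by norm_num), ← tsum_mul_left]
    congr 1
    ext m
    rw [pow_succ]
    ring
  rw [h1]
  norm_num
  linarith

variable {K : Type} [Fintype K] {Ω : Type} [MeasurableSpace Ω] {P : Measure Ω} {X : Ω → Pth K}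

theorem markov (hX : ∀ t, Measurable fun ω => X ω t) {s t : ℝ≥0} {B y : ℝ} (hy : 0 < y)
    (h : ∫⁻ ω, ENNReal.ofReal (‖X ω t - X ω s‖ ^ 4) ∂P ≤ ENNReal.ofReal B) :
    P {ω | y < ‖X ω t - X ω s‖} ≤ ENNReal.ofReal (B / y ^ 4) := by
  have hm : Measurable fun ω => ENNReal.ofReal (‖X ω t - X ω s‖ ^ 4) :=
    (((hX t).sub (hX s)).norm.pow_const 4).ennreal_ofReal
  have h0 : ENNReal.ofReal (y ^ 4) ≠ 0 := by
    rw [Ne, ENNReal.ofReal_eq_zero, not_le]
    positivity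
  have h1 := meas_ge_le_lintegral_div (μ := P) hm.aemeasurable h0 ENNReal.ofReal_ne_top
  rw [ENNReal.ofReal_div_of_pos (by positivity)]
  calc P {ω | y < ‖X ω t - X ω s‖}
      ≤ P {ω | ENNReal.ofReal (y ^ 4) ≤ ENNReal.ofReal (‖X ω t - X ω s‖ ^ 4)} := by
        apply measure_mono
        intro ω hω
        have hω' : y < ‖X ω t - X ω s‖ := hω
        change ENNReal.ofReal (y ^ 4) ≤ ENNReal.ofReal (‖X ω t - X ω s‖ ^ 4)
        exact ENNReal.ofReal_le_ofReal (pow_le_pow_left₀ hy.le hω'.le 4)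
    _ ≤ (∫⁻ ω, ENNReal.ofReal (‖X ω t - X ω s‖ ^ 4) ∂P) / ENNReal.ofReal (y ^ 4) := h1
    _ ≤ ENNReal.ofReal B / ENNReal.ofReal (y ^ 4) := ENNReal.div_le_div_right h _

theorem badC (hX : ∀ t, Measurable fun ω => X ω t) {C0 a e : ℝ} {L : ℕ}
    (h3 : ThreeScale P X C0 a e L) (N L2 : ℕ) {A : ℝ} (hA : 0 < A) :
    P {ω | ¬ DyC N L2 A (X ω)} ≤ ENNReal.ofReal (4 * (N * a / (2 ^ L2 * A ^ 4))) := by
  have ha : 0 ≤ a := by linarith [h3.ha]
  have hsub : {ω | ¬ DyC N L2 A (X ω)} ⊆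
      ⋃ m : ℕ, ⋃ i ∈ Finset.range (N * 2 ^ (L2 + m + 1)),
        {ω | A * (9 / 10) ^ (m + 1) < ‖X ω (((i : ℝ≥0) + 1) / 2 ^ (L2 + m + 1)) -
          X ω ((i : ℝ≥0) / 2 ^ (L2 + m + 1))‖} := by
    intro ω hω
    simp only [Set.mem_ofPred_eq, DyC, not_forall, not_le] at hω
    obtain ⟨m, i, hi, h⟩ := hω
    simp only [Set.mem_iUnion, Finset.mem_range]
    exact ⟨m, i, hi, h⟩
  refine (measure_mono hsub).trans ((measure_iUnion_le _).trans ?_)
  refine le_trans (ENNReal.tsum_le_tsum fun m => ?_) (tsumb _ (by positivity))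
  refine (measure_biUnion_finset_le _ _).trans ?_
  refine (Finset.sum_le_card_nsmul _ _ (ENNReal.ofReal
    (a * (1 / 2 ^ (L2 + m + 1)) ^ 2 / (A * (9 / 10) ^ (m + 1)) ^ 4)) fun i _ => ?_).trans ?_
  · apply markov hX (by positivity)
    have e1 : (((((i : ℝ≥0) + 1) / 2 ^ (L2 + m + 1) : ℝ≥0)) : ℝ) -
        (((i : ℝ≥0) / 2 ^ (L2 + m + 1) : ℝ≥0) : ℝ) = 1 / 2 ^ (L2 + m + 1) := by
      push_cast
      rw [← sub_div, add_sub_cancel_left]
    have h4 := h3.fine ((i : ℝ≥0) / 2 ^ (L2 + m + 1)) (((i : ℝ≥0) + 1) / 2 ^ (L2 + m + 1)) (by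
      rw [e1, abs_of_nonneg (by positivity), div_le_one (by positivity)]
      exact one_le_pow₀ (by norm_num))
    rw [e1] at h4
    exact h4
  · rw [Finset.card_range, nsmul_eq_mul, ← ENNReal.ofReal_natCast,
      ← ENNReal.ofReal_mul (by positivity), lev N L2 m hA]

end prob

end SU3M

theorem specSU3 : SpecSU3 := by
  intro N
  refine ⟨30000 * ((N : ℝ) + 1), by positivity, ?_⟩
  intro K _ I Ω _ P _ X C0 a e x p L L2 hI hX h3 hL hx hp hmid
  obtain ⟨d, rfl⟩ := Nat.exists_eq_add_of_le hL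
  have ha : 0 ≤ a := by linarith [h3.ha]
  have hsub : {ω | ∃ t : ℝ≥0, t ≤ N ∧ 3 * x < ‖X ω t - I L (X ω) t‖} ⊆
      {ω | ¬ SU3M.DyC N (L + d) (x / 9) (X ω)} ∪
      ⋃ i ∈ Finset.range (N * 2 ^ (L + d) + 1),
        ({ω | x < ‖X ω ((i : ℝ≥0) / 2 ^ (L + d)) - X ω (((i / 2 ^ d : ℕ) : ℝ≥0) / 2 ^ L)‖} ∪
        {ω | x < ‖X ω ((i : ℝ≥0) / 2 ^ (L + d)) -
          X ω ((((i / 2 ^ d : ℕ) : ℝ≥0) + 1) / 2 ^ L)‖}) := by
    intro ω hω
    by_contra hcon
    rw [Set.mem_union, not_or] at hcon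
    obtain ⟨hc1, hc2⟩ := hcon
    simp only [Set.mem_ofPred_eq, not_not] at hc1
    simp only [Set.mem_iUnion, Finset.mem_range, Set.mem_union, Set.mem_ofPred_eq, not_exists,
      not_or, not_lt] at hc2
    obtain ⟨t, ht, hlt⟩ := hω
    have := SU3M.det hI (X ω) hx.le hc1 (fun i hi => (hc2 i hi).1) (fun i hi => (hc2 i hi).2) t ht
    linarith
  refine (measure_mono hsub).trans ((measure_union_le _ _).trans ?_)
  have b1 := SU3M.badC hX h3 N (L + d) (A := x / 9) (by positivity)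
  have b2 : P (⋃ i ∈ Finset.range (N * 2 ^ (L + d) + 1),
        ({ω | x < ‖X ω ((i : ℝ≥0) / 2 ^ (L + d)) - X ω (((i / 2 ^ d : ℕ) : ℝ≥0) / 2 ^ L)‖} ∪
        {ω | x < ‖X ω ((i : ℝ≥0) / 2 ^ (L + d)) -
          X ω ((((i / 2 ^ d : ℕ) : ℝ≥0) + 1) / 2 ^ L)‖})) ≤
      ENNReal.ofReal (((N * 2 ^ (L + d) + 1 : ℕ) : ℝ) * (p + p)) := by
    refine (measure_biUnion_finset_le _ _).trans ?_
    refine (Finset.sum_le_card_nsmul _ _ (ENNReal.ofReal (p + p)) fun i _ => ?_).trans ?_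
    · refine (measure_union_le _ _).trans ?_
      rw [ENNReal.ofReal_add hp hp]
      obtain ⟨d1, d2⟩ := SU3M.dist_cell L d i
      refine add_le_add (hmid _ _ ?_) (hmid _ _ ?_)
      · rw [abs_sub_comm]
        exact d1
      · rw [abs_sub_comm]
        exact d2
    · rw [Finset.card_range, nsmul_eq_mul, ← ENNReal.ofReal_natCast,
        ← ENNReal.ofReal_mul (by positivity)]
  refine (add_le_add b1 b2).trans ?_
  rw [← ENNReal.ofReal_add (by positivity) (by positivity)]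
  apply ENNReal.ofReal_le_ofReal
  have hD : (1 : ℝ) ≤ 2 ^ (L + d) := one_le_pow₀ (by norm_num)
  have hx4 : 0 < x ^ 4 := by positivity
  have e1 : 4 * (N * a / (2 ^ (L + d) * (x / 9) ^ 4)) =
      26244 * N * (a / (2 ^ (L + d) * x ^ 4)) := by
    field_simp
    norm_num
    ring
  rw [e1]
  push_cast
  have h5 : 0 ≤ a / (2 ^ (L + d) * x ^ 4) := by positivity
  have h6 : 0 ≤ (2 : ℝ) ^ (L + d) * p := by positivity
  have hN : (0 : ℝ) ≤ N := by positivity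
  have h7 : 26244 * N * (a / (2 ^ (L + d) * x ^ 4)) ≤
      30000 * ((N : ℝ) + 1) * (a / (2 ^ (L + d) * x ^ 4)) :=
    mul_le_mul_of_nonneg_right (by linarith) h5
  have h8 : ((N : ℝ) * 2 ^ (L + d) + 1) * (p + p) ≤
      30000 * ((N : ℝ) + 1) * (2 ^ (L + d) * p) := by
    have h9 : (N : ℝ) * 2 ^ (L + d) + 1 ≤ ((N : ℝ) + 1) * 2 ^ (L + d) := by linarith
    calc ((N : ℝ) * 2 ^ (L + d) + 1) * (p + p)
        ≤ (((N : ℝ) + 1) * 2 ^ (L + d)) * (p + p) :=
          mul_le_mul_of_nonneg_right h9 (by linarith)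
      _ = 2 * ((N : ℝ) + 1) * (2 ^ (L + d) * p) := by ring
      _ ≤ 30000 * ((N : ℝ) + 1) * (2 ^ (L + d) * p) :=
          mul_le_mul_of_nonneg_right (by linarith) h6
  linarith

end Pool.Agent.Lib.MP17fa2c
end
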