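import Mathlib

/-!
# MP_17fa2c_pr, block W: weak convergence in `C([0,∞); ℝ^K)`

File `TD/XXX.lean`, `import Pool.Agent.Lib.MP_17fa2c_pr.TD.SpecW`,
`theorem specXXX (hYYY : SpecYYY) .. : SpecXXX`, own lemmas in the namespace `XXXM`.
`K → ℝ` has the sup norm.
-/

set_option autoImplicit false

open MeasureTheory ProbabilityTheory Filter Topology
open scoped NNReal ENNReal BoundedContinuousFunction

namespace Pool.Agent.Lib.MP17fa2c

/-- paths -/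
abbrev Pth (K : Type) : Type := C(ℝ≥0, K → ℝ)

/-- Hölder paths with constants `h N` on `[0,N]` -/
def HK {K : Type} [Fintype K] (h : ℕ → ℝ) : Set (Pth K) :=
  {x | ∀ N : ℕ, (∀ t : ℝ≥0, t ≤ N → ‖x t‖ ≤ h N) ∧
    ∀ s t : ℝ≥0, s ≤ N → t ≤ N → ‖x t - x s‖ ≤ h N * |(t : ℝ) - s| ^ (1 / 8 : ℝ)}

/-- increments over dyadic intervals of level `l` in `[0,N]` are at most `A 2^{-l/8}` -/
def DyB {K : Type} [Fintype K] (N : ℕ) (A : ℝ) (x : Pth K) : Prop :=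
  ∀ l i : ℕ, i < N * 2 ^ l →
    ‖x (((i : ℝ≥0) + 1) / 2 ^ l) - x ((i : ℝ≥0) / 2 ^ l)‖ ≤ A * (2 : ℝ) ^ (-(l : ℝ) / 8)

/-- Two-scale bound of the increments. -/
def TwoScale {K : Type} [Fintype K] {Ω : Type*} [MeasurableSpace Ω] (P : Measure Ω)
    (X : Ω → Pth K) (C0 a e : ℝ) : Prop :=
  1 ≤ a ∧ 0 ≤ e ∧ e * a ^ 3 ≤ 1 ∧
  (∀ s t : ℝ≥0, |(t : ℝ) - s| ≤ 1 →
    ∫⁻ ω, ENNReal.ofReal (‖X ω t - X ω s‖ ^ 4) ∂P ≤ ENNReal.ofReal (a * ((t : ℝ) - s) ^ 2)) ∧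
  ∀ s t : ℝ≥0, |(t : ℝ) - s| ≤ 1 → ∀ x : ℝ, 0 < x →
    P {ω | x < ‖X ω t - X ω s‖} ≤
      ENNReal.ofReal (C0 * (((t : ℝ) - s) ^ 2 + e) * ((x ^ 2)⁻¹ + (x ^ 4)⁻¹))

/-- **ARZ** (120 lines). Arzelà–Ascoli: `HK h` is compact.
Proof. `ArzelaAscoli.isCompact_of_equicontinuous`: the image in the product `ℝ≥0 → (K → ℝ)` is contained in a
product of closed balls (Tychonoff) and closed (the conditions pass to pointwise limits, and a function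
that satisfies them is continuous); equicontinuity from the Hölder bound on `[0,N]`, `N > t`. -/
def SpecARZ : Prop := ∀ (K : Type) [Fintype K] (h : ℕ → ℝ), IsCompact (HK (K := K) h)

/-- **UNI** (120 lines). Uniform approximation on compact sets.
Proof. The compact-open topology is that of uniform convergence on the compact sets `[0,N]`
(`ContinuousMap.tendsto_iff_forall_isCompact_tendstoUniformlyOn` or `compactConvNhd`): for every `x ∈ S` there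
are `N_x`, `δ_x` with `|Φ x - Φ y| ≤ ε/2` if `sup_{[0,N_x]} |x - y| ≤ 2 δ_x`. Finite subcover by the
sets `{y | sup_{[0,N_x]} |x-y| < δ_x}`; `N = max`, `δ = min`. -/
def SpecUNI : Prop := ∀ (K : Type) [Fintype K] (Φ : Pth K → ℝ) (S : Set (Pth K)), Continuous Φ →
  IsCompact S → ∀ ε : ℝ, 0 < ε → ∃ (N : ℕ) (δ : ℝ), 0 < δ ∧ ∀ x ∈ S, ∀ y : Pth K,
    (∀ t : ℝ≥0, t ≤ N → ‖x t - y t‖ ≤ δ) → |Φ x - Φ y| ≤ ε

/-- **INP** (150 lines). Interpolation.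
Proof. `I m v t = ∑_{i ≤ m²} max 0 (1 - |m t - i|) • v i`. For `t ≤ N < m` the hat functions sum to `1` and only
`i` with `|t - i/m| < 1/m` contribute. (a) Hölder paths: error `≤ h (N+1) m^{-1/8}`. (b) For every path `I m x → x`
uniformly on compact sets (uniform continuity on `[0,N+1]`). -/
def SpecINP : Prop := ∀ (K : Type) [Fintype K],
  ∃ I : (m : ℕ) → (Fin (m ^ 2 + 1) → K → ℝ) → Pth K, (∀ m, Continuous (I m)) ∧
    (∀ (h : ℕ → ℝ) (N : ℕ) (δ : ℝ), 0 < δ → ∃ m0 : ℕ, ∀ m ≥ m0, ∀ x ∈ HK (K := K) h,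
      ∀ t : ℝ≥0, t ≤ N → ‖x t - I m (fun i => x ((i : ℕ) / m)) t‖ ≤ δ) ∧
    ∀ x : Pth K, Tendsto (fun m : ℕ => I m (fun i => x ((i : ℕ) / m))) atTop (𝓝 x)

/-- **DYA** (200 lines). Chaining (deterministic).
Proof. Standard: for dyadic points `s < t` of `[0,N]` with `t - s ≤ 2^{-l}`: both are joined to neighbouring or
equal points of level `l` by increments of levels `> l`, at most one of each level, so
`‖x t - x s‖ ≤ 2 A ∑_{l' ≥ l} 2^{-l'/8} ≤ 26 A 2^{-l/8}`; for `|t - s| > 1` add at most `N` increments of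
level `0`; dyadic points are dense and `x` is continuous. -/
def SpecDYA : Prop := ∃ C : ℕ → ℝ, ∀ (K : Type) [Fintype K] (N : ℕ) (A : ℝ) (x : Pth K), 0 ≤ A →
  DyB N A x → ∀ s t : ℝ≥0, s ≤ N → t ≤ N → ‖x t - x s‖ ≤ C N * A * |(t : ℝ) - s| ^ (1 / 8 : ℝ)

/-- **CHP** (200 lines). Probability of a large dyadic increment.
Proof. Union bound. Let `L` with `a ≤ 2^{L/2} ≤ 2 a`. Levels `l < L`, second bound with `x = A 2^{-l/8}`, `A ≥ 1`:
`N 2^l C0 (2^{-2l} + e) (A^{-2} 2^{l/4} + A^{-4} 2^{l/2}) ≤ 2 C0 N A^{-2} (2^{-l/2} + e 2^{3l/2})`, the sum over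
`l < L` is `≤ C A^{-2} (1 + e 2^{3L/2}) ≤ C' A^{-2}` as `2^{3L/2} ≤ 8 a³`, `e a³ ≤ 1`. Levels `l ≥ L`, first bound and Markov:
`N 2^l a 2^{-2l} A^{-4} 2^{l/2}`, the sum is `≤ C N a 2^{-L/2} A^{-4} ≤ C N A^{-2}`. -/
def SpecCHP : Prop := ∀ (C0 : ℝ) (N : ℕ), 0 ≤ C0 → ∃ C' : ℝ, ∀ (K : Type) [Fintype K] (Ω : Type)
  [MeasurableSpace Ω] (P : Measure Ω) [IsProbabilityMeasure P] (X : Ω → Pth K) (a e : ℝ),
  (∀ t, Measurable fun ω => X ω t) → TwoScale P X C0 a e → ∀ A : ℝ, 1 ≤ A →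
  P {ω | ¬ DyB N A (X ω)} ≤ ENNReal.ofReal (C' / A ^ 2)

/-- **TGT** (120 lines; from DYA, CHP). Tightness.
Proof. For every `N` choose `A_N` with `C'_N / A_N² ≤ ε 2^{-N-2}` and `R` with `C1 / R² ≤ ε/2`;
`h N = R + (C N + 1) A_N (N + 1)`: if `DyB N A_N (X ω)` for all `N` and `‖X ω 0‖ ≤ R` then `X ω ∈ HK h`. -/
def SpecTGT : Prop := ∀ (C0 C1 ε : ℝ), 0 ≤ C0 → 0 ≤ C1 → 0 < ε → ∃ h : ℕ → ℝ,
  ∀ (K : Type) [Fintype K] (Ω : Type)
  [MeasurableSpace Ω] (P : Measure Ω) [IsProbabilityMeasure P] (X : Ω → Pth K) (a e : ℝ),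
  (∀ t, Measurable fun ω => X ω t) → TwoScale P X C0 a e →
  (∀ R : ℝ, 0 < R → P {ω | R < ‖X ω 0‖} ≤ ENNReal.ofReal (C1 / R ^ 2)) →
  P {ω | X ω ∉ HK h} ≤ ENNReal.ofReal ε

/-- **MSR** (60 lines; from INP). Measurability.
Proof. `Φ (X ω) = lim_m Φ (I m (X ω (i/m)))`, and `Φ ∘ I m` is continuous. -/
def SpecMSR : Prop := ∀ (K : Type) [Fintype K] (Ω : Type*) [MeasurableSpace Ω] (X : Ω → Pth K)
  (Φ : Pth K → ℝ), (∀ t, Measurable fun ω => X ω t) → Continuous Φ → Measurable fun ω => Φ (X ω)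

/-- **WCV** (200 lines; from ARZ, UNI, INP, TGT, MSR). Weak convergence in `C([0,∞); ℝ^K)`.
Proof. Let `|Φ| ≤ b`, `ε > 0`. TGT: `h` with `P_n (X_n ∉ HK h) ≤ ε` (for all large `n`) and the same for `Y` (enlarge
`h`: `HK h ⊆ HK h'` for `h ≤ h'`). `S = HK h` is compact; UNI gives `N, δ`; INP gives `m` with
`|Φ x - Φ (I m x)| ≤ ε` for `x ∈ S`. So `|E Φ(X_n) - E Φ(I m X_n)| ≤ ε + 2 b ε`, the same for `Y`, and
`E Φ(I m X_n) → E Φ(I m Y)` by the convergence of the finite-dimensional laws. (All functions are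
measurable by MSR; if `{X ∉ HK h}` is not known to be measurable use a measurable superset.) -/
def SpecWCV : Prop := ∀ (K : Type) [Fintype K] (Ω : ℕ → Type) [∀ n, MeasurableSpace (Ω n)]
  (P : ∀ n, Measure (Ω n)) [∀ n, IsProbabilityMeasure (P n)] (X : ∀ n, Ω n → Pth K)
  (Ω' : Type) [MeasurableSpace Ω'] (P' : Measure Ω') [IsProbabilityMeasure P'] (Y : Ω' → Pth K)
  (C0 C1 : ℝ) (a e : ℕ → ℝ) (a' e' : ℝ),
  (∀ n t, Measurable fun ω => X n ω t) → (∀ t, Measurable fun ω => Y ω t) →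
  0 ≤ C0 → 0 ≤ C1 → (∀ᶠ n in atTop, TwoScale (P n) (X n) C0 (a n) (e n)) →
  TwoScale P' Y C0 a' e' →
  (∀ᶠ n in atTop, ∀ R : ℝ, 0 < R → P n {ω | R < ‖X n ω 0‖} ≤ ENNReal.ofReal (C1 / R ^ 2)) →
  (∀ R : ℝ, 0 < R → P' {ω | R < ‖Y ω 0‖} ≤ ENNReal.ofReal (C1 / R ^ 2)) →
  (∀ (m : ℕ) (t : Fin m → ℝ≥0) (f : (Fin m → K → ℝ) →ᵇ ℝ),
    Tendsto (fun n => ∫ ω, f (fun i => X n ω (t i)) ∂(P n)) atTop
      (𝓝 (∫ ω, f (fun i => Y ω (t i)) ∂P'))) →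
  ∀ Φ : Pth K →ᵇ ℝ, Tendsto (fun n => ∫ ω, Φ (X n ω) ∂(P n)) atTop (𝓝 (∫ ω, Φ (Y ω) ∂P'))

/-- **LCF** (100 lines). Lévy's continuity theorem in `Fin m → K → ℝ`
(`MeasureTheory/Measure/LevyConvergence.lean`, in `EuclideanSpace ℝ (Fin m × K)`). -/
def SpecLCF : Prop := ∀ (K : Type) [Fintype K] (m : ℕ) (Ω : ℕ → Type) [∀ n, MeasurableSpace (Ω n)]
  (P : ∀ n, Measure (Ω n)) [∀ n, IsProbabilityMeasure (P n)] (Z : ∀ n, Ω n → Fin m → K → ℝ)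
  (Ω' : Type) [MeasurableSpace Ω'] (P' : Measure Ω') [IsProbabilityMeasure P']
  (W : Ω' → Fin m → K → ℝ), (∀ n, Measurable (Z n)) → Measurable W →
  (∀ lam : Fin m → K → ℝ, Tendsto (fun n =>
    ∫ ω, Complex.exp (Complex.I * (∑ i, ∑ k, lam i k * Z n ω i k : ℝ)) ∂(P n)) atTop
      (𝓝 (∫ ω, Complex.exp (Complex.I * (∑ i, ∑ k, lam i k * W ω i k : ℝ)) ∂P'))) →
  ∀ f : (Fin m → K → ℝ) →ᵇ ℝ, Tendsto (fun n => ∫ ω, f (Z n ω) ∂(P n)) atTop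
    (𝓝 (∫ ω, f (W ω) ∂P'))

/-- The limit process: independent components, each a centered Gaussian process with
covariance `2 exp (-2 |t - s|)`. -/
structure IsOU {K : Type} [Fintype K] {Ω' : Type} [MeasurableSpace Ω'] (P' : Measure Ω')
    (Y : Ω' → Pth K) : Prop where
  meas : ∀ t, Measurable fun ω => Y ω t
  indep : iIndepFun (fun (k : K) (ω : Ω') (t : ℝ≥0) => Y ω t k) P'
  gauss : ∀ k, IsGaussianProcess (fun (t : ℝ≥0) (ω : Ω') => Y ω t k) P'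
  mean : ∀ k t, ∫ ω, Y ω t k ∂P' = 0
  cov : ∀ k s t, ∫ ω, Y ω s k * Y ω t k ∂P' = 2 * Real.exp (-2 * |(t : ℝ) - s|)

/-- **OUC** (120 lines). Characteristic functions of the limit process. Proof. Independence of the
components gives the product over `k` (`iIndepFun` composed with the finite-dimensional functionals);
for one component the linear combination is a centered Gaussian variable. -/
def SpecOUC : Prop := ∀ (K : Type) [Fintype K] (Ω' : Type) [MeasurableSpace Ω'] (P' : Measure Ω')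
  [IsProbabilityMeasure P'] (Y : Ω' → Pth K), IsOU P' Y → ∀ (m : ℕ) (t : Fin m → ℝ≥0)
  (lam : Fin m → K → ℝ),
  ∫ ω, Complex.exp (Complex.I * (∑ i, ∑ k, lam i k * Y ω (t i) k : ℝ)) ∂P' =
    Complex.exp (-(∑ k, ∑ i, ∑ l, lam i k * lam l k *
      Real.exp (-2 * |(t i : ℝ) - t l|) : ℝ))

/-- **OUT** (120 lines). Moment bounds of the limit process.
Proof. `Y_t - Y_s` (component `k`) is Gaussian with variance `4 (1 - e^{-2|t-s|}) ≤ 8 |t-s|`, fourth moment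
`3 · 64 (t-s)²`; sup norm: sum over `k`. Second bound by Markov with `x^{-4}`. `e = 0`. -/
def SpecOUT : Prop := ∀ (K : Type) [Fintype K] (Ω' : Type) [MeasurableSpace Ω'] (P' : Measure Ω')
  [IsProbabilityMeasure P'] (Y : Ω' → Pth K), IsOU P' Y →
  TwoScale P' Y (192 * Fintype.card K + 1) (192 * Fintype.card K + 1) 0 ∧
  ∀ R : ℝ, 0 < R → P' {ω | R < ‖Y ω 0‖} ≤ ENNReal.ofReal (2 * Fintype.card K / R ^ 2)

end Pool.Agent.Lib.MP17fa2c
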