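import Pool.Agent.Lib.MP_17fa2c_pr.TD.SpecE
import Pool.Agent.Lib.MP_17fa2c_pr.TD.SpecW

/-!
# MP_17fa2c_pr, block F: characteristic functions, tails of increments, the process theorem

Every module: file `TD/XXX.lean`, `import Pool.Agent.Lib.MP_17fa2c_pr.TD.SpecF`,
`theorem specXXX (hYYY : SpecYYY) .. : SpecXXX`, own lemmas in the namespace `XXXM`.
Notation of the docstrings: see `SpecE`.
-/

set_option autoImplicit false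

open MeasureTheory ProbabilityTheory Filter Topology
open scoped RealInnerProductSpace NNReal ENNReal BoundedContinuousFunction

namespace Pool.Agent.Lib.MP17fa2c

/-- normalized square of `b_k`: `(b_k² - N_k) / √N_k` -/
noncomputable def bn (ι : Type) [Fintype ι] {E : Type} [NormedAddCommGroup E]
    [InnerProductSpace ℝ E] (A : E →L[ℝ] E) (u : E) (k : ℕ) : ℝ :=
  (bv A u k ^ 2 - nk ι E k) / Real.sqrt (nk ι E k)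

/-- **CF1** (200 lines; from IND, GLF, QUA, JON). The characteristic function for a fixed projection.
Proof. `r_p = cp Q r_p`, so `⟪r_p, G r_p⟫` is a function of `cp Q G cp Q` and `Q G r_p` of `Q G cp Q`: independent (IND), the
integral is a product. First factor: GLF (`x = y = r`) gives `exp (-v)`, `v = ∑ λ λ' c ∑_a ⟪r, J a r'⟫²` (half the variance).
Second factor: QUA with `m_p = μ_p/√N`, `κ = L/√N`. -/
def SpecCF1 : Prop := ∀ (ι : Type) [Fintype ι] [DecidableEq ι] (T : Type) [Fintype T],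
  ∃ C : ℝ, 0 < C ∧ ∀ (E : Type) [NormedAddCommGroup E]
  [InnerProductSpace ℝ E] [FiniteDimensional ℝ E] (S : BStr ι E)
  (c : T → T → ℝ) (ν : Measure (T → E →L[ℝ] E)), GFam S c ν → Cor c →
  ∀ (Q : E →L[ℝ] E) (r : T → E) (lam mu : T → ℝ) (L N v V : ℝ), IsPr S Q → (∀ p, Q (r p) = 0) →
  (∀ p, ‖r p‖ ≤ 1) → 0 < N → 0 ≤ L → (∀ p, |mu p| ≤ L) →
  v = ∑ p, ∑ q, lam p * lam q * c p q * ∑ a, ⟪r p, S.J a (r q)⟫ ^ 2 →
  V = tr Q / N * ∑ p, ∑ q, mu p * mu q * c p q ^ 2 * ∑ a, ⟪r p, S.J a (r q)⟫ ^ 2 →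
  0 ≤ v ∧ 0 ≤ V ∧
  ‖∫ G, Complex.exp (Complex.I * (∑ p, (lam p * ⟪r p, G p (r p)⟫ +
      mu p * ((‖Q (G p (r p))‖ ^ 2 - tr Q * ‖r p‖ ^ 2) / Real.sqrt N)) : ℝ)) ∂ν -
    Complex.exp (-((v + V : ℝ) : ℂ))‖ ≤ C * (L / Real.sqrt N) * V

/-- **CHF** (250 lines; from CF1, RSA, RSB, OVU, RPI, STP, STK, PIN, MEB). One depth.
Proof. `Λ` the exponent, `Λ' = ∑ (λ_p ⟪r_p, M r_p⟫ + μ_p N^{-1/2} (‖Q M r_p‖² - tr Q ‖r_p‖²))`, `N = N_k ≥ D/2`. By RSA, RSB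
`E |Λ - Λ'| ≤ t L (√(C (k+1)/√D) + √(2 C (k+1)/√D))`. By RPI (complex) at level `k` and STK `E [X e^{iΛ'}] = E [X Φ]`,
`Φ(M) = ∫ e^{iΛ'(M')} dG`, computed by CF1 with `r = r_k(M)`, `Q = Q_k(M)`: `‖Φ - exp (-(v + V))‖ ≤ C (L/√N) V ≤ C'/√D`. By OVU
(`|∑_a ξ_a² - c^{2k}| ≤ 2 ∑_a |ξ_a - δ_{a o} c^k|` for `|ξ_a| ≤ 1`) and `|tr Q/N - 1| ≤ β (t+1) (k+1)/N`:
`E |v - W_a| + E |V - W_b| ≤ C' (k+1)/√D =: ε₁`; as `v, V ≥ 0`, `W_a, W_b ≥ -ε₁`, so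
`|e^{-(v+V)} - e^{-(W_a+W_b)}| ≤ e^{2 ε₁} (|v - W_a| + |V - W_b|)`. -/
def SpecCHF : Prop := ∀ (ι : Type) [Fintype ι] [DecidableEq ι] (T : Type) [Fintype T] (L ε : ℝ),
  0 < L → 0 < ε → ∃ δ : ℝ, 0 < δ ∧ ∀ (E : Type) [NormedAddCommGroup E]
  [InnerProductSpace ℝ E] [FiniteDimensional ℝ E] (S : BStr ι E) (u : E)
  (c : T → T → ℝ) (ν : Measure (T → E →L[ℝ] E)), GFam S c ν → Cor c → ‖u‖ = 1 →
  ∀ (lam mu : T → ℝ) (k : ℕ) (X : (T → E →L[ℝ] E) → ℂ), (∀ p, |lam p| ≤ L) → (∀ p, |mu p| ≤ L) →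
  ((k : ℝ) + 1) ≤ δ * Real.sqrt (dm E) → Measurable X → (∀ M, ‖X M‖ ≤ 1) → Kn S u k X →
  ‖∫ M, X M * Complex.exp (Complex.I * (∑ p, (lam p * av (M p) u k +
      mu p * bn ι (M p) u k) : ℝ)) ∂ν -
    Complex.exp (-((∑ p, ∑ q, (lam p * lam q * c p q ^ (2 * k + 1) +
      mu p * mu q * c p q ^ (2 * k + 2)) : ℝ) : ℂ)) * ∫ M, X M ∂ν‖ ≤ ε

/-- **MUL** (200 lines; from CHF, STK, KNM, MEA). Several depths.
Proof. Let `d` be the largest depth. CHF with `λ, μ` cut to `{kk p = d}` and `X` = exponential of the terms with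
`kk p < d`, known at level `d` (`kk p + 1 ≤ d`, STK, KNM). Induction on the number of depths (`≤ t`); CHF with `X = 1` gives
`|e^{-W_d}| ≤ 1 + ε' ≤ 2`, so the total error is `≤ t 2^t ε'`. The exponent on the right splits into the `W_d`. -/
def SpecMUL : Prop := ∀ (ι : Type) [Fintype ι] [DecidableEq ι] (T : Type) [Fintype T] (L ε : ℝ),
  0 < L → 0 < ε → ∃ δ : ℝ, 0 < δ ∧ ∀ (E : Type) [NormedAddCommGroup E]
  [InnerProductSpace ℝ E] [FiniteDimensional ℝ E] (S : BStr ι E) (u : E)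
  (c : T → T → ℝ) (ν : Measure (T → E →L[ℝ] E)), GFam S c ν → Cor c → ‖u‖ = 1 →
  ∀ (lam mu : T → ℝ) (kk : T → ℕ), (∀ p, |lam p| ≤ L) → (∀ p, |mu p| ≤ L) →
  (∀ p, ((kk p : ℝ) + 1) ≤ δ * Real.sqrt (dm E)) →
  ‖∫ M, Complex.exp (Complex.I * (∑ p, (lam p * av (M p) u (kk p) +
      mu p * bn ι (M p) u (kk p)) : ℝ)) ∂ν -
    Complex.exp (-((∑ p, ∑ q, (if kk p = kk q then lam p * lam q * c p q ^ (2 * kk p + 1) +
      mu p * mu q * c p q ^ (2 * kk p + 2) else 0) : ℝ) : ℂ))‖ ≤ ε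

/-- **CSI** (250 lines; from RSA, RSB, OVU, RPI or RPE, GLF, GMO, QUA, STP, STK, PIN, MEB). Tails of the increments at
large scale.
Proof. `T = Fin 2`, `c = e^{-τ}`. `a_k(M_1) - a_k(M_0) = Z + η_1 - η_0`, `E η² ≤ C (k+1)/√D` (RSA; Chebyshev with `x/4`),
`Z = ⟪r_1, M_1 r_1⟫ - ⟪r_0, M_0 r_0⟫`, given level `k` Gaussian with variance `v = 2 ‖r_1‖⁴ + 2 ‖r_0‖⁴ - 4 c ∑_a ⟪r_0, J a r_1⟫² ≤ 8`
(STK, GLF), so `E Z⁴ = 3 E v²` and `E |v - 4 (1 - c^{2k+1})| ≤ C (k+1)/√D` (OVU, also with `i = l`), `1 - c^{2k+1} ≤ 2 (k+1) τ`;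
Markov with `(x/2)⁴`. The same for `bn`: RSB (divide by `N ≥ D/2`), QUA with `m = ± N^{-1/2}`, fourth moment `≤ 60 V²`,
`V = (tr Q/N) (‖r_1‖⁴ + ‖r_0‖⁴ - 2 c² ∑_a ⟪r_0, J a r_1⟫²)`. -/
def SpecCSI : Prop := ∀ (ι : Type) [Fintype ι] [DecidableEq ι],
  ∃ C : ℝ, 0 < C ∧ ∀ (E : Type) [NormedAddCommGroup E]
  [InnerProductSpace ℝ E] [FiniteDimensional ℝ E] (S : BStr ι E) (u : E) (τ : ℝ)
  (μ : Measure (Fin 2 → E →L[ℝ] E)), 0 ≤ τ → GFam S (c2 (Real.exp (-τ))) μ → ‖u‖ = 1 →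
  ∀ (k : ℕ) (x : ℝ), C * (k + 1) ^ 2 ≤ dm E → 0 < x →
  μ {M | x < |av (M 1) u k - av (M 0) u k|} ≤
    ENNReal.ofReal (C * (((k + 1) * τ) ^ 2 + (k + 1) / Real.sqrt (dm E)) *
      ((x ^ 2)⁻¹ + (x ^ 4)⁻¹)) ∧
  μ {M | x < |bn ι (M 1) u k - bn ι (M 0) u k|} ≤
    ENNReal.ofReal (C * (((k + 1) * τ) ^ 2 + (k + 1) / Real.sqrt (dm E)) *
      ((x ^ 2)⁻¹ + (x ^ 4)⁻¹))

/-! ## Processes -/

/-- stationary Gaussian process of self-adjoint operators with correlation `e^{-|t-s|}` -/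
structure OPr {ι : Type} [Fintype ι] [DecidableEq ι] {E : Type} [NormedAddCommGroup E]
    [InnerProductSpace ℝ E] [FiniteDimensional ℝ E] (S : BStr ι E)
    {Ω : Type} [MeasurableSpace Ω] (P : Measure Ω) (Z : Ω → ℝ≥0 → E →L[ℝ] E) : Prop where
  meas : ∀ t, Measurable fun ω => Z ω t
  fam : ∀ (T : Type) [Fintype T] (t : T → ℝ≥0),
    GFam S (fun p q => Real.exp (-|(t p : ℝ) - t q|)) (P.map fun ω p => Z ω (t p))

/-- the rescaled tridiagonal entries at time `t`, depths `kk i` (indices from `0`) -/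
noncomputable def ent (ι : Type) [Fintype ι] {E : Type} [NormedAddCommGroup E]
    [InnerProductSpace ℝ E] (u : E) (Z : ℝ≥0 → E →L[ℝ] E) {j : ℕ} (kk : Fin j → ℕ) (t : ℝ≥0) :
    Fin j ⊕ Fin j → ℝ
  | Sum.inl i => av (Z (t / ((kk i : ℝ≥0) + 1))) u (kk i)
  | Sum.inr i => bn ι (Z (t / ((kk i : ℝ≥0) + 1))) u (kk i)

/-- **FDD** (200 lines; from MUL, LCF, OUC, MEA). Convergence of the finite-dimensional laws.
Proof. LCF; the characteristic function is MUL with `T = Fin j × Fin m`, `kk (i, l) = kk i`, times `t_l / (kk i + 1)`; for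
`i = i'`, `c = exp (-|t_l - t_l'| / (kk i + 1))`, `c^{2 kk + 1} → exp (-2 |t_l - t_l'|)`, `c^{2 kk + 2} = exp (-2 |t_l - t_l'|)`;
`kk i ≠ kk i'` for `i ≠ i'`. Limit: OUC. -/
def SpecFDD : Prop := ∀ (ι : Type) [Fintype ι] [DecidableEq ι] (E : ℕ → Type)
  [∀ n, NormedAddCommGroup (E n)] [∀ n, InnerProductSpace ℝ (E n)]
  [∀ n, FiniteDimensional ℝ (E n)] (S : ∀ n, BStr ι (E n)) (u : ∀ n, E n)
  (Ω : ℕ → Type) [∀ n, MeasurableSpace (Ω n)]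
  (P : ∀ n, Measure (Ω n)) [∀ n, IsProbabilityMeasure (P n)] (Z : ∀ n, Ω n → ℝ≥0 → E n →L[ℝ] E n)
  (j : ℕ) (kk : ℕ → Fin j → ℕ) (X : ∀ n, Ω n → Pth (Fin j ⊕ Fin j))
  (Ω' : Type) [MeasurableSpace Ω'] (P' : Measure Ω') [IsProbabilityMeasure P']
  (Y : Ω' → Pth (Fin j ⊕ Fin j)),
  (∀ n, ‖u n‖ = 1) → (∀ n, OPr (S n) (P n) (Z n)) →
  (∀ i, Tendsto (fun n => kk n i) atTop atTop) → (∀ᶠ n in atTop, Function.Injective (kk n)) →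
  (∀ i, Tendsto (fun n => ((kk n i : ℝ) + 1) / Real.sqrt (dm (E n))) atTop (𝓝 0)) →
  (∀ n, 0 < dm (E n)) → (∀ n t, Measurable fun ω => X n ω t) →
  (∀ᶠ n in atTop, ∀ t, ∀ᵐ ω ∂(P n), X n ω t = ent ι (u n) (Z n ω) (kk n) t) → IsOU P' Y →
  ∀ (m : ℕ) (t : Fin m → ℝ≥0) (f : (Fin m → Fin j ⊕ Fin j → ℝ) →ᵇ ℝ),
    Tendsto (fun n => ∫ ω, f (fun i => X n ω (t i)) ∂(P n)) atTop
      (𝓝 (∫ ω, f (fun i => Y ω (t i)) ∂P'))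

/-- **TSX** (200 lines; from TSI, CSI, RHO). Two-scale bound of the increments, and the initial value.
Proof. The law of `(Z (s/(k+1)), Z (t/(k+1)))` is `GFam (c2 (exp (-τ)))`, `τ = |t - s|/(k+1)`. TSI, CSI for each component;
sup norm: sum over the `2 j` components. `a = 1 + C' κ^{1/100} exp (C κ³/D)`, `e = C' κ/√D`; `e a³ ≤ 1` for `D ≥ D₀(j)` if `c₀ = 1/(100 C)`
(`C` does not depend on `j`), because `κ ≤ (c₀ D log D)^{1/3}`; `κ = max (kk i + 1)`. Initial value: Chebyshev with `E a² = 2`, `E bn² = 2` (RHO). -/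
def SpecTSX : Prop := ∀ (ι : Type) [Fintype ι] [DecidableEq ι],
  ∃ c₀ : ℝ, 0 < c₀ ∧ ∀ (j : ℕ), ∃ C₀ C₁ D₀ : ℝ, 0 ≤ C₀ ∧ 0 ≤ C₁ ∧ ∀ (E : Type) [NormedAddCommGroup E]
  [InnerProductSpace ℝ E] [FiniteDimensional ℝ E] (S : BStr ι E) (u : E)
  (Ω : Type) [MeasurableSpace Ω] (P : Measure Ω) [IsProbabilityMeasure P]
  (Z : Ω → ℝ≥0 → E →L[ℝ] E) (kk : Fin j → ℕ) (X : Ω → Pth (Fin j ⊕ Fin j)),
  ‖u‖ = 1 → OPr S P Z → D₀ ≤ dm E →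
  (∀ i, ((kk i : ℝ) + 1) ^ 3 ≤ c₀ * dm E * Real.log (dm E)) →
  (∀ t, Measurable fun ω => X ω t) →
  (∀ t, ∀ᵐ ω ∂P, X ω t = ent ι u (Z ω) kk t) →
  (∃ a e : ℝ, TwoScale P X C₀ a e) ∧
  ∀ R : ℝ, 0 < R → P {ω | R < ‖X ω 0‖} ≤ ENNReal.ofReal (C₁ / R ^ 2)

/-- **CTP** (200 lines; from TSI, DEL or DMO, NEG, DIF). For a continuous process no `b_l` ever vanishes, almost surely.
Proof. Induction on `l`; `g t = b_l(Z t)²` is continuous a.s. (DIF gives continuity at operators with `b_{l'} ≠ 0`, `l' < l`), and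
`g > 0` at all dyadic times a.s. `h = 1/g`: `E |h t - h s|³ ≤ (E |g t - g s|⁴)^{3/4} (E g^{-24})^{1/4} ≤ C_n |t - s|^{3/2}` (TSI; NEG, `N ≥ 96`).
With `δ_L` = largest increment of `h` over the dyadic intervals of level `L` in `[0, N]`: `E δ_L ≤ (N 2^L C_n 2^{-3L/2})^{1/3}`, so
`∑ δ_L < ∞` a.s. and `h` is bounded on the dyadic points of `[0, N]`; hence `g ≥ c > 0` on `[0, N]`. -/
def SpecCTP : Prop := ∀ (ι : Type) [Fintype ι] [DecidableEq ι],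
  ∃ C : ℝ, 0 < C ∧ ∀ (E : Type) [NormedAddCommGroup E]
  [InnerProductSpace ℝ E] [FiniteDimensional ℝ E] (S : BStr ι E) (u : E)
  (Ω : Type) [MeasurableSpace Ω] (P : Measure Ω) [IsProbabilityMeasure P]
  (Z : Ω → ℝ≥0 → E →L[ℝ] E), ‖u‖ = 1 → OPr S P Z → (∀ ω, Continuous (Z ω)) →
  ∀ k : ℕ, C * (k + 1) ≤ dm E →
  ∀ᵐ ω ∂P, ∀ t : ℝ≥0, ∀ l ≤ k, bv (Z ω t) u l ≠ 0

/-- **PRO** (120 lines; from FDD, TSX, OUT, WCV). The process theorem, abstract form. -/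
def SpecPRO : Prop := ∀ (ι : Type) [Fintype ι] [DecidableEq ι], ∃ c₀ : ℝ, 0 < c₀ ∧
  ∀ (E : ℕ → Type)
  [∀ n, NormedAddCommGroup (E n)] [∀ n, InnerProductSpace ℝ (E n)]
  [∀ n, FiniteDimensional ℝ (E n)] (S : ∀ n, BStr ι (E n)) (u : ∀ n, E n)
  (Ω : ℕ → Type) [∀ n, MeasurableSpace (Ω n)]
  (P : ∀ n, Measure (Ω n)) [∀ n, IsProbabilityMeasure (P n)] (Z : ∀ n, Ω n → ℝ≥0 → E n →L[ℝ] E n)
  (j : ℕ) (kk : ℕ → Fin j → ℕ) (X : ∀ n, Ω n → Pth (Fin j ⊕ Fin j))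
  (Ω' : Type) [MeasurableSpace Ω'] (P' : Measure Ω') [IsProbabilityMeasure P']
  (Y : Ω' → Pth (Fin j ⊕ Fin j)),
  (∀ n, ‖u n‖ = 1) → (∀ n, OPr (S n) (P n) (Z n)) → Tendsto (fun n => dm (E n)) atTop atTop →
  (∀ i, Tendsto (fun n => kk n i) atTop atTop) → (∀ᶠ n in atTop, Function.Injective (kk n)) →
  (∀ᶠ n in atTop, ∀ i, ((kk n i : ℝ) + 1) ^ 3 ≤ c₀ * dm (E n) * Real.log (dm (E n))) →
  (∀ n, 0 < dm (E n)) → (∀ n t, Measurable fun ω => X n ω t) →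
  (∀ᶠ n in atTop, ∀ t, ∀ᵐ ω ∂(P n), X n ω t = ent ι (u n) (Z n ω) (kk n) t) → IsOU P' Y →
  ∀ Φ : Pth (Fin j ⊕ Fin j) →ᵇ ℝ,
    Tendsto (fun n => ∫ ω, Φ (X n ω) ∂(P n)) atTop (𝓝 (∫ ω, Φ (Y ω) ∂P'))

end Pool.Agent.Lib.MP17fa2c
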