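import Pool.Agent.Lib.MP_17fa2c_pr.TD.SpecM
import Pool.Agent.Lib.MP_17fa2c_pr.TD.SpecF
import Pool.Agent.Lib.MP_17fa2c_pr.TD.SU3

section
/-!
# MP_17fa2c_pr, module DEL: the Dumitriu–Edelman law
-/
set_option autoImplicit false

open MeasureTheory ProbabilityTheory Filter Topology
open scoped RealInnerProductSpace NNReal ENNReal

namespace Pool.Agent.Lib.MP17fa2c

namespace DELM

instance chi_prob (N : ℕ) : IsProbabilityMeasure (chi N) := by
  unfold chi
  exact Measure.isProbabilityMeasure_map (by fun_prop)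

theorem chi_zero {N : ℕ} (hN : 0 < N) : chi N {0} = 0 := by
  unfold chi
  rw [Measure.map_apply (by fun_prop) (measurableSet_singleton 0), ← map_pi_eq_stdGaussian,
    Measure.map_apply (by fun_prop) ((measurableSet_singleton 0).preimage (by fun_prop))]
  refine measure_mono_null (t := (fun y : Fin N → ℝ => y ⟨0, hN⟩) ⁻¹' {0}) ?_ ?_
  · intro y hy
    have h1 : ‖(WithLp.toLp 2 y : EuclideanSpace ℝ (Fin N))‖ = 0 := hy
    rw [norm_eq_zero] at h1
    have h2 : y = 0 := by simpa using h1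
    rw [Set.mem_preimage, h2]
    rfl
  · rw [(measurePreserving_eval (fun _ : Fin N => gaussianReal 0 1) ⟨0, hN⟩).measure_preimage
      (measurableSet_singleton 0).nullMeasurableSet]
    have := nullSingletonClass_gaussianReal (μ := 0) (v := 1) one_ne_zero
    exact measure_singleton 0

end DELM

open DELM in
theorem specDEL (hDL1 : SpecDL1) (hMEA : SpecMEA) : SpecDEL := by
  intro ι _ _ E _ _ _ S u ν hν hu K
  have hG := hν.gauss
  have hprob : IsProbabilityMeasure ν := inferInstance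
  let _ : MeasurableSpace E := borel E
  have : BorelSpace E := ⟨rfl⟩
  have hpair : ∀ j, Measurable fun M : Unit → E →L[ℝ] E => (av (M ()) u j, bv (M ()) u j) :=
    fun j => ((hMEA ι E Unit S u j).2.2.1 ()).prodMk ((hMEA ι E Unit S u j).2.2.2.1 ())
  have hpast : ∀ K, Measurable fun (M : Unit → E →L[ℝ] E) (j : Fin K) =>
      (av (M ()) u j, bv (M ()) u j) := fun K => measurable_pi_iff.2 fun j => hpair j
  induction K with
  | zero =>
    intro _
    refine ⟨by simp, ?_⟩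
    symm
    refine Measure.pi_eq fun s hs => ?_
    rw [Measure.map_apply (hpast 0) (MeasurableSet.univ_pi hs)]
    have : (fun (M : Unit → E →L[ℝ] E) (j : Fin 0) => (av (M ()) u j, bv (M ()) u j)) ⁻¹'
        (Set.univ.pi s) = Set.univ := by
      ext M
      simp
    rw [this, measure_univ]
    simp
  | succ K ih =>
    intro hK
    have hK' : Fintype.card ι * K < Module.finrank ℝ E :=
      lt_of_le_of_lt (Nat.mul_le_mul_left _ (Nat.le_succ K)) hK
    obtain ⟨h1, h2⟩ := ih hK'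
    have hD := hDL1 ι E S u ν hν hu K hK.le h1
    set N : ℕ := Module.finrank ℝ E - Fintype.card ι * (K + 1) with hN
    have hN0 : 0 < N := by omega
    -- `b_K ≠ 0`
    have hb : ∀ᵐ M ∂ν, bv (M ()) u K ≠ 0 := by
      have hms : MeasurableSet ((Set.univ : Set ℝ) ×ˢ ({0} : Set ℝ)) :=
        MeasurableSet.univ.prod (measurableSet_singleton 0)
      have h3 := hD (fun w => ((Set.univ : Set ℝ) ×ˢ ({0} : Set ℝ)).indicator 1 w.2)
        ((measurable_one.indicator hms).comp measurable_snd)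
      dsimp only at h3
      rw [lintegral_const] at h3
      have h4 : ∫⁻ z, ((Set.univ : Set ℝ) ×ˢ ({0} : Set ℝ)).indicator 1 z
          ∂((gaussianReal 0 2).prod (chi N)) = 0 := by
        rw [lintegral_indicator_one hms, Measure.prod_prod, chi_zero hN0, mul_zero]
      rw [h4, zero_mul] at h3
      have h5 : MeasurableSet {M : Unit → E →L[ℝ] E | bv (M ()) u K = 0} :=
        (measurable_snd.comp (hpair K)) (measurableSet_singleton 0)
      have h6 : (fun M : Unit → E →L[ℝ] E => ((Set.univ : Set ℝ) ×ˢ ({0} : Set ℝ)).indicator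
          (1 : ℝ × ℝ → ℝ≥0∞) (av (M ()) u K, bv (M ()) u K)) =
          {M : Unit → E →L[ℝ] E | bv (M ()) u K = 0}.indicator 1 := by
        funext M
        by_cases h : bv (M ()) u K = 0
        · rw [Set.indicator_of_mem (show (av (M ()) u K, bv (M ()) u K) ∈
            ((Set.univ : Set ℝ) ×ˢ ({0} : Set ℝ)) from ⟨Set.mem_univ _, h⟩),
            Set.indicator_of_mem (show M ∈ {M : Unit → E →L[ℝ] E | bv (M ()) u K = 0} from h)]
          rfl
        · rw [Set.indicator_of_notMem (fun h' => h h'.2), Set.indicator_of_notMem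
            (show M ∉ {M : Unit → E →L[ℝ] E | bv (M ()) u K = 0} from h)]
      rw [h6, lintegral_indicator_one h5] at h3
      rw [ae_iff]
      simpa using h3
    refine ⟨?_, ?_⟩
    · filter_upwards [h1, hb] with M h3 h4 l hl
      rcases Nat.lt_succ_iff_lt_or_eq.1 hl with h | h
      · exact h3 l h
      · rw [h]
        exact h4
    · symm
      refine Measure.pi_eq fun s hs => ?_
      rw [Measure.map_apply (hpast (K + 1)) (MeasurableSet.univ_pi hs)]
      set P : Set (Fin K → ℝ × ℝ) := Set.univ.pi (fun j : Fin K => s j.castSucc) with hP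
      have hPm : MeasurableSet P := MeasurableSet.univ_pi fun j => hs j.castSucc
      have hlm : MeasurableSet (s (Fin.last K)) := hs _
      have h4 := hD (fun w => P.indicator 1 w.1 * (s (Fin.last K)).indicator 1 w.2)
        (((measurable_one.indicator hPm).comp measurable_fst).mul
          ((measurable_one.indicator hlm).comp measurable_snd))
      dsimp only at h4
      have e1 : (fun M : Unit → E →L[ℝ] E => P.indicator (1 : (Fin K → ℝ × ℝ) → ℝ≥0∞)
          (fun j => (av (M ()) u j, bv (M ()) u j)) *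
          (s (Fin.last K)).indicator (1 : ℝ × ℝ → ℝ≥0∞) (av (M ()) u K, bv (M ()) u K)) =
          ((fun (M : Unit → E →L[ℝ] E) (j : Fin (K + 1)) =>
            (av (M ()) u j, bv (M ()) u j)) ⁻¹' (Set.univ.pi s)).indicator 1 := by
        funext M
        have hiff : M ∈ (fun (M : Unit → E →L[ℝ] E) (j : Fin (K + 1)) =>
            (av (M ()) u j, bv (M ()) u j)) ⁻¹' (Set.univ.pi s) ↔
            (fun j : Fin K => (av (M ()) u j, bv (M ()) u j)) ∈ P ∧
            (av (M ()) u K, bv (M ()) u K) ∈ s (Fin.last K) := by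
          rw [Set.mem_preimage, hP, Set.mem_univ_pi, Set.mem_univ_pi, Fin.forall_fin_succ']
          exact Iff.rfl
        by_cases ha : (fun j : Fin K => (av (M ()) u j, bv (M ()) u j)) ∈ P
        · by_cases hc : (av (M ()) u K, bv (M ()) u K) ∈ s (Fin.last K)
          · rw [Set.indicator_of_mem ha, Set.indicator_of_mem hc,
              Set.indicator_of_mem (hiff.2 ⟨ha, hc⟩)]
            simp
          · rw [Set.indicator_of_notMem hc, Set.indicator_of_notMem (fun h => hc (hiff.1 h).2),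
              mul_zero]
        · rw [Set.indicator_of_notMem ha, Set.indicator_of_notMem (fun h => ha (hiff.1 h).1),
            zero_mul]
      rw [e1, lintegral_indicator_one (hpast (K + 1) (MeasurableSet.univ_pi hs))] at h4
      rw [h4]
      have e2 : ∀ M : Unit → E →L[ℝ] E, ∫⁻ z, P.indicator (1 : (Fin K → ℝ × ℝ) → ℝ≥0∞)
          (fun j => (av (M ()) u j, bv (M ()) u j)) *
          (s (Fin.last K)).indicator (1 : ℝ × ℝ → ℝ≥0∞) z ∂((gaussianReal 0 2).prod (chi N)) =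
          P.indicator (1 : (Fin K → ℝ × ℝ) → ℝ≥0∞) (fun j => (av (M ()) u j, bv (M ()) u j)) *
          ((gaussianReal 0 2).prod (chi N)) (s (Fin.last K)) := by
        intro M
        rw [lintegral_const_mul _ (measurable_one.indicator hlm), lintegral_indicator_one hlm]
      simp_rw [e2]
      have hmP : Measurable fun M : Unit → E →L[ℝ] E => P.indicator
          (1 : (Fin K → ℝ × ℝ) → ℝ≥0∞) (fun j => (av (M ()) u j, bv (M ()) u j)) :=
        (measurable_one.indicator hPm).comp (hpast K)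
      rw [lintegral_mul_const _ hmP]
      have e3 : ∫⁻ M : Unit → E →L[ℝ] E, P.indicator (1 : (Fin K → ℝ × ℝ) → ℝ≥0∞)
          (fun j => (av (M ()) u j, bv (M ()) u j)) ∂ν =
          ∏ j : Fin K, ((gaussianReal 0 2).prod (chi (Module.finrank ℝ E -
            Fintype.card ι * (j + 1)))) (s j.castSucc) := by
        rw [← lintegral_map (f := P.indicator (1 : (Fin K → ℝ × ℝ) → ℝ≥0∞))
          (measurable_one.indicator hPm) (hpast K), h2, lintegral_indicator_one hPm, hP, deLaw,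
          Measure.pi_pi]
      rw [e3, Fin.prod_univ_castSucc]
      rfl

end Pool.Agent.Lib.MP17fa2c
end

section
/-!
# Module CTP: for a continuous process no `b_l` ever vanishes
-/
set_option autoImplicit false

open MeasureTheory ProbabilityTheory Filter Topology
open scoped RealInnerProductSpace NNReal ENNReal BoundedContinuousFunction

namespace Pool.Agent.Lib.MP17fa2c

namespace CTPM

/-- the ratio -/
noncomputable def ρ : ℝ := 19 / 20

theorem tel (h : ℝ≥0 → ℝ) {N : ℕ} {A : ℝ} (hA : 0 ≤ A)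
    (hD : ∀ l i : ℕ, i < N * 2 ^ l →
      |h (((i : ℝ≥0) + 1) / 2 ^ l) - h ((i : ℝ≥0) / 2 ^ l)| ≤ A * ρ ^ l)
    {t : ℝ≥0} (ht : t ≤ N) (m : ℕ) :
    |h (DYAM.pt m t) - h (DYAM.pt 0 t)| ≤ 19 * A * (1 - ρ ^ m) := by
  have hρ : ρ = 19 / 20 := rfl
  induction m with
  | zero => simp
  | succ m ih =>
    have h1 : |h (DYAM.pt (m + 1) t) - h (DYAM.pt m t)| ≤ A * ρ ^ (m + 1) := by
      rcases DYAM.fl_succ m t with h2 | h2
      · have e : DYAM.pt (m + 1) t = DYAM.pt m t := by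
          unfold DYAM.pt
          rw [h2, DYAM.half]
        rw [e, sub_self, abs_zero]
        rw [hρ]
        positivity
      · have hlt : 2 * DYAM.fl m t < N * 2 ^ (m + 1) := by
          have := DYAM.fl_le (l := m + 1) ht
          omega
        have h3 := hD (m + 1) (2 * DYAM.fl m t) hlt
        have e1 : (((2 * DYAM.fl m t : ℕ) : ℝ≥0) + 1) / 2 ^ (m + 1) = DYAM.pt (m + 1) t := by
          unfold DYAM.pt
          rw [h2]
          push_cast
          rfl
        rw [e1, DYAM.half] at h3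
        exact h3
    have h4 : |h (DYAM.pt (m + 1) t) - h (DYAM.pt 0 t)| ≤
        |h (DYAM.pt (m + 1) t) - h (DYAM.pt m t)| + |h (DYAM.pt m t) - h (DYAM.pt 0 t)| := by
      have : h (DYAM.pt (m + 1) t) - h (DYAM.pt 0 t) =
          (h (DYAM.pt (m + 1) t) - h (DYAM.pt m t)) + (h (DYAM.pt m t) - h (DYAM.pt 0 t)) := by
        ring
      rw [this]
      exact abs_add_le _ _
    have h5 : A * ρ ^ (m + 1) + 19 * A * (1 - ρ ^ m) = 19 * A * (1 - ρ ^ (m + 1)) := by
      rw [pow_succ, hρ]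
      ring
    rw [← h5]
    exact h4.trans (add_le_add h1 ih)

/-- a continuous function which is positive at the dyadic points, with dyadic increments of the
inverse under control, is positive -/
theorem pos_of_dyadic (g : ℝ≥0 → ℝ) (hg : Continuous g) {N : ℕ} {A : ℝ} (hA : 0 ≤ A)
    (hpos : ∀ l i : ℕ, 0 < g ((i : ℝ≥0) / 2 ^ l))
    (hD : ∀ l i : ℕ, i < N * 2 ^ l →
      |(g (((i : ℝ≥0) + 1) / 2 ^ l))⁻¹ - (g ((i : ℝ≥0) / 2 ^ l))⁻¹| ≤ A * ρ ^ l)
    {t : ℝ≥0} (ht : t ≤ N) : 0 < g t := by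
  have hρ : ρ = 19 / 20 := rfl
  have h0 : 0 < (g (DYAM.pt 0 t))⁻¹ := inv_pos.mpr (hpos 0 _)
  set H : ℝ := (g (DYAM.pt 0 t))⁻¹ + 19 * A with hH
  have hHpos : 0 < H := by positivity
  have h1 : ∀ m, 1 / H ≤ g (DYAM.pt m t) := by
    intro m
    have h2 := tel (fun t => (g t)⁻¹) hA hD ht m
    have h3 : 0 < g (DYAM.pt m t) := hpos m _
    have h4 : (g (DYAM.pt m t))⁻¹ ≤ H := by
      have h5 := (abs_le.mp h2).2
      have h6 : 0 ≤ 19 * A * ρ ^ m := by
        rw [hρ]
        positivity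
      have h7 : 19 * A * (1 - ρ ^ m) = 19 * A - 19 * A * ρ ^ m := by ring
      linarith
    rw [one_div]
    exact (inv_le_comm₀ h3 hHpos).mp h4
  have h2 : Tendsto (fun m => g (DYAM.pt m t)) atTop (𝓝 (g t)) :=
    (hg.tendsto t).comp (DYAM.tendsto_pt t)
  exact lt_of_lt_of_le (by positivity) (ge_of_tendsto' h2 h1)

/-- the pointwise inequality -/
theorem point {x y lam : ℝ} (hx : 0 < x) (hy : 0 < y) (hl : 0 < lam) :
    |x⁻¹ - y⁻¹| ^ 3 ≤ lam * (x - y) ^ 4 + (lam ^ 3)⁻¹ * ((x⁻¹) ^ 24 + (y⁻¹) ^ 24) := by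
  have h1 : |x⁻¹ - y⁻¹| = |x - y| * (x⁻¹ * y⁻¹) := by
    have : x⁻¹ - y⁻¹ = (y - x) * (x⁻¹ * y⁻¹) := by
      field_simp
    rw [this, abs_mul, abs_sub_comm, abs_of_pos (by positivity : 0 < x⁻¹ * y⁻¹)]
  have h2 : (x - y) ^ 4 = |x - y| ^ 4 := by
    rw [← abs_pow, abs_of_nonneg (by positivity : 0 ≤ (x - y) ^ 4)]
  rw [h1, h2]
  set a := |x - y| with ha
  have ha0 : 0 ≤ a := abs_nonneg _
  set b : ℝ := (x⁻¹ * y⁻¹) ^ 3 with hb
  have hb0 : 0 < b := by positivity
  have h3 : a ^ 3 * b ≤ lam * a ^ 4 + (lam ^ 3)⁻¹ * b ^ 4 := by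
    set z := b / lam with hz
    have hz0 : 0 < z := by positivity
    have hbz : b = lam * z := by rw [hz]; field_simp
    have e : (lam ^ 3)⁻¹ * b ^ 4 = lam * z ^ 4 := by
      rw [hbz]
      field_simp
    rw [e, hbz]
    have h4 : a ^ 3 * z ≤ a ^ 4 + z ^ 4 := by
      rcases le_total z a with h | h
      · have : a ^ 3 * z ≤ a ^ 3 * a := mul_le_mul_of_nonneg_left h (by positivity)
        have h5 : a ^ 3 * a = a ^ 4 := by ring
        have h6 : 0 ≤ z ^ 4 := by positivity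
        linarith
      · have h5 : a ^ 3 * z ≤ z ^ 3 * z :=
          mul_le_mul_of_nonneg_right (pow_le_pow_left₀ ha0 h 3) hz0.le
        have h6 : z ^ 3 * z = z ^ 4 := by ring
        have h7 : 0 ≤ a ^ 4 := by positivity
        linarith
    nlinarith [h4, hl]
  have h5 : b ^ 4 ≤ (x⁻¹) ^ 24 + (y⁻¹) ^ 24 := by
    have e : b ^ 4 = (x⁻¹) ^ 12 * (y⁻¹) ^ 12 := by
      rw [hb]
      ring
    rw [e]
    have h6 := sq_nonneg ((x⁻¹) ^ 12 - (y⁻¹) ^ 12)
    have h7 : ((x⁻¹) ^ 12 - (y⁻¹) ^ 12) ^ 2 =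
        (x⁻¹) ^ 24 + (y⁻¹) ^ 24 - 2 * ((x⁻¹) ^ 12 * (y⁻¹) ^ 12) := by ring
    have h8 : 0 ≤ (x⁻¹) ^ 12 * (y⁻¹) ^ 12 := by positivity
    linarith
  calc (a * (x⁻¹ * y⁻¹)) ^ 3 = a ^ 3 * b := by rw [hb]; ring
    _ ≤ lam * a ^ 4 + (lam ^ 3)⁻¹ * b ^ 4 := h3
    _ ≤ _ := by
      gcongr

/-- the numerical bound for level `L` -/
theorem level_num {A B : ℝ} (hA : 0 ≤ A) (hB : 0 ≤ B) (N L : ℕ) :
    (N * 2 ^ L : ℕ) * ((5 / 4 : ℝ) ^ L * ((3 / 2) ^ L * (A * ((2 : ℝ) ^ L)⁻¹ ^ 2) +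
      (((3 / 2 : ℝ) ^ L) ^ 3)⁻¹ * (B + B))) ≤ N * (A + 2 * B) * (15 / 16) ^ L := by
  have e1 : ((N * 2 ^ L : ℕ) : ℝ) * ((5 / 4 : ℝ) ^ L * ((3 / 2) ^ L * (A * ((2 : ℝ) ^ L)⁻¹ ^ 2) +
      (((3 / 2 : ℝ) ^ L) ^ 3)⁻¹ * (B + B))) =
      N * (A * (15 / 16) ^ L + 2 * B * (20 / 27) ^ L) := by
    have h2 : (2 : ℝ) ^ L ≠ 0 := by positivity
    have h3 : ((15 : ℝ) / 16) ^ L = 2 ^ L * (5 / 4) ^ L * (3 / 2) ^ L * ((2 : ℝ) ^ L)⁻¹ ^ 2 := by
      rw [← inv_pow, ← pow_mul, mul_comm L 2, pow_mul, ← mul_pow, ← mul_pow, ← mul_pow]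
      norm_num
    have h4 : ((20 : ℝ) / 27) ^ L = 2 ^ L * (5 / 4) ^ L * (((3 / 2 : ℝ) ^ L) ^ 3)⁻¹ := by
      rw [← pow_mul, mul_comm L 3, pow_mul, ← inv_pow, ← mul_pow, ← mul_pow]
      norm_num
    rw [h3, h4]
    push_cast
    ring
  rw [e1]
  have h5 : ((20 : ℝ) / 27) ^ L ≤ (15 / 16) ^ L := pow_le_pow_left₀ (by norm_num) (by norm_num) L
  have h6 : (0 : ℝ) ≤ N := Nat.cast_nonneg N
  have h7 : A * (15 / 16) ^ L + 2 * B * (20 / 27) ^ L ≤ (A + 2 * B) * (15 / 16) ^ L := by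
    nlinarith [mul_le_mul_of_nonneg_left h5 hB]
  calc (N : ℝ) * (A * (15 / 16) ^ L + 2 * B * (20 / 27) ^ L)
      ≤ N * ((A + 2 * B) * (15 / 16) ^ L) := mul_le_mul_of_nonneg_left h7 h6
    _ = _ := by ring

section process

variable {Ω : Type} [MeasurableSpace Ω] (P : Measure Ω)

/-- dyadic increment of the inverse -/
noncomputable def inc (g : Ω → ℝ≥0 → ℝ) (L i : ℕ) (ω : Ω) : ℝ :=
  |(g ω (((i : ℝ≥0) + 1) / 2 ^ L))⁻¹ - (g ω ((i : ℝ≥0) / 2 ^ L))⁻¹|

/-- the sum of all weighted third powers -/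
noncomputable def WW (g : Ω → ℝ≥0 → ℝ) (N : ℕ) (ω : Ω) : ℝ≥0∞ :=
  ∑' L : ℕ, ∑ i ∈ Finset.range (N * 2 ^ L), ENNReal.ofReal ((5 / 4 : ℝ) ^ L * inc g L i ω ^ 3)

variable {P}

theorem meas_inc {g : Ω → ℝ≥0 → ℝ} (hm : ∀ t, Measurable fun ω => g ω t) (L i : ℕ) :
    Measurable fun ω => ENNReal.ofReal ((5 / 4 : ℝ) ^ L * inc g L i ω ^ 3) := by
  apply Measurable.ennreal_ofReal
  apply Measurable.const_mul
  apply Measurable.pow_const
  unfold inc
  exact (((hm _).inv).sub ((hm _).inv)).abs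

theorem one_inc {g : Ω → ℝ≥0 → ℝ} (hm : ∀ t, Measurable fun ω => g ω t) {A B : ℝ}
    (hA : 0 ≤ A) (hB : 0 ≤ B)
    (h4 : ∀ s t : ℝ≥0, ∫⁻ ω, ENNReal.ofReal ((g ω t - g ω s) ^ 4) ∂P ≤
      ENNReal.ofReal (A * ((t : ℝ) - s) ^ 2))
    (h24 : ∀ t : ℝ≥0, ∫⁻ ω, ENNReal.ofReal (((g ω t)⁻¹) ^ 24) ∂P ≤ ENNReal.ofReal B)
    (hpos : ∀ t, ∀ᵐ ω ∂P, 0 < g ω t) (L i : ℕ) :
    ∫⁻ ω, ENNReal.ofReal ((5 / 4 : ℝ) ^ L * inc g L i ω ^ 3) ∂P ≤
      ENNReal.ofReal ((5 / 4 : ℝ) ^ L * ((3 / 2) ^ L * (A * ((2 : ℝ) ^ L)⁻¹ ^ 2) +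
      (((3 / 2 : ℝ) ^ L) ^ 3)⁻¹ * (B + B))) := by
  set s : ℝ≥0 := (i : ℝ≥0) / 2 ^ L with hs
  set t : ℝ≥0 := ((i : ℝ≥0) + 1) / 2 ^ L with ht
  have hst : (t : ℝ) - s = ((2 : ℝ) ^ L)⁻¹ := by
    rw [hs, ht]
    push_cast
    field_simp
    ring
  set lam : ℝ := (3 / 2 : ℝ) ^ L with hlam
  have hl : 0 < lam := by positivity
  have h5 : (0 : ℝ) < (5 / 4 : ℝ) ^ L := by positivity
  have hpt : ∀ᵐ ω ∂P, ENNReal.ofReal ((5 / 4 : ℝ) ^ L * inc g L i ω ^ 3) ≤
      ENNReal.ofReal ((5 / 4 : ℝ) ^ L * lam) * ENNReal.ofReal ((g ω t - g ω s) ^ 4) +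
      ENNReal.ofReal ((5 / 4 : ℝ) ^ L * (lam ^ 3)⁻¹) *
        (ENNReal.ofReal (((g ω t)⁻¹) ^ 24) + ENNReal.ofReal (((g ω s)⁻¹) ^ 24)) := by
    filter_upwards [hpos s, hpos t] with ω h1 h2
    have h3 := point h2 h1 hl
    have h6 : (0 : ℝ) ≤ (g ω t - g ω s) ^ 4 := by positivity
    have h7 : (0 : ℝ) ≤ ((g ω t)⁻¹) ^ 24 := by positivity
    have h8 : (0 : ℝ) ≤ ((g ω s)⁻¹) ^ 24 := by positivity
    rw [← ENNReal.ofReal_add h7 h8, ← ENNReal.ofReal_mul (by positivity),
      ← ENNReal.ofReal_mul (by positivity), ← ENNReal.ofReal_add (by positivity) (by positivity)]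
    apply ENNReal.ofReal_le_ofReal
    calc (5 / 4 : ℝ) ^ L * inc g L i ω ^ 3
        ≤ (5 / 4 : ℝ) ^ L * (lam * (g ω t - g ω s) ^ 4 +
          (lam ^ 3)⁻¹ * (((g ω t)⁻¹) ^ 24 + ((g ω s)⁻¹) ^ 24)) :=
          mul_le_mul_of_nonneg_left h3 h5.le
      _ = _ := by ring
  have hm4 : Measurable fun ω => ENNReal.ofReal ((g ω t - g ω s) ^ 4) :=
    (((hm t).sub (hm s)).pow_const 4).ennreal_ofReal
  have hm24 : ∀ r, Measurable fun ω => ENNReal.ofReal (((g ω r)⁻¹) ^ 24) := fun r =>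
    (((hm r).inv).pow_const 24).ennreal_ofReal
  have hms : Measurable fun ω => ENNReal.ofReal (((g ω t)⁻¹) ^ 24) +
      ENNReal.ofReal (((g ω s)⁻¹) ^ 24) := (hm24 t).add (hm24 s)
  calc ∫⁻ ω, ENNReal.ofReal ((5 / 4 : ℝ) ^ L * inc g L i ω ^ 3) ∂P
      ≤ ∫⁻ ω, (ENNReal.ofReal ((5 / 4 : ℝ) ^ L * lam) * ENNReal.ofReal ((g ω t - g ω s) ^ 4) +
      ENNReal.ofReal ((5 / 4 : ℝ) ^ L * (lam ^ 3)⁻¹) *
        (ENNReal.ofReal (((g ω t)⁻¹) ^ 24) + ENNReal.ofReal (((g ω s)⁻¹) ^ 24))) ∂P :=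
        lintegral_mono_ae hpt
    _ = ENNReal.ofReal ((5 / 4 : ℝ) ^ L * lam) * ∫⁻ ω, ENNReal.ofReal ((g ω t - g ω s) ^ 4) ∂P +
      ENNReal.ofReal ((5 / 4 : ℝ) ^ L * (lam ^ 3)⁻¹) *
        (∫⁻ ω, ENNReal.ofReal (((g ω t)⁻¹) ^ 24) ∂P +
          ∫⁻ ω, ENNReal.ofReal (((g ω s)⁻¹) ^ 24) ∂P) := by
        rw [lintegral_add_left (hm4.const_mul _), lintegral_const_mul _ hm4,
          lintegral_const_mul _ hms, lintegral_add_left (hm24 t)]
    _ ≤ ENNReal.ofReal ((5 / 4 : ℝ) ^ L * lam) * ENNReal.ofReal (A * ((2 : ℝ) ^ L)⁻¹ ^ 2) +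
      ENNReal.ofReal ((5 / 4 : ℝ) ^ L * (lam ^ 3)⁻¹) *
        (ENNReal.ofReal B + ENNReal.ofReal B) := by
        have h6 := h4 s t
        rw [hst] at h6
        gcongr
        · exact h24 t
        · exact h24 s
    _ = _ := by
        rw [← ENNReal.ofReal_add hB hB, ← ENNReal.ofReal_mul (by positivity),
          ← ENNReal.ofReal_mul (by positivity),
          ← ENNReal.ofReal_add (by positivity) (by positivity)]
        congr 1
        ring

theorem WW_fin {g : Ω → ℝ≥0 → ℝ} (hm : ∀ t, Measurable fun ω => g ω t) {A B : ℝ}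
    (hA : 0 ≤ A) (hB : 0 ≤ B)
    (h4 : ∀ s t : ℝ≥0, ∫⁻ ω, ENNReal.ofReal ((g ω t - g ω s) ^ 4) ∂P ≤
      ENNReal.ofReal (A * ((t : ℝ) - s) ^ 2))
    (h24 : ∀ t : ℝ≥0, ∫⁻ ω, ENNReal.ofReal (((g ω t)⁻¹) ^ 24) ∂P ≤ ENNReal.ofReal B)
    (hpos : ∀ t, ∀ᵐ ω ∂P, 0 < g ω t) (N : ℕ) : ∀ᵐ ω ∂P, WW g N ω < ∞ := by
  have hmL : ∀ L : ℕ, Measurable fun ω => ∑ i ∈ Finset.range (N * 2 ^ L),
      ENNReal.ofReal ((5 / 4 : ℝ) ^ L * inc g L i ω ^ 3) := fun L =>
    Finset.measurable_sum _ fun i _ => meas_inc hm L i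
  have hmW : Measurable (WW g N) := by
    unfold WW
    exact Measurable.tsum hmL
  refine ae_lt_top hmW ?_
  unfold WW
  rw [lintegral_tsum fun L => (hmL L).aemeasurable]
  have h1 : ∀ L : ℕ, ∫⁻ ω, ∑ i ∈ Finset.range (N * 2 ^ L),
      ENNReal.ofReal ((5 / 4 : ℝ) ^ L * inc g L i ω ^ 3) ∂P ≤
      ENNReal.ofReal (N * (A + 2 * B) * (15 / 16) ^ L) := by
    intro L
    rw [lintegral_finsetSum _ fun i _ => meas_inc hm L i]
    calc ∑ i ∈ Finset.range (N * 2 ^ L),
          ∫⁻ ω, ENNReal.ofReal ((5 / 4 : ℝ) ^ L * inc g L i ω ^ 3) ∂P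
        ≤ ∑ i ∈ Finset.range (N * 2 ^ L), ENNReal.ofReal ((5 / 4 : ℝ) ^ L *
          ((3 / 2) ^ L * (A * ((2 : ℝ) ^ L)⁻¹ ^ 2) + (((3 / 2 : ℝ) ^ L) ^ 3)⁻¹ * (B + B))) :=
          Finset.sum_le_sum fun i _ => one_inc hm hA hB h4 h24 hpos L i
      _ = ENNReal.ofReal ((N * 2 ^ L : ℕ) * ((5 / 4 : ℝ) ^ L *
          ((3 / 2) ^ L * (A * ((2 : ℝ) ^ L)⁻¹ ^ 2) + (((3 / 2 : ℝ) ^ L) ^ 3)⁻¹ * (B + B)))) := by
          rw [Finset.sum_const, Finset.card_range, nsmul_eq_mul,
            ENNReal.ofReal_mul (Nat.cast_nonneg _), ENNReal.ofReal_natCast]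
      _ ≤ _ := ENNReal.ofReal_le_ofReal (level_num hA hB N L)
  refine ne_top_of_le_ne_top ?_ (ENNReal.tsum_le_tsum h1)
  apply Summable.tsum_ofReal_ne_top
  exact (summable_geometric_of_lt_one (by norm_num) (by norm_num)).mul_left _

theorem bound_of_WW {g : Ω → ℝ≥0 → ℝ} {N : ℕ} {ω : Ω} (h : WW g N ω < ∞) :
    ∃ A : ℝ, 0 ≤ A ∧ ∀ L i : ℕ, i < N * 2 ^ L → inc g L i ω ≤ A * ρ ^ L := by
  have hρ : ρ = 19 / 20 := rfl
  set w : ℝ := (WW g N ω).toReal with hw
  have hw0 : 0 ≤ w := ENNReal.toReal_nonneg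
  refine ⟨w + 1, by positivity, ?_⟩
  intro L i hi
  have h1 : ENNReal.ofReal ((5 / 4 : ℝ) ^ L * inc g L i ω ^ 3) ≤ WW g N ω := by
    unfold WW
    refine le_trans ?_ (ENNReal.le_tsum L)
    exact Finset.single_le_sum (f := fun i => ENNReal.ofReal ((5 / 4 : ℝ) ^ L * inc g L i ω ^ 3))
      (fun _ _ => zero_le) (Finset.mem_range.mpr hi)
  have h2 : (5 / 4 : ℝ) ^ L * inc g L i ω ^ 3 ≤ w := by
    rw [hw]
    exact (ENNReal.ofReal_le_iff_le_toReal h.ne).mp h1
  have hinc : 0 ≤ inc g L i ω := abs_nonneg _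
  have h3 : inc g L i ω ^ 3 ≤ w * (4 / 5) ^ L := by
    have h4 : (5 / 4 : ℝ) ^ L * (4 / 5) ^ L = 1 := by
      rw [← mul_pow]
      norm_num
    calc inc g L i ω ^ 3 = ((5 / 4 : ℝ) ^ L * (4 / 5) ^ L) * inc g L i ω ^ 3 := by
          rw [h4, one_mul]
      _ = ((5 / 4 : ℝ) ^ L * inc g L i ω ^ 3) * (4 / 5) ^ L := by ring
      _ ≤ w * (4 / 5) ^ L := mul_le_mul_of_nonneg_right h2 (by positivity)
  have h5 : w * (4 / 5) ^ L ≤ ((w + 1) * ρ ^ L) ^ 3 := by
    rw [mul_pow, ← pow_mul, mul_comm L 3, pow_mul, hρ]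
    apply mul_le_mul _ _ (by positivity) (by positivity)
    · nlinarith [sq_nonneg w, mul_nonneg hw0 (sq_nonneg w)]
    · apply pow_le_pow_left₀ (by norm_num)
      norm_num
  exact le_of_pow_le_pow_left₀ (by norm_num : (3 : ℕ) ≠ 0) (by rw [hρ]; positivity)
    (h3.trans h5)

/-- the abstract statement -/
theorem abstract {g : Ω → ℝ≥0 → ℝ} (hm : ∀ t, Measurable fun ω => g ω t) {A B : ℝ}
    (hA : 0 ≤ A) (hB : 0 ≤ B)
    (h4 : ∀ s t : ℝ≥0, ∫⁻ ω, ENNReal.ofReal ((g ω t - g ω s) ^ 4) ∂P ≤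
      ENNReal.ofReal (A * ((t : ℝ) - s) ^ 2))
    (h24 : ∀ t : ℝ≥0, ∫⁻ ω, ENNReal.ofReal (((g ω t)⁻¹) ^ 24) ∂P ≤ ENNReal.ofReal B)
    (hpos : ∀ t, ∀ᵐ ω ∂P, 0 < g ω t) (hc : ∀ᵐ ω ∂P, Continuous (g ω)) :
    ∀ᵐ ω ∂P, ∀ t, 0 < g ω t := by
  have h1 : ∀ᵐ ω ∂P, ∀ N : ℕ, WW g N ω < ∞ :=
    ae_all_iff.mpr fun N => WW_fin hm hA hB h4 h24 hpos N
  have h2 : ∀ᵐ ω ∂P, ∀ l i : ℕ, 0 < g ω ((i : ℝ≥0) / 2 ^ l) :=
    ae_all_iff.mpr fun l => ae_all_iff.mpr fun i => hpos _
  filter_upwards [h1, h2, hc] with ω hW hp hcont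
  intro t
  obtain ⟨N, hN⟩ := exists_nat_ge t
  obtain ⟨A', hA', hb⟩ := bound_of_WW (hW N)
  exact pos_of_dyadic (g ω) hcont hA' hp hb hN

end process

/-- negative moments of `χ²` -/
theorem chi24 (hNEG : SpecNEG) : ∃ B : ℝ, 0 ≤ B ∧ ∀ N : ℕ, 96 ≤ N →
    ∫⁻ x, ENNReal.ofReal (((x ^ 2)⁻¹) ^ 24) ∂(chi N) ≤ ENNReal.ofReal B := by
  obtain ⟨C, hC, h⟩ := hNEG
  refine ⟨C ^ (24 : ℝ), by positivity, ?_⟩
  intro N hN
  have hN' : (96 : ℝ) ≤ N := by exact_mod_cast hN
  refine le_trans ?_ (h N 24 (by omega) (by norm_num) (by linarith))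
  apply lintegral_mono
  intro x
  apply ENNReal.ofReal_le_ofReal
  have h0 : 0 ≤ x ^ 2 / N := by positivity
  rw [Real.rpow_neg h0, show (24 : ℝ) = ((24 : ℕ) : ℝ) by norm_num, Real.rpow_natCast]
  have h1 : ((x ^ 2 / (N : ℝ)) ^ 24)⁻¹ = ((x ^ 2 / (N : ℝ))⁻¹) ^ 24 := (inv_pow _ _).symm
  rw [h1]
  apply pow_le_pow_left₀ (by positivity)
  rw [inv_div]
  rcases eq_or_ne x 0 with rfl | hx
  · simp
  · have hx2 : 0 < x ^ 2 := by positivity
    rw [inv_eq_one_div]
    apply div_le_div_of_nonneg_right _ hx2.le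
    linarith

end CTPM

open CTPM in
theorem specCTP (hTSI : SpecTSI) (hDEL : SpecDEL) (hDL1 : SpecDL1) (hNEG : SpecNEG)
    (hDIF : SpecDIF) (hMEA : SpecMEA) : SpecCTP := by
  intro ι _ _
  obtain ⟨C, hC, hT⟩ := hTSI ι
  obtain ⟨B, hB, hchi⟩ := chi24 hNEG
  refine ⟨C + Fintype.card ι + 96, by positivity, ?_⟩
  intro E _ _ _ S u Ω _ P _ Z hu hZ hcont k hk
  let _ : MeasurableSpace E := borel E
  have _ : BorelSpace E := ⟨rfl⟩
  -- the conditions on the dimension for `l ≤ k`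
  have hdim : ∀ l ≤ k, C * ((l : ℝ) + 1) ≤ dm E ∧
      Fintype.card ι * (l + 1) + 96 ≤ Module.finrank ℝ E := by
    intro l hl
    have hl' : (l : ℝ) ≤ k := by exact_mod_cast hl
    have hb0 : (0 : ℝ) ≤ Fintype.card ι := Nat.cast_nonneg _
    have hk0 : (0 : ℝ) ≤ k := Nat.cast_nonneg _
    have hl0 : (0 : ℝ) ≤ l := Nat.cast_nonneg _
    constructor
    · nlinarith
    · have h1 : ((Fintype.card ι * (l + 1) + 96 : ℕ) : ℝ) ≤ (Module.finrank ℝ E : ℝ) := by
        push_cast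
        refine le_trans ?_ hk
        nlinarith
      exact_mod_cast h1
  -- one-dimensional laws
  have hlaw : ∀ t : ℝ≥0, GFam S (fun _ _ => 1) (P.map fun ω (_ : Unit) => Z ω t) := by
    intro t
    have := hZ.fam Unit (fun _ => t)
    simpa using this
  have hmt : ∀ t : ℝ≥0, Measurable fun ω (_ : Unit) => Z ω t := fun t =>
    measurable_pi_iff.mpr fun _ => hZ.meas t
  have hbm : ∀ l, Measurable fun M : Unit → E →L[ℝ] E => bv (M ()) u l := fun l =>
    (hMEA ι E Unit S u l).2.2.2.1 ()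
  have hbt : ∀ l t, Measurable fun ω => bv (Z ω t) u l := fun l t => (hbm l).comp (hmt t)
  have hne : ∀ l ≤ k, ∀ t, ∀ᵐ ω ∂P, ∀ l' < l + 1, bv (Z ω t) u l' ≠ 0 := by
    intro l hl t
    have h1 := (hDEL ι E S u _ (hlaw t) hu (l + 1) (by have := (hdim l hl).2; omega)).1
    exact ae_of_ae_map (hmt t).aemeasurable h1
  -- induction
  have key : ∀ l ≤ k + 1, ∀ᵐ ω ∂P, ∀ t, ∀ l' < l, bv (Z ω t) u l' ≠ 0 := by
    intro l
    induction l with
    | zero =>
      intro _
      exact Eventually.of_forall fun ω t l' hl' => absurd hl' (Nat.not_lt_zero _)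
    | succ l ih =>
      intro hl
      have ih' := ih (by omega)
      have hlk : l ≤ k := by omega
      obtain ⟨hd1, hd2⟩ := hdim l hlk
      set g : Ω → ℝ≥0 → ℝ := fun ω t => bv (Z ω t) u l ^ 2 with hg
      have hm : ∀ t, Measurable fun ω => g ω t := fun t => (hbt l t).pow_const 2
      have hpos : ∀ t, ∀ᵐ ω ∂P, 0 < g ω t := by
        intro t
        filter_upwards [hne l hlk t] with ω h1
        have h2 := h1 l (Nat.lt_succ_self l)
        positivity
      have hgc : ∀ᵐ ω ∂P, Continuous (g ω) := by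
        filter_upwards [ih'] with ω h1
        rw [continuous_iff_continuousAt]
        intro t
        have h2 : DifferentiableAt ℝ (fun A : E →L[ℝ] E => bv A u l ^ 2) (Z ω t) :=
          (hDIF E u (Z ω t) l (h1 t)).2.2.2.1
        exact ContinuousAt.comp (g := fun A : E →L[ℝ] E => bv A u l ^ 2) h2.continuousAt
          (hcont ω).continuousAt
      have h24 : ∀ t : ℝ≥0, ∫⁻ ω, ENNReal.ofReal (((g ω t)⁻¹) ^ 24) ∂P ≤ ENNReal.ofReal B := by
        intro t
        have h1 := (hDEL ι E S u _ (hlaw t) hu l (by nlinarith)).1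
        have h2 := hDL1 ι E S u _ (hlaw t) hu l (by omega) h1
          (fun w => ENNReal.ofReal (((w.2.2 ^ 2)⁻¹) ^ 24)) (by
            apply Measurable.ennreal_ofReal
            exact (((measurable_snd.comp measurable_snd).pow_const 2).inv).pow_const 24)
        dsimp only at h2
        have hφ : Measurable fun x : ℝ => ENNReal.ofReal (((x ^ 2)⁻¹) ^ 24) :=
          (((measurable_id.pow_const 2).inv).pow_const 24).ennreal_ofReal
        have h3 : ∫⁻ z, ENNReal.ofReal (((z.2 ^ 2)⁻¹) ^ 24) ∂((gaussianReal 0 2).prod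
            (chi (Module.finrank ℝ E - Fintype.card ι * (l + 1)))) =
            ∫⁻ x, ENNReal.ofReal (((x ^ 2)⁻¹) ^ 24)
              ∂(chi (Module.finrank ℝ E - Fintype.card ι * (l + 1))) := by
          have h4 := lintegral_map (μ := (gaussianReal 0 2).prod
            (chi (Module.finrank ℝ E - Fintype.card ι * (l + 1)))) hφ measurable_snd
          rw [← h4, Measure.map_snd_prod, measure_univ, one_smul]
        rw [h3, lintegral_const] at h2
        have hpr : IsProbabilityMeasure (P.map fun ω (_ : Unit) => Z ω t) :=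
          Measure.isProbabilityMeasure_map (hmt t).aemeasurable
        rw [measure_univ, mul_one, lintegral_map (by
          exact (((hbm l).pow_const 2).inv.pow_const 24).ennreal_ofReal) (hmt t)] at h2
        exact h2.le.trans (hchi _ (by omega))
      set A : ℝ := C * dm E ^ 2 * ((l : ℝ) + 1) ^ 2 * ((l : ℝ) + 1) ^ (1 / 100 : ℝ) *
        Real.exp (C * (l + 1) ^ 3 / dm E) with hAdef
      have hA : 0 ≤ A := by positivity
      have h4 : ∀ s t : ℝ≥0, ∫⁻ ω, ENNReal.ofReal ((g ω t - g ω s) ^ 4) ∂P ≤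
          ENNReal.ofReal (A * ((t : ℝ) - s) ^ 2) := by
        intro s t
        have hfam : GFam S (c2 (Real.exp (-|(t : ℝ) - s|)))
            (P.map fun ω (p : Fin 2) => Z ω (if p = 0 then s else t)) := by
          have h5 := hZ.fam (Fin 2) (fun p => if p = 0 then s else t)
          have h6 : (fun p q : Fin 2 => Real.exp (-|(((if p = 0 then s else t : ℝ≥0)) : ℝ) -
              ((if q = 0 then s else t : ℝ≥0) : ℝ)|)) = c2 (Real.exp (-|(t : ℝ) - s|)) := by
            funext p q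
            fin_cases p <;> fin_cases q <;> simp [c2, abs_sub_comm]
          rw [h6] at h5
          exact h5
        have hmp : Measurable fun ω (p : Fin 2) => Z ω (if p = 0 then s else t) :=
          measurable_pi_iff.mpr fun p => hZ.meas _
        have h7 := (hT E S u |(t : ℝ) - s| _ (abs_nonneg _) hfam hu l hd1).2
        rw [lintegral_map _ hmp] at h7
        · simp only [Fin.isValue, one_ne_zero, ↓reduceIte] at h7
          refine h7.trans (le_of_eq ?_)
          congr 1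
          rw [hAdef, sq_abs]
          ring
        · have hb1 := (hMEA ι E (Fin 2) S u l).2.2.2.1
          exact ((((hb1 1).pow_const 2).sub ((hb1 0).pow_const 2)).pow_const 4).ennreal_ofReal
      have hfin := abstract hm hA hB h4 h24 hpos hgc
      filter_upwards [ih', hfin] with ω h1 h2
      intro t l' hl'
      rcases Nat.lt_succ_iff_lt_or_eq.mp hl' with h3 | h3
      · exact h1 t l' h3
      · rw [h3]
        intro h0
        have h5 := h2 t
        simp only [hg, h0] at h5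
        norm_num at h5
  filter_upwards [key (k + 1) le_rfl] with ω h1
  intro t l hl
  exact h1 t l (by omega)

end Pool.Agent.Lib.MP17fa2c
end

section
/-!
# MP_17fa2c_pr, module FDD: convergence of the finite-dimensional laws
-/
set_option autoImplicit false

open MeasureTheory ProbabilityTheory Filter Topology
open scoped RealInnerProductSpace NNReal ENNReal BoundedContinuousFunction

namespace Pool.Agent.Lib.MP17fa2c

namespace FDDM

/-- limit of one power of the correlation -/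
theorem pow_lim (d : ℝ) (kk : ℕ → ℕ) (hk : Tendsto kk atTop atTop) :
    Tendsto (fun n => Real.exp (-(d / ((kk n : ℝ) + 1))) ^ (2 * kk n + 1)) atTop
      (𝓝 (Real.exp (-2 * d))) := by
  have h1 : Tendsto (fun n => 1 / ((kk n : ℝ) + 1)) atTop (𝓝 0) :=
    (tendsto_one_div_add_atTop_nhds_zero_nat (𝕜 := ℝ)).comp hk
  have h2 : Tendsto (fun n => Real.exp (-d * (2 - 1 / ((kk n : ℝ) + 1)))) atTop
      (𝓝 (Real.exp (-d * (2 - 0)))) :=
    (Real.continuous_exp.tendsto _).comp ((h1.const_sub 2).const_mul (-d))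
  have h3 : -d * (2 - 0) = -2 * d := by ring
  rw [h3] at h2
  refine h2.congr fun n => ?_
  rw [← Real.exp_nat_mul]
  congr 1
  have h4 : ((kk n : ℝ) + 1) ≠ 0 := by positivity
  push_cast
  field_simp
  ring

theorem pow_eq (d : ℝ) (k : ℕ) :
    Real.exp (-(d / ((k : ℝ) + 1))) ^ (2 * k + 2) = Real.exp (-2 * d) := by
  rw [← Real.exp_nat_mul]
  congr 1
  have h4 : ((k : ℝ) + 1) ≠ 0 := by positivity
  push_cast
  field_simp

theorem tau_abs (a b : ℝ≥0) (k : ℕ) :
    |((a / ((k : ℝ≥0) + 1) : ℝ≥0) : ℝ) - ((b / ((k : ℝ≥0) + 1) : ℝ≥0) : ℝ)| =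
      |(a : ℝ) - b| / ((k : ℝ) + 1) := by
  have h4 : (0 : ℝ) < ((k : ℝ) + 1) := by positivity
  push_cast
  rw [← sub_div, abs_div, abs_of_pos h4]

end FDDM

open FDDM in
theorem specFDD (hMUL : SpecMUL) (hLCF : SpecLCF) (hOUC : SpecOUC) (hMEA : SpecMEA) :
    SpecFDD := by
  intro ι _ _ E _ _ _ S u Ω _ P _ Z j kk X Ω' _ P' _ Y hu hZ hkk hinj hrate hD hX hent hY m t f
  refine hLCF (Fin j ⊕ Fin j) m Ω P (fun n ω i => X n ω (t i)) Ω' P' (fun ω i => Y ω (t i))
    (fun n => measurable_pi_lambda _ fun i => hX n (t i))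
    (measurable_pi_lambda _ fun i => hY.meas (t i)) ?_ f
  intro lam
  rw [hOUC (Fin j ⊕ Fin j) Ω' P' Y hY m t lam]
  -- the set-up
  set la : (Fin j × Fin m) → ℝ := fun p => lam p.2 (Sum.inl p.1) with hla
  set mu : (Fin j × Fin m) → ℝ := fun p => lam p.2 (Sum.inr p.1) with hmu
  set tau : ℕ → (Fin j × Fin m) → ℝ≥0 := fun n p => t p.2 / ((kk n p.1 : ℝ≥0) + 1) with htau
  set cc : ℕ → (Fin j × Fin m) → (Fin j × Fin m) → ℝ := fun n p q => Real.exp (-|(tau n p : ℝ) - tau n q|) with hcc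
  set nu : ∀ n, Measure ((Fin j × Fin m) → E n →L[ℝ] E n) := fun n => (P n).map fun ω p => Z n ω (tau n p)
    with hnu
  set W : ℕ → ℝ := fun n => ∑ p : (Fin j × Fin m), ∑ q : (Fin j × Fin m), (if kk n p.1 = kk n q.1 then
    la p * la q * cc n p q ^ (2 * kk n p.1 + 1) + mu p * mu q * cc n p q ^ (2 * kk n p.1 + 2)
    else 0) with hW
  set L : ℝ := 1 + ∑ i, ∑ k, |lam i k| with hL
  have hL0 : 0 < L := by
    have : 0 ≤ ∑ i, ∑ k, |lam i k| :=
      Finset.sum_nonneg fun i _ => Finset.sum_nonneg fun k _ => abs_nonneg _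
    linarith
  have hlamL : ∀ i k, |lam i k| ≤ L := by
    intro i k
    have h1 : |lam i k| ≤ ∑ k, |lam i k| :=
      Finset.single_le_sum (f := fun k => |lam i k|) (fun k _ => abs_nonneg _) (Finset.mem_univ k)
    have h2 : ∑ k, |lam i k| ≤ ∑ i, ∑ k, |lam i k| :=
      Finset.single_le_sum (f := fun i => ∑ k, |lam i k|)
        (fun i _ => Finset.sum_nonneg fun k _ => abs_nonneg _) (Finset.mem_univ i)
    linarith
  -- the integrals
  have hint : ∀ᶠ n in atTop, ∫ ω, Complex.exp (Complex.I *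
        ((∑ i, ∑ k, lam i k * X n ω (t i) k : ℝ) : ℂ)) ∂(P n) =
      ∫ M, Complex.exp (Complex.I * ((∑ p : (Fin j × Fin m), (la p * av (M p) (u n) (kk n p.1) +
        mu p * bn ι (M p) (u n) (kk n p.1)) : ℝ) : ℂ)) ∂(nu n) := by
    filter_upwards [hent] with n hn
    let _ : MeasurableSpace (E n) := borel (E n)
    have hBor : BorelSpace (E n) := ⟨rfl⟩
    have hmeasM : Measurable fun M : (Fin j × Fin m) → E n →L[ℝ] E n =>
        Complex.exp (Complex.I * ((∑ p : (Fin j × Fin m), (la p * av (M p) (u n) (kk n p.1) +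
        mu p * bn ι (M p) (u n) (kk n p.1)) : ℝ) : ℂ)) := by
      refine Complex.measurable_exp.comp (Measurable.const_mul ?_ _)
      refine Complex.measurable_ofReal.comp ?_
      refine Finset.measurable_sum _ fun p _ => ?_
      have hm := hMEA ι (E n) (Fin j × Fin m) (S n) (u n) (kk n p.1)
      refine ((hm.2.2.1 p).const_mul _).add (Measurable.const_mul ?_ _)
      unfold bn
      exact (((hm.2.2.2.1 p).pow_const 2).sub_const _).div_const _
    have hmeasZ : Measurable fun ω (p : (Fin j × Fin m)) => Z n ω (tau n p) :=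
      measurable_pi_lambda _ fun p => (hZ n).meas (tau n p)
    rw [hnu]
    simp only
    rw [integral_map hmeasZ.aemeasurable hmeasM.aestronglyMeasurable]
    refine integral_congr_ae ?_
    have hall : ∀ᵐ ω ∂(P n), ∀ i, X n ω (t i) = ent ι (u n) (Z n ω) (kk n) (t i) :=
      ae_all_iff.2 fun i => hn (t i)
    filter_upwards [hall] with ω hω
    have hsum : (∑ i, ∑ k, lam i k * X n ω (t i) k : ℝ) =
        ∑ p : (Fin j × Fin m), (la p * av (Z n ω (tau n p)) (u n) (kk n p.1) +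
          mu p * bn ι (Z n ω (tau n p)) (u n) (kk n p.1)) := by
      rw [Fintype.sum_prod_type_right]
      refine Finset.sum_congr rfl fun i _ => ?_
      rw [Fintype.sum_sum_type, ← Finset.sum_add_distrib]
      refine Finset.sum_congr rfl fun k _ => ?_
      rw [hω i]
      rfl
    simp only [hsum]
  -- closeness
  have hclose : Tendsto (fun n => (∫ ω, Complex.exp (Complex.I *
        ((∑ i, ∑ k, lam i k * X n ω (t i) k : ℝ) : ℂ)) ∂(P n)) -
      Complex.exp (-((W n : ℝ) : ℂ))) atTop (𝓝 0) := by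
    rw [Metric.tendsto_nhds]
    intro ε hε
    obtain ⟨δ, hδ, H⟩ := hMUL ι (Fin j × Fin m) L (ε / 2) hL0 (half_pos hε)
    have hsmall : ∀ᶠ n in atTop, ∀ i, ((kk n i : ℝ) + 1) / Real.sqrt (dm (E n)) < δ :=
      eventually_all.2 fun i => (hrate i).eventually (gt_mem_nhds hδ)
    filter_upwards [hint, hsmall] with n h1 h2
    rw [h1, dist_zero_right]
    have hcor : Cor (cc n) := by
      refine ⟨fun p q => ?_, fun p => ?_, fun p q => ?_⟩
      · simp only [hcc]; rw [abs_sub_comm]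
      · simp [hcc]
      · simp only [hcc]
        rw [abs_of_pos (Real.exp_pos _), Real.exp_le_one_iff]
        simp
    have h3 := H (E n) (S n) (u n) (cc n) (nu n) ((hZ n).fam (Fin j × Fin m) (tau n)) hcor (hu n) la mu
      (fun p => kk n p.1) (fun p => hlamL _ _) (fun p => hlamL _ _) (fun p => by
        have h4 := h2 p.1
        have h5 : 0 < Real.sqrt (dm (E n)) := Real.sqrt_pos.2 (hD n)
        rw [div_lt_iff₀ h5] at h4
        exact h4.le)
    exact lt_of_le_of_lt h3 (half_lt_self hε)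
  -- the variance
  have hWlim : Tendsto W atTop (𝓝 (∑ p : (Fin j × Fin m), ∑ q : (Fin j × Fin m), (if p.1 = q.1 then
      la p * la q * Real.exp (-2 * |(t p.2 : ℝ) - t q.2|) +
        mu p * mu q * Real.exp (-2 * |(t p.2 : ℝ) - t q.2|) else 0))) := by
    rw [hW]
    refine tendsto_finsetSum _ fun p _ => tendsto_finsetSum _ fun q _ => ?_
    by_cases hpq : p.1 = q.1
    · have h1 : ∀ n, cc n p q = Real.exp (-(|(t p.2 : ℝ) - t q.2| / ((kk n p.1 : ℝ) + 1))) := by
        intro n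
        simp only [hcc, htau]
        rw [← hpq, tau_abs]
      simp only [hpq, if_true]
      rw [← hpq]
      have h2 : Tendsto (fun n => la p * la q * cc n p q ^ (2 * kk n p.1 + 1) +
          mu p * mu q * cc n p q ^ (2 * kk n p.1 + 2)) atTop
          (𝓝 (la p * la q * Real.exp (-2 * |(t p.2 : ℝ) - t q.2|) +
            mu p * mu q * Real.exp (-2 * |(t p.2 : ℝ) - t q.2|))) := by
        refine Tendsto.add (Tendsto.const_mul _ ?_) (Tendsto.const_mul _ ?_)
        · simp only [h1]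
          exact pow_lim _ _ (hkk p.1)
        · simp only [h1, pow_eq]
          exact tendsto_const_nhds
      exact h2
    · simp only [hpq, if_false]
      refine tendsto_const_nhds.congr' ?_
      filter_upwards [hinj] with n hn
      rw [if_neg fun h => hpq (hn h)]
  have hWeq : (∑ p : (Fin j × Fin m), ∑ q : (Fin j × Fin m), (if p.1 = q.1 then
      la p * la q * Real.exp (-2 * |(t p.2 : ℝ) - t q.2|) +
        mu p * mu q * Real.exp (-2 * |(t p.2 : ℝ) - t q.2|) else 0)) =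
      ∑ k, ∑ i, ∑ l, lam i k * lam l k * Real.exp (-2 * |(t i : ℝ) - t l|) := by
    rw [Fintype.sum_sum_type, ← Finset.sum_add_distrib, Fintype.sum_prod_type]
    refine Finset.sum_congr rfl fun k _ => ?_
    rw [← Finset.sum_add_distrib]
    refine Finset.sum_congr rfl fun i _ => ?_
    rw [← Finset.sum_add_distrib, Fintype.sum_prod_type, Finset.sum_comm]
    refine Finset.sum_congr rfl fun l _ => ?_
    simp only [Finset.sum_ite_eq, Finset.mem_univ, if_true]
    rfl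
  rw [hWeq] at hWlim
  have hexp : Tendsto (fun n => Complex.exp (-((W n : ℝ) : ℂ))) atTop
      (𝓝 (Complex.exp (-((∑ k, ∑ i, ∑ l, lam i k * lam l k *
        Real.exp (-2 * |(t i : ℝ) - t l|) : ℝ) : ℂ)))) := by
    have hc : Continuous fun x : ℝ => Complex.exp (-((x : ℝ) : ℂ)) := by fun_prop
    exact (hc.tendsto _).comp hWlim
  have hsum := hclose.add hexp
  rw [zero_add] at hsum
  refine (hsum.congr fun n => ?_).trans (le_of_eq ?_)
  · ring
  · rfl

end Pool.Agent.Lib.MP17fa2c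
end

section
/-!
# MP_17fa2c_pr, module MUL: characteristic function for several depths
-/
set_option autoImplicit false

open MeasureTheory ProbabilityTheory Filter Topology
open scoped RealInnerProductSpace NNReal ENNReal

namespace Pool.Agent.Lib.MP17fa2c

namespace MULM

section

variable {ι : Type} [Fintype ι] [DecidableEq ι]
  {E : Type} [NormedAddCommGroup E] [InnerProductSpace ℝ E] {T : Type} [Fintype T]

/-- cut-off of the weights to the depths in `A` -/
noncomputable def ct (A : Finset ℕ) (kk : T → ℕ) (w : T → ℝ) (p : T) : ℝ :=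
  if kk p ∈ A then w p else 0

/-- exponent -/
noncomputable def ex1 (ι : Type) [Fintype ι] (u : E) (lam mu : T → ℝ) (kk : T → ℕ)
    (M : T → E →L[ℝ] E) : ℝ :=
  ∑ p, (lam p * av (M p) u (kk p) + mu p * bn ι (M p) u (kk p))

/-- variance -/
noncomputable def wt (c : T → T → ℝ) (lam mu : T → ℝ) (kk : T → ℕ) : ℝ :=
  ∑ p, ∑ q, (if kk p = kk q then lam p * lam q * c p q ^ (2 * kk p + 1) +
      mu p * mu q * c p q ^ (2 * kk p + 2) else 0)

theorem ct_abs {A : Finset ℕ} {kk : T → ℕ} {w : T → ℝ} {L : ℝ} (hL : 0 < L)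
    (h : ∀ p, |w p| ≤ L) (p : T) : |ct A kk w p| ≤ L := by
  unfold ct
  split_ifs
  · exact h p
  · simpa using hL.le

theorem ex1_insert (u : E) (lam mu : T → ℝ) (kk : T → ℕ)
    (M : T → E →L[ℝ] E) (A : Finset ℕ) (d : ℕ) (hd : d ∉ A) :
    ex1 ι u (ct (insert d A) kk lam) (ct (insert d A) kk mu) kk M =
      ex1 ι u (ct A kk lam) (ct A kk mu) kk M +
      ∑ p, (ct {d} kk lam p * av (M p) u d + ct {d} kk mu p * bn ι (M p) u d) := by
  unfold ex1
  rw [← Finset.sum_add_distrib]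
  refine Finset.sum_congr rfl fun p _ => ?_
  unfold ct
  by_cases h1 : kk p = d
  · have h2 : kk p ∉ A := by rw [h1]; exact hd
    simp [h1, hd]
  · simp [h1]

theorem wt_insert (c : T → T → ℝ) (lam mu : T → ℝ) (kk : T → ℕ) (A : Finset ℕ) (d : ℕ)
    (hd : d ∉ A) :
    wt c (ct (insert d A) kk lam) (ct (insert d A) kk mu) kk =
      wt c (ct A kk lam) (ct A kk mu) kk +
      ∑ p, ∑ q, (ct {d} kk lam p * ct {d} kk lam q * c p q ^ (2 * d + 1) +
        ct {d} kk mu p * ct {d} kk mu q * c p q ^ (2 * d + 2)) := by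
  unfold wt
  rw [← Finset.sum_add_distrib]
  refine Finset.sum_congr rfl fun p _ => ?_
  rw [← Finset.sum_add_distrib]
  refine Finset.sum_congr rfl fun q _ => ?_
  unfold ct
  by_cases h1 : kk p = d
  · by_cases h2 : kk q = d
    · simp [h1, h2, hd]
    · have h3 : ¬ d = kk q := fun h => h2 h.symm
      simp [h1, h2, h3]
  · by_cases h2 : kk q = d
    · simp [h1, h2]
    · by_cases h3 : kk p = kk q
      · simp [h2, h3]
      · simp [h1, h3]

end

end MULM

open MULM in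
theorem specMUL (hCHF : SpecCHF) (hSTK : SpecSTK) (hKNM : SpecKNM) (hMEA : SpecMEA) :
    SpecMUL := by
  intro ι _ _ T _ L ε hL hε
  obtain ⟨δ, hδ, H⟩ := hCHF ι T L (min 1 (ε / 2 ^ Fintype.card T)) hL
    (lt_min one_pos (div_pos hε (by positivity)))
  refine ⟨δ, hδ, ?_⟩
  intro E _ _ _ S u c ν hG hc hu lam mu kk hlam hmu hkk
  set ε' : ℝ := min 1 (ε / 2 ^ Fintype.card T) with hε'
  have hε'0 : 0 < ε' := lt_min one_pos (div_pos hε (by positivity))
  have hε'1 : ε' ≤ 1 := min_le_left _ _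
  have := hG.gauss
  have : IsProbabilityMeasure ν := inferInstance
  let : MeasurableSpace E := borel E
  have hBor : BorelSpace E := ⟨rfl⟩
  have hav : ∀ (p : T) (k : ℕ), Measurable fun M : T → E →L[ℝ] E => av (M p) u k :=
    fun p k => (hMEA ι E T S u k).2.2.1 p
  have hbv : ∀ (p : T) (k : ℕ), Measurable fun M : T → E →L[ℝ] E => bv (M p) u k :=
    fun p k => (hMEA ι E T S u k).2.2.2.1 p
  have hbn : ∀ (p : T) (k : ℕ), Measurable fun M : T → E →L[ℝ] E => bn ι (M p) u k := by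
    intro p k
    unfold bn
    exact (((hbv p k).pow_const 2).sub_const _).div_const _
  have hXm : ∀ A : Finset ℕ, Measurable fun M : T → E →L[ℝ] E =>
      Complex.exp (Complex.I * ((ex1 ι u (ct A kk lam) (ct A kk mu) kk M : ℝ) : ℂ)) := by
    intro A
    refine Complex.measurable_exp.comp (Measurable.const_mul ?_ _)
    refine Complex.measurable_ofReal.comp ?_
    unfold ex1
    refine Finset.measurable_sum _ fun p _ => ?_
    exact ((hav p _).const_mul _).add ((hbn p _).const_mul _)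
  -- main induction
  have main : ∀ A : Finset ℕ, (∀ d ∈ A, ((d : ℝ) + 1) ≤ δ * Real.sqrt (dm E)) →
      ‖∫ M, Complex.exp (Complex.I * ((ex1 ι u (ct A kk lam) (ct A kk mu) kk M : ℝ) : ℂ)) ∂ν -
        Complex.exp (-((wt c (ct A kk lam) (ct A kk mu) kk : ℝ) : ℂ))‖ ≤
        (2 ^ A.card - 1) * ε' := by
    intro A
    induction A using Finset.induction_on_max with
    | empty =>
      intro _
      have h1 : ∀ M : T → E →L[ℝ] E,
          ex1 ι u (ct ∅ kk lam) (ct ∅ kk mu) kk M = 0 := by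
        intro M; unfold ex1 ct; simp
      have h2 : wt c (ct ∅ kk lam) (ct ∅ kk mu) kk = 0 := by
        unfold wt ct; simp
      simp [h1, h2]
    | insert d A hmax ih =>
      intro hA
      have hd : d ∉ A := fun h => lt_irrefl _ (hmax d h)
      have hdd : ((d : ℝ) + 1) ≤ δ * Real.sqrt (dm E) := hA d (Finset.mem_insert_self _ _)
      have ih' := ih fun x hx => hA x (Finset.mem_insert_of_mem hx)
      set X : (T → E →L[ℝ] E) → ℂ := fun M =>
        Complex.exp (Complex.I * ((ex1 ι u (ct A kk lam) (ct A kk mu) kk M : ℝ) : ℂ)) with hX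
      have hX1 : ∀ M, ‖X M‖ ≤ 1 := fun M => by
        rw [hX]; simp only; rw [Complex.norm_exp_I_mul_ofReal]
      have hXK : Kn S u d X := by
        intro M G hM hG'
        have key : ex1 ι u (ct A kk lam) (ct A kk mu) kk (res (expl S u M d) M G) =
            ex1 ι u (ct A kk lam) (ct A kk mu) kk M := by
          unfold ex1
          refine Finset.sum_congr rfl fun p _ => ?_
          by_cases hp : kk p ∈ A
          · have hlt : kk p + 1 ≤ d := hmax _ hp
            obtain ⟨-, -, -, -, -, -, -, -, k1, k2, -⟩ := hSTK ι E T S u hu (kk p) p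
            have k1' := hKNM ι E T S u ℝ _ (kk p + 1) d hlt k1 M G hM hG'
            have k2' := hKNM ι E T S u ℝ _ (kk p + 1) d hlt k2 M G hM hG'
            unfold bn
            rw [k1', k2']
          · unfold ct; simp [hp]
        simp only [hX, key]
      have hWd := H E S u c ν hG hc hu (ct {d} kk lam) (ct {d} kk mu) d X
        (ct_abs hL hlam) (ct_abs hL hmu) hdd (hXm A) hX1 hXK
      have hW1 := H E S u c ν hG hc hu (ct {d} kk lam) (ct {d} kk mu) d (fun _ => 1)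
        (ct_abs hL hlam) (ct_abs hL hmu) hdd measurable_const (fun _ => by simp)
        (fun _ _ _ _ => rfl)
      set Wd : ℝ := ∑ p, ∑ q, (ct {d} kk lam p * ct {d} kk lam q * c p q ^ (2 * d + 1) +
        ct {d} kk mu p * ct {d} kk mu q * c p q ^ (2 * d + 2)) with hWdef
      -- |exp (-Wd)| ≤ 2
      have hexp : ‖Complex.exp (-((Wd : ℝ) : ℂ))‖ ≤ 2 := by
        have h1 : ‖∫ M, (1 : ℂ) * Complex.exp (Complex.I *
            ((∑ p, (ct {d} kk lam p * av (M p) u d + ct {d} kk mu p * bn ι (M p) u d) : ℝ) : ℂ))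
              ∂ν‖ ≤ 1 := by
          refine (norm_integral_le_of_norm_le_const (C := 1)
            (Filter.Eventually.of_forall fun M => ?_)).trans ?_
          · rw [one_mul, Complex.norm_exp_I_mul_ofReal]
          · simp
        have h2 : (∫ _ : T → E →L[ℝ] E, (1 : ℂ) ∂ν) = 1 := by simp
        rw [h2, mul_one] at hW1
        have h3 := norm_sub_norm_le (Complex.exp (-((Wd : ℝ) : ℂ)))
          (∫ M, (1 : ℂ) * Complex.exp (Complex.I *
            ((∑ p, (ct {d} kk lam p * av (M p) u d + ct {d} kk mu p * bn ι (M p) u d) : ℝ) : ℂ))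
              ∂ν)
        rw [norm_sub_rev] at h3
        linarith
      have hprod : ∀ M : T → E →L[ℝ] E,
          Complex.exp (Complex.I *
            ((ex1 ι u (ct (insert d A) kk lam) (ct (insert d A) kk mu) kk M : ℝ) : ℂ)) =
          X M * Complex.exp (Complex.I * ((∑ p, (ct {d} kk lam p * av (M p) u d +
            ct {d} kk mu p * bn ι (M p) u d) : ℝ) : ℂ)) := by
        intro M
        rw [ex1_insert u lam mu kk M A d hd, hX]
        simp only
        rw [← Complex.exp_add]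
        congr 1
        push_cast
        ring
      have hW : Complex.exp (-((wt c (ct (insert d A) kk lam) (ct (insert d A) kk mu) kk : ℝ) : ℂ))
          = Complex.exp (-((Wd : ℝ) : ℂ)) *
            Complex.exp (-((wt c (ct A kk lam) (ct A kk mu) kk : ℝ) : ℂ)) := by
        rw [wt_insert c lam mu kk A d hd, ← hWdef, ← Complex.exp_add]
        congr 1
        push_cast
        ring
      rw [hW]
      simp only [hprod]
      have hsplit : (∫ M, X M * Complex.exp (Complex.I * ((∑ p, (ct {d} kk lam p * av (M p) u d +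
            ct {d} kk mu p * bn ι (M p) u d) : ℝ) : ℂ)) ∂ν) -
          Complex.exp (-((Wd : ℝ) : ℂ)) *
            Complex.exp (-((wt c (ct A kk lam) (ct A kk mu) kk : ℝ) : ℂ)) =
          ((∫ M, X M * Complex.exp (Complex.I * ((∑ p, (ct {d} kk lam p * av (M p) u d +
            ct {d} kk mu p * bn ι (M p) u d) : ℝ) : ℂ)) ∂ν) -
            Complex.exp (-((Wd : ℝ) : ℂ)) * ∫ M, X M ∂ν) +
          Complex.exp (-((Wd : ℝ) : ℂ)) * ((∫ M, X M ∂ν) -
            Complex.exp (-((wt c (ct A kk lam) (ct A kk mu) kk : ℝ) : ℂ))) := by ring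
      rw [hsplit]
      refine (norm_add_le _ _).trans ?_
      rw [norm_mul]
      have h4 : ‖Complex.exp (-((Wd : ℝ) : ℂ))‖ * ‖(∫ M, X M ∂ν) -
            Complex.exp (-((wt c (ct A kk lam) (ct A kk mu) kk : ℝ) : ℂ))‖ ≤
          2 * ((2 ^ A.card - 1) * ε') :=
        mul_le_mul hexp ih' (norm_nonneg _) (by norm_num)
      have h5 : (2 : ℝ) ^ (insert d A).card = 2 * 2 ^ A.card := by
        rw [Finset.card_insert_of_notMem hd, pow_succ]; ring
      rw [h5]
      nlinarith [hWd, h4]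
  have hfin := main (Finset.univ.image kk) (by
    intro d hd
    obtain ⟨p, -, rfl⟩ := Finset.mem_image.1 hd
    exact hkk p)
  have hct : ∀ w : T → ℝ, ct (Finset.univ.image kk) kk w = w := by
    intro w
    funext p
    unfold ct
    simp
  rw [hct lam, hct mu] at hfin
  refine hfin.trans ?_
  have h1 : (2 : ℝ) ^ (Finset.univ.image kk).card ≤ 2 ^ Fintype.card T := by
    refine pow_le_pow_right₀ (by norm_num) ?_
    exact Finset.card_image_le
  have h2 : ε' ≤ ε / 2 ^ Fintype.card T := min_le_right _ _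
  have h3 : (2 : ℝ) ^ Fintype.card T * ε' ≤ ε := by
    have h4 : (0 : ℝ) < 2 ^ Fintype.card T := by positivity
    calc (2 : ℝ) ^ Fintype.card T * ε' ≤ 2 ^ Fintype.card T * (ε / 2 ^ Fintype.card T) :=
          mul_le_mul_of_nonneg_left h2 h4.le
      _ = ε := by field_simp
  nlinarith [mul_le_mul_of_nonneg_right h1 hε'0.le]

end Pool.Agent.Lib.MP17fa2c
end
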