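import Pool.Agent.Lib.MP_17fa2c_pr.TD.SpecM
import Pool.Agent.Lib.MP_17fa2c_pr.TD.SpecK
import Pool.Agent.Lib.MP_17fa2c_pr.TD.SpecL

section
/-!
# MP_17fa2c_pr, module DL1: one step of the Dumitriu–Edelman law
-/
set_option autoImplicit false

open MeasureTheory ProbabilityTheory Filter Topology
open scoped RealInnerProductSpace NNReal ENNReal

namespace Pool.Agent.Lib.MP17fa2c

namespace DL1M

variable {ι : Type} [Fintype ι] [DecidableEq ι] {E : Type} [NormedAddCommGroup E]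
  [InnerProductSpace ℝ E] [FiniteDimensional ℝ E]

omit [FiniteDimensional ℝ E] in
theorem Jself (S : BStr ι E) (a : ι) (x : E) :
    ⟪x, S.J a x⟫ = if a = S.o then ‖x‖ ^ 2 else 0 := by
  split_ifs with h
  · rw [h, S.J_o, real_inner_self_eq_norm_sq]
  · have h1 := S.skew a h x x
    rw [real_inner_comm] at h1
    linarith

/-- The law of the new pair for a fixed projection and a fixed vector. -/
theorem pair_law [MeasurableSpace E] [BorelSpace E] (hGLF : SpecGLF) (hISO : SpecISO)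
    (hCHN : SpecCHN) (hIND : SpecIND) (hJON : SpecJON) (S : BStr ι E)
    (ν : Measure (Unit → E →L[ℝ] E)) (hν : GFam S (fun _ _ => 1) ν) (Q : E →L[ℝ] E)
    (hQ : IsPr S Q) (q : E) (hq : ‖q‖ = 1) (hQq : Q q = 0) (n : ℕ) (hn : tr Q = n) :
    ν.map (fun G : Unit → E →L[ℝ] E => (⟪q, G () q⟫, ‖Q (G () q)‖)) =
      (gaussianReal 0 2).prod (chi n) := by
  have := hν.gauss
  have hcq : cp Q q = q := by
    show q - Q q = q
    rw [hQq, sub_zero]
  have hcP : IsPr S (cp Q) := (hJON ι E S).2.2.1 Q hQ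
  -- measurability
  have hmX : Measurable (fun G : Unit → E →L[ℝ] E => ⟪q, G () q⟫) :=
    (by fun_prop : Continuous fun G : Unit → E →L[ℝ] E => ⟪q, G () q⟫).measurable
  have hmY : Measurable (fun G : Unit → E →L[ℝ] E => ‖Q (G () q)‖) :=
    (by fun_prop : Continuous fun G : Unit → E →L[ℝ] E => ‖Q (G () q)‖).measurable
  -- independence
  have hind := hIND ι E Unit S (fun _ _ => 1) ν hν Q hQ
  have hind2 : IndepFun (fun G : Unit → E →L[ℝ] E => ⟪q, G () q⟫)
      (fun G : Unit → E →L[ℝ] E => ‖Q (G () q)‖) ν := by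
    have h1 := hind.comp
      (φ := fun A : Unit → E →L[ℝ] E => ⟪q, A () q⟫)
      (ψ := fun A : Unit → E →L[ℝ] E => ‖A () q‖) hmX
      ((by fun_prop : Continuous fun G : Unit → E →L[ℝ] E => ‖G () q‖).measurable)
    have e1 : ((fun A : Unit → E →L[ℝ] E => ⟪q, A () q⟫) ∘
        fun G : Unit → E →L[ℝ] E => fun i => cp Q ∘L G i ∘L cp Q) =
        fun G : Unit → E →L[ℝ] E => ⟪q, G () q⟫ := by
      funext G
      show ⟪q, cp Q (G () (cp Q q))⟫ = ⟪q, G () q⟫
      rw [← hcP.1.1, hcq]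
    have e2 : ((fun A : Unit → E →L[ℝ] E => ‖A () q‖) ∘
        fun G : Unit → E →L[ℝ] E => fun i => Q ∘L G i ∘L cp Q) =
        fun G : Unit → E →L[ℝ] E => ‖Q (G () q)‖ := by
      funext G
      show ‖Q (G () (cp Q q))‖ = ‖Q (G () q)‖
      rw [hcq]
    rw [e1, e2] at h1
    exact h1
  have hprod := (indepFun_iff_map_prod_eq_prod_map_map hmX.aemeasurable
    hmY.aemeasurable).mp hind2
  rw [hprod]
  congr 1
  · -- the Gaussian
    obtain ⟨-, h1⟩ := hGLF ι E Unit S (fun _ _ => 1) ν hν Unit (fun _ => ()) (fun _ => q)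
      (fun _ => q) _ rfl
    have h2 : ∑ _k : Unit, ∑ _k' : Unit, (1 : ℝ) * ∑ a, (⟪q, S.J a q⟫ * ⟪q, S.J a q⟫ +
        ⟪q, S.J a q⟫ * ⟪q, S.J a q⟫) = 2 := by
      rw [Finset.univ_unique, Finset.sum_singleton, Finset.sum_singleton, one_mul,
        Finset.sum_eq_single S.o]
      · rw [Jself, if_pos rfl, hq]
        norm_num
      · intro a _ ha
        rw [Jself, if_neg ha]
        ring
      · intro h
        exact absurd (Finset.mem_univ _) h
    rw [h2] at h1
    have h3 : (fun G : Unit → E →L[ℝ] E => ∑ _k : Unit, ⟪q, G () q⟫) =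
        fun G : Unit → E →L[ℝ] E => ⟪q, G () q⟫ := by
      funext G
      simp
    rw [h3] at h1
    rw [h1]
    congr 1
    simp
  · -- the chi law
    obtain ⟨-, h1⟩ := hISO ι E Unit S (fun _ _ => 1) ν hν (fun _ _ => rfl) Q (fun _ => q) hQ
      (fun _ => hQq)
    have h2 : ∑ _i : Unit, ∑ _l : Unit, (1 : ℝ) * ⟪q, q⟫ = 1 := by
      rw [real_inner_self_eq_norm_sq, hq]
      simp
    rw [h2, Real.sqrt_one] at h1
    have h3 : (fun G : Unit → E →L[ℝ] E => ∑ i : Unit, Q (G i q)) =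
        fun G : Unit → E →L[ℝ] E => Q (G () q) := by
      funext G
      simp
    rw [h3] at h1
    have hm1 : Measurable (fun G : Unit → E →L[ℝ] E => Q (G () q)) :=
      (by fun_prop : Continuous fun G : Unit → E →L[ℝ] E => Q (G () q)).measurable
    have h4 : ν.map (fun G : Unit → E →L[ℝ] E => ‖Q (G () q)‖) =
        (ν.map (fun G : Unit → E →L[ℝ] E => Q (G () q))).map (fun x => ‖x‖) := by
      rw [Measure.map_map measurable_norm hm1]
      rfl
    rw [h4, h1, Measure.map_map measurable_norm (by fun_prop)]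
    have h5 := (hCHN E Q n hQ.1.1 hQ.2 hn).1
    unfold chi
    rw [← h5]
    congr 1
    funext x
    simp

end DL1M

open DL1M in
theorem specDL1 (hRPE : SpecRPE) (hKNO : SpecKNO) (hEXO : SpecEXO) (hEXP : SpecEXP)
    (hTRA : SpecTRA) (hIND : SpecIND) (hGLF : SpecGLF) (hISO : SpecISO) (hCHN : SpecCHN)
    (hJON : SpecJON) (hMEA : SpecMEA) : SpecDL1 := by
  intro ι _ _ E _ _ _ S u ν hν hu K hK hb F hF
  let _ : MeasurableSpace E := borel E
  have : BorelSpace E := ⟨rfl⟩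
  have := hν.gauss
  set Φ : (Unit → E →L[ℝ] E) → ℝ≥0∞ := fun M =>
    F (fun j : Fin K => (av (M ()) u j, bv (M ()) u j), (av (M ()) u K, bv (M ()) u K)) with hΦ
  have hm : ∀ j : ℕ, Measurable (fun M : Unit → E →L[ℝ] E => (av (M ()) u j, bv (M ()) u j)) := by
    intro j
    obtain ⟨-, -, ma, mb, -, -⟩ := hMEA ι E Unit S u j
    exact (ma ()).prodMk (mb ())
  have hΦm : Measurable Φ :=
    hF.comp ((measurable_pi_lambda _ fun j : Fin K => hm j).prodMk (hm K))
  rw [hRPE ι E Unit S (fun _ _ => 1) ν u hν K Φ hΦm]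
  apply lintegral_congr_ae
  filter_upwards [hν.herm, hb] with M hM hbM
  obtain ⟨x1, x2, x3, -⟩ := hEXO ι E S u M K hM hu hbM
  obtain ⟨p1, p2, -, -⟩ := hEXP ι E Unit S u M (K + 1)
  obtain ⟨r1, -, -, -⟩ := hEXP ι E Unit S u M K
  set q : E := qv (M ()) u K with hqdef
  set P : E →L[ℝ] E := expl S u M K with hP
  set P' : E →L[ℝ] E := expl S u M (K + 1) with hP'
  set Q : E →L[ℝ] E := cp P' with hQdef
  have hQ : IsPr S Q := (hJON ι E S).2.2.1 P' p1
  have hP'q : P' q = q := (hEXP ι E Unit S u M (K + 1)).2.2.1 K (Nat.lt_succ_self K) ()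
  have hQq : Q q = 0 := by
    show q - P' q = 0
    rw [hP'q, sub_self]
  have hQP : ∀ x, Q (P x) = 0 := by
    intro x
    show P x - P' (P x) = 0
    rw [(p2 K (Nat.le_succ K) x).2, sub_self]
  have htrQ : tr Q = ((Module.finrank ℝ E - Fintype.card ι * (K + 1) : ℕ) : ℝ) := by
    rw [(hTRA ι E S P' p1).2.2.1, x3, Nat.cast_sub hK]
    unfold dm
    push_cast
    ring
  have hlaw := pair_law hGLF hISO hCHN hIND hJON S ν hν Q hQ q x2 hQq _ htrQ
  have hpt : ∀ᵐ G ∂ν, Φ (res P M G) =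
      F (fun j : Fin K => (av (M ()) u j, bv (M ()) u j), (⟪q, G () q⟫, ‖Q (G () q)‖)) := by
    filter_upwards [hν.herm] with G hG
    obtain ⟨k1, -, k3, k4, k5⟩ := hKNO ι E Unit S u M G K hM hG
    rw [← hP] at k1 k3 k4 k5
    have hq' : qv (res P M G ()) u K = q := by
      show (lan (res P M G ()) u K).2 = (lan (M ()) u K).2
      rw [k3 K le_rfl ()]
    have hb' : ∀ l < K, bv (res P M G ()) u l ≠ 0 := by
      intro l hl
      rw [(k5 l hl ()).2]
      exact hbM l hl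
    obtain ⟨-, -, -, y4⟩ := hEXO ι E S u (res P M G) K k1 hu hb'
    have hres : res P M G () q = P (M () q) + cp P (G () q) := by
      show M () q - cp P (M () (cp P q)) + cp P (G () (cp P q)) = _
      have hc : cp P q = q := by
        show q - P q = q
        rw [x1, sub_zero]
      rw [hc]
      show M () q - (M () q - P (M () q)) + cp P (G () q) = _
      abel
    have ha : av (res P M G ()) u K = ⟪q, G () q⟫ := by
      show ⟪qv (res P M G ()) u K, res P M G () (qv (res P M G ()) u K)⟫ = _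
      rw [hq', hres]
      show ⟪q, P (M () q) + (G () q - P (G () q))⟫ = _
      rw [inner_add_right, inner_sub_right, ← r1.1.1, ← r1.1.1, x1, inner_zero_left,
        inner_zero_left]
      ring
    have hbb : bv (res P M G ()) u K = ‖Q (G () q)‖ := by
      rw [y4, k4 (K + 1) le_rfl, hq', hres]
      show ‖Q (P (M () q) + (G () q - P (G () q)))‖ = _
      rw [map_add, map_sub, hQP, hQP, sub_zero, zero_add]
    rw [hΦ]
    show F (fun j : Fin K => (av (res P M G ()) u j, bv (res P M G ()) u j),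
      (av (res P M G ()) u K, bv (res P M G ()) u K)) = _
    rw [ha, hbb]
    congr 2
    funext j
    rw [(k5 j j.2 ()).1, (k5 j j.2 ()).2]
  rw [lintegral_congr_ae hpt, ← hlaw, lintegral_map]
  · exact hF.comp (measurable_const.prodMk measurable_id)
  · exact (by fun_prop : Continuous fun G : Unit → E →L[ℝ] E =>
      (⟪q, G () q⟫, ‖Q (G () q)‖)).measurable

end Pool.Agent.Lib.MP17fa2c
end

section
/-!
# MP_17fa2c_pr, module EXA: exponential moments of the largest partial sum of the `a_i`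
-/
set_option autoImplicit false

open MeasureTheory ProbabilityTheory Filter Topology
open scoped RealInnerProductSpace NNReal ENNReal

namespace Pool.Agent.Lib.MP17fa2c

namespace EXAM

instance chi_prob (N : ℕ) : IsProbabilityMeasure (chi N) := by
  unfold chi
  exact Measure.isProbabilityMeasure_map (by fun_prop)

/-- Jensen for a power `≤ 1`. -/
theorem jensen {α : Type*} [MeasurableSpace α] (μ : Measure α) [IsProbabilityMeasure μ]
    (Y : α → ℝ≥0∞) (hY : Measurable Y) (p : ℝ) (hp : 0 < p) (hp1 : p ≤ 1) :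
    ∫⁻ w, Y w ^ p ∂μ ≤ (∫⁻ w, Y w ∂μ) ^ p := by
  have h := eLpNorm'_le_eLpNorm'_of_exponent_le (f := Y) hp hp1 μ hY.aestronglyMeasurable
  simp only [eLpNorm'_eq_lintegral_enorm, enorm_eq_self, ENNReal.rpow_one, one_div, inv_one] at h
  have h2 := ENNReal.rpow_le_rpow h hp.le
  rwa [← ENNReal.rpow_mul, inv_mul_cancel₀ hp.ne', ENNReal.rpow_one] at h2

/-- The integral of a product of functions of the coordinates. -/
theorem lint_prod {ι β : Type*} [Fintype ι] [MeasurableSpace β] (μ : ι → Measure β)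
    [∀ j, IsProbabilityMeasure (μ j)] (f : ι → β → ℝ≥0∞) (hf : ∀ j, Measurable (f j)) :
    ∫⁻ w, ∏ j, f j (w j) ∂(Measure.pi μ) = ∏ j, ∫⁻ z, f j z ∂(μ j) := by
  have h := lintegral_prod_eq_prod_lintegral_of_indepFun (μ := Measure.pi μ) Finset.univ
    (fun j (w : ι → β) => f j (w j))
    (iIndepFun_pi (X := f) (fun j => (hf j).aemeasurable))
    (fun j => (hf j).comp (measurable_pi_apply j))
  rw [h]
  refine Finset.prod_congr rfl (fun j _ => ?_)
  have hmp := measurePreserving_eval μ j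
  have h2 := hmp.lintegral_comp (hf j)
  exact h2

theorem xa_sum {K : ℕ} (R : ℝ) (w : Fin K → ℝ × ℝ) (l : ℕ) (hl : l ≤ K) :
    ∑ i ∈ Finset.range l, xa w i / Real.sqrt R =
      ∑ j : Fin K, if (j : ℕ) < l then (w j).1 / Real.sqrt R else 0 := by
  have h1 : ∑ j : Fin K, (if (j : ℕ) < l then (w j).1 / Real.sqrt R else 0) =
      ∑ i ∈ Finset.range K, if i < l then xa w i / Real.sqrt R else 0 := by
    rw [Finset.sum_range]
    refine Finset.sum_congr rfl (fun j _ => ?_)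
    simp [xa]
  rw [h1, ← Finset.sum_filter]
  congr 1
  ext i
  simp only [Finset.mem_range, Finset.mem_filter]
  omega

/-- One-dimensional exponential moment. -/
theorem one_dim (s : ℝ) : ∫⁻ x, ENNReal.ofReal (Real.exp (s * x)) ∂(gaussianReal 0 2) =
    ENNReal.ofReal (Real.exp (s ^ 2)) := by
  rw [← ofReal_integral_eq_lintegral_ofReal (integrable_exp_mul_gaussianReal s)
    (Eventually.of_forall fun x => (Real.exp_pos _).le)]
  congr 1
  have h := mgf_gaussianReal (p := gaussianReal 0 2) (X := fun x : ℝ => x) (μ := 0) (v := 2)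
    (by simp) s
  rw [mgf] at h
  rw [h]
  congr 1
  simp only [NNReal.coe_ofNat]
  ring

theorem factor (N : ℕ) (s R : ℝ) (hR : 0 < R) :
    ∫⁻ z, ENNReal.ofReal (Real.exp (s * (z.1 / Real.sqrt R)))
      ∂((gaussianReal 0 2).prod (chi N)) = ENNReal.ofReal (Real.exp (s ^ 2 / R)) := by
  rw [lintegral_prod _ (by fun_prop)]
  simp only [lintegral_const, measure_univ, mul_one]
  have h := one_dim (s / Real.sqrt R)
  have e : (s / Real.sqrt R) ^ 2 = s ^ 2 / R := by
    rw [div_pow, Real.sq_sqrt hR.le]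
  rw [e] at h
  rw [← h]
  refine lintegral_congr (fun x => ?_)
  congr 2
  ring

/-- Exponential moment of a partial sum. -/
theorem partial_sum (N : ℕ → ℕ) (K : ℕ) (R s : ℝ) (hR : 0 < R) (l : ℕ) (hl : l ≤ K) :
    ∫⁻ w, ENNReal.ofReal (Real.exp (s * ∑ i ∈ Finset.range l, xa w i / Real.sqrt R))
      ∂(deLaw N K) ≤ ENNReal.ofReal (Real.exp (s ^ 2 * K / R)) := by
  have h1 : ∀ w : Fin K → ℝ × ℝ,
      ENNReal.ofReal (Real.exp (s * ∑ i ∈ Finset.range l, xa w i / Real.sqrt R)) =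
      ∏ j : Fin K, ENNReal.ofReal (Real.exp (s * (if (j : ℕ) < l then (w j).1 / Real.sqrt R
        else 0))) := by
    intro w
    rw [xa_sum R w l hl, Finset.mul_sum, Real.exp_sum,
      ENNReal.ofReal_prod_of_nonneg (fun _ _ => (Real.exp_pos _).le)]
  simp only [h1]
  unfold deLaw
  rw [lint_prod (fun j : Fin K => (gaussianReal 0 2).prod (chi (N j)))
    (fun (j : Fin K) (z : ℝ × ℝ) => ENNReal.ofReal (Real.exp (s * (if (j : ℕ) < l then
      z.1 / Real.sqrt R else 0)))) (fun j => by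
        by_cases hj : (j : ℕ) < l
        · simp only [hj, if_true]
          fun_prop
        · simp only [hj, if_false]
          fun_prop)]
  have h2 : ENNReal.ofReal (Real.exp (s ^ 2 * K / R)) =
      ∏ _j : Fin K, ENNReal.ofReal (Real.exp (s ^ 2 / R)) := by
    rw [Finset.prod_const, Finset.card_univ, Fintype.card_fin,
      ← ENNReal.ofReal_pow (Real.exp_pos _).le, ← Real.exp_nat_mul]
    congr 2
    ring
  rw [h2]
  refine Finset.prod_le_prod' (fun j _ => ?_)
  by_cases hj : (j : ℕ) < l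
  · simp only [hj, if_true]
    exact (factor (N j) s R hR).le
  · simp only [hj, if_false, mul_zero, Real.exp_zero, ENNReal.ofReal_one, lintegral_const,
      measure_univ, mul_one]
    rw [← ENNReal.ofReal_one]
    apply ENNReal.ofReal_le_ofReal
    exact Real.one_le_exp (by positivity)

theorem xa_meas {K : ℕ} (i : ℕ) : Measurable (fun w : Fin K → ℝ × ℝ => xa w i) := by
  unfold xa
  by_cases h : i < K
  · simp only [h, dif_pos]
    fun_prop
  · simp only [h, dif_neg, not_false_eq_true]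
    fun_prop

theorem rpow_hundred (y : ℝ) : ENNReal.ofReal (Real.exp y) =
    ENNReal.ofReal (Real.exp (100 * y)) ^ (1 / 100 : ℝ) := by
  rw [ENNReal.ofReal_rpow_of_pos (Real.exp_pos _), ← Real.exp_mul]
  congr 2
  ring

end EXAM

/-- Module EXA. -/
theorem specEXA : SpecEXA := by
  intro K R t N hR ht
  have : IsProbabilityMeasure (deLaw N K) := by
    unfold deLaw
    infer_instance
  set Y : (Fin K → ℝ × ℝ) → ℝ≥0∞ := fun w => ∑ l ∈ Finset.range (K + 1),
    (ENNReal.ofReal (Real.exp ((100 * t) * ∑ i ∈ Finset.range l, xa w i / Real.sqrt R)) +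
      ENNReal.ofReal (Real.exp ((-(100 * t)) * ∑ i ∈ Finset.range l, xa w i / Real.sqrt R)))
    with hYdef
  have hm : ∀ (s : ℝ) (l : ℕ), Measurable (fun w : Fin K → ℝ × ℝ =>
      ENNReal.ofReal (Real.exp (s * ∑ i ∈ Finset.range l, xa w i / Real.sqrt R))) := by
    intro s l
    have h1 : Measurable (fun w : Fin K → ℝ × ℝ =>
        ∑ i ∈ Finset.range l, xa w i / Real.sqrt R) :=
      Finset.measurable_fun_sum _ (fun i _ => (EXAM.xa_meas i).div_const _)
    exact ((h1.const_mul s).exp).ennreal_ofReal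
  have hY : Measurable Y :=
    Finset.measurable_fun_sum _ (fun l _ => (hm _ l).add (hm _ l))
  have hpt : ∀ w : Fin K → ℝ × ℝ, ENNReal.ofReal (Real.exp (t * sma K R (xa w))) ≤
      Y w ^ (1 / 100 : ℝ) := by
    intro w
    rw [EXAM.rpow_hundred]
    apply ENNReal.rpow_le_rpow _ (by norm_num)
    obtain ⟨l, hl, hle⟩ := Finset.exists_mem_eq_sup' (s := Finset.range (K + 1)) ⟨0, by simp⟩
      (fun l => |∑ i ∈ Finset.range l, xa w i / Real.sqrt R|)
    have hs : sma K R (xa w) = |∑ i ∈ Finset.range l, xa w i / Real.sqrt R| := hle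
    rw [hs]
    refine le_trans ?_ (Finset.single_le_sum (f := fun l =>
      (ENNReal.ofReal (Real.exp ((100 * t) * ∑ i ∈ Finset.range l, xa w i / Real.sqrt R)) +
      ENNReal.ofReal (Real.exp ((-(100 * t)) * ∑ i ∈ Finset.range l, xa w i / Real.sqrt R))))
      (fun _ _ => bot_le) hl)
    rcases abs_cases (∑ i ∈ Finset.range l, xa w i / Real.sqrt R) with ⟨h, _⟩ | ⟨h, _⟩
    · rw [h]
      refine le_trans ?_ le_self_add
      apply le_of_eq
      congr 2
      ring
    · rw [h]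
      refine le_trans ?_ le_add_self
      apply le_of_eq
      congr 2
      ring
  calc ∫⁻ w, ENNReal.ofReal (Real.exp (t * sma K R (xa w))) ∂(deLaw N K)
      ≤ ∫⁻ w, Y w ^ (1 / 100 : ℝ) ∂(deLaw N K) := lintegral_mono hpt
    _ ≤ (∫⁻ w, Y w ∂(deLaw N K)) ^ (1 / 100 : ℝ) :=
        EXAM.jensen _ Y hY _ (by norm_num) (by norm_num)
    _ ≤ (ENNReal.ofReal (2 * ((K : ℝ) + 1) * Real.exp ((100 * t) ^ 2 * K / R))) ^
        (1 / 100 : ℝ) := by
        apply ENNReal.rpow_le_rpow _ (by norm_num)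
        have e : ∫⁻ w, Y w ∂(deLaw N K) = ∑ l ∈ Finset.range (K + 1),
            ∫⁻ w, (ENNReal.ofReal (Real.exp ((100 * t) *
              ∑ i ∈ Finset.range l, xa w i / Real.sqrt R)) +
              ENNReal.ofReal (Real.exp ((-(100 * t)) *
              ∑ i ∈ Finset.range l, xa w i / Real.sqrt R))) ∂(deLaw N K) :=
          lintegral_finsetSum _ (fun l _ => (hm _ l).add (hm _ l))
        rw [e]
        calc ∑ l ∈ Finset.range (K + 1), ∫⁻ w, (ENNReal.ofReal (Real.exp ((100 * t) *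
              ∑ i ∈ Finset.range l, xa w i / Real.sqrt R)) +
              ENNReal.ofReal (Real.exp ((-(100 * t)) *
              ∑ i ∈ Finset.range l, xa w i / Real.sqrt R))) ∂(deLaw N K)
            ≤ ∑ _l ∈ Finset.range (K + 1),
              ENNReal.ofReal (2 * Real.exp ((100 * t) ^ 2 * K / R)) := by
              refine Finset.sum_le_sum (fun l hl => ?_)
              have hlK : l ≤ K := by
                have := Finset.mem_range.1 hl
                omega
              rw [lintegral_add_left (hm _ l), two_mul,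
                ENNReal.ofReal_add (Real.exp_pos _).le (Real.exp_pos _).le]
              refine add_le_add (EXAM.partial_sum N K R _ hR l hlK) ?_
              have := EXAM.partial_sum N K R (-(100 * t)) hR l hlK
              rwa [neg_sq] at this
          _ = ENNReal.ofReal (2 * ((K : ℝ) + 1) * Real.exp ((100 * t) ^ 2 * K / R)) := by
              rw [Finset.sum_const, Finset.card_range, nsmul_eq_mul,
                ← ENNReal.ofReal_natCast (K + 1), ← ENNReal.ofReal_mul (by positivity)]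
              congr 1
              push_cast
              ring
    _ = ENNReal.ofReal ((2 * ((K : ℝ) + 1)) ^ (1 / 100 : ℝ) *
        Real.exp (100 * t ^ 2 * K / R)) := by
        rw [ENNReal.ofReal_rpow_of_nonneg (by positivity) (by norm_num),
          Real.mul_rpow (by positivity) (by positivity), ← Real.exp_mul]
        congr 3
        ring

end Pool.Agent.Lib.MP17fa2c
end

section
/-!
# MP_17fa2c_pr, module EXC: exponential moments of the largest partial sum of the `b_i² / D - 1`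
-/
set_option autoImplicit false

open MeasureTheory ProbabilityTheory Filter Topology
open scoped RealInnerProductSpace NNReal ENNReal

namespace Pool.Agent.Lib.MP17fa2c

namespace EXCM

instance chi_prob (N : ℕ) : IsProbabilityMeasure (chi N) := by
  unfold chi
  exact Measure.isProbabilityMeasure_map (by fun_prop)

/-- Jensen for a power `≤ 1`. -/
theorem jensen {α : Type*} [MeasurableSpace α] (μ : Measure α) [IsProbabilityMeasure μ]
    (Y : α → ℝ≥0∞) (hY : Measurable Y) (p : ℝ) (hp : 0 < p) (hp1 : p ≤ 1) :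
    ∫⁻ w, Y w ^ p ∂μ ≤ (∫⁻ w, Y w ∂μ) ^ p := by
  have h := eLpNorm'_le_eLpNorm'_of_exponent_le (f := Y) hp hp1 μ hY.aestronglyMeasurable
  simp only [eLpNorm'_eq_lintegral_enorm, enorm_eq_self, ENNReal.rpow_one, one_div, inv_one] at h
  have h2 := ENNReal.rpow_le_rpow h hp.le
  rwa [← ENNReal.rpow_mul, inv_mul_cancel₀ hp.ne', ENNReal.rpow_one] at h2

/-- The integral of a product of functions of the coordinates. -/
theorem lint_prod {ι β : Type*} [Fintype ι] [MeasurableSpace β] (μ : ι → Measure β)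
    [∀ j, IsProbabilityMeasure (μ j)] (f : ι → β → ℝ≥0∞) (hf : ∀ j, Measurable (f j)) :
    ∫⁻ w, ∏ j, f j (w j) ∂(Measure.pi μ) = ∏ j, ∫⁻ z, f j z ∂(μ j) := by
  have h := lintegral_prod_eq_prod_lintegral_of_indepFun (μ := Measure.pi μ) Finset.univ
    (fun j (w : ι → β) => f j (w j))
    (iIndepFun_pi (X := f) (fun j => (hf j).aemeasurable))
    (fun j => (hf j).comp (measurable_pi_apply j))
  rw [h]
  refine Finset.prod_congr rfl (fun j _ => ?_)
  have hmp := measurePreserving_eval μ j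
  have h2 := hmp.lintegral_comp (hf j)
  exact h2

theorem xb_sum {K : ℕ} (R : ℝ) (w : Fin K → ℝ × ℝ) (l : ℕ) (hl : l ≤ K) :
    ∑ i ∈ Finset.range l, (xb w i ^ 2 / R - 1) =
      ∑ j : Fin K, if (j : ℕ) < l then ((w j).2 ^ 2 / R - 1) else 0 := by
  have h1 : ∑ j : Fin K, (if (j : ℕ) < l then ((w j).2 ^ 2 / R - 1) else 0) =
      ∑ i ∈ Finset.range K, if i < l then (xb w i ^ 2 / R - 1) else 0 := by
    rw [Finset.sum_range]
    refine Finset.sum_congr rfl (fun j _ => ?_)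
    simp [xb]
  rw [h1, ← Finset.sum_filter]
  congr 1
  ext i
  simp only [Finset.mem_range, Finset.mem_filter]
  omega

/-- `-log (1 - x) ≤ x + x²` for `|x| ≤ 1/2`. -/
theorem log_bd (x : ℝ) (hx : |x| ≤ 1 / 2) : -Real.log (1 - x) ≤ x + x ^ 2 := by
  have h1 := Real.abs_log_sub_add_sum_range_le (x := x) (by linarith) 4
  have h2 : |x| ^ (4 + 1) / (1 - |x|) ≤ 2 * |x| ^ 5 := by
    rw [div_le_iff₀ (by linarith)]
    have h0 : 0 ≤ |x| ^ 5 := by positivity
    have h1 := mul_nonneg h0 (show 0 ≤ 1 / 2 - |x| by linarith)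
    have h2 : |x| ^ (4 + 1) = |x| ^ 5 := rfl
    rw [h2]
    nlinarith
  have h3 := (abs_le.mp (h1.trans h2)).1
  simp only [Finset.sum_range_succ, Finset.sum_range_zero] at h3
  norm_num at h3
  have hy0 : 0 ≤ |x| := abs_nonneg x
  have h4 : x ^ 2 = |x| ^ 2 := (sq_abs x).symm
  have h5 : x ^ 3 ≤ |x| ^ 3 := by rw [← abs_pow]; exact le_abs_self _
  have h6 : x ^ 4 = |x| ^ 4 := by
    rw [← abs_pow]; exact (abs_of_nonneg (by positivity)).symm
  have h7 : |x| ^ 3 ≤ 1 / 2 * |x| ^ 2 := by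
    have : 0 ≤ |x| ^ 2 := by positivity
    calc |x| ^ 3 = |x| * |x| ^ 2 := by ring
      _ ≤ 1 / 2 * |x| ^ 2 := mul_le_mul_of_nonneg_right hx this
  have h8 : |x| ^ 4 ≤ 1 / 4 * |x| ^ 2 := by
    calc |x| ^ 4 = |x| * |x| ^ 3 := by ring
      _ ≤ 1 / 2 * (1 / 2 * |x| ^ 2) := mul_le_mul hx h7 (by positivity) (by norm_num)
      _ = _ := by ring
  have h9 : |x| ^ 5 ≤ 1 / 8 * |x| ^ 2 := by
    calc |x| ^ 5 = |x| * |x| ^ 4 := by ring
      _ ≤ 1 / 2 * (1 / 4 * |x| ^ 2) := mul_le_mul hx h8 (by positivity) (by norm_num)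
      _ = _ := by ring
  have h10 : 0 ≤ |x| ^ 2 := by positivity
  rw [h4]
  rw [h4, h6] at h3
  linarith

/-- One-dimensional exponential moment. -/
theorem one_dim (hMGC : SpecMGC) (N D : ℕ) (s : ℝ) (hD : 0 < D) (hN : N ≤ D)
    (hs : 4 * |s| ≤ D) : ∫⁻ b, ENNReal.ofReal (Real.exp (s * (b ^ 2 / D - 1))) ∂(chi N) ≤
    ENNReal.ofReal (Real.exp (|s| * ((D : ℝ) - N) / D + 2 * s ^ 2 / D)) := by
  have hDr : (0 : ℝ) < D := by exact_mod_cast hD
  have hNr : (N : ℝ) ≤ D := by exact_mod_cast hN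
  have hN0 : (0 : ℝ) ≤ N := Nat.cast_nonneg _
  set θ : ℝ := s / D with hθ
  have hθa : |θ| ≤ 1 / 4 := by
    rw [hθ, abs_div, abs_of_pos hDr, div_le_iff₀ hDr]
    linarith
  have hθ2 : θ < 1 / 2 := by linarith [le_abs_self θ]
  have h1 : ∫⁻ b, ENNReal.ofReal (Real.exp (s * (b ^ 2 / D - 1))) ∂(chi N) =
      ENNReal.ofReal (Real.exp (-s)) * ENNReal.ofReal ((1 - 2 * θ) ^ (-(N : ℝ) / 2)) := by
    rw [← hMGC N θ hθ2, ← lintegral_const_mul' _ _ ENNReal.ofReal_ne_top]
    refine lintegral_congr fun b => ?_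
    rw [← ENNReal.ofReal_mul (Real.exp_pos _).le, ← Real.exp_add]
    congr 2
    rw [hθ]
    ring
  rw [h1, ← ENNReal.ofReal_mul (Real.exp_pos _).le]
  apply ENNReal.ofReal_le_ofReal
  have h2 : 0 < 1 - 2 * θ := by linarith
  rw [Real.rpow_def_of_pos h2, ← Real.exp_add]
  apply Real.exp_le_exp.mpr
  have h3 := log_bd (2 * θ) (by rw [abs_mul, abs_two]; linarith)
  have h4 : Real.log (1 - 2 * θ) * (-(N : ℝ) / 2) ≤ (N : ℝ) / 2 * (2 * θ + (2 * θ) ^ 2) := by
    have := mul_le_mul_of_nonneg_left h3 (by positivity : (0 : ℝ) ≤ N / 2)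
    linarith
  have h5 : (N : ℝ) / 2 * (2 * θ + (2 * θ) ^ 2) = N * s / D + 2 * (N / D) * (s ^ 2 / D) := by
    rw [hθ]; field_simp
  have h6 : (N : ℝ) / D ≤ 1 := by rw [div_le_one hDr]; exact hNr
  have h7 : 0 ≤ s ^ 2 / D := by positivity
  have h8 : 2 * ((N : ℝ) / D) * (s ^ 2 / D) ≤ 2 * (s ^ 2 / D) := by nlinarith
  have h9 : -s + N * s / D ≤ |s| * ((D : ℝ) - N) / D := by
    have h10 : -s + N * s / D = (-s) * ((D : ℝ) - N) / D := by field_simp; ring
    rw [h10]
    apply div_le_div_of_nonneg_right _ hDr.le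
    exact mul_le_mul_of_nonneg_right (neg_le_abs s) (by linarith)
  have h11 : 2 * s ^ 2 / D = 2 * (s ^ 2 / (D : ℝ)) := by ring
  rw [h11]
  linarith

theorem factor (hMGC : SpecMGC) (N D : ℕ) (s : ℝ) (hD : 0 < D) (hN : N ≤ D)
    (hs : 4 * |s| ≤ D) :
    ∫⁻ z, ENNReal.ofReal (Real.exp (s * (z.2 ^ 2 / (D : ℝ) - 1)))
      ∂((gaussianReal 0 2).prod (chi N)) ≤
    ENNReal.ofReal (Real.exp (|s| * ((D : ℝ) - N) / D + 2 * s ^ 2 / D)) := by
  rw [lintegral_prod _ (by fun_prop)]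
  simp only [lintegral_const, measure_univ, mul_one]
  exact one_dim hMGC N D s hD hN hs

/-- Exponential moment of a sum. -/
theorem partial_sum (hMGC : SpecMGC) (β K D : ℕ) (s : ℝ) (hβ : β * K ≤ D) (hD : 0 < D)
    (hs : 4 * |s| ≤ D) (l : ℕ) (hl : l ≤ K) :
    ∫⁻ w, ENNReal.ofReal (Real.exp (s * ∑ i ∈ Finset.range l, (xb w i ^ 2 / (D : ℝ) - 1)))
      ∂(deLaw (fun j => D - β * (j + 1)) K) ≤
      ENNReal.ofReal (Real.exp (|s| * β * K ^ 2 / D + 2 * s ^ 2 * K / D)) := by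
  have hDr : (0 : ℝ) < D := by exact_mod_cast hD
  have h1 : ∀ w : Fin K → ℝ × ℝ,
      ENNReal.ofReal (Real.exp (s * ∑ i ∈ Finset.range l, (xb w i ^ 2 / (D : ℝ) - 1))) =
      ∏ j : Fin K, ENNReal.ofReal (Real.exp (s * (if (j : ℕ) < l then
        ((w j).2 ^ 2 / (D : ℝ) - 1) else 0))) := by
    intro w
    rw [xb_sum (D : ℝ) w l hl, Finset.mul_sum, Real.exp_sum,
      ENNReal.ofReal_prod_of_nonneg (fun _ _ => (Real.exp_pos _).le)]
  simp only [h1]
  unfold deLaw
  rw [lint_prod (fun j : Fin K => (gaussianReal 0 2).prod (chi (D - β * (j + 1))))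
    (fun (j : Fin K) (z : ℝ × ℝ) => ENNReal.ofReal (Real.exp (s * (if (j : ℕ) < l then
      (z.2 ^ 2 / (D : ℝ) - 1) else 0)))) (fun j => by
        by_cases hj : (j : ℕ) < l
        · simp only [hj, if_true]
          fun_prop
        · simp only [hj, if_false]
          fun_prop)]
  have hfac : ∀ j : Fin K, ∫⁻ z : ℝ × ℝ, ENNReal.ofReal (Real.exp (s * (if (j : ℕ) < l then
      (z.2 ^ 2 / (D : ℝ) - 1) else 0))) ∂((gaussianReal 0 2).prod (chi (D - β * (j + 1)))) ≤
      ENNReal.ofReal (Real.exp (|s| * β * K / D + 2 * s ^ 2 / D)) := by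
    intro j
    by_cases hj : (j : ℕ) < l
    · simp only [hj, if_true]
      refine (factor hMGC (D - β * (j + 1)) D s hD (Nat.sub_le _ _) hs).trans ?_
      apply ENNReal.ofReal_le_ofReal
      apply Real.exp_le_exp.mpr
      have h2 : β * ((j : ℕ) + 1) ≤ β * K := Nat.mul_le_mul_left _ j.2
      have h3 : ((D - β * ((j : ℕ) + 1) : ℕ) : ℝ) = (D : ℝ) - β * ((j : ℝ) + 1) := by
        rw [Nat.cast_sub (h2.trans hβ)]
        push_cast
        ring
      rw [h3]
      have h4 : (D : ℝ) - (D - β * ((j : ℝ) + 1)) ≤ β * K := by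
        have : ((β * ((j : ℕ) + 1) : ℕ) : ℝ) ≤ ((β * K : ℕ) : ℝ) := by exact_mod_cast h2
        push_cast at this
        linarith
      have h5 : |s| * ((D : ℝ) - (D - β * ((j : ℝ) + 1))) / D ≤ |s| * β * K / D := by
        apply div_le_div_of_nonneg_right _ hDr.le
        rw [mul_assoc]
        exact mul_le_mul_of_nonneg_left h4 (abs_nonneg s)
      linarith
    · simp only [hj, if_false, mul_zero, Real.exp_zero, ENNReal.ofReal_one, lintegral_const,
        measure_univ, mul_one]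
      rw [← ENNReal.ofReal_one]
      apply ENNReal.ofReal_le_ofReal
      exact Real.one_le_exp (by positivity)
  have h2 : ENNReal.ofReal (Real.exp (|s| * β * K ^ 2 / D + 2 * s ^ 2 * K / D)) =
      ∏ _j : Fin K, ENNReal.ofReal (Real.exp (|s| * β * K / D + 2 * s ^ 2 / D)) := by
    rw [Finset.prod_const, Finset.card_univ, Fintype.card_fin,
      ← ENNReal.ofReal_pow (Real.exp_pos _).le, ← Real.exp_nat_mul]
    congr 2
    ring
  rw [h2]
  exact Finset.prod_le_prod' (fun j _ => hfac j)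

theorem xb_meas {K : ℕ} (i : ℕ) : Measurable (fun w : Fin K → ℝ × ℝ => xb w i) := by
  unfold xb
  by_cases h : i < K
  · simp only [h, dif_pos]
    fun_prop
  · simp only [h, dif_neg, not_false_eq_true]
    fun_prop

theorem rpow_hundred (y : ℝ) : ENNReal.ofReal (Real.exp y) =
    ENNReal.ofReal (Real.exp (100 * y)) ^ (1 / 100 : ℝ) := by
  rw [ENNReal.ofReal_rpow_of_pos (Real.exp_pos _), ← Real.exp_mul]
  congr 2
  ring

end EXCM

/-- Module EXC. -/
theorem specEXC (hMGC : SpecMGC) : SpecEXC := by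
  intro β K D t ht htD hβ hD
  have hDr : (0 : ℝ) < D := by exact_mod_cast hD
  have : IsProbabilityMeasure (deLaw (fun j => D - β * (j + 1)) K) := by
    unfold deLaw
    infer_instance
  set Y : (Fin K → ℝ × ℝ) → ℝ≥0∞ := fun w => ∑ l ∈ Finset.range (K + 1),
    (ENNReal.ofReal (Real.exp ((100 * t) * ∑ i ∈ Finset.range l, (xb w i ^ 2 / (D : ℝ) - 1))) +
      ENNReal.ofReal (Real.exp ((-(100 * t)) *
        ∑ i ∈ Finset.range l, (xb w i ^ 2 / (D : ℝ) - 1)))) with hYdef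
  have hm : ∀ (s : ℝ) (l : ℕ), Measurable (fun w : Fin K → ℝ × ℝ =>
      ENNReal.ofReal (Real.exp (s * ∑ i ∈ Finset.range l, (xb w i ^ 2 / (D : ℝ) - 1)))) := by
    intro s l
    have h1 : Measurable (fun w : Fin K → ℝ × ℝ =>
        ∑ i ∈ Finset.range l, (xb w i ^ 2 / (D : ℝ) - 1)) :=
      Finset.measurable_fun_sum _ (fun i _ =>
        (((EXCM.xb_meas i).pow_const 2).div_const _).sub_const _)
    exact ((h1.const_mul s).exp).ennreal_ofReal
  have hY : Measurable Y :=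
    Finset.measurable_fun_sum _ (fun l _ => (hm _ l).add (hm _ l))
  have hpt : ∀ w : Fin K → ℝ × ℝ, ENNReal.ofReal (Real.exp (t * smb K D (xb w))) ≤
      Y w ^ (1 / 100 : ℝ) := by
    intro w
    rw [EXCM.rpow_hundred]
    apply ENNReal.rpow_le_rpow _ (by norm_num)
    obtain ⟨l, hl, hle⟩ := Finset.exists_mem_eq_sup' (s := Finset.range (K + 1)) ⟨0, by simp⟩
      (fun l => |∑ i ∈ Finset.range l, (xb w i ^ 2 / (D : ℝ) - 1)|)
    have hs : smb K D (xb w) = |∑ i ∈ Finset.range l, (xb w i ^ 2 / (D : ℝ) - 1)| := hle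
    rw [hs]
    refine le_trans ?_ (Finset.single_le_sum (f := fun l =>
      (ENNReal.ofReal (Real.exp ((100 * t) *
        ∑ i ∈ Finset.range l, (xb w i ^ 2 / (D : ℝ) - 1))) +
      ENNReal.ofReal (Real.exp ((-(100 * t)) *
        ∑ i ∈ Finset.range l, (xb w i ^ 2 / (D : ℝ) - 1)))))
      (fun _ _ => bot_le) hl)
    rcases abs_cases (∑ i ∈ Finset.range l, (xb w i ^ 2 / (D : ℝ) - 1)) with ⟨h, _⟩ | ⟨h, _⟩
    · rw [h]
      refine le_trans ?_ le_self_add
      apply le_of_eq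
      congr 2
      ring
    · rw [h]
      refine le_trans ?_ le_add_self
      apply le_of_eq
      congr 2
      ring
  have hs : 4 * |100 * t| ≤ D := by rw [abs_of_nonneg (by positivity)]; linarith
  have hs' : 4 * |-(100 * t)| ≤ D := by rw [abs_neg]; exact hs
  set B : ℝ := Real.exp (|100 * t| * β * K ^ 2 / D + 2 * (100 * t) ^ 2 * K / D) with hB
  calc ∫⁻ w, ENNReal.ofReal (Real.exp (t * smb K D (xb w))) ∂(deLaw (fun j => D - β * (j + 1)) K)
      ≤ ∫⁻ w, Y w ^ (1 / 100 : ℝ) ∂(deLaw (fun j => D - β * (j + 1)) K) := lintegral_mono hpt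
    _ ≤ (∫⁻ w, Y w ∂(deLaw (fun j => D - β * (j + 1)) K)) ^ (1 / 100 : ℝ) :=
        EXCM.jensen _ Y hY _ (by norm_num) (by norm_num)
    _ ≤ (ENNReal.ofReal (2 * ((K : ℝ) + 1) * B)) ^ (1 / 100 : ℝ) := by
        apply ENNReal.rpow_le_rpow _ (by norm_num)
        have e : ∫⁻ w, Y w ∂(deLaw (fun j => D - β * (j + 1)) K) =
            ∑ l ∈ Finset.range (K + 1), ∫⁻ w, (ENNReal.ofReal (Real.exp ((100 * t) *
              ∑ i ∈ Finset.range l, (xb w i ^ 2 / (D : ℝ) - 1))) +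
              ENNReal.ofReal (Real.exp ((-(100 * t)) *
              ∑ i ∈ Finset.range l, (xb w i ^ 2 / (D : ℝ) - 1))))
              ∂(deLaw (fun j => D - β * (j + 1)) K) :=
          lintegral_finsetSum _ (fun l _ => (hm _ l).add (hm _ l))
        rw [e]
        calc ∑ l ∈ Finset.range (K + 1), ∫⁻ w, (ENNReal.ofReal (Real.exp ((100 * t) *
              ∑ i ∈ Finset.range l, (xb w i ^ 2 / (D : ℝ) - 1))) +
              ENNReal.ofReal (Real.exp ((-(100 * t)) *
              ∑ i ∈ Finset.range l, (xb w i ^ 2 / (D : ℝ) - 1))))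
              ∂(deLaw (fun j => D - β * (j + 1)) K)
            ≤ ∑ _l ∈ Finset.range (K + 1), ENNReal.ofReal (2 * B) := by
              refine Finset.sum_le_sum (fun l hl => ?_)
              have hlK : l ≤ K := by
                have := Finset.mem_range.1 hl
                omega
              rw [lintegral_add_left (hm _ l), two_mul,
                ENNReal.ofReal_add (Real.exp_pos _).le (Real.exp_pos _).le]
              refine add_le_add (EXCM.partial_sum hMGC β K D _ hβ hD hs l hlK) ?_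
              have := EXCM.partial_sum hMGC β K D (-(100 * t)) hβ hD hs' l hlK
              rwa [neg_sq, abs_neg] at this
          _ = ENNReal.ofReal (2 * ((K : ℝ) + 1) * B) := by
              rw [Finset.sum_const, Finset.card_range, nsmul_eq_mul,
                ← ENNReal.ofReal_natCast (K + 1), ← ENNReal.ofReal_mul (by positivity)]
              congr 1
              push_cast
              ring
    _ = ENNReal.ofReal ((2 * ((K : ℝ) + 1)) ^ (1 / 100 : ℝ) *
        Real.exp (t * β * K ^ 2 / D + 200 * t ^ 2 * K / D)) := by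
        rw [ENNReal.ofReal_rpow_of_nonneg (by positivity) (by norm_num),
          Real.mul_rpow (by positivity) (by positivity), hB, ← Real.exp_mul,
          abs_of_nonneg (by positivity)]
        congr 3
        ring

end Pool.Agent.Lib.MP17fa2c
end

section
/-!
# MP_17fa2c_pr, module PSA: no `b_l` vanishes along the path
-/
set_option autoImplicit false

namespace Pool.Agent.Lib.MP17fa2c

open MeasureTheory ProbabilityTheory Filter Topology
open scoped RealInnerProductSpace NNReal ENNReal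

namespace PSAM

variable {E : Type} [NormedAddCommGroup E] [InnerProductSpace ℝ E]

/-- the path -/
noncomputable def pth (A B : E →L[ℝ] E) (ψ : ℝ) : E →L[ℝ] E := Real.cos ψ • A + Real.sin ψ • B

/-- its derivative -/
noncomputable def dth (A B : E →L[ℝ] E) (ψ : ℝ) : E →L[ℝ] E := -Real.sin ψ • A + Real.cos ψ • B

theorem pth_deriv (A B : E →L[ℝ] E) (ψ : ℝ) : HasDerivAt (pth A B) (dth A B ψ) ψ := by
  unfold pth dth
  exact ((Real.hasDerivAt_cos ψ).smul_const A).add ((Real.hasDerivAt_sin ψ).smul_const B)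

theorem comp_deriv (F : (E →L[ℝ] E) → ℝ) (A B : E →L[ℝ] E) (ψ : ℝ)
    (h : DifferentiableAt ℝ F (pth A B ψ)) :
    HasDerivAt (fun ψ => F (pth A B ψ)) (fderiv ℝ F (pth A B ψ) (dth A B ψ)) ψ :=
  h.hasFDerivAt.comp_hasDerivAt ψ (pth_deriv A B ψ)

theorem pth_zero (A B : E →L[ℝ] E) : pth A B 0 = A := by
  simp [pth]

theorem pth_per (A B : E →L[ℝ] E) (ψ : ℝ) :
    ∃ x ∈ Set.Icc 0 (2 * Real.pi), pth A B x = pth A B ψ := by
  refine ⟨toIcoMod Real.two_pi_pos 0 ψ, ?_, ?_⟩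
  · have := toIcoMod_mem_Ico Real.two_pi_pos 0 ψ
    rw [zero_add] at this
    exact ⟨this.1, this.2.le⟩
  · have h : toIcoMod Real.two_pi_pos 0 ψ = ψ - (toIcoDiv Real.two_pi_pos 0 ψ : ℝ) * (2 * Real.pi) := by
      rw [toIcoMod, zsmul_eq_mul]
    rw [h]
    unfold pth
    rw [Real.cos_sub_int_mul_two_pi, Real.sin_sub_int_mul_two_pi]

variable [FiniteDimensional ℝ E]

theorem sc : SecondCountableTopology E := by
  have : ProperSpace E := FiniteDimensional.proper ℝ E
  infer_instance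

theorem scL : SecondCountableTopology (E →L[ℝ] E) := by
  have : FiniteDimensional ℝ (E →L[ℝ] E) := inferInstance
  have : ProperSpace (E →L[ℝ] E) := FiniteDimensional.proper ℝ _
  infer_instance

theorem meas_pth : Measurable fun z : ((Unit → E →L[ℝ] E) × (Unit → E →L[ℝ] E)) × ℝ =>
    (pth (z.1.1 ()) (z.1.2 ()) z.2, dth (z.1.1 ()) (z.1.2 ()) z.2) := by
  have := scL (E := E)
  have h1 : Measurable fun z : ((Unit → E →L[ℝ] E) × (Unit → E →L[ℝ] E)) × ℝ => z.1.1 () :=
    (measurable_pi_apply ()).comp (measurable_fst.comp measurable_fst)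
  have h2 : Measurable fun z : ((Unit → E →L[ℝ] E) × (Unit → E →L[ℝ] E)) × ℝ => z.1.2 () :=
    (measurable_pi_apply ()).comp (measurable_snd.comp measurable_fst)
  have h3 : Measurable fun z : ((Unit → E →L[ℝ] E) × (Unit → E →L[ℝ] E)) × ℝ => Real.cos z.2 :=
    Real.measurable_cos.comp measurable_snd
  have h4 : Measurable fun z : ((Unit → E →L[ℝ] E) × (Unit → E →L[ℝ] E)) × ℝ => Real.sin z.2 :=
    Real.measurable_sin.comp measurable_snd
  unfold pth dth
  exact ((h3.smul h1).add (h4.smul h2)).prodMk ((h4.neg.smul h1).add (h3.smul h2))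

/-- Tonelli and rotation invariance -/
theorem tonelli {ν : Measure (Unit → E →L[ℝ] E)} [IsProbabilityMeasure ν]
    (hrot : ∀ ψ : ℝ, (ν.prod ν).map (fun p => (Real.cos ψ • p.1 + Real.sin ψ • p.2,
      -Real.sin ψ • p.1 + Real.cos ψ • p.2)) = ν.prod ν)
    (Φ : (E →L[ℝ] E) × (E →L[ℝ] E) → ℝ≥0∞) (hΦ : Measurable Φ) (s : Set ℝ) :
    ∫⁻ p, (∫⁻ ψ in s, Φ (pth (p.1 ()) (p.2 ()) ψ, dth (p.1 ()) (p.2 ()) ψ)) ∂(ν.prod ν) =
      (∫⁻ M, ∫⁻ G, Φ (M (), G ()) ∂ν ∂ν) * volume s := by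
  have := scL (E := E)
  have hm : Measurable (Function.uncurry fun (p : (Unit → E →L[ℝ] E) × (Unit → E →L[ℝ] E)) (ψ : ℝ) =>
      Φ (pth (p.1 ()) (p.2 ()) ψ, dth (p.1 ()) (p.2 ()) ψ)) := hΦ.comp meas_pth
  rw [lintegral_lintegral_swap hm.aemeasurable]
  have hΨ : Measurable fun p : (Unit → E →L[ℝ] E) × (Unit → E →L[ℝ] E) => Φ (p.1 (), p.2 ()) :=
    hΦ.comp (((measurable_pi_apply ()).comp measurable_fst).prodMk
      ((measurable_pi_apply ()).comp measurable_snd))
  have h1 : ∀ ψ : ℝ, ∫⁻ p, Φ (pth (p.1 ()) (p.2 ()) ψ, dth (p.1 ()) (p.2 ()) ψ) ∂(ν.prod ν) =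
      ∫⁻ M, ∫⁻ G, Φ (M (), G ()) ∂ν ∂ν := by
    intro ψ
    have h2 : Measurable fun p : (Unit → E →L[ℝ] E) × (Unit → E →L[ℝ] E) =>
        (Real.cos ψ • p.1 + Real.sin ψ • p.2, -Real.sin ψ • p.1 + Real.cos ψ • p.2) := by
      have m1 : Measurable fun p : (Unit → E →L[ℝ] E) × (Unit → E →L[ℝ] E) => p.1 ():=
        (measurable_pi_apply ()).comp measurable_fst
      have m2 : Measurable fun p : (Unit → E →L[ℝ] E) × (Unit → E →L[ℝ] E) => p.2 () :=
        (measurable_pi_apply ()).comp measurable_snd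
      exact (measurable_pi_lambda _ fun _ => (m1.const_smul (Real.cos ψ)).add
        (m2.const_smul (Real.sin ψ))).prodMk
        (measurable_pi_lambda _ fun _ => (m1.const_smul (-Real.sin ψ)).add
        (m2.const_smul (Real.cos ψ)))
    have h3 : ∫⁻ p, Φ (p.1 (), p.2 ()) ∂(ν.prod ν) = ∫⁻ M, ∫⁻ G, Φ (M (), G ()) ∂ν ∂ν :=
      lintegral_prod _ hΨ.aemeasurable
    rw [← h3]
    conv_rhs => rw [← hrot ψ]
    rw [lintegral_map hΨ h2]
    rfl
  simp only [h1]
  rw [lintegral_const, Measure.restrict_apply_univ]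

end PSAM

open PSAM in
theorem specPSA (hPOS : SpecPOS) (hDIF : SpecDIF) (hMDF : SpecMDF) (hROT : SpecROT)
    (hDBD : SpecDBD) (hDMO : SpecDMO) (hMEA : SpecMEA) : SpecPSA := by
  intro ι _ _
  obtain ⟨C1, hC1, hD⟩ := hDBD ι
  obtain ⟨C2, hC2, hM⟩ := hDMO ι 1 one_pos
  refine ⟨max C1 C2, lt_max_of_lt_left hC1, ?_⟩
  intro E _ _ _ S u ν hν hu k hk
  have hprob : IsProbabilityMeasure ν := by
    have := hν.gauss
    infer_instance
  have hk0 : (0 : ℝ) ≤ (k : ℝ) + 1 := by positivity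
  have hk1 : C1 * (k + 1) ≤ dm E :=
    (mul_le_mul_of_nonneg_right (le_max_left _ _) hk0).trans hk
  have hk2 : C2 * (k + 1) ≤ dm E :=
    (mul_le_mul_of_nonneg_right (le_max_right _ _) hk0).trans hk
  have hrot := fun ψ : ℝ => hROT ι E Unit S (fun _ _ => 1) ν hν ψ
  have hpos := (hM E S u ν hν hu (k + 1) (by omega) (by push_cast; exact hk2)).1
  have hpos2 : ∀ᵐ p ∂(ν.prod ν), ∀ l < k + 1, bv (p.1 ()) u l ≠ 0 :=
    Measure.quasiMeasurePreserving_fst.ae hpos
  have mbv : ∀ l, Measurable fun A : E →L[ℝ] E => bv A u l := by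
    intro l
    let mE : MeasurableSpace E := borel E
    have bE : BorelSpace E := ⟨rfl⟩
    obtain ⟨-, -, -, h4, -⟩ := hMEA ι E Unit S u l
    have h5 : Measurable fun A : E →L[ℝ] E => (fun _ : Unit => A) :=
      measurable_pi_lambda _ fun _ => measurable_id
    exact (h4 ()).comp h5
  have main : ∀ n ≤ k + 1, ∀ᵐ p ∂(ν.prod ν), ∀ ψ : ℝ, ∀ l < n,
      bv (pth (p.1 ()) (p.2 ()) ψ) u l ≠ 0 := by
    intro n
    induction n with
    | zero =>
      intro _
      exact ae_of_all _ fun p ψ l hl => absurd hl (by omega)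
    | succ n ih =>
      intro hn
      have ihn := ih (by omega)
      -- the integral of the logarithmic derivative
      let Φ : (E →L[ℝ] E) × (E →L[ℝ] E) → ℝ≥0∞ := fun q =>
        ENNReal.ofReal (|fderiv ℝ (fun A : E →L[ℝ] E => bv A u n ^ 2) q.1 q.2| / bv q.1 u n ^ 2)
      have mΦ : Measurable Φ := by
        have h1 := hMDF E (fun A : E →L[ℝ] E => bv A u n ^ 2)
        have h2 : Measurable fun q : (E →L[ℝ] E) × (E →L[ℝ] E) => bv q.1 u n :=
          (mbv n).comp measurable_fst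
        exact ((h1.norm).div (h2.pow_const 2)).ennreal_ofReal
      have hfin : ∫⁻ p, (∫⁻ ψ in Set.Icc 0 (2 * Real.pi),
          Φ (pth (p.1 ()) (p.2 ()) ψ, dth (p.1 ()) (p.2 ()) ψ)) ∂(ν.prod ν) ≠ ⊤ := by
        rw [tonelli hrot Φ mΦ]
        apply ENNReal.mul_ne_top
        · refine (hD E S u ν hν hu n ?_).2.2
          refine le_trans ?_ hk1
          apply mul_le_mul_of_nonneg_left _ hC1.le
          have : (n : ℝ) ≤ k := by exact_mod_cast (by omega : n ≤ k)
          linarith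
        · rw [Real.volume_Icc]
          exact ENNReal.ofReal_ne_top
      have mint : Measurable fun p : (Unit → E →L[ℝ] E) × (Unit → E →L[ℝ] E) =>
          ∫⁻ ψ in Set.Icc 0 (2 * Real.pi),
          Φ (pth (p.1 ()) (p.2 ()) ψ, dth (p.1 ()) (p.2 ()) ψ) :=
        (mΦ.comp meas_pth).lintegral_prod_right'
      have hae := ae_lt_top mint hfin
      filter_upwards [ihn, hae, hpos2] with p h1 h2 h3
      intro ψ l hl
      rcases Nat.lt_succ_iff_lt_or_eq.1 hl with hl | rfl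
      · exact h1 ψ l hl
      · obtain ⟨x, hx, hxψ⟩ := pth_per (p.1 ()) (p.2 ()) ψ
        rw [← hxψ]
        have key := hPOS (fun ψ => bv (pth (p.1 ()) (p.2 ()) ψ) u l ^ 2)
          (fun ψ => fderiv ℝ (fun A : E →L[ℝ] E => bv A u l ^ 2) (pth (p.1 ()) (p.2 ()) ψ)
            (dth (p.1 ()) (p.2 ()) ψ)) (2 * Real.pi)
          (fun y _ => by
            refine comp_deriv (fun A : E →L[ℝ] E => bv A u l ^ 2) _ _ _ ?_
            exact (hDIF E u _ l (fun l' hl' => h1 y l' hl')).2.2.2.1)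
          (fun y => by positivity)
          ⟨0, ⟨le_rfl, Real.two_pi_pos.le⟩, by
            rw [pth_zero]
            have := h3 l (by omega)
            positivity⟩
          h2.ne
          (by
            have h4 := hMDF E (fun A : E →L[ℝ] E => bv A u l ^ 2)
            have h5 : Measurable fun y : ℝ => (p, y) := measurable_prodMk_left
            exact h4.comp (meas_pth.comp h5)) x hx
        intro h0
        rw [h0] at key
        simp at key
  filter_upwards [main (k + 1) le_rfl] with p hp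
  intro ψ l hl
  exact hp ψ l (by omega)

end Pool.Agent.Lib.MP17fa2c
end

section
/-!
# MP_17fa2c_pr, module INC: increments along the path
-/
set_option autoImplicit false

namespace Pool.Agent.Lib.MP17fa2c

open MeasureTheory ProbabilityTheory Filter Topology
open scoped RealInnerProductSpace NNReal ENNReal

namespace INCM

open PSAM

theorem tangent (c d : ℝ) : c ^ 4 + 4 * c ^ 3 * (d - c) ≤ d ^ 4 := by
  nlinarith [mul_nonneg (sq_nonneg (d - c)) (add_nonneg (sq_nonneg (d + c))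
    (mul_nonneg zero_le_two (sq_nonneg c)))]

/-- fourth power of an increment -/
theorem key (h D : ℝ → ℝ) (φ : ℝ) (hφ : 0 ≤ φ) (hd : ∀ x, HasDerivAt h (D x) x)
    (hD : Measurable D) : ENNReal.ofReal ((h φ - h 0) ^ 4) ≤
      ENNReal.ofReal (φ ^ 3) * ∫⁻ x in Set.Icc 0 φ, ENNReal.ofReal (D x ^ 4) := by
  rcases hφ.eq_or_lt with rfl | hφ'
  · simp
  by_cases hI : ∫⁻ x in Set.Icc 0 φ, ENNReal.ofReal (D x ^ 4) = ⊤
  · rw [hI, ENNReal.mul_top]
    · exact le_top
    · rw [Ne, ENNReal.ofReal_eq_zero, not_le]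
      positivity
  have h4 : IntegrableOn (fun x => D x ^ 4) (Set.Icc 0 φ) := by
    refine ⟨(hD.pow_const 4).aestronglyMeasurable, ?_⟩
    rw [hasFiniteIntegral_iff_ofReal (ae_of_all _ fun x => by positivity)]
    exact lt_top_iff_ne_top.2 hI
  have hfm : IntegrableOn (fun _ : ℝ => (1 : ℝ)) (Set.Icc 0 φ) := by
    rw [integrableOn_const_iff]
    right
    rw [Real.volume_Icc]
    exact ENNReal.ofReal_lt_top
  have h1 : IntegrableOn D (Set.Icc 0 φ) := by
    refine Integrable.mono' (h4.add hfm) hD.aestronglyMeasurable (ae_of_all _ fun x => ?_)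
    rw [Real.norm_eq_abs]
    simp only [Pi.add_apply]
    have := sq_abs (D x)
    nlinarith [sq_nonneg (|D x| ^ 2 - 1), sq_nonneg (|D x| - 1), abs_nonneg (D x),
      sq_nonneg (|D x|)]
  have hint : IntervalIntegrable D volume 0 φ := by
    rw [intervalIntegrable_iff_integrableOn_Icc_of_le hφ]
    exact h1
  have hftc : ∫ x in (0 : ℝ)..φ, D x = h φ - h 0 :=
    intervalIntegral.integral_eq_sub_of_hasDerivAt (fun x _ => hd x) hint
  have hset : ∫ x in Set.Icc 0 φ, D x = h φ - h 0 := by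
    rw [← hftc, intervalIntegral.integral_of_le hφ, integral_Icc_eq_integral_Ioc]
  set c := (h φ - h 0) / φ with hc
  have hcφ : h φ - h 0 = φ * c := by
    rw [hc]; field_simp
  have hvol : (volume (Set.Icc 0 φ)).toReal = φ := by
    rw [Real.volume_Icc, sub_zero, ENNReal.toReal_ofReal hφ]
  have hcst : ∀ r : ℝ, ∫ _x in Set.Icc 0 φ, r = φ * r := by
    intro r
    rw [setIntegral_const, Measure.real, hvol, smul_eq_mul]
  have i1 : IntegrableOn (fun _ : ℝ => c ^ 4) (Set.Icc 0 φ) := by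
    simp
  have i2 : IntegrableOn (fun _ : ℝ => c) (Set.Icc 0 φ) := by
    simp
  have i3 : IntegrableOn (fun x : ℝ => 4 * c ^ 3 * (D x - c)) (Set.Icc 0 φ) :=
    (h1.sub i2).const_mul _
  have hlow : φ * c ^ 4 ≤ ∫ x in Set.Icc 0 φ, D x ^ 4 := by
    have e : ∫ x in Set.Icc 0 φ, (c ^ 4 + 4 * c ^ 3 * (D x - c)) = φ * c ^ 4 := by
      rw [integral_add i1 i3, integral_const_mul, integral_sub h1 i2, hset, hcst, hcst, hcφ]
      ring
    rw [← e]
    exact integral_mono (i1.add i3) h4 (fun x => tangent c (D x))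
  rw [← ofReal_integral_eq_lintegral_ofReal h4 (ae_of_all _ fun x => by positivity),
    ← ENNReal.ofReal_mul (by positivity)]
  apply ENNReal.ofReal_le_ofReal
  rw [hcφ]
  calc (φ * c) ^ 4 = φ ^ 3 * (φ * c ^ 4) := by ring
    _ ≤ φ ^ 3 * ∫ x in Set.Icc 0 φ, D x ^ 4 :=
      mul_le_mul_of_nonneg_left hlow (by positivity)

variable {E : Type} [NormedAddCommGroup E] [InnerProductSpace ℝ E] [FiniteDimensional ℝ E]

/-- the increment bound for a function `F` which is differentiable along almost every path -/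
theorem incr {ν : Measure (Unit → E →L[ℝ] E)} [IsProbabilityMeasure ν]
    (hrot : ∀ ψ : ℝ, (ν.prod ν).map (fun p => (Real.cos ψ • p.1 + Real.sin ψ • p.2,
      -Real.sin ψ • p.1 + Real.cos ψ • p.2)) = ν.prod ν)
    (F : (E →L[ℝ] E) → ℝ)
    (hF : Measurable fun p : (E →L[ℝ] E) × (E →L[ℝ] E) => fderiv ℝ F p.1 p.2)
    (hd : ∀ᵐ p ∂(ν.prod ν), ∀ ψ : ℝ, DifferentiableAt ℝ F (pth (p.1 ()) (p.2 ()) ψ))
    (B φ : ℝ) (hφ : 0 ≤ φ)
    (hB : ∫⁻ M, ∫⁻ G, ENNReal.ofReal ((fderiv ℝ F (M ()) (G ())) ^ 4) ∂ν ∂ν ≤ ENNReal.ofReal B) :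
    ∫⁻ p, ENNReal.ofReal ((F (Real.cos φ • p.1 () + Real.sin φ • p.2 ()) - F (p.1 ())) ^ 4)
      ∂(ν.prod ν) ≤ ENNReal.ofReal (φ ^ 4 * B) := by
  let Φ : (E →L[ℝ] E) × (E →L[ℝ] E) → ℝ≥0∞ := fun q => ENNReal.ofReal (fderiv ℝ F q.1 q.2 ^ 4)
  have mΦ : Measurable Φ := (hF.pow_const 4).ennreal_ofReal
  have hae : ∀ᵐ p ∂(ν.prod ν),
      ENNReal.ofReal ((F (Real.cos φ • p.1 () + Real.sin φ • p.2 ()) - F (p.1 ())) ^ 4) ≤
      ENNReal.ofReal (φ ^ 3) * ∫⁻ ψ in Set.Icc 0 φ,
        Φ (pth (p.1 ()) (p.2 ()) ψ, dth (p.1 ()) (p.2 ()) ψ) := by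
    filter_upwards [hd] with p hp
    have h5 : Measurable fun y : ℝ => (p, y) := measurable_prodMk_left
    have := key (fun ψ => F (pth (p.1 ()) (p.2 ()) ψ))
      (fun ψ => fderiv ℝ F (pth (p.1 ()) (p.2 ()) ψ) (dth (p.1 ()) (p.2 ()) ψ)) φ hφ
      (fun x => comp_deriv F _ _ _ (hp x)) (hF.comp (meas_pth.comp h5))
    simp only [pth_zero] at this
    exact this
  refine (lintegral_mono_ae hae).trans ?_
  have mint : Measurable fun p : (Unit → E →L[ℝ] E) × (Unit → E →L[ℝ] E) =>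
      ∫⁻ ψ in Set.Icc 0 φ, Φ (pth (p.1 ()) (p.2 ()) ψ, dth (p.1 ()) (p.2 ()) ψ) :=
    (mΦ.comp meas_pth).lintegral_prod_right'
  rw [lintegral_const_mul _ mint, tonelli hrot Φ mΦ, Real.volume_Icc, sub_zero]
  calc ENNReal.ofReal (φ ^ 3) * ((∫⁻ M, ∫⁻ G, Φ (M (), G ()) ∂ν ∂ν) * ENNReal.ofReal φ)
      ≤ ENNReal.ofReal (φ ^ 3) * (ENNReal.ofReal B * ENNReal.ofReal φ) := by
        gcongr
    _ = ENNReal.ofReal (φ ^ 4 * B) := by
        rw [mul_comm (ENNReal.ofReal B), ← mul_assoc, ← ENNReal.ofReal_mul (by positivity),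
          ← ENNReal.ofReal_mul (by positivity)]
        ring_nf

end INCM

open PSAM INCM in
theorem specINC (hPSA : SpecPSA) (hDIF : SpecDIF) (hMDF : SpecMDF) (hROT : SpecROT)
    (hDBD : SpecDBD) : SpecINC := by
  intro ι _ _
  obtain ⟨C1, hC1, hD⟩ := hDBD ι
  obtain ⟨C2, hC2, hP⟩ := hPSA ι
  refine ⟨max C1 C2, lt_max_of_lt_left hC1, ?_⟩
  intro E _ _ _ S u ν hν hu k φ hk hφ
  have hprob : IsProbabilityMeasure ν := by
    have := hν.gauss
    infer_instance
  have hk0 : (0 : ℝ) ≤ (k : ℝ) + 1 := by positivity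
  have hk1 : C1 * (k + 1) ≤ dm E :=
    (mul_le_mul_of_nonneg_right (le_max_left _ _) hk0).trans hk
  have hk2 : C2 * (k + 1) ≤ dm E :=
    (mul_le_mul_of_nonneg_right (le_max_right _ _) hk0).trans hk
  have hrot := fun ψ : ℝ => hROT ι E Unit S (fun _ _ => 1) ν hν ψ
  have hne := hP E S u ν hν hu k hk2
  obtain ⟨b1, b2, -⟩ := hD E S u ν hν hu k hk1
  have hdm : 0 ≤ dm E := by
    unfold dm; positivity
  have hCC : C1 ≤ max C1 C2 := le_max_left _ _
  have hexp : Real.exp (C1 * (k + 1) ^ 3 / dm E) ≤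
      Real.exp (max C1 C2 * (k + 1) ^ 3 / dm E) := by
    apply Real.exp_le_exp.2
    apply div_le_div_of_nonneg_right _ hdm
    exact mul_le_mul_of_nonneg_right hCC (by positivity)
  constructor
  · refine (incr hrot (fun A : E →L[ℝ] E => av A u k) (hMDF E _) ?_ _ φ hφ b1).trans ?_
    · filter_upwards [hne] with p hp
      intro ψ
      exact (hDIF E u _ k (fun l hl => hp ψ l hl.le)).2.2.1
    · apply ENNReal.ofReal_le_ofReal
      calc φ ^ 4 * (C1 * ((k : ℝ) + 1) ^ 2 * ((k : ℝ) + 1) ^ (1 / 100 : ℝ) *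
            Real.exp (C1 * (k + 1) ^ 3 / dm E))
          = C1 * φ ^ 4 * ((k : ℝ) + 1) ^ 2 * ((k : ℝ) + 1) ^ (1 / 100 : ℝ) *
            Real.exp (C1 * (k + 1) ^ 3 / dm E) := by ring
        _ ≤ max C1 C2 * φ ^ 4 * ((k : ℝ) + 1) ^ 2 * ((k : ℝ) + 1) ^ (1 / 100 : ℝ) *
            Real.exp (max C1 C2 * (k + 1) ^ 3 / dm E) := by
          gcongr
  · refine (incr hrot (fun A : E →L[ℝ] E => bv A u k ^ 2) (hMDF E _) ?_ _ φ hφ b2).trans ?_
    · filter_upwards [hne] with p hp
      intro ψ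
      exact (hDIF E u _ k (fun l hl => hp ψ l hl.le)).2.2.2.1
    · apply ENNReal.ofReal_le_ofReal
      calc φ ^ 4 * (C1 * dm E ^ 2 * ((k : ℝ) + 1) ^ 2 * ((k : ℝ) + 1) ^ (1 / 100 : ℝ) *
            Real.exp (C1 * (k + 1) ^ 3 / dm E))
          = C1 * dm E ^ 2 * φ ^ 4 * ((k : ℝ) + 1) ^ 2 * ((k : ℝ) + 1) ^ (1 / 100 : ℝ) *
            Real.exp (C1 * (k + 1) ^ 3 / dm E) := by ring
        _ ≤ max C1 C2 * dm E ^ 2 * φ ^ 4 * ((k : ℝ) + 1) ^ 2 * ((k : ℝ) + 1) ^ (1 / 100 : ℝ) *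
            Real.exp (max C1 C2 * (k + 1) ^ 3 / dm E) := by
          gcongr

end Pool.Agent.Lib.MP17fa2c
end

section
/-!
# MP_17fa2c_pr, module INK: increments along the path, general form
-/
set_option autoImplicit false

namespace Pool.Agent.Lib.MP17fa2c

open MeasureTheory ProbabilityTheory Filter Topology
open scoped RealInnerProductSpace NNReal ENNReal

namespace INKM

open PSAM INCM

variable {E : Type} [NormedAddCommGroup E] [InnerProductSpace ℝ E] [FiniteDimensional ℝ E]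

/-- the increment bound for a function `F` which is differentiable along almost every path -/
theorem incr {ν : Measure (Unit → E →L[ℝ] E)} [IsProbabilityMeasure ν]
    (hrot : ∀ ψ : ℝ, (ν.prod ν).map (fun p => (Real.cos ψ • p.1 + Real.sin ψ • p.2,
      -Real.sin ψ • p.1 + Real.cos ψ • p.2)) = ν.prod ν)
    (F : (E →L[ℝ] E) → ℝ)
    (hF : Measurable fun p : (E →L[ℝ] E) × (E →L[ℝ] E) => fderiv ℝ F p.1 p.2)
    (hd : ∀ᵐ p ∂(ν.prod ν), ∀ ψ : ℝ, DifferentiableAt ℝ F (pth (p.1 ()) (p.2 ()) ψ))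
    (φ : ℝ) (hφ : 0 ≤ φ) :
    ∫⁻ p, ENNReal.ofReal ((F (Real.cos φ • p.1 () + Real.sin φ • p.2 ()) - F (p.1 ())) ^ 4)
      ∂(ν.prod ν) ≤ ENNReal.ofReal (φ ^ 4) *
        ∫⁻ M, ∫⁻ G, ENNReal.ofReal ((fderiv ℝ F (M ()) (G ())) ^ 4) ∂ν ∂ν := by
  let Φ : (E →L[ℝ] E) × (E →L[ℝ] E) → ℝ≥0∞ := fun q => ENNReal.ofReal (fderiv ℝ F q.1 q.2 ^ 4)
  have mΦ : Measurable Φ := (hF.pow_const 4).ennreal_ofReal
  have hae : ∀ᵐ p ∂(ν.prod ν),
      ENNReal.ofReal ((F (Real.cos φ • p.1 () + Real.sin φ • p.2 ()) - F (p.1 ())) ^ 4) ≤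
      ENNReal.ofReal (φ ^ 3) * ∫⁻ ψ in Set.Icc 0 φ,
        Φ (pth (p.1 ()) (p.2 ()) ψ, dth (p.1 ()) (p.2 ()) ψ) := by
    filter_upwards [hd] with p hp
    have h5 : Measurable fun y : ℝ => (p, y) := measurable_prodMk_left
    have := key (fun ψ => F (pth (p.1 ()) (p.2 ()) ψ))
      (fun ψ => fderiv ℝ F (pth (p.1 ()) (p.2 ()) ψ) (dth (p.1 ()) (p.2 ()) ψ)) φ hφ
      (fun x => comp_deriv F _ _ _ (hp x)) (hF.comp (meas_pth.comp h5))
    simp only [pth_zero] at this
    exact this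
  refine (lintegral_mono_ae hae).trans ?_
  have mint : Measurable fun p : (Unit → E →L[ℝ] E) × (Unit → E →L[ℝ] E) =>
      ∫⁻ ψ in Set.Icc 0 φ, Φ (pth (p.1 ()) (p.2 ()) ψ, dth (p.1 ()) (p.2 ()) ψ) :=
    (mΦ.comp meas_pth).lintegral_prod_right'
  rw [lintegral_const_mul _ mint, tonelli hrot Φ mΦ, Real.volume_Icc, sub_zero]
  apply le_of_eq
  calc ENNReal.ofReal (φ ^ 3) * ((∫⁻ M, ∫⁻ G, Φ (M (), G ()) ∂ν ∂ν) * ENNReal.ofReal φ)
      = ENNReal.ofReal (φ ^ 3) * ENNReal.ofReal φ * ∫⁻ M, ∫⁻ G, Φ (M (), G ()) ∂ν ∂ν := by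
        rw [mul_comm (∫⁻ M, ∫⁻ G, Φ (M (), G ()) ∂ν ∂ν), mul_assoc]
    _ = ENNReal.ofReal (φ ^ 4) * ∫⁻ M, ∫⁻ G, Φ (M (), G ()) ∂ν ∂ν := by
        rw [← ENNReal.ofReal_mul (by positivity)]
        ring_nf

end INKM

open PSAM INKM in
theorem specINK (hPSA : SpecPSA) (hDIF : SpecDIF) (hMDF : SpecMDF) (hROT : SpecROT) :
    SpecINK := by
  intro ι _ _
  obtain ⟨C2, hC2, hP⟩ := hPSA ι
  refine ⟨C2, hC2, ?_⟩
  intro E _ _ _ S u ν hν hu k φ hk hφ
  have hprob : IsProbabilityMeasure ν := by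
    have := hν.gauss
    infer_instance
  have hrot := fun ψ : ℝ => hROT ι E Unit S (fun _ _ => 1) ν hν ψ
  have hne := hP E S u ν hν hu k hk
  constructor
  · refine incr hrot (fun A : E →L[ℝ] E => av A u k) (hMDF E _) ?_ φ hφ
    filter_upwards [hne] with p hp
    intro ψ
    exact (hDIF E u _ k (fun l hl => hp ψ l hl.le)).2.2.1
  · refine incr hrot (fun A : E →L[ℝ] E => bv A u k ^ 2) (hMDF E _) ?_ φ hφ
    filter_upwards [hne] with p hp
    intro ψ
    exact (hDIF E u _ k (fun l hl => hp ψ l hl.le)).2.2.2.1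

end Pool.Agent.Lib.MP17fa2c
end

section
/-!
# MP_17fa2c_pr, module KM0: `kap` is positive, good and measurable
-/
set_option autoImplicit false

open MeasureTheory ProbabilityTheory Filter Topology Polynomial
open scoped RealInnerProductSpace NNReal ENNReal

namespace Pool.Agent.Lib.MP17fa2c

namespace KM0M

theorem nonempty (K : ℕ) (R : ℝ) (hK : 1 ≤ K) (a b : ℕ → ℝ) :
    {i : ℕ | GoodK K R a b (2 ^ i / K)}.Nonempty := by
  have hK0 : (0 : ℝ) < K := by exact_mod_cast hK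
  obtain ⟨M, hM0, hM⟩ : ∃ M : ℝ, 0 ≤ M ∧ ∀ l < K, |a l / Real.sqrt R| ≤ M ∧
      |b l ^ 2 / R - 1| ≤ M := by
    refine ⟨∑ l ∈ Finset.range K, (|a l / Real.sqrt R| + |b l ^ 2 / R - 1|),
      Finset.sum_nonneg fun _ _ => by positivity, fun l hl => ?_⟩
    have h := Finset.single_le_sum (f := fun l => |a l / Real.sqrt R| + |b l ^ 2 / R - 1|)
      (fun _ _ => by positivity) (Finset.mem_range.2 hl)
    constructor
    · linarith [abs_nonneg (b l ^ 2 / R - 1)]
    · linarith [abs_nonneg (a l / Real.sqrt R)]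
  obtain ⟨n, hn⟩ := exists_nat_gt (K * (M + 1))
  refine ⟨n, ?_⟩
  have h2 : (n : ℝ) ≤ 2 ^ n := by exact_mod_cast (Nat.lt_two_pow_self (n := n)).le
  have hκ : M + 1 ≤ 2 ^ n / (K : ℝ) := by
    rw [le_div_iff₀ hK0]
    linarith
  have hκ1 : 1 ≤ 2 ^ n / (K : ℝ) := by linarith
  have hmax : max (1 : ℝ) (1 / (2 ^ n / K)) = 1 := by
    apply max_eq_left
    rw [div_le_one (by linarith)]
    exact hκ1
  intro i j hij hj hlen
  rw [hmax] at hlen
  have hle : j ≤ i + 1 := by
    have : (j : ℝ) ≤ ((i + 1 : ℕ) : ℝ) := by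
      push_cast
      linarith
    exact_mod_cast this
  rcases Nat.eq_or_lt_of_le hij with h | h
  · subst h
    simp only [Finset.Ico_self, Finset.sum_empty, abs_zero]
    constructor <;> linarith
  · have hj1 : j = i + 1 := by omega
    subst hj1
    simp only [Nat.Ico_succ_singleton, Finset.sum_singleton]
    obtain ⟨h3, h4⟩ := hM i (by omega)
    constructor <;> linarith

theorem meas_good (K : ℕ) (R κ : ℝ) :
    MeasurableSet {p : (ℕ → ℝ) × (ℕ → ℝ) | GoodK K R p.1 p.2 κ} := by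
  unfold GoodK
  simp only [Set.ofPred_forall]
  refine MeasurableSet.iInter fun i => MeasurableSet.iInter fun j => MeasurableSet.iInter
    fun _ => MeasurableSet.iInter fun _ => MeasurableSet.iInter fun _ => ?_
  have h1 : Measurable (fun p : (ℕ → ℝ) × (ℕ → ℝ) =>
      |∑ l ∈ Finset.Ico i j, p.1 l / Real.sqrt R|) := by
    refine continuous_abs.measurable.comp (Finset.measurable_fun_sum _ fun l _ => ?_)
    exact ((measurable_pi_apply l).comp measurable_fst).div_const _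
  have h2 : Measurable (fun p : (ℕ → ℝ) × (ℕ → ℝ) =>
      |∑ l ∈ Finset.Ico i j, (p.2 l ^ 2 / R - 1)|) := by
    refine continuous_abs.measurable.comp (Finset.measurable_fun_sum _ fun l _ => ?_)
    exact ((((measurable_pi_apply l).comp measurable_snd).pow_const 2).div_const _).sub_const _
  exact (measurableSet_le h1 measurable_const).inter (measurableSet_le h2 measurable_const)

end KM0M

/-- Module KM0. -/
theorem specKM0 : SpecKM0 := by
  intro K R hK
  have hK0 : (0 : ℝ) < K := by exact_mod_cast hK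
  refine ⟨fun a b => ⟨?_, Nat.sInf_mem (KM0M.nonempty K R hK a b)⟩, ?_⟩
  · unfold kap
    positivity
  · classical
    have h1 : Measurable fun p : (ℕ → ℝ) × (ℕ → ℝ) =>
        sInf {i : ℕ | GoodK K R p.1 p.2 (2 ^ i / K)} := by
      have h := measurable_find (p := fun (p : (ℕ → ℝ) × (ℕ → ℝ)) (i : ℕ) =>
        GoodK K R p.1 p.2 (2 ^ i / K)) (fun p => KM0M.nonempty K R hK p.1 p.2)
        (fun k => KM0M.meas_good K R (2 ^ k / K))
      have e : (fun p : (ℕ → ℝ) × (ℕ → ℝ) =>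
          sInf {i : ℕ | GoodK K R p.1 p.2 (2 ^ i / K)}) =
          fun p => Nat.find (KM0M.nonempty K R hK p.1 p.2) := by
        funext p
        exact Nat.sInf_def (KM0M.nonempty K R hK p.1 p.2)
      rw [e]
      exact h
    unfold kap
    have h2 : Measurable fun n : ℕ => (2 : ℝ) ^ n / K := measurable_from_nat
    exact h2.comp h1

end Pool.Agent.Lib.MP17fa2c
end

section
/-!
# MP_17fa2c_pr, block K, module KM1: tail bound for the random scale
-/
set_option autoImplicit false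

open MeasureTheory ProbabilityTheory Filter Topology
open scoped RealInnerProductSpace NNReal ENNReal

namespace Pool.Agent.Lib.MP17fa2c

namespace KM1M

theorem ico_sum {K : ℕ} (f : ℕ → ℝ) (i j : ℕ) (hj : j ≤ K) :
    ∑ l ∈ Finset.Ico i j, f l =
      ∑ t : Fin K, if i ≤ (t : ℕ) ∧ (t : ℕ) < j then f t else 0 := by
  have h1 : ∑ t : Fin K, (if i ≤ (t : ℕ) ∧ (t : ℕ) < j then f t else 0) =
      ∑ l ∈ Finset.range K, if i ≤ l ∧ l < j then f l else 0 :=
    (Finset.sum_range (fun l => if i ≤ l ∧ l < j then f l else 0)).symm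
  rw [h1, ← Finset.sum_filter]
  congr 1
  ext l
  simp only [Finset.mem_Ico, Finset.mem_range, Finset.mem_filter]
  omega

/-- exponential moment of a sum over an interval of indices -/
theorem exp_sum (N : ℕ → ℕ) (K : ℕ) (g : ℝ × ℝ → ℝ) (hg : Measurable g) (c : ℝ)
    (hfac : ∀ t < K, ∫⁻ z, ENNReal.ofReal (Real.exp (g z))
      ∂((gaussianReal 0 2).prod (chi (N t))) ≤ ENNReal.ofReal (Real.exp c))
    (i j : ℕ) (hij : i ≤ j) (hj : j ≤ K) :
    ∫⁻ w, ENNReal.ofReal (Real.exp (∑ t : Fin K,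
      if i ≤ (t : ℕ) ∧ (t : ℕ) < j then g (w t) else 0)) ∂(deLaw N K) ≤
      ENNReal.ofReal (Real.exp (((j : ℝ) - i) * c)) := by
  have h1 : ∀ w : Fin K → ℝ × ℝ, ENNReal.ofReal (Real.exp (∑ t : Fin K,
      if i ≤ (t : ℕ) ∧ (t : ℕ) < j then g (w t) else 0)) =
      ∏ t : Fin K, ENNReal.ofReal (Real.exp
        (if i ≤ (t : ℕ) ∧ (t : ℕ) < j then g (w t) else 0)) := by
    intro w
    rw [Real.exp_sum, ENNReal.ofReal_prod_of_nonneg (fun _ _ => (Real.exp_pos _).le)]
  simp only [h1]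
  unfold deLaw
  rw [EXAM.lint_prod (fun t : Fin K => (gaussianReal 0 2).prod (chi (N t)))
    (fun (t : Fin K) (z : ℝ × ℝ) => ENNReal.ofReal (Real.exp
      (if i ≤ (t : ℕ) ∧ (t : ℕ) < j then g z else 0))) (fun t => by
        by_cases ht : i ≤ (t : ℕ) ∧ (t : ℕ) < j
        · simp only [ht, and_self, if_true]
          fun_prop
        · simp only [ht, if_false]
          fun_prop)]
  have h2 : ((j : ℝ) - i) * c = ∑ t : Fin K, if i ≤ (t : ℕ) ∧ (t : ℕ) < j then c else 0 := by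
    rw [← ico_sum (fun _ => c) i j hj, Finset.sum_const, Nat.card_Ico, nsmul_eq_mul,
      Nat.cast_sub hij]
  rw [h2, Real.exp_sum, ENNReal.ofReal_prod_of_nonneg (fun _ _ => (Real.exp_pos _).le)]
  refine Finset.prod_le_prod' fun t _ => ?_
  by_cases ht : i ≤ (t : ℕ) ∧ (t : ℕ) < j
  · simp only [ht, and_self, if_true]
    exact hfac t t.2
  · simp only [ht, if_false]
    simp

/-- Chernoff -/
theorem chernoff {Ω : Type*} [MeasurableSpace Ω] (μ : Measure Ω) (X : Ω → ℝ) (hX : Measurable X)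
    (s κ B : ℝ) (hs : 0 ≤ s)
    (h : ∫⁻ w, ENNReal.ofReal (Real.exp (s * X w)) ∂μ ≤ ENNReal.ofReal (Real.exp B)) :
    μ {w | κ < X w} ≤ ENNReal.ofReal (Real.exp (B - s * κ)) := by
  have h1 := mul_meas_ge_le_lintegral (μ := μ)
    (f := fun w => ENNReal.ofReal (Real.exp (s * X w))) (by fun_prop)
    (ENNReal.ofReal (Real.exp (s * κ)))
  have h2 : μ {w | κ < X w} ≤
      μ {w | ENNReal.ofReal (Real.exp (s * κ)) ≤ ENNReal.ofReal (Real.exp (s * X w))} := by
    refine measure_mono fun w hw => ?_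
    have hw' : κ < X w := hw
    exact ENNReal.ofReal_le_ofReal (Real.exp_le_exp.2 (mul_le_mul_of_nonneg_left hw'.le hs))
  calc μ {w | κ < X w} = ENNReal.ofReal (Real.exp (-(s * κ))) *
        (ENNReal.ofReal (Real.exp (s * κ)) * μ {w | κ < X w}) := by
        rw [← mul_assoc, ← ENNReal.ofReal_mul (Real.exp_pos _).le, ← Real.exp_add]
        simp
    _ ≤ ENNReal.ofReal (Real.exp (-(s * κ))) * ENNReal.ofReal (Real.exp B) := by
        gcongr
        exact (mul_le_mul_right h2 _).trans (h1.trans h)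
    _ = ENNReal.ofReal (Real.exp (B - s * κ)) := by
        rw [← ENNReal.ofReal_mul (Real.exp_pos _).le, ← Real.exp_add]
        congr 2
        ring

theorem chernoff_abs {Ω : Type*} [MeasurableSpace Ω] (μ : Measure Ω) (X : Ω → ℝ)
    (hX : Measurable X) (s κ B : ℝ) (hs : 0 ≤ s)
    (h : ∫⁻ w, ENNReal.ofReal (Real.exp (s * X w)) ∂μ ≤ ENNReal.ofReal (Real.exp B))
    (h' : ∫⁻ w, ENNReal.ofReal (Real.exp (-s * X w)) ∂μ ≤ ENNReal.ofReal (Real.exp B)) :
    μ {w | κ < |X w|} ≤ ENNReal.ofReal (2 * Real.exp (B - s * κ)) := by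
  have h1 := chernoff μ X hX s κ B hs h
  have h2 := chernoff μ (fun w => - X w) hX.neg s κ B hs (by
    have e : ∀ w, s * -X w = -s * X w := fun w => by ring
    simp only [e]
    exact h')
  have h3 : {w | κ < |X w|} ⊆ {w | κ < X w} ∪ {w | κ < - X w} := by
    intro w hw
    have hw' : κ < |X w| := hw
    rcases lt_abs.1 hw' with h | h
    · exact Or.inl h
    · exact Or.inr h
  calc μ {w | κ < |X w|} ≤ μ ({w | κ < X w} ∪ {w | κ < - X w}) := measure_mono h3
    _ ≤ μ {w | κ < X w} + μ {w | κ < - X w} := measure_union_le _ _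
    _ ≤ ENNReal.ofReal (Real.exp (B - s * κ)) + ENNReal.ofReal (Real.exp (B - s * κ)) :=
        add_le_add h1 h2
    _ = _ := by
        rw [← ENNReal.ofReal_add (Real.exp_pos _).le (Real.exp_pos _).le]
        congr 1
        ring

theorem a_exp (N : ℕ → ℕ) (K D : ℕ) (hD : 0 < D) (s : ℝ) (i j : ℕ) (hij : i ≤ j) (hj : j ≤ K) :
    ∫⁻ w, ENNReal.ofReal (Real.exp (s * ∑ l ∈ Finset.Ico i j, xa w l / Real.sqrt D))
      ∂(deLaw N K) ≤ ENNReal.ofReal (Real.exp (((j : ℝ) - i) * (s ^ 2 / D))) := by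
  have hDr : (0 : ℝ) < D := by exact_mod_cast hD
  have h1 : ∀ w : Fin K → ℝ × ℝ, s * ∑ l ∈ Finset.Ico i j, xa w l / Real.sqrt D =
      ∑ t : Fin K, if i ≤ (t : ℕ) ∧ (t : ℕ) < j then s * ((w t).1 / Real.sqrt D) else 0 := by
    intro w
    rw [Finset.mul_sum, ico_sum _ i j hj]
    refine Finset.sum_congr rfl fun t _ => ?_
    simp [xa]
  simp only [h1]
  exact exp_sum N K (fun z => s * (z.1 / Real.sqrt D)) (by fun_prop) (s ^ 2 / D)
    (fun t _ => (EXAM.factor (N t) s D hDr).le) i j hij hj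

theorem b_exp (hMGC : SpecMGC) (β K D : ℕ) (hβ : β * K ≤ D) (hD : 0 < D) (s : ℝ)
    (hs : 4 * |s| ≤ D) (i j : ℕ) (hij : i ≤ j) (hj : j ≤ K) :
    ∫⁻ w, ENNReal.ofReal (Real.exp (s * ∑ l ∈ Finset.Ico i j, (xb w l ^ 2 / (D : ℝ) - 1)))
      ∂(deLaw (fun j => D - β * (j + 1)) K) ≤
      ENNReal.ofReal (Real.exp (((j : ℝ) - i) * (|s| * (β * K / D) + 2 * s ^ 2 / D))) := by
  have hDr : (0 : ℝ) < D := by exact_mod_cast hD
  have h1 : ∀ w : Fin K → ℝ × ℝ, s * ∑ l ∈ Finset.Ico i j, (xb w l ^ 2 / (D : ℝ) - 1) =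
      ∑ t : Fin K, if i ≤ (t : ℕ) ∧ (t : ℕ) < j then s * ((w t).2 ^ 2 / (D : ℝ) - 1) else 0 := by
    intro w
    rw [Finset.mul_sum, ico_sum _ i j hj]
    refine Finset.sum_congr rfl fun t _ => ?_
    simp [xb]
  simp only [h1]
  refine exp_sum (fun j => D - β * (j + 1)) K (fun z => s * (z.2 ^ 2 / (D : ℝ) - 1))
    (by fun_prop) _ (fun t ht => ?_) i j hij hj
  refine (EXCM.factor hMGC (D - β * (t + 1)) D s hD (Nat.sub_le _ _) hs).trans ?_
  apply ENNReal.ofReal_le_ofReal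
  apply Real.exp_le_exp.mpr
  have h2 : β * (t + 1) ≤ β * K := Nat.mul_le_mul_left _ ht
  have h3 : ((D - β * (t + 1) : ℕ) : ℝ) = (D : ℝ) - β * ((t : ℝ) + 1) := by
    rw [Nat.cast_sub (h2.trans hβ)]
    push_cast
    ring
  rw [h3]
  have h4 : (D : ℝ) - (D - β * ((t : ℝ) + 1)) ≤ β * K := by
    have : ((β * (t + 1) : ℕ) : ℝ) ≤ ((β * K : ℕ) : ℝ) := by exact_mod_cast h2
    push_cast at this
    linarith
  have h5 : |s| * ((D : ℝ) - (D - β * ((t : ℝ) + 1))) / D ≤ |s| * (β * K / D) := by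
    rw [← mul_div_assoc]
    apply div_le_div_of_nonneg_right _ hDr.le
    exact mul_le_mul_of_nonneg_left h4 (abs_nonneg s)
  linarith

theorem len_bd {κ ℓ : ℝ} (hκ : 0 < κ) (hℓ : 0 < ℓ) (h : ℓ ≤ max 1 (1 / κ)) :
    min (κ ^ 3) κ * ℓ ≤ min κ 1 * κ := by
  rcases le_total κ 1 with h1 | h1
  · have h2 : max 1 (1 / κ) = 1 / κ := max_eq_right (by rw [le_div_iff₀ hκ]; linarith)
    rw [h2] at h
    rw [min_eq_left h1]
    calc min (κ ^ 3) κ * ℓ ≤ κ ^ 3 * (1 / κ) :=
          mul_le_mul (min_le_left _ _) h hℓ.le (by positivity)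
      _ = κ * κ := by field_simp
  · have h2 : max 1 (1 / κ) = 1 := max_eq_left (by rw [div_le_one hκ]; exact h1)
    rw [h2] at h
    rw [min_eq_right h1]
    calc min (κ ^ 3) κ * ℓ ≤ κ * 1 := mul_le_mul (min_le_right _ _) h hℓ.le hκ.le
      _ = 1 * κ := by ring

theorem drift_bd {κ ℓ q : ℝ} (hκ : 0 < κ) (hℓ : 0 < ℓ) (h : ℓ ≤ max 1 (1 / κ)) (hq : 0 ≤ q)
    (hq1 : q ≤ 1 / 4) (hq2 : 2 * q ≤ κ ^ 2) : ℓ * q ≤ κ / 2 := by
  rcases le_total κ 1 with h1 | h1
  · have h2 : max 1 (1 / κ) = 1 / κ := max_eq_right (by rw [le_div_iff₀ hκ]; linarith)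
    rw [h2] at h
    calc ℓ * q ≤ 1 / κ * (κ ^ 2 / 2) := mul_le_mul h (by linarith) hq (by positivity)
      _ = κ / 2 := by field_simp
  · have h2 : max 1 (1 / κ) = 1 := max_eq_left (by rw [div_le_one hκ]; exact h1)
    rw [h2] at h
    calc ℓ * q ≤ 1 * (1 / 4) := mul_le_mul h hq1 hq (by positivity)
      _ ≤ κ / 2 := by linarith

theorem key (hMGC : SpecMGC) (β K D : ℕ) (κ : ℝ) (hK : 1 ≤ K) (hβ : 4 * (β + 1) * K ≤ D)
    (hκ : 0 < κ) (hκ2 : 2 * β * K / D ≤ κ ^ 2) (i j : ℕ) (hij : i ≤ j) (hj : j ≤ K)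
    (hl : (j : ℝ) - i ≤ max 1 (1 / κ)) :
    deLaw (fun j => D - β * (j + 1)) K {w | κ < |∑ l ∈ Finset.Ico i j, xa w l / Real.sqrt D|} ≤
      ENNReal.ofReal (2 * Real.exp (-(D * min (κ ^ 3) κ) / 32)) ∧
    deLaw (fun j => D - β * (j + 1)) K
      {w | κ < |∑ l ∈ Finset.Ico i j, (xb w l ^ 2 / (D : ℝ) - 1)|} ≤
      ENNReal.ofReal (2 * Real.exp (-(D * min (κ ^ 3) κ) / 32)) := by
  have hD : 0 < D := by
    have : 0 < 4 * (β + 1) * K := by positivity
    omega
  have hDr : (0 : ℝ) < D := by exact_mod_cast hD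
  have hβ' : β * K ≤ D := by
    have : β * K ≤ 4 * (β + 1) * K := Nat.mul_le_mul_right _ (by omega)
    omega
  rcases hij.eq_or_lt with rfl | hlt
  · constructor
    · have : {w : Fin K → ℝ × ℝ | κ < |∑ l ∈ Finset.Ico i i, xa w l / Real.sqrt D|} = ∅ := by
        ext w
        simp only [Finset.Ico_self, Finset.sum_empty, abs_zero, Set.mem_setOf_eq,
          Set.mem_empty_iff_false, iff_false, not_lt]
        exact hκ.le
      rw [this, measure_empty]
      exact bot_le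
    · have : {w : Fin K → ℝ × ℝ | κ < |∑ l ∈ Finset.Ico i i, (xb w l ^ 2 / (D : ℝ) - 1)|} = ∅ := by
        ext w
        simp only [Finset.Ico_self, Finset.sum_empty, abs_zero, Set.mem_setOf_eq,
          Set.mem_empty_iff_false, iff_false, not_lt]
        exact hκ.le
      rw [this, measure_empty]
      exact bot_le
  set ℓ : ℝ := (j : ℝ) - i with hℓ
  have hℓ1 : 1 ≤ ℓ := by
    have : ((i + 1 : ℕ) : ℝ) ≤ j := by exact_mod_cast hlt
    push_cast at this
    linarith
  have hℓ0 : 0 < ℓ := by linarith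
  set r : ℝ := D / ℓ with hr
  have hr0 : 0 < r := by positivity
  have hrℓ : r * ℓ = D := by rw [hr]; field_simp
  have hrD : r ≤ D := by
    rw [hr, div_le_iff₀ hℓ0]
    nlinarith
  have hlen := len_bd hκ hℓ0 hl
  set m : ℝ := min (κ ^ 3) κ with hm
  set ν : ℝ := min κ 1 with hν
  have hν0 : 0 < ν := lt_min hκ one_pos
  have hνκ : ν ≤ κ := min_le_left _ _
  have hν1 : ν ≤ 1 := min_le_right _ _
  have hDm : (D : ℝ) * m ≤ r * (ν * κ) := by
    rw [← hrℓ]
    have := mul_le_mul_of_nonneg_left hlen hr0.le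
    linarith
  have hsq : (r * ν / 8) ^ 2 / D * ℓ = r * ν ^ 2 / 64 := by
    rw [← hrℓ]
    field_simp
    ring
  constructor
  · -- the diagonal entries
    have hX : Measurable fun w : Fin K → ℝ × ℝ =>
        ∑ l ∈ Finset.Ico i j, xa w l / Real.sqrt D :=
      Finset.measurable_fun_sum _ fun l _ => (EXAM.xa_meas l).div_const _
    have h1 := a_exp (fun j => D - β * (j + 1)) K D hD (r * ν / 8) i j hij hj
    have h2 := a_exp (fun j => D - β * (j + 1)) K D hD (-(r * ν / 8)) i j hij hj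
    rw [neg_sq] at h2
    refine (chernoff_abs _ _ hX (r * ν / 8) κ _ (by positivity) h1 h2).trans ?_
    apply ENNReal.ofReal_le_ofReal
    refine mul_le_mul_of_nonneg_left (Real.exp_le_exp.2 ?_) (by norm_num)
    have h3 : ℓ * ((r * ν / 8) ^ 2 / D) = r * ν ^ 2 / 64 := by rw [mul_comm, hsq]
    rw [h3]
    have h4 : r * ν ^ 2 ≤ r * (ν * κ) := by
      apply mul_le_mul_of_nonneg_left _ hr0.le
      nlinarith
    nlinarith
  · have hX : Measurable fun w : Fin K → ℝ × ℝ =>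
        ∑ l ∈ Finset.Ico i j, (xb w l ^ 2 / (D : ℝ) - 1) :=
      Finset.measurable_fun_sum _ fun l _ =>
        (((EXCM.xb_meas l).pow_const 2).div_const _).sub_const _
    have habs : |r * ν / 8| = r * ν / 8 := abs_of_nonneg (by positivity)
    have hs4 : 4 * |r * ν / 8| ≤ D := by
      rw [habs]
      nlinarith
    have h1 := b_exp hMGC β K D hβ' hD (r * ν / 8) hs4 i j hij hj
    have h2 := b_exp hMGC β K D hβ' hD (-(r * ν / 8)) (by rw [abs_neg]; exact hs4) i j hij hj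
    rw [neg_sq, abs_neg] at h2
    refine (chernoff_abs _ _ hX (r * ν / 8) κ _ (by positivity) h1 h2).trans ?_
    apply ENNReal.ofReal_le_ofReal
    refine mul_le_mul_of_nonneg_left (Real.exp_le_exp.2 ?_) (by norm_num)
    have hq0 : (0 : ℝ) ≤ β * K / D := by positivity
    have hq1 : (β * K / D : ℝ) ≤ 1 / 4 := by
      rw [div_le_iff₀ hDr]
      have h5 : ((4 * (β + 1) * K : ℕ) : ℝ) ≤ D := by exact_mod_cast hβ
      push_cast at h5
      have h6 : (0 : ℝ) ≤ K := Nat.cast_nonneg _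
      nlinarith
    have hq2 : 2 * (β * K / D : ℝ) ≤ κ ^ 2 := by
      rw [← mul_div_assoc, ← mul_assoc]
      exact hκ2
    have hdr := drift_bd hκ hℓ0 hl hq0 hq1 hq2
    rw [habs]
    have h3 : ℓ * (r * ν / 8 * (β * K / D) + 2 * (r * ν / 8) ^ 2 / D) =
        r * ν / 8 * (ℓ * (β * K / D)) + 2 * ((r * ν / 8) ^ 2 / D * ℓ) := by ring
    rw [h3, hsq]
    have h4 : r * ν / 8 * (ℓ * (β * K / D)) ≤ r * ν / 8 * (κ / 2) :=
      mul_le_mul_of_nonneg_left hdr (by positivity)
    have h5 : r * ν ^ 2 ≤ r * (ν * κ) := by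
      apply mul_le_mul_of_nonneg_left _ hr0.le
      nlinarith
    nlinarith

end KM1M

open KM1M in
theorem specKM1 (hMGC : SpecMGC) : SpecKM1 := by
  intro β K D κ hK hβ hκ hκ2
  set e : ℝ := Real.exp (-(D * min (κ ^ 3) κ) / 32) with he
  have he0 : 0 ≤ e := (Real.exp_pos _).le
  have hkey := key hMGC β K D κ hK hβ hκ hκ2
  rw [← he] at hkey
  set T : ℕ × ℕ → Set (Fin K → ℝ × ℝ) := fun p => {w | p.1 ≤ p.2 ∧ p.2 ≤ K ∧
    (p.2 : ℝ) - p.1 ≤ max 1 (1 / κ) ∧ (κ < |∑ l ∈ Finset.Ico p.1 p.2, xa w l / Real.sqrt D| ∨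
      κ < |∑ l ∈ Finset.Ico p.1 p.2, (xb w l ^ 2 / (D : ℝ) - 1)|)} with hT
  have hsub : {w : Fin K → ℝ × ℝ | ¬ GoodK K D (xa w) (xb w) κ} ⊆
      ⋃ p ∈ Finset.range (K + 1) ×ˢ Finset.range (K + 1), T p := by
    intro w hw
    have hw' : ¬ GoodK K D (xa w) (xb w) κ := hw
    unfold GoodK at hw'
    push Not at hw'
    obtain ⟨i, j, hij, hj, hl, h⟩ := hw'
    rw [Set.mem_iUnion₂]
    refine ⟨(i, j), by simp only [Finset.mem_product, Finset.mem_range]; omega, ?_⟩
    refine ⟨hij, hj, hl, ?_⟩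
    by_cases ha : |∑ l ∈ Finset.Ico i j, xa w l / Real.sqrt D| ≤ κ
    · exact Or.inr (h ha)
    · exact Or.inl (not_le.1 ha)
  have hTm : ∀ p, deLaw (fun j => D - β * (j + 1)) K (T p) ≤ ENNReal.ofReal (4 * e) := by
    intro p
    by_cases hp : p.1 ≤ p.2 ∧ p.2 ≤ K ∧ (p.2 : ℝ) - p.1 ≤ max 1 (1 / κ)
    · obtain ⟨h1, h2⟩ := hkey p.1 p.2 hp.1 hp.2.1 hp.2.2
      have hs : T p ⊆ {w | κ < |∑ l ∈ Finset.Ico p.1 p.2, xa w l / Real.sqrt D|} ∪
          {w | κ < |∑ l ∈ Finset.Ico p.1 p.2, (xb w l ^ 2 / (D : ℝ) - 1)|} :=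
        fun w hw => hw.2.2.2
      refine (measure_mono hs).trans ((measure_union_le _ _).trans
        ((add_le_add h1 h2).trans (le_of_eq ?_)))
      rw [← ENNReal.ofReal_add (by positivity) (by positivity)]
      congr 1
      ring
    · have : T p = ∅ := by
        ext w
        simp only [Set.mem_empty_iff_false, iff_false]
        exact fun h => hp ⟨h.1, h.2.1, h.2.2.1⟩
      rw [this, measure_empty]
      exact bot_le
  calc deLaw (fun j => D - β * (j + 1)) K {w | ¬ GoodK K D (xa w) (xb w) κ}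
      ≤ deLaw (fun j => D - β * (j + 1)) K
        (⋃ p ∈ Finset.range (K + 1) ×ˢ Finset.range (K + 1), T p) := measure_mono hsub
    _ ≤ ∑ p ∈ Finset.range (K + 1) ×ˢ Finset.range (K + 1),
        deLaw (fun j => D - β * (j + 1)) K (T p) := measure_biUnion_finset_le _ _
    _ ≤ ∑ _p ∈ Finset.range (K + 1) ×ˢ Finset.range (K + 1), ENNReal.ofReal (4 * e) :=
        Finset.sum_le_sum fun p _ => hTm p
    _ = ENNReal.ofReal (4 * ((K : ℝ) + 1) ^ 2 * e) := by
        rw [Finset.sum_const, Finset.card_product, Finset.card_range, nsmul_eq_mul,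
          ← ENNReal.ofReal_natCast ((K + 1) * (K + 1)), ← ENNReal.ofReal_mul (by positivity)]
        congr 1
        push_cast
        ring

end Pool.Agent.Lib.MP17fa2c
end

section
/-!
# MP_17fa2c_pr, module NCM: Laplace transform of a noncentral quadratic form
-/
set_option autoImplicit false

open MeasureTheory ProbabilityTheory Filter Topology
open scoped RealInnerProductSpace NNReal ENNReal

namespace Pool.Agent.Lib.MP17fa2c

namespace NCMM

/-- one dimension -/
theorem one (lam τ m : ℝ) (hl : 0 ≤ lam) :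
    ∫⁻ z, ENNReal.ofReal (Real.exp (-lam * (τ * z + m) ^ 2)) ∂(gaussianReal 0 1) ≤
      ENNReal.ofReal ((1 + 2 * lam * τ ^ 2) ^ (-(1 : ℝ) / 2)) := by
  set A : ℝ := 1 / 2 + lam * τ ^ 2 with hA
  have hA0 : 0 < A := by positivity
  have hm : Measurable fun z : ℝ => ENNReal.ofReal (Real.exp (-lam * (τ * z + m) ^ 2)) := by
    fun_prop
  rw [gaussianReal_of_var_ne_zero _ one_ne_zero,
    lintegral_withDensity_eq_lintegral_mul _ (measurable_gaussianPDF 0 1) hm]
  set g : ℝ → ℝ≥0∞ := fun y =>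
    ENNReal.ofReal ((Real.sqrt (2 * Real.pi))⁻¹ * Real.exp (-A * y ^ 2)) with hg
  have h1 : ∀ z : ℝ, (gaussianPDF 0 1 * fun z =>
      ENNReal.ofReal (Real.exp (-lam * (τ * z + m) ^ 2))) z ≤ g (z + lam * τ * m / A) := by
    intro z
    rw [Pi.mul_apply, gaussianPDF, ← ENNReal.ofReal_mul (gaussianPDFReal_nonneg _ _ _),
      gaussianPDFReal, hg]
    apply ENNReal.ofReal_le_ofReal
    rw [mul_assoc, ← Real.exp_add]
    have e1 : (Real.sqrt (2 * Real.pi * ((1 : ℝ≥0) : ℝ)))⁻¹ = (Real.sqrt (2 * Real.pi))⁻¹ := by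
      simp
    rw [e1]
    apply mul_le_mul_of_nonneg_left _ (by positivity)
    apply Real.exp_le_exp.mpr
    have e2 : -A * (z + lam * τ * m / A) ^ 2 =
        -(z ^ 2) / 2 + -lam * (τ * z + m) ^ 2 + lam * m ^ 2 / (2 * A) := by
      have hA1 : A ≠ 0 := hA0.ne'
      field_simp
      rw [hA]
      ring
    have e3 : -(z - 0) ^ 2 / (2 * ((1 : ℝ≥0) : ℝ)) = -(z ^ 2) / 2 := by
      simp
    rw [e2, e3]
    have : 0 ≤ lam * m ^ 2 / (2 * A) := by positivity
    linarith
  refine (lintegral_mono h1).trans ?_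
  rw [lintegral_add_right_eq_self (μ := volume) g (lam * τ * m / A), hg,
    ← ofReal_integral_eq_lintegral_ofReal ((integrable_exp_neg_mul_sq hA0).const_mul _)
    (Eventually.of_forall fun x => by positivity), integral_const_mul, integral_gaussian]
  apply le_of_eq
  congr 1
  have h2 : Real.pi / A = 2 * Real.pi * (1 + 2 * lam * τ ^ 2)⁻¹ := by
    have h3 : (1 + 2 * lam * τ ^ 2) = 2 * A := by rw [hA]; ring
    rw [h3]
    field_simp
  have h3 : 0 ≤ 1 + 2 * lam * τ ^ 2 := by positivity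
  have h4 : Real.sqrt (2 * Real.pi * (1 + 2 * lam * τ ^ 2)⁻¹) =
      Real.sqrt (2 * Real.pi) * Real.sqrt (1 + 2 * lam * τ ^ 2)⁻¹ :=
    Real.sqrt_mul (by positivity) _
  have h5 : Real.sqrt (2 * Real.pi) ≠ 0 := by positivity
  rw [h2, h4, ← mul_assoc, inv_mul_cancel₀ h5, one_mul,
    Real.sqrt_eq_rpow, Real.inv_rpow h3, ← Real.rpow_neg h3]
  congr 1
  ring

end NCMM

open NCMM in
/-- Module NCM. -/
theorem specNCM (hISO : SpecISO) : SpecNCM := by
  intro ι _ _ E _ _ _ T _ S c ν hν hc Q r s lam σ2 hQ hQr hlam hσ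
  let _ : MeasurableSpace E := borel E
  have : BorelSpace E := ⟨rfl⟩
  have := hν.gauss
  obtain ⟨h0, hlaw⟩ := hISO ι E T S c ν hν hc Q r hQ hQr
  rw [← hσ] at h0 hlaw
  set f : E → ℝ≥0∞ := fun y => ENNReal.ofReal (Real.exp (-lam * ‖y + s‖ ^ 2)) with hf
  have hfm : Measurable f := by
    rw [hf]
    fun_prop
  have hm1 : Measurable fun G : T → E →L[ℝ] E => ∑ i, Q (G i (r i)) := by
    have : Continuous fun G : T → E →L[ℝ] E => ∑ i, Q (G i (r i)) := by
      refine continuous_finsetSum _ fun i _ => Q.continuous.comp ?_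
      exact (continuous_apply i).clm_apply continuous_const
    exact this.measurable
  have e1 : ∫⁻ G, ENNReal.ofReal (Real.exp (-lam * ‖(∑ i, Q (G i (r i))) + s‖ ^ 2)) ∂ν =
      ∫⁻ x, f (Real.sqrt σ2 • Q x) ∂(stdGaussian E) := by
    have a1 : ∫⁻ G, f (∑ i, Q (G i (r i))) ∂ν =
        ∫⁻ y, f y ∂(ν.map fun G => ∑ i, Q (G i (r i))) := (lintegral_map hfm hm1).symm
    have hm2 : Measurable fun x : E => Real.sqrt σ2 • Q x := by fun_prop
    rw [show (∫⁻ G, ENNReal.ofReal (Real.exp (-lam * ‖(∑ i, Q (G i (r i))) + s‖ ^ 2)) ∂ν) =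
      ∫⁻ G, f (∑ i, Q (G i (r i))) ∂ν from rfl, a1, hlaw, lintegral_map hfm hm2]
  rw [e1]
  set σ : ℝ := Real.sqrt σ2 with hσd
  have hσ2 : σ ^ 2 = σ2 := Real.sq_sqrt h0
  have hsym : (Q : E →ₗ[ℝ] E).IsSymmetric := hQ.1.1
  set n := Module.finrank ℝ E with hn
  let b := hsym.eigenvectorBasis hn.symm
  let l : Fin n → ℝ := hsym.eigenvalues hn.symm
  have hBb : ∀ i, Q (b i) = l i • b i := fun i => hsym.apply_eigenvectorBasis hn.symm i
  have hon := b.orthonormal
  have hinn : ∀ i, ⟪b i, b i⟫ = (1 : ℝ) := by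
    intro i
    rw [real_inner_self_eq_norm_sq, hon.norm_eq_one]
    norm_num
  have hll : ∀ i, l i * l i = l i := by
    intro i
    have h1 := hQ.2 (b i)
    rw [hBb, map_smul, hBb, smul_smul] at h1
    have h2 := congrArg (fun y => ⟪b i, y⟫) h1
    simp only [real_inner_smul_right, hinn, mul_one] at h2
    exact h2
  have htr : tr Q = ∑ i, l i := by
    unfold tr
    rw [LinearMap.trace_eq_sum_inner _ b]
    refine Finset.sum_congr rfl fun i _ => ?_
    show ⟪b i, Q (b i)⟫ = l i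
    rw [hBb, real_inner_smul_right, hinn, mul_one]
  have hform : ∀ x : Fin n → ℝ, ‖σ • Q (∑ i, x i • b i) + s‖ ^ 2 =
      ∑ i, ((σ * l i) * x i + ⟪b i, s⟫) ^ 2 := by
    intro x
    rw [← b.sum_sq_norm_inner_right]
    refine Finset.sum_congr rfl fun i _ => ?_
    have h1 : ⟪b i, Q (∑ j, x j • b j)⟫ = l i * x i := by
      have h2 : Q (∑ j, x j • b j) = ∑ j, (l j * x j) • b j := by
        rw [map_sum]
        refine Finset.sum_congr rfl fun j _ => ?_
        rw [map_smul, hBb, smul_smul, mul_comm]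
      rw [h2, hon.inner_right_fintype]
    rw [inner_add_right, real_inner_smul_right, h1, Real.norm_eq_abs, sq_abs]
    ring
  rw [stdGaussian_eq_map_pi_orthonormalBasis b, lintegral_map (by fun_prop) (by fun_prop)]
  have e2 : ∀ x : Fin n → ℝ, f (σ • Q (∑ i, x i • b i)) =
      ∏ i, ENNReal.ofReal (Real.exp (-lam * ((σ * l i) * x i + ⟪b i, s⟫) ^ 2)) := by
    intro x
    show ENNReal.ofReal (Real.exp (-lam * ‖σ • Q (∑ i, x i • b i) + s‖ ^ 2)) = _
    rw [hform, Finset.mul_sum, Real.exp_sum,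
      ENNReal.ofReal_prod_of_nonneg fun i _ => (Real.exp_pos _).le]
  rw [lintegral_congr e2, EXCM.lint_prod (fun _ : Fin n => gaussianReal 0 1)
    (fun (i : Fin n) (z : ℝ) =>
      ENNReal.ofReal (Real.exp (-lam * ((σ * l i) * z + ⟪b i, s⟫) ^ 2))) (fun i => by fun_prop)]
  refine (Finset.prod_le_prod' fun i _ => one lam (σ * l i) ⟪b i, s⟫ hlam).trans_eq ?_
  have hpos : 0 < 1 + 2 * lam * σ2 := by positivity
  rw [← ENNReal.ofReal_prod_of_nonneg fun i _ => by positivity]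
  congr 1
  have e3 : -(tr Q) / 2 = ∑ i, -(l i) / 2 := by
    rw [htr, ← Finset.sum_neg_distrib, Finset.sum_div]
  rw [e3, Real.rpow_sum_of_pos hpos]
  refine Finset.prod_congr rfl fun i _ => ?_
  have h4 : l i = 0 ∨ l i = 1 := by
    have h5 : l i * (l i - 1) = 0 := by linarith [hll i]
    rcases mul_eq_zero.mp h5 with h | h
    · exact Or.inl h
    · exact Or.inr (by linarith)
  rcases h4 with h | h
  · rw [h]
    simp
  · rw [h, mul_one, hσ2]

end Pool.Agent.Lib.MP17fa2c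
end
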