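import Pool.Agent.Lib.MP_17fa2c_pr.TD.SpecM
import Pool.Agent.Lib.MP_17fa2c_pr.TD.NCM

/-!
# MP_17fa2c_pr, module NEG: negative moments of `χ²`
-/

set_option autoImplicit false

open MeasureTheory ProbabilityTheory Filter Topology
open scoped RealInnerProductSpace NNReal ENNReal

namespace Pool.Agent.Lib.MP17fa2c

namespace NEGM

/-- `|x|^{-1/2}` is integrable near `0`. -/
theorem int_loc : IntegrableOn (fun x : ℝ => |x| ^ (-(1 / 2) : ℝ)) (Set.Ioc (-1) 1) volume := by
  have h0 : IntervalIntegrable (fun x : ℝ => x ^ (-(1 / 2) : ℝ)) volume 0 1 :=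
    intervalIntegral.intervalIntegrable_rpow' (by norm_num)
  have h1 : IntervalIntegrable (fun x : ℝ => |x| ^ (-(1 / 2) : ℝ)) volume 0 1 := by
    apply h0.congr
    intro x hx
    rw [Set.uIoc_of_le zero_le_one] at hx
    simp only [abs_of_pos hx.1]
  have h2 : IntervalIntegrable (fun x : ℝ => |x| ^ (-(1 / 2) : ℝ)) volume (-1) 0 := by
    have h := (h1.comp_sub_left 0).symm
    simp only [zero_sub, abs_neg, sub_zero] at h
    exact h
  have h3 := h2.trans h1
  rwa [intervalIntegrable_iff_integrableOn_Ioc_of_le (by norm_num)] at h3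

theorem gauss_le : gaussianReal 0 1 ≤ (volume : Measure ℝ) := by
  rw [gaussianReal_of_var_ne_zero 0 one_ne_zero]
  have h : gaussianPDF 0 1 ≤ (1 : ℝ → ℝ≥0∞) := by
    intro x
    simp only [gaussianPDF, Pi.one_apply]
    rw [← ENNReal.ofReal_one]
    apply ENNReal.ofReal_le_ofReal
    rw [gaussianPDFReal]
    have h1 : (Real.sqrt (2 * Real.pi * ((1 : ℝ≥0) : ℝ)))⁻¹ ≤ 1 := by
      apply inv_le_one_of_one_le₀
      rw [Real.one_le_sqrt]
      have := Real.pi_gt_three
      simp only [NNReal.coe_one, mul_one]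
      linarith
    have h2 : Real.exp (-(x - 0) ^ 2 / (2 * ((1 : ℝ≥0) : ℝ))) ≤ 1 := by
      rw [Real.exp_le_one_iff]
      simp only [NNReal.coe_one, mul_one, sub_zero]
      nlinarith [sq_nonneg x]
    exact mul_le_one₀ h1 (Real.exp_pos _).le h2
  calc (volume : Measure ℝ).withDensity (gaussianPDF 0 1)
      ≤ (volume : Measure ℝ).withDensity 1 := withDensity_mono (Eventually.of_forall h)
    _ = volume := withDensity_one

/-- `E |z|^{-1/2}` -/
noncomputable def A : ℝ≥0∞ :=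
  ∫⁻ x, ENNReal.ofReal (|x| ^ (-(1 / 2) : ℝ)) ∂(gaussianReal 0 1)

theorem A_lt_top : A < ⊤ := by
  have h1 : ∀ x : ℝ, ENNReal.ofReal (|x| ^ (-(1 / 2) : ℝ)) ≤ 1 +
      (Set.Ioc (-1 : ℝ) 1).indicator (fun x => ENNReal.ofReal (|x| ^ (-(1 / 2) : ℝ))) x := by
    intro x
    by_cases hx : x ∈ Set.Ioc (-1 : ℝ) 1
    · rw [Set.indicator_of_mem hx]
      exact le_add_self
    · rw [Set.indicator_of_notMem hx, add_zero, ← ENNReal.ofReal_one]
      apply ENNReal.ofReal_le_ofReal
      have hx1 : 1 ≤ |x| := by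
        by_contra hlt
        push Not at hlt
        rw [abs_lt] at hlt
        exact hx ⟨hlt.1, hlt.2.le⟩
      exact Real.rpow_le_one_of_one_le_of_nonpos hx1 (by norm_num)
  have hmeas : Measurable (fun x : ℝ => ENNReal.ofReal (|x| ^ (-(1 / 2) : ℝ))) :=
    ((continuous_abs.measurable).pow_const _).ennreal_ofReal
  calc A ≤ ∫⁻ x, (1 + (Set.Ioc (-1 : ℝ) 1).indicator
        (fun x => ENNReal.ofReal (|x| ^ (-(1 / 2) : ℝ))) x) ∂(gaussianReal 0 1) :=
        lintegral_mono h1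
    _ = 1 + ∫⁻ x, (Set.Ioc (-1 : ℝ) 1).indicator
        (fun x => ENNReal.ofReal (|x| ^ (-(1 / 2) : ℝ))) x ∂(gaussianReal 0 1) := by
        rw [lintegral_add_left measurable_const, lintegral_one, measure_univ]
    _ ≤ 1 + ∫⁻ x, (Set.Ioc (-1 : ℝ) 1).indicator
        (fun x => ENNReal.ofReal (|x| ^ (-(1 / 2) : ℝ))) x := by
        gcongr
        exact gauss_le
    _ < ⊤ := by
        rw [lintegral_indicator measurableSet_Ioc]
        have h := int_loc.2
        have h' : ∫⁻ x in Set.Ioc (-1 : ℝ) 1, ENNReal.ofReal (|x| ^ (-(1 / 2) : ℝ)) < ⊤ := by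
          refine lt_of_le_of_lt (lintegral_mono fun x => ?_) h
          exact Real.ofReal_le_enorm _
        exact ENNReal.add_lt_top.2 ⟨ENNReal.one_lt_top, h'⟩

theorem one_le_of (s : ℝ) (hs : 0 ≤ s) (hs2 : 2 * s ≤ 1) :
    ∫⁻ x, ENNReal.ofReal (|x| ^ (-s)) ∂(gaussianReal 0 1) ≤ A ^ (2 * s) := by
  rcases hs.eq_or_lt with h0 | h0
  · rw [← h0]
    simp
  · have hmeas : Measurable (fun x : ℝ => ENNReal.ofReal (|x| ^ (-(1 / 2) : ℝ))) :=
      ((continuous_abs.measurable).pow_const _).ennreal_ofReal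
    have h := EXAM.jensen (gaussianReal 0 1) (fun x : ℝ =>
      ENNReal.ofReal (|x| ^ (-(1 / 2) : ℝ))) hmeas (2 * s) (by positivity) hs2
    refine le_trans (le_of_eq ?_) h
    refine lintegral_congr (fun x => ?_)
    rw [ENNReal.ofReal_rpow_of_nonneg (by positivity) (by positivity),
      ← Real.rpow_mul (abs_nonneg x)]
    congr 2
    ring

theorem amgm {N : ℕ} (hN : 0 < N) (z : Fin N → ℝ) (hz : ∀ i, z i ≠ 0) (r : ℝ) (hr : 0 ≤ r) :
    ((∑ i, z i ^ 2) / N) ^ (-r) ≤ ∏ i, |z i| ^ (-(2 * r / N)) := by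
  have hN' : (0 : ℝ) < N := by exact_mod_cast hN
  have h := Real.geom_mean_le_arith_mean_weighted Finset.univ (fun _ : Fin N => 1 / (N : ℝ))
    (fun i => z i ^ 2) (fun _ _ => by positivity)
    (by
      simp only [Finset.sum_const, Finset.card_univ, Fintype.card_fin, nsmul_eq_mul]
      field_simp)
    (fun _ _ => sq_nonneg _)
  have hpos : 0 < ∏ i, (z i ^ 2) ^ (1 / (N : ℝ)) :=
    Finset.prod_pos (fun i _ => Real.rpow_pos_of_pos (by have := hz i; positivity) _)
  have h2 : ∑ i, 1 / (N : ℝ) * z i ^ 2 = (∑ i, z i ^ 2) / N := by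
    rw [← Finset.mul_sum]
    ring
  rw [h2] at h
  refine (Real.rpow_le_rpow_of_nonpos hpos h (by linarith)).trans (le_of_eq ?_)
  rw [← Real.finsetProd_rpow _ _ (fun i _ => by positivity)]
  refine Finset.prod_congr rfl (fun i _ => ?_)
  rw [← sq_abs, ← Real.rpow_natCast, ← Real.rpow_mul (abs_nonneg _),
    ← Real.rpow_mul (abs_nonneg _)]
  congr 1
  push_cast
  ring

theorem ae_ne (N : ℕ) : ∀ᵐ z ∂(Measure.pi (fun _ : Fin N => gaussianReal 0 1)),
    ∀ i, z i ≠ 0 := by
  rw [ae_all_iff]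
  intro i
  have := nullSingletonClass_gaussianReal (μ := 0) (v := 1) one_ne_zero
  have h : ∀ᵐ x ∂(gaussianReal 0 1), x ≠ 0 := by
    rw [ae_iff]
    simp
  exact (measurePreserving_eval (fun _ : Fin N => gaussianReal 0 1) i).quasiMeasurePreserving.ae h

end NEGM

/-- Module NEG. -/
theorem specNEG : SpecNEG := by
  have ht := NEGM.A_lt_top
  have hT : 0 ≤ NEGM.A.toReal := ENNReal.toReal_nonneg
  refine ⟨(NEGM.A.toReal + 1) ^ 4, one_le_pow₀ (by linarith), ?_⟩
  intro N r hN hr h4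
  have hN' : (0 : ℝ) < N := by exact_mod_cast hN
  have hm : Measurable (fun x : ℝ => ENNReal.ofReal ((x ^ 2 / N) ^ (-r))) :=
    (((measurable_id.pow_const 2).div_const _).pow_const _).ennreal_ofReal
  have hchi : chi N = (Measure.pi (fun _ : Fin N => gaussianReal 0 1)).map
      (fun z => ‖WithLp.toLp 2 z‖) := by
    unfold chi
    rw [← map_pi_eq_stdGaussian, Measure.map_map (by fun_prop) (by fun_prop)]
    rfl
  rw [hchi, lintegral_map hm (by fun_prop)]
  have hs : 2 * (2 * r / N) ≤ 1 := by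
    rw [show 2 * (2 * r / (N : ℝ)) = 4 * r / N by ring, div_le_one hN']
    exact h4
  calc ∫⁻ z, ENNReal.ofReal ((‖WithLp.toLp 2 z‖ ^ 2 / N) ^ (-r))
        ∂(Measure.pi (fun _ : Fin N => gaussianReal 0 1))
      ≤ ∫⁻ z, ∏ i, ENNReal.ofReal (|z i| ^ (-(2 * r / N)))
        ∂(Measure.pi (fun _ : Fin N => gaussianReal 0 1)) := by
        refine lintegral_mono_ae ?_
        filter_upwards [NEGM.ae_ne N] with z hz
        rw [← ENNReal.ofReal_prod_of_nonneg (fun i _ => by positivity)]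
        apply ENNReal.ofReal_le_ofReal
        have e : ‖WithLp.toLp 2 z‖ ^ 2 = ∑ i, z i ^ 2 := by
          rw [EuclideanSpace.norm_sq_eq]
          simp
        rw [e]
        exact NEGM.amgm hN z hz r hr
    _ = ∏ _i : Fin N, ∫⁻ x, ENNReal.ofReal (|x| ^ (-(2 * r / N))) ∂(gaussianReal 0 1) :=
        EXAM.lint_prod (fun _ : Fin N => gaussianReal 0 1)
          (fun _ x => ENNReal.ofReal (|x| ^ (-(2 * r / N))))
          (fun _ => ((continuous_abs.measurable).pow_const _).ennreal_ofReal)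
    _ ≤ ∏ _i : Fin N, NEGM.A ^ (2 * (2 * r / N)) :=
        Finset.prod_le_prod' (fun _ _ => NEGM.one_le_of _ (by positivity) hs)
    _ = NEGM.A ^ (4 * r) := by
        rw [Finset.prod_const, Finset.card_univ, Fintype.card_fin, ← ENNReal.rpow_natCast,
          ← ENNReal.rpow_mul]
        congr 1
        field_simp
        ring
    _ ≤ ENNReal.ofReal (NEGM.A.toReal + 1) ^ (4 * r) := by
        apply ENNReal.rpow_le_rpow _ (by positivity)
        calc NEGM.A = ENNReal.ofReal NEGM.A.toReal := (ENNReal.ofReal_toReal ht.ne).symm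
          _ ≤ _ := ENNReal.ofReal_le_ofReal (by linarith)
    _ = ENNReal.ofReal (((NEGM.A.toReal + 1) ^ 4) ^ r) := by
        rw [ENNReal.ofReal_rpow_of_nonneg (by positivity) (by positivity), Real.rpow_mul
          (by positivity)]
        congr 2
        norm_cast

end Pool.Agent.Lib.MP17fa2c
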