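import Pool.Agent.Lib.MP_17fa2c_pr.TD.SpecW

/-!
# OUC: characteristic functions of the limit process
-/

set_option autoImplicit false

open MeasureTheory ProbabilityTheory Filter Topology
open scoped NNReal ENNReal BoundedContinuousFunction

namespace Pool.Agent.Lib.MP17fa2c

namespace OUCM

variable {K : Type} [Fintype K] {Ω' : Type} [MeasurableSpace Ω'] {P' : Measure Ω'}
  {Y : Ω' → Pth K}

lemma meas_k (h : IsOU P' Y) (t : ℝ≥0) (k : K) : Measurable fun ω => Y ω t k :=
  (measurable_pi_apply k).comp (h.meas t)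

lemma memLp_k (h : IsOU P' Y) (t : ℝ≥0) (k : K) : MemLp (fun ω => Y ω t k) 2 P' :=
  ((h.gauss k).hasGaussianLaw_eval t).memLp_two

lemma int_mul (h : IsOU P' Y) (s t : ℝ≥0) (k : K) :
    Integrable (fun ω => Y ω s k * Y ω t k) P' :=
  (memLp_k h s k).integrable_mul (memLp_k h t k)

/-- the linear combination -/
noncomputable def L (Y : Ω' → Pth K) {m : ℕ} (t : Fin m → ℝ≥0) (lam : Fin m → K → ℝ) (k : K)
    (ω : Ω') : ℝ := ∑ i, lam i k * Y ω (t i) k

lemma gauss (h : IsOU P' Y) {m : ℕ} (t : Fin m → ℝ≥0) (lam : Fin m → K → ℝ) (k : K) :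
    HasGaussianLaw (L Y t lam k) P' := by
  classical
  have h1 : IsGaussianProcess (fun (_ : Unit) (ω : Ω') => L Y t lam k ω) P' := by
    refine (h.gauss k).of_isGaussianProcess fun _ => ⟨Finset.univ.image t,
      ∑ i, lam i k • ContinuousLinearMap.proj (R := ℝ) (φ := fun _ => ℝ)
        (⟨t i, Finset.mem_image_of_mem t (Finset.mem_univ i)⟩ : (Finset.univ.image t : Finset ℝ≥0)), fun ω => ?_⟩
    simp [L, Finset.restrict]
  exact h1.hasGaussianLaw_eval ()

lemma mean0 (h : IsOU P' Y) {m : ℕ} (t : Fin m → ℝ≥0) (lam : Fin m → K → ℝ) (k : K)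
    [IsProbabilityMeasure P'] : ∫ ω, L Y t lam k ω ∂P' = 0 := by
  unfold L
  rw [integral_finsetSum _ fun i _ => ((memLp_k h (t i) k).integrable (by norm_num)).const_mul _]
  simp [integral_const_mul, h.mean]

lemma sq (h : IsOU P' Y) {m : ℕ} (t : Fin m → ℝ≥0) (lam : Fin m → K → ℝ) (k : K) :
    ∫ ω, L Y t lam k ω ^ 2 ∂P' =
      2 * ∑ i, ∑ l, lam i k * lam l k * Real.exp (-2 * |(t i : ℝ) - t l|) := by
  have e : (fun ω => L Y t lam k ω ^ 2) =
      fun ω => ∑ i, ∑ l, (lam i k * lam l k) * (Y ω (t i) k * Y ω (t l) k) := by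
    funext ω
    unfold L
    rw [pow_two, Finset.sum_mul_sum]
    refine Finset.sum_congr rfl fun i _ => Finset.sum_congr rfl fun l _ => ?_
    ring
  rw [e, integral_finsetSum _ fun i _ => integrable_finsetSum _ fun l _ =>
    (int_mul h (t i) (t l) k).const_mul _, Finset.mul_sum]
  refine Finset.sum_congr rfl fun i _ => ?_
  rw [integral_finsetSum _ fun l _ => (int_mul h (t i) (t l) k).const_mul _, Finset.mul_sum]
  refine Finset.sum_congr rfl fun l _ => ?_
  rw [integral_const_mul, h.cov, abs_sub_comm]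
  ring

lemma chf (h : IsOU P' Y) {m : ℕ} (t : Fin m → ℝ≥0) (lam : Fin m → K → ℝ) (k : K)
    [IsProbabilityMeasure P'] : charFun (P'.map (L Y t lam k)) 1 =
      Complex.exp (-(∑ i, ∑ l, lam i k * lam l k * Real.exp (-2 * |(t i : ℝ) - t l|) : ℝ)) := by
  have hg := gauss h t lam k
  have hm := mean0 h t lam k
  have hv : 0 ≤ 2 * ∑ i, ∑ l, lam i k * lam l k * Real.exp (-2 * |(t i : ℝ) - t l|) := by
    rw [← sq h t lam k]
    exact integral_nonneg fun ω => sq_nonneg _
  rw [hg.map_eq_gaussianReal, variance_of_integral_eq_zero hg.aemeasurable hm, sq h, hm,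
    charFun_gaussianReal, Real.coe_toNNReal _ hv]
  congr 1
  push_cast
  ring

end OUCM

open OUCM in
theorem specOUC : SpecOUC := by
  intro K _ Ω' _ P' _ Y h m t lam
  have hmeas : ∀ k, Measurable (L Y t lam k) := fun k =>
    Finset.measurable_sum _ fun i _ => (meas_k h (t i) k).const_mul _
  have hind : iIndepFun (fun k => L Y t lam k) P' := by
    have h1 := h.indep.comp (fun (k : K) (y : ℝ≥0 → ℝ) => ∑ i, lam i k * y (t i))
      (fun k => Finset.measurable_sum _ fun i _ => (measurable_pi_apply (t i)).const_mul _)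
    exact h1
  have h2 := hind.charFun_map_fun_sum_eq_prod fun k => (hmeas k).aemeasurable
  have h3 := congrFun h2 1
  rw [Finset.prod_apply] at h3
  simp only [chf h t lam] at h3
  rw [charFun_apply, integral_map] at h3
  · rw [← Complex.exp_sum] at h3
    convert h3 using 1
    · refine integral_congr_ae (ae_of_all _ fun ω => ?_)
      simp only [L]
      rw [Finset.sum_comm]
      simp [mul_comm]
    · congr 1
      push_cast
      rw [Finset.sum_neg_distrib]
  · exact (Finset.measurable_sum _ fun k _ => hmeas k).aemeasurable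
  · fun_prop

end Pool.Agent.Lib.MP17fa2c
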