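import Pool.Agent.Lib.MP_17fa2c_pr.TD.Defs

/-!
# MP_17fa2c_pr, block A: linear algebra, exploration, Gaussian families

Every module: file `TD/XXX.lean`, `import Pool.Agent.Lib.MP_17fa2c_pr.TD.SpecA`,
`theorem specXXX (hYYY : SpecYYY) .. : SpecXXX`, own lemmas in the namespace `XXXM`.
-/

set_option autoImplicit false

open MeasureTheory ProbabilityTheory Filter Topology
open scoped RealInnerProductSpace NNReal ENNReal

namespace Pool.Agent.Lib.MP17fa2c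

/-! ## Part 1: linear algebra -/

/-- **JON** (80 lines). Facts on the `J a`.
Proof. `J a` is a linear isometry, so `⟪J a x, J a y⟫ = ⟪x, y⟫` (polarization, e.g.
`LinearIsometry.inner_map_map`). For `a ≠ b` one of them is `≠ o`, say `a` (else swap):
`⟪J a x, J b x⟫ = -⟪x, J a (J b x)⟫ = -s ⟪x, J c x⟫` with `c ≠ o` (`mul`), and `⟪x, J c x⟫ = 0` by `skew`.
`cp P` is symmetric, commutes with `J a`, idempotent; `‖P x‖² = ⟪P x, x⟫ ≤ ‖P x‖ ‖x‖`. -/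
def SpecJON : Prop := ∀ (ι : Type) [Fintype ι] [DecidableEq ι] (E : Type) [NormedAddCommGroup E]
  [InnerProductSpace ℝ E] (S : BStr ι E),
  (∀ a b x, ⟪S.J a x, S.J b x⟫ = if a = b then ‖x‖ ^ 2 else 0) ∧
  (∀ a x y, ⟪S.J a x, S.J a y⟫ = ⟪x, y⟫) ∧
  (∀ P, IsPr S P → IsPr S (cp P)) ∧
  (∀ P, IsPr S P → ∀ x, ‖P x‖ ≤ ‖x‖) ∧
  (∀ P, IsPr S P → ∀ x, ‖x‖ ^ 2 = ‖P x‖ ^ 2 + ‖cp P x‖ ^ 2) ∧
  ∀ P A, IsPr S P → Herm S A → Herm S (P ∘L A ∘L P)

/-- **TRA** (80 lines). Traces. (`LinearMap.trace_eq_sum_inner` for an orthonormal basis; the trace of a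
projection is the rank, or: `tr P = ∑ ⟪b_i, P b_i⟫ = ∑ ‖P b_i‖²`. For `a ≠ o`, `⟪x, P (J a (P x))⟫ =
⟪P x, J a (P x)⟫ = 0`.) -/
def SpecTRA : Prop := ∀ (ι : Type) [Fintype ι] [DecidableEq ι] (E : Type) [NormedAddCommGroup E]
  [InnerProductSpace ℝ E] [FiniteDimensional ℝ E] (S : BStr ι E) (P : E →L[ℝ] E), IsPr S P →
  0 ≤ tr P ∧ tr P ≤ dm E ∧ tr (cp P) = dm E - tr P ∧
  (∀ a, a ≠ S.o → tr (P ∘L S.J a ∘L P) = 0) ∧ (tr P = 0 → P = 0)

/-- **ADD** (150 lines; from JON). Adding a vector.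
Proof. Let `w = cp P v`. All `J a w` are in the range of `cp P` (which commutes with `J a`), they are
orthogonal with norm `‖w‖` (JON). If `w ≠ 0` then `P' = P + ‖w‖⁻² ∑_a (J a w) ⊗ (J a w)` is the sum of
two orthogonal projections with orthogonal ranges. Commutation with `J b`: `b` fixed, `J b (J a w) =
± J (c a) w`, and `a ↦ c a` is injective (JON: `J (c a) w = ± J b (J a w)`, `J b` isometry), hence bijective.
`⟪J a w, v⟫ = ⟪J a w, w⟫ = δ_{a o} ‖w‖²` gives `P' v = v`. `tr (rankOne x x) = ‖x‖²`. If `w = 0`, `P' = P`. -/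
def SpecADD : Prop := ∀ (ι : Type) [Fintype ι] [DecidableEq ι] (E : Type) [NormedAddCommGroup E]
  [InnerProductSpace ℝ E] [FiniteDimensional ℝ E] (S : BStr ι E) (P : E →L[ℝ] E) (v : E),
  IsPr S P →
  IsPr S (addv S P v) ∧ addv S P v v = v ∧ (∀ x, P (addv S P v x) = P x) ∧
  (∀ x, addv S P v (P x) = P x) ∧ tr (addv S P v) ≤ tr P + Fintype.card ι ∧
  (cp P v ≠ 0 → tr (addv S P v) = tr P + Fintype.card ι) ∧
  ∀ x, (∀ a, ⟪S.J a v, x⟫ = 0) → P x = 0 → addv S P v x = 0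

/-- **LOR** (200 lines). Orthogonality of the Lanczos vectors, including the degenerate case.
Proof. Strong induction. As long as `b_0, …, b_{j-1} ≠ 0` the vectors `q_0, …, q_j` are orthonormal:
`w_j = A q_j - a_j q_j - b_{j-1} q_{j-1}`, `⟪q_j, w_j⟫ = 0`, `⟪q_{j-1}, A q_j⟫ = ⟪A q_{j-1}, q_j⟫ = b_{j-1}`,
`⟪q_i, A q_j⟫ = ⟪A q_i, q_j⟫ = 0` for `i + 1 < j`. If `b_i = 0` then `q_{i+1} = 0` and `(lan (i+1)).1 = 0` and
all later vectors are `0`. `w_j` is `A q_j` minus its components along `q_j`, `q_{j-1}`, so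
`b_j ≤ ‖A q_j‖ ≤ ‖A‖`. -/
def SpecLOR : Prop := ∀ (E : Type) [NormedAddCommGroup E] [InnerProductSpace ℝ E]
  (A : E →L[ℝ] E) (u : E), (∀ x y, ⟪A x, y⟫ = ⟪x, A y⟫) → ‖u‖ = 1 →
  (∀ i j, i ≠ j → ⟪qv A u i, qv A u j⟫ = 0) ∧
  (∀ j, (∀ i < j, bv A u i ≠ 0) → ‖qv A u j‖ = 1) ∧
  (∀ j, (∃ i < j, bv A u i = 0) → qv A u j = 0) ∧
  (∀ j, A (qv A u j) = bv A u j • qv A u (j + 1) + av A u j • qv A u j + (lan A u j).1) ∧
  (∀ j, (lan A u (j + 1)).1 = bv A u j • qv A u j) ∧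
  (∀ j, ⟪qv A u (j + 1), A (qv A u j)⟫ = bv A u j) ∧
  (∀ j, bv A u j ≤ ‖A‖) ∧ ∀ j, |av A u j| ≤ ‖A‖

/-- **LHM** (60 lines). The Lanczos vectors are orthonormal over `𝔽`.
Proof. `⟪A^i u, J a (A^j u)⟫ = ⟪u, J a (A^(i+j) u)⟫`, and for `a ≠ o` this is `-⟪J a u, A^m u⟫ =
-⟪J a (A^m u), u⟫`, so it is `0`. `q_j` is in the span of the `A^i u`. -/
def SpecLHM : Prop := ∀ (ι : Type) [Fintype ι] [DecidableEq ι] (E : Type) [NormedAddCommGroup E]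
  [InnerProductSpace ℝ E] (S : BStr ι E) (A : E →L[ℝ] E) (u : E), Herm S A →
  ∀ a, a ≠ S.o → ∀ i j, ⟪qv A u i, S.J a (qv A u j)⟫ = 0

/-- **EXP** (120 lines; from ADD). The exploration projections. -/
def SpecEXP : Prop := ∀ (ι : Type) [Fintype ι] [DecidableEq ι] (E : Type) [NormedAddCommGroup E]
  [InnerProductSpace ℝ E] [FiniteDimensional ℝ E] (T : Type) [Fintype T] (S : BStr ι E) (u : E)
  (M : T → E →L[ℝ] E) (j : ℕ),
  IsPr S (expl S u M j) ∧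
  (∀ i ≤ j, ∀ x, expl S u M i (expl S u M j x) = expl S u M i x ∧
    expl S u M j (expl S u M i x) = expl S u M i x) ∧
  (∀ l < j, ∀ i, expl S u M j (qv (M i) u l) = qv (M i) u l) ∧
  tr (expl S u M j) ≤ Fintype.card ι * Fintype.card T * j

/-- **KNO** (120 lines; from EXP, JON). The resampled family has the same known data.
Proof. `M' i x = M i x` for `x` in the range of `expl S u M j` (`cp P x = 0`). By induction on `l ≤ j`:
`lan (M' i) u l = lan (M i) u l` (for `l < j` the vector `q_l` is in the range), then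
`expl M' l = expl M l` for `l ≤ j + 1` (only `q_0, …, q_j` enter). -/
def SpecKNO : Prop := ∀ (ι : Type) [Fintype ι] [DecidableEq ι] (E : Type) [NormedAddCommGroup E]
  [InnerProductSpace ℝ E] [FiniteDimensional ℝ E] (T : Type) [Fintype T] (S : BStr ι E) (u : E)
  (M G : T → E →L[ℝ] E) (j : ℕ), HermF S M → HermF S G →
  HermF S (res (expl S u M j) M G) ∧
  (∀ x, expl S u M j x = x → ∀ i, res (expl S u M j) M G i x = M i x) ∧
  (∀ l ≤ j, ∀ i, lan (res (expl S u M j) M G i) u l = lan (M i) u l) ∧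
  (∀ l ≤ j + 1, expl S u (res (expl S u M j) M G) l = expl S u M l) ∧
  ∀ l < j, ∀ i, av (res (expl S u M j) M G i) u l = av (M i) u l ∧
    bv (res (expl S u M j) M G i) u l = bv (M i) u l

/-- **MEA** (100 lines). Measurability (everything is made of continuous operations and `x ↦ x⁻¹`). -/
def SpecMEA : Prop := ∀ (ι : Type) [Fintype ι] [DecidableEq ι] (E : Type) [NormedAddCommGroup E]
  [InnerProductSpace ℝ E] [FiniteDimensional ℝ E] [MeasurableSpace E] [BorelSpace E]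
  (T : Type) [Fintype T] (S : BStr ι E) (u : E) (j : ℕ),
  (Measurable fun M : T → E →L[ℝ] E => expl S u M j) ∧
  (∀ i, Measurable fun M : T → E →L[ℝ] E => lan (M i) u j) ∧
  (∀ i, Measurable fun M : T → E →L[ℝ] E => av (M i) u j) ∧
  (∀ i, Measurable fun M : T → E →L[ℝ] E => bv (M i) u j) ∧
  (∀ i, Measurable fun M : T → E →L[ℝ] E => rho (M i) u j) ∧
  (Measurable fun p : (E →L[ℝ] E) × (T → E →L[ℝ] E) × (T → E →L[ℝ] E) => res p.1 p.2.1 p.2.2)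

/-- **EXO** (120 lines; from LOR, LHM, ADD, EXP). Exploration of a single matrix: as long as
`b_0, …, b_{j-1} ≠ 0`, the vectors `q_0, …, q_j` are orthonormal over `𝔽`.
Proof. Induction on `j`: `expl (j+1) = addv (expl j) q_j` (`T = Unit`), `cp (expl j) q_j = q_j` because
`q_j` is orthogonal to all `J a q_l`, `l < j` (last part of ADD), so the trace grows by `card ι`. -/
def SpecEXO : Prop := ∀ (ι : Type) [Fintype ι] [DecidableEq ι] (E : Type) [NormedAddCommGroup E]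
  [InnerProductSpace ℝ E] [FiniteDimensional ℝ E] (S : BStr ι E) (u : E)
  (M : Unit → E →L[ℝ] E) (j : ℕ), HermF S M → ‖u‖ = 1 → (∀ l < j, bv (M ()) u l ≠ 0) →
  expl S u M j (qv (M ()) u j) = 0 ∧ ‖qv (M ()) u j‖ = 1 ∧
  tr (expl S u M (j + 1)) = Fintype.card ι * (j + 1) ∧
  bv (M ()) u j = ‖cp (expl S u M (j + 1)) (M () (qv (M ()) u j))‖

/-! ## Part 2: Gaussian families -/

/-- **GLF** (150 lines). Linear functionals of a Gaussian family: the law is Gaussian with the variance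
given by the covariances.
Proof. `G ↦ ∑_k ⟪x k, G (i k) (y k)⟫` is a continuous linear functional, so its law is
Gaussian (`IsGaussian.map_eq_gaussianReal`) with mean `0` (`mean`) and variance the
integral of the square, computed with `cov`. -/
def SpecGLF : Prop := ∀ (ι : Type) [Fintype ι] [DecidableEq ι] (E : Type) [NormedAddCommGroup E]
  [InnerProductSpace ℝ E] [FiniteDimensional ℝ E] (T : Type) [Fintype T] (S : BStr ι E)
  (c : T → T → ℝ) (ν : Measure (T → E →L[ℝ] E)), GFam S c ν →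
  ∀ (K : Type) [Fintype K] (i : K → T) (x y : K → E) (v : ℝ),
  v = ∑ k, ∑ k', c (i k) (i k') * ∑ a, (⟪x k, S.J a (x k')⟫ * ⟪y k, S.J a (y k')⟫ +
    ⟪x k, S.J a (y k')⟫ * ⟪y k, S.J a (x k')⟫) →
  0 ≤ v ∧ ν.map (fun G => ∑ k, ⟪x k, G (i k) (y k)⟫) = gaussianReal 0 v.toNNReal

/-- **GMO** (80 lines). Moments of the one-dimensional Gaussian. (Integration by parts, or the
moment generating function, or the known even moments.) -/
def SpecGMO : Prop := (∀ v : ℝ≥0, ∫ x, x ^ 2 ∂(gaussianReal 0 v) = v) ∧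
  (∀ v : ℝ≥0, ∫ x, x ^ 4 ∂(gaussianReal 0 v) = 3 * (v : ℝ) ^ 2) ∧
  (∫ x, x ^ 6 ∂(gaussianReal 0 1) = 15) ∧ (∫ x, x ^ 8 ∂(gaussianReal 0 1) = 105) ∧
  ∀ (v : ℝ≥0) (n : ℕ), Integrable (fun x : ℝ => x ^ n) (gaussianReal 0 v)

/-- **RPF** (200 lines). Resampling for a fixed projection.
Proof. `X M = (i ↦ M i - cp P M i cp P)`, `Y M = (i ↦ cp P M i cp P)`: `(X, Y)` is a Gaussian vector and
`cov(⟪x, X i y⟫, ⟪x', Y l y'⟫) = 0` (with `R = cp P`: `⟪x, J a (R x')⟫ = ⟪R x, J a (R x')⟫`), so `X`, `Y` are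
independent (`HasGaussianLaw.indepFun_of_covariance_strongDual`; functionals of the operator space are sums
of `⟪x, · y⟫`). `M = X M + Y M` and `res P M G = X M + Y G` for `G` an independent copy. -/
def SpecRPF : Prop := ∀ (ι : Type) [Fintype ι] [DecidableEq ι] (E : Type) [NormedAddCommGroup E]
  [InnerProductSpace ℝ E] [FiniteDimensional ℝ E] (T : Type) [Fintype T] (S : BStr ι E)
  (c : T → T → ℝ) (ν : Measure (T → E →L[ℝ] E)), GFam S c ν → ∀ P, IsPr S P →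
  ∀ F : (T → E →L[ℝ] E) → ℝ≥0∞, Measurable F →
  ∫⁻ M, F M ∂ν = ∫⁻ M, ∫⁻ G, F (res P M G) ∂ν ∂ν

/-- **RPE** (200 lines; from RPF, KNO, MEA, EXP). Resampling along the exploration.
Proof. Induction on `j`; `j = 0`: `expl = 0`, `res 0 M G = G`. Step: put `Π = expl M j`, `Π' = expl M (j+1)`,
`K = M - cp Π M cp Π`. By induction `∫⁻ F = ∫⁻∫⁻ F(K + cp Π G cp Π)`; for fixed `M` apply RPF with
`P = Π'` to `G ↦ F(K + cp Π G cp Π)`: the integrand becomes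
`F(K + cp Π G cp Π - cp Π' G cp Π' + cp Π' G' cp Π')` (as `cp Π cp Π' = cp Π'`). On the other
side apply the induction hypothesis to `M ↦ ∫⁻ F(res (expl M (j+1)) M G') dν(G')`: as
`expl (K + cp Π G cp Π) (j+1) = Π'` (KNO) and `cp Π' K cp Π' = 0` it is the same integral.
(All equalities for a.e. `M, G`, Hermitian.) -/
def SpecRPE : Prop := ∀ (ι : Type) [Fintype ι] [DecidableEq ι] (E : Type) [NormedAddCommGroup E]
  [InnerProductSpace ℝ E] [FiniteDimensional ℝ E] (T : Type) [Fintype T] (S : BStr ι E)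
  (c : T → T → ℝ) (ν : Measure (T → E →L[ℝ] E)) (u : E), GFam S c ν → ∀ j : ℕ,
  ∀ F : (T → E →L[ℝ] E) → ℝ≥0∞, Measurable F →
  ∫⁻ M, F M ∂ν = ∫⁻ M, ∫⁻ G, F (res (expl S u M j) M G) ∂ν ∂ν

/-- **RPI** (100 lines; from RPE). The same for integrable real or complex functions. -/
def SpecRPI : Prop := ∀ (ι : Type) [Fintype ι] [DecidableEq ι] (E : Type) [NormedAddCommGroup E]
  [InnerProductSpace ℝ E] [FiniteDimensional ℝ E] (T : Type) [Fintype T] (S : BStr ι E)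
  (c : T → T → ℝ) (ν : Measure (T → E →L[ℝ] E)) (u : E), GFam S c ν → ∀ j : ℕ,
  (∀ F : (T → E →L[ℝ] E) → ℝ, Measurable F → Integrable F ν →
    (∀ᵐ M ∂ν, Integrable (fun G => F (res (expl S u M j) M G)) ν) ∧
    Integrable (fun M => ∫ G, F (res (expl S u M j) M G) ∂ν) ν ∧
    ∫ M, F M ∂ν = ∫ M, ∫ G, F (res (expl S u M j) M G) ∂ν ∂ν) ∧
  ∀ F : (T → E →L[ℝ] E) → ℂ, Measurable F → Integrable F ν →
    (∀ᵐ M ∂ν, Integrable (fun G => F (res (expl S u M j) M G)) ν) ∧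
    Integrable (fun M => ∫ G, F (res (expl S u M j) M G) ∂ν) ν ∧
    ∫ M, F M ∂ν = ∫ M, ∫ G, F (res (expl S u M j) M G) ∂ν ∂ν

/-- **MRG** (80 lines). Marginals of Gaussian families, and polynomial moments of the norm
(`IsGaussian.memLp_id`). -/
def SpecMRG : Prop := ∀ (ι : Type) [Fintype ι] [DecidableEq ι] (E : Type) [NormedAddCommGroup E]
  [InnerProductSpace ℝ E] [FiniteDimensional ℝ E] (T : Type) [Fintype T] (S : BStr ι E)
  (c : T → T → ℝ) (ν : Measure (T → E →L[ℝ] E)), GFam S c ν →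
  (∀ (T' : Type) [Fintype T'] (f : T' → T),
    GFam S (fun i l => c (f i) (f l)) (ν.map (fun M i => M (f i)))) ∧
  ∀ (i : T) (n : ℕ), Integrable (fun M => ‖M i‖ ^ n) ν

/-- **UNQ** (120 lines). The law of a Gaussian family is determined by `S`, `c`.
Proof. Both measures are Gaussian with the same mean and covariances of the functionals `⟪x, · i y⟫`,
which span the dual: equal characteristic functions (`Measure.ext_of_charFunDual`). -/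
def SpecUNQ : Prop := ∀ (ι : Type) [Fintype ι] [DecidableEq ι] (E : Type) [NormedAddCommGroup E]
  [InnerProductSpace ℝ E] [FiniteDimensional ℝ E] (T : Type) [Fintype T] (S : BStr ι E)
  (c : T → T → ℝ) (ν ν' : Measure (T → E →L[ℝ] E)), GFam S c ν → GFam S c ν' → ν = ν'

/-- **ISO** (150 lines; from JON). Isotropic vectors.
Proof. Both sides are centered Gaussian measures on `E`; `Z = ∑ Q (G i (r i))` has covariances
`E ⟪y, Z⟫ ⟪y', Z⟫ = ∑_{i,l} c i l ∑_a (⟪Q y, J a (Q y')⟫ ⟪r i, J a (r l)⟫ + ⟪Q y, J a (r l)⟫ ⟪r i, J a (Q y')⟫)`;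
the second terms vanish as `Q (r l) = 0`; for `a ≠ o` `∑_{i,l} c i l ⟪r i, J a (r l)⟫ = 0` by
antisymmetry; what remains is `⟪Q y, Q y'⟫ σ²`. -/
def SpecISO : Prop := ∀ (ι : Type) [Fintype ι] [DecidableEq ι] (E : Type) [NormedAddCommGroup E]
  [InnerProductSpace ℝ E] [FiniteDimensional ℝ E] [MeasurableSpace E] [BorelSpace E]
  (T : Type) [Fintype T] (S : BStr ι E)
  (c : T → T → ℝ) (ν : Measure (T → E →L[ℝ] E)), GFam S c ν → (∀ i l, c i l = c l i) →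
  ∀ (Q : E →L[ℝ] E) (r : T → E), IsPr S Q → (∀ i, Q (r i) = 0) →
  0 ≤ ∑ i, ∑ l, c i l * ⟪r i, r l⟫ ∧
  ν.map (fun G => ∑ i, Q (G i (r i))) =
    (stdGaussian E).map (fun x => Real.sqrt (∑ i, ∑ l, c i l * ⟪r i, r l⟫) • Q x)

/-- **IND** (120 lines). The blocks `Q^⊥ G Q^⊥` and `Q G Q^⊥` are independent (covariance `0`). -/
def SpecIND : Prop := ∀ (ι : Type) [Fintype ι] [DecidableEq ι] (E : Type) [NormedAddCommGroup E]
  [InnerProductSpace ℝ E] [FiniteDimensional ℝ E] (T : Type) [Fintype T] (S : BStr ι E)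
  (c : T → T → ℝ) (ν : Measure (T → E →L[ℝ] E)), GFam S c ν → ∀ Q, IsPr S Q →
  IndepFun (fun G : T → E →L[ℝ] E => fun i => cp Q ∘L G i ∘L cp Q)
    (fun G : T → E →L[ℝ] E => fun i => Q ∘L G i ∘L cp Q) ν

/-- **CHN** (100 lines). The law of `‖Q x‖²` under the standard Gaussian depends only on the rank.
Proof. `n = tr Q` is the rank; `Q = W W*` with `W : EuclideanSpace ℝ (Fin n) → E` a linear isometry onto
the range; `W* x` is standard Gaussian (`stdGaussian_map`) and `‖Q x‖ = ‖W* x‖`. Moments: sum of `n`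
independent `z²`, `z²` has mean `1` and variance `2`. -/
def SpecCHN : Prop := ∀ (E : Type) [NormedAddCommGroup E]
  [InnerProductSpace ℝ E] [FiniteDimensional ℝ E] [MeasurableSpace E] [BorelSpace E]
  (Q : E →L[ℝ] E) (n : ℕ), (∀ x y, ⟪Q x, y⟫ = ⟪x, Q y⟫) → (∀ x, Q (Q x) = Q x) → tr Q = n →
  (stdGaussian E).map (fun x => ‖Q x‖) =
    (stdGaussian (EuclideanSpace ℝ (Fin n))).map (fun x => ‖x‖) ∧
  ∫ x, ‖Q x‖ ^ 2 ∂(stdGaussian E) = n ∧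
  ∫ x, (‖Q x‖ ^ 2 - n) ^ 2 ∂(stdGaussian E) = 2 * n

/-! ## Part 3: Gaussian quadratic forms -/

/-- **QF1** (100 lines). One dimension. Proof. Moments of `z² - 1`: `0, 2, 8, 60`
(`E z^2, 4, 6, 8 = 1, 3, 15, 105`). `|e^{iy} - 1 - iy + y²/2| ≤ |y|³/6` gives
`|E e^{iλ(z²-1)} - 1 + λ²| ≤ C |λ|³`, and `|e^{-λ²} - 1 + λ²| ≤ λ⁴/2`; for `|λ| ≥ 1` the left side is at most `2`. -/
def SpecQF1 : Prop := ∃ C : ℝ, 0 < C ∧
  (∫ z, (z ^ 2 - 1) ∂(gaussianReal 0 1) = 0) ∧ (∫ z, (z ^ 2 - 1) ^ 2 ∂(gaussianReal 0 1) = 2) ∧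
  (∫ z, (z ^ 2 - 1) ^ 4 ∂(gaussianReal 0 1) = 60) ∧
  ∀ lam : ℝ, ‖∫ z, Complex.exp (Complex.I * (lam * (z ^ 2 - 1) : ℝ)) ∂(gaussianReal 0 1) -
    Complex.exp (-(lam ^ 2 : ℝ))‖ ≤ C * |lam| ^ 3

/-- **QFE** (200 lines; from QF1). Quadratic forms of a standard Gaussian vector.
Proof. Diagonalise `B` (`LinearMap.IsSymmetric.eigenvectorBasis`, `stdGaussian_eq_map_pi_orthonormalBasis`): the form is
`∑ λ_i (z_i² - 1)` with independent standard `z_i`; second moment `2 ∑ λ_i²`, fourth moment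
`60 ∑ λ_i⁴ + 12 ∑_{i≠j} λ_i² λ_j² ≤ 60 (∑ λ_i²)²`; characteristic function: product of numbers of
modulus `≤ 1`, `|∏ a_i - ∏ b_i| ≤ ∑ |a_i - b_i| ≤ C ∑ |λ_i|³ ≤ C ‖B‖ ∑ λ_i²`; `tr B² = ∑ λ_i²`. -/
def SpecQFE : Prop := ∃ C : ℝ, 0 < C ∧ ∀ (F : Type) [NormedAddCommGroup F]
  [InnerProductSpace ℝ F] [FiniteDimensional ℝ F] [MeasurableSpace F] [BorelSpace F]
  (B : F →L[ℝ] F), (∀ x y, ⟪B x, y⟫ = ⟪x, B y⟫) →
  (∫ x, (⟪x, B x⟫ - tr B) ∂(stdGaussian F) = 0) ∧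
  (∫ x, (⟪x, B x⟫ - tr B) ^ 2 ∂(stdGaussian F) = 2 * tr (B ∘L B)) ∧
  (∫ x, (⟪x, B x⟫ - tr B) ^ 4 ∂(stdGaussian F) ≤ 60 * tr (B ∘L B) ^ 2) ∧
  ‖∫ x, Complex.exp (Complex.I * (⟪x, B x⟫ - tr B : ℝ)) ∂(stdGaussian F) -
    Complex.exp (-(tr (B ∘L B) : ℝ))‖ ≤ C * ‖B‖ * tr (B ∘L B)

/-- **QFC** (200 lines; from QFE). Quadratic forms of a centered Gaussian vector with covariance
operator `D` (automatically symmetric and positive).
Proof. `D = R²`, `R` symmetric (eigenbasis, square roots of the eigenvalues, `‖R‖² = ‖D‖`). `μ` is the law of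
`R x` under the standard Gaussian (same mean and covariances). Apply QFE to `R B R`: `tr (R B R) = tr (B D)`,
`tr ((R B R)²) = tr (B D B D)`, `‖R B R‖ ≤ ‖B‖ ‖D‖`. -/
def SpecQFC : Prop := ∃ C : ℝ, 0 < C ∧ ∀ (F : Type) [NormedAddCommGroup F]
  [InnerProductSpace ℝ F] [FiniteDimensional ℝ F] [MeasurableSpace F] [BorelSpace F]
  (μ : Measure F) (D B : F →L[ℝ] F), IsGaussian μ → (∀ y, ∫ x, ⟪y, x⟫ ∂μ = 0) →
  (∀ y y', ∫ x, ⟪y, x⟫ * ⟪y', x⟫ ∂μ = ⟪y, D y'⟫) → (∀ x y, ⟪B x, y⟫ = ⟪x, B y⟫) →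
  (∫ x, (⟪x, B x⟫ - tr (B ∘L D)) ∂μ = 0) ∧
  (∫ x, (⟪x, B x⟫ - tr (B ∘L D)) ^ 2 ∂μ = 2 * tr (B ∘L D ∘L B ∘L D)) ∧
  (∫ x, (⟪x, B x⟫ - tr (B ∘L D)) ^ 4 ∂μ ≤ 60 * tr (B ∘L D ∘L B ∘L D) ^ 2) ∧
  ‖∫ x, Complex.exp (Complex.I * (⟪x, B x⟫ - tr (B ∘L D) : ℝ)) ∂μ -
    Complex.exp (-(tr (B ∘L D ∘L B ∘L D) : ℝ))‖ ≤ C * ‖B‖ * ‖D‖ * tr (B ∘L D ∘L B ∘L D)

/-- **QUA** (250 lines; from QFC, JON, TRA). The forms `∑ μ_i ‖Q G_i r_i‖²`.
Proof. `F = PiLp 2 (fun _ : T => E)`, `Z = (Q G_i r_i)_i`, Gaussian, centered, with covariance operator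
`D`, `D_{il} = c i l ∑_a ⟪r i, J a (r l)⟫ Q J a Q` (the other terms of `cov` vanish as `Q r_i = 0`), `B = diag (μ i)`.
`tr (B D) = ∑_i μ_i ‖r i‖² tr Q` (JON, TRA), `tr (B D B D) = ∑_{i,l} μ_i μ_l tr (D_{il} D_{li})`, and
`tr (D_{il} D_{li}) = c² ∑_{a,b} ⟪r i, J a (r l)⟫ ⟪r l, J b (r i)⟫ tr (Q J a J b Q)`: for `a ≠ b` the trace is `0`
(`mul`, TRA), for `a = b = o` it is `tr Q`, for `a = b ≠ o` it is `-tr Q` and
`⟪r l, J a (r i)⟫ = -⟪r i, J a (r l)⟫`. `‖B‖ ≤ κ`, `‖D‖ ≤ ∑ |D_{il}| ≤ card ι (card T)²`. -/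
def SpecQUA : Prop := ∀ (ι : Type) [Fintype ι] [DecidableEq ι] (T : Type) [Fintype T],
  ∃ C : ℝ, 0 < C ∧ ∀ (E : Type) [NormedAddCommGroup E]
  [InnerProductSpace ℝ E] [FiniteDimensional ℝ E] (S : BStr ι E)
  (c : T → T → ℝ) (ν : Measure (T → E →L[ℝ] E)), GFam S c ν → (∀ i l, c i l = c l i) →
  (∀ i, c i i = 1) → (∀ i l, |c i l| ≤ 1) →
  ∀ (Q : E →L[ℝ] E) (r : T → E) (m : T → ℝ) (κ V : ℝ), IsPr S Q → (∀ i, Q (r i) = 0) →
  (∀ i, ‖r i‖ ≤ 1) → (∀ i, |m i| ≤ κ) →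
  V = tr Q * ∑ i, ∑ l, m i * m l * c i l ^ 2 * ∑ a, ⟪r i, S.J a (r l)⟫ ^ 2 →
  (∫ G, (∑ i, m i * (‖Q (G i (r i))‖ ^ 2 - tr Q * ‖r i‖ ^ 2)) ∂ν = 0) ∧
  (∫ G, (∑ i, m i * (‖Q (G i (r i))‖ ^ 2 - tr Q * ‖r i‖ ^ 2)) ^ 2 ∂ν = 2 * V) ∧
  (∫ G, (∑ i, m i * (‖Q (G i (r i))‖ ^ 2 - tr Q * ‖r i‖ ^ 2)) ^ 4 ∂ν ≤ 60 * V ^ 2) ∧
  ‖∫ G, Complex.exp (Complex.I *
      (∑ i, m i * (‖Q (G i (r i))‖ ^ 2 - tr Q * ‖r i‖ ^ 2) : ℝ)) ∂ν -
    Complex.exp (-(V : ℝ))‖ ≤ C * κ * V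

end Pool.Agent.Lib.MP17fa2c
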