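import Pool.Agent.Lib.MP_17fa2c_pr.TD.SpecW
import Pool.Agent.Lib.MP_17fa2c_pr.TD.SpecA

/-!
# OUT: moment bounds of the limit process
-/

set_option autoImplicit false

open MeasureTheory ProbabilityTheory Filter Topology
open scoped NNReal ENNReal BoundedContinuousFunction

namespace Pool.Agent.Lib.MP17fa2c

namespace OUTM

variable {K : Type} [Fintype K] {Ω' : Type} [MeasurableSpace Ω'] {P' : Measure Ω'}
  [IsProbabilityMeasure P'] {Y : Ω' → Pth K}

omit [IsProbabilityMeasure P'] in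
lemma meas_k (h : IsOU P' Y) (t : ℝ≥0) (k : K) : Measurable fun ω => Y ω t k :=
  (measurable_pi_apply k).comp (h.meas t)

omit [IsProbabilityMeasure P'] in
lemma memLp_k (h : IsOU P' Y) (t : ℝ≥0) (k : K) : MemLp (fun ω => Y ω t k) 2 P' :=
  ((h.gauss k).hasGaussianLaw_eval t).memLp_two

omit [IsProbabilityMeasure P'] in
lemma int_mul (h : IsOU P' Y) (s t : ℝ≥0) (k : K) :
    Integrable (fun ω => Y ω s k * Y ω t k) P' :=
  (memLp_k h s k).integrable_mul (memLp_k h t k)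

omit [IsProbabilityMeasure P'] in
lemma mom2 (h : IsOU P' Y) (k : K) (s t : ℝ≥0) :
    ∫ ω, (Y ω t k - Y ω s k) ^ 2 ∂P' = 4 * (1 - Real.exp (-2 * |(t : ℝ) - s|)) := by
  have e : (fun ω => (Y ω t k - Y ω s k) ^ 2) =
      fun ω => (Y ω t k * Y ω t k + Y ω s k * Y ω s k) - 2 * (Y ω t k * Y ω s k) := by
    funext ω
    ring
  have i1 : Integrable (fun ω => Y ω t k * Y ω t k + Y ω s k * Y ω s k) P' :=
    (int_mul h t t k).add (int_mul h s s k)
  rw [e, integral_sub i1 ((int_mul h t s k).const_mul 2),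
    integral_add (int_mul h t t k) (int_mul h s s k), integral_const_mul, h.cov, h.cov, h.cov]
  simp only [sub_self, abs_zero, mul_zero, Real.exp_zero]
  rw [abs_sub_comm (s : ℝ) t]
  ring

lemma law (h : IsOU P' Y) (k : K) (s t : ℝ≥0) :
    P'.map (fun ω => Y ω t k - Y ω s k) =
      gaussianReal 0 (4 * (1 - Real.exp (-2 * |(t : ℝ) - s|))).toNNReal := by
  have hg : HasGaussianLaw (fun ω => Y ω t k - Y ω s k) P' := (h.gauss k).hasGaussianLaw_fun_sub
  rw [hg.map_eq_gaussianReal]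
  have hm : ∫ ω, (Y ω t k - Y ω s k) ∂P' = 0 := by
    rw [integral_sub ((memLp_k h t k).integrable (by norm_num))
      ((memLp_k h s k).integrable (by norm_num)), h.mean, h.mean, sub_zero]
  rw [variance_of_integral_eq_zero hg.aemeasurable hm, mom2 h, hm]

lemma four (hGMO : SpecGMO) (h : IsOU P' Y) (k : K) (s t : ℝ≥0) :
    ∫⁻ ω, ENNReal.ofReal ((Y ω t k - Y ω s k) ^ 4) ∂P' ≤ ENNReal.ofReal (192 * ((t : ℝ) - s) ^ 2) := by
  obtain ⟨-, h4, -, -, hint⟩ := hGMO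
  have hmeas : AEMeasurable (fun ω => Y ω t k - Y ω s k) P' :=
    ((meas_k h t k).sub (meas_k h s k)).aemeasurable
  set v : ℝ≥0 := (4 * (1 - Real.exp (-2 * |(t : ℝ) - s|))).toNNReal with hv
  have hi : Integrable (fun ω => (Y ω t k - Y ω s k) ^ 4) P' := by
    have h1 := hint v 4
    rw [hv, ← law h k s t] at h1
    exact (integrable_map_measure h1.aestronglyMeasurable hmeas).1 h1
  have h2 : ∫ ω, (Y ω t k - Y ω s k) ^ 4 ∂P' = 3 * (v : ℝ) ^ 2 := by
    rw [← h4 v, hv, ← law h k s t, integral_map hmeas]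
    fun_prop
  have h3 : (v : ℝ) ≤ 8 * |(t : ℝ) - s| := by
    have h5 : 1 - Real.exp (-2 * |(t : ℝ) - s|) ≤ 2 * |(t : ℝ) - s| := by
      have := Real.add_one_le_exp (-2 * |(t : ℝ) - s|)
      linarith
    rw [hv]
    refine (Real.toNNReal_le_iff_le_coe (p := ⟨8 * |(t : ℝ) - s|, by positivity⟩)).2 ?_
    show 4 * (1 - Real.exp (-2 * |(t : ℝ) - s|)) ≤ 8 * |(t : ℝ) - s|
    linarith
  rw [← ofReal_integral_eq_lintegral_ofReal hi (ae_of_all _ fun ω => by positivity), h2]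
  refine ENNReal.ofReal_le_ofReal ?_
  have h6 : (v : ℝ) ^ 2 ≤ (8 * |(t : ℝ) - s|) ^ 2 := pow_le_pow_left₀ v.2 h3 2
  rw [mul_pow, sq_abs] at h6
  linarith

lemma norm4 (v : K → ℝ) : ‖v‖ ^ 4 ≤ ∑ k, v k ^ 4 := by
  have h0 : 0 ≤ ∑ k, v k ^ 4 := Finset.sum_nonneg fun k _ => by positivity
  have h1 : ‖v‖ ≤ Real.sqrt (Real.sqrt (∑ k, v k ^ 4)) := by
    rw [pi_norm_le_iff_of_nonneg (Real.sqrt_nonneg _)]
    intro k
    refine Real.le_sqrt_of_sq_le (Real.le_sqrt_of_sq_le ?_)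
    rw [Real.norm_eq_abs, sq_abs, ← pow_mul]
    exact Finset.single_le_sum (f := fun k => v k ^ 4) (fun k _ => by positivity)
      (Finset.mem_univ k)
  calc ‖v‖ ^ 4 ≤ (Real.sqrt (Real.sqrt (∑ k, v k ^ 4))) ^ 4 :=
        pow_le_pow_left₀ (norm_nonneg _) h1 4
    _ = ∑ k, v k ^ 4 := by
        rw [show (4 : ℕ) = 2 * 2 by norm_num, pow_mul, Real.sq_sqrt (Real.sqrt_nonneg _),
          Real.sq_sqrt]
        simpa using h0

lemma norm2 (v : K → ℝ) : ‖v‖ ^ 2 ≤ ∑ k, v k * v k := by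
  have h0 : 0 ≤ ∑ k, v k * v k := Finset.sum_nonneg fun k _ => mul_self_nonneg _
  have h1 : ‖v‖ ≤ Real.sqrt (∑ k, v k * v k) := by
    rw [pi_norm_le_iff_of_nonneg (Real.sqrt_nonneg _)]
    intro k
    refine Real.le_sqrt_of_sq_le ?_
    rw [Real.norm_eq_abs, sq_abs, pow_two]
    exact Finset.single_le_sum (f := fun k => v k * v k) (fun k _ => mul_self_nonneg _)
      (Finset.mem_univ k)
  calc ‖v‖ ^ 2 ≤ (Real.sqrt (∑ k, v k * v k)) ^ 2 := pow_le_pow_left₀ (norm_nonneg _) h1 2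
    _ = ∑ k, v k * v k := Real.sq_sqrt h0

lemma mom4 (hGMO : SpecGMO) (h : IsOU P' Y) (s t : ℝ≥0) :
    ∫⁻ ω, ENNReal.ofReal (‖Y ω t - Y ω s‖ ^ 4) ∂P' ≤
      ENNReal.ofReal (192 * Fintype.card K * ((t : ℝ) - s) ^ 2) := by
  calc ∫⁻ ω, ENNReal.ofReal (‖Y ω t - Y ω s‖ ^ 4) ∂P'
      ≤ ∫⁻ ω, ∑ k, ENNReal.ofReal ((Y ω t k - Y ω s k) ^ 4) ∂P' := by
        refine lintegral_mono fun ω => ?_
        rw [← ENNReal.ofReal_sum_of_nonneg fun k _ => by positivity]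
        exact ENNReal.ofReal_le_ofReal (norm4 (Y ω t - Y ω s))
    _ = ∑ k, ∫⁻ ω, ENNReal.ofReal ((Y ω t k - Y ω s k) ^ 4) ∂P' := by
        refine lintegral_finsetSum _ fun k _ => ?_
        exact (((meas_k h t k).sub (meas_k h s k)).pow_const 4).ennreal_ofReal
    _ ≤ ∑ _k : K, ENNReal.ofReal (192 * ((t : ℝ) - s) ^ 2) :=
        Finset.sum_le_sum fun k _ => four hGMO h k s t
    _ = _ := by
        rw [← ENNReal.ofReal_sum_of_nonneg fun k _ => by positivity]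
        congr 1
        rw [Finset.sum_const, Finset.card_univ, nsmul_eq_mul]
        ring

omit [IsProbabilityMeasure P'] in
lemma markov (Z : Ω' → ℝ) (hZ : Measurable Z) (n : ℕ) (x M : ℝ)
    (hx : 0 < x) (h : ∫⁻ ω, ENNReal.ofReal (Z ω ^ n) ∂P' ≤ ENNReal.ofReal M) :
    P' {ω | x < Z ω} ≤ ENNReal.ofReal (M / x ^ n) := by
  have h1 := mul_meas_ge_le_lintegral (μ := P') (hZ.pow_const n).ennreal_ofReal
    (ENNReal.ofReal (x ^ n))
  have h2 : P' {ω | x < Z ω} ≤ P' {ω | ENNReal.ofReal (x ^ n) ≤ ENNReal.ofReal (Z ω ^ n)} := by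
    refine measure_mono fun ω hω => ?_
    exact ENNReal.ofReal_le_ofReal (pow_le_pow_left₀ hx.le (le_of_lt hω) n)
  have hxn : 0 < x ^ n := by positivity
  rw [ENNReal.ofReal_div_of_pos hxn]
  rw [ENNReal.le_div_iff_mul_le (Or.inl (by simpa using hxn)) (Or.inl ENNReal.ofReal_ne_top), mul_comm]
  exact (mul_le_mul_right h2 _).trans (h1.trans h)

end OUTM

open OUTM in
theorem specOUT (hGMO : SpecGMO) : SpecOUT := by
  intro K _ Ω' _ P' _ Y h
  have hcard : (0 : ℝ) ≤ Fintype.card K := Nat.cast_nonneg _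
  have hm : ∀ t, Measurable fun ω => Y ω t := h.meas
  refine ⟨⟨by linarith, le_rfl, by simp, fun s t _ => ?_, fun s t _ x hx => ?_⟩, fun R hR => ?_⟩
  · refine (mom4 hGMO h s t).trans (ENNReal.ofReal_le_ofReal ?_)
    nlinarith [sq_nonneg ((t : ℝ) - s)]
  · have h1 := markov (fun ω => ‖Y ω t - Y ω s‖) ((hm t).sub (hm s)).norm
      4 x _ hx (mom4 hGMO h s t)
    refine h1.trans (ENNReal.ofReal_le_ofReal ?_)
    have h2 : 0 < (x ^ 4)⁻¹ := by positivity
    have h3 : 0 < (x ^ 2)⁻¹ := by positivity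
    have h4 := sq_nonneg ((t : ℝ) - s)
    rw [div_eq_mul_inv]
    have h5 : 192 * (Fintype.card K : ℝ) * ((t : ℝ) - s) ^ 2 ≤
        (192 * Fintype.card K + 1) * (((t : ℝ) - s) ^ 2 + 0) := by nlinarith
    have h6 : (x ^ 4)⁻¹ ≤ (x ^ 2)⁻¹ + (x ^ 4)⁻¹ := by linarith
    exact mul_le_mul h5 h6 h2.le (by positivity)
  · refine markov (fun ω => ‖Y ω 0‖) (hm 0).norm 2 R (2 * Fintype.card K) hR ?_
    calc ∫⁻ ω, ENNReal.ofReal (‖Y ω 0‖ ^ 2) ∂P'
        ≤ ∫⁻ ω, ENNReal.ofReal (∑ k, Y ω 0 k * Y ω 0 k) ∂P' :=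
          lintegral_mono fun ω => ENNReal.ofReal_le_ofReal (norm2 (Y ω 0))
      _ = ENNReal.ofReal (∫ ω, ∑ k, Y ω 0 k * Y ω 0 k ∂P') := by
          rw [ofReal_integral_eq_lintegral_ofReal]
          · exact integrable_finsetSum _ fun k _ => int_mul h 0 0 k
          · exact ae_of_all _ fun ω => Finset.sum_nonneg fun k _ => mul_self_nonneg _
      _ ≤ ENNReal.ofReal (2 * Fintype.card K) := by
          refine ENNReal.ofReal_le_ofReal ?_
          rw [integral_finsetSum _ fun k _ => int_mul h 0 0 k]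
          simp only [h.cov, sub_self, abs_zero, mul_zero, Real.exp_zero, mul_one]
          rw [Finset.sum_const, Finset.card_univ, nsmul_eq_mul]
          linarith

end Pool.Agent.Lib.MP17fa2c
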