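import Pool.Agent.Lib.MP_17fa2c_pr.TD.SpecM

/-!
# MP_17fa2c_pr, module PRL: the pair `(M, cos φ M + sin φ G)` is a Gaussian family
-/

set_option autoImplicit false
set_option linter.unusedSectionVars false

open MeasureTheory ProbabilityTheory Filter Topology
open scoped RealInnerProductSpace NNReal ENNReal

namespace Pool.Agent.Lib.MP17fa2c

namespace PRLM

variable {ι : Type} [Fintype ι] [DecidableEq ι] {E : Type} [NormedAddCommGroup E]
  [InnerProductSpace ℝ E] [FiniteDimensional ℝ E]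

/-- the map -/
noncomputable def L (c s : ℝ) : (Unit → E →L[ℝ] E) × (Unit → E →L[ℝ] E) →L[ℝ]
    (Fin 2 → E →L[ℝ] E) :=
  ContinuousLinearMap.pi fun i =>
    if i = 0 then (ContinuousLinearMap.proj ()) ∘L ContinuousLinearMap.fst ℝ _ _
    else c • ((ContinuousLinearMap.proj ()) ∘L ContinuousLinearMap.fst ℝ _ _) +
      s • ((ContinuousLinearMap.proj ()) ∘L ContinuousLinearMap.snd ℝ _ _)

theorem L_eq (c s : ℝ) : (fun (p : (Unit → E →L[ℝ] E) × (Unit → E →L[ℝ] E)) (i : Fin 2) =>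
    if i = 0 then p.1 () else c • p.1 () + s • p.2 ()) = L c s := by
  funext p i
  unfold L
  by_cases h : i = 0
  · simp [h]
  · simp [h]

theorem closed_herm {T : Type} [Fintype T] (S : BStr ι E) :
    IsClosed {M : T → E →L[ℝ] E | HermF S M} := by
  have hev : ∀ (i : T) (x : E), Continuous fun M : T → E →L[ℝ] E => M i x := fun i x =>
    (ContinuousLinearMap.apply ℝ E x).continuous.comp (continuous_apply i)
  have h : {M : T → E →L[ℝ] E | HermF S M} = ⋂ i : T,
      ((⋂ x : E, ⋂ y : E, {M : T → E →L[ℝ] E | ⟪M i x, y⟫ = ⟪x, M i y⟫}) ∩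
        ⋂ a : ι, ⋂ x : E, {M : T → E →L[ℝ] E | M i (S.J a x) = S.J a (M i x)}) := by
    ext M
    simp only [Set.mem_iInter, Set.mem_inter_iff, Set.mem_ofPred_eq]
    rfl
  rw [h]
  refine isClosed_iInter fun i => IsClosed.inter ?_ ?_
  · refine isClosed_iInter fun x => isClosed_iInter fun y => isClosed_eq ?_ ?_
    · exact (hev i x).inner continuous_const
    · exact continuous_const.inner (hev i y)
  · refine isClosed_iInter fun a => isClosed_iInter fun x => isClosed_eq (hev i _) ?_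
    exact (S.J a).continuous.comp (hev i x)

theorem herm_comb {S : BStr ι E} {A B : E →L[ℝ] E} (hA : Herm S A) (hB : Herm S B) (c s : ℝ) :
    Herm S (c • A + s • B) := by
  refine ⟨fun x y => ?_, fun a x => ?_⟩
  · simp only [add_apply, smul_apply, inner_add_left,
      inner_add_right, real_inner_smul_left, real_inner_smul_right, hA.1 x y, hB.1 x y]
  · simp only [add_apply, smul_apply, map_add, map_smul,
      hA.2 a x, hB.2 a x]

theorem cont (x y : E) : Continuous fun M : Unit → E →L[ℝ] E => ⟪x, M () y⟫ :=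
  continuous_const.inner
    ((ContinuousLinearMap.apply ℝ E y).continuous.comp (continuous_apply ()))

/-- the functional as a dual vector -/
noncomputable def fn (x y : E) : (Unit → E →L[ℝ] E) →L[ℝ] ℝ :=
  (innerSL ℝ x) ∘L (ContinuousLinearMap.apply ℝ E y) ∘L (ContinuousLinearMap.proj ())

theorem fn_apply (x y : E) (M : Unit → E →L[ℝ] E) : fn x y M = ⟪x, M () y⟫ := rfl

end PRLM

open PRLM in
theorem specPRL : SpecPRL := by
  intro ι _ _ E _ _ _ S ν hν φ
  have hG := hν.gauss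
  have hprob : IsProbabilityMeasure ν := inferInstance
  have hL := L_eq (E := E) (Real.cos φ) (Real.sin φ)
  have hcs := Real.sin_sq_add_cos_sq φ
  set c := Real.cos φ with hc
  set s := Real.sin φ with hs
  have hmeas : Measurable (L c s : (Unit → E →L[ℝ] E) × (Unit → E →L[ℝ] E) → Fin 2 → E →L[ℝ] E) :=
    (L c s).continuous.measurable
  rw [hL]
  have hLa : ∀ (p : (Unit → E →L[ℝ] E) × (Unit → E →L[ℝ] E)) (i : Fin 2), L c s p i =
      if i = 0 then p.1 () else c • p.1 () + s • p.2 () := by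
    intro p i
    rw [← hL]
  have hmem : ∀ x y : E, MemLp (fun M : Unit → E →L[ℝ] E => ⟪x, M () y⟫) 2 ν := fun x y =>
    IsGaussian.memLp_dual ν (fn x y) 2 (by simp)
  have hint : ∀ x y : E, Integrable (fun M : Unit → E →L[ℝ] E => ⟪x, M () y⟫) ν := fun x y =>
    (hmem x y).integrable (by norm_num)
  have hint2 : ∀ x y x' y' : E,
      Integrable (fun M : Unit → E →L[ℝ] E => ⟪x, M () y⟫ * ⟪x', M () y'⟫) ν := fun x y x' y' =>
    (hmem x y).integrable_mul (hmem x' y')
  have hin : ∀ (i : Fin 2) (x y : E) (p : (Unit → E →L[ℝ] E) × (Unit → E →L[ℝ] E)),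
      ⟪x, L c s p i y⟫ = if i = 0 then ⟪x, p.1 () y⟫ else
        c * ⟪x, p.1 () y⟫ + s * ⟪x, p.2 () y⟫ := by
    intro i x y p
    rw [hLa]
    split_ifs with h
    · rfl
    · rw [add_apply, inner_add_right, smul_apply,
        smul_apply, real_inner_smul_right, real_inner_smul_right]
  refine ⟨inferInstance, ?_, fun i x y => ?_, fun i l x y x' y' => ?_⟩
  · rw [ae_map_iff hmeas.aemeasurable (closed_herm S).measurableSet]
    have h1 : ∀ᵐ p ∂(ν.prod ν), HermF S p.1 := Measure.quasiMeasurePreserving_fst.ae hν.herm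
    have h2 : ∀ᵐ p ∂(ν.prod ν), HermF S p.2 := Measure.quasiMeasurePreserving_snd.ae hν.herm
    filter_upwards [h1, h2] with p h3 h4
    intro i
    rw [hLa]
    split_ifs
    · exact h3 ()
    · exact herm_comb (h3 ()) (h4 ()) c s
  · have hcont : Continuous fun M : Fin 2 → E →L[ℝ] E => ⟪x, M i y⟫ :=
      continuous_const.inner
        ((ContinuousLinearMap.apply ℝ E y).continuous.comp (continuous_apply i))
    rw [integral_map hmeas.aemeasurable hcont.aestronglyMeasurable]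
    simp only [hin]
    have e1 : ∫ p, ⟪x, p.1 () y⟫ ∂(ν.prod ν) = 0 := by
      rw [integral_fun_fst (fun M : Unit → E →L[ℝ] E => ⟪x, M () y⟫), hν.mean]
      simp
    have e2 : ∫ p, ⟪x, p.2 () y⟫ ∂(ν.prod ν) = 0 := by
      rw [integral_fun_snd (fun M : Unit → E →L[ℝ] E => ⟪x, M () y⟫), hν.mean]
      simp
    split_ifs
    · exact e1
    · rw [integral_add (((hint x y).comp_fst ν).const_mul c) (((hint x y).comp_snd ν).const_mul s),
        integral_const_mul, integral_const_mul, e1, e2]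
      simp
  · have hcont : Continuous fun M : Fin 2 → E →L[ℝ] E => ⟪x, M i y⟫ * ⟪x', M l y'⟫ :=
      (continuous_const.inner
        ((ContinuousLinearMap.apply ℝ E y).continuous.comp (continuous_apply i))).mul
      (continuous_const.inner
        ((ContinuousLinearMap.apply ℝ E y').continuous.comp (continuous_apply l)))
    rw [integral_map hmeas.aemeasurable hcont.aestronglyMeasurable]
    simp only [hin]
    set V : ℝ := ∑ a, (⟪x, S.J a x'⟫ * ⟪y, S.J a y'⟫ + ⟪x, S.J a y'⟫ * ⟪y, S.J a x'⟫) with hV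
    have hcov : ∫ M, ⟪x, M () y⟫ * ⟪x', M () y'⟫ ∂ν = V := by
      rw [hν.cov () () x y x' y', one_mul]
    have e11 : ∫ p : (Unit → E →L[ℝ] E) × (Unit → E →L[ℝ] E),
        ⟪x, p.1 () y⟫ * ⟪x', p.1 () y'⟫ ∂(ν.prod ν) = V := by
      rw [integral_fun_fst (fun M : Unit → E →L[ℝ] E => ⟪x, M () y⟫ * ⟪x', M () y'⟫), hcov]
      simp
    have e22 : ∫ p : (Unit → E →L[ℝ] E) × (Unit → E →L[ℝ] E),
        ⟪x, p.2 () y⟫ * ⟪x', p.2 () y'⟫ ∂(ν.prod ν) = V := by
      rw [integral_fun_snd (fun M : Unit → E →L[ℝ] E => ⟪x, M () y⟫ * ⟪x', M () y'⟫), hcov]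
      simp
    have e12 : ∫ p : (Unit → E →L[ℝ] E) × (Unit → E →L[ℝ] E),
        ⟪x, p.1 () y⟫ * ⟪x', p.2 () y'⟫ ∂(ν.prod ν) = 0 := by
      rw [integral_prod_mul (fun M : Unit → E →L[ℝ] E => ⟪x, M () y⟫)
        (fun M : Unit → E →L[ℝ] E => ⟪x', M () y'⟫), hν.mean, zero_mul]
    have e21 : ∫ p : (Unit → E →L[ℝ] E) × (Unit → E →L[ℝ] E),
        ⟪x, p.2 () y⟫ * ⟪x', p.1 () y'⟫ ∂(ν.prod ν) = 0 := by
      have : (fun p : (Unit → E →L[ℝ] E) × (Unit → E →L[ℝ] E) =>
          ⟪x, p.2 () y⟫ * ⟪x', p.1 () y'⟫) = fun p => ⟪x', p.1 () y'⟫ * ⟪x, p.2 () y⟫ := by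
        funext p
        ring
      rw [this, integral_prod_mul (fun M : Unit → E →L[ℝ] E => ⟪x', M () y'⟫)
        (fun M : Unit → E →L[ℝ] E => ⟪x, M () y⟫), hν.mean, zero_mul]
    have i11 : Integrable (fun p : (Unit → E →L[ℝ] E) × (Unit → E →L[ℝ] E) =>
        ⟪x, p.1 () y⟫ * ⟪x', p.1 () y'⟫) (ν.prod ν) := (hint2 x y x' y').comp_fst ν
    have i22 : Integrable (fun p : (Unit → E →L[ℝ] E) × (Unit → E →L[ℝ] E) =>
        ⟪x, p.2 () y⟫ * ⟪x', p.2 () y'⟫) (ν.prod ν) := (hint2 x y x' y').comp_snd ν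
    have i12 : Integrable (fun p : (Unit → E →L[ℝ] E) × (Unit → E →L[ℝ] E) =>
        ⟪x, p.1 () y⟫ * ⟪x', p.2 () y'⟫) (ν.prod ν) := (hint x y).mul_prod (hint x' y')
    have i21 : Integrable (fun p : (Unit → E →L[ℝ] E) × (Unit → E →L[ℝ] E) =>
        ⟪x, p.2 () y⟫ * ⟪x', p.1 () y'⟫) (ν.prod ν) := by
      have : (fun p : (Unit → E →L[ℝ] E) × (Unit → E →L[ℝ] E) =>
          ⟪x, p.2 () y⟫ * ⟪x', p.1 () y'⟫) = fun p => ⟪x', p.1 () y'⟫ * ⟪x, p.2 () y⟫ := by
        funext p
        ring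
      rw [this]
      exact (hint x' y').mul_prod (hint x y)
    by_cases hi : i = 0 <;> by_cases hl : l = 0
    · simp only [if_pos hi, if_pos hl]
      rw [e11, hi, hl, c2, if_pos rfl, one_mul]
    · simp only [if_pos hi, if_neg hl]
      have : (fun p : (Unit → E →L[ℝ] E) × (Unit → E →L[ℝ] E) =>
          ⟪x, p.1 () y⟫ * (c * ⟪x', p.1 () y'⟫ + s * ⟪x', p.2 () y'⟫)) = fun p =>
          c * (⟪x, p.1 () y⟫ * ⟪x', p.1 () y'⟫) + s * (⟪x, p.1 () y⟫ * ⟪x', p.2 () y'⟫) := by
        funext p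
        ring
      rw [this, integral_add (i11.const_mul c) (i12.const_mul s), integral_const_mul,
        integral_const_mul, e11, e12, c2, if_neg (by rw [hi]; exact Ne.symm hl)]
      ring
    · simp only [if_neg hi, if_pos hl]
      have : (fun p : (Unit → E →L[ℝ] E) × (Unit → E →L[ℝ] E) =>
          (c * ⟪x, p.1 () y⟫ + s * ⟪x, p.2 () y⟫) * ⟪x', p.1 () y'⟫) = fun p =>
          c * (⟪x, p.1 () y⟫ * ⟪x', p.1 () y'⟫) + s * (⟪x, p.2 () y⟫ * ⟪x', p.1 () y'⟫) := by
        funext p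
        ring
      rw [this, integral_add (i11.const_mul c) (i21.const_mul s), integral_const_mul,
        integral_const_mul, e11, e21, c2, if_neg (by rw [hl]; exact hi)]
      ring
    · simp only [if_neg hi, if_neg hl]
      have : (fun p : (Unit → E →L[ℝ] E) × (Unit → E →L[ℝ] E) =>
          (c * ⟪x, p.1 () y⟫ + s * ⟪x, p.2 () y⟫) *
            (c * ⟪x', p.1 () y'⟫ + s * ⟪x', p.2 () y'⟫)) = fun p =>
          (c ^ 2 * (⟪x, p.1 () y⟫ * ⟪x', p.1 () y'⟫) +
            c * s * (⟪x, p.1 () y⟫ * ⟪x', p.2 () y'⟫)) +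
          (c * s * (⟪x, p.2 () y⟫ * ⟪x', p.1 () y'⟫) +
            s ^ 2 * (⟪x, p.2 () y⟫ * ⟪x', p.2 () y'⟫)) := by
        funext p
        ring
      have ia : Integrable (fun p : (Unit → E →L[ℝ] E) × (Unit → E →L[ℝ] E) =>
          c ^ 2 * (⟪x, p.1 () y⟫ * ⟪x', p.1 () y'⟫) +
            c * s * (⟪x, p.1 () y⟫ * ⟪x', p.2 () y'⟫)) (ν.prod ν) :=
        (i11.const_mul _).add (i12.const_mul _)
      have ib : Integrable (fun p : (Unit → E →L[ℝ] E) × (Unit → E →L[ℝ] E) =>
          c * s * (⟪x, p.2 () y⟫ * ⟪x', p.1 () y'⟫) +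
            s ^ 2 * (⟪x, p.2 () y⟫ * ⟪x', p.2 () y'⟫)) (ν.prod ν) :=
        (i21.const_mul _).add (i22.const_mul _)
      rw [this, integral_add ia ib, integral_add (i11.const_mul _) (i12.const_mul _),
        integral_add (i21.const_mul _) (i22.const_mul _), integral_const_mul,
        integral_const_mul, integral_const_mul, integral_const_mul, e11, e12, e21, e22, c2,
        if_pos (by omega)]
      linear_combination V * hcs

end Pool.Agent.Lib.MP17fa2c
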