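import Pool.Agent.Lib.MP_17fa2c_pr.TD.SpecA

/-!
# MP_17fa2c_pr, module QF1: the moments of `z² - 1` and its characteristic function
-/

set_option autoImplicit false

namespace Pool.Agent.Lib.MP17fa2c.QF1M

open MeasureTheory ProbabilityTheory Filter Topology
open scoped NNReal ENNReal

theorem int_pow (n : ℕ) : Integrable (fun z : ℝ => z ^ n) (gaussianReal 0 1) := by
  have h := (memLp_id_gaussianReal' (μ := 0) (v := 1) (n : ℝ≥0∞)
    (ENNReal.natCast_ne_top n)).integrable_norm_pow'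
  refine h.mono' (by fun_prop) (Filter.Eventually.of_forall fun z => ?_)
  rw [norm_pow]
  rfl

theorem int_vol (n : ℕ) : Integrable (fun z : ℝ => z ^ n * Real.exp (-(1 / 2) * z ^ 2)) := by
  have h := integrable_rpow_mul_exp_neg_mul_sq (b := 1 / 2) (by norm_num) (s := (n : ℝ))
    (lt_of_lt_of_le (by norm_num) (Nat.cast_nonneg n))
  simpa only [Real.rpow_natCast] using h

/-- The moments. -/
noncomputable def M (n : ℕ) : ℝ := ∫ z, z ^ n ∂(gaussianReal 0 1)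

theorem M_eq (n : ℕ) : M n =
    (Real.sqrt (2 * Real.pi))⁻¹ * ∫ z : ℝ, z ^ n * Real.exp (-(1 / 2) * z ^ 2) := by
  unfold M
  rw [integral_gaussianReal_eq_integral_smul one_ne_zero, ← integral_const_mul]
  refine integral_congr_ae (Filter.Eventually.of_forall fun z => ?_)
  simp only [gaussianPDFReal, smul_eq_mul, NNReal.coe_one, mul_one, sub_zero]
  rw [show -z ^ 2 / 2 = -(1 / 2) * z ^ 2 by ring]
  ring

theorem M_step (n : ℕ) : M (n + 2) = (n + 1) * M n := by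
  have hd : ∀ z : ℝ, HasDerivAt (fun z : ℝ => z ^ (n + 1) * Real.exp (-(1 / 2) * z ^ 2))
      ((n + 1 : ℝ) * (z ^ n * Real.exp (-(1 / 2) * z ^ 2)) -
        z ^ (n + 2) * Real.exp (-(1 / 2) * z ^ 2)) z := by
    intro z
    have h1 : HasDerivAt (fun z : ℝ => z ^ (n + 1)) (((n + 1 : ℕ) : ℝ) * z ^ n) z := by
      simpa using hasDerivAt_pow (n + 1) z
    have h2 : HasDerivAt (fun z : ℝ => -(1 / 2) * z ^ 2) (-(1 / 2) * (2 * z)) z := by
      have := (hasDerivAt_pow 2 z).const_mul (-(1 / 2 : ℝ))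
      simpa using this
    have h3 : HasDerivAt (fun z : ℝ => z ^ (n + 1) * Real.exp (-(1 / 2) * z ^ 2)) _ z :=
      h1.mul h2.exp
    refine h3.congr_deriv ?_
    push_cast
    ring
  have hint : Integrable (fun z : ℝ => (n + 1 : ℝ) * (z ^ n * Real.exp (-(1 / 2) * z ^ 2)) -
      z ^ (n + 2) * Real.exp (-(1 / 2) * z ^ 2)) :=
    ((int_vol n).const_mul _).sub (int_vol (n + 2))
  have h0 := integral_eq_zero_of_hasDerivAt_of_integrable hd hint (int_vol (n + 1))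
  rw [integral_sub ((int_vol n).const_mul _) (int_vol (n + 2)), integral_const_mul] at h0
  rw [M_eq, M_eq]
  have : ∫ z : ℝ, z ^ (n + 2) * Real.exp (-(1 / 2) * z ^ 2) =
      (n + 1) * ∫ z : ℝ, z ^ n * Real.exp (-(1 / 2) * z ^ 2) := by linarith
  rw [this]
  ring

theorem M0 : M 0 = 1 := by
  unfold M
  simp

theorem M2 : M 2 = 1 := by
  have := M_step 0
  rw [M0] at this
  simpa using this

theorem M4 : M 4 = 3 := by
  have := M_step 2
  rw [M2] at this
  norm_num at this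
  exact this

theorem M6 : M 6 = 15 := by
  have := M_step 4
  rw [M4] at this
  norm_num at this
  exact this

theorem M8 : M 8 = 105 := by
  have := M_step 6
  rw [M6] at this
  norm_num at this
  exact this

/-- Third order Taylor bound on the imaginary axis. -/
theorem taylor (y : ℝ) : ‖Complex.exp (Complex.I * (y : ℂ)) - (1 + Complex.I * y - (y : ℂ) ^ 2 / 2)‖
    ≤ 4 * |y| ^ 3 := by
  have hn : ‖Complex.I * (y : ℂ)‖ = |y| := by
    rw [norm_mul, Complex.norm_I, one_mul, Complex.norm_real, Real.norm_eq_abs]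
  by_cases hy : |y| ≤ 1
  · have h := Complex.exp_bound (x := Complex.I * (y : ℂ)) (by rw [hn]; exact hy) (n := 3)
      (by norm_num)
    rw [hn] at h
    have e1 : (∑ m ∈ Finset.range 3, (Complex.I * (y : ℂ)) ^ m / (m.factorial : ℂ)) =
        1 + Complex.I * y - (y : ℂ) ^ 2 / 2 := by
      simp only [Finset.sum_range_succ, Finset.sum_range_zero, Nat.factorial, pow_zero, pow_one,
        mul_pow, Complex.I_sq]
      push_cast
      ring
    rw [e1] at h
    refine h.trans ?_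
    have h3 : (0 : ℝ) ≤ |y| ^ 3 := by positivity
    have h4 : (((Nat.succ 3 : ℕ) : ℝ) * (((Nat.factorial 3 : ℕ) : ℝ) * ((3 : ℕ) : ℝ))⁻¹) ≤ 4 := by
      norm_num [Nat.factorial]
    calc |y| ^ 3 * (((Nat.succ 3 : ℕ) : ℝ) * (((Nat.factorial 3 : ℕ) : ℝ) * ((3 : ℕ) : ℝ))⁻¹)
        ≤ |y| ^ 3 * 4 := mul_le_mul_of_nonneg_left h4 h3
      _ = 4 * |y| ^ 3 := by ring
  · push Not at hy
    have h1 : ‖Complex.exp (Complex.I * (y : ℂ))‖ = 1 := by
      rw [mul_comm, Complex.norm_exp_ofReal_mul_I]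
    have h2 : ‖(1 + Complex.I * y - (y : ℂ) ^ 2 / 2 : ℂ)‖ ≤ 1 + |y| + |y| ^ 2 / 2 := by
      refine (norm_sub_le _ _).trans ?_
      refine add_le_add ((norm_add_le _ _).trans ?_) ?_
      · rw [norm_one, hn]
      · rw [norm_div, norm_pow, Complex.norm_real, Real.norm_eq_abs]
        norm_num
    have h3 : |y| ≤ |y| ^ 3 := by nlinarith [mul_self_nonneg (|y|), mul_self_nonneg (|y| - 1)]
    have h4 : |y| ^ 2 ≤ |y| ^ 3 := by nlinarith [mul_self_nonneg (|y|)]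
    have h5 : 1 ≤ |y| ^ 3 := by linarith
    calc ‖Complex.exp (Complex.I * (y : ℂ)) - (1 + Complex.I * y - (y : ℂ) ^ 2 / 2)‖
        ≤ 1 + (1 + |y| + |y| ^ 2 / 2) := (norm_sub_le _ _).trans (add_le_add h1.le h2)
      _ ≤ 4 * |y| ^ 3 := by linarith

end Pool.Agent.Lib.MP17fa2c.QF1M

namespace Pool.Agent.Lib.MP17fa2c

open MeasureTheory ProbabilityTheory Filter Topology QF1M
open scoped NNReal ENNReal

theorem specQF1 : SpecQF1 := by
  have hM : ∀ n, ∫ z : ℝ, z ^ n ∂(gaussianReal 0 1) = M n := fun n => rfl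
  have e1 : ∫ z : ℝ, (z ^ 2 - 1) ∂(gaussianReal 0 1) = 0 := by
    rw [integral_sub (int_pow 2) (integrable_const 1), hM 2, M2]
    simp
  have e2 : ∫ z : ℝ, (z ^ 2 - 1) ^ 2 ∂(gaussianReal 0 1) = 2 := by
    have : ∀ z : ℝ, (z ^ 2 - 1) ^ 2 = z ^ 4 - 2 * z ^ 2 + 1 := fun z => by ring
    simp only [this]
    have i1 : Integrable (fun z : ℝ => z ^ 4 - 2 * z ^ 2) (gaussianReal 0 1) :=
      (int_pow 4).sub ((int_pow 2).const_mul 2)
    rw [integral_add i1 (integrable_const 1),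
      integral_sub (int_pow 4) ((int_pow 2).const_mul 2), integral_const_mul, hM 2, hM 4, M2, M4]
    simp
    norm_num
  have e4 : ∫ z : ℝ, (z ^ 2 - 1) ^ 4 ∂(gaussianReal 0 1) = 60 := by
    have : ∀ z : ℝ, (z ^ 2 - 1) ^ 4 = z ^ 8 - 4 * z ^ 6 + 6 * z ^ 4 - 4 * z ^ 2 + 1 :=
      fun z => by ring
    simp only [this]
    have i1 : Integrable (fun z : ℝ => z ^ 8 - 4 * z ^ 6) (gaussianReal 0 1) :=
      (int_pow 8).sub ((int_pow 6).const_mul 4)
    have i2 : Integrable (fun z : ℝ => z ^ 8 - 4 * z ^ 6 + 6 * z ^ 4) (gaussianReal 0 1) :=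
      i1.add ((int_pow 4).const_mul 6)
    have i3 : Integrable (fun z : ℝ => z ^ 8 - 4 * z ^ 6 + 6 * z ^ 4 - 4 * z ^ 2)
      (gaussianReal 0 1) := i2.sub ((int_pow 2).const_mul 4)
    rw [integral_add i3 (integrable_const 1), integral_sub i2 ((int_pow 2).const_mul 4),
      integral_add i1 ((int_pow 4).const_mul 6), integral_sub (int_pow 8) ((int_pow 6).const_mul 4),
      integral_const_mul, integral_const_mul, integral_const_mul, hM 2, hM 4, hM 6, hM 8, M2, M4,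
      M6, M8]
    simp
    norm_num
  -- the third absolute moment
  have i3 : Integrable (fun z : ℝ => |z ^ 2 - 1| ^ 3) (gaussianReal 0 1) := by
    have h : Integrable (fun z : ℝ => (z ^ 2 - 1) ^ 4 + 1) (gaussianReal 0 1) := by
      have : ∀ z : ℝ, (z ^ 2 - 1) ^ 4 + 1 =
          z ^ 8 - 4 * z ^ 6 + 6 * z ^ 4 - 4 * z ^ 2 + 1 + 1 := fun z => by ring
      simp only [this]
      exact (((((int_pow 8).sub ((int_pow 6).const_mul 4)).add ((int_pow 4).const_mul 6)).sub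
        ((int_pow 2).const_mul 4)).add (integrable_const 1)).add (integrable_const 1)
    refine h.mono' (by fun_prop) (Filter.Eventually.of_forall fun z => ?_)
    rw [Real.norm_eq_abs, abs_of_nonneg (by positivity)]
    have h1 : (z ^ 2 - 1) ^ 4 = |z ^ 2 - 1| ^ 4 := by
      rw [← abs_pow, abs_of_nonneg (by positivity)]
    rw [h1]
    nlinarith [sq_nonneg (|z ^ 2 - 1| ^ 2 - |z ^ 2 - 1|), sq_nonneg (|z ^ 2 - 1| - 1),
      sq_nonneg (|z ^ 2 - 1| ^ 2), sq_nonneg (|z ^ 2 - 1| ^ 2 - 1), abs_nonneg (z ^ 2 - 1),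
      sq_nonneg (|z ^ 2 - 1|)]
  obtain ⟨K, hK⟩ : ∃ K : ℝ, K = ∫ z : ℝ, |z ^ 2 - 1| ^ 3 ∂(gaussianReal 0 1) := ⟨_, rfl⟩
  have hK0 : 0 ≤ K := by
    rw [hK]
    exact integral_nonneg fun z => by positivity
  refine ⟨4 * K + 2, by positivity, e1, e2, e4, ?_⟩
  intro lam
  rw [show (-((lam ^ 2 : ℝ) : ℂ)) = ((-(lam ^ 2) : ℝ) : ℂ) by push_cast; rfl]
  -- the integrals
  have hexp : Integrable (fun z : ℝ => Complex.exp (Complex.I * ((lam * (z ^ 2 - 1) : ℝ) : ℂ)))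
      (gaussianReal 0 1) := by
    refine (integrable_const (1 : ℝ)).mono' (by fun_prop) (Filter.Eventually.of_forall fun z => ?_)
    rw [mul_comm, Complex.norm_exp_ofReal_mul_I]
  have hnexp : ‖∫ z, Complex.exp (Complex.I * ((lam * (z ^ 2 - 1) : ℝ) : ℂ)) ∂(gaussianReal 0 1)‖
      ≤ 1 := by
    refine (norm_integral_le_of_norm_le (g := fun _ => (1 : ℝ)) (integrable_const 1)
      (Filter.Eventually.of_forall fun z => ?_)).trans ?_
    · rw [mul_comm, Complex.norm_exp_ofReal_mul_I]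
    · simp
  have i1 : Integrable (fun z : ℝ => z ^ 2 - 1) (gaussianReal 0 1) :=
    (int_pow 2).sub (integrable_const 1)
  have i2 : Integrable (fun z : ℝ => (z ^ 2 - 1) ^ 2) (gaussianReal 0 1) := by
    have : ∀ z : ℝ, (z ^ 2 - 1) ^ 2 = z ^ 4 - 2 * z ^ 2 + 1 := fun z => by ring
    simp only [this]
    exact ((int_pow 4).sub ((int_pow 2).const_mul 2)).add (integrable_const 1)
  have hpoly : ∫ z : ℝ, ((1 : ℂ) + Complex.I * ((lam * (z ^ 2 - 1) : ℝ) : ℂ) -
      ((lam * (z ^ 2 - 1) : ℝ) : ℂ) ^ 2 / 2) ∂(gaussianReal 0 1) = ((1 - lam ^ 2 : ℝ) : ℂ) := by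
    have h1 : ∀ z : ℝ, ((1 : ℂ) + Complex.I * ((lam * (z ^ 2 - 1) : ℝ) : ℂ) -
        ((lam * (z ^ 2 - 1) : ℝ) : ℂ) ^ 2 / 2) =
        ((1 - lam ^ 2 / 2 * (z ^ 2 - 1) ^ 2 : ℝ) : ℂ) +
          Complex.I * ((lam * (z ^ 2 - 1) : ℝ) : ℂ) := by
      intro z
      push_cast
      ring
    simp only [h1]
    have j1 : Integrable (fun z : ℝ => (1 - lam ^ 2 / 2 * (z ^ 2 - 1) ^ 2 : ℝ))
        (gaussianReal 0 1) := (integrable_const 1).sub (i2.const_mul _)
    have j2 : Integrable (fun z : ℝ => (lam * (z ^ 2 - 1) : ℝ)) (gaussianReal 0 1) :=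
      i1.const_mul _
    rw [integral_add j1.ofReal (j2.ofReal.const_mul _), integral_const_mul,
      integral_complex_ofReal, integral_complex_ofReal, integral_const_mul, e1, integral_sub (integrable_const 1) (i2.const_mul _),
      integral_const_mul, e2]
    simp
  have hdiff : ‖∫ z, Complex.exp (Complex.I * ((lam * (z ^ 2 - 1) : ℝ) : ℂ)) ∂(gaussianReal 0 1) -
      ((1 - lam ^ 2 : ℝ) : ℂ)‖ ≤ 4 * K * |lam| ^ 3 := by
    have jp : Integrable (fun z : ℝ => ((1 : ℂ) + Complex.I * ((lam * (z ^ 2 - 1) : ℝ) : ℂ) -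
      ((lam * (z ^ 2 - 1) : ℝ) : ℂ) ^ 2 / 2)) (gaussianReal 0 1) := by
      have h1 : ∀ z : ℝ, ((1 : ℂ) + Complex.I * ((lam * (z ^ 2 - 1) : ℝ) : ℂ) -
          ((lam * (z ^ 2 - 1) : ℝ) : ℂ) ^ 2 / 2) =
          ((1 - lam ^ 2 / 2 * (z ^ 2 - 1) ^ 2 : ℝ) : ℂ) +
            Complex.I * ((lam * (z ^ 2 - 1) : ℝ) : ℂ) := by
        intro z
        push_cast
        ring
      simp only [h1]
      have j1 : Integrable (fun z : ℝ => (1 - lam ^ 2 / 2 * (z ^ 2 - 1) ^ 2 : ℝ))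
          (gaussianReal 0 1) := (integrable_const 1).sub (i2.const_mul _)
      have j2 : Integrable (fun z : ℝ => (lam * (z ^ 2 - 1) : ℝ)) (gaussianReal 0 1) :=
        i1.const_mul _
      exact j1.ofReal.add (j2.ofReal.const_mul _)
    rw [← hpoly, ← integral_sub hexp jp]
    refine (norm_integral_le_of_norm_le (g := fun z => 4 * |lam| ^ 3 * |z ^ 2 - 1| ^ 3)
      (i3.const_mul _) (Filter.Eventually.of_forall fun z => ?_)).trans ?_
    · have h := taylor (lam * (z ^ 2 - 1))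
      refine h.trans (le_of_eq ?_)
      rw [abs_mul]
      ring
    · rw [integral_const_mul, ← hK]
      exact le_of_eq (by ring)
  by_cases hl : |lam| ≤ 1
  · have hl2 : lam ^ 2 ≤ 1 := by
      rw [← sq_abs]
      nlinarith [abs_nonneg lam]
    have hg : ‖((1 - lam ^ 2 : ℝ) : ℂ) - Complex.exp ((-(lam ^ 2) : ℝ) : ℂ)‖ ≤ |lam| ^ 3 := by
      have h1 := Real.norm_exp_sub_one_sub_id_le (x := -(lam ^ 2))
        (by rw [norm_neg, Real.norm_eq_abs, abs_of_nonneg (by positivity)]; exact hl2)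
      rw [← Complex.ofReal_exp, ← Complex.ofReal_sub, Complex.norm_real, ← norm_neg]
      have h2 : -(1 - lam ^ 2 - Real.exp (-(lam ^ 2))) = Real.exp (-(lam ^ 2)) - 1 - -(lam ^ 2) := by
        ring
      rw [h2]
      refine h1.trans ?_
      rw [norm_neg, Real.norm_eq_abs, abs_of_nonneg (by positivity)]
      have h3 : (lam ^ 2) ^ 2 = |lam| ^ 4 := by
        rw [← sq_abs lam]
        ring
      rw [h3]
      calc |lam| ^ 4 = |lam| ^ 3 * |lam| := by ring
        _ ≤ |lam| ^ 3 * 1 := mul_le_mul_of_nonneg_left hl (by positivity)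
        _ = |lam| ^ 3 := mul_one _
    have h3 : (0 : ℝ) ≤ |lam| ^ 3 := by positivity
    calc ‖∫ z, Complex.exp (Complex.I * ((lam * (z ^ 2 - 1) : ℝ) : ℂ)) ∂(gaussianReal 0 1) -
        Complex.exp ((-(lam ^ 2) : ℝ) : ℂ)‖
        ≤ ‖∫ z, Complex.exp (Complex.I * ((lam * (z ^ 2 - 1) : ℝ) : ℂ)) ∂(gaussianReal 0 1) -
          ((1 - lam ^ 2 : ℝ) : ℂ)‖ +
          ‖((1 - lam ^ 2 : ℝ) : ℂ) - Complex.exp ((-(lam ^ 2) : ℝ) : ℂ)‖ :=
        norm_sub_le_norm_sub_add_norm_sub _ _ _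
      _ ≤ 4 * K * |lam| ^ 3 + |lam| ^ 3 := add_le_add hdiff hg
      _ ≤ (4 * K + 2) * |lam| ^ 3 := by linarith
  · push Not at hl
    have h1 : ‖Complex.exp ((-(lam ^ 2) : ℝ) : ℂ)‖ ≤ 1 := by
      rw [← Complex.ofReal_exp, Complex.norm_real, Real.norm_eq_abs, abs_of_pos (Real.exp_pos _)]
      exact Real.exp_le_one_iff.2 (by nlinarith [sq_nonneg lam])
    have h5 : 1 ≤ |lam| ^ 3 := one_le_pow₀ hl.le
    have h6 : 0 ≤ 4 * K * |lam| ^ 3 := by positivity
    calc ‖∫ z, Complex.exp (Complex.I * ((lam * (z ^ 2 - 1) : ℝ) : ℂ)) ∂(gaussianReal 0 1) -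
        Complex.exp ((-(lam ^ 2) : ℝ) : ℂ)‖ ≤ 1 + 1 :=
        (norm_sub_le _ _).trans (add_le_add hnexp h1)
      _ ≤ (4 * K + 2) * |lam| ^ 3 := by linarith

end Pool.Agent.Lib.MP17fa2c
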