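import Pool.Agent.Lib.MP_17fa2c_pr.TD.SpecA

/-!
# MP_17fa2c_pr, block A, module QFE: quadratic forms of a standard Gaussian vector
-/

set_option autoImplicit false

open MeasureTheory ProbabilityTheory Filter Topology
open scoped RealInnerProductSpace NNReal ENNReal

namespace Pool.Agent.Lib.MP17fa2c

namespace QFEM

theorem int_pow (k : ℕ) : Integrable (fun z : ℝ => z ^ k) (gaussianReal 0 1) := by
  rcases Nat.eq_zero_or_pos k with hk | hk
  · subst hk
    simp
  · have h := (IsGaussian.memLp_id (gaussianReal 0 1) (k : ℝ≥0∞) (by simp)).integrable_norm_pow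
      hk.ne'
    refine h.mono' (by fun_prop : Measurable fun z : ℝ => z ^ k).aestronglyMeasurable
      (Eventually.of_forall fun z => ?_)
    simp

theorem int_psi : ∀ k m : ℕ, Integrable (fun z : ℝ => (z ^ 2 - 1) ^ k * z ^ m) (gaussianReal 0 1)
  | 0, m => by simpa using int_pow m
  | k + 1, m => by
    have h := (int_psi k (m + 2)).sub (int_psi k m)
    refine h.congr (Eventually.of_forall fun z => ?_)
    show (z ^ 2 - 1) ^ k * z ^ (m + 2) - (z ^ 2 - 1) ^ k * z ^ m = (z ^ 2 - 1) ^ (k + 1) * z ^ m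
    ring

/-- one term of the form -/
noncomputable def X {ι : Type} (l : ι → ℝ) (i : ι) (x : ι → ℝ) : ℝ := l i * ((x i) ^ 2 - 1)

/-- the product measure -/
noncomputable def pim (ι : Type) [Fintype ι] : Measure (ι → ℝ) :=
  Measure.pi fun _ : ι => gaussianReal 0 1

instance (ι : Type) [Fintype ι] : IsProbabilityMeasure (pim ι) := by
  unfold pim
  infer_instance

theorem X_meas {ι : Type} (l : ι → ℝ) (i : ι) : Measurable (X l i) := by
  unfold X
  fun_prop

theorem X_int {ι : Type} [Fintype ι] (l : ι → ℝ) (i : ι) (k : ℕ) :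
    Integrable (fun x => X l i x ^ k) (pim ι) := by
  have h : Integrable (fun z : ℝ => (l i * (z ^ 2 - 1)) ^ k) (gaussianReal 0 1) := by
    refine ((int_psi k 0).const_mul (l i ^ k)).congr (Eventually.of_forall fun z => ?_)
    show l i ^ k * ((z ^ 2 - 1) ^ k * z ^ 0) = (l i * (z ^ 2 - 1)) ^ k
    rw [mul_pow, pow_zero, mul_one]
  exact integrable_comp_eval (μ := fun _ : ι => gaussianReal 0 1) (i := i) h

theorem X_val {ι : Type} [Fintype ι] (l : ι → ℝ) (i : ι) (k : ℕ) :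
    ∫ x, X l i x ^ k ∂(pim ι) = l i ^ k * ∫ z, (z ^ 2 - 1) ^ k ∂(gaussianReal 0 1) := by
  have h := integral_comp_eval (μ := fun _ : ι => gaussianReal 0 1) (i := i)
    (f := fun z : ℝ => (l i * (z ^ 2 - 1)) ^ k)
    (by fun_prop : Measurable fun z : ℝ => (l i * (z ^ 2 - 1)) ^ k).aestronglyMeasurable
  have h2 : ∫ x, X l i x ^ k ∂(pim ι) = ∫ z, (l i * (z ^ 2 - 1)) ^ k ∂(gaussianReal 0 1) := h
  rw [h2, ← integral_const_mul]
  refine integral_congr_ae (Eventually.of_forall fun z => ?_)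
  show (l i * (z ^ 2 - 1)) ^ k = l i ^ k * (z ^ 2 - 1) ^ k
  rw [mul_pow]

/-- powers of a sum of two independent variables -/
theorem binom {Ω : Type} [MeasurableSpace Ω] {μ : Measure Ω} [IsProbabilityMeasure μ]
    {S Y : Ω → ℝ} (hI : IndepFun S Y μ)
    (iS : ∀ k : ℕ, Integrable (fun ω => S ω ^ k) μ)
    (iY : ∀ k : ℕ, Integrable (fun ω => Y ω ^ k) μ) (k : ℕ) :
    Integrable (fun ω => (S ω + Y ω) ^ k) μ ∧
    ∫ ω, (S ω + Y ω) ^ k ∂μ = ∑ m ∈ Finset.range (k + 1),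
      (∫ ω, S ω ^ m ∂μ) * (∫ ω, Y ω ^ (k - m) ∂μ) * (k.choose m : ℝ) := by
  have hind : ∀ a b : ℕ, IndepFun (fun ω => S ω ^ a) (fun ω => Y ω ^ b) μ := fun a b =>
    hI.comp (φ := fun t : ℝ => t ^ a) (ψ := fun t : ℝ => t ^ b) (by fun_prop) (by fun_prop)
  have hpi : ∀ a b : ℕ, Integrable (fun ω => S ω ^ a * Y ω ^ b) μ := fun a b =>
    (hind a b).integrable_mul (iS a) (iY b)
  have hpv : ∀ a b : ℕ, ∫ ω, S ω ^ a * Y ω ^ b ∂μ = (∫ ω, S ω ^ a ∂μ) * ∫ ω, Y ω ^ b ∂μ :=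
    fun a b => (hind a b).integral_fun_mul_eq_mul_integral (iS a).aestronglyMeasurable
      (iY b).aestronglyMeasurable
  have e : (fun ω => (S ω + Y ω) ^ k) = fun ω => ∑ m ∈ Finset.range (k + 1),
      S ω ^ m * Y ω ^ (k - m) * (k.choose m : ℝ) := by
    funext ω
    rw [add_pow]
  rw [e]
  refine ⟨integrable_finsetSum _ fun m _ => (hpi m (k - m)).mul_const _, ?_⟩
  rw [integral_finsetSum _ fun m _ => (hpi m (k - m)).mul_const _]
  refine Finset.sum_congr rfl fun m _ => ?_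
  rw [integral_mul_const, hpv]

theorem moments {ι : Type} [Fintype ι]
    (M1 : ∫ z, (z ^ 2 - 1) ∂(gaussianReal 0 1) = 0)
    (M2 : ∫ z, (z ^ 2 - 1) ^ 2 ∂(gaussianReal 0 1) = 2)
    (M4 : ∫ z, (z ^ 2 - 1) ^ 4 ∂(gaussianReal 0 1) = 60) (l : ι → ℝ) (s : Finset ι) :
    (∀ k : ℕ, Integrable (fun x => (∑ i ∈ s, X l i x) ^ k) (pim ι)) ∧
    ∫ x, (∑ i ∈ s, X l i x) ^ 1 ∂(pim ι) = 0 ∧
    ∫ x, (∑ i ∈ s, X l i x) ^ 2 ∂(pim ι) = 2 * ∑ i ∈ s, l i ^ 2 ∧
    ∫ x, (∑ i ∈ s, X l i x) ^ 4 ∂(pim ι) ≤ 60 * (∑ i ∈ s, l i ^ 2) ^ 2 := by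
  classical
  have hind : iIndepFun (X l) (pim ι) :=
    iIndepFun_pi (μ := fun _ : ι => gaussianReal 0 1)
      (X := fun (i : ι) (z : ℝ) => l i * (z ^ 2 - 1)) (fun i => by fun_prop)
  induction s using Finset.induction_on with
  | empty =>
    refine ⟨fun k => ?_, ?_, ?_, ?_⟩
    · simp only [Finset.sum_empty]
      exact integrable_const _
    · simp
    · simp
    · simp
  | insert j s hj ih =>
    obtain ⟨ih0, ih1, ih2, ih4⟩ := ih
    have hI : IndepFun (fun x => ∑ i ∈ s, X l i x) (X l j) (pim ι) := by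
      have h := hind.indepFun_finsetSum_of_notMem (fun i => X_meas l i) hj
      have e : (∑ i ∈ s, X l i) = fun x => ∑ i ∈ s, X l i x := by
        funext x
        rw [Finset.sum_apply]
      rwa [e] at h
    have hb := binom hI ih0 (X_int l j)
    have Y1 : ∫ x, X l j x ^ 1 ∂(pim ι) = 0 := by
      rw [X_val]
      simp only [pow_one]
      rw [M1, mul_zero]
    have Y2 : ∫ x, X l j x ^ 2 ∂(pim ι) = 2 * l j ^ 2 := by
      rw [X_val, M2]
      ring
    have Y4 : ∫ x, X l j x ^ 4 ∂(pim ι) = 60 * l j ^ 4 := by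
      rw [X_val, M4]
      ring
    have e : ∀ k : ℕ, (fun x => (∑ i ∈ insert j s, X l i x) ^ k) =
        fun x => (∑ i ∈ s, X l i x + X l j x) ^ k := by
      intro k
      funext x
      rw [Finset.sum_insert hj, add_comm]
    have z0 : ∫ x : ι → ℝ, (1 : ℝ) ∂(pim ι) = 1 := by simp
    refine ⟨fun k => ?_, ?_, ?_, ?_⟩
    · rw [e k]
      exact (hb k).1
    · rw [e 1, (hb 1).2]
      simp only [Finset.sum_range_succ, Finset.sum_range_zero, pow_zero, Nat.sub_zero, Nat.sub_self]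
      rw [ih1, Y1]
      simp
    · rw [e 2, (hb 2).2, Finset.sum_insert hj]
      simp only [Finset.sum_range_succ, Finset.sum_range_zero, pow_zero, Nat.sub_zero,
        Nat.sub_self, show 2 - 1 = 1 from rfl]
      rw [ih1, ih2, Y1, Y2, z0]
      norm_num
      ring
    · rw [e 4, (hb 4).2, Finset.sum_insert hj]
      simp only [Finset.sum_range_succ, Finset.sum_range_zero, pow_zero, Nat.sub_zero,
        Nat.sub_self, show 4 - 1 = 3 from rfl, show 4 - 2 = 2 from rfl, show 4 - 3 = 1 from rfl]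
      rw [ih1, ih2, Y1, Y2, Y4, z0]
      have c2 : Nat.choose 4 2 = 6 := rfl
      have c4 : Nat.choose 4 4 = 1 := rfl
      have c0 : Nat.choose 4 0 = 1 := rfl
      rw [c2, c4, c0]
      push_cast
      have hV : 0 ≤ ∑ i ∈ s, l i ^ 2 := Finset.sum_nonneg fun i _ => sq_nonneg _
      have hl : 0 ≤ l j ^ 2 := sq_nonneg _
      have hVl := mul_nonneg hV hl
      nlinarith

theorem prod_diff {ι : Type} (s : Finset ι) (a b : ι → ℂ) (ha : ∀ i, ‖a i‖ ≤ 1)
    (hb : ∀ i, ‖b i‖ ≤ 1) : ‖∏ i ∈ s, a i - ∏ i ∈ s, b i‖ ≤ ∑ i ∈ s, ‖a i - b i‖ := by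
  classical
  induction s using Finset.induction_on with
  | empty => simp
  | insert j s hj ih =>
    rw [Finset.prod_insert hj, Finset.prod_insert hj, Finset.sum_insert hj]
    have e : a j * ∏ i ∈ s, a i - b j * ∏ i ∈ s, b i =
        (a j - b j) * ∏ i ∈ s, a i + b j * (∏ i ∈ s, a i - ∏ i ∈ s, b i) := by ring
    rw [e]
    refine (norm_add_le _ _).trans ?_
    rw [norm_mul, norm_mul]
    have h1 : ‖∏ i ∈ s, a i‖ ≤ 1 := by
      rw [norm_prod]
      exact Finset.prod_le_one (fun i _ => norm_nonneg _) fun i _ => ha i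
    have h2 : ‖a j - b j‖ * ‖∏ i ∈ s, a i‖ ≤ ‖a j - b j‖ * 1 :=
      mul_le_mul_of_nonneg_left h1 (norm_nonneg _)
    have h3 : ‖b j‖ * ‖∏ i ∈ s, a i - ∏ i ∈ s, b i‖ ≤ 1 * ‖∏ i ∈ s, a i - ∏ i ∈ s, b i‖ :=
      mul_le_mul_of_nonneg_right (hb j) (norm_nonneg _)
    linarith

theorem charf {ι : Type} [Fintype ι] {C : ℝ}
    (h : ∀ lam : ℝ, ‖∫ z, Complex.exp (Complex.I * (lam * (z ^ 2 - 1) : ℝ)) ∂(gaussianReal 0 1) -
      Complex.exp (-(lam ^ 2 : ℝ))‖ ≤ C * |lam| ^ 3) (l : ι → ℝ) :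
    ‖∫ x, Complex.exp (Complex.I * (∑ i, X l i x : ℝ)) ∂(pim ι) -
      Complex.exp (-(∑ i, l i ^ 2 : ℝ))‖ ≤ ∑ i, C * |l i| ^ 3 := by
  have e1 : ∫ x, Complex.exp (Complex.I * (∑ i, X l i x : ℝ)) ∂(pim ι) =
      ∏ i, ∫ z, Complex.exp (Complex.I * (l i * (z ^ 2 - 1) : ℝ)) ∂(gaussianReal 0 1) := by
    rw [← integral_fintype_prod_eq_prod (𝕜 := ℂ)
      (f := fun i (z : ℝ) => Complex.exp (Complex.I * (l i * (z ^ 2 - 1) : ℝ)))]
    refine integral_congr_ae (Eventually.of_forall fun x => ?_)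
    show Complex.exp (Complex.I * (∑ i, X l i x : ℝ)) =
      ∏ i, Complex.exp (Complex.I * (l i * ((x i) ^ 2 - 1) : ℝ))
    rw [← Complex.exp_sum, ← Finset.mul_sum, ← Complex.ofReal_sum]
    rfl
  have e2 : Complex.exp (-(∑ i, l i ^ 2 : ℝ)) = ∏ i, Complex.exp (-(l i ^ 2 : ℝ)) := by
    rw [← Complex.exp_sum, Finset.sum_neg_distrib, ← Complex.ofReal_sum]
  rw [e1, e2]
  refine (prod_diff _ _ _ (fun i => ?_) fun i => ?_).trans (Finset.sum_le_sum fun i _ => h (l i))
  · refine (norm_integral_le_of_norm_le_const (C := 1) (Eventually.of_forall fun z => ?_)).trans ?_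
    · rw [mul_comm, Complex.norm_exp_ofReal_mul_I]
    · simp
  · rw [← Complex.ofReal_neg, Complex.norm_exp, Complex.ofReal_re, Real.exp_le_one_iff]
    linarith [sq_nonneg (l i)]

end QFEM

open QFEM in
theorem specQFE (hQF1 : SpecQF1) : SpecQFE := by
  obtain ⟨C, hC, M1, M2, M4, hch⟩ := hQF1
  refine ⟨C, hC, ?_⟩
  intro F _ _ _ _ _ B hB
  have hsym : (B : F →ₗ[ℝ] F).IsSymmetric := hB
  set n := Module.finrank ℝ F with hn
  let b := hsym.eigenvectorBasis hn.symm
  let l : Fin n → ℝ := hsym.eigenvalues hn.symm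
  have hBb : ∀ i, B (b i) = l i • b i := fun i => hsym.apply_eigenvectorBasis hn.symm i
  have hon := b.orthonormal
  have hinn : ∀ i, ⟪b i, b i⟫ = (1 : ℝ) := by
    intro i
    rw [real_inner_self_eq_norm_sq, hon.norm_eq_one]
    norm_num
  have htr : tr B = ∑ i, l i := by
    unfold tr
    rw [LinearMap.trace_eq_sum_inner _ b]
    refine Finset.sum_congr rfl fun i _ => ?_
    show ⟪b i, B (b i)⟫ = l i
    rw [hBb, real_inner_smul_right, hinn, mul_one]
  have htr2 : tr (B ∘L B) = ∑ i, l i ^ 2 := by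
    unfold tr
    rw [LinearMap.trace_eq_sum_inner _ b]
    refine Finset.sum_congr rfl fun i _ => ?_
    show ⟪b i, B (B (b i))⟫ = l i ^ 2
    rw [hBb, map_smul, hBb, real_inner_smul_right, real_inner_smul_right, hinn]
    ring
  have hform : ∀ x : Fin n → ℝ, ⟪∑ i, x i • b i, B (∑ i, x i • b i)⟫ - tr B =
      ∑ i, X l i x := by
    intro x
    have h1 : B (∑ i, x i • b i) = ∑ i, (x i * l i) • b i := by
      rw [map_sum]
      refine Finset.sum_congr rfl fun i _ => ?_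
      rw [map_smul, hBb, smul_smul]
    rw [h1, hon.inner_sum, htr, ← Finset.sum_sub_distrib]
    refine Finset.sum_congr rfl fun i _ => ?_
    unfold X
    simp only [conj_trivial]
    ring
  have htrans : ∀ {G : Type} [NormedAddCommGroup G] [NormedSpace ℝ G] (g : ℝ → G),
      Continuous g → ∫ x, g (⟪x, B x⟫ - tr B) ∂(stdGaussian F) =
        ∫ x, g (∑ i, X l i x) ∂(pim (Fin n)) := by
    intro G _ _ g hg
    have hc : Continuous fun x : F => g (⟪x, B x⟫ - tr B) := by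
      refine hg.comp ?_
      fun_prop
    rw [stdGaussian_eq_map_pi_orthonormalBasis b, integral_map
      (Measurable.aemeasurable (by fun_prop)) hc.stronglyMeasurable.aestronglyMeasurable]
    refine integral_congr_ae (Eventually.of_forall fun x => ?_)
    show g (⟪∑ i, x i • b i, B (∑ i, x i • b i)⟫ - tr B) = g (∑ i, X l i x)
    rw [hform]
  obtain ⟨-, m1, m2, m4⟩ := moments M1 M2 M4 l Finset.univ
  refine ⟨?_, ?_, ?_, ?_⟩
  · rw [htrans (fun t => t) continuous_id]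
    simpa only [pow_one] using m1
  · rw [htrans (fun t => t ^ 2) (by fun_prop), htr2]
    exact m2
  · rw [htrans (fun t => t ^ 4) (by fun_prop), htr2]
    exact m4
  · rw [htrans (fun t => Complex.exp (Complex.I * (t : ℝ))) (by fun_prop), htr2]
    refine (charf hch l).trans ?_
    have hl : ∀ i, |l i| ≤ ‖B‖ := by
      intro i
      have h := B.le_opNorm (b i)
      rw [hBb, norm_smul, hon.norm_eq_one, mul_one, mul_one, Real.norm_eq_abs] at h
      exact h
    rw [Finset.mul_sum]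
    refine Finset.sum_le_sum fun i _ => ?_
    have h1 : |l i| ^ 3 = |l i| * l i ^ 2 := by
      rw [← sq_abs (l i)]
      ring
    rw [h1]
    have h2 : |l i| * l i ^ 2 ≤ ‖B‖ * l i ^ 2 := mul_le_mul_of_nonneg_right (hl i) (sq_nonneg _)
    have h3 := mul_le_mul_of_nonneg_left h2 hC.le
    linarith

end Pool.Agent.Lib.MP17fa2c
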