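import Pool.Agent.Lib.MP_17fa2c_pr.TD.SpecA
import Pool.Agent.Lib.MP_17fa2c_pr.TD.SpecL

section
/-! # Quadratic forms of a centered Gaussian vector -/
set_option autoImplicit false

open MeasureTheory ProbabilityTheory Filter Topology
open scoped RealInnerProductSpace NNReal ENNReal

namespace Pool.Agent.Lib.MP17fa2c

namespace QFCM

variable {F : Type} [NormedAddCommGroup F] [InnerProductSpace ℝ F] [FiniteDimensional ℝ F]

/-- the square root of a positive symmetric operator -/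
theorem exists_sqrt (D : F →L[ℝ] F) (hs : ∀ x y, ⟪D x, y⟫ = ⟪x, D y⟫) (hp : ∀ x, 0 ≤ ⟪x, D x⟫) :
    ∃ R : F →L[ℝ] F, (∀ x y, ⟪R x, y⟫ = ⟪x, R y⟫) ∧ R ∘L R = D := by
  have hT : (D : F →ₗ[ℝ] F).IsSymmetric := fun x y => hs x y
  set b := hT.eigenvectorBasis rfl with hb
  set l := hT.eigenvalues rfl with hl
  have hDb : ∀ i, D (b i) = l i • b i := fun i => hT.apply_eigenvectorBasis rfl i
  have hl0 : ∀ i, 0 ≤ l i := by
    intro i
    have h := hp (b i)
    rw [hDb, real_inner_smul_right, real_inner_self_eq_norm_sq, b.orthonormal.1 i, one_pow,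
      mul_one] at h
    exact h
  let R : F →L[ℝ] F := ∑ i, Real.sqrt (l i) • (innerSL ℝ (b i)).smulRight (b i)
  have hR : ∀ x, R x = ∑ i, (Real.sqrt (l i) * ⟪b i, x⟫) • b i := by
    intro x
    simp only [R, _root_.sum_apply, _root_.smul_apply,
      ContinuousLinearMap.smulRight_apply, innerSL_apply_apply, smul_smul]
  have hRb : ∀ i x, ⟪b i, R x⟫ = Real.sqrt (l i) * ⟪b i, x⟫ := by
    intro i x
    rw [hR, inner_sum, Finset.sum_eq_single i]
    · rw [real_inner_smul_right, real_inner_self_eq_norm_sq, b.orthonormal.1 i, one_pow, mul_one]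
    · intro j _ hj
      rw [real_inner_smul_right, b.orthonormal.2 (Ne.symm hj), mul_zero]
    · intro h
      exact absurd (Finset.mem_univ _) h
  refine ⟨R, fun x y => ?_, ?_⟩
  · rw [hR x, hR y, sum_inner, inner_sum]
    refine Finset.sum_congr rfl fun i _ => ?_
    rw [real_inner_smul_left, real_inner_smul_right, real_inner_comm x (b i)]
    ring
  · ext x
    change R (R x) = D x
    rw [hR (R x)]
    conv_rhs => rw [← b.sum_repr' x, map_sum]
    refine Finset.sum_congr rfl fun i _ => ?_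
    rw [hRb, map_smul, hDb, smul_smul, ← mul_assoc, Real.mul_self_sqrt (hl0 i), mul_comm]

theorem tr_comm (A B : F →L[ℝ] F) : tr (A ∘L B) = tr (B ∘L A) := by
  change LinearMap.trace ℝ F ((A : F →ₗ[ℝ] F) ∘ₗ (B : F →ₗ[ℝ] F)) =
    LinearMap.trace ℝ F ((B : F →ₗ[ℝ] F) ∘ₗ (A : F →ₗ[ℝ] F))
  exact LinearMap.trace_comp_comm' _ _

variable [MeasurableSpace F] [BorelSpace F]

theorem law (μ : Measure F) [IsGaussian μ] (D R : F →L[ℝ] F) (h0 : ∀ y, ∫ x, ⟪y, x⟫ ∂μ = 0)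
    (h2 : ∀ y y', ∫ x, ⟪y, x⟫ * ⟪y', x⟫ ∂μ = ⟪y, D y'⟫)
    (hR : ∀ x y, ⟪R x, y⟫ = ⟪x, R y⟫) (hRR : R ∘L R = D) :
    μ = (stdGaussian F).map R := by
  refine Measure.ext_of_charFun ?_
  funext t
  rw [IsGaussian.charFun_eq]
  have hm : (∫ x, ((⟪t, x⟫ : ℝ) : ℂ) ∂μ) = 0 := by
    rw [integral_complex_ofReal, h0 t, Complex.ofReal_zero]
  have hv : Var[fun x => ⟪t, x⟫; μ] = ⟪t, D t⟫ := by
    rw [variance_of_integral_eq_zero (by fun_prop) (h0 t), ← h2 t t]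
    refine integral_congr_ae (ae_of_all _ fun x => ?_)
    change ⟪t, x⟫ ^ 2 = ⟪t, x⟫ * ⟪t, x⟫
    ring
  have h3 : charFun ((stdGaussian F).map R) t = charFun (stdGaussian F) (R t) := by
    rw [charFun_apply, charFun_apply, integral_map (by fun_prop) (by fun_prop)]
    refine integral_congr_ae (ae_of_all _ fun x => ?_)
    change Complex.exp ((⟪R x, t⟫ : ℝ) * Complex.I) = Complex.exp ((⟪x, R t⟫ : ℝ) * Complex.I)
    rw [hR]
  have h4 : ‖R t‖ ^ 2 = ⟪t, D t⟫ := by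
    rw [← real_inner_self_eq_norm_sq, hR, ← hRR]
    rfl
  rw [h3, charFun_stdGaussian, hv, ← h4, hm]
  congr 1
  push_cast
  ring

end QFCM

open QFCM in
theorem specQFC (hQFE : SpecQFE) : SpecQFC := by
  obtain ⟨C, hC, hQ⟩ := hQFE
  refine ⟨C, hC, ?_⟩
  intro F _ _ _ _ _ μ D B hG h0 h2 hB
  have hDs : ∀ x y, ⟪D x, y⟫ = ⟪x, D y⟫ := by
    intro x y
    rw [real_inner_comm, ← h2, ← h2]
    refine integral_congr_ae (ae_of_all _ fun z => ?_)
    exact mul_comm _ _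
  have hDp : ∀ x, 0 ≤ ⟪x, D x⟫ := by
    intro x
    rw [← h2]
    exact integral_nonneg fun z => mul_self_nonneg _
  obtain ⟨R, hR, hRR⟩ := exists_sqrt D hDs hDp
  have hμ := law μ D R h0 h2 hR hRR
  set B' : F →L[ℝ] F := R ∘L B ∘L R with hB'
  have hBs : ∀ x y, ⟪B' x, y⟫ = ⟪x, B' y⟫ := by
    intro x y
    change ⟪R (B (R x)), y⟫ = ⟪x, R (B (R y))⟫
    rw [hR, hB, hR]
  have hform : ∀ x, ⟪R x, B (R x)⟫ = ⟪x, B' x⟫ := by
    intro x
    rw [hR]
    rfl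
  have ht1 : tr B' = tr (B ∘L D) := by
    rw [hB', tr_comm, ContinuousLinearMap.comp_assoc, hRR]
  have ht2 : tr (B' ∘L B') = tr (B ∘L D ∘L B ∘L D) := by
    have e1 : B' ∘L B' = R ∘L (B ∘L ((R ∘L R) ∘L (B ∘L R))) := by
      rw [hB']
      simp only [ContinuousLinearMap.comp_assoc]
    rw [e1, tr_comm, hRR]
    congr 1
    simp only [ContinuousLinearMap.comp_assoc, hRR]
  obtain ⟨q1, q2, q3, q4⟩ := hQ F B' hBs
  have hint : ∀ (G : ℝ → ℝ), Continuous G → ∫ x, G ⟪x, B x⟫ ∂μ =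
      ∫ x, G ⟪x, B' x⟫ ∂(stdGaussian F) := by
    intro G hGc
    conv_lhs => rw [hμ]
    rw [integral_map (by fun_prop) (by fun_prop)]
    refine integral_congr_ae (ae_of_all _ fun x => ?_)
    change G ⟪R x, B (R x)⟫ = G ⟪x, B' x⟫
    rw [hform]
  have hintc : ∀ (G : ℝ → ℂ), Continuous G → ∫ x, G ⟪x, B x⟫ ∂μ =
      ∫ x, G ⟪x, B' x⟫ ∂(stdGaussian F) := by
    intro G hGc
    conv_lhs => rw [hμ]
    rw [integral_map (by fun_prop) (by fun_prop)]
    refine integral_congr_ae (ae_of_all _ fun x => ?_)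
    change G ⟪R x, B (R x)⟫ = G ⟪x, B' x⟫
    rw [hform]
  have htr0 : 0 ≤ tr (B' ∘L B') := by
    have h5 : 0 ≤ ∫ x, (⟪x, B' x⟫ - tr B') ^ 2 ∂(stdGaussian F) :=
      integral_nonneg fun x => sq_nonneg _
    rw [q2] at h5
    linarith
  have hadj : ContinuousLinearMap.adjoint R = R := by
    symm
    rw [ContinuousLinearMap.eq_adjoint_iff]
    exact hR
  have hRn : ‖R‖ * ‖R‖ = ‖D‖ := by
    have h6 := ContinuousLinearMap.norm_adjoint_comp_self R
    rw [hadj, hRR] at h6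
    exact h6.symm
  have hnorm : ‖B'‖ ≤ ‖B‖ * ‖D‖ := by
    calc ‖B'‖ ≤ ‖R‖ * ‖B ∘L R‖ := ContinuousLinearMap.opNorm_comp_le _ _
      _ ≤ ‖R‖ * (‖B‖ * ‖R‖) :=
          mul_le_mul_of_nonneg_left (ContinuousLinearMap.opNorm_comp_le _ _) (norm_nonneg _)
      _ = ‖B‖ * ‖D‖ := by rw [← hRn]; ring
  rw [← ht1, ← ht2]
  refine ⟨?_, ?_, ?_, ?_⟩
  · rw [hint (fun s => s - tr B') (by fun_prop)]
    exact q1
  · rw [hint (fun s => (s - tr B') ^ 2) (by fun_prop)]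
    exact q2
  · rw [hint (fun s => (s - tr B') ^ 4) (by fun_prop)]
    exact q3
  · rw [hintc (fun s => Complex.exp (Complex.I * (s - tr B' : ℝ))) (by fun_prop)]
    refine q4.trans ?_
    rw [mul_assoc C ‖B‖]
    exact mul_le_mul_of_nonneg_right (mul_le_mul_of_nonneg_left hnorm hC.le) htr0

end Pool.Agent.Lib.MP17fa2c
end

section
/-!
# MP_17fa2c_pr, module QUA: quadratic forms of Gaussian families
-/
set_option autoImplicit false
set_option linter.unusedSectionVars false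

open MeasureTheory ProbabilityTheory Filter Topology
open scoped RealInnerProductSpace NNReal ENNReal

namespace Pool.Agent.Lib.MP17fa2c
namespace QUAM

section blk
variable {E : Type} [NormedAddCommGroup E] [InnerProductSpace ℝ E] [FiniteDimensional ℝ E]
variable {T : Type} [Fintype T]

/-- the `ℓ²` product -/
abbrev FF (E : Type) [NormedAddCommGroup E] [InnerProductSpace ℝ E] (T : Type) [Fintype T] : Type :=
  PiLp 2 (fun _ : T => E)

/-- coordinate projection -/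
noncomputable def pr (i : T) : FF E T →L[ℝ] E := PiLp.proj 2 (fun _ : T => E) i

/-- inclusion -/
noncomputable def inj (i : T) : E →L[ℝ] FF E T := (pr i : FF E T →L[ℝ] E).adjoint

omit [FiniteDimensional ℝ E] in
theorem pr_apply (i : T) (x : FF E T) : pr i x = x i := rfl

open scoped Classical in
theorem inj_apply (i l : T) (x : E) : (inj i x : FF E T) l = if l = i then x else 0 := by
  refine ext_inner_right ℝ fun y => ?_
  have h1 : ⟪(inj i x : FF E T), PiLp.single 2 l y⟫ = ⟪x, (PiLp.single 2 l y : FF E T) i⟫ :=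
    ContinuousLinearMap.adjoint_inner_left _ _ _
  have h2 : ⟪(inj i x : FF E T), PiLp.single 2 l y⟫ = ⟪(inj i x : FF E T) l, y⟫ := by
    rw [PiLp.inner_apply, Finset.sum_eq_single l]
    · rw [PiLp.single_eq_same]
    · intro k _ hk
      rw [PiLp.single_eq_of_ne 2 hk, inner_zero_right]
    · intro h
      exact absurd (Finset.mem_univ l) h
  rw [← h2, h1]
  by_cases h : l = i
  · subst h
    rw [if_pos rfl, PiLp.single_eq_same]
  · rw [if_neg h, PiLp.single_eq_of_ne 2 (Ne.symm h), inner_zero_right, inner_zero_left]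

omit [FiniteDimensional ℝ E] in
theorem norm_pr (i : T) : ‖(pr i : FF E T →L[ℝ] E)‖ ≤ 1 := by
  refine ContinuousLinearMap.opNorm_le_bound _ zero_le_one fun x => ?_
  rw [one_mul]
  exact PiLp.norm_apply_le x i

theorem norm_inj (i : T) : ‖(inj i : E →L[ℝ] FF E T)‖ ≤ 1 := by
  unfold inj
  rw [ContinuousLinearMap.adjoint.norm_map]
  exact norm_pr i

/-- block operator -/
noncomputable def blk (X : T → T → E →L[ℝ] E) : FF E T →L[ℝ] FF E T :=
  ∑ i, ∑ l, inj i ∘L X i l ∘L pr l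

theorem blk_apply (X : T → T → E →L[ℝ] E) (f : FF E T) (k : T) :
    blk X f k = ∑ l, X k l (f l) := by
  classical
  have h : pr k (blk X f) = ∑ l, X k l (f l) := by
    unfold blk
    rw [_root_.sum_apply, map_sum, Finset.sum_eq_single k]
    · rw [_root_.sum_apply, map_sum]
      refine Finset.sum_congr rfl fun l _ => ?_
      show (inj k (X k l (f l)) : FF E T) k = _
      rw [inj_apply, if_pos rfl]
    · intro i _ hi
      rw [_root_.sum_apply, map_sum]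
      refine Finset.sum_eq_zero fun l _ => ?_
      show (inj i (X i l (f l)) : FF E T) k = _
      rw [inj_apply, if_neg (Ne.symm hi)]
    · intro h
      exact absurd (Finset.mem_univ k) h
  exact h

theorem tr_sum {α : Type} (s : Finset α) {G : Type} [NormedAddCommGroup G]
    [InnerProductSpace ℝ G] (X : α → G →L[ℝ] G) : tr (∑ i ∈ s, X i) = ∑ i ∈ s, tr (X i) := by
  unfold tr
  have : ((∑ i ∈ s, X i : G →L[ℝ] G) : G →ₗ[ℝ] G) = ∑ i ∈ s, (X i : G →ₗ[ℝ] G) := by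
    ext x
    simp
  rw [this, map_sum]

theorem tr_smul {G : Type} [NormedAddCommGroup G]
    [InnerProductSpace ℝ G] (a : ℝ) (X : G →L[ℝ] G) : tr (a • X) = a * tr X := by
  unfold tr
  rw [ContinuousLinearMap.toLinearMap_smul, map_smul, smul_eq_mul]

theorem tr_blk (X : T → T → E →L[ℝ] E) : tr (blk X) = ∑ i, tr (X i i) := by
  classical
  unfold blk
  rw [tr_sum]
  refine Finset.sum_congr rfl fun i _ => ?_
  rw [tr_sum, Finset.sum_eq_single i]
  · have h : ((X i i : E →L[ℝ] E) : E →ₗ[ℝ] E) =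
        ((X i i : E →ₗ[ℝ] E) ∘ₗ ((pr i : FF E T →L[ℝ] E) : FF E T →ₗ[ℝ] E)) ∘ₗ
          ((inj i : E →L[ℝ] FF E T) : E →ₗ[ℝ] FF E T) := by
      ext x
      show X i i x = X i i ((inj i x : FF E T) i)
      rw [inj_apply, if_pos rfl]
    unfold tr
    rw [h, LinearMap.trace_comp_comm']
    rfl
  · intro l _ hl
    have h : ((X i l : E →ₗ[ℝ] E) ∘ₗ ((pr l : FF E T →L[ℝ] E) : FF E T →ₗ[ℝ] E)) ∘ₗ
          ((inj i : E →L[ℝ] FF E T) : E →ₗ[ℝ] FF E T) = 0 := by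
      ext x
      show X i l ((inj i x : FF E T) l) = 0
      rw [inj_apply, if_neg hl, map_zero]
    have h2 := congrArg (LinearMap.trace ℝ E) h
    rw [LinearMap.trace_comp_comm', map_zero] at h2
    unfold tr
    exact h2
  · intro h
    exact absurd (Finset.mem_univ i) h

theorem norm_three {G H : Type} [NormedAddCommGroup G] [InnerProductSpace ℝ G]
    [NormedAddCommGroup H] [InnerProductSpace ℝ H] (f : G →L[ℝ] H) (g : G →L[ℝ] G) (h : H →L[ℝ] G)
    (hf : ‖f‖ ≤ 1) (hh : ‖h‖ ≤ 1) : ‖f ∘L g ∘L h‖ ≤ ‖g‖ := by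
  refine ContinuousLinearMap.opNorm_le_bound _ (norm_nonneg _) fun x => ?_
  show ‖f (g (h x))‖ ≤ _
  have h1 : ‖f (g (h x))‖ ≤ ‖g (h x)‖ :=
    (f.le_opNorm _).trans (mul_le_of_le_one_left (norm_nonneg _) hf)
  have h2 : ‖h x‖ ≤ ‖x‖ := (h.le_opNorm _).trans (mul_le_of_le_one_left (norm_nonneg _) hh)
  exact h1.trans ((g.le_opNorm _).trans (mul_le_mul_of_nonneg_left h2 (norm_nonneg _)))

theorem norm_blk (X : T → T → E →L[ℝ] E) : ‖blk X‖ ≤ ∑ i, ∑ l, ‖X i l‖ := by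
  have h1 : ‖blk X‖ ≤ ∑ i, ‖∑ l, (inj i : E →L[ℝ] FF E T) ∘L X i l ∘L pr l‖ :=
    norm_sum_le Finset.univ fun i => ∑ l, (inj i : E →L[ℝ] FF E T) ∘L X i l ∘L pr l
  have h2 : ∀ i, ‖∑ l, (inj i : E →L[ℝ] FF E T) ∘L X i l ∘L pr l‖ ≤
      ∑ l, ‖(inj i : E →L[ℝ] FF E T) ∘L X i l ∘L pr l‖ := fun i =>
    norm_sum_le Finset.univ fun l => (inj i : E →L[ℝ] FF E T) ∘L X i l ∘L pr l
  have h3 : ∀ i l, ‖(inj i : E →L[ℝ] FF E T) ∘L X i l ∘L (pr l : FF E T →L[ℝ] E)‖ ≤ ‖X i l‖ :=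
    fun i l => norm_three _ _ _ (norm_inj i) (norm_pr l)
  exact h1.trans (Finset.sum_le_sum fun i _ => (h2 i).trans (Finset.sum_le_sum fun l _ => h3 i l))

/-- diagonal operator -/
noncomputable def dia (m : T → ℝ) : FF E T →L[ℝ] FF E T :=
  ∑ i, m i • (inj i ∘L pr i)

theorem dia_apply (m : T → ℝ) (f : FF E T) (k : T) : dia m f k = m k • f k := by
  classical
  have h : pr k (dia m f) = m k • f k := by
    unfold dia
    rw [_root_.sum_apply, map_sum, Finset.sum_eq_single k]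
    · show m k • (inj k (f k) : FF E T) k = _
      rw [inj_apply, if_pos rfl]
    · intro i _ hi
      show m i • (inj i (f i) : FF E T) k = _
      rw [inj_apply, if_neg (Ne.symm hi), smul_zero]
    · intro h
      exact absurd (Finset.mem_univ k) h
  exact h

theorem norm_dia (m : T → ℝ) (κ : ℝ) (hκ : 0 ≤ κ) (hm : ∀ i, |m i| ≤ κ) :
    ‖(dia m : FF E T →L[ℝ] FF E T)‖ ≤ κ := by
  refine ContinuousLinearMap.opNorm_le_bound _ hκ fun x => ?_
  have h1 : ‖dia m x‖ ^ 2 ≤ (κ * ‖x‖) ^ 2 := by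
    rw [mul_pow, PiLp.norm_sq_eq_of_L2, PiLp.norm_sq_eq_of_L2, Finset.mul_sum]
    refine Finset.sum_le_sum fun i _ => ?_
    rw [dia_apply, norm_smul, mul_pow, Real.norm_eq_abs]
    refine mul_le_mul_of_nonneg_right ?_ (by positivity)
    exact pow_le_pow_left₀ (abs_nonneg _) (hm i) 2
  exact le_of_sq_le_sq h1 (by positivity)

theorem dia_blk (m : T → ℝ) (X : T → T → E →L[ℝ] E) :
    dia m ∘L blk X = blk (fun i l => m i • X i l) := by
  ext f k
  show dia m (blk X f) k = _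
  rw [dia_apply, blk_apply, blk_apply, Finset.smul_sum]
  rfl

theorem blk_blk (X Y : T → T → E →L[ℝ] E) :
    blk X ∘L blk Y = blk (fun i l => ∑ k, X i k ∘L Y k l) := by
  ext f k
  show blk X (blk Y f) k = _
  rw [blk_apply, blk_apply]
  simp only [blk_apply, map_sum, _root_.sum_apply]
  rw [Finset.sum_comm]
  rfl

end blk

section main
variable {ι : Type} [Fintype ι] [DecidableEq ι] {T : Type} [Fintype T]
  {E : Type} [NormedAddCommGroup E] [InnerProductSpace ℝ E] [FiniteDimensional ℝ E]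
  (S : BStr ι E) (c : T → T → ℝ) (Q : E →L[ℝ] E) (r : T → E)

/-- the covariance blocks -/
noncomputable def DD (i l : T) : E →L[ℝ] E :=
  c i l • ∑ a, ⟪r i, S.J a (r l)⟫ • (Q ∘L S.J a ∘L Q)

theorem tr_o (hQ : IsPr S Q) : tr (Q ∘L S.J S.o ∘L Q) = tr Q := by
  have : Q ∘L S.J S.o ∘L Q = Q := by
    ext x
    show Q (S.J S.o (Q x)) = Q x
    rw [S.J_o, hQ.2]
  rw [this]

theorem tr_DD (hTRA : SpecTRA) (hQ : IsPr S Q) (i : T) (hc : c i i = 1) :
    tr (DD S c Q r i i) = ‖r i‖ ^ 2 * tr Q := by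
  unfold DD
  rw [tr_smul, hc, one_mul, tr_sum, Finset.sum_eq_single S.o]
  · rw [tr_smul, tr_o S Q hQ, S.J_o, real_inner_self_eq_norm_sq]
  · intro a _ ha
    rw [tr_smul, (hTRA ι E S Q hQ).2.2.2.1 a ha, mul_zero]
  · intro h
    exact absurd (Finset.mem_univ _) h

theorem tr_ab (hTRA : SpecTRA) (hQ : IsPr S Q) (a b : ι) :
    tr ((Q ∘L S.J a ∘L Q) ∘L (Q ∘L S.J b ∘L Q)) =
      if a = b then (if a = S.o then tr Q else -tr Q) else 0 := by
  obtain ⟨k, s, hs, h1, h2⟩ := S.mul a b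
  have e : (Q ∘L S.J a ∘L Q) ∘L (Q ∘L S.J b ∘L Q) = s • (Q ∘L S.J k ∘L Q) := by
    ext x
    show Q (S.J a (Q (Q (S.J b (Q x))))) = s • Q (S.J k (Q x))
    rw [hQ.2, hQ.1.2 b (Q x), hQ.2, h1, map_smul]
  rw [e, tr_smul]
  by_cases hab : a = b
  · have hk : k = S.o := h2.2 hab
    subst hab
    rw [if_pos rfl, hk, tr_o S Q hQ]
    by_cases hE : ∃ x : E, x ≠ 0
    · obtain ⟨x, hx⟩ := hE
      have hx2 : ‖x‖ ^ 2 ≠ 0 := pow_ne_zero 2 (norm_ne_zero_iff.2 hx)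
      have h3 : S.J a (S.J a x) = s • x := by rw [h1, hk, S.J_o]
      by_cases ha : a = S.o
      · rw [if_pos ha]
        have h4 : ⟪S.J a (S.J a x), x⟫ = s * ‖x‖ ^ 2 := by
          rw [h3, inner_smul_left, real_inner_self_eq_norm_sq]; rfl
        rw [ha, S.J_o, S.J_o, real_inner_self_eq_norm_sq] at h4
        have hs1 : s = 1 := by
          have : (s - 1) * ‖x‖ ^ 2 = 0 := by linarith
          rcases mul_eq_zero.1 this with h | h
          · linarith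
          · exact absurd h hx2
        rw [hs1, one_mul]
      · rw [if_neg ha]
        have h4 : ⟪S.J a (S.J a x), x⟫ = s * ‖x‖ ^ 2 := by
          rw [h3, inner_smul_left, real_inner_self_eq_norm_sq]; rfl
        rw [S.skew a ha, real_inner_self_eq_norm_sq, S.norm_J] at h4
        have hs1 : s = -1 := by
          have : (s + 1) * ‖x‖ ^ 2 = 0 := by linarith
          rcases mul_eq_zero.1 this with h | h
          · linarith
          · exact absurd h hx2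
        rw [hs1]; ring
    · push Not at hE
      have hQ0 : Q = 0 := by
        ext x
        rw [hE x, map_zero, map_zero]
      have : tr Q = 0 := by
        rw [hQ0]
        unfold tr
        simp
      rw [this]
      split_ifs <;> simp
  · rw [if_neg hab]
    have hk : k ≠ S.o := fun h => hab (h2.1 h)
    rw [(hTRA ι E S Q hQ).2.2.2.1 k hk, mul_zero]

theorem tr_DDD (hTRA : SpecTRA) (hQ : IsPr S Q) (i l : T) (hc : c l i = c i l) :
    tr (DD S c Q r i l ∘L DD S c Q r l i) =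
      c i l ^ 2 * (tr Q * ∑ a, ⟪r i, S.J a (r l)⟫ ^ 2) := by
  have e : DD S c Q r i l ∘L DD S c Q r l i = (c i l ^ 2) • ∑ a, ∑ b,
      (⟪r i, S.J a (r l)⟫ * ⟪r l, S.J b (r i)⟫) •
        ((Q ∘L S.J a ∘L Q) ∘L (Q ∘L S.J b ∘L Q)) := by
    unfold DD
    rw [hc]
    ext x
    simp only [ContinuousLinearMap.comp_apply, smul_apply, _root_.sum_apply, map_smul, map_sum,
      Finset.smul_sum, smul_smul]
    rw [Finset.sum_comm]
    refine Finset.sum_congr rfl fun a _ => Finset.sum_congr rfl fun b _ => ?_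
    congr 1
    ring
  rw [e, tr_smul, tr_sum]
  congr 1
  rw [Finset.mul_sum]
  refine Finset.sum_congr rfl fun a _ => ?_
  rw [tr_sum, Finset.sum_eq_single a]
  · rw [tr_smul, tr_ab S Q hTRA hQ, if_pos rfl]
    by_cases ha : a = S.o
    · rw [if_pos ha, ha, S.J_o, S.J_o, real_inner_comm (r i) (r l)]
      ring
    · rw [if_neg ha]
      have : ⟪r l, S.J a (r i)⟫ = -⟪r i, S.J a (r l)⟫ := by
        rw [real_inner_comm, S.skew a ha]
      rw [this]
      ring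
  · intro b _ hb
    rw [tr_smul, tr_ab S Q hTRA hQ, if_neg (Ne.symm hb), mul_zero]
  · intro h
    exact absurd (Finset.mem_univ _) h

theorem norm_DD (hJON : SpecJON) (hQ : IsPr S Q) (i l : T) (hc : |c i l| ≤ 1)
    (hr : ∀ i, ‖r i‖ ≤ 1) : ‖DD S c Q r i l‖ ≤ Fintype.card ι := by
  have hQn := (hJON ι E S).2.2.2.1 Q hQ
  have h1 : ∀ a, ‖⟪r i, S.J a (r l)⟫ • (Q ∘L S.J a ∘L Q)‖ ≤ 1 := by
    intro a
    refine ContinuousLinearMap.opNorm_le_bound _ zero_le_one fun x => ?_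
    show ‖⟪r i, S.J a (r l)⟫ • Q (S.J a (Q x))‖ ≤ _
    rw [norm_smul, Real.norm_eq_abs]
    have h2 : |⟪r i, S.J a (r l)⟫| ≤ 1 := by
      refine (abs_real_inner_le_norm _ _).trans ?_
      rw [S.norm_J]
      exact mul_le_one₀ (hr i) (norm_nonneg _) (hr l)
    have h3 : ‖Q (S.J a (Q x))‖ ≤ ‖x‖ := by
      refine (hQn _).trans ?_
      rw [S.norm_J]
      exact hQn x
    exact mul_le_mul h2 h3 (norm_nonneg _) zero_le_one
  have h4 : ‖∑ a, ⟪r i, S.J a (r l)⟫ • (Q ∘L S.J a ∘L Q)‖ ≤ Fintype.card ι := by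
    refine (norm_sum_le _ _).trans ((Finset.sum_le_sum fun a _ => h1 a).trans ?_)
    simp
  unfold DD
  rw [norm_smul, Real.norm_eq_abs]
  calc |c i l| * ‖∑ a, ⟪r i, S.J a (r l)⟫ • (Q ∘L S.J a ∘L Q)‖
      ≤ 1 * Fintype.card ι := mul_le_mul hc h4 (norm_nonneg _) zero_le_one
    _ = Fintype.card ι := one_mul _

/-- the Gaussian vector -/
noncomputable def LL : (T → E →L[ℝ] E) →L[ℝ] FF E T :=
  ∑ i, inj i ∘L Q ∘L (ContinuousLinearMap.apply ℝ E (r i)) ∘L
    (ContinuousLinearMap.proj (R := ℝ) (φ := fun _ : T => E →L[ℝ] E) i)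

theorem LL_apply (G : T → E →L[ℝ] E) (k : T) : LL Q r G k = Q (G k (r k)) := by
  classical
  have h : pr k (LL Q r G) = Q (G k (r k)) := by
    unfold LL
    rw [_root_.sum_apply, map_sum, Finset.sum_eq_single k]
    · show (inj k (Q (G k (r k))) : FF E T) k = _
      rw [inj_apply, if_pos rfl]
    · intro i _ hi
      show (inj i (Q (G i (r i))) : FF E T) k = _
      rw [inj_apply, if_neg (Ne.symm hi)]
    · intro h
      exact absurd (Finset.mem_univ k) h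
  exact h

/-- the functional `G ↦ ⟪x, G i y⟫` -/
noncomputable def fu (i : T) (x y : E) : (T → E →L[ℝ] E) →L[ℝ] ℝ :=
  (innerSL ℝ x) ∘L (ContinuousLinearMap.apply ℝ E y) ∘L
    (ContinuousLinearMap.proj (R := ℝ) (φ := fun _ : T => E →L[ℝ] E) i)

theorem fu_apply (i : T) (x y : E) (G : T → E →L[ℝ] E) : fu i x y G = ⟪x, G i y⟫ := rfl

variable {S c Q r}

theorem inner_DD (hQ : IsPr S Q) (i l : T) (y z : E) :
    ⟪y, DD S c Q r i l z⟫ = c i l * ∑ a, ⟪Q y, S.J a (Q z)⟫ * ⟪r i, S.J a (r l)⟫ := by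
  unfold DD
  rw [smul_apply, _root_.sum_apply, inner_smul_right, inner_sum]
  congr 1
  refine Finset.sum_congr rfl fun a _ => ?_
  rw [smul_apply, inner_smul_right]
  have : ⟪y, (Q ∘L S.J a ∘L Q) z⟫ = ⟪Q y, S.J a (Q z)⟫ := (hQ.1.1 y _).symm
  rw [this]
  ring

theorem cov_one {ν : Measure (T → E →L[ℝ] E)} (hν : GFam S c ν) (hQ : IsPr S Q)
    (hr : ∀ i, Q (r i) = 0) (i l : T) (y z : E) :
    ∫ G, ⟪Q y, G i (r i)⟫ * ⟪Q z, G l (r l)⟫ ∂ν = ⟪y, DD S c Q r i l z⟫ := by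
  rw [hν.cov, inner_DD hQ]
  congr 1
  refine Finset.sum_congr rfl fun a _ => ?_
  have : ⟪Q y, S.J a (r l)⟫ = 0 := by
    rw [hQ.1.1, hQ.1.2, hr l, map_zero, inner_zero_right]
  rw [this]
  ring

theorem inner_LL (hQ : IsPr S Q) (y : FF E T) (G : T → E →L[ℝ] E) :
    ⟪y, LL Q r G⟫ = ∑ i, ⟪Q (y i), G i (r i)⟫ := by
  rw [PiLp.inner_apply]
  refine Finset.sum_congr rfl fun i _ => ?_
  rw [LL_apply, hQ.1.1]

theorem memLp_fu {ν : Measure (T → E →L[ℝ] E)} (hν : GFam S c ν) (i : T) (x y : E) :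
    MemLp (fun G : T → E →L[ℝ] E => ⟪x, G i y⟫) 2 ν := by
  have := hν.gauss
  exact IsGaussian.memLp_dual ν (fu i x y) 2 (by simp)

theorem main (hJON : SpecJON) (hTRA : SpecTRA)
    {ν : Measure (T → E →L[ℝ] E)} (hν : GFam S c ν) (hcs : ∀ i l, c i l = c l i)
    (hc1 : ∀ i, c i i = 1) (hcl : ∀ i l, |c i l| ≤ 1) (m : T → ℝ) (κ V C0 : ℝ)
    (hC0 : 0 < C0)
    (H : ∀ (F : Type) [NormedAddCommGroup F]
      [InnerProductSpace ℝ F] [FiniteDimensional ℝ F] [MeasurableSpace F] [BorelSpace F]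
      (μ : Measure F) (D B : F →L[ℝ] F), IsGaussian μ → (∀ y, ∫ x, ⟪y, x⟫ ∂μ = 0) →
      (∀ y y', ∫ x, ⟪y, x⟫ * ⟪y', x⟫ ∂μ = ⟪y, D y'⟫) → (∀ x y, ⟪B x, y⟫ = ⟪x, B y⟫) →
      (∫ x, (⟪x, B x⟫ - tr (B ∘L D)) ∂μ = 0) ∧
      (∫ x, (⟪x, B x⟫ - tr (B ∘L D)) ^ 2 ∂μ = 2 * tr (B ∘L D ∘L B ∘L D)) ∧
      (∫ x, (⟪x, B x⟫ - tr (B ∘L D)) ^ 4 ∂μ ≤ 60 * tr (B ∘L D ∘L B ∘L D) ^ 2) ∧
      ‖∫ x, Complex.exp (Complex.I * (⟪x, B x⟫ - tr (B ∘L D) : ℝ)) ∂μ -
        Complex.exp (-(tr (B ∘L D ∘L B ∘L D) : ℝ))‖ ≤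
          C0 * ‖B‖ * ‖D‖ * tr (B ∘L D ∘L B ∘L D))
    (hQ : IsPr S Q) (hr0 : ∀ i, Q (r i) = 0) (hr : ∀ i, ‖r i‖ ≤ 1) (hm : ∀ i, |m i| ≤ κ)
    (hV : V = tr Q * ∑ i, ∑ l, m i * m l * c i l ^ 2 * ∑ a, ⟪r i, S.J a (r l)⟫ ^ 2) :
    (∫ G, (∑ i, m i * (‖Q (G i (r i))‖ ^ 2 - tr Q * ‖r i‖ ^ 2)) ∂ν = 0) ∧
    (∫ G, (∑ i, m i * (‖Q (G i (r i))‖ ^ 2 - tr Q * ‖r i‖ ^ 2)) ^ 2 ∂ν = 2 * V) ∧
    (∫ G, (∑ i, m i * (‖Q (G i (r i))‖ ^ 2 - tr Q * ‖r i‖ ^ 2)) ^ 4 ∂ν ≤ 60 * V ^ 2) ∧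
    ‖∫ G, Complex.exp (Complex.I *
        (∑ i, m i * (‖Q (G i (r i))‖ ^ 2 - tr Q * ‖r i‖ ^ 2) : ℝ)) ∂ν -
      Complex.exp (-(V : ℝ))‖ ≤
        (C0 * (Fintype.card ι * (Fintype.card T) ^ 2 + 1)) * κ * V := by
  let _ : MeasurableSpace E := borel E
  have : BorelSpace E := ⟨rfl⟩
  have := hν.gauss
  set L := LL Q r with hL
  set B : FF E T →L[ℝ] FF E T := dia m with hB
  set D : FF E T →L[ℝ] FF E T := blk (DD S c Q r) with hD
  have hLm : Measurable L := L.continuous.measurable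
  -- mean
  have hmean : ∀ y, ∫ x, ⟪y, x⟫ ∂(ν.map L) = 0 := by
    intro y
    rw [integral_map hLm.aemeasurable (by fun_prop)]
    simp only [hL, inner_LL hQ]
    rw [integral_finsetSum]
    · exact Finset.sum_eq_zero fun i _ => hν.mean i _ _
    · intro i _
      exact (memLp_fu hν i _ _).integrable (by norm_num)
  -- covariance
  have hcov : ∀ y y', ∫ x, ⟪y, x⟫ * ⟪y', x⟫ ∂(ν.map L) = ⟪y, D y'⟫ := by
    intro y y'
    rw [integral_map hLm.aemeasurable (by fun_prop)]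
    simp only [hL, inner_LL hQ, Finset.sum_mul_sum]
    rw [integral_finsetSum]
    · rw [PiLp.inner_apply]
      refine Finset.sum_congr rfl fun i _ => ?_
      rw [integral_finsetSum]
      · rw [hD, blk_apply, inner_sum]
        exact Finset.sum_congr rfl fun l _ => cov_one hν hQ hr0 i l _ _
      · intro l _
        exact (memLp_fu hν i _ _).integrable_mul (memLp_fu hν l _ _)
    · intro i _
      exact integrable_finsetSum _ fun l _ =>
        (memLp_fu hν i _ _).integrable_mul (memLp_fu hν l _ _)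
  have hBs : ∀ x y, ⟪B x, y⟫ = ⟪x, B y⟫ := by
    intro x y
    rw [PiLp.inner_apply, PiLp.inner_apply]
    refine Finset.sum_congr rfl fun i _ => ?_
    rw [hB, dia_apply, dia_apply, inner_smul_left, inner_smul_right]
    rfl
  have e1 : tr (B ∘L D) = ∑ i, m i * (tr Q * ‖r i‖ ^ 2) := by
    rw [hB, hD, dia_blk, tr_blk]
    refine Finset.sum_congr rfl fun i _ => ?_
    rw [tr_smul, tr_DD S c Q r hTRA hQ i (hc1 i)]
    ring
  have e2 : tr (B ∘L D ∘L B ∘L D) = V := by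
    have h1 : B ∘L D ∘L B ∘L D = (B ∘L D) ∘L (B ∘L D) := rfl
    rw [h1, hB, hD, dia_blk, blk_blk, tr_blk, hV, Finset.mul_sum]
    refine Finset.sum_congr rfl fun i _ => ?_
    rw [tr_sum, Finset.mul_sum]
    refine Finset.sum_congr rfl fun l _ => ?_
    have h2 : (m i • DD S c Q r i l) ∘L (m l • DD S c Q r l i) =
        (m i * m l) • (DD S c Q r i l ∘L DD S c Q r l i) := by
      ext x
      simp only [ContinuousLinearMap.comp_apply, smul_apply, map_smul, smul_smul]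
      rw [mul_comm (m l) (m i)]
    rw [h2, tr_smul, tr_DDD S c Q r hTRA hQ i l (hcs l i)]
    ring
  have e3 : ∀ G, ⟪L G, B (L G)⟫ - tr (B ∘L D) =
      ∑ i, m i * (‖Q (G i (r i))‖ ^ 2 - tr Q * ‖r i‖ ^ 2) := by
    intro G
    rw [e1, PiLp.inner_apply, ← Finset.sum_sub_distrib]
    refine Finset.sum_congr rfl fun i _ => ?_
    rw [hB, dia_apply, inner_smul_right, hL, LL_apply, real_inner_self_eq_norm_sq]
    ring
  obtain ⟨a1, a2, a3, a4⟩ := H (FF E T) (ν.map L) D B inferInstance hmean hcov hBs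
  rw [integral_map hLm.aemeasurable (by fun_prop)] at a1 a2 a3 a4
  simp only [e3, e2] at a1 a2 a3 a4
  refine ⟨a1, a2, a3, a4.trans ?_⟩
  have hV0 : 0 ≤ V := by
    have : 0 ≤ ∫ G, (∑ i, m i * (‖Q (G i (r i))‖ ^ 2 - tr Q * ‖r i‖ ^ 2)) ^ 2 ∂ν :=
      integral_nonneg fun G => by positivity
    linarith
  have hDn : ‖D‖ ≤ Fintype.card ι * (Fintype.card T : ℝ) ^ 2 := by
    refine (norm_blk _).trans ?_
    calc ∑ i, ∑ l, ‖DD S c Q r i l‖ ≤ ∑ _i : T, ∑ _l : T, (Fintype.card ι : ℝ) :=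
          Finset.sum_le_sum fun i _ => Finset.sum_le_sum fun l _ =>
            norm_DD S c Q r hJON hQ i l (hcl i l) hr
      _ = Fintype.card ι * (Fintype.card T : ℝ) ^ 2 := by
          simp only [Finset.sum_const, Finset.card_univ, nsmul_eq_mul]
          ring
  rcases isEmpty_or_nonempty T with hT | ⟨⟨i0⟩⟩
  · have : V = 0 := by rw [hV]; simp
    rw [this]
    simp
  · have hκ : 0 ≤ κ := (abs_nonneg _).trans (hm i0)
    have hBn : ‖B‖ ≤ κ := norm_dia m κ hκ hm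
    have h5 : C0 * ‖B‖ * ‖D‖ ≤ C0 * κ * (Fintype.card ι * (Fintype.card T : ℝ) ^ 2 + 1) := by
      have h6 : (0 : ℝ) ≤ ‖D‖ := ContinuousLinearMap.opNorm_nonneg D
      refine mul_le_mul (mul_le_mul_of_nonneg_left hBn hC0.le) (by linarith) h6 ?_
      positivity
    calc C0 * ‖B‖ * ‖D‖ * V ≤
        C0 * κ * (Fintype.card ι * (Fintype.card T : ℝ) ^ 2 + 1) * V :=
          mul_le_mul_of_nonneg_right h5 hV0
      _ = _ := by ring

end main

end QUAM

/-- **QUA**: the quadratic forms of a Gaussian family. -/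
theorem specQUA (hQFC : SpecQFC) (hJON : SpecJON) (hTRA : SpecTRA) : SpecQUA := by
  intro ι _ _ T _
  obtain ⟨C0, hC0, H⟩ := hQFC
  refine ⟨C0 * (Fintype.card ι * (Fintype.card T) ^ 2 + 1), by positivity, ?_⟩
  intro E _ _ _ S c ν hν hcs hc1 hcl Q r m κ V hQ hr0 hr hm hV
  exact QUAM.main hJON hTRA hν hcs hc1 hcl m κ V C0 hC0 H hQ hr0 hr hm hV

end Pool.Agent.Lib.MP17fa2c
end

section
/-!
# MP_17fa2c_pr, module QUE: exponential moments of quadratic forms of Gaussian families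
-/
set_option autoImplicit false
set_option linter.unusedSectionVars false

open MeasureTheory ProbabilityTheory Filter Topology
open scoped RealInnerProductSpace NNReal ENNReal BoundedContinuousFunction

namespace Pool.Agent.Lib.MP17fa2c
namespace QUEM

/-- QFX for a general centered Gaussian vector. -/
theorem gen (hQFX : SpecQFX) (F : Type) [NormedAddCommGroup F]
    [InnerProductSpace ℝ F] [FiniteDimensional ℝ F] [MeasurableSpace F] [BorelSpace F]
    (μ : Measure F) (D B : F →L[ℝ] F) (hG : IsGaussian μ) (h0 : ∀ y, ∫ x, ⟪y, x⟫ ∂μ = 0)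
    (h2 : ∀ y y', ∫ x, ⟪y, x⟫ * ⟪y', x⟫ ∂μ = ⟪y, D y'⟫) (hB : ∀ x y, ⟪B x, y⟫ = ⟪x, B y⟫)
    (hBD : ‖B‖ * ‖D‖ ≤ 1 / 4) :
    ∫⁻ x, ENNReal.ofReal (Real.exp (⟪x, B x⟫ - tr (B ∘L D))) ∂μ ≤
      ENNReal.ofReal (Real.exp (2 * tr (B ∘L D ∘L B ∘L D))) := by
  have hDs : ∀ x y, ⟪D x, y⟫ = ⟪x, D y⟫ := by
    intro x y
    rw [real_inner_comm, ← h2, ← h2]
    refine integral_congr_ae (ae_of_all _ fun z => ?_)
    exact mul_comm _ _
  have hDp : ∀ x, 0 ≤ ⟪x, D x⟫ := by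
    intro x
    rw [← h2]
    exact integral_nonneg fun z => mul_self_nonneg _
  obtain ⟨R, hR, hRR⟩ := QFCM.exists_sqrt D hDs hDp
  have hμ := QFCM.law μ D R h0 h2 hR hRR
  set B' : F →L[ℝ] F := R ∘L B ∘L R with hB'
  have hBs : ∀ x y, ⟪B' x, y⟫ = ⟪x, B' y⟫ := by
    intro x y
    change ⟪R (B (R x)), y⟫ = ⟪x, R (B (R y))⟫
    rw [hR, hB, hR]
  have hform : ∀ x, ⟪R x, B (R x)⟫ = ⟪x, B' x⟫ := by
    intro x
    rw [hR]
    rfl
  have ht1 : tr B' = tr (B ∘L D) := by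
    rw [hB', QFCM.tr_comm, ContinuousLinearMap.comp_assoc, hRR]
  have ht2 : tr (B' ∘L B') = tr (B ∘L D ∘L B ∘L D) := by
    have e1 : B' ∘L B' = R ∘L (B ∘L ((R ∘L R) ∘L (B ∘L R))) := by
      rw [hB']
      simp only [ContinuousLinearMap.comp_assoc]
    rw [e1, QFCM.tr_comm, hRR]
    congr 1
    simp only [ContinuousLinearMap.comp_assoc, hRR]
  have hadj : ContinuousLinearMap.adjoint R = R := by
    symm
    rw [ContinuousLinearMap.eq_adjoint_iff]
    exact hR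
  have hRn : ‖R‖ * ‖R‖ = ‖D‖ := by
    have h6 := ContinuousLinearMap.norm_adjoint_comp_self R
    rw [hadj, hRR] at h6
    exact h6.symm
  have hnorm : ‖B'‖ ≤ ‖B‖ * ‖D‖ := by
    calc ‖B'‖ ≤ ‖R‖ * ‖B ∘L R‖ := ContinuousLinearMap.opNorm_comp_le _ _
      _ ≤ ‖R‖ * (‖B‖ * ‖R‖) :=
          mul_le_mul_of_nonneg_left (ContinuousLinearMap.opNorm_comp_le _ _) (norm_nonneg _)
      _ = ‖B‖ * ‖D‖ := by rw [← hRn]; ring
  have q := hQFX F B' hBs (hnorm.trans hBD)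
  have hint : ∫⁻ x, ENNReal.ofReal (Real.exp (⟪x, B x⟫ - tr B')) ∂μ =
      ∫⁻ x, ENNReal.ofReal (Real.exp (⟪x, B' x⟫ - tr B')) ∂(stdGaussian F) := by
    conv_lhs => rw [hμ]
    rw [lintegral_map (by fun_prop) (by fun_prop)]
    refine lintegral_congr fun x => ?_
    rw [hform]
  rw [← ht1, ← ht2, hint]
  exact q

section main
open QUAM
variable {ι : Type} [Fintype ι] [DecidableEq ι] {T : Type} [Fintype T]
  {E : Type} [NormedAddCommGroup E] [InnerProductSpace ℝ E] [FiniteDimensional ℝ E]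
  {S : BStr ι E} {c : T → T → ℝ} {Q : E →L[ℝ] E} {r : T → E}

theorem main (hJON : SpecJON) (hTRA : SpecTRA) (hQFX : SpecQFX)
    {ν : Measure (T → E →L[ℝ] E)} (hν : GFam S c ν) (hc : Cor c) (m : T → ℝ) (κ V : ℝ)
    (hQ : IsPr S Q) (hr0 : ∀ i, Q (r i) = 0) (hr : ∀ i, ‖r i‖ ≤ 1) (hm : ∀ i, |m i| ≤ κ)
    (hκC : (4 * (Fintype.card ι * (Fintype.card T : ℝ) ^ 2 + 1)) * κ ≤ 1)
    (hV : V = tr Q * ∑ i, ∑ l, m i * m l * c i l ^ 2 * ∑ a, ⟪r i, S.J a (r l)⟫ ^ 2) :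
    ∫⁻ G, ENNReal.ofReal (Real.exp (∑ i, m i * (‖Q (G i (r i))‖ ^ 2 - tr Q * ‖r i‖ ^ 2))) ∂ν ≤
      ENNReal.ofReal (Real.exp (2 * V)) := by
  let _ : MeasurableSpace E := borel E
  have : BorelSpace E := ⟨rfl⟩
  have := hν.gauss
  set L := LL Q r with hL
  set B : FF E T →L[ℝ] FF E T := dia m with hB
  set D : FF E T →L[ℝ] FF E T := QUAM.blk (DD S c Q r) with hD
  have hLm : Measurable L := L.continuous.measurable
  -- mean
  have hmean : ∀ y, ∫ x, ⟪y, x⟫ ∂(ν.map L) = 0 := by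
    intro y
    rw [integral_map hLm.aemeasurable (by fun_prop)]
    simp only [hL, inner_LL hQ]
    rw [integral_finsetSum]
    · exact Finset.sum_eq_zero fun i _ => hν.mean i _ _
    · intro i _
      exact (memLp_fu hν i _ _).integrable (by norm_num)
  -- covariance
  have hcov : ∀ y y', ∫ x, ⟪y, x⟫ * ⟪y', x⟫ ∂(ν.map L) = ⟪y, D y'⟫ := by
    intro y y'
    rw [integral_map hLm.aemeasurable (by fun_prop)]
    simp only [hL, inner_LL hQ, Finset.sum_mul_sum]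
    rw [integral_finsetSum]
    · rw [PiLp.inner_apply]
      refine Finset.sum_congr rfl fun i _ => ?_
      rw [integral_finsetSum]
      · rw [hD, blk_apply, inner_sum]
        exact Finset.sum_congr rfl fun l _ => cov_one hν hQ hr0 i l _ _
      · intro l _
        exact (memLp_fu hν i _ _).integrable_mul (memLp_fu hν l _ _)
    · intro i _
      exact integrable_finsetSum _ fun l _ =>
        (memLp_fu hν i _ _).integrable_mul (memLp_fu hν l _ _)
  have hBs : ∀ x y, ⟪B x, y⟫ = ⟪x, B y⟫ := by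
    intro x y
    rw [PiLp.inner_apply, PiLp.inner_apply]
    refine Finset.sum_congr rfl fun i _ => ?_
    rw [hB, dia_apply, dia_apply, inner_smul_left, inner_smul_right]
    rfl
  have e1 : tr (B ∘L D) = ∑ i, m i * (tr Q * ‖r i‖ ^ 2) := by
    rw [hB, hD, dia_blk, tr_blk]
    refine Finset.sum_congr rfl fun i _ => ?_
    rw [tr_smul, tr_DD S c Q r hTRA hQ i (hc.one i)]
    ring
  have e2 : tr (B ∘L D ∘L B ∘L D) = V := by
    have h1 : B ∘L D ∘L B ∘L D = (B ∘L D) ∘L (B ∘L D) := rfl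
    rw [h1, hB, hD, dia_blk, blk_blk, tr_blk, hV, Finset.mul_sum]
    refine Finset.sum_congr rfl fun i _ => ?_
    rw [tr_sum, Finset.mul_sum]
    refine Finset.sum_congr rfl fun l _ => ?_
    have h2 : (m i • DD S c Q r i l) ∘L (m l • DD S c Q r l i) =
        (m i * m l) • (DD S c Q r i l ∘L DD S c Q r l i) := by
      ext x
      simp only [ContinuousLinearMap.comp_apply, smul_apply, map_smul, smul_smul]
      rw [mul_comm (m l) (m i)]
    rw [h2, tr_smul, tr_DDD S c Q r hTRA hQ i l (hc.symm l i)]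
    ring
  have e3 : ∀ G, ⟪L G, B (L G)⟫ - tr (B ∘L D) =
      ∑ i, m i * (‖Q (G i (r i))‖ ^ 2 - tr Q * ‖r i‖ ^ 2) := by
    intro G
    rw [e1, PiLp.inner_apply, ← Finset.sum_sub_distrib]
    refine Finset.sum_congr rfl fun i _ => ?_
    rw [hB, dia_apply, inner_smul_right, hL, LL_apply, real_inner_self_eq_norm_sq]
    ring
  have hDn : ‖D‖ ≤ Fintype.card ι * (Fintype.card T : ℝ) ^ 2 := by
    refine (norm_blk _).trans ?_
    calc ∑ i, ∑ l, ‖DD S c Q r i l‖ ≤ ∑ _i : T, ∑ _l : T, (Fintype.card ι : ℝ) :=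
          Finset.sum_le_sum fun i _ => Finset.sum_le_sum fun l _ =>
            norm_DD S c Q r hJON hQ i l (hc.le i l) hr
      _ = Fintype.card ι * (Fintype.card T : ℝ) ^ 2 := by
          simp only [Finset.sum_const, Finset.card_univ, nsmul_eq_mul]
          ring
  have hBD : ‖B‖ * ‖D‖ ≤ 1 / 4 := by
    obtain ⟨κ', hκ, hm', hκC'⟩ : ∃ κ' : ℝ, 0 ≤ κ' ∧ (∀ i, |m i| ≤ κ') ∧
        (4 * (Fintype.card ι * (Fintype.card T : ℝ) ^ 2 + 1)) * κ' ≤ 1 := by
      rcases isEmpty_or_nonempty T with hT | ⟨⟨i0⟩⟩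
      · exact ⟨0, le_rfl, fun i => (IsEmpty.false i).elim, by rw [mul_zero]; norm_num⟩
      · exact ⟨κ, (abs_nonneg _).trans (hm i0), hm, hκC⟩
    have hBn : ‖B‖ ≤ κ' := norm_dia m κ' hκ hm'
    have h6 : (0 : ℝ) ≤ ‖D‖ := ContinuousLinearMap.opNorm_nonneg D
    calc ‖B‖ * ‖D‖ ≤ κ' * (Fintype.card ι * (Fintype.card T : ℝ) ^ 2) :=
          mul_le_mul hBn hDn h6 hκ
      _ ≤ 1 / 4 := by nlinarith
  have a := gen hQFX (FF E T) (ν.map L) D B inferInstance hmean hcov hBs hBD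
  rw [lintegral_map (by fun_prop) hLm] at a
  simp only [e3, e2] at a
  exact a

end main

end QUEM

/-- **QUE** -/
theorem specQUE (hJON : SpecJON) (hTRA : SpecTRA) (hQFX : SpecQFX) : SpecQUE := by
  intro ι _ _ T _
  refine ⟨4 * (Fintype.card ι * (Fintype.card T : ℝ) ^ 2 + 1), by positivity, ?_⟩
  intro E _ _ _ S c ν hν hc Q r m κ V hQ hr0 hr hm hκC hV
  exact QUEM.main hJON hTRA hQFX hν hc m κ V hQ hr0 hr hm hκC hV

end Pool.Agent.Lib.MP17fa2c
end
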