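import Pool.Agent.Lib.MP_17fa2c_pr.TD.SpecW

/-!
# MP_17fa2c_pr: definitions of the final statement
-/

set_option autoImplicit false

open MeasureTheory ProbabilityTheory Filter Topology
open scoped RealInnerProductSpace NNReal ENNReal BoundedContinuousFunction Quaternion

namespace Pool.Agent.Lib.MP17fa2c

/-- Index set of the independent real entries of a self-adjoint `n × n` matrix over an algebra with
`β` real coordinates: coordinate `0` of the diagonal entries, all coordinates of the entries above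
the diagonal. -/
abbrev Idx (n β : ℕ) : Type :=
  {p : Fin n × Fin n × Fin β // p.1 < p.2.1 ∨ (p.1 = p.2.1 ∧ (p.2.2 : ℕ) = 0)}

/-- The stationary `GβE` process: `M ω t` is self-adjoint; the real coordinates (`co` = the `β`
real coordinates of `𝔽`) of the entries on and above the diagonal are mutually independent,
stationary centered Gaussian processes, with covariance `2 exp (-|t-s|)` on the diagonal and
`exp (-|t-s|)` above it. -/
structure IsGbE {𝔽 : Type} [NormedRing 𝔽] [StarRing 𝔽] {β : ℕ} (co : Fin β → 𝔽 → ℝ) {n : ℕ}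
    {Ω : Type} [MeasurableSpace Ω] (P : Measure Ω)
    (M : Ω → ℝ≥0 → Matrix (Fin n) (Fin n) 𝔽) : Prop where
  herm : ∀ ω t, (M ω t).IsHermitian
  meas : ∀ (p : Idx n β) (t : ℝ≥0), Measurable fun ω => co p.1.2.2 (M ω t p.1.1 p.1.2.1)
  indep : iIndepFun (fun (p : Idx n β) (ω : Ω) (t : ℝ≥0) => co p.1.2.2 (M ω t p.1.1 p.1.2.1)) P
  gauss : ∀ p : Idx n β,
    IsGaussianProcess (fun (t : ℝ≥0) (ω : Ω) => co p.1.2.2 (M ω t p.1.1 p.1.2.1)) P
  mean : ∀ (p : Idx n β) (t : ℝ≥0), ∫ ω, co p.1.2.2 (M ω t p.1.1 p.1.2.1) ∂P = 0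
  cov : ∀ (p : Idx n β) (s t : ℝ≥0),
    ∫ ω, co p.1.2.2 (M ω s p.1.1 p.1.2.1) * co p.1.2.2 (M ω t p.1.1 p.1.2.1) ∂P =
      (if p.1.1 = p.1.2.1 then 2 else 1) * Real.exp (-|(t : ℝ) - s|)

/-- The real symmetric tridiagonal matrix with diagonal `a 1, …, a n` and off-diagonal entries
`b 1, …, b (n-1)`, as a matrix over `𝔽`. -/
noncomputable def tri (𝔽 : Type) [NormedRing 𝔽] [InnerProductSpace ℝ 𝔽] (n : ℕ) (a b : ℕ → ℝ) :
    Matrix (Fin n) (Fin n) 𝔽 := fun i j =>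
  if i = j then a (i + 1) • 1
  else if (i : ℕ) + 1 = j then b (i + 1) • 1
  else if (j : ℕ) + 1 = i then b (j + 1) • 1
  else 0

/-- `M` is tridiagonalized by a unitary matrix `U` fixing the first basis vector:
`M = U T U*` with `T` real symmetric tridiagonal, off-diagonal entries `≥ 0`. -/
def IsTri {𝔽 : Type} [NormedRing 𝔽] [StarRing 𝔽] [InnerProductSpace ℝ 𝔽] {n : ℕ}
    (M : Matrix (Fin n) (Fin n) 𝔽) (a b : ℕ → ℝ) : Prop :=
  (∀ k, 0 ≤ b k) ∧ ∃ U : Matrix (Fin n) (Fin n) 𝔽, U.conjTranspose * U = 1 ∧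
    U * U.conjTranspose = 1 ∧ (∀ i j : Fin n, (j : ℕ) = 0 → U i j = if i = j then 1 else 0) ∧
    M = U * tri 𝔽 n a b * U.conjTranspose

/-- `x` consists of the rescaled tridiagonal entries of the path `M` at time `t`, depths `kk i`:
`x (inl i) = a_{k_i}(t / k_i)`, `x (inr i) = (b_{k_i}(t / k_i)² - β (n - k_i)) / √(β (n - k_i))`. -/
def IsEnt {𝔽 : Type} [NormedRing 𝔽] [StarRing 𝔽] [InnerProductSpace ℝ 𝔽] (β : ℕ) {n j : ℕ}
    (M : ℝ≥0 → Matrix (Fin n) (Fin n) 𝔽) (kk : Fin j → ℕ) (t : ℝ≥0) (x : Fin j ⊕ Fin j → ℝ) :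
    Prop :=
  ∀ i : Fin j, ∃ a b : ℕ → ℝ, IsTri (M (t / (kk i : ℝ≥0))) a b ∧ x (Sum.inl i) = a (kk i) ∧
    x (Sum.inr i) = (b (kk i) ^ 2 - β * ((n : ℝ) - kk i)) / Real.sqrt (β * ((n : ℝ) - kk i))

/-- The statement `S(k)`: for all `j` and all `k_1(n), …, k_j(n) → ∞`, eventually `≤ k(n)` and
pairwise distinct, the processes of rescaled entries (every continuous version `X n` of them)
converge weakly in `C([0,∞); ℝ^{2j})` to independent stationary Ornstein–Uhlenbeck processes with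
covariance `2 exp (-2|t-s|)`. -/
def SHolds {𝔽 : Type} [NormedRing 𝔽] [StarRing 𝔽] [InnerProductSpace ℝ 𝔽] {β : ℕ}
    (co : Fin β → 𝔽 → ℝ) (k : ℕ → ℕ) : Prop :=
  ∀ (j : ℕ) (kk : Fin j → ℕ → ℕ), (∀ i, Tendsto (kk i) atTop atTop) →
    (∀ᶠ n in atTop, ∀ i, kk i n ≤ k n) →
    (∀ᶠ n in atTop, Function.Injective fun i => kk i n) →
  ∀ (Ω : ℕ → Type) [∀ n, MeasurableSpace (Ω n)] (P : ∀ n, Measure (Ω n))
    [∀ n, IsProbabilityMeasure (P n)] (M : ∀ n, Ω n → ℝ≥0 → Matrix (Fin n) (Fin n) 𝔽),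
    (∀ n, IsGbE co (P n) (M n)) →
  ∀ (X : ∀ n, Ω n → C(ℝ≥0, Fin j ⊕ Fin j → ℝ)), (∀ n t, Measurable fun ω => X n ω t) →
    (∀ᶠ n in atTop, ∀ t, ∀ᵐ ω ∂(P n), IsEnt β (M n ω) (fun i => kk i n) t (X n ω t)) →
  ∀ (Ω' : Type) [MeasurableSpace Ω'] (P' : Measure Ω') [IsProbabilityMeasure P']
    (Y : Ω' → C(ℝ≥0, Fin j ⊕ Fin j → ℝ)), IsOU P' Y →
  ∀ Φ : C(ℝ≥0, Fin j ⊕ Fin j → ℝ) →ᵇ ℝ,
    Tendsto (fun n => ∫ ω, Φ (X n ω) ∂(P n)) atTop (𝓝 (∫ ω, Φ (Y ω) ∂P'))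

/-- Continuous versions exist: for large `n`, if the matrix process has continuous paths, all
`k_1, …, k_j ≤ k(n)` (and `≥ 1`) have a continuous version of the process of rescaled entries, which
almost surely agrees with them at all times. -/
def HasCont {𝔽 : Type} [NormedRing 𝔽] [StarRing 𝔽] [InnerProductSpace ℝ 𝔽] {β : ℕ}
    (co : Fin β → 𝔽 → ℝ) (k : ℕ → ℕ) : Prop :=
  ∀ᶠ n in atTop, ∀ (j : ℕ) (kk : Fin j → ℕ), (∀ i, 1 ≤ kk i ∧ kk i ≤ k n) →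
  ∀ (Ω : Type) [MeasurableSpace Ω] (P : Measure Ω) [IsProbabilityMeasure P]
    (M : Ω → ℝ≥0 → Matrix (Fin n) (Fin n) 𝔽), IsGbE co P M → (∀ ω, Continuous (M ω)) →
  ∃ X : Ω → C(ℝ≥0, Fin j ⊕ Fin j → ℝ), (∀ t, Measurable fun ω => X ω t) ∧
    ∀ᵐ ω ∂P, ∀ t, IsEnt β (M ω) kk t (X ω t)

/-- the real coordinate of `ℝ` -/
def coR : Fin 1 → ℝ → ℝ := fun _ x => x
/-- the real coordinates of `ℂ` -/
def coC : Fin 2 → ℂ → ℝ := ![Complex.re, Complex.im]
/-- the real coordinates of the quaternions -/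
def coH : Fin 4 → ℍ[ℝ] → ℝ :=
  ![fun q => q.re, fun q => q.imI, fun q => q.imJ, fun q => q.imK]

end Pool.Agent.Lib.MP17fa2c
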