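import Pool.Agent.Lib.MP_17fa2c_pr.TD.SpecF
import Pool.Agent.Lib.MP_17fa2c_pr.TD.FinDefs

/-!
# MP_17fa2c_pr, block B: matrices over `ℝ`, `ℂ`, `ℍ`

Every module: file `TD/XXX.lean`, `import Pool.Agent.Lib.MP_17fa2c_pr.TD.SpecB`,
`theorem specXXX (hYYY : SpecYYY) .. : SpecXXX`, own lemmas in the namespace `XXXM`.
-/

set_option autoImplicit false

open MeasureTheory ProbabilityTheory Filter Topology
open scoped RealInnerProductSpace NNReal ENNReal BoundedContinuousFunction Quaternion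

namespace Pool.Agent.Lib.MP17fa2c

/-- the three algebras, with an orthonormal basis `e` of units -/
structure FStr (ι : Type) [Fintype ι] [DecidableEq ι] (𝔽 : Type) [NormedRing 𝔽] [StarRing 𝔽]
    [InnerProductSpace ℝ 𝔽] where
  e : OrthonormalBasis ι ℝ 𝔽
  o : ι
  e_o : e o = 1
  star_e : ∀ a, a ≠ o → star (e a) = -e a
  inner_mul : ∀ x y z : 𝔽, ⟪x * y, z⟫ = ⟪y, star x * z⟫
  mul_inner : ∀ x y z : 𝔽, ⟪x * y, z⟫ = ⟪x, z * star y⟫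
  norm_mul : ∀ x y : 𝔽, ‖x * y‖ = ‖x‖ * ‖y‖
  star_smul : ∀ (r : ℝ) (x : 𝔽), star (r • x) = r • star x
  mul_e : ∀ a b, ∃ c, ∃ s : ℝ, (s = 1 ∨ s = -1) ∧ e b * e a = s • e c ∧ (c = o ↔ a = b)

/-- **FSR** (40 lines). `𝔽 = ℝ`. -/
def SpecFSR : Prop := ∃ F : FStr (Fin 1) ℝ, F.o = 0 ∧ ∀ a (x : ℝ), ⟪F.e a, x⟫ = coR a x

/-- **FSC** (80 lines). `𝔽 = ℂ`, `e = (1, i)` (`Complex.orthonormalBasisOneI`). -/
def SpecFSC : Prop := ∃ F : FStr (Fin 2) ℂ, F.o = 0 ∧ ∀ a (x : ℂ), ⟪F.e a, x⟫ = coC a x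

/-- **FSQ** (150 lines). `𝔽 = ℍ`, `e = (1, i, j, k)`. -/
def SpecFSQ : Prop := ∃ F : FStr (Fin 4) ℍ[ℝ], F.o = 0 ∧ ∀ a (x : ℍ[ℝ]), ⟪F.e a, x⟫ = coH a x

section

variable {𝔽 : Type} [NormedRing 𝔽] [StarRing 𝔽] [InnerProductSpace ℝ 𝔽]
  [IsScalarTower ℝ 𝔽 𝔽] [SMulCommClass ℝ 𝔽 𝔽] [FiniteDimensional ℝ 𝔽]

/-- `𝔽^n` as a real inner product space -/
abbrev VE (𝔽 : Type) [NormedRing 𝔽] [InnerProductSpace ℝ 𝔽] (n : ℕ) : Type :=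
  PiLp 2 (fun _ : Fin n => 𝔽)

/-- the operator of a matrix -/
noncomputable def opm {n : ℕ} (A : Matrix (Fin n) (Fin n) 𝔽) : VE 𝔽 n →L[ℝ] VE 𝔽 n :=
  LinearMap.toContinuousLinearMap
    { toFun := fun x => WithLp.toLp 2 (fun i => ∑ j, A i j * x j)
      map_add' := by
        intro x y; ext i; simp [mul_add, Finset.sum_add_distrib]
      map_smul' := by
        intro r x; ext i; simp [Finset.smul_sum, mul_smul_comm] }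

/-- first basis vector (`n ≥ 1`), here `n + 1` -/
noncomputable def e1 (𝔽 : Type) [NormedRing 𝔽] [InnerProductSpace ℝ 𝔽] (n : ℕ) : VE 𝔽 (n + 1) :=
  WithLp.toLp 2 (fun i => if i = 0 then 1 else 0)

/-- coefficients of the entry `p` in `⟪x, A y⟫` -/
noncomputable def lco {β : ℕ} (F : FStr (Fin β) 𝔽) {n : ℕ} (p : Idx n β) (x y : VE 𝔽 n) : ℝ :=
  if p.1.1 = p.1.2.1 then ⟪(1 : 𝔽), x p.1.1 * star (y p.1.1)⟫
  else ⟪F.e p.1.2.2, x p.1.1 * star (y p.1.2.1) + y p.1.1 * star (x p.1.2.1)⟫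

end

/-- **OPM** (80 lines). The operator of a matrix. -/
def SpecOPM : Prop := ∀ (ι : Type) [Fintype ι] [DecidableEq ι] (𝔽 : Type) [NormedRing 𝔽]
  [StarRing 𝔽] [InnerProductSpace ℝ 𝔽] [IsScalarTower ℝ 𝔽 𝔽] [SMulCommClass ℝ 𝔽 𝔽]
  [FiniteDimensional ℝ 𝔽] (_ : FStr ι 𝔽) (n : ℕ),
  (∀ A B : Matrix (Fin n) (Fin n) 𝔽, opm (A * B) = opm A ∘L opm B) ∧
  (∀ A B : Matrix (Fin n) (Fin n) 𝔽, opm (A + B) = opm A + opm B) ∧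
  (opm (1 : Matrix (Fin n) (Fin n) 𝔽) = ContinuousLinearMap.id ℝ _) ∧
  (∀ (A : Matrix (Fin n) (Fin n) 𝔽) (x y : VE 𝔽 n), ⟪opm A x, y⟫ = ⟪x, opm A.conjTranspose y⟫) ∧
  Continuous fun A : Matrix (Fin n) (Fin n) 𝔽 => opm A

/-- **BST** (150 lines; from OPM). The `β`-structure of `𝔽^n`: `J a x = x e_a`.
Proof. `norm_J`: `norm_mul`, `‖e a‖ = 1`. `skew`: `mul_inner`, `star_e`. `mul`: `J a (J b x) = x e_b e_a`. `opm` is left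
multiplication, so it commutes with the `J a`. Dimension: basis of `𝔽^n`. -/
def SpecBST : Prop := ∀ (ι : Type) [Fintype ι] [DecidableEq ι] (𝔽 : Type) [NormedRing 𝔽]
  [StarRing 𝔽] [InnerProductSpace ℝ 𝔽] [IsScalarTower ℝ 𝔽 𝔽] [SMulCommClass ℝ 𝔽 𝔽]
  [FiniteDimensional ℝ 𝔽] (F : FStr ι 𝔽) (n : ℕ), ∃ S : BStr ι (VE 𝔽 n), S.o = F.o ∧
  (∀ a x i, (S.J a x) i = x i * F.e a) ∧
  (∀ A : Matrix (Fin n) (Fin n) 𝔽, A.IsHermitian → Herm S (opm A)) ∧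
  Module.finrank ℝ (VE 𝔽 n) = Fintype.card ι * n

/-- **GF1** (120 lines). Expansion of the quadratic form in the independent real entries.
Proof. `⟪x, A y⟫ = ∑_{i,j} ⟪x_i, A_ij y_j⟫ = ∑ ⟪x_i y_j*, A_ij⟫` (`mul_inner`); `A_ji = A_ij*`, `⟪w, z*⟫ = ⟪w*, z⟫`: the terms
`(i, j)` and `(j, i)`, `i < j`, give `⟪x_i y_j* + y_i x_j*, A_ij⟫`, expand in the basis `e`; `A_ii = ⟪1, A_ii⟫ 1` because
`A_ii* = A_ii` (and `star (e a) = - e a` for `a ≠ o`). -/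
def SpecGF1 : Prop := ∀ (β : ℕ) (𝔽 : Type) [NormedRing 𝔽]
  [StarRing 𝔽] [InnerProductSpace ℝ 𝔽] [IsScalarTower ℝ 𝔽 𝔽] [SMulCommClass ℝ 𝔽 𝔽]
  [FiniteDimensional ℝ 𝔽] (F : FStr (Fin β) 𝔽) (n : ℕ), ((F.o : Fin β) : ℕ) = 0 →
  ∀ A : Matrix (Fin n) (Fin n) 𝔽, A.IsHermitian → ∀ x y : VE 𝔽 n,
  ⟪x, opm A y⟫ = ∑ p : Idx n β, ⟪F.e p.1.2.2, A p.1.1 p.1.2.1⟫ * lco F p x y

/-- **GF2** (200 lines). The covariance identity.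
Proof. With `B_ij = x_i y_j*`, `B'_ij = x'_i y'_j*` the left side is `½ ∑_{i,j} ⟪B_ij + B_ji*, B'_ij + B'_ji*⟫` (Parseval in `𝔽`;
`B_ii + B_ii* = 2 ⟪1, B_ii⟫ 1`) `= ∑_{i,j} (⟪B_ij, B'_ij⟫ + ⟪B_ij, B'_ji*⟫)`. `∑_{ij} ⟪x_i y_j*, x'_i y'_j*⟫ = ⟪q, p⟫`-type product:
`⟪x_i y_j*, x'_i y'_j*⟫ = ⟪(∑_j y_j* y'_j), ..⟫`, that is `∑_{ij} = ⟪∑_i x'_i* x_i, ∑_j y'_j* y_j⟫ = ∑_a ⟪e_a, ∑_i x'_i* x_i⟫ ⟪e_a, ∑_j y'_j* y_j⟫`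
and `⟪e_a, x'_i* x_i⟫ = ⟪x'_i e_a, x_i⟫`. The second sum is the first one with `x'`, `y'` exchanged. -/
def SpecGF2 : Prop := ∀ (β : ℕ) (𝔽 : Type) [NormedRing 𝔽]
  [StarRing 𝔽] [InnerProductSpace ℝ 𝔽] [IsScalarTower ℝ 𝔽 𝔽] [SMulCommClass ℝ 𝔽 𝔽]
  [FiniteDimensional ℝ 𝔽] (F : FStr (Fin β) 𝔽) (n : ℕ), ((F.o : Fin β) : ℕ) = 0 →
  ∀ (S : BStr (Fin β) (VE 𝔽 n)), (∀ a x i, (S.J a x) i = x i * F.e a) →
  ∀ x y x' y' : VE 𝔽 n,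
  ∑ p : Idx n β, (if p.1.1 = p.1.2.1 then 2 else 1) * (lco F p x y * lco F p x' y') =
    ∑ a, (⟪x, S.J a x'⟫ * ⟪y, S.J a y'⟫ + ⟪x, S.J a y'⟫ * ⟪y, S.J a x'⟫)

/-- **GFM** (200 lines; from GF1, GF2, OPM, BST). The matrix process is an operator process.
Proof. For finitely many times the vector of all real entries (`Idx n β × T`) is Gaussian: each process is
Gaussian and they are independent (`iIndepFun.hasGaussianLaw`); the family of operators is a linear image of it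
(a self-adjoint matrix is a linear function of its independent real entries). Mean and covariance: GF1, independence, GF2. -/
def SpecGFM : Prop := ∀ (β : ℕ) (𝔽 : Type) [NormedRing 𝔽]
  [StarRing 𝔽] [InnerProductSpace ℝ 𝔽] [IsScalarTower ℝ 𝔽 𝔽] [SMulCommClass ℝ 𝔽 𝔽]
  [FiniteDimensional ℝ 𝔽] (F : FStr (Fin β) 𝔽) (n : ℕ), ((F.o : Fin β) : ℕ) = 0 →
  ∀ (S : BStr (Fin β) (VE 𝔽 n)), (∀ a x i, (S.J a x) i = x i * F.e a) →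
  ∀ (Ω : Type) [MeasurableSpace Ω] (P : Measure Ω) [IsProbabilityMeasure P]
    (M : Ω → ℝ≥0 → Matrix (Fin n) (Fin n) 𝔽), IsGbE (fun a x => ⟪F.e a, x⟫) P M →
  OPr S P (fun ω t => opm (M ω t))

/-- **TRI** (150 lines; from OPM). A tridiagonalization is given by the Lanczos coefficients, as long as no
`b` vanishes.
Proof. `v_j = opm U (j-th basis vector)`: real-orthonormal (even over `𝔽`), `v_0 = e1`, `A v_j = b_j v_{j-1} + a_{j+1} v_j + b_{j+1} v_{j+1}`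
(from `M U = U T`; indices of `a`, `b` from `1`). Induction: `qv = v_l`, `(lan l).1 = b_l v_{l-1}`, `av = a_{l+1}`, `wv = b_{l+1} v_{l+1}`. -/
def SpecTRI : Prop := ∀ (ι : Type) [Fintype ι] [DecidableEq ι] (𝔽 : Type) [NormedRing 𝔽]
  [StarRing 𝔽] [InnerProductSpace ℝ 𝔽] [IsScalarTower ℝ 𝔽 𝔽] [SMulCommClass ℝ 𝔽 𝔽]
  [FiniteDimensional ℝ 𝔽] (_ : FStr ι 𝔽) (n : ℕ) (M : Matrix (Fin (n + 1)) (Fin (n + 1)) 𝔽)
  (a b : ℕ → ℝ), IsTri M a b → ∀ l, l < n + 1 → (∀ i < l, bv (opm M) (e1 𝔽 n) i ≠ 0) →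
  a (l + 1) = av (opm M) (e1 𝔽 n) l ∧ (l < n → b (l + 1) = bv (opm M) (e1 𝔽 n) l)

/-- **HHR** (150 lines). Householder: a unitary matrix mapping `x` to `‖x‖ e_1`.
Proof. `x ≠ 0`; `s = x_1 / |x_1|` (`1` if `x_1 = 0`), `w = x - e_1 s ‖x‖`, `H = 1 - 2 w w* / ‖w‖²` (`H = 1` if `w = 0`); `w* x` is real, equal to
`‖w‖²/2`, so `H x = e_1 s ‖x‖`. `V = diag (s*, 1, …, 1) H`. -/
def SpecHHR : Prop := ∀ (ι : Type) [Fintype ι] [DecidableEq ι] (𝔽 : Type) [NormedRing 𝔽]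
  [StarRing 𝔽] [InnerProductSpace ℝ 𝔽] [IsScalarTower ℝ 𝔽 𝔽] [SMulCommClass ℝ 𝔽 𝔽]
  [FiniteDimensional ℝ 𝔽] (_ : FStr ι 𝔽) (n : ℕ) (x : Fin (n + 1) → 𝔽),
  ∃ (V : Matrix (Fin (n + 1)) (Fin (n + 1)) 𝔽) (r : ℝ), 0 ≤ r ∧ V.conjTranspose * V = 1 ∧
  V * V.conjTranspose = 1 ∧ ∀ i, ∑ j, V i j * x j = if i = 0 then r • (1 : 𝔽) else 0

/-- **EXT** (200 lines; from HHR). Existence of a tridiagonalization.
Proof. Induction on `n`: `M = [[m, x*], [x, M']]`, `V x = ‖x‖ e_1`, `(1 ⊕ V) M (1 ⊕ V)* = [[m, ‖x‖ e_1*], [‖x‖ e_1, V M' V*]]`;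
tridiagonalize `V M' V* = U' T' U'*`, `U' e_1 = e_1`; `U = (1 ⊕ V)* (1 ⊕ U')`. `m` is real. (`Fin (n+1)`; e.g. `Matrix.fromBlocks` or
`Fin.cons`.) -/
def SpecEXT : Prop := ∀ (ι : Type) [Fintype ι] [DecidableEq ι] (𝔽 : Type) [NormedRing 𝔽]
  [StarRing 𝔽] [InnerProductSpace ℝ 𝔽] [IsScalarTower ℝ 𝔽 𝔽] [SMulCommClass ℝ 𝔽 𝔽]
  [FiniteDimensional ℝ 𝔽] (_ : FStr ι 𝔽) (n : ℕ) (M : Matrix (Fin n) (Fin n) 𝔽),
  M.IsHermitian → ∃ a b : ℕ → ℝ, IsTri M a b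

/-- **EXI** (150 lines; from CTP, DIF, EXT, TRI, GFM, BST, OPM). Continuous versions exist.
Proof. Off a null set no `b_l`, `l ≤ k`, vanishes (CTP for `Z = opm M`), so `t ↦ av`, `bv` of `opm (M (t/kk))` are continuous (DIF),
and they are the entries of any tridiagonalization (EXT, TRI). On the null set take the zero path (choose
a measurable null set containing it). -/
def SpecEXI : Prop := ∀ (β : ℕ) (𝔽 : Type) [NormedRing 𝔽]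
  [StarRing 𝔽] [InnerProductSpace ℝ 𝔽] [IsScalarTower ℝ 𝔽 𝔽] [SMulCommClass ℝ 𝔽 𝔽]
  [FiniteDimensional ℝ 𝔽] (F : FStr (Fin β) 𝔽), ((F.o : Fin β) : ℕ) = 0 →
  ∀ k : ℕ → ℕ, Tendsto (fun n => (k n : ℝ) / n) atTop (𝓝 0) →
  HasCont (fun a x => ⟪F.e a, x⟫) k

/-- **ASM** (200 lines; from PRO, TRI, GFM, BST, DEL, MRG). The main theorem.
Proof. PRO for the sequence `E n = VE 𝔽 (n+1)`, `u = e1`, `Z = opm (M (n+1))`, depths `kk i (n+1) - 1`, `D = β (n+1)`. By DEL (marginal at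
a fixed time) no `b_l` vanishes a.s., so by TRI the entries are `av`, `bv` and `X n ω t = ent ..` a.s.; `nk = β (n + 1 - kk)`.
`((kk - 1) + 1)³ ≤ k³ ≤ c₀ (n+1) log (n+1) ≤ c₀ D log D`. Shift of the index (`tendsto_add_atTop_iff_nat`). (`β ≥ 1` as `F.o : Fin β`.) -/
def SpecASM : Prop := ∀ (β : ℕ) (𝔽 : Type) [NormedRing 𝔽]
  [StarRing 𝔽] [InnerProductSpace ℝ 𝔽] [IsScalarTower ℝ 𝔽 𝔽] [SMulCommClass ℝ 𝔽 𝔽]
  [FiniteDimensional ℝ 𝔽] (F : FStr (Fin β) 𝔽), ((F.o : Fin β) : ℕ) = 0 →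
  ∃ c₀ : ℝ, 0 < c₀ ∧ ∀ k : ℕ → ℕ,
    (∀ᶠ n in atTop, (k n : ℝ) ^ 3 ≤ c₀ * n * Real.log n) → SHolds (fun a x => ⟪F.e a, x⟫) k

/-- **KSQ** (60 lines). The explicit sequence `k(n) = ⌊(c n log n)^{1/3}⌋`. -/
def SpecKSQ : Prop := ∀ c : ℝ, 0 < c →
  Tendsto (fun n : ℕ => (⌊(c * n * Real.log n) ^ (1 / 3 : ℝ)⌋₊ : ℝ) / (n : ℝ) ^ (1 / 3 : ℝ))
    atTop atTop ∧
  Tendsto (fun n : ℕ => (⌊(c * n * Real.log n) ^ (1 / 3 : ℝ)⌋₊ : ℝ) / n) atTop (𝓝 0) ∧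
  (∀ n : ℕ, 1 ≤ n → ((⌊(c * n * Real.log n) ^ (1 / 3 : ℝ)⌋₊ : ℝ)) ^ 3 ≤ c * n * Real.log n) ∧
  Tendsto (fun n : ℕ => ⌊(c * n * Real.log n) ^ (1 / 3 : ℝ)⌋₊) atTop atTop

end Pool.Agent.Lib.MP17fa2c
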