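import Pool.Agent.Lib.MP_17fa2c_pr.TD.SpecM

/-!
# MP_17fa2c_pr, block E: exploration estimates

Every module: file `TD/XXX.lean`, `import Pool.Agent.Lib.MP_17fa2c_pr.TD.SpecE`,
`theorem specXXX (hYYY : SpecYYY) .. : SpecXXX`, own lemmas in the namespace `XXXM`.

Notation in the docstrings: `β = card ι`, `t = card T`, `D = dm E`, `Π_j = expl S u M j`, `Q_j = cp Π_{j+1}`,
`r_j = rr` (residual of the Lanczos vector), `R_j = rh = ρ_j r_j`, `S_j = sv`, `N_j = D - β (j+1)`, and `M' = res Π_j M G`.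
-/

set_option autoImplicit false

open MeasureTheory ProbabilityTheory Filter Topology
open scoped RealInnerProductSpace NNReal ENNReal

namespace Pool.Agent.Lib.MP17fa2c

section

variable {ι : Type} [Fintype ι] [DecidableEq ι]
  {E : Type} [NormedAddCommGroup E] [InnerProductSpace ℝ E] {T : Type} [Fintype T]

/-- residual `r_j = q_j - Π_j q_j` -/
noncomputable def rr (S : BStr ι E) (u : E) (M : T → E →L[ℝ] E) (j : ℕ) (i : T) : E :=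
  cp (expl S u M j) (qv (M i) u j)

/-- `R_j = ρ_j r_j` -/
noncomputable def rh (S : BStr ι E) (u : E) (M : T → E →L[ℝ] E) (j : ℕ) (i : T) : E :=
  rho (M i) u j • rr S u M j i

/-- `Q_j = cp Π_{j+1}` -/
noncomputable def qq (S : BStr ι E) (u : E) (M : T → E →L[ℝ] E) (j : ℕ) : E →L[ℝ] E :=
  cp (expl S u M (j + 1))

/-- `S_j = ρ_j Q_j M Π_j q_j` -/
noncomputable def sv (S : BStr ι E) (u : E) (M : T → E →L[ℝ] E) (j : ℕ) (i : T) : E :=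
  rho (M i) u j • qq S u M j (M i (expl S u M j (qv (M i) u j)))

/-- correlations: symmetric, `c i i = 1`, `|c i l| ≤ 1` -/
structure Cor (c : T → T → ℝ) : Prop where
  symm : ∀ i l, c i l = c l i
  one : ∀ i, c i i = 1
  le : ∀ i l, |c i l| ≤ 1

/-- number of real dimensions left for `b_k`: `N_k = D - β (k+1)` -/
noncomputable def nk (ι : Type) [Fintype ι] (E : Type) [NormedAddCommGroup E]
    [InnerProductSpace ℝ E] (k : ℕ) : ℝ := dm E - Fintype.card ι * (k + 1)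

end

/-- **KNM** (60 lines; from JON, EXP, KNO). Monotonicity of `Kn`.
Proof. `G' = res Π_{j'} M G`; `res Π_j M G' = res Π_{j'} M G` as `cp Π_j cp Π_{j'} = cp Π_{j'}`; `G'` is Hermitian. -/
def SpecKNM : Prop := ∀ (ι : Type) [Fintype ι] [DecidableEq ι] (E : Type) [NormedAddCommGroup E]
  [InnerProductSpace ℝ E] [FiniteDimensional ℝ E] (T : Type) [Fintype T] (S : BStr ι E) (u : E)
  (α : Type) (F : (T → E →L[ℝ] E) → α) (j j' : ℕ), j ≤ j' → Kn S u j F → Kn S u j' F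

/-- **STP** (150 lines; from JON, TRA, ADD, EXP, LOR). One step of the residuals.
Proof. (1) `ρ_{j+1} q_{j+1} = D^{-1/2} ρ_j w_j`, `w_j = M q_j - a_j q_j - b_{j-1} q_{j-1}`, `Q_j q_j = Q_j q_{j-1} = 0`,
`q_j = r_j + Π_j q_j`. (2) `Q_j Π_j = 0`, `Q_j q_j = 0`. (3) `‖q_j‖ ≤ 1`. (4) EXP, TRA. -/
def SpecSTP : Prop := ∀ (ι : Type) [Fintype ι] [DecidableEq ι] (E : Type) [NormedAddCommGroup E]
  [InnerProductSpace ℝ E] [FiniteDimensional ℝ E] (T : Type) [Fintype T] (S : BStr ι E) (u : E)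
  (M : T → E →L[ℝ] E), HermF S M → ‖u‖ = 1 → ∀ (j : ℕ) (i : T),
  rh S u M (j + 1) i = (Real.sqrt (dm E))⁻¹ • (qq S u M j (M i (rh S u M j i)) + sv S u M j i) ∧
  qq S u M j (rr S u M j i) = 0 ∧ qq S u M j (rh S u M j i) = 0 ∧
  qq S u M j (qv (M i) u j) = 0 ∧
  expl S u M j (rr S u M j i) = 0 ∧ expl S u M (j + 1) (rr S u M j i) = rr S u M j i ∧
  ‖qv (M i) u j‖ ≤ 1 ∧ ‖rr S u M j i‖ ≤ 1 ∧ 0 ≤ rho (M i) u j ∧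
  ‖rh S u M j i‖ ≤ rho (M i) u j ∧
  ‖qv (M i) u j‖ ^ 2 = ‖rr S u M j i‖ ^ 2 + ‖expl S u M j (qv (M i) u j)‖ ^ 2 ∧
  IsPr S (qq S u M j) ∧
  dm E - Fintype.card ι * Fintype.card T * (j + 1) ≤ tr (qq S u M j) ∧ tr (qq S u M j) ≤ dm E ∧
  (∀ x, qq S u M j (cp (expl S u M j) x) = qq S u M j x)

/-- **STK** (150 lines; from STP, KNO, KNM, EXP). What is known, and the effect of the resampling.
Proof. KNO; `M' x = M x` for `x` in the range of `Π_j`; `Q_j M' r = Q_j G r` for `r = cp Π_j r` as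
`M' r = Π_j M r + cp Π_j G r`. -/
def SpecSTK : Prop := ∀ (ι : Type) [Fintype ι] [DecidableEq ι] (E : Type) [NormedAddCommGroup E]
  [InnerProductSpace ℝ E] [FiniteDimensional ℝ E] (T : Type) [Fintype T] (S : BStr ι E) (u : E),
  ‖u‖ = 1 → ∀ (j : ℕ) (i : T),
  Kn S u j (fun M : T → E →L[ℝ] E => qv (M i) u j) ∧
  Kn S u j (fun M : T → E →L[ℝ] E => rho (M i) u j) ∧
  Kn S u j (fun M : T → E →L[ℝ] E => expl S u M j) ∧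
  Kn S u j (fun M : T → E →L[ℝ] E => expl S u M (j + 1)) ∧
  Kn S u j (fun M : T → E →L[ℝ] E => rr S u M j i) ∧
  Kn S u j (fun M : T → E →L[ℝ] E => rh S u M j i) ∧
  Kn S u j (fun M : T → E →L[ℝ] E => qq S u M j) ∧
  Kn S u j (fun M : T → E →L[ℝ] E => sv S u M j i) ∧
  Kn S u (j + 1) (fun M : T → E →L[ℝ] E => av (M i) u j) ∧
  Kn S u (j + 1) (fun M : T → E →L[ℝ] E => bv (M i) u j) ∧
  Kn S u (j + 1) (fun M : T → E →L[ℝ] E => qq S u M j (M i (rh S u M j i))) ∧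
  ∀ M G : T → E →L[ℝ] E, HermF S M → HermF S G → ∀ r : E, expl S u M j r = 0 →
    qq S u M j (res (expl S u M j) M G i r) = qq S u M j (G i r) ∧
    ⟪r, res (expl S u M j) M G i r⟫ = ⟪r, G i r⟫ ∧
    (∀ x, res (expl S u M j) M G i (expl S u M j x) = M i (expl S u M j x)) ∧
    res (expl S u M j) M G i r = expl S u M j (M i r) + cp (expl S u M j) (G i r)

/-- **MEB** (80 lines; from MEA). Measurability. -/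
def SpecMEB : Prop := ∀ (ι : Type) [Fintype ι] [DecidableEq ι] (E : Type) [NormedAddCommGroup E]
  [InnerProductSpace ℝ E] [FiniteDimensional ℝ E] [MeasurableSpace E] [BorelSpace E]
  (T : Type) [Fintype T] (S : BStr ι E) (u : E) (j : ℕ) (i : T),
  (Measurable fun M : T → E →L[ℝ] E => qv (M i) u j) ∧
  (Measurable fun M : T → E →L[ℝ] E => rr S u M j i) ∧
  (Measurable fun M : T → E →L[ℝ] E => rh S u M j i) ∧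
  (Measurable fun M : T → E →L[ℝ] E => qq S u M j) ∧
  (Measurable fun M : T → E →L[ℝ] E => tr (qq S u M j)) ∧
  (Measurable fun M : T → E →L[ℝ] E => sv S u M j i) ∧
  (Measurable fun M : T → E →L[ℝ] E => M i (rr S u M j i)) ∧
  (Measurable fun M : T → E →L[ℝ] E => qq S u M j (M i (rh S u M j i))) ∧
  (Measurable fun M : T → E →L[ℝ] E => qq S u M j (M i (rr S u M j i)))

/-- **PIN** (100 lines; from MRG, LOR, STP). Integrability of functions of polynomial growth. -/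
def SpecPIN : Prop := ∀ (ι : Type) [Fintype ι] [DecidableEq ι] (E : Type) [NormedAddCommGroup E]
  [InnerProductSpace ℝ E] [FiniteDimensional ℝ E] (T : Type) [Fintype T] (S : BStr ι E)
  (c : T → T → ℝ) (ν : Measure (T → E →L[ℝ] E)), GFam S c ν →
  (∀ (F : (T → E →L[ℝ] E) → ℝ) (C : ℝ) (m : ℕ), Measurable F →
    (∀ᵐ M ∂ν, |F M| ≤ C * (1 + ∑ i, ‖M i‖) ^ m) → Integrable F ν) ∧
  ∀ u : E, ‖u‖ = 1 → ∀ᵐ M ∂ν, ∀ (i : T) (j : ℕ), |av (M i) u j| ≤ ‖M i‖ ∧ bv (M i) u j ≤ ‖M i‖ ∧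
    rho (M i) u j ≤ (‖M i‖ / Real.sqrt (dm E)) ^ j ∧
    ‖rh S u M j i‖ ≤ (‖M i‖ / Real.sqrt (dm E)) ^ j ∧
    ‖sv S u M j i‖ ≤ (‖M i‖ / Real.sqrt (dm E)) ^ j * ‖M i‖

/-- **RHO** (200 lines; from DEL, MRG, CHN or QFE, PIN). Moments of the coefficients and of `ρ`.
Proof. The marginal `M i` has the Dumitriu–Edelman law (MRG with `T' = Unit`). `E (b²/D) = N_l/D ≤ 1`, `E (b²/D)² =
(N_l² + 2 N_l)/D² ≤ 1 + 2/D`. `E ρ_k⁴ ≤ e^{2k/D} ≤ 1 + 4 k/D`; `E ρ_k² = ∏ (1 - β(l+1)/D) ≥ 1 - β k²/D`, so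
`E (1 - ρ²)² ≤ 4 k/D + 2 β k²/D`. -/
def SpecRHO : Prop := ∀ (ι : Type) [Fintype ι] [DecidableEq ι], ∃ C : ℝ, 0 < C ∧
  ∀ (E : Type) [NormedAddCommGroup E]
  [InnerProductSpace ℝ E] [FiniteDimensional ℝ E] (T : Type) [Fintype T] (S : BStr ι E) (u : E)
  (c : T → T → ℝ) (ν : Measure (T → E →L[ℝ] E)), GFam S c ν → Cor c → ‖u‖ = 1 →
  ∀ (i : T) (k : ℕ), C * (k + 1) ≤ dm E →
  (∀ᵐ M ∂ν, ∀ l ≤ k, bv (M i) u l ≠ 0) ∧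
  ∫ M, av (M i) u k ^ 2 ∂ν = 2 ∧
  ∫ M, (bv (M i) u k ^ 2 - nk ι E k) ∂ν = 0 ∧
  ∫ M, (bv (M i) u k ^ 2 - nk ι E k) ^ 2 ∂ν = 2 * nk ι E k ∧
  ∫ M, rho (M i) u k ^ 2 ∂ν ≤ 1 ∧ ∫ M, rho (M i) u k ^ 4 ∂ν ≤ 2 ∧
  ∫ M, (1 - rho (M i) u k ^ 2) ^ 2 ∂ν ≤ (2 * Fintype.card ι + 8) * k ^ 2 / dm E

/-- **GI1** (200 lines; from GLF, ISO, CHN, JON, TRA). Gaussian integrals with a fixed projection.
Proof. `⟪y, Q (G i r)⟫` is Gaussian with variance `‖Q y‖² ‖r‖²` (the terms `⟪Q y, J a r⟫ = 0`). Third: polarization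
`4 ⟪X, J a Y⟫ = ‖X + J a Y‖² - ‖X - J a Y‖²` with `X ± J a Y = Q (G i r ± G l (J a r'))`: by ISO (family `r` at `i`,
`± J a r'` at `l`; for `i = l` the vector `r ± J a r'`) and CHN `‖X ± J a Y‖²` has mean `σ² tr Q` and variance `2 σ⁴ tr Q`,
`σ² = ‖r‖² + ‖r'‖² ± 2 c_{il} ⟪r, J a r'⟫ ≤ 2 (‖r‖² + ‖r'‖²)`. -/
def SpecGI1 : Prop := ∀ (ι : Type) [Fintype ι] [DecidableEq ι] (E : Type) [NormedAddCommGroup E]
  [InnerProductSpace ℝ E] [FiniteDimensional ℝ E] (T : Type) [Fintype T] (S : BStr ι E)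
  (c : T → T → ℝ) (ν : Measure (T → E →L[ℝ] E)), GFam S c ν → Cor c →
  ∀ (Q : E →L[ℝ] E), IsPr S Q → ∀ (i l : T) (r r' : E), Q r = 0 → Q r' = 0 →
  (∀ y, ∫ G, ⟪y, Q (G i r)⟫ ∂ν = 0) ∧
  (∀ y, ∫ G, ⟪y, Q (G i r)⟫ ^ 2 ∂ν = ‖Q y‖ ^ 2 * ‖r‖ ^ 2) ∧
  (∀ y, ∫ G, |⟪y, Q (G i r)⟫| ∂ν ≤ ‖y‖ * ‖r‖) ∧
  (∀ s, ∫ G, ‖Q (G i r) + s‖ ^ 2 ∂ν = tr Q * ‖r‖ ^ 2 + ‖s‖ ^ 2) ∧
  (∀ a, ∫ G, ⟪Q (G i r), S.J a (Q (G l r'))⟫ ∂ν = c i l * tr Q * ⟪r, S.J a r'⟫) ∧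
  (∀ a, ∫ G, (⟪Q (G i r), S.J a (Q (G l r'))⟫ - c i l * tr Q * ⟪r, S.J a r'⟫) ^ 2 ∂ν ≤
    2 * dm E * (‖r‖ ^ 2 + ‖r'‖ ^ 2) ^ 2) ∧
  ∫ G, ⟪r, G i r⟫ ∂ν = 0 ∧ ∫ G, ⟪r, G i r⟫ ^ 2 ∂ν = 2 * ‖r‖ ^ 4

/-- **RE1** (200 lines; from RPI, STP, STK, GI1, RHO, PIN, MEB). The residuals stay large.
Proof. By RPI at level `j`, STP, STK, GI1: `E ‖R_{j+1}‖² = D⁻¹ (E [tr Q_j ‖R_j‖²] + E ‖S_j‖²) ≥
E ‖R_j‖² - β t (j+1)/D · E ‖R_j‖² + D⁻¹ E ‖S_j‖²`, and `E ‖R_j‖² ≤ E ρ_j² ≤ 1`. Summation: `1 ≥ E ‖R_k‖² ≥ 1 - β t k²/D +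
D⁻¹ ∑_{j<k} E ‖S_j‖²`. Last: `‖Π_k q_k‖² ≤ |1 - ρ_k²| + (ρ_k² - ‖R_k‖²)` (`‖q_k‖ = 1` a.s.). -/
def SpecRE1 : Prop := ∀ (ι : Type) [Fintype ι] [DecidableEq ι] (T : Type) [Fintype T],
  ∃ C : ℝ, 0 < C ∧ ∀ (E : Type) [NormedAddCommGroup E]
  [InnerProductSpace ℝ E] [FiniteDimensional ℝ E] (S : BStr ι E) (u : E)
  (c : T → T → ℝ) (ν : Measure (T → E →L[ℝ] E)), GFam S c ν → Cor c → ‖u‖ = 1 →
  ∀ (i : T) (k : ℕ), C * (k + 1) ^ 2 ≤ dm E →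
  1 - C * (k + 1) ^ 2 / dm E ≤ ∫ M, ‖rh S u M k i‖ ^ 2 ∂ν ∧
  ∑ j ∈ Finset.range k, ∫ M, ‖sv S u M j i‖ ^ 2 ∂ν ≤ C * (k + 1) ^ 2 ∧
  ∫ M, ‖expl S u M k (qv (M i) u k)‖ ^ 2 ∂ν ≤ C * (k + 1) / Real.sqrt (dm E)

/-- **MDL** (150 lines; from RPI, KNM). Abstract martingale lemma.
Proof. `X_k - c^k X_0 = ∑_{j<k} c^{k-1-j} (ε_j + D1_j + D2_j)`. For `j < j'` `D1_j` is known at level `j + 1 ≤ j'`, so
`E [D1_j D1_{j'}] = E [D1_j ∫ D1_{j'} (M') dG] = 0` (RPI at level `j'`). So `E |∑ c^.. D1_j| ≤ (∑ E D1_j²)^{1/2}`. -/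
def SpecMDL : Prop := ∀ (ι : Type) [Fintype ι] [DecidableEq ι] (E : Type) [NormedAddCommGroup E]
  [InnerProductSpace ℝ E] [FiniteDimensional ℝ E] (T : Type) [Fintype T] (S : BStr ι E) (u : E)
  (cc : T → T → ℝ) (ν : Measure (T → E →L[ℝ] E)), GFam S cc ν →
  ∀ (k : ℕ) (c : ℝ) (X D1 D2 ep : ℕ → (T → E →L[ℝ] E) → ℝ) (v d e : ℕ → ℝ), |c| ≤ 1 →
  (∀ M, HermF S M → ∀ j < k, X (j + 1) M = c * X j M + ep j M + D1 j M + D2 j M) →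
  (∀ j, Measurable (X j) ∧ Measurable (D1 j) ∧ Measurable (D2 j) ∧ Measurable (ep j)) →
  (∀ j < k, Kn S u (j + 1) (D1 j)) →
  (∀ j < k, Integrable (fun M => D1 j M ^ 2) ν ∧ Integrable (D2 j) ν ∧ Integrable (ep j) ν) →
  (∀ j < k, ∀ᵐ M ∂ν, ∫ G, D1 j (res (expl S u M j) M G) ∂ν = 0) →
  (∀ j < k, ∫ M, D1 j M ^ 2 ∂ν ≤ v j ∧ ∫ M, |D2 j M| ∂ν ≤ d j ∧ ∫ M, |ep j M| ∂ν ≤ e j) →
  ∫ M, |X k M - c ^ k * X 0 M| ∂ν ≤ Real.sqrt (∑ j ∈ Finset.range k, v j) +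
    ∑ j ∈ Finset.range k, (d j + e j)

/-- **OVR** (200 lines; from MDL, RE1, RHO, STP, STK, GI1, PIN, MEB). Overlaps of the residuals.
Proof. `O_j = ⟪R_j^i, J a R_j^l⟫`; by STP `O_{j+1} = D⁻¹ ⟪Q M_i R^i + S^i, J a (Q M_l R^l + S^l)⟫ = c O_j + ε + D1 + D2`,
`c = c_{il}`, `ε = -(1 - tr Q/D) c O_j + D⁻¹ ⟪S^i, J a S^l⟫`, `D1 = D⁻¹ (⟪Q M_i R^i, J a Q M_l R^l⟫ - c tr Q ⟪R^i, J a R^l⟫)`,
`D2 = D⁻¹ (⟪Q M_i R^i, J a S^l⟫ + ⟪S^i, J a Q M_l R^l⟫)`. MDL with `v_j = 16/D` (GI1: `2 D (ρ_i² + ρ_l²)²`, `E ρ⁴ ≤ 2`),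
`d_j = D⁻¹ ((E‖S_j^i‖²)^{1/2} + (E‖S_j^l‖²)^{1/2})`, `e_j = β t (j+1)/D + D⁻¹ (E‖S_j^i‖² + E‖S_j^l‖²)`; sums with RE1 and
Cauchy–Schwarz. `O_0 = ⟪u, J a u⟫`. -/
def SpecOVR : Prop := ∀ (ι : Type) [Fintype ι] [DecidableEq ι] (T : Type) [Fintype T],
  ∃ C : ℝ, 0 < C ∧ ∀ (E : Type) [NormedAddCommGroup E]
  [InnerProductSpace ℝ E] [FiniteDimensional ℝ E] (S : BStr ι E) (u : E)
  (c : T → T → ℝ) (ν : Measure (T → E →L[ℝ] E)), GFam S c ν → Cor c → ‖u‖ = 1 →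
  ∀ (a : ι) (i l : T) (k : ℕ), C * (k + 1) ^ 2 ≤ dm E →
  ∫ M, |⟪rh S u M k i, S.J a (rh S u M k l)⟫ - if a = S.o then c i l ^ k else 0| ∂ν ≤
    C * (k + 1) / Real.sqrt (dm E)

/-- **OVU** (80 lines; from OVR, RHO, STP, PIN). The same for the `r_k`.
Proof. `⟪r^i, J a r^l⟫ - ⟪R^i, J a R^l⟫ = (1 - ρ_i ρ_l) ⟪r^i, J a r^l⟫`, `|1 - ρ_i ρ_l| ≤ 3/2 (|1 - ρ_i²| + |1 - ρ_l²|)`. -/
def SpecOVU : Prop := ∀ (ι : Type) [Fintype ι] [DecidableEq ι] (T : Type) [Fintype T],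
  ∃ C : ℝ, 0 < C ∧ ∀ (E : Type) [NormedAddCommGroup E]
  [InnerProductSpace ℝ E] [FiniteDimensional ℝ E] (S : BStr ι E) (u : E)
  (c : T → T → ℝ) (ν : Measure (T → E →L[ℝ] E)), GFam S c ν → Cor c → ‖u‖ = 1 →
  ∀ (a : ι) (i l : T) (k : ℕ), C * (k + 1) ^ 2 ≤ dm E →
  ∫ M, |⟪rr S u M k i, S.J a (rr S u M k l)⟫ - if a = S.o then c i l ^ k else 0| ∂ν ≤
    C * (k + 1) / Real.sqrt (dm E)

/-- **RSA** (120 lines; from RPI, RHO, RE1, STP, STK, GI1, PIN, MEB). Residual of the diagonal entry.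
Proof. `a_k = ⟪q, M q⟫ = ⟪r, M r⟫ + η`, `η = 2 ⟪r, M Π_k q⟫ + ⟪Π_k q, M Π_k q⟫` known at level `k`; by RPI at level `k` and GI1
(`⟪r, M' r⟫ = ⟪r, G r⟫`): `E [⟪r, M r⟫ η] = 0`, `E ⟪r, M r⟫² = 2 E ‖r‖⁴`, so `2 = E a_k² = 2 E ‖r‖⁴ + E η²`, and
`1 - ‖r‖⁴ ≤ 2 (1 - ‖r‖²) = 2 ‖Π_k q‖²`. -/
def SpecRSA : Prop := ∀ (ι : Type) [Fintype ι] [DecidableEq ι] (T : Type) [Fintype T],
  ∃ C : ℝ, 0 < C ∧ ∀ (E : Type) [NormedAddCommGroup E]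
  [InnerProductSpace ℝ E] [FiniteDimensional ℝ E] (S : BStr ι E) (u : E)
  (c : T → T → ℝ) (ν : Measure (T → E →L[ℝ] E)), GFam S c ν → Cor c → ‖u‖ = 1 →
  ∀ (i : T) (k : ℕ), C * (k + 1) ^ 2 ≤ dm E →
  ∫ M, (av (M i) u k - ⟪rr S u M k i, M i (rr S u M k i)⟫) ^ 2 ∂ν ≤
    C * (k + 1) / Real.sqrt (dm E)

/-- **RSB** (200 lines; from RPI, RHO, RE1, STP, STK, IND, GI1, QUA or ISO + CHN, PIN, MEB). Residual of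
the off-diagonal entry.
Proof. `A = ‖Q M r‖² - tr Q ‖r‖²`, `Q = Q_k`, `ζ = b_k² - N_k - A`. Resampling at level `k`: `Q w_k(M') = Q G r + s`, `s = Q M Π_k q`
known, and `cp Q w_k(M')` is a function of `cp Q G cp Q` (`r = cp Q r`, `w_k(M') = M' q - ⟪q, M' q⟫ q - b_{k-1} q_{k-1}`), so
`b_k(M')² = ‖Q G r + s‖² + Θ(cp Q G cp Q)`. By IND and symmetry (`E_G [A ⟪Q G r, s⟫] = 0`: odd; `E_G A = 0`)
`E_G [A b_k²] = E_G A² = 2 tr Q ‖r‖⁴`. So `E ζ² = E (b_k² - N_k)² - 2 E [A (b_k² - N_k)] + E A² = 2 N_k - 2 E [tr Q ‖r‖⁴] ≤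
2 β t (k+1) + 2 D E (1 - ‖r‖⁴)`. -/
def SpecRSB : Prop := ∀ (ι : Type) [Fintype ι] [DecidableEq ι] (T : Type) [Fintype T],
  ∃ C : ℝ, 0 < C ∧ ∀ (E : Type) [NormedAddCommGroup E]
  [InnerProductSpace ℝ E] [FiniteDimensional ℝ E] (S : BStr ι E) (u : E)
  (c : T → T → ℝ) (ν : Measure (T → E →L[ℝ] E)), GFam S c ν → Cor c → ‖u‖ = 1 →
  ∀ (i : T) (k : ℕ), C * (k + 1) ^ 2 ≤ dm E →
  ∫ M, (bv (M i) u k ^ 2 - nk ι E k - (‖qq S u M k (M i (rr S u M k i))‖ ^ 2 -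
    tr (qq S u M k) * ‖rr S u M k i‖ ^ 2)) ^ 2 ∂ν ≤ C * (k + 1) * Real.sqrt (dm E)

end Pool.Agent.Lib.MP17fa2c
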