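import Pool.Agent.Lib.MP_17fa2c_pr.TD.SpecA
import Pool.Agent.Lib.MP_17fa2c_pr.TD.SpecE
import Pool.Agent.Lib.MP_17fa2c_pr.TD.SpecB

section
/-!
# Module ADD: adding a vector to a projection
-/
set_option autoImplicit false

open MeasureTheory ProbabilityTheory Filter Topology
open scoped RealInnerProductSpace NNReal ENNReal

namespace Pool.Agent.Lib.MP17fa2c

namespace ADDM

variable {ι : Type} [Fintype ι] [DecidableEq ι] {E : Type} [NormedAddCommGroup E]
  [InnerProductSpace ℝ E]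

/-- the sum of the rank one operators of the `J a w` -/
noncomputable def rk (S : BStr ι E) (w : E) : E →L[ℝ] E :=
  ∑ a, InnerProductSpace.rankOne ℝ (S.J a w) (S.J a w)

theorem rk_apply (S : BStr ι E) (w x : E) : rk S w x = ∑ a, ⟪S.J a w, x⟫ • S.J a w := by
  unfold rk
  rw [_root_.sum_apply]
  rfl

theorem addv_eq (S : BStr ι E) (P : E →L[ℝ] E) (v : E) :
    addv S P v = P + (‖cp P v‖ ^ 2)⁻¹ • rk S (cp P v) := rfl

theorem addv_apply (S : BStr ι E) (P : E →L[ℝ] E) (v x : E) :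
    addv S P v x = P x + (‖cp P v‖ ^ 2)⁻¹ • rk S (cp P v) x := rfl

theorem cp_apply (P : E →L[ℝ] E) (x : E) : cp P x = x - P x := rfl

theorem rk_zero (S : BStr ι E) (x : E) : rk S 0 x = 0 := by
  rw [rk_apply]
  refine Finset.sum_eq_zero fun a _ => ?_
  rw [map_zero, smul_zero]

/-- for fixed `b` the map `a ↦ c a` with `J b (J a w) = ± J (c a) w` is a bijection -/
theorem exists_perm (hJON : SpecJON) (S : BStr ι E) (b : ι) (w : E) (hw : w ≠ 0) :
    ∃ (σ : Equiv.Perm ι) (s : ι → ℝ), (∀ a, s a * s a = 1) ∧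
      ∀ a, S.J b (S.J a w) = s a • S.J (σ a) w := by
  obtain ⟨h1, h2, -, -, -, -⟩ := hJON ι E S
  choose c s hs hc hcc using S.mul b
  have hw2 : ‖w‖ ^ 2 ≠ 0 := by
    have := norm_ne_zero_iff.2 hw
    positivity
  have hinj : Function.Injective c := by
    intro a a' haa
    by_contra hne
    have e1 : ⟪S.J b (S.J a w), S.J b (S.J a' w)⟫ = 0 := by
      rw [h2]
      exact (h1 a a' w).trans (if_neg hne)
    rw [hc a w, hc a' w, haa, real_inner_smul_left, real_inner_smul_right, h1, if_pos rfl] at e1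
    have e2 : s a ≠ 0 := by rcases hs a with h | h <;> rw [h] <;> norm_num
    have e3 : s a' ≠ 0 := by rcases hs a' with h | h <;> rw [h] <;> norm_num
    exact (mul_ne_zero e2 (mul_ne_zero e3 hw2)) e1
  refine ⟨Equiv.ofBijective c (Finite.injective_iff_bijective.1 hinj), s, fun a => ?_,
    fun a => hc a w⟩
  rcases hs a with h | h <;> rw [h] <;> norm_num

/-- the sum of the rank one operators commutes with `J b` -/
theorem rk_comm (hJON : SpecJON) (S : BStr ι E) (w : E) (hw : w ≠ 0) (b : ι) (x : E) :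
    rk S w (S.J b x) = S.J b (rk S w x) := by
  obtain ⟨-, h2, -, -, -, -⟩ := hJON ι E S
  obtain ⟨σ, s, hs, hσ⟩ := exists_perm hJON S b w hw
  rw [rk_apply, rk_apply, map_sum, ← Equiv.sum_comp σ]
  refine Finset.sum_congr rfl fun a _ => ?_
  have h3 : S.J (σ a) w = s a • S.J b (S.J a w) := by
    rw [hσ a, smul_smul, hs a, one_smul]
  rw [h3, real_inner_smul_left, h2, smul_smul, map_smul]
  congr 1
  have := hs a
  linear_combination ⟪S.J a w, x⟫ * this

theorem rk_symm (S : BStr ι E) (w x y : E) : ⟪rk S w x, y⟫ = ⟪x, rk S w y⟫ := by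
  rw [rk_apply, rk_apply, sum_inner, inner_sum]
  refine Finset.sum_congr rfl fun a _ => ?_
  rw [real_inner_smul_left, real_inner_smul_right, real_inner_comm x (S.J a w)]
  ring

theorem rk_J (hJON : SpecJON) (S : BStr ι E) (w : E) (a : ι) :
    rk S w (S.J a w) = (‖w‖ ^ 2) • S.J a w := by
  obtain ⟨h1, -, -, -, -, -⟩ := hJON ι E S
  rw [rk_apply, Finset.sum_eq_single a]
  · rw [h1, if_pos rfl]
  · intro b _ hb
    rw [h1, if_neg hb, zero_smul]
  · intro h
    exact absurd (Finset.mem_univ a) h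

theorem rk_rk (hJON : SpecJON) (S : BStr ι E) (w x : E) :
    rk S w (rk S w x) = (‖w‖ ^ 2) • rk S w x := by
  conv_lhs => rw [rk_apply S w x]
  rw [map_sum, rk_apply, Finset.smul_sum]
  refine Finset.sum_congr rfl fun a _ => ?_
  rw [map_smul, rk_J hJON, smul_comm]

theorem tr_rk [FiniteDimensional ℝ E] (S : BStr ι E) (w : E) :
    tr (rk S w) = Fintype.card ι * ‖w‖ ^ 2 := by
  have h : ((rk S w : E →L[ℝ] E) : E →ₗ[ℝ] E) =
      ∑ a, ((InnerProductSpace.rankOne ℝ (S.J a w) (S.J a w) : E →L[ℝ] E) : E →ₗ[ℝ] E) := by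
    ext x
    rw [LinearMap.sum_apply]
    exact rk_apply S w x
  unfold tr
  rw [h, map_sum]
  have h2 : ∀ a : ι, LinearMap.trace ℝ E
      ((InnerProductSpace.rankOne ℝ (S.J a w) (S.J a w) : E →L[ℝ] E) : E →ₗ[ℝ] E) =
      ‖w‖ ^ 2 := by
    intro a
    rw [InnerProductSpace.trace_rankOne, real_inner_self_eq_norm_sq, S.norm_J]
  rw [Finset.sum_congr rfl fun a _ => h2 a, Finset.sum_const, Finset.card_univ, nsmul_eq_mul]

end ADDM

open ADDM in
/-- **ADD.** -/
theorem specADD (hJON : SpecJON) : SpecADD := by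
  intro ι _ _ E _ _ _ S P v hP
  obtain ⟨j1, j2, -, -, -, -⟩ := hJON ι E S
  obtain ⟨⟨p1, p2⟩, p3⟩ := hP
  have hPw : P (cp P v) = 0 := by rw [cp_apply, map_sub, p3, sub_self]
  have hPJ : ∀ a, P (S.J a (cp P v)) = 0 := fun a => by rw [p2, hPw, map_zero]
  have hPrk : ∀ x, P (rk S (cp P v) x) = 0 := by
    intro x
    rw [rk_apply, map_sum]
    refine Finset.sum_eq_zero fun a _ => ?_
    rw [map_smul, hPJ, smul_zero]
  have hrkP : ∀ x, rk S (cp P v) (P x) = 0 := by
    intro x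
    rw [rk_apply]
    refine Finset.sum_eq_zero fun a _ => ?_
    rw [← p1, hPJ, inner_zero_left, zero_smul]
  have hlast : ∀ x, (∀ a, ⟪S.J a v, x⟫ = 0) → P x = 0 → rk S (cp P v) x = 0 := by
    intro x h1 h2
    rw [rk_apply]
    refine Finset.sum_eq_zero fun a _ => ?_
    have h3 : ⟪S.J a (cp P v), x⟫ = 0 := by
      rw [cp_apply, map_sub, inner_sub_left, h1 a, ← p2, p1, h2, inner_zero_right, sub_zero]
    rw [h3, zero_smul]
  have ht : tr (addv S P v) = tr P + (‖cp P v‖ ^ 2)⁻¹ * (Fintype.card ι * ‖cp P v‖ ^ 2) := by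
    rw [← tr_rk, addv_eq]
    unfold tr
    rw [ContinuousLinearMap.toLinearMap_add, map_add, ContinuousLinearMap.toLinearMap_smul,
      map_smul, smul_eq_mul]
  by_cases hw : cp P v = 0
  · have he : ∀ x, addv S P v x = P x := by
      intro x
      rw [addv_apply, hw, rk_zero, smul_zero, add_zero]
    have hvv : P v = v := by
      have := hw
      rw [cp_apply, sub_eq_zero] at this
      exact this.symm
    refine ⟨⟨⟨fun x y => ?_, fun a x => ?_⟩, fun x => ?_⟩, ?_, fun x => ?_, fun x => ?_, ?_,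
      fun h => absurd hw h, fun x h1 h2 => ?_⟩
    · rw [he, he, p1]
    · rw [he, he, p2]
    · rw [he, he, p3]
    · rw [he, hvv]
    · rw [he, p3]
    · rw [he, p3]
    · rw [ht, hw]
      simp
    · rw [he, h2]
  · have hn : ‖cp P v‖ ^ 2 ≠ 0 := by
      have := norm_ne_zero_iff.2 hw
      positivity
    have ht' : tr (addv S P v) = tr P + Fintype.card ι := by
      rw [ht]
      field_simp
    have hv : rk S (cp P v) v = (‖cp P v‖ ^ 2) • cp P v := by
      have h1 : v = cp P v + P v := by rw [cp_apply]; abel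
      have h2 : rk S (cp P v) v = rk S (cp P v) (cp P v) + rk S (cp P v) (P v) := by
        rw [← map_add, ← h1]
      rw [h2, hrkP, add_zero]
      have h3 := rk_J hJON S (cp P v) S.o
      rw [S.J_o] at h3
      exact h3
    refine ⟨⟨⟨fun x y => ?_, fun a x => ?_⟩, fun x => ?_⟩, ?_, fun x => ?_, fun x => ?_, ?_,
      fun _ => ht', fun x h1 h2 => ?_⟩
    · rw [addv_apply, addv_apply, inner_add_left, inner_add_right, real_inner_smul_left,
        real_inner_smul_right, p1, rk_symm]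
    · rw [addv_apply, addv_apply, p2, rk_comm hJON S _ hw, map_add, map_smul]
    · rw [addv_apply S P v (addv S P v x), addv_apply S P v x, map_add, map_add, map_smul,
        map_smul, p3, hPrk, hrkP, rk_rk hJON, smul_zero, add_zero, zero_add,
        inv_smul_smul₀ hn]
    · rw [addv_apply, hv, smul_smul, inv_mul_cancel₀ hn, one_smul, cp_apply]
      abel
    · rw [addv_apply, map_add, map_smul, p3, hPrk, smul_zero, add_zero]
    · rw [addv_apply, hrkP, p3, smul_zero, add_zero]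
    · exact ht'.le
    · rw [addv_apply, hlast x h1 h2, h2, smul_zero, add_zero]

end Pool.Agent.Lib.MP17fa2c
end

section
/-!
Module CHN of MP_17fa2c_pr (helper19): the law of `‖Q x‖` under the standard Gaussian measure.
-/
set_option autoImplicit false

open MeasureTheory ProbabilityTheory Filter Topology
open scoped RealInnerProductSpace NNReal ENNReal

namespace Pool.Agent.Lib.MP17fa2c

namespace CHNM

section std
variable {n : ℕ}

lemma normsq (x : Fin n → ℝ) : ‖(WithLp.toLp 2 x : EuclideanSpace ℝ (Fin n))‖ ^ 2 = ∑ i, x i ^ 2 := by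
  rw [EuclideanSpace.real_norm_sq_eq]

lemma mlp : MemLp (fun x : ℝ => x ^ 2) 2 (gaussianReal 0 1) := by
  have h := memLp_id_gaussianReal (μ := 0) (v := 1) 4
  have h2 : Integrable (fun x : ℝ => (x ^ 2) ^ 2) (gaussianReal 0 1) := by
    have := h.integrable_norm_pow (by norm_num)
    refine this.congr (Eventually.of_forall fun x => ?_)
    have h3 : |x| ^ 4 = (x ^ 2) ^ 2 := by
      rw [← abs_pow, abs_of_nonneg (by positivity)]; ring
    have h4 : ‖id x‖ ^ 4 = (x ^ 2) ^ 2 := h3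
    exact h4
  rw [memLp_two_iff_integrable_sq (by fun_prop)]
  exact h2

lemma var1 (hGMO : SpecGMO) : Var[fun x : ℝ => x ^ 2; gaussianReal 0 1] = 2 := by
  rw [variance_eq_sub mlp]
  have h4 := hGMO.2.1 1
  have h2 := hGMO.1 1
  have e : ∫ x : ℝ, ((fun x : ℝ => x ^ 2) ^ 2) x ∂(gaussianReal 0 1) = 3 := by
    have : ((fun x : ℝ => x ^ 2) ^ 2) = fun x : ℝ => x ^ 4 := by funext x; simp only [Pi.pow_apply]; ring
    rw [this, h4]; norm_num
  rw [e, h2]; norm_num

lemma ev (hGMO : SpecGMO) (i : Fin n) : ∫ x : Fin n → ℝ, x i ^ 2 ∂(Measure.pi fun _ => gaussianReal 0 1) = 1 := by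
  have := integral_comp_eval (μ := fun _ : Fin n => gaussianReal 0 1) (i := i) (f := fun x : ℝ => x ^ 2) (by fun_prop)
  rw [this, hGMO.1 1]; norm_num

lemma inti (i : Fin n) : Integrable (fun x : Fin n → ℝ => x i ^ 2) (Measure.pi fun _ => gaussianReal 0 1) := by
  have h : Integrable (fun x : ℝ => x ^ 2) (gaussianReal 0 1) := mlp.integrable (by norm_num)
  exact ((measurePreserving_eval (fun _ : Fin n => gaussianReal 0 1) i).integrable_comp_of_integrable h)

lemma e2 (hGMO : SpecGMO) : ∫ x : EuclideanSpace ℝ (Fin n), ‖x‖ ^ 2 ∂(stdGaussian (EuclideanSpace ℝ (Fin n))) = n := by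
  rw [← map_pi_eq_stdGaussian, integral_map (by fun_prop) (by fun_prop)]
  simp_rw [normsq]
  rw [integral_finsetSum _ (fun i _ => inti i)]
  simp [ev hGMO]

lemma e4 (hGMO : SpecGMO) : ∫ x : EuclideanSpace ℝ (Fin n), (‖x‖ ^ 2 - n) ^ 2 ∂(stdGaussian (EuclideanSpace ℝ (Fin n))) = 2 * n := by
  rw [← map_pi_eq_stdGaussian, integral_map (by fun_prop) (by fun_prop)]
  simp_rw [normsq]
  have h := variance_sum_pi (μ := fun _ : Fin n => gaussianReal 0 1) (X := fun _ x => x ^ 2) (fun _ => mlp)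
  simp only [var1 hGMO] at h
  have hm : AEMeasurable (∑ i, fun ω : Fin n → ℝ => ω i ^ 2) (Measure.pi fun _ : Fin n => gaussianReal 0 1) := by
    have h0 : Measurable (fun ω : Fin n → ℝ => ∑ i, ω i ^ 2) := by fun_prop
    have h1 : (∑ i, fun ω : Fin n → ℝ => ω i ^ 2) = (fun ω : Fin n → ℝ => ∑ i, ω i ^ 2) := by
      funext ω; rw [Finset.sum_apply]
    rw [h1]; exact h0.aemeasurable
  rw [variance_eq_integral hm] at h
  have h1 : ∫ x : Fin n → ℝ, (∑ i, fun ω : Fin n → ℝ => ω i ^ 2) x ∂(Measure.pi fun _ => gaussianReal 0 1) = n := by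
    simp only [Finset.sum_apply]
    rw [integral_finsetSum _ (fun i _ => inti i)]
    simp [ev hGMO]
  rw [h1] at h
  simp only [Finset.sum_apply] at h
  rw [h]
  simp [mul_comm]

end std

variable {E : Type} [NormedAddCommGroup E] [InnerProductSpace ℝ E] [FiniteDimensional ℝ E]

/-- an isometric parametrisation of the range -/
lemma exV (Q : E →L[ℝ] E) (n : ℕ) (hs : ∀ x y, ⟪Q x, y⟫ = ⟪x, Q y⟫) (hi : ∀ x, Q (Q x) = Q x) (ht : tr Q = n) :
    ∃ V : EuclideanSpace ℝ (Fin n) →ₗᵢ[ℝ] E, ∀ x, ∃ s, Q x = V s ∧ ∀ t, ⟪s, t⟫ = ⟪x, V t⟫ := by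
  set K := LinearMap.range (Q : E →ₗ[ℝ] E) with hK
  have hp : LinearMap.IsProj K (Q : E →ₗ[ℝ] E) := by
    refine ⟨fun x => LinearMap.mem_range_self _ x, ?_⟩
    rintro x ⟨y, rfl⟩
    exact hi y
  have hn : Module.finrank ℝ K = n := by
    have := hp.trace
    have h2 : ((Module.finrank ℝ K : ℕ) : ℝ) = (n : ℝ) := by rw [← this]; exact ht
    exact_mod_cast h2
  let e : OrthonormalBasis (Fin n) ℝ K := (stdOrthonormalBasis ℝ K).reindex (finCongr hn)
  let V : EuclideanSpace ℝ (Fin n) →ₗᵢ[ℝ] E := K.subtypeₗᵢ.comp e.repr.symm.toLinearIsometry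
  refine ⟨V, fun x => ?_⟩
  have hx : Q x ∈ K := LinearMap.mem_range_self _ x
  refine ⟨e.repr ⟨Q x, hx⟩, ?_, fun t => ?_⟩
  · simp [V]
  · have h1 : ⟪e.repr ⟨Q x, hx⟩, t⟫ = ⟪V (e.repr ⟨Q x, hx⟩), V t⟫ := (V.inner_map_map _ _).symm
    have h2 : V (e.repr ⟨Q x, hx⟩) = Q x := by simp [V]
    rw [h1, h2, hs]
    have h3 : V t ∈ K := by simp [V]
    rw [hp.map_id _ h3 |> fun h => (by exact h : Q (V t) = V t)]

end CHNM

open CHNM in
theorem specCHN (hGMO : SpecGMO) : SpecCHN := by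
  intro E _ _ _ _ _ Q n hs hi ht
  obtain ⟨V, hV⟩ := exV Q n hs hi ht
  -- the adjoint
  let W : E →L[ℝ] EuclideanSpace ℝ (Fin n) := ContinuousLinearMap.adjoint V.toContinuousLinearMap
  have hW : ∀ x t, ⟪W x, t⟫ = ⟪x, V t⟫ := fun x t => ContinuousLinearMap.adjoint_inner_left _ _ _
  have hn : ∀ x, ‖Q x‖ = ‖W x‖ := by
    intro x
    obtain ⟨s, h1, h2⟩ := hV x
    have h3 : W x = s := ext_inner_right ℝ fun t => by rw [hW, h2]
    rw [h1, h3, V.norm_map]
  have hmap : (stdGaussian E).map W = stdGaussian (EuclideanSpace ℝ (Fin n)) := by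
    refine Measure.ext_of_charFun ?_
    ext t
    rw [charFun_stdGaussian, charFun_apply, integral_map (by fun_prop) (by fun_prop)]
    simp_rw [hW]
    have := charFun_stdGaussian (E := E) (V t)
    rw [charFun_apply] at this
    rw [this, V.norm_map]
  have key : ∀ g : ℝ → ℝ, Measurable g → ∫ x, g ‖Q x‖ ∂(stdGaussian E) =
      ∫ x, g ‖x‖ ∂(stdGaussian (EuclideanSpace ℝ (Fin n))) := by
    intro g hg
    have h1 := integral_map (μ := stdGaussian E) (φ := W) (f := fun y => g ‖y‖) (by fun_prop)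
      ((hg.comp measurable_norm).aestronglyMeasurable)
    rw [← hmap, h1]
    simp_rw [hn]
  refine ⟨?_, ?_, ?_⟩
  · rw [← hmap, Measure.map_map (by fun_prop) (by fun_prop)]
    congr 1
    funext x
    exact hn x
  · rw [key (fun y => y ^ 2) (by fun_prop)]
    exact e2 hGMO
  · rw [key (fun y => (y ^ 2 - n) ^ 2) (by fun_prop)]
    exact e4 hGMO

end Pool.Agent.Lib.MP17fa2c
end

section
/-!
# MP_17fa2c_pr, module MEA: measurability of the Lanczos quantities and of the exploration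
-/
set_option autoImplicit false

namespace Pool.Agent.Lib.MP17fa2c.MEAM

open MeasureTheory ProbabilityTheory Filter Topology
open scoped RealInnerProductSpace

variable {E : Type} [NormedAddCommGroup E] [InnerProductSpace ℝ E] [FiniteDimensional ℝ E]

theorem sc : SecondCountableTopology E := by
  have : ProperSpace E := FiniteDimensional.proper ℝ E
  infer_instance

theorem scL : SecondCountableTopology (E →L[ℝ] E) := by
  have : FiniteDimensional ℝ (E →L[ℝ] E) := inferInstance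
  have : ProperSpace (E →L[ℝ] E) := FiniteDimensional.proper ℝ _
  infer_instance

variable [MeasurableSpace E] [BorelSpace E] {α : Type*} [MeasurableSpace α]

theorem meas_apply {F : α → (E →L[ℝ] E)} {v : α → E} (hF : Measurable F) (hv : Measurable v) :
    Measurable fun a => F a (v a) := by
  have := sc (E := E)
  have := scL (E := E)
  have h : Continuous fun p : (E →L[ℝ] E) × E => p.1 p.2 := by fun_prop
  exact h.measurable.comp (hF.prodMk hv)

theorem meas_comp {F G : α → (E →L[ℝ] E)} (hF : Measurable F) (hG : Measurable G) :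
    Measurable fun a => F a ∘L G a := by
  have := scL (E := E)
  have h : Continuous fun p : (E →L[ℝ] E) × (E →L[ℝ] E) => p.1 ∘L p.2 := by fun_prop
  exact h.measurable.comp (hF.prodMk hG)

theorem meas_cp {P : α → (E →L[ℝ] E)} (hP : Measurable P) : Measurable fun a => cp (P a) := by
  have := scL (E := E)
  unfold cp
  exact hP.const_sub _

/-- The Lanczos pair. -/
theorem meas_lan (u : E) (j : ℕ) :
    Measurable fun A : E →L[ℝ] E => lan A u j := by
  have := sc (E := E)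
  have := scL (E := E)
  induction j with
  | zero => exact measurable_const
  | succ j ih =>
    have hp : Measurable fun A : E →L[ℝ] E => (lan A u j).1 := measurable_fst.comp ih
    have hq : Measurable fun A : E →L[ℝ] E => (lan A u j).2 := measurable_snd.comp ih
    have hA : Measurable fun A : E →L[ℝ] E => A (lan A u j).2 := meas_apply measurable_id hq
    have hw : Measurable fun A : E →L[ℝ] E =>
        A (lan A u j).2 - ⟪(lan A u j).2, A (lan A u j).2⟫ • (lan A u j).2 - (lan A u j).1 :=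
      (hA.sub ((hq.inner hA).smul hq)).sub hp
    exact (hw.norm.smul hq).prodMk (hw.norm.inv.smul hw)

theorem meas_qv (u : E) (j : ℕ) : Measurable fun A : E →L[ℝ] E => qv A u j :=
  measurable_snd.comp (meas_lan u j)

theorem meas_av (u : E) (j : ℕ) : Measurable fun A : E →L[ℝ] E => av A u j := by
  have := sc (E := E)
  exact (meas_qv u j).inner (meas_apply measurable_id (meas_qv u j))

theorem meas_bv (u : E) (j : ℕ) : Measurable fun A : E →L[ℝ] E => bv A u j := by
  have := sc (E := E)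
  exact (((meas_apply measurable_id (meas_qv u j)).sub ((meas_av u j).smul (meas_qv u j))).sub
    (measurable_fst.comp (meas_lan u j))).norm

theorem meas_rho (u : E) (j : ℕ) : Measurable fun A : E →L[ℝ] E => rho A u j := by
  unfold rho
  exact Finset.measurable_fun_prod _ fun l _ => (meas_bv u l).div_const _

variable {ι : Type} [Fintype ι] [DecidableEq ι]

theorem cont_rank (S : BStr ι E) :
    Continuous fun v : E => ∑ a, InnerProductSpace.rankOne ℝ (S.J a v) (S.J a v) := by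
  refine continuous_finsetSum _ fun a _ => ?_
  have h1 : Continuous fun v : E => S.J a v := (S.J a).continuous
  have h2 : Continuous fun x : E => InnerProductSpace.rankOne ℝ x x := by
    have h3 : Continuous fun x : E => (InnerProductSpace.rankOne ℝ (E := E) (F := E) x) :=
      (InnerProductSpace.rankOne ℝ (E := E) (F := E)).continuous
    exact h3.clm_apply continuous_id
  exact h2.comp h1

theorem meas_addv (S : BStr ι E) {P : α → (E →L[ℝ] E)} {v : α → E} (hP : Measurable P)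
    (hv : Measurable v) : Measurable fun a => addv S (P a) (v a) := by
  have := sc (E := E)
  have := scL (E := E)
  have h1 : Measurable fun a => cp (P a) (v a) := meas_apply (meas_cp hP) hv
  unfold addv
  exact hP.add (((h1.norm.pow_const 2).inv).smul ((cont_rank S).measurable.comp h1))

theorem meas_foldl {T : Type} [Fintype T] (S : BStr ι E) (u : E) (j : ℕ) (l : List T) :
    ∀ F : (T → E →L[ℝ] E) → (E →L[ℝ] E), Measurable F →
      Measurable fun M : T → E →L[ℝ] E => l.foldl (fun P i => addv S P (qv (M i) u j)) (F M) := by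
  induction l with
  | nil => exact fun F hF => hF
  | cons i l ih =>
    intro F hF
    have h1 : Measurable fun M : T → E →L[ℝ] E => addv S (F M) (qv (M i) u j) :=
      meas_addv S hF ((meas_qv u j).comp (measurable_pi_apply i))
    exact ih (fun M => addv S (F M) (qv (M i) u j)) h1

theorem meas_expl {T : Type} [Fintype T] (S : BStr ι E) (u : E) (j : ℕ) :
    Measurable fun M : T → E →L[ℝ] E => expl S u M j := by
  induction j with
  | zero => exact measurable_const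
  | succ j ih => exact meas_foldl S u j _ _ ih

end Pool.Agent.Lib.MP17fa2c.MEAM

namespace Pool.Agent.Lib.MP17fa2c

open MeasureTheory ProbabilityTheory Filter Topology MEAM
open scoped RealInnerProductSpace

theorem specMEA : SpecMEA := by
  intro ι _ _ E _ _ _ _ _ T _ S u j
  have := sc (E := E)
  have := scL (E := E)
  refine ⟨meas_expl S u j, fun i => (meas_lan u j).comp (measurable_pi_apply i),
    fun i => (meas_av u j).comp (measurable_pi_apply i),
    fun i => (meas_bv u j).comp (measurable_pi_apply i),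
    fun i => (meas_rho u j).comp (measurable_pi_apply i), ?_⟩
  refine measurable_pi_iff.2 fun i => ?_
  have hP : Measurable fun p : (E →L[ℝ] E) × (T → E →L[ℝ] E) × (T → E →L[ℝ] E) => p.1 :=
    measurable_fst
  have hM : Measurable fun p : (E →L[ℝ] E) × (T → E →L[ℝ] E) × (T → E →L[ℝ] E) => p.2.1 i :=
    (measurable_pi_apply i).comp (measurable_fst.comp measurable_snd)
  have hG : Measurable fun p : (E →L[ℝ] E) × (T → E →L[ℝ] E) × (T → E →L[ℝ] E) => p.2.2 i :=
    (measurable_pi_apply i).comp (measurable_snd.comp measurable_snd)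
  have hc := meas_cp hP
  exact (hM.sub (meas_comp hc (meas_comp hM hc))).add (meas_comp hc (meas_comp hG hc))

end Pool.Agent.Lib.MP17fa2c
end

section
/-! # Auxiliary lemmas for the modules OVU, RE1, RSA, RSB: functions of polynomial growth. -/
set_option autoImplicit false

open MeasureTheory ProbabilityTheory Filter Topology
open scoped RealInnerProductSpace NNReal ENNReal

namespace Pool.Agent.Lib.MP17fa2c.EAUXM

section PB

variable {E : Type} [NormedAddCommGroup E] [InnerProductSpace ℝ E]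
  {T : Type} [Fintype T]

/-- `1 + ∑ ‖M i‖` -/
noncomputable def nm (M : T → E →L[ℝ] E) : ℝ := 1 + ∑ i, ‖M i‖

theorem one_le_nm (M : T → E →L[ℝ] E) : 1 ≤ nm M := by
  unfold nm
  have : 0 ≤ ∑ i, ‖M i‖ := Finset.sum_nonneg fun i _ => norm_nonneg _
  linarith

theorem le_nm (M : T → E →L[ℝ] E) (i : T) : ‖M i‖ ≤ nm M := by
  unfold nm
  have := Finset.single_le_sum (f := fun i => ‖M i‖) (fun i _ => norm_nonneg (M i))
    (Finset.mem_univ i)
  linarith

/-- polynomial growth -/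
def PB (ν : Measure (T → E →L[ℝ] E)) (F : (T → E →L[ℝ] E) → ℝ) : Prop :=
  ∃ (C : ℝ) (m : ℕ), 0 ≤ C ∧ ∀ᵐ M ∂ν, |F M| ≤ C * nm M ^ m

variable {ν : Measure (T → E →L[ℝ] E)} {F G : (T → E →L[ℝ] E) → ℝ}

theorem PB.const (a : ℝ) : PB ν (fun _ => a) :=
  ⟨|a|, 0, abs_nonneg _, Eventually.of_forall fun _ => by simp⟩

theorem PB.nrm (i : T) : PB ν (fun M => ‖M i‖) :=
  ⟨1, 1, zero_le_one, Eventually.of_forall fun M => by
    rw [abs_of_nonneg (norm_nonneg _), pow_one, one_mul]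
    exact le_nm M i⟩

theorem PB.mono (hG : PB ν G) (h : ∀ᵐ M ∂ν, |F M| ≤ |G M|) : PB ν F := by
  obtain ⟨C, m, hC, hb⟩ := hG
  refine ⟨C, m, hC, ?_⟩
  filter_upwards [h, hb] with M h1 h2
  exact h1.trans h2

theorem PB.mul (hF : PB ν F) (hG : PB ν G) : PB ν (fun M => F M * G M) := by
  obtain ⟨C, m, hC, hb⟩ := hF
  obtain ⟨C', m', hC', hb'⟩ := hG
  refine ⟨C * C', m + m', mul_nonneg hC hC', ?_⟩
  filter_upwards [hb, hb'] with M h1 h2
  rw [abs_mul]
  calc |F M| * |G M| ≤ (C * nm M ^ m) * (C' * nm M ^ m') :=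
        mul_le_mul h1 h2 (abs_nonneg _) ((abs_nonneg _).trans h1)
    _ = C * C' * nm M ^ (m + m') := by rw [pow_add]; ring

theorem PB.add (hF : PB ν F) (hG : PB ν G) : PB ν (fun M => F M + G M) := by
  obtain ⟨C, m, hC, hb⟩ := hF
  obtain ⟨C', m', hC', hb'⟩ := hG
  refine ⟨C + C', m + m', add_nonneg hC hC', ?_⟩
  filter_upwards [hb, hb'] with M h1 h2
  have h3 : nm M ^ m ≤ nm M ^ (m + m') := pow_le_pow_right₀ (one_le_nm M) (Nat.le_add_right _ _)
  have h4 : nm M ^ m' ≤ nm M ^ (m + m') := pow_le_pow_right₀ (one_le_nm M) (Nat.le_add_left _ _)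
  calc |F M + G M| ≤ |F M| + |G M| := abs_add_le _ _
    _ ≤ C * nm M ^ m + C' * nm M ^ m' := add_le_add h1 h2
    _ ≤ C * nm M ^ (m + m') + C' * nm M ^ (m + m') :=
        add_le_add (mul_le_mul_of_nonneg_left h3 hC) (mul_le_mul_of_nonneg_left h4 hC')
    _ = (C + C') * nm M ^ (m + m') := by ring

theorem PB.neg (hF : PB ν F) : PB ν (fun M => -F M) :=
  hF.mono (Eventually.of_forall fun M => by rw [abs_neg])

theorem PB.sub (hF : PB ν F) (hG : PB ν G) : PB ν (fun M => F M - G M) := by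
  simpa only [sub_eq_add_neg] using hF.add hG.neg

theorem PB.pow (hF : PB ν F) (n : ℕ) : PB ν (fun M => F M ^ n) := by
  induction n with
  | zero => simpa using PB.const (ν := ν) 1
  | succ n ih => simpa only [pow_succ] using ih.mul hF

theorem PB.of_le_const {a : ℝ} (h : ∀ᵐ M ∂ν, |F M| ≤ a) : PB ν F :=
  (PB.const a).mono (h.mono fun M hM => hM.trans (le_abs_self a))

end PB

variable {ι : Type} [Fintype ι] [DecidableEq ι] {E : Type} [NormedAddCommGroup E]
  [InnerProductSpace ℝ E] [FiniteDimensional ℝ E] {T : Type} [Fintype T]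
  {S : BStr ι E} {c : T → T → ℝ} {ν : Measure (T → E →L[ℝ] E)}
  {F G : (T → E →L[ℝ] E) → ℝ}

theorem PB.integrable (hF : PB ν F) (hPIN : SpecPIN) (hg : GFam S c ν) (hm : Measurable F) :
    Integrable F ν := by
  obtain ⟨C, m, -, hb⟩ := hF
  exact (hPIN ι E T S c ν hg).1 F C m hm hb

/-- the resampling formula with an explicit inner integral -/
theorem rpi_eq (hRPI : SpecRPI) (hg : GFam S c ν) (u : E) (j : ℕ) (hm : Measurable F)
    (hi : Integrable F ν)
    (h : ∀ M, HermF S M → ∫ G, F (res (expl S u M j) M G) ∂ν = G M) :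
    ∫ M, F M ∂ν = ∫ M, G M ∂ν := by
  rw [((hRPI ι E T S c ν u hg j).1 F hm hi).2.2]
  exact integral_congr_ae (hg.herm.mono fun M hM => h M hM)

/-- growth of the basic quantities -/
theorem pb_base (hPIN : SpecPIN) (hSTP : SpecSTP) (hg : GFam S c ν) {u : E} (hu : ‖u‖ = 1)
    (i : T) (j : ℕ) :
    PB ν (fun M => av (M i) u j) ∧ PB ν (fun M => bv (M i) u j) ∧
    PB ν (fun M => rho (M i) u j) ∧ PB ν (fun M => ‖rh S u M j i‖) ∧
    PB ν (fun M => ‖sv S u M j i‖) ∧ PB ν (fun M => ‖rr S u M j i‖) ∧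
    PB ν (fun M => ‖qv (M i) u j‖) := by
  have h0 := (hPIN ι E T S c ν hg).2 u hu
  have hs : ∀ᵐ M ∂ν, ‖rr S u M j i‖ ≤ 1 ∧ ‖qv (M i) u j‖ ≤ 1 ∧ 0 ≤ rho (M i) u j := by
    filter_upwards [hg.herm] with M hM
    obtain ⟨-, -, -, -, -, -, h7, h8, h9, -⟩ := hSTP ι E T S u M hM hu j i
    exact ⟨h8, h7, h9⟩
  have hp : PB ν (fun M => (‖M i‖ / Real.sqrt (dm E)) ^ j) := by
    have h1 : PB ν (fun M => ‖M i‖ * (Real.sqrt (dm E))⁻¹) := (PB.nrm i).mul (PB.const _)
    simpa only [div_eq_mul_inv] using h1.pow j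
  refine ⟨(PB.nrm i).mono ?_, (PB.nrm i).mono ?_, hp.mono ?_, hp.mono ?_,
    (hp.mul (PB.nrm i)).mono ?_, PB.of_le_const (a := 1) ?_, PB.of_le_const (a := 1) ?_⟩
  · filter_upwards [h0] with M hM
    exact (hM i j).1.trans (le_abs_self _)
  · filter_upwards [h0] with M hM
    rw [abs_of_nonneg (show 0 ≤ bv (M i) u j from norm_nonneg _)]
    exact (hM i j).2.1.trans (le_abs_self _)
  · filter_upwards [h0, hs] with M hM h2
    rw [abs_of_nonneg h2.2.2]
    exact (hM i j).2.2.1.trans (le_abs_self _)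
  · filter_upwards [h0] with M hM
    rw [abs_of_nonneg (norm_nonneg _)]
    exact (hM i j).2.2.2.1.trans (le_abs_self _)
  · filter_upwards [h0] with M hM
    rw [abs_of_nonneg (norm_nonneg _)]
    exact (hM i j).2.2.2.2.trans (le_abs_self _)
  · filter_upwards [hs] with M h2
    rw [abs_of_nonneg (norm_nonneg _)]
    exact h2.1
  · filter_upwards [hs] with M h2
    rw [abs_of_nonneg (norm_nonneg _)]
    exact h2.2.1

/-- Cauchy–Schwarz on a probability space -/
theorem integral_le_sqrt {Ω : Type*} [MeasurableSpace Ω] (μ : Measure Ω)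
    [IsProbabilityMeasure μ] (X : Ω → ℝ) (h1 : Integrable X μ)
    (h2 : Integrable (fun ω => X ω ^ 2) μ) {V : ℝ} (hV : ∫ ω, X ω ^ 2 ∂μ ≤ V) :
    ∫ ω, |X ω| ∂μ ≤ Real.sqrt V := by
  have h0 : 0 ≤ ∫ ω, (|X ω| - ∫ ω, |X ω| ∂μ) ^ 2 ∂μ := integral_nonneg fun ω => sq_nonneg _
  set m : ℝ := ∫ ω, |X ω| ∂μ with hm
  have h3 : ∫ ω, (|X ω| - m) ^ 2 ∂μ = ∫ ω, X ω ^ 2 ∂μ - m ^ 2 := by
    have e : (fun ω => (|X ω| - m) ^ 2) = fun ω => (X ω ^ 2 - 2 * m * |X ω|) + m ^ 2 := by
      funext ω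
      rw [sub_sq, sq_abs]
      ring
    have i1 : Integrable (fun ω => 2 * m * |X ω|) μ := h1.abs.const_mul _
    have i2 : Integrable (fun ω => X ω ^ 2 - 2 * m * |X ω|) μ := h2.sub i1
    rw [e, integral_add i2 (integrable_const _), integral_sub h2 i1, integral_const_mul,
      integral_const, ← hm]
    simp
    ring
  have h4 : m ^ 2 ≤ V := by linarith
  have h5 : 0 ≤ m := integral_nonneg fun ω => abs_nonneg _
  exact Real.le_sqrt_of_sq_le h4

end Pool.Agent.Lib.MP17fa2c.EAUXM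
end

section
/-! # Module RSA: residual of the diagonal entry. -/
set_option autoImplicit false

open MeasureTheory ProbabilityTheory Filter Topology
open scoped RealInnerProductSpace NNReal ENNReal

namespace Pool.Agent.Lib.MP17fa2c

namespace RSAM

open EAUXM MEAM

variable {ι : Type} [Fintype ι] [DecidableEq ι] {E : Type} [NormedAddCommGroup E]
  [InnerProductSpace ℝ E] [FiniteDimensional ℝ E] {T : Type} [Fintype T]
  {S : BStr ι E} {c : T → T → ℝ} {ν : Measure (T → E →L[ℝ] E)}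

omit [FiniteDimensional ℝ E] in
theorem quad (A : E →L[ℝ] E) (hA : ∀ x y, ⟪A x, y⟫ = ⟪x, A y⟫) (r p : E) :
    ⟪r + p, A (r + p)⟫ - ⟪r, A r⟫ = 2 * ⟪r, A p⟫ + ⟪p, A p⟫ := by
  have h1 : ⟪p, A r⟫ = ⟪r, A p⟫ := by rw [← hA, real_inner_comm]
  rw [map_add, inner_add_left, inner_add_right, inner_add_right, h1]
  ring

omit [FiniteDimensional ℝ E] in
theorem rr_add (S : BStr ι E) (u : E) (M : T → E →L[ℝ] E) (k : ℕ) (i : T) :
    rr S u M k i + expl S u M k (qv (M i) u k) = qv (M i) u k := by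
  show (qv (M i) u k - expl S u M k (qv (M i) u k)) + expl S u M k (qv (M i) u k) = _
  abel

theorem eta_kn (hSTP : SpecSTP) (hSTK : SpecSTK) (hKNO : SpecKNO) {u : E} (hu : ‖u‖ = 1)
    (i : T) (k : ℕ) {M G : T → E →L[ℝ] E} (hM : HermF S M) (hG : HermF S G) :
    ⟪rr S u (res (expl S u M k) M G) k i,
      (res (expl S u M k) M G i) (rr S u (res (expl S u M k) M G) k i)⟫ =
      ⟪rr S u M k i, G i (rr S u M k i)⟫ ∧
    av (res (expl S u M k) M G i) u k - ⟪rr S u M k i, G i (rr S u M k i)⟫ =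
      av (M i) u k - ⟪rr S u M k i, M i (rr S u M k i)⟫ := by
  obtain ⟨-, -, -, -, h5, -⟩ := hSTP ι E T S u M hM hu k i
  obtain ⟨k1, -, -, -, k5, -, -, -, -, -, -, k12⟩ := hSTK ι E T S u hu k i
  have q1 : qv (res (expl S u M k) M G i) u k = qv (M i) u k := k1 M G hM hG
  have q5 : rr S u (res (expl S u M k) M G) k i = rr S u M k i := k5 M G hM hG
  obtain ⟨-, l2, l3, -⟩ := k12 M G hM hG _ h5
  have hM' : HermF S (res (expl S u M k) M G) := (hKNO ι E T S u M G k hM hG).1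
  have e1 : av (res (expl S u M k) M G i) u k - ⟪rr S u M k i, G i (rr S u M k i)⟫ =
      2 * ⟪rr S u M k i, M i (expl S u M k (qv (M i) u k))⟫ +
        ⟪expl S u M k (qv (M i) u k), M i (expl S u M k (qv (M i) u k))⟫ := by
    rw [← l2, av, q1]
    have := quad (res (expl S u M k) M G i) (hM' i).1 (rr S u M k i)
      (expl S u M k (qv (M i) u k))
    rw [rr_add, l3] at this
    exact this
  have e2 : av (M i) u k - ⟪rr S u M k i, M i (rr S u M k i)⟫ =
      2 * ⟪rr S u M k i, M i (expl S u M k (qv (M i) u k))⟫ +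
        ⟪expl S u M k (qv (M i) u k), M i (expl S u M k (qv (M i) u k))⟫ := by
    have := quad (M i) (hM i).1 (rr S u M k i) (expl S u M k (qv (M i) u k))
    rw [rr_add] at this
    rw [av]
    exact this
  refine ⟨?_, e1.trans e2.symm⟩
  rw [q5, l2]

/-- `E (1 - ‖r‖⁴) ≤ 2 E ‖Π q‖²` -/
theorem one_sub_r4 (hLOR : SpecLOR) (hSTP : SpecSTP) (hPIN : SpecPIN) (hMEB : SpecMEB)
    (hMEA : SpecMEA)
    (hg : GFam S c ν) {u : E} (hu : ‖u‖ = 1) (i : T) (k : ℕ)
    (hb : ∀ᵐ M ∂ν, ∀ l ≤ k, bv (M i) u l ≠ 0) :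
    ∫ M, (1 - ‖rr S u M k i‖ ^ 4) ∂ν ≤ 2 * ∫ M, ‖expl S u M k (qv (M i) u k)‖ ^ 2 ∂ν := by
  borelize E
  have hsc := sc (E := E)
  have hscL := scL (E := E)
  rw [← integral_const_mul]
  have m1 : Measurable fun M : T → E →L[ℝ] E => ‖expl S u M k (qv (M i) u k)‖ ^ 2 :=
    ((meas_apply ((hMEA ι E T S u k).1) (hMEB ι E T S u k i).1).norm).pow_const 2
  have hle : ∀ᵐ M ∂ν, ‖rr S u M k i‖ ≤ 1 ∧ ‖expl S u M k (qv (M i) u k)‖ ^ 2 ≤ 1 ∧
      ‖qv (M i) u k‖ ^ 2 = ‖rr S u M k i‖ ^ 2 + ‖expl S u M k (qv (M i) u k)‖ ^ 2 := by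
    filter_upwards [hg.herm] with M hM
    obtain ⟨-, -, -, -, -, -, h7, h8, -, -, h11, -⟩ := hSTP ι E T S u M hM hu k i
    refine ⟨h8, ?_, h11⟩
    have h1 := norm_nonneg (qv (M i) u k)
    have h2 := sq_nonneg ‖rr S u M k i‖
    nlinarith
  have j1 : Integrable (fun M => ‖expl S u M k (qv (M i) u k)‖ ^ 2) ν := by
    refine PB.integrable (PB.of_le_const (a := 1) ?_) hPIN hg m1
    filter_upwards [hle] with M hM
    rw [abs_of_nonneg (sq_nonneg _)]
    exact hM.2.1
  refine integral_mono_of_nonneg ?_ (j1.const_mul 2) ?_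
  · filter_upwards [hle] with M hM
    have h1 : ‖rr S u M k i‖ ^ 4 ≤ 1 := pow_le_one₀ (norm_nonneg _) hM.1
    show (0 : ℝ) ≤ 1 - ‖rr S u M k i‖ ^ 4
    linarith
  · filter_upwards [hle, hb, hg.herm] with M hM h2 h3
    have h4 : ‖qv (M i) u k‖ = 1 := (hLOR E (M i) u (h3 i).1 hu).2.1 k fun l hl => h2 l hl.le
    have h5 := hM.2.2
    rw [h4, one_pow] at h5
    have h6 : ‖rr S u M k i‖ ^ 2 ≤ 1 := by
      have := sq_nonneg ‖expl S u M k (qv (M i) u k)‖
      linarith
    show 1 - ‖rr S u M k i‖ ^ 4 ≤ 2 * ‖expl S u M k (qv (M i) u k)‖ ^ 2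
    have h7 : ‖expl S u M k (qv (M i) u k)‖ ^ 2 = 1 - ‖rr S u M k i‖ ^ 2 := by linarith
    rw [h7]
    nlinarith [sq_nonneg (1 - ‖rr S u M k i‖ ^ 2)]

end RSAM

open RSAM EAUXM MEAM in
/-- **RSA.** -/
theorem specRSA (hRPI : SpecRPI) (hRHO : SpecRHO) (hRE1 : SpecRE1) (hSTP : SpecSTP)
    (hSTK : SpecSTK) (hGI1 : SpecGI1) (hPIN : SpecPIN) (hMEB : SpecMEB) (hKNO : SpecKNO)
    (hLOR : SpecLOR) (hMEA : SpecMEA) : SpecRSA := by
  intro ι _ _ T _
  obtain ⟨Cr, hCr, hR⟩ := hRHO ι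
  obtain ⟨C1, hC1, hE⟩ := hRE1 ι T
  refine ⟨1 + Cr + 4 * C1, by positivity, ?_⟩
  intro E _ _ _ S u c ν hg hc hu i k hk
  borelize E
  have hsc := sc (E := E)
  have := hg.gauss
  have hk1 : (1 : ℝ) ≤ (k : ℝ) + 1 := by
    have : (0 : ℝ) ≤ k := Nat.cast_nonneg _
    linarith
  have hk2 : (k : ℝ) + 1 ≤ (k + 1) ^ 2 := by nlinarith
  have hkD : ((k : ℝ) + 1) ^ 2 ≤ dm E := by
    refine le_trans ?_ hk
    nlinarith [sq_nonneg ((k : ℝ) + 1)]
  have hD : 0 < dm E := by nlinarith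
  have hRk : Cr * ((k : ℝ) + 1) ≤ dm E := by
    have h2 : Cr * ((k : ℝ) + 1) ≤ Cr * ((k : ℝ) + 1) ^ 2 := mul_le_mul_of_nonneg_left hk2 hCr.le
    nlinarith [sq_nonneg ((k : ℝ) + 1)]
  have hEk : C1 * ((k : ℝ) + 1) ^ 2 ≤ dm E := by
    nlinarith [sq_nonneg ((k : ℝ) + 1)]
  have hsD : 0 < Real.sqrt (dm E) := Real.sqrt_pos.2 hD
  obtain ⟨rb, r2, -⟩ := hR E T S u c ν hg hc hu i k hRk
  obtain ⟨-, -, e3⟩ := hE E S u c ν hg hc hu i k hEk
  obtain ⟨b1, -, -, -, -, b6, -⟩ := pb_base hPIN hSTP hg hu i k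
  have mr : Measurable fun M : T → E →L[ℝ] E => rr S u M k i := (hMEB ι E T S u k i).2.1
  have mX : Measurable fun M : T → E →L[ℝ] E => ⟪rr S u M k i, M i (rr S u M k i)⟫ :=
    mr.inner (hMEB ι E T S u k i).2.2.2.2.2.2.1
  have ma : Measurable fun M : T → E →L[ℝ] E => av (M i) u k := (hMEA ι E T S u k).2.2.1 i
  have pX : PB ν (fun M => ⟪rr S u M k i, M i (rr S u M k i)⟫) := by
    refine PB.mono ((b6.mul (PB.nrm i)).mul b6) (Eventually.of_forall fun M => ?_)
    refine ((abs_real_inner_le_norm _ _).trans ?_).trans (le_abs_self _)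
    rw [mul_assoc]
    exact mul_le_mul_of_nonneg_left ((M i).le_opNorm _) (norm_nonneg _)
  -- the cross term
  have c1 : ∫ M, ⟪rr S u M k i, M i (rr S u M k i)⟫ *
      (av (M i) u k - ⟪rr S u M k i, M i (rr S u M k i)⟫) ∂ν = 0 := by
    have h0 : ∫ M : T → E →L[ℝ] E, (0 : ℝ) ∂ν = 0 := integral_zero _ _
    rw [← h0]
    refine rpi_eq hRPI hg u k (mX.mul (ma.sub mX)) ((pX.mul (b1.sub pX)).integrable hPIN hg
      (mX.mul (ma.sub mX))) ?_
    intro M hM
    obtain ⟨-, h2, -, -, h5, -, -, -, -, -, -, h12, -⟩ := hSTP ι E T S u M hM hu k i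
    have e1 : ∫ G, ⟪rr S u (res (expl S u M k) M G) k i,
        (res (expl S u M k) M G i) (rr S u (res (expl S u M k) M G) k i)⟫ *
        (av (res (expl S u M k) M G i) u k - ⟪rr S u (res (expl S u M k) M G) k i,
        (res (expl S u M k) M G i) (rr S u (res (expl S u M k) M G) k i)⟫) ∂ν =
        ∫ G, ⟪rr S u M k i, G i (rr S u M k i)⟫ *
          (av (M i) u k - ⟪rr S u M k i, M i (rr S u M k i)⟫) ∂ν := by
      refine integral_congr_ae (hg.herm.mono fun G hG => ?_)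
      obtain ⟨x1, x2⟩ := eta_kn hSTP hSTK hKNO hu i k hM hG
      simp only [x1, x2]
    refine e1.trans ?_
    rw [integral_mul_const]
    obtain ⟨-, -, -, -, -, -, g7, -⟩ := hGI1 ι E T S c ν hg hc (qq S u M k) h12 i i
      (rr S u M k i) (rr S u M k i) h2 h2
    rw [g7, zero_mul]
  -- the square
  have mr4 : Measurable fun M : T → E →L[ℝ] E => 2 * ‖rr S u M k i‖ ^ 4 :=
    (mr.norm.pow_const 4).const_mul 2
  have c2 : ∫ M, ⟪rr S u M k i, M i (rr S u M k i)⟫ ^ 2 ∂ν = ∫ M, 2 * ‖rr S u M k i‖ ^ 4 ∂ν := by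
    refine rpi_eq hRPI hg u k (mX.pow_const 2) ((pX.pow 2).integrable hPIN hg
      (mX.pow_const 2)) ?_
    intro M hM
    obtain ⟨-, h2, -, -, h5, -, -, -, -, -, -, h12, -⟩ := hSTP ι E T S u M hM hu k i
    have e1 : ∫ G, ⟪rr S u (res (expl S u M k) M G) k i,
        (res (expl S u M k) M G i) (rr S u (res (expl S u M k) M G) k i)⟫ ^ 2 ∂ν =
        ∫ G, ⟪rr S u M k i, G i (rr S u M k i)⟫ ^ 2 ∂ν := by
      refine integral_congr_ae (hg.herm.mono fun G hG => ?_)
      obtain ⟨x1, -⟩ := eta_kn hSTP hSTK hKNO hu i k hM hG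
      simp only [x1]
    refine e1.trans ?_
    obtain ⟨-, -, -, -, -, -, -, g8⟩ := hGI1 ι E T S c ν hg hc (qq S u M k) h12 i i
      (rr S u M k i) (rr S u M k i) h2 h2
    exact g8
  have i1 : Integrable (fun M => av (M i) u k ^ 2) ν :=
    (b1.pow 2).integrable hPIN hg (ma.pow_const 2)
  have i2 : Integrable (fun M => ⟪rr S u M k i, M i (rr S u M k i)⟫ ^ 2) ν :=
    (pX.pow 2).integrable hPIN hg (mX.pow_const 2)
  have i3 : Integrable (fun M => 2 * (⟪rr S u M k i, M i (rr S u M k i)⟫ *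
      (av (M i) u k - ⟪rr S u M k i, M i (rr S u M k i)⟫))) ν :=
    ((pX.mul (b1.sub pX)).integrable hPIN hg (mX.mul (ma.sub mX))).const_mul 2
  have i4 : Integrable (fun M => 2 * ‖rr S u M k i‖ ^ 4) ν :=
    ((PB.const 2).mul (b6.pow 4)).integrable hPIN hg mr4
  have e4 : ∫ M, (av (M i) u k - ⟪rr S u M k i, M i (rr S u M k i)⟫) ^ 2 ∂ν =
      2 * ∫ M, (1 - ‖rr S u M k i‖ ^ 4) ∂ν := by
    have e5 : (fun M : T → E →L[ℝ] E =>
        (av (M i) u k - ⟪rr S u M k i, M i (rr S u M k i)⟫) ^ 2) = fun M =>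
        av (M i) u k ^ 2 - ⟪rr S u M k i, M i (rr S u M k i)⟫ ^ 2 -
        2 * (⟪rr S u M k i, M i (rr S u M k i)⟫ *
          (av (M i) u k - ⟪rr S u M k i, M i (rr S u M k i)⟫)) := by
      funext M
      ring
    have i12 : Integrable (fun M : T → E →L[ℝ] E =>
        av (M i) u k ^ 2 - ⟪rr S u M k i, M i (rr S u M k i)⟫ ^ 2) ν := i1.sub i2
    rw [e5, integral_sub i12 i3, integral_sub i1 i2, integral_const_mul, c1, c2, r2,
      ← integral_const_mul]
    have e6 : (fun M : T → E →L[ℝ] E => 2 * (1 - ‖rr S u M k i‖ ^ 4)) =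
        fun M => 2 - 2 * ‖rr S u M k i‖ ^ 4 := by
      funext M
      ring
    rw [e6, integral_sub (integrable_const _) i4, integral_const]
    simp
  rw [e4]
  have h5 := one_sub_r4 hLOR hSTP hPIN hMEB hMEA hg hu i k rb
  have h6 : 4 * (C1 * ((k : ℝ) + 1) / Real.sqrt (dm E)) ≤
      (1 + Cr + 4 * C1) * (k + 1) / Real.sqrt (dm E) := by
    rw [← mul_div_assoc]
    refine div_le_div_of_nonneg_right ?_ hsD.le
    nlinarith
  linarith

end Pool.Agent.Lib.MP17fa2c
end

section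
/-!
# MP_17fa2c_pr, module GFM: the matrix process is an operator process
-/
set_option autoImplicit false

open MeasureTheory ProbabilityTheory Filter Topology
open scoped RealInnerProductSpace NNReal ENNReal BoundedContinuousFunction Quaternion

namespace Pool.Agent.Lib.MP17fa2c

namespace GFMM

section ops

variable {E : Type} [NormedAddCommGroup E] [InnerProductSpace ℝ E]

theorem op_exp {κ : Type} [Fintype κ] (b : OrthonormalBasis κ ℝ E) (A : E →L[ℝ] E) :
    A = ∑ s, ∑ t, ⟪b s, A (b t)⟫ • InnerProductSpace.rankOne ℝ (b s) (b t) := by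
  ext z
  simp only [_root_.sum_apply, _root_.smul_apply,
    InnerProductSpace.rankOne_apply, smul_smul]
  conv_lhs => rw [← b.sum_repr' (A z)]
  refine Finset.sum_congr rfl fun s _ => ?_
  rw [← Finset.sum_smul]
  congr 1
  conv_lhs => rw [← b.sum_repr' z]
  rw [map_sum, inner_sum]
  refine Finset.sum_congr rfl fun t _ => ?_
  rw [map_smul, inner_smul_right, mul_comm]

theorem lin_rep [FiniteDimensional ℝ E] {α : Type} {κ : Type} [Fintype κ] (A : α → E →L[ℝ] E)
    (ξ : κ → α → ℝ) (l : κ → E → E → ℝ) (h : ∀ a x y, ⟪x, A a y⟫ = ∑ p, ξ p a * l p x y) :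
    ∃ O : κ → E →L[ℝ] E, ∀ a, A a = ∑ p, ξ p a • O p := by
  set b := stdOrthonormalBasis ℝ E
  refine ⟨fun p => ∑ s, ∑ t, l p (b s) (b t) • InnerProductSpace.rankOne ℝ (b s) (b t),
    fun a => ?_⟩
  conv_lhs => rw [op_exp b (A a)]
  simp only [h, Finset.sum_smul, Finset.smul_sum, smul_smul]
  rw [Finset.sum_comm]
  conv_lhs =>
    enter [2, t]
    rw [Finset.sum_comm]
  rw [Finset.sum_comm]
  refine Finset.sum_congr rfl fun p _ => ?_
  rw [Finset.sum_comm]

end ops

theorem gl_map {E F : Type} [NormedAddCommGroup E] [NormedSpace ℝ E] [MeasurableSpace E]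
    [BorelSpace E] [NormedAddCommGroup F] [NormedSpace ℝ F] [MeasurableSpace F] [BorelSpace F]
    {Ω : Type} [MeasurableSpace Ω] {P : Measure Ω} {X : Ω → E} (h : HasGaussianLaw X P)
    (f : E → F) (ha : ∀ x y, f (x + y) = f x + f y) (hs : ∀ (c : ℝ) x, f (c • x) = c • f x)
    (hc : Continuous f) : HasGaussianLaw (fun ω => f (X ω)) P :=
  h.map_fun (⟨⟨⟨f, ha⟩, hs⟩, hc⟩ : E →L[ℝ] F)

theorem gauss {κ : Type} [Fintype κ] {Ω : Type} [MeasurableSpace Ω] (P : Measure Ω)
    (ξ : κ → ℝ≥0 → Ω → ℝ) (hg : ∀ p, IsGaussianProcess (ξ p) P)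
    (hi : iIndepFun (fun (p : κ) (ω : Ω) (t : ℝ≥0) => ξ p t ω) P) (T : Type) [Fintype T]
    (t : T → ℝ≥0) : HasGaussianLaw (fun ω (p : κ) (τ : T) => ξ p (t τ) ω) P := by
  have h1 : ∀ p, HasGaussianLaw (fun ω (τ : T) => ξ p (t τ) ω) P := by
    intro p
    have h2 := ((hg p).comp_right t).hasGaussianLaw Finset.univ
    exact gl_map h2 (fun g (τ : T) => g ⟨τ, Finset.mem_univ τ⟩) (fun _ _ => rfl)
      (fun _ _ => rfl) (by fun_prop)
  have h3 := hi.comp (fun _ (f : ℝ≥0 → ℝ) (τ : T) => f (t τ)) (fun p => by fun_prop)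
  exact iIndepFun.hasGaussianLaw h1 h3

end GFMM

open GFMM in
theorem specGFM (hGF1 : SpecGF1) (hGF2 : SpecGF2) (hOPM : SpecOPM) : SpecGFM := by
  intro β 𝔽 _ _ _ _ _ _ F n ho S hS Ω _ P _ M hM
  classical
  obtain ⟨-, -, -, hadj, -⟩ := hOPM (Fin β) 𝔽 F n
  have hsc := MEAM.scL (E := VE 𝔽 n)
  set ξ : Idx n β → ℝ≥0 → Ω → ℝ := fun p t ω => ⟪F.e p.1.2.2, M ω t p.1.1 p.1.2.1⟫ with hξ
  have hform : ∀ (ω : Ω) (t : ℝ≥0) (x y : VE 𝔽 n),
      ⟪x, opm (M ω t) y⟫ = ∑ p, ξ p t ω * lco F p x y :=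
    fun ω t x y => hGF1 β 𝔽 F n ho (M ω t) (hM.herm ω t) x y
  obtain ⟨O, hO⟩ := lin_rep (fun a : ℝ≥0 × Ω => opm (M a.2 a.1)) (fun p a => ξ p a.1 a.2)
    (fun p x y => lco F p x y) (fun a x y => hform a.2 a.1 x y)
  have hO' : ∀ (ω : Ω) (t : ℝ≥0), opm (M ω t) = ∑ p, ξ p t ω • O p := fun ω t => hO (t, ω)
  have hξm : ∀ p t, Measurable (ξ p t) := fun p t => hM.meas p t
  have hmeas : ∀ t, Measurable fun ω => opm (M ω t) := by
    intro t
    simp only [hO']
    exact Finset.measurable_sum _ fun p _ => (hξm p t).smul_const _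
  refine ⟨hmeas, fun T _ t => ?_⟩
  have hΦ : Measurable fun ω (p : T) => opm (M ω (t p)) :=
    measurable_pi_lambda _ fun p => hmeas (t p)
  have hgl : HasGaussianLaw (fun ω (p : T) => opm (M ω (t p))) P := by
    have h1 := gauss P ξ hM.gauss hM.indep T t
    have h2 : HasGaussianLaw (fun ω (τ : T) => ∑ p, ξ p (t τ) ω • O p) P :=
      gl_map h1 (fun (g : Idx n β → T → ℝ) (τ : T) => ∑ p, g p τ • O p)
        (fun x y => by
          funext τ
          simp only [Pi.add_apply, add_smul, Finset.sum_add_distrib])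
        (fun c x => by
          funext τ
          simp only [Pi.smul_apply, smul_eq_mul, Finset.smul_sum, smul_smul])
        (continuous_pi fun τ => continuous_finsetSum _ fun p _ => by
          have h5 : Continuous fun a : Idx n β → T → ℝ => a p τ :=
            (continuous_apply τ).comp (continuous_apply p)
          exact h5.smul continuous_const)
    have h3 : (fun ω (p : T) => opm (M ω (t p))) =
        fun ω (τ : T) => ∑ p, ξ p (t τ) ω • O p := by
      funext ω τ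
      rw [hO']
    rw [h3]
    exact h2
  have hL2 : ∀ p t, MemLp (ξ p t) 2 P := fun p t => ((hM.gauss p).hasGaussianLaw_eval t).memLp_two
  have hint : ∀ p t, Integrable (ξ p t) P := fun p t => (hL2 p t).integrable (by norm_num)
  refine ⟨hgl.isGaussian_map, ?_, ?_, ?_⟩
  · -- self-adjoint
    have hcl : MeasurableSet {A : T → (VE 𝔽 n →L[ℝ] VE 𝔽 n) | HermF S A} := by
      apply IsClosed.measurableSet
      have h1 : {A : T → (VE 𝔽 n →L[ℝ] VE 𝔽 n) | HermF S A} =
          (⋂ i : T, ⋂ x : VE 𝔽 n, ⋂ y : VE 𝔽 n, {A | ⟪A i x, y⟫ = ⟪x, A i y⟫}) ∩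
          ⋂ i : T, ⋂ a : Fin β, ⋂ x : VE 𝔽 n, {A | A i (S.J a x) = S.J a (A i x)} := by
        ext A
        simp only [Set.mem_inter_iff, Set.mem_iInter, Set.mem_ofPred_eq, HermF, Herm]
        exact ⟨fun h => ⟨fun i x y => (h i).1 x y, fun i a x => (h i).2 a x⟩,
          fun h i => ⟨fun x y => h.1 i x y, fun a x => h.2 i a x⟩⟩
      rw [h1]
      refine IsClosed.inter ?_ ?_
      · refine isClosed_iInter fun i => isClosed_iInter fun x => isClosed_iInter fun y => ?_
        exact isClosed_eq (by fun_prop) (by fun_prop)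
      · refine isClosed_iInter fun i => isClosed_iInter fun a => isClosed_iInter fun x => ?_
        exact isClosed_eq (by fun_prop) (by fun_prop)
    rw [ae_map_iff hΦ.aemeasurable hcl]
    refine Filter.Eventually.of_forall fun ω i => ⟨fun x y => ?_, fun a x => ?_⟩
    · show ⟪opm (M ω (t i)) x, y⟫ = ⟪x, opm (M ω (t i)) y⟫
      rw [hadj, (hM.herm ω (t i)).eq]
    · show opm (M ω (t i)) (S.J a x) = S.J a (opm (M ω (t i)) x)
      ext j
      rw [hS]
      show ∑ k, M ω (t i) j k * (S.J a x) k = (∑ k, M ω (t i) j k * x k) * F.e a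
      rw [Finset.sum_mul]
      refine Finset.sum_congr rfl fun k _ => ?_
      rw [hS, mul_assoc]
  · intro i x y
    have hc : Continuous fun A : T → (VE 𝔽 n →L[ℝ] VE 𝔽 n) => ⟪x, A i y⟫ := by fun_prop
    rw [integral_map hΦ.aemeasurable hc.aestronglyMeasurable]
    simp only [hform]
    rw [integral_finsetSum _ fun p _ => (hint p _).mul_const _]
    refine Finset.sum_eq_zero fun p _ => ?_
    rw [integral_mul_const, hM.mean p (t i), zero_mul]
  · intro i l x y x' y'
    have hc : Continuous fun A : T → (VE 𝔽 n →L[ℝ] VE 𝔽 n) => ⟪x, A i y⟫ * ⟪x', A l y'⟫ := by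
      fun_prop
    rw [integral_map hΦ.aemeasurable hc.aestronglyMeasurable]
    simp only [hform]
    have hexp : ∀ ω, (∑ p, ξ p (t i) ω * lco F p x y) * (∑ q, ξ q (t l) ω * lco F q x' y') =
        ∑ p, ∑ q, (ξ p (t i) ω * ξ q (t l) ω) * (lco F p x y * lco F q x' y') := by
      intro ω
      rw [Finset.sum_mul_sum]
      refine Finset.sum_congr rfl fun p _ => Finset.sum_congr rfl fun q _ => ?_
      ring
    simp only [hexp]
    have hprod : ∀ p q, Integrable (fun ω => ξ p (t i) ω * ξ q (t l) ω) P :=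
      fun p q => (hL2 p _).integrable_mul (hL2 q _)
    rw [integral_finsetSum _ fun p _ => integrable_finsetSum _ fun q _ =>
      (hprod p q).mul_const _]
    have hE : ∀ p q, ∫ ω, ξ p (t i) ω * ξ q (t l) ω ∂P =
        if p = q then (if p.1.1 = p.1.2.1 then 2 else 1) * Real.exp (-|(t i : ℝ) - t l|)
        else 0 := by
      intro p q
      by_cases hpq : p = q
      · subst hpq
        rw [if_pos rfl]
        have h1 := hM.cov p (t i) (t l)
        rw [abs_sub_comm] at h1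
        exact h1
      · rw [if_neg hpq]
        have hind := hM.indep.indepFun hpq
        have hm : ∀ p : Idx n β, AEMeasurable (fun (ω : Ω) (t : ℝ≥0) => ξ p t ω) P :=
          fun p => (measurable_pi_lambda _ fun t => hξm p t).aemeasurable
        have h1 := hind.integral_fun_comp_mul_comp (𝕜 := ℝ) (f := fun g : ℝ≥0 → ℝ => g (t i))
          (g := fun g : ℝ≥0 → ℝ => g (t l)) (hm p) (hm q)
          (measurable_pi_apply _).aestronglyMeasurable (measurable_pi_apply _).aestronglyMeasurable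
        refine h1.trans ?_
        have h2 := hM.mean p (t i)
        rw [h2, zero_mul]
    have hsum : ∀ p, ∫ ω, ∑ q, (ξ p (t i) ω * ξ q (t l) ω) * (lco F p x y * lco F q x' y') ∂P =
        Real.exp (-|(t i : ℝ) - t l|) *
          ((if p.1.1 = p.1.2.1 then 2 else 1) * (lco F p x y * lco F p x' y')) := by
      intro p
      rw [integral_finsetSum _ fun q _ => (hprod p q).mul_const _]
      simp only [integral_mul_const, hE]
      rw [Finset.sum_eq_single p]
      · rw [if_pos rfl]; ring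
      · intro q _ hq
        rw [if_neg hq.symm, zero_mul]
      · intro h
        exact absurd (Finset.mem_univ _) h
    simp only [hsum]
    rw [← Finset.mul_sum, hGF2 β 𝔽 F n ho S hS x y x' y']

end Pool.Agent.Lib.MP17fa2c
end

section
/-!
# MP_17fa2c_pr, module MEB: measurability of the residuals
-/
set_option autoImplicit false

namespace Pool.Agent.Lib.MP17fa2c.MEBM

open MeasureTheory ProbabilityTheory Filter Topology MEAM
open scoped RealInnerProductSpace

variable {E : Type} [NormedAddCommGroup E] [InnerProductSpace ℝ E] [FiniteDimensional ℝ E]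

theorem cont_tr : Continuous fun P : E →L[ℝ] E => tr P := by
  let L : (E →L[ℝ] E) →ₗ[ℝ] ℝ :=
    (LinearMap.trace ℝ E).comp (ContinuousLinearMap.coeLM ℝ)
  exact L.continuous_of_finiteDimensional

end Pool.Agent.Lib.MP17fa2c.MEBM

namespace Pool.Agent.Lib.MP17fa2c

open MeasureTheory ProbabilityTheory Filter Topology MEAM MEBM
open scoped RealInnerProductSpace

theorem specMEB : SpecMEB := by
  intro ι _ _ E _ _ _ _ _ T _ S u j i
  have := sc (E := E)
  have := scL (E := E)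
  have hi : Measurable fun M : T → E →L[ℝ] E => M i := measurable_pi_apply i
  have hq : Measurable fun M : T → E →L[ℝ] E => qv (M i) u j := (meas_qv u j).comp hi
  have hrho : Measurable fun M : T → E →L[ℝ] E => rho (M i) u j := (meas_rho u j).comp hi
  have hrr : Measurable fun M : T → E →L[ℝ] E => rr S u M j i :=
    meas_apply (meas_cp (meas_expl S u j)) hq
  have hrh : Measurable fun M : T → E →L[ℝ] E => rh S u M j i := hrho.smul hrr
  have hqq : Measurable fun M : T → E →L[ℝ] E => qq S u M j := meas_cp (meas_expl S u (j + 1))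
  have htr : Measurable fun M : T → E →L[ℝ] E => tr (qq S u M j) :=
    cont_tr.measurable.comp hqq
  have hsv : Measurable fun M : T → E →L[ℝ] E => sv S u M j i :=
    hrho.smul (meas_apply hqq (meas_apply hi (meas_apply (meas_expl S u j) hq)))
  exact ⟨hq, hrr, hrh, hqq, htr, hsv, meas_apply hi hrr, meas_apply hqq (meas_apply hi hrh),
    meas_apply hqq (meas_apply hi hrr)⟩

end Pool.Agent.Lib.MP17fa2c
end

section
/-! # OPM -/
set_option autoImplicit false

open MeasureTheory ProbabilityTheory Filter Topology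
open scoped RealInnerProductSpace NNReal ENNReal BoundedContinuousFunction Quaternion

namespace Pool.Agent.Lib.MP17fa2c

namespace OPMM

variable {𝔽 : Type} [NormedRing 𝔽] [StarRing 𝔽] [InnerProductSpace ℝ 𝔽]
  [IsScalarTower ℝ 𝔽 𝔽] [SMulCommClass ℝ 𝔽 𝔽] [FiniteDimensional ℝ 𝔽]

omit [StarRing 𝔽] [IsScalarTower ℝ 𝔽 𝔽] in
theorem opm_apply {n : ℕ} (A : Matrix (Fin n) (Fin n) 𝔽) (x : VE 𝔽 n) (i : Fin n) :
    (opm A x) i = ∑ j, A i j * x j := rfl

end OPMM

open OPMM in
/-- OPM -/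
theorem specOPM : SpecOPM := by
  intro ι _ _ 𝔽 _ _ _ _ _ _ F n
  have hadd : ∀ A B : Matrix (Fin n) (Fin n) 𝔽, opm (A + B) = opm A + opm B := by
    intro A B
    ext x i
    show ∑ j, (A + B) i j * x j = ∑ j, A i j * x j + ∑ j, B i j * x j
    rw [← Finset.sum_add_distrib]
    exact Finset.sum_congr rfl fun j _ => by rw [Matrix.add_apply, add_mul]
  refine ⟨fun A B => ?_, hadd, ?_, fun A x y => ?_, ?_⟩
  · ext x i
    show ∑ j, (A * B) i j * x j = ∑ k, A i k * ∑ j, B k j * x j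
    simp_rw [Matrix.mul_apply, Finset.sum_mul, Finset.mul_sum, mul_assoc]
    exact Finset.sum_comm
  · ext x i
    show ∑ j, (1 : Matrix (Fin n) (Fin n) 𝔽) i j * x j = x i
    simp [Matrix.one_apply]
  · rw [PiLp.inner_apply, PiLp.inner_apply]
    simp_rw [opm_apply, sum_inner, inner_sum]
    rw [Finset.sum_comm]
    refine Finset.sum_congr rfl fun j _ => Finset.sum_congr rfl fun i _ => ?_
    rw [F.inner_mul, Matrix.conjTranspose_apply, real_inner_comm]
  · have hsmul : ∀ (r : ℝ) (A : Matrix (Fin n) (Fin n) 𝔽), opm (r • A) = r • opm A := by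
      intro r A
      ext x i
      show ∑ j, (r • A) i j * x j = r • ∑ j, A i j * x j
      rw [Finset.smul_sum]
      exact Finset.sum_congr rfl fun j _ => by rw [Matrix.smul_apply, smul_mul_assoc]
    let L : Matrix (Fin n) (Fin n) 𝔽 →ₗ[ℝ] (VE 𝔽 n →L[ℝ] VE 𝔽 n) :=
      { toFun := fun A => opm A, map_add' := hadd, map_smul' := hsmul }
    exact L.continuous_of_finiteDimensional

end Pool.Agent.Lib.MP17fa2c
end

section
/-! # Module OVU: overlaps of the normalised residuals. -/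
set_option autoImplicit false

open MeasureTheory ProbabilityTheory Filter Topology
open scoped RealInnerProductSpace NNReal ENNReal

namespace Pool.Agent.Lib.MP17fa2c

namespace OVUM

theorem one_sub_mul_le {x y : ℝ} (hx : 0 ≤ x) (hy : 0 ≤ y) :
    |1 - x * y| ≤ |1 - x ^ 2| + |1 - y ^ 2| := by
  have h1 : (x - y) ^ 2 ≤ |1 - x ^ 2| + |1 - y ^ 2| := by
    have h2 : (x - y) ^ 2 ≤ |x ^ 2 - y ^ 2| := by
      rcases le_total x y with h | h
      · rw [abs_of_nonpos (by nlinarith)]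
        nlinarith
      · rw [abs_of_nonneg (by nlinarith)]
        nlinarith
    have h3 : |x ^ 2 - y ^ 2| ≤ |1 - x ^ 2| + |1 - y ^ 2| := by
      have h4 : x ^ 2 - y ^ 2 = (1 - y ^ 2) - (1 - x ^ 2) := by ring
      rw [h4]
      linarith [abs_sub (1 - y ^ 2) (1 - x ^ 2)]
    linarith
  have h5 : 1 - x * y = ((1 - x ^ 2) + (1 - y ^ 2)) / 2 + (x - y) ^ 2 / 2 := by ring
  have h6 := le_abs_self (1 - x ^ 2)
  have h7 := le_abs_self (1 - y ^ 2)
  have h8 := neg_abs_le (1 - x ^ 2)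
  have h9 := neg_abs_le (1 - y ^ 2)
  have h10 := sq_nonneg (x - y)
  rw [h5, abs_le]
  constructor <;> linarith

end OVUM

open OVUM EAUXM MEAM in
/-- **OVU.** -/
theorem specOVU (hOVR : SpecOVR) (hRHO : SpecRHO) (hSTP : SpecSTP) (hPIN : SpecPIN)
    (hMEB : SpecMEB) (hMEA : SpecMEA) : SpecOVU := by
  intro ι _ _ T _
  obtain ⟨Cr, hCr, hR⟩ := hRHO ι
  obtain ⟨Co, hCo, hO⟩ := hOVR ι T
  set K : ℝ := 2 * Fintype.card ι + 8 with hK
  have hK1 : 1 ≤ K := by
    have : (0 : ℝ) ≤ Fintype.card ι := Nat.cast_nonneg _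
    rw [hK]; linarith
  refine ⟨1 + Cr + Co + 2 * K, by positivity, ?_⟩
  intro E _ _ _ S u c ν hg hc hu a i l k hk
  borelize E
  have hsc := sc (E := E)
  have := hg.gauss
  have hk1 : (1 : ℝ) ≤ (k : ℝ) + 1 := by
    have : (0 : ℝ) ≤ k := Nat.cast_nonneg _
    linarith
  have hk2 : (k : ℝ) + 1 ≤ (k + 1) ^ 2 := by nlinarith
  have hkD : ((k : ℝ) + 1) ^ 2 ≤ dm E := by
    refine le_trans ?_ hk
    nlinarith [sq_nonneg ((k : ℝ) + 1)]
  have hD : 0 < dm E := by nlinarith
  have hRk : Cr * ((k : ℝ) + 1) ≤ dm E := by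
    have h2 : Cr * ((k : ℝ) + 1) ≤ Cr * ((k : ℝ) + 1) ^ 2 := mul_le_mul_of_nonneg_left hk2 hCr.le
    nlinarith [sq_nonneg ((k : ℝ) + 1)]
  have hOk : Co * ((k : ℝ) + 1) ^ 2 ≤ dm E := by
    nlinarith [sq_nonneg ((k : ℝ) + 1)]
  have hsD : 0 < Real.sqrt (dm E) := Real.sqrt_pos.2 hD
  have hmrho : ∀ i, Measurable fun M : T → E →L[ℝ] E => rho (M i) u k := fun i =>
    (hMEA ι E T S u k).2.2.2.2.1 i
  have hrho : ∀ i, Integrable (fun M => |1 - rho (M i) u k ^ 2|) ν ∧
      ∫ M, |1 - rho (M i) u k ^ 2| ∂ν ≤ K * (k + 1) / Real.sqrt (dm E) := by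
    intro i
    obtain ⟨-, -, -, -, -, -, r7⟩ := hR E T S u c ν hg hc hu i k hRk
    have p1 : PB ν (fun M => 1 - rho (M i) u k ^ 2) :=
      (PB.const 1).sub ((pb_base hPIN hSTP hg hu i k).2.2.1.pow 2)
    have m1 : Measurable fun M : T → E →L[ℝ] E => 1 - rho (M i) u k ^ 2 :=
      measurable_const.sub ((hmrho i).pow_const 2)
    have j1 : Integrable (fun M => 1 - rho (M i) u k ^ 2) ν := p1.integrable hPIN hg m1
    have j2 : Integrable (fun M => (1 - rho (M i) u k ^ 2) ^ 2) ν :=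
      (p1.pow 2).integrable hPIN hg (m1.pow_const 2)
    have h1 := integral_le_sqrt ν (fun M => 1 - rho (M i) u k ^ 2) j1 j2 r7
    refine ⟨j1.abs, h1.trans ?_⟩
    rw [Real.sqrt_div (by positivity), Real.sqrt_mul (by positivity),
      Real.sqrt_sq (Nat.cast_nonneg _)]
    refine div_le_div_of_nonneg_right ?_ hsD.le
    have h2 : Real.sqrt K ≤ K := by
      rw [Real.sqrt_le_left (by linarith)]
      nlinarith
    exact mul_le_mul h2 (by linarith) (Nat.cast_nonneg _) (by linarith)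
  set d : ℝ := if a = S.o then c i l ^ k else 0 with hd
  have hJm : Measurable (S.J a) := (S.J a).measurable
  -- the overlap of the `R`
  have m2 : Measurable fun M : T → E →L[ℝ] E => ⟪rh S u M k i, S.J a (rh S u M k l)⟫ :=
    ((hMEB ι E T S u k i).2.2.1).inner (hJm.comp (hMEB ι E T S u k l).2.2.1)
  have p2 : PB ν (fun M => ⟪rh S u M k i, S.J a (rh S u M k l)⟫) := by
    refine PB.mono (((pb_base hPIN hSTP hg hu i k).2.2.2.1).mul
      ((pb_base hPIN hSTP hg hu l k).2.2.2.1)) (Eventually.of_forall fun M => ?_)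
    have h1 := abs_real_inner_le_norm (rh S u M k i) (S.J a (rh S u M k l))
    rw [S.norm_J] at h1
    exact h1.trans (le_abs_self _)
  have j2 : Integrable (fun M => |⟪rh S u M k i, S.J a (rh S u M k l)⟫ - d|) ν :=
    ((p2.sub (PB.const d)).integrable hPIN hg (m2.sub_const d)).abs
  have hO1 := hO E S u c ν hg hc hu a i l k hOk
  rw [← hd] at hO1
  have h3 : ∫ M, |⟪rr S u M k i, S.J a (rr S u M k l)⟫ - d| ∂ν ≤
      ∫ M, (|⟪rh S u M k i, S.J a (rh S u M k l)⟫ - d| +
        (|1 - rho (M i) u k ^ 2| + |1 - rho (M l) u k ^ 2|)) ∂ν := by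
    refine integral_mono_of_nonneg (Eventually.of_forall fun _ => abs_nonneg _)
      (j2.add ((hrho i).1.add (hrho l).1)) ?_
    filter_upwards [hg.herm] with M hM
    obtain ⟨-, -, -, -, -, -, -, h8, h9, -⟩ := hSTP ι E T S u M hM hu k i
    obtain ⟨-, -, -, -, -, -, -, g8, g9, -⟩ := hSTP ι E T S u M hM hu k l
    have e1 : ⟪rh S u M k i, S.J a (rh S u M k l)⟫ =
        rho (M i) u k * rho (M l) u k * ⟪rr S u M k i, S.J a (rr S u M k l)⟫ := by
      rw [rh, rh, map_smul, real_inner_smul_left, real_inner_smul_right]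
      ring
    have e2 : |⟪rr S u M k i, S.J a (rr S u M k l)⟫| ≤ 1 := by
      have h1 := abs_real_inner_le_norm (rr S u M k i) (S.J a (rr S u M k l))
      rw [S.norm_J] at h1
      exact h1.trans (mul_le_one₀ h8 (norm_nonneg _) g8)
    have e3 : ⟪rr S u M k i, S.J a (rr S u M k l)⟫ - d =
        (⟪rh S u M k i, S.J a (rh S u M k l)⟫ - d) +
        (1 - rho (M i) u k * rho (M l) u k) * ⟪rr S u M k i, S.J a (rr S u M k l)⟫ := by
      rw [e1]; ring
    show |⟪rr S u M k i, S.J a (rr S u M k l)⟫ - d| ≤ _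
    rw [e3]
    refine (abs_add_le _ _).trans (add_le_add le_rfl ?_)
    rw [abs_mul]
    calc |1 - rho (M i) u k * rho (M l) u k| * |⟪rr S u M k i, S.J a (rr S u M k l)⟫| ≤
        |1 - rho (M i) u k * rho (M l) u k| * 1 := mul_le_mul_of_nonneg_left e2 (abs_nonneg _)
      _ ≤ |1 - rho (M i) u k ^ 2| + |1 - rho (M l) u k ^ 2| := by
        rw [mul_one]
        exact one_sub_mul_le h9 g9
  have j3 : Integrable (fun M => |1 - rho (M i) u k ^ 2| + |1 - rho (M l) u k ^ 2|) ν :=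
    (hrho i).1.add (hrho l).1
  rw [integral_add j2 j3, integral_add (hrho i).1 (hrho l).1] at h3
  have h4 := (hrho i).2
  have h5 := (hrho l).2
  have h6 : Co * ((k : ℝ) + 1) / Real.sqrt (dm E) + (K * (k + 1) / Real.sqrt (dm E) +
      K * (k + 1) / Real.sqrt (dm E)) ≤ (1 + Cr + Co + 2 * K) * (k + 1) / Real.sqrt (dm E) := by
    rw [← add_div, ← add_div]
    refine div_le_div_of_nonneg_right ?_ hsD.le
    nlinarith
  linarith

end Pool.Agent.Lib.MP17fa2c
end

section
/-! # Module RE1: the residuals stay large. -/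
set_option autoImplicit false

open MeasureTheory ProbabilityTheory Filter Topology
open scoped RealInnerProductSpace NNReal ENNReal

namespace Pool.Agent.Lib.MP17fa2c

namespace RE1M

open EAUXM

variable {ι : Type} [Fintype ι] [DecidableEq ι] {E : Type} [NormedAddCommGroup E]
  [InnerProductSpace ℝ E] [FiniteDimensional ℝ E] {T : Type} [Fintype T]
  {S : BStr ι E} {c : T → T → ℝ} {ν : Measure (T → E →L[ℝ] E)}

omit [FiniteDimensional ℝ E] in
theorem rh_zero (S : BStr ι E) (u : E) (M : T → E →L[ℝ] E) (i : T) : rh S u M 0 i = u := by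
  have h1 : rho (M i) u 0 = 1 := by simp [rho]
  have h2 : rr S u M 0 i = u := by
    show u - (0 : E →L[ℝ] E) u = u
    simp
  rw [rh, h1, h2, one_smul]

theorem pb_tr (hSTP : SpecSTP) (hg : GFam S c ν) {u : E} (hu : ‖u‖ = 1) (i : T) (j : ℕ) :
    PB ν (fun M => tr (qq S u M j)) := by
  refine PB.of_le_const (a := dm E + Fintype.card ι * Fintype.card T * (j + 1)) ?_
  filter_upwards [hg.herm] with M hM
  obtain ⟨-, -, -, -, -, -, -, -, -, -, -, -, h13, h14, -⟩ := hSTP ι E T S u M hM hu j i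
  have h0 : (0 : ℝ) ≤ dm E := Nat.cast_nonneg _
  have h1 : (0 : ℝ) ≤ Fintype.card ι * Fintype.card T * (j + 1) := by positivity
  rw [abs_le]
  constructor <;> linarith

theorem step (hRPI : SpecRPI) (hSTP : SpecSTP) (hSTK : SpecSTK) (hGI1 : SpecGI1)
    (hPIN : SpecPIN) (hMEB : SpecMEB) (hKNO : SpecKNO) (hg : GFam S c ν) (hc : Cor c) {u : E}
    (hu : ‖u‖ = 1) (i : T) (j : ℕ) :
    ∫ M, ‖rh S u M (j + 1) i‖ ^ 2 ∂ν = (dm E)⁻¹ *
      (∫ M, tr (qq S u M j) * ‖rh S u M j i‖ ^ 2 ∂ν + ∫ M, ‖sv S u M j i‖ ^ 2 ∂ν) := by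
  borelize E
  have hD : (0 : ℝ) ≤ dm E := Nat.cast_nonneg _
  obtain ⟨-, -, hm1, -, hm2, hm3, -⟩ := hMEB ι E T S u j i
  obtain ⟨-, -, hm1', -⟩ := hMEB ι E T S u (j + 1) i
  obtain ⟨-, -, -, hb1, hb2, -⟩ := pb_base hPIN hSTP hg hu i j
  obtain ⟨-, -, -, hb1', -⟩ := pb_base hPIN hSTP hg hu i (j + 1)
  have i1 : Integrable (fun M => tr (qq S u M j) * ‖rh S u M j i‖ ^ 2) ν :=
    ((pb_tr hSTP hg hu i j).mul (hb1.pow 2)).integrable hPIN hg (hm2.mul (hm1.norm.pow_const 2))
  have i2 : Integrable (fun M => ‖sv S u M j i‖ ^ 2) ν :=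
    (hb2.pow 2).integrable hPIN hg (hm3.norm.pow_const 2)
  rw [← integral_add i1 i2, ← integral_const_mul]
  refine rpi_eq hRPI hg u j (hm1'.norm.pow_const 2)
    ((hb1'.pow 2).integrable hPIN hg (hm1'.norm.pow_const 2)) ?_
  intro M hM
  obtain ⟨-, h2, h3, -, h5, -, -, -, -, -, -, h12, -⟩ := hSTP ι E T S u M hM hu j i
  obtain ⟨-, -, -, -, -, k6, k7, k8, -, -, -, k12⟩ := hSTK ι E T S u hu j i
  have e0 : expl S u M j (rh S u M j i) = 0 := by
    rw [rh, map_smul, h5, smul_zero]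
  have e1 : ∫ G, ‖rh S u (res (expl S u M j) M G) (j + 1) i‖ ^ 2 ∂ν =
      ∫ G, (dm E)⁻¹ * ‖qq S u M j (G i (rh S u M j i)) + sv S u M j i‖ ^ 2 ∂ν := by
    refine integral_congr_ae (hg.herm.mono fun G hG => ?_)
    have hM' : HermF S (res (expl S u M j) M G) := (hKNO ι E T S u M G j hM hG).1
    obtain ⟨s1, -⟩ := hSTP ι E T S u _ hM' hu j i
    have q6 : rh S u (res (expl S u M j) M G) j i = rh S u M j i := k6 M G hM hG
    have q7 : qq S u (res (expl S u M j) M G) j = qq S u M j := k7 M G hM hG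
    have q8 : sv S u (res (expl S u M j) M G) j i = sv S u M j i := k8 M G hM hG
    show ‖rh S u (res (expl S u M j) M G) (j + 1) i‖ ^ 2 = _
    rw [s1, q6, q7, q8, (k12 M G hM hG _ e0).1, norm_smul, mul_pow, norm_inv,
      Real.norm_of_nonneg (Real.sqrt_nonneg _), inv_pow, Real.sq_sqrt hD]
  rw [e1, integral_const_mul]
  obtain ⟨-, -, -, g4, -⟩ := hGI1 ι E T S c ν hg hc (qq S u M j) h12 i i (rh S u M j i)
    (rh S u M j i) h3 h3
  rw [g4]

end RE1M

open RE1M EAUXM in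
/-- **RE1.** -/
theorem specRE1 (hRPI : SpecRPI) (hSTP : SpecSTP) (hSTK : SpecSTK) (hGI1 : SpecGI1)
    (hRHO : SpecRHO) (hPIN : SpecPIN) (hMEB : SpecMEB) (hKNO : SpecKNO) (hMEA : SpecMEA) :
    SpecRE1 := by
  intro ι _ _ T _
  obtain ⟨Cr, hCr, hR⟩ := hRHO ι
  set b : ℝ := Fintype.card ι * Fintype.card T with hb
  have hb0 : 0 ≤ b := by positivity
  set K : ℝ := 2 * Fintype.card ι + 8 with hK
  have hK1 : 1 ≤ K := by
    have : (0 : ℝ) ≤ Fintype.card ι := Nat.cast_nonneg _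
    rw [hK]; linarith
  refine ⟨1 + Cr + b + K, by positivity, ?_⟩
  intro E _ _ _ S u c ν hg hc hu i k hk
  borelize E
  have := hg.gauss
  have hk1 : (1 : ℝ) ≤ (k : ℝ) + 1 := by
    have : (0 : ℝ) ≤ k := Nat.cast_nonneg _
    linarith
  have hk2 : (k : ℝ) + 1 ≤ (k + 1) ^ 2 := by nlinarith
  have hkD : ((k : ℝ) + 1) ^ 2 ≤ dm E := by
    refine le_trans ?_ hk
    nlinarith [sq_nonneg ((k : ℝ) + 1)]
  have hD : 0 < dm E := by nlinarith
  have hRk : ∀ j ≤ k, Cr * ((j : ℝ) + 1) ≤ dm E := by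
    intro j hj
    have h1 : (j : ℝ) ≤ k := Nat.cast_le.2 hj
    have h2 : Cr * ((j : ℝ) + 1) ≤ Cr * ((k : ℝ) + 1) ^ 2 := by
      refine mul_le_mul_of_nonneg_left ?_ hCr.le
      linarith
    nlinarith [sq_nonneg ((k : ℝ) + 1)]
  -- integrability
  have hmr : ∀ j, Measurable fun M : T → E →L[ℝ] E => ‖rh S u M j i‖ ^ 2 := fun j =>
    ((hMEB ι E T S u j i).2.2.1).norm.pow_const 2
  have hmrho : ∀ j, Measurable fun M : T → E →L[ℝ] E => rho (M i) u j := fun j =>
    (hMEA ι E T S u j).2.2.2.2.1 i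
  have ir : ∀ j, Integrable (fun M => ‖rh S u M j i‖ ^ 2) ν := fun j =>
    ((pb_base hPIN hSTP hg hu i j).2.2.2.1.pow 2).integrable hPIN hg (hmr j)
  have pr : ∀ j, PB ν (fun M => rho (M i) u j) := fun j => (pb_base hPIN hSTP hg hu i j).2.2.1
  have irho : ∀ j, Integrable (fun M => rho (M i) u j ^ 2) ν := fun j =>
    ((pr j).pow 2).integrable hPIN hg ((hmrho j).pow_const 2)
  -- upper bound
  have hx1 : ∀ j ≤ k, ∫ M, ‖rh S u M j i‖ ^ 2 ∂ν ≤ 1 := by
    intro j hj
    obtain ⟨-, -, -, -, r5, -⟩ := hR E T S u c ν hg hc hu i j (hRk j hj)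
    refine le_trans (integral_mono_ae (ir j) (irho j) ?_) r5
    filter_upwards [hg.herm] with M hM
    obtain ⟨-, -, -, -, -, -, -, -, h9, h10, -⟩ := hSTP ι E T S u M hM hu j i
    exact pow_le_pow_left₀ (norm_nonneg _) h10 2
  -- one step
  have hst : ∀ j, (dm E - b * (j + 1)) * ∫ M, ‖rh S u M j i‖ ^ 2 ∂ν +
      ∫ M, ‖sv S u M j i‖ ^ 2 ∂ν ≤ dm E * ∫ M, ‖rh S u M (j + 1) i‖ ^ 2 ∂ν := by
    intro j
    rw [step hRPI hSTP hSTK hGI1 hPIN hMEB hKNO hg hc hu i j, ← mul_assoc,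
      mul_inv_cancel₀ hD.ne', one_mul]
    refine add_le_add ?_ le_rfl
    rw [← integral_const_mul]
    refine integral_mono_ae ((ir j).const_mul _) ?_ ?_
    · exact ((pb_tr hSTP hg hu i j).mul
        ((pb_base hPIN hSTP hg hu i j).2.2.2.1.pow 2)).integrable hPIN hg
        (((hMEB ι E T S u j i).2.2.2.2.1).mul (hmr j))
    · filter_upwards [hg.herm] with M hM
      obtain ⟨-, -, -, -, -, -, -, -, -, -, -, -, h13, -⟩ := hSTP ι E T S u M hM hu j i
      exact mul_le_mul_of_nonneg_right h13 (sq_nonneg _)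
  have hx0 : ∫ M, ‖rh S u M 0 i‖ ^ 2 ∂ν = 1 := by
    have : (fun M : T → E →L[ℝ] E => ‖rh S u M 0 i‖ ^ 2) = fun _ => (1 : ℝ) := by
      funext M
      rw [rh_zero, hu, one_pow]
    rw [this]
    simp
  have hind : ∀ m ≤ k, dm E - b * m ^ 2 + ∑ j ∈ Finset.range m, ∫ M, ‖sv S u M j i‖ ^ 2 ∂ν ≤
      dm E * ∫ M, ‖rh S u M m i‖ ^ 2 ∂ν := by
    intro m
    induction m with
    | zero =>
      intro _
      rw [hx0]
      simp
    | succ m ih =>
      intro hm
      have h1 := ih (by omega)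
      have h2 := hst m
      have h3 := hx1 m (by omega)
      have h4 : 0 ≤ ∫ M, ‖rh S u M m i‖ ^ 2 ∂ν := integral_nonneg fun _ => sq_nonneg _
      have h5 : b * (m + 1) * ∫ M, ‖rh S u M m i‖ ^ 2 ∂ν ≤ b * (m + 1) := by
        have : 0 ≤ b * ((m : ℝ) + 1) := by positivity
        exact mul_le_of_le_one_right this h3
      have h6 : b * ((m : ℝ) + 1) ≤ b * ((m : ℝ) + 1) ^ 2 - b * (m : ℝ) ^ 2 := by
        have : (0 : ℝ) ≤ b * m := by positivity
        nlinarith
      rw [Finset.sum_range_succ]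
      push_cast
      rw [sub_mul] at h2
      linarith
  have hfin := hind k le_rfl
  have hs0 : 0 ≤ ∑ j ∈ Finset.range k, ∫ M, ‖sv S u M j i‖ ^ 2 ∂ν :=
    Finset.sum_nonneg fun j _ => integral_nonneg fun _ => sq_nonneg _
  have hbk : b * (k : ℝ) ^ 2 ≤ (1 + Cr + b + K) * (k + 1) ^ 2 := by
    have h1 : (k : ℝ) ^ 2 ≤ (k + 1) ^ 2 := by
      have : (0 : ℝ) ≤ k := Nat.cast_nonneg _
      nlinarith
    have h2 : b ≤ 1 + Cr + b + K := by linarith
    exact mul_le_mul h2 h1 (sq_nonneg _) (by positivity)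
  have hx := hx1 k le_rfl
  have hlow : 1 - b * (k : ℝ) ^ 2 / dm E ≤ ∫ M, ‖rh S u M k i‖ ^ 2 ∂ν := by
    rw [sub_le_iff_le_add, ← sub_le_iff_le_add', le_div_iff₀ hD]
    nlinarith
  refine ⟨?_, ?_, ?_⟩
  · refine le_trans ?_ hlow
    have := div_le_div_of_nonneg_right hbk hD.le
    linarith
  · have h1 : dm E * ∫ M, ‖rh S u M k i‖ ^ 2 ∂ν ≤ dm E := by nlinarith
    linarith
  · -- the last estimate
    obtain ⟨-, -, -, -, r5, -, r7⟩ := hR E T S u c ν hg hc hu i k (hRk k le_rfl)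
    have p1 : PB ν (fun M => 1 - rho (M i) u k ^ 2) := (PB.const 1).sub ((pr k).pow 2)
    have m1 : Measurable fun M : T → E →L[ℝ] E => 1 - rho (M i) u k ^ 2 :=
      measurable_const.sub ((hmrho k).pow_const 2)
    have j1 : Integrable (fun M => 1 - rho (M i) u k ^ 2) ν := p1.integrable hPIN hg m1
    have j2 : Integrable (fun M => (1 - rho (M i) u k ^ 2) ^ 2) ν :=
      (p1.pow 2).integrable hPIN hg (m1.pow_const 2)
    have h1 := integral_le_sqrt ν (fun M => 1 - rho (M i) u k ^ 2) j1 j2 r7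
    have j3 : Integrable (fun M => |1 - rho (M i) u k ^ 2| +
        (rho (M i) u k ^ 2 - ‖rh S u M k i‖ ^ 2)) ν := j1.abs.add ((irho k).sub (ir k))
    have h2 : ∫ M, ‖expl S u M k (qv (M i) u k)‖ ^ 2 ∂ν ≤
        ∫ M, (|1 - rho (M i) u k ^ 2| + (rho (M i) u k ^ 2 - ‖rh S u M k i‖ ^ 2)) ∂ν := by
      refine integral_mono_of_nonneg (Eventually.of_forall fun _ => sq_nonneg _) j3 ?_
      filter_upwards [hg.herm] with M hM
      obtain ⟨-, -, -, -, -, -, h7, h8, h9, -, h11, -⟩ := hSTP ι E T S u M hM hu k i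
      have e1 : ‖rh S u M k i‖ ^ 2 = rho (M i) u k ^ 2 * ‖rr S u M k i‖ ^ 2 := by
        rw [rh, norm_smul, mul_pow, Real.norm_eq_abs, sq_abs]
      have e2 : ‖qv (M i) u k‖ ^ 2 ≤ 1 := by
        have := norm_nonneg (qv (M i) u k)
        nlinarith
      have e3 : ‖rr S u M k i‖ ^ 2 ≤ 1 := by
        have := norm_nonneg (rr S u M k i)
        nlinarith
      have e4 : (1 - rho (M i) u k ^ 2) * (1 - ‖rr S u M k i‖ ^ 2) ≤ |1 - rho (M i) u k ^ 2| := by
        calc (1 - rho (M i) u k ^ 2) * (1 - ‖rr S u M k i‖ ^ 2) ≤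
            |1 - rho (M i) u k ^ 2| * (1 - ‖rr S u M k i‖ ^ 2) :=
              mul_le_mul_of_nonneg_right (le_abs_self _) (by linarith)
          _ ≤ |1 - rho (M i) u k ^ 2| := by
              have := sq_nonneg ‖rr S u M k i‖
              exact mul_le_of_le_one_right (abs_nonneg _) (by linarith)
      show ‖expl S u M k (qv (M i) u k)‖ ^ 2 ≤ |1 - rho (M i) u k ^ 2| +
        (rho (M i) u k ^ 2 - ‖rh S u M k i‖ ^ 2)
      rw [e1]
      nlinarith
    have h3 : ∫ M, (|1 - rho (M i) u k ^ 2| + (rho (M i) u k ^ 2 - ‖rh S u M k i‖ ^ 2)) ∂ν =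
        ∫ M, |1 - rho (M i) u k ^ 2| ∂ν +
          (∫ M, rho (M i) u k ^ 2 ∂ν - ∫ M, ‖rh S u M k i‖ ^ 2 ∂ν) := by
      have j4 : Integrable (fun M => rho (M i) u k ^ 2 - ‖rh S u M k i‖ ^ 2) ν :=
        (irho k).sub (ir k)
      rw [integral_add j1.abs j4, integral_sub (irho k) (ir k)]
    have hsD : 0 < Real.sqrt (dm E) := Real.sqrt_pos.2 hD
    have hks : (k : ℝ) + 1 ≤ Real.sqrt (dm E) := Real.le_sqrt_of_sq_le hkD
    have h4 : Real.sqrt (K * (k : ℝ) ^ 2 / dm E) ≤ K * k / Real.sqrt (dm E) := by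
      rw [Real.sqrt_div (by positivity), Real.sqrt_mul (by positivity),
        Real.sqrt_sq (Nat.cast_nonneg _)]
      refine div_le_div_of_nonneg_right ?_ hsD.le
      refine mul_le_mul_of_nonneg_right ?_ (Nat.cast_nonneg _)
      rw [Real.sqrt_le_left (by linarith)]
      nlinarith
    have h5 : b * (k : ℝ) ^ 2 / dm E ≤ b * k / Real.sqrt (dm E) := by
      rw [div_le_div_iff₀ hD hsD]
      have e1 : Real.sqrt (dm E) * Real.sqrt (dm E) = dm E := Real.mul_self_sqrt hD.le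
      have e2 : (k : ℝ) * Real.sqrt (dm E) ≤ dm E := by
        nlinarith
      have e3 : (0 : ℝ) ≤ b * k := by positivity
      calc b * (k : ℝ) ^ 2 * Real.sqrt (dm E) = b * k * (k * Real.sqrt (dm E)) := by ring
        _ ≤ b * k * dm E := mul_le_mul_of_nonneg_left e2 e3
    have h6 : ∫ M, ‖expl S u M k (qv (M i) u k)‖ ^ 2 ∂ν ≤
        K * k / Real.sqrt (dm E) + b * k / Real.sqrt (dm E) := by
      linarith
    refine h6.trans ?_
    rw [← add_div]
    refine div_le_div_of_nonneg_right ?_ hsD.le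
    have hk0 : (0 : ℝ) ≤ k := Nat.cast_nonneg _
    have e1 : K * (k : ℝ) + b * k = (b + K) * k := by ring
    rw [e1]
    refine mul_le_mul (by linarith) (by linarith) hk0 (by positivity)

end Pool.Agent.Lib.MP17fa2c
end

section
/-! # Module RSB: residual of the off-diagonal entry. -/
set_option autoImplicit false

open MeasureTheory ProbabilityTheory Filter Topology
open scoped RealInnerProductSpace NNReal ENNReal

namespace Pool.Agent.Lib.MP17fa2c

namespace RSBM

open EAUXM MEAM RSAM RE1M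

variable {ι : Type} [Fintype ι] [DecidableEq ι] {E : Type} [NormedAddCommGroup E]
  [InnerProductSpace ℝ E] [FiniteDimensional ℝ E] {T : Type} [Fintype T]
  {S : BStr ι E} {c : T → T → ℝ} {ν : Measure (T → E →L[ℝ] E)}

omit [FiniteDimensional ℝ E] in
/-- growth of `‖Q (G i r)‖` -/
theorem pb_Q (Q : E →L[ℝ] E) (i : T) (r : E) :
    PB ν (fun G : T → E →L[ℝ] E => ‖Q (G i r)‖) := by
  refine PB.mono (((PB.const ‖Q‖).mul (PB.nrm i)).mul (PB.const ‖r‖))
    (Eventually.of_forall fun G => ?_)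
  rw [abs_of_nonneg (norm_nonneg _)]
  refine le_trans ?_ (le_abs_self _)
  rw [mul_assoc]
  exact (Q.le_opNorm _).trans (mul_le_mul_of_nonneg_left ((G i).le_opNorm r) (norm_nonneg _))

omit [FiniteDimensional ℝ E] [Fintype T] in
theorem meas_Q [MeasurableSpace E] [BorelSpace E] (Q : E →L[ℝ] E) (i : T) (r : E) :
    Measurable fun G : T → E →L[ℝ] E => Q (G i r) :=
  Q.measurable.comp ((ContinuousLinearMap.measurable_apply r).comp (measurable_pi_apply i))

/-- odd functions of `Q (G i r)` have mean zero -/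
theorem odd_zero (hISO : SpecISO) (hg : GFam S c ν) (hc : Cor c) (Q : E →L[ℝ] E)
    (hQ : IsPr S Q) (i : T) (r : E) (hr : Q r = 0) [MeasurableSpace E] [BorelSpace E]
    (g : E → ℝ) (hgm : Measurable g) (hodd : ∀ x, g (-x) = -g x) :
    ∫ G, g (Q (G i r)) ∂ν = 0 := by
  classical
  obtain ⟨-, hlaw⟩ := hISO ι E T S c ν hg hc.symm Q (fun l => if l = i then r else 0) hQ
    (fun l => by
      by_cases h : l = i
      · simp [h, hr]
      · simp [h])
  have e1 : (fun G : T → E →L[ℝ] E => ∑ l, Q (G l (if l = i then r else 0))) =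
      fun G => Q (G i r) := by
    funext G
    rw [Finset.sum_eq_single i]
    · simp
    · intro l _ hl
      simp [hl]
    · intro h
      exact absurd (Finset.mem_univ i) h
  rw [e1] at hlaw
  set σ : ℝ := Real.sqrt (∑ i_1, ∑ l, c i_1 l *
    ⟪(if i_1 = i then r else 0 : E), (if l = i then r else 0 : E)⟫) with hσ
  have hQx : Measurable (fun x : E => σ • Q x) := Q.measurable.const_smul _
  have h1 : ∫ G, g (Q (G i r)) ∂ν = ∫ x, g (σ • Q x) ∂(stdGaussian E) := by
    rw [← integral_map (meas_Q Q i r).aemeasurable hgm.aestronglyMeasurable, hlaw,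
      integral_map hQx.aemeasurable hgm.aestronglyMeasurable]
  have h2 : (stdGaussian E).map (LinearIsometryEquiv.neg ℝ : E ≃ₗᵢ[ℝ] E) = stdGaussian E :=
    stdGaussian_map _
  have h3 : ∫ x, g (σ • Q x) ∂(stdGaussian E) = -∫ x, g (σ • Q x) ∂(stdGaussian E) := by
    have hm' : Measurable (fun x : E => g (σ • Q x)) := hgm.comp hQx
    conv_lhs => rw [← h2]
    rw [integral_map (LinearIsometryEquiv.neg ℝ : E ≃ₗᵢ[ℝ] E).continuous.measurable.aemeasurable
      hm'.aestronglyMeasurable, ← integral_neg]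
    refine integral_congr_ae (Eventually.of_forall fun x => ?_)
    show g (σ • Q (-x)) = -g (σ • Q x)
    rw [map_neg, smul_neg, hodd]
  rw [h1]
  linarith

/-- the second moment of `‖Q (G i r)‖² - tr Q ‖r‖²` -/
theorem second_mom (hQUA : SpecQUA) (hg : GFam S c ν) (hc : Cor c) (Q : E →L[ℝ] E)
    (hQ : IsPr S Q) (i : T) (r : E) (hr : Q r = 0) (hr1 : ‖r‖ ≤ 1) :
    ∫ G, (‖Q (G i r)‖ ^ 2 - tr Q * ‖r‖ ^ 2) ∂ν = 0 ∧
    ∫ G, (‖Q (G i r)‖ ^ 2 - tr Q * ‖r‖ ^ 2) ^ 2 ∂ν = 2 * tr Q * ‖r‖ ^ 4 := by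
  classical
  obtain ⟨C, -, h⟩ := hQUA ι T
  have hself : ∀ a, ⟪r, S.J a r⟫ = if a = S.o then ‖r‖ ^ 2 else 0 := by
    intro a
    split_ifs with ha
    · rw [ha, S.J_o, real_inner_self_eq_norm_sq]
    · have h1 := S.skew a ha r r
      rw [real_inner_comm] at h1
      linarith
  obtain ⟨h1, h2, -⟩ := h E S c ν hg hc.symm hc.one hc.le Q (fun l => if l = i then r else 0)
    (fun l => if l = i then 1 else 0) 1 (tr Q * ‖r‖ ^ 4) hQ
    (fun l => by
      by_cases h : l = i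
      · simp [h, hr]
      · simp [h])
    (fun l => by
      by_cases h : l = i
      · simp [h, hr1]
      · simp [h])
    (fun l => by
      by_cases h : l = i
      · simp [h]
      · simp [h])
    (by
      congr 1
      rw [Finset.sum_eq_single i, Finset.sum_eq_single i]
      · simp only [if_true, hc.one, one_pow, one_mul]
        rw [Finset.sum_eq_single S.o]
        · rw [hself, if_pos rfl]
          ring
        · intro a _ ha
          rw [hself, if_neg ha]
          ring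
        · intro h
          exact absurd (Finset.mem_univ _) h
      · intro l _ hl
        simp [hl]
      · intro h
        exact absurd (Finset.mem_univ _) h
      · intro l _ hl
        simp [hl]
      · intro h
        exact absurd (Finset.mem_univ _) h)
  have e1 : ∀ G : T → E →L[ℝ] E, ∑ l, (if l = i then (1 : ℝ) else 0) *
      (‖Q (G l (if l = i then r else 0))‖ ^ 2 - tr Q * ‖(if l = i then r else 0 : E)‖ ^ 2) =
      ‖Q (G i r)‖ ^ 2 - tr Q * ‖r‖ ^ 2 := by
    intro G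
    rw [Finset.sum_eq_single i]
    · simp
    · intro l _ hl
      simp [hl]
    · intro h
      exact absurd (Finset.mem_univ _) h
  simp only [e1] at h1 h2
  refine ⟨h1, ?_⟩
  rw [h2]
  ring

/-- the product with `‖Q (G i r) + s‖²` -/
theorem prod_mom (hQUA : SpecQUA) (hISO : SpecISO) (hPIN : SpecPIN) (hg : GFam S c ν)
    (hc : Cor c) (Q : E →L[ℝ] E)
    (hQ : IsPr S Q) (i : T) (r s : E) (hr : Q r = 0) (hr1 : ‖r‖ ≤ 1) :
    ∫ G, (‖Q (G i r)‖ ^ 2 - tr Q * ‖r‖ ^ 2) * ‖Q (G i r) + s‖ ^ 2 ∂ν = 2 * tr Q * ‖r‖ ^ 4 := by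
  borelize E
  have hsc := sc (E := E)
  obtain ⟨m1, m2⟩ := second_mom hQUA hg hc Q hQ i r hr hr1
  have hmQ := meas_Q (T := T) Q i r
  have hmA : Measurable fun G : T → E →L[ℝ] E => ‖Q (G i r)‖ ^ 2 - tr Q * ‖r‖ ^ 2 :=
    (hmQ.norm.pow_const 2).sub_const _
  have pA : PB ν (fun G : T → E →L[ℝ] E => ‖Q (G i r)‖ ^ 2 - tr Q * ‖r‖ ^ 2) :=
    ((pb_Q Q i r).pow 2).sub (PB.const _)
  have hmI : Measurable fun G : T → E →L[ℝ] E => ⟪Q (G i r), s⟫ := hmQ.inner measurable_const
  have pI : PB ν (fun G : T → E →L[ℝ] E => ⟪Q (G i r), s⟫) := by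
    refine PB.mono ((pb_Q Q i r).mul (PB.const ‖s‖)) (Eventually.of_forall fun G => ?_)
    exact (abs_real_inner_le_norm _ _).trans (le_abs_self _)
  have j1 : Integrable (fun G : T → E →L[ℝ] E =>
      (‖Q (G i r)‖ ^ 2 - tr Q * ‖r‖ ^ 2) ^ 2) ν :=
    (pA.pow 2).integrable hPIN hg (hmA.pow_const 2)
  have j2 : Integrable (fun G : T → E →L[ℝ] E => (tr Q * ‖r‖ ^ 2 + ‖s‖ ^ 2) *
      (‖Q (G i r)‖ ^ 2 - tr Q * ‖r‖ ^ 2)) ν :=
    ((PB.const _).mul pA).integrable hPIN hg (hmA.const_mul _)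
  have j3 : Integrable (fun G : T → E →L[ℝ] E => 2 * ((‖Q (G i r)‖ ^ 2 - tr Q * ‖r‖ ^ 2) *
      ⟪Q (G i r), s⟫)) ν :=
    ((PB.const 2).mul (pA.mul pI)).integrable hPIN hg ((hmA.mul hmI).const_mul _)
  have e1 : (fun G : T → E →L[ℝ] E =>
      (‖Q (G i r)‖ ^ 2 - tr Q * ‖r‖ ^ 2) * ‖Q (G i r) + s‖ ^ 2) = fun G =>
      (‖Q (G i r)‖ ^ 2 - tr Q * ‖r‖ ^ 2) ^ 2 + (tr Q * ‖r‖ ^ 2 + ‖s‖ ^ 2) *
      (‖Q (G i r)‖ ^ 2 - tr Q * ‖r‖ ^ 2) + 2 * ((‖Q (G i r)‖ ^ 2 - tr Q * ‖r‖ ^ 2) *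
      ⟪Q (G i r), s⟫) := by
    funext G
    rw [norm_add_sq_real]
    ring
  have j12 : Integrable (fun G : T → E →L[ℝ] E =>
      (‖Q (G i r)‖ ^ 2 - tr Q * ‖r‖ ^ 2) ^ 2 + (tr Q * ‖r‖ ^ 2 + ‖s‖ ^ 2) *
      (‖Q (G i r)‖ ^ 2 - tr Q * ‖r‖ ^ 2)) ν := j1.add j2
  have h3 : ∫ G, (‖Q (G i r)‖ ^ 2 - tr Q * ‖r‖ ^ 2) * ⟪Q (G i r), s⟫ ∂ν = 0 := by
    refine odd_zero hISO hg hc Q hQ i r hr
      (fun z => (‖z‖ ^ 2 - tr Q * ‖r‖ ^ 2) * ⟪z, s⟫) ?_ ?_
    · exact ((measurable_norm.pow_const 2).sub_const _).mul (measurable_id.inner measurable_const)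
    · intro x
      simp only [norm_neg, inner_neg_left]
      ring
  rw [e1, integral_add j12 j3, integral_add j1 j2, integral_const_mul, integral_const_mul,
    m1, m2, h3]
  ring

/-- the part of `b²` in the explored space -/
theorem bsq (hLOR : SpecLOR) (hEXP : SpecEXP) (hJON : SpecJON) (hSTP : SpecSTP) {u : E}
    (hu : ‖u‖ = 1) (i : T) (k : ℕ) {M : T → E →L[ℝ] E} (hM : HermF S M) :
    bv (M i) u k ^ 2 - ‖qq S u M k (M i (qv (M i) u k))‖ ^ 2 =
      ‖cp (qq S u M k) (wv (M i) u k)‖ ^ 2 := by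
  obtain ⟨-, -, -, h4, -, -, -, -, -, -, -, h12, -⟩ := hSTP ι E T S u M hM hu k i
  obtain ⟨-, -, -, -, j5, -⟩ := hJON ι E S
  obtain ⟨-, -, -, -, l5, -⟩ := hLOR E (M i) u (hM i).1 hu
  obtain ⟨-, -, x3, -⟩ := hEXP ι E T S u M (k + 1)
  have h0 : qq S u M k ((lan (M i) u k).1) = 0 := by
    cases k with
    | zero =>
      have : (lan (M i) u 0).1 = 0 := rfl
      rw [this, map_zero]
    | succ k =>
      rw [l5 k, map_smul]
      have : qq S u M (k + 1) (qv (M i) u k) = 0 := by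
        show qv (M i) u k - expl S u M (k + 1 + 1) (qv (M i) u k) = 0
        rw [x3 k (by omega) i, sub_self]
      rw [this, smul_zero]
  have h1 : qq S u M k (wv (M i) u k) = qq S u M k (M i (qv (M i) u k)) := by
    rw [wv, map_sub, map_sub, map_smul, h4, h0, smul_zero, sub_zero, sub_zero]
  have h2 := j5 (qq S u M k) h12 (wv (M i) u k)
  rw [h1] at h2
  rw [bv]
  linarith

/-- the explored part of `w_k` as a function of the block `B` -/
noncomputable def Psi (S : BStr ι E) (u : E) (M : T → E →L[ℝ] E) (k : ℕ) (i : T)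
    (B : E →L[ℝ] E) : E :=
  cp (qq S u M k) (expl S u M k (M i (rr S u M k i)) + M i (expl S u M k (qv (M i) u k))) +
    cp (expl S u M k) (B (rr S u M k i)) -
    (⟪rr S u M k i, B (rr S u M k i)⟫ +
      (av (M i) u k - ⟪rr S u M k i, M i (rr S u M k i)⟫)) •
      cp (qq S u M k) (qv (M i) u k) - cp (qq S u M k) ((lan (M i) u k).1)

theorem meas_Psi [MeasurableSpace E] [BorelSpace E] (S : BStr ι E) (u : E)
    (M : T → E →L[ℝ] E) (k : ℕ) (i : T) : Measurable (Psi S u M k i) := by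
  have hsc := sc (E := E)
  have hscL := scL (E := E)
  have h1 : Continuous fun B : E →L[ℝ] E => B (rr S u M k i) := by fun_prop
  have h2 : Continuous (Psi S u M k i) := by
    unfold Psi
    refine Continuous.sub (Continuous.sub (Continuous.add continuous_const
      ((cp (expl S u M k)).continuous.comp h1)) ?_) continuous_const
    exact ((continuous_const.inner h1).add continuous_const).smul continuous_const
  exact h2.measurable

theorem wres (hSTP : SpecSTP) (hSTK : SpecSTK) (hKNO : SpecKNO) (hEXP : SpecEXP)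
    (hJON : SpecJON) {u : E} (hu : ‖u‖ = 1) (i : T) (k : ℕ) {M G : T → E →L[ℝ] E}
    (hM : HermF S M) (hG : HermF S G) :
    cp (qq S u M k) (wv (res (expl S u M k) M G i) u k) =
      Psi S u M k i (cp (qq S u M k) ∘L G i ∘L cp (qq S u M k)) := by
  obtain ⟨-, h2, -, -, h5, -, -, -, -, -, -, h12, -⟩ := hSTP ι E T S u M hM hu k i
  obtain ⟨k1, -, -, -, -, -, -, -, -, -, -, k12⟩ := hSTK ι E T S u hu k i
  have q1 : qv (res (expl S u M k) M G i) u k = qv (M i) u k := k1 M G hM hG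
  obtain ⟨-, l2, l3, l4⟩ := k12 M G hM hG _ h5
  obtain ⟨y1, y2⟩ := eta_kn hSTP hSTK hKNO hu i k hM hG
  obtain ⟨-, -, n3, -⟩ := hKNO ι E T S u M G k hM hG
  obtain ⟨-, -, j3, -⟩ := hJON ι E S
  have hcq := j3 _ h12
  obtain ⟨-, x2, -, -⟩ := hEXP ι E T S u M (k + 1)
  have hcr : cp (qq S u M k) (rr S u M k i) = rr S u M k i := by
    show rr S u M k i - qq S u M k (rr S u M k i) = _
    rw [h2, sub_zero]
  have hcqq : ∀ x, cp (qq S u M k) x = expl S u M (k + 1) x := by
    intro x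
    show x - (x - expl S u M (k + 1) x) = _
    abel
  have e1 : res (expl S u M k) M G i (qv (M i) u k) =
      (expl S u M k (M i (rr S u M k i)) + M i (expl S u M k (qv (M i) u k))) +
        cp (expl S u M k) (G i (rr S u M k i)) := by
    conv_lhs => rw [← rr_add S u M k i]
    rw [map_add, l3, l4]
    abel
  have e2 : av (res (expl S u M k) M G i) u k = ⟪rr S u M k i, G i (rr S u M k i)⟫ +
      (av (M i) u k - ⟪rr S u M k i, M i (rr S u M k i)⟫) := by linarith
  have e3 : ⟪rr S u M k i, G i (rr S u M k i)⟫ =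
      ⟪rr S u M k i, cp (qq S u M k) (G i (cp (qq S u M k) (rr S u M k i)))⟫ := by
    rw [← hcq.1.1, hcr]
  have e4 : cp (qq S u M k) (cp (expl S u M k) (G i (rr S u M k i))) =
      cp (expl S u M k) (cp (qq S u M k) (G i (cp (qq S u M k) (rr S u M k i)))) := by
    rw [hcr, hcqq, hcqq]
    show expl S u M (k + 1) (G i (rr S u M k i) - expl S u M k (G i (rr S u M k i))) =
      expl S u M (k + 1) (G i (rr S u M k i)) -
        expl S u M k (expl S u M (k + 1) (G i (rr S u M k i)))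
    rw [map_sub, (x2 k (by omega) _).1, (x2 k (by omega) _).2]
  have e5 : (lan (res (expl S u M k) M G i) u k).1 = (lan (M i) u k).1 := by
    rw [n3 k le_rfl i]
  rw [wv, q1, e5, e2, e1, map_sub, map_sub, map_add, map_smul, e4, e3]
  rfl

end RSBM

open RSBM RSAM RE1M EAUXM MEAM in
/-- **RSB.** -/
theorem specRSB (hRPI : SpecRPI) (hRHO : SpecRHO) (hRE1 : SpecRE1) (hSTP : SpecSTP)
    (hSTK : SpecSTK) (hIND : SpecIND) (hISO : SpecISO) (hQUA : SpecQUA) (hPIN : SpecPIN)
    (hMEB : SpecMEB) (hMEA : SpecMEA) (hKNO : SpecKNO) (hEXP : SpecEXP) (hJON : SpecJON)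
    (hLOR : SpecLOR) : SpecRSB := by
  intro ι _ _ T _
  obtain ⟨Cr, hCr, hR⟩ := hRHO ι
  obtain ⟨C1, hC1, hE⟩ := hRE1 ι T
  set b : ℝ := Fintype.card ι * Fintype.card T with hb
  have hb0 : 0 ≤ b := by positivity
  refine ⟨1 + Cr + 4 * C1 + 2 * b, by positivity, ?_⟩
  intro E _ _ _ S u c ν hg hc hu i k hk
  borelize E
  have hsc := sc (E := E)
  have hscL := scL (E := E)
  have := hg.gauss
  have hk1 : (1 : ℝ) ≤ (k : ℝ) + 1 := by
    have : (0 : ℝ) ≤ k := Nat.cast_nonneg _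
    linarith
  have hk2 : (k : ℝ) + 1 ≤ (k + 1) ^ 2 := by nlinarith
  have hkD : ((k : ℝ) + 1) ^ 2 ≤ dm E := by
    refine le_trans ?_ hk
    nlinarith [sq_nonneg ((k : ℝ) + 1)]
  have hD : 0 < dm E := by nlinarith
  have hRk : Cr * ((k : ℝ) + 1) ≤ dm E := by
    have h2 : Cr * ((k : ℝ) + 1) ≤ Cr * ((k : ℝ) + 1) ^ 2 := mul_le_mul_of_nonneg_left hk2 hCr.le
    nlinarith [sq_nonneg ((k : ℝ) + 1)]
  have hEk : C1 * ((k : ℝ) + 1) ^ 2 ≤ dm E := by
    nlinarith [sq_nonneg ((k : ℝ) + 1)]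
  have hsD : 0 < Real.sqrt (dm E) := Real.sqrt_pos.2 hD
  have hsD1 : 1 ≤ Real.sqrt (dm E) := Real.le_sqrt_of_sq_le (by nlinarith)
  obtain ⟨rb, -, r3, r4, -⟩ := hR E T S u c ν hg hc hu i k hRk
  obtain ⟨-, -, e3⟩ := hE E S u c ν hg hc hu i k hEk
  obtain ⟨b1, b2, -, -, -, b6, b7⟩ := pb_base hPIN hSTP hg hu i k
  obtain ⟨mq, mr, -, mQ, mtr, -, -, -, mQr⟩ := hMEB ι E T S u k i
  have mb : Measurable fun M : T → E →L[ℝ] E => bv (M i) u k := (hMEA ι E T S u k).2.2.2.1 i
  have mMi : Measurable fun M : T → E →L[ℝ] E => M i := measurable_pi_apply i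
  have mQq : Measurable fun M : T → E →L[ℝ] E => qq S u M k (M i (qv (M i) u k)) :=
    meas_apply mQ (meas_apply mMi mq)
  have ptr := pb_tr (S := S) hSTP hg hu i k
  -- the three functions
  set A : (T → E →L[ℝ] E) → ℝ := fun M => ‖qq S u M k (M i (rr S u M k i))‖ ^ 2 -
    tr (qq S u M k) * ‖rr S u M k i‖ ^ 2 with hA
  set Y : (T → E →L[ℝ] E) → ℝ := fun M => ‖qq S u M k (M i (qv (M i) u k))‖ ^ 2 with hY
  have mA : Measurable A := (mQr.norm.pow_const 2).sub (mtr.mul (mr.norm.pow_const 2))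
  have mY : Measurable Y := mQq.norm.pow_const 2
  have hQle : ∀ᵐ M ∂ν, ∀ x, ‖qq S u M k x‖ ≤ ‖x‖ := by
    filter_upwards [hg.herm] with M hM
    obtain ⟨-, -, -, -, -, -, -, -, -, -, -, h12, -⟩ := hSTP ι E T S u M hM hu k i
    exact (hJON ι E S).2.2.2.1 _ h12
  have pQr : PB ν (fun M => ‖qq S u M k (M i (rr S u M k i))‖) := by
    refine PB.mono ((PB.nrm i).mul b6) ?_
    filter_upwards [hQle] with M hM
    rw [abs_of_nonneg (norm_nonneg _)]
    exact ((hM _).trans ((M i).le_opNorm _)).trans (le_abs_self _)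
  have pQq : PB ν (fun M => ‖qq S u M k (M i (qv (M i) u k))‖) := by
    refine PB.mono ((PB.nrm i).mul b7) ?_
    filter_upwards [hQle] with M hM
    rw [abs_of_nonneg (norm_nonneg _)]
    exact ((hM _).trans ((M i).le_opNorm _)).trans (le_abs_self _)
  have pA : PB ν A := (pQr.pow 2).sub (ptr.mul (b6.pow 2))
  have pY : PB ν Y := pQq.pow 2
  have pB : PB ν (fun M => bv (M i) u k ^ 2) := b2.pow 2
  have mB : Measurable (fun M : T → E →L[ℝ] E => bv (M i) u k ^ 2) := mb.pow_const 2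
  set W : (T → E →L[ℝ] E) → ℝ := fun M => 2 * tr (qq S u M k) * ‖rr S u M k i‖ ^ 4 with hW
  have mW : Measurable W := (mtr.const_mul 2).mul (mr.norm.pow_const 4)
  have pW : PB ν W := ((PB.const 2).mul ptr).mul (b6.pow 4)
  -- resampled quantities
  have hres : ∀ M G : T → E →L[ℝ] E, HermF S M → HermF S G →
      A (res (expl S u M k) M G) = ‖qq S u M k (G i (rr S u M k i))‖ ^ 2 -
        tr (qq S u M k) * ‖rr S u M k i‖ ^ 2 ∧
      Y (res (expl S u M k) M G) = ‖qq S u M k (G i (rr S u M k i)) +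
        qq S u M k (M i (expl S u M k (qv (M i) u k)))‖ ^ 2 ∧
      bv (res (expl S u M k) M G i) u k ^ 2 - Y (res (expl S u M k) M G) =
        ‖Psi S u M k i (cp (qq S u M k) ∘L G i ∘L cp (qq S u M k))‖ ^ 2 := by
    intro M G hM hG
    obtain ⟨-, -, -, -, h5, -⟩ := hSTP ι E T S u M hM hu k i
    obtain ⟨k1, -, -, -, k5, -, k7, -, -, -, -, k12⟩ := hSTK ι E T S u hu k i
    have q1 : qv (res (expl S u M k) M G i) u k = qv (M i) u k := k1 M G hM hG
    have q5 : rr S u (res (expl S u M k) M G) k i = rr S u M k i := k5 M G hM hG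
    have q7 : qq S u (res (expl S u M k) M G) k = qq S u M k := k7 M G hM hG
    obtain ⟨l1, -, l3, -⟩ := k12 M G hM hG _ h5
    have hM' : HermF S (res (expl S u M k) M G) := (hKNO ι E T S u M G k hM hG).1
    refine ⟨?_, ?_, ?_⟩
    · simp only [hA]
      rw [q5, q7, l1]
    · simp only [hY]
      rw [q1, q7]
      conv_lhs => rw [← rr_add S u M k i]
      rw [map_add, map_add, l1, l3]
    · have h1 := bsq hLOR hEXP hJON hSTP hu i k hM'
      simp only [hY]
      rw [h1, q7, wres hSTP hSTK hKNO hEXP hJON hu i k hM hG]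
  -- `E (A Y) = E W`
  have c1 : ∫ M, A M * Y M ∂ν = ∫ M, W M ∂ν := by
    refine rpi_eq hRPI hg u k (mA.mul mY) ((pA.mul pY).integrable hPIN hg (mA.mul mY)) ?_
    intro M hM
    obtain ⟨-, h2, -, -, -, -, -, h8, -, -, -, h12, -⟩ := hSTP ι E T S u M hM hu k i
    refine Eq.trans ?_ (prod_mom hQUA hISO hPIN hg hc (qq S u M k) h12 i (rr S u M k i)
      (qq S u M k (M i (expl S u M k (qv (M i) u k)))) h2 h8)
    refine integral_congr_ae (hg.herm.mono fun G hG => ?_)
    obtain ⟨x1, x2, -⟩ := hres M G hM hG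
    simp only [x1, x2]
  have c2 : ∫ M, A M ^ 2 ∂ν = ∫ M, W M ∂ν := by
    refine rpi_eq hRPI hg u k (mA.pow_const 2) ((pA.pow 2).integrable hPIN hg
      (mA.pow_const 2)) ?_
    intro M hM
    obtain ⟨-, h2, -, -, -, -, -, h8, -, -, -, h12, -⟩ := hSTP ι E T S u M hM hu k i
    refine Eq.trans ?_ (second_mom hQUA hg hc (qq S u M k) h12 i (rr S u M k i) h2 h8).2
    refine integral_congr_ae (hg.herm.mono fun G hG => ?_)
    obtain ⟨x1, -⟩ := hres M G hM hG
    simp only [x1]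
  have hz : ∫ M : T → E →L[ℝ] E, (0 : ℝ) ∂ν = 0 := integral_zero _ _
  have c3 : ∫ M, A M ∂ν = 0 := by
    rw [← hz]
    refine rpi_eq hRPI hg u k mA (pA.integrable hPIN hg mA) ?_
    intro M hM
    obtain ⟨-, h2, -, -, -, -, -, h8, -, -, -, h12, -⟩ := hSTP ι E T S u M hM hu k i
    rw [← (second_mom hQUA hg hc (qq S u M k) h12 i (rr S u M k i) h2 h8).1]
    refine integral_congr_ae (hg.herm.mono fun G hG => ?_)
    exact (hres M G hM hG).1
  have c4 : ∫ M, A M * (bv (M i) u k ^ 2 - Y M) ∂ν = 0 := by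
    rw [← hz]
    refine rpi_eq hRPI hg u k (mA.mul (mB.sub mY)) ((pA.mul (pB.sub pY)).integrable hPIN hg
      (mA.mul (mB.sub mY))) ?_
    intro M hM
    obtain ⟨-, h2, -, -, -, -, -, h8, -, -, -, h12, -⟩ := hSTP ι E T S u M hM hu k i
    have hcr : cp (qq S u M k) (rr S u M k i) = rr S u M k i := by
      show rr S u M k i - qq S u M k (rr S u M k i) = _
      rw [h2, sub_zero]
    have hi := hIND ι E T S c ν hg (qq S u M k) h12
    have e1 : ∫ G, A (res (expl S u M k) M G) * (bv (res (expl S u M k) M G i) u k ^ 2 -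
        Y (res (expl S u M k) M G)) ∂ν =
        ∫ G, (fun Z : T → E →L[ℝ] E => ‖Psi S u M k i (Z i)‖ ^ 2)
          (fun l => cp (qq S u M k) ∘L G l ∘L cp (qq S u M k)) *
          (fun Z : T → E →L[ℝ] E => ‖Z i (rr S u M k i)‖ ^ 2 -
            tr (qq S u M k) * ‖rr S u M k i‖ ^ 2)
          (fun l => qq S u M k ∘L G l ∘L cp (qq S u M k)) ∂ν := by
      refine integral_congr_ae (hg.herm.mono fun G hG => ?_)
      obtain ⟨x1, -, x3⟩ := hres M G hM hG
      show A (res (expl S u M k) M G) * (bv (res (expl S u M k) M G i) u k ^ 2 -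
        Y (res (expl S u M k) M G)) =
        ‖Psi S u M k i (cp (qq S u M k) ∘L G i ∘L cp (qq S u M k))‖ ^ 2 *
        (‖qq S u M k (G i (cp (qq S u M k) (rr S u M k i)))‖ ^ 2 -
          tr (qq S u M k) * ‖rr S u M k i‖ ^ 2)
      rw [x1, x3, hcr]
      ring
    have mB1 : Measurable fun G : T → E →L[ℝ] E =>
        (fun l => cp (qq S u M k) ∘L G l ∘L cp (qq S u M k)) :=
      measurable_pi_iff.2 fun l => meas_comp measurable_const
        (meas_comp (measurable_pi_apply l) measurable_const)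
    have mB2 : Measurable fun G : T → E →L[ℝ] E =>
        (fun l => qq S u M k ∘L G l ∘L cp (qq S u M k)) :=
      measurable_pi_iff.2 fun l => meas_comp measurable_const
        (meas_comp (measurable_pi_apply l) measurable_const)
    have mF1 : Measurable fun Z : T → E →L[ℝ] E => ‖Psi S u M k i (Z i)‖ ^ 2 :=
      (((meas_Psi S u M k i).comp (measurable_pi_apply i)).norm).pow_const 2
    have mF2 : Measurable fun Z : T → E →L[ℝ] E => ‖Z i (rr S u M k i)‖ ^ 2 -
        tr (qq S u M k) * ‖rr S u M k i‖ ^ 2 :=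
      ((meas_apply (measurable_pi_apply i) measurable_const).norm.pow_const 2).sub_const _
    rw [e1, hi.integral_fun_comp_mul_comp mB1.aemeasurable mB2.aemeasurable
      mF1.aestronglyMeasurable mF2.aestronglyMeasurable]
    have e2 : ∫ G : T → E →L[ℝ] E, (‖(qq S u M k ∘L G i ∘L cp (qq S u M k))
        (rr S u M k i)‖ ^ 2 - tr (qq S u M k) * ‖rr S u M k i‖ ^ 2) ∂ν = 0 := by
      have e3 : ∀ G : T → E →L[ℝ] E, (qq S u M k ∘L G i ∘L cp (qq S u M k)) (rr S u M k i) =
          qq S u M k (G i (rr S u M k i)) := by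
        intro G
        show qq S u M k (G i (cp (qq S u M k) (rr S u M k i))) = _
        rw [hcr]
      simp only [e3]
      exact (second_mom hQUA hg hc (qq S u M k) h12 i (rr S u M k i) h2 h8).1
    rw [e2, mul_zero]
  -- expansion of the square
  have iB : Integrable (fun M => (bv (M i) u k ^ 2 - nk ι E k) ^ 2) ν :=
    ((pB.sub (PB.const _)).pow 2).integrable hPIN hg ((mB.sub_const _).pow_const 2)
  have iA2 : Integrable (fun M => A M ^ 2) ν := (pA.pow 2).integrable hPIN hg (mA.pow_const 2)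
  have iA : Integrable (fun M => 2 * nk ι E k * A M) ν :=
    (pA.integrable hPIN hg mA).const_mul _
  have iAY : Integrable (fun M => 2 * (A M * Y M)) ν :=
    ((pA.mul pY).integrable hPIN hg (mA.mul mY)).const_mul _
  have iAB : Integrable (fun M => 2 * (A M * (bv (M i) u k ^ 2 - Y M))) ν :=
    ((pA.mul (pB.sub pY)).integrable hPIN hg (mA.mul (mB.sub mY))).const_mul _
  have iW : Integrable W ν := pW.integrable hPIN hg mW
  have hexp : ∫ M, (bv (M i) u k ^ 2 - nk ι E k - A M) ^ 2 ∂ν = 2 * nk ι E k - ∫ M, W M ∂ν := by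
    have e1 : (fun M : T → E →L[ℝ] E => (bv (M i) u k ^ 2 - nk ι E k - A M) ^ 2) = fun M =>
        (bv (M i) u k ^ 2 - nk ι E k) ^ 2 + A M ^ 2 + 2 * nk ι E k * A M - 2 * (A M * Y M) -
        2 * (A M * (bv (M i) u k ^ 2 - Y M)) := by
      funext M
      ring
    have s1 : Integrable (fun M : T → E →L[ℝ] E =>
        (bv (M i) u k ^ 2 - nk ι E k) ^ 2 + A M ^ 2) ν := iB.add iA2
    have s2 : Integrable (fun M : T → E →L[ℝ] E =>
        (bv (M i) u k ^ 2 - nk ι E k) ^ 2 + A M ^ 2 + 2 * nk ι E k * A M) ν := s1.add iA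
    have s3 : Integrable (fun M : T → E →L[ℝ] E =>
        (bv (M i) u k ^ 2 - nk ι E k) ^ 2 + A M ^ 2 + 2 * nk ι E k * A M - 2 * (A M * Y M)) ν :=
      s2.sub iAY
    rw [e1, integral_sub s3 iAB, integral_sub s2 iAY, integral_add s1 iA, integral_add iB iA2,
      integral_const_mul, integral_const_mul, integral_const_mul, c1, c2, c3, c4, r4]
    ring
  show ∫ M, (bv (M i) u k ^ 2 - nk ι E k - A M) ^ 2 ∂ν ≤ _
  rw [hexp]
  -- the final estimate
  have iR : Integrable (fun M => 2 * dm E * (1 - ‖rr S u M k i‖ ^ 4)) ν :=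
    ((PB.const _).mul ((PB.const 1).sub (b6.pow 4))).integrable hPIN hg
      ((measurable_const.sub (mr.norm.pow_const 4)).const_mul _)
  have hfin : 2 * nk ι E k - ∫ M, W M ∂ν ≤
      ∫ M, (2 * dm E * (1 - ‖rr S u M k i‖ ^ 4) + 2 * (b * (k + 1))) ∂ν := by
    have e1 : 2 * nk ι E k - ∫ M, W M ∂ν = ∫ M, (2 * nk ι E k - W M) ∂ν := by
      rw [integral_sub (integrable_const _) iW, integral_const]
      simp
    rw [e1]
    refine integral_mono_ae ((integrable_const _).sub iW) (iR.add (integrable_const _)) ?_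
    filter_upwards [hg.herm] with M hM
    obtain ⟨-, -, -, -, -, -, -, h8, -, -, -, -, h13, h14, -⟩ := hSTP ι E T S u M hM hu k i
    show 2 * nk ι E k - 2 * tr (qq S u M k) * ‖rr S u M k i‖ ^ 4 ≤
      2 * dm E * (1 - ‖rr S u M k i‖ ^ 4) + 2 * (b * (k + 1))
    have h1 : ‖rr S u M k i‖ ^ 4 ≤ 1 := pow_le_one₀ (norm_nonneg _) h8
    have h2 : 0 ≤ ‖rr S u M k i‖ ^ 4 := by positivity
    have h3 : nk ι E k ≤ dm E := by
      unfold nk
      have : (0 : ℝ) ≤ Fintype.card ι * ((k : ℝ) + 1) := by positivity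
      linarith
    have h4 : nk ι E k - tr (qq S u M k) ≤ b * (k + 1) := by
      linarith
    have h5 : (nk ι E k - tr (qq S u M k)) * ‖rr S u M k i‖ ^ 4 ≤ b * (k + 1) := by
      have h6 : 0 ≤ b * ((k : ℝ) + 1) := by positivity
      calc (nk ι E k - tr (qq S u M k)) * ‖rr S u M k i‖ ^ 4 ≤
          (b * (k + 1)) * ‖rr S u M k i‖ ^ 4 := mul_le_mul_of_nonneg_right h4 h2
        _ ≤ b * (k + 1) := mul_le_of_le_one_right h6 h1
    have h7 : nk ι E k * (1 - ‖rr S u M k i‖ ^ 4) ≤ dm E * (1 - ‖rr S u M k i‖ ^ 4) :=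
      mul_le_mul_of_nonneg_right h3 (by linarith)
    linarith
  refine hfin.trans ?_
  rw [integral_add iR (integrable_const _), integral_const_mul, integral_const]
  have h5 := one_sub_r4 hLOR hSTP hPIN hMEB hMEA hg hu i k rb
  have h6 : dm E * (C1 * ((k : ℝ) + 1) / Real.sqrt (dm E)) =
      C1 * ((k : ℝ) + 1) * Real.sqrt (dm E) := by
    rw [mul_div_assoc', div_eq_iff hsD.ne', mul_assoc (C1 * ((k : ℝ) + 1)),
      Real.mul_self_sqrt hD.le]
    ring
  have h7 : 2 * dm E * ∫ M, (1 - ‖rr S u M k i‖ ^ 4) ∂ν ≤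
      4 * (C1 * ((k : ℝ) + 1) * Real.sqrt (dm E)) := by
    rw [← h6]
    have h8 : ∫ M, (1 - ‖rr S u M k i‖ ^ 4) ∂ν ≤
        2 * (C1 * ((k : ℝ) + 1) / Real.sqrt (dm E)) := by linarith
    calc 2 * dm E * ∫ M, (1 - ‖rr S u M k i‖ ^ 4) ∂ν ≤
        2 * dm E * (2 * (C1 * ((k : ℝ) + 1) / Real.sqrt (dm E))) :=
          mul_le_mul_of_nonneg_left h8 (by positivity)
      _ = 4 * (dm E * (C1 * ((k : ℝ) + 1) / Real.sqrt (dm E))) := by ring
  have h8 : b * ((k : ℝ) + 1) ≤ b * (k + 1) * Real.sqrt (dm E) :=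
    le_mul_of_one_le_right (by positivity) hsD1
  have h9 : 0 ≤ ((k : ℝ) + 1) * Real.sqrt (dm E) := by positivity
  have h10 : 0 ≤ (1 + Cr) * (((k : ℝ) + 1) * Real.sqrt (dm E)) := by positivity
  have h11 : (1 + Cr + 4 * C1 + 2 * b) * ((k : ℝ) + 1) * Real.sqrt (dm E) =
      (1 + Cr) * (((k : ℝ) + 1) * Real.sqrt (dm E)) +
      4 * (C1 * ((k : ℝ) + 1) * Real.sqrt (dm E)) + 2 * (b * (k + 1) * Real.sqrt (dm E)) := by
    ring
  have h12 : (ν.real Set.univ) • (2 * (b * ((k : ℝ) + 1))) = 2 * (b * ((k : ℝ) + 1)) := by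
    simp
  rw [h12, h11]
  linarith

end Pool.Agent.Lib.MP17fa2c
end
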