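import Pool.Agent.Lib.MP_17fa2c_pr.TD.SpecE
import Pool.Agent.Lib.MP_17fa2c_pr.TD.SpecL
import Pool.Agent.Lib.MP_17fa2c_pr.TD.RSB
import Pool.Agent.Lib.MP_17fa2c_pr.TD.NCM

section
/-!
# MP_17fa2c_pr, module RHO: moments of the coefficients and of `ρ`
-/
set_option autoImplicit false

open MeasureTheory ProbabilityTheory Filter Topology
open scoped RealInnerProductSpace NNReal ENNReal

namespace Pool.Agent.Lib.MP17fa2c

namespace RHOM

instance chi_prob (N : ℕ) : IsProbabilityMeasure (chi N) := by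
  unfold chi
  exact Measure.isProbabilityMeasure_map (by fun_prop)

theorem chi_int (N n : ℕ) : Integrable (fun b : ℝ => b ^ n) (chi N) := by
  unfold chi
  rw [integrable_map_measure (by fun_prop) (by fun_prop)]
  exact (IsGaussian.memLp_id (stdGaussian (EuclideanSpace ℝ (Fin N))) (n : ℝ≥0∞)
    (by simp)).integrable_norm_pow'

theorem chi_mom (hCHN : SpecCHN) (N : ℕ) : ∫ b, b ^ 2 ∂(chi N) = N ∧
    ∫ b, (b ^ 2 - N) ^ 2 ∂(chi N) = 2 * N ∧ ∫ b, b ^ 4 ∂(chi N) = N ^ 2 + 2 * N := by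
  have htr : tr (ContinuousLinearMap.id ℝ (EuclideanSpace ℝ (Fin N))) = N := by
    show LinearMap.trace ℝ _ LinearMap.id = _
    rw [LinearMap.trace_id, finrank_euclideanSpace_fin]
  obtain ⟨-, m1, m2⟩ := hCHN (EuclideanSpace ℝ (Fin N)) (ContinuousLinearMap.id ℝ _) N
    (fun _ _ => rfl) (fun _ => rfl) htr
  have e1 : ∫ b, b ^ 2 ∂(chi N) = N := by
    unfold chi
    rw [integral_map (by fun_prop) (by fun_prop)]
    exact m1
  have e2 : ∫ b, (b ^ 2 - N) ^ 2 ∂(chi N) = 2 * N := by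
    unfold chi
    rw [integral_map (by fun_prop) (by fun_prop)]
    exact m2
  refine ⟨e1, e2, ?_⟩
  have h : (fun b : ℝ => (b ^ 2 - (N : ℝ)) ^ 2) =
      fun b : ℝ => b ^ 4 - 2 * N * b ^ 2 + (N : ℝ) ^ 2 := by
    funext b
    ring
  rw [h] at e2
  have i2 : Integrable (fun b : ℝ => 2 * (N : ℝ) * b ^ 2) (chi N) := (chi_int N 2).const_mul _
  have i4 : Integrable (fun b : ℝ => b ^ 4 - 2 * N * b ^ 2) (chi N) := (chi_int N 4).sub i2
  rw [integral_add i4 (integrable_const _), integral_sub (chi_int N 4) i2, integral_const_mul,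
    e1] at e2
  simp at e2
  linarith

theorem prod_ge (k : ℕ) (y : ℕ → ℝ) (h0 : ∀ l < k, 0 ≤ y l) (h1 : ∀ l < k, y l ≤ 1) :
    1 - ∑ l ∈ Finset.range k, y l ≤ ∏ l ∈ Finset.range k, (1 - y l) ∧
    ∏ l ∈ Finset.range k, (1 - y l) ≤ 1 ∧ 0 ≤ ∏ l ∈ Finset.range k, (1 - y l) := by
  induction k with
  | zero => simp
  | succ k ih =>
    obtain ⟨i1, i2, i3⟩ := ih (fun l hl => h0 l (by omega)) (fun l hl => h1 l (by omega))
    have a0 := h0 k (by omega)
    have a1 := h1 k (by omega)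
    rw [Finset.sum_range_succ, Finset.prod_range_succ]
    refine ⟨?_, ?_, mul_nonneg i3 (by linarith)⟩
    · nlinarith
    · nlinarith

variable {ι : Type} [Fintype ι] [DecidableEq ι] {E : Type} [NormedAddCommGroup E]
  [InnerProductSpace ℝ E] [FiniteDimensional ℝ E] {T : Type} [Fintype T]

theorem law [MeasurableSpace E] [BorelSpace E] (hDEL : SpecDEL) (hMRG : SpecMRG)
    (hMEA : SpecMEA) (S : BStr ι E) (u : E)
    (c : T → T → ℝ) (ν : Measure (T → E →L[ℝ] E)) (hν : GFam S c ν) (hc : Cor c) (hu : ‖u‖ = 1)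
    (i : T) (K : ℕ) (hK : Fintype.card ι * K < Module.finrank ℝ E) :
    (∀ᵐ M ∂ν, ∀ l < K, bv (M i) u l ≠ 0) ∧
    Measurable (fun (M : T → E →L[ℝ] E) (j : Fin K) => (av (M i) u j, bv (M i) u j)) ∧
    ν.map (fun M (j : Fin K) => (av (M i) u j, bv (M i) u j)) =
      deLaw (fun j => Module.finrank ℝ E - Fintype.card ι * (j + 1)) K := by
  have h1 := (hMRG ι E T S c ν hν).1 Unit (fun _ => i)
  have h2 : (fun (_ _ : Unit) => c i i) = fun _ _ => (1 : ℝ) := by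
    funext _ _
    exact hc.one i
  rw [h2] at h1
  obtain ⟨h3, h4⟩ := hDEL ι E S u _ h1 hu K hK
  have hm1 : Measurable (fun (M : T → E →L[ℝ] E) (_ : Unit) => M i) :=
    measurable_pi_lambda _ fun _ => measurable_pi_apply i
  have hm2 : Measurable (fun (M : Unit → E →L[ℝ] E) (j : Fin K) =>
      (av (M ()) u j, bv (M ()) u j)) := by
    refine measurable_pi_lambda _ fun j => ?_
    obtain ⟨-, -, ma, mb, -, -⟩ := hMEA ι E Unit S u j
    exact (ma ()).prodMk (mb ())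
  refine ⟨?_, hm2.comp hm1, ?_⟩
  · exact ae_of_ae_map hm1.aemeasurable h3
  · rw [← h4, Measure.map_map hm2 hm1]
    rfl

end RHOM

open RHOM in
theorem specRHO (hDEL : SpecDEL) (hMRG : SpecMRG) (hCHN : SpecCHN) (hGMO : SpecGMO)
    (hMEA : SpecMEA) : SpecRHO := by
  intro ι _ _
  set β : ℕ := Fintype.card ι with hβ
  refine ⟨β + 8, by positivity, ?_⟩
  intro E _ _ _ T _ S u c ν hν hc hu i k hk
  let _ : MeasurableSpace E := borel E
  have : BorelSpace E := ⟨rfl⟩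
  have := hν.gauss
  set D : ℕ := Module.finrank ℝ E with hD
  have hdm : dm E = D := rfl
  rw [hdm] at hk
  have hk' : (β + 8) * (k + 1) ≤ D := by exact_mod_cast hk
  have hβD : β * (k + 1) < D := by nlinarith
  have hDp : 0 < D := by omega
  have hDr : (0 : ℝ) < D := by exact_mod_cast hDp
  obtain ⟨l1, l2, l3⟩ := law hDEL hMRG hMEA S u c ν hν hc hu i (k + 1) hβD
  have hβD' : β * k < D := lt_of_le_of_lt (Nat.mul_le_mul_left _ (Nat.le_succ k)) hβD
  obtain ⟨-, l4, l5⟩ := law hDEL hMRG hMEA S u c ν hν hc hu i k hβD'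
  -- one coordinate
  have hone : ∀ h : ℝ × ℝ → ℝ, Measurable h → ∫ M, h (av (M i) u k, bv (M i) u k) ∂ν =
      ∫ z, h z ∂((gaussianReal 0 2).prod (chi (D - β * (k + 1)))) := by
    intro h hh
    have e1 : ∫ M, h (av (M i) u k, bv (M i) u k) ∂ν =
        ∫ w, h (w (Fin.last k)) ∂(deLaw (fun j => D - β * (j + 1)) (k + 1)) := by
      have hm : Measurable (fun w : Fin (k + 1) → ℝ × ℝ => h (w (Fin.last k))) :=
        hh.comp (measurable_pi_apply (Fin.last k))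
      rw [← l3, integral_map l2.aemeasurable hm.aestronglyMeasurable]
      rfl
    have e2 : (deLaw (fun j => D - β * (j + 1)) (k + 1)).map (fun w => w (Fin.last k)) =
        (gaussianReal 0 2).prod (chi (D - β * (k + 1))) := by
      unfold deLaw
      have := (measurePreserving_eval (fun j : Fin (k + 1) =>
        (gaussianReal 0 2).prod (chi (D - β * ((j : ℕ) + 1)))) (Fin.last k)).map_eq
      simpa using this
    rw [e1, ← e2, integral_map (measurable_pi_apply _).aemeasurable hh.aestronglyMeasurable]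
  have hnk : ((D - β * (k + 1) : ℕ) : ℝ) = nk ι E k := by
    rw [Nat.cast_sub hβD.le]
    unfold nk
    rw [hdm, hβ]
    push_cast
    ring
  obtain ⟨c1, c2, c3⟩ := chi_mom hCHN (D - β * (k + 1))
  -- products
  set x : ℕ → ℝ := fun l => β * ((l : ℝ) + 1) / D with hx
  have hprod : ∀ (h : ℝ → ℝ), Measurable h →
      ∫ M, (∏ l ∈ Finset.range k, h (bv (M i) u l)) ∂ν =
      ∏ l ∈ Finset.range k, ∫ b, h b ∂(chi (D - β * (l + 1))) := by
    intro h hh
    have e1 : ∫ M, (∏ l ∈ Finset.range k, h (bv (M i) u l)) ∂ν =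
        ∫ w, ∏ j : Fin k, h (w j).2 ∂(deLaw (fun j => D - β * (j + 1)) k) := by
      rw [← l5, integral_map l4.aemeasurable]
      · refine integral_congr_ae (Eventually.of_forall fun M => ?_)
        exact Finset.prod_range _
      · refine Measurable.aestronglyMeasurable ?_
        exact Finset.measurable_fun_prod _ fun j _ =>
          hh.comp (measurable_snd.comp (measurable_pi_apply j))
    rw [e1, Finset.prod_range]
    unfold deLaw
    rw [integral_fintype_prod_eq_prod (fun (j : Fin k) (z : ℝ × ℝ) => h z.2)]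
    refine Finset.prod_congr rfl fun j _ => ?_
    rw [integral_fun_snd (fun b : ℝ => h b)]
    simp
  have hrho : ∀ M : T → E →L[ℝ] E, rho (M i) u k ^ 2 =
      ∏ l ∈ Finset.range k, (bv (M i) u l ^ 2 / D) := by
    intro M
    unfold rho
    rw [← Finset.prod_pow]
    refine Finset.prod_congr rfl fun l _ => ?_
    rw [div_pow, hdm, Real.sq_sqrt hDr.le]
  have hrho4 : ∀ M : T → E →L[ℝ] E, rho (M i) u k ^ 4 =
      ∏ l ∈ Finset.range k, (bv (M i) u l ^ 2 / D) ^ 2 := by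
    intro M
    rw [Finset.prod_pow, ← hrho]
    ring
  have hN : ∀ l < k, ((D - β * (l + 1) : ℕ) : ℝ) = D * (1 - x l) := by
    intro l hl
    have h1 : β * (l + 1) ≤ β * k := Nat.mul_le_mul_left _ hl
    rw [Nat.cast_sub (h1.trans hβD'.le), hx]
    push_cast
    field_simp
  have hx0 : ∀ l < k, 0 ≤ x l := fun l _ => by rw [hx]; positivity
  have hx1 : ∀ l < k, x l ≤ 1 := by
    intro l hl
    have h1 : β * (l + 1) ≤ β * k := Nat.mul_le_mul_left _ hl
    have h2 : β * (l + 1) ≤ D := h1.trans hβD'.le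
    rw [hx]
    show (β : ℝ) * ((l : ℝ) + 1) / D ≤ 1
    rw [div_le_one hDr]
    exact_mod_cast h2
  obtain ⟨q1, q2, q3⟩ := prod_ge k x hx0 hx1
  have m2 : ∫ M, rho (M i) u k ^ 2 ∂ν = ∏ l ∈ Finset.range k, (1 - x l) := by
    simp only [hrho]
    rw [hprod (fun b => b ^ 2 / D) (by fun_prop)]
    refine Finset.prod_congr rfl fun l hl => ?_
    rw [integral_div, (chi_mom hCHN _).1, hN l (Finset.mem_range.mp hl)]
    field_simp
  have m4 : ∫ M, rho (M i) u k ^ 4 ∂ν ≤ 1 + 4 * k / D := by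
    simp only [hrho4]
    rw [hprod (fun b => (b ^ 2 / D) ^ 2) (by fun_prop)]
    have h1 : ∀ l ∈ Finset.range k, ∫ b, (b ^ 2 / (D : ℝ)) ^ 2 ∂(chi (D - β * (l + 1))) ≤
        Real.exp (2 / D) := by
      intro l hl
      have e : (fun b : ℝ => (b ^ 2 / (D : ℝ)) ^ 2) = fun b : ℝ => b ^ 4 / (D : ℝ) ^ 2 := by
        funext b
        ring
      rw [e, integral_div, (chi_mom hCHN _).2.2, hN l (Finset.mem_range.mp hl)]
      have a0 := hx0 l (Finset.mem_range.mp hl)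
      have a1 := hx1 l (Finset.mem_range.mp hl)
      have h2 : ((D : ℝ) * (1 - x l)) ^ 2 + 2 * ((D : ℝ) * (1 - x l)) ≤ (D : ℝ) ^ 2 + 2 * D := by
        have h3 : (D : ℝ) * (1 - x l) ≤ D := by nlinarith
        have h4 : 0 ≤ (D : ℝ) * (1 - x l) := mul_nonneg hDr.le (by linarith)
        nlinarith
      calc _ ≤ ((D : ℝ) ^ 2 + 2 * D) / (D : ℝ) ^ 2 :=
            div_le_div_of_nonneg_right h2 (by positivity)
        _ = 2 / D + 1 := by field_simp; ring
        _ ≤ _ := Real.add_one_le_exp _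
    have h2 : ∏ l ∈ Finset.range k, ∫ b, (b ^ 2 / (D : ℝ)) ^ 2 ∂(chi (D - β * (l + 1))) ≤
        ∏ _l ∈ Finset.range k, Real.exp (2 / D) :=
      Finset.prod_le_prod (fun l _ => integral_nonneg fun b => by positivity) h1
    refine h2.trans ?_
    rw [Finset.prod_const, Finset.card_range, ← Real.exp_nat_mul]
    set y : ℝ := (k : ℝ) * (2 / D) with hy
    have hy0 : 0 ≤ y := by rw [hy]; positivity
    have hy1 : y ≤ 1 := by
      rw [hy]
      have : (8 : ℝ) * (k + 1) ≤ D := by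
        have h5 : (β : ℝ) * (k + 1) ≥ 0 := by positivity
        nlinarith
      rw [mul_div_assoc', div_le_one hDr]
      nlinarith
    have h3 := Real.abs_exp_sub_one_sub_id_le (x := y) (by rw [abs_of_nonneg hy0]; exact hy1)
    have h4 := (abs_le.mp h3).2
    have h5 : 4 * (k : ℝ) / D = 2 * y := by rw [hy]; ring
    rw [h5]
    nlinarith
  have i2 : Integrable (fun M : T → E →L[ℝ] E => rho (M i) u k ^ 2) ν := by
    simp only [hrho]
    have e1 : Integrable (fun w : Fin k → ℝ × ℝ => ∏ j : Fin k, ((w j).2 ^ 2 / (D : ℝ)))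
        (deLaw (fun j => D - β * (j + 1)) k) := by
      unfold deLaw
      exact Integrable.fintype_prod (f := fun (j : Fin k) (z : ℝ × ℝ) => z.2 ^ 2 / (D : ℝ))
        fun j => ((chi_int _ 2).div_const (D : ℝ)).comp_snd _
    rw [← l5, integrable_map_measure e1.aestronglyMeasurable l4.aemeasurable] at e1
    · refine e1.congr (Eventually.of_forall fun M => ?_)
      exact (Finset.prod_range fun l => bv (M i) u l ^ 2 / (D : ℝ)).symm
  have i4 : Integrable (fun M : T → E →L[ℝ] E => rho (M i) u k ^ 4) ν := by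
    simp only [hrho4]
    have e1 : Integrable (fun w : Fin k → ℝ × ℝ => ∏ j : Fin k, ((w j).2 ^ 2 / (D : ℝ)) ^ 2)
        (deLaw (fun j => D - β * (j + 1)) k) := by
      unfold deLaw
      refine Integrable.fintype_prod (f := fun (j : Fin k) (z : ℝ × ℝ) =>
        (z.2 ^ 2 / (D : ℝ)) ^ 2) fun j => ?_
      have e2 : Integrable (fun b : ℝ => (b ^ 2 / (D : ℝ)) ^ 2) (chi (D - β * ((j : ℕ) + 1))) := by
        have e : (fun b : ℝ => (b ^ 2 / (D : ℝ)) ^ 2) = fun b : ℝ => b ^ 4 / (D : ℝ) ^ 2 := by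
          funext b
          ring
        rw [e]
        exact (chi_int _ 4).div_const _
      exact e2.comp_snd _
    rw [← l5, integrable_map_measure e1.aestronglyMeasurable l4.aemeasurable] at e1
    · refine e1.congr (Eventually.of_forall fun M => ?_)
      exact (Finset.prod_range fun l => (bv (M i) u l ^ 2 / (D : ℝ)) ^ 2).symm
  have hkD : 4 * (k : ℝ) / D ≤ 1 := by
    have : (8 : ℝ) * (k + 1) ≤ D := by
      have h5 : (β : ℝ) * (k + 1) ≥ 0 := by positivity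
      nlinarith
    rw [div_le_one hDr]
    nlinarith
  refine ⟨?_, ?_, ?_, ?_, ?_, ?_, ?_⟩
  · filter_upwards [l1] with M hM l hl
    exact hM l (by omega)
  · rw [hone (fun z => z.1 ^ 2) (by fun_prop), integral_fun_fst (fun a : ℝ => a ^ 2), hGMO.1]
    simp
  · rw [hone (fun z => z.2 ^ 2 - nk ι E k) (by fun_prop),
      integral_fun_snd (fun b : ℝ => b ^ 2 - nk ι E k),
      integral_sub (chi_int _ 2) (integrable_const _), c1, hnk]
    simp
  · rw [hone (fun z => (z.2 ^ 2 - nk ι E k) ^ 2) (by fun_prop),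
      integral_fun_snd (fun b : ℝ => (b ^ 2 - nk ι E k) ^ 2), ← hnk, c2]
    simp
  · rw [m2]; exact q2
  · linarith
  · have e : (fun M : T → E →L[ℝ] E => (1 - rho (M i) u k ^ 2) ^ 2) =
        fun M : T → E →L[ℝ] E => 1 - 2 * rho (M i) u k ^ 2 + rho (M i) u k ^ 4 := by
      funext M
      ring
    have i5 : Integrable (fun M : T → E →L[ℝ] E => 1 - 2 * rho (M i) u k ^ 2) ν :=
      (integrable_const _).sub (i2.const_mul 2)
    rw [e, integral_add i5 i4, integral_sub (integrable_const _) (i2.const_mul 2),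
      integral_const_mul, m2]
    simp only [integral_const, probReal_univ, smul_eq_mul, mul_one]
    have h1 : ∑ l ∈ Finset.range k, x l ≤ β * k ^ 2 / D := by
      have h2 : ∀ l ∈ Finset.range k, x l ≤ β * k / D := by
        intro l hl
        have h3 : ((l : ℝ) + 1) ≤ k := by exact_mod_cast Finset.mem_range.mp hl
        rw [hx]
        show (β : ℝ) * ((l : ℝ) + 1) / D ≤ β * k / D
        gcongr
      refine (Finset.sum_le_sum h2).trans_eq ?_
      rw [Finset.sum_const, Finset.card_range, nsmul_eq_mul]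
      ring
    have h2 : (k : ℝ) ≤ (k : ℝ) ^ 2 := by
      have : k ≤ k ^ 2 := Nat.le_self_pow (by norm_num) k
      exact_mod_cast this
    have h3 : 4 * (k : ℝ) / D ≤ 8 * (k : ℝ) ^ 2 / D := by
      gcongr
      · linarith
    have h4 : (2 * (β : ℝ) + 8) * (k : ℝ) ^ 2 / D = 2 * (β * k ^ 2 / D) + 8 * (k : ℝ) ^ 2 / D := by
      ring
    rw [hdm, h4]
    linarith

end Pool.Agent.Lib.MP17fa2c
end

section
/-!
# Row 233, ETA (helper70): exponential moments of the residual of `a_k`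
-/
set_option autoImplicit false

open MeasureTheory ProbabilityTheory Filter Topology
open scoped RealInnerProductSpace NNReal ENNReal BoundedContinuousFunction

namespace Pool.Agent.Lib.MP17fa2c

namespace ETAM

theorem gmgf (v : ℝ≥0) (s : ℝ) :
    ∫⁻ x, ENNReal.ofReal (Real.exp (s * x)) ∂(gaussianReal 0 v) =
      ENNReal.ofReal (Real.exp (v * s ^ 2 / 2)) := by
  rw [← ofReal_integral_eq_lintegral_ofReal (integrable_exp_mul_gaussianReal s)
    (Eventually.of_forall fun x => (Real.exp_pos _).le)]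
  congr 1
  have h := congrFun (mgf_id_gaussianReal (μ := 0) (v := v)) s
  unfold mgf at h
  simp only [id, zero_mul, zero_add] at h
  exact h

variable {ι : Type} [Fintype ι] [DecidableEq ι] {E : Type} [NormedAddCommGroup E]
  [InnerProductSpace ℝ E] [FiniteDimensional ℝ E] {T : Type} [Fintype T]

omit [Fintype T] in
theorem quad_meas (i : T) (r : E) : Measurable fun G : T → E →L[ℝ] E => ⟪r, G i r⟫ := by
  have h : Continuous fun A : E →L[ℝ] E => ⟪r, A r⟫ := by fun_prop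
  exact h.measurable.comp (measurable_pi_apply i)

/-- the Gaussian quadratic form -/
theorem quad_int (hGLF : SpecGLF) (hJON : SpecJON) (S : BStr ι E) (c : T → T → ℝ)
    (ν : Measure (T → E →L[ℝ] E)) (hν : GFam S c ν) (hc : Cor c) (i : T) (r : E) (s : ℝ) :
    ∫⁻ G, ENNReal.ofReal (Real.exp (s * ⟪r, G i r⟫)) ∂ν =
      ENNReal.ofReal (Real.exp (s ^ 2 * ‖r‖ ^ 4)) := by
  obtain ⟨j1, -⟩ := hJON ι E S
  have hv : (2 * ‖r‖ ^ 4 : ℝ) = ∑ k : Unit, ∑ k' : Unit, c ((fun _ : Unit => i) k)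
      ((fun _ : Unit => i) k') *
      ∑ a, (⟪(fun _ : Unit => r) k, S.J a ((fun _ : Unit => r) k')⟫ *
        ⟪(fun _ : Unit => r) k, S.J a ((fun _ : Unit => r) k')⟫ +
      ⟪(fun _ : Unit => r) k, S.J a ((fun _ : Unit => r) k')⟫ *
        ⟪(fun _ : Unit => r) k, S.J a ((fun _ : Unit => r) k')⟫) := by
    have h1 : ∀ a, ⟪r, S.J a r⟫ = if a = S.o then ‖r‖ ^ 2 else 0 := by
      intro a
      have h2 := j1 a S.o r
      rw [S.J_o] at h2
      rw [real_inner_comm]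
      exact h2
    simp only [Finset.univ_unique, Finset.sum_singleton, hc.one, one_mul, h1]
    rw [Finset.sum_eq_single S.o]
    · rw [if_pos rfl]
      ring
    · intro a _ ha
      rw [if_neg ha]
      ring
    · intro h
      exact absurd (Finset.mem_univ _) h
  obtain ⟨-, hmap⟩ := hGLF ι E T S c ν hν Unit (fun _ => i) (fun _ => r) (fun _ => r) _ hv
  simp only [Finset.univ_unique, Finset.sum_singleton] at hmap
  have hm := quad_meas (E := E) i r
  have h2 : ∫⁻ G, ENNReal.ofReal (Real.exp (s * ⟪r, G i r⟫)) ∂ν =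
      ∫⁻ x, ENNReal.ofReal (Real.exp (s * x)) ∂(ν.map fun G => ⟪r, G i r⟫) := by
    rw [lintegral_map (by fun_prop) hm]
  rw [h2, hmap, gmgf]
  congr 2
  rw [Real.coe_toNNReal _ (by positivity)]
  ring

/-- the law of `a_k` -/
theorem av_int (hDEL : SpecDEL) (hMRG : SpecMRG) (hMEA : SpecMEA) (S : BStr ι E) (u : E)
    (c : T → T → ℝ) (ν : Measure (T → E →L[ℝ] E)) (hν : GFam S c ν) (hc : Cor c) (hu : ‖u‖ = 1)
    (i : T) (k : ℕ) (hk : Fintype.card ι * (k + 1) < Module.finrank ℝ E) (s : ℝ) :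
    ∫⁻ M, ENNReal.ofReal (Real.exp (s * av (M i) u k)) ∂ν = ENNReal.ofReal (Real.exp (s ^ 2)) := by
  borelize E
  obtain ⟨-, l2, l3⟩ := RHOM.law hDEL hMRG hMEA S u c ν hν hc hu i (k + 1) hk
  obtain ⟨f, hf⟩ : ∃ f : ℝ → ℝ≥0∞, f = fun x => ENNReal.ofReal (Real.exp (s * x)) := ⟨_, rfl⟩
  have hfm : Measurable f := by rw [hf]; fun_prop
  have h1 : ∫⁻ M, f (av (M i) u k) ∂ν =
      ∫⁻ w, f (w (Fin.last k)).1 ∂(ν.map fun M (j : Fin (k + 1)) => (av (M i) u j, bv (M i) u j)) := by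
    have hg : Measurable fun w : Fin (k + 1) → ℝ × ℝ => f (w (Fin.last k)).1 :=
      hfm.comp (measurable_fst.comp (measurable_pi_apply _))
    exact (lintegral_map hg l2).symm
  have h2 : ∫⁻ w, f (w (Fin.last k)).1 ∂(deLaw (fun j => Module.finrank ℝ E -
      Fintype.card ι * (j + 1)) (k + 1)) = ∫⁻ x, f x ∂(gaussianReal 0 2) := by
    unfold deLaw
    have h3 := (measurePreserving_eval (fun j : Fin (k + 1) => (gaussianReal 0 2).prod
      (chi (Module.finrank ℝ E - Fintype.card ι * ((j : ℕ) + 1)))) (Fin.last k)).lintegral_comp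
      (f := fun w : ℝ × ℝ => f w.1) (hfm.comp measurable_fst)
    refine h3.trans ?_
    exact measurePreserving_fst.lintegral_comp hfm
  have h4 : ∫⁻ M, f (av (M i) u k) ∂ν = ∫⁻ x, f x ∂(gaussianReal 0 2) := by
    rw [h1, l3]
    exact h2
  rw [hf] at h4
  refine h4.trans ?_
  have h5 := gmgf 2 s
  refine h5.trans ?_
  congr 2
  push_cast
  ring

end ETAM

open ETAM in
theorem specETA (hRPE : SpecRPE) (hDEL : SpecDEL) (hMRG : SpecMRG) (hGLF : SpecGLF)
    (hSTP : SpecSTP) (hSTK : SpecSTK) (hMEA : SpecMEA) (hKNO : SpecKNO) (hJON : SpecJON) :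
    SpecETA := by
  intro ι _ _
  refine ⟨Fintype.card ι + 1, by positivity, ?_⟩
  intro E _ _ _ T _ S u c ν hν hc hu i k s hk
  borelize E
  have hk' : Fintype.card ι * (k + 1) < Module.finrank ℝ E := by
    have h1 : (Fintype.card ι + 1) * (k + 1) ≤ Module.finrank ℝ E := by
      have h2 : dm E = (Module.finrank ℝ E : ℝ) := rfl
      rw [h2] at hk
      exact_mod_cast hk
    nlinarith
  have hA := av_int hDEL hMRG hMEA S u c ν hν hc hu i k hk' s
  have ma : Measurable fun M : T → E →L[ℝ] E => av (M i) u k := (hMEA ι E T S u k).2.2.1 i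
  have hF : Measurable fun M : T → E →L[ℝ] E => ENNReal.ofReal (Real.exp (s * av (M i) u k)) := by
    fun_prop
  have hR := hRPE ι E T S c ν u hν k _ hF
  have hinner : ∀ᵐ M ∂ν, ∫⁻ G, ENNReal.ofReal (Real.exp
      (s * av (res (expl S u M k) M G i) u k)) ∂ν =
      ENNReal.ofReal (Real.exp (s ^ 2)) *
      ENNReal.ofReal (Real.exp (s * (av (M i) u k - ⟪rr S u M k i, M i (rr S u M k i)⟫) -
        s ^ 2 * (1 - ‖rr S u M k i‖ ^ 4))) := by
    filter_upwards [hν.herm] with M hM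
    have h1 : ∀ᵐ G ∂ν, ENNReal.ofReal (Real.exp (s * av (res (expl S u M k) M G i) u k)) =
        ENNReal.ofReal (Real.exp (s * (av (M i) u k - ⟪rr S u M k i, M i (rr S u M k i)⟫))) *
        ENNReal.ofReal (Real.exp (s * ⟪rr S u M k i, G i (rr S u M k i)⟫)) := by
      filter_upwards [hν.herm] with G hG
      obtain ⟨-, x2⟩ := RSAM.eta_kn hSTP hSTK hKNO hu i k hM hG
      rw [← ENNReal.ofReal_mul (Real.exp_pos _).le, ← Real.exp_add, ← x2]
      congr 2
      ring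
    rw [lintegral_congr_ae h1, lintegral_const_mul _ (by
      have := quad_meas (E := E) i (rr S u M k i)
      fun_prop), quad_int hGLF hJON S c ν hν hc, ← ENNReal.ofReal_mul (Real.exp_pos _).le,
      ← ENNReal.ofReal_mul (Real.exp_pos _).le, ← Real.exp_add, ← Real.exp_add]
    congr 2
    ring
  rw [lintegral_congr_ae hinner, lintegral_const_mul' _ _ ENNReal.ofReal_ne_top, hA] at hR
  have hpos : ENNReal.ofReal (Real.exp (s ^ 2)) ≠ 0 := by
    rw [Ne, ENNReal.ofReal_eq_zero, not_le]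
    exact Real.exp_pos _
  have h9 : ENNReal.ofReal (Real.exp (s ^ 2)) * 1 = ENNReal.ofReal (Real.exp (s ^ 2)) *
      ∫⁻ M, ENNReal.ofReal (Real.exp (s * (av (M i) u k - ⟪rr S u M k i, M i (rr S u M k i)⟫) -
        s ^ 2 * (1 - ‖rr S u M k i‖ ^ 4))) ∂ν := by
    rw [mul_one]
    exact hR
  exact ((ENNReal.mul_right_inj hpos ENNReal.ofReal_ne_top).1 h9).symm.le

end Pool.Agent.Lib.MP17fa2c
end

section
/-!
# MP_17fa2c_pr, module LDP: large deviations of the increments, polynomial form, all time lags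
-/
set_option autoImplicit false

open MeasureTheory ProbabilityTheory Filter Topology
open scoped RealInnerProductSpace NNReal ENNReal BoundedContinuousFunction

namespace Pool.Agent.Lib.MP17fa2c

namespace LDPM

theorem cor_c2 (τ : ℝ) (h : 0 ≤ τ) : Cor (c2 (Real.exp (-τ))) := by
  refine ⟨fun i l => ?_, fun i => by simp [c2], fun i l => ?_⟩
  · unfold c2
    by_cases h1 : i = l
    · rw [if_pos h1, if_pos h1.symm]
    · rw [if_neg h1, if_neg (Ne.symm h1)]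
  · unfold c2
    split_ifs
    · simp
    · rw [abs_of_pos (Real.exp_pos _)]
      exact Real.exp_le_one_iff.2 (by linarith)

/-! ### numbers -/

theorem exp_neg_le (n : ℕ) (y : ℝ) (hy : 0 < y) :
    Real.exp (-y) ≤ (n.factorial : ℝ) / y ^ n := by
  have h := Real.pow_div_factorial_le_exp y hy.le n
  rw [Real.exp_neg, inv_le_comm₀ (Real.exp_pos _) (by positivity), inv_div]
  exact h

/-- `y exp (-L⁵/y) ≤ 720 L⁻⁸` -/
theorem t1 (y L : ℝ) (hL : 1 ≤ L) (hy : 0 < y) (hyL : y ≤ L ^ 3) :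
    y * Real.exp (-((1 / L) ^ 2 * L ^ 7 / y)) ≤ 720 * ((L ^ 4)⁻¹) ^ 2 := by
  have hL0 : 0 < L := by linarith
  have e : (1 / L) ^ 2 * L ^ 7 = L ^ 5 := by field_simp
  rw [e]
  have h1 : L ^ 2 ≤ L ^ 5 / y := by
    rw [le_div_iff₀ hy]
    calc L ^ 2 * y ≤ L ^ 2 * L ^ 3 := mul_le_mul_of_nonneg_left hyL (by positivity)
      _ = L ^ 5 := by ring
  have h2 : Real.exp (-(L ^ 5 / y)) ≤ Real.exp (-(L ^ 2)) := Real.exp_le_exp.2 (by linarith)
  have h3 := exp_neg_le 6 (L ^ 2) (by positivity)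
  have h4 : ((6 : ℕ).factorial : ℝ) = 720 := by norm_num [Nat.factorial]
  rw [h4] at h3
  have h5 : (1 : ℝ) ≤ L := hL
  calc y * Real.exp (-(L ^ 5 / y)) ≤ L ^ 3 * (720 / (L ^ 2) ^ 6) :=
        mul_le_mul hyL (h2.trans h3) (Real.exp_pos _).le (by positivity)
    _ = 720 * ((L ^ 4)⁻¹) ^ 2 * L⁻¹ := by field_simp
    _ ≤ 720 * ((L ^ 4)⁻¹) ^ 2 * 1 := by
        refine mul_le_mul_of_nonneg_left ?_ (by positivity)
        exact inv_le_one_of_one_le₀ hL
    _ = _ := by ring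

theorem pow4 (s a : ℝ) (_hs : 0 ≤ s) (ha : 0 ≤ a) (ha1 : a ≤ 1) :
    (s + a) ^ 4 ≤ 8 * (a ^ 3 + s ^ 4) := by
  have h1 : (s + a) ^ 4 ≤ 8 * (s ^ 4 + a ^ 4) := by
    nlinarith [sq_nonneg (s ^ 2 - a ^ 2), sq_nonneg (s - a), mul_nonneg _hs ha,
      mul_nonneg (mul_nonneg _hs ha) (sq_nonneg (s - a)), sq_nonneg (s ^ 2 + a ^ 2 - 2 * s * a)]
  have h2 : a ^ 4 ≤ a ^ 3 := pow_le_pow_of_le_one ha ha1 (by norm_num)
  linarith

/-- second term, all `x` -/
theorem t2 (C s a x : ℝ) (hC : 0 < C) (hs : 0 < s) (ha : 0 ≤ a) (ha1 : a ≤ 1) (hx : 0 < x) :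
    C * Real.exp (-(x ^ 2 / (C * (s + a)))) ≤ 192 * C ^ 5 * ((a ^ 3 + s ^ 4) * (x ^ 8)⁻¹) := by
  have hsa : 0 < s + a := by linarith
  have h3 := exp_neg_le 4 (x ^ 2 / (C * (s + a))) (by positivity)
  have h4 : ((4 : ℕ).factorial : ℝ) = 24 := by norm_num [Nat.factorial]
  rw [h4] at h3
  have h5 := pow4 s a hs.le ha ha1
  calc C * Real.exp (-(x ^ 2 / (C * (s + a)))) ≤ C * (24 / (x ^ 2 / (C * (s + a))) ^ 4) :=
        mul_le_mul_of_nonneg_left h3 hC.le
    _ = 24 * C ^ 5 * ((s + a) ^ 4 * (x ^ 8)⁻¹) := by field_simp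
    _ ≤ 24 * C ^ 5 * ((8 * (a ^ 3 + s ^ 4)) * (x ^ 8)⁻¹) := by
        refine mul_le_mul_of_nonneg_left (mul_le_mul_of_nonneg_right h5 (by positivity))
          (by positivity)
    _ = _ := by ring

/-- second term at `1`, strong -/
theorem t2s (C s a : ℝ) (hC : 0 < C) (hs : 0 < s) (ha : 0 ≤ a) (ha1 : a ≤ 1) :
    C * Real.exp (-(1 / (C * (s + a)))) ≤ 40320 * 64 * C ^ 9 * (a ^ 3 + s ^ 4) ^ 2 := by
  have hsa : 0 < s + a := by linarith
  have h3 := exp_neg_le 8 (1 / (C * (s + a))) (by positivity)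
  have h4 : ((8 : ℕ).factorial : ℝ) = 40320 := by norm_num [Nat.factorial]
  rw [h4] at h3
  have h5 := pow4 s a hs.le ha ha1
  have h6 : (s + a) ^ 8 ≤ (8 * (a ^ 3 + s ^ 4)) ^ 2 := by
    have : (s + a) ^ 8 = ((s + a) ^ 4) ^ 2 := by ring
    rw [this]
    exact pow_le_pow_left₀ (by positivity) h5 2
  calc C * Real.exp (-(1 / (C * (s + a)))) ≤ C * (40320 / (1 / (C * (s + a))) ^ 8) :=
        mul_le_mul_of_nonneg_left h3 hC.le
    _ = 40320 * C ^ 9 * (s + a) ^ 8 := by field_simp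
    _ ≤ 40320 * C ^ 9 * (8 * (a ^ 3 + s ^ 4)) ^ 2 :=
        mul_le_mul_of_nonneg_left h6 (by positivity)
    _ = _ := by ring

theorem sqrt7 (L : ℝ) (hL : 1 ≤ L) : L ^ 3 ≤ Real.sqrt (L ^ 7) := by
  apply Real.le_sqrt_of_sq_le
  calc (L ^ 3) ^ 2 = L ^ 6 := by ring
    _ ≤ L ^ 7 := pow_le_pow_right₀ hL (by norm_num)

/-- third term -/
theorem t3 (C L x : ℝ) (hC : 0 < C) (hL : 1 ≤ L) (hx : 0 < x) :
    C * Real.exp (-(x * Real.sqrt (L ^ 7) / C)) ≤ 2 * C ^ 3 * ((L ^ 4)⁻¹ * (x ^ 2)⁻¹) := by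
  have hL0 : 0 < L := by linarith
  have hs := sqrt7 L hL
  have h1 : Real.exp (-(x * Real.sqrt (L ^ 7) / C)) ≤ Real.exp (-(x * L ^ 3 / C)) := by
    apply Real.exp_le_exp.2
    have : x * L ^ 3 / C ≤ x * Real.sqrt (L ^ 7) / C :=
      div_le_div_of_nonneg_right (mul_le_mul_of_nonneg_left hs hx.le) hC.le
    linarith
  have h3 := exp_neg_le 2 (x * L ^ 3 / C) (by positivity)
  have h4 : ((2 : ℕ).factorial : ℝ) = 2 := by norm_num [Nat.factorial]
  rw [h4] at h3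
  calc C * Real.exp (-(x * Real.sqrt (L ^ 7) / C)) ≤ C * (2 / (x * L ^ 3 / C) ^ 2) :=
        mul_le_mul_of_nonneg_left (h1.trans h3) hC.le
    _ = 2 * C ^ 3 * ((L ^ 4)⁻¹ * (x ^ 2)⁻¹) * (L ^ 2)⁻¹ := by field_simp
    _ ≤ 2 * C ^ 3 * ((L ^ 4)⁻¹ * (x ^ 2)⁻¹) * 1 := by
        refine mul_le_mul_of_nonneg_left ?_ (by positivity)
        exact inv_le_one_of_one_le₀ (one_le_pow₀ hL)
    _ = _ := by ring

/-- third term at `1`, strong -/
theorem t3s (C L : ℝ) (hC : 0 < C) (hL : 1 ≤ L) :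
    C * Real.exp (-(1 * Real.sqrt (L ^ 7) / C)) ≤ 6 * C ^ 4 * ((L ^ 4)⁻¹) ^ 2 := by
  have hL0 : 0 < L := by linarith
  have hs := sqrt7 L hL
  have h1 : Real.exp (-(1 * Real.sqrt (L ^ 7) / C)) ≤ Real.exp (-(L ^ 3 / C)) := by
    apply Real.exp_le_exp.2
    have : L ^ 3 / C ≤ 1 * Real.sqrt (L ^ 7) / C := by
      rw [one_mul]
      exact div_le_div_of_nonneg_right hs hC.le
    linarith
  have h3 := exp_neg_le 3 (L ^ 3 / C) (by positivity)
  have h4 : ((3 : ℕ).factorial : ℝ) = 6 := by norm_num [Nat.factorial]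
  rw [h4] at h3
  calc C * Real.exp (-(1 * Real.sqrt (L ^ 7) / C)) ≤ C * (6 / (L ^ 3 / C) ^ 3) :=
        mul_le_mul_of_nonneg_left (h1.trans h3) hC.le
    _ = 6 * C ^ 4 * ((L ^ 4)⁻¹) ^ 2 * L⁻¹ := by field_simp
    _ ≤ 6 * C ^ 4 * ((L ^ 4)⁻¹) ^ 2 * 1 := by
        refine mul_le_mul_of_nonneg_left ?_ (by positivity)
        exact inv_le_one_of_one_le₀ hL
    _ = _ := by ring

theorem min_le_sqrt (p q : ℝ) (hp : 0 ≤ p) (hq : 0 ≤ q) : min p q ≤ Real.sqrt (p * q) := by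
  apply Real.le_sqrt_of_sq_le
  rw [pow_two]
  exact mul_le_mul (min_le_left _ _) (min_le_right _ _) (le_min hp hq) hp

/-- the abstract conclusion -/
theorem final (C A κ a L : ℝ) (hC : 1 ≤ C) (hA : 0 < A) (hκ : 1 ≤ κ) (hκL : C * κ ≤ L ^ 3)
    (hL : 1 ≤ L) (ha0 : 0 ≤ a) (ha1 : a ≤ 1) (P : ℝ → ℝ≥0∞) (hanti : ∀ x y, x ≤ y → P y ≤ P x)
    (H1 : ∀ x, 0 < x → x ≤ 1 → P x ≤ ENNReal.ofReal
      (C * κ * Real.exp (-((1 / L) ^ 2 * L ^ 7 / (C * κ))) +
        C * Real.exp (-(x ^ 2 / (C * (1 / L + a)))) +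
        C * Real.exp (-(x * Real.sqrt (L ^ 7) / C))))
    (H2 : ∀ x, 0 < x → P x ≤ ENNReal.ofReal (A / x ^ 4)) (x : ℝ) (hx : 0 < x) :
    P x ≤ ENNReal.ofReal ((1440 + 192 * C ^ 5 + 2 * C ^ 3 + A +
      (720 + 40320 * 64 * C ^ 9 + 6 * C ^ 4)) * (a ^ 3 + (L ^ 4)⁻¹) *
        ((x ^ 2)⁻¹ + (x ^ 8)⁻¹)) := by
  have hC0 : 0 < C := by linarith
  have hL0 : 0 < L := by linarith
  obtain ⟨S, hS⟩ : ∃ S, S = 720 + 40320 * 64 * C ^ 9 + 6 * C ^ 4 := ⟨_, rfl⟩
  have hS0 : 0 < S := by rw [hS]; positivity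
  rw [← hS]
  have hl : (1 / L) ^ 4 = (L ^ 4)⁻¹ := by rw [one_div, inv_pow]
  have hi0 : 0 < (L ^ 4)⁻¹ := by positivity
  have hi1 : (L ^ 4)⁻¹ ≤ 1 := inv_le_one_of_one_le₀ (one_le_pow₀ hL)
  have ha3 : 0 ≤ a ^ 3 := by positivity
  have ha31 : a ^ 3 ≤ 1 := pow_le_one₀ ha0 ha1
  obtain ⟨Θ, hΘ⟩ : ∃ Θ, Θ = a ^ 3 + (L ^ 4)⁻¹ := ⟨_, rfl⟩
  rw [← hΘ]
  have hΘ0 : 0 < Θ := by rw [hΘ]; positivity
  have hiΘ : (L ^ 4)⁻¹ ≤ Θ := by rw [hΘ]; linarith
  have hΘ2 : Θ ≤ 2 := by rw [hΘ]; linarith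
  have hT1 := t1 (C * κ) L hL (by positivity) hκL
  have hiΘ2 : ((L ^ 4)⁻¹) ^ 2 ≤ Θ ^ 2 := pow_le_pow_left₀ hi0.le hiΘ 2
  rcases le_or_gt x 1 with hx1 | hx1
  · refine (H1 x hx hx1).trans (ENNReal.ofReal_le_ofReal ?_)
    have hT2 := t2 C (1 / L) a x hC0 (by positivity) ha0 ha1 hx
    rw [hl, ← hΘ] at hT2
    have hT3 := t3 C L x hC0 hL hx
    have hx8 : 1 ≤ (x ^ 8)⁻¹ := (one_le_inv₀ (by positivity)).2 (pow_le_one₀ hx.le hx1)
    have hx2 : 0 < (x ^ 2)⁻¹ := by positivity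
    have e1 : 720 * ((L ^ 4)⁻¹) ^ 2 ≤ 1440 * (Θ * (x ^ 8)⁻¹) := by
      have h1 : Θ ^ 2 ≤ 2 * Θ := by nlinarith
      have h2 : Θ * 1 ≤ Θ * (x ^ 8)⁻¹ := mul_le_mul_of_nonneg_left hx8 hΘ0.le
      linarith
    have e3 : 2 * C ^ 3 * ((L ^ 4)⁻¹ * (x ^ 2)⁻¹) ≤ 2 * C ^ 3 * (Θ * (x ^ 2)⁻¹) :=
      mul_le_mul_of_nonneg_left (mul_le_mul_of_nonneg_right hiΘ hx2.le) (by positivity)
    have e4 : 0 ≤ Θ * (x ^ 2)⁻¹ := by positivity
    have e5 : 0 ≤ Θ * (x ^ 8)⁻¹ := by positivity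
    have e6 : (1440 + 192 * C ^ 5 + 2 * C ^ 3 + A + S) * Θ * ((x ^ 2)⁻¹ + (x ^ 8)⁻¹) =
        (1440 * (Θ * (x ^ 8)⁻¹) + 192 * C ^ 5 * (Θ * (x ^ 8)⁻¹) + 2 * C ^ 3 * (Θ * (x ^ 2)⁻¹)) +
        (1440 + 192 * C ^ 5 + A + S) * (Θ * (x ^ 2)⁻¹) +
        (2 * C ^ 3 + A + S) * (Θ * (x ^ 8)⁻¹) := by ring
    have e7 : 0 ≤ (1440 + 192 * C ^ 5 + A + S) * (Θ * (x ^ 2)⁻¹) := by positivity
    have e8 : 0 ≤ (2 * C ^ 3 + A + S) * (Θ * (x ^ 8)⁻¹) := by positivity
    rw [e6]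
    linarith
  · -- `x > 1`
    have hP1 : P x ≤ ENNReal.ofReal (S * Θ ^ 2) := by
      refine (hanti 1 x hx1.le).trans ((H1 1 one_pos le_rfl).trans (ENNReal.ofReal_le_ofReal ?_))
      have hT2 := t2s C (1 / L) a hC0 (by positivity) ha0 ha1
      rw [hl, ← hΘ] at hT2
      have hT3 := t3s C L hC0 hL
      rw [one_pow]
      have e1 : 6 * C ^ 4 * ((L ^ 4)⁻¹) ^ 2 ≤ 6 * C ^ 4 * Θ ^ 2 :=
        mul_le_mul_of_nonneg_left hiΘ2 (by positivity)
      rw [hS]
      have e2 : (720 + 40320 * 64 * C ^ 9 + 6 * C ^ 4) * Θ ^ 2 =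
        720 * Θ ^ 2 + 40320 * 64 * C ^ 9 * Θ ^ 2 + 6 * C ^ 4 * Θ ^ 2 := by ring
      rw [e2]
      linarith
    have hmin : P x ≤ ENNReal.ofReal (min (A / x ^ 4) (S * Θ ^ 2)) := by
      rcases min_choice (A / x ^ 4) (S * Θ ^ 2) with h | h
      · rw [h]; exact H2 x hx
      · rw [h]; exact hP1
    refine hmin.trans (ENNReal.ofReal_le_ofReal ?_)
    refine (min_le_sqrt _ _ (by positivity) (by positivity)).trans ?_
    have e1 : A / x ^ 4 * (S * Θ ^ 2) = (A * S) * (Θ * (x ^ 2)⁻¹) ^ 2 := by field_simp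
    rw [e1, Real.sqrt_mul (by positivity), Real.sqrt_sq (by positivity)]
    have e2 : Real.sqrt (A * S) ≤ A + S := by
      apply Real.sqrt_le_iff.2
      exact ⟨by positivity, by nlinarith⟩
    have e4 : 0 ≤ Θ * (x ^ 2)⁻¹ := by positivity
    have e5 : 0 ≤ Θ * (x ^ 8)⁻¹ := by positivity
    have e6 : (1440 + 192 * C ^ 5 + 2 * C ^ 3 + A + S) * Θ * ((x ^ 2)⁻¹ + (x ^ 8)⁻¹) =
        (A + S) * (Θ * (x ^ 2)⁻¹) + (1440 + 192 * C ^ 5 + 2 * C ^ 3) * (Θ * (x ^ 2)⁻¹) +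
        (1440 + 192 * C ^ 5 + 2 * C ^ 3 + A + S) * (Θ * (x ^ 8)⁻¹) := by ring
    have e7 := mul_le_mul_of_nonneg_right e2 e4
    have e8 : 0 ≤ (1440 + 192 * C ^ 5 + 2 * C ^ 3) * (Θ * (x ^ 2)⁻¹) := by positivity
    have e9 : 0 ≤ (1440 + 192 * C ^ 5 + 2 * C ^ 3 + A + S) * (Θ * (x ^ 8)⁻¹) := by positivity
    rw [e6]
    linarith

/-! ### fourth moments -/

theorem gauss4 (hGMO : SpecGMO) :
    ∫⁻ x, ENNReal.ofReal (x ^ 4) ∂(gaussianReal 0 2) = ENNReal.ofReal 12 := by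
  rw [← ofReal_integral_eq_lintegral_ofReal (hGMO.2.2.2.2 2 4)
    (ae_of_all _ fun x => by positivity), hGMO.2.1]
  congr 1
  norm_num

theorem chi4 (hQFE : SpecQFE) (N : ℕ) :
    ∫⁻ b, ENNReal.ofReal ((b ^ 2 - N) ^ 4) ∂(chi N) ≤ ENNReal.ofReal (60 * (N : ℝ) ^ 2) := by
  obtain ⟨C, -, H⟩ := hQFE
  have htr : tr (ContinuousLinearMap.id ℝ (EuclideanSpace ℝ (Fin N))) = N := by
    show LinearMap.trace ℝ _ LinearMap.id = _
    rw [LinearMap.trace_id, finrank_euclideanSpace_fin]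
  obtain ⟨-, -, h3, -⟩ := H (EuclideanSpace ℝ (Fin N)) (ContinuousLinearMap.id ℝ _)
    (fun _ _ => rfl)
  have hcomp : (ContinuousLinearMap.id ℝ (EuclideanSpace ℝ (Fin N))) ∘L
      (ContinuousLinearMap.id ℝ (EuclideanSpace ℝ (Fin N))) = ContinuousLinearMap.id ℝ _ := rfl
  rw [hcomp, htr] at h3
  have e : (fun b : ℝ => (b ^ 2 - (N : ℝ)) ^ 4) = fun b : ℝ =>
      b ^ 8 - 4 * N * b ^ 6 + 6 * (N : ℝ) ^ 2 * b ^ 4 - 4 * (N : ℝ) ^ 3 * b ^ 2 +
        (N : ℝ) ^ 4 := by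
    funext b
    ring
  have hi : Integrable (fun b : ℝ => (b ^ 2 - (N : ℝ)) ^ 4) (chi N) := by
    rw [e]
    have := RHOM.chi_prob N
    exact ((((RHOM.chi_int N 8).sub ((RHOM.chi_int N 6).const_mul _)).add
      ((RHOM.chi_int N 4).const_mul _)).sub ((RHOM.chi_int N 2).const_mul _)).add
      (integrable_const _)
  rw [← ofReal_integral_eq_lintegral_ofReal hi (ae_of_all _ fun x => by positivity)]
  apply ENNReal.ofReal_le_ofReal
  unfold chi
  rw [integral_map (by fun_prop) (by fun_prop)]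
  refine le_trans (le_of_eq ?_) h3
  refine integral_congr_ae (ae_of_all _ fun x => ?_)
  change (‖x‖ ^ 2 - (N : ℝ)) ^ 4 = (⟪x, x⟫ - (N : ℝ)) ^ 4
  rw [real_inner_self_eq_norm_sq]

section law
variable {ι : Type} [Fintype ι] [DecidableEq ι] {E : Type} [NormedAddCommGroup E]
  [InnerProductSpace ℝ E] [FiniteDimensional ℝ E] {T : Type} [Fintype T]

theorem lawi (hDEL : SpecDEL) (hMRG : SpecMRG) (hMEA : SpecMEA) (S : BStr ι E) (u : E)
    (c : T → T → ℝ) (ν : Measure (T → E →L[ℝ] E)) (hν : GFam S c ν) (hc : Cor c) (hu : ‖u‖ = 1)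
    (i : T) (k : ℕ) (hk : Fintype.card ι * (k + 1) < Module.finrank ℝ E)
    (f : ℝ × ℝ → ℝ≥0∞) (hfm : Measurable f) :
    ∫⁻ M, f (av (M i) u k, bv (M i) u k) ∂ν = ∫⁻ z, f z ∂((gaussianReal 0 2).prod
      (chi (Module.finrank ℝ E - Fintype.card ι * (k + 1)))) := by
  borelize E
  obtain ⟨-, l2, l3⟩ := RHOM.law hDEL hMRG hMEA S u c ν hν hc hu i (k + 1) hk
  have h1 : ∫⁻ M, f (av (M i) u k, bv (M i) u k) ∂ν =
      ∫⁻ w, f (w (Fin.last k)) ∂(ν.map fun M (j : Fin (k + 1)) => (av (M i) u j, bv (M i) u j)) := by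
    have hg : Measurable fun w : Fin (k + 1) → ℝ × ℝ => f (w (Fin.last k)) :=
      hfm.comp (measurable_pi_apply _)
    exact (lintegral_map hg l2).symm
  rw [h1, l3]
  unfold deLaw
  exact (measurePreserving_eval (fun j : Fin (k + 1) => (gaussianReal 0 2).prod
      (chi (Module.finrank ℝ E - Fintype.card ι * ((j : ℕ) + 1)))) (Fin.last k)).lintegral_comp
      hfm

/-- Markov for a difference -/
theorem markov {Ω : Type*} [MeasurableSpace Ω] (ν : Measure Ω) (X Y : Ω → ℝ) (hX : Measurable X)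
    (hY : Measurable Y) (A : ℝ) (hA : 0 ≤ A) (h1 : ∫⁻ ω, ENNReal.ofReal (X ω ^ 4) ∂ν ≤ ENNReal.ofReal A)
    (h2 : ∫⁻ ω, ENNReal.ofReal (Y ω ^ 4) ∂ν ≤ ENNReal.ofReal A) (x : ℝ) (hx : 0 < x) :
    ν {ω | x < |X ω - Y ω|} ≤ ENNReal.ofReal (16 * A / x ^ 4) := by
  have hm : Measurable fun ω => ENNReal.ofReal (8 / x ^ 4) * (ENNReal.ofReal (X ω ^ 4) +
      ENNReal.ofReal (Y ω ^ 4)) := by fun_prop
  calc ν {ω | x < |X ω - Y ω|} ≤ ν {ω | 1 ≤ ENNReal.ofReal (8 / x ^ 4) *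
        (ENNReal.ofReal (X ω ^ 4) + ENNReal.ofReal (Y ω ^ 4))} := by
        refine measure_mono fun ω hω => ?_
        have hω' : x < |X ω - Y ω| := hω
        show 1 ≤ ENNReal.ofReal (8 / x ^ 4) *
          (ENNReal.ofReal (X ω ^ 4) + ENNReal.ofReal (Y ω ^ 4))
        rw [← ENNReal.ofReal_add (by positivity) (by positivity),
          ← ENNReal.ofReal_mul (by positivity), ← ENNReal.ofReal_one]
        apply ENNReal.ofReal_le_ofReal
        have h3 : x ^ 4 ≤ |X ω - Y ω| ^ 4 := pow_le_pow_left₀ hx.le hω'.le 4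
        have h4 : |X ω - Y ω| ^ 4 = (X ω - Y ω) ^ 4 := by
          have : Even 4 := by decide
          exact this.pow_abs _
        have h5 : (X ω - Y ω) ^ 4 ≤ 8 * (X ω ^ 4 + Y ω ^ 4) := by
          generalize X ω = p
          generalize Y ω = q
          have g1 : (p - q) ^ 2 ≤ 2 * (p ^ 2 + q ^ 2) := by nlinarith [sq_nonneg (p + q)]
          have g2 : ((p - q) ^ 2) ^ 2 ≤ (2 * (p ^ 2 + q ^ 2)) ^ 2 :=
            pow_le_pow_left₀ (sq_nonneg _) g1 2
          nlinarith [sq_nonneg (p ^ 2 - q ^ 2)]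
        rw [h4] at h3
        rw [div_mul_eq_mul_div, le_div_iff₀ (by positivity), one_mul]
        exact h3.trans h5
    _ ≤ ∫⁻ ω, ENNReal.ofReal (8 / x ^ 4) * (ENNReal.ofReal (X ω ^ 4) +
      ENNReal.ofReal (Y ω ^ 4)) ∂ν := by
        have := mul_meas_ge_le_lintegral hm (μ := ν) 1
        rwa [one_mul] at this
    _ ≤ ENNReal.ofReal (8 / x ^ 4) * (ENNReal.ofReal A + ENNReal.ofReal A) := by
        rw [lintegral_const_mul' _ _ ENNReal.ofReal_ne_top,
          lintegral_add_left (by fun_prop)]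
        exact mul_le_mul_right (add_le_add h1 h2) _
    _ = ENNReal.ofReal (16 * A / x ^ 4) := by
        rw [← ENNReal.ofReal_add hA hA, ← ENNReal.ofReal_mul (by positivity)]
        congr 1
        ring

end law

/-- the first and second term are monotone in the constant -/
theorem mono (c C X : ℝ) (hc : 0 < c) (hcC : c ≤ C) (hX : 0 ≤ X) :
    c * Real.exp (-(X / c)) ≤ C * Real.exp (-(X / C)) := by
  have h1 : X / C ≤ X / c := div_le_div_of_nonneg_left hX hc hcC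
  exact mul_le_mul hcC (Real.exp_le_exp.2 (by linarith)) (Real.exp_pos _).le (by linarith)

theorem mono2 (c C X s : ℝ) (hc : 0 < c) (hcC : c ≤ C) (hX : 0 ≤ X) (hs : 0 < s) :
    c * Real.exp (-(X / (c * s))) ≤ C * Real.exp (-(X / (C * s))) := by
  have e : ∀ c : ℝ, X / (c * s) = X / s / c := fun c => by rw [div_div, mul_comm]
  rw [e, e]
  exact mono c C (X / s) hc hcC (by positivity)

end LDPM

open LDPM in
theorem specLDP (hLDA : SpecLDA) (hLDB : SpecLDB) (hDEL : SpecDEL) (hMRG : SpecMRG)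
    (hMEA : SpecMEA) (hQFE : SpecQFE) (hGMO : SpecGMO) : SpecLDP := by
  intro ι _ _
  obtain ⟨C1, hC1, hA⟩ := hLDA ι
  obtain ⟨C2, hC2, hB⟩ := hLDB ι
  have hC20 : 0 < C2 := by linarith
  obtain ⟨C, hCdef⟩ : ∃ C, C = max C1 C2 := ⟨_, rfl⟩
  have h1C : C1 ≤ C := by rw [hCdef]; exact le_max_left _ _
  have h2C : C2 ≤ C := by rw [hCdef]; exact le_max_right _ _
  have hC : 1 ≤ C := by linarith
  have hC0 : 0 < C := by linarith
  obtain ⟨β, hβ⟩ : ∃ β : ℕ, β = Fintype.card ι := ⟨_, rfl⟩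
  have hδ0 : 0 < 1 / (C + β + 1) := by positivity
  refine ⟨1440 + 192 * C ^ 5 + 2 * C ^ 3 + 16 * 60 +
      (720 + 40320 * 64 * C ^ 9 + 6 * C ^ 4), 1 / (C + β + 1), by positivity, hδ0, ?_⟩
  intro E _ _ _ S u τ μ hτ hμ hu k x hD1 hk hkτ hx
  borelize E
  have hcor := cor_c2 τ hτ
  obtain ⟨D, hD⟩ : ∃ D : ℝ, D = dm E := ⟨_, rfl⟩
  rw [← hD] at hD1 hk
  rw [← hD]
  rw [one_div_one_div] at hD1
  have hβ0 : (0 : ℝ) ≤ β := Nat.cast_nonneg β
  have hDone : 1 ≤ D := by linarith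
  have hD0 : 0 < D := by linarith
  obtain ⟨L, hL⟩ : ∃ L : ℝ, L = D ^ (1 / 7 : ℝ) := ⟨_, rfl⟩
  have hL0 : 0 < L := by rw [hL]; positivity
  have hL1 : 1 ≤ L := by rw [hL]; exact Real.one_le_rpow hDone (by norm_num)
  have hL7 : D = L ^ 7 := by
    rw [hL, ← Real.rpow_natCast, ← Real.rpow_mul hD0.le]
    norm_num
  have hL3 : D ^ (3 / 7 : ℝ) = L ^ 3 := by
    rw [hL, ← Real.rpow_natCast, ← Real.rpow_mul hD0.le]
    norm_num
  have hL4 : D ^ (-(4 / 7) : ℝ) = (L ^ 4)⁻¹ := by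
    rw [hL, ← Real.rpow_natCast, ← Real.rpow_mul hD0.le, ← Real.rpow_neg hD0.le]
    norm_num
  rw [hL3] at hk
  rw [hL4]
  have hk0 : (0 : ℝ) ≤ k := Nat.cast_nonneg k
  obtain ⟨κ, hκdef⟩ : ∃ κ : ℝ, κ = (k : ℝ) + 1 := ⟨_, rfl⟩
  have hκ1 : 1 ≤ κ := by rw [hκdef]; linarith
  rw [← hκdef] at hk hkτ
  rw [← hκdef]
  have hκL' : (C + β + 1) * κ ≤ L ^ 3 := by
    have h1 : (C + β + 1) * κ ≤ (C + β + 1) * (1 / (C + β + 1) * L ^ 3) :=
      mul_le_mul_of_nonneg_left hk (by positivity)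
    have h2 : (C + β + 1) * (1 / (C + β + 1) * L ^ 3) = L ^ 3 := by field_simp
    linarith
  have hβκ : 0 ≤ (β : ℝ) * κ := by positivity
  have hCκ0 : 0 ≤ C * κ := by positivity
  have hκL : C * κ ≤ L ^ 3 := by nlinarith
  have ha0 : 0 ≤ κ * τ := by positivity
  -- the dimension
  have hfr : Fintype.card ι * (k + 1) < Module.finrank ℝ E := by
    have h1 : (β : ℝ) * κ < D := by
      have h2 : L ^ 3 ≤ L ^ 7 := pow_le_pow_right₀ hL1 (by norm_num)
      rw [hL7]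
      nlinarith
    have h3 : ((β * (k + 1) : ℕ) : ℝ) < (Module.finrank ℝ E : ℝ) := by
      push_cast
      rw [← hκdef]
      have : (Module.finrank ℝ E : ℝ) = D := by rw [hD]; rfl
      rw [this]
      exact h1
    rw [← hβ]
    exact_mod_cast h3
  obtain ⟨N, hN⟩ : ∃ N : ℕ, N = Module.finrank ℝ E - Fintype.card ι * (k + 1) := ⟨_, rfl⟩
  have hNpos : 0 < N := by rw [hN]; exact Nat.sub_pos_of_lt hfr
  have hNr : (0 : ℝ) < N := by exact_mod_cast hNpos
  have hnk : nk ι E k = N := by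
    unfold nk dm
    rw [hN, Nat.cast_sub hfr.le]
    push_cast
    ring
  -- measurability
  have ma : ∀ i, Measurable fun M : Fin 2 → E →L[ℝ] E => av (M i) u k :=
    (hMEA ι E (Fin 2) S u k).2.2.1
  have mb : ∀ i, Measurable fun M : Fin 2 → E →L[ℝ] E => bv (M i) u k :=
    (hMEA ι E (Fin 2) S u k).2.2.2.1
  have mbn : ∀ i, Measurable fun M : Fin 2 → E →L[ℝ] E => bn ι (M i) u k := by
    intro i
    have := mb i
    unfold bn
    fun_prop
  have := RHOM.chi_prob N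
  -- fourth moments
  have m4a : ∀ i, ∫⁻ M, ENNReal.ofReal (av (M i) u k ^ 4) ∂μ ≤ ENNReal.ofReal 60 := by
    intro i
    have h1 := lawi hDEL hMRG hMEA S u _ μ hμ hcor hu i k hfr
      (fun z => ENNReal.ofReal (z.1 ^ 4)) (by fun_prop)
    refine (le_of_eq h1).trans ?_
    have h2 := (measurePreserving_fst (μ := gaussianReal 0 2) (ν := chi N)).lintegral_comp
      (f := fun x : ℝ => ENNReal.ofReal (x ^ 4)) (by fun_prop)
    rw [← hN]
    refine (le_of_eq h2).trans ?_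
    rw [gauss4 hGMO]
    exact ENNReal.ofReal_le_ofReal (by norm_num)
  have m4b : ∀ i, ∫⁻ M, ENNReal.ofReal (bn ι (M i) u k ^ 4) ∂μ ≤ ENNReal.ofReal 60 := by
    intro i
    have h1 := lawi hDEL hMRG hMEA S u _ μ hμ hcor hu i k hfr
      (fun z => ENNReal.ofReal (((z.2 ^ 2 - N) / Real.sqrt N) ^ 4)) (by fun_prop)
    have h0 : ∀ M : Fin 2 → E →L[ℝ] E, bn ι (M i) u k = (bv (M i) u k ^ 2 - N) / Real.sqrt N := by
      intro M
      unfold bn
      rw [hnk]
    simp only [h0]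
    refine (le_of_eq h1).trans ?_
    have h2 := (measurePreserving_snd (μ := gaussianReal 0 2) (ν := chi N)).lintegral_comp
      (f := fun x : ℝ => ENNReal.ofReal (((x ^ 2 - N) / Real.sqrt N) ^ 4)) (by fun_prop)
    rw [← hN]
    refine (le_of_eq h2).trans ?_
    have e : ∀ b : ℝ, ENNReal.ofReal (((b ^ 2 - N) / Real.sqrt N) ^ 4) =
        ENNReal.ofReal (((N : ℝ) ^ 2)⁻¹) * ENNReal.ofReal ((b ^ 2 - N) ^ 4) := by
      intro b
      rw [← ENNReal.ofReal_mul (by positivity)]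
      congr 1
      have h3 : Real.sqrt (N : ℝ) ^ 4 = (N : ℝ) ^ 2 := by
        have h4 : Real.sqrt (N : ℝ) ^ 4 = (Real.sqrt (N : ℝ) ^ 2) ^ 2 := by ring
        rw [h4, Real.sq_sqrt hNr.le]
      rw [div_pow, h3]
      field_simp
    simp only [e]
    rw [lintegral_const_mul' _ _ ENNReal.ofReal_ne_top]
    calc ENNReal.ofReal (((N : ℝ) ^ 2)⁻¹) * ∫⁻ b, ENNReal.ofReal ((b ^ 2 - N) ^ 4) ∂(chi N)
        ≤ ENNReal.ofReal (((N : ℝ) ^ 2)⁻¹) * ENNReal.ofReal (60 * (N : ℝ) ^ 2) :=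
          mul_le_mul_right (chi4 hQFE N) _
      _ = ENNReal.ofReal 60 := by
          rw [← ENNReal.ofReal_mul (by positivity)]
          congr 1
          field_simp
  -- hypotheses of LDA and LDB
  have hε : 0 < 1 / L := by positivity
  have hε1 : 1 / L ≤ 1 := by rw [div_le_one hL0]; exact hL1
  have hεD : 1 / L * D = L ^ 6 := by rw [hL7]; field_simp
  have hcond : ∀ c, 0 < c → c ≤ C → c * κ ^ 2 ≤ 1 / L * D := by
    intro c hc hcC
    rw [hεD]
    have h1 : c * κ ≤ L ^ 3 := (mul_le_mul_of_nonneg_right hcC (by linarith)).trans hκL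
    have h2 : κ ≤ L ^ 3 := by nlinarith
    calc c * κ ^ 2 = (c * κ) * κ := by ring
      _ ≤ L ^ 3 * L ^ 3 := mul_le_mul h1 h2 (by linarith) (by positivity)
      _ = L ^ 6 := by ring
  have hsq : 1 ≤ (1 / L) ^ 2 * Real.sqrt D := by
    have h1 := sqrt7 L hL1
    rw [← hL7] at h1
    calc (1 : ℝ) ≤ L := hL1
      _ = (1 / L) ^ 2 * L ^ 3 := by field_simp
      _ ≤ _ := mul_le_mul_of_nonneg_left h1 (by positivity)
  have hmon : ∀ c, 0 < c → c ≤ C → c * κ * Real.exp (-((1 / L) ^ 2 * D / (c * κ))) ≤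
      C * κ * Real.exp (-((1 / L) ^ 2 * L ^ 7 / (C * κ))) := by
    intro c hc hcC
    rw [hL7]
    exact mono (c * κ) (C * κ) _ (by positivity) (mul_le_mul_of_nonneg_right hcC (by linarith))
      (by positivity)
  have hsa : 0 < 1 / L + κ * τ := by linarith
  have hanti : ∀ (X Y : (Fin 2 → E →L[ℝ] E) → ℝ) (y z : ℝ), y ≤ z →
      μ {M | z < |X M - Y M|} ≤ μ {M | y < |X M - Y M|} := by
    intro X Y y z hyz
    refine measure_mono fun M hM => ?_
    exact lt_of_le_of_lt hyz hM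
  constructor
  · refine final C (16 * 60) κ (κ * τ) L hC (by norm_num) hκ1 hκL hL1 ha0 hkτ
      (fun x => μ {M | x < |av (M 1) u k - av (M 0) u k|}) (hanti _ _) ?_ ?_ x hx
    · intro y hy hy1
      have h := hA E S u τ μ hτ hμ hu k (1 / L) y (by
        rw [← hκdef, ← hD]; exact hcond C1 hC1 h1C) (by rw [← hκdef]; exact hkτ) hε hε1 hy
      rw [← hκdef, ← hD] at h
      refine h.trans (ENNReal.ofReal_le_ofReal ?_)
      have i1 := hmon C1 hC1 h1C
      have i2 := mono2 C1 C (y ^ 2) (1 / L + κ * τ) hC1 h1C (sq_nonneg _) hsa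
      have i3 : 0 ≤ C * Real.exp (-(y * Real.sqrt (L ^ 7) / C)) := by positivity
      linarith
    · intro y hy
      exact markov μ _ _ (ma 1) (ma 0) 60 (by norm_num) (m4a 1) (m4a 0) y hy
  · refine final C (16 * 60) κ (κ * τ) L hC (by norm_num) hκ1 hκL hL1 ha0 hkτ
      (fun x => μ {M | x < |bn ι (M 1) u k - bn ι (M 0) u k|}) (hanti _ _) ?_ ?_ x hx
    · intro y hy hy1
      have h := hB E S u τ μ hτ hμ hu k (1 / L) y (by
        rw [← hκdef, ← hD]; exact hcond C2 hC20 h2C) (by rw [← hκdef]; exact hkτ) hε hε1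
        (by rw [← hD]; exact hsq) hy hy1
      rw [← hκdef, ← hD] at h
      refine h.trans (ENNReal.ofReal_le_ofReal ?_)
      have i1 := hmon C2 hC20 h2C
      have i2 := mono2 C2 C (y ^ 2) (1 / L + κ * τ) hC20 h2C (sq_nonneg _) hsa
      have i3 := mono C2 C (y * Real.sqrt D) hC20 h2C (by positivity)
      rw [hL7] at i3
      rw [hL7] at i1 ⊢
      linarith
    · intro y hy
      exact markov μ _ _ (mbn 1) (mbn 0) 60 (by norm_num) (m4b 1) (m4b 0) y hy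

end Pool.Agent.Lib.MP17fa2c
end

section
/-!
# MP_17fa2c_pr, module RUP: upper tail of `ρ`
-/
set_option autoImplicit false

open MeasureTheory ProbabilityTheory Filter Topology
open scoped RealInnerProductSpace NNReal ENNReal

namespace Pool.Agent.Lib.MP17fa2c

namespace RUPM

/-- One-dimensional exponential moment, positive exponent. -/
theorem one_dim (hMGC : SpecMGC) (N D : ℕ) (s : ℝ) (hD : 0 < D) (hN : N ≤ D) (h0 : 0 ≤ s)
    (hs : 4 * s ≤ D) : ∫⁻ b, ENNReal.ofReal (Real.exp (s * (b ^ 2 / D - 1))) ∂(chi N) ≤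
    ENNReal.ofReal (Real.exp (2 * s ^ 2 / D)) := by
  have hDr : (0 : ℝ) < D := by exact_mod_cast hD
  have hNr : (N : ℝ) ≤ D := by exact_mod_cast hN
  have hN0 : (0 : ℝ) ≤ N := Nat.cast_nonneg _
  set θ : ℝ := s / D with hθ
  have hθ0 : 0 ≤ θ := by rw [hθ]; positivity
  have hθa : θ ≤ 1 / 4 := by
    rw [hθ, div_le_iff₀ hDr]
    linarith
  have hθ2 : θ < 1 / 2 := by linarith
  have h1 : ∫⁻ b, ENNReal.ofReal (Real.exp (s * (b ^ 2 / D - 1))) ∂(chi N) =
      ENNReal.ofReal (Real.exp (-s)) * ENNReal.ofReal ((1 - 2 * θ) ^ (-(N : ℝ) / 2)) := by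
    rw [← hMGC N θ hθ2, ← lintegral_const_mul' _ _ ENNReal.ofReal_ne_top]
    refine lintegral_congr fun b => ?_
    rw [← ENNReal.ofReal_mul (Real.exp_pos _).le, ← Real.exp_add]
    congr 2
    rw [hθ]
    ring
  rw [h1, ← ENNReal.ofReal_mul (Real.exp_pos _).le]
  apply ENNReal.ofReal_le_ofReal
  have h2 : 0 < 1 - 2 * θ := by linarith
  rw [Real.rpow_def_of_pos h2, ← Real.exp_add]
  apply Real.exp_le_exp.mpr
  have h3 := EXCM.log_bd (2 * θ) (by rw [abs_of_nonneg (by linarith)]; linarith)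
  have h4 : Real.log (1 - 2 * θ) * (-(N : ℝ) / 2) ≤ (N : ℝ) / 2 * (2 * θ + (2 * θ) ^ 2) := by
    have := mul_le_mul_of_nonneg_left h3 (by positivity : (0 : ℝ) ≤ N / 2)
    linarith
  have h5 : (N : ℝ) / 2 * (2 * θ + (2 * θ) ^ 2) = N / D * s + 2 * (N / D) * (s ^ 2 / D) := by
    rw [hθ]; field_simp
  have h6 : (N : ℝ) / D ≤ 1 := by rw [div_le_one hDr]; exact hNr
  have h7 : 0 ≤ s ^ 2 / D := by positivity
  have h8 : 2 * ((N : ℝ) / D) * (s ^ 2 / D) ≤ 2 * (s ^ 2 / D) := by nlinarith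
  have h9 : (N : ℝ) / D * s ≤ s := by nlinarith
  have h11 : 2 * s ^ 2 / D = 2 * (s ^ 2 / (D : ℝ)) := by ring
  rw [h11]
  linarith

theorem total (hMGC : SpecMGC) (β j D : ℕ) (s : ℝ) (hD : 0 < D) (h0 : 0 ≤ s)
    (hs : 4 * s ≤ D) :
    ∫⁻ w : Fin j → ℝ × ℝ, ENNReal.ofReal (Real.exp (s * ∑ l : Fin j, ((w l).2 ^ 2 / (D : ℝ) - 1)))
      ∂(deLaw (fun j => D - β * (j + 1)) j) ≤
      ENNReal.ofReal (Real.exp (2 * s ^ 2 * j / D)) := by
  have h1 : ∀ w : Fin j → ℝ × ℝ,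
      ENNReal.ofReal (Real.exp (s * ∑ l : Fin j, ((w l).2 ^ 2 / (D : ℝ) - 1))) =
      ∏ l : Fin j, ENNReal.ofReal (Real.exp (s * ((w l).2 ^ 2 / (D : ℝ) - 1))) := by
    intro w
    rw [Finset.mul_sum, Real.exp_sum,
      ENNReal.ofReal_prod_of_nonneg (fun _ _ => (Real.exp_pos _).le)]
  simp only [h1]
  unfold deLaw
  rw [EXCM.lint_prod (fun l : Fin j => (gaussianReal 0 2).prod (chi (D - β * (l + 1))))
    (fun (_ : Fin j) (z : ℝ × ℝ) => ENNReal.ofReal (Real.exp (s * (z.2 ^ 2 / (D : ℝ) - 1))))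
    (fun l => by fun_prop)]
  have h2 : ENNReal.ofReal (Real.exp (2 * s ^ 2 * j / D)) =
      ∏ _l : Fin j, ENNReal.ofReal (Real.exp (2 * s ^ 2 / D)) := by
    rw [Finset.prod_const, Finset.card_univ, Fintype.card_fin,
      ← ENNReal.ofReal_pow (Real.exp_pos _).le, ← Real.exp_nat_mul]
    congr 2
    ring
  rw [h2]
  refine Finset.prod_le_prod' (fun l _ => ?_)
  rw [lintegral_prod _ (by fun_prop)]
  simp only [lintegral_const, measure_univ, mul_one]
  exact one_dim hMGC _ D s hD (Nat.sub_le _ _) h0 hs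

variable {ι : Type} [Fintype ι] [DecidableEq ι] {E : Type} [NormedAddCommGroup E]
  [InnerProductSpace ℝ E] [FiniteDimensional ℝ E] {T : Type} [Fintype T]

theorem one_j (hDEL : SpecDEL) (hMRG : SpecMRG) (hMGC : SpecMGC) (hMEA : SpecMEA)
    (S : BStr ι E) (u : E)
    (c : T → T → ℝ) (ν : Measure (T → E →L[ℝ] E)) (hν : GFam S c ν) (hc : Cor c) (hu : ‖u‖ = 1)
    (i : T) (j : ℕ) (hj : Fintype.card ι * j < Module.finrank ℝ E) (x s : ℝ) (h0 : 0 ≤ s)
    (hs : 4 * s ≤ dm E) :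
    ν {M | Real.exp x < rho (M i) u j ^ 2} ≤
      ENNReal.ofReal (Real.exp (2 * s ^ 2 * j / dm E - s * x)) := by
  let _ : MeasurableSpace E := borel E
  have : BorelSpace E := ⟨rfl⟩
  have := hν.gauss
  set β : ℕ := Fintype.card ι with hβ
  set D : ℕ := Module.finrank ℝ E with hD
  have hdm : dm E = D := rfl
  have hDp : 0 < D := by omega
  have hDr : (0 : ℝ) < D := by exact_mod_cast hDp
  obtain ⟨-, l4, l5⟩ := RHOM.law hDEL hMRG hMEA S u c ν hν hc hu i j hj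
  have hrho : ∀ M : T → E →L[ℝ] E, rho (M i) u j ^ 2 =
      ∏ l ∈ Finset.range j, (bv (M i) u l ^ 2 / D) := by
    intro M
    unfold rho
    rw [← Finset.prod_pow]
    refine Finset.prod_congr rfl fun l _ => ?_
    rw [div_pow, hdm, Real.sq_sqrt hDr.le]
  have hle : ∀ M : T → E →L[ℝ] E, rho (M i) u j ^ 2 ≤
      Real.exp (∑ l : Fin j, (bv (M i) u l ^ 2 / (D : ℝ) - 1)) := by
    intro M
    rw [hrho, ← Finset.sum_range (fun l => (bv (M i) u l ^ 2 / (D : ℝ) - 1)), Real.exp_sum]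
    refine Finset.prod_le_prod (fun l _ => by positivity) fun l _ => ?_
    have := Real.add_one_le_exp (bv (M i) u l ^ 2 / (D : ℝ) - 1)
    linarith
  set g : (Fin j → ℝ × ℝ) → ℝ≥0∞ := fun w =>
    ENNReal.ofReal (Real.exp (s * ∑ l : Fin j, ((w l).2 ^ 2 / (D : ℝ) - 1))) with hg
  have hgm : Measurable g := by
    rw [hg]
    fun_prop
  have hI : ∫⁻ M, g (fun l : Fin j => (av (M i) u l, bv (M i) u l)) ∂ν ≤
      ENNReal.ofReal (Real.exp (2 * s ^ 2 * j / D)) := by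
    rw [← lintegral_map hgm l4, l5]
    exact total hMGC β j D s hDp h0 (by rw [← hdm]; exact hs)
  have hmM : Measurable fun M : T → E →L[ℝ] E =>
      g (fun l : Fin j => (av (M i) u l, bv (M i) u l)) := hgm.comp l4
  have hsub : {M : T → E →L[ℝ] E | Real.exp x < rho (M i) u j ^ 2} ⊆
      {M | ENNReal.ofReal (Real.exp (s * x)) ≤
        g (fun l : Fin j => (av (M i) u l, bv (M i) u l))} := by
    intro M hM
    have h1 : Real.exp x < Real.exp (∑ l : Fin j, (bv (M i) u l ^ 2 / (D : ℝ) - 1)) :=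
      lt_of_lt_of_le hM (hle M)
    have h2 := (Real.exp_lt_exp.mp h1).le
    show ENNReal.ofReal (Real.exp (s * x)) ≤
      ENNReal.ofReal (Real.exp (s * ∑ l : Fin j, (bv (M i) u l ^ 2 / (D : ℝ) - 1)))
    exact ENNReal.ofReal_le_ofReal (Real.exp_le_exp.mpr (mul_le_mul_of_nonneg_left h2 h0))
  have hmk := mul_meas_ge_le_lintegral (μ := ν) hmM (ENNReal.ofReal (Real.exp (s * x)))
  have h3 : ENNReal.ofReal (Real.exp (s * x)) *
      ν {M | Real.exp x < rho (M i) u j ^ 2} ≤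
      ENNReal.ofReal (Real.exp (2 * s ^ 2 * j / D)) :=
    (mul_le_mul_right (measure_mono hsub) _).trans (hmk.trans hI)
  have h4 : ν {M | Real.exp x < rho (M i) u j ^ 2} =
      ENNReal.ofReal (Real.exp (-(s * x))) * (ENNReal.ofReal (Real.exp (s * x)) *
      ν {M | Real.exp x < rho (M i) u j ^ 2}) := by
    rw [← mul_assoc, ← ENNReal.ofReal_mul (Real.exp_pos _).le, ← Real.exp_add]
    simp
  rw [h4]
  refine (mul_le_mul_right h3 _).trans_eq ?_
  rw [← ENNReal.ofReal_mul (Real.exp_pos _).le, ← Real.exp_add]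
  congr 2
  rw [hdm]
  ring

end RUPM

open RUPM in
/-- Module RUP. -/
theorem specRUP (hDEL : SpecDEL) (hMRG : SpecMRG) (hMGC : SpecMGC) (hMEA : SpecMEA) :
    SpecRUP := by
  intro ι _ _
  set β : ℕ := Fintype.card ι with hβ
  refine ⟨β + 8, by positivity, ?_⟩
  intro E _ _ _ T _ S u c ν hν hc hu i k x hk hx0 hx1
  set D : ℕ := Module.finrank ℝ E with hD
  have hdm : dm E = D := rfl
  rw [hdm] at hk ⊢
  have hk' : (β + 8) * (k + 1) ≤ D := by exact_mod_cast hk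
  have hβD : β * (k + 1) < D := by nlinarith
  have hDp : 0 < D := by omega
  have hDr : (0 : ℝ) < D := by exact_mod_cast hDp
  have hk0 : (0 : ℝ) < (k : ℝ) + 1 := by positivity
  set s : ℝ := x * D / (4 * (k + 1)) with hs
  have hs0 : 0 ≤ s := by rw [hs]; positivity
  have hs1 : 4 * s ≤ D := by
    rw [hs]
    have h1 : 4 * (x * D / (4 * ((k : ℝ) + 1))) = x * D / (k + 1) := by field_simp
    rw [h1, div_le_iff₀ hk0]
    nlinarith [mul_nonneg hDr.le (Nat.cast_nonneg (α := ℝ) k)]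
  have hsub : {M : T → E →L[ℝ] E | ∃ j ≤ k, Real.exp x < rho (M i) u j ^ 2} ⊆
      ⋃ j ∈ Finset.range (k + 1), {M | Real.exp x < rho (M i) u j ^ 2} := by
    intro M ⟨j, hj, hM⟩
    simp only [Set.mem_iUnion, Finset.mem_range]
    exact ⟨j, by omega, hM⟩
  have h1 : ∀ j ∈ Finset.range (k + 1), ν {M | Real.exp x < rho (M i) u j ^ 2} ≤
      ENNReal.ofReal (Real.exp (-(x ^ 2 * D / ((β + 8) * (k + 1))))) := by
    intro j hj
    have hjk : j ≤ k := by
      have := Finset.mem_range.mp hj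
      omega
    have hj2 : β * j < D :=
      lt_of_le_of_lt (Nat.mul_le_mul_left _ (by omega : j ≤ k + 1)) hβD
    refine (one_j hDEL hMRG hMGC hMEA S u c ν hν hc hu i j hj2 x s hs0
      (by rw [hdm]; exact hs1)).trans (ENNReal.ofReal_le_ofReal (Real.exp_le_exp.mpr ?_))
    rw [hdm]
    have hjr : (j : ℝ) ≤ k + 1 := by
      have : j ≤ k + 1 := by omega
      exact_mod_cast this
    have e1 : 2 * s ^ 2 * j / D ≤ 2 * s ^ 2 * (k + 1) / D := by gcongr
    have e2 : 2 * s ^ 2 * ((k : ℝ) + 1) / D - s * x = -(x ^ 2 * D / (8 * (k + 1))) := by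
      rw [hs]
      field_simp
      ring
    have e3 : x ^ 2 * D / (((β : ℝ) + 8) * (k + 1)) ≤ x ^ 2 * D / (8 * (k + 1)) := by
      apply div_le_div_of_nonneg_left (by positivity) (by positivity)
      apply mul_le_mul_of_nonneg_right _ hk0.le
      linarith [Nat.cast_nonneg (α := ℝ) β]
    linarith
  refine (measure_mono hsub).trans ((measure_biUnion_finset_le _ _).trans
    ((Finset.sum_le_sum h1).trans ?_))
  rw [Finset.sum_const, Finset.card_range, nsmul_eq_mul, ← ENNReal.ofReal_natCast (k + 1),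
    ← ENNReal.ofReal_mul (by positivity)]
  apply ENNReal.ofReal_le_ofReal
  apply mul_le_mul_of_nonneg_right _ (Real.exp_pos _).le
  push_cast
  nlinarith [Nat.cast_nonneg (α := ℝ) β, mul_nonneg (Nat.cast_nonneg (α := ℝ) β) hk0.le]

end Pool.Agent.Lib.MP17fa2c
end
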