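import Pool.Agent.Lib.MP_17fa2c_pr.TD.SpecT

section
/-!
# MP_17fa2c_pr, module NRM: norms of the gradient vectors
-/
set_option autoImplicit false

open MeasureTheory ProbabilityTheory Filter Topology Polynomial
open scoped RealInnerProductSpace NNReal ENNReal

namespace Pool.Agent.Lib.MP17fa2c

namespace NRMM

lemma aev {E : Type} [NormedAddCommGroup E] [InnerProductSpace ℝ E]
    (T : E →L[ℝ] E) (c : ℝ) (x : E) : aeval T (C c) x = c • x := by
  rw [aeval_C, Algebra.algebraMap_eq_smul_one]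
  rfl

/-- `ex` is monotone: block of length `N` starting at `i` inside `[0, M)`. -/
lemma ex_le (b : ℕ → ℝ) (ω : ℝ) (hω : 0 ≤ ω) (i N M : ℕ) (h : i + N ≤ M) :
    ex N ω (fun l => b (i + l)) ≤ ex M ω b := by
  unfold ex
  have h1 : (N : ℝ) * ω ≤ M * ω := by
    have : (N : ℝ) ≤ M := by exact_mod_cast (by omega : N ≤ M)
    exact mul_le_mul_of_nonneg_right this hω
  have h2 : ∑ l ∈ Finset.range N, max 0 (-Real.log (2 * b (i + l))) ≤
      ∑ l ∈ Finset.range M, max 0 (-Real.log (2 * b l)) := by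
    calc ∑ l ∈ Finset.range N, max 0 (-Real.log (2 * b (i + l)))
        = ∑ l ∈ Finset.Ico i (i + N), max 0 (-Real.log (2 * b l)) := by
          rw [Finset.sum_Ico_eq_sum_range]
          simp
      _ ≤ _ := by
          apply Finset.sum_le_sum_of_subset_of_nonneg
          · intro l hl
            rw [Finset.mem_Ico] at hl
            exact Finset.mem_range.2 (by omega)
          · intro l _ _
            exact le_max_left _ _
  exact add_le_add h1 h2

lemma ex_nonneg (b : ℕ → ℝ) (ω : ℝ) (hω : 0 ≤ ω) (N : ℕ) : (N : ℝ) * ω ≤ ex N ω b ∧ 0 ≤ ex N ω b := by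
  unfold ex
  have : 0 ≤ ∑ l ∈ Finset.range N, max 0 (-Real.log (2 * b l)) :=
    Finset.sum_nonneg fun l _ => le_max_left _ _
  have h2 : (0 : ℝ) ≤ N * ω := mul_nonneg (Nat.cast_nonneg _) hω
  exact ⟨by linarith, by linarith⟩

end NRMM

open NRMM

theorem specNRM (hBLK : SpecBLK) (hOPD : SpecOPD) (hSPB : SpecSPB) (hLMX : SpecLMX)
    (hEDG : SpecEDG) (hLO : SpecLO) : SpecNRM := by
  obtain ⟨C₀, hC₀, hE⟩ := hEDG
  refine ⟨2 * C₀ + 1, by linarith, ?_⟩
  intro E _ _ _ A u k ω hG i hik
  obtain ⟨m, hm⟩ : ∃ m, k = i + 1 + m := ⟨k - (i + 1), by omega⟩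
  subst hm
  -- block from `i+1`, length `N = 2 m + 3`, so `k = (i+1) + m`
  set N : ℕ := 2 * m + 3 with hN
  set j : ℕ := i + 1 with hj
  set a := av A u with ha
  set b := bv A u with hb
  have hbpos : ∀ l ≤ 2 * (j + m) + 2, 0 < b l := fun l hl =>
    lt_of_le_of_ne (norm_nonneg _) (Ne.symm (hG.b_ne l hl))
  have hjN : j + N ≤ 2 * (j + m) + 3 := by omega
  have hω : 0 < ω := hG.pos
  have hED : EdgeData (fun l => a (j + l)) (fun l => b (j + l)) N ω := by
    refine ⟨hω, fun l hl => hbpos _ (by omega), fun l hl => ?_, fun l hl => ?_⟩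
    · have := hG.suma j (j + l) (by omega) (by omega)
      rw [Finset.sum_Ico_eq_sum_range] at this
      simpa using this
    · have := hG.sumb j (j + l) (by omega) (by omega)
      rw [Finset.sum_Ico_eq_sum_range] at this
      simpa using this
  obtain ⟨hB1, hB2, hB3, hB4, hB5⟩ := hBLK E A u j N hG.sym hG.unit
    (fun l hl => hG.b_ne l (by omega))
  set T := blk A u j N with hT
  have hquad : ∀ x, |⟪x, T x⟫| ≤ (2 + 100 * ω ^ 2) * ‖x‖ ^ 2 := by
    intro x
    rw [hB2]
    refine (hLMX _ _ N ω hED (fun l => ⟪qv A u (j + l), x⟫)).trans ?_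
    exact mul_le_mul_of_nonneg_left (hB3 x) (by positivity)
  obtain ⟨hdeg, hpr, hop1⟩ := hOPD a b j
  -- edge estimate
  set K : ℝ := C₀ * Real.exp (C₀ * ex N ω (fun l => b (j + l))) with hK
  have hK0 : 0 ≤ K := by positivity
  have hedge : ∀ y : ℝ, |y| ≤ 2 + 100 * ω ^ 2 →
      (0 ≤ y → ∀ l < N, |((opp a b j (l + 1)).2).eval y - ((opp a b j l).2).eval y| ≤ K) ∧
      (y ≤ 0 → ∀ l < N, |((opp a b j (l + 1)).2).eval y + ((opp a b j l).2).eval y| ≤ K) ∧
      (∀ l, l + 1 < N → |b (j + (l + 1)) * ((opp a b j (l + 2)).2).eval y -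
        b (j + l) * ((opp a b j l).2).eval y| ≤ K) ∧
      (0 < N → |y - a (j + 0)| ≤ K) := by
    intro y hy
    exact hE _ _ N ω y _ hED (hpr N (fun l hl => (hbpos _ (by omega)).ne') y) hy
  obtain ⟨hS1, hS2⟩ := hSPB E T (2 + 100 * ω ^ 2) K hB1 hquad hK0
  obtain ⟨-, hqn, -⟩ := hLO E A u hG.sym hG.unit
  have hqorth := (hLO E A u hG.sym hG.unit).1
  have hqnorm : ∀ l ≤ 2 * (j + m) + 2, ‖qv A u l‖ = 1 := fun l hl =>
    hqn l fun l' hl' => hG.b_ne l' (by omega)
  -- names
  have ek : j + m - 1 - i = m := by omega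
  rw [ek]
  -- polynomials
  set P : ℕ → ℝ[X] := fun l => (opp a b j l).2 with hP
  have hPdeg : ∀ l, (P l).natDegree ≤ l := fun l => (hdeg l).1
  have hRdeg : ∀ l, ((opp a b j l).1).natDegree ≤ l - 1 := fun l => (hdeg l).2
  have hPq : ∀ l < N, aeval T (P l) (qv A u j) = qv A u (j + l) := hB4
  have hPA : ∀ s < N, ∀ f : ℝ[X], f.natDegree ≤ s → f.natDegree + s < N →
    aeval T f (qv A u (j + s)) = aeval A f (qv A u (j + s)) := hB5
  have hPrec : ∀ l, P (l + 1) = C (b (j + l))⁻¹ * ((X - C (a (j + l))) * P l - (opp a b j l).1) :=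
    fun l => rfl
  have hR : ∀ l, (opp a b j (l + 1)).1 = C (b (j + l)) * P l := fun l => rfl
  have hbP : ∀ l, b (j + l) ≠ 0 → C (b (j + l)) * P (l + 1) =
      (X - C (a (j + l))) * P l - (opp a b j l).1 := by
    intro l hl
    rw [hPrec, ← mul_assoc, ← C_mul, mul_inv_cancel₀ hl, C_1, one_mul]
  -- the exponential factors
  have hexle : ex N ω (fun l => b (j + l)) ≤ ex (2 * (j + m) + 3) ω b :=
    ex_le b ω hω.le j N _ hjN
  set X' : ℝ := ex (2 * (j + m) + 3) ω b with hX'
  have hX0 : 0 ≤ X' := (ex_nonneg b ω hω.le _).2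
  have hωX : ω ≤ X' := by
    refine le_trans ?_ (ex_nonneg b ω hω.le _).1
    have : (1 : ℝ) ≤ ((2 * (j + m) + 3 : ℕ) : ℝ) := by exact_mod_cast (by omega)
    nlinarith
  have hKX : K ≤ C₀ * Real.exp (C₀ * X') := by
    rw [hK]
    exact mul_le_mul_of_nonneg_left (Real.exp_le_exp.2 (mul_le_mul_of_nonneg_left hexle hC₀.le))
      hC₀.le
  constructor
  · -- first vector
    have e0 : j + m + 1 = j + (m + 1) := by omega
    rw [e0]
    have h1 : aeval A (P m) (qv A u (j + (m + 1))) = aeval T (P m) (qv A u (j + (m + 1))) :=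
      (hPA (m + 1) (by omega) _ ((hPdeg m).trans (by omega)) (by have := hPdeg m; omega)).symm
    have h2 : aeval A (opp a b j m).1 (qv A u (j + m)) = aeval T (opp a b j m).1 (qv A u (j + m)) :=
      (hPA m (by omega) _ ((hRdeg m).trans (by omega)) (by have := hRdeg m; omega)).symm
    have h3 : b (j + m) • aeval A (P m) (qv A u (j + (m + 1))) -
        aeval A (opp a b j m).1 (qv A u (j + m)) =
        aeval T (C (b (j + m)) * P (m + 1) - (opp a b j m).1) (qv A u (j + m)) := by
      rw [h1, h2, ← hPq (m + 1) (by omega), ← hPq m (by omega)]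
      rw [map_sub, map_mul, sub_apply, mul_apply_eq_comp, aev]
      congr 2
      rw [← mul_apply_eq_comp, ← mul_apply_eq_comp, ← map_mul, ← map_mul, mul_comm]
    change ‖b (j + m) • aeval A (P m) (qv A u (j + (m + 1))) -
        aeval A (opp a b j m).1 (qv A u (j + m))‖ ≤ _
    rw [h3]
    have h4 : ∀ y : ℝ, |y| ≤ 2 + 100 * ω ^ 2 →
        |(C (b (j + m)) * P (m + 1) - (opp a b j m).1).eval y| ≤ K := by
      intro y hy
      obtain ⟨-, -, h5, h6⟩ := hedge y hy
      rcases Nat.eq_zero_or_pos m with h0 | h0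
      · subst h0
        rw [hbP 0 (hbpos _ (by omega)).ne']
        have := h6 (by omega)
        simpa [hP, opp] using this
      · obtain ⟨n, rfl⟩ : ∃ n, m = n + 1 := ⟨m - 1, by omega⟩
        have := h5 n (by omega)
        rw [hR n]
        simpa [hP] using this
    refine (hS1 _ h4 _).trans ?_
    rw [hqnorm _ (by omega), mul_one]
    refine hKX.trans ?_
    refine mul_le_mul (by linarith) (Real.exp_le_exp.2 ?_) (Real.exp_pos _).le (by linarith)
    exact mul_le_mul_of_nonneg_right (by linarith) hX0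
  · -- second vector
    have e0 : j + m + 1 = j + (m + 1) := by omega
    have e1 : j + m + 2 = j + (m + 2) := by omega
    rw [e0, e1]
    have h1 : aeval A (P m) (qv A u (j + (m + 1))) = aeval T (P m) (qv A u (j + (m + 1))) :=
      (hPA (m + 1) (by omega) _ ((hPdeg m).trans (by omega)) (by have := hPdeg m; omega)).symm
    have h1' : aeval A (P m) (qv A u (j + (m + 2))) = aeval T (P m) (qv A u (j + (m + 2))) :=
      (hPA (m + 2) (by omega) _ ((hPdeg m).trans (by omega)) (by have := hPdeg m; omega)).symm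
    have h2 : aeval A (opp a b j m).1 (qv A u (j + (m + 1))) =
        aeval T (opp a b j m).1 (qv A u (j + (m + 1))) :=
      (hPA (m + 1) (by omega) _ ((hRdeg m).trans (by omega)) (by have := hRdeg m; omega)).symm
    have hpoly : C (a (j + (m + 1)) - a (j + m)) * (P m * P (m + 1)) +
        C (b (j + (m + 1))) * (P m * P (m + 2)) - (opp a b j m).1 * P (m + 1) =
        C (b (j + m)) * (P (m + 1) ^ 2 - P m ^ 2) := by
      have r1 := hbP (m + 1) (hbpos _ (by omega)).ne'
      have r2 := hbP m (hbpos _ (by omega)).ne'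
      have r3 := hR m
      rw [C_sub]
      linear_combination (P m) * r1 - (P (m + 1)) * r2 - (P m) * r3
    have h3 : (a (j + (m + 1)) - a (j + m)) • aeval A (P m) (qv A u (j + (m + 1))) +
        b (j + (m + 1)) • aeval A (P m) (qv A u (j + (m + 2))) -
        aeval A (opp a b j m).1 (qv A u (j + (m + 1))) =
        b (j + m) • aeval T (P (m + 1) ^ 2 - P m ^ 2) (qv A u j) := by
      rw [h1, h1', h2, ← hPq (m + 1) (by omega), ← hPq (m + 2) (by omega)]
      have e5 : b (j + m) • aeval T (P (m + 1) ^ 2 - P m ^ 2) (qv A u j) =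
          aeval T (C (b (j + m)) * (P (m + 1) ^ 2 - P m ^ 2)) (qv A u j) := by
        rw [map_mul, mul_apply_eq_comp, aev]
      rw [e5, ← hpoly]
      rw [map_sub, map_add, map_mul, map_mul, map_mul, sub_apply, add_apply, mul_apply_eq_comp,
        mul_apply_eq_comp, mul_apply_eq_comp, aev, aev, map_mul, map_mul, mul_apply_eq_comp,
        mul_apply_eq_comp]
    change ‖(a (j + (m + 1)) - a (j + m)) • aeval A (P m) (qv A u (j + (m + 1))) +
        b (j + (m + 1)) • aeval A (P m) (qv A u (j + (m + 2))) -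
        aeval A (opp a b j m).1 (qv A u (j + (m + 1)))‖ ≤ _
    rw [h3, norm_smul]
    have h4 := hS2 (P (m + 1) - P m) (P (m + 1) + P m) (P (m + 1) + P m) (P (m + 1) - P m)
      (P (m + 1) ^ 2 - P m ^ 2) (by ring) (by ring)
      (fun y hy0 hy => by
        have := (hedge y (by rwa [abs_of_nonneg hy0])).1 hy0 m (by omega)
        simpa [hP] using this)
      (fun y hy hy0 => by
        have := (hedge y (by rw [abs_of_nonpos hy0]; linarith)).2.1 hy0 m (by omega)
        simpa [hP] using this) (qv A u j)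
    have h5 : aeval T (P (m + 1) + P m) (qv A u j) = qv A u (j + (m + 1)) + qv A u (j + m) := by
      rw [map_add, add_apply, hPq _ (by omega), hPq _ (by omega)]
    have h6 : aeval T (P (m + 1) - P m) (qv A u j) = qv A u (j + (m + 1)) - qv A u (j + m) := by
      rw [map_sub, sub_apply, hPq _ (by omega), hPq _ (by omega)]
    have h7 : ‖qv A u (j + (m + 1)) + qv A u (j + m)‖ ^ 2 +
        ‖qv A u (j + (m + 1)) - qv A u (j + m)‖ ^ 2 = 4 := by
      have := parallelogram_law_with_norm ℝ (qv A u (j + (m + 1))) (qv A u (j + m))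
      rw [hqnorm _ (by omega), hqnorm _ (by omega)] at this
      nlinarith
    rw [h5, h6, h7] at h4
    have h8 : ‖aeval T (P (m + 1) ^ 2 - P m ^ 2) (qv A u j)‖ ≤ 2 * K := by
      refine abs_le_of_sq_le_sq' ?_ (by positivity) |>.2
      nlinarith
    have hbk : b (j + m) ≤ Real.exp X' := by
      have h9 := hG.sumb (j + m) (j + m + 1) (by omega) (by omega)
      rw [Nat.Ico_succ_singleton, Finset.sum_singleton, div_one] at h9
      have h10 := (abs_le.1 h9).2
      have h11 : b (j + m) ≤ 1 + ω := by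
        nlinarith [hbpos (j + m) (by omega)]
      have := Real.add_one_le_exp X'
      linarith
    have hb0 := (hbpos (j + m) (by omega)).le
    rw [Real.norm_of_nonneg hb0]
    calc b (j + m) * ‖aeval T (P (m + 1) ^ 2 - P m ^ 2) (qv A u j)‖
        ≤ Real.exp X' * (2 * K) := mul_le_mul hbk h8 (norm_nonneg _) (Real.exp_pos _).le
      _ ≤ Real.exp X' * (2 * (C₀ * Real.exp (C₀ * X'))) := by gcongr
      _ = 2 * C₀ * Real.exp ((C₀ + 1) * X') := by
          rw [add_mul, one_mul, Real.exp_add]; ring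
      _ ≤ (2 * C₀ + 1) * Real.exp ((2 * C₀ + 1) * X') := by
          refine mul_le_mul (by linarith) (Real.exp_le_exp.2 ?_) (Real.exp_pos _).le (by linarith)
          exact mul_le_mul_of_nonneg_right (by linarith) hX0

end Pool.Agent.Lib.MP17fa2c
end

section
/-!
# MP_17fa2c_pr, block T: module OPD
-/
set_option autoImplicit false

open MeasureTheory ProbabilityTheory Filter Topology Polynomial
open scoped RealInnerProductSpace NNReal ENNReal

namespace Pool.Agent.Lib.MP17fa2c

theorem specOPD : SpecOPD := by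
  intro a b i
  refine ⟨?_, ?_, fun l => rfl⟩
  · intro l
    induction l with
    | zero => exact ⟨by simp [opp], by simp [opp]⟩
    | succ l ih =>
      obtain ⟨h1, h2⟩ := ih
      refine ⟨?_, ?_⟩
      · show (C (b (i + l))⁻¹ * ((X - C (a (i + l))) * (opp a b i l).2 -
          (opp a b i l).1)).natDegree ≤ l + 1
        refine (natDegree_C_mul_le _ _).trans ?_
        refine (natDegree_sub_le _ _).trans (max_le ?_ (by omega))
        refine natDegree_mul_le.trans ?_
        rw [natDegree_X_sub_C]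
        omega
      · show (C (b (i + l)) * (opp a b i l).2).natDegree ≤ l + 1 - 1
        refine (natDegree_C_mul_le _ _).trans ?_
        omega
  · intro N hN y
    refine ⟨?_, ?_, ?_⟩
    · show ((opp a b i 0).2).eval y = 1
      simp [opp]
    · intro h0
      show b (i + 0) * (C (b (i + 0))⁻¹ * ((X - C (a (i + 0))) * (opp a b i 0).2 -
          (opp a b i 0).1)).eval y = y - a (i + 0)
      have hb := hN 0 h0
      simp only [opp, eval_mul, eval_sub, eval_C, eval_X, eval_one, eval_zero, mul_one, sub_zero]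
      rw [← mul_assoc, mul_inv_cancel₀ hb, one_mul]
    · intro l hl
      have hb := hN (l + 1) hl
      show b (i + (l + 1)) * (C (b (i + (l + 1)))⁻¹ * ((X - C (a (i + (l + 1)))) *
        (opp a b i (l + 1)).2 - C (b (i + l)) * (opp a b i l).2)).eval y =
        (y - a (i + (l + 1))) * ((opp a b i (l + 1)).2).eval y -
          b (i + l) * ((opp a b i l).2).eval y
      simp only [eval_mul, eval_sub, eval_C, eval_X]
      rw [← mul_assoc, mul_inv_cancel₀ hb, one_mul]

end Pool.Agent.Lib.MP17fa2c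
end

section
set_option autoImplicit false

open MeasureTheory ProbabilityTheory Filter Topology Polynomial
open scoped RealInnerProductSpace NNReal ENNReal

namespace Pool.Agent.Lib.MP17fa2c

namespace POSM

theorem integ {g g' : ℝ → ℝ} {L : ℝ} (hd : ∀ x ∈ Set.Icc 0 L, HasDerivAt g (g' x) x)
    (h0 : ∀ x, 0 ≤ g x)
    (hI : (∫⁻ x in Set.Icc 0 L, ENNReal.ofReal (|g' x| / g x)) ≠ ⊤) (hm : Measurable g') :
    IntegrableOn (fun x => g' x / g x) (Set.Icc 0 L) := by
  have hc : ContinuousOn g (Set.Icc 0 L) := fun x hx => (hd x hx).continuousAt.continuousWithinAt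
  have hg : AEMeasurable g (volume.restrict (Set.Icc 0 L)) := hc.aemeasurable measurableSet_Icc
  refine ⟨((hm.aemeasurable).div hg).aestronglyMeasurable, ?_⟩
  rw [hasFiniteIntegral_iff_norm]
  refine lt_of_le_of_lt (lintegral_mono fun x => ?_) hI.lt_top
  rw [Real.norm_eq_abs, abs_div, abs_of_nonneg (h0 x)]

theorem bound {g g' : ℝ → ℝ} {L : ℝ} (hd : ∀ x ∈ Set.Icc 0 L, HasDerivAt g (g' x) x)
    (hint : IntegrableOn (fun x => g' x / g x) (Set.Icc 0 L)) {u v : ℝ}
    (hs : Set.uIcc u v ⊆ Set.Icc 0 L) (hpos : ∀ x ∈ Set.uIcc u v, 0 < g x) :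
    |Real.log (g v) - Real.log (g u)| ≤ ∫ x in Set.Icc 0 L, ‖g' x / g x‖ := by
  have hI : IntervalIntegrable (fun x => g' x / g x) volume u v := by
    rw [intervalIntegrable_iff]
    exact hint.mono_set (Set.uIoc_subset_uIcc.trans hs)
  have h1 : ∫ x in u..v, g' x / g x = Real.log (g v) - Real.log (g u) := by
    refine intervalIntegral.integral_eq_sub_of_hasDerivAt (f := fun x => Real.log (g x))
      (fun x hx => ?_) hI
    exact (hd x (hs hx)).log (hpos x hx).ne'
  rw [← h1, ← Real.norm_eq_abs]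
  refine (intervalIntegral.norm_integral_le_integral_norm_uIoc).trans ?_
  exact setIntegral_mono_set hint.norm (ae_of_all _ fun x => norm_nonneg _)
    (HasSubset.Subset.eventuallyLE (Set.uIoc_subset_uIcc.trans hs))

end POSM

open POSM

theorem specPOS : SpecPOS := by
  intro g g' L hd h0 hex hI hm
  obtain ⟨ψ₁, hψ₁, hg₁⟩ := hex
  have hint := integ hd h0 hI hm
  have hc : ContinuousOn g (Set.Icc 0 L) := fun x hx => (hd x hx).continuousAt.continuousWithinAt
  intro ψ₀ hψ₀
  by_contra hne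
  have hg0 : g ψ₀ = 0 := le_antisymm (not_lt.1 hne) (h0 ψ₀)
  have hsub : Set.uIcc ψ₀ ψ₁ ⊆ Set.Icc 0 L := Set.uIcc_subset_Icc hψ₀ hψ₁
  -- the nearest zero
  have hZc : IsCompact (Set.uIcc ψ₀ ψ₁ ∩ g ⁻¹' {0}) := by
    refine isCompact_uIcc.of_isClosed_subset ?_ Set.inter_subset_left
    exact (hc.mono hsub).preimage_isClosed_of_isClosed isClosed_Icc isClosed_singleton
  obtain ⟨z, ⟨hz1, hz2⟩, hz3⟩ := hZc.exists_isMinOn ⟨ψ₀, Set.left_mem_uIcc, hg0⟩
    (f := fun x => |x - ψ₁|) (by fun_prop)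
  have hz0 : g z = 0 := hz2
  have hzne : z ≠ ψ₁ := by
    intro h
    rw [h] at hz0
    exact hg₁.ne' hz0
  have hzs : Set.uIcc z ψ₁ ⊆ Set.uIcc ψ₀ ψ₁ := Set.uIcc_subset_uIcc hz1 Set.right_mem_uIcc
  have hposx : ∀ x ∈ Set.uIcc z ψ₁, x ≠ z → 0 < g x := by
    intro x hx hxz
    refine lt_of_le_of_ne (h0 x) fun h => ?_
    have h1 : |z - ψ₁| ≤ |x - ψ₁| := hz3 ⟨hzs hx, h.symm⟩
    rcases Set.mem_uIcc.1 hx with ⟨h2, h3⟩ | ⟨h2, h3⟩
    · rw [abs_of_nonpos (by linarith), abs_of_nonpos (by linarith)] at h1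
      exact hxz (by linarith)
    · rw [abs_of_nonneg (by linarith), abs_of_nonneg (by linarith)] at h1
      exact hxz (by linarith)
  set I : ℝ := ∫ x in Set.Icc 0 L, ‖g' x / g x‖ with hIdef
  have hlow : ∀ x ∈ Set.uIcc z ψ₁, x ≠ z → Real.exp (Real.log (g ψ₁) - I) ≤ g x := by
    intro x hx hxz
    have hsx : Set.uIcc x ψ₁ ⊆ Set.uIcc z ψ₁ := Set.uIcc_subset_uIcc hx Set.right_mem_uIcc
    have h1 := bound hd hint (hsx.trans (hzs.trans hsub)) (fun y hy => hposx y (hsx hy) (by
      intro hyz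
      rw [hyz] at hy
      rcases Set.mem_uIcc.1 hx with ⟨h2, h3⟩ | ⟨h2, h3⟩
      · rw [Set.uIcc_of_le h3] at hy
        exact hxz (le_antisymm hy.1 h2)
      · rw [Set.uIcc_of_ge h2] at hy
        exact hxz (le_antisymm h3 hy.2)))
    have h2 := (abs_le.1 h1).2
    have h3 : Real.log (g ψ₁) - I ≤ Real.log (g x) := by linarith
    calc Real.exp (Real.log (g ψ₁) - I) ≤ Real.exp (Real.log (g x)) := Real.exp_le_exp.2 h3
      _ = g x := Real.exp_log (hposx x hx hxz)
  -- a sequence
  have ht : Tendsto (fun n : ℕ => z + (1 / ((n : ℝ) + 1)) * (ψ₁ - z)) atTop (𝓝 z) := by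
    have h1 : Tendsto (fun n : ℕ => (1 / ((n : ℝ) + 1))) atTop (𝓝 0) :=
      tendsto_one_div_add_atTop_nhds_zero_nat
    have h2 := (h1.mul_const (ψ₁ - z)).const_add z
    simpa using h2
  have hmem : ∀ n : ℕ, z + (1 / ((n : ℝ) + 1)) * (ψ₁ - z) ∈ Set.uIcc z ψ₁ := by
    intro n
    have h1 : 0 ≤ 1 / ((n : ℝ) + 1) := by positivity
    have h2 : 1 / ((n : ℝ) + 1) ≤ 1 := by
      rw [div_le_one (by positivity)]
      have : (0 : ℝ) ≤ n := Nat.cast_nonneg n
      linarith
    rw [Set.mem_uIcc]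
    rcases le_total z ψ₁ with h | h
    · left
      constructor <;> nlinarith
    · right
      constructor <;> nlinarith
  have hne' : ∀ n : ℕ, z + (1 / ((n : ℝ) + 1)) * (ψ₁ - z) ≠ z := by
    intro n h
    have h1 : 0 < 1 / ((n : ℝ) + 1) := by positivity
    have h2 : (1 / ((n : ℝ) + 1)) * (ψ₁ - z) = 0 := by linarith
    rcases mul_eq_zero.1 h2 with h3 | h3
    · exact h1.ne' h3
    · exact hzne (by linarith)
  have hcz : ContinuousAt g z := (hd z (hsub hz1)).continuousAt
  have hlim := hcz.tendsto.comp ht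
  have hge := ge_of_tendsto' hlim (fun n => hlow _ (hmem n) (hne' n))
  rw [hz0] at hge
  exact absurd (Real.exp_pos _) (not_lt.2 hge)

end Pool.Agent.Lib.MP17fa2c
end

section
/-!
# MP_17fa2c_pr, block T: module SCL
-/
set_option autoImplicit false

open MeasureTheory ProbabilityTheory Filter Topology Polynomial
open scoped RealInnerProductSpace NNReal ENNReal

namespace Pool.Agent.Lib.MP17fa2c

namespace SCLM

variable {E : Type} [NormedAddCommGroup E] [InnerProductSpace ℝ E]

theorem key (A : E →L[ℝ] E) (c : ℝ) (q l : E) :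
    (c • A) q - ⟪q, (c • A) q⟫ • q - c • l = c • (A q - ⟪q, A q⟫ • q - l) := by
  rw [_root_.smul_apply, real_inner_smul_right, smul_sub, smul_sub, mul_smul]

theorem lan_smul (A : E →L[ℝ] E) (u : E) (c : ℝ) (hc : 0 < c) (j : ℕ) :
    lan (c • A) u j = (c • (lan A u j).1, (lan A u j).2) := by
  induction j with
  | zero => simp [lan]
  | succ j ih =>
    have h1 : (lan (c • A) u j).1 = c • (lan A u j).1 := by rw [ih]
    have h2 : (lan (c • A) u j).2 = (lan A u j).2 := by rw [ih]
    have h3 : lan (c • A) u (j + 1) =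
      (‖(c • A) (lan (c • A) u j).2 - ⟪(lan (c • A) u j).2, (c • A) (lan (c • A) u j).2⟫ •
        (lan (c • A) u j).2 - (lan (c • A) u j).1‖ • (lan (c • A) u j).2,
      ‖(c • A) (lan (c • A) u j).2 - ⟪(lan (c • A) u j).2, (c • A) (lan (c • A) u j).2⟫ •
        (lan (c • A) u j).2 - (lan (c • A) u j).1‖⁻¹ •
        ((c • A) (lan (c • A) u j).2 - ⟪(lan (c • A) u j).2, (c • A) (lan (c • A) u j).2⟫ •
        (lan (c • A) u j).2 - (lan (c • A) u j).1)) := rfl
    rw [h3, h1, h2, key, norm_smul, Real.norm_of_nonneg hc.le]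
    refine Prod.ext ?_ ?_
    · show (c * _) • _ = c • (_ • _)
      rw [mul_smul]
    · show (c * _)⁻¹ • (c • _) = _⁻¹ • _
      rw [smul_smul, mul_inv_rev, mul_assoc, inv_mul_cancel₀ hc.ne', mul_one]

end SCLM

open SCLM in
theorem specSCL : SpecSCL := by
  intro E _ _ A u c hc j
  have h1 := lan_smul A u c hc j
  have h2 : qv (c • A) u j = qv A u j := by
    unfold qv
    rw [h1]
  have h3 : av (c • A) u j = c * av A u j := by
    unfold av
    rw [h2, _root_.smul_apply, real_inner_smul_right]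
  refine ⟨h1, h2, h3, ?_⟩
  have h4 : wv (c • A) u j = c • wv A u j := by
    unfold wv
    rw [h2, h3, h1, _root_.smul_apply, smul_sub, smul_sub, mul_smul]
  unfold bv
  rw [h4, norm_smul, Real.norm_of_nonneg hc.le]

end Pool.Agent.Lib.MP17fa2c
end

section
set_option autoImplicit false

open MeasureTheory ProbabilityTheory Filter Topology Polynomial
open scoped RealInnerProductSpace NNReal ENNReal

namespace Pool.Agent.Lib.MP17fa2c

namespace SPBM

variable {E : Type} [NormedAddCommGroup E] [InnerProductSpace ℝ E]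

theorem pow_eig (T : E →L[ℝ] E) {v : E} {μ : ℝ} (h : T v = μ • v) (n : ℕ) :
    (T ^ n) v = μ ^ n • v := by
  induction n with
  | zero => simp
  | succ n ih =>
    rw [pow_succ, mul_apply_eq_comp, h, map_smul, ih, smul_smul, pow_succ, mul_comm]

theorem aeval_eig (T : E →L[ℝ] E) {v : E} {μ : ℝ} (h : T v = μ • v) (f : ℝ[X]) :
    aeval T f v = f.eval μ • v := by
  induction f using Polynomial.induction_on' with
  | add p q hp hq =>
    rw [map_add, add_apply, hp, hq, eval_add, add_smul]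
  | monomial n a =>
    rw [aeval_monomial, eval_monomial, mul_apply_eq_comp, pow_eig T h n,
      Algebra.algebraMap_eq_smul_one]
    simp only [smul_smul, smul_apply, one_apply_eq_self]

end SPBM

open SPBM

theorem specSPB : SpecSPB := by
  intro E _ _ _ T lam K hT hlam hK
  have hsymm : (T : E →ₗ[ℝ] E).IsSymmetric := fun x y => hT x y
  set b := hsymm.eigenvectorBasis rfl with hb
  set μ := hsymm.eigenvalues rfl with hμ
  have heig : ∀ i, T (b i) = μ i • b i := fun i => hsymm.apply_eigenvectorBasis rfl i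
  have hinner : ∀ (f : ℝ[X]) (x : E) (i), ⟪b i, aeval T f x⟫ = f.eval (μ i) * ⟪b i, x⟫ := by
    intro f x i
    have h1 : aeval T f x = ∑ j, (⟪b j, x⟫ * f.eval (μ j)) • b j := by
      conv_lhs => rw [← b.sum_repr' x]
      rw [map_sum]
      refine Finset.sum_congr rfl fun j _ => ?_
      rw [map_smul, aeval_eig T (heig j), smul_smul]
    rw [h1, inner_sum]
    rw [Finset.sum_eq_single i]
    · rw [inner_smul_right, b.inner_eq_one]
      ring
    · intro j _ hj
      rw [inner_smul_right, b.inner_eq_zero (Ne.symm hj), mul_zero]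
    · intro h
      exact absurd (Finset.mem_univ i) h
  have hnorm : ∀ (f : ℝ[X]) (x : E), ‖aeval T f x‖ ^ 2 = ∑ i, (f.eval (μ i)) ^ 2 * ⟪b i, x⟫ ^ 2 := by
    intro f x
    rw [← b.sum_sq_norm_inner_right (aeval T f x)]
    refine Finset.sum_congr rfl fun i _ => ?_
    rw [hinner, Real.norm_eq_abs, sq_abs, mul_pow]
  have hnorm0 : ∀ x : E, ‖x‖ ^ 2 = ∑ i, ⟪b i, x⟫ ^ 2 := by
    intro x
    rw [← b.sum_sq_norm_inner_right x]
    refine Finset.sum_congr rfl fun i _ => ?_
    rw [Real.norm_eq_abs, sq_abs]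
  have hμlam : ∀ i, |μ i| ≤ lam := by
    intro i
    have h1 := hlam (b i)
    rw [heig, inner_smul_right, b.inner_eq_one, mul_one, b.norm_eq_one, one_pow, mul_one] at h1
    exact h1
  refine ⟨fun f hf x => ?_, fun f₁ f₂ g₁ g₂ h h1 h2 hf1 hf2 x => ?_⟩
  · have h3 : ‖aeval T f x‖ ^ 2 ≤ (K * ‖x‖) ^ 2 := by
      rw [hnorm, mul_pow, hnorm0, Finset.mul_sum]
      refine Finset.sum_le_sum fun i _ => ?_
      refine mul_le_mul_of_nonneg_right ?_ (sq_nonneg _)
      rw [← sq_abs (f.eval (μ i))]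
      exact pow_le_pow_left₀ (abs_nonneg _) (hf _ (hμlam i)) 2
    exact (abs_le_of_sq_le_sq h3 (by positivity)) |> fun h => (le_abs_self _).trans h
  · rw [hnorm, hnorm g₁, hnorm g₂, ← Finset.sum_add_distrib, Finset.mul_sum]
    refine Finset.sum_le_sum fun i _ => ?_
    have h3 := abs_le.1 (hμlam i)
    rw [← add_mul, ← mul_assoc]
    refine mul_le_mul_of_nonneg_right ?_ (sq_nonneg _)
    rcases le_total 0 (μ i) with h4 | h4
    · rw [h1, eval_mul, mul_pow, mul_add]
      have h5 : f₁.eval (μ i) ^ 2 ≤ K ^ 2 := by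
        rw [← sq_abs]
        exact pow_le_pow_left₀ (abs_nonneg _) (hf1 _ h4 h3.2) 2
      have h6 := mul_le_mul_of_nonneg_right h5 (sq_nonneg (g₁.eval (μ i)))
      have h7 : 0 ≤ K ^ 2 * (g₂.eval (μ i)) ^ 2 := by positivity
      linarith
    · rw [h2, eval_mul, mul_pow, mul_add]
      have h5 : f₂.eval (μ i) ^ 2 ≤ K ^ 2 := by
        rw [← sq_abs]
        exact pow_le_pow_left₀ (abs_nonneg _) (hf2 _ h3.1 h4) 2
      have h6 := mul_le_mul_of_nonneg_right h5 (sq_nonneg (g₂.eval (μ i)))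
      have h7 : 0 ≤ K ^ 2 * (g₁.eval (μ i)) ^ 2 := by positivity
      linarith

end Pool.Agent.Lib.MP17fa2c
end
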