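import Pool.Agent.Lib.MP_17fa2c_pr.TD.SpecW
import Pool.Agent.Lib.MP_17fa2c_pr.TD.SpecX

section
/-!
# TGT: tightness
-/
set_option autoImplicit false

open MeasureTheory ProbabilityTheory Filter Topology
open scoped NNReal ENNReal BoundedContinuousFunction

namespace Pool.Agent.Lib.MP17fa2c

namespace TGTM

lemma rpow_le (N : ℕ) (t : ℝ≥0) (ht : t ≤ N) : |(t : ℝ) - ((0 : ℝ≥0) : ℝ)| ^ (1 / 8 : ℝ) ≤ (N : ℝ) + 1 := by
  have h1 : (t : ℝ) ≤ N := by exact_mod_cast ht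
  have h0 : (0 : ℝ) ≤ t := t.2
  rw [NNReal.coe_zero, sub_zero, abs_of_nonneg h0]
  calc (t : ℝ) ^ (1 / 8 : ℝ) ≤ ((N : ℝ) + 1) ^ (1 / 8 : ℝ) :=
        Real.rpow_le_rpow h0 (by linarith) (by norm_num)
    _ ≤ ((N : ℝ) + 1) ^ (1 : ℝ) :=
        Real.rpow_le_rpow_of_exponent_le (by linarith [Nat.cast_nonneg (α := ℝ) N]) (by norm_num)
    _ = (N : ℝ) + 1 := Real.rpow_one _

lemma sum_half (ε : ℝ) (hε : 0 < ε) :
    ∑' N : ℕ, ENNReal.ofReal (ε / 2 ^ (N + 2)) = ENNReal.ofReal (ε / 2) := by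
  have e1 : (fun N : ℕ => ε / 2 ^ (N + 2)) = fun N : ℕ => ε / 4 * (1 / 2) ^ N := by
    funext N
    rw [pow_add, one_div, inv_pow]
    field_simp
    norm_num
  have e2 : ε / 4 * (1 - 1 / 2)⁻¹ = ε / 2 := by
    norm_num
    ring
  have h1 : HasSum (fun N : ℕ => ε / 2 ^ (N + 2)) (ε / 2) := by
    rw [e1, ← e2]
    exact (hasSum_geometric_of_lt_one (r := (1 / 2 : ℝ)) (by norm_num) (by norm_num)).mul_left _
  rw [← h1.tsum_eq, ENNReal.ofReal_tsum_of_nonneg (fun N => by positivity) h1.summable]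

end TGTM

open TGTM in
theorem specTGT (hDYA : SpecDYA) (hCHP : SpecCHP) : SpecTGT := by
  intro C0 C1 ε hC0 hC1 hε
  obtain ⟨C, hC⟩ := hDYA
  choose C' hC' using fun N : ℕ => hCHP C0 N hC0
  set A : ℕ → ℝ := fun N => 1 + |C' N| * 2 ^ (N + 2) / ε with hA
  have hA1 : ∀ N, 1 ≤ A N := by
    intro N
    have : 0 ≤ |C' N| * 2 ^ (N + 2) / ε := by positivity
    simp only [hA]
    linarith
  have hAC : ∀ N, C' N / A N ^ 2 ≤ ε / 2 ^ (N + 2) := by
    intro N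
    have h1 := hA1 N
    rw [div_le_div_iff₀ (by positivity) (by positivity)]
    have h2 : |C' N| * 2 ^ (N + 2) ≤ ε * A N := by
      simp only [hA]
      have : ε * (1 + |C' N| * 2 ^ (N + 2) / ε) = ε + |C' N| * 2 ^ (N + 2) := by
        field_simp
      rw [this]
      linarith
    have h3 : C' N * 2 ^ (N + 2) ≤ |C' N| * 2 ^ (N + 2) :=
      mul_le_mul_of_nonneg_right (le_abs_self _) (by positivity)
    have h4 : A N ≤ A N ^ 2 := by nlinarith
    have h5 : ε * A N ≤ ε * A N ^ 2 := mul_le_mul_of_nonneg_left h4 hε.le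
    linarith
  set R : ℝ := 1 + 2 * C1 / ε with hR
  have hR1 : 1 ≤ R := by
    have : 0 ≤ 2 * C1 / ε := by positivity
    simp only [hR]
    linarith
  have hRC : C1 / R ^ 2 ≤ ε / 2 := by
    rw [div_le_div_iff₀ (by positivity) (by norm_num)]
    have h2 : 2 * C1 ≤ ε * R := by
      simp only [hR]
      have : ε * (1 + 2 * C1 / ε) = ε + 2 * C1 := by
        field_simp
      rw [this]
      linarith
    have h4 : R ≤ R ^ 2 := by nlinarith
    have h5 : ε * R ≤ ε * R ^ 2 := mul_le_mul_of_nonneg_left h4 hε.le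
    linarith
  refine ⟨fun N => R + (|C N| + 1) * A N * (N + 1), ?_⟩
  intro K _ Ω _ P _ X a e hX hts h0
  have hsub : {ω | X ω ∉ HK (K := K) fun N => R + (|C N| + 1) * A N * (N + 1)} ⊆
      {ω | R < ‖X ω 0‖} ∪ ⋃ N : ℕ, {ω | ¬ DyB N (A N) (X ω)} := by
    intro ω hω
    by_contra hcon
    apply hω
    rw [Set.mem_union, not_or, Set.mem_iUnion, not_exists] at hcon
    obtain ⟨c1, c2⟩ := hcon
    have c1' : ‖X ω 0‖ ≤ R := not_lt.1 c1
    have c2' : ∀ N, DyB N (A N) (X ω) := fun N => not_not.1 (c2 N)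
    intro N
    have hAN := hA1 N
    have hb := hC K N (A N) (X ω) (by linarith) (c2' N)
    have hN0 : (0 : ℝ) ≤ N := Nat.cast_nonneg N
    have hCA : C N * A N ≤ |C N| * A N := mul_le_mul_of_nonneg_right (le_abs_self _) (by linarith)
    have hpos : 0 ≤ |C N| * A N := by positivity
    refine ⟨fun t ht => ?_, fun s t hs ht => ?_⟩
    · have h1 := hb 0 t (by simp) ht
      have h2 := rpow_le N t ht
      have h3 : 0 ≤ |(t : ℝ) - ((0 : ℝ≥0) : ℝ)| ^ (1 / 8 : ℝ) := Real.rpow_nonneg (abs_nonneg _) _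
      have h4 : ‖X ω t‖ ≤ ‖X ω 0‖ + ‖X ω t - X ω 0‖ := by
        calc ‖X ω t‖ = ‖X ω 0 + (X ω t - X ω 0)‖ := by rw [add_sub_cancel]
          _ ≤ _ := norm_add_le _ _
      have h5 : C N * A N * |(t : ℝ) - ((0 : ℝ≥0) : ℝ)| ^ (1 / 8 : ℝ) ≤ |C N| * A N * ((N : ℝ) + 1) :=
        (mul_le_mul_of_nonneg_right hCA h3).trans (mul_le_mul_of_nonneg_left h2 hpos)
      have h6 : |C N| * A N * ((N : ℝ) + 1) ≤ (|C N| + 1) * A N * ((N : ℝ) + 1) := by
        have : 0 ≤ A N * ((N : ℝ) + 1) := by positivity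
        nlinarith
      linarith
    · have h1 := hb s t hs ht
      have h3 : 0 ≤ |(t : ℝ) - s| ^ (1 / 8 : ℝ) := Real.rpow_nonneg (abs_nonneg _) _
      refine h1.trans (mul_le_mul_of_nonneg_right ?_ h3)
      have h6 : |C N| * A N ≤ (|C N| + 1) * A N * ((N : ℝ) + 1) := by
        have h7 : |C N| * A N * 1 ≤ (|C N| + 1) * A N * ((N : ℝ) + 1) := by
          apply mul_le_mul _ (by linarith) (by norm_num) (by positivity)
          nlinarith
        linarith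
      linarith
  calc P {ω | X ω ∉ HK (K := K) fun N => R + (|C N| + 1) * A N * (N + 1)}
      ≤ P ({ω | R < ‖X ω 0‖} ∪ ⋃ N : ℕ, {ω | ¬ DyB N (A N) (X ω)}) := measure_mono hsub
    _ ≤ P {ω | R < ‖X ω 0‖} + P (⋃ N : ℕ, {ω | ¬ DyB N (A N) (X ω)}) := measure_union_le _ _
    _ ≤ ENNReal.ofReal (ε / 2) + ∑' N : ℕ, ENNReal.ofReal (ε / 2 ^ (N + 2)) := by
        refine add_le_add ((h0 R (by linarith)).trans (ENNReal.ofReal_le_ofReal hRC)) ?_
        refine (measure_iUnion_le _).trans (ENNReal.tsum_le_tsum fun N => ?_)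
        exact (hC' N K Ω P X a e hX hts (A N) (hA1 N)).trans (ENNReal.ofReal_le_ofReal (hAC N))
    _ = ENNReal.ofReal ε := by
        rw [sum_half ε hε, ← ENNReal.ofReal_add (by positivity) (by positivity)]
        congr 1
        ring

end Pool.Agent.Lib.MP17fa2c
end

section
/-!
# TI3: tightness of the interpolations
-/
set_option autoImplicit false

open MeasureTheory ProbabilityTheory Filter Topology
open scoped NNReal ENNReal BoundedContinuousFunction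

namespace Pool.Agent.Lib.MP17fa2c

namespace TI3M

open TGTM

/-- tightness from dyadic bounds (the proof of TGT) -/
theorem tight (hDYA : SpecDYA) (C' : ℕ → ℝ) {C1 ε : ℝ} (hC1 : 0 ≤ C1) (hε : 0 < ε) :
    ∃ h : ℕ → ℝ, ∀ (K : Type) [Fintype K] (Ω : Type) [MeasurableSpace Ω] (P : Measure Ω)
    (Z : Ω → Pth K),
    (∀ (N : ℕ) (A : ℝ), 1 ≤ A → P {ω | ¬ DyB N A (Z ω)} ≤ ENNReal.ofReal (C' N / A ^ 2)) →
    (∀ R : ℝ, 0 < R → P {ω | R < ‖Z ω 0‖} ≤ ENNReal.ofReal (C1 / R ^ 2)) →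
    P {ω | Z ω ∉ HK h} ≤ ENNReal.ofReal ε := by
  obtain ⟨C, hC⟩ := hDYA
  set A : ℕ → ℝ := fun N => 1 + |C' N| * 2 ^ (N + 2) / ε with hA
  have hA1 : ∀ N, 1 ≤ A N := by
    intro N
    have : 0 ≤ |C' N| * 2 ^ (N + 2) / ε := by positivity
    simp only [hA]
    linarith
  have hAC : ∀ N, C' N / A N ^ 2 ≤ ε / 2 ^ (N + 2) := by
    intro N
    have h1 := hA1 N
    rw [div_le_div_iff₀ (by positivity) (by positivity)]
    have h2 : |C' N| * 2 ^ (N + 2) ≤ ε * A N := by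
      simp only [hA]
      have : ε * (1 + |C' N| * 2 ^ (N + 2) / ε) = ε + |C' N| * 2 ^ (N + 2) := by
        field_simp
      rw [this]
      linarith
    have h3 : C' N * 2 ^ (N + 2) ≤ |C' N| * 2 ^ (N + 2) :=
      mul_le_mul_of_nonneg_right (le_abs_self _) (by positivity)
    have h4 : A N ≤ A N ^ 2 := by nlinarith
    have h5 : ε * A N ≤ ε * A N ^ 2 := mul_le_mul_of_nonneg_left h4 hε.le
    linarith
  set R : ℝ := 1 + 2 * C1 / ε with hR
  have hR1 : 1 ≤ R := by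
    have : 0 ≤ 2 * C1 / ε := by positivity
    simp only [hR]
    linarith
  have hRC : C1 / R ^ 2 ≤ ε / 2 := by
    rw [div_le_div_iff₀ (by positivity) (by norm_num)]
    have h2 : 2 * C1 ≤ ε * R := by
      simp only [hR]
      have : ε * (1 + 2 * C1 / ε) = ε + 2 * C1 := by
        field_simp
      rw [this]
      linarith
    have h4 : R ≤ R ^ 2 := by nlinarith
    have h5 : ε * R ≤ ε * R ^ 2 := mul_le_mul_of_nonneg_left h4 hε.le
    linarith
  refine ⟨fun N => R + (|C N| + 1) * A N * (N + 1), ?_⟩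
  intro K _ Ω _ P X hts h0
  have hsub : {ω | X ω ∉ HK (K := K) fun N => R + (|C N| + 1) * A N * (N + 1)} ⊆
      {ω | R < ‖X ω 0‖} ∪ ⋃ N : ℕ, {ω | ¬ DyB N (A N) (X ω)} := by
    intro ω hω
    by_contra hcon
    apply hω
    rw [Set.mem_union, not_or, Set.mem_iUnion, not_exists] at hcon
    obtain ⟨c1, c2⟩ := hcon
    have c1' : ‖X ω 0‖ ≤ R := not_lt.1 c1
    have c2' : ∀ N, DyB N (A N) (X ω) := fun N => not_not.1 (c2 N)
    intro N
    have hAN := hA1 N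
    have hb := hC K N (A N) (X ω) (by linarith) (c2' N)
    have hN0 : (0 : ℝ) ≤ N := Nat.cast_nonneg N
    have hCA : C N * A N ≤ |C N| * A N := mul_le_mul_of_nonneg_right (le_abs_self _) (by linarith)
    have hpos : 0 ≤ |C N| * A N := by positivity
    refine ⟨fun t ht => ?_, fun s t hs ht => ?_⟩
    · have h1 := hb 0 t (by simp) ht
      have h2 := rpow_le N t ht
      have h3 : 0 ≤ |(t : ℝ) - ((0 : ℝ≥0) : ℝ)| ^ (1 / 8 : ℝ) := Real.rpow_nonneg (abs_nonneg _) _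
      have h4 : ‖X ω t‖ ≤ ‖X ω 0‖ + ‖X ω t - X ω 0‖ := by
        calc ‖X ω t‖ = ‖X ω 0 + (X ω t - X ω 0)‖ := by rw [add_sub_cancel]
          _ ≤ _ := norm_add_le _ _
      have h5 : C N * A N * |(t : ℝ) - ((0 : ℝ≥0) : ℝ)| ^ (1 / 8 : ℝ) ≤ |C N| * A N * ((N : ℝ) + 1) :=
        (mul_le_mul_of_nonneg_right hCA h3).trans (mul_le_mul_of_nonneg_left h2 hpos)
      have h6 : |C N| * A N * ((N : ℝ) + 1) ≤ (|C N| + 1) * A N * ((N : ℝ) + 1) := by
        have : 0 ≤ A N * ((N : ℝ) + 1) := by positivity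
        nlinarith
      linarith
    · have h1 := hb s t hs ht
      have h3 : 0 ≤ |(t : ℝ) - s| ^ (1 / 8 : ℝ) := Real.rpow_nonneg (abs_nonneg _) _
      refine h1.trans (mul_le_mul_of_nonneg_right ?_ h3)
      have h6 : |C N| * A N ≤ (|C N| + 1) * A N * ((N : ℝ) + 1) := by
        have h7 : |C N| * A N * 1 ≤ (|C N| + 1) * A N * ((N : ℝ) + 1) := by
          apply mul_le_mul _ (by linarith) (by norm_num) (by positivity)
          nlinarith
        linarith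
      linarith
  calc P {ω | X ω ∉ HK (K := K) fun N => R + (|C N| + 1) * A N * (N + 1)}
      ≤ P ({ω | R < ‖X ω 0‖} ∪ ⋃ N : ℕ, {ω | ¬ DyB N (A N) (X ω)}) := measure_mono hsub
    _ ≤ P {ω | R < ‖X ω 0‖} + P (⋃ N : ℕ, {ω | ¬ DyB N (A N) (X ω)}) := measure_union_le _ _
    _ ≤ ENNReal.ofReal (ε / 2) + ∑' N : ℕ, ENNReal.ofReal (ε / 2 ^ (N + 2)) := by
        refine add_le_add ((h0 R (by linarith)).trans (ENNReal.ofReal_le_ofReal hRC)) ?_
        refine (measure_iUnion_le _).trans (ENNReal.tsum_le_tsum fun N => ?_)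
        exact (hts N (A N) (hA1 N)).trans (ENNReal.ofReal_le_ofReal (hAC N))
    _ = ENNReal.ofReal ε := by
        rw [sum_half ε hε, ← ENNReal.ofReal_add (by positivity) (by positivity)]
        congr 1
        ring

theorem grid {K : Type} {I : ℕ → Pth K → Pth K} (hI : IsItp I) (L : ℕ) (x : Pth K) (i : ℕ) :
    I L x ((i : ℝ≥0) / 2 ^ L) = x ((i : ℝ≥0) / 2 ^ L) := by
  have h := hI L x i 0 (by simp)
  rw [add_zero] at h
  rw [h]
  simp

theorem cast_level {l L : ℕ} (h : l ≤ L) (j : ℕ) :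
    (j : ℝ≥0) / 2 ^ l = ((j * 2 ^ (L - l) : ℕ) : ℝ≥0) / 2 ^ L := by
  rw [div_eq_div_iff (by positivity) (by positivity)]
  push_cast
  rw [mul_assoc, ← pow_add, Nat.sub_add_cancel h]

theorem dyb_itp {K : Type} [Fintype K] {I : ℕ → Pth K → Pth K} (hI : IsItp I) (L N : ℕ) {A : ℝ}
    (_hA : 0 ≤ A) (x : Pth K) (h : ∀ l ≤ L, ∀ i < N * 2 ^ l,
      ‖x (((i : ℝ≥0) + 1) / 2 ^ l) - x ((i : ℝ≥0) / 2 ^ l)‖ ≤ A * (2 : ℝ) ^ (-(l : ℝ) / 8)) :
    DyB N A (I L x) := by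
  intro l i hi
  rcases le_or_gt l L with hl | hl
  · have h1 := h l hl i hi
    have e0 : ((i : ℝ≥0) + 1) = ((i + 1 : ℕ) : ℝ≥0) := by push_cast; ring
    rw [e0] at h1 ⊢
    have e2 : ∀ j : ℕ, I L x ((j : ℝ≥0) / 2 ^ l) = x ((j : ℝ≥0) / 2 ^ l) := by
      intro j
      rw [cast_level hl j]
      exact grid hI L x _
    rw [e2, e2]
    exact h1
  · obtain ⟨d, rfl⟩ : ∃ d, l = L + d := ⟨l - L, by omega⟩
    set j := i / 2 ^ d with hj
    set r := i % 2 ^ d with hr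
    have hd0 : 0 < 2 ^ d := by positivity
    have hir : i = j * 2 ^ d + r := by
      rw [hj, hr, mul_comm]
      exact (Nat.div_add_mod i (2 ^ d)).symm
    have hrlt : r < 2 ^ d := Nat.mod_lt _ hd0
    have hjlt : j < N * 2 ^ L := by
      rw [hj]
      apply Nat.div_lt_of_lt_mul
      calc i < N * 2 ^ (L + d) := hi
        _ = 2 ^ d * (N * 2 ^ L) := by rw [pow_add]; ring
    have hp : (0 : ℝ≥0) < 2 ^ d := by positivity
    have hic : (i : ℝ≥0) = (j : ℝ≥0) * 2 ^ d + (r : ℝ≥0) := by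
      have : (i : ℝ≥0) = ((j * 2 ^ d + r : ℕ) : ℝ≥0) := by rw [← hir]
      rw [this]
      push_cast
      ring
    have f1 : (r : ℝ≥0) / 2 ^ d ≤ 1 := by
      rw [div_le_one hp]
      exact_mod_cast hrlt.le
    have f2 : ((r : ℝ≥0) + 1) / 2 ^ d ≤ 1 := by
      rw [div_le_one hp]
      exact_mod_cast hrlt
    have p1 : (i : ℝ≥0) / 2 ^ (L + d) = ((j : ℝ≥0) + (r : ℝ≥0) / 2 ^ d) / 2 ^ L := by
      rw [hic, pow_add]
      field_simp
    have p2 : ((i : ℝ≥0) + 1) / 2 ^ (L + d) = ((j : ℝ≥0) + ((r : ℝ≥0) + 1) / 2 ^ d) / 2 ^ L := by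
      rw [hic, pow_add]
      field_simp
      ring
    rw [p1, p2, hI L x j _ f1, hI L x j _ f2]
    have e1 : (((1 : ℝ) - (((r : ℝ≥0) + 1) / 2 ^ d : ℝ≥0)) • x ((j : ℝ≥0) / 2 ^ L) +
        ((((r : ℝ≥0) + 1) / 2 ^ d : ℝ≥0) : ℝ) • x (((j : ℝ≥0) + 1) / 2 ^ L)) -
        (((1 : ℝ) - ((r : ℝ≥0) / 2 ^ d : ℝ≥0)) • x ((j : ℝ≥0) / 2 ^ L) +
        (((r : ℝ≥0) / 2 ^ d : ℝ≥0) : ℝ) • x (((j : ℝ≥0) + 1) / 2 ^ L)) =
        ((1 : ℝ) / 2 ^ d) • (x (((j : ℝ≥0) + 1) / 2 ^ L) - x ((j : ℝ≥0) / 2 ^ L)) := by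
      push_cast
      rw [smul_sub]
      have e3 : (((r : ℝ) + 1) / 2 ^ d) = (r : ℝ) / 2 ^ d + 1 / 2 ^ d := by ring
      rw [e3]
      module
    rw [e1, norm_smul, Real.norm_eq_abs, abs_of_pos (by positivity)]
    have h1 := h L le_rfl j hjlt
    have h2 : (1 : ℝ) / 2 ^ d ≤ (2 : ℝ) ^ (-(d : ℝ) / 8) := by
      have e4 : (1 : ℝ) / 2 ^ d = (2 : ℝ) ^ (-(d : ℝ)) := by
        rw [Real.rpow_neg (by norm_num), Real.rpow_natCast, one_div]
      rw [e4]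
      apply Real.rpow_le_rpow_of_exponent_le (by norm_num)
      have : (0 : ℝ) ≤ d := Nat.cast_nonneg d
      linarith
    calc (1 : ℝ) / 2 ^ d * ‖x (((j : ℝ≥0) + 1) / 2 ^ L) - x ((j : ℝ≥0) / 2 ^ L)‖
        ≤ (2 : ℝ) ^ (-(d : ℝ) / 8) * (A * (2 : ℝ) ^ (-(L : ℝ) / 8)) :=
          mul_le_mul h2 h1 (norm_nonneg _) (Real.rpow_nonneg (by norm_num) _)
      _ = A * (2 : ℝ) ^ (-((L + d : ℕ) : ℝ) / 8) := by
          have e5 : (-((L + d : ℕ) : ℝ) / 8) = -(d : ℝ) / 8 + -(L : ℝ) / 8 := by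
            push_cast
            ring
          rw [e5, Real.rpow_add (by norm_num)]
          ring

/-- one increment -/
theorem one_inc {K : Type} [Fintype K] {Ω : Type} [MeasurableSpace Ω] {P : Measure Ω}
    {X : Ω → Pth K} {C0 a e : ℝ} {L : ℕ} (hC0 : 0 ≤ C0) (h : ThreeScale P X C0 a e L) {A : ℝ}
    (hA : 1 ≤ A) (l i : ℕ) :
    P {ω | A * (2 : ℝ) ^ (-(l : ℝ) / 8) <
      ‖X ω (((i : ℝ≥0) + 1) / 2 ^ l) - X ω ((i : ℝ≥0) / 2 ^ l)‖} ≤
    ENNReal.ofReal (2 * C0 / A ^ 2 * ((1 / 8) ^ l + e) * 2 ^ l) := by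
  set y : ℝ := (2 : ℝ) ^ (-(l : ℝ) / 8) with hy
  have hy0 : 0 < y := Real.rpow_pos_of_pos (by norm_num) _
  have hy1 : y ≤ 1 := by
    rw [hy]
    apply Real.rpow_le_one_of_one_le_of_nonpos (by norm_num)
    have : (0 : ℝ) ≤ l := Nat.cast_nonneg l
    linarith
  have hy8 : y ^ 8 = ((2 : ℝ) ^ l)⁻¹ := by
    rw [hy, ← Real.rpow_natCast, ← Real.rpow_mul (by norm_num)]
    have : -(l : ℝ) / 8 * ((8 : ℕ) : ℝ) = -(l : ℝ) := by push_cast; ring
    rw [this, Real.rpow_neg (by norm_num), Real.rpow_natCast]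
  have hdist : |((((i : ℝ≥0) + 1) / 2 ^ l : ℝ≥0) : ℝ) - (((i : ℝ≥0) / 2 ^ l : ℝ≥0) : ℝ)| =
      1 / 2 ^ l := by
    push_cast
    have : ((i : ℝ) + 1) / 2 ^ l - (i : ℝ) / 2 ^ l = 1 / 2 ^ l := by ring
    rw [this, abs_of_pos (by positivity)]
  have h2l : (1 : ℝ) ≤ 2 ^ l := one_le_pow₀ (by norm_num)
  have hle1 : (1 : ℝ) / 2 ^ l ≤ 1 := by
    rw [div_le_one (by positivity)]
    exact h2l
  have h1 := h.coarse ((i : ℝ≥0) / 2 ^ l) (((i : ℝ≥0) + 1) / 2 ^ l) (by rw [hdist]; exact hle1)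
    (A * y) (by positivity)
  rw [hdist] at h1
  refine h1.trans (ENNReal.ofReal_le_ofReal ?_)
  have hA0 : 0 < A := by linarith
  have hA2 : 0 < A ^ 2 := by positivity
  have k1 : ((A * y) ^ 2)⁻¹ ≤ 2 ^ l / A ^ 2 := by
    rw [inv_le_comm₀ (by positivity) (by positivity), inv_div, div_eq_mul_inv, ← hy8, mul_pow]
    have : y ^ 8 ≤ y ^ 2 := pow_le_pow_of_le_one hy0.le hy1 (by norm_num)
    exact mul_le_mul_of_nonneg_left this hA2.le
  have k2 : ((A * y) ^ 8)⁻¹ ≤ 2 ^ l / A ^ 2 := by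
    rw [inv_le_comm₀ (by positivity) (by positivity), inv_div, div_eq_mul_inv, ← hy8, mul_pow]
    have : A ^ 2 ≤ A ^ 8 := pow_le_pow_right₀ hA (by norm_num)
    exact mul_le_mul_of_nonneg_right this (by positivity)
  have k3 : ((1 : ℝ) / 2 ^ l) ^ 3 = (1 / 8) ^ l := by
    rw [one_div, one_div, inv_pow, inv_pow, ← pow_mul, mul_comm l 3, pow_mul]
    norm_num
  rw [k3]
  have he := h.he
  have k4 : 0 ≤ C0 * ((1 / 8) ^ l + e) := by positivity
  calc C0 * ((1 / 8) ^ l + e) * (((A * y) ^ 2)⁻¹ + ((A * y) ^ 8)⁻¹)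
      ≤ C0 * ((1 / 8) ^ l + e) * (2 ^ l / A ^ 2 + 2 ^ l / A ^ 2) :=
        mul_le_mul_of_nonneg_left (add_le_add k1 k2) k4
    _ = 2 * C0 / A ^ 2 * ((1 / 8) ^ l + e) * 2 ^ l := by ring

theorem geo4 (L : ℕ) : ∑ l ∈ Finset.range (L + 1), (4 : ℝ) ^ l ≤ 2 * 4 ^ L := by
  induction L with
  | zero => norm_num
  | succ L ih =>
    rw [Finset.sum_range_succ]
    have : (4 : ℝ) ^ (L + 1) = 4 * 4 ^ L := by ring
    rw [this]
    have h0 : (0 : ℝ) < 4 ^ L := by positivity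
    linarith

theorem dyb_prob {K : Type} [Fintype K] {I : ℕ → Pth K → Pth K} (hI : IsItp I) {Ω : Type}
    [MeasurableSpace Ω] {P : Measure Ω}
    {X : Ω → Pth K} {C0 a e : ℝ} {L : ℕ} (hC0 : 0 ≤ C0) (h : ThreeScale P X C0 a e L) (N : ℕ)
    {A : ℝ} (hA : 1 ≤ A) :
    P {ω | ¬ DyB N A (I L (X ω))} ≤ ENNReal.ofReal (8 * C0 * N / A ^ 2) := by
  have hsub : {ω | ¬ DyB N A (I L (X ω))} ⊆
      ⋃ l ∈ Finset.range (L + 1), ⋃ i ∈ Finset.range (N * 2 ^ l),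
        {ω | A * (2 : ℝ) ^ (-(l : ℝ) / 8) <
          ‖X ω (((i : ℝ≥0) + 1) / 2 ^ l) - X ω ((i : ℝ≥0) / 2 ^ l)‖} := by
    intro ω hω
    by_contra hcon
    apply hω
    refine dyb_itp hI L N (by linarith) (X ω) fun l hl i hi => ?_
    by_contra h2
    apply hcon
    rw [not_le] at h2
    simp only [Set.mem_iUnion]
    exact ⟨l, Finset.mem_range.2 (by omega), i, Finset.mem_range.2 hi, h2⟩
  have he := h.he
  have hA0 : 0 < A := by linarith
  refine (measure_mono hsub).trans ((measure_biUnion_finset_le _ _).trans ?_)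
  calc ∑ l ∈ Finset.range (L + 1), P (⋃ i ∈ Finset.range (N * 2 ^ l),
        {ω | A * (2 : ℝ) ^ (-(l : ℝ) / 8) <
          ‖X ω (((i : ℝ≥0) + 1) / 2 ^ l) - X ω ((i : ℝ≥0) / 2 ^ l)‖})
      ≤ ∑ l ∈ Finset.range (L + 1), ENNReal.ofReal
          (2 * C0 * N / A ^ 2 * ((1 / 2) ^ l + e * 4 ^ l)) := by
        refine Finset.sum_le_sum fun l _ => ?_
        refine (measure_biUnion_finset_le _ _).trans ?_
        refine (Finset.sum_le_sum fun i _ => one_inc hC0 h hA l i).trans ?_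
        rw [Finset.sum_const, Finset.card_range, nsmul_eq_mul, ← ENNReal.ofReal_natCast,
          ← ENNReal.ofReal_mul (Nat.cast_nonneg _)]
        apply ENNReal.ofReal_le_ofReal
        apply le_of_eq
        have k1 : ((1 : ℝ) / 8) ^ l * 4 ^ l = (1 / 2) ^ l := by
          rw [← mul_pow]
          norm_num
        have k2 : (2 : ℝ) ^ l * 2 ^ l = 4 ^ l := by
          rw [← mul_pow]
          norm_num
        push_cast
        rw [← k1]
        rw [← k2]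
        ring
    _ ≤ ENNReal.ofReal (8 * C0 * N / A ^ 2) := by
        rw [← ENNReal.ofReal_sum_of_nonneg (fun l _ => by positivity), ← Finset.mul_sum,
          Finset.sum_add_distrib, ← Finset.mul_sum]
        apply ENNReal.ofReal_le_ofReal
        have k1 := sum_geometric_two_le (L + 1)
        have k2 := mul_le_mul_of_nonneg_left (geo4 L) he
        have k3 := h.heL
        have k4 : 0 ≤ 2 * C0 * N / A ^ 2 := by positivity
        have k5 : ∑ i ∈ Finset.range (L + 1), (1 / (2 : ℝ)) ^ i +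
            e * ∑ i ∈ Finset.range (L + 1), (4 : ℝ) ^ i ≤ 4 := by linarith
        calc 2 * C0 * N / A ^ 2 * (∑ i ∈ Finset.range (L + 1), (1 / (2 : ℝ)) ^ i +
            e * ∑ i ∈ Finset.range (L + 1), (4 : ℝ) ^ i)
            ≤ 2 * C0 * N / A ^ 2 * 4 := mul_le_mul_of_nonneg_left k5 k4
          _ = 8 * C0 * N / A ^ 2 := by ring

end TI3M

open TI3M in
theorem specTI3 (hDYA : SpecDYA) : SpecTI3 := by
  intro C0 C1 ε hC0 hC1 hε
  obtain ⟨h, hh⟩ := tight hDYA (fun N => 8 * C0 * N) hC1 hε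
  refine ⟨h, fun K _ I Ω _ P _ X a e L hI _ hts h0 => ?_⟩
  refine hh K Ω P (fun ω => I L (X ω)) (fun N A hA => dyb_prob hI hC0 hts N hA) fun R hR => ?_
  have e1 : ∀ ω, I L (X ω) 0 = X ω 0 := by
    intro ω
    have := grid hI L (X ω) 0
    simpa using this
  simp only [e1]
  exact h0 R hR

end Pool.Agent.Lib.MP17fa2c
end
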