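import Pool.Agent.Lib.MP_17fa2c_pr.TD.SpecA

section
/-! # Resampling along the exploration -/
set_option autoImplicit false

open MeasureTheory ProbabilityTheory Filter Topology
open scoped RealInnerProductSpace NNReal ENNReal

namespace Pool.Agent.Lib.MP17fa2c

namespace RPEM

variable {E : Type} [NormedAddCommGroup E] [InnerProductSpace ℝ E]

theorem cp_apply (P : E →L[ℝ] E) (x : E) : cp P x = x - P x := rfl

theorem res_apply {T : Type} (P : E →L[ℝ] E) (M G : T → E →L[ℝ] E) (i : T) (x : E) :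
    res P M G i x = M i x - cp P (M i (cp P x)) + cp P (G i (cp P x)) := rfl

theorem res_zero {T : Type} (M G : T → E →L[ℝ] E) : res 0 M G = G := by
  funext i
  ext x
  rw [res_apply]
  simp only [cp_apply]
  simp

/-- two nested resamplings -/
theorem res_res {T : Type} {P P' : E →L[ℝ] E} (h1 : ∀ x, P (P' x) = P x)
    (h2 : ∀ x, P' (P x) = P x) (M G G' : T → E →L[ℝ] E) :
    res P' (res P M G) G' = res P M (res P' G G') := by
  have e1 : ∀ x, cp P (cp P' x) = cp P' x := by
    intro x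
    simp only [cp_apply, map_sub, h1]
    abel
  have e2 : ∀ x, cp P' (cp P x) = cp P' x := by
    intro x
    simp only [cp_apply, map_sub, h2]
    abel
  funext i
  ext x
  simp only [res_apply, map_sub, map_add, e1, e2]
  abel

end RPEM

open RPEM in
theorem specRPE (hRPF : SpecRPF) (hKNO : SpecKNO) (hMEA : SpecMEA) (hEXP : SpecEXP) : SpecRPE := by
  intro ι _ _ E _ _ _ T _ S c ν u hν j
  letI : MeasurableSpace E := borel E
  haveI : BorelSpace E := ⟨rfl⟩
  haveI := hν.gauss
  have hres := (hMEA ι E T S u 0).2.2.2.2.2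
  induction j with
  | zero =>
    intro F hF
    have h : ∀ M G : T → E →L[ℝ] E, res (expl S u M 0) M G = G := fun M G => res_zero M G
    simp only [h]
    rw [lintegral_const, measure_univ, mul_one]
  | succ j ih =>
    intro F hF
    -- measurability
    have hexp := (hMEA ι E T S u (j + 1)).1
    have hm : Measurable fun p : (T → E →L[ℝ] E) × (T → E →L[ℝ] E) =>
        F (res (expl S u p.1 (j + 1)) p.1 p.2) := by
      have h1 : Measurable fun p : (T → E →L[ℝ] E) × (T → E →L[ℝ] E) =>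
          ((expl S u p.1 (j + 1), p.1, p.2) :
            (E →L[ℝ] E) × (T → E →L[ℝ] E) × (T → E →L[ℝ] E)) :=
        (hexp.comp measurable_fst).prodMk (measurable_fst.prodMk measurable_snd)
      exact hF.comp (hres.comp h1)
    have hH : Measurable fun M : T → E →L[ℝ] E =>
        ∫⁻ G', F (res (expl S u M (j + 1)) M G') ∂ν := hm.lintegral_prod_right'
    rw [ih F hF, ih _ hH]
    refine lintegral_congr_ae ?_
    filter_upwards [hν.herm] with M hM
    have hP := (hEXP ι E T S u M (j + 1)).1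
    have hm2 : Measurable fun G : T → E →L[ℝ] E => F (res (expl S u M j) M G) := by
      have h1 : Measurable fun G : T → E →L[ℝ] E =>
          ((expl S u M j, M, G) : (E →L[ℝ] E) × (T → E →L[ℝ] E) × (T → E →L[ℝ] E)) :=
        measurable_const.prodMk (measurable_const.prodMk measurable_id)
      exact hF.comp (hres.comp h1)
    rw [hRPF ι E T S c ν hν (expl S u M (j + 1)) hP _ hm2]
    refine lintegral_congr_ae ?_
    filter_upwards [hν.herm] with G hG
    refine lintegral_congr fun G' => ?_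
    have h3 := (hKNO ι E T S u M G j hM hG).2.2.2.1 (j + 1) le_rfl
    rw [h3]
    have h4 := (hEXP ι E T S u M (j + 1)).2.1 j (Nat.le_succ j)
    rw [res_res (fun x => (h4 x).1) (fun x => (h4 x).2)]

end Pool.Agent.Lib.MP17fa2c
end

section
/-! # RPI: resampling along the exploration, integrable functions -/
set_option autoImplicit false

open MeasureTheory ProbabilityTheory Filter Topology
open scoped RealInnerProductSpace NNReal ENNReal

namespace Pool.Agent.Lib.MP17fa2c

namespace RPIM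

theorem gen {Ω : Type} [MeasurableSpace Ω] (ν : Measure Ω) [IsProbabilityMeasure ν]
    (Φ : Ω × Ω → Ω) (hΦ : Measurable Φ)
    (h : ∀ F : Ω → ℝ≥0∞, Measurable F → ∫⁻ M, F M ∂ν = ∫⁻ M, ∫⁻ G, F (Φ (M, G)) ∂ν ∂ν)
    {V : Type} [NormedAddCommGroup V] [NormedSpace ℝ V] (F : Ω → V)
    (hm : AEStronglyMeasurable F ν) (hF : Integrable F ν) :
    (∀ᵐ M ∂ν, Integrable (fun G => F (Φ (M, G))) ν) ∧
    Integrable (fun M => ∫ G, F (Φ (M, G)) ∂ν) ν ∧
    ∫ M, F M ∂ν = ∫ M, ∫ G, F (Φ (M, G)) ∂ν ∂ν := by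
  have hmap : (ν.prod ν).map Φ = ν := by
    refine Measure.ext_of_lintegral _ fun F hF => ?_
    rw [lintegral_map hF hΦ, h F hF]
    exact lintegral_prod (fun p => F (Φ p)) (hF.comp hΦ).aemeasurable
  have hF' : Integrable F ((ν.prod ν).map Φ) := by rwa [hmap]
  have hm' : AEStronglyMeasurable F ((ν.prod ν).map Φ) := by rwa [hmap]
  have hFc : Integrable (F ∘ Φ) (ν.prod ν) := (integrable_map_measure hm' hΦ.aemeasurable).1 hF'
  refine ⟨hFc.prod_right_ae, hFc.integral_prod_left, ?_⟩
  have h1 : ∫ M, F M ∂ν = ∫ p, F (Φ p) ∂(ν.prod ν) := by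
    conv_lhs => rw [← hmap]
    exact integral_map hΦ.aemeasurable hm'
  rw [h1]
  exact integral_prod _ hFc

end RPIM

theorem specRPI (hRPE : SpecRPE) (hMEA : SpecMEA) : SpecRPI := by
  intro ι _ _ E _ _ _ T _ S c ν u hν j
  let _ : MeasurableSpace E := borel E
  have _ : BorelSpace E := ⟨rfl⟩
  have := hν.gauss
  obtain ⟨m1, -, -, -, -, m6⟩ := hMEA ι E T S u j
  have hΦ : Measurable (fun p : (T → E →L[ℝ] E) × (T → E →L[ℝ] E) =>
      res (expl S u p.1 j) p.1 p.2) := by
    have h2 : Measurable (fun p : (T → E →L[ℝ] E) × (T → E →L[ℝ] E) =>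
        (expl S u p.1 j, p.1, p.2)) :=
      (m1.comp measurable_fst).prodMk (measurable_fst.prodMk measurable_snd)
    exact m6.comp h2
  have h := hRPE ι E T S c ν u hν j
  exact ⟨fun F hm hF => RPIM.gen ν _ hΦ h F hm.aestronglyMeasurable hF,
    fun F hm hF => RPIM.gen ν _ hΦ h F hm.aestronglyMeasurable hF⟩

end Pool.Agent.Lib.MP17fa2c
end

section
/-!
# MP_17fa2c_pr, module TRA: traces of projections
-/
set_option autoImplicit false

open MeasureTheory ProbabilityTheory Filter Topology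
open scoped RealInnerProductSpace NNReal ENNReal

namespace Pool.Agent.Lib.MP17fa2c

namespace TRAM

variable {ι : Type} [Fintype ι] [DecidableEq ι] {E : Type} [NormedAddCommGroup E]
  [InnerProductSpace ℝ E]

theorem inner_P (S : BStr ι E) (P : E →L[ℝ] E) (hP : IsPr S P) (x : E) :
    ⟪x, P x⟫ = ‖P x‖ ^ 2 := by
  have h1 : ⟪P x, P x⟫ = ⟪x, P x⟫ := by
    rw [hP.1.1 x (P x), hP.2 x]
  rw [← h1, real_inner_self_eq_norm_sq]

theorem norm_P (S : BStr ι E) (P : E →L[ℝ] E) (hP : IsPr S P) (x : E) : ‖P x‖ ≤ ‖x‖ := by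
  have h1 := inner_P S P hP x
  have h2 := real_inner_le_norm x (P x)
  rcases (norm_nonneg (P x)).eq_or_lt with h | h
  · rw [← h]
    exact norm_nonneg x
  · nlinarith

theorem skew_self (S : BStr ι E) (a : ι) (ha : a ≠ S.o) (x : E) : ⟪x, S.J a x⟫ = 0 := by
  have h1 := S.skew a ha x x
  have h2 : ⟪S.J a x, x⟫ = ⟪x, S.J a x⟫ := real_inner_comm _ _
  linarith

variable [FiniteDimensional ℝ E]

theorem tr_eq (T : E →L[ℝ] E) :
    tr T = ∑ i, ⟪stdOrthonormalBasis ℝ E i, T (stdOrthonormalBasis ℝ E i)⟫ := by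
  unfold tr
  rw [LinearMap.trace_eq_sum_inner _ (stdOrthonormalBasis ℝ E)]
  rfl

end TRAM

theorem specTRA : SpecTRA := by
  intro ι _ _ E _ _ _ S P hP
  have htr : tr P = ∑ i, ‖P (stdOrthonormalBasis ℝ E i)‖ ^ 2 := by
    rw [TRAM.tr_eq]
    exact Finset.sum_congr rfl fun i _ => TRAM.inner_P S P hP _
  refine ⟨?_, ?_, ?_, ?_, ?_⟩
  · rw [htr]
    exact Finset.sum_nonneg fun i _ => by positivity
  · rw [htr]
    have h1 : ∀ i, ‖P (stdOrthonormalBasis ℝ E i)‖ ^ 2 ≤ 1 := by
      intro i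
      have h2 := TRAM.norm_P S P hP (stdOrthonormalBasis ℝ E i)
      rw [(stdOrthonormalBasis ℝ E).orthonormal.1 i] at h2
      exact pow_le_one₀ (norm_nonneg _) h2
    refine (Finset.sum_le_sum fun i _ => h1 i).trans ?_
    unfold dm
    simp
  · unfold tr cp dm
    have h1 : ((ContinuousLinearMap.id ℝ E - P : E →L[ℝ] E) : E →ₗ[ℝ] E)
        = LinearMap.id - (P : E →ₗ[ℝ] E) := by
      ext x
      simp
    rw [h1, map_sub, LinearMap.trace_id]
  · intro a ha
    rw [TRAM.tr_eq]
    apply Finset.sum_eq_zero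
    intro i _
    have h1 : ⟪stdOrthonormalBasis ℝ E i, (P ∘L S.J a ∘L P) (stdOrthonormalBasis ℝ E i)⟫
        = ⟪P (stdOrthonormalBasis ℝ E i), S.J a (P (stdOrthonormalBasis ℝ E i))⟫ := by
      rw [hP.1.1]
      rfl
    rw [h1]
    exact TRAM.skew_self S a ha _
  · intro h
    rw [htr, Finset.sum_eq_zero_iff_of_nonneg (fun i _ => by positivity)] at h
    have h1 : ∀ i, P (stdOrthonormalBasis ℝ E i) = 0 := by
      intro i
      have h2 := h i (Finset.mem_univ i)
      have h3 : ‖P (stdOrthonormalBasis ℝ E i)‖ = 0 := by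
        simpa using h2
      exact norm_eq_zero.1 h3
    have h2 : (P : E →ₗ[ℝ] E) = 0 := by
      apply (stdOrthonormalBasis ℝ E).toBasis.ext
      intro i
      simp only [OrthonormalBasis.coe_toBasis, LinearMap.zero_apply]
      exact h1 i
    ext x
    exact congrArg (fun T : E →ₗ[ℝ] E => T x) h2

end Pool.Agent.Lib.MP17fa2c
end
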