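import Pool.Agent.Lib.MP_17fa2c_pr.TD.SpecB

section
/-! # BST -/
set_option autoImplicit false

open MeasureTheory ProbabilityTheory Filter Topology
open scoped RealInnerProductSpace NNReal ENNReal BoundedContinuousFunction Quaternion

namespace Pool.Agent.Lib.MP17fa2c

namespace BSTM

variable {𝔽 : Type} [NormedRing 𝔽] [StarRing 𝔽] [InnerProductSpace ℝ 𝔽]
  [IsScalarTower ℝ 𝔽 𝔽] [SMulCommClass ℝ 𝔽 𝔽] [FiniteDimensional ℝ 𝔽]

/-- right multiplication by `c` -/
noncomputable def rm (n : ℕ) (c : 𝔽) : VE 𝔽 n →L[ℝ] VE 𝔽 n :=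
  LinearMap.toContinuousLinearMap
    { toFun := fun x => WithLp.toLp 2 (fun i => x i * c)
      map_add' := by
        intro x y; ext i; simp [add_mul]
      map_smul' := by
        intro r x; ext i; simp [smul_mul_assoc] }

omit [StarRing 𝔽] [SMulCommClass ℝ 𝔽 𝔽] in
theorem rm_apply (n : ℕ) (c : 𝔽) (x : VE 𝔽 n) (i : Fin n) : (rm n c x) i = x i * c := rfl

omit [StarRing 𝔽] [IsScalarTower ℝ 𝔽 𝔽] in
theorem opm_apply {n : ℕ} (A : Matrix (Fin n) (Fin n) 𝔽) (x : VE 𝔽 n) (i : Fin n) :
    (opm A x) i = ∑ j, A i j * x j := rfl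

end BSTM

open BSTM in
/-- BST -/
theorem specBST (hOPM : SpecOPM) : SpecBST := by
  intro ι _ _ 𝔽 _ _ _ _ _ _ F n
  have hne : ∀ a, ‖F.e a‖ = 1 := fun a => F.e.orthonormal.1 a
  refine ⟨{ J := fun a => rm n (F.e a)
            o := F.o
            J_o := fun x => ?_
            norm_J := fun a x => ?_
            skew := fun a ha x y => ?_
            mul := fun a b => ?_ }, rfl, fun a x i => rfl, fun A hA => ⟨fun x y => ?_, fun a x => ?_⟩, ?_⟩
  · ext i
    rw [rm_apply, F.e_o, mul_one]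
  · rw [PiLp.norm_eq_of_L2, PiLp.norm_eq_of_L2]
    congr 1
    refine Finset.sum_congr rfl fun i _ => ?_
    rw [rm_apply, F.norm_mul, hne, mul_one]
  · rw [PiLp.inner_apply, PiLp.inner_apply, ← Finset.sum_neg_distrib]
    refine Finset.sum_congr rfl fun i _ => ?_
    rw [rm_apply, rm_apply, F.mul_inner, F.star_e a ha, mul_neg, inner_neg_right]
  · obtain ⟨c, s, hs, he, hc⟩ := F.mul_e a b
    refine ⟨c, s, hs, fun x => ?_, hc⟩
    ext i
    show (x i * F.e b) * F.e a = s • (x i * F.e c)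
    rw [mul_assoc, he, mul_smul_comm]
  · rw [(hOPM ι 𝔽 F n).2.2.2.1 A x y, hA.eq]
  · ext i
    show ∑ j, A i j * (x j * F.e a) = (∑ j, A i j * x j) * F.e a
    rw [Finset.sum_mul]
    exact Finset.sum_congr rfl fun j _ => (mul_assoc _ _ _).symm
  · have h1 : Module.finrank ℝ 𝔽 = Fintype.card ι := Module.finrank_eq_card_basis F.e.toBasis
    have h2 : Module.finrank ℝ (VE 𝔽 n) = Module.finrank ℝ (Fin n → 𝔽) :=
      (WithLp.linearEquiv 2 ℝ (Fin n → 𝔽)).finrank_eq
    rw [h2, Module.finrank_pi_fintype]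
    simp [h1, mul_comm]

end Pool.Agent.Lib.MP17fa2c
end

section
/-! # EXI: continuous versions exist -/
set_option autoImplicit false

open MeasureTheory ProbabilityTheory Filter Topology
open scoped RealInnerProductSpace NNReal ENNReal BoundedContinuousFunction Quaternion

namespace Pool.Agent.Lib.MP17fa2c

namespace EXIM

section

variable {E : Type} [NormedAddCommGroup E] [InnerProductSpace ℝ E]

theorem meas_ab (hMEA : SpecMEA) {ι : Type} [Fintype ι] [DecidableEq ι] [FiniteDimensional ℝ E]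
    (S : BStr ι E) (u : E) (l : ℕ) {Ω : Type} [MeasurableSpace Ω] (Z : Ω → E →L[ℝ] E)
    (hZ : Measurable Z) :
    (Measurable fun ω => av (Z ω) u l) ∧ Measurable fun ω => bv (Z ω) u l := by
  let _ : MeasurableSpace E := borel _
  have _ : BorelSpace E := ⟨rfl⟩
  have h := hMEA ι E Unit S u l
  have h1 : Measurable fun ω => (fun _ : Unit => Z ω) := measurable_pi_lambda _ fun _ => hZ
  exact ⟨(h.2.2.1 ()).comp h1, (h.2.2.2.1 ()).comp h1⟩

/-- the path of rescaled entries -/
noncomputable def pathv (β n : ℕ) (u : E) {j : ℕ} (kk : Fin j → ℕ) (Z : ℝ≥0 → E →L[ℝ] E)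
    (t : ℝ≥0) : Fin j ⊕ Fin j → ℝ
  | Sum.inl i => av (Z (t / (kk i : ℝ≥0))) u (kk i - 1)
  | Sum.inr i => (bv (Z (t / (kk i : ℝ≥0))) u (kk i - 1) ^ 2 - β * ((n : ℝ) - kk i)) /
      Real.sqrt (β * ((n : ℝ) - kk i))

theorem path_cont (hDIF : SpecDIF) (β n : ℕ) (u : E) {j : ℕ} (kk : Fin j → ℕ) (K : ℕ)
    (hkk : ∀ i, kk i ≤ K)
    (Z : ℝ≥0 → E →L[ℝ] E) (hZ : Continuous Z) (hb : ∀ t : ℝ≥0, ∀ l ≤ K, bv (Z t) u l ≠ 0) :
    Continuous (pathv β n u kk Z) := by
  have hs : ∀ i, Continuous fun t : ℝ≥0 => Z (t / (kk i : ℝ≥0)) := fun i =>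
    hZ.comp (by fun_prop)
  have h1 : ∀ i, Continuous fun t : ℝ≥0 => av (Z (t / (kk i : ℝ≥0))) u (kk i - 1) := by
    intro i
    rw [continuous_iff_continuousAt]
    intro t
    have h2 := (hDIF E u (Z (t / (kk i : ℝ≥0))) (kk i - 1)
      (fun l hl => hb _ l (by have := hkk i; omega))).2.2.1
    exact ContinuousAt.comp (f := fun t : ℝ≥0 => Z (t / (kk i : ℝ≥0)))
      (g := fun A : E →L[ℝ] E => av A u (kk i - 1)) h2.continuousAt (hs i).continuousAt
  have h3 : ∀ i, Continuous fun t : ℝ≥0 => bv (Z (t / (kk i : ℝ≥0))) u (kk i - 1) ^ 2 := by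
    intro i
    rw [continuous_iff_continuousAt]
    intro t
    have h2 := (hDIF E u (Z (t / (kk i : ℝ≥0))) (kk i - 1)
      (fun l hl => hb _ l (by have := hkk i; omega))).2.2.2.1
    exact ContinuousAt.comp (f := fun t : ℝ≥0 => Z (t / (kk i : ℝ≥0)))
      (g := fun A : E →L[ℝ] E => bv A u (kk i - 1) ^ 2) h2.continuousAt (hs i).continuousAt
  refine continuous_pi fun s => ?_
  rcases s with i | i
  · exact h1 i
  · exact ((h3 i).sub continuous_const).div_const _

end

section

variable {𝔽 : Type} [NormedRing 𝔽] [StarRing 𝔽] [InnerProductSpace ℝ 𝔽]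
  [IsScalarTower ℝ 𝔽 𝔽] [SMulCommClass ℝ 𝔽 𝔽] [FiniteDimensional ℝ 𝔽]

omit [IsScalarTower ℝ 𝔽 𝔽] [SMulCommClass ℝ 𝔽 𝔽] [FiniteDimensional ℝ 𝔽] in
theorem norm_e1 {β : ℕ} (F : FStr (Fin β) 𝔽) (m : ℕ) : ‖e1 𝔽 m‖ = 1 := by
  have h1 : ‖(1 : 𝔽)‖ = 1 := by
    rw [← F.e_o]
    exact F.e.orthonormal.1 F.o
  have h2 : ‖e1 𝔽 m‖ ^ 2 = 1 := by
    rw [PiLp.norm_sq_eq_of_L2]
    rw [Finset.sum_eq_single (0 : Fin (m + 1))]
    · show ‖(if (0 : Fin (m + 1)) = 0 then (1 : 𝔽) else 0)‖ ^ 2 = 1
      rw [if_pos rfl, h1, one_pow]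
    · intro i _ hi
      show ‖(if i = 0 then (1 : 𝔽) else 0)‖ ^ 2 = 0
      rw [if_neg hi, norm_zero]
      norm_num
    · intro h
      exact absurd (Finset.mem_univ _) h
  have h3 := norm_nonneg (e1 𝔽 m)
  nlinarith

theorem ev_size {k : ℕ → ℕ} (hk : Tendsto (fun n => (k n : ℝ) / n) atTop (𝓝 0)) {C : ℝ}
    (hC : 0 < C) {β : ℕ} (hβ : 0 < β) :
    ∀ᶠ n : ℕ in atTop, 1 ≤ n ∧ C * (k n + 1) ≤ β * n ∧ k n < n := by
  have hβ' : (0 : ℝ) < β := by exact_mod_cast hβ
  have h1 : ∀ᶠ n : ℕ in atTop, (k n : ℝ) / n < β / (2 * C) :=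
    hk.eventually (gt_mem_nhds (by positivity))
  have h2 : ∀ᶠ n : ℕ in atTop, (k n : ℝ) / n < 1 := hk.eventually (gt_mem_nhds one_pos)
  have h3 : ∀ᶠ n : ℕ in atTop, 2 * C / β ≤ (n : ℝ) :=
    tendsto_natCast_atTop_atTop.eventually (eventually_ge_atTop _)
  filter_upwards [h1, h2, h3, eventually_ge_atTop 1] with n h1 h2 h3 h4
  have hn : (0 : ℝ) < n := by
    have : (1 : ℝ) ≤ n := by exact_mod_cast h4
    linarith
  refine ⟨h4, ?_, ?_⟩
  · rw [div_lt_div_iff₀ hn (by positivity)] at h1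
    rw [div_le_iff₀ hβ'] at h3
    nlinarith
  · rw [div_lt_one hn] at h2
    exact_mod_cast h2

end

end EXIM

open EXIM in
/-- EXI -/
theorem specEXI (hCTP : SpecCTP) (hDIF : SpecDIF) (hEXT : SpecEXT) (hTRI : SpecTRI)
    (hGFM : SpecGFM) (hBST : SpecBST) (hOPM : SpecOPM) (hMEA : SpecMEA) : SpecEXI := by
  intro β 𝔽 _ _ _ _ _ _ F hFo k hk
  obtain ⟨C, hC, hctp⟩ := hCTP (Fin β)
  have hβ : 0 < β := by
    have := F.o.2
    omega
  show ∀ᶠ n in atTop, _
  filter_upwards [ev_size hk hC hβ] with n hn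
  obtain ⟨hn1, hnC, hkn⟩ := hn
  obtain ⟨m, rfl⟩ : ∃ m, n = m + 1 := ⟨n - 1, by omega⟩
  intro j kk hkk Ω _ P _ M hM hcM
  obtain ⟨S, -, hSJ, -, hfin⟩ := hBST (Fin β) 𝔽 F (m + 1)
  have hOP := hGFM β 𝔽 F (m + 1) hFo S hSJ Ω P M hM
  have hopm := (hOPM (Fin β) 𝔽 F (m + 1)).2.2.2.2
  have hZc : ∀ ω, Continuous fun t => opm (M ω t) := fun ω => hopm.comp (hcM ω)
  have hdm : C * ((k (m + 1) : ℝ) + 1) ≤ dm (VE 𝔽 (m + 1)) := by
    unfold dm
    rw [hfin, Fintype.card_fin]
    push_cast at hnC ⊢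
    exact hnC
  have hae := hctp (VE 𝔽 (m + 1)) S (e1 𝔽 m) Ω P (fun ω t => opm (M ω t)) (norm_e1 F m) hOP hZc
    (k (m + 1)) hdm
  -- a measurable null set
  set N : Set Ω := toMeasurable P {ω | ¬ ∀ t : ℝ≥0, ∀ l ≤ k (m + 1),
    bv (opm (M ω t)) (e1 𝔽 m) l ≠ 0} with hN
  have hNm : MeasurableSet N := measurableSet_toMeasurable _ _
  have hN0 : P N = 0 := by
    rw [hN, measure_toMeasurable]
    exact hae
  have hNb : ∀ ω, ω ∉ N → ∀ t : ℝ≥0, ∀ l ≤ k (m + 1), bv (opm (M ω t)) (e1 𝔽 m) l ≠ 0 := by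
    intro ω hω
    by_contra h
    exact hω (subset_toMeasurable P _ h)
  have hpc : ∀ ω, ω ∉ N → Continuous (pathv β (m + 1) (e1 𝔽 m) kk fun t => opm (M ω t)) :=
    fun ω hω => path_cont hDIF β (m + 1) (e1 𝔽 m) kk (k (m + 1)) (fun i => (hkk i).2) _ (hZc ω)
      (hNb ω hω)
  classical
  refine ⟨fun ω => if h : ω ∈ N then 0 else ⟨_, hpc ω h⟩, ?_, ?_⟩
  · intro t
    have hab : ∀ (s : ℝ≥0) (l : ℕ), (Measurable fun ω => av (opm (M ω s)) (e1 𝔽 m) l) ∧
        Measurable fun ω => bv (opm (M ω s)) (e1 𝔽 m) l :=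
      fun s l => meas_ab hMEA S (e1 𝔽 m) l (fun ω => opm (M ω s)) (hOP.meas s)
    have h1 : Measurable fun ω => pathv β (m + 1) (e1 𝔽 m) kk (fun t => opm (M ω t)) t := by
      rw [measurable_pi_iff]
      intro s
      rcases s with i | i
      · exact (hab _ _).1
      · exact ((((hab _ _).2).pow_const 2).sub_const _).div_const _
    have h2 : (fun ω => (if h : ω ∈ N then (0 : C(ℝ≥0, Fin j ⊕ Fin j → ℝ)) else
        ⟨_, hpc ω h⟩) t) = fun ω => if ω ∈ N then (0 : Fin j ⊕ Fin j → ℝ) else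
        pathv β (m + 1) (e1 𝔽 m) kk (fun t => opm (M ω t)) t := by
      funext ω
      by_cases h : ω ∈ N
      · rw [dif_pos h, if_pos h]
        rfl
      · rw [dif_neg h, if_neg h]
        rfl
    rw [h2]
    exact Measurable.ite hNm measurable_const h1
  · have h0 : ∀ᵐ ω ∂P, ω ∉ N := by
      rw [ae_iff]
      simpa using hN0
    filter_upwards [h0] with ω hω
    intro t i
    rw [dif_neg hω]
    obtain ⟨a, b, hab⟩ := hEXT (Fin β) 𝔽 F (m + 1) (M ω (t / (kk i : ℝ≥0))) (hM.herm ω _)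
    have h1 := (hkk i).1
    have h2 := (hkk i).2
    have h3 := hTRI (Fin β) 𝔽 F m (M ω (t / (kk i : ℝ≥0))) a b hab (kk i - 1) (by omega)
      (fun l hl => hNb ω hω _ l (by omega))
    have h4 : kk i - 1 + 1 = kk i := by omega
    rw [h4] at h3
    refine ⟨a, b, hab, ?_, ?_⟩
    · rw [h3.1]
      rfl
    · rw [h3.2 (by omega)]
      rfl

end Pool.Agent.Lib.MP17fa2c
end

section
/-!
# EXT: existence of a tridiagonalization
-/
set_option autoImplicit false

open scoped RealInnerProductSpace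

namespace Pool.Agent.Lib.MP17fa2c

namespace EXTM

section Block

variable {R : Type} [Ring R] {n : ℕ}

/-- `1 ⊕ Y` -/
def up (Y : Matrix (Fin n) (Fin n) R) : Matrix (Fin (n + 1)) (Fin (n + 1)) R := fun i j =>
  Fin.cases (Fin.cases 1 (fun _ => 0) j) (fun i' => Fin.cases 0 (fun j' => Y i' j') j) i

@[simp] lemma up_00 (Y : Matrix (Fin n) (Fin n) R) : up Y 0 0 = 1 := rfl
@[simp] lemma up_0s (Y : Matrix (Fin n) (Fin n) R) (j : Fin n) : up Y 0 j.succ = 0 := rfl
@[simp] lemma up_s0 (Y : Matrix (Fin n) (Fin n) R) (i : Fin n) : up Y i.succ 0 = 0 := rfl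
@[simp] lemma up_ss (Y : Matrix (Fin n) (Fin n) R) (i j : Fin n) : up Y i.succ j.succ = Y i j := rfl

lemma up_mul (A B : Matrix (Fin n) (Fin n) R) : up A * up B = up (A * B) := by
  ext i j
  rw [Matrix.mul_apply, Fin.sum_univ_succ]
  refine Fin.cases ?_ (fun i => ?_) i <;> refine Fin.cases ?_ (fun j => ?_) j <;>
    simp [Matrix.mul_apply]

lemma up_one : up (1 : Matrix (Fin n) (Fin n) R) = 1 := by
  ext i j
  refine Fin.cases ?_ (fun i => ?_) i <;> refine Fin.cases ?_ (fun j => ?_) j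
  · simp
  · simp [Matrix.one_apply, Fin.succ_ne_zero, eq_comm]
  · simp [Matrix.one_apply, Fin.succ_ne_zero]
  · simp [Matrix.one_apply]

variable [StarRing R]

lemma up_star (A : Matrix (Fin n) (Fin n) R) : (up A).conjTranspose = up A.conjTranspose := by
  ext i j
  refine Fin.cases ?_ (fun i => ?_) i <;> refine Fin.cases ?_ (fun j => ?_) j <;>
    simp [Matrix.conjTranspose_apply]

/-- entries of `(1 ⊕ Y) T (1 ⊕ Y)*` -/
lemma conj_00 (Y : Matrix (Fin n) (Fin n) R) (T : Matrix (Fin (n + 1)) (Fin (n + 1)) R) :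
    (up Y * T * (up Y).conjTranspose) 0 0 = T 0 0 := by
  simp [Matrix.mul_apply, Fin.sum_univ_succ, Matrix.conjTranspose_apply]

lemma conj_s0 (Y : Matrix (Fin n) (Fin n) R) (T : Matrix (Fin (n + 1)) (Fin (n + 1)) R)
    (i : Fin n) : (up Y * T * (up Y).conjTranspose) i.succ 0 = ∑ l, Y i l * T l.succ 0 := by
  simp [Matrix.mul_apply, Fin.sum_univ_succ, Matrix.conjTranspose_apply]

lemma conj_0s (Y : Matrix (Fin n) (Fin n) R) (T : Matrix (Fin (n + 1)) (Fin (n + 1)) R)
    (j : Fin n) : (up Y * T * (up Y).conjTranspose) 0 j.succ = ∑ l, T 0 l.succ * star (Y j l) := by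
  simp [Matrix.mul_apply, Fin.sum_univ_succ, Matrix.conjTranspose_apply]

lemma conj_ss (Y : Matrix (Fin n) (Fin n) R) (T : Matrix (Fin (n + 1)) (Fin (n + 1)) R)
    (i j : Fin n) : (up Y * T * (up Y).conjTranspose) i.succ j.succ =
      (Y * T.submatrix Fin.succ Fin.succ * Y.conjTranspose) i j := by
  simp [Matrix.mul_apply, Fin.sum_univ_succ, Matrix.conjTranspose_apply]

end Block

section Real

variable {ι : Type} [Fintype ι] [DecidableEq ι] {𝔽 : Type} [NormedRing 𝔽]
  [StarRing 𝔽] [InnerProductSpace ℝ 𝔽] [IsScalarTower ℝ 𝔽 𝔽] [SMulCommClass ℝ 𝔽 𝔽]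
  [FiniteDimensional ℝ 𝔽]

lemma real_of_star (F : FStr ι 𝔽) {m : 𝔽} (hm : star m = m) : ∃ r : ℝ, m = r • (1 : 𝔽) := by
  refine ⟨⟪F.e F.o, m⟫, ?_⟩
  have h1 : ∀ a, a ≠ F.o → ⟪F.e a, m⟫ = 0 := by
    intro a ha
    have e1 : ⟪F.e a, star m⟫ = ⟪m, star (F.e a)⟫ := by
      have h2 := F.inner_mul (F.e a) 1 (star m)
      have h3 := F.mul_inner 1 m (star (F.e a))
      rw [mul_one] at h2
      rw [one_mul] at h3
      rw [h2, h3]
    rw [hm, F.star_e a ha, inner_neg_right, real_inner_comm] at e1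
    have h4 := real_inner_comm m (F.e a)
    linarith
  conv_lhs => rw [← F.e.sum_repr' m]
  rw [Finset.sum_eq_single F.o]
  · rw [F.e_o]
  · intro a _ ha
    rw [h1 a ha, zero_smul]
  · intro h
    exact absurd (Finset.mem_univ _) h

lemma ext_aux (hHHR : SpecHHR) (F : FStr ι 𝔽) : ∀ (n : ℕ) (M : Matrix (Fin n) (Fin n) 𝔽),
    M.IsHermitian → ∃ a b : ℕ → ℝ, IsTri M a b := by
  intro n
  induction n with
  | zero =>
    intro M hM
    exact ⟨0, 0, fun _ => le_rfl, 1, by simp, by simp, fun i => i.elim0, by ext i; exact i.elim0⟩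
  | succ n ih =>
    intro M hM
    obtain ⟨m, hm⟩ := real_of_star F (m := M 0 0) (hM.apply 0 0)
    cases n with
    | zero =>
      refine ⟨fun _ => m, 0, fun _ => le_rfl, 1, by simp, by simp, ?_, ?_⟩
      · intro i j _
        rw [Matrix.one_apply]
      · rw [one_mul, Matrix.conjTranspose_one, mul_one]
        ext i j
        have hi : i = 0 := by apply Fin.ext; simp
        have hj : j = 0 := by apply Fin.ext; simp
        subst hi
        subst hj
        rw [hm]
        simp [tri]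
    | succ n =>
      let x : Fin (n + 1) → 𝔽 := fun i => M i.succ 0
      let M' : Matrix (Fin (n + 1)) (Fin (n + 1)) 𝔽 := M.submatrix Fin.succ Fin.succ
      obtain ⟨V, r, hr, hV1, hV2, hVx⟩ := hHHR ι 𝔽 F n x
      have hM' : M'.IsHermitian := hM.submatrix _
      have hM'' : (V * M' * V.conjTranspose).IsHermitian := by
        unfold Matrix.IsHermitian
        rw [Matrix.conjTranspose_mul, Matrix.conjTranspose_mul, Matrix.conjTranspose_conjTranspose,
          hM'.eq, mul_assoc]
      obtain ⟨a', b', hb', U', hU1, hU2, hU3, hU4⟩ := ih _ hM''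
      let Y : Matrix (Fin (n + 1)) (Fin (n + 1)) 𝔽 := V.conjTranspose * U'
      have hY1 : Y.conjTranspose * Y = 1 := by
        change (V.conjTranspose * U').conjTranspose * (V.conjTranspose * U') = 1
        rw [Matrix.conjTranspose_mul, Matrix.conjTranspose_conjTranspose, mul_assoc,
          ← mul_assoc V, hV2, one_mul, hU1]
      have hY2 : Y * Y.conjTranspose = 1 := by
        change (V.conjTranspose * U') * (V.conjTranspose * U').conjTranspose = 1
        rw [Matrix.conjTranspose_mul, Matrix.conjTranspose_conjTranspose, mul_assoc,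
          ← mul_assoc U', hU2, one_mul, hV1]
      have hY0 : ∀ i, Y i 0 = star (V 0 i) := by
        intro i
        change (V.conjTranspose * U') i 0 = _
        rw [Matrix.mul_apply, Finset.sum_eq_single 0]
        · rw [hU3 0 0 rfl, if_pos rfl, mul_one, Matrix.conjTranspose_apply]
        · intro l _ hl
          rw [hU3 l 0 rfl, if_neg hl, mul_zero]
        · intro h
          exact absurd (Finset.mem_univ _) h
      have hx : ∀ i, x i = r • Y i 0 := by
        intro i
        have h1 : x i = ∑ l, V.conjTranspose i l * ∑ j, V l j * x j := by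
          have h2 : ∑ l, V.conjTranspose i l * ∑ j, V l j * x j
              = ∑ j, (V.conjTranspose * V) i j * x j := by
            simp only [Matrix.mul_apply, Finset.mul_sum, Finset.sum_mul, mul_assoc]
            exact Finset.sum_comm
          rw [h2, hV1]
          simp [Matrix.one_apply]
        rw [h1]
        simp only [hVx]
        rw [Finset.sum_eq_single 0]
        · rw [if_pos rfl, mul_smul_comm, mul_one, hY0, Matrix.conjTranspose_apply]
        · intro l _ hl
          rw [if_neg hl, mul_zero]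
        · intro h
          exact absurd (Finset.mem_univ _) h
      let a : ℕ → ℝ := fun k => if k = 1 then m else a' (k - 1)
      let b : ℕ → ℝ := fun k => if k = 1 then r else b' (k - 1)
      have hT : (tri 𝔽 (n + 1 + 1) a b).submatrix Fin.succ Fin.succ = tri 𝔽 (n + 1) a' b' := by
        ext i j
        simp only [Matrix.submatrix_apply, tri, a, b, Fin.succ_inj, Fin.val_succ]
        simp
      have hT00 : tri 𝔽 (n + 1 + 1) a b 0 0 = m • (1 : 𝔽) := by simp [tri, a]
      have hTs0 : ∀ l : Fin (n + 1), tri 𝔽 (n + 1 + 1) a b l.succ 0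
          = if l = 0 then r • (1 : 𝔽) else 0 := by
        intro l
        by_cases hl : l = 0
        · subst hl
          simp [tri, b]
        · have h1 : (l : ℕ) ≠ 0 := fun h => hl (Fin.ext h)
          simp [tri, b, hl, h1, Fin.succ_ne_zero, Fin.ext_iff, eq_comm]
      have hT0s : ∀ l : Fin (n + 1), tri 𝔽 (n + 1 + 1) a b 0 l.succ
          = if l = 0 then r • (1 : 𝔽) else 0 := by
        intro l
        by_cases hl : l = 0
        · subst hl
          simp [tri, b]
        · have h1 : (l : ℕ) ≠ 0 := fun h => hl (Fin.ext h)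
          simp [tri, b, hl, h1, Fin.succ_ne_zero, Fin.ext_iff, eq_comm]
      refine ⟨a, b, ?_, up Y, ?_, ?_, ?_, ?_⟩
      · intro k
        simp only [b]
        split_ifs
        · exact hr
        · exact hb' _
      · rw [up_star, up_mul, hY1, up_one]
      · rw [up_star, up_mul, hY2, up_one]
      · intro i j hj
        have : j = 0 := Fin.ext hj
        subst this
        refine Fin.cases ?_ (fun i => ?_) i
        · simp
        · simp [Fin.succ_ne_zero]
      · ext i j
        refine Fin.cases ?_ (fun i => ?_) i <;> refine Fin.cases ?_ (fun j => ?_) j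
        · rw [conj_00, hT00, hm]
        · rw [conj_0s]
          simp only [hT0s]
          rw [Finset.sum_eq_single 0]
          · rw [if_pos rfl, smul_mul_assoc, one_mul, ← F.star_smul, ← hx]
            exact (hM.apply 0 j.succ).symm
          · intro l _ hl
            rw [if_neg hl, zero_mul]
          · intro h
            exact absurd (Finset.mem_univ _) h
        · rw [conj_s0]
          simp only [hTs0]
          rw [Finset.sum_eq_single 0]
          · rw [if_pos rfl, mul_smul_comm, mul_one, ← hx]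
          · intro l _ hl
            rw [if_neg hl, mul_zero]
          · intro h
            exact absurd (Finset.mem_univ _) h
        · rw [conj_ss, hT]
          have h1 : Y * tri 𝔽 (n + 1) a' b' * Y.conjTranspose = M' := by
            change (V.conjTranspose * U') * tri 𝔽 (n + 1) a' b' *
              (V.conjTranspose * U').conjTranspose = M'
            rw [Matrix.conjTranspose_mul, Matrix.conjTranspose_conjTranspose]
            calc V.conjTranspose * U' * tri 𝔽 (n + 1) a' b' * (U'.conjTranspose * V)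
                = V.conjTranspose * (U' * tri 𝔽 (n + 1) a' b' * U'.conjTranspose) * V := by
                  simp only [mul_assoc]
              _ = V.conjTranspose * (V * M' * V.conjTranspose) * V := by rw [← hU4]
              _ = (V.conjTranspose * V) * M' * (V.conjTranspose * V) := by simp only [mul_assoc]
              _ = M' := by rw [hV1, one_mul, mul_one]
          rw [h1]
          rfl

end Real

end EXTM

theorem specEXT (hHHR : SpecHHR) : SpecEXT := by
  intro ι _ _ 𝔽 _ _ _ _ _ _ F n M hM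
  exact EXTM.ext_aux hHHR F n M hM

end Pool.Agent.Lib.MP17fa2c
end

section
set_option autoImplicit false

open MeasureTheory ProbabilityTheory Filter Topology
open scoped RealInnerProductSpace NNReal ENNReal BoundedContinuousFunction Quaternion

namespace Pool.Agent.Lib.MP17fa2c

namespace FSCM

theorem inner_c (x y : ℂ) : ⟪x, y⟫ = x.re * y.re + x.im * y.im := by
  rw [Complex.inner]
  simp [Complex.mul_re]
  ring

theorem b0 : Complex.orthonormalBasisOneI 0 = (1 : ℂ) := by
  simp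

theorem b1 : Complex.orthonormalBasisOneI 1 = Complex.I := by
  simp

end FSCM

theorem specFSC : SpecFSC := by
  refine ⟨{ e := Complex.orthonormalBasisOneI
            o := 0
            e_o := FSCM.b0
            star_e := ?_
            inner_mul := ?_
            mul_inner := ?_
            norm_mul := fun x y => norm_mul x y
            star_smul := ?_
            mul_e := ?_ }, rfl, ?_⟩
  · intro a ha
    fin_cases a
    · exact absurd rfl ha
    · show star (Complex.orthonormalBasisOneI 1) = -Complex.orthonormalBasisOneI 1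
      rw [FSCM.b1]
      simp
  · intro x y z
    rw [FSCM.inner_c, FSCM.inner_c]
    simp [Complex.mul_re, Complex.mul_im]
    ring
  · intro x y z
    rw [FSCM.inner_c, FSCM.inner_c]
    simp [Complex.mul_re, Complex.mul_im]
    ring
  · intro r x
    simp
  · intro a b
    fin_cases a <;> fin_cases b
    · refine ⟨0, 1, Or.inl rfl, ?_, ?_⟩
      · show Complex.orthonormalBasisOneI 0 * Complex.orthonormalBasisOneI 0 = _
        rw [FSCM.b0]; simp
      · simp
    · refine ⟨1, 1, Or.inl rfl, ?_, ?_⟩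
      · show Complex.orthonormalBasisOneI 1 * Complex.orthonormalBasisOneI 0 = _
        rw [FSCM.b0, FSCM.b1]; simp
      · simp
    · refine ⟨1, 1, Or.inl rfl, ?_, ?_⟩
      · show Complex.orthonormalBasisOneI 0 * Complex.orthonormalBasisOneI 1 = _
        rw [FSCM.b0, FSCM.b1]; simp
      · simp
    · refine ⟨0, -1, Or.inr rfl, ?_, ?_⟩
      · show Complex.orthonormalBasisOneI 1 * Complex.orthonormalBasisOneI 1 = _
        rw [FSCM.b0, FSCM.b1]; simp
      · simp
  · intro a x
    fin_cases a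
    · show ⟪Complex.orthonormalBasisOneI 0, x⟫ = coC 0 x
      rw [FSCM.b0, FSCM.inner_c]; simp [coC]
    · show ⟪Complex.orthonormalBasisOneI 1, x⟫ = coC 1 x
      rw [FSCM.b1, FSCM.inner_c]; simp [coC]

end Pool.Agent.Lib.MP17fa2c
end

section
set_option autoImplicit false

open MeasureTheory ProbabilityTheory Filter Topology
open scoped RealInnerProductSpace NNReal ENNReal BoundedContinuousFunction Quaternion

namespace Pool.Agent.Lib.MP17fa2c

namespace FSQM

/-- the units -/
def v : Fin 4 → ℍ[ℝ] := ![1, ⟨0, 1, 0, 0⟩, ⟨0, 0, 1, 0⟩, ⟨0, 0, 0, 1⟩]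

theorem v0_re : (v 0).re = 1 := rfl
theorem v0_imI : (v 0).imI = 0 := rfl
theorem v0_imJ : (v 0).imJ = 0 := rfl
theorem v0_imK : (v 0).imK = 0 := rfl
theorem v1_re : (v 1).re = 0 := rfl
theorem v1_imI : (v 1).imI = 1 := rfl
theorem v1_imJ : (v 1).imJ = 0 := rfl
theorem v1_imK : (v 1).imK = 0 := rfl
theorem v2_re : (v 2).re = 0 := rfl
theorem v2_imI : (v 2).imI = 0 := rfl
theorem v2_imJ : (v 2).imJ = 1 := rfl
theorem v2_imK : (v 2).imK = 0 := rfl
theorem v3_re : (v 3).re = 0 := rfl
theorem v3_imI : (v 3).imI = 0 := rfl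
theorem v3_imJ : (v 3).imJ = 0 := rfl
theorem v3_imK : (v 3).imK = 1 := rfl

theorem all4 {p : Fin 4 → Prop} (h0 : p 0) (h1 : p 1) (h2 : p 2) (h3 : p 3) : ∀ a, p a := by
  intro a; fin_cases a <;> assumption

theorem qext {x y : ℍ[ℝ]} (h0 : x.re = y.re) (h1 : x.imI = y.imI) (h2 : x.imJ = y.imJ)
    (h3 : x.imK = y.imK) : x = y := QuaternionAlgebra.ext h0 h1 h2 h3

theorem inner_v : ∀ (a : Fin 4) (x : ℍ[ℝ]), ⟪v a, x⟫ = coH a x := by
  refine all4 ?_ ?_ ?_ ?_ <;> intro x <;> rw [Quaternion.inner_def, Quaternion.re_mul]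
  · simp only [v0_re, v0_imI, v0_imJ, v0_imK, Quaternion.re_star, Quaternion.imI_star,
      Quaternion.imJ_star, Quaternion.imK_star]
    show _ = x.re
    ring
  · simp only [v1_re, v1_imI, v1_imJ, v1_imK, Quaternion.re_star, Quaternion.imI_star,
      Quaternion.imJ_star, Quaternion.imK_star]
    show _ = x.imI
    ring
  · simp only [v2_re, v2_imI, v2_imJ, v2_imK, Quaternion.re_star, Quaternion.imI_star,
      Quaternion.imJ_star, Quaternion.imK_star]
    show _ = x.imJ
    ring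
  · simp only [v3_re, v3_imI, v3_imJ, v3_imK, Quaternion.re_star, Quaternion.imI_star,
      Quaternion.imJ_star, Quaternion.imK_star]
    show _ = x.imK
    ring

theorem orth : Orthonormal ℝ v := by
  rw [orthonormal_iff_ite]
  refine all4 ?_ ?_ ?_ ?_ <;> refine all4 ?_ ?_ ?_ ?_ <;> rw [inner_v]
  · exact v0_re
  · exact v1_re
  · exact v2_re
  · exact v3_re
  · exact v0_imI
  · exact v1_imI
  · exact v2_imI
  · exact v3_imI
  · exact v0_imJ
  · exact v1_imJ
  · exact v2_imJ
  · exact v3_imJ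
  · exact v0_imK
  · exact v1_imK
  · exact v2_imK
  · exact v3_imK

theorem span_v : ⊤ ≤ Submodule.span ℝ (Set.range v) := by
  intro x _
  have h : x = x.re • v 0 + x.imI • v 1 + x.imJ • v 2 + x.imK • v 3 := by
    refine qext ?_ ?_ ?_ ?_
    · simp only [Quaternion.re_add, Quaternion.re_smul, v0_re, v1_re, v2_re, v3_re,
        smul_eq_mul]
      ring
    · simp only [Quaternion.imI_add, Quaternion.imI_smul, v0_imI, v1_imI, v2_imI, v3_imI,
        smul_eq_mul]
      ring
    · simp only [Quaternion.imJ_add, Quaternion.imJ_smul, v0_imJ, v1_imJ, v2_imJ, v3_imJ,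
        smul_eq_mul]
      ring
    · simp only [Quaternion.imK_add, Quaternion.imK_smul, v0_imK, v1_imK, v2_imK, v3_imK,
        smul_eq_mul]
      ring
  rw [h]
  refine Submodule.add_mem _ (Submodule.add_mem _ (Submodule.add_mem _ ?_ ?_) ?_) ?_ <;>
    exact Submodule.smul_mem _ _ (Submodule.subset_span ⟨_, rfl⟩)

/-- the orthonormal basis of units -/
noncomputable def ba : OrthonormalBasis (Fin 4) ℝ ℍ[ℝ] := OrthonormalBasis.mk orth span_v

theorem ba_eq (a : Fin 4) : ba a = v a := by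
  unfold ba
  rw [OrthonormalBasis.coe_mk]

theorem tab (b a c : Fin 4) (s : ℝ)
    (h0 : (v b * v a).re = s * (v c).re) (h1 : (v b * v a).imI = s * (v c).imI)
    (h2 : (v b * v a).imJ = s * (v c).imJ) (h3 : (v b * v a).imK = s * (v c).imK) :
    v b * v a = s • v c := by
  refine qext ?_ ?_ ?_ ?_
  · rw [h0]; simp only [Quaternion.re_smul, smul_eq_mul]
  · rw [h1]; simp only [Quaternion.imI_smul, smul_eq_mul]
  · rw [h2]; simp only [Quaternion.imJ_smul, smul_eq_mul]
  · rw [h3]; simp only [Quaternion.imK_smul, smul_eq_mul]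

end FSQM

open FSQM in
/-- FSQ -/
theorem specFSQ : SpecFSQ := by
  refine ⟨⟨ba, 0, ?_, ?_, ?_, ?_, ?_, ?_, ?_⟩, rfl, ?_⟩
  · rw [ba_eq]; rfl
  · simp only [ba_eq]
    refine all4 (fun h => absurd rfl h) ?_ ?_ ?_ <;> intro _ <;> refine qext ?_ ?_ ?_ ?_ <;>
      simp only [Quaternion.re_star, Quaternion.imI_star, Quaternion.imJ_star,
        Quaternion.imK_star, Quaternion.re_neg, Quaternion.imI_neg, Quaternion.imJ_neg,
        Quaternion.imK_neg, v1_re, v2_re, v3_re, neg_zero]
  · intro x y z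
    rw [Quaternion.inner_def, Quaternion.inner_def, star_mul, star_star]
    simp only [Quaternion.re_mul, Quaternion.imI_mul, Quaternion.imJ_mul, Quaternion.imK_mul,
      Quaternion.re_star, Quaternion.imI_star, Quaternion.imJ_star, Quaternion.imK_star]
    ring
  · intro x y z
    rw [Quaternion.inner_def, Quaternion.inner_def, star_mul, star_star, mul_assoc]
  · intro x y
    exact norm_mul x y
  · intro r x
    refine qext ?_ ?_ ?_ ?_ <;>
      simp only [Quaternion.re_star, Quaternion.imI_star, Quaternion.imJ_star,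
        Quaternion.imK_star, Quaternion.re_smul, Quaternion.imI_smul, Quaternion.imJ_smul,
        Quaternion.imK_smul, smul_eq_mul, mul_neg]
  · simp only [ba_eq]
    refine all4 ?_ ?_ ?_ ?_ <;> refine all4 ?_ ?_ ?_ ?_
    · exact ⟨0, 1, Or.inl rfl, by
        apply tab <;> simp only [Quaternion.re_mul, Quaternion.imI_mul, Quaternion.imJ_mul,
          Quaternion.imK_mul, v0_re, v0_imI, v0_imJ, v0_imK] <;> norm_num, by simp⟩
    · exact ⟨1, 1, Or.inl rfl, by
        apply tab <;> simp only [Quaternion.re_mul, Quaternion.imI_mul, Quaternion.imJ_mul,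
          Quaternion.imK_mul, v0_re, v0_imI, v0_imJ, v0_imK, v1_re, v1_imI, v1_imJ,
          v1_imK] <;> norm_num, by simp⟩
    · exact ⟨2, 1, Or.inl rfl, by
        apply tab <;> simp only [Quaternion.re_mul, Quaternion.imI_mul, Quaternion.imJ_mul,
          Quaternion.imK_mul, v0_re, v0_imI, v0_imJ, v0_imK, v2_re, v2_imI, v2_imJ,
          v2_imK] <;> norm_num, by simp⟩
    · exact ⟨3, 1, Or.inl rfl, by
        apply tab <;> simp only [Quaternion.re_mul, Quaternion.imI_mul, Quaternion.imJ_mul,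
          Quaternion.imK_mul, v0_re, v0_imI, v0_imJ, v0_imK, v3_re, v3_imI, v3_imJ,
          v3_imK] <;> norm_num, by simp⟩
    · exact ⟨1, 1, Or.inl rfl, by
        apply tab <;> simp only [Quaternion.re_mul, Quaternion.imI_mul, Quaternion.imJ_mul,
          Quaternion.imK_mul, v0_re, v0_imI, v0_imJ, v0_imK, v1_re, v1_imI, v1_imJ,
          v1_imK] <;> norm_num, by simp⟩
    · exact ⟨0, -1, Or.inr rfl, by
        apply tab <;> simp only [Quaternion.re_mul, Quaternion.imI_mul, Quaternion.imJ_mul,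
          Quaternion.imK_mul, v0_re, v0_imI, v0_imJ, v0_imK, v1_re, v1_imI, v1_imJ,
          v1_imK] <;> norm_num, by simp⟩
    · exact ⟨3, -1, Or.inr rfl, by
        apply tab <;> simp only [Quaternion.re_mul, Quaternion.imI_mul, Quaternion.imJ_mul,
          Quaternion.imK_mul, v1_re, v1_imI, v1_imJ, v1_imK, v2_re, v2_imI, v2_imJ,
          v2_imK, v3_re, v3_imI, v3_imJ, v3_imK] <;> norm_num, by simp⟩
    · exact ⟨2, 1, Or.inl rfl, by
        apply tab <;> simp only [Quaternion.re_mul, Quaternion.imI_mul, Quaternion.imJ_mul,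
          Quaternion.imK_mul, v1_re, v1_imI, v1_imJ, v1_imK, v2_re, v2_imI, v2_imJ,
          v2_imK, v3_re, v3_imI, v3_imJ, v3_imK] <;> norm_num, by simp⟩
    · exact ⟨2, 1, Or.inl rfl, by
        apply tab <;> simp only [Quaternion.re_mul, Quaternion.imI_mul, Quaternion.imJ_mul,
          Quaternion.imK_mul, v0_re, v0_imI, v0_imJ, v0_imK, v2_re, v2_imI, v2_imJ,
          v2_imK] <;> norm_num, by simp⟩
    · exact ⟨3, 1, Or.inl rfl, by
        apply tab <;> simp only [Quaternion.re_mul, Quaternion.imI_mul, Quaternion.imJ_mul,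
          Quaternion.imK_mul, v1_re, v1_imI, v1_imJ, v1_imK, v2_re, v2_imI, v2_imJ,
          v2_imK, v3_re, v3_imI, v3_imJ, v3_imK] <;> norm_num, by simp⟩
    · exact ⟨0, -1, Or.inr rfl, by
        apply tab <;> simp only [Quaternion.re_mul, Quaternion.imI_mul, Quaternion.imJ_mul,
          Quaternion.imK_mul, v0_re, v0_imI, v0_imJ, v0_imK, v2_re, v2_imI, v2_imJ,
          v2_imK] <;> norm_num, by simp⟩
    · exact ⟨1, -1, Or.inr rfl, by
        apply tab <;> simp only [Quaternion.re_mul, Quaternion.imI_mul, Quaternion.imJ_mul,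
          Quaternion.imK_mul, v1_re, v1_imI, v1_imJ, v1_imK, v2_re, v2_imI, v2_imJ,
          v2_imK, v3_re, v3_imI, v3_imJ, v3_imK] <;> norm_num, by simp⟩
    · exact ⟨3, 1, Or.inl rfl, by
        apply tab <;> simp only [Quaternion.re_mul, Quaternion.imI_mul, Quaternion.imJ_mul,
          Quaternion.imK_mul, v0_re, v0_imI, v0_imJ, v0_imK, v3_re, v3_imI, v3_imJ,
          v3_imK] <;> norm_num, by simp⟩
    · exact ⟨2, -1, Or.inr rfl, by
        apply tab <;> simp only [Quaternion.re_mul, Quaternion.imI_mul, Quaternion.imJ_mul,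
          Quaternion.imK_mul, v1_re, v1_imI, v1_imJ, v1_imK, v2_re, v2_imI, v2_imJ,
          v2_imK, v3_re, v3_imI, v3_imJ, v3_imK] <;> norm_num, by simp⟩
    · exact ⟨1, 1, Or.inl rfl, by
        apply tab <;> simp only [Quaternion.re_mul, Quaternion.imI_mul, Quaternion.imJ_mul,
          Quaternion.imK_mul, v1_re, v1_imI, v1_imJ, v1_imK, v2_re, v2_imI, v2_imJ,
          v2_imK, v3_re, v3_imI, v3_imJ, v3_imK] <;> norm_num, by simp⟩
    · exact ⟨0, -1, Or.inr rfl, by
        apply tab <;> simp only [Quaternion.re_mul, Quaternion.imI_mul, Quaternion.imJ_mul,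
          Quaternion.imK_mul, v0_re, v0_imI, v0_imJ, v0_imK, v3_re, v3_imI, v3_imJ,
          v3_imK] <;> norm_num, by simp⟩
  · intro a x
    rw [ba_eq]
    exact inner_v a x

end Pool.Agent.Lib.MP17fa2c
end

section
/-! # FSR -/
set_option autoImplicit false

open MeasureTheory ProbabilityTheory Filter Topology
open scoped RealInnerProductSpace NNReal ENNReal BoundedContinuousFunction Quaternion

namespace Pool.Agent.Lib.MP17fa2c

namespace FSRM

theorem basis_ex : ∃ B : @OrthonormalBasis (Fin 1) ℝ _ ℝ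
    NonUnitalNormedRing.toNormedAddCommGroup RCLike.toInnerProductSpaceReal (Fin.fintype 1),
    ∀ a, B a = 1 :=
  ⟨OrthonormalBasis.singleton (Fin 1) ℝ, fun a => by
    exact congrFun (OrthonormalBasis.coe_singleton (ι := Fin 1) (𝕜 := ℝ)) a⟩

end FSRM

/-- FSR -/
theorem specFSR : SpecFSR := by
  obtain ⟨B, hB⟩ := FSRM.basis_ex
  refine ⟨{ e := B
            o := 0
            e_o := hB 0
            star_e := fun a ha => absurd (Subsingleton.elim a 0) ha
            inner_mul := fun x y z => ?_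
            mul_inner := fun x y z => ?_
            norm_mul := fun x y => norm_mul x y
            star_smul := fun r x => by simp
            mul_e := fun a b => ⟨0, 1, Or.inl rfl, ?_, ?_⟩ }, rfl, fun a x => ?_⟩
  · simp only [RCLike.inner_apply, conj_trivial, star_trivial]
    ring
  · simp only [RCLike.inner_apply, conj_trivial, star_trivial]
    ring
  · rw [hB, hB, hB]
    simp
  · exact ⟨fun _ => Subsingleton.elim _ _, fun _ => rfl⟩
  · show ⟪B a, x⟫ = coR a x
    rw [hB]
    simp only [RCLike.inner_apply, conj_trivial, coR, mul_one]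

end Pool.Agent.Lib.MP17fa2c
end

section
/-!
# GF1: expansion of the quadratic form in the independent real entries
-/
set_option autoImplicit false

open MeasureTheory ProbabilityTheory Filter Topology
open scoped RealInnerProductSpace NNReal ENNReal BoundedContinuousFunction Quaternion

namespace Pool.Agent.Lib.MP17fa2c

namespace GF1M

section

variable {β : ℕ} {𝔽 : Type} [NormedRing 𝔽] [StarRing 𝔽] [InnerProductSpace ℝ 𝔽]

lemma inner_star (F : FStr (Fin β) 𝔽) (w z : 𝔽) : ⟪w, star z⟫ = ⟪star w, z⟫ := by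
  have h1 : ⟪w, star z⟫ = ⟪(1 : 𝔽), w * z⟫ := by
    rw [real_inner_comm]
    have := F.mul_inner 1 (star z) w
    rw [one_mul, star_star] at this
    exact this
  have h2 : ⟪star w, z⟫ = ⟪(1 : 𝔽), w * z⟫ := by
    have := F.inner_mul (star w) 1 z
    rw [mul_one, star_star] at this
    exact this
  rw [h1, h2]

/-- a sum over all pairs from the pairs `i < j` and `i = j` -/
lemma sum_pairs {n : ℕ} (G H : Fin n → Fin n → ℝ) (h1 : ∀ i j, i < j → G i j = H i j + H j i)
    (h2 : ∀ i, G i i = H i i) (h3 : ∀ i j, j < i → G i j = 0) :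
    ∑ i, ∑ j, H i j = ∑ i, ∑ j, G i j := by
  have e1 : ∀ i j, G i j = (if i < j then H i j else 0) + (if i < j then H j i else 0) +
      (if i = j then H i j else 0) := by
    intro i j
    rcases lt_trichotomy i j with h | h | h
    · rw [if_pos h, if_pos h, if_neg h.ne, h1 i j h, add_zero]
    · subst h
      simp [h2 i]
    · rw [if_neg (not_lt.2 h.le), if_neg (not_lt.2 h.le), if_neg h.ne', h3 i j h]
      simp
  have e2 : ∀ i j, H i j = (if i < j then H i j else 0) + (if j < i then H i j else 0) +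
      (if i = j then H i j else 0) := by
    intro i j
    rcases lt_trichotomy i j with h | h | h
    · rw [if_pos h, if_neg (not_lt.2 h.le), if_neg h.ne]; simp
    · subst h
      simp
    · rw [if_neg (not_lt.2 h.le), if_pos h, if_neg h.ne']; simp
  have e3 : ∑ i, ∑ j, (if i < j then H j i else 0) = ∑ i, ∑ j, (if j < i then H i j else 0) :=
    Finset.sum_comm
  calc ∑ i, ∑ j, H i j
      = ∑ i, ∑ j, ((if i < j then H i j else 0) + (if j < i then H i j else 0) +
          (if i = j then H i j else 0)) := by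
        refine Finset.sum_congr rfl fun i _ => Finset.sum_congr rfl fun j _ => e2 i j
    _ = ∑ i, ∑ j, ((if i < j then H i j else 0) + (if i < j then H j i else 0) +
          (if i = j then H i j else 0)) := by
        simp only [Finset.sum_add_distrib]
        rw [e3]
    _ = _ := by
        refine Finset.sum_congr rfl fun i _ => Finset.sum_congr rfl fun j _ => (e1 i j).symm

end

end GF1M

open GF1M

theorem specGF1 : SpecGF1 := by
  intro β 𝔽 _ _ _ _ _ _ F n ho A hA x y
  -- the left side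
  have hL : ⟪x, opm A y⟫ = ∑ i, ∑ j, ⟪x i * star (y j), A i j⟫ := by
    rw [PiLp.inner_apply]
    refine Finset.sum_congr rfl fun i _ => ?_
    have h1 : (opm A y) i = ∑ j, A i j * y j := rfl
    rw [h1, inner_sum]
    refine Finset.sum_congr rfl fun j _ => ?_
    rw [F.mul_inner, star_star]
  have hAs : ∀ i j, star (A i j) = A j i := fun i j => hA.apply j i
  -- the right side
  set f : Fin n → Fin n → Fin β → ℝ := fun i j c =>
    ⟪F.e c, A i j⟫ * (if i = j then ⟪(1 : 𝔽), x i * star (y i)⟫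
      else ⟪F.e c, x i * star (y j) + y i * star (x j)⟫) with hf
  have hR : ∑ p : Idx n β, ⟪F.e p.1.2.2, A p.1.1 p.1.2.1⟫ * lco F p x y =
      ∑ i, ∑ j, ∑ c : Fin β, if i < j ∨ (i = j ∧ (c : ℕ) = 0) then f i j c else 0 := by
    have h1 : ∀ p : Idx n β, ⟪F.e p.1.2.2, A p.1.1 p.1.2.1⟫ * lco F p x y =
        (fun q : Fin n × Fin n × Fin β => f q.1 q.2.1 q.2.2) p.1 := fun p => rfl
    rw [Finset.sum_congr rfl fun p _ => h1 p]
    have h2 : ∑ p : Idx n β, (fun q : Fin n × Fin n × Fin β => f q.1 q.2.1 q.2.2) p.1 =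
        ∑ q ∈ Finset.univ.filter (fun q : Fin n × Fin n × Fin β =>
          q.1 < q.2.1 ∨ (q.1 = q.2.1 ∧ (q.2.2 : ℕ) = 0)), f q.1 q.2.1 q.2.2 := by
      symm
      exact Finset.sum_subtype _ (fun q => by simp) (fun q : Fin n × Fin n × Fin β =>
        f q.1 q.2.1 q.2.2)
    rw [h2, Finset.sum_filter, Fintype.sum_prod_type]
    refine Finset.sum_congr rfl fun i _ => ?_
    rw [Fintype.sum_prod_type]
  rw [hL, hR]
  refine sum_pairs _ _ ?_ ?_ ?_
  · intro i j hij
    have h1 : ∀ c : Fin β, (if i < j ∨ (i = j ∧ (c : ℕ) = 0) then f i j c else 0) =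
        ⟪x i * star (y j) + y i * star (x j), F.e c⟫ * ⟪F.e c, A i j⟫ := by
      intro c
      rw [if_pos (Or.inl hij), hf]
      simp only
      rw [if_neg hij.ne, real_inner_comm (F.e c) (x i * star (y j) + y i * star (x j)), mul_comm]
    rw [Finset.sum_congr rfl fun c _ => h1 c, F.e.sum_inner_mul_inner, inner_add_left]
    congr 1
    rw [← hAs i j, inner_star F, star_mul, star_star]
  · intro i
    have hz : ∀ c, c ≠ F.o → ⟪F.e c, A i i⟫ = (0 : ℝ) := by
      intro c hc
      have h1 : ⟪F.e c, A i i⟫ = -⟪F.e c, A i i⟫ := by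
        calc ⟪F.e c, A i i⟫ = ⟪F.e c, star (A i i)⟫ := by rw [hAs i i]
          _ = ⟪star (F.e c), A i i⟫ := inner_star F _ _
          _ = _ := by rw [F.star_e c hc, inner_neg_left]
      linarith
    have h1 : ∀ c : Fin β, (if i < i ∨ (i = i ∧ (c : ℕ) = 0) then f i i c else 0) =
        ⟪x i * star (y i), F.e c⟫ * ⟪F.e c, A i i⟫ := by
      intro c
      by_cases hc : c = F.o
      · have hc0 : (c : ℕ) = 0 := by rw [hc]; exact ho
        rw [if_pos (Or.inr ⟨rfl, hc0⟩), hf]
        simp only [if_true]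
        rw [hc, F.e_o, real_inner_comm (1 : 𝔽) (x i * star (y i)), mul_comm]
      · have hc0 : ¬ (c : ℕ) = 0 := by
          intro h
          apply hc
          apply Fin.ext
          rw [h, ho]
        rw [if_neg (by simp [hc0]), hz c hc, mul_zero]
    rw [Finset.sum_congr rfl fun c _ => h1 c, F.e.sum_inner_mul_inner]
  · intro i j hij
    refine Finset.sum_eq_zero fun c _ => ?_
    rw [if_neg]
    rintro (h | ⟨h, -⟩)
    · exact absurd h (not_lt.2 hij.le)
    · exact hij.ne' h

end Pool.Agent.Lib.MP17fa2c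
end

section
/-!
# MP_17fa2c_pr, module GF2: the covariance identity
-/
set_option autoImplicit false

open MeasureTheory ProbabilityTheory Filter Topology
open scoped RealInnerProductSpace NNReal ENNReal BoundedContinuousFunction Quaternion

namespace Pool.Agent.Lib.MP17fa2c

namespace GF2M

variable {ι : Type} [Fintype ι] [DecidableEq ι] {𝔽 : Type} [NormedRing 𝔽]
  [StarRing 𝔽] [InnerProductSpace ℝ 𝔽]

theorem in1 (F : FStr ι 𝔽) (x z : 𝔽) : ⟪x, z⟫ = ⟪(1 : 𝔽), star x * z⟫ := by
  have := F.inner_mul x 1 z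
  rwa [mul_one] at this

theorem in2 (F : FStr ι 𝔽) (y z : 𝔽) : ⟪y, z⟫ = ⟪(1 : 𝔽), z * star y⟫ := by
  have := F.mul_inner 1 y z
  rwa [one_mul] at this

theorem star_star_inner (F : FStr ι 𝔽) (x y : 𝔽) : ⟪star x, star y⟫ = ⟪x, y⟫ := by
  rw [in2 F (star x) (star y), star_star, ← in1 F y x, real_inner_comm]

theorem four (F : FStr ι 𝔽) (x y x' y' : 𝔽) :
    ⟪x * star y, x' * star y'⟫ = ⟪star y' * y, star x' * x⟫ := by
  rw [F.mul_inner, star_star, real_inner_comm, mul_assoc, F.inner_mul]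

/-- Parseval -/
theorem pars (F : FStr ι 𝔽) (x y : 𝔽) : ∑ a, ⟪F.e a, x⟫ * ⟪F.e a, y⟫ = ⟪x, y⟫ := by
  have := F.e.sum_inner_mul_inner x y
  rw [← this]
  refine Finset.sum_congr rfl fun a _ => ?_
  rw [real_inner_comm x]

/-- diagonal entries -/
theorem diag (F : FStr ι 𝔽) (z w : 𝔽) :
    ⟪z + star z, w + star w⟫ = 4 * (⟪(1 : 𝔽), z⟫ * ⟪(1 : 𝔽), w⟫) := by
  have h1 : ∀ z : 𝔽, ∀ a, ⟪F.e a, z + star z⟫ = if a = F.o then 2 * ⟪(1 : 𝔽), z⟫ else 0 := by
    intro z a
    rw [inner_add_right]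
    have h2 : ⟪F.e a, star z⟫ = ⟪star (F.e a), z⟫ := by
      rw [← star_star_inner F (F.e a) (star z), star_star]
    rw [h2]
    by_cases ha : a = F.o
    · rw [if_pos ha, ha, F.e_o, star_one]; ring
    · rw [if_neg ha, F.star_e a ha, inner_neg_left]; ring
  rw [← pars F]
  simp only [h1]
  rw [Finset.sum_eq_single F.o]
  · simp only [if_true]; ring
  · intro b _ hb
    rw [if_neg hb]; ring
  · intro h
    exact absurd (Finset.mem_univ _) h

end GF2M

open GF2M in
theorem specGF2 : SpecGF2 := by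
  intro β 𝔽 _ _ _ _ _ _ F n ho S hS x y x' y'
  classical
  set G : Fin n → Fin n → ℝ := fun i j =>
    ⟪x i * star (y j) + y i * star (x j), x' i * star (y' j) + y' i * star (x' j)⟫ with hG
  have hGs : ∀ i j, G i j = G j i := by
    intro i j
    simp only [hG]
    rw [← star_star_inner F]
    simp only [star_add, star_mul, star_star]
    rw [add_comm (y j * star (x i)), add_comm (y' j * star (x' i))]
  -- the left side
  have hL : ∑ p : Idx n β, (if p.1.1 = p.1.2.1 then 2 else 1) * (lco F p x y * lco F p x' y') =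
      ∑ i, ∑ j, (if i < j then G i j else if i = j then G i j / 2 else 0) := by
    set g : Fin n × Fin n × Fin β → ℝ := fun p => (if p.1 = p.2.1 then 2 else 1) *
      ((if p.1 = p.2.1 then ⟪(1 : 𝔽), x p.1 * star (y p.1)⟫
        else ⟪F.e p.2.2, x p.1 * star (y p.2.1) + y p.1 * star (x p.2.1)⟫) *
      (if p.1 = p.2.1 then ⟪(1 : 𝔽), x' p.1 * star (y' p.1)⟫
        else ⟪F.e p.2.2, x' p.1 * star (y' p.2.1) + y' p.1 * star (x' p.2.1)⟫)) with hg
    have h1 : ∑ p : Idx n β, (if p.1.1 = p.1.2.1 then 2 else 1) *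
        (lco F p x y * lco F p x' y') =
        ∑ p ∈ Finset.univ.filter (fun p : Fin n × Fin n × Fin β =>
          p.1 < p.2.1 ∨ (p.1 = p.2.1 ∧ (p.2.2 : ℕ) = 0)), g p := by
      rw [Finset.sum_subtype (p := fun p : Fin n × Fin n × Fin β =>
        p.1 < p.2.1 ∨ (p.1 = p.2.1 ∧ (p.2.2 : ℕ) = 0)) _ (fun p => by
          rw [Finset.mem_filter]
          exact ⟨fun h => h.2, fun h => ⟨Finset.mem_univ _, h⟩⟩)]
      rfl
    rw [h1, Finset.sum_filter, Fintype.sum_prod_type]
    refine Finset.sum_congr rfl fun i _ => ?_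
    rw [Fintype.sum_prod_type]
    refine Finset.sum_congr rfl fun j _ => ?_
    rcases lt_trichotomy i j with h | h | h
    · rw [if_pos h]
      simp only [hg, hG]
      rw [← pars F]
      refine Finset.sum_congr rfl fun a _ => ?_
      rw [if_pos (Or.inl h), if_neg h.ne, if_neg h.ne, if_neg h.ne, one_mul]
    · subst h
      rw [if_neg (lt_irrefl _), if_pos rfl]
      rw [Finset.sum_eq_single F.o]
      · rw [if_pos (Or.inr ⟨rfl, ho⟩)]
        simp only [hg, hG, if_true]
        have h2 := diag F (x i * star (y i)) (x' i * star (y' i))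
        simp only [star_mul, star_star] at h2
        rw [h2]
        ring
      · intro b _ hb
        rw [if_neg]
        rintro (h2 | ⟨_, h2⟩)
        · exact lt_irrefl _ h2
        · apply hb
          apply Fin.ext
          rw [ho]
          exact h2
      · intro h
        exact absurd (Finset.mem_univ _) h
    · rw [if_neg h.not_gt, if_neg h.ne']
      refine Finset.sum_eq_zero fun a _ => ?_
      rw [if_neg]
      rintro (h2 | ⟨h2, _⟩)
      · exact absurd (lt_trans h h2) (lt_irrefl _)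
      · exact h.ne' h2
  have hH : 2 * ∑ i, ∑ j, (if i < j then G i j else if i = j then G i j / 2 else 0) =
      ∑ i, ∑ j, G i j := by
    rw [two_mul]
    nth_rewrite 2 [Finset.sum_comm]
    rw [← Finset.sum_add_distrib]
    refine Finset.sum_congr rfl fun i _ => ?_
    rw [← Finset.sum_add_distrib]
    refine Finset.sum_congr rfl fun j _ => ?_
    rcases lt_trichotomy i j with h | h | h
    · rw [if_pos h, if_neg h.not_gt, if_neg h.ne']; ring
    · subst h
      rw [if_neg (lt_irrefl _), if_pos rfl]; ring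
    · rw [if_neg h.not_gt, if_neg h.ne', if_pos h, hGs]; ring
  -- the sums
  have hS1 : ∀ u v u' v' : VE 𝔽 n, ∑ i, ∑ j, ⟪u i * star (v j), u' i * star (v' j)⟫ =
      ∑ a, ⟪u, S.J a u'⟫ * ⟪v, S.J a v'⟫ := by
    intro u v u' v'
    have h1 : ∀ w w' : VE 𝔽 n, ∀ a, ⟪w, S.J a w'⟫ = ⟪F.e a, ∑ i, star (w' i) * w i⟫ := by
      intro w w' a
      rw [PiLp.inner_apply, inner_sum]
      refine Finset.sum_congr rfl fun i _ => ?_
      rw [hS, real_inner_comm, F.inner_mul]
    simp only [h1]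
    rw [pars F, sum_inner]
    simp only [inner_sum]
    refine Finset.sum_congr rfl fun i _ => Finset.sum_congr rfl fun j _ => ?_
    rw [four F, real_inner_comm]
  have hGe : ∑ i, ∑ j, G i j = 2 * (∑ i, ∑ j, ⟪x i * star (y j), x' i * star (y' j)⟫ +
      ∑ i, ∑ j, ⟪x i * star (y j), y' i * star (x' j)⟫) := by
    have h1 : ∀ i j, G i j = (⟪x i * star (y j), x' i * star (y' j)⟫ +
        ⟪x i * star (y j), y' i * star (x' j)⟫) + (⟪x j * star (y i), y' j * star (x' i)⟫ +
        ⟪x j * star (y i), x' j * star (y' i)⟫) := by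
      intro i j
      simp only [hG]
      rw [inner_add_left, inner_add_right, inner_add_right]
      have h2 : ⟪y i * star (x j), x' i * star (y' j)⟫ = ⟪x j * star (y i), y' j * star (x' i)⟫ := by
        rw [← star_star_inner F]
        simp only [star_mul, star_star]
      have h3 : ⟪y i * star (x j), y' i * star (x' j)⟫ = ⟪x j * star (y i), x' j * star (y' i)⟫ := by
        rw [← star_star_inner F]
        simp only [star_mul, star_star]
      rw [h2, h3]
    simp only [h1, Finset.sum_add_distrib]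
    have h4 : ∑ i, ∑ j, ⟪x j * star (y i), y' j * star (x' i)⟫ =
        ∑ i, ∑ j, ⟪x i * star (y j), y' i * star (x' j)⟫ := Finset.sum_comm
    have h5 : ∑ i, ∑ j, ⟪x j * star (y i), x' j * star (y' i)⟫ =
        ∑ i, ∑ j, ⟪x i * star (y j), x' i * star (y' j)⟫ := Finset.sum_comm
    rw [h4, h5]
    ring
  rw [hL]
  have h6 : ∑ i, ∑ j, (if i < j then G i j else if i = j then G i j / 2 else 0) =
      ∑ i, ∑ j, ⟪x i * star (y j), x' i * star (y' j)⟫ +
      ∑ i, ∑ j, ⟪x i * star (y j), y' i * star (x' j)⟫ := by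
    rw [hGe] at hH
    linarith
  rw [h6, hS1, hS1, ← Finset.sum_add_distrib]

end Pool.Agent.Lib.MP17fa2c
end

section
set_option autoImplicit false

open MeasureTheory ProbabilityTheory Filter Topology
open scoped RealInnerProductSpace NNReal ENNReal BoundedContinuousFunction Quaternion

namespace Pool.Agent.Lib.MP17fa2c

namespace HHRM

variable {ι : Type} [Fintype ι] [DecidableEq ι] {𝔽 : Type} [NormedRing 𝔽]
  [StarRing 𝔽] [InnerProductSpace ℝ 𝔽] [IsScalarTower ℝ 𝔽 𝔽] [SMulCommClass ℝ 𝔽 𝔽]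

omit [IsScalarTower ℝ 𝔽 𝔽] [SMulCommClass ℝ 𝔽 𝔽] in
theorem inner_mul_mul (F : FStr ι 𝔽) (q z z' : 𝔽) : ⟪q * z, q * z'⟫ = ‖q‖ ^ 2 * ⟪z, z'⟫ := by
  rw [real_inner_eq_norm_add_mul_self_sub_norm_mul_self_sub_norm_mul_self_div_two,
    real_inner_eq_norm_add_mul_self_sub_norm_mul_self_sub_norm_mul_self_div_two, ← mul_add,
    F.norm_mul, F.norm_mul, F.norm_mul]
  ring

omit [IsScalarTower ℝ 𝔽 𝔽] [SMulCommClass ℝ 𝔽 𝔽] in
theorem inner_mul_mul' (F : FStr ι 𝔽) (q z z' : 𝔽) : ⟪z * q, z' * q⟫ = ‖q‖ ^ 2 * ⟪z, z'⟫ := by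
  rw [real_inner_eq_norm_add_mul_self_sub_norm_mul_self_sub_norm_mul_self_div_two,
    real_inner_eq_norm_add_mul_self_sub_norm_mul_self_sub_norm_mul_self_div_two, ← add_mul,
    F.norm_mul, F.norm_mul, F.norm_mul]
  ring

omit [IsScalarTower ℝ 𝔽 𝔽] [SMulCommClass ℝ 𝔽 𝔽] in
theorem star_mul_self' (F : FStr ι 𝔽) (q : 𝔽) : star q * q = (‖q‖ ^ 2) • (1 : 𝔽) := by
  refine ext_inner_left ℝ fun z => ?_
  have h := inner_mul_mul F q z 1
  rw [F.inner_mul, mul_one] at h
  rw [h, inner_smul_right]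

omit [IsScalarTower ℝ 𝔽 𝔽] [SMulCommClass ℝ 𝔽 𝔽] in
theorem mul_star_self' (F : FStr ι 𝔽) (q : 𝔽) : q * star q = (‖q‖ ^ 2) • (1 : 𝔽) := by
  refine ext_inner_left ℝ fun z => ?_
  have h := inner_mul_mul' F q z 1
  rw [F.mul_inner, one_mul] at h
  rw [h, inner_smul_right]

omit [IsScalarTower ℝ 𝔽 𝔽] [SMulCommClass ℝ 𝔽 𝔽] in
theorem norm_one' (F : FStr ι 𝔽) : ‖(1 : 𝔽)‖ = 1 := by
  rw [← F.e_o]; exact F.e.orthonormal.1 _

omit [IsScalarTower ℝ 𝔽 𝔽] [SMulCommClass ℝ 𝔽 𝔽] in
theorem exists_sign (F : FStr ι 𝔽) (q : 𝔽) : ∃ s : 𝔽, ‖s‖ = 1 ∧ q = ‖q‖ • s := by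
  by_cases hq : q = 0
  · exact ⟨1, norm_one' F, by simp [hq]⟩
  · have h : ‖q‖ ≠ 0 := norm_ne_zero_iff.2 hq
    refine ⟨‖q‖⁻¹ • q, ?_, ?_⟩
    · rw [norm_smul, norm_inv, norm_norm, inv_mul_cancel₀ h]
    · rw [smul_smul, mul_inv_cancel₀ h, one_smul]

end HHRM

open HHRM in
/-- HHR -/
theorem specHHR : SpecHHR := by
  intro ι _ _ 𝔽 _ _ _ _ _ _ F n x
  have : StarModule ℝ 𝔽 := ⟨fun r y => by rw [F.star_smul, star_trivial r]⟩
  obtain ⟨s, hs, hx0⟩ := exists_sign F (x 0)
  have hss : star s * s = 1 := by rw [star_mul_self' F, hs]; simp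
  have hss' : s * star s = 1 := by rw [mul_star_self' F, hs]; simp
  set r : ℝ := Real.sqrt (∑ j, ‖x j‖ ^ 2) with hr
  have hr0 : 0 ≤ r := Real.sqrt_nonneg _
  have hr2 : r ^ 2 = ‖x 0‖ ^ 2 + ∑ j : Fin n, ‖x j.succ‖ ^ 2 := by
    rw [hr, Real.sq_sqrt (Finset.sum_nonneg fun j _ => by positivity), Fin.sum_univ_succ]
  -- column vectors
  let X : Matrix (Fin (n + 1)) (Fin 1) 𝔽 := fun i _ => x i
  let E : Matrix (Fin (n + 1)) (Fin 1) 𝔽 := fun i _ => if i = 0 then r • s else 0
  let w : Matrix (Fin (n + 1)) (Fin 1) 𝔽 := X - E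
  have w0 : ∀ i, w 0 i = x 0 - r • s := fun i => rfl
  have wS : ∀ (j : Fin n) i, w j.succ i = x j.succ := by
    intro j i
    show x j.succ - (if j.succ = 0 then r • s else 0) = _
    rw [if_neg (Fin.succ_ne_zero j), sub_zero]
  let N : ℝ := 2 * (r ^ 2 - r * ‖x 0‖)
  have hww : w.conjTranspose * w = N • (1 : Matrix (Fin 1) (Fin 1) 𝔽) := by
    ext i j
    have hi : i = j := Subsingleton.elim _ _
    subst hi
    rw [Matrix.mul_apply, Matrix.smul_apply, Matrix.one_apply_eq]
    simp only [Matrix.conjTranspose_apply]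
    rw [Fin.sum_univ_succ]
    simp only [wS, w0, star_mul_self' F]
    rw [← Finset.sum_smul, ← add_smul]
    congr 1
    have h1 : ‖x 0 - r • s‖ ^ 2 = (‖x 0‖ - r) ^ 2 := by
      have h2 : x 0 - r • s = (‖x 0‖ - r) • s := by
        rw [sub_smul, ← hx0]
      rw [h2, norm_smul, hs, mul_one, Real.norm_eq_abs, sq_abs]
    rw [h1]
    show _ = 2 * (r ^ 2 - r * ‖x 0‖)
    linarith [hr2]
  have hwX : w.conjTranspose * X = (N / 2) • (1 : Matrix (Fin 1) (Fin 1) 𝔽) := by
    ext i j
    have hi : i = j := Subsingleton.elim _ _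
    subst hi
    rw [Matrix.mul_apply, Matrix.smul_apply, Matrix.one_apply_eq]
    simp only [Matrix.conjTranspose_apply]
    rw [Fin.sum_univ_succ]
    simp only [wS, w0]
    show star (x 0 - r • s) * x 0 + ∑ j : Fin n, star (x j.succ) * x j.succ = _
    simp only [star_mul_self' F]
    rw [← Finset.sum_smul, star_sub, sub_mul, star_mul_self' F]
    have h3 : star (r • s) * x 0 = (r * ‖x 0‖) • (1 : 𝔽) := by
      rw [F.star_smul]
      nth_rewrite 1 [hx0]
      rw [smul_mul_smul_comm, hss]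
    rw [h3, ← sub_smul, ← add_smul]
    congr 1
    show _ = 2 * (r ^ 2 - r * ‖x 0‖) / 2
    linarith [hr2]
  have hw0 : N = 0 → w = 0 := by
    intro hN
    have h1 : ∀ i : Fin (n + 1), ∀ j, w i j = 0 := by
      have h2 : (w.conjTranspose * w) 0 0 = 0 := by rw [hww, hN, zero_smul]; rfl
      rw [Matrix.mul_apply] at h2
      simp only [Matrix.conjTranspose_apply, star_mul_self' F] at h2
      rw [← Finset.sum_smul] at h2
      have h3 : ∑ i, ‖w i 0‖ ^ 2 = 0 := by
        rcases smul_eq_zero.1 h2 with h | h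
        · exact h
        · exfalso
          have := norm_one' F
          rw [h, norm_zero] at this
          exact zero_ne_one this
      intro i j
      rw [Finset.sum_eq_zero_iff_of_nonneg fun i _ => by positivity] at h3
      have h4 := h3 i (Finset.mem_univ _)
      rw [Subsingleton.elim j 0]
      exact norm_eq_zero.1 (by simpa using h4)
    ext i j
    exact h1 i j
  let c : ℝ := 2 / N
  have hc : c * c * N = 2 * c := by
    by_cases hN : N = 0
    · simp [c, hN]
    · simp only [c]; field_simp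
  let H : Matrix (Fin (n + 1)) (Fin (n + 1)) 𝔽 := 1 - c • (w * w.conjTranspose)
  have hHH : H.conjTranspose = H := by
    simp only [H, Matrix.conjTranspose_sub, Matrix.conjTranspose_one, Matrix.conjTranspose_smul,
      Matrix.conjTranspose_mul, Matrix.conjTranspose_conjTranspose, star_trivial]
  have hWW : (w * w.conjTranspose) * (w * w.conjTranspose) = N • (w * w.conjTranspose) := by
    rw [Matrix.mul_assoc, ← Matrix.mul_assoc w.conjTranspose, hww, Matrix.smul_mul,
      Matrix.one_mul, Matrix.mul_smul]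
  have hH2 : H * H = 1 := by
    simp only [H]
    rw [sub_mul, one_mul, mul_sub, mul_one, Matrix.smul_mul, Matrix.mul_smul, hWW, smul_smul,
      smul_smul, hc, two_mul, add_smul]
    abel
  have hHX : H * X = E := by
    simp only [H]
    rw [Matrix.sub_mul, Matrix.one_mul, Matrix.smul_mul, Matrix.mul_assoc, hwX, Matrix.mul_smul,
      Matrix.mul_one, smul_smul]
    by_cases hN : N = 0
    · have h1 := hw0 hN
      have h2 : X = E := sub_eq_zero.1 h1
      rw [h1, smul_zero, sub_zero, h2]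
    · have h1 : c * (N / 2) = 1 := by simp only [c]; field_simp
      rw [h1, one_smul]
      show X - (X - E) = E
      abel
  let D : Matrix (Fin (n + 1)) (Fin (n + 1)) 𝔽 :=
    Matrix.diagonal fun i => if i = 0 then star s else 1
  have hD1 : D.conjTranspose * D = 1 := by
    simp only [D, Matrix.diagonal_conjTranspose, Matrix.diagonal_mul_diagonal]
    rw [← Matrix.diagonal_one]
    congr 1
    funext i
    by_cases hi : i = 0
    · simp [hi, hss']
    · simp [hi]
  have hD2 : D * D.conjTranspose = 1 := by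
    simp only [D, Matrix.diagonal_conjTranspose, Matrix.diagonal_mul_diagonal]
    rw [← Matrix.diagonal_one]
    congr 1
    funext i
    by_cases hi : i = 0
    · simp [hi, hss]
    · simp [hi]
  refine ⟨D * H, r, hr0, ?_, ?_, fun i => ?_⟩
  · rw [Matrix.conjTranspose_mul, hHH, Matrix.mul_assoc, ← Matrix.mul_assoc D.conjTranspose, hD1,
      Matrix.one_mul, hH2]
  · rw [Matrix.conjTranspose_mul, hHH, Matrix.mul_assoc, ← Matrix.mul_assoc H, hH2,
      Matrix.one_mul, hD2]
  · have h1 : ∑ j, (D * H) i j * x j = (D * H * X) i 0 := by rw [Matrix.mul_apply]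
    rw [h1, Matrix.mul_assoc, hHX, Matrix.diagonal_mul]
    by_cases hi : i = 0
    · simp only [E, hi, if_true]
      rw [mul_smul_comm, hss]
    · simp only [E, hi, if_false, mul_zero]

end Pool.Agent.Lib.MP17fa2c
end

section
/-! # TRI: a tridiagonalization is given by the Lanczos coefficients -/
set_option autoImplicit false

open MeasureTheory ProbabilityTheory Filter Topology
open scoped RealInnerProductSpace NNReal ENNReal BoundedContinuousFunction Quaternion

namespace Pool.Agent.Lib.MP17fa2c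

namespace TRIM

variable {𝔽 : Type} [NormedRing 𝔽] [StarRing 𝔽] [InnerProductSpace ℝ 𝔽]
  [IsScalarTower ℝ 𝔽 𝔽] [SMulCommClass ℝ 𝔽 𝔽] [FiniteDimensional ℝ 𝔽]

/-- the basis vectors, `0` beyond the dimension -/
noncomputable def bas (𝔽 : Type) [NormedRing 𝔽] [InnerProductSpace ℝ 𝔽] (n j : ℕ) : VE 𝔽 n :=
  WithLp.toLp 2 (fun i => if (i : ℕ) = j then 1 else 0)

omit [StarRing 𝔽] [IsScalarTower ℝ 𝔽 𝔽] [SMulCommClass ℝ 𝔽 𝔽] [FiniteDimensional ℝ 𝔽] in
theorem bas_apply (n j : ℕ) (i : Fin n) :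
    (bas 𝔽 n j) i = if (i : ℕ) = j then 1 else 0 := rfl

omit [StarRing 𝔽] [IsScalarTower ℝ 𝔽 𝔽] in
theorem opm_apply {n : ℕ} (A : Matrix (Fin n) (Fin n) 𝔽) (x : VE 𝔽 n) (i : Fin n) :
    (opm A x) i = ∑ j, A i j * x j := rfl

omit [StarRing 𝔽] [IsScalarTower ℝ 𝔽 𝔽] [SMulCommClass ℝ 𝔽 𝔽] [FiniteDimensional ℝ 𝔽] in
theorem inner_bas (h1 : ‖(1 : 𝔽)‖ = 1) (n i j : ℕ) (hi : i < n) :
    ⟪bas 𝔽 n i, bas 𝔽 n j⟫ = if i = j then (1 : ℝ) else 0 := by
  rw [PiLp.inner_apply, Finset.sum_eq_single (⟨i, hi⟩ : Fin n)]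
  · rw [bas_apply, bas_apply, if_pos rfl]
    by_cases hij : i = j
    · rw [if_pos hij, if_pos hij, real_inner_self_eq_norm_sq, h1]
      norm_num
    · rw [if_neg hij, if_neg hij, inner_zero_right]
  · intro k _ hk
    rw [bas_apply, if_neg fun h => hk (Fin.ext h), inner_zero_left]
  · intro h
    exact absurd (Finset.mem_univ _) h

/-- `b_{j-1} q_{j-1}` for the basis vectors -/
noncomputable def pre (𝔽 : Type) [NormedRing 𝔽] [InnerProductSpace ℝ 𝔽] (n : ℕ) (b : ℕ → ℝ) :
    ℕ → VE 𝔽 n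
  | 0 => 0
  | l + 1 => b (l + 1) • bas 𝔽 n l

omit [StarRing 𝔽] [IsScalarTower ℝ 𝔽 𝔽] in
theorem tri_bas (n l : ℕ) (hl : l < n) (a b : ℕ → ℝ) :
    opm (tri 𝔽 n a b) (bas 𝔽 n l) =
      pre 𝔽 n b l + a (l + 1) • bas 𝔽 n l + b (l + 1) • bas 𝔽 n (l + 1) := by
  ext i
  rw [opm_apply, Finset.sum_eq_single (⟨l, hl⟩ : Fin n)]
  · rw [bas_apply, if_pos rfl, mul_one]
    show tri 𝔽 n a b i ⟨l, hl⟩ = (pre 𝔽 n b l) i + a (l + 1) • (bas 𝔽 n l) i +
      b (l + 1) • (bas 𝔽 n (l + 1)) i
    rw [bas_apply, bas_apply]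
    unfold tri
    by_cases h1 : (i : ℕ) = l
    · have h2 : i = ⟨l, hl⟩ := Fin.ext h1
      have h3 : (pre 𝔽 n b l) i = 0 := by
        cases l with
        | zero => rfl
        | succ l' =>
          show b (l' + 1) • (bas 𝔽 n l') i = 0
          rw [bas_apply, if_neg (by omega), smul_zero]
      rw [if_pos h2, h3, if_pos h1, if_neg (by omega), smul_zero, zero_add, add_zero, h1]
    · have h2 : i ≠ ⟨l, hl⟩ := fun h => h1 (congrArg Fin.val h)
      rw [if_neg h2, if_neg h1, smul_zero, add_zero]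
      by_cases h3 : (i : ℕ) + 1 = l
      · have h4 : (pre 𝔽 n b l) i = b l • 1 := by
          cases l with
          | zero => omega
          | succ l' =>
            show b (l' + 1) • (bas 𝔽 n l') i = b (l' + 1) • 1
            rw [bas_apply, if_pos (by omega)]
        have h5 : (i : ℕ) + 1 = ((⟨l, hl⟩ : Fin n) : ℕ) := h3
        rw [if_pos h5, h4, if_neg (by omega), smul_zero, add_zero, h3]
      · have h4 : (pre 𝔽 n b l) i = 0 := by
          cases l with
          | zero => rfl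
          | succ l' =>
            show b (l' + 1) • (bas 𝔽 n l') i = 0
            rw [bas_apply, if_neg (by omega), smul_zero]
        have h5 : ¬ (i : ℕ) + 1 = ((⟨l, hl⟩ : Fin n) : ℕ) := h3
        rw [if_neg h5, h4, zero_add]
        by_cases h6 : (i : ℕ) = l + 1
        · have h7 : ((⟨l, hl⟩ : Fin n) : ℕ) + 1 = i := h6.symm
          rw [if_pos h7, if_pos h6]
        · have h7 : ¬ ((⟨l, hl⟩ : Fin n) : ℕ) + 1 = i := fun h => h6 h.symm
          rw [if_neg h7, if_neg h6, smul_zero]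
  · intro k _ hk
    rw [bas_apply, if_neg fun h => hk (Fin.ext h), mul_zero]
  · intro h
    exact absurd (Finset.mem_univ _) h

end TRIM

open TRIM in
/-- TRI -/
theorem specTRI (hOPM : SpecOPM) : SpecTRI := by
  intro ι _ _ 𝔽 _ _ _ _ _ _ F n M a b hT
  obtain ⟨hb, U, hU1, hU2, hU3, hM⟩ := hT
  obtain ⟨o1, o2, o3, o4, o5⟩ := hOPM ι 𝔽 F (n + 1)
  have h11 : ‖(1 : 𝔽)‖ = 1 := by rw [← F.e_o]; exact F.e.orthonormal.1 F.o
  let v : ℕ → VE 𝔽 (n + 1) := fun j => opm U (bas 𝔽 (n + 1) j)
  have hUU : ∀ x : VE 𝔽 (n + 1), opm U.conjTranspose (opm U x) = x := fun x => by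
    have h := congrArg (fun A => A x) (o1 U.conjTranspose U)
    rw [hU1, o3] at h
    exact h.symm
  have hinner : ∀ i j, i < n + 1 → ⟪v i, v j⟫ = if i = j then (1 : ℝ) else 0 := by
    intro i j hi
    show ⟪opm U (bas 𝔽 (n + 1) i), opm U (bas 𝔽 (n + 1) j)⟫ = _
    rw [o4, hUU, inner_bas h11 _ _ _ hi]
  have hnorm : ∀ i, i < n + 1 → ‖v i‖ = 1 := by
    intro i hi
    have h := hinner i i hi
    rw [if_pos rfl, real_inner_self_eq_norm_sq] at h
    nlinarith [norm_nonneg (v i)]
  have hMx : ∀ x, opm M x = opm U (opm (tri 𝔽 (n + 1) a b) (opm U.conjTranspose x)) := by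
    intro x
    rw [hM, o1, o1]
    rfl
  let c : ℕ → VE 𝔽 (n + 1) := fun l => opm U (pre 𝔽 (n + 1) b l)
  have hMv : ∀ l, l < n + 1 → opm M (v l) = c l + a (l + 1) • v l + b (l + 1) • v (l + 1) := by
    intro l hl
    rw [hMx]
    show opm U (opm (tri 𝔽 (n + 1) a b) (opm U.conjTranspose (opm U (bas 𝔽 (n + 1) l)))) = _
    rw [hUU, tri_bas _ _ hl, map_add, map_add, map_smul, map_smul]
  have hv0 : v 0 = e1 𝔽 n := by
    ext i
    show ∑ j, U i j * (bas 𝔽 (n + 1) 0) j = if i = 0 then 1 else 0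
    rw [Finset.sum_eq_single (0 : Fin (n + 1))]
    · have h0 : (bas 𝔽 (n + 1) 0) (0 : Fin (n + 1)) = 1 := by rw [bas_apply]; simp
      rw [h0, mul_one]
      exact hU3 i 0 rfl
    · intro k _ hk
      have hk' : ¬ (k : ℕ) = 0 := fun h => hk (Fin.ext h)
      rw [bas_apply, if_neg hk', mul_zero]
    · intro h
      exact absurd (Finset.mem_univ _) h
  -- orthogonality of `c l` and `v l`
  have hcv : ∀ l, l < n + 1 → ⟪v l, c l⟫ = 0 := by
    intro l hl
    cases l with
    | zero =>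
      show ⟪v 0, opm U 0⟫ = 0
      rw [map_zero, inner_zero_right]
    | succ l' =>
      show ⟪v (l' + 1), opm U (b (l' + 1) • bas 𝔽 (n + 1) l')⟫ = 0
      rw [map_smul, inner_smul_right]
      have h := hinner (l' + 1) l' hl
      rw [if_neg (by omega)] at h
      show b (l' + 1) * ⟪v (l' + 1), v l'⟫ = 0
      rw [h, mul_zero]
  have step : ∀ l, l < n + 1 → (∀ i < l, bv (opm M) (e1 𝔽 n) i ≠ 0) →
      (lan (opm M) (e1 𝔽 n) l) = (c l, v l) := by
    intro l
    induction l with
    | zero =>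
      intro _ _
      show ((0 : VE 𝔽 (n + 1)), e1 𝔽 n) = (opm U 0, v 0)
      rw [map_zero, hv0]
    | succ l ih =>
      intro hl hbn
      have h1 := ih (by omega) fun i hi => hbn i (by omega)
      have hq : qv (opm M) (e1 𝔽 n) l = v l := by
        show (lan (opm M) (e1 𝔽 n) l).2 = v l
        rw [h1]
      have hc : (lan (opm M) (e1 𝔽 n) l).1 = c l := by rw [h1]
      have hl' : l < n + 1 := by omega
      have ha : av (opm M) (e1 𝔽 n) l = a (l + 1) := by
        unfold av
        rw [hq, hMv l hl', inner_add_right, inner_add_right, hcv l hl', inner_smul_right,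
          inner_smul_right, hinner l l hl', hinner l (l + 1) hl', if_pos rfl, if_neg (by omega)]
        ring
      have hw : wv (opm M) (e1 𝔽 n) l = b (l + 1) • v (l + 1) := by
        unfold wv
        rw [hq, hc, ha, hMv l hl']
        abel
      have hbv : bv (opm M) (e1 𝔽 n) l = b (l + 1) := by
        unfold bv
        rw [hw, norm_smul, hnorm _ hl, mul_one, Real.norm_of_nonneg (hb _)]
      have hlan : lan (opm M) (e1 𝔽 n) (l + 1) =
          (bv (opm M) (e1 𝔽 n) l • qv (opm M) (e1 𝔽 n) l,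
            (bv (opm M) (e1 𝔽 n) l)⁻¹ • wv (opm M) (e1 𝔽 n) l) := rfl
      have hne := hbn l (Nat.lt_succ_self l)
      rw [hlan, hq, hw, hbv, smul_smul, inv_mul_cancel₀ (by rwa [hbv] at hne), one_smul]
      congr 1
      show b (l + 1) • v l = opm U (b (l + 1) • bas 𝔽 (n + 1) l)
      rw [map_smul]
  intro l hl hbn
  have h1 := step l hl hbn
  have hq : qv (opm M) (e1 𝔽 n) l = v l := by
    show (lan (opm M) (e1 𝔽 n) l).2 = v l
    rw [h1]
  have hc : (lan (opm M) (e1 𝔽 n) l).1 = c l := by rw [h1]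
  have ha : av (opm M) (e1 𝔽 n) l = a (l + 1) := by
    unfold av
    rw [hq, hMv l hl, inner_add_right, inner_add_right, hcv l hl, inner_smul_right,
      inner_smul_right, hinner l l hl, hinner l (l + 1) hl, if_pos rfl, if_neg (by omega)]
    ring
  refine ⟨ha.symm, fun hln => ?_⟩
  have hw : wv (opm M) (e1 𝔽 n) l = b (l + 1) • v (l + 1) := by
    unfold wv
    rw [hq, hc, ha, hMv l hl]
    abel
  unfold bv
  rw [hw, norm_smul, hnorm (l + 1) (by omega), mul_one, Real.norm_of_nonneg (hb _)]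

end Pool.Agent.Lib.MP17fa2c
end
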