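import Pool.Agent.Lib.MP_17fa2c_pr.TD.SpecT
import Pool.Agent.Lib.MP_17fa2c_pr.TD.SpecK

section
/-!
# MP_17fa2c_pr, block T, module GBD: the gradient bound
-/
set_option autoImplicit false

open MeasureTheory ProbabilityTheory Filter Topology Polynomial
open scoped RealInnerProductSpace NNReal ENNReal

namespace Pool.Agent.Lib.MP17fa2c

namespace GBDM

/-- `ex` is nonnegative -/
theorem ex_nonneg (N : ℕ) (ω : ℝ) (B : ℕ → ℝ) (hω : 0 < ω) : 0 ≤ ex N ω B := by
  unfold ex
  have h1 : 0 ≤ ∑ l ∈ Finset.range N, max 0 (-Real.log (2 * B l)) :=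
    Finset.sum_nonneg fun l _ => le_max_left _ _
  have h2 : (0 : ℝ) ≤ N * ω := by positivity
  linarith

theorem le_ex (N : ℕ) (ω : ℝ) (B : ℕ → ℝ) (hω : 0 < ω) (l : ℕ) (hl : l < N) :
    -Real.log (2 * B l) ≤ ex N ω B := by
  unfold ex
  have h1 : max 0 (-Real.log (2 * B l)) ≤
      ∑ l ∈ Finset.range N, max 0 (-Real.log (2 * B l)) :=
    Finset.single_le_sum (f := fun l => max 0 (-Real.log (2 * B l)))
      (fun i _ => le_max_left _ _) (Finset.mem_range.2 hl)
  have h2 : (0 : ℝ) ≤ N * ω := by positivity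
  have h3 : -Real.log (2 * B l) ≤ max 0 (-Real.log (2 * B l)) := le_max_right _ _
  linarith

theorem om_le_ex (N : ℕ) (ω : ℝ) (B : ℕ → ℝ) (hω : 0 < ω) (hN : 1 ≤ N) :
    ω ≤ ex N ω B := by
  unfold ex
  have h1 : 0 ≤ ∑ l ∈ Finset.range N, max 0 (-Real.log (2 * B l)) :=
    Finset.sum_nonneg fun l _ => le_max_left _ _
  have h2 : (1 : ℝ) ≤ N := by exact_mod_cast hN
  nlinarith

theorem inv_le (N : ℕ) (ω : ℝ) (B : ℕ → ℝ) (hω : 0 < ω) (l : ℕ) (hl : l < N)
    (hB : 0 < B l) : (B l)⁻¹ ≤ 2 * Real.exp (ex N ω B) := by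
  have h := le_ex N ω B hω l hl
  have h2 : Real.exp (-Real.log (2 * B l)) ≤ Real.exp (ex N ω B) := Real.exp_le_exp.2 h
  rw [Real.exp_neg, Real.exp_log (by positivity)] at h2
  have h3 : (B l)⁻¹ = 2 * (2 * B l)⁻¹ := by
    field_simp
  rw [h3]
  linarith

/-- the gradient bound at scale `1` -/
def G1 : Prop := ∃ C : ℝ, 0 < C ∧ ∀ (E : Type) [NormedAddCommGroup E]
  [InnerProductSpace ℝ E] [FiniteDimensional ℝ E] (A : E →L[ℝ] E) (u : E) (k : ℕ) (ω : ℝ),
  GData A u k 1 ω → ∃ x y : ℕ → E,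
  (∀ H : E →L[ℝ] E, (∀ x y, ⟪H x, y⟫ = ⟪x, H y⟫) →
    fderiv ℝ (fun A : E →L[ℝ] E => av A u k) A H =
      ∑ i ∈ Finset.range (k + 1), ⟪x i, H (qv A u i)⟫) ∧
  (∀ H : E →L[ℝ] E, (∀ x y, ⟪H x, y⟫ = ⟪x, H y⟫) →
    fderiv ℝ (fun A : E →L[ℝ] E => bv A u k ^ 2) A H =
      ∑ i ∈ Finset.range (k + 1), ⟪y i, H (qv A u i)⟫) ∧
  ∑ i ∈ Finset.range (k + 1), ‖x i‖ ^ 2 ≤
    C * (k + 1) * Real.exp (C * ex (2 * k + 3) ω (bv A u)) ∧
  ∑ i ∈ Finset.range (k + 1), ‖y i‖ ^ 2 ≤
    C * (k + 1) * Real.exp (C * ex (2 * k + 3) ω (bv A u))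

theorem sq_bound {C0 e a b w : ℝ} (hC0 : 0 < C0) (he : 0 ≤ e) (ha : 0 ≤ a) (hb : 0 ≤ b)
    (hw : 0 ≤ w) (ha' : a ≤ 2 * Real.exp e) (hb' : b ≤ 2 * Real.exp e)
    (hw' : w ≤ C0 * Real.exp (C0 * e)) :
    (a * b * w) ^ 2 ≤ (16 * C0 ^ 2 + 2 * C0 + 4) *
      Real.exp ((16 * C0 ^ 2 + 2 * C0 + 4) * e) := by
  have h1 : a * b * w ≤ (2 * Real.exp e) * (2 * Real.exp e) * (C0 * Real.exp (C0 * e)) := by
    apply mul_le_mul _ hw' hw (by positivity)
    exact mul_le_mul ha' hb' hb (by positivity)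
  have h0 : 0 ≤ a * b * w := by positivity
  have h2 : (a * b * w) ^ 2 ≤
      ((2 * Real.exp e) * (2 * Real.exp e) * (C0 * Real.exp (C0 * e))) ^ 2 :=
    pow_le_pow_left₀ h0 h1 2
  have h3 : ((2 * Real.exp e) * (2 * Real.exp e) * (C0 * Real.exp (C0 * e))) ^ 2 =
      16 * C0 ^ 2 * Real.exp ((2 * C0 + 4) * e) := by
    have : Real.exp ((2 * C0 + 4) * e) = Real.exp e ^ 4 * Real.exp (C0 * e) ^ 2 := by
      rw [← Real.exp_nat_mul, ← Real.exp_nat_mul, ← Real.exp_add]
      congr 1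
      push_cast
      ring
    rw [this]
    ring
  rw [h3] at h2
  refine h2.trans ?_
  apply mul_le_mul
  · linarith
  · apply Real.exp_le_exp.2
    have : 0 ≤ 16 * C0 ^ 2 * e := by positivity
    nlinarith
  · positivity
  · positivity

theorem g1 (hNRM : SpecNRM) (hCHD : SpecCHD) (hGRA : SpecGRA) (hGRB : SpecGRB)
    (hDIF : SpecDIF) : G1 := by
  obtain ⟨C0, hC0, hN⟩ := hNRM
  refine ⟨16 * C0 ^ 2 + 2 * C0 + 4, by positivity, ?_⟩
  intro E _ _ _ A u k ω hG
  set e := ex (2 * k + 3) ω (bv A u) with he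
  have he0 : 0 ≤ e := ex_nonneg _ _ _ hG.pos
  have hbpos : ∀ l ≤ 2 * k + 2, 0 < bv A u l := fun l hl =>
    lt_of_le_of_ne (norm_nonneg _) (hG.b_ne l hl).symm
  have hbinv : ∀ l ≤ 2 * k + 2, (bv A u l)⁻¹ ≤ 2 * Real.exp e := fun l hl =>
    inv_le _ _ _ hG.pos l (by omega) (hbpos l hl)
  have hbk : bv A u k ≤ Real.exp e := by
    have h1 := hG.sumb k (k + 1) (by omega) (by omega)
    simp only [Nat.Ico_succ_singleton, Finset.sum_singleton, div_one] at h1
    have h2 : bv A u k ^ 2 ≤ 1 + ω := by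
      have := (abs_le.1 h1).2
      linarith
    have h3 : bv A u k ≤ 1 + ω := by
      by_contra hc
      push Not at hc
      have hω := hG.pos
      nlinarith
    have h4 : 1 + ω ≤ Real.exp ω := by
      have := Real.add_one_le_exp ω
      linarith
    have h5 : Real.exp ω ≤ Real.exp e :=
      Real.exp_le_exp.2 (om_le_ex _ _ _ hG.pos (by omega))
    linarith
  have hchain : ∀ H : E →L[ℝ] E, (∀ x y, ⟪H x, y⟫ = ⟪x, H y⟫) →
      Chain A H (k + 2) (qv A u) (fun j => fderiv ℝ (fun A : E →L[ℝ] E => qv A u j) A H)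
        (av A u) (bv A u)
        (fun j => fderiv ℝ (fun A : E →L[ℝ] E => av A u j) A H)
        (fun j => fderiv ℝ (fun A : E →L[ℝ] E => bv A u j) A H) := fun H hH =>
    hCHD E u A H (k + 2) hG.sym hH hG.unit (fun l hl => hG.b_ne l (by omega))
  have hq : ∀ i ≤ k + 2, ‖qv A u i‖ = 1 := by
    intro i hi
    have h1 := (hchain 0 (by simp)).on i hi i hi
    simp only [if_true] at h1
    rw [real_inner_self_eq_norm_sq] at h1
    have h2 : (‖qv A u i‖ - 1) * (‖qv A u i‖ + 1) = 0 := by ring_nf; linarith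
    rcases mul_eq_zero.1 h2 with h | h
    · linarith
    · have := norm_nonneg (qv A u i)
      linarith
  set w1 : ℕ → E := fun i =>
    bv A u k • aeval A (opp (av A u) (bv A u) (i + 1) (k - 1 - i)).2 (qv A u (k + 1)) -
      aeval A (opp (av A u) (bv A u) (i + 1) (k - 1 - i)).1 (qv A u k) with hw1
  set w2 : ℕ → E := fun i =>
    (av A u (k + 1) - av A u k) • aeval A (opp (av A u) (bv A u) (i + 1) (k - 1 - i)).2
        (qv A u (k + 1)) +
      bv A u (k + 1) • aeval A (opp (av A u) (bv A u) (i + 1) (k - 1 - i)).2 (qv A u (k + 2)) -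
      aeval A (opp (av A u) (bv A u) (i + 1) (k - 1 - i)).1 (qv A u (k + 1)) with hw2
  have hnw1 : ∀ i < k, ‖w1 i‖ ≤ C0 * Real.exp (C0 * e) := fun i hi =>
    (hN E A u k ω hG i hi).1
  have hnw2 : ∀ i < k, ‖w2 i‖ ≤ C0 * Real.exp (C0 * e) := fun i hi =>
    (hN E A u k ω hG i hi).2
  have he1 : 1 ≤ Real.exp e := Real.one_le_exp he0
  refine ⟨fun i => if i < k then (2 * (bv A u i)⁻¹) • w1 i else qv A u k,
    fun i => if i < k then (2 * bv A u k * (bv A u i)⁻¹) • w2 i
      else (2 * bv A u k) • qv A u (k + 1), ?_, ?_, ?_, ?_⟩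
  · intro H hH
    have h1 := hGRA E A H (k + 2) _ _ _ _ _ _ (hchain H hH) k (by omega)
    rw [h1, Finset.sum_range_succ, add_comm]
    beta_reduce
    rw [if_neg (lt_irrefl k)]
    congr 1
    apply Finset.sum_congr rfl
    intro i hi
    rw [Finset.mem_range] at hi
    rw [if_pos hi, real_inner_smul_left]
  · intro H hH
    have hd : DifferentiableAt ℝ (fun A : E →L[ℝ] E => bv A u k) A :=
      (hDIF E u A k (fun l hl => hG.b_ne l (by omega))).2.2.2.2 (hG.b_ne k (by omega))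
    have h1 := hGRB E A H (k + 2) _ _ _ _ _ _ (hchain H hH) k (by omega)
    have h2 : fderiv ℝ (fun A : E →L[ℝ] E => bv A u k ^ 2) A H =
        2 * bv A u k * fderiv ℝ (fun A : E →L[ℝ] E => bv A u k) A H := by
      have h3 := (hd.hasFDerivAt.pow 2).fderiv
      rw [h3]
      simp
    rw [h2, h1, Finset.sum_range_succ]
    beta_reduce
    rw [if_neg (lt_irrefl k), real_inner_smul_left, mul_add, add_comm]
    congr 1
    rw [Finset.mul_sum]
    apply Finset.sum_congr rfl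
    intro i hi
    rw [Finset.mem_range] at hi
    rw [if_pos hi, real_inner_smul_left]
    ring
  · have hb : ∀ i ∈ Finset.range (k + 1),
        ‖(if i < k then (2 * (bv A u i)⁻¹) • w1 i else qv A u k)‖ ^ 2 ≤
        (16 * C0 ^ 2 + 2 * C0 + 4) * Real.exp ((16 * C0 ^ 2 + 2 * C0 + 4) * e) := by
      intro i hi
      rw [Finset.mem_range] at hi
      by_cases hik : i < k
      · rw [if_pos hik, norm_smul, Real.norm_eq_abs, abs_of_nonneg
          (by have := hbpos i (by omega); positivity)]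
        exact sq_bound hC0 he0 (by norm_num) (inv_nonneg.2 (hbpos i (by omega)).le)
          (norm_nonneg _) (by linarith) (hbinv i (by omega)) (hnw1 i hik)
      · rw [if_neg hik, hq k (by omega)]
        have h1 : 1 ≤ Real.exp ((16 * C0 ^ 2 + 2 * C0 + 4) * e) :=
          Real.one_le_exp (by positivity)
        have h2 : 0 ≤ 16 * C0 ^ 2 + 2 * C0 := by positivity
        nlinarith
    refine (Finset.sum_le_card_nsmul _ _ _ hb).trans ?_
    rw [Finset.card_range, nsmul_eq_mul]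
    push_cast
    apply le_of_eq
    ring
  · have hb : ∀ i ∈ Finset.range (k + 1),
        ‖(if i < k then (2 * bv A u k * (bv A u i)⁻¹) • w2 i
          else (2 * bv A u k) • qv A u (k + 1))‖ ^ 2 ≤
        (16 * C0 ^ 2 + 2 * C0 + 4) * Real.exp ((16 * C0 ^ 2 + 2 * C0 + 4) * e) := by
      intro i hi
      rw [Finset.mem_range] at hi
      have hbk0 := hbpos k (by omega)
      by_cases hik : i < k
      · rw [if_pos hik, norm_smul, Real.norm_eq_abs, abs_of_nonneg
          (by have := hbpos i (by omega); positivity)]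
        exact sq_bound hC0 he0 (by positivity) (inv_nonneg.2 (hbpos i (by omega)).le)
          (norm_nonneg _) (by linarith) (hbinv i (by omega)) (hnw2 i hik)
      · rw [if_neg hik, norm_smul, hq (k + 1) (by omega), mul_one, Real.norm_eq_abs,
          abs_of_nonneg (by positivity)]
        have h1 : (2 * bv A u k) ^ 2 ≤ (2 * Real.exp e) ^ 2 :=
          pow_le_pow_left₀ (by positivity) (by linarith) 2
        have h2 : (2 * Real.exp e) ^ 2 = 4 * Real.exp (2 * e) := by
          have : Real.exp (2 * e) = Real.exp e ^ 2 := by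
            rw [← Real.exp_nat_mul]
            norm_num
          rw [this]
          ring
        rw [h2] at h1
        refine h1.trans ?_
        have h3 : 0 ≤ 16 * C0 ^ 2 + 2 * C0 := by positivity
        apply mul_le_mul (by linarith) _ (by positivity) (by positivity)
        apply Real.exp_le_exp.2
        nlinarith
    refine (Finset.sum_le_card_nsmul _ _ _ hb).trans ?_
    rw [Finset.card_range, nsmul_eq_mul]
    push_cast
    apply le_of_eq
    ring

end GBDM

theorem specGBD (hNRM : SpecNRM) (hCHD : SpecCHD) (hGRA : SpecGRA) (hGRB : SpecGRB)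
    (hDIF : SpecDIF) (hSCL : SpecSCL) : SpecGBD := by
  obtain ⟨C, hC, h1⟩ := GBDM.g1 hNRM hCHD hGRA hGRB hDIF
  refine ⟨C, hC, ?_⟩
  intro E _ _ _ A u k R ω hG
  set c : ℝ := (Real.sqrt R)⁻¹ with hc
  have hsR : 0 < Real.sqrt R := Real.sqrt_pos.2 hG.R_pos
  have hc0 : 0 < c := by positivity
  have hc2 : c ^ 2 = R⁻¹ := by
    rw [hc, inv_pow, Real.sq_sqrt hG.R_pos.le]
  have hsc := hSCL E A u c hc0
  have hfs : (fun l => bv A u l / Real.sqrt R) = bv (c • A) u := by
    funext l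
    rw [(hsc l).2.2.2, hc]
    field_simp
  have hG1 : GData (c • A) u k 1 ω := by
    refine ⟨?_, hG.unit, one_pos, hG.pos, ?_, ?_, ?_⟩
    · intro x y
      simp only [_root_.smul_apply, real_inner_smul_left, real_inner_smul_right,
        hG.sym x y]
    · intro l hl
      rw [(hsc l).2.2.2]
      exact mul_ne_zero hc0.ne' (hG.b_ne l hl)
    · intro i j hij hj
      have h2 := hG.suma i j hij hj
      refine le_of_eq_of_le ?_ h2
      congr 1
      apply Finset.sum_congr rfl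
      intro l _
      rw [(hsc l).2.2.1, Real.sqrt_one, div_one, hc]
      field_simp
    · intro i j hij hj
      have h2 := hG.sumb i j hij hj
      refine le_of_eq_of_le ?_ h2
      congr 1
      apply Finset.sum_congr rfl
      intro l _
      rw [(hsc l).2.2.2, div_one, mul_pow, hc2]
      field_simp
  obtain ⟨x, y, hx, hy, hxb, hyb⟩ := h1 E (c • A) u k ω hG1
  rw [← hfs] at hxb hyb
  have hbne : ∀ l < k, bv (c • A) u l ≠ 0 := fun l hl => hG1.b_ne l (by omega)
  have hsm : HasFDerivAt (fun B : E →L[ℝ] E => c • B)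
      (c • ContinuousLinearMap.id ℝ (E →L[ℝ] E)) A :=
    (c • ContinuousLinearMap.id ℝ (E →L[ℝ] E)).hasFDerivAt
  refine ⟨x, fun i => Real.sqrt R • y i, ?_, ?_, hxb, ?_⟩
  · intro H hH
    have hd : DifferentiableAt ℝ (fun A : E →L[ℝ] E => av A u k) (c • A) :=
      (hDIF E u (c • A) k hbne).2.2.1
    have h2 : (fun A : E →L[ℝ] E => av A u k) = fun B : E →L[ℝ] E =>
        c⁻¹ * (fun A : E →L[ℝ] E => av A u k) (c • B) := by
      funext B
      show av B u k = c⁻¹ * av (c • B) u k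
      rw [(hSCL E B u c hc0 k).2.2.1]
      field_simp
    have h3 : HasFDerivAt (fun B : E →L[ℝ] E =>
        c⁻¹ * (fun A : E →L[ℝ] E => av A u k) (c • B))
        (c⁻¹ • ((fderiv ℝ (fun A : E →L[ℝ] E => av A u k) (c • A)).comp
          (c • ContinuousLinearMap.id ℝ (E →L[ℝ] E)))) A :=
      (hd.hasFDerivAt.comp A hsm).const_mul c⁻¹
    rw [h2, h3.fderiv]
    simp only [_root_.smul_apply, ContinuousLinearMap.comp_apply,
      ContinuousLinearMap.id_apply, map_smul, smul_eq_mul]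
    rw [← mul_assoc, inv_mul_cancel₀ hc0.ne', one_mul, hx H hH]
    apply Finset.sum_congr rfl
    intro i _
    rw [(hsc i).2.1]
  · intro H hH
    have hd : DifferentiableAt ℝ (fun A : E →L[ℝ] E => bv A u k ^ 2) (c • A) :=
      (hDIF E u (c • A) k hbne).2.2.2.1
    have h2 : (fun A : E →L[ℝ] E => bv A u k ^ 2) = fun B : E →L[ℝ] E =>
        (c ^ 2)⁻¹ * (fun A : E →L[ℝ] E => bv A u k ^ 2) (c • B) := by
      funext B
      show bv B u k ^ 2 = (c ^ 2)⁻¹ * bv (c • B) u k ^ 2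
      rw [(hSCL E B u c hc0 k).2.2.2]
      field_simp
    have h3 : HasFDerivAt (fun B : E →L[ℝ] E =>
        (c ^ 2)⁻¹ * (fun A : E →L[ℝ] E => bv A u k ^ 2) (c • B))
        ((c ^ 2)⁻¹ • ((fderiv ℝ (fun A : E →L[ℝ] E => bv A u k ^ 2) (c • A)).comp
          (c • ContinuousLinearMap.id ℝ (E →L[ℝ] E)))) A :=
      (hd.hasFDerivAt.comp A hsm).const_mul (c ^ 2)⁻¹
    rw [h2, h3.fderiv]
    simp only [_root_.smul_apply, ContinuousLinearMap.comp_apply,
      ContinuousLinearMap.id_apply, map_smul, smul_eq_mul]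
    rw [hy H hH, ← mul_assoc, Finset.mul_sum]
    apply Finset.sum_congr rfl
    intro i _
    rw [(hsc i).2.1, real_inner_smul_left]
    congr 1
    rw [hc]
    field_simp
  · have h4 : ∀ i, ‖Real.sqrt R • y i‖ ^ 2 = R * ‖y i‖ ^ 2 := by
      intro i
      rw [norm_smul, mul_pow, Real.norm_eq_abs, sq_abs, Real.sq_sqrt hG.R_pos.le]
    simp only [h4]
    rw [← Finset.mul_sum]
    calc R * ∑ i ∈ Finset.range (k + 1), ‖y i‖ ^ 2 ≤
        R * (C * (k + 1) * Real.exp (C * ex (2 * k + 3) ω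
          (fun l => bv A u l / Real.sqrt R))) :=
          mul_le_mul_of_nonneg_left hyb hG.R_pos.le
      _ = _ := by ring

end Pool.Agent.Lib.MP17fa2c
end

section
/-!
# MP_17fa2c_pr, block T: module GRA
-/
set_option autoImplicit false

open MeasureTheory ProbabilityTheory Filter Topology Polynomial
open scoped RealInnerProductSpace NNReal ENNReal

namespace Pool.Agent.Lib.MP17fa2c

namespace GRAM

variable {E : Type} [NormedAddCommGroup E] [InnerProductSpace ℝ E] {A H : E →L[ℝ] E} {K : ℕ}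
  {q dq : ℕ → E} {a b da db : ℕ → ℝ}

/-- the sum of the first components -/
theorem sum_fst (hV : SpecVCN) (hC : Chain A H K q dq a b da db) (k : ℕ) (hk : k + 1 ≤ K) (x : E)
    (hx : ∀ i ≤ k, ⟪q i, x⟫ = 0) :
    ∑ i ∈ Finset.range (k + 1), (b i)⁻¹ *
      ⟪aeval A (opp a b (i + 1) (k + 1 - 1 - i)).1 x, H (q i)⟫ = b k * ⟪x, dq k⟫ := by
  rw [hV E A H K q dq a b da db hC k (by omega) x hx, Finset.sum_range_succ, Finset.mul_sum]
  have h0 : (b k)⁻¹ * ⟪aeval A (opp a b (k + 1) (k + 1 - 1 - k)).1 x, H (q k)⟫ = 0 := by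
    have : k + 1 - 1 - k = 0 := by omega
    rw [this]
    simp [opp]
  rw [h0, add_zero]
  refine Finset.sum_congr rfl fun i hi => ?_
  have hi' := Finset.mem_range.1 hi
  obtain ⟨l, hl⟩ : ∃ l, k - 1 - i = l := ⟨_, rfl⟩
  have h1 : k + 1 - 1 - i = l + 1 := by omega
  have h2 : i + 1 + l = k := by omega
  rw [h1, hl]
  have h3 : (opp a b (i + 1) (l + 1)).1 = C (b (i + 1 + l)) * (opp a b (i + 1) l).2 := rfl
  rw [h3, h2, map_mul, aeval_C, Algebra.algebraMap_eq_smul_one, smul_mul_assoc, one_mul,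
    _root_.smul_apply, real_inner_smul_left]
  ring

theorem self_zero (hC : Chain A H K q dq a b da db) (k : ℕ) (hk : k ≤ K) : ⟪q k, dq k⟫ = 0 := by
  have h := hC.don k hk k hk
  rw [real_inner_comm] at h
  linarith

theorem orth (hC : Chain A H K q dq a b da db) {i j : ℕ} (hi : i ≤ K) (hj : j ≤ K) (hij : i ≠ j) :
    ⟪q i, q j⟫ = 0 := by
  rw [hC.on i hi j hj, if_neg hij]

theorem unit (hC : Chain A H K q dq a b da db) {i : ℕ} (hi : i ≤ K) : ⟪q i, q i⟫ = 1 := by
  rw [hC.on i hi i hi, if_pos rfl]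

end GRAM

open GRAM in
theorem specGRA (hVCN : SpecVCN) : SpecGRA := by
  intro E _ _ A H K q dq a b da db hC k hk
  rcases Nat.eq_zero_or_pos k with h0 | hpos
  · subst h0
    rw [Finset.range_zero, Finset.sum_empty, add_zero]
    have h1 := congrArg (fun x => ⟪q 0, x⟫) (hC.dj0 (by omega))
    simp only [inner_add_right, real_inner_smul_right, hC.dq0, map_zero, inner_zero_right] at h1
    rw [unit hC (by omega), orth hC (by omega) (by omega) (by omega : (0:ℕ) ≠ 1)] at h1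
    have h2 := hC.don 0 (by omega) 1 (by omega)
    rw [hC.dq0, inner_zero_left] at h2
    have h3 : ⟪q 0, dq 1⟫ = 0 := by linarith
    rw [h3] at h1
    linarith
  · obtain ⟨m, rfl⟩ : ∃ m, k = m + 1 := ⟨k - 1, by omega⟩
    have h1 := congrArg (fun x => ⟪q (m + 1), x⟫) (hC.dj m (by omega))
    simp only [inner_add_right, real_inner_smul_right] at h1
    have h2 : ⟪q (m + 1), A (dq (m + 1))⟫ = b m * ⟪q m, dq (m + 1)⟫ +
        a (m + 1) * ⟪q (m + 1), dq (m + 1)⟫ + b (m + 1) * ⟪q (m + 2), dq (m + 1)⟫ := by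
      rw [← hC.symA, hC.jr m (by omega)]
      simp only [inner_add_left, real_inner_smul_left]
    have e1 : ⟪q m, dq (m + 1)⟫ = -⟪q (m + 1), dq m⟫ := by
      have h := hC.don m (by omega) (m + 1) (by omega)
      rw [real_inner_comm] at h
      linarith
    have e2 : ⟪q (m + 1), dq (m + 2)⟫ = -⟪q (m + 2), dq (m + 1)⟫ := by
      have h := hC.don (m + 1) (by omega) (m + 2) (by omega)
      rw [real_inner_comm] at h
      linarith
    have e3 := self_zero hC (m + 1) (by omega)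
    rw [h2, e1, e2, e3, unit hC (by omega : m + 1 ≤ K),
      orth hC (by omega) (by omega) (by omega : m + 1 ≠ m),
      orth hC (by omega) (by omega) (by omega : m + 1 ≠ m + 2)] at h1
    have h3 := sum_fst hVCN hC m (by omega) (q (m + 1)) (fun i hi =>
      orth hC (by omega) (by omega) (by omega))
    have h4 := hVCN E A H K q dq a b da db hC (m + 1) (by omega) (q (m + 2)) (fun i hi =>
      orth hC (by omega) (by omega) (by omega))
    have h5 : ∑ i ∈ Finset.range (m + 1), 2 * (b i)⁻¹ *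
        ⟪b (m + 1) • aeval A (opp a b (i + 1) (m + 1 - 1 - i)).2 (q (m + 1 + 1)) -
          aeval A (opp a b (i + 1) (m + 1 - 1 - i)).1 (q (m + 1)), H (q i)⟫ =
        2 * b (m + 1) * ∑ i ∈ Finset.range (m + 1), (b i)⁻¹ *
          ⟪aeval A (opp a b (i + 1) (m + 1 - 1 - i)).2 (q (m + 2)), H (q i)⟫ -
        2 * ∑ i ∈ Finset.range (m + 1), (b i)⁻¹ *
          ⟪aeval A (opp a b (i + 1) (m + 1 - 1 - i)).1 (q (m + 1)), H (q i)⟫ := by
      rw [Finset.mul_sum, Finset.mul_sum, ← Finset.sum_sub_distrib]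
      refine Finset.sum_congr rfl fun i _ => ?_
      rw [inner_sub_left, real_inner_smul_left]
      ring
    rw [h5, ← h4, h3]
    linarith

end Pool.Agent.Lib.MP17fa2c
end

section
/-!
# MP_17fa2c_pr, block T: module GRB
-/
set_option autoImplicit false

open MeasureTheory ProbabilityTheory Filter Topology Polynomial
open scoped RealInnerProductSpace NNReal ENNReal

namespace Pool.Agent.Lib.MP17fa2c

namespace GRBM

variable {E : Type} [NormedAddCommGroup E] [InnerProductSpace ℝ E] {A H : E →L[ℝ] E} {K : ℕ}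
  {q dq : ℕ → E} {a b da db : ℕ → ℝ}

/-- the sum of the first components -/
theorem sum_fst (hV : SpecVCN) (hC : Chain A H K q dq a b da db) (k : ℕ) (hk : k + 1 ≤ K) (x : E)
    (hx : ∀ i ≤ k, ⟪q i, x⟫ = 0) :
    ∑ i ∈ Finset.range (k + 1), (b i)⁻¹ *
      ⟪aeval A (opp a b (i + 1) (k + 1 - 1 - i)).1 x, H (q i)⟫ = b k * ⟪x, dq k⟫ := by
  rw [hV E A H K q dq a b da db hC k (by omega) x hx, Finset.sum_range_succ, Finset.mul_sum]
  have h0 : (b k)⁻¹ * ⟪aeval A (opp a b (k + 1) (k + 1 - 1 - k)).1 x, H (q k)⟫ = 0 := by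
    have : k + 1 - 1 - k = 0 := by omega
    rw [this]
    simp [opp]
  rw [h0, add_zero]
  refine Finset.sum_congr rfl fun i hi => ?_
  have hi' := Finset.mem_range.1 hi
  obtain ⟨l, hl⟩ : ∃ l, k - 1 - i = l := ⟨_, rfl⟩
  have h1 : k + 1 - 1 - i = l + 1 := by omega
  have h2 : i + 1 + l = k := by omega
  rw [h1, hl]
  have h3 : (opp a b (i + 1) (l + 1)).1 = C (b (i + 1 + l)) * (opp a b (i + 1) l).2 := rfl
  rw [h3, h2, map_mul, aeval_C, Algebra.algebraMap_eq_smul_one, smul_mul_assoc, one_mul,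
    _root_.smul_apply, real_inner_smul_left]
  ring

theorem self_zero (hC : Chain A H K q dq a b da db) (k : ℕ) (hk : k ≤ K) : ⟪q k, dq k⟫ = 0 := by
  have h := hC.don k hk k hk
  rw [real_inner_comm] at h
  linarith

theorem orth (hC : Chain A H K q dq a b da db) {i j : ℕ} (hi : i ≤ K) (hj : j ≤ K) (hij : i ≠ j) :
    ⟪q i, q j⟫ = 0 := by
  rw [hC.on i hi j hj, if_neg hij]

theorem unit (hC : Chain A H K q dq a b da db) {i : ℕ} (hi : i ≤ K) : ⟪q i, q i⟫ = 1 := by
  rw [hC.on i hi i hi, if_pos rfl]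

end GRBM

open GRBM in
theorem specGRB (hVCN : SpecVCN) : SpecGRB := by
  intro E _ _ A H K q dq a b da db hC k hk
  rcases Nat.eq_zero_or_pos k with h0 | hpos
  · subst h0
    rw [Finset.range_zero, Finset.sum_empty, add_zero]
    have h1 := congrArg (fun x => ⟪q 1, x⟫) (hC.dj0 (by omega))
    simp only [inner_add_right, real_inner_smul_right, hC.dq0, map_zero, inner_zero_right] at h1
    rw [unit hC (by omega), orth hC (by omega) (by omega) (by omega : (1:ℕ) ≠ 0),
      self_zero hC 1 (by omega)] at h1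
    show db 0 = ⟪q 1, H (q 0)⟫
    linarith
  · obtain ⟨m, rfl⟩ : ∃ m, k = m + 1 := ⟨k - 1, by omega⟩
    have h1 := congrArg (fun x => ⟪q (m + 2), x⟫) (hC.dj m (by omega))
    simp only [inner_add_right, real_inner_smul_right] at h1
    have h2 : ⟪q (m + 2), A (dq (m + 1))⟫ = b (m + 1) * ⟪q (m + 1), dq (m + 1)⟫ +
        a (m + 2) * ⟪q (m + 2), dq (m + 1)⟫ + b (m + 2) * ⟪q (m + 3), dq (m + 1)⟫ := by
      rw [← hC.symA, hC.jr (m + 1) (by omega)]
      simp only [inner_add_left, real_inner_smul_left]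
    rw [h2, self_zero hC (m + 1) (by omega), self_zero hC (m + 2) (by omega),
      unit hC (by omega : m + 2 ≤ K),
      orth hC (by omega) (by omega) (by omega : m + 2 ≠ m),
      orth hC (by omega) (by omega) (by omega : m + 2 ≠ m + 1)] at h1
    have h3 := sum_fst hVCN hC m (by omega) (q (m + 2)) (fun i hi =>
      orth hC (by omega) (by omega) (by omega))
    have h4 := hVCN E A H K q dq a b da db hC (m + 1) (by omega) (q (m + 2)) (fun i hi =>
      orth hC (by omega) (by omega) (by omega))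
    have h4' := hVCN E A H K q dq a b da db hC (m + 1) (by omega) (q (m + 3)) (fun i hi =>
      orth hC (by omega) (by omega) (by omega))
    have h5 : ∑ i ∈ Finset.range (m + 1), (b i)⁻¹ *
        ⟪(a (m + 1 + 1) - a (m + 1)) • aeval A (opp a b (i + 1) (m + 1 - 1 - i)).2
            (q (m + 1 + 1)) +
          b (m + 1 + 1) • aeval A (opp a b (i + 1) (m + 1 - 1 - i)).2 (q (m + 1 + 2)) -
          aeval A (opp a b (i + 1) (m + 1 - 1 - i)).1 (q (m + 1 + 1)), H (q i)⟫ =
        (a (m + 2) - a (m + 1)) * ∑ i ∈ Finset.range (m + 1), (b i)⁻¹ *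
          ⟪aeval A (opp a b (i + 1) (m + 1 - 1 - i)).2 (q (m + 2)), H (q i)⟫ +
        b (m + 2) * ∑ i ∈ Finset.range (m + 1), (b i)⁻¹ *
          ⟪aeval A (opp a b (i + 1) (m + 1 - 1 - i)).2 (q (m + 3)), H (q i)⟫ -
        ∑ i ∈ Finset.range (m + 1), (b i)⁻¹ *
          ⟪aeval A (opp a b (i + 1) (m + 1 - 1 - i)).1 (q (m + 2)), H (q i)⟫ := by
      rw [Finset.mul_sum, Finset.mul_sum, ← Finset.sum_add_distrib, ← Finset.sum_sub_distrib]
      refine Finset.sum_congr rfl fun i _ => ?_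
      rw [inner_sub_left, inner_add_left, real_inner_smul_left, real_inner_smul_left]
      ring
    rw [h5, ← h4, ← h4', h3]
    show db (m + 1) = ⟪q (m + 2), H (q (m + 1))⟫ + _
    linarith

end Pool.Agent.Lib.MP17fa2c
end

section
/-!
# MP_17fa2c_pr, block T, module LMX: norm of a Jacobi matrix with small partial sums
-/
set_option autoImplicit false

open Finset

namespace Pool.Agent.Lib.MP17fa2c

namespace LMXM

/-- Abel summation. -/
theorem abel (a g : ℕ → ℝ) (K : ℕ) :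
    ∑ l ∈ range (K + 1), a l * g l =
      (∑ i ∈ range (K + 1), a i) * g K -
        ∑ l ∈ range K, (∑ i ∈ range (l + 1), a i) * (g (l + 1) - g l) := by
  induction K with
  | zero => simp
  | succ K ih =>
    rw [Finset.sum_range_succ, ih, Finset.sum_range_succ (fun l => a l) (K + 1),
      Finset.sum_range_succ (fun l => (∑ i ∈ range (l + 1), a i) * (g (l + 1) - g l)) K]
    ring

theorem abel_le (a g : ℕ → ℝ) (K : ℕ) (ω : ℝ)
    (h : ∀ l ≤ K + 1, |∑ i ∈ range l, a i| ≤ ω) :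
    ∑ l ∈ range (K + 1), a l * g l ≤ ω * |g K| + ∑ l ∈ range K, ω * |g (l + 1) - g l| := by
  rw [abel]
  have h1 : (∑ i ∈ range (K + 1), a i) * g K ≤ ω * |g K| := by
    calc (∑ i ∈ range (K + 1), a i) * g K ≤ |(∑ i ∈ range (K + 1), a i) * g K| := le_abs_self _
      _ = |∑ i ∈ range (K + 1), a i| * |g K| := abs_mul _ _
      _ ≤ ω * |g K| := mul_le_mul_of_nonneg_right (h _ le_rfl) (abs_nonneg _)
  have h2 : -∑ l ∈ range K, (∑ i ∈ range (l + 1), a i) * (g (l + 1) - g l) ≤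
      ∑ l ∈ range K, ω * |g (l + 1) - g l| := by
    rw [← Finset.sum_neg_distrib]
    refine Finset.sum_le_sum fun l hl => ?_
    rw [Finset.mem_range] at hl
    calc -((∑ i ∈ range (l + 1), a i) * (g (l + 1) - g l))
        ≤ |(∑ i ∈ range (l + 1), a i) * (g (l + 1) - g l)| := neg_le_abs _
      _ = |∑ i ∈ range (l + 1), a i| * |g (l + 1) - g l| := abs_mul _ _
      _ ≤ ω * |g (l + 1) - g l| :=
        mul_le_mul_of_nonneg_right (h _ (by omega)) (abs_nonneg _)
  linarith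

theorem amgm (ω c u v : ℝ) (hc : 0 < c) (hω : 0 < ω) :
    ω * |u * v| ≤ u ^ 2 / (4 * c) + c * ω ^ 2 * v ^ 2 := by
  rw [abs_mul]
  have h1 : 0 ≤ (|u| - 2 * c * ω * |v|) ^ 2 := sq_nonneg _
  have h2 : |u| ^ 2 = u ^ 2 := sq_abs u
  have h3 : |v| ^ 2 = v ^ 2 := sq_abs v
  rw [← h2, ← h3, ← sub_nonneg]
  have h4 : |u| ^ 2 / (4 * c) + c * ω ^ 2 * |v| ^ 2 - ω * (|u| * |v|) =
      (|u| - 2 * c * ω * |v|) ^ 2 / (4 * c) := by
    field_simp
    ring
  rw [h4]
  positivity

/-- The upper bound. -/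
theorem upper (α B : ℕ → ℝ) (N : ℕ) (ω : ℝ) (hE : EdgeData α B N ω) (x : ℕ → ℝ) :
    ∑ l ∈ range N, α l * x l ^ 2 + 2 * ∑ l ∈ range (N - 1), B l * (x l * x (l + 1)) ≤
      (2 + 100 * ω ^ 2) * ∑ l ∈ range N, x l ^ 2 := by
  have hω := hE.pos
  match N, hE with
  | 0, _ => simp
  | 1, hE =>
    have h := (abs_le.1 (hE.sumα 1 le_rfl)).2
    simp only [Finset.sum_range_one, Nat.sub_self, Finset.sum_range_zero, mul_zero, add_zero] at h ⊢
    apply mul_le_mul_of_nonneg_right _ (sq_nonneg _)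
    nlinarith [sq_nonneg (ω - 1)]
  | K + 2, hE =>
    rw [show K + 2 - 1 = K + 1 from rfl]
    -- notation
    obtain ⟨d, hd⟩ : ∃ d : ℕ → ℝ, ∀ l, d l = x (l + 1) - x l := ⟨_, fun _ => rfl⟩
    obtain ⟨Sa, hSa⟩ : ∃ Sa : ℝ, Sa = ∑ l ∈ range (K + 1), x l ^ 2 := ⟨_, rfl⟩
    obtain ⟨Sb, hSb⟩ : ∃ Sb : ℝ, Sb = ∑ l ∈ range (K + 1), x (l + 1) ^ 2 := ⟨_, rfl⟩
    obtain ⟨D, hD⟩ : ∃ D : ℝ, D = ∑ l ∈ range (K + 1), d l ^ 2 := ⟨_, rfl⟩
    obtain ⟨X, hX⟩ : ∃ X : ℝ, X = x (K + 1) ^ 2 := ⟨_, rfl⟩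
    obtain ⟨S, hS⟩ : ∃ S : ℝ, S = ∑ l ∈ range (K + 2), x l ^ 2 := ⟨_, rfl⟩
    have hX0 : 0 ≤ X := hX ▸ sq_nonneg _
    have hD0 : 0 ≤ D := hD ▸ Finset.sum_nonneg fun l _ => sq_nonneg _
    have hSa0 : 0 ≤ Sa := hSa ▸ Finset.sum_nonneg fun l _ => sq_nonneg _
    have hSb0 : 0 ≤ Sb := hSb ▸ Finset.sum_nonneg fun l _ => sq_nonneg _
    have hSX : S = Sa + X := by rw [hS, hSa, hX, Finset.sum_range_succ]
    have hSx : S = Sb + x 0 ^ 2 := by rw [hS, hSb, Finset.sum_range_succ']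
    -- (1)
    have h1 : ∑ l ∈ range (K + 2), α l * x l ^ 2 ≤ ω * X + (D / 8 + 4 * ω ^ 2 * (Sa + Sb)) := by
      have h := abel_le α (fun l => x l ^ 2) (K + 1) ω hE.sumα
      refine h.trans ?_
      have e : ω * |x (K + 1) ^ 2| = ω * X := by rw [abs_of_nonneg (sq_nonneg _), hX]
      rw [e]
      have e2 : D / 8 + 4 * ω ^ 2 * (Sa + Sb) =
          ∑ l ∈ range (K + 1), (d l ^ 2 / 8 + 4 * ω ^ 2 * (x l ^ 2 + x (l + 1) ^ 2)) := by
        rw [Finset.sum_add_distrib, ← Finset.sum_div, ← Finset.mul_sum, Finset.sum_add_distrib,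
          hD, hSa, hSb]
      rw [e2]
      gcongr with l _
      have h2 := amgm ω 2 (d l) (x (l + 1) + x l) (by norm_num) hω
      have e3 : d l * (x (l + 1) + x l) = x (l + 1) ^ 2 - x l ^ 2 := by rw [hd]; ring
      rw [e3] at h2
      have h3 : (x (l + 1) + x l) ^ 2 ≤ 2 * (x l ^ 2 + x (l + 1) ^ 2) := by
        nlinarith [sq_nonneg (x (l + 1) - x l)]
      have h4 := mul_le_mul_of_nonneg_left h3 (show 0 ≤ 2 * ω ^ 2 by positivity)
      norm_num at h2
      linarith
    -- (2)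
    have h2 : ∑ l ∈ range (K + 1), (B l ^ 2 - 1) * (x l * x (l + 1)) ≤
        ω * X + 4 * ω ^ 2 * X + D / 16 + (D / 4 + 4 * ω ^ 2 * S) := by
      have h := abel_le (fun l => B l ^ 2 - 1) (fun l => x l * x (l + 1)) K ω
        (fun l hl => hE.sumB l (by omega))
      refine h.trans ?_
      have h3 : ω * |x K * x (K + 1)| ≤ ω * X + 4 * ω ^ 2 * X + D / 16 := by
        have h4 := amgm ω 4 (d K) (x (K + 1)) (by norm_num) hω
        have h5 : |x K * x (K + 1)| ≤ X + |d K * x (K + 1)| := by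
          have e : x K * x (K + 1) = X - d K * x (K + 1) := by rw [hX, hd]; ring
          rw [e]
          calc |X - d K * x (K + 1)| ≤ |X| + |d K * x (K + 1)| := abs_sub _ _
            _ = X + |d K * x (K + 1)| := by rw [abs_of_nonneg hX0]
        have h6 := mul_le_mul_of_nonneg_left h5 hω.le
        have h7 : d K ^ 2 ≤ D := by
          rw [hD]
          exact Finset.single_le_sum (f := fun l => d l ^ 2) (fun l _ => sq_nonneg _)
            (Finset.mem_range.2 (Nat.lt_succ_self K))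
        rw [← hX] at h4
        have e16 : (4:ℝ) * 4 = 16 := by norm_num
        rw [e16] at h4
        linarith
      have h4 : ∑ l ∈ range K, ω * |x (l + 1) * x (l + 1 + 1) - x l * x (l + 1)| ≤
          D / 4 + 4 * ω ^ 2 * S := by
        have h5 : ∑ l ∈ range K, ω * |x (l + 1) * x (l + 1 + 1) - x l * x (l + 1)| ≤
            ∑ l ∈ range K, ((d l ^ 2 / 8 + d (l + 1) ^ 2 / 8) + 4 * ω ^ 2 * x (l + 1) ^ 2) := by
          gcongr with l _
          have h6 := amgm ω 4 (d l + d (l + 1)) (x (l + 1)) (by norm_num) hω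
          have e : (d l + d (l + 1)) * x (l + 1) = x (l + 1) * x (l + 1 + 1) - x l * x (l + 1) := by
            rw [hd, hd]; ring
          rw [e] at h6
          have h7 : (d l + d (l + 1)) ^ 2 ≤ 2 * (d l ^ 2 + d (l + 1) ^ 2) := by
            nlinarith [sq_nonneg (d l - d (l + 1))]
          norm_num at h6
          linarith
        refine h5.trans ?_
        rw [Finset.sum_add_distrib, Finset.sum_add_distrib, ← Finset.sum_div, ← Finset.sum_div,
          ← Finset.mul_sum]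
        have h6 : ∑ l ∈ range K, d l ^ 2 ≤ D := by
          rw [hD, Finset.sum_range_succ]
          linarith [sq_nonneg (d K)]
        have h7 : ∑ l ∈ range K, d (l + 1) ^ 2 ≤ D := by
          rw [hD, Finset.sum_range_succ']
          linarith [sq_nonneg (d 0)]
        have h8 : ∑ l ∈ range K, x (l + 1) ^ 2 ≤ S := by
          rw [hS, Finset.sum_range_succ, Finset.sum_range_succ']
          linarith [sq_nonneg (x (K + 1)), sq_nonneg (x 0)]
        have h9 := mul_le_mul_of_nonneg_left h8 (show 0 ≤ 4 * ω ^ 2 by positivity)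
        linarith
      linarith
    -- (3)
    have h3 : -∑ l ∈ range (K + 1), (B l - 1) ^ 2 * (x l * x (l + 1)) ≤
        2 * ω ^ 2 * (Sa + Sb) := by
      have e : 2 * ω ^ 2 * (Sa + Sb) =
          ∑ l ∈ range (K + 1), 2 * ω ^ 2 * (x l ^ 2 + x (l + 1) ^ 2) := by
        rw [← Finset.mul_sum, Finset.sum_add_distrib, hSa, hSb]
      rw [e, ← Finset.sum_neg_distrib]
      refine Finset.sum_le_sum fun l hl => ?_
      rw [Finset.mem_range] at hl
      have hB := hE.B_pos l (by omega)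
      have hz : |B l ^ 2 - 1| ≤ 2 * ω := by
        have h4 := hE.sumB (l + 1) (by omega)
        have h5 := hE.sumB l (by omega)
        rw [Finset.sum_range_succ] at h4
        rw [abs_le] at h4 h5 ⊢
        constructor <;> linarith [h4.1, h4.2, h5.1, h5.2]
      have h4 : (B l - 1) ^ 2 ≤ 4 * ω ^ 2 := by
        have h5 : |B l - 1| ≤ |B l ^ 2 - 1| := by
          have e5 : B l ^ 2 - 1 = (B l - 1) * (B l + 1) := by ring
          rw [e5, abs_mul, abs_of_pos (show 0 < B l + 1 by linarith)]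
          nlinarith [abs_nonneg (B l - 1)]
        have h6 : |B l - 1| ≤ 2 * ω := h5.trans hz
        rw [← sq_abs]
        nlinarith [abs_nonneg (B l - 1)]
      have h5 : -(x l * x (l + 1)) ≤ (x l ^ 2 + x (l + 1) ^ 2) / 2 := by
        nlinarith [sq_nonneg (x l + x (l + 1))]
      have h6 : 0 ≤ (x l ^ 2 + x (l + 1) ^ 2) / 2 := by positivity
      calc -((B l - 1) ^ 2 * (x l * x (l + 1))) = (B l - 1) ^ 2 * -(x l * x (l + 1)) := by ring
        _ ≤ (B l - 1) ^ 2 * ((x l ^ 2 + x (l + 1) ^ 2) / 2) :=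
          mul_le_mul_of_nonneg_left h5 (sq_nonneg _)
        _ ≤ 4 * ω ^ 2 * ((x l ^ 2 + x (l + 1) ^ 2) / 2) := mul_le_mul_of_nonneg_right h4 h6
        _ = 2 * ω ^ 2 * (x l ^ 2 + x (l + 1) ^ 2) := by ring
    -- (4)
    have h4 : ∑ l ∈ range (K + 1), 2 * (x l * x (l + 1)) = Sa + Sb - D := by
      rw [hSa, hSb, hD, ← Finset.sum_add_distrib, ← Finset.sum_sub_distrib]
      refine Finset.sum_congr rfl fun l _ => ?_
      rw [hd]
      ring
    have h5 : 2 * ∑ l ∈ range (K + 1), B l * (x l * x (l + 1)) =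
        ∑ l ∈ range (K + 1), 2 * (x l * x (l + 1)) +
        ∑ l ∈ range (K + 1), (B l ^ 2 - 1) * (x l * x (l + 1)) -
        ∑ l ∈ range (K + 1), (B l - 1) ^ 2 * (x l * x (l + 1)) := by
      rw [Finset.mul_sum, ← Finset.sum_add_distrib, ← Finset.sum_sub_distrib]
      refine Finset.sum_congr rfl fun l _ => ?_
      ring
    rw [h5, h4, ← hS]
    have hS0 : 0 ≤ S := by rw [hSX]; linarith
    have hSb1 : Sb ≤ S := by rw [hSx]; linarith [sq_nonneg (x 0)]
    have hXS : X ≤ S := by rw [hSX]; linarith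
    have hSa1 : Sa = S - X := by linarith
    have h6 : (2 * ω - 1) * X ≤ 4 * ω ^ 2 * S := by
      have h7 : (2 * ω - 1) * X ≤ 4 * ω ^ 2 * X := by
        apply mul_le_mul_of_nonneg_right _ hX0
        nlinarith [sq_nonneg (2 * ω - 1)]
      have h8 : 4 * ω ^ 2 * X ≤ 4 * ω ^ 2 * S := mul_le_mul_of_nonneg_left hXS (by positivity)
      linarith
    have h7 : 6 * ω ^ 2 * (Sa + Sb) ≤ 12 * ω ^ 2 * S := by
      have : Sa + Sb ≤ 2 * S := by linarith
      nlinarith [mul_le_mul_of_nonneg_left this (show 0 ≤ 6 * ω ^ 2 by positivity)]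
    have h8 : 4 * ω ^ 2 * X ≤ 4 * ω ^ 2 * S := mul_le_mul_of_nonneg_left hXS (by positivity)
    have h9 : 0 ≤ ω ^ 2 * S := by positivity
    nlinarith

end LMXM

theorem specLMX : SpecLMX := by
  intro α B N ω hE x
  rw [abs_le]
  constructor
  · have hE' : EdgeData (fun l => -α l) B N ω :=
      ⟨hE.pos, hE.B_pos, fun l hl => by
        rw [Finset.sum_neg_distrib, abs_neg]
        exact hE.sumα l hl, hE.sumB⟩
    have h := LMXM.upper (fun l => -α l) B N ω hE' (fun l => (-1) ^ l * x l)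
    have e1 : ∀ l : ℕ, ((-1 : ℝ) ^ l * x l) ^ 2 = x l ^ 2 := by
      intro l
      rw [mul_pow, ← pow_mul, mul_comm l 2, pow_mul]
      norm_num
    have e2 : ∀ l : ℕ, ((-1 : ℝ) ^ l * x l) * ((-1) ^ (l + 1) * x (l + 1)) = -(x l * x (l + 1)) := by
      intro l
      have : ((-1 : ℝ) ^ l) ^ 2 = 1 := by
        rw [← pow_mul, mul_comm l 2, pow_mul]
        norm_num
      calc ((-1 : ℝ) ^ l * x l) * ((-1) ^ (l + 1) * x (l + 1))
          = -(((-1 : ℝ) ^ l) ^ 2 * (x l * x (l + 1))) := by ring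
        _ = -(x l * x (l + 1)) := by rw [this, one_mul]
    simp only [e1, e2, mul_neg, neg_mul, Finset.sum_neg_distrib] at h
    linarith
  · exact LMXM.upper α B N ω hE x

end Pool.Agent.Lib.MP17fa2c
end

section
/-!
# MP_17fa2c_pr, block K, module LMK: norm of a Jacobi matrix, multi-scale version
-/
set_option autoImplicit false

open Finset

namespace Pool.Agent.Lib.MP17fa2c

namespace LMKM

/-- A sequence with small sums over intervals of length `≤ max 1 (1/κ)` is a sequence with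
partial sums at most `κ` plus a sequence bounded by `2 κ²` (moving averages). -/
theorem decomp (a : ℕ → ℝ) (N : ℕ) (κ : ℝ) (hκ : 0 < κ)
    (h : ∀ i j, i ≤ j → j ≤ N → (j : ℝ) - i ≤ max 1 (1 / κ) → |∑ l ∈ Finset.Ico i j, a l| ≤ κ) :
    ∃ c r : ℕ → ℝ, (∀ l, a l = c l + r l) ∧ (∀ l ≤ N, |∑ i ∈ range l, c i| ≤ κ) ∧
      ∀ l < N, |r l| ≤ 2 * κ ^ 2 := by
  obtain ⟨L, hL⟩ : ∃ L : ℕ, L = max 1 ⌊1 / κ⌋₊ := ⟨_, rfl⟩
  have hL1 : 1 ≤ L := hL ▸ le_max_left _ _
  have hL1' : (1 : ℝ) ≤ L := by exact_mod_cast hL1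
  have hLle : (L : ℝ) ≤ max 1 (1 / κ) := by
    rw [hL, Nat.cast_max, Nat.cast_one]
    exact max_le_max le_rfl (Nat.floor_le (by positivity))
  have hL2 : 1 / κ ≤ 2 * L := by
    have h1 : (⌊1 / κ⌋₊ : ℝ) ≤ L := by
      rw [hL]
      exact_mod_cast le_max_right _ _
    have h2 := Nat.lt_floor_add_one (1 / κ)
    linarith
  have hLκ : κ / L ≤ 2 * κ ^ 2 := by
    rw [div_le_iff₀ (by linarith)]
    rw [div_le_iff₀ hκ] at hL2
    nlinarith
  obtain ⟨P, hP⟩ : ∃ P : ℕ → ℝ, ∀ l, P l = ∑ i ∈ range l, a i := ⟨_, fun _ => rfl⟩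
  have hPd : ∀ i j, i ≤ j → ∑ l ∈ Finset.Ico i j, a l = P j - P i := by
    intro i j hij
    rw [hP, hP, Finset.sum_Ico_eq_sub _ hij]
  -- differences
  have hPk : ∀ l ≤ N, ∀ j ≤ L, |P l - P (l - j)| ≤ κ := by
    intro l hl j hj
    rw [← hPd _ _ (Nat.sub_le l j)]
    refine h _ _ (Nat.sub_le l j) hl ?_
    refine le_trans ?_ hLle
    have h1 : l ≤ (l - j) + j := by omega
    have h2 : (l : ℝ) ≤ ((l - j : ℕ) : ℝ) + j := by exact_mod_cast h1
    have h3 : (j : ℝ) ≤ L := by exact_mod_cast hj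
    linarith
  have hW : ∀ l, ∑ i ∈ range l, (a i - (P (i + 1) - P (i + 1 - L)) / L) =
      (∑ j ∈ range L, (P l - P (l - j))) / L := by
    intro l
    induction l with
    | zero => simp
    | succ l ih =>
      rw [Finset.sum_range_succ, ih]
      have h1 : ∑ j ∈ range L, (P (l + 1 - j) - P (l - j)) = P (l + 1) - P (l + 1 - L) := by
        have h2 := Finset.sum_range_sub' (fun j => P (l + 1 - j)) L
        simp only [Nat.sub_zero] at h2
        rw [← h2]
        refine Finset.sum_congr rfl fun j _ => ?_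
        rw [show l + 1 - (j + 1) = l - j by omega]
      have h3 : ∑ j ∈ range L, (P (l + 1) - P (l + 1 - j)) =
          ∑ j ∈ range L, (P l - P (l - j)) + L * a l -
            ∑ j ∈ range L, (P (l + 1 - j) - P (l - j)) := by
        have h4 : (L : ℝ) * a l = ∑ j ∈ range L, a l := by simp
        rw [h4, ← Finset.sum_add_distrib, ← Finset.sum_sub_distrib]
        refine Finset.sum_congr rfl fun j _ => ?_
        have h5 : P (l + 1) = P l + a l := by rw [hP, hP, Finset.sum_range_succ]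
        rw [h5]
        ring
      rw [h3, h1]
      have h6 : (L : ℝ) ≠ 0 := by positivity
      field_simp
      ring
  refine ⟨fun l => a l - (P (l + 1) - P (l + 1 - L)) / L,
    fun l => (P (l + 1) - P (l + 1 - L)) / L, fun l => by ring, ?_, ?_⟩
  · intro l hl
    rw [hW, abs_div, Nat.abs_cast, div_le_iff₀ (by linarith)]
    calc |∑ j ∈ range L, (P l - P (l - j))| ≤ ∑ j ∈ range L, |P l - P (l - j)| :=
          Finset.abs_sum_le_sum_abs _ _
      _ ≤ ∑ j ∈ range L, κ :=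
          Finset.sum_le_sum fun j hj => hPk l hl j (Finset.mem_range.1 hj).le
      _ = κ * L := by simp; ring
  · intro l hl
    show |(P (l + 1) - P (l + 1 - L)) / L| ≤ 2 * κ ^ 2
    rw [abs_div, Nat.abs_cast]
    refine le_trans ?_ hLκ
    gcongr
    exact hPk (l + 1) hl L le_rfl

/-- The upper bound. -/
theorem upper (α B : ℕ → ℝ) (N : ℕ) (κ : ℝ) (hE : EdgeK α B N κ) (x : ℕ → ℝ) :
    ∑ l ∈ range N, α l * x l ^ 2 + 2 * ∑ l ∈ range (N - 1), B l * (x l * x (l + 1)) ≤
      (2 + 1000 * κ ^ 2) * ∑ l ∈ range N, x l ^ 2 := by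
  have hκ := hE.pos
  obtain ⟨c, r, hcr, hc, hr⟩ := decomp α N κ hκ hE.sumα
  obtain ⟨z, s, hzs, hz, hs⟩ := decomp (fun l => B l ^ 2 - 1) N κ hκ hE.sumB
  have hone : ∀ l < N, |α l| ≤ κ ∧ |B l ^ 2 - 1| ≤ κ := by
    intro l hl
    have h1 := hE.sumα l (l + 1) (Nat.le_succ l) hl
      (by push_cast; rw [add_sub_cancel_left]; exact le_max_left _ _)
    have h2 := hE.sumB l (l + 1) (Nat.le_succ l) hl
      (by push_cast; rw [add_sub_cancel_left]; exact le_max_left _ _)
    simp only [Nat.Ico_succ_singleton, Finset.sum_singleton] at h1 h2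
    exact ⟨h1, h2⟩
  match N, hE, hc, hr, hz, hs, hone with
  | 0, _, _, _, _, _, _ => simp
  | 1, hE, _, _, _, _, hone =>
    have h := (abs_le.1 (hone 0 (by norm_num)).1).2
    simp only [Finset.sum_range_one, Nat.sub_self, Finset.sum_range_zero, mul_zero, add_zero] at h ⊢
    apply mul_le_mul_of_nonneg_right _ (sq_nonneg _)
    nlinarith [sq_nonneg (κ - 1)]
  | K + 2, hE, hc, hr, hz, hs, hone =>
    rw [show K + 2 - 1 = K + 1 from rfl]
    -- notation
    obtain ⟨d, hd⟩ : ∃ d : ℕ → ℝ, ∀ l, d l = x (l + 1) - x l := ⟨_, fun _ => rfl⟩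
    obtain ⟨Sa, hSa⟩ : ∃ Sa : ℝ, Sa = ∑ l ∈ range (K + 1), x l ^ 2 := ⟨_, rfl⟩
    obtain ⟨Sb, hSb⟩ : ∃ Sb : ℝ, Sb = ∑ l ∈ range (K + 1), x (l + 1) ^ 2 := ⟨_, rfl⟩
    obtain ⟨D, hD⟩ : ∃ D : ℝ, D = ∑ l ∈ range (K + 1), d l ^ 2 := ⟨_, rfl⟩
    obtain ⟨X, hX⟩ : ∃ X : ℝ, X = x (K + 1) ^ 2 := ⟨_, rfl⟩
    obtain ⟨S, hS⟩ : ∃ S : ℝ, S = ∑ l ∈ range (K + 2), x l ^ 2 := ⟨_, rfl⟩
    have hX0 : 0 ≤ X := hX ▸ sq_nonneg _
    have hD0 : 0 ≤ D := hD ▸ Finset.sum_nonneg fun l _ => sq_nonneg _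
    have hSa0 : 0 ≤ Sa := hSa ▸ Finset.sum_nonneg fun l _ => sq_nonneg _
    have hSb0 : 0 ≤ Sb := hSb ▸ Finset.sum_nonneg fun l _ => sq_nonneg _
    have hSX : S = Sa + X := by rw [hS, hSa, hX, Finset.sum_range_succ]
    have hSx : S = Sb + x 0 ^ 2 := by rw [hS, hSb, Finset.sum_range_succ']
    have hpair : ∀ (g : ℕ → ℝ) (q : ℝ), (∀ l < K + 1, |g l| ≤ q) →
        |∑ l ∈ range (K + 1), g l * (x l * x (l + 1))| ≤ q / 2 * (Sa + Sb) := by
      intro g q hg
      have e : q / 2 * (Sa + Sb) = ∑ l ∈ range (K + 1), q / 2 * (x l ^ 2 + x (l + 1) ^ 2) := by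
        rw [← Finset.mul_sum, Finset.sum_add_distrib, hSa, hSb]
      rw [e]
      refine (Finset.abs_sum_le_sum_abs _ _).trans (Finset.sum_le_sum fun l hl => ?_)
      rw [Finset.mem_range] at hl
      rw [abs_mul]
      have h5 : |x l * x (l + 1)| ≤ (x l ^ 2 + x (l + 1) ^ 2) / 2 := by
        rw [abs_le]
        constructor <;> nlinarith [sq_nonneg (x l + x (l + 1)), sq_nonneg (x l - x (l + 1))]
      calc |g l| * |x l * x (l + 1)| ≤ q * ((x l ^ 2 + x (l + 1) ^ 2) / 2) :=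
            mul_le_mul (hg l hl) h5 (abs_nonneg _) ((abs_nonneg _).trans (hg l hl))
        _ = q / 2 * (x l ^ 2 + x (l + 1) ^ 2) := by ring
    -- (1)
    have h1 : ∑ l ∈ range (K + 2), c l * x l ^ 2 ≤ κ * X + (D / 8 + 4 * κ ^ 2 * (Sa + Sb)) := by
      have h := LMXM.abel_le c (fun l => x l ^ 2) (K + 1) κ hc
      refine h.trans ?_
      have e : κ * |x (K + 1) ^ 2| = κ * X := by rw [abs_of_nonneg (sq_nonneg _), hX]
      rw [e]
      have e2 : D / 8 + 4 * κ ^ 2 * (Sa + Sb) =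
          ∑ l ∈ range (K + 1), (d l ^ 2 / 8 + 4 * κ ^ 2 * (x l ^ 2 + x (l + 1) ^ 2)) := by
        rw [Finset.sum_add_distrib, ← Finset.sum_div, ← Finset.mul_sum, Finset.sum_add_distrib,
          hD, hSa, hSb]
      rw [e2]
      gcongr with l _
      have h2 := LMXM.amgm κ 2 (d l) (x (l + 1) + x l) (by norm_num) hκ
      have e3 : d l * (x (l + 1) + x l) = x (l + 1) ^ 2 - x l ^ 2 := by rw [hd]; ring
      rw [e3] at h2
      have h3 : (x (l + 1) + x l) ^ 2 ≤ 2 * (x l ^ 2 + x (l + 1) ^ 2) := by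
        nlinarith [sq_nonneg (x (l + 1) - x l)]
      have h4 := mul_le_mul_of_nonneg_left h3 (show 0 ≤ 2 * κ ^ 2 by positivity)
      norm_num at h2
      linarith
    have h1' : ∑ l ∈ range (K + 2), r l * x l ^ 2 ≤ 2 * κ ^ 2 * S := by
      rw [hS, Finset.mul_sum]
      refine Finset.sum_le_sum fun l hl => ?_
      rw [Finset.mem_range] at hl
      exact mul_le_mul_of_nonneg_right ((le_abs_self _).trans (hr l hl)) (sq_nonneg _)
    have h1'' : ∑ l ∈ range (K + 2), α l * x l ^ 2 =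
        ∑ l ∈ range (K + 2), c l * x l ^ 2 + ∑ l ∈ range (K + 2), r l * x l ^ 2 := by
      rw [← Finset.sum_add_distrib]
      refine Finset.sum_congr rfl fun l _ => ?_
      rw [hcr]
      ring
    -- (2)
    have h2 : ∑ l ∈ range (K + 1), z l * (x l * x (l + 1)) ≤
        κ * X + 4 * κ ^ 2 * X + D / 16 + (D / 4 + 4 * κ ^ 2 * S) := by
      have h := LMXM.abel_le z (fun l => x l * x (l + 1)) K κ
        (fun l hl => hz l (by omega))
      refine h.trans ?_
      have h3 : κ * |x K * x (K + 1)| ≤ κ * X + 4 * κ ^ 2 * X + D / 16 := by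
        have h4 := LMXM.amgm κ 4 (d K) (x (K + 1)) (by norm_num) hκ
        have h5 : |x K * x (K + 1)| ≤ X + |d K * x (K + 1)| := by
          have e : x K * x (K + 1) = X - d K * x (K + 1) := by rw [hX, hd]; ring
          rw [e]
          calc |X - d K * x (K + 1)| ≤ |X| + |d K * x (K + 1)| := abs_sub _ _
            _ = X + |d K * x (K + 1)| := by rw [abs_of_nonneg hX0]
        have h6 := mul_le_mul_of_nonneg_left h5 hκ.le
        have h7 : d K ^ 2 ≤ D := by
          rw [hD]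
          exact Finset.single_le_sum (f := fun l => d l ^ 2) (fun l _ => sq_nonneg _)
            (Finset.mem_range.2 (Nat.lt_succ_self K))
        rw [← hX] at h4
        have e16 : (4:ℝ) * 4 = 16 := by norm_num
        rw [e16] at h4
        linarith
      have h4 : ∑ l ∈ range K, κ * |x (l + 1) * x (l + 1 + 1) - x l * x (l + 1)| ≤
          D / 4 + 4 * κ ^ 2 * S := by
        have h5 : ∑ l ∈ range K, κ * |x (l + 1) * x (l + 1 + 1) - x l * x (l + 1)| ≤
            ∑ l ∈ range K, ((d l ^ 2 / 8 + d (l + 1) ^ 2 / 8) + 4 * κ ^ 2 * x (l + 1) ^ 2) := by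
          gcongr with l _
          have h6 := LMXM.amgm κ 4 (d l + d (l + 1)) (x (l + 1)) (by norm_num) hκ
          have e : (d l + d (l + 1)) * x (l + 1) = x (l + 1) * x (l + 1 + 1) - x l * x (l + 1) := by
            rw [hd, hd]; ring
          rw [e] at h6
          have h7 : (d l + d (l + 1)) ^ 2 ≤ 2 * (d l ^ 2 + d (l + 1) ^ 2) := by
            nlinarith [sq_nonneg (d l - d (l + 1))]
          norm_num at h6
          linarith
        refine h5.trans ?_
        rw [Finset.sum_add_distrib, Finset.sum_add_distrib, ← Finset.sum_div, ← Finset.sum_div,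
          ← Finset.mul_sum]
        have h6 : ∑ l ∈ range K, d l ^ 2 ≤ D := by
          rw [hD, Finset.sum_range_succ]
          linarith [sq_nonneg (d K)]
        have h7 : ∑ l ∈ range K, d (l + 1) ^ 2 ≤ D := by
          rw [hD, Finset.sum_range_succ']
          linarith [sq_nonneg (d 0)]
        have h8 : ∑ l ∈ range K, x (l + 1) ^ 2 ≤ S := by
          rw [hS, Finset.sum_range_succ, Finset.sum_range_succ']
          linarith [sq_nonneg (x (K + 1)), sq_nonneg (x 0)]
        have h9 := mul_le_mul_of_nonneg_left h8 (show 0 ≤ 4 * κ ^ 2 by positivity)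
        linarith
      linarith
    have h2' : ∑ l ∈ range (K + 1), s l * (x l * x (l + 1)) ≤ 2 * κ ^ 2 / 2 * (Sa + Sb) :=
      (le_abs_self _).trans (hpair s _ fun l hl => hs l (by omega))
    -- (3)
    have h3 : -∑ l ∈ range (K + 1), (B l - 1) ^ 2 * (x l * x (l + 1)) ≤
        κ ^ 2 / 2 * (Sa + Sb) := by
      refine (neg_le_abs _).trans (hpair (fun l => (B l - 1) ^ 2) _ fun l hl => ?_)
      have hB := hE.B_pos l (by omega)
      have hz := (hone l (by omega)).2
      have h5 : |B l - 1| ≤ |B l ^ 2 - 1| := by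
        have e5 : B l ^ 2 - 1 = (B l - 1) * (B l + 1) := by ring
        rw [e5, abs_mul, abs_of_pos (show 0 < B l + 1 by linarith)]
        nlinarith [abs_nonneg (B l - 1)]
      have h6 : |B l - 1| ≤ κ := h5.trans hz
      rw [abs_of_nonneg (sq_nonneg _), ← sq_abs]
      nlinarith [abs_nonneg (B l - 1)]
    -- (4)
    have h4 : ∑ l ∈ range (K + 1), 2 * (x l * x (l + 1)) = Sa + Sb - D := by
      rw [hSa, hSb, hD, ← Finset.sum_add_distrib, ← Finset.sum_sub_distrib]
      refine Finset.sum_congr rfl fun l _ => ?_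
      rw [hd]
      ring
    have h5 : 2 * ∑ l ∈ range (K + 1), B l * (x l * x (l + 1)) =
        ∑ l ∈ range (K + 1), 2 * (x l * x (l + 1)) +
        (∑ l ∈ range (K + 1), z l * (x l * x (l + 1)) +
          ∑ l ∈ range (K + 1), s l * (x l * x (l + 1))) -
        ∑ l ∈ range (K + 1), (B l - 1) ^ 2 * (x l * x (l + 1)) := by
      rw [Finset.mul_sum, ← Finset.sum_add_distrib, ← Finset.sum_add_distrib,
        ← Finset.sum_sub_distrib]
      refine Finset.sum_congr rfl fun l _ => ?_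
      have e : B l ^ 2 - 1 = z l + s l := hzs l
      rw [show z l = B l ^ 2 - 1 - s l by linarith]
      ring
    rw [h5, h4, h1'', ← hS]
    have hS0 : 0 ≤ S := by rw [hSX]; linarith
    have hSb1 : Sb ≤ S := by rw [hSx]; linarith [sq_nonneg (x 0)]
    have hXS : X ≤ S := by rw [hSX]; linarith
    have hSa1 : Sa = S - X := by linarith
    have hκS : 0 ≤ κ ^ 2 * S := by positivity
    have h6 : (2 * κ - 1) * X ≤ 4 * κ ^ 2 * S := by
      have h7 : (2 * κ - 1) * X ≤ 4 * κ ^ 2 * X := by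
        apply mul_le_mul_of_nonneg_right _ hX0
        nlinarith [sq_nonneg (2 * κ - 1)]
      have h8 : 4 * κ ^ 2 * X ≤ 4 * κ ^ 2 * S := mul_le_mul_of_nonneg_left hXS (by positivity)
      linarith
    have h7 : κ ^ 2 * (Sa + Sb) ≤ κ ^ 2 * (2 * S) :=
      mul_le_mul_of_nonneg_left (by linarith) (by positivity)
    have h8 : κ ^ 2 * X ≤ κ ^ 2 * S := mul_le_mul_of_nonneg_left hXS (by positivity)
    nlinarith

end LMKM

theorem specLMK : SpecLMK := by
  intro α B N κ hE x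
  rw [abs_le]
  constructor
  · have hE' : EdgeK (fun l => -α l) B N κ :=
      ⟨hE.pos, hE.B_pos, fun i j hij hj h => by
        rw [Finset.sum_neg_distrib, abs_neg]
        exact hE.sumα i j hij hj h, hE.sumB⟩
    have h := LMKM.upper (fun l => -α l) B N κ hE' (fun l => (-1) ^ l * x l)
    have e1 : ∀ l : ℕ, ((-1 : ℝ) ^ l * x l) ^ 2 = x l ^ 2 := by
      intro l
      rw [mul_pow, ← pow_mul, mul_comm l 2, pow_mul]
      norm_num
    have e2 : ∀ l : ℕ, ((-1 : ℝ) ^ l * x l) * ((-1) ^ (l + 1) * x (l + 1)) = -(x l * x (l + 1)) := by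
      intro l
      have : ((-1 : ℝ) ^ l) ^ 2 = 1 := by
        rw [← pow_mul, mul_comm l 2, pow_mul]
        norm_num
      calc ((-1 : ℝ) ^ l * x l) * ((-1) ^ (l + 1) * x (l + 1))
          = -(((-1 : ℝ) ^ l) ^ 2 * (x l * x (l + 1))) := by ring
        _ = -(x l * x (l + 1)) := by rw [this, one_mul]
    simp only [e1, e2, mul_neg, neg_mul, Finset.sum_neg_distrib] at h
    linarith
  · exact LMKM.upper α B N κ hE x

end Pool.Agent.Lib.MP17fa2c
end

section
/-!
# MP_17fa2c_pr, module NRK: norms of the gradient vectors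
-/
set_option autoImplicit false

open MeasureTheory ProbabilityTheory Filter Topology Polynomial
open scoped RealInnerProductSpace NNReal ENNReal

namespace Pool.Agent.Lib.MP17fa2c

namespace NRKM

lemma aev {E : Type} [NormedAddCommGroup E] [InnerProductSpace ℝ E]
    (T : E →L[ℝ] E) (c : ℝ) (x : E) : aeval T (C c) x = c • x := by
  rw [aeval_C, Algebra.algebraMap_eq_smul_one]
  rfl

/-- `ex` is monotone: block of length `N` starting at `i` inside `[0, M)`. -/
lemma ex_le (b : ℕ → ℝ) (κ : ℝ) (hκ : 0 ≤ κ) (i N M : ℕ) (h : i + N ≤ M) :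
    exK N κ (fun l => b (i + l)) ≤ exK M κ b := by
  unfold exK
  have h1 : (N : ℝ) * κ ≤ M * κ := by
    have : (N : ℝ) ≤ M := by exact_mod_cast (by omega : N ≤ M)
    exact mul_le_mul_of_nonneg_right this hκ
  have h2 : ∑ l ∈ Finset.range N, max 0 (-Real.log (2 * b (i + l))) ≤
      ∑ l ∈ Finset.range M, max 0 (-Real.log (2 * b l)) := by
    calc ∑ l ∈ Finset.range N, max 0 (-Real.log (2 * b (i + l)))
        = ∑ l ∈ Finset.Ico i (i + N), max 0 (-Real.log (2 * b l)) := by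
          rw [Finset.sum_Ico_eq_sum_range]
          simp
      _ ≤ _ := by
          apply Finset.sum_le_sum_of_subset_of_nonneg
          · intro l hl
            rw [Finset.mem_Ico] at hl
            exact Finset.mem_range.2 (by omega)
          · intro l _ _
            exact le_max_left _ _
  linarith

lemma ex_nonneg (b : ℕ → ℝ) (κ : ℝ) (hκ : 0 ≤ κ) (N : ℕ) : (N : ℝ) * κ ≤ exK N κ b ∧ 0 ≤ exK N κ b := by
  unfold exK
  have : 0 ≤ ∑ l ∈ Finset.range N, max 0 (-Real.log (2 * b l)) :=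
    Finset.sum_nonneg fun l _ => le_max_left _ _
  have h2 : (0 : ℝ) ≤ N * κ := mul_nonneg (Nat.cast_nonneg _) hκ
  exact ⟨by linarith, by linarith⟩

end NRKM

open NRKM

theorem specNRK (hBLK : SpecBLK) (hOPD : SpecOPD) (hSPB : SpecSPB) (hLMK : SpecLMK)
    (hEKG : SpecEKG) (hLO : SpecLO) : SpecNRK := by
  obtain ⟨C₀, hC₀, hE⟩ := hEKG
  refine ⟨2 * C₀ + 1, by linarith, ?_⟩
  intro E _ _ _ A u k κ hG i hik
  obtain ⟨m, hm⟩ : ∃ m, k = i + 1 + m := ⟨k - (i + 1), by omega⟩
  subst hm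
  -- block from `i+1`, length `N = 2 m + 3`, so `k = (i+1) + m`
  set N : ℕ := 2 * m + 3 with hN
  set j : ℕ := i + 1 with hj
  set a := av A u with ha
  set b := bv A u with hb
  have hbpos : ∀ l ≤ 2 * (j + m) + 2, 0 < b l := fun l hl =>
    lt_of_le_of_ne (norm_nonneg _) (Ne.symm (hG.b_ne l hl))
  have hjN : j + N ≤ 2 * (j + m) + 3 := by omega
  have hκ : 0 < κ := hG.pos
  have hED : EdgeK (fun l => a (j + l)) (fun l => b (j + l)) N κ := by
    refine ⟨hκ, fun l hl => hbpos _ (by omega), fun i' j' h1 h2 h3 => ?_, fun i' j' h1 h2 h3 => ?_⟩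
    · have := hG.suma (j + i') (j + j') (by omega) (by omega) (by push_cast; linarith)
      rw [Finset.sum_Ico_eq_sum_range] at this ⊢
      have e : j + j' - (j + i') = j' - i' := by omega
      rw [e] at this
      simpa [add_assoc] using this
    · have := hG.sumb (j + i') (j + j') (by omega) (by omega) (by push_cast; linarith)
      rw [Finset.sum_Ico_eq_sum_range] at this ⊢
      have e : j + j' - (j + i') = j' - i' := by omega
      rw [e] at this
      simpa [add_assoc] using this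
  obtain ⟨hB1, hB2, hB3, hB4, hB5⟩ := hBLK E A u j N hG.sym hG.unit
    (fun l hl => hG.b_ne l (by omega))
  set T := blk A u j N with hT
  have hquad : ∀ x, |⟪x, T x⟫| ≤ (2 + 1000 * κ ^ 2) * ‖x‖ ^ 2 := by
    intro x
    rw [hB2]
    refine (hLMK _ _ N κ hED (fun l => ⟪qv A u (j + l), x⟫)).trans ?_
    exact mul_le_mul_of_nonneg_left (hB3 x) (by positivity)
  obtain ⟨hdeg, hpr, hop1⟩ := hOPD a b j
  -- edge estimate
  set K : ℝ := C₀ * Real.exp (C₀ * exK N κ (fun l => b (j + l))) with hK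
  have hK0 : 0 ≤ K := by positivity
  have hedge : ∀ y : ℝ, |y| ≤ 2 + 1000 * κ ^ 2 →
      (0 ≤ y → ∀ l < N, |((opp a b j (l + 1)).2).eval y - ((opp a b j l).2).eval y| ≤ K) ∧
      (y ≤ 0 → ∀ l < N, |((opp a b j (l + 1)).2).eval y + ((opp a b j l).2).eval y| ≤ K) ∧
      (∀ l, l + 1 < N → |b (j + (l + 1)) * ((opp a b j (l + 2)).2).eval y -
        b (j + l) * ((opp a b j l).2).eval y| ≤ K) ∧
      (0 < N → |y - a (j + 0)| ≤ K) := by
    intro y hy
    exact hE _ _ N κ y _ hED (hpr N (fun l hl => (hbpos _ (by omega)).ne') y) hy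
  obtain ⟨hS1, hS2⟩ := hSPB E T (2 + 1000 * κ ^ 2) K hB1 hquad hK0
  obtain ⟨-, hqn, -⟩ := hLO E A u hG.sym hG.unit
  have hqorth := (hLO E A u hG.sym hG.unit).1
  have hqnorm : ∀ l ≤ 2 * (j + m) + 2, ‖qv A u l‖ = 1 := fun l hl =>
    hqn l fun l' hl' => hG.b_ne l' (by omega)
  -- names
  have ek : j + m - 1 - i = m := by omega
  rw [ek]
  -- polynomials
  set P : ℕ → ℝ[X] := fun l => (opp a b j l).2 with hP
  have hPdeg : ∀ l, (P l).natDegree ≤ l := fun l => (hdeg l).1
  have hRdeg : ∀ l, ((opp a b j l).1).natDegree ≤ l - 1 := fun l => (hdeg l).2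
  have hPq : ∀ l < N, aeval T (P l) (qv A u j) = qv A u (j + l) := hB4
  have hPA : ∀ s < N, ∀ f : ℝ[X], f.natDegree ≤ s → f.natDegree + s < N →
    aeval T f (qv A u (j + s)) = aeval A f (qv A u (j + s)) := hB5
  have hPrec : ∀ l, P (l + 1) = C (b (j + l))⁻¹ * ((X - C (a (j + l))) * P l - (opp a b j l).1) :=
    fun l => rfl
  have hR : ∀ l, (opp a b j (l + 1)).1 = C (b (j + l)) * P l := fun l => rfl
  have hbP : ∀ l, b (j + l) ≠ 0 → C (b (j + l)) * P (l + 1) =
      (X - C (a (j + l))) * P l - (opp a b j l).1 := by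
    intro l hl
    rw [hPrec, ← mul_assoc, ← C_mul, mul_inv_cancel₀ hl, C_1, one_mul]
  -- the exponential factors
  have hexle : exK N κ (fun l => b (j + l)) ≤ exK (2 * (j + m) + 3) κ b :=
    ex_le b κ hκ.le j N _ hjN
  set X' : ℝ := exK (2 * (j + m) + 3) κ b with hX'
  have hX0 : 0 ≤ X' := (ex_nonneg b κ hκ.le _).2
  have hκX : κ ≤ X' := by
    refine le_trans ?_ (ex_nonneg b κ hκ.le _).1
    have : (1 : ℝ) ≤ ((2 * (j + m) + 3 : ℕ) : ℝ) := by exact_mod_cast (by omega)
    nlinarith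
  have hKX : K ≤ C₀ * Real.exp (C₀ * X') := by
    rw [hK]
    exact mul_le_mul_of_nonneg_left (Real.exp_le_exp.2 (mul_le_mul_of_nonneg_left hexle hC₀.le))
      hC₀.le
  constructor
  · -- first vector
    have e0 : j + m + 1 = j + (m + 1) := by omega
    rw [e0]
    have h1 : aeval A (P m) (qv A u (j + (m + 1))) = aeval T (P m) (qv A u (j + (m + 1))) :=
      (hPA (m + 1) (by omega) _ ((hPdeg m).trans (by omega)) (by have := hPdeg m; omega)).symm
    have h2 : aeval A (opp a b j m).1 (qv A u (j + m)) = aeval T (opp a b j m).1 (qv A u (j + m)) :=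
      (hPA m (by omega) _ ((hRdeg m).trans (by omega)) (by have := hRdeg m; omega)).symm
    have h3 : b (j + m) • aeval A (P m) (qv A u (j + (m + 1))) -
        aeval A (opp a b j m).1 (qv A u (j + m)) =
        aeval T (C (b (j + m)) * P (m + 1) - (opp a b j m).1) (qv A u (j + m)) := by
      rw [h1, h2, ← hPq (m + 1) (by omega), ← hPq m (by omega)]
      rw [map_sub, map_mul, sub_apply, mul_apply_eq_comp, aev]
      congr 2
      rw [← mul_apply_eq_comp, ← mul_apply_eq_comp, ← map_mul, ← map_mul, mul_comm]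
    change ‖b (j + m) • aeval A (P m) (qv A u (j + (m + 1))) -
        aeval A (opp a b j m).1 (qv A u (j + m))‖ ≤ _
    rw [h3]
    have h4 : ∀ y : ℝ, |y| ≤ 2 + 1000 * κ ^ 2 →
        |(C (b (j + m)) * P (m + 1) - (opp a b j m).1).eval y| ≤ K := by
      intro y hy
      obtain ⟨-, -, h5, h6⟩ := hedge y hy
      rcases Nat.eq_zero_or_pos m with h0 | h0
      · subst h0
        rw [hbP 0 (hbpos _ (by omega)).ne']
        have := h6 (by omega)
        simpa [hP, opp] using this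
      · obtain ⟨n, rfl⟩ : ∃ n, m = n + 1 := ⟨m - 1, by omega⟩
        have := h5 n (by omega)
        rw [hR n]
        simpa [hP] using this
    refine (hS1 _ h4 _).trans ?_
    rw [hqnorm _ (by omega), mul_one]
    refine hKX.trans ?_
    refine mul_le_mul (by linarith) (Real.exp_le_exp.2 ?_) (Real.exp_pos _).le (by linarith)
    exact mul_le_mul_of_nonneg_right (by linarith) hX0
  · -- second vector
    have e0 : j + m + 1 = j + (m + 1) := by omega
    have e1 : j + m + 2 = j + (m + 2) := by omega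
    rw [e0, e1]
    have h1 : aeval A (P m) (qv A u (j + (m + 1))) = aeval T (P m) (qv A u (j + (m + 1))) :=
      (hPA (m + 1) (by omega) _ ((hPdeg m).trans (by omega)) (by have := hPdeg m; omega)).symm
    have h1' : aeval A (P m) (qv A u (j + (m + 2))) = aeval T (P m) (qv A u (j + (m + 2))) :=
      (hPA (m + 2) (by omega) _ ((hPdeg m).trans (by omega)) (by have := hPdeg m; omega)).symm
    have h2 : aeval A (opp a b j m).1 (qv A u (j + (m + 1))) =
        aeval T (opp a b j m).1 (qv A u (j + (m + 1))) :=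
      (hPA (m + 1) (by omega) _ ((hRdeg m).trans (by omega)) (by have := hRdeg m; omega)).symm
    have hpoly : C (a (j + (m + 1)) - a (j + m)) * (P m * P (m + 1)) +
        C (b (j + (m + 1))) * (P m * P (m + 2)) - (opp a b j m).1 * P (m + 1) =
        C (b (j + m)) * (P (m + 1) ^ 2 - P m ^ 2) := by
      have r1 := hbP (m + 1) (hbpos _ (by omega)).ne'
      have r2 := hbP m (hbpos _ (by omega)).ne'
      have r3 := hR m
      rw [C_sub]
      linear_combination (P m) * r1 - (P (m + 1)) * r2 - (P m) * r3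
    have h3 : (a (j + (m + 1)) - a (j + m)) • aeval A (P m) (qv A u (j + (m + 1))) +
        b (j + (m + 1)) • aeval A (P m) (qv A u (j + (m + 2))) -
        aeval A (opp a b j m).1 (qv A u (j + (m + 1))) =
        b (j + m) • aeval T (P (m + 1) ^ 2 - P m ^ 2) (qv A u j) := by
      rw [h1, h1', h2, ← hPq (m + 1) (by omega), ← hPq (m + 2) (by omega)]
      have e5 : b (j + m) • aeval T (P (m + 1) ^ 2 - P m ^ 2) (qv A u j) =
          aeval T (C (b (j + m)) * (P (m + 1) ^ 2 - P m ^ 2)) (qv A u j) := by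
        rw [map_mul, mul_apply_eq_comp, aev]
      rw [e5, ← hpoly]
      rw [map_sub, map_add, map_mul, map_mul, map_mul, sub_apply, add_apply, mul_apply_eq_comp,
        mul_apply_eq_comp, mul_apply_eq_comp, aev, aev, map_mul, map_mul, mul_apply_eq_comp,
        mul_apply_eq_comp]
    change ‖(a (j + (m + 1)) - a (j + m)) • aeval A (P m) (qv A u (j + (m + 1))) +
        b (j + (m + 1)) • aeval A (P m) (qv A u (j + (m + 2))) -
        aeval A (opp a b j m).1 (qv A u (j + (m + 1)))‖ ≤ _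
    rw [h3, norm_smul]
    have h4 := hS2 (P (m + 1) - P m) (P (m + 1) + P m) (P (m + 1) + P m) (P (m + 1) - P m)
      (P (m + 1) ^ 2 - P m ^ 2) (by ring) (by ring)
      (fun y hy0 hy => by
        have := (hedge y (by rwa [abs_of_nonneg hy0])).1 hy0 m (by omega)
        simpa [hP] using this)
      (fun y hy hy0 => by
        have := (hedge y (by rw [abs_of_nonpos hy0]; linarith)).2.1 hy0 m (by omega)
        simpa [hP] using this) (qv A u j)
    have h5 : aeval T (P (m + 1) + P m) (qv A u j) = qv A u (j + (m + 1)) + qv A u (j + m) := by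
      rw [map_add, add_apply, hPq _ (by omega), hPq _ (by omega)]
    have h6 : aeval T (P (m + 1) - P m) (qv A u j) = qv A u (j + (m + 1)) - qv A u (j + m) := by
      rw [map_sub, sub_apply, hPq _ (by omega), hPq _ (by omega)]
    have h7 : ‖qv A u (j + (m + 1)) + qv A u (j + m)‖ ^ 2 +
        ‖qv A u (j + (m + 1)) - qv A u (j + m)‖ ^ 2 = 4 := by
      have := parallelogram_law_with_norm ℝ (qv A u (j + (m + 1))) (qv A u (j + m))
      rw [hqnorm _ (by omega), hqnorm _ (by omega)] at this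
      nlinarith
    rw [h5, h6, h7] at h4
    have h8 : ‖aeval T (P (m + 1) ^ 2 - P m ^ 2) (qv A u j)‖ ≤ 2 * K := by
      refine abs_le_of_sq_le_sq' ?_ (by positivity) |>.2
      nlinarith
    have hbk : b (j + m) ≤ Real.exp X' := by
      have h9 := hG.sumb (j + m) (j + m + 1) (by omega) (by omega)
        (by push_cast; rw [add_sub_cancel_left]; exact le_max_left _ _)
      rw [Nat.Ico_succ_singleton, Finset.sum_singleton, div_one] at h9
      have h10 := (abs_le.1 h9).2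
      have h11 : b (j + m) ≤ 1 + κ := by
        nlinarith [hbpos (j + m) (by omega)]
      have := Real.add_one_le_exp X'
      linarith
    have hb0 := (hbpos (j + m) (by omega)).le
    rw [Real.norm_of_nonneg hb0]
    calc b (j + m) * ‖aeval T (P (m + 1) ^ 2 - P m ^ 2) (qv A u j)‖
        ≤ Real.exp X' * (2 * K) := mul_le_mul hbk h8 (norm_nonneg _) (Real.exp_pos _).le
      _ ≤ Real.exp X' * (2 * (C₀ * Real.exp (C₀ * X'))) := by gcongr
      _ = 2 * C₀ * Real.exp ((C₀ + 1) * X') := by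
          rw [add_mul, one_mul, Real.exp_add]; ring
      _ ≤ (2 * C₀ + 1) * Real.exp ((2 * C₀ + 1) * X') := by
          refine mul_le_mul (by linarith) (Real.exp_le_exp.2 ?_) (Real.exp_pos _).le (by linarith)
          exact mul_le_mul_of_nonneg_right (by linarith) hX0

end Pool.Agent.Lib.MP17fa2c
end

section
/-!
# MP_17fa2c_pr, module TSK: fourth moment of the increments of the process, improved
-/
set_option autoImplicit false

open MeasureTheory ProbabilityTheory Filter Topology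
open scoped RealInnerProductSpace NNReal ENNReal

namespace Pool.Agent.Lib.MP17fa2c

namespace TSKM

theorem phi_le (τ : ℝ) (hτ : 0 ≤ τ) : Real.arccos (Real.exp (-τ)) ^ 4 ≤ 25 * τ ^ 2 ∧
    0 ≤ Real.arccos (Real.exp (-τ)) ∧ Real.cos (Real.arccos (Real.exp (-τ))) = Real.exp (-τ) := by
  have h0 : 0 ≤ Real.arccos (Real.exp (-τ)) := Real.arccos_nonneg _
  have h1 : Real.arccos (Real.exp (-τ)) ≤ Real.pi := Real.arccos_le_pi _
  have he0 : 0 < Real.exp (-τ) := Real.exp_pos _
  have he1 : Real.exp (-τ) ≤ 1 := Real.exp_le_one_iff.2 (by linarith)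
  have hc : Real.cos (Real.arccos (Real.exp (-τ))) = Real.exp (-τ) :=
    Real.cos_arccos (by linarith) he1
  refine ⟨?_, h0, hc⟩
  set φ := Real.arccos (Real.exp (-τ)) with hφ
  have hq := Real.cos_le_one_sub_mul_cos_sq (x := φ) (by rw [abs_of_nonneg h0]; exact h1)
  rw [hc] at hq
  have h2 : 1 - τ ≤ Real.exp (-τ) := by
    have := Real.add_one_le_exp (-τ)
    linarith
  have hpi := Real.pi_pos
  have hpi2 : Real.pi ^ 2 < 10 := by
    have := Real.pi_lt_d2
    nlinarith
  have h3 : 2 / Real.pi ^ 2 * φ ^ 2 ≤ τ := by linarith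
  have h4 : φ ^ 2 ≤ 5 * τ := by
    have h5 : 2 / 10 * φ ^ 2 ≤ 2 / Real.pi ^ 2 * φ ^ 2 := by
      apply mul_le_mul_of_nonneg_right _ (sq_nonneg φ)
      apply div_le_div_of_nonneg_left (by norm_num) (by positivity) hpi2.le
    linarith
  calc φ ^ 4 = (φ ^ 2) ^ 2 := by ring
    _ ≤ (5 * τ) ^ 2 := pow_le_pow_left₀ (sq_nonneg _) h4 2
    _ = 25 * τ ^ 2 := by ring

end TSKM

theorem specTSK (hDBK : SpecDBK) (hINK : SpecINK) (hPRL : SpecPRL) (hUNQ : SpecUNQ)
    (hMRG : SpecMRG) (hMEA : SpecMEA) : SpecTSK := by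
  intro ι _ _
  obtain ⟨C₁, hC₁, hD⟩ := hDBK ι
  obtain ⟨C₂, hC₂, h⟩ := hINK ι
  have hCC : (0 : ℝ) < 25 * C₁ + C₂ := by positivity
  refine ⟨25 * C₁ + C₂, hCC, ?_⟩
  intro E _ _ _ S u τ μ hτ hμ hu k hk
  let _ : MeasurableSpace E := borel E
  have _ : BorelSpace E := ⟨rfl⟩
  obtain ⟨hφ4, hφ0, hcos⟩ := TSKM.phi_le τ hτ
  set φ := Real.arccos (Real.exp (-τ)) with hφ
  set ν : Measure (Unit → E →L[ℝ] E) := μ.map (fun M _ => M 0) with hν
  have hνG : GFam S (fun _ _ => 1) ν := by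
    have := (hMRG ι E (Fin 2) S _ μ hμ).1 Unit (fun _ => 0)
    simpa [c2] using this
  have hP := hPRL ι E S ν hνG φ
  rw [hcos] at hP
  have hEq : μ = (ν.prod ν).map (fun p (i : Fin 2) =>
    if i = 0 then p.1 () else Real.cos φ • p.1 () + Real.sin φ • p.2 ()) :=
    hUNQ ι E (Fin 2) S _ _ _ hμ (by rw [hcos]; exact hP)
  have hD0 : 0 ≤ dm E := Nat.cast_nonneg _
  have hk1 : C₁ * (k + 1) ≤ dm E := by
    refine le_trans ?_ hk
    have : 0 ≤ C₁ * ((k : ℝ) + 1) := by positivity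
    have : 0 ≤ C₂ * ((k : ℝ) + 1) := by positivity
    nlinarith
  have hk2 : C₂ * (k + 1) ≤ dm E := by
    refine le_trans ?_ hk
    have : 0 ≤ C₁ * ((k : ℝ) + 1) := by positivity
    have : 0 ≤ C₂ * ((k : ℝ) + 1) := by positivity
    nlinarith
  obtain ⟨hD1, hD2⟩ := hD E S u ν hνG hu k hk1
  obtain ⟨hI1, hI2⟩ := h E S u ν hνG hu k φ hk2 hφ0
  have hmap : Measurable (fun p : (Unit → E →L[ℝ] E) × (Unit → E →L[ℝ] E) => fun (i : Fin 2) =>
      if i = 0 then p.1 () else Real.cos φ • p.1 () + Real.sin φ • p.2 ()) := by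
    have m1 : Measurable (fun p : (Unit → E →L[ℝ] E) × (Unit → E →L[ℝ] E) => p.1 ()) :=
      (measurable_pi_apply (X := fun _ : Unit => E →L[ℝ] E) ()).comp measurable_fst
    have m2 : Measurable (fun p : (Unit → E →L[ℝ] E) × (Unit → E →L[ℝ] E) => p.2 ()) :=
      (measurable_pi_apply (X := fun _ : Unit => E →L[ℝ] E) ()).comp measurable_snd
    refine measurable_pi_iff.2 (fun i => ?_)
    by_cases hi : i = 0
    · simp only [hi, if_true]
      exact m1
    · simp only [hi, if_false]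
      exact (m1.const_smul (Real.cos φ)).add (m2.const_smul (Real.sin φ))
  obtain ⟨_, _, ma, mb, _⟩ := hMEA ι E (Fin 2) S u k
  have hexp : Real.exp (C₁ * Real.sqrt (((k : ℝ) + 1) ^ 3 / dm E)) ≤
      Real.exp ((25 * C₁ + C₂) * Real.sqrt (((k : ℝ) + 1) ^ 3 / dm E)) := by
    apply Real.exp_le_exp.2
    apply mul_le_mul_of_nonneg_right _ (Real.sqrt_nonneg _)
    linarith
  have key : φ ^ 4 * C₁ ≤ (25 * C₁ + C₂) * τ ^ 2 := by
    nlinarith [mul_le_mul_of_nonneg_right hφ4 hC₁.le, mul_nonneg hC₂.le (sq_nonneg τ)]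
  have hA : (0 : ℝ) ≤ ((k : ℝ) + 1) ^ 2 := by positivity
  have hB : (0 : ℝ) ≤ ((k : ℝ) + 1) ^ (1 / 100 : ℝ) := by positivity
  have hφ40 : 0 ≤ φ ^ 4 := by positivity
  constructor
  · rw [hEq, lintegral_map (by fun_prop) hmap]
    refine le_trans (le_of_eq ?_) (hI1.trans ?_)
    · simp
    · refine (mul_le_mul_right hD1 _).trans ?_
      rw [← ENNReal.ofReal_mul hφ40]
      apply ENNReal.ofReal_le_ofReal
      calc φ ^ 4 * (C₁ * ((k : ℝ) + 1) ^ 2 * ((k : ℝ) + 1) ^ (1 / 100 : ℝ) *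
            Real.exp (C₁ * Real.sqrt (((k : ℝ) + 1) ^ 3 / dm E)))
          = φ ^ 4 * C₁ * ((k : ℝ) + 1) ^ 2 * ((k : ℝ) + 1) ^ (1 / 100 : ℝ) *
            Real.exp (C₁ * Real.sqrt (((k : ℝ) + 1) ^ 3 / dm E)) := by ring
        _ ≤ _ := mul_le_mul (mul_le_mul_of_nonneg_right (mul_le_mul_of_nonneg_right key hA) hB)
            hexp (Real.exp_pos _).le (by positivity)
  · rw [hEq, lintegral_map (by fun_prop) hmap]
    refine le_trans (le_of_eq ?_) (hI2.trans ?_)
    · simp
    · refine (mul_le_mul_right hD2 _).trans ?_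
      rw [← ENNReal.ofReal_mul hφ40]
      apply ENNReal.ofReal_le_ofReal
      have key2 : φ ^ 4 * C₁ * dm E ^ 2 ≤ (25 * C₁ + C₂) * dm E ^ 2 * τ ^ 2 := by
        have := mul_le_mul_of_nonneg_right key (sq_nonneg (dm E))
        nlinarith
      calc φ ^ 4 * (C₁ * dm E ^ 2 * ((k : ℝ) + 1) ^ 2 * ((k : ℝ) + 1) ^ (1 / 100 : ℝ) *
            Real.exp (C₁ * Real.sqrt (((k : ℝ) + 1) ^ 3 / dm E)))
          = φ ^ 4 * C₁ * dm E ^ 2 * ((k : ℝ) + 1) ^ 2 * ((k : ℝ) + 1) ^ (1 / 100 : ℝ) *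
            Real.exp (C₁ * Real.sqrt (((k : ℝ) + 1) ^ 3 / dm E)) := by ring
        _ ≤ _ := mul_le_mul (mul_le_mul_of_nonneg_right (mul_le_mul_of_nonneg_right key2 hA) hB)
            hexp (Real.exp_pos _).le (by positivity)

end Pool.Agent.Lib.MP17fa2c
end
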