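import Pool.Agent.Lib.MP_17fa2c_pr.TD.SpecX

section
set_option autoImplicit false

open MeasureTheory ProbabilityTheory Filter Topology
open scoped RealInnerProductSpace NNReal ENNReal BoundedContinuousFunction Quaternion

namespace Pool.Agent.Lib.MP17fa2c

namespace AS2M

theorem tendsto_sub_one {f : ℕ → ℕ} (hf : Tendsto f atTop atTop) :
    Tendsto (fun n => f (n + 1) - 1) atTop atTop := by
  have h1 : Tendsto (fun n => f (n + 1)) atTop atTop := hf.comp (tendsto_add_atTop_nat 1)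
  rw [tendsto_atTop] at h1 ⊢
  intro b
  filter_upwards [h1 (b + 1)] with n hn
  omega

/-- eventually `k (n+1) ≤ n` -/
theorem k_le (k : ℕ → ℕ) (hk : Tendsto (fun n => (k n : ℝ) / (n : ℝ) ^ (3 / 7 : ℝ)) atTop (𝓝 0)) :
    ∀ᶠ n in atTop, k (n + 1) ≤ n := by
  have h2 : ∀ᶠ n in atTop, (k (n + 1) : ℝ) / (((n + 1 : ℕ) : ℝ)) ^ (3 / 7 : ℝ) < 1 / 2 :=
    (tendsto_add_atTop_nat 1).eventually (hk.eventually_lt_const (by norm_num))
  filter_upwards [h2, eventually_ge_atTop 1] with n hn h1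
  have h3 : (1 : ℝ) ≤ ((n + 1 : ℕ) : ℝ) := by push_cast; linarith [(Nat.cast_nonneg n : (0 : ℝ) ≤ n)]
  have h4 : (0 : ℝ) < (((n + 1 : ℕ) : ℝ)) ^ (3 / 7 : ℝ) := Real.rpow_pos_of_pos (by linarith) _
  rw [div_lt_iff₀ h4] at hn
  have h5 : (((n + 1 : ℕ) : ℝ)) ^ (3 / 7 : ℝ) ≤ ((n + 1 : ℕ) : ℝ) := by
    calc (((n + 1 : ℕ) : ℝ)) ^ (3 / 7 : ℝ) ≤ (((n + 1 : ℕ) : ℝ)) ^ (1 : ℝ) :=
          Real.rpow_le_rpow_of_exponent_le h3 (by norm_num)
      _ = _ := Real.rpow_one _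
  have h6 : (1 : ℝ) ≤ n := by exact_mod_cast h1
  have h7 : (k (n + 1) : ℝ) ≤ n := by
    push_cast at h5 hn
    linarith
  exact_mod_cast h7

theorem norm_e1 {ι : Type} [Fintype ι] [DecidableEq ι] {𝔽 : Type} [NormedRing 𝔽] [StarRing 𝔽]
    [InnerProductSpace ℝ 𝔽] (F : FStr ι 𝔽) (n : ℕ) : ‖e1 𝔽 n‖ = 1 := by
  have h1 : ‖(1 : 𝔽)‖ = 1 := by rw [← F.e_o]; exact F.e.orthonormal.1 _
  have h2 : ‖e1 𝔽 n‖ ^ 2 = 1 := by
    rw [PiLp.norm_sq_eq_of_L2, Fin.sum_univ_succ]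
    have h3 : (e1 𝔽 n) 0 = 1 := rfl
    have h4 : ∀ i : Fin n, (e1 𝔽 n) i.succ = 0 := by
      intro i
      show (if i.succ = 0 then (1 : 𝔽) else 0) = 0
      rw [if_neg (Fin.succ_ne_zero i)]
    simp [h3, h4, h1]
  have h5 := norm_nonneg (e1 𝔽 n)
  nlinarith

end AS2M

open AS2M in
/-- AS2 -/
theorem specAS2 (hPR2 : SpecPR2) (hTRI : SpecTRI) (hGFM : SpecGFM) (hBST : SpecBST)
    (hDEL : SpecDEL) : SpecAS2 := by
  intro β 𝔽 _ _ _ _ _ _ F hF0
  have hβ : 1 ≤ β := by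
    have := F.o.2
    omega
  have hβr : (1 : ℝ) ≤ β := by exact_mod_cast hβ
  have hpro := hPR2 (Fin β)
  intro k hk
  intro j kk hkk hkl hinj Ω _ P _ M hM X hXm hX Ω' _ P' _ Y hY Φ
  choose S hSo hSJ hSH hSd using fun n : ℕ => hBST (Fin β) 𝔽 F (n + 1)
  have hdm : ∀ n : ℕ, dm (VE 𝔽 (n + 1)) = β * ((n : ℝ) + 1) := by
    intro n
    unfold dm
    rw [hSd n, Fintype.card_fin]
    push_cast
    ring
  have hOPr : ∀ n, OPr (S n) (P (n + 1)) (fun ω t => opm (M (n + 1) ω t)) := fun n =>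
    hGFM β 𝔽 F (n + 1) hF0 (S n) (hSJ n) (Ω (n + 1)) (P (n + 1)) (M (n + 1)) (hM (n + 1))
  have hkl1 : ∀ᶠ n in atTop, ∀ i, kk i (n + 1) ≤ k (n + 1) :=
    (tendsto_add_atTop_nat 1).eventually hkl
  have hpos : ∀ᶠ n in atTop, ∀ i, 1 ≤ kk i (n + 1) := by
    rw [eventually_all]
    intro i
    exact ((hkk i).comp (tendsto_add_atTop_nat 1)).eventually_ge_atTop 1
  rw [← tendsto_add_atTop_iff_nat 1]
  refine hpro (fun n => VE 𝔽 (n + 1)) S (fun n => e1 𝔽 n) (fun n => Ω (n + 1))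
    (fun n => P (n + 1)) (fun n ω t => opm (M (n + 1) ω t)) j (fun n i => kk i (n + 1) - 1)
    (fun n => X (n + 1)) Ω' P' Y (fun n => norm_e1 F n) hOPr ?_
    (fun i => tendsto_sub_one (hkk i)) ?_ ?_ ?_ (fun n t => hXm (n + 1) t) ?_ hY Φ
  · simp only [hdm]
    refine Tendsto.const_mul_atTop (by linarith) ?_
    exact tendsto_atTop_add_const_right _ _ tendsto_natCast_atTop_atTop
  · have hinj1 : ∀ᶠ n in atTop, Function.Injective fun i => kk i (n + 1) :=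
      (tendsto_add_atTop_nat 1).eventually hinj
    filter_upwards [hinj1, hpos] with n h1 h2
    intro i i' h
    refine h1 ?_
    have h3 := h2 i
    have h4 := h2 i'
    simp only at h ⊢
    omega
  · intro i
    have hk1 : Tendsto (fun n : ℕ => (k (n + 1) : ℝ) / (((n + 1 : ℕ) : ℝ)) ^ (3 / 7 : ℝ)) atTop (𝓝 0) :=
      hk.comp (tendsto_add_atTop_nat 1)
    refine squeeze_zero' (Eventually.of_forall fun n => ?_) ?_ hk1
    · rw [hdm]
      positivity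
    · filter_upwards [hkl1, hpos] with n h1 h3
      have h4 : (((kk i (n + 1) - 1 : ℕ) : ℝ) + 1) = kk i (n + 1) := by
        rw [Nat.cast_sub (h3 i)]; push_cast; ring
      rw [h4, hdm]
      have h5 : (kk i (n + 1) : ℝ) ≤ k (n + 1) := by exact_mod_cast h1 i
      have h6 : (0 : ℝ) < (n : ℝ) + 1 := by positivity
      have h7 : (n : ℝ) + 1 ≤ β * ((n : ℝ) + 1) := by nlinarith
      have h8 : (((n + 1 : ℕ) : ℝ)) ^ (3 / 7 : ℝ) ≤ (β * ((n : ℝ) + 1)) ^ (3 / 7 : ℝ) := by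
        apply Real.rpow_le_rpow (by positivity) _ (by norm_num)
        push_cast
        exact h7
      exact div_le_div₀ (Nat.cast_nonneg _) h5 (Real.rpow_pos_of_pos (by positivity) _) h8
  · intro n
    rw [hdm]
    positivity
  · have hX1 : ∀ᶠ n in atTop, ∀ t, ∀ᵐ ω ∂(P (n + 1)),
        IsEnt β (M (n + 1) ω) (fun i => kk i (n + 1)) t (X (n + 1) ω t) :=
      (tendsto_add_atTop_nat 1).eventually hX
    filter_upwards [hX1, hkl1, k_le k hk, hpos] with n h1 h2 h3 h4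
    intro t
    -- no `b` vanishes at a given time
    have key : ∀ (s : ℝ≥0) (K : ℕ), K < n + 1 → ∀ᵐ ω ∂(P (n + 1)), ∀ l < K,
        bv (opm (M (n + 1) ω s)) (e1 𝔽 n) l ≠ 0 := by
      intro s K hK
      have e1' : GFam (S n) (fun _ _ : Unit => (1 : ℝ))
          ((P (n + 1)).map fun ω (_ : Unit) => opm (M (n + 1) ω s)) := by
        have := (hOPr n).fam Unit (fun _ => s)
        simpa using this
      have e2 := (hDEL (Fin β) (VE 𝔽 (n + 1)) (S n) (e1 𝔽 n) _ e1' (norm_e1 F n) K (by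
        rw [hSd n, Fintype.card_fin]
        exact Nat.mul_lt_mul_of_pos_left hK (by omega))).1
      have e3 : AEMeasurable (fun ω (_ : Unit) => opm (M (n + 1) ω s)) (P (n + 1)) :=
        (measurable_pi_iff.2 fun _ => (hOPr n).meas s).aemeasurable
      exact ae_of_ae_map e3 e2
    have hall : ∀ᵐ ω ∂(P (n + 1)), ∀ i : Fin j, ∀ l < kk i (n + 1) - 1,
        bv (opm (M (n + 1) ω (t / (kk i (n + 1) : ℝ≥0)))) (e1 𝔽 n) l ≠ 0 := by
      rw [ae_all_iff]
      intro i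
      refine key _ _ ?_
      have := h2 i
      omega
    filter_upwards [h1 t, hall] with ω hω hb
    funext x
    rcases x with i | i
    · obtain ⟨a, b, hT, hx, -⟩ := hω i
      have e1' : kk i (n + 1) - 1 + 1 = kk i (n + 1) := by have := h4 i; omega
      have e2 : (((kk i (n + 1) - 1 : ℕ) : ℝ≥0) + 1) = (kk i (n + 1) : ℝ≥0) := by
        rw [← Nat.cast_succ]; exact congrArg _ e1'
      have e3 := (hTRI (Fin β) 𝔽 F n _ a b hT (kk i (n + 1) - 1) (by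
        have := h2 i; omega) (hb i)).1
      rw [e1'] at e3
      show X (n + 1) ω t (Sum.inl i) = av (opm (M (n + 1) ω (t / (((kk i (n + 1) - 1 : ℕ) : ℝ≥0) + 1)))) (e1 𝔽 n) (kk i (n + 1) - 1)
      rw [e2, hx, e3]
    · obtain ⟨a, b, hT, -, hx⟩ := hω i
      have e1' : kk i (n + 1) - 1 + 1 = kk i (n + 1) := by have := h4 i; omega
      have e2 : (((kk i (n + 1) - 1 : ℕ) : ℝ≥0) + 1) = (kk i (n + 1) : ℝ≥0) := by
        rw [← Nat.cast_succ]; exact congrArg _ e1'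
      have e3 := (hTRI (Fin β) 𝔽 F n _ a b hT (kk i (n + 1) - 1) (by
        have := h2 i; omega) (hb i)).2 (by
          have := h2 i; have := h4 i; omega)
      rw [e1'] at e3
      have e4 : nk (Fin β) (VE 𝔽 (n + 1)) (kk i (n + 1) - 1) =
          β * (((n + 1 : ℕ) : ℝ) - kk i (n + 1)) := by
        unfold nk
        rw [hdm, Fintype.card_fin]
        have : (((kk i (n + 1) - 1 : ℕ) : ℝ) + 1) = kk i (n + 1) := by
          rw [Nat.cast_sub (h4 i)]; push_cast; ring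
        rw [this]
        push_cast
        ring
      show X (n + 1) ω t (Sum.inr i) = bn (Fin β) (opm (M (n + 1) ω (t / (((kk i (n + 1) - 1 : ℕ) : ℝ≥0) + 1)))) (e1 𝔽 n) (kk i (n + 1) - 1)
      unfold bn
      rw [e2, hx, e3, e4]

end Pool.Agent.Lib.MP17fa2c
end

section
/-! # Module ITP: dyadic interpolation exists. -/
set_option autoImplicit false

open MeasureTheory ProbabilityTheory Filter Topology
open scoped RealInnerProductSpace NNReal ENNReal BoundedContinuousFunction Quaternion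

namespace Pool.Agent.Lib.MP17fa2c

namespace ITPM

section
variable {E : Type} [NormedAddCommGroup E] [NormedSpace ℝ E]

/-- the ramp from `0` to `1` -/
noncomputable def ramp (s : ℝ) : ℝ := min (max s 0) 1

theorem ramp_of_le {s : ℝ} (h : s ≤ 0) : ramp s = 0 := by
  unfold ramp; rw [max_eq_right h]; norm_num

theorem ramp_of_ge {s : ℝ} (h : 1 ≤ s) : ramp s = 1 := by
  unfold ramp; rw [max_eq_left (by linarith), min_eq_right h]

theorem ramp_of_mem {s : ℝ} (h0 : 0 ≤ s) (h1 : s ≤ 1) : ramp s = s := by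
  unfold ramp; rw [max_eq_left h0, min_eq_left h1]

/-- the partial sums -/
noncomputable def g (y : ℕ → E) (M : ℕ) (s : ℝ) : E :=
  y 0 + ∑ i ∈ Finset.range M, ramp (s - i) • (y (i + 1) - y i)

theorem g_cont (y : ℕ → E) (M : ℕ) : Continuous (g y M) := by
  unfold g ramp
  fun_prop

theorem g_stable (y : ℕ → E) (M : ℕ) (s : ℝ) (h : s ≤ M) (M' : ℕ) (hM : M ≤ M') :
    g y M' s = g y M s := by
  unfold g
  congr 1
  symm
  apply Finset.sum_subset
  · intro i hi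
    rw [Finset.mem_range] at hi ⊢
    omega
  · intro i _ hi
    rw [Finset.mem_range, not_lt] at hi
    have : (M : ℝ) ≤ i := by exact_mod_cast hi
    rw [ramp_of_le (by linarith), zero_smul]

/-- the interpolation -/
noncomputable def f (y : ℕ → E) (s : ℝ) : E := g y ⌈s⌉₊ s

theorem f_eq (y : ℕ → E) (M : ℕ) (s : ℝ) (h : s ≤ M) : f y s = g y M s := by
  unfold f
  exact (g_stable y ⌈s⌉₊ s (Nat.le_ceil s) M (Nat.ceil_le.2 h)).symm

theorem f_cont (y : ℕ → E) : Continuous (f y) := by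
  rw [continuous_iff_continuousAt]
  intro s
  obtain ⟨M, hM⟩ := exists_nat_gt s
  have h1 : f y =ᶠ[𝓝 s] g y M := by
    filter_upwards [Iio_mem_nhds hM] with t ht
    exact f_eq y M t (le_of_lt ht)
  exact (g_cont y M).continuousAt.congr h1.symm

theorem g_nat (y : ℕ → E) (i : ℕ) (s : ℝ) (h : (i : ℝ) ≤ s) : g y i s = y i := by
  unfold g
  have h1 : ∑ j ∈ Finset.range i, ramp (s - j) • (y (j + 1) - y j) =
      ∑ j ∈ Finset.range i, (y (j + 1) - y j) := by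
    refine Finset.sum_congr rfl fun j hj => ?_
    rw [Finset.mem_range] at hj
    have : ((j : ℝ) + 1) ≤ i := by exact_mod_cast hj
    rw [ramp_of_ge (by linarith), one_smul]
  rw [h1, Finset.sum_range_sub]
  abel

theorem f_val (y : ℕ → E) (i : ℕ) (a : ℝ) (h0 : 0 ≤ a) (h1 : a ≤ 1) :
    f y (i + a) = (1 - a) • y i + a • y (i + 1) := by
  rw [f_eq y (i + 1) _ (by push_cast; linarith)]
  have h2 : g y (i + 1) (i + a) = g y i (i + a) + ramp ((i : ℝ) + a - i) • (y (i + 1) - y i) := by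
    unfold g
    rw [Finset.sum_range_succ, add_assoc]
  rw [h2, g_nat y i _ (by linarith), add_sub_cancel_left, ramp_of_mem h0 h1, smul_sub, sub_smul,
    one_smul]
  abel

end

end ITPM

open ITPM in
/-- ITP. -/
theorem specITP : SpecITP := by
  intro K _
  refine ⟨fun L x =>
    { toFun := fun t => f (fun i : ℕ => x ((i : ℝ≥0) / 2 ^ L)) (2 ^ L * (t : ℝ))
      continuous_toFun := (f_cont _).comp (by fun_prop) }, ?_⟩
  intro L x i a ha
  have h1 : (2 : ℝ) ^ L * ((((i : ℝ≥0) + a) / 2 ^ L : ℝ≥0) : ℝ) = i + a := by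
    push_cast
    field_simp
  have h2 : (a : ℝ) ≤ 1 := by exact_mod_cast ha
  have h3 := f_val (fun i : ℕ => x ((i : ℝ≥0) / 2 ^ L)) i (a : ℝ) a.2 h2
  change f (fun i : ℕ => x ((i : ℝ≥0) / 2 ^ L)) (2 ^ L * ((((i : ℝ≥0) + a) / 2 ^ L : ℝ≥0) : ℝ)) = _
  rw [h1, h3]
  push_cast
  rfl

end Pool.Agent.Lib.MP17fa2c
end

section
/-!
# Module KS2: the explicit sequence `⌊n^{2/5}⌋`
-/
set_option autoImplicit false

open MeasureTheory ProbabilityTheory Filter Topology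
open scoped RealInnerProductSpace NNReal ENNReal BoundedContinuousFunction Quaternion

namespace Pool.Agent.Lib.MP17fa2c

namespace KS2M

theorem tend (p : ℝ) (hp : 0 < p) : Tendsto (fun n : ℕ => (n : ℝ) ^ p) atTop atTop :=
  (tendsto_rpow_atTop hp).comp tendsto_natCast_atTop_atTop

theorem low (n : ℕ) : (n : ℝ) ^ (2 / 5 : ℝ) - 1 ≤ (⌊(n : ℝ) ^ (2 / 5 : ℝ)⌋₊ : ℝ) := by
  have := Nat.lt_floor_add_one ((n : ℝ) ^ (2 / 5 : ℝ))
  linarith

theorem up (n : ℕ) : (⌊(n : ℝ) ^ (2 / 5 : ℝ)⌋₊ : ℝ) ≤ (n : ℝ) ^ (2 / 5 : ℝ) :=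
  Nat.floor_le (Real.rpow_nonneg (by positivity) _)

end KS2M

open KS2M in
/-- KS2 -/
theorem specKS2 : SpecKS2 := by
  refine ⟨?_, ?_, ?_, ?_⟩
  · have h1 : Tendsto (fun n : ℕ => (n : ℝ) ^ (1 / 15 : ℝ) - 1) atTop atTop :=
      tendsto_atTop_add_const_right _ _ (tend _ (by norm_num))
    refine tendsto_atTop_mono' _ ?_ h1
    filter_upwards [eventually_ge_atTop 1] with n hn
    have hn' : (1 : ℝ) ≤ n := by exact_mod_cast hn
    have hn0 : (0 : ℝ) < n := by linarith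
    have h2 : (1 : ℝ) ≤ (n : ℝ) ^ (1 / 3 : ℝ) := Real.one_le_rpow hn' (by norm_num)
    rw [le_div_iff₀ (by linarith)]
    refine le_trans ?_ (low n)
    have h3 : (n : ℝ) ^ (1 / 15 : ℝ) * (n : ℝ) ^ (1 / 3 : ℝ) = (n : ℝ) ^ (2 / 5 : ℝ) := by
      rw [← Real.rpow_add hn0]
      norm_num
    nlinarith
  · have h1 : Tendsto (fun n : ℕ => ((n : ℝ) ^ (1 / 35 : ℝ))⁻¹) atTop (𝓝 0) :=
      tendsto_inv_atTop_zero.comp (tend _ (by norm_num))
    refine squeeze_zero' (Eventually.of_forall fun n => by positivity) ?_ h1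
    filter_upwards [eventually_ge_atTop 1] with n hn
    have hn' : (1 : ℝ) ≤ n := by exact_mod_cast hn
    have hn0 : (0 : ℝ) < n := by linarith
    rw [div_le_iff₀ (by positivity)]
    refine (up n).trans (le_of_eq ?_)
    rw [← Real.rpow_neg hn0.le, ← Real.rpow_add hn0]
    norm_num
  · intro k hk
    refine squeeze_zero' (Eventually.of_forall fun n => by positivity) ?_ hk
    filter_upwards [eventually_ge_atTop 1] with n hn
    have hn' : (1 : ℝ) ≤ n := by exact_mod_cast hn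
    have hn0 : (0 : ℝ) < n := by linarith
    apply div_le_div_of_nonneg_left (by positivity) (by positivity)
    calc (n : ℝ) ^ (3 / 7 : ℝ) ≤ (n : ℝ) ^ (1 : ℝ) :=
          Real.rpow_le_rpow_of_exponent_le hn' (by norm_num)
      _ = n := Real.rpow_one _
  · exact tendsto_nat_floor_atTop.comp (tend _ (by norm_num))

end Pool.Agent.Lib.MP17fa2c
end

section
/-!
# MP_17fa2c_pr, module MID: the middle scale (and lemmas on pairs of times, used in TX3)
-/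
set_option autoImplicit false

open MeasureTheory ProbabilityTheory Filter Topology
open scoped RealInnerProductSpace NNReal ENNReal BoundedContinuousFunction Quaternion

namespace Pool.Agent.Lib.MP17fa2c

namespace MIDM

section

variable {ι : Type} [Fintype ι] [DecidableEq ι] {E : Type} [NormedAddCommGroup E]
  [InnerProductSpace ℝ E] [FiniteDimensional ℝ E] {S : BStr ι E}
  {Ω : Type} [MeasurableSpace Ω] {P : Measure Ω} {Z : Ω → ℝ≥0 → E →L[ℝ] E}

/-- the two times -/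
noncomputable def tt (s t : ℝ≥0) (p : Fin 2) : ℝ≥0 := if p = 0 then s else t

theorem pair_fam (hZ : OPr S P Z) (s t : ℝ≥0) :
    GFam S (c2 (Real.exp (-|(t : ℝ) - s|))) (P.map fun ω (p : Fin 2) => Z ω (tt s t p)) := by
  have h := hZ.fam (Fin 2) (tt s t)
  have he : (fun p q : Fin 2 => Real.exp (-|(tt s t p : ℝ) - tt s t q|)) =
      c2 (Real.exp (-|(t : ℝ) - s|)) := by
    funext p q
    unfold c2 tt
    fin_cases p <;> fin_cases q <;> simp [abs_sub_comm]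
  rw [he] at h
  exact h

theorem meas_pair (hZ : OPr S P Z) (s t : ℝ≥0) :
    Measurable fun ω (p : Fin 2) => Z ω (tt s t p) :=
  measurable_pi_lambda _ fun p => hZ.meas _

/-- probability of an event of a pair of times -/
theorem prob_pair (hZ : OPr S P Z) (s t : ℝ≥0) (F : (E →L[ℝ] E) → ℝ) (x : ℝ) {b : ℝ≥0∞}
    (hb : (P.map fun ω (p : Fin 2) => Z ω (tt s t p)) {M | x < |F (M 1) - F (M 0)|} ≤ b) :
    P {ω | x < |F (Z ω t) - F (Z ω s)|} ≤ b := by
  refine le_trans ?_ hb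
  have h := Measure.le_map_apply (μ := P) (meas_pair hZ s t).aemeasurable
    {M : Fin 2 → E →L[ℝ] E | x < |F (M 1) - F (M 0)|}
  have he : (fun ω (p : Fin 2) => Z ω (tt s t p)) ⁻¹'
      {M : Fin 2 → E →L[ℝ] E | x < |F (M 1) - F (M 0)|} =
      {ω | x < |F (Z ω t) - F (Z ω s)|} := by
    ext ω
    simp [tt]
  rw [he] at h
  exact h

theorem tau_mul (s t : ℝ≥0) (k : ℕ) :
    ((k : ℝ) + 1) * |((t / ((k : ℝ≥0) + 1) : ℝ≥0) : ℝ) - ((s / ((k : ℝ≥0) + 1) : ℝ≥0) : ℝ)| =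
      |(t : ℝ) - s| := by
  have h4 : (0 : ℝ) < ((k : ℝ) + 1) := by positivity
  push_cast
  rw [← sub_div, abs_div, abs_of_pos h4]
  field_simp

/-- union bound over the components -/
theorem union_bound {u : E} {j : ℕ} {kk : Fin j → ℕ} {X : Ω → Pth (Fin j ⊕ Fin j)}
    (hX : ∀ t, ∀ᵐ ω ∂P, X ω t = ent ι u (Z ω) kk t) (s t : ℝ≥0) {x : ℝ} (hx : 0 ≤ x) {b : ℝ≥0∞}
    (ha : ∀ i, P {ω | x < |av (Z ω (t / ((kk i : ℝ≥0) + 1))) u (kk i) -
      av (Z ω (s / ((kk i : ℝ≥0) + 1))) u (kk i)|} ≤ b)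
    (hb : ∀ i, P {ω | x < |bn ι (Z ω (t / ((kk i : ℝ≥0) + 1))) u (kk i) -
      bn ι (Z ω (s / ((kk i : ℝ≥0) + 1))) u (kk i)|} ≤ b) :
    P {ω | x < ‖X ω t - X ω s‖} ≤ ((2 * j : ℕ) : ℝ≥0∞) * b := by
  have h1 : P {ω | x < ‖X ω t - X ω s‖} ≤ P (⋃ i : Fin j ⊕ Fin j,
      {ω | x < |ent ι u (Z ω) kk t i - ent ι u (Z ω) kk s i|}) := by
    refine measure_mono_ae ?_
    filter_upwards [hX t, hX s] with ω h2 h3
    intro (h4 : x < ‖X ω t - X ω s‖)
    show ω ∈ (⋃ i : Fin j ⊕ Fin j, {ω | x < |ent ι u (Z ω) kk t i - ent ι u (Z ω) kk s i|})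
    rw [Set.mem_iUnion]
    by_contra hcon
    push Not at hcon
    refine absurd h4 (not_lt.2 ?_)
    rw [pi_norm_le_iff_of_nonneg hx]
    intro i
    have h5 := hcon i
    simp only [Set.mem_ofPred_eq, not_lt] at h5
    rw [h2, h3]
    exact h5
  refine h1.trans ((measure_iUnion_fintype_le _ _).trans ?_)
  calc ∑ i : Fin j ⊕ Fin j, P {ω | x < |ent ι u (Z ω) kk t i - ent ι u (Z ω) kk s i|} ≤
        ∑ _i : Fin j ⊕ Fin j, b := by
        refine Finset.sum_le_sum fun i _ => ?_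
        rcases i with i | i
        · exact ha i
        · exact hb i
    _ = ((2 * j : ℕ) : ℝ≥0∞) * b := by
        rw [Finset.sum_const, Finset.card_univ, nsmul_eq_mul]
        simp only [Fintype.card_sum, Fintype.card_fin]
        congr 2
        ring

theorem nat_mul_ofReal (n : ℕ) (r : ℝ) :
    (n : ℝ≥0∞) * ENNReal.ofReal r = ENNReal.ofReal (n * r) := by
  rw [ENNReal.ofReal_mul (Nat.cast_nonneg n), ENNReal.ofReal_natCast]

end

end MIDM

open MIDM in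
theorem specMID (hLDF : SpecLDF) : SpecMID := by
  intro ι _ _ j x ε hx hε
  obtain ⟨δ, hδ, H⟩ := hLDF ι x 3 hx (by norm_num)
  obtain ⟨A, hA⟩ : ∃ A : ℝ, A = 1 + 1 / δ + (1 / δ) ^ 42 + ((2 * j : ℕ) / (δ * ε)) ^ 7 := ⟨_, rfl⟩
  have h1δ : 0 < 1 / δ := by positivity
  have h42 : 0 < (1 / δ) ^ 42 := by positivity
  have h7 : 0 ≤ (((2 * j : ℕ) : ℝ) / (δ * ε)) ^ 7 := by positivity
  have hA0 : 0 < A := by rw [hA]; positivity
  refine ⟨1 / A, by positivity, ?_⟩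
  intro E _ _ _ S u Ω _ P _ Z kk X hu hZ hD hkk hX s t hst
  obtain ⟨D, hDdef⟩ : ∃ D : ℝ, D = dm E := ⟨_, rfl⟩
  rw [← hDdef] at hD hkk hst ⊢
  rw [one_div_one_div] at hD
  have hD1 : 1 ≤ D := by linarith
  have hD0 : 0 < D := by linarith
  have hAδ : 1 / A ≤ δ := by
    rw [one_div_le hA0 hδ]; linarith
  have hy : 1 / δ ≤ D ^ (1 / 42 : ℝ) := by
    have h1 : (1 / δ) ^ 42 ≤ D := by linarith
    have h2 : ((1 / δ) ^ 42) ^ (1 / 42 : ℝ) ≤ D ^ (1 / 42 : ℝ) :=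
      Real.rpow_le_rpow h42.le h1 (by norm_num)
    have h3 : ((1 / δ) ^ 42) ^ (1 / 42 : ℝ) = 1 / δ := by
      have := Real.pow_rpow_inv_natCast h1δ.le (n := 42) (by norm_num)
      simpa [one_div] using this
    linarith
  have hz : ((2 * j : ℕ) : ℝ) / (δ * ε) ≤ D ^ (1 / 7 : ℝ) := by
    have h1 : (((2 * j : ℕ) : ℝ) / (δ * ε)) ^ 7 ≤ D := by linarith
    have h2 := Real.rpow_le_rpow h7 h1 (by norm_num : (0 : ℝ) ≤ 1 / 7)
    have h3 : ((((2 * j : ℕ) : ℝ) / (δ * ε)) ^ 7) ^ (1 / 7 : ℝ) = ((2 * j : ℕ) : ℝ) / (δ * ε) := by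
      have := Real.pow_rpow_inv_natCast (x := ((2 * j : ℕ) : ℝ) / (δ * ε)) (by positivity)
        (n := 7) (by norm_num)
      simpa [one_div] using this
    rw [h3] at h2
    exact h2
  have hst' : |(t : ℝ) - s| ≤ δ * D ^ (-(1 / 7) : ℝ) := by
    refine hst.trans ?_
    have h1 : D ^ (-(1 / 7) : ℝ) = D ^ (1 / 42 : ℝ) * D ^ (-(1 / 6) : ℝ) := by
      rw [← Real.rpow_add hD0]; norm_num
    have h2 : 1 ≤ δ * D ^ (1 / 42 : ℝ) := by
      calc (1 : ℝ) = δ * (1 / δ) := by field_simp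
        _ ≤ δ * D ^ (1 / 42 : ℝ) := mul_le_mul_of_nonneg_left hy hδ.le
    rw [h1, ← mul_assoc]
    exact le_mul_of_one_le_left (Real.rpow_nonneg hD0.le _) h2
  have key : ∀ i, (P.map fun ω (p : Fin 2) => Z ω (tt (s / ((kk i : ℝ≥0) + 1))
        (t / ((kk i : ℝ≥0) + 1)) p)) {M | x < |av (M 1) u (kk i) - av (M 0) u (kk i)|} ≤
      ENNReal.ofReal (1 / δ * Real.exp (-3 * D ^ (1 / 7 : ℝ))) ∧
      (P.map fun ω (p : Fin 2) => Z ω (tt (s / ((kk i : ℝ≥0) + 1))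
        (t / ((kk i : ℝ≥0) + 1)) p)) {M | x < |bn ι (M 1) u (kk i) - bn ι (M 0) u (kk i)|} ≤
      ENNReal.ofReal (1 / δ * Real.exp (-3 * D ^ (1 / 7 : ℝ))) := by
    intro i
    have h := H E S u _ _ (abs_nonneg _)
      (pair_fam hZ (s / ((kk i : ℝ≥0) + 1)) (t / ((kk i : ℝ≥0) + 1))) hu (kk i)
    rw [← hDdef] at h
    refine h (by linarith) ?_ ?_
    · refine (hkk i).trans ?_
      exact mul_le_mul_of_nonneg_right hAδ (Real.rpow_nonneg hD0.le _)
    · rw [tau_mul]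
      exact hst'
  refine (union_bound hX s t hx.le
    (b := ENNReal.ofReal (1 / δ * Real.exp (-3 * D ^ (1 / 7 : ℝ))))
    (fun i => prob_pair hZ _ _ (fun A => av A u (kk i)) x (key i).1)
    (fun i => prob_pair hZ _ _ (fun A => bn ι A u (kk i)) x (key i).2)).trans ?_
  rw [nat_mul_ofReal]
  refine ENNReal.ofReal_le_ofReal ?_
  obtain ⟨w, hw⟩ : ∃ w : ℝ, w = D ^ (1 / 7 : ℝ) := ⟨_, rfl⟩
  rw [← hw] at hz ⊢
  have h1 : Real.exp (-3 * w) = Real.exp (-w) / (Real.exp w * Real.exp w) := by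
    rw [← Real.exp_add, ← Real.exp_sub]; ring_nf
  have h2 : w ≤ Real.exp w := by
    have := Real.add_one_le_exp w; linarith
  rw [h1]
  have h3 : ((2 * j : ℕ) : ℝ) * (1 / δ * (Real.exp (-w) / (Real.exp w * Real.exp w))) =
      (((2 * j : ℕ) : ℝ) * (1 / δ) * Real.exp (-w)) / (Real.exp w * Real.exp w) := by ring
  rw [h3]
  refine div_le_div_of_nonneg_right ?_ (by positivity)
  have h4 : ((2 * j : ℕ) : ℝ) * (1 / δ) ≤ ε * Real.exp w := by
    have h5 : ((2 * j : ℕ) : ℝ) / (δ * ε) ≤ Real.exp w := hz.trans h2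
    rw [div_le_iff₀ (by positivity)] at h5
    rw [mul_one_div, div_le_iff₀ hδ]
    linarith
  calc ((2 * j : ℕ) : ℝ) * (1 / δ) * Real.exp (-w) ≤ ε * Real.exp w * Real.exp (-w) :=
        mul_le_mul_of_nonneg_right h4 (Real.exp_pos _).le
    _ = ε := by rw [mul_assoc, ← Real.exp_add]; simp

end Pool.Agent.Lib.MP17fa2c
end

section
/-!
# Module PR2: the process theorem, three-scale version
-/
set_option autoImplicit false

open MeasureTheory ProbabilityTheory Filter Topology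
open scoped RealInnerProductSpace NNReal ENNReal BoundedContinuousFunction Quaternion

namespace Pool.Agent.Lib.MP17fa2c

namespace PR2M

theorem two_mono {K : Type} [Fintype K] {Ω : Type*} [MeasurableSpace Ω] {P : Measure Ω}
    {X : Ω → Pth K} {C C' a e : ℝ} (h : TwoScale P X C a e) (hC : C ≤ C') :
    TwoScale P X C' a e := by
  obtain ⟨h1, h2, h3, h4, h5⟩ := h
  refine ⟨h1, h2, h3, h4, ?_⟩
  intro s t hst x hx
  refine (h5 s t hst x hx).trans (ENNReal.ofReal_le_ofReal ?_)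
  apply mul_le_mul_of_nonneg_right _ (by positivity)
  apply mul_le_mul_of_nonneg_right hC
  have : 0 ≤ ((t : ℝ) - s) ^ 2 := sq_nonneg _
  linarith

theorem three_mono {K : Type} [Fintype K] {Ω : Type*} [MeasurableSpace Ω] {P : Measure Ω}
    {X : Ω → Pth K} {C C' a e : ℝ} {L : ℕ} (h : ThreeScale P X C a e L) (hC : C ≤ C') :
    ThreeScale P X C' a e L := by
  obtain ⟨h1, h2, h3, h4, h5⟩ := h
  refine ⟨h1, h2, h3, h4, ?_⟩
  intro s t hst x hx
  refine (h5 s t hst x hx).trans (ENNReal.ofReal_le_ofReal ?_)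
  apply mul_le_mul_of_nonneg_right _ (by positivity)
  apply mul_le_mul_of_nonneg_right hC
  have : 0 ≤ |(t : ℝ) - s| ^ 3 := by positivity
  linarith

theorem exL (D : ℝ) : ∃ L : ℕ, 1 ≤ D → D ^ (1 / 6 : ℝ) ≤ (2 : ℝ) ^ L ∧
    (2 : ℝ) ^ L ≤ 2 * D ^ (1 / 6 : ℝ) := by
  by_cases hD : 1 ≤ D
  · have h1 : (1 : ℝ) ≤ D ^ (1 / 6 : ℝ) := Real.one_le_rpow hD (by norm_num)
    obtain ⟨n, hn1, hn2⟩ := exists_nat_pow_near h1 (by norm_num : (1 : ℝ) < 2)
    refine ⟨n + 1, fun _ => ⟨hn2.le, ?_⟩⟩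
    rw [pow_succ]
    linarith
  · exact ⟨0, fun h => absurd h hD⟩

/-- `4 x^{1/3} ≤ exp (x^{1/7})` for large `x` -/
theorem expb : ∀ᶠ x : ℝ in atTop, 4 * x ^ (1 / 3 : ℝ) ≤ Real.exp (x ^ (1 / 7 : ℝ)) := by
  have h1 := (isLittleO_rpow_exp_atTop (7 / 3 : ℝ)).bound (by norm_num : (0 : ℝ) < 1 / 4)
  have h2 : Tendsto (fun x : ℝ => x ^ (1 / 7 : ℝ)) atTop atTop := tendsto_rpow_atTop (by norm_num)
  filter_upwards [h2.eventually h1, eventually_ge_atTop (0 : ℝ)] with x hx hx0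
  have h3 : (x ^ (1 / 7 : ℝ)) ^ (7 / 3 : ℝ) = x ^ (1 / 3 : ℝ) := by
    rw [← Real.rpow_mul hx0]
    norm_num
  rw [h3, Real.norm_eq_abs, Real.norm_eq_abs, abs_of_nonneg (by positivity),
    abs_of_pos (Real.exp_pos _)] at hx
  linarith

end PR2M

theorem specPR2 (hFDD : SpecFDD) (hTX3 : SpecTX3) (hMID : SpecMID) (hOUT : SpecOUT)
    (hWC3 : SpecWC3) : SpecPR2 := by
  intro ι _ _ E _ _ _ S u Ω _ P _ Z j kk X Ω' _ P' _ Y hu hZ hdm hkk hinj hdepth hpos hX hent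
    hOU Φ
  obtain ⟨C₀, C₁, D₀, δ, hC₀, hC₁, hδ, hT⟩ := hTX3 ι j
  obtain ⟨hO1, hO2⟩ := hOUT (Fin j ⊕ Fin j) Ω' P' Y hOU
  have hge : ∀ η : ℝ, 0 < η → ∀ᶠ n in atTop, ∀ i, (kk n i : ℝ) + 1 ≤
      η * dm (E n) ^ (3 / 7 : ℝ) := by
    intro η hη
    rw [eventually_all]
    intro i
    filter_upwards [(hdepth i).eventually (gt_mem_nhds hη)] with n hn
    have h0 := hpos n
    rw [div_lt_iff₀ (by positivity)] at hn
    exact hn.le
  have hsmall : ∀ i, Tendsto (fun n => ((kk n i : ℝ) + 1) / Real.sqrt (dm (E n))) atTop (𝓝 0) := by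
    intro i
    refine squeeze_zero' (Eventually.of_forall fun n => by positivity) ?_ (hdepth i)
    filter_upwards [hdm.eventually_ge_atTop 1] with n hn
    have h0 := hpos n
    apply div_le_div_of_nonneg_left (by positivity) (by positivity)
    rw [Real.sqrt_eq_rpow]
    exact Real.rpow_le_rpow_of_exponent_le hn (by norm_num)
  have hfd := hFDD ι E S u Ω P Z j kk X Ω' P' Y hu hZ hkk hinj hsmall hpos hX hent hOU
  choose L hL using fun n => PR2M.exL (dm (E n))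
  have hgood : ∀ᶠ n in atTop, ThreeScale (P n) (X n) C₀ (Real.exp (dm (E n) ^ (1 / 7 : ℝ)))
      (dm (E n) ^ (-(4 / 7) : ℝ)) (L n) ∧
      ∀ R : ℝ, 0 < R → P n {ω | R < ‖X n ω 0‖} ≤ ENNReal.ofReal (C₁ / R ^ 2) := by
    filter_upwards [hdm.eventually_ge_atTop D₀, hdm.eventually_ge_atTop 1, hge δ hδ, hent] with
      n h1 h2 h3 h4
    exact hT (E n) (S n) (u n) (Ω n) (P n) (Z n) (kk n) (X n) (L n) (hu n) (hZ n) h1 h3
      (hL n h2).2 (hX n) h4
  set K1 : ℝ := 192 * Fintype.card (Fin j ⊕ Fin j) + 1 with hK1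
  set K2 : ℝ := 2 * Fintype.card (Fin j ⊕ Fin j) with hK2
  refine hWC3 (Fin j ⊕ Fin j) Ω P X Ω' P' Y (max C₀ K1) (max C₁ K2)
    (fun n => Real.exp (dm (E n) ^ (1 / 7 : ℝ))) (fun n => dm (E n) ^ (-(4 / 7) : ℝ))
    (fun n => Real.exp (dm (E n) ^ (1 / 7 : ℝ))) L K1 0 hX hOU.meas
    (hC₀.trans (le_max_left _ _)) (hC₁.trans (le_max_left _ _)) ?_ ?_ ?_ ?_
    (PR2M.two_mono hO1 (le_max_right _ _)) ?_ ?_ hfd Φ
  · filter_upwards [hgood] with n hn
    exact PR2M.three_mono hn.1 (le_max_left _ _)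
  · exact Real.tendsto_exp_atTop.comp ((tendsto_rpow_atTop (by norm_num)).comp hdm)
  · filter_upwards [hdm.eventually_ge_atTop 1, hdm.eventually PR2M.expb] with n h1 h2
    have h3 := (hL n h1).2
    have h0 : 0 < dm (E n) := hpos n
    refine le_trans ?_ h2
    calc (4 : ℝ) ^ L n = ((2 : ℝ) ^ L n) ^ 2 := by
          rw [← pow_mul, mul_comm (L n) 2, pow_mul]
          norm_num
      _ ≤ (2 * dm (E n) ^ (1 / 6 : ℝ)) ^ 2 := pow_le_pow_left₀ (by positivity) h3 2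
      _ = 4 * dm (E n) ^ (1 / 3 : ℝ) := by
          rw [mul_pow, ← Real.rpow_natCast (dm (E n) ^ (1 / 6 : ℝ)), ← Real.rpow_mul h0.le]
          norm_num
  · intro x hx ε hε
    obtain ⟨δ', hδ', hM⟩ := hMID ι j x ε hx hε
    filter_upwards [hdm.eventually_ge_atTop (1 / δ'), hdm.eventually_ge_atTop 1, hge δ' hδ',
      hent] with n h1 h2 h3 h4
    intro s t hst
    refine hM (E n) (S n) (u n) (Ω n) (P n) (Z n) (kk n) (X n) (hu n) (hZ n) h1 h3 h4 s t
      (hst.trans ?_)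
    have h0 : 0 < dm (E n) := hpos n
    rw [Real.rpow_neg h0.le, one_div]
    exact inv_anti₀ (by positivity) (hL n h2).1
  · filter_upwards [hgood] with n hn
    intro R hR
    refine (hn.2 R hR).trans (ENNReal.ofReal_le_ofReal ?_)
    exact div_le_div_of_nonneg_right (le_max_left _ _) (by positivity)
  · intro R hR
    refine (hO2 R hR).trans (ENNReal.ofReal_le_ofReal ?_)
    exact div_le_div_of_nonneg_right (le_max_right _ _) (by positivity)

end Pool.Agent.Lib.MP17fa2c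
end

section
/-!
# MP_17fa2c_pr, module TX3: three-scale bound for the process of rescaled entries
-/
set_option autoImplicit false

open MeasureTheory ProbabilityTheory Filter Topology
open scoped RealInnerProductSpace NNReal ENNReal BoundedContinuousFunction Quaternion

namespace Pool.Agent.Lib.MP17fa2c

namespace TX3M

section

variable {ι : Type} [Fintype ι] [DecidableEq ι] {E : Type} [NormedAddCommGroup E]
  [InnerProductSpace ℝ E] [FiniteDimensional ℝ E] {S : BStr ι E}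
  {Ω : Type} [MeasurableSpace Ω] {P : Measure Ω} {Z : Ω → ℝ≥0 → E →L[ℝ] E}

/-- integral of a function of a pair of times -/
theorem int_pair (hZ : OPr S P Z) (s t : ℝ≥0) (F : (Fin 2 → E →L[ℝ] E) → ℝ≥0∞)
    (hF : Measurable F) :
    ∫⁻ ω, F (fun p => Z ω (MIDM.tt s t p)) ∂P =
      ∫⁻ M, F M ∂(P.map fun ω (p : Fin 2) => Z ω (MIDM.tt s t p)) := by
  rw [lintegral_map hF (MIDM.meas_pair hZ s t)]

/-- Chebyshev -/
theorem cheb {α : Type*} [MeasurableSpace α] {μ : Measure α} {f : α → ℝ}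
    (h : ∫ a, f a ^ 2 ∂μ ≠ 0) {B : ℝ} (hB : ∫ a, f a ^ 2 ∂μ ≤ B) {R : ℝ} (hR : 0 < R) :
    μ {a | R < |f a|} ≤ ENNReal.ofReal (B / R ^ 2) := by
  have hint : Integrable (fun a => f a ^ 2) μ := by
    by_contra hc
    exact h (integral_undef hc)
  have h1 : ENNReal.ofReal (R ^ 2) * μ {a | ENNReal.ofReal (R ^ 2) ≤ ENNReal.ofReal (f a ^ 2)} ≤
      ∫⁻ a, ENNReal.ofReal (f a ^ 2) ∂μ :=
    mul_meas_ge_le_lintegral₀ hint.aestronglyMeasurable.aemeasurable.ennreal_ofReal _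
  have h2 : ∫⁻ a, ENNReal.ofReal (f a ^ 2) ∂μ ≤ ENNReal.ofReal B := by
    rw [← ofReal_integral_eq_lintegral_ofReal hint (Filter.Eventually.of_forall fun a => sq_nonneg _)]
    exact ENNReal.ofReal_le_ofReal hB
  have h3 : μ {a | R < |f a|} ≤
      μ {a | ENNReal.ofReal (R ^ 2) ≤ ENNReal.ofReal (f a ^ 2)} := by
    refine measure_mono fun a ha => ?_
    rw [Set.mem_ofPred_eq] at ha ⊢
    refine ENNReal.ofReal_le_ofReal ?_
    rw [← sq_abs (f a)]
    exact pow_le_pow_left₀ hR.le ha.le 2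
  have hR2 : 0 < R ^ 2 := by positivity
  rw [ENNReal.ofReal_div_of_pos hR2, ENNReal.le_div_iff_mul_le
    (Or.inl (by simpa using hR.ne')) (Or.inl ENNReal.ofReal_ne_top), mul_comm]
  exact (mul_le_mul_right h3 _).trans (h1.trans h2)

/-- fourth power of the sup norm -/
theorem norm4 {K : Type} [Fintype K] (v : K → ℝ) : ‖v‖ ^ 4 ≤ ∑ i, v i ^ 4 := by
  rcases isEmpty_or_nonempty K with hK | hK
  · have : v = 0 := Subsingleton.elim _ _
    simp [this]
  · obtain ⟨i, hi⟩ : ∃ i, ‖v‖ = ‖v i‖ := by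
      obtain ⟨i, hi⟩ := exists_eq_ciSup_of_finite (f := fun i => ‖v i‖)
      refine ⟨i, ?_⟩
      rw [hi]
      refine le_antisymm ?_ ?_
      · rw [pi_norm_le_iff_of_nonneg (Real.iSup_nonneg fun i => norm_nonneg _)]
        intro k
        exact le_ciSup (Set.finite_range fun i => ‖v i‖).bddAbove k
      · rw [← hi]
        exact norm_le_pi_norm v i
    rw [hi, Real.norm_eq_abs]
    have h1 : |v i| ^ 4 = v i ^ 4 := by
      rw [← abs_pow]
      exact abs_of_nonneg (by positivity)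
    rw [h1]
    exact Finset.single_le_sum (f := fun i => v i ^ 4) (fun i _ => by positivity)
      (Finset.mem_univ i)

/-- fourth moment of the increment of the process -/
theorem lint_bound {u : E} {j : ℕ} {kk : Fin j → ℕ} {X : Ω → Pth (Fin j ⊕ Fin j)}
    (hX : ∀ t, ∀ᵐ ω ∂P, X ω t = ent ι u (Z ω) kk t) (s t : ℝ≥0) {ba bb : ℝ≥0∞}
    (ma : ∀ (k : ℕ) (t' : ℝ≥0), Measurable fun ω => av (Z ω t') u k)
    (mb : ∀ (k : ℕ) (t' : ℝ≥0), Measurable fun ω => bn ι (Z ω t') u k)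
    (ha : ∀ i, ∫⁻ ω, ENNReal.ofReal ((av (Z ω (t / ((kk i : ℝ≥0) + 1))) u (kk i) -
      av (Z ω (s / ((kk i : ℝ≥0) + 1))) u (kk i)) ^ 4) ∂P ≤ ba)
    (hb : ∀ i, ∫⁻ ω, ENNReal.ofReal ((bn ι (Z ω (t / ((kk i : ℝ≥0) + 1))) u (kk i) -
      bn ι (Z ω (s / ((kk i : ℝ≥0) + 1))) u (kk i)) ^ 4) ∂P ≤ bb) :
    ∫⁻ ω, ENNReal.ofReal (‖X ω t - X ω s‖ ^ 4) ∂P ≤ (j : ℝ≥0∞) * (ba + bb) := by
  have ment : ∀ (i : Fin j ⊕ Fin j) (t : ℝ≥0), Measurable fun ω => ent ι u (Z ω) kk t i := by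
    intro i t
    rcases i with i | i
    · exact ma _ _
    · exact mb _ _
  calc ∫⁻ ω, ENNReal.ofReal (‖X ω t - X ω s‖ ^ 4) ∂P ≤
        ∫⁻ ω, ∑ i : Fin j ⊕ Fin j,
          ENNReal.ofReal ((ent ι u (Z ω) kk t i - ent ι u (Z ω) kk s i) ^ 4) ∂P := by
        refine lintegral_mono_ae ?_
        filter_upwards [hX t, hX s] with ω h1 h2
        rw [h1, h2, ← ENNReal.ofReal_sum_of_nonneg (fun i _ => by positivity)]
        exact ENNReal.ofReal_le_ofReal (norm4 _)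
    _ = ∑ i : Fin j ⊕ Fin j, ∫⁻ ω,
          ENNReal.ofReal ((ent ι u (Z ω) kk t i - ent ι u (Z ω) kk s i) ^ 4) ∂P := by
        rw [lintegral_finsetSum]
        intro i _
        exact (((ment i t).sub (ment i s)).pow_const 4).ennreal_ofReal
    _ ≤ (∑ _i : Fin j, ba) + ∑ _i : Fin j, bb := by
        rw [Fintype.sum_sum_type]
        exact add_le_add (Finset.sum_le_sum fun i _ => ha i) (Finset.sum_le_sum fun i _ => hb i)
    _ = (j : ℝ≥0∞) * (ba + bb) := by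
        simp only [Finset.sum_const, Finset.card_univ, Fintype.card_fin, nsmul_eq_mul]
        ring

/-- union bound at a single time -/
theorem union0 {u : E} {j : ℕ} {kk : Fin j → ℕ} {X : Ω → Pth (Fin j ⊕ Fin j)}
    (hX : ∀ t, ∀ᵐ ω ∂P, X ω t = ent ι u (Z ω) kk t) (t : ℝ≥0) {x : ℝ} (hx : 0 ≤ x) {b : ℝ≥0∞}
    (ha : ∀ i, P {ω | x < |av (Z ω (t / ((kk i : ℝ≥0) + 1))) u (kk i)|} ≤ b)
    (hb : ∀ i, P {ω | x < |bn ι (Z ω (t / ((kk i : ℝ≥0) + 1))) u (kk i)|} ≤ b) :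
    P {ω | x < ‖X ω t‖} ≤ ((2 * j : ℕ) : ℝ≥0∞) * b := by
  have h1 : P {ω | x < ‖X ω t‖} ≤ P (⋃ i : Fin j ⊕ Fin j,
      {ω | x < |ent ι u (Z ω) kk t i|}) := by
    refine measure_mono_ae ?_
    filter_upwards [hX t] with ω h2
    intro (h4 : x < ‖X ω t‖)
    show ω ∈ (⋃ i : Fin j ⊕ Fin j, {ω | x < |ent ι u (Z ω) kk t i|})
    rw [Set.mem_iUnion]
    by_contra hcon
    push Not at hcon
    refine absurd h4 (not_lt.2 ?_)
    rw [pi_norm_le_iff_of_nonneg hx]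
    intro i
    have h5 := hcon i
    simp only [Set.mem_ofPred_eq, not_lt] at h5
    rw [h2]
    exact h5
  refine h1.trans ((measure_iUnion_fintype_le _ _).trans ?_)
  calc ∑ i : Fin j ⊕ Fin j, P {ω | x < |ent ι u (Z ω) kk t i|} ≤
        ∑ _i : Fin j ⊕ Fin j, b := by
        refine Finset.sum_le_sum fun i _ => ?_
        rcases i with i | i
        · exact ha i
        · exact hb i
    _ = ((2 * j : ℕ) : ℝ≥0∞) * b := by
        rw [Finset.sum_const, Finset.card_univ, nsmul_eq_mul]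
        simp only [Fintype.card_sum, Fintype.card_fin]
        congr 2
        ring

end

/-- numbers -/
theorem num {A D κ δ : ℝ} (hA : 1 ≤ A) (hδ : δ = 1 / A) (hD : 1 ≤ D) (hκ : 0 ≤ κ)
    (hκD : κ ≤ δ * D ^ (3 / 7 : ℝ)) :
    (∀ B : ℝ, 0 ≤ B → B ≤ A → B * κ ≤ D) ∧ (∀ B : ℝ, 0 ≤ B → 2 * B ≤ A → B * κ ≤ D / 2) ∧
    κ ^ (1 / 100 : ℝ) ≤ D ^ (1 / 7 : ℝ) ∧
    ∀ B : ℝ, 0 ≤ B → 2 * B ≤ A → B * Real.sqrt (κ ^ 3 / D) ≤ D ^ (1 / 7 : ℝ) / 2 := by
  have hA0 : 0 < A := by linarith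
  have hδ0 : 0 < δ := by rw [hδ]; positivity
  have hδ1 : δ ≤ 1 := by rw [hδ, div_le_one hA0]; exact hA
  have hD0 : 0 < D := by linarith
  have hAδ : A * δ = 1 := by rw [hδ]; field_simp
  have hDp : D ^ (3 / 7 : ℝ) ≤ D := by
    calc D ^ (3 / 7 : ℝ) ≤ D ^ (1 : ℝ) := Real.rpow_le_rpow_of_exponent_le hD (by norm_num)
      _ = D := Real.rpow_one D
  have hDp0 : 0 < D ^ (3 / 7 : ℝ) := Real.rpow_pos_of_pos hD0 _
  have hκ1 : κ ≤ D ^ (3 / 7 : ℝ) := hκD.trans (mul_le_of_le_one_left hDp0.le hδ1)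
  have hκ2 : κ ≤ δ * D := hκD.trans (mul_le_mul_of_nonneg_left hDp hδ0.le)
  refine ⟨?_, ?_, ?_, ?_⟩
  · intro B hB0 hB
    calc B * κ ≤ A * (δ * D) := mul_le_mul hB hκ2 hκ hA0.le
      _ = (A * δ) * D := by ring
      _ = D := by rw [hAδ, one_mul]
  · intro B hB0 hB
    calc B * κ ≤ (A / 2) * (δ * D) := mul_le_mul (by linarith) hκ2 hκ (by positivity)
      _ = (A * δ) * D / 2 := by ring
      _ = D / 2 := by rw [hAδ, one_mul]
  · calc κ ^ (1 / 100 : ℝ) ≤ (D ^ (3 / 7 : ℝ)) ^ (1 / 100 : ℝ) :=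
          Real.rpow_le_rpow hκ hκ1 (by norm_num)
      _ = D ^ (3 / 700 : ℝ) := by rw [← Real.rpow_mul hD0.le]; norm_num
      _ ≤ D ^ (1 / 7 : ℝ) := Real.rpow_le_rpow_of_exponent_le hD (by norm_num)
  · intro B hB0 hB
    have h1 : κ ^ 3 / D ≤ (δ * D ^ (1 / 7 : ℝ)) ^ 2 := by
      rw [div_le_iff₀ hD0]
      have h2 : κ ^ 3 ≤ (δ * D ^ (3 / 7 : ℝ)) ^ 3 := pow_le_pow_left₀ hκ hκD 3
      have h3 : (D ^ (3 / 7 : ℝ)) ^ 3 = (D ^ (1 / 7 : ℝ)) ^ 2 * D := by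
        rw [← Real.rpow_natCast, ← Real.rpow_natCast, ← Real.rpow_mul hD0.le,
          ← Real.rpow_mul hD0.le]
        nth_rewrite 3 [← Real.rpow_one D]
        rw [← Real.rpow_add hD0]
        norm_num
      have h4 : δ ^ 3 ≤ δ ^ 2 := pow_le_pow_of_le_one hδ0.le hδ1 (by norm_num)
      calc κ ^ 3 ≤ (δ * D ^ (3 / 7 : ℝ)) ^ 3 := h2
        _ = δ ^ 3 * ((D ^ (1 / 7 : ℝ)) ^ 2 * D) := by rw [mul_pow, h3]
        _ ≤ δ ^ 2 * ((D ^ (1 / 7 : ℝ)) ^ 2 * D) :=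
            mul_le_mul_of_nonneg_right h4 (by positivity)
        _ = _ := by ring
    have h5 : Real.sqrt (κ ^ 3 / D) ≤ δ * D ^ (1 / 7 : ℝ) := by
      refine (Real.sqrt_le_sqrt h1).trans ?_
      rw [Real.sqrt_sq (by positivity)]
    calc B * Real.sqrt (κ ^ 3 / D) ≤ (A / 2) * (δ * D ^ (1 / 7 : ℝ)) :=
          mul_le_mul (by linarith) h5 (Real.sqrt_nonneg _) (by positivity)
      _ = (A * δ) * D ^ (1 / 7 : ℝ) / 2 := by ring
      _ = _ := by rw [hAδ, one_mul]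

end TX3M

open TX3M MIDM in
theorem specTX3 (hTSK : SpecTSK) (hLDP : SpecLDP) (hRHO : SpecRHO) (hMEA : SpecMEA) :
    SpecTX3 := by
  intro ι _ _ j
  obtain ⟨Ct, hCt, HT⟩ := hTSK ι
  obtain ⟨Cp, δp, hCp, hδp, HP⟩ := hLDP ι
  obtain ⟨Cr, hCr, HR⟩ := hRHO ι
  obtain ⟨β, hβ⟩ : ∃ β : ℝ, β = (Fintype.card ι : ℝ) := ⟨_, rfl⟩
  have hβ0 : 0 ≤ β := by rw [hβ]; exact Nat.cast_nonneg _
  have hpp : 0 < 1 / δp := by positivity
  obtain ⟨A, hA⟩ : ∃ A : ℝ, A = 1 + 2 * Ct + 2 * β + Cr + 1 / δp := ⟨_, rfl⟩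
  have hA1 : 1 ≤ A := by linarith
  have hA0 : 0 < A := by linarith
  obtain ⟨δ, hδ⟩ : ∃ δ : ℝ, δ = 1 / A := ⟨_, rfl⟩
  have hδ0 : 0 < δ := by rw [hδ]; positivity
  refine ⟨((2 * j : ℕ) : ℝ) * Cp, ((2 * j : ℕ) : ℝ) * 2,
    1 / δp + (40 * j * Ct) ^ 7 + 1024, δ, by positivity, by positivity, hδ0, ?_⟩
  intro E _ _ _ S u Ω _ P _ Z kk X L hu hZ hD hkk hL mX hX
  obtain ⟨D, hDdef⟩ : ∃ D : ℝ, D = dm E := ⟨_, rfl⟩
  rw [← hDdef] at hD hkk hL ⊢
  have h40 : (0 : ℝ) ≤ (40 * j * Ct) ^ 7 := by positivity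
  have hD1024 : 1024 ≤ D := by linarith
  have hD1 : 1 ≤ D := by linarith
  have hD0 : 0 < D := by linarith
  let _ : MeasurableSpace E := borel E
  have hBor : BorelSpace E := ⟨rfl⟩
  have mav0 : ∀ k : ℕ, Measurable fun M : E →L[ℝ] E => av M u k := fun k =>
    ((hMEA ι E Unit S u k).2.2.1 ()).comp (measurable_pi_lambda _ fun _ => measurable_id)
  have mbv0 : ∀ k : ℕ, Measurable fun M : E →L[ℝ] E => bv M u k := fun k =>
    ((hMEA ι E Unit S u k).2.2.2.1 ()).comp (measurable_pi_lambda _ fun _ => measurable_id)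
  have mbn0 : ∀ k : ℕ, Measurable fun M : E →L[ℝ] E => bn ι M u k := fun k => by
    unfold bn
    exact (((mbv0 k).pow_const 2).sub_const _).div_const _
  have hnum := fun i => num hA1 hδ hD1 (by positivity : (0 : ℝ) ≤ (kk i : ℝ) + 1) (hkk i)
  have hN : ∀ i, D / 2 ≤ nk ι E (kk i) := by
    intro i
    have h1 := (hnum i).2.1 β hβ0 (by linarith)
    have h2 : nk ι E (kk i) = D - β * ((kk i : ℝ) + 1) := by
      rw [hDdef, hβ]; rfl
    rw [h2]; linarith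
  have hN0 : ∀ i, 0 < nk ι E (kk i) := fun i => by have := hN i; linarith
  refine ⟨⟨?_, ?_, ?_, ?_, ?_⟩, ?_⟩
  · -- ha
    exact Real.one_le_exp (Real.rpow_nonneg hD0.le _)
  · exact Real.rpow_nonneg hD0.le _
  · -- e 4^L ≤ 1
    have h1 : (4 : ℝ) ^ L ≤ (2 * D ^ (1 / 6 : ℝ)) ^ 2 := by
      calc (4 : ℝ) ^ L = (2 ^ L) ^ 2 := by rw [← pow_mul, mul_comm, pow_mul]; norm_num
        _ ≤ _ := pow_le_pow_left₀ (by positivity) hL 2
    have h2 : D ^ (-(4 / 7) : ℝ) * (2 * D ^ (1 / 6 : ℝ)) ^ 2 = 4 * D ^ (-(5 / 21) : ℝ) := by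
      rw [mul_pow, ← Real.rpow_natCast (D ^ (1 / 6 : ℝ)) 2, ← Real.rpow_mul hD0.le]
      have h3 : D ^ (-(5 / 21) : ℝ) = D ^ (-(4 / 7) : ℝ) * D ^ ((1 / 6 : ℝ) * ((2 : ℕ) : ℝ)) := by
        rw [← Real.rpow_add hD0]; norm_num
      rw [h3]; ring
    have h4 : 4 * D ^ (-(5 / 21) : ℝ) ≤ 1 := by
      rw [Real.rpow_neg hD0.le, ← div_eq_mul_inv, div_le_one (Real.rpow_pos_of_pos hD0 _)]
      calc (4 : ℝ) = (1024 : ℝ) ^ (1 / 5 : ℝ) := by
            rw [show (1024 : ℝ) = 4 ^ (5 : ℝ) by norm_num, ← Real.rpow_mul (by norm_num)]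
            norm_num
        _ ≤ (1024 : ℝ) ^ (5 / 21 : ℝ) :=
            Real.rpow_le_rpow_of_exponent_le (by norm_num) (by norm_num)
        _ ≤ D ^ (5 / 21 : ℝ) := Real.rpow_le_rpow (by norm_num) hD1024 (by norm_num)
    calc D ^ (-(4 / 7) : ℝ) * 4 ^ L ≤ D ^ (-(4 / 7) : ℝ) * (2 * D ^ (1 / 6 : ℝ)) ^ 2 :=
          mul_le_mul_of_nonneg_left h1 (Real.rpow_nonneg hD0.le _)
      _ = 4 * D ^ (-(5 / 21) : ℝ) := h2
      _ ≤ 1 := h4
  · -- fine
    intro s t _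
    obtain ⟨y, hy⟩ : ∃ y : ℝ, y = D ^ (1 / 7 : ℝ) := ⟨_, rfl⟩
    have hy1 : 1 ≤ y := by rw [hy]; exact Real.one_le_rpow hD1 (by norm_num)
    have hy40 : 40 * j * Ct ≤ y := by
      have h1 : (40 * j * Ct) ^ 7 ≤ D := by linarith
      have h2 := Real.rpow_le_rpow h40 h1 (by norm_num : (0 : ℝ) ≤ 1 / 7)
      have h3 : ((40 * j * Ct) ^ 7) ^ (1 / 7 : ℝ) = 40 * j * Ct := by
        have := Real.pow_rpow_inv_natCast (x := 40 * j * Ct) (by positivity)
          (n := 7) (by norm_num)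
        simpa [one_div] using this
      rw [h3, ← hy] at h2
      exact h2
    have key : ∀ i, ∫⁻ M : Fin 2 → E →L[ℝ] E,
          ENNReal.ofReal ((av (M 1) u (kk i) - av (M 0) u (kk i)) ^ 4)
          ∂(P.map fun ω (p : Fin 2) => Z ω (tt (s / ((kk i : ℝ≥0) + 1))
            (t / ((kk i : ℝ≥0) + 1)) p)) ≤
        ENNReal.ofReal (Ct * ((t : ℝ) - s) ^ 2 * y * Real.exp (y / 2)) ∧
        ∫⁻ M : Fin 2 → E →L[ℝ] E,
          ENNReal.ofReal ((bv (M 1) u (kk i) ^ 2 - bv (M 0) u (kk i) ^ 2) ^ 4)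
          ∂(P.map fun ω (p : Fin 2) => Z ω (tt (s / ((kk i : ℝ≥0) + 1))
            (t / ((kk i : ℝ≥0) + 1)) p)) ≤
        ENNReal.ofReal (D ^ 2 * (Ct * ((t : ℝ) - s) ^ 2 * y * Real.exp (y / 2))) := by
      intro i
      have h := HT E S u _ _ (abs_nonneg _)
        (pair_fam hZ (s / ((kk i : ℝ≥0) + 1)) (t / ((kk i : ℝ≥0) + 1))) hu (kk i)
        (by rw [← hDdef]; exact (hnum i).1 Ct hCt.le (by linarith))
      have hτ := tau_mul s t (kk i)
      obtain ⟨τ, hτd⟩ : ∃ τ : ℝ, τ = |((t / ((kk i : ℝ≥0) + 1) : ℝ≥0) : ℝ) -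
        ((s / ((kk i : ℝ≥0) + 1) : ℝ≥0) : ℝ)| := ⟨_, rfl⟩
      rw [← hτd] at hτ h
      rw [← hDdef] at h
      have hmain : Ct * τ ^ 2 * ((kk i : ℝ) + 1) ^ 2 * ((kk i : ℝ) + 1) ^ (1 / 100 : ℝ) *
          Real.exp (Ct * Real.sqrt (((kk i : ℝ) + 1) ^ 3 / D)) ≤
          Ct * ((t : ℝ) - s) ^ 2 * y * Real.exp (y / 2) := by
        have e1 : Ct * τ ^ 2 * ((kk i : ℝ) + 1) ^ 2 = Ct * ((t : ℝ) - s) ^ 2 := by
          calc Ct * τ ^ 2 * ((kk i : ℝ) + 1) ^ 2 = Ct * (((kk i : ℝ) + 1) * τ) ^ 2 := by ring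
            _ = _ := by rw [hτ, sq_abs]
        rw [e1]
        have e2 := (hnum i).2.2.1
        have e3 := (hnum i).2.2.2 Ct hCt.le (by linarith)
        rw [← hy] at e2 e3
        refine mul_le_mul (mul_le_mul_of_nonneg_left e2 (by positivity))
          (Real.exp_le_exp.2 e3) (Real.exp_pos _).le (by positivity)
      refine ⟨h.1.trans (ENNReal.ofReal_le_ofReal hmain),
        h.2.trans (ENNReal.ofReal_le_ofReal ?_)⟩
      calc Ct * D ^ 2 * τ ^ 2 * ((kk i : ℝ) + 1) ^ 2 * ((kk i : ℝ) + 1) ^ (1 / 100 : ℝ) *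
          Real.exp (Ct * Real.sqrt (((kk i : ℝ) + 1) ^ 3 / D)) =
          D ^ 2 * (Ct * τ ^ 2 * ((kk i : ℝ) + 1) ^ 2 * ((kk i : ℝ) + 1) ^ (1 / 100 : ℝ) *
          Real.exp (Ct * Real.sqrt (((kk i : ℝ) + 1) ^ 3 / D))) := by ring
        _ ≤ _ := mul_le_mul_of_nonneg_left hmain (by positivity)
    obtain ⟨B, hB⟩ : ∃ B : ℝ, B = Ct * ((t : ℝ) - s) ^ 2 * y * Real.exp (y / 2) := ⟨_, rfl⟩
    rw [← hB] at key
    have hB0 : 0 ≤ B := by rw [hB]; positivity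
    have m0 : Measurable fun M : Fin 2 → E →L[ℝ] E => M 0 := measurable_pi_apply 0
    have m1 : Measurable fun M : Fin 2 → E →L[ℝ] E => M 1 := measurable_pi_apply 1
    have hA' : ∀ i, ∫⁻ ω, ENNReal.ofReal ((av (Z ω (t / ((kk i : ℝ≥0) + 1))) u (kk i) -
        av (Z ω (s / ((kk i : ℝ≥0) + 1))) u (kk i)) ^ 4) ∂P ≤ ENNReal.ofReal B := by
      intro i
      have h := int_pair hZ (s / ((kk i : ℝ≥0) + 1)) (t / ((kk i : ℝ≥0) + 1))
        (fun M => ENNReal.ofReal ((av (M 1) u (kk i) - av (M 0) u (kk i)) ^ 4))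
        (((((mav0 _).comp m1).sub ((mav0 _).comp m0)).pow_const 4).ennreal_ofReal)
      simp only [tt, one_ne_zero, if_false, if_true] at h
      rw [h]
      exact (key i).1
    have hB' : ∀ i, ∫⁻ ω, ENNReal.ofReal ((bn ι (Z ω (t / ((kk i : ℝ≥0) + 1))) u (kk i) -
        bn ι (Z ω (s / ((kk i : ℝ≥0) + 1))) u (kk i)) ^ 4) ∂P ≤ ENNReal.ofReal (4 * B) := by
      intro i
      have h := int_pair hZ (s / ((kk i : ℝ≥0) + 1)) (t / ((kk i : ℝ≥0) + 1))
        (fun M => ENNReal.ofReal ((bn ι (M 1) u (kk i) - bn ι (M 0) u (kk i)) ^ 4))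
        (((((mbn0 _).comp m1).sub ((mbn0 _).comp m0)).pow_const 4).ennreal_ofReal)
      simp only [tt, one_ne_zero, if_false, if_true] at h
      rw [h]
      have h2 : ∀ M : Fin 2 → E →L[ℝ] E,
          ENNReal.ofReal ((bn ι (M 1) u (kk i) - bn ι (M 0) u (kk i)) ^ 4) ≤
          ENNReal.ofReal (4 / D ^ 2) *
            ENNReal.ofReal ((bv (M 1) u (kk i) ^ 2 - bv (M 0) u (kk i) ^ 2) ^ 4) := by
        intro M
        rw [← ENNReal.ofReal_mul (by positivity)]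
        refine ENNReal.ofReal_le_ofReal ?_
        have h3 : bn ι (M 1) u (kk i) - bn ι (M 0) u (kk i) =
            (bv (M 1) u (kk i) ^ 2 - bv (M 0) u (kk i) ^ 2) / Real.sqrt (nk ι E (kk i)) := by
          unfold bn; ring
        have h4 : Real.sqrt (nk ι E (kk i)) ^ 4 = nk ι E (kk i) ^ 2 := by
          have := Real.sq_sqrt (hN0 i).le
          calc Real.sqrt (nk ι E (kk i)) ^ 4 = (Real.sqrt (nk ι E (kk i)) ^ 2) ^ 2 := by ring
            _ = _ := by rw [this]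
        rw [h3, div_pow, h4, div_eq_inv_mul]
        refine mul_le_mul_of_nonneg_right ?_ (by positivity)
        rw [inv_eq_one_div, div_le_div_iff₀ (by have := hN0 i; positivity) (by positivity)]
        have h5 : (D / 2) ^ 2 ≤ nk ι E (kk i) ^ 2 := pow_le_pow_left₀ (by positivity) (hN i) 2
        nlinarith
      calc ∫⁻ M : Fin 2 → E →L[ℝ] E,
            ENNReal.ofReal ((bn ι (M 1) u (kk i) - bn ι (M 0) u (kk i)) ^ 4)
            ∂(P.map fun ω (p : Fin 2) => Z ω (tt (s / ((kk i : ℝ≥0) + 1))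
              (t / ((kk i : ℝ≥0) + 1)) p)) ≤ _ := lintegral_mono h2
        _ = ENNReal.ofReal (4 / D ^ 2) * _ := lintegral_const_mul _
            ((((((mbv0 _).comp m1).pow_const 2).sub
              (((mbv0 _).comp m0).pow_const 2)).pow_const 4).ennreal_ofReal)
        _ ≤ ENNReal.ofReal (4 / D ^ 2) * ENNReal.ofReal (D ^ 2 * B) :=
            mul_le_mul_right (key i).2 _
        _ = ENNReal.ofReal (4 * B) := by
            rw [← ENNReal.ofReal_mul (by positivity)]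
            congr 1
            field_simp
    refine (lint_bound hX s t (fun k t' => (mav0 k).comp (hZ.meas t'))
      (fun k t' => (mbn0 k).comp (hZ.meas t')) hA' hB').trans ?_
    rw [← ENNReal.ofReal_add hB0 (by positivity), nat_mul_ofReal]
    refine ENNReal.ofReal_le_ofReal ?_
    rw [← hy, hB]
    have h1 : Real.exp y = Real.exp (y / 2) * Real.exp (y / 2) := by
      rw [← Real.exp_add]; ring_nf
    have h2 : (j : ℝ) * (5 * Ct * y) ≤ Real.exp (y / 2) := by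
      have h3 := Real.quadratic_le_exp_of_nonneg (x := y / 2) (by positivity)
      nlinarith
    have h3 : 0 ≤ ((t : ℝ) - s) ^ 2 := sq_nonneg _
    calc (j : ℝ) * (Ct * ((t : ℝ) - s) ^ 2 * y * Real.exp (y / 2) +
          4 * (Ct * ((t : ℝ) - s) ^ 2 * y * Real.exp (y / 2))) =
          (j * (5 * Ct * y)) * Real.exp (y / 2) * ((t : ℝ) - s) ^ 2 := by ring
      _ ≤ Real.exp (y / 2) * Real.exp (y / 2) * ((t : ℝ) - s) ^ 2 :=
          mul_le_mul_of_nonneg_right (mul_le_mul_of_nonneg_right h2 (Real.exp_pos _).le) h3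
      _ = _ := by rw [h1]
  · -- coarse
    intro s t hst x hx
    have key : ∀ i, (P.map fun ω (p : Fin 2) => Z ω (tt (s / ((kk i : ℝ≥0) + 1))
          (t / ((kk i : ℝ≥0) + 1)) p)) {M | x < |av (M 1) u (kk i) - av (M 0) u (kk i)|} ≤
        ENNReal.ofReal (Cp * (|(t : ℝ) - s| ^ 3 + D ^ (-(4 / 7) : ℝ)) *
          ((x ^ 2)⁻¹ + (x ^ 8)⁻¹)) ∧
        (P.map fun ω (p : Fin 2) => Z ω (tt (s / ((kk i : ℝ≥0) + 1))
          (t / ((kk i : ℝ≥0) + 1)) p)) {M | x < |bn ι (M 1) u (kk i) - bn ι (M 0) u (kk i)|} ≤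
        ENNReal.ofReal (Cp * (|(t : ℝ) - s| ^ 3 + D ^ (-(4 / 7) : ℝ)) *
          ((x ^ 2)⁻¹ + (x ^ 8)⁻¹)) := by
      intro i
      have h := HP E S u _ _ (abs_nonneg _)
        (pair_fam hZ (s / ((kk i : ℝ≥0) + 1)) (t / ((kk i : ℝ≥0) + 1))) hu (kk i) x
      rw [← hDdef, tau_mul] at h
      refine h (by linarith) ?_ hst hx
      refine (hkk i).trans (mul_le_mul_of_nonneg_right ?_ (Real.rpow_nonneg hD0.le _))
      rw [hδ, one_div_le hA0 hδp]
      linarith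
    refine (union_bound hX s t hx.le
      (fun i => prob_pair hZ _ _ (fun A => av A u (kk i)) x (key i).1)
      (fun i => prob_pair hZ _ _ (fun A => bn ι A u (kk i)) x (key i).2)).trans ?_
    rw [nat_mul_ofReal]
    refine ENNReal.ofReal_le_ofReal (le_of_eq ?_)
    ring
  · -- initial value
    intro R hR
    have key : ∀ i, P {ω | R < |av (Z ω (0 / ((kk i : ℝ≥0) + 1))) u (kk i)|} ≤
        ENNReal.ofReal (2 / R ^ 2) ∧
        P {ω | R < |bn ι (Z ω (0 / ((kk i : ℝ≥0) + 1))) u (kk i)|} ≤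
        ENNReal.ofReal (2 / R ^ 2) := by
      intro i
      have hm : Measurable fun ω (_ : Unit) => Z ω (0 / ((kk i : ℝ≥0) + 1)) :=
        measurable_pi_lambda _ fun _ => hZ.meas _
      have hG : GFam S (fun _ _ => 1) (P.map fun ω (_ : Unit) => Z ω (0 / ((kk i : ℝ≥0) + 1))) := by
        have h := hZ.fam Unit (fun _ => 0 / ((kk i : ℝ≥0) + 1))
        simpa using h
      have hc : Cor (fun _ _ : Unit => (1 : ℝ)) := ⟨fun _ _ => rfl, fun _ => rfl, by simp⟩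
      obtain ⟨-, h1, -, h2, -⟩ := HR E Unit S u _ _ hG hc hu () (kk i)
        (by rw [← hDdef]; exact (hnum i).1 Cr hCr.le (by linarith))
      constructor
      · refine le_trans ?_ (cheb (f := fun M : Unit → E →L[ℝ] E => av (M ()) u (kk i))
          (μ := P.map fun ω (_ : Unit) => Z ω (0 / ((kk i : ℝ≥0) + 1)))
          (by rw [h1]; norm_num) h1.le hR)
        exact Measure.le_map_apply (μ := P) hm.aemeasurable
          {M : Unit → E →L[ℝ] E | R < |av (M ()) u (kk i)|}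
      · have h3 : ∫ M, bn ι (M ()) u (kk i) ^ 2
            ∂(P.map fun ω (_ : Unit) => Z ω (0 / ((kk i : ℝ≥0) + 1))) = 2 := by
          have h4 : ∀ M : Unit → E →L[ℝ] E, bn ι (M ()) u (kk i) ^ 2 =
              (bv (M ()) u (kk i) ^ 2 - nk ι E (kk i)) ^ 2 / nk ι E (kk i) := by
            intro M
            unfold bn
            rw [div_pow, Real.sq_sqrt (hN0 i).le]
          simp only [h4]
          rw [integral_div, h2]
          have := (hN0 i).ne'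
          field_simp
        refine le_trans ?_ (cheb (f := fun M : Unit → E →L[ℝ] E => bn ι (M ()) u (kk i))
          (μ := P.map fun ω (_ : Unit) => Z ω (0 / ((kk i : ℝ≥0) + 1)))
          (by rw [h3]; norm_num) h3.le hR)
        exact Measure.le_map_apply (μ := P) hm.aemeasurable
          {M : Unit → E →L[ℝ] E | R < |bn ι (M ()) u (kk i)|}
    refine (union0 hX 0 hR.le (fun i => (key i).1) (fun i => (key i).2)).trans ?_
    rw [nat_mul_ofReal]
    refine ENNReal.ofReal_le_ofReal (le_of_eq ?_)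
    ring

end Pool.Agent.Lib.MP17fa2c
end
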