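import Pool.Agent.Lib.MP_17fa2c_pr.TD.SpecA

/-!
Module UNQ of MP_17fa2c_pr (helper19): the law of a Gaussian family is determined by `S`, `c`.
-/

set_option autoImplicit false

open MeasureTheory ProbabilityTheory Filter Topology
open scoped RealInnerProductSpace NNReal ENNReal

namespace Pool.Agent.Lib.MP17fa2c

namespace UNQM

variable {E : Type} [NormedAddCommGroup E] [InnerProductSpace ℝ E] {T : Type} [Fintype T]

/-- the functional `M ↦ ⟪x, M i y⟫` -/
noncomputable def phi (i : T) (x y : E) : StrongDual ℝ (T → E →L[ℝ] E) :=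
  (innerSL ℝ x) ∘L (ContinuousLinearMap.apply ℝ E y) ∘L
    (ContinuousLinearMap.proj (R := ℝ) (φ := fun _ : T => E →L[ℝ] E) i)

omit [Fintype T] in
lemma phi_apply (i : T) (x y : E) (M : T → E →L[ℝ] E) : phi i x y M = ⟪x, M i y⟫ := rfl

variable [DecidableEq T] [FiniteDimensional ℝ E]

/-- matrix units -/
noncomputable def U (i : T) (a b : Fin (Module.finrank ℝ E)) : T → E →L[ℝ] E :=
  Pi.single i (InnerProductSpace.rankOne ℝ (stdOrthonormalBasis ℝ E a) (stdOrthonormalBasis ℝ E b))

lemma expand (M : T → E →L[ℝ] E) :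
    M = ∑ i, ∑ a, ∑ b, ⟪stdOrthonormalBasis ℝ E a, M i (stdOrthonormalBasis ℝ E b)⟫ • U i a b := by
  set e := stdOrthonormalBasis ℝ E
  funext j
  ext x
  simp only [Finset.sum_apply, _root_.sum_apply, Pi.smul_apply, _root_.smul_apply]
  rw [Finset.sum_eq_single j]
  · have h1 : x = ∑ b, ⟪e b, x⟫ • e b := (e.sum_repr' x).symm
    have h2 : ∀ y, y = ∑ a, ⟪e a, y⟫ • e a := fun y => (e.sum_repr' y).symm
    conv_lhs => rw [h2 (M j x)]
    refine Finset.sum_congr rfl fun a _ => ?_
    conv_lhs => rw [h1]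
    rw [map_sum, inner_sum, Finset.sum_smul]
    refine Finset.sum_congr rfl fun b _ => ?_
    rw [map_smul, inner_smul_right]
    simp only [U, Pi.single_eq_same, InnerProductSpace.rankOne_apply]
    rw [smul_smul, mul_comm]
  · intro i _ hi
    refine Finset.sum_eq_zero fun a _ => Finset.sum_eq_zero fun b _ => ?_
    simp [U, Pi.single_eq_of_ne (Ne.symm hi)]
  · intro h; exact absurd (Finset.mem_univ j) h

lemma expandL (L : StrongDual ℝ (T → E →L[ℝ] E)) :
    L = ∑ i, ∑ a, ∑ b, L (U i a b) • phi i (stdOrthonormalBasis ℝ E a) (stdOrthonormalBasis ℝ E b) := by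
  refine ContinuousLinearMap.ext fun M => ?_
  conv_lhs => rw [expand M]
  simp only [map_sum, map_smul, _root_.sum_apply, _root_.smul_apply, phi_apply, smul_eq_mul]
  refine Finset.sum_congr rfl fun i _ => Finset.sum_congr rfl fun a _ => Finset.sum_congr rfl fun b _ => ?_
  ring

variable {ι : Type} [Fintype ι] [DecidableEq ι] {S : BStr ι E} {c : T → T → ℝ} {ν : Measure (T → E →L[ℝ] E)}

lemma mean0 (h : GFam S c ν) : ∫ M, M ∂ν = 0 := by
  have hg := h.gauss
  have hi : Integrable (fun M : T → E →L[ℝ] E => M) ν := IsGaussian.integrable_id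
  rw [expand (∫ M, M ∂ν)]
  refine Finset.sum_eq_zero fun i _ => Finset.sum_eq_zero fun a _ => Finset.sum_eq_zero fun b _ => ?_
  rw [← phi_apply, ← ContinuousLinearMap.integral_comp_comm _ hi]
  simp only [phi_apply]
  rw [h.mean, zero_smul]

omit [DecidableEq T] in
lemma covphi (h : GFam S c ν) (i l : T) (x y x' y' : E) : covarianceBilinDual ν (phi i x y) (phi l x' y') =
    c i l * ∑ a, (⟪x, S.J a x'⟫ * ⟪y, S.J a y'⟫ + ⟪x, S.J a y'⟫ * ⟪y, S.J a x'⟫) := by
  have hg := h.gauss
  rw [covarianceBilinDual_apply IsGaussian.memLp_two_id]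
  have m : ∀ (i : T) (x y : E), ∫ M, phi i x y M ∂ν = 0 := fun i x y => h.mean i x y
  rw [m, m]
  simp only [sub_zero, phi_apply]
  exact h.cov i l x y x' y'

end UNQM

open UNQM in
theorem specUNQ : SpecUNQ := by
  classical
  intro ι _ _ E _ _ _ T _ S c ν ν' h h'
  have hg := h.gauss
  have hg' := h'.gauss
  refine IsGaussian.ext_covarianceBilinDual ?_ ?_
  · have h1 := mean0 h
    have h2 := mean0 h'
    simp only [id]
    rw [h1, h2]
  · refine ContinuousLinearMap.ext fun L => ContinuousLinearMap.ext fun L' => ?_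
    rw [expandL L, expandL L']
    simp only [map_sum, map_smul, _root_.sum_apply, _root_.smul_apply, covphi h, covphi h']

end Pool.Agent.Lib.MP17fa2c
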