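import Pool.Agent.Lib.MP_17fa2c_pr.TD.SpecT

/-!
# VCN: variation of constants for Jacobi chains
-/

set_option autoImplicit false

open MeasureTheory ProbabilityTheory Filter Topology Polynomial
open scoped RealInnerProductSpace NNReal ENNReal

namespace Pool.Agent.Lib.MP17fa2c

namespace VCNM

variable {E : Type} [NormedAddCommGroup E] [InnerProductSpace ℝ E]

theorem sym_pow {A : E →L[ℝ] E} (hA : ∀ x y, ⟪A x, y⟫ = ⟪x, A y⟫) (n : ℕ) :
    ∀ x y, ⟪(A ^ n) x, y⟫ = ⟪x, (A ^ n) y⟫ := by
  induction n with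
  | zero => intro x y; simp
  | succ n ih =>
    intro x y
    rw [pow_succ]
    have h1 : (A ^ n * A) x = (A ^ n) (A x) := rfl
    have h2 : (A ^ n * A) y = (A ^ n) (A y) := rfl
    rw [h1, h2, ih, hA]
    have h3 : A ((A ^ n) y) = (A ^ n) (A y) := by
      have : (A * A ^ n) y = (A ^ n * A) y := by rw [(Commute.self_pow A n).eq]
      exact this
    rw [h3]

theorem sym_poly {A : E →L[ℝ] E} (hA : ∀ x y, ⟪A x, y⟫ = ⟪x, A y⟫) (P : ℝ[X]) :
    ∀ x y, ⟪aeval A P x, y⟫ = ⟪x, aeval A P y⟫ := by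
  induction P using Polynomial.induction_on' with
  | add P Q hP hQ =>
    intro x y
    rw [map_add]
    show ⟪aeval A P x + aeval A Q x, y⟫ = ⟪x, aeval A P y + aeval A Q y⟫
    rw [inner_add_left, inner_add_right, hP, hQ]
  | monomial n c =>
    intro x y
    rw [aeval_monomial, ← Algebra.smul_def]
    show ⟪c • (A ^ n) x, y⟫ = ⟪x, c • (A ^ n) y⟫
    rw [real_inner_smul_left, real_inner_smul_right, sym_pow hA]

/-- the particular solution -/
noncomputable def Y (A H : E →L[ℝ] E) (q : ℕ → E) (a b : ℕ → ℝ) (j : ℕ) : E :=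
  ∑ i ∈ Finset.range j, (b i)⁻¹ • aeval A (opp a b (i + 1) (j - 1 - i)).2 (H (q i))

/-- its companion -/
noncomputable def Z (A H : E →L[ℝ] E) (q : ℕ → E) (a b : ℕ → ℝ) (j : ℕ) : E :=
  ∑ i ∈ Finset.range j, (b i)⁻¹ • aeval A (opp a b (i + 1) (j - 1 - i)).1 (H (q i))

variable (A H : E →L[ℝ] E) (q : ℕ → E) (a b : ℕ → ℝ)

theorem opp_snd (i l : ℕ) : (opp a b i (l + 1)).2 =
    C (b (i + l))⁻¹ * ((X - C (a (i + l))) * (opp a b i l).2 - (opp a b i l).1) := rfl

theorem opp_fst (i l : ℕ) : (opp a b i (l + 1)).1 = C (b (i + l)) * (opp a b i l).2 := rfl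

theorem ev_C_mul (c : ℝ) (P : ℝ[X]) (x : E) : aeval A (C c * P) x = c • aeval A P x := by
  rw [map_mul, aeval_C, ← Algebra.smul_def]
  rfl

theorem ev_lin (c : ℝ) (P Q : ℝ[X]) (x : E) :
    aeval A ((X - C c) * P - Q) x = A (aeval A P x) - c • aeval A P x - aeval A Q x := by
  rw [map_sub, map_mul, map_sub, aeval_X, aeval_C]
  show (A - algebraMap ℝ _ c) (aeval A P x) - aeval A Q x = _
  rw [ContinuousLinearMap.sub_apply, Algebra.algebraMap_eq_smul_one]
  rfl

theorem Y_succ (j : ℕ) : Y A H q a b (j + 1) =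
    (b j)⁻¹ • (A (Y A H q a b j) - a j • Y A H q a b j - Z A H q a b j + H (q j)) := by
  have h0 : (b j)⁻¹ • aeval A (opp a b (j + 1) (j + 1 - 1 - j)).2 (H (q j)) =
      (b j)⁻¹ • H (q j) := by
    have : j + 1 - 1 - j = 0 := by omega
    rw [this]
    show (b j)⁻¹ • aeval A (1 : ℝ[X]) (H (q j)) = _
    rw [map_one]
    rfl
  have h1 : ∀ i ∈ Finset.range j, (b i)⁻¹ • aeval A (opp a b (i + 1) (j + 1 - 1 - i)).2 (H (q i)) =
      (b j)⁻¹ • (A ((b i)⁻¹ • aeval A (opp a b (i + 1) (j - 1 - i)).2 (H (q i))) -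
        a j • ((b i)⁻¹ • aeval A (opp a b (i + 1) (j - 1 - i)).2 (H (q i))) -
        (b i)⁻¹ • aeval A (opp a b (i + 1) (j - 1 - i)).1 (H (q i))) := by
    intro i hi
    rw [Finset.mem_range] at hi
    have h2 : j + 1 - 1 - i = (j - 1 - i) + 1 := by omega
    have h3 : i + 1 + (j - 1 - i) = j := by omega
    rw [h2, opp_snd, h3, ev_C_mul, ev_lin, map_smul]
    module
  unfold Y
  rw [Finset.sum_range_succ, h0, Finset.sum_congr rfl h1, ← Finset.smul_sum,
    Finset.sum_sub_distrib, Finset.sum_sub_distrib, ← map_sum, ← Finset.smul_sum, ← smul_add]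
  rfl

theorem Z_succ (j : ℕ) : Z A H q a b (j + 1) = b j • Y A H q a b j := by
  unfold Y Z
  rw [Finset.sum_range_succ, Finset.smul_sum]
  have h0 : (b j)⁻¹ • aeval A (opp a b (j + 1) (j + 1 - 1 - j)).1 (H (q j)) = 0 := by
    have : j + 1 - 1 - j = 0 := by omega
    rw [this]
    show (b j)⁻¹ • aeval A (0 : ℝ[X]) (H (q j)) = _
    rw [map_zero]
    simp
  rw [h0, add_zero]
  apply Finset.sum_congr rfl
  intro i hi
  rw [Finset.mem_range] at hi
  have h2 : j + 1 - 1 - i = (j - 1 - i) + 1 := by omega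
  have h3 : i + 1 + (j - 1 - i) = j := by omega
  rw [h2, opp_fst, h3, ev_C_mul, smul_comm]

/-- the span of the first vectors -/
def S (q : ℕ → E) (j : ℕ) : Submodule ℝ E := Submodule.span ℝ {v | ∃ i ≤ j, v = q i}

theorem mem_S {q : ℕ → E} {i j : ℕ} (h : i ≤ j) : q i ∈ S q j :=
  Submodule.subset_span ⟨i, h, rfl⟩

theorem S_mono {q : ℕ → E} {i j : ℕ} (h : i ≤ j) : S q i ≤ S q j :=
  Submodule.span_mono fun _ ⟨k, hk, hv⟩ => ⟨k, hk.trans h, hv⟩

variable {A H q a b}

theorem A_S {K : ℕ} {dq : ℕ → E} {da db : ℕ → ℝ} (hc : Chain A H K q dq a b da db) {m : ℕ}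
    (hm : m < K) {v : E} (hv : v ∈ S q m) : A v ∈ S q (m + 1) := by
  have h : S q m ≤ (S q (m + 1)).comap (A : E →ₗ[ℝ] E) := by
    apply Submodule.span_le.2
    rintro w ⟨i, hi, rfl⟩
    show A (q i) ∈ S q (m + 1)
    rcases i with _ | i
    · rw [hc.jr0 (by omega)]
      exact Submodule.add_mem _ (Submodule.smul_mem _ _ (mem_S (by omega)))
        (Submodule.smul_mem _ _ (mem_S (by omega)))
    · rw [hc.jr i (by omega)]
      exact Submodule.add_mem _ (Submodule.add_mem _ (Submodule.smul_mem _ _ (mem_S (by omega)))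
        (Submodule.smul_mem _ _ (mem_S (by omega)))) (Submodule.smul_mem _ _ (mem_S (by omega)))
  exact h hv

theorem main {K : ℕ} {dq : ℕ → E} {da db : ℕ → ℝ} (hc : Chain A H K q dq a b da db) :
    ∀ j ≤ K, dq j - Y A H q a b j ∈ S q j := by
  intro j
  induction j using Nat.strong_induction_on with
  | _ j ih =>
    intro hj
    rcases j with _ | _ | j
    · have h0 : Y A H q a b 0 = 0 := by unfold Y; simp
      rw [hc.dq0, h0, sub_zero]
      exact Submodule.zero_mem _
    · have hb := hc.bne 0 (by omega)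
      have h0 : Y A H q a b 0 = 0 := by unfold Y; simp
      have h1 : Z A H q a b 0 = 0 := by unfold Z; simp
      have h2 := hc.dj0 (by omega)
      have h3 : dq (0 + 1) - Y A H q a b (0 + 1) =
          (b 0)⁻¹ • (-(da 0 • q 0) - db 0 • q 1) := by
        rw [Y_succ, h0, h1]
        have h4 : dq 1 = (b 0)⁻¹ • (b 0 • dq 1) := by
          rw [smul_smul, inv_mul_cancel₀ hb, one_smul]
        have h5 : b 0 • dq 1 = H (q 0) - da 0 • q 0 - db 0 • q 1 := by
          rw [hc.dq0, map_zero, add_zero, smul_zero, add_zero] at h2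
          rw [h2]
          abel
        rw [zero_add, h4, h5, map_zero, smul_zero]
        module
      rw [h3]
      exact Submodule.smul_mem _ _ (Submodule.sub_mem _
        (Submodule.neg_mem _ (Submodule.smul_mem _ _ (mem_S (by omega))))
        (Submodule.smul_mem _ _ (mem_S (by omega))))
    · have hb := hc.bne (j + 1) (by omega)
      have h2 := hc.dj j (by omega)
      set v1 := dq (j + 1) - Y A H q a b (j + 1) with hv1
      set v0 := dq j - Y A H q a b j with hv0
      have hm1 : v1 ∈ S q (j + 1) := ih (j + 1) (by omega) (by omega)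
      have hm0 : v0 ∈ S q j := ih j (by omega) (by omega)
      have h3 : dq (j + 1 + 1) - Y A H q a b (j + 1 + 1) =
          (b (j + 1))⁻¹ • (A v1 - a (j + 1) • v1 - b j • v0 - db j • q j -
            da (j + 1) • q (j + 1) - db (j + 1) • q (j + 2)) := by
        rw [Y_succ, Z_succ]
        have h4 : dq (j + 1 + 1) = (b (j + 1))⁻¹ • (b (j + 1) • dq (j + 2)) := by
          rw [smul_smul, inv_mul_cancel₀ hb, one_smul]
        have h5 : b (j + 1) • dq (j + 2) = H (q (j + 1)) + A (dq (j + 1)) - db j • q j -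
            b j • dq j - da (j + 1) • q (j + 1) - a (j + 1) • dq (j + 1) -
            db (j + 1) • q (j + 2) := by
          rw [h2]
          abel
        rw [h4, h5, hv1, hv0, map_sub]
        module
      rw [h3]
      refine Submodule.smul_mem _ _ (Submodule.sub_mem _ (Submodule.sub_mem _ (Submodule.sub_mem _
        (Submodule.sub_mem _ (Submodule.sub_mem _ (A_S hc (by omega) hm1) ?_) ?_) ?_) ?_) ?_)
      · exact Submodule.smul_mem _ _ (S_mono (by omega) hm1)
      · exact Submodule.smul_mem _ _ (S_mono (by omega) hm0)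
      · exact Submodule.smul_mem _ _ (mem_S (by omega))
      · exact Submodule.smul_mem _ _ (mem_S (by omega))
      · exact Submodule.smul_mem _ _ (mem_S (by omega))

end VCNM

open VCNM in
theorem specVCN : SpecVCN := by
  intro E _ _ A H K q dq a b da db hc j hj x hx
  have h1 := main hc j hj
  have h2 : ∀ v ∈ S q j, ⟪x, v⟫ = 0 := by
    intro v hv
    have h3 : S q j ≤ (Submodule.span ℝ {x})ᗮ := by
      apply Submodule.span_le.2
      rintro w ⟨i, hi, rfl⟩
      rw [SetLike.mem_coe, Submodule.mem_orthogonal_singleton_iff_inner_right, real_inner_comm]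
      exact hx i hi
    exact Submodule.mem_orthogonal_singleton_iff_inner_right.1 (h3 hv)
  have h4 := h2 _ h1
  rw [inner_sub_right, sub_eq_zero] at h4
  rw [h4]
  unfold Y
  rw [inner_sum]
  apply Finset.sum_congr rfl
  intro i _
  rw [real_inner_smul_right, sym_poly hc.symA]

end Pool.Agent.Lib.MP17fa2c
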