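import Pool.Agent.Lib.MP_17fa2c_pr.TD.SpecW
import Pool.Agent.Lib.MP_17fa2c_pr.TD.SpecX

section
/-! # Module UNI: uniform approximation on compact sets. -/
set_option autoImplicit false

open MeasureTheory ProbabilityTheory Filter Topology Uniformity
open scoped NNReal ENNReal BoundedContinuousFunction

namespace Pool.Agent.Lib.MP17fa2c

/-- UNI. -/
theorem specUNI : SpecUNI := by
  intro K _ Φ S hΦ hS ε hε
  have h1 := hS.uniformContinuousAt_of_continuousAt Φ (fun x _ => hΦ.continuousAt)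
    (Metric.dist_mem_uniformity hε)
  rw [ContinuousMap.hasBasis_compactConvergenceUniformity.mem_iff] at h1
  obtain ⟨⟨C, V⟩, ⟨hC, hV⟩, hsub⟩ := h1
  obtain ⟨δ, hδ, hV2⟩ := Metric.mem_uniformity_dist.mp hV
  obtain ⟨M, hM⟩ := hC.bddAbove
  obtain ⟨N, hN⟩ := exists_nat_gt M
  refine ⟨N, δ / 2, by linarith, ?_⟩
  intro x hx y hxy
  have h2 : (x, y) ∈ {fg : C(ℝ≥0, K → ℝ) × C(ℝ≥0, K → ℝ) | ∀ t ∈ C, (fg.1 t, fg.2 t) ∈ V} := by
    intro t ht
    apply hV2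
    rw [dist_eq_norm]
    have h3 : t ≤ (N : ℝ≥0) := le_trans (hM ht) hN.le
    exact lt_of_le_of_lt (hxy t h3) (by linarith)
  have h4 := hsub h2 hx
  have h5 : dist (Φ x) (Φ y) < ε := h4
  rw [Real.dist_eq] at h5
  exact h5.le

end Pool.Agent.Lib.MP17fa2c
end

section
/-!
# MP_17fa2c_pr, WCV: weak convergence in `C([0,∞); ℝ^K)`
-/
set_option autoImplicit false

open MeasureTheory ProbabilityTheory Filter Topology
open scoped NNReal ENNReal BoundedContinuousFunction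

namespace Pool.Agent.Lib.MP17fa2c

namespace WCVM

theorem compare {Ω : Type*} [MeasurableSpace Ω] (P : Measure Ω) [IsProbabilityMeasure P]
    (F G : Ω → ℝ) (hF : Measurable F) (hG : Measurable G) (b ε : ℝ) (hε : 0 ≤ ε)
    (hFb : ∀ ω, |F ω| ≤ b) (hGb : ∀ ω, |G ω| ≤ b) (E : Set Ω) (hE : P E ≤ ENNReal.ofReal ε)
    (h : ∀ ω, ω ∉ E → |F ω - G ω| ≤ ε) : |∫ ω, F ω ∂P - ∫ ω, G ω ∂P| ≤ ε + 2 * b * ε := by
  have hb : 0 ≤ b := by
    obtain ⟨ω⟩ := nonempty_of_isProbabilityMeasure P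
    exact (abs_nonneg _).trans (hFb ω)
  have hFi : Integrable F P :=
    Integrable.of_bound hF.aestronglyMeasurable b (ae_of_all _ fun ω => by
      rw [Real.norm_eq_abs]; exact hFb ω)
  have hGi : Integrable G P :=
    Integrable.of_bound hG.aestronglyMeasurable b (ae_of_all _ fun ω => by
      rw [Real.norm_eq_abs]; exact hGb ω)
  set T := toMeasurable P E with hT
  have hTm : MeasurableSet T := measurableSet_toMeasurable P E
  have hTP : P T ≤ ENNReal.ofReal ε := by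
    rw [hT, measure_toMeasurable]
    exact hE
  have hgi : Integrable (fun ω => ε + T.indicator (fun _ => 2 * b) ω) P :=
    (integrable_const ε).add ((integrable_const (2 * b)).indicator hTm)
  rw [← integral_sub hFi hGi, ← Real.norm_eq_abs]
  have h1 : ‖∫ ω, F ω - G ω ∂P‖ ≤ ∫ ω, (ε + T.indicator (fun _ => 2 * b) ω) ∂P := by
    refine norm_integral_le_of_norm_le hgi (ae_of_all _ fun ω => ?_)
    rw [Real.norm_eq_abs]
    by_cases hω : ω ∈ T
    · rw [Set.indicator_of_mem hω]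
      have h2 := abs_sub (F ω) (G ω)
      have h3 := hFb ω
      have h4 := hGb ω
      linarith
    · rw [Set.indicator_of_notMem hω, add_zero]
      exact h ω fun h5 => hω (subset_toMeasurable P E h5)
  refine h1.trans ?_
  rw [integral_add (integrable_const ε) ((integrable_const (2 * b)).indicator hTm),
    integral_indicator_const _ hTm, integral_const, probReal_univ, one_smul, smul_eq_mul]
  have h6 : P.real T ≤ ε := by
    rw [measureReal_def]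
    exact ENNReal.toReal_le_of_le_ofReal hε hTP
  have h7 : P.real T * (2 * b) ≤ ε * (2 * b) := mul_le_mul_of_nonneg_right h6 (by linarith)
  linarith

end WCVM

open WCVM in
theorem specWCV (hARZ : SpecARZ) (hUNI : SpecUNI) (hINP : SpecINP) (hTGT : SpecTGT)
    (hMSR : SpecMSR.{0}) : SpecWCV := by
  intro K _ Ω _ P _ X Ω' _ P' _ Y C0 C1 a e a' e' hX hY hC0 hC1 hTS hTS' hX0 hY0 hfdd Φ
  obtain ⟨I, hIc, hI1, -⟩ := hINP K
  rw [Metric.tendsto_atTop]
  intro η hη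
  set b := ‖Φ‖ with hb
  have hb0 : 0 ≤ b := norm_nonneg _
  set ε := η / (4 * (2 + 4 * b)) with hε
  have hden : 0 < 4 * (2 + 4 * b) := by linarith
  have hε0 : 0 < ε := div_pos hη hden
  have hεη : ε * (4 * (2 + 4 * b)) = η := div_mul_cancel₀ _ hden.ne'
  obtain ⟨h, hh⟩ := hTGT C0 C1 ε hC0 hC1 hε0
  obtain ⟨N, δ, hδ, hU⟩ := hUNI K (fun x => Φ x) (HK h) Φ.continuous (hARZ K h) ε hε0
  obtain ⟨m, hm⟩ := hI1 h N δ hδ
  have hm' := hm m le_rfl
  have hgood : ∀ x : Pth K, x ∈ HK (K := K) h →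
      |Φ x - Φ (I m (fun i => x ((i : ℕ) / m)))| ≤ ε := fun x hx => hU x hx _ (hm' x hx)
  have hbd : ∀ x : Pth K, |Φ x| ≤ b := fun x => by
    rw [← Real.norm_eq_abs]
    exact Φ.norm_coe_le_norm x
  set g : (Fin (m ^ 2 + 1) → K → ℝ) →ᵇ ℝ := Φ.compContinuous ⟨I m, hIc m⟩ with hg
  have hgm : ∀ (Ω₁ : Type) [MeasurableSpace Ω₁] (X₁ : Ω₁ → Pth K),
      (∀ t, Measurable fun ω => X₁ ω t) →
      Measurable fun ω => g (fun i : Fin (m ^ 2 + 1) => X₁ ω (((i : ℕ) : ℝ≥0) / (m : ℝ≥0))) := by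
    intro Ω₁ _ X₁ hX₁
    refine g.continuous.measurable.comp (measurable_pi_lambda _ fun i => hX₁ _)
  have hf := hfdd (m ^ 2 + 1) (fun i => ((i : ℕ) : ℝ≥0) / (m : ℝ≥0)) g
  rw [Metric.tendsto_atTop] at hf
  obtain ⟨n1, hn1⟩ := hf ε hε0
  obtain ⟨n2, hn2⟩ := eventually_atTop.1 (hTS.and hX0)
  refine ⟨max n1 n2, fun n hn => ?_⟩
  have h1 := hn1 n (le_trans (le_max_left _ _) hn)
  obtain ⟨h2, h3⟩ := hn2 n (le_trans (le_max_right _ _) hn)
  have h4 := hh K (Ω n) (P n) (X n) (a n) (e n) (hX n) h2 h3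
  have h5 := hh K Ω' P' Y a' e' hY hTS' hY0
  have h6 := compare (P n) (fun ω => Φ (X n ω))
    (fun ω => g (fun i : Fin (m ^ 2 + 1) => X n ω (((i : ℕ) : ℝ≥0) / (m : ℝ≥0))))
    (hMSR K (Ω n) (X n) (fun x => Φ x) (hX n) Φ.continuous) (hgm (Ω n) (X n) (hX n)) b ε hε0.le
    (fun ω => hbd _) (fun ω => hbd _) _ h4 (fun ω hω => hgood _ (not_not.1 hω))
  have h7 := compare P' (fun ω => Φ (Y ω))
    (fun ω => g (fun i : Fin (m ^ 2 + 1) => Y ω (((i : ℕ) : ℝ≥0) / (m : ℝ≥0))))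
    (hMSR K Ω' Y (fun x => Φ x) hY Φ.continuous) (hgm Ω' Y hY) b ε hε0.le
    (fun ω => hbd _) (fun ω => hbd _) _ h5 (fun ω hω => hgood _ (not_not.1 hω))
  rw [Real.dist_eq] at h1 ⊢
  have h8 : ε + 2 * b * ε ≤ ε * (2 + 4 * b) := by nlinarith
  have h9 : ε ≤ ε * (2 + 4 * b) := by nlinarith
  rw [abs_le] at h6 h7
  rw [abs_lt] at h1 ⊢
  constructor <;> nlinarith

end Pool.Agent.Lib.MP17fa2c
end

section
/-!
# MP_17fa2c_pr, module WC3: weak convergence, three-scale version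
-/
set_option autoImplicit false

open MeasureTheory ProbabilityTheory Filter Topology
open scoped RealInnerProductSpace NNReal ENNReal BoundedContinuousFunction Quaternion

namespace Pool.Agent.Lib.MP17fa2c

namespace WC3M

theorem HK_mono {K : Type} [Fintype K] {h h' : ℕ → ℝ} (hh : ∀ N, h N ≤ h' N) :
    HK (K := K) h ⊆ HK h' := by
  intro x hx N
  obtain ⟨h1, h2⟩ := hx N
  refine ⟨fun t ht => (h1 t ht).trans (hh N), fun s t hs ht => (h2 s t hs ht).trans ?_⟩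
  exact mul_le_mul_of_nonneg_right (hh N) (Real.rpow_nonneg (abs_nonneg _) _)

/-- uniform continuity near a ball -/
theorem unif {V : Type*} [NormedAddCommGroup V] [ProperSpace V] (g : V → ℝ)
    (hg : Continuous g) (R ε : ℝ) (hε : 0 < ε) :
    ∃ δ : ℝ, 0 < δ ∧ ∀ v v' : V, ‖v‖ ≤ R → ‖v' - v‖ ≤ δ → |g v' - g v| ≤ ε := by
  have hc : IsCompact (Metric.closedBall (0 : V) (R + 1)) := isCompact_closedBall _ _
  have hu := hc.uniformContinuousOn_of_continuous hg.continuousOn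
  rw [Metric.uniformContinuousOn_iff] at hu
  obtain ⟨δ, hδ, H⟩ := hu ε hε
  refine ⟨min 1 (δ / 2), lt_min one_pos (half_pos hδ), fun v v' hv hvv => ?_⟩
  have h1 : ‖v' - v‖ ≤ 1 := hvv.trans (min_le_left _ _)
  have h2 : ‖v' - v‖ ≤ δ / 2 := hvv.trans (min_le_right _ _)
  have h3 : ‖v'‖ ≤ R + 1 := by
    calc ‖v'‖ = ‖v + (v' - v)‖ := by congr 1; abel
      _ ≤ ‖v‖ + ‖v' - v‖ := norm_add_le _ _
      _ ≤ R + 1 := add_le_add hv h1
  have h4 := H v' (by rw [mem_closedBall_zero_iff]; exact h3) v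
    (by rw [mem_closedBall_zero_iff]; linarith) (by rw [dist_eq_norm]; linarith)
  rw [Real.dist_eq] at h4
  exact h4.le

/-- the second level -/
theorem level {a w : ℝ} {L : ℕ} (ha : 1 ≤ a) (hw : (4 : ℝ) ^ L ≤ w) :
    ∃ L2 : ℕ, L ≤ L2 ∧ a * Real.sqrt w ≤ 2 ^ L2 ∧ (2 : ℝ) ^ L2 ≤ 2 * (a * Real.sqrt w) := by
  have h1 : (2 : ℝ) ^ L ≤ Real.sqrt w := by
    refine Real.le_sqrt_of_sq_le ?_
    calc ((2 : ℝ) ^ L) ^ 2 = 4 ^ L := by rw [← pow_mul, mul_comm, pow_mul]; norm_num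
      _ ≤ w := hw
  have h2 : (1 : ℝ) ≤ 2 ^ L := one_le_pow₀ (by norm_num)
  have h3 : Real.sqrt w ≤ a * Real.sqrt w := le_mul_of_one_le_left (Real.sqrt_nonneg _) ha
  obtain ⟨n, hn1, hn2⟩ := exists_nat_pow_near (x := a * Real.sqrt w) (y := (2 : ℝ))
    (by linarith) (by norm_num)
  refine ⟨n + 1, ?_, hn2.le, ?_⟩
  · have h4 : (2 : ℝ) ^ L < 2 ^ (n + 1) := by linarith
    exact (Nat.pow_lt_pow_iff_right (by norm_num : 1 < 2)).1 (by exact_mod_cast h4) |>.le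
  · rw [pow_succ]; linarith

end WC3M

open WC3M WCVM in
theorem specWC3 (hITP : SpecITP) (hTI3 : SpecTI3) (hSU3 : SpecSU3) (hARZ : SpecARZ)
    (hUNI : SpecUNI) (hINP : SpecINP) (hTGT : SpecTGT) (hMSR : SpecMSR.{0}) : SpecWC3 := by
  intro K _ Ω _ P _ X Ω' _ P' _ Y C0 C1 a e w L a' e' hX hY hC0 hC1 hTS hw hLw hmid hTS' hX0 hY0
    hfdd Φ
  obtain ⟨J, hJ⟩ := hITP K
  obtain ⟨I, hIc, hI1, -⟩ := hINP K
  rw [Metric.tendsto_atTop]
  intro η hη
  obtain ⟨b, hb⟩ : ∃ b : ℝ, b = ‖Φ‖ := ⟨_, rfl⟩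
  have hb0 : 0 ≤ b := by rw [hb]; exact norm_nonneg _
  obtain ⟨ε, hε⟩ : ∃ ε : ℝ, ε = η / (12 * (2 + 4 * b)) := ⟨_, rfl⟩
  have hden : 0 < 12 * (2 + 4 * b) := by linarith
  have hε0 : 0 < ε := by rw [hε]; exact div_pos hη hden
  have hεη : ε * (12 * (2 + 4 * b)) = η := by rw [hε]; exact div_mul_cancel₀ _ hden.ne'
  obtain ⟨h1, hh1⟩ := hTI3 C0 C1 ε hC0 hC1 hε0
  obtain ⟨h2, hh2⟩ := hTGT C0 C1 ε hC0 hC1 hε0
  obtain ⟨h, hh⟩ : ∃ h : ℕ → ℝ, h = fun N => max (h1 N) (h2 N) := ⟨_, rfl⟩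
  have hs1 : HK (K := K) h1 ⊆ HK h := HK_mono fun N => by rw [hh]; exact le_max_left _ _
  have hs2 : HK (K := K) h2 ⊆ HK h := HK_mono fun N => by rw [hh]; exact le_max_right _ _
  obtain ⟨N, δ, hδ, hU⟩ := hUNI K (fun x => Φ x) (HK h) Φ.continuous (hARZ K h) ε hε0
  obtain ⟨m, hm⟩ := hI1 h N δ hδ
  have hm' := hm m le_rfl
  have hbd : ∀ x : Pth K, |Φ x| ≤ b := fun x => by
    rw [← Real.norm_eq_abs, hb]
    exact Φ.norm_coe_le_norm x
  obtain ⟨g, hg⟩ : ∃ g : (Fin (m ^ 2 + 1) → K → ℝ) →ᵇ ℝ, g = Φ.compContinuous ⟨I m, hIc m⟩ :=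
    ⟨_, rfl⟩
  have hgv : ∀ v, g v = Φ (I m v) := fun v => by rw [hg]; rfl
  have hgm : ∀ (Ω₁ : Type) [MeasurableSpace Ω₁] (X₁ : Ω₁ → Pth K),
      (∀ t, Measurable fun ω => X₁ ω t) →
      Measurable fun ω => g (fun i : Fin (m ^ 2 + 1) => X₁ ω (((i : ℕ) : ℝ≥0) / (m : ℝ≥0))) := by
    intro Ω₁ _ X₁ hX₁
    refine g.continuous.measurable.comp (measurable_pi_lambda _ fun i => hX₁ _)
  have hgood : ∀ x : Pth K, x ∈ HK (K := K) h →
      |Φ x - g (fun i => x ((i : ℕ) / m))| ≤ ε := fun x hx => by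
    rw [hgv]; exact hU x hx _ (hm' x hx)
  -- uniform continuity of g
  obtain ⟨δ', hδ', hgu⟩ := unif (fun v => g v) g.continuous (h (m + 1)) ε hε0
  obtain ⟨x, hx⟩ : ∃ x : ℝ, x = min δ δ' / 3 := ⟨_, rfl⟩
  have hx0 : 0 < x := by rw [hx]; have := lt_min hδ hδ'; positivity
  have h3x : 3 * x = min δ δ' := by rw [hx]; ring
  have hpts : ∀ i : Fin (m ^ 2 + 1), (((i : ℕ) : ℝ≥0) / (m : ℝ≥0)) ≤ ((m + 1 : ℕ) : ℝ≥0) := by
    intro i
    rcases Nat.eq_zero_or_pos m with h0 | h0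
    · subst h0; simp
    · have hmp : (0 : ℝ≥0) < m := by exact_mod_cast h0
      rw [div_le_iff₀ hmp]
      have h5 : (i : ℕ) ≤ m ^ 2 := Nat.lt_succ_iff.1 i.2
      have h6 : (i : ℕ) ≤ (m + 1) * m := by nlinarith
      exact_mod_cast h6
  have hgoodX : ∀ y z : Pth K, z ∈ HK (K := K) h →
      (∀ t : ℝ≥0, t ≤ ((N + (m + 1) : ℕ) : ℝ≥0) → ‖y t - z t‖ ≤ 3 * x) →
      |Φ y - g (fun i => y ((i : ℕ) / m))| ≤ 3 * ε := by
    intro y z hz hyz
    have e1 : |Φ z - Φ y| ≤ ε := by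
      refine hU z hz y fun t ht => ?_
      rw [norm_sub_rev]
      refine (hyz t (ht.trans ?_)).trans (by rw [h3x]; exact min_le_left _ _)
      exact_mod_cast Nat.le_add_right _ _
    have e2 := hgood z hz
    have e3 : |g (fun i => y ((i : ℕ) / m)) - g (fun i => z ((i : ℕ) / m))| ≤ ε := by
      have hm10 : 0 ≤ h (m + 1) := (norm_nonneg _).trans ((hz (m + 1)).1 0 bot_le)
      refine hgu _ _ ?_ ?_
      · rw [pi_norm_le_iff_of_nonneg hm10]
        intro i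
        exact (hz (m + 1)).1 _ (hpts i)
      · rw [pi_norm_le_iff_of_nonneg hδ'.le]
        intro i
        refine (hyz _ ((hpts i).trans ?_)).trans (by rw [h3x]; exact min_le_right _ _)
        exact_mod_cast Nat.le_add_left _ _
    have e4 : Φ y - g (fun i => y ((i : ℕ) / m)) = -(Φ z - Φ y) +
        (Φ z - g (fun i => z ((i : ℕ) / m))) -
        (g (fun i => y ((i : ℕ) / m)) - g (fun i => z ((i : ℕ) / m))) := by ring
    rw [e4]
    refine (abs_sub _ _).trans ?_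
    have e5 := abs_add_le (-(Φ z - Φ y)) (Φ z - g (fun i => z ((i : ℕ) / m)))
    rw [abs_neg] at e5
    linarith
  obtain ⟨C, hC, hSU⟩ := hSU3 (N + (m + 1))
  -- the small probability
  have hsmall : ∀ᶠ n in atTop, C * (2 / Real.sqrt (w n) + 1 / (Real.sqrt (w n) * x ^ 4)) ≤ ε := by
    have hsw : Tendsto (fun n => Real.sqrt (w n)) atTop atTop := Real.tendsto_sqrt_atTop.comp hw
    have hinv : Tendsto (fun n => (Real.sqrt (w n))⁻¹) atTop (𝓝 0) :=
      tendsto_inv_atTop_zero.comp hsw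
    have hlim : Tendsto (fun n => (C * (2 + 1 / x ^ 4)) * (Real.sqrt (w n))⁻¹) atTop
        (𝓝 ((C * (2 + 1 / x ^ 4)) * 0)) := hinv.const_mul _
    rw [mul_zero] at hlim
    filter_upwards [hlim.eventually (gt_mem_nhds hε0)] with n hn
    refine le_trans (le_of_eq ?_) hn.le
    ring
  have hev : ∀ᶠ n in atTop, P n {ω | J (L n) (X n ω) ∉ HK h ∨ ∃ t : ℝ≥0,
      t ≤ ((N + (m + 1) : ℕ) : ℝ≥0) ∧ 3 * x < ‖X n ω t - J (L n) (X n ω) t‖} ≤
      ENNReal.ofReal (3 * ε) := by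
    filter_upwards [hTS, hX0, hLw, hmid x hx0 1 one_pos, hsmall, hw.eventually_ge_atTop 1] with
      n k1 k2 k3 k4 k5 k6
    have ha := k1.ha
    have ha0 : 0 < a n := by linarith
    have hw0 : 0 < w n := by linarith
    have hsw0 : 0 < Real.sqrt (w n) := Real.sqrt_pos.2 hw0
    obtain ⟨L2, hL2, hL3, hL4⟩ := level ha k3
    have q1 := hh1 K J (Ω n) (P n) (X n) (a n) (e n) (L n) hJ (hX n) k1 k2
    have q2 := hSU K J (Ω n) (P n) (X n) C0 (a n) (e n) x (1 / (a n * w n)) (L n) L2 hJ (hX n)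
      k1 hL2 hx0 (by positivity) k4
    have q3 : P n {ω | ∃ t : ℝ≥0, t ≤ ((N + (m + 1) : ℕ) : ℝ≥0) ∧
        3 * x < ‖X n ω t - J (L n) (X n ω) t‖} ≤ ENNReal.ofReal ε := by
      refine q2.trans (ENNReal.ofReal_le_ofReal (le_trans ?_ k5))
      refine mul_le_mul_of_nonneg_left (add_le_add ?_ ?_) hC.le
      · have hsq : Real.sqrt (w n) * Real.sqrt (w n) = w n := Real.mul_self_sqrt hw0.le
        calc (2 : ℝ) ^ L2 * (1 / (a n * w n)) ≤
              (2 * (a n * Real.sqrt (w n))) * (1 / (a n * w n)) :=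
              mul_le_mul_of_nonneg_right hL4 (by positivity)
          _ = 2 * Real.sqrt (w n) / (Real.sqrt (w n) * Real.sqrt (w n)) := by
              rw [hsq]; field_simp
          _ = 2 / Real.sqrt (w n) := by field_simp
      · have hp : 0 < x ^ 4 := by positivity
        have h2p : (0 : ℝ) < 2 ^ L2 := by positivity
        rw [div_le_div_iff₀ (by positivity) (by positivity)]
        calc a n * (Real.sqrt (w n) * x ^ 4) = (a n * Real.sqrt (w n)) * x ^ 4 := by ring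
          _ ≤ 2 ^ L2 * x ^ 4 := mul_le_mul_of_nonneg_right hL3 hp.le
          _ = 1 * (2 ^ L2 * x ^ 4) := by ring
    calc P n {ω | J (L n) (X n ω) ∉ HK h ∨ ∃ t : ℝ≥0,
        t ≤ ((N + (m + 1) : ℕ) : ℝ≥0) ∧ 3 * x < ‖X n ω t - J (L n) (X n ω) t‖} ≤
          P n ({ω | J (L n) (X n ω) ∉ HK h1} ∪ {ω | ∃ t : ℝ≥0,
        t ≤ ((N + (m + 1) : ℕ) : ℝ≥0) ∧ 3 * x < ‖X n ω t - J (L n) (X n ω) t‖}) := by
          refine measure_mono fun ω hω => ?_
          rcases hω with hω | hω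
          · exact Or.inl fun hc => hω (hs1 hc)
          · exact Or.inr hω
      _ ≤ ENNReal.ofReal ε + ENNReal.ofReal ε :=
          (measure_union_le _ _).trans (add_le_add q1 q3)
      _ = ENNReal.ofReal (2 * ε) := by
          rw [← ENNReal.ofReal_add hε0.le hε0.le]; ring_nf
      _ ≤ ENNReal.ofReal (3 * ε) := ENNReal.ofReal_le_ofReal (by linarith)
  have hf := hfdd (m ^ 2 + 1) (fun i => ((i : ℕ) : ℝ≥0) / (m : ℝ≥0)) g
  rw [Metric.tendsto_atTop] at hf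
  obtain ⟨n1, hn1⟩ := hf ε hε0
  obtain ⟨n2, hn2⟩ := eventually_atTop.1 hev
  refine ⟨max n1 n2, fun n hn => ?_⟩
  have q1 := hn1 n (le_trans (le_max_left _ _) hn)
  have q2 := hn2 n (le_trans (le_max_right _ _) hn)
  have q5 : P' {ω | Y ω ∉ HK h} ≤ ENNReal.ofReal (3 * ε) := by
    refine (measure_mono fun ω (hω : Y ω ∉ HK h) => ?_).trans
      ((hh2 K Ω' P' Y a' e' hY hTS' hY0).trans (ENNReal.ofReal_le_ofReal (by linarith)))
    exact fun hc => hω (hs2 hc)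
  have q6 := compare (P n) (fun ω => Φ (X n ω))
    (fun ω => g (fun i : Fin (m ^ 2 + 1) => X n ω (((i : ℕ) : ℝ≥0) / (m : ℝ≥0))))
    (hMSR K (Ω n) (X n) (fun x => Φ x) (hX n) Φ.continuous) (hgm (Ω n) (X n) (hX n)) b (3 * ε)
    (by positivity)
    (fun ω => hbd _) (fun ω => by rw [hgv]; exact hbd _) _ q2 (fun ω hω => by
      rw [Set.mem_ofPred_eq, not_or, not_not] at hω
      refine hgoodX _ _ hω.1 fun t ht => ?_
      by_contra hc
      push Not at hc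
      exact hω.2 ⟨t, ht, hc⟩)
  have q7 := compare P' (fun ω => Φ (Y ω))
    (fun ω => g (fun i : Fin (m ^ 2 + 1) => Y ω (((i : ℕ) : ℝ≥0) / (m : ℝ≥0))))
    (hMSR K Ω' Y (fun x => Φ x) hY Φ.continuous) (hgm Ω' Y hY) b (3 * ε) (by positivity)
    (fun ω => hbd _) (fun ω => by rw [hgv]; exact hbd _) _ q5 (fun ω hω => by
      refine (hgood _ (not_not.1 hω)).trans (by linarith))
  rw [Real.dist_eq] at q1 ⊢
  have q8 : 3 * ε + 2 * b * (3 * ε) ≤ 3 * (ε * (2 + 4 * b)) := by nlinarith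
  have q9 : ε ≤ ε * (2 + 4 * b) := by nlinarith
  rw [abs_le] at q6 q7
  rw [abs_lt] at q1 ⊢
  constructor <;> nlinarith

end Pool.Agent.Lib.MP17fa2c
end
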