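import Pool.Agent.Lib.MP_17fa2c_pr.TD.SpecM

section
/-!
# MP_17fa2c_pr, module ROT: rotation invariance of a pair of independent copies
-/
set_option autoImplicit false

open MeasureTheory ProbabilityTheory Filter Topology
open scoped RealInnerProductSpace NNReal ENNReal

namespace Pool.Agent.Lib.MP17fa2c

namespace ROTM

variable {E : Type} [NormedAddCommGroup E] [InnerProductSpace ℝ E]

/-- the functional `M ↦ ⟪x, M i y⟫` -/
noncomputable def fn {T : Type} [Fintype T] (i : T) (x y : E) : (T → E →L[ℝ] E) →L[ℝ] ℝ :=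
  (innerSL ℝ x) ∘L (ContinuousLinearMap.apply ℝ E y) ∘L
    (ContinuousLinearMap.proj (R := ℝ) (φ := fun _ : T => E →L[ℝ] E) i)

theorem fn_apply {T : Type} [Fintype T] (i : T) (x y : E) (M : T → E →L[ℝ] E) :
    fn i x y M = ⟪x, M i y⟫ := rfl

theorem op_sum [FiniteDimensional ℝ E] (A : E →L[ℝ] E) :
    A = ∑ b, ∑ a, ⟪stdOrthonormalBasis ℝ E a, A (stdOrthonormalBasis ℝ E b)⟫ •
      InnerProductSpace.rankOne ℝ (stdOrthonormalBasis ℝ E a) (stdOrthonormalBasis ℝ E b) := by
  ext y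
  simp only [sum_apply, smul_apply,
    InnerProductSpace.rankOne_apply]
  have h1 : A y = ∑ b, ⟪stdOrthonormalBasis ℝ E b, y⟫ • A (stdOrthonormalBasis ℝ E b) := by
    conv_lhs => rw [← (stdOrthonormalBasis ℝ E).sum_repr' y]
    rw [map_sum]
    simp only [map_smul]
  rw [h1]
  refine Finset.sum_congr rfl (fun b _ => ?_)
  have h2 : A (stdOrthonormalBasis ℝ E b) =
      ∑ a, ⟪stdOrthonormalBasis ℝ E a, A (stdOrthonormalBasis ℝ E b)⟫ •
        stdOrthonormalBasis ℝ E a :=
    ((stdOrthonormalBasis ℝ E).sum_repr' _).symm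
  conv_lhs => rw [h2]
  rw [Finset.smul_sum]
  refine Finset.sum_congr rfl (fun a _ => ?_)
  rw [smul_comm]

theorem fam_sum [FiniteDimensional ℝ E] {T : Type} [Fintype T] [DecidableEq T]
    (M : T → E →L[ℝ] E) :
    M = ∑ i, ∑ b, ∑ a, fn i (stdOrthonormalBasis ℝ E a) (stdOrthonormalBasis ℝ E b) M •
      (Pi.single i (InnerProductSpace.rankOne ℝ (stdOrthonormalBasis ℝ E a)
        (stdOrthonormalBasis ℝ E b)) : T → E →L[ℝ] E) := by
  have h0 : M = ∑ i, (Pi.single i (M i) : T → E →L[ℝ] E) := by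
    rw [Finset.univ_sum_single]
  conv_lhs => rw [h0]
  refine Finset.sum_congr rfl (fun i _ => ?_)
  conv_lhs => rw [op_sum (M i)]
  rw [show (Pi.single i (∑ b, ∑ a, ⟪stdOrthonormalBasis ℝ E a, M i (stdOrthonormalBasis ℝ E b)⟫ •
      InnerProductSpace.rankOne ℝ (stdOrthonormalBasis ℝ E a) (stdOrthonormalBasis ℝ E b)) :
      T → E →L[ℝ] E) = (LinearMap.single ℝ (fun _ : T => E →L[ℝ] E) i)
        (∑ b, ∑ a, ⟪stdOrthonormalBasis ℝ E a, M i (stdOrthonormalBasis ℝ E b)⟫ •
      InnerProductSpace.rankOne ℝ (stdOrthonormalBasis ℝ E a) (stdOrthonormalBasis ℝ E b))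
      from rfl]
  rw [map_sum]
  refine Finset.sum_congr rfl (fun b _ => ?_)
  rw [map_sum]
  refine Finset.sum_congr rfl (fun a _ => ?_)
  rw [map_smul]
  rfl

theorem mean_zero [FiniteDimensional ℝ E] {T : Type} [Fintype T]
    (ν : Measure (T → E →L[ℝ] E)) [IsGaussian ν]
    (hm : ∀ i x y, ∫ M, ⟪x, M i y⟫ ∂ν = 0) (L : StrongDual ℝ (T → E →L[ℝ] E)) :
    ∫ M, L M ∂ν = 0 := by
  classical
  have h1 : ∀ M : T → E →L[ℝ] E, L M = ∑ i, ∑ b, ∑ a,
      fn i (stdOrthonormalBasis ℝ E a) (stdOrthonormalBasis ℝ E b) M *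
      L (Pi.single i (InnerProductSpace.rankOne ℝ (stdOrthonormalBasis ℝ E a)
        (stdOrthonormalBasis ℝ E b)) : T → E →L[ℝ] E) := by
    intro M
    conv_lhs => rw [fam_sum M]
    simp only [map_sum, map_smul, smul_eq_mul]
  rw [integral_congr_ae (Eventually.of_forall h1)]
  have hint : ∀ (i : T) (x y : E) (r : ℝ), Integrable (fun M => fn i x y M * r) ν := by
    intro i x y r
    exact (IsGaussian.integrable_dual ν (fn i x y)).mul_const r
  rw [integral_finsetSum _ (fun i _ => integrable_finsetSum _ (fun b _ =>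
    integrable_finsetSum _ (fun a _ => hint _ _ _ _)))]
  refine Finset.sum_eq_zero (fun i _ => ?_)
  rw [integral_finsetSum _ (fun b _ =>
    integrable_finsetSum _ (fun a _ => hint _ _ _ _))]
  refine Finset.sum_eq_zero (fun b _ => ?_)
  rw [integral_finsetSum _ (fun a _ => hint _ _ _ _)]
  refine Finset.sum_eq_zero (fun a _ => ?_)
  rw [integral_mul_const]
  have := hm i (stdOrthonormalBasis ℝ E a) (stdOrthonormalBasis ℝ E b)
  simp only [fn_apply]
  rw [this, zero_mul]

end ROTM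

/-- Module ROT. -/
theorem specROT : SpecROT := by
  intro ι _ _ E _ _ _ T _ S c ν hν ψ
  have := hν.gauss
  have h := IsGaussian.map_rotation_eq_self_of_forall_strongDual_eq_zero (μ := ν)
    (fun L => ROTM.mean_zero ν hν.mean L) ψ
  exact h

end Pool.Agent.Lib.MP17fa2c
end

section
/-!
# MP_17fa2c_pr, block M, module SMB: small off-diagonal entries
-/
set_option autoImplicit false

open MeasureTheory ProbabilityTheory Filter Topology
open scoped RealInnerProductSpace NNReal ENNReal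

namespace Pool.Agent.Lib.MP17fa2c

namespace SMBM

instance chi_prob (N : ℕ) : IsProbabilityMeasure (chi N) := by
  unfold chi
  exact Measure.isProbabilityMeasure_map (by fun_prop)

lemma lintegral_pi_prod {K : ℕ} (μ : Fin K → Measure (ℝ × ℝ)) [∀ i, IsProbabilityMeasure (μ i)]
    (f : Fin K → ℝ × ℝ → ℝ≥0∞) (hf : ∀ i, Measurable (f i)) :
    ∫⁻ w, ∏ i, f i (w i) ∂(Measure.pi μ) = ∏ i, ∫⁻ z, f i z ∂(μ i) := by
  have hind : iIndepFun (fun (i : Fin K) (w : Fin K → ℝ × ℝ) => f i (w i)) (Measure.pi μ) :=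
    iIndepFun_pi (X := fun i => f i) fun i => (hf i).aemeasurable
  have h := lintegral_prod_eq_prod_lintegral_of_indepFun Finset.univ
    (fun (i : Fin K) (w : Fin K → ℝ × ℝ) => f i (w i)) hind
    (fun i => (hf i).comp (measurable_pi_apply i))
  rw [h]
  refine Finset.prod_congr rfl fun i _ => ?_
  exact (measurePreserving_eval μ i).lintegral_comp (hf i)

/-- pointwise bound of a factor -/
lemma factor_le (s D N ε b : ℝ) (hs : 0 < s) (hD : 0 < D) (hN : D / 4 ≤ N) (hε : 0 < ε) :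
    Real.exp (s * max 0 (-Real.log (2 * (b / Real.sqrt D)))) ≤
      1 + (ε * (b ^ 2 / N) ^ (-s) + ε⁻¹ * Real.exp (D / 4) * Real.exp (-1 * b ^ 2)) := by
  have hN0 : 0 < N := lt_of_lt_of_le (by positivity) hN
  have hsD : 0 < Real.sqrt D := Real.sqrt_pos.mpr hD
  set x := 2 * (b / Real.sqrt D) with hx
  have hx2 : x ^ 2 = 4 * b ^ 2 / D := by
    rw [hx, mul_pow, div_pow, Real.sq_sqrt hD.le]; ring
  have hpos : 0 ≤ ε * (b ^ 2 / N) ^ (-s) + ε⁻¹ * Real.exp (D / 4) * Real.exp (-1 * b ^ 2) := by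
    positivity
  by_cases hlog : 0 ≤ Real.log x
  · rw [max_eq_left (by linarith), mul_zero, Real.exp_zero]
    linarith
  · push Not at hlog
    rw [max_eq_right (by linarith)]
    have hx0 : x ≠ 0 := by
      rintro h
      rw [h, Real.log_zero] at hlog
      exact lt_irrefl _ hlog
    have hb0 : b ≠ 0 := by
      rintro h
      apply hx0
      rw [hx, h]; simp
    have hx2p : 0 < x ^ 2 := by positivity
    have hx1 : x ^ 2 < 1 := by
      by_contra hcon
      push Not at hcon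
      have h1 : 0 ≤ Real.log (x ^ 2) := Real.log_nonneg hcon
      rw [Real.log_pow] at h1
      push_cast at h1
      linarith
    have hb : b ^ 2 < D / 4 := by
      rw [hx2, div_lt_one hD] at hx1
      linarith
    set y := Real.exp (s * -Real.log x) with hy
    have hy0 : 0 < y := Real.exp_pos _
    have hyy : y ^ 2 = (x ^ 2) ^ (-s) := by
      rw [hy, ← Real.exp_nat_mul, Real.rpow_def_of_pos hx2p, Real.log_pow]
      congr 1
      push_cast
      ring
    have hle : (x ^ 2) ^ (-s) ≤ (b ^ 2 / N) ^ (-s) := by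
      apply Real.rpow_le_rpow_of_nonpos (by positivity) _ (by linarith)
      rw [hx2, div_le_div_iff₀ hN0 hD]
      nlinarith [sq_nonneg b]
    have hexp : 1 ≤ Real.exp (D / 4) * Real.exp (-1 * b ^ 2) := by
      rw [← Real.exp_add]
      apply Real.one_le_exp
      linarith
    have hAG : y ≤ ε * y ^ 2 + ε⁻¹ := by
      have h1 : 0 ≤ (Real.sqrt ε * y - (Real.sqrt ε)⁻¹) ^ 2 := sq_nonneg _
      have h2 : (Real.sqrt ε * y - (Real.sqrt ε)⁻¹) ^ 2 = ε * y ^ 2 - 2 * y + ε⁻¹ := by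
        have h3 : Real.sqrt ε ≠ 0 := (Real.sqrt_pos.mpr hε).ne'
        have h4 : Real.sqrt ε ^ 2 = ε := Real.sq_sqrt hε.le
        calc (Real.sqrt ε * y - (Real.sqrt ε)⁻¹) ^ 2
            = Real.sqrt ε ^ 2 * y ^ 2 - 2 * (Real.sqrt ε * (Real.sqrt ε)⁻¹) * y +
              (Real.sqrt ε ^ 2)⁻¹ := by ring
          _ = ε * y ^ 2 - 2 * y + ε⁻¹ := by rw [h4, mul_inv_cancel₀ h3]; ring
      rw [h2] at h1
      linarith
    have h5 : ε⁻¹ ≤ ε⁻¹ * Real.exp (D / 4) * Real.exp (-1 * b ^ 2) := by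
      rw [mul_assoc]
      exact le_mul_of_one_le_right (by positivity) hexp
    have h6 : ε * y ^ 2 ≤ ε * (b ^ 2 / N) ^ (-s) := by
      rw [hyy]
      exact mul_le_mul_of_nonneg_left hle hε.le
    linarith

lemma factor_int (hMGC : SpecMGC) {C₀ : ℝ} (hC₀ : 1 ≤ C₀)
    (hNEG : ∀ (N : ℕ) (r : ℝ), 0 < N → 0 ≤ r → 4 * r ≤ N →
      ∫⁻ x, ENNReal.ofReal ((x ^ 2 / N) ^ (-r)) ∂(chi N) ≤ ENNReal.ofReal (C₀ ^ r))
    (s : ℝ) (hs : 0 < s) (D N : ℕ) (hD : 0 < D) (hN : 3 * (D : ℝ) / 4 ≤ N) (hsN : 4 * s ≤ N) :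
    ∫⁻ b, ENNReal.ofReal (Real.exp (s * max 0 (-Real.log (2 * (b / Real.sqrt D))))) ∂(chi N) ≤
      ENNReal.ofReal (1 + (C₀ ^ s + 1) * Real.exp (-(D : ℝ) / 16)) := by
  have hDr : (0 : ℝ) < D := by exact_mod_cast hD
  have hNpos : 0 < N := by
    have : (0 : ℝ) < N := lt_of_lt_of_le (by positivity) hN
    exact_mod_cast this
  set ε := Real.exp (-(D : ℝ) / 16) with hε
  have hε0 : 0 < ε := Real.exp_pos _
  have h1 := hNEG N s hNpos hs.le hsN
  have h2 := hMGC N (-1) (by norm_num)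
  have h3 : ((1 : ℝ) - 2 * (-1)) ^ (-(N : ℝ) / 2) ≤ Real.exp (-(3 * (D : ℝ) / 8)) := by
    have h3e : Real.exp 1 ≤ 3 := by linarith [Real.exp_one_lt_d9]
    calc ((1 : ℝ) - 2 * (-1)) ^ (-(N : ℝ) / 2) = (3 : ℝ) ^ (-(N : ℝ) / 2) := by norm_num
      _ ≤ (Real.exp 1) ^ (-(N : ℝ) / 2) := by
          apply Real.rpow_le_rpow_of_nonpos (Real.exp_pos _) h3e
          have : (0 : ℝ) ≤ N := Nat.cast_nonneg _
          linarith
      _ = Real.exp (-(N : ℝ) / 2) := by rw [← Real.exp_mul, one_mul]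
      _ ≤ Real.exp (-(3 * (D : ℝ) / 8)) := by
          apply Real.exp_le_exp.mpr
          linarith
  have hm1 : Measurable fun b : ℝ => ENNReal.ofReal (ε * (b ^ 2 / N) ^ (-s)) := by
    fun_prop
  calc ∫⁻ b, ENNReal.ofReal (Real.exp (s * max 0 (-Real.log (2 * (b / Real.sqrt D))))) ∂(chi N)
      ≤ ∫⁻ b, (1 + (ENNReal.ofReal (ε * (b ^ 2 / N) ^ (-s)) +
          ENNReal.ofReal (ε⁻¹ * Real.exp (D / 4) * Real.exp (-1 * b ^ 2)))) ∂(chi N) := by
        refine lintegral_mono fun b => ?_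
        have hp1 : 0 ≤ ε * (b ^ 2 / N) ^ (-s) := by positivity
        have hp2 : 0 ≤ ε⁻¹ * Real.exp (D / 4) * Real.exp (-1 * b ^ 2) := by positivity
        rw [← ENNReal.ofReal_add hp1 hp2, ← ENNReal.ofReal_one,
          ← ENNReal.ofReal_add zero_le_one (add_nonneg hp1 hp2)]
        exact ENNReal.ofReal_le_ofReal
          (factor_le s D N ε b hs hDr (by linarith) hε0)
    _ = 1 + (ENNReal.ofReal ε * ∫⁻ b, ENNReal.ofReal ((b ^ 2 / N) ^ (-s)) ∂(chi N) +
          ENNReal.ofReal (ε⁻¹ * Real.exp (D / 4)) *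
          ∫⁻ b, ENNReal.ofReal (Real.exp (-1 * b ^ 2)) ∂(chi N)) := by
        rw [lintegral_add_left measurable_const, lintegral_add_left hm1, lintegral_const,
          measure_univ, mul_one]
        congr 2
        · rw [← lintegral_const_mul' _ _ ENNReal.ofReal_ne_top]
          refine lintegral_congr fun b => ?_
          rw [ENNReal.ofReal_mul hε0.le]
        · rw [← lintegral_const_mul' _ _ ENNReal.ofReal_ne_top]
          refine lintegral_congr fun b => ?_
          rw [← ENNReal.ofReal_mul (by positivity)]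
    _ ≤ 1 + (ENNReal.ofReal ε * ENNReal.ofReal (C₀ ^ s) +
          ENNReal.ofReal (ε⁻¹ * Real.exp (D / 4)) *
          ENNReal.ofReal (Real.exp (-(3 * (D : ℝ) / 8)))) := by
        rw [h2]
        gcongr
    _ = ENNReal.ofReal (1 + (ε * C₀ ^ s + ε⁻¹ * Real.exp (D / 4) *
          Real.exp (-(3 * (D : ℝ) / 8)))) := by
        have hp0 : 0 ≤ C₀ ^ s := Real.rpow_nonneg (by linarith) _
        rw [ENNReal.ofReal_add zero_le_one (by positivity),
          ENNReal.ofReal_add (by positivity) (by positivity), ENNReal.ofReal_one,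
          ENNReal.ofReal_mul hε0.le, ENNReal.ofReal_mul (p := ε⁻¹ * Real.exp (D / 4)) (by positivity)]
    _ = ENNReal.ofReal (1 + (C₀ ^ s + 1) * ε) := by
        congr 1
        have : ε⁻¹ * Real.exp (D / 4) * Real.exp (-(3 * (D : ℝ) / 8)) = ε := by
          rw [hε, ← Real.exp_neg, ← Real.exp_add, ← Real.exp_add]
          congr 1
          ring
        rw [this]
        ring

lemma integral_eq_prod (s : ℝ) (K D : ℕ) (N : ℕ → ℕ) :
    ∫⁻ w, ENNReal.ofReal (Real.exp (s * ∑ l ∈ Finset.range K,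
      max 0 (-Real.log (2 * (xb w l / Real.sqrt D))))) ∂(deLaw N K) =
    ∏ i : Fin K, ∫⁻ b, ENNReal.ofReal
      (Real.exp (s * max 0 (-Real.log (2 * (b / Real.sqrt D))))) ∂(chi (N i)) := by
  have hm : Measurable fun b : ℝ => ENNReal.ofReal
      (Real.exp (s * max 0 (-Real.log (2 * (b / Real.sqrt D))))) := by
    fun_prop
  have h1 := lintegral_pi_prod (fun i : Fin K => (gaussianReal 0 2).prod (chi (N i)))
    (fun _ z => ENNReal.ofReal (Real.exp (s * max 0 (-Real.log (2 * (z.2 / Real.sqrt D))))))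
    (fun _ => hm.comp measurable_snd)
  unfold deLaw
  calc _ = ∫⁻ w : Fin K → ℝ × ℝ, ∏ i : Fin K, ENNReal.ofReal (Real.exp (s * max 0 (-Real.log
        (2 * ((w i).2 / Real.sqrt D))))) ∂(Measure.pi fun j : Fin K =>
        (gaussianReal 0 2).prod (chi (N j))) := by
        refine lintegral_congr fun w => ?_
        rw [← ENNReal.ofReal_prod_of_nonneg (fun _ _ => (Real.exp_pos _).le), ← Real.exp_sum,
          Finset.mul_sum, Finset.sum_range]
        congr 2
        refine Finset.sum_congr rfl fun i _ => ?_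
        simp [xb]
    _ = _ := by
        rw [h1]
        refine Finset.prod_congr rfl fun i _ => ?_
        have h2 : AEMeasurable (fun z : ℝ × ℝ => ENNReal.ofReal
            (Real.exp (s * max 0 (-Real.log (2 * (z.2 / Real.sqrt D))))))
            ((gaussianReal 0 2).prod (chi (N i))) := (hm.comp measurable_snd).aemeasurable
        rw [lintegral_prod _ h2]
        simp

end SMBM

open SMBM in
theorem specSMB (hMGC : SpecMGC) (hNEG : SpecNEG) : SpecSMB := by
  intro β s hs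
  obtain ⟨C₀, hC₀, hneg⟩ := hNEG
  set C₁ := C₀ ^ s + 1 with hC₁
  have hC₁p : 0 < C₁ := by
    have : 0 ≤ C₀ ^ s := Real.rpow_nonneg (by linarith) _
    linarith
  refine ⟨32 * C₁ + 4 * β + 8 * s + 1, by positivity, ?_⟩
  intro K D hK hCK
  have hKr : (1 : ℝ) ≤ K := by exact_mod_cast hK
  have hβ : (0 : ℝ) ≤ β := Nat.cast_nonneg _
  have hle : ∀ c : ℝ, c ≤ 32 * C₁ + 4 * β + 8 * s + 1 → c * K ≤ D := fun c hc =>
    (mul_le_mul_of_nonneg_right hc (by positivity)).trans hCK
  have hDr : (0 : ℝ) < D := lt_of_lt_of_le (by positivity) (hle 1 (by linarith))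
  have hD : 0 < D := by exact_mod_cast hDr
  have hβK : 4 * (β : ℝ) * K ≤ D := hle _ (by linarith)
  have hsK : 8 * s ≤ D := by
    have := hle (8 * s) (by linarith)
    nlinarith
  rw [integral_eq_prod]
  have hfac : ∀ i : Fin K, ∫⁻ b, ENNReal.ofReal
      (Real.exp (s * max 0 (-Real.log (2 * (b / Real.sqrt D))))) ∂(chi (D - β * ((i : ℕ) + 1))) ≤
      ENNReal.ofReal (1 + C₁ * Real.exp (-(D : ℝ) / 16)) := by
    intro i
    have hi : ((i : ℕ) : ℝ) + 1 ≤ K := by exact_mod_cast i.2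
    have hN : 3 * (D : ℝ) / 4 ≤ ((D - β * ((i : ℕ) + 1) : ℕ) : ℝ) := by
      have h1 : (D : ℝ) - β * ((i : ℕ) + 1) ≤ ((D - β * ((i : ℕ) + 1) : ℕ) : ℝ) := by
        rw [sub_le_iff_le_add]
        have : D ≤ (D - β * ((i : ℕ) + 1)) + β * ((i : ℕ) + 1) := le_tsub_add
        exact_mod_cast this
      nlinarith [mul_le_mul_of_nonneg_left hi hβ]
    exact factor_int hMGC hC₀ hneg s hs D _ hD hN (by linarith)
  calc ∏ i : Fin K, (∫⁻ b, ENNReal.ofReal
      (Real.exp (s * max 0 (-Real.log (2 * (b / Real.sqrt D))))) ∂(chi (D - β * ((i : ℕ) + 1))))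
      ≤ ∏ _i : Fin K, ENNReal.ofReal (1 + C₁ * Real.exp (-(D : ℝ) / 16)) :=
        Finset.prod_le_prod' fun i _ => hfac i
    _ = ENNReal.ofReal ((1 + C₁ * Real.exp (-(D : ℝ) / 16)) ^ K) := by
        rw [Finset.prod_const, Finset.card_univ, Fintype.card_fin, ENNReal.ofReal_pow (by positivity)]
    _ ≤ ENNReal.ofReal 2 := by
        apply ENNReal.ofReal_le_ofReal
        have hx : C₁ * Real.exp (-(D : ℝ) / 16) * K ≤ 1 / 2 := by
          have h1 : (D : ℝ) / 16 * Real.exp (-(D : ℝ) / 16) ≤ 1 := by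
            have h2 : (D : ℝ) / 16 ≤ Real.exp (D / 16) := by
              have := Real.add_one_le_exp ((D : ℝ) / 16)
              linarith
            calc (D : ℝ) / 16 * Real.exp (-(D : ℝ) / 16)
                ≤ Real.exp (D / 16) * Real.exp (-(D : ℝ) / 16) :=
                  mul_le_mul_of_nonneg_right h2 (Real.exp_pos _).le
              _ = 1 := by rw [← Real.exp_add]; simp [neg_div]
          have h3 : 32 * C₁ * K ≤ D := hle _ (by linarith)
          calc C₁ * Real.exp (-(D : ℝ) / 16) * K = (32 * C₁ * K) / 32 * Real.exp (-(D : ℝ) / 16) := by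
                ring
            _ ≤ D / 32 * Real.exp (-(D : ℝ) / 16) := by gcongr
            _ = ((D : ℝ) / 16 * Real.exp (-(D : ℝ) / 16)) / 2 := by ring
            _ ≤ 1 / 2 := by linarith
        calc (1 + C₁ * Real.exp (-(D : ℝ) / 16)) ^ K
            ≤ (Real.exp (C₁ * Real.exp (-(D : ℝ) / 16))) ^ K := by
              apply pow_le_pow_left₀ (by positivity)
              have := Real.add_one_le_exp (C₁ * Real.exp (-(D : ℝ) / 16))
              linarith
          _ = Real.exp (C₁ * Real.exp (-(D : ℝ) / 16) * K) := by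
              rw [← Real.exp_nat_mul, mul_comm]
          _ ≤ Real.exp (1 / 2) := Real.exp_le_exp.mpr hx
          _ ≤ 2 := by
              have h4 : Real.exp (1 / 2) ^ 2 ≤ 4 := by
                rw [← Real.exp_nat_mul]
                norm_num
                linarith [Real.exp_one_lt_d9]
              nlinarith [Real.exp_pos (1 / 2 : ℝ)]
    _ = 2 := by simp

end Pool.Agent.Lib.MP17fa2c
end

section
/-!
# MP_17fa2c_pr, module TSI: fourth moment of the increments of the process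
-/
set_option autoImplicit false

open MeasureTheory ProbabilityTheory Filter Topology
open scoped RealInnerProductSpace NNReal ENNReal

namespace Pool.Agent.Lib.MP17fa2c

namespace TSIM

theorem phi_le (τ : ℝ) (hτ : 0 ≤ τ) : Real.arccos (Real.exp (-τ)) ^ 4 ≤ 25 * τ ^ 2 ∧
    0 ≤ Real.arccos (Real.exp (-τ)) ∧ Real.cos (Real.arccos (Real.exp (-τ))) = Real.exp (-τ) := by
  have h0 : 0 ≤ Real.arccos (Real.exp (-τ)) := Real.arccos_nonneg _
  have h1 : Real.arccos (Real.exp (-τ)) ≤ Real.pi := Real.arccos_le_pi _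
  have he0 : 0 < Real.exp (-τ) := Real.exp_pos _
  have he1 : Real.exp (-τ) ≤ 1 := Real.exp_le_one_iff.2 (by linarith)
  have hc : Real.cos (Real.arccos (Real.exp (-τ))) = Real.exp (-τ) :=
    Real.cos_arccos (by linarith) he1
  refine ⟨?_, h0, hc⟩
  set φ := Real.arccos (Real.exp (-τ)) with hφ
  have hq := Real.cos_le_one_sub_mul_cos_sq (x := φ) (by rw [abs_of_nonneg h0]; exact h1)
  rw [hc] at hq
  have h2 : 1 - τ ≤ Real.exp (-τ) := by
    have := Real.add_one_le_exp (-τ)
    linarith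
  have hpi := Real.pi_pos
  have hpi2 : Real.pi ^ 2 < 10 := by
    have := Real.pi_lt_d2
    nlinarith
  have h3 : 2 / Real.pi ^ 2 * φ ^ 2 ≤ τ := by linarith
  have h4 : φ ^ 2 ≤ 5 * τ := by
    have h5 : 2 / 10 * φ ^ 2 ≤ 2 / Real.pi ^ 2 * φ ^ 2 := by
      apply mul_le_mul_of_nonneg_right _ (sq_nonneg φ)
      apply div_le_div_of_nonneg_left (by norm_num) (by positivity) hpi2.le
    linarith
  calc φ ^ 4 = (φ ^ 2) ^ 2 := by ring
    _ ≤ (5 * τ) ^ 2 := pow_le_pow_left₀ (sq_nonneg _) h4 2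
    _ = 25 * τ ^ 2 := by ring

end TSIM

theorem specTSI (hINC : SpecINC) (hPRL : SpecPRL) (hUNQ : SpecUNQ) (hMRG : SpecMRG)
    (hMEA : SpecMEA) : SpecTSI := by
  intro ι _ _
  obtain ⟨C, hC, h⟩ := hINC ι
  refine ⟨25 * C, by positivity, ?_⟩
  intro E _ _ _ S u τ μ hτ hμ hu k hk
  let _ : MeasurableSpace E := borel E
  have _ : BorelSpace E := ⟨rfl⟩
  obtain ⟨hφ4, hφ0, hcos⟩ := TSIM.phi_le τ hτ
  set φ := Real.arccos (Real.exp (-τ)) with hφ
  set ν : Measure (Unit → E →L[ℝ] E) := μ.map (fun M _ => M 0) with hν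
  have hνG : GFam S (fun _ _ => 1) ν := by
    have := (hMRG ι E (Fin 2) S _ μ hμ).1 Unit (fun _ => 0)
    simpa [c2] using this
  have hP := hPRL ι E S ν hνG φ
  rw [hcos] at hP
  have hEq : μ = (ν.prod ν).map (fun p (i : Fin 2) =>
    if i = 0 then p.1 () else Real.cos φ • p.1 () + Real.sin φ • p.2 ()) :=
    hUNQ ι E (Fin 2) S _ _ _ hμ (by rw [hcos]; exact hP)
  have hD0 : 0 ≤ dm E := Nat.cast_nonneg _
  have hk' : C * (k + 1) ≤ dm E := by
    refine le_trans ?_ hk
    have : 0 ≤ C * ((k : ℝ) + 1) := by positivity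
    nlinarith
  have hI := h E S u ν hνG hu k φ hk' hφ0
  have hmap : Measurable (fun p : (Unit → E →L[ℝ] E) × (Unit → E →L[ℝ] E) => fun (i : Fin 2) =>
      if i = 0 then p.1 () else Real.cos φ • p.1 () + Real.sin φ • p.2 ()) := by
    have m1 : Measurable (fun p : (Unit → E →L[ℝ] E) × (Unit → E →L[ℝ] E) => p.1 ()) :=
      (measurable_pi_apply (X := fun _ : Unit => E →L[ℝ] E) ()).comp measurable_fst
    have m2 : Measurable (fun p : (Unit → E →L[ℝ] E) × (Unit → E →L[ℝ] E) => p.2 ()) :=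
      (measurable_pi_apply (X := fun _ : Unit => E →L[ℝ] E) ()).comp measurable_snd
    refine measurable_pi_iff.2 (fun i => ?_)
    by_cases hi : i = 0
    · simp only [hi, if_true]
      exact m1
    · simp only [hi, if_false]
      exact (m1.const_smul (Real.cos φ)).add (m2.const_smul (Real.sin φ))
  obtain ⟨_, _, ma, mb, _⟩ := hMEA ι E (Fin 2) S u k
  have hexp : Real.exp (C * (k + 1) ^ 3 / dm E) ≤ Real.exp (25 * C * (k + 1) ^ 3 / dm E) := by
    apply Real.exp_le_exp.2
    apply div_le_div_of_nonneg_right _ hD0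
    have : 0 ≤ C * ((k : ℝ) + 1) ^ 3 := by positivity
    linarith
  have key : C * φ ^ 4 ≤ 25 * C * τ ^ 2 := by nlinarith
  have hA : (0 : ℝ) ≤ ((k : ℝ) + 1) ^ 2 := by positivity
  have hB : (0 : ℝ) ≤ ((k : ℝ) + 1) ^ (1 / 100 : ℝ) := by positivity
  constructor
  · rw [hEq, lintegral_map (by fun_prop) hmap]
    refine le_trans (le_of_eq ?_) (hI.1.trans (ENNReal.ofReal_le_ofReal ?_))
    · simp
    · exact mul_le_mul (mul_le_mul_of_nonneg_right (mul_le_mul_of_nonneg_right key hA) hB) hexp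
        (Real.exp_pos _).le (by positivity)
  · rw [hEq, lintegral_map (by fun_prop) hmap]
    refine le_trans (le_of_eq ?_) (hI.2.trans (ENNReal.ofReal_le_ofReal ?_))
    · simp
    · have key2 : C * dm E ^ 2 * φ ^ 4 ≤ 25 * C * dm E ^ 2 * τ ^ 2 := by
        have := mul_le_mul_of_nonneg_right key (sq_nonneg (dm E))
        nlinarith
      exact mul_le_mul (mul_le_mul_of_nonneg_right (mul_le_mul_of_nonneg_right key2 hA) hB) hexp
        (Real.exp_pos _).le (by positivity)

end Pool.Agent.Lib.MP17fa2c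
end

section
/-!
# MP_17fa2c_pr, block M, module VAR: variance of the derivative in a Gaussian direction
-/
set_option autoImplicit false

open MeasureTheory ProbabilityTheory Filter Topology
open scoped RealInnerProductSpace NNReal ENNReal

namespace Pool.Agent.Lib.MP17fa2c

namespace VARM

variable {ι : Type} [Fintype ι] [DecidableEq ι] {E : Type} [NormedAddCommGroup E]
  [InnerProductSpace ℝ E]

lemma orthonormal_J (hJON : SpecJON) (S : BStr ι E) (k : ℕ) (q : ℕ → E)
    (hq : ∀ a, ∀ i < k, ∀ j < k, ⟪q i, S.J a (q j)⟫ = if a = S.o ∧ i = j then 1 else 0) :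
    Orthonormal ℝ (fun p : ι × Fin k => S.J p.1 (q p.2)) := by
  classical
  obtain ⟨-, hJJ, -⟩ := hJON ι E S
  rw [orthonormal_iff_ite]
  rintro ⟨a, l⟩ ⟨b, m⟩
  simp only [Prod.mk.injEq]
  by_cases hab : a = b
  · subst hab
    rw [hJJ]
    have h := hq S.o l l.2 m m.2
    rw [S.J_o] at h
    rw [h]
    simp [Fin.ext_iff]
  · rw [if_neg (fun h => hab h.1)]
    by_cases hao : a = S.o
    · have hbo : b ≠ S.o := fun h => hab (hao.trans h.symm)
      rw [hao, S.J_o, hq b l l.2 m m.2, if_neg (fun h => hbo h.1)]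
    · rw [S.skew a hao]
      obtain ⟨c, s, -, hc, hco⟩ := S.mul a b
      rw [hc, inner_smul_right, hq c l l.2 m m.2, if_neg (fun h => hab (hco.mp h.1))]
      simp

lemma inner_J_sq (S : BStr ι E) (a : ι) (x y : E) : ⟪x, S.J a y⟫ ^ 2 = ⟪S.J a x, y⟫ ^ 2 := by
  by_cases hao : a = S.o
  · rw [hao, S.J_o, S.J_o]
  · rw [S.skew a hao, neg_sq]

/-- the variance is at most twice the sum of the squares -/
lemma var_le (hJON : SpecJON) (S : BStr ι E) (k : ℕ) (x q : ℕ → E)
    (hq : ∀ a, ∀ i < k, ∀ j < k, ⟪q i, S.J a (q j)⟫ = if a = S.o ∧ i = j then 1 else 0) :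
    ∑ i : Fin k, ∑ l : Fin k, (1 : ℝ) * ∑ a, (⟪x i, S.J a (x l)⟫ * ⟪q i, S.J a (q l)⟫ +
      ⟪x i, S.J a (q l)⟫ * ⟪q i, S.J a (x l)⟫) ≤ 2 * ∑ i ∈ Finset.range k, ‖x i‖ ^ 2 := by
  have hon := orthonormal_J hJON S k q hq
  have h1 : ∑ i : Fin k, ∑ l : Fin k, ∑ a, ⟪x i, S.J a (x l)⟫ * ⟪q i, S.J a (q l)⟫ =
      ∑ i : Fin k, ‖x i‖ ^ 2 := by
    refine Finset.sum_congr rfl fun i _ => ?_
    have h2 : ∀ l : Fin k, ∑ a, ⟪x i, S.J a (x l)⟫ * ⟪q i, S.J a (q l)⟫ =
        if i = l then ‖x i‖ ^ 2 else 0 := by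
      intro l
      rw [Finset.sum_eq_single S.o]
      · rw [hq S.o i i.2 l l.2]
        by_cases hil : i = l
        · subst hil
          simp [S.J_o]
        · have : ¬ (i : ℕ) = (l : ℕ) := fun h => hil (Fin.ext h)
          simp [hil, this]
      · intro a _ hao
        rw [hq a i i.2 l l.2, if_neg (fun h => hao h.1), mul_zero]
      · intro h
        exact absurd (Finset.mem_univ _) h
    simp_rw [h2]
    simp
  have h3 : ∑ i : Fin k, ∑ l : Fin k, ∑ a, ⟪x i, S.J a (q l)⟫ * ⟪q i, S.J a (x l)⟫ ≤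
      ∑ i : Fin k, ∑ l : Fin k, ∑ a, ⟪x i, S.J a (q l)⟫ ^ 2 := by
    have h4 : ∑ i : Fin k, ∑ l : Fin k, ∑ a, ⟪x i, S.J a (q l)⟫ * ⟪q i, S.J a (x l)⟫ ≤
        ∑ i : Fin k, ∑ l : Fin k, ∑ a, (⟪x i, S.J a (q l)⟫ ^ 2 / 2 +
          ⟪x l, S.J a (q i)⟫ ^ 2 / 2) := by
      refine Finset.sum_le_sum fun i _ => Finset.sum_le_sum fun l _ =>
        Finset.sum_le_sum fun a _ => ?_
      have h5 : ⟪q i, S.J a (x l)⟫ ^ 2 = ⟪x l, S.J a (q i)⟫ ^ 2 := by
        rw [inner_J_sq, real_inner_comm]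
      rw [← h5]
      nlinarith [sq_nonneg (⟪x i, S.J a (q l)⟫ - ⟪q i, S.J a (x l)⟫)]
    refine h4.trans (le_of_eq ?_)
    simp_rw [Finset.sum_add_distrib]
    have h6 : ∑ i : Fin k, ∑ l : Fin k, ∑ a, ⟪x l, S.J a (q i)⟫ ^ 2 / 2 =
        ∑ i : Fin k, ∑ l : Fin k, ∑ a, ⟪x i, S.J a (q l)⟫ ^ 2 / 2 := by
      rw [Finset.sum_comm]
    rw [h6, ← two_mul]
    simp_rw [← Finset.sum_div]
    ring
  have h7 : ∑ i : Fin k, ∑ l : Fin k, ∑ a, ⟪x i, S.J a (q l)⟫ ^ 2 ≤
      ∑ i : Fin k, ‖x i‖ ^ 2 := by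
    refine Finset.sum_le_sum fun i _ => ?_
    have h8 := hon.sum_inner_products_le (x i) (s := Finset.univ)
    rw [← Finset.univ_product_univ, Finset.sum_product, Finset.sum_comm] at h8
    refine le_trans (le_of_eq ?_) h8
    refine Finset.sum_congr rfl fun l _ => Finset.sum_congr rfl fun a _ => ?_
    rw [Real.norm_eq_abs, sq_abs, real_inner_comm]
  have h9 : ∑ i ∈ Finset.range k, ‖x i‖ ^ 2 = ∑ i : Fin k, ‖x i‖ ^ 2 := by
    rw [Finset.sum_range]
  rw [h9]
  simp_rw [one_mul, Finset.sum_add_distrib]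
  rw [h1]
  linarith

end VARM

open VARM in
theorem specVAR (hGLF : SpecGLF) (hGMO : SpecGMO) (hJON : SpecJON) : SpecVAR := by
  intro ι _ _ E _ _ _ S ν hν k x q hq
  have := hν.gauss
  obtain ⟨hv0, hlaw⟩ := hGLF ι E Unit S (fun _ _ => 1) ν hν (Fin k) (fun _ => ())
    (fun i => x i) (fun i => q i) _ rfl
  have hvle := var_le hJON S k x q hq
  set v := ∑ i : Fin k, ∑ l : Fin k, (1 : ℝ) * ∑ a, (⟪x i, S.J a (x l)⟫ * ⟪q i, S.J a (q l)⟫ +
      ⟪x i, S.J a (q l)⟫ * ⟪q i, S.J a (x l)⟫) with hv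
  set Z : (Unit → E →L[ℝ] E) → ℝ := fun G => ∑ i : Fin k, ⟪x i, G () (q i)⟫ with hZ
  have hZe : ∀ G : Unit → E →L[ℝ] E, ∑ i ∈ Finset.range k, ⟪x i, G () (q i)⟫ = Z G := by
    intro G
    rw [Finset.sum_range]
  have hZm : AEMeasurable Z ν := by
    have : NeZero (ν.map Z) := by
      rw [hlaw]
      exact ⟨IsProbabilityMeasure.ne_zero _⟩
    exact aemeasurable_of_map_neZero this
  set Sg := ∑ i ∈ Finset.range k, ‖x i‖ ^ 2 with hSg
  have hSg0 : 0 ≤ Sg := Finset.sum_nonneg fun i _ => sq_nonneg _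
  obtain ⟨hm2, hm4, -, -, hint⟩ := hGMO
  have hvt : ((v.toNNReal : ℝ≥0) : ℝ) = v := Real.coe_toNNReal v hv0
  have hsq : ∫⁻ G, ENNReal.ofReal (Z G ^ 2) ∂ν = ENNReal.ofReal v := by
    have h1 : ∫⁻ G, ENNReal.ofReal (Z G ^ 2) ∂ν =
        ∫⁻ z, ENNReal.ofReal (z ^ 2) ∂(gaussianReal 0 v.toNNReal) := by
      rw [← hlaw, lintegral_map' (by fun_prop) hZm]
    rw [h1, ← ofReal_integral_eq_lintegral_ofReal (hint _ 2) (ae_of_all _ fun z => sq_nonneg z),
      hm2, hvt]
  simp_rw [hZe]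
  refine ⟨?_, ?_⟩
  · have h1 : ∫⁻ G, ENNReal.ofReal (Z G ^ 4) ∂ν =
        ∫⁻ z, ENNReal.ofReal (z ^ 4) ∂(gaussianReal 0 v.toNNReal) := by
      rw [← hlaw, lintegral_map' (by fun_prop) hZm]
    rw [h1, ← ofReal_integral_eq_lintegral_ofReal (hint _ 4)
      (ae_of_all _ fun z => by positivity), hm4, hvt]
    apply ENNReal.ofReal_le_ofReal
    nlinarith
  · set c := Real.sqrt (2 * Sg) with hc
    have hc2 : c ^ 2 = 2 * Sg := Real.sq_sqrt (by positivity)
    have hc0 : 0 ≤ c := Real.sqrt_nonneg _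
    rcases hc0.eq_or_lt with h0 | hpos
    · have hv' : v = 0 := by
        have : 2 * Sg = 0 := by rw [← hc2, ← h0]; norm_num
        linarith
      have hz : ∀ᵐ G ∂ν, ENNReal.ofReal (Z G ^ 2) = 0 := by
        rw [hv', ENNReal.ofReal_zero, lintegral_eq_zero_iff' (by fun_prop)] at hsq
        exact hsq
      rw [lintegral_congr_ae (g := fun _ => 0)]
      · simp
      · filter_upwards [hz] with G hG
        rw [ENNReal.ofReal_eq_zero] at hG
        have : Z G = 0 := by nlinarith [sq_nonneg (Z G)]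
        simp [this]
    · calc ∫⁻ G, ENNReal.ofReal |Z G| ∂ν
          ≤ ∫⁻ G, (ENNReal.ofReal (2 * c)⁻¹ * ENNReal.ofReal (Z G ^ 2) +
              ENNReal.ofReal (c / 2)) ∂ν := by
            refine lintegral_mono fun G => ?_
            rw [← ENNReal.ofReal_mul (by positivity), ← ENNReal.ofReal_add (by positivity)
              (by positivity)]
            apply ENNReal.ofReal_le_ofReal
            have h1 : (2 * c)⁻¹ * Z G ^ 2 + c / 2 - |Z G| = (2 * c)⁻¹ * (|Z G| - c) ^ 2 := by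
              have : Z G ^ 2 = |Z G| ^ 2 := (sq_abs _).symm
              rw [this]
              field_simp
              ring
            have h2 : 0 ≤ (2 * c)⁻¹ * (|Z G| - c) ^ 2 := by positivity
            linarith
        _ = ENNReal.ofReal (2 * c)⁻¹ * ENNReal.ofReal v + ENNReal.ofReal (c / 2) := by
            rw [lintegral_add_right _ measurable_const, lintegral_const, measure_univ, mul_one,
              lintegral_const_mul' _ _ ENNReal.ofReal_ne_top, hsq]
        _ = ENNReal.ofReal ((2 * c)⁻¹ * v + c / 2) := by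
            rw [← ENNReal.ofReal_mul (by positivity), ← ENNReal.ofReal_add (by positivity)
              (by positivity)]
        _ ≤ ENNReal.ofReal c := by
            apply ENNReal.ofReal_le_ofReal
            have h1 : (2 * c)⁻¹ * v ≤ (2 * c)⁻¹ * c ^ 2 := by
              apply mul_le_mul_of_nonneg_left _ (by positivity)
              rw [hc2]; exact hvle
            have h2 : (2 * c)⁻¹ * c ^ 2 = c / 2 := by field_simp
            linarith

end Pool.Agent.Lib.MP17fa2c
end

section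
/-!
# MP_17fa2c_pr, block M, module XMO: exponential moments of the exponent of the edge estimates
-/
set_option autoImplicit false

open MeasureTheory ProbabilityTheory Filter Topology
open scoped RealInnerProductSpace NNReal ENNReal

namespace Pool.Agent.Lib.MP17fa2c

namespace XMOM

lemma measurable_xa (K l : ℕ) : Measurable fun w : Fin K → ℝ × ℝ => xa w l := by
  unfold xa
  by_cases h : l < K
  · simp only [h, dif_pos]
    exact (measurable_pi_apply _).fst
  · simp only [h, dif_neg, not_false_eq_true]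
    exact measurable_const

lemma measurable_xb (K l : ℕ) : Measurable fun w : Fin K → ℝ × ℝ => xb w l := by
  unfold xb
  by_cases h : l < K
  · simp only [h, dif_pos]
    exact (measurable_pi_apply _).snd
  · simp only [h, dif_neg, not_false_eq_true]
    exact measurable_const

lemma meas_sup' {α : Type*} [MeasurableSpace α] (t : Finset ℕ) (ht : t.Nonempty)
    (f : ℕ → α → ℝ) (hf : ∀ n ∈ t, Measurable (f n)) :
    Measurable fun w => t.sup' ht (fun l => f l w) := by
  have h := Finset.measurable_sup' ht hf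
  have h2 : t.sup' ht f = fun w => t.sup' ht (fun l => f l w) := by
    funext w
    rw [Finset.sup'_apply]
  rwa [h2] at h

lemma measurable_sma (K : ℕ) (R : ℝ) : Measurable fun w : Fin K → ℝ × ℝ => sma K R (xa w) := by
  unfold sma
  exact meas_sup' _ ⟨0, by simp⟩ (fun l w => |∑ i ∈ Finset.range l, xa w i / Real.sqrt R|)
    fun n _ => (Finset.measurable_sum _ fun i _ => (measurable_xa K i).div_const _).abs

lemma measurable_smb (K : ℕ) (R : ℝ) : Measurable fun w : Fin K → ℝ × ℝ => smb K R (xb w) := by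
  unfold smb
  exact meas_sup' _ ⟨0, by simp⟩ (fun l w => |∑ i ∈ Finset.range l, (xb w i ^ 2 / R - 1)|)
    fun n _ => (Finset.measurable_sum _ fun i _ =>
      (((measurable_xb K i).pow_const 2).div_const _).sub_const _).abs

/-- AM-GM for the exponent -/
lemma exp_xe_le (K : ℕ) (hK : 1 ≤ K) (R s : ℝ) (a b : ℕ → ℝ) :
    Real.exp (s * xe K R a b) ≤ Real.exp s / 3 * (Real.exp (6 * s * K * sma K R a) +
      (Real.exp (6 * s * K * smb K R b) + Real.exp (3 * s * ∑ l ∈ Finset.range K,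
        max 0 (-Real.log (2 * (b l / Real.sqrt R)))))) := by
  have hK0 : (K : ℝ) ≠ 0 := by
    have : (0 : ℝ) < K := by exact_mod_cast hK
    exact this.ne'
  set Sg := ∑ l ∈ Finset.range K, max 0 (-Real.log (2 * (b l / Real.sqrt R))) with hSg
  have h1 : s * xe K R a b = s + (2 * s * K * sma K R a + 2 * s * K * smb K R b + s * Sg) := by
    unfold xe ex osc
    rw [← hSg]
    field_simp
    ring
  rw [h1, Real.exp_add, div_mul_eq_mul_div, mul_div_assoc]
  refine mul_le_mul_of_nonneg_left ?_ (Real.exp_pos _).le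
  set X := Real.exp (2 * s * K * sma K R a) with hX
  set Y := Real.exp (2 * s * K * smb K R b) with hY
  set Z := Real.exp (s * Sg) with hZ
  have hX3 : Real.exp (6 * s * K * sma K R a) = X ^ 3 := by
    rw [hX, ← Real.exp_nat_mul]; congr 1; push_cast; ring
  have hY3 : Real.exp (6 * s * K * smb K R b) = Y ^ 3 := by
    rw [hY, ← Real.exp_nat_mul]; congr 1; push_cast; ring
  have hZ3 : Real.exp (3 * s * Sg) = Z ^ 3 := by
    rw [hZ, ← Real.exp_nat_mul]; congr 1; push_cast; ring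
  rw [hX3, hY3, hZ3, Real.exp_add, Real.exp_add]
  have hX0 : 0 < X := Real.exp_pos _
  have hY0 : 0 < Y := Real.exp_pos _
  have hZ0 : 0 < Z := Real.exp_pos _
  have key : 0 ≤ (X + Y + Z) * ((X - Y) ^ 2 + (Y - Z) ^ 2 + (Z - X) ^ 2) := by positivity
  nlinarith [key]

end XMOM

open XMOM in
theorem specXMO (hEXA : SpecEXA) (hEXC : SpecEXC) (hSMB : SpecSMB) : SpecXMO := by
  intro β s hs
  obtain ⟨C₀, hC₀, hsmb⟩ := hSMB β (3 * s) (by positivity)
  refine ⟨C₀ + 2400 * s + β + 4 * Real.exp s + (6 * s * β + 7200 * s ^ 2) + 1, by positivity, ?_⟩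
  intro K D hK hCK
  set C := C₀ + 2400 * s + β + 4 * Real.exp s + (6 * s * β + 7200 * s ^ 2) + 1 with hC
  have hKr : (1 : ℝ) ≤ K := by exact_mod_cast hK
  have hβ : (0 : ℝ) ≤ β := Nat.cast_nonneg _
  have hes : 0 < Real.exp s := Real.exp_pos _
  have hle : ∀ c : ℝ, c ≤ C → c * K ≤ D := fun c hc =>
    (mul_le_mul_of_nonneg_right hc (by positivity)).trans hCK
  have hDpos : (0 : ℝ) < D := lt_of_lt_of_le (by positivity) (hle 1 (by rw [hC]; nlinarith [hβ, hes, hs, hC₀, mul_nonneg (mul_nonneg (by norm_num : (0:ℝ) ≤ 6) hs.le) hβ, sq_nonneg s]))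
  have hX := hEXA K D (6 * s * K) (fun j => D - β * (j + 1)) hDpos (by positivity)
  have hY := hEXC β K D (6 * s * K) (by positivity)
    (by
      have := hle (2400 * s) (by rw [hC]; nlinarith [hβ, hes, hs, hC₀, mul_nonneg (mul_nonneg (by norm_num : (0:ℝ) ≤ 6) hs.le) hβ, sq_nonneg s])
      linarith)
    (by
      have := hle (β : ℝ) (by rw [hC]; nlinarith [hβ, hes, hs, hC₀, mul_nonneg (mul_nonneg (by norm_num : (0:ℝ) ≤ 6) hs.le) hβ, sq_nonneg s])
      exact_mod_cast this)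
    (by exact_mod_cast hDpos)
  have hZ := hsmb K D hK (hle C₀ (by rw [hC]; nlinarith [hβ, hes, hs, hC₀, mul_nonneg (mul_nonneg (by norm_num : (0:ℝ) ≤ 6) hs.le) hβ, sq_nonneg s]))
  set μ := deLaw (fun j => D - β * (j + 1)) K with hμ
  calc ∫⁻ w, ENNReal.ofReal (Real.exp (s * xe K D (xa w) (xb w))) ∂μ
      ≤ ∫⁻ w, ENNReal.ofReal (Real.exp s / 3) *
          (ENNReal.ofReal (Real.exp (6 * s * K * sma K D (xa w))) +
          (ENNReal.ofReal (Real.exp (6 * s * K * smb K D (xb w))) +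
          ENNReal.ofReal (Real.exp (3 * s * ∑ l ∈ Finset.range K,
            max 0 (-Real.log (2 * (xb w l / Real.sqrt D))))))) ∂μ := by
        refine lintegral_mono fun w => ?_
        rw [← ENNReal.ofReal_add (Real.exp_pos _).le (Real.exp_pos _).le,
          ← ENNReal.ofReal_add (Real.exp_pos _).le (by positivity),
          ← ENNReal.ofReal_mul (by positivity)]
        exact ENNReal.ofReal_le_ofReal (exp_xe_le K hK D s (xa w) (xb w))
    _ = ENNReal.ofReal (Real.exp s / 3) *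
          (∫⁻ w, ENNReal.ofReal (Real.exp (6 * s * K * sma K D (xa w))) ∂μ +
          (∫⁻ w, ENNReal.ofReal (Real.exp (6 * s * K * smb K D (xb w))) ∂μ +
          ∫⁻ w, ENNReal.ofReal (Real.exp (3 * s * ∑ l ∈ Finset.range K,
            max 0 (-Real.log (2 * (xb w l / Real.sqrt D))))) ∂μ)) := by
        rw [lintegral_const_mul' _ _ ENNReal.ofReal_ne_top, lintegral_add_left, lintegral_add_left]
        · exact (((measurable_smb K D).const_mul _).exp).ennreal_ofReal
        · exact (((measurable_sma K D).const_mul _).exp).ennreal_ofReal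
    _ ≤ ENNReal.ofReal (Real.exp s / 3) *
          (ENNReal.ofReal ((2 * ((K : ℝ) + 1)) ^ (1 / 100 : ℝ) *
            Real.exp (100 * (6 * s * K) ^ 2 * K / D)) +
          (ENNReal.ofReal ((2 * ((K : ℝ) + 1)) ^ (1 / 100 : ℝ) *
            Real.exp (6 * s * K * β * K ^ 2 / D + 200 * (6 * s * K) ^ 2 * K / D)) +
          ENNReal.ofReal 2)) := by
        gcongr
        refine hZ.trans ?_
        simp
    _ ≤ ENNReal.ofReal (C * (K : ℝ) ^ (1 / 100 : ℝ) * Real.exp (C * K ^ 3 / D)) := by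
        rw [← ENNReal.ofReal_add (by positivity) (by norm_num),
          ← ENNReal.ofReal_add (by positivity) (by positivity),
          ← ENNReal.ofReal_mul (by positivity)]
        refine ENNReal.ofReal_le_ofReal ?_
        have hp : (2 * ((K : ℝ) + 1)) ^ (1 / 100 : ℝ) ≤ 4 * (K : ℝ) ^ (1 / 100 : ℝ) := by
          calc (2 * ((K : ℝ) + 1)) ^ (1 / 100 : ℝ) ≤ (4 * (K : ℝ)) ^ (1 / 100 : ℝ) := by
                apply Real.rpow_le_rpow (by positivity) (by linarith) (by norm_num)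
            _ = 4 ^ (1 / 100 : ℝ) * (K : ℝ) ^ (1 / 100 : ℝ) := by
                rw [Real.mul_rpow (by norm_num) (by positivity)]
            _ ≤ 4 * (K : ℝ) ^ (1 / 100 : ℝ) := by
                gcongr
                calc (4 : ℝ) ^ (1 / 100 : ℝ) ≤ (4 : ℝ) ^ (1 : ℝ) :=
                      Real.rpow_le_rpow_of_exponent_le (by norm_num) (by norm_num)
                  _ = 4 := Real.rpow_one 4
        have hK1 : 1 ≤ (K : ℝ) ^ (1 / 100 : ℝ) := Real.one_le_rpow hKr (by norm_num)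
        set P := (K : ℝ) ^ (1 / 100 : ℝ) with hP
        have hE1 : Real.exp (100 * (6 * s * K) ^ 2 * K / D) ≤ Real.exp (C * K ^ 3 / D) := by
          apply Real.exp_le_exp.mpr
          apply div_le_div_of_nonneg_right _ hDpos.le
          have : 3600 * s ^ 2 ≤ C := by
            rw [hC]; nlinarith [hβ, hes, hs, hC₀, mul_nonneg (mul_nonneg (by norm_num : (0:ℝ) ≤ 6) hs.le) hβ, sq_nonneg s]
          have hK3 : (0 : ℝ) ≤ (K : ℝ) ^ 3 := by positivity
          nlinarith [mul_le_mul_of_nonneg_right this hK3]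
        have hE2 : Real.exp (6 * s * K * β * K ^ 2 / D + 200 * (6 * s * K) ^ 2 * K / D) ≤
            Real.exp (C * K ^ 3 / D) := by
          apply Real.exp_le_exp.mpr
          rw [← add_div]
          apply div_le_div_of_nonneg_right _ hDpos.le
          have : 6 * s * β + 7200 * s ^ 2 ≤ C := by
            rw [hC]; nlinarith [hβ, hes, hs, hC₀, mul_nonneg (mul_nonneg (by norm_num : (0:ℝ) ≤ 6) hs.le) hβ, sq_nonneg s]
          have hK3 : (0 : ℝ) ≤ (K : ℝ) ^ 3 := by positivity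
          nlinarith [mul_le_mul_of_nonneg_right this hK3]
        have hE3 : 1 ≤ Real.exp (C * K ^ 3 / D) := by
          apply Real.one_le_exp
          have : 0 ≤ C := by rw [hC]; positivity
          positivity
        set Q := Real.exp (C * K ^ 3 / D) with hQ
        have hPQ : 1 ≤ P * Q := one_le_mul_of_one_le_of_one_le hK1 hE3
        have hA : (2 * ((K : ℝ) + 1)) ^ (1 / 100 : ℝ) * Real.exp (100 * (6 * s * K) ^ 2 * K / D) ≤
            4 * P * Q := mul_le_mul hp hE1 (Real.exp_pos _).le (by positivity)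
        have hB : (2 * ((K : ℝ) + 1)) ^ (1 / 100 : ℝ) *
            Real.exp (6 * s * K * β * K ^ 2 / D + 200 * (6 * s * K) ^ 2 * K / D) ≤
            4 * P * Q := mul_le_mul hp hE2 (Real.exp_pos _).le (by positivity)
        have hCe : 4 * Real.exp s ≤ C := by
          rw [hC]; nlinarith [hβ, hes, hs, hC₀, mul_nonneg (mul_nonneg (by norm_num : (0:ℝ) ≤ 6) hs.le) hβ, sq_nonneg s]
        calc Real.exp s / 3 * ((2 * ((K : ℝ) + 1)) ^ (1 / 100 : ℝ) *
              Real.exp (100 * (6 * s * K) ^ 2 * K / D) +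
              ((2 * ((K : ℝ) + 1)) ^ (1 / 100 : ℝ) *
              Real.exp (6 * s * K * β * K ^ 2 / D + 200 * (6 * s * K) ^ 2 * K / D) + 2))
            ≤ Real.exp s / 3 * (4 * P * Q + (4 * P * Q + 2 * (P * Q))) := by
              gcongr
              linarith
          _ = (10 / 3 * Real.exp s) * (P * Q) := by ring
          _ ≤ C * (P * Q) := by
              apply mul_le_mul_of_nonneg_right _ (by positivity)
              linarith
          _ = C * P * Q := by ring

end Pool.Agent.Lib.MP17fa2c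
end
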