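import Pool.Agent.Lib.MP_17fa2c_pr.TD.SpecA
import Pool.Agent.Lib.MP_17fa2c_pr.TD.SpecE
import Pool.Agent.Lib.MP_17fa2c_pr.TD.SpecL
import Pool.Agent.Lib.MP_17fa2c_pr.TD.RSB

section
/-!
# MP_17fa2c_pr, module EXO: exploration of a single matrix
-/
set_option autoImplicit false
set_option linter.unusedSectionVars false

open MeasureTheory ProbabilityTheory Filter Topology
open scoped RealInnerProductSpace NNReal ENNReal

namespace Pool.Agent.Lib.MP17fa2c

namespace EXOM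

variable {ι : Type} [Fintype ι] [DecidableEq ι]
  {E : Type} [NormedAddCommGroup E] [InnerProductSpace ℝ E] [FiniteDimensional ℝ E]
  (S : BStr ι E) (u : E) (M : Unit → E →L[ℝ] E)

theorem expl_succ (j : ℕ) :
    expl S u M (j + 1) = addv S (expl S u M j) (qv (M ()) u j) := by
  have h : (Finset.univ : Finset Unit).toList = [()] := by
    have : (Finset.univ : Finset Unit) = {()} := rfl
    rw [this, Finset.toList_singleton]
  show (Finset.univ : Finset Unit).toList.foldl (fun P i => addv S P (qv (M i) u j))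
      (expl S u M j) = _
  rw [h]
  rfl

theorem kill (hADD : SpecADD) (hEXP : SpecEXP) (j : ℕ) :
    ∀ x, (∀ l < j, ∀ a, ⟪S.J a (qv (M ()) u l), x⟫ = 0) → expl S u M j x = 0 := by
  induction j with
  | zero =>
    intro x _
    rfl
  | succ j ih =>
    intro x hx
    rw [expl_succ]
    have hP := (hEXP ι E Unit S u M j).1
    exact (hADD ι E S _ (qv (M ()) u j) hP).2.2.2.2.2.2 x
      (fun a => hx j (Nat.lt_succ_self j) a) (ih x fun l hl => hx l (Nat.lt_succ_of_lt hl))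

variable {S u M}

theorem perp (hLOR : SpecLOR) (hLHM : SpecLHM) (hM : HermF S M) (hu : ‖u‖ = 1) {i j : ℕ}
    (hij : i ≠ j) (a : ι) : ⟪S.J a (qv (M ()) u i), qv (M ()) u j⟫ = 0 := by
  by_cases ha : a = S.o
  · subst ha
    rw [S.J_o]
    exact (hLOR E (M ()) u (hM ()).1 hu).1 i j hij
  · rw [real_inner_comm]
    exact hLHM ι E S (M ()) u (hM ()) a ha j i

theorem exq (hLOR : SpecLOR) (hLHM : SpecLHM) (hADD : SpecADD) (hEXP : SpecEXP)
    (hM : HermF S M) (hu : ‖u‖ = 1) (j : ℕ) : expl S u M j (qv (M ()) u j) = 0 :=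
  kill S u M hADD hEXP j _ fun l hl a => perp hLOR hLHM hM hu (by omega) a

theorem trc (hLOR : SpecLOR) (hLHM : SpecLHM) (hADD : SpecADD) (hEXP : SpecEXP)
    (hM : HermF S M) (hu : ‖u‖ = 1) (j : ℕ) (hb : ∀ l < j, bv (M ()) u l ≠ 0) :
    tr (expl S u M (j + 1)) = Fintype.card ι * ((j : ℝ) + 1) := by
  induction j with
  | zero =>
    rw [expl_succ]
    have hP := (hEXP ι E Unit S u M 0).1
    rw [(hADD ι E S _ (qv (M ()) u 0) hP).2.2.2.2.2.1]
    · have : tr (expl S u M 0) = 0 := by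
        show tr (0 : E →L[ℝ] E) = 0
        unfold tr
        simp
      rw [this]
      simp
    · have : cp (expl S u M 0) (qv (M ()) u 0) = u := by
        show u - (0 : E →L[ℝ] E) u = u
        simp
      rw [this]
      intro h
      rw [h, norm_zero] at hu
      exact zero_ne_one hu
  | succ j ih =>
    rw [expl_succ]
    have hP := (hEXP ι E Unit S u M (j + 1)).1
    rw [(hADD ι E S _ (qv (M ()) u (j + 1)) hP).2.2.2.2.2.1]
    · rw [ih fun l hl => hb l (Nat.lt_succ_of_lt hl)]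
      push_cast
      ring
    · have h1 : cp (expl S u M (j + 1)) (qv (M ()) u (j + 1)) = qv (M ()) u (j + 1) := by
        show qv (M ()) u (j + 1) - expl S u M (j + 1) (qv (M ()) u (j + 1)) = _
        rw [exq hLOR hLHM hADD hEXP hM hu, sub_zero]
      rw [h1]
      intro h
      have h2 := (hLOR E (M ()) u (hM ()).1 hu).2.1 (j + 1) hb
      rw [h, norm_zero] at h2
      exact zero_ne_one h2

end EXOM

open EXOM in
/-- **EXO**: exploration of a single matrix. -/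
theorem specEXO (hLOR : SpecLOR) (hLHM : SpecLHM) (hADD : SpecADD) (hEXP : SpecEXP) :
    SpecEXO := by
  intro ι _ _ E _ _ _ S u M j hM hu hb
  obtain ⟨-, l2, -, l4, l5, -, -, -⟩ := hLOR E (M ()) u (hM ()).1 hu
  refine ⟨exq hLOR hLHM hADD hEXP hM hu j, l2 j hb, trc hLOR hLHM hADD hEXP hM hu j hb, ?_⟩
  have hfix := (hEXP ι E Unit S u M (j + 1)).2.2.1
  have h1 : expl S u M (j + 1) (qv (M ()) u j) = qv (M ()) u j := hfix j (Nat.lt_succ_self j) ()
  have h2 : expl S u M (j + 1) (lan (M ()) u j).1 = (lan (M ()) u j).1 := by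
    cases j with
    | zero =>
      show expl S u M 1 0 = 0
      rw [map_zero]
    | succ k =>
      rw [l5, map_smul, hfix k (by omega) ()]
  have h3 : expl S u M (j + 1) (qv (M ()) u (j + 1)) = 0 := exq hLOR hLHM hADD hEXP hM hu (j + 1)
  have h4 : cp (expl S u M (j + 1)) (M () (qv (M ()) u j)) =
      bv (M ()) u j • qv (M ()) u (j + 1) := by
    show M () (qv (M ()) u j) - expl S u M (j + 1) (M () (qv (M ()) u j)) = _
    rw [l4 j, map_add, map_add, map_smul, map_smul, h1, h2, h3]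
    simp
  have h5 : bv (M ()) u j • qv (M ()) u (j + 1) = wv (M ()) u j := by
    have e : qv (M ()) u (j + 1) = (bv (M ()) u j)⁻¹ • wv (M ()) u j := rfl
    rw [e]
    by_cases h : bv (M ()) u j = 0
    · rw [h, zero_smul]
      exact (norm_eq_zero.1 h).symm
    · rw [smul_smul, mul_inv_cancel₀ h, one_smul]
  rw [h4, h5]
  rfl

end Pool.Agent.Lib.MP17fa2c
end

section
/-! # EXP: the exploration projections -/
set_option autoImplicit false

open MeasureTheory ProbabilityTheory Filter Topology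
open scoped RealInnerProductSpace NNReal ENNReal

namespace Pool.Agent.Lib.MP17fa2c

namespace EXPM

variable {ι : Type} [Fintype ι] [DecidableEq ι] {E : Type} [NormedAddCommGroup E]
  [InnerProductSpace ℝ E]

theorem isPr_zero (S : BStr ι E) : IsPr S (0 : E →L[ℝ] E) := by
  refine ⟨⟨fun x y => ?_, fun a x => ?_⟩, fun x => ?_⟩ <;> simp

theorem fold [FiniteDimensional ℝ E] {T : Type} (hADD : SpecADD) (S : BStr ι E) (v : T → E)
    (L : List T) :
    ∀ P : E →L[ℝ] E, IsPr S P →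
      IsPr S (L.foldl (fun P i => addv S P (v i)) P) ∧
      (∀ x, P (L.foldl (fun P i => addv S P (v i)) P x) = P x) ∧
      (∀ x, L.foldl (fun P i => addv S P (v i)) P (P x) = P x) ∧
      (∀ i ∈ L, L.foldl (fun P i => addv S P (v i)) P (v i) = v i) ∧
      tr (L.foldl (fun P i => addv S P (v i)) P) ≤ tr P + Fintype.card ι * L.length := by
  induction L with
  | nil =>
    intro P hP
    simp only [List.foldl_nil, List.length_nil]
    exact ⟨hP, hP.2, hP.2, fun i hi => absurd hi List.not_mem_nil, by simp⟩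
  | cons a L ih =>
    intro P hP
    obtain ⟨h1, h2, h3, h4, h5, -, -⟩ := hADD ι E S P (v a) hP
    obtain ⟨g1, g2, g3, g4, g5⟩ := ih (addv S P (v a)) h1
    simp only [List.foldl_cons, List.length_cons]
    refine ⟨g1, fun x => ?_, fun x => ?_, fun i hi => ?_, ?_⟩
    · rw [← h3, g2, h3]
    · rw [← h4 x, g3, h4]
    · rcases List.mem_cons.1 hi with rfl | hi
      · have := g3 (v i)
        rw [h2] at this
        exact this
      · exact g4 i hi
    · push_cast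
      linarith

end EXPM

open EXPM in
theorem specEXP (hADD : SpecADD) : SpecEXP := by
  intro ι _ _ E _ _ _ T _ S u M j
  have hstep : ∀ j, IsPr S (expl S u M j) →
      IsPr S (expl S u M (j + 1)) ∧
      (∀ x, expl S u M j (expl S u M (j + 1) x) = expl S u M j x) ∧
      (∀ x, expl S u M (j + 1) (expl S u M j x) = expl S u M j x) ∧
      (∀ i, expl S u M (j + 1) (qv (M i) u j) = qv (M i) u j) ∧
      tr (expl S u M (j + 1)) ≤ tr (expl S u M j) + Fintype.card ι * Fintype.card T := by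
    intro j hj
    obtain ⟨h1, h2, h3, h4, h5⟩ := fold hADD S (fun i : T => qv (M i) u j)
      (Finset.univ : Finset T).toList (expl S u M j) hj
    refine ⟨h1, h2, h3, fun i => h4 i (Finset.mem_toList.2 (Finset.mem_univ i)), ?_⟩
    rw [Finset.length_toList, Finset.card_univ] at h5
    exact h5
  induction j with
  | zero =>
    refine ⟨isPr_zero S, ?_, fun l hl => absurd hl (Nat.not_lt_zero l), ?_⟩
    · intro i hi x
      have : i = 0 := by omega
      subst this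
      simp [expl]
    · simp [expl, tr]
  | succ j ih =>
    obtain ⟨i1, i2, i3, i4⟩ := ih
    obtain ⟨h1, h2, h3, h4, h5⟩ := hstep j i1
    refine ⟨h1, fun i hi x => ?_, fun l hl i => ?_, ?_⟩
    · rcases Nat.lt_or_ge i (j + 1) with hi' | hi'
      · have hij : i ≤ j := by omega
        constructor
        · rw [← (i2 i hij (expl S u M (j + 1) x)).1, h2, (i2 i hij x).1]
        · rw [← (i2 i hij x).2, h3]
      · have : i = j + 1 := by omega
        subst this
        exact ⟨h1.2 x, h1.2 x⟩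
    · rcases Nat.lt_or_ge l j with hl' | hl'
      · rw [← i3 l hl' i, h3]
      · have : l = j := by omega
        subst this
        exact h4 i
    · push_cast
      have e : (Fintype.card ι : ℝ) * Fintype.card T * (j + 1) =
        Fintype.card ι * Fintype.card T * j + Fintype.card ι * Fintype.card T := by ring
      rw [e]
      linarith

end Pool.Agent.Lib.MP17fa2c
end

section
/-!
# MP_17fa2c_pr, module GLF: linear functionals of a Gaussian family
-/
set_option autoImplicit false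

open MeasureTheory ProbabilityTheory Filter Topology
open scoped RealInnerProductSpace NNReal ENNReal

namespace Pool.Agent.Lib.MP17fa2c

namespace GLFM

variable {E : Type} [NormedAddCommGroup E] [InnerProductSpace ℝ E] [FiniteDimensional ℝ E]
  {T : Type} [Fintype T]

/-- the functional `G ↦ ⟪x, G i y⟫` -/
noncomputable def fn (i : T) (x y : E) : StrongDual ℝ (T → E →L[ℝ] E) :=
  (innerSL ℝ x) ∘L ((ContinuousLinearMap.apply ℝ E y) ∘L
    (ContinuousLinearMap.proj (R := ℝ) (φ := fun _ : T => E →L[ℝ] E) i))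

theorem fn_apply (i : T) (x y : E) (G : T → E →L[ℝ] E) : fn i x y G = ⟪x, G i y⟫ := rfl

theorem memLp_fn (ν : Measure (T → E →L[ℝ] E)) [IsGaussian ν] (i : T) (x y : E) :
    MemLp (fun G : T → E →L[ℝ] E => ⟪x, G i y⟫) 2 ν :=
  IsGaussian.memLp_dual ν (fn i x y) 2 (by simp)

theorem integrable_fn (ν : Measure (T → E →L[ℝ] E)) [IsGaussian ν] (i : T) (x y : E) :
    Integrable (fun G : T → E →L[ℝ] E => ⟪x, G i y⟫) ν :=
  IsGaussian.integrable_dual ν (fn i x y)

end GLFM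

theorem specGLF : SpecGLF := by
  intro ι _ _ E _ _ _ T _ S c ν hν K _ i x y v hv
  haveI := hν.gauss
  set L : StrongDual ℝ (T → E →L[ℝ] E) := ∑ k, GLFM.fn (i k) (x k) (y k) with hL
  have hLe : ∀ G : T → E →L[ℝ] E, L G = ∑ k, ⟪x k, G (i k) (y k)⟫ := by
    intro G
    rw [hL, ContinuousLinearMap.sum_apply]
    rfl
  have hfun : (fun G : T → E →L[ℝ] E => ∑ k, ⟪x k, G (i k) (y k)⟫) = ⇑L := by
    ext G
    exact (hLe G).symm
  have hmean : ∫ G, L G ∂ν = 0 := by
    simp_rw [hLe]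
    rw [integral_finset_sum]
    · exact Finset.sum_eq_zero fun k _ => hν.mean _ _ _
    · intro k _
      exact GLFM.integrable_fn ν _ _ _
  have hsq : ∫ G, L G ^ 2 ∂ν = v := by
    have h1 : ∀ G : T → E →L[ℝ] E, L G ^ 2 =
        ∑ k, ∑ k', ⟪x k, G (i k) (y k)⟫ * ⟪x k', G (i k') (y k')⟫ := by
      intro G
      rw [hLe, sq, Finset.sum_mul_sum]
    have h2 : ∀ k k', Integrable (fun G : T → E →L[ℝ] E =>
        ⟪x k, G (i k) (y k)⟫ * ⟪x k', G (i k') (y k')⟫) ν := by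
      intro k k'
      exact (GLFM.memLp_fn ν (i k) (x k) (y k)).integrable_mul
        (GLFM.memLp_fn ν (i k') (x k') (y k'))
    simp_rw [h1]
    rw [integral_finset_sum]
    · rw [hv]
      refine Finset.sum_congr rfl fun k _ => ?_
      rw [integral_finset_sum]
      · exact Finset.sum_congr rfl fun k' _ => hν.cov _ _ _ _ _ _
      · intro k' _
        exact h2 k k'
    · intro k _
      exact integrable_finset_sum _ fun k' _ => h2 k k'
  have hvar : Var[L; ν] = v := by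
    rw [variance_of_integral_eq_zero (by fun_prop) hmean, hsq]
  refine ⟨?_, ?_⟩
  · rw [← hsq]
    exact integral_nonneg fun G => sq_nonneg _
  · rw [hfun, IsGaussian.map_eq_gaussianReal L, hmean, hvar]

end Pool.Agent.Lib.MP17fa2c
end

section
/-!
Module GMO of MP_17fa2c_pr (helper19): moments of the one-dimensional Gaussian.
-/
set_option autoImplicit false

open MeasureTheory ProbabilityTheory Filter Topology
open scoped RealInnerProductSpace NNReal ENNReal ContDiff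

namespace Pool.Agent.Lib.MP17fa2c

namespace GMOM

/-- the moment generating function of the standard Gaussian -/
noncomputable def f (t : ℝ) : ℝ := Real.exp (t ^ 2 / 2)

lemma sf : ContDiff ℝ ∞ f := by unfold f; fun_prop

lemma df : deriv f = fun t => t * f t := by
  funext t
  have h : HasDerivAt (fun t : ℝ => t ^ 2 / 2) t t := by
    have := (hasDerivAt_pow 2 t).div_const 2
    simpa using this
  have := h.exp.deriv
  unfold f
  rw [this]; ring

lemma rec (n : ℕ) : iteratedDeriv (n + 2) f 0 = (n + 1) * iteratedDeriv n f 0 := by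
  have h1 : ContDiffAt ℝ ((n + 1 : ℕ) : WithTop ℕ∞) (fun t : ℝ => t) 0 := by fun_prop
  have h2 : ContDiffAt ℝ ((n + 1 : ℕ) : WithTop ℕ∞) f 0 := (sf.of_le (by exact_mod_cast le_top)).contDiffAt
  rw [iteratedDeriv_succ', df, iteratedDeriv_fun_mul h1 h2]
  rw [Finset.sum_eq_single 1]
  · simp [iteratedDeriv_fun_id_zero]
  · intro i _ hi
    simp [iteratedDeriv_fun_id_zero, hi]
  · intro h; exact absurd (Finset.mem_range.mpr (by omega)) h

lemma mom (n : ℕ) : ∫ x, x ^ n ∂(gaussianReal 0 1) = iteratedDeriv n f 0 := by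
  have h1 := iteratedDeriv_mgf_zero (X := id) (μ := gaussianReal 0 1)
    (by rw [integrableExpSet_id_gaussianReal]; simp) n
  have h2 : mgf id (gaussianReal 0 1) = f := by
    rw [mgf_id_gaussianReal]; funext t; simp [f]
  rw [h2] at h1
  rw [h1]
  simp

lemma m0 : ∫ x : ℝ, x ^ 0 ∂(gaussianReal 0 1) = 1 := by simp

lemma mrec (n : ℕ) : ∫ x, x ^ (n + 2) ∂(gaussianReal 0 1) = (n + 1) * ∫ x, x ^ n ∂(gaussianReal 0 1) := by
  rw [mom, mom, rec]

lemma m2 : ∫ x : ℝ, x ^ 2 ∂(gaussianReal 0 1) = 1 := by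
  have := mrec 0; rw [m0] at this; simpa using this

lemma m4 : ∫ x : ℝ, x ^ 4 ∂(gaussianReal 0 1) = 3 := by
  have := mrec 2; rw [m2] at this; norm_num at this; exact this

lemma m6 : ∫ x : ℝ, x ^ 6 ∂(gaussianReal 0 1) = 15 := by
  have := mrec 4; rw [m4] at this; norm_num at this; exact this

lemma m8 : ∫ x : ℝ, x ^ 8 ∂(gaussianReal 0 1) = 105 := by
  have := mrec 6; rw [m6] at this; norm_num at this; exact this

lemma scale (v : ℝ≥0) (n : ℕ) : ∫ x, x ^ n ∂(gaussianReal 0 v) = (Real.sqrt v) ^ n * ∫ x, x ^ n ∂(gaussianReal 0 1) := by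
  have h : gaussianReal 0 v = (gaussianReal 0 1).map (fun x => Real.sqrt v * x) := by
    rw [gaussianReal_map_const_mul]
    congr 1
    · simp
    · ext; simp
  rw [h, integral_map (by fun_prop) (by fun_prop)]
  rw [← integral_const_mul]
  congr 1
  funext x
  rw [mul_pow]

end GMOM

open GMOM in
theorem specGMO : SpecGMO := by
  refine ⟨fun v => ?_, fun v => ?_, m6, m8, fun v n => ?_⟩
  · rw [scale, m2, Real.sq_sqrt v.coe_nonneg, mul_one]
  · rw [scale, m4]
    have : (Real.sqrt v) ^ 4 = (v:ℝ) ^ 2 := by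
      rw [show (4:ℕ) = 2 * 2 from rfl, pow_mul, Real.sq_sqrt v.coe_nonneg]
    rw [this]; ring
  · have h := memLp_id_gaussianReal (μ := 0) (v := v) n
    rcases Nat.eq_zero_or_pos n with h0 | h0
    · subst h0; simp
    · have := h.integrable_norm_pow (by exact_mod_cast h0.ne')
      refine (integrable_norm_iff (by fun_prop)).mp ?_
      simpa using this

end Pool.Agent.Lib.MP17fa2c
end

section
/-! # ISO: isotropic vectors -/
set_option autoImplicit false

open MeasureTheory ProbabilityTheory Filter Topology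
open scoped RealInnerProductSpace NNReal ENNReal

namespace Pool.Agent.Lib.MP17fa2c

namespace ISOM

variable {ι : Type} [Fintype ι] [DecidableEq ι] {E : Type} [NormedAddCommGroup E]
  [InnerProductSpace ℝ E]

theorem Jself (S : BStr ι E) (a : ι) (x : E) :
    ⟪x, S.J a x⟫ = if a = S.o then ‖x‖ ^ 2 else 0 := by
  split_ifs with h
  · rw [h, S.J_o, real_inner_self_eq_norm_sq]
  · have h1 := S.skew a h x x
    rw [real_inner_comm] at h1
    linarith

theorem Jort (S : BStr ι E) {Q : E →L[ℝ] E} (hQ : IsPr S Q) {r : E} (hr : Q r = 0) (a : ι)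
    (y : E) : ⟪Q y, S.J a r⟫ = 0 := by
  rw [hQ.1.1, hQ.1.2, hr, map_zero, inner_zero_right]

variable [FiniteDimensional ℝ E] {T : Type} [Fintype T]

/-- the correlations are positive semidefinite -/
theorem psd (hGLF : SpecGLF) (S : BStr ι E) (c : T → T → ℝ) (ν : Measure (T → E →L[ℝ] E))
    (hν : GFam S c ν) (e : E) (he : ‖e‖ = 1) (α : T → ℝ) :
    0 ≤ ∑ i, ∑ l, c i l * (α i * α l) := by
  obtain ⟨h, -⟩ := hGLF ι E T S c ν hν T id (fun k => α k • e) (fun _ => e) _ rfl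
  have h2 : ∑ k : T, ∑ k' : T, c (id k) (id k') * ∑ a,
      (⟪α k • e, S.J a (α k' • e)⟫ * ⟪e, S.J a e⟫ + ⟪α k • e, S.J a e⟫ * ⟪e, S.J a (α k' • e)⟫) =
      2 * ∑ i, ∑ l, c i l * (α i * α l) := by
    rw [Finset.mul_sum]
    refine Finset.sum_congr rfl fun k _ => ?_
    rw [Finset.mul_sum]
    refine Finset.sum_congr rfl fun k' _ => ?_
    rw [Finset.sum_eq_single S.o]
    · rw [S.J_o, S.J_o, real_inner_smul_left, real_inner_smul_right, real_inner_smul_left,
        real_inner_self_eq_norm_sq, he]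
      simp only [id]
      ring
    · intro a _ ha
      rw [map_smul, real_inner_smul_left, real_inner_smul_right, Jself S a e, if_neg ha]
      ring
    · intro h
      exact absurd (Finset.mem_univ _) h
  rw [h2] at h
  linarith

theorem sig_nonneg (hGLF : SpecGLF) (S : BStr ι E) (c : T → T → ℝ)
    (ν : Measure (T → E →L[ℝ] E)) (hν : GFam S c ν) (r : T → E) :
    0 ≤ ∑ i, ∑ l, c i l * ⟪r i, r l⟫ := by
  have e1 : ∑ i, ∑ l, c i l * ⟪r i, r l⟫ =
      ∑ m, ∑ i, ∑ l, c i l * (⟪r i, stdOrthonormalBasis ℝ E m⟫ *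
        ⟪r l, stdOrthonormalBasis ℝ E m⟫) := by
    rw [Finset.sum_comm]
    conv_rhs => enter [2, m]; rw [Finset.sum_comm]
    rw [Finset.sum_comm]
    conv_rhs => rw [Finset.sum_comm]
    rw [Finset.sum_comm]
    refine Finset.sum_congr rfl fun l _ => ?_
    rw [Finset.sum_comm]
    refine Finset.sum_congr rfl fun i _ => ?_
    rw [← Finset.mul_sum, ← (stdOrthonormalBasis ℝ E).sum_inner_mul_inner (r i) (r l)]
    congr 1
    refine Finset.sum_congr rfl fun m _ => ?_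
    rw [real_inner_comm (r l)]
  rw [e1]
  refine Finset.sum_nonneg fun m _ => ?_
  exact psd hGLF S c ν hν _ ((stdOrthonormalBasis ℝ E).norm_eq_one m)
    (fun i => ⟪r i, stdOrthonormalBasis ℝ E m⟫)

end ISOM

open ISOM in
theorem specISO (hGLF : SpecGLF) : SpecISO := by
  intro ι _ _ E _ _ _ _ _ T _ S c ν hν hc Q r hQ hr
  have := hν.gauss
  have h0 := sig_nonneg hGLF S c ν hν r
  refine ⟨h0, ?_⟩
  set σ : ℝ := ∑ i, ∑ l, c i l * ⟪r i, r l⟫ with hσ
  have hZ : Measurable (fun G : T → E →L[ℝ] E => ∑ i, Q (G i (r i))) := by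
    refine Finset.measurable_sum _ fun i _ => ?_
    exact Q.measurable.comp ((ContinuousLinearMap.measurable_apply (r i)).comp
      (measurable_pi_apply i))
  have hQx : Measurable (fun x : E => Real.sqrt σ • Q x) :=
    Q.measurable.const_smul _
  have : IsProbabilityMeasure (ν.map fun G : T → E →L[ℝ] E => ∑ i, Q (G i (r i))) :=
    Measure.isProbabilityMeasure_map hZ.aemeasurable
  have : IsProbabilityMeasure ((stdGaussian E).map (fun x : E => Real.sqrt σ • Q x)) :=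
    Measure.isProbabilityMeasure_map hQx.aemeasurable
  refine Measure.ext_of_charFun (funext fun y => ?_)
  rw [charFun_apply, integral_map hZ.aemeasurable (by fun_prop),
    charFun_apply, integral_map hQx.aemeasurable (by fun_prop)]
  -- right side
  have hR : ∫ x, Complex.exp ((⟪Real.sqrt σ • Q x, y⟫ : ℝ) * Complex.I) ∂(stdGaussian E) =
      Complex.exp (-((σ * ‖Q y‖ ^ 2 : ℝ) : ℂ) / 2) := by
    have h1 : ∀ x : E, ⟪Real.sqrt σ • Q x, y⟫ = ⟪x, Real.sqrt σ • Q y⟫ := fun x => by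
      rw [real_inner_smul_left, real_inner_smul_right, hQ.1.1]
    simp_rw [h1]
    rw [← charFun_apply, charFun_stdGaussian]
    congr 2
    rw [norm_smul, Real.norm_of_nonneg (Real.sqrt_nonneg _)]
    have h2 : (Real.sqrt σ * ‖Q y‖) ^ 2 = σ * ‖Q y‖ ^ 2 := by
      rw [mul_pow, Real.sq_sqrt h0]
    rw [← h2]
    push_cast
    ring
  rw [hR]
  -- left side
  obtain ⟨hv, hlaw⟩ := hGLF ι E T S c ν hν T id (fun _ => Q y) r _ rfl
  have hvv : ∑ k : T, ∑ k' : T, c (id k) (id k') * ∑ a,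
      (⟪Q y, S.J a (Q y)⟫ * ⟪r k, S.J a (r k')⟫ + ⟪Q y, S.J a (r k')⟫ * ⟪r k, S.J a (Q y)⟫) =
      σ * ‖Q y‖ ^ 2 := by
    rw [hσ, Finset.sum_mul]
    refine Finset.sum_congr rfl fun k _ => ?_
    rw [Finset.sum_mul]
    refine Finset.sum_congr rfl fun k' _ => ?_
    rw [Finset.sum_eq_single S.o]
    · rw [Jort S hQ (hr k'), S.J_o, S.J_o, real_inner_self_eq_norm_sq]
      simp only [id]
      ring
    · intro a _ ha
      rw [Jort S hQ (hr k'), Jself S a (Q y), if_neg ha]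
      ring
    · intro h
      exact absurd (Finset.mem_univ _) h
  rw [hvv] at hlaw hv
  have hL : Measurable (fun G : T → E →L[ℝ] E => ∑ k, ⟪Q y, G (id k) (r k)⟫) := by
    refine Finset.measurable_sum _ fun i _ => ?_
    exact (innerSL ℝ (Q y)).measurable.comp ((ContinuousLinearMap.measurable_apply (r i)).comp
      (measurable_pi_apply i))
  have h3 : ∀ G : T → E →L[ℝ] E, ⟪∑ i, Q (G i (r i)), y⟫ = ∑ k, ⟪Q y, G (id k) (r k)⟫ := by
    intro G
    rw [sum_inner]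
    refine Finset.sum_congr rfl fun k _ => ?_
    rw [real_inner_comm, ← hQ.1.1]
    rfl
  simp_rw [h3]
  have h4 : ∫ G, Complex.exp (((∑ k, ⟪Q y, G (id k) (r k)⟫ : ℝ) : ℂ) * Complex.I) ∂ν =
      charFun (ν.map (fun G : T → E →L[ℝ] E => ∑ k, ⟪Q y, G (id k) (r k)⟫)) 1 := by
    rw [charFun_apply_real, integral_map hL.aemeasurable (by fun_prop)]
    simp
  rw [h4, hlaw, charFun_gaussianReal]
  congr 1
  rw [Real.coe_toNNReal _ hv]
  push_cast
  ring

end Pool.Agent.Lib.MP17fa2c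
end

section
/-!
# Module JON: facts on the `J a`
-/
set_option autoImplicit false

open MeasureTheory ProbabilityTheory Filter Topology
open scoped RealInnerProductSpace NNReal ENNReal

namespace Pool.Agent.Lib.MP17fa2c

namespace JONM

variable {ι : Type} [Fintype ι] [DecidableEq ι]
  {E : Type} [NormedAddCommGroup E] [InnerProductSpace ℝ E]

/-- `J a` is a linear isometry -/
noncomputable def iso (S : BStr ι E) (a : ι) : E →ₗᵢ[ℝ] E :=
  ⟨(S.J a : E →ₗ[ℝ] E), fun x => S.norm_J a x⟩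

theorem inner_J (S : BStr ι E) (a : ι) (x y : E) : ⟪S.J a x, S.J a y⟫ = ⟪x, y⟫ :=
  (iso S a).inner_map_map x y

/-- `⟪x, J c x⟫ = 0` for `c ≠ o` -/
theorem inner_self_J (S : BStr ι E) {c : ι} (hc : c ≠ S.o) (x : E) : ⟪x, S.J c x⟫ = 0 := by
  have h := S.skew c hc x x
  rw [real_inner_comm] at h
  linarith

theorem inner_ne_aux (S : BStr ι E) {a b : ι} (hab : a ≠ b) (ha : a ≠ S.o) (x : E) :
    ⟪S.J a x, S.J b x⟫ = 0 := by
  obtain ⟨c, s, -, h, hc⟩ := S.mul a b
  have hco : c ≠ S.o := fun e => hab (hc.mp e)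
  rw [S.skew a ha, h, real_inner_smul_right, inner_self_J S hco x]
  simp

theorem inner_ne (S : BStr ι E) {a b : ι} (hab : a ≠ b) (x : E) :
    ⟪S.J a x, S.J b x⟫ = 0 := by
  by_cases ha : a = S.o
  · have hb : b ≠ S.o := fun e => hab (ha.trans e.symm)
    rw [real_inner_comm]
    exact inner_ne_aux S (Ne.symm hab) hb x
  · exact inner_ne_aux S hab ha x

theorem cp_apply (P : E →L[ℝ] E) (x : E) : cp P x = x - P x := by
  simp [cp]

theorem isPr_cp (S : BStr ι E) {P : E →L[ℝ] E} (hP : IsPr S P) : IsPr S (cp P) := by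
  obtain ⟨⟨h1, h2⟩, h3⟩ := hP
  refine ⟨⟨fun x y => ?_, fun a x => ?_⟩, fun x => ?_⟩
  · rw [cp_apply, cp_apply, inner_sub_left, inner_sub_right, h1]
  · rw [cp_apply, cp_apply, map_sub, h2]
  · rw [cp_apply (P := P) (x := cp P x), cp_apply, map_sub, h3]
    simp

theorem norm_le (S : BStr ι E) {P : E →L[ℝ] E} (hP : IsPr S P) (x : E) : ‖P x‖ ≤ ‖x‖ := by
  obtain ⟨⟨h1, -⟩, h3⟩ := hP
  have h : ‖P x‖ ^ 2 ≤ ‖P x‖ * ‖x‖ := by
    rw [← real_inner_self_eq_norm_sq, h1, h3, real_inner_comm]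
    exact (real_inner_le_norm _ _)
  by_contra hlt
  push Not at hlt
  have hp : 0 < ‖P x‖ := lt_of_le_of_lt (norm_nonneg x) hlt
  nlinarith

theorem pyth (S : BStr ι E) {P : E →L[ℝ] E} (hP : IsPr S P) (x : E) :
    ‖x‖ ^ 2 = ‖P x‖ ^ 2 + ‖cp P x‖ ^ 2 := by
  obtain ⟨⟨h1, -⟩, h3⟩ := hP
  have h0 : ⟪P x, cp P x⟫ = 0 := by
    rw [cp_apply, h1, map_sub, h3, sub_self, inner_zero_right]
  have hx : x = P x + cp P x := by rw [cp_apply]; abel
  calc ‖x‖ ^ 2 = ‖P x + cp P x‖ ^ 2 := by rw [← hx]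
    _ = ‖P x‖ ^ 2 + 2 * ⟪P x, cp P x⟫ + ‖cp P x‖ ^ 2 := norm_add_sq_real _ _
    _ = _ := by rw [h0]; ring

theorem herm_comp (S : BStr ι E) {P A : E →L[ℝ] E} (hP : IsPr S P) (hA : Herm S A) :
    Herm S (P ∘L A ∘L P) := by
  obtain ⟨⟨h1, h2⟩, -⟩ := hP
  obtain ⟨h3, h4⟩ := hA
  refine ⟨fun x y => ?_, fun a x => ?_⟩
  · show ⟪P (A (P x)), y⟫ = ⟪x, P (A (P y))⟫
    rw [h1, h3, h1]
  · show P (A (P (S.J a x))) = S.J a (P (A (P x)))
    rw [h2, h4, h2]

end JONM

open JONM in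
theorem specJON : SpecJON := by
  intro ι _ _ E _ _ S
  refine ⟨fun a b x => ?_, fun a x y => inner_J S a x y, fun P hP => isPr_cp S hP,
    fun P hP x => norm_le S hP x, fun P hP x => pyth S hP x, fun P A hP hA => herm_comp S hP hA⟩
  split_ifs with h
  · subst h
    rw [inner_J, real_inner_self_eq_norm_sq]
  · exact inner_ne S h x

end Pool.Agent.Lib.MP17fa2c
end

section
/-! # KNO: the resampled family has the same known data -/
set_option autoImplicit false

open MeasureTheory ProbabilityTheory Filter Topology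
open scoped RealInnerProductSpace NNReal ENNReal

namespace Pool.Agent.Lib.MP17fa2c

namespace KNOM

variable {ι : Type} [Fintype ι] [DecidableEq ι] {E : Type} [NormedAddCommGroup E]
  [InnerProductSpace ℝ E]

theorem herm_add {S : BStr ι E} {A B : E →L[ℝ] E} (hA : Herm S A) (hB : Herm S B) :
    Herm S (A + B) := by
  refine ⟨fun x y => ?_, fun a x => ?_⟩
  · rw [add_apply, add_apply, inner_add_left,
      inner_add_right, hA.1, hB.1]
  · rw [add_apply, add_apply, map_add, hA.2, hB.2]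

theorem herm_sub {S : BStr ι E} {A B : E →L[ℝ] E} (hA : Herm S A) (hB : Herm S B) :
    Herm S (A - B) := by
  refine ⟨fun x y => ?_, fun a x => ?_⟩
  · rw [sub_apply, sub_apply, inner_sub_left,
      inner_sub_right, hA.1, hB.1]
  · rw [sub_apply, sub_apply, map_sub, hA.2, hB.2]

theorem res_apply {T : Type} [Fintype T] (P : E →L[ℝ] E) (M G : T → E →L[ℝ] E) {x : E}
    (hx : P x = x) (i : T) : res P M G i x = M i x := by
  have h : cp P x = 0 := by
    simp [cp, hx]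
  simp [res, h]

theorem lan_succ_congr {A B : E →L[ℝ] E} {u : E} {j : ℕ} (h : lan A u j = lan B u j)
    (hq : A (qv B u j) = B (qv B u j)) : lan A u (j + 1) = lan B u (j + 1) := by
  unfold qv at hq
  simp only [lan, h, hq]

end KNOM

open KNOM in
theorem specKNO (hEXP : SpecEXP) (hJON : SpecJON) : SpecKNO := by
  intro ι _ _ E _ _ _ T _ S u M G j hM hG
  obtain ⟨e1, -, e3, -⟩ := hEXP ι E T S u M j
  obtain ⟨-, -, j3, -, -, j6⟩ := hJON ι E S
  have hcp := j3 _ e1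
  have hq : ∀ l < j, ∀ i, res (expl S u M j) M G i (qv (M i) u l) = M i (qv (M i) u l) :=
    fun l hl i => res_apply _ M G (e3 l hl i) i
  have hlan : ∀ l ≤ j, ∀ i, lan (res (expl S u M j) M G i) u l = lan (M i) u l := by
    intro l
    induction l with
    | zero => intro _ i; rfl
    | succ l ih =>
      intro hl i
      exact lan_succ_congr (ih (by omega) i) (hq l (by omega) i)
  have hqv : ∀ l ≤ j, ∀ i, qv (res (expl S u M j) M G i) u l = qv (M i) u l := by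
    intro l hl i
    unfold qv
    rw [hlan l hl i]
  refine ⟨fun i => ?_, fun x hx i => res_apply _ M G hx i, hlan, ?_, ?_⟩
  · exact herm_add (herm_sub (hM i) (j6 _ _ hcp (hM i))) (j6 _ _ hcp (hG i))
  · intro l
    induction l with
    | zero => intro _; rfl
    | succ l ih =>
      intro hl
      have h1 := ih (by omega)
      have h2 : (fun (P : E →L[ℝ] E) (i : T) =>
          addv S P (qv (res (expl S u M j) M G i) u l)) =
          fun (P : E →L[ℝ] E) (i : T) => addv S P (qv (M i) u l) := by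
        funext P i
        rw [hqv l (by omega) i]
      show (Finset.univ : Finset T).toList.foldl (fun (P : E →L[ℝ] E) (i : T) =>
          addv S P (qv (res (expl S u M j) M G i) u l)) (expl S u (res (expl S u M j) M G) l) =
        (Finset.univ : Finset T).toList.foldl (fun (P : E →L[ℝ] E) (i : T) =>
          addv S P (qv (M i) u l)) (expl S u M l)
      rw [h1, h2]
  · intro l hl i
    have h1 := hlan l hl.le i
    have h2 := hqv l hl.le i
    have h3 := hq l hl i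
    have h4 : av (res (expl S u M j) M G i) u l = av (M i) u l := by
      unfold av
      rw [h2, h3]
    refine ⟨h4, ?_⟩
    unfold bv wv
    rw [h4, h1, h2, h3]

end Pool.Agent.Lib.MP17fa2c
end

section
/-!
# MP_17fa2c_pr, module LHM: orthogonality over the units
-/
set_option autoImplicit false

open MeasureTheory ProbabilityTheory Filter Topology
open scoped RealInnerProductSpace NNReal ENNReal

namespace Pool.Agent.Lib.MP17fa2c

namespace LHMM

variable {ι : Type} [Fintype ι] [DecidableEq ι] {E : Type} [NormedAddCommGroup E]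
  [InnerProductSpace ℝ E]

/-- the Krylov space -/
def Kr (A : E →L[ℝ] E) (u : E) : Submodule ℝ E :=
  Submodule.span ℝ (Set.range fun i : ℕ => (A ^ i) u)

theorem pow_succ_apply (A : E →L[ℝ] E) (i : ℕ) (u : E) : (A ^ (i + 1)) u = A ((A ^ i) u) := by
  rw [pow_succ']
  rfl

theorem Kr_map (A : E →L[ℝ] E) (u : E) (x : E) (hx : x ∈ Kr A u) : A x ∈ Kr A u := by
  unfold Kr at hx ⊢
  induction hx using Submodule.span_induction with
  | mem x h =>
    obtain ⟨i, rfl⟩ := h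
    refine Submodule.subset_span ⟨i + 1, ?_⟩
    exact pow_succ_apply A i u
  | zero => rw [map_zero]; exact Submodule.zero_mem _
  | add x y _ _ h1 h2 => rw [map_add]; exact Submodule.add_mem _ h1 h2
  | smul r x _ h => rw [map_smul]; exact Submodule.smul_mem _ _ h

theorem lan_mem (A : E →L[ℝ] E) (u : E) (j : ℕ) :
    (lan A u j).1 ∈ Kr A u ∧ (lan A u j).2 ∈ Kr A u := by
  induction j with
  | zero =>
    refine ⟨Submodule.zero_mem _, ?_⟩
    exact Submodule.subset_span ⟨0, by simp [lan]⟩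
  | succ j ih =>
    obtain ⟨h1, h2⟩ := ih
    refine ⟨Submodule.smul_mem _ _ h2, Submodule.smul_mem _ _ ?_⟩
    exact Submodule.sub_mem _ (Submodule.sub_mem _ (Kr_map A u _ h2) (Submodule.smul_mem _ _ h2)) h1

theorem pow_symm (S : BStr ι E) (A : E →L[ℝ] E) (hA : Herm S A) (i : ℕ) (x y : E) :
    ⟪(A ^ i) x, y⟫ = ⟪x, (A ^ i) y⟫ := by
  induction i generalizing x y with
  | zero => simp
  | succ i ih =>
    rw [pow_succ_apply, hA.1, ih, pow_succ]
    rfl

theorem pow_J (S : BStr ι E) (A : E →L[ℝ] E) (hA : Herm S A) (a : ι) (i : ℕ) (x : E) :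
    (A ^ i) (S.J a x) = S.J a ((A ^ i) x) := by
  induction i with
  | zero => simp
  | succ i ih => rw [pow_succ_apply, pow_succ_apply, ih, hA.2]

theorem base (S : BStr ι E) (A : E →L[ℝ] E) (u : E) (hA : Herm S A) (a : ι) (ha : a ≠ S.o)
    (i j : ℕ) : ⟪(A ^ i) u, S.J a ((A ^ j) u)⟫ = 0 := by
  have h1 : ⟪(A ^ i) u, S.J a ((A ^ j) u)⟫ = ⟪u, S.J a ((A ^ (i + j)) u)⟫ := by
    rw [pow_symm S A hA, pow_J S A hA, pow_add]
    rfl
  rw [h1]
  have h2 := S.skew a ha u ((A ^ (i + j)) u)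
  have h3 : ⟪S.J a u, (A ^ (i + j)) u⟫ = ⟪u, S.J a ((A ^ (i + j)) u)⟫ := by
    rw [← pow_symm S A hA, pow_J S A hA, real_inner_comm]
  linarith

theorem all (S : BStr ι E) (A : E →L[ℝ] E) (u : E) (hA : Herm S A) (a : ι) (ha : a ≠ S.o)
    (x y : E) (hx : x ∈ Kr A u) (hy : y ∈ Kr A u) : ⟪x, S.J a y⟫ = 0 := by
  unfold Kr at hx hy
  induction hx using Submodule.span_induction with
  | mem x h =>
    obtain ⟨i, rfl⟩ := h
    induction hy using Submodule.span_induction with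
    | mem y h =>
      obtain ⟨j, rfl⟩ := h
      exact base S A u hA a ha i j
    | zero => rw [map_zero, inner_zero_right]
    | add y z _ _ h1 h2 => rw [map_add, inner_add_right, h1, h2, add_zero]
    | smul r y _ h => rw [map_smul, inner_smul_right, h, mul_zero]
  | zero => rw [inner_zero_left]
  | add x z _ _ h1 h2 => rw [inner_add_left, h1, h2, add_zero]
  | smul r x _ h => rw [inner_smul_left, h, mul_zero]

end LHMM

theorem specLHM : SpecLHM := by
  intro ι _ _ E _ _ S A u hA a ha i j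
  exact LHMM.all S A u hA a ha _ _ (LHMM.lan_mem A u i).2 (LHMM.lan_mem A u j).2

end Pool.Agent.Lib.MP17fa2c
end

section
/-!
# MP_17fa2c_pr, module LOR: orthogonality of the Lanczos vectors
-/
set_option autoImplicit false

open MeasureTheory ProbabilityTheory Filter Topology
open scoped RealInnerProductSpace NNReal ENNReal

namespace Pool.Agent.Lib.MP17fa2c

namespace LORM

variable {E : Type} [NormedAddCommGroup E] [InnerProductSpace ℝ E] (A : E →L[ℝ] E) (u : E)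

theorem q_zero : qv A u 0 = u := rfl

theorem q_succ (j : ℕ) : qv A u (j + 1) = (bv A u j)⁻¹ • wv A u j := rfl

theorem l_zero : (lan A u 0).1 = 0 := rfl

theorem l_succ (j : ℕ) : (lan A u (j + 1)).1 = bv A u j • qv A u j := rfl

theorem w_eq (j : ℕ) : wv A u j = bv A u j • qv A u (j + 1) := by
  rw [q_succ]
  by_cases h : bv A u j = 0
  · rw [h, zero_smul]
    exact norm_eq_zero.1 h
  · rw [smul_smul, mul_inv_cancel₀ h, one_smul]

theorem A_eq (j : ℕ) : A (qv A u j) =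
    bv A u j • qv A u (j + 1) + av A u j • qv A u j + (lan A u j).1 := by
  rw [← w_eq]
  unfold wv
  abel

theorem zer {i : ℕ} (hi : bv A u i = 0) : ∀ k, qv A u (i + 1 + k) = 0 ∧
    (lan A u (i + 1 + k)).1 = 0 ∧ bv A u (i + 1 + k) = 0 := by
  have key : ∀ j, qv A u j = 0 → (lan A u j).1 = 0 → bv A u j = 0 := by
    intro j h1 h2
    unfold bv wv
    rw [h1, h2]
    simp
  intro k
  induction k with
  | zero =>
    have h1 : qv A u (i + 1) = 0 := by rw [q_succ, hi, inv_zero, zero_smul]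
    have h2 : (lan A u (i + 1)).1 = 0 := by rw [l_succ, hi, zero_smul]
    exact ⟨h1, h2, key _ h1 h2⟩
  | succ k ih =>
    have h1 : qv A u (i + 1 + k + 1) = 0 := by rw [q_succ, ih.2.2, inv_zero, zero_smul]
    have h2 : (lan A u (i + 1 + k + 1)).1 = 0 := by rw [l_succ, ih.2.2, zero_smul]
    exact ⟨h1, h2, key _ h1 h2⟩

theorem q_zer {i j : ℕ} (hij : i < j) (hi : bv A u i = 0) : qv A u j = 0 ∧ bv A u j = 0 := by
  obtain ⟨k, rfl⟩ := Nat.exists_eq_add_of_lt hij
  have h := zer A u hi k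
  have e : i + k + 1 = i + 1 + k := by ring
  rw [e]
  exact ⟨h.1, h.2.2⟩

theorem nrm (hu : ‖u‖ = 1) (j : ℕ) (h : ∀ i < j, bv A u i ≠ 0) : ‖qv A u j‖ = 1 := by
  cases j with
  | zero => exact hu
  | succ j =>
    rw [q_succ, norm_smul, norm_inv, Real.norm_eq_abs]
    have h1 := h j (Nat.lt_succ_self j)
    have h2 : |bv A u j| = ‖wv A u j‖ := abs_of_nonneg (norm_nonneg _)
    rw [h2]
    exact inv_mul_cancel₀ h1

theorem nrm_le (hu : ‖u‖ = 1) (j : ℕ) : ‖qv A u j‖ ≤ 1 := by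
  by_cases h : ∀ i < j, bv A u i ≠ 0
  · exact (nrm A u hu j h).le
  · push Not at h
    obtain ⟨i, hi, h0⟩ := h
    rw [(q_zer A u hi h0).1, norm_zero]
    exact zero_le_one

theorem l_inner (n : ℕ) (x : E) (h : ∀ i, i + 1 = n → ⟪x, qv A u i⟫ = 0) :
    ⟪x, (lan A u n).1⟫ = 0 := by
  cases n with
  | zero => rw [l_zero, inner_zero_right]
  | succ n => rw [l_succ, inner_smul_right, h n rfl, mul_zero]

theorem orth (hA : ∀ x y, ⟪A x, y⟫ = ⟪x, A y⟫) (hu : ‖u‖ = 1) :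
    ∀ n, ∀ j ≤ n, ∀ i < j, ⟪qv A u i, qv A u j⟫ = 0 := by
  intro n
  induction n with
  | zero =>
    intro j hj i hi
    omega
  | succ n ih =>
    intro j hj i hi
    rcases Nat.lt_or_ge j (n + 1) with hjn | hjn
    · exact ih j (by omega) i hi
    have hj' : j = n + 1 := by omega
    subst hj'
    by_cases hb : ∀ l < n + 1, bv A u l ≠ 0
    swap
    · push Not at hb
      obtain ⟨l, hl, h0⟩ := hb
      rw [(q_zer A u hl h0).1, inner_zero_right]
    rw [q_succ, inner_smul_right]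
    have hin : i ≤ n := by omega
    have hgoal : ⟪qv A u i, wv A u n⟫ = 0 := by
      unfold wv
      rw [inner_sub_right, inner_sub_right, inner_smul_right]
      rcases Nat.lt_or_ge i n with hlt | hge
      · have h1 : ⟪qv A u i, qv A u n⟫ = 0 := ih n le_rfl i hlt
        rw [h1, mul_zero, sub_zero, ← hA, A_eq A u i, inner_add_left, inner_add_left,
          inner_smul_left, inner_smul_left, h1]
        have h2 : ⟪(lan A u i).1, qv A u n⟫ = 0 := by
          rw [real_inner_comm]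
          exact l_inner A u i _ fun k hk => by
            rw [real_inner_comm]
            exact ih n le_rfl k (by omega)
        rw [h2]
        simp only [conj_trivial, mul_zero, add_zero]
        rcases Nat.lt_or_ge (i + 1) n with h3 | h3
        · rw [ih n le_rfl (i + 1) h3, mul_zero, zero_sub, neg_eq_zero]
          exact l_inner A u n _ fun k hk => ih k (by omega) i (by omega)
        · have h4 : n = i + 1 := by omega
          subst h4
          rw [l_succ, inner_smul_right, real_inner_self_eq_norm_sq, real_inner_self_eq_norm_sq,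
            nrm A u hu (i + 1) (fun l hl => hb l (by omega)),
            nrm A u hu i (fun l hl => hb l (by omega))]
          ring
      · have h4 : i = n := by omega
        subst h4
        have h5 : ⟪qv A u i, (lan A u i).1⟫ = 0 :=
          l_inner A u i _ fun k hk => by
            rw [real_inner_comm]
            exact ih i le_rfl k (by omega)
        rw [h5, real_inner_self_eq_norm_sq, nrm A u hu i (fun l hl => hb l (by omega))]
        unfold av
        ring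
    rw [hgoal, mul_zero]

theorem orth' (hA : ∀ x y, ⟪A x, y⟫ = ⟪x, A y⟫) (hu : ‖u‖ = 1) (i j : ℕ) (hij : i ≠ j) :
    ⟪qv A u i, qv A u j⟫ = 0 := by
  rcases Nat.lt_or_gt_of_ne hij with h | h
  · exact orth A u hA hu j j le_rfl i h
  · rw [real_inner_comm]
    exact orth A u hA hu i i le_rfl j h

theorem qAq (hA : ∀ x y, ⟪A x, y⟫ = ⟪x, A y⟫) (hu : ‖u‖ = 1) (j : ℕ) :
    ⟪qv A u (j + 1), A (qv A u j)⟫ = bv A u j := by
  rw [A_eq, inner_add_right, inner_add_right, inner_smul_right, inner_smul_right,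
    orth' A u hA hu (j + 1) j (by omega), l_inner A u j _ fun k hk =>
      orth' A u hA hu (j + 1) k (by omega)]
  by_cases h0 : bv A u j = 0
  · rw [h0]; ring
  · have hb : ∀ l < j + 1, bv A u l ≠ 0 := by
      intro l hl h1
      rcases Nat.lt_or_ge l j with h2 | h2
      · exact h0 (q_zer A u h2 h1).2
      · have : l = j := by omega
        subst this
        exact h0 h1
    rw [real_inner_self_eq_norm_sq, nrm A u hu (j + 1) hb]
    ring

theorem bound (hu : ‖u‖ = 1) (i j : ℕ) : |⟪qv A u i, A (qv A u j)⟫| ≤ ‖A‖ := by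
  calc |⟪qv A u i, A (qv A u j)⟫| ≤ ‖qv A u i‖ * ‖A (qv A u j)‖ := abs_real_inner_le_norm _ _
    _ ≤ 1 * (‖A‖ * 1) := by
        refine mul_le_mul (nrm_le A u hu i) ?_ (norm_nonneg _) zero_le_one
        exact (A.le_opNorm _).trans (mul_le_mul_of_nonneg_left (nrm_le A u hu j) (norm_nonneg _))
    _ = ‖A‖ := by ring

end LORM

open LORM in
/-- **LOR**: orthogonality of the Lanczos vectors. -/
theorem specLOR : SpecLOR := by
  intro E _ _ A u hA hu
  refine ⟨fun i j hij => orth' A u hA hu i j hij, fun j h => nrm A u hu j h, ?_,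
    fun j => A_eq A u j, fun j => l_succ A u j, fun j => qAq A u hA hu j, ?_, ?_⟩
  · rintro j ⟨i, hi, h0⟩
    exact (q_zer A u hi h0).1
  · intro j
    rw [← qAq A u hA hu j]
    exact (le_abs_self _).trans (bound A u hu _ _)
  · intro j
    exact bound A u hu j j

end Pool.Agent.Lib.MP17fa2c
end

section
/-!
# Module MRG: marginals of Gaussian families
-/
set_option autoImplicit false

open MeasureTheory ProbabilityTheory Filter Topology
open scoped RealInnerProductSpace NNReal ENNReal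

namespace Pool.Agent.Lib.MP17fa2c

namespace MRGM

variable {ι : Type} [Fintype ι] [DecidableEq ι]
  {E : Type} [NormedAddCommGroup E] [InnerProductSpace ℝ E] [FiniteDimensional ℝ E]
  {T : Type} [Fintype T]

/-- the projection to a subfamily -/
noncomputable def sub (E : Type) [NormedAddCommGroup E] [InnerProductSpace ℝ E] {T T' : Type}
    (f : T' → T) : (T → E →L[ℝ] E) →L[ℝ] (T' → E →L[ℝ] E) :=
  ContinuousLinearMap.pi fun i => ContinuousLinearMap.proj (f i)

theorem sub_apply {T' : Type} (f : T' → T) (M : T → E →L[ℝ] E) :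
    sub E f M = fun i => M (f i) := rfl

theorem isClosed_hermF (S : BStr ι E) : IsClosed {M : T → E →L[ℝ] E | HermF S M} := by
  have : {M : T → E →L[ℝ] E | HermF S M} =
      ⋂ i : T, ((⋂ x : E, ⋂ y : E, {M | ⟪M i x, y⟫ = ⟪x, M i y⟫}) ∩
        ⋂ a : ι, ⋂ x : E, {M | M i (S.J a x) = S.J a (M i x)}) := by
    ext M
    simp only [Set.mem_setOf_eq, HermF, Herm, Set.mem_iInter, Set.mem_inter_iff]
  rw [this]
  refine isClosed_iInter fun i => IsClosed.inter ?_ ?_
  · refine isClosed_iInter fun x => isClosed_iInter fun y => isClosed_eq ?_ ?_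
    · fun_prop
    · fun_prop
  · refine isClosed_iInter fun a => isClosed_iInter fun x => isClosed_eq ?_ ?_
    · fun_prop
    · fun_prop

theorem measurable_sub {T' : Type} [Fintype T'] (f : T' → T) :
    Measurable fun (M : T → E →L[ℝ] E) (i : T') => M (f i) :=
  measurable_pi_lambda _ fun i => measurable_pi_apply (f i)

theorem cont_inner {T' : Type} (i : T') (x y : E) :
    Continuous fun M : T' → E →L[ℝ] E => ⟪x, M i y⟫ := by
  fun_prop

theorem cont_inner2 {T' : Type} (i l : T') (x y x' y' : E) :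
    Continuous fun M : T' → E →L[ℝ] E => ⟪x, M i y⟫ * ⟪x', M l y'⟫ := by
  fun_prop

end MRGM

open MRGM in
theorem specMRG : SpecMRG := by
  intro ι _ _ E _ _ _ T _ S c ν h
  haveI := h.gauss
  refine ⟨fun T' _ f => ⟨?_, ?_, fun i x y => ?_, fun i l x y x' y' => ?_⟩, fun i n => ?_⟩
  · have := isGaussian_map (μ := ν) (sub E f)
    exact this
  · rw [ae_map_iff (measurable_sub f).aemeasurable (isClosed_hermF S).measurableSet]
    filter_upwards [h.herm] with M hM i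
    exact hM (f i)
  · rw [integral_map (measurable_sub f).aemeasurable
      (cont_inner i x y).measurable.aestronglyMeasurable]
    exact h.mean (f i) x y
  · rw [integral_map (measurable_sub f).aemeasurable
      (cont_inner2 i l x y x' y').measurable.aestronglyMeasurable]
    exact h.cov (f i) (f l) x y x' y'
  · have h1 : MemLp id (n : ℝ≥0∞) ν := IsGaussian.memLp_id ν n (by simp)
    have h2 : Integrable (fun M : T → E →L[ℝ] E => ‖M‖ ^ n) ν := by
      rcases Nat.eq_zero_or_pos n with rfl | hn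
      · simp
      · have := h1.integrable_norm_pow (by omega)
        simpa using this
    refine h2.mono' ?_ (Eventually.of_forall fun M => ?_)
    · exact (by fun_prop : Continuous fun M : T → E →L[ℝ] E =>
        ‖M i‖ ^ n).measurable.aestronglyMeasurable
    · rw [Real.norm_of_nonneg (by positivity)]
      exact pow_le_pow_left₀ (norm_nonneg _) (norm_le_pi_norm M i) n

end Pool.Agent.Lib.MP17fa2c
end

section
/-! # OVR: overlaps of the residuals -/
set_option autoImplicit false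

open MeasureTheory ProbabilityTheory Filter Topology
open scoped RealInnerProductSpace NNReal ENNReal

namespace Pool.Agent.Lib.MP17fa2c

namespace OVRM

theorem fin_sum (D : ℝ) (k : ℕ) (C1 CR B : ℝ) (f g : ℕ → ℝ) (hD : 1 ≤ D)
    (hkD : ((k : ℝ) + 1) ^ 2 ≤ D) (hC1 : 0 < C1) (hCR : 0 < CR) (hB : 0 ≤ B)
    (hf : ∑ j ∈ Finset.range k, f j ≤ C1 * (k + 1) ^ 2)
    (hg : ∑ j ∈ Finset.range k, g j ≤ C1 * (k + 1) ^ 2) :
    Real.sqrt (∑ j ∈ Finset.range k, 16 * D⁻¹) + ∑ j ∈ Finset.range k,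
      (D⁻¹ * ((Real.sqrt D)⁻¹ * (f j + g j) + Real.sqrt D) +
        (D⁻¹ * (B * (j + 1)) + D⁻¹ * (f j + g j))) ≤
      (5 + 4 * C1 + B + CR) * (k + 1) / Real.sqrt D := by
  have hD0 : 0 < D := by linarith
  have hs0 : 0 < Real.sqrt D := Real.sqrt_pos.2 hD0
  have hs1 : 1 ≤ Real.sqrt D := by
    rw [← Real.sqrt_one]
    exact Real.sqrt_le_sqrt hD
  have hk0 : (0 : ℝ) ≤ k := Nat.cast_nonneg k
  have hss : Real.sqrt D * Real.sqrt D = D := Real.mul_self_sqrt hD0.le
  have hks : (k : ℝ) + 1 ≤ Real.sqrt D := Real.le_sqrt_of_sq_le hkD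
  have hDi : D⁻¹ = (Real.sqrt D)⁻¹ * (Real.sqrt D)⁻¹ := by rw [← mul_inv, hss]
  generalize hs : Real.sqrt D = s at *
  have hy0 : 0 ≤ ((k : ℝ) + 1) / s := by positivity
  have hy1 : ((k : ℝ) + 1) / s ≤ 1 := (div_le_one hs0).2 hks
  have hsi0 : 0 ≤ s⁻¹ := inv_nonneg.2 hs0.le
  have hsi1 : s⁻¹ ≤ 1 := inv_le_one_of_one_le₀ hs1
  have hDi0 : 0 ≤ D⁻¹ := inv_nonneg.2 hD0.le
  have hyy : D⁻¹ * ((k : ℝ) + 1) ^ 2 = (((k : ℝ) + 1) / s) ^ 2 := by
    rw [hDi, div_pow, sq s]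
    field_simp
  have hyy1 : (((k : ℝ) + 1) / s) ^ 2 ≤ ((k : ℝ) + 1) / s := by
    rw [sq]
    exact mul_le_of_le_one_left hy0 hy1
  -- first term
  have t1 : Real.sqrt (∑ j ∈ Finset.range k, 16 * D⁻¹) ≤ 4 * (((k : ℝ) + 1) / s) := by
    rw [Finset.sum_const, Finset.card_range, nsmul_eq_mul]
    refine Real.sqrt_le_iff.2 ⟨by positivity, ?_⟩
    have e : (4 * (((k : ℝ) + 1) / s)) ^ 2 = 16 * (D⁻¹ * ((k : ℝ) + 1) ^ 2) := by
      rw [hyy]
      ring
    rw [e]
    have h1 : (k : ℝ) ≤ ((k : ℝ) + 1) ^ 2 := by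
      have h2 : ((k : ℝ) + 1) ^ 2 = k ^ 2 + k + (k + 1) := by ring
      have h3 : (0 : ℝ) ≤ (k : ℝ) ^ 2 := sq_nonneg _
      linarith
    have h2 := mul_le_mul_of_nonneg_left h1 (by positivity : 0 ≤ 16 * D⁻¹)
    have e1 : (k : ℝ) * (16 * D⁻¹) = 16 * D⁻¹ * k := by ring
    have e2 : 16 * (D⁻¹ * ((k : ℝ) + 1) ^ 2) = 16 * D⁻¹ * ((k : ℝ) + 1) ^ 2 := by ring
    rw [e1, e2]
    exact h2
  -- the sum
  have t2 : ∑ j ∈ Finset.range k, (D⁻¹ * (s⁻¹ * (f j + g j) + s) +
        (D⁻¹ * (B * (j + 1)) + D⁻¹ * (f j + g j))) ≤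
      ∑ j ∈ Finset.range k, ((D⁻¹ * s⁻¹ + D⁻¹) * (f j + g j) +
        (D⁻¹ * s + D⁻¹ * (B * (k + 1)))) := by
    refine Finset.sum_le_sum fun j hj => ?_
    have hj1 : (j : ℝ) ≤ k := Nat.cast_le.2 (Finset.mem_range.1 hj).le
    have h1 : D⁻¹ * (B * (j + 1)) ≤ D⁻¹ * (B * (k + 1)) :=
      mul_le_mul_of_nonneg_left (mul_le_mul_of_nonneg_left (by linarith) hB) hDi0
    have e : D⁻¹ * (s⁻¹ * (f j + g j) + s) + (D⁻¹ * (B * (j + 1)) + D⁻¹ * (f j + g j)) =
      (D⁻¹ * s⁻¹ + D⁻¹) * (f j + g j) + (D⁻¹ * s + D⁻¹ * (B * (j + 1))) := by ring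
    rw [e]
    linarith
  have t3 : ∑ j ∈ Finset.range k, ((D⁻¹ * s⁻¹ + D⁻¹) * (f j + g j) +
        (D⁻¹ * s + D⁻¹ * (B * (k + 1)))) =
      (D⁻¹ * s⁻¹ + D⁻¹) * (∑ j ∈ Finset.range k, f j + ∑ j ∈ Finset.range k, g j) +
        k * (D⁻¹ * s + D⁻¹ * (B * (k + 1))) := by
    rw [Finset.sum_add_distrib, ← Finset.mul_sum, Finset.sum_add_distrib, Finset.sum_const,
      Finset.card_range, nsmul_eq_mul]
  have t4 : (D⁻¹ * s⁻¹ + D⁻¹) * (∑ j ∈ Finset.range k, f j + ∑ j ∈ Finset.range k, g j) ≤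
      (2 * D⁻¹) * (2 * C1 * (k + 1) ^ 2) := by
    have h1 : D⁻¹ * s⁻¹ + D⁻¹ ≤ 2 * D⁻¹ := by
      have := mul_le_of_le_one_right hDi0 hsi1
      linarith
    have h2 : (D⁻¹ * s⁻¹ + D⁻¹) * (∑ j ∈ Finset.range k, f j + ∑ j ∈ Finset.range k, g j) ≤
        (D⁻¹ * s⁻¹ + D⁻¹) * (2 * C1 * (k + 1) ^ 2) :=
      mul_le_mul_of_nonneg_left (by linarith) (by positivity)
    exact h2.trans (mul_le_mul_of_nonneg_right h1 (by positivity))
  have t5 : (2 * D⁻¹) * (2 * C1 * ((k : ℝ) + 1) ^ 2) ≤ 4 * C1 * (((k : ℝ) + 1) / s) := by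
    have e : (2 * D⁻¹) * (2 * C1 * ((k : ℝ) + 1) ^ 2) = 4 * C1 * (D⁻¹ * ((k : ℝ) + 1) ^ 2) := by
      ring
    rw [e, hyy]
    exact mul_le_mul_of_nonneg_left hyy1 (by positivity)
  have t6 : (k : ℝ) * (D⁻¹ * s + D⁻¹ * (B * (k + 1))) ≤ (1 + B) * (((k : ℝ) + 1) / s) := by
    have h1 : (k : ℝ) * (D⁻¹ * s + D⁻¹ * (B * (k + 1))) ≤
        ((k : ℝ) + 1) * (D⁻¹ * s + D⁻¹ * (B * (k + 1))) :=
      mul_le_mul_of_nonneg_right (by linarith) (by positivity)
    have e : ((k : ℝ) + 1) * (D⁻¹ * s + D⁻¹ * (B * (k + 1))) =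
        ((k : ℝ) + 1) / s + B * (D⁻¹ * ((k : ℝ) + 1) ^ 2) := by
      rw [hDi]
      field_simp
    rw [e, hyy] at h1
    have h2 := mul_le_mul_of_nonneg_left hyy1 hB
    linarith
  have t7 : (5 + 4 * C1 + B + CR) * ((k : ℝ) + 1) / s = 4 * (((k : ℝ) + 1) / s) +
      4 * C1 * (((k : ℝ) + 1) / s) + (1 + B) * (((k : ℝ) + 1) / s) +
      CR * (((k : ℝ) + 1) / s) := by ring
  have t8 : 0 ≤ CR * (((k : ℝ) + 1) / s) := by positivity
  rw [t7]
  linarith

section Defs

variable {ι : Type} [Fintype ι] [DecidableEq ι] {E : Type} [NormedAddCommGroup E]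
  [InnerProductSpace ℝ E] {T : Type} [Fintype T]

/-- `Q_j M_i R_j^i` -/
noncomputable def pv (S : BStr ι E) (u : E) (M : T → E →L[ℝ] E) (j : ℕ) (i : T) : E :=
  qq S u M j (M i (rh S u M j i))

/-- the overlap -/
noncomputable def Xf (S : BStr ι E) (u : E) (a : ι) (i l : T) (j : ℕ) (M : T → E →L[ℝ] E) : ℝ :=
  ⟪rh S u M j i, S.J a (rh S u M j l)⟫

/-- martingale part -/
noncomputable def D1f (S : BStr ι E) (u : E) (cc : ℝ) (a : ι) (i l : T) (j : ℕ)
    (M : T → E →L[ℝ] E) : ℝ :=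
  (dm E)⁻¹ * (⟪pv S u M j i, S.J a (pv S u M j l)⟫ - cc * tr (qq S u M j) * Xf S u a i l j M)

/-- mixed part -/
noncomputable def D2f (S : BStr ι E) (u : E) (a : ι) (i l : T) (j : ℕ)
    (M : T → E →L[ℝ] E) : ℝ :=
  (dm E)⁻¹ * (⟪pv S u M j i, S.J a (sv S u M j l)⟫ + ⟪sv S u M j i, S.J a (pv S u M j l)⟫)

/-- drift part -/
noncomputable def epf (S : BStr ι E) (u : E) (cc : ℝ) (a : ι) (i l : T) (j : ℕ)
    (M : T → E →L[ℝ] E) : ℝ :=
  -(1 - tr (qq S u M j) / dm E) * cc * Xf S u a i l j M +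
    (dm E)⁻¹ * ⟪sv S u M j i, S.J a (sv S u M j l)⟫

/-- `1 + ∑ ‖M i‖` -/
noncomputable def LL (M : T → E →L[ℝ] E) : ℝ := 1 + ∑ i, ‖M i‖

theorem one_le_LL (M : T → E →L[ℝ] E) : 1 ≤ LL M := by
  have : 0 ≤ ∑ i, ‖M i‖ := Finset.sum_nonneg fun i _ => norm_nonneg _
  unfold LL
  linarith

theorem norm_le_LL (M : T → E →L[ℝ] E) (i : T) : ‖M i‖ ≤ LL M := by
  have h : ‖M i‖ ≤ ∑ i, ‖M i‖ :=
    Finset.single_le_sum (f := fun i => ‖M i‖) (fun i _ => norm_nonneg _) (Finset.mem_univ i)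
  unfold LL
  linarith

theorem alg (S : BStr ι E) (a : ι) (D cc x q : ℝ) (hD : 0 < D) (p s p' s' : E) :
    ⟪(Real.sqrt D)⁻¹ • (p + s), S.J a ((Real.sqrt D)⁻¹ • (p' + s'))⟫ =
      cc * x + (-(1 - q / D) * cc * x + D⁻¹ * ⟪s, S.J a s'⟫) +
      D⁻¹ * (⟪p, S.J a p'⟫ - cc * q * x) + D⁻¹ * (⟪p, S.J a s'⟫ + ⟪s, S.J a p'⟫) := by
  have h : (Real.sqrt D)⁻¹ * (Real.sqrt D)⁻¹ = D⁻¹ := by
    rw [← mul_inv, Real.mul_self_sqrt hD.le]
  rw [map_smul, real_inner_smul_left, real_inner_smul_right, map_add, inner_add_left,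
    inner_add_right, inner_add_right, ← mul_assoc, h]
  field_simp
  ring

/-- `|⟪x, J a y⟫| ≤ ‖x‖ ‖y‖` -/
theorem inner_J_le (S : BStr ι E) (a : ι) (x y : E) : |⟪x, S.J a y⟫| ≤ ‖x‖ * ‖y‖ := by
  have h := abs_real_inner_le_norm x (S.J a y)
  rwa [S.norm_J] at h

/-- `|⟪x, J a y⟫| = |⟪J a x, y⟫|` -/
theorem abs_J_swap (S : BStr ι E) (a : ι) (x y : E) : |⟪x, S.J a y⟫| = |⟪S.J a x, y⟫| := by
  by_cases ha : a = S.o
  · subst ha
    rw [S.J_o, S.J_o]
  · rw [S.skew a ha, abs_neg]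

/-- the almost sure facts -/
structure Good (S : BStr ι E) (u : E) (M : T → E →L[ℝ] E) : Prop where
  herm : HermF S M
  rho0 : ∀ i j, 0 ≤ rho (M i) u j
  rhoL : ∀ i j, rho (M i) u j ≤ LL M ^ j
  rhn : ∀ i j, ‖rh S u M j i‖ ≤ rho (M i) u j
  svn : ∀ i j, ‖sv S u M j i‖ ≤ LL M ^ (j + 1)
  pvn : ∀ i j, ‖pv S u M j i‖ ≤ LL M ^ (j + 1)
  qr : ∀ i j, qq S u M j (rh S u M j i) = 0
  er : ∀ i j, expl S u M j (rh S u M j i) = 0
  pr : ∀ j, ∀ _ : T, IsPr S (qq S u M j)
  tr1 : ∀ j, ∀ _ : T, dm E - Fintype.card ι * Fintype.card T * (j + 1) ≤ tr (qq S u M j)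
  tr2 : ∀ j, ∀ _ : T, tr (qq S u M j) ≤ dm E

/-- everything at once for the resampled family -/
structure Rs (S : BStr ι E) (u : E) (M G : T → E →L[ℝ] E) (j : ℕ) : Prop where
  rh : ∀ i, Pool.Agent.Lib.MP17fa2c.rh S u (res (expl S u M j) M G) j i =
    Pool.Agent.Lib.MP17fa2c.rh S u M j i
  qq : Pool.Agent.Lib.MP17fa2c.qq S u (res (expl S u M j) M G) j =
    Pool.Agent.Lib.MP17fa2c.qq S u M j
  sv : ∀ i, Pool.Agent.Lib.MP17fa2c.sv S u (res (expl S u M j) M G) j i =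
    Pool.Agent.Lib.MP17fa2c.sv S u M j i
  pv : ∀ i, OVRM.pv S u (res (expl S u M j) M G) j i =
    Pool.Agent.Lib.MP17fa2c.qq S u M j (G i (Pool.Agent.Lib.MP17fa2c.rh S u M j i))

end Defs

section Fin

variable {ι : Type} [Fintype ι] [DecidableEq ι] {E : Type} [NormedAddCommGroup E]
  [InnerProductSpace ℝ E] [FiniteDimensional ℝ E] {T : Type} [Fintype T]

theorem div_pow_le (M : T → E →L[ℝ] E) (i : T) (j : ℕ) (hD : 1 ≤ dm E) :
    (‖M i‖ / Real.sqrt (dm E)) ^ j ≤ LL M ^ j := by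
  have h1 : 1 ≤ Real.sqrt (dm E) := by
    rw [← Real.sqrt_one]
    exact Real.sqrt_le_sqrt hD
  have h2 : ‖M i‖ / Real.sqrt (dm E) ≤ ‖M i‖ := div_le_self (norm_nonneg _) h1
  exact pow_le_pow_left₀ (div_nonneg (norm_nonneg _) (Real.sqrt_nonneg _))
    (h2.trans (norm_le_LL M i)) j

theorem good_ae (hSTP : SpecSTP) (hPIN : SpecPIN) (S : BStr ι E) (u : E) (hu : ‖u‖ = 1)
    (c : T → T → ℝ) (ν : Measure (T → E →L[ℝ] E)) (hν : GFam S c ν) (hD : 1 ≤ dm E) :
    ∀ᵐ M ∂ν, Good S u M := by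
  filter_upwards [hν.herm, (hPIN ι E T S c ν hν).2 u hu] with M hM hP
  have hL0 : 0 ≤ LL M := zero_le_one.trans (one_le_LL M)
  have hrho : ∀ i j, rho (M i) u j ≤ LL M ^ j := fun i j =>
    (hP i j).2.2.1.trans (div_pow_le M i j hD)
  refine ⟨hM, fun i j => ?_, hrho, fun i j => ?_, fun i j => ?_, fun i j => ?_, fun i j => ?_,
    fun i j => ?_, fun j i => ?_, fun j i => ?_, fun j i => ?_⟩
  · obtain ⟨-, -, -, -, -, -, -, -, s, -⟩ := hSTP ι E T S u M hM hu j i
    exact s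
  · obtain ⟨-, -, -, -, -, -, -, -, -, s, -⟩ := hSTP ι E T S u M hM hu j i
    exact s
  · refine (hP i j).2.2.2.2.trans ?_
    rw [pow_succ]
    exact mul_le_mul (div_pow_le M i j hD) (norm_le_LL M i) (norm_nonneg _) (pow_nonneg hL0 j)
  · obtain ⟨-, -, -, -, -, -, -, -, -, s, -, hpr, -⟩ := hSTP ι E T S u M hM hu j i
    have h1 : ‖pv S u M j i‖ ≤ ‖M i (rh S u M j i)‖ := JONM.norm_le S hpr _
    have h2 : ‖M i (rh S u M j i)‖ ≤ ‖M i‖ * ‖rh S u M j i‖ := (M i).le_opNorm _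
    have h3 : ‖M i‖ * ‖rh S u M j i‖ ≤ LL M * LL M ^ j :=
      mul_le_mul (norm_le_LL M i) (s.trans (hrho i j)) (norm_nonneg _) hL0
    rw [pow_succ, mul_comm (LL M ^ j)]
    exact h1.trans (h2.trans h3)
  · exact (hSTP ι E T S u M hM hu j i).2.2.1
  · have h := (hSTP ι E T S u M hM hu j i).2.2.2.2.1
    unfold rh
    rw [map_smul, h, smul_zero]
  · obtain ⟨-, -, -, -, -, -, -, -, -, -, -, s, -⟩ := hSTP ι E T S u M hM hu j i
    exact s
  · obtain ⟨-, -, -, -, -, -, -, -, -, -, -, -, s, -⟩ := hSTP ι E T S u M hM hu j i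
    exact s
  · obtain ⟨-, -, -, -, -, -, -, -, -, -, -, -, -, s, -⟩ := hSTP ι E T S u M hM hu j i
    exact s

theorem rs (hSTK : SpecSTK) (S : BStr ι E) (u : E) (hu : ‖u‖ = 1) (M G : T → E →L[ℝ] E)
    (hM : Good S u M) (hG : HermF S G) (j : ℕ) (i₀ : T) : Rs S u M G j := by
  have hrh : ∀ i, rh S u (res (expl S u M j) M G) j i = rh S u M j i := fun i =>
    (hSTK ι E T S u hu j i).2.2.2.2.2.1 M G hM.herm hG
  have hqq : qq S u (res (expl S u M j) M G) j = qq S u M j :=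
    (hSTK ι E T S u hu j i₀).2.2.2.2.2.2.1 M G hM.herm hG
  refine ⟨hrh, hqq, fun i => (hSTK ι E T S u hu j i).2.2.2.2.2.2.2.1 M G hM.herm hG, fun i => ?_⟩
  have hlast := (hSTK ι E T S u hu j i).2.2.2.2.2.2.2.2.2.2.2 M G hM.herm hG (rh S u M j i)
    (hM.er i j)
  unfold OVRM.pv
  rw [hrh, hqq, hlast.1]

theorem recur (hSTP : SpecSTP) (S : BStr ι E) (u : E) (hu : ‖u‖ = 1) (M : T → E →L[ℝ] E)
    (hM : HermF S M) (hD : 0 < dm E) (cc : ℝ) (a : ι) (i l : T) (j : ℕ) :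
    Xf S u a i l (j + 1) M = cc * Xf S u a i l j M + epf S u cc a i l j M +
      D1f S u cc a i l j M + D2f S u a i l j M := by
  have h1 := (hSTP ι E T S u M hM hu j i).1
  have h2 := (hSTP ι E T S u M hM hu j l).1
  have h3 : Xf S u a i l (j + 1) M = ⟪rh S u M (j + 1) i, S.J a (rh S u M (j + 1) l)⟫ := rfl
  rw [h3, h1, h2, alg S a (dm E) cc (Xf S u a i l j M) (tr (qq S u M j)) hD]
  rfl

theorem meas (hMEB : SpecMEB) [MeasurableSpace E] [BorelSpace E] (S : BStr ι E) (u : E)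
    (cc : ℝ) (a : ι) (i l : T) (j : ℕ) :
    Measurable (Xf S u a i l j : (T → E →L[ℝ] E) → ℝ) ∧
    Measurable (D1f S u cc a i l j : (T → E →L[ℝ] E) → ℝ) ∧
    Measurable (D2f S u a i l j : (T → E →L[ℝ] E) → ℝ) ∧
    Measurable (epf S u cc a i l j : (T → E →L[ℝ] E) → ℝ) := by
  have hr : ∀ i : T, Measurable fun M : T → E →L[ℝ] E => rh S u M j i := fun i =>
    (hMEB ι E T S u j i).2.2.1
  have hs : ∀ i : T, Measurable fun M : T → E →L[ℝ] E => sv S u M j i := fun i =>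
    (hMEB ι E T S u j i).2.2.2.2.2.1
  have hp : ∀ i : T, Measurable fun M : T → E →L[ℝ] E => pv S u M j i := fun i =>
    (hMEB ι E T S u j i).2.2.2.2.2.2.2.1
  have ht : Measurable fun M : T → E →L[ℝ] E => tr (qq S u M j) := (hMEB ι E T S u j i).2.2.2.2.1
  have hJ : Measurable (S.J a) := (S.J a).continuous.measurable
  have hX : Measurable (Xf S u a i l j : (T → E →L[ℝ] E) → ℝ) :=
    (hr i).inner (hJ.comp (hr l))
  refine ⟨hX, ?_, ?_, ?_⟩
  · exact (((hp i).inner (hJ.comp (hp l))).sub ((ht.const_mul cc).mul hX)).const_mul _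
  · exact (((hp i).inner (hJ.comp (hs l))).add ((hs i).inner (hJ.comp (hp l)))).const_mul _
  · have h1 : Measurable fun M : T → E →L[ℝ] E => -(1 - tr (qq S u M j) / dm E) * cc :=
      ((measurable_const.sub (ht.div_const _)).neg).mul_const cc
    exact (h1.mul hX).add (((hs i).inner (hJ.comp (hs l))).const_mul _)

theorem known (hSTK : SpecSTK) (hKNM : SpecKNM) (S : BStr ι E) (u : E) (hu : ‖u‖ = 1)
    (cc : ℝ) (a : ι) (i l : T) (j : ℕ) :
    Kn S u (j + 1) (D1f S u cc a i l j : (T → E →L[ℝ] E) → ℝ) := by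
  intro M G hM hG
  have hp : ∀ i, pv S u (res (expl S u M (j + 1)) M G) j i = pv S u M j i := fun i =>
    (hSTK ι E T S u hu j i).2.2.2.2.2.2.2.2.2.2.1 M G hM hG
  have hq : qq S u (res (expl S u M (j + 1)) M G) j = qq S u M j :=
    hKNM ι E T S u _ (fun M : T → E →L[ℝ] E => qq S u M j) j (j + 1) (by omega)
      (hSTK ι E T S u hu j i).2.2.2.2.2.2.1 M G hM hG
  have hr : ∀ i, rh S u (res (expl S u M (j + 1)) M G) j i = rh S u M j i := fun i =>
    hKNM ι E T S u _ (fun M : T → E →L[ℝ] E => rh S u M j i) j (j + 1) (by omega)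
      (hSTK ι E T S u hu j i).2.2.2.2.2.1 M G hM hG
  unfold D1f Xf
  rw [hp, hp, hq, hr, hr]

/-- constants of the polynomial bounds -/
noncomputable def BB (ι : Type) [Fintype ι] (E : Type) [NormedAddCommGroup E]
    [InnerProductSpace ℝ E] (T : Type) [Fintype T] (j : ℕ) : ℝ :=
  dm E + Fintype.card ι * Fintype.card T * (j + 1)

theorem BB_nonneg (j : ℕ) : 0 ≤ BB ι E T j := by
  unfold BB dm
  positivity

theorem bounds (S : BStr ι E) (u : E) (M : T → E →L[ℝ] E) (hM : Good S u M) (hD : 1 ≤ dm E)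
    (cc : ℝ) (hcc : |cc| ≤ 1) (a : ι) (i l : T) (j : ℕ) :
    |D1f S u cc a i l j M| ≤ (1 + BB ι E T j) * LL M ^ (2 * (j + 1)) ∧
    |D2f S u a i l j M| ≤ 2 * LL M ^ (2 * (j + 1)) ∧
    |epf S u cc a i l j M| ≤ (2 + BB ι E T j) * LL M ^ (2 * (j + 1)) := by
  have hL := one_le_LL M
  have hL0 : 0 ≤ LL M := zero_le_one.trans hL
  have hD0 : 0 < dm E := by linarith
  have hDi : (dm E)⁻¹ ≤ 1 := inv_le_one_of_one_le₀ hD
  have hDi0 : 0 ≤ (dm E)⁻¹ := inv_nonneg.2 hD0.le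
  have hPP : LL M ^ (j + 1) * LL M ^ (j + 1) = LL M ^ (2 * (j + 1)) := by
    rw [← pow_add]
    congr 1
    ring
  have hP0 : 0 ≤ LL M ^ (2 * (j + 1)) := pow_nonneg hL0 _
  have hB0 : 0 ≤ BB ι E T j := BB_nonneg j
  have g : ∀ x y : E, ‖x‖ ≤ LL M ^ (j + 1) → ‖y‖ ≤ LL M ^ (j + 1) →
      |⟪x, S.J a y⟫| ≤ LL M ^ (2 * (j + 1)) := by
    intro x y hx hy
    refine (inner_J_le S a x y).trans ?_
    rw [← hPP]
    exact mul_le_mul hx hy (norm_nonneg _) (pow_nonneg hL0 _)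
  have hjj : LL M ^ j ≤ LL M ^ (j + 1) := pow_le_pow_right₀ hL (by omega)
  have hr : ∀ i, ‖rh S u M j i‖ ≤ LL M ^ (j + 1) := fun i =>
    ((hM.rhn i j).trans (hM.rhoL i j)).trans hjj
  have hX : |Xf S u a i l j M| ≤ LL M ^ (2 * (j + 1)) := g _ _ (hr i) (hr l)
  have ht : |tr (qq S u M j)| ≤ BB ι E T j := by
    have h1 := hM.tr1 j i
    have h2 := hM.tr2 j i
    have h3 : (0 : ℝ) ≤ Fintype.card ι * Fintype.card T * (j + 1) := by positivity
    rw [abs_le]
    unfold BB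
    constructor <;> linarith
  have hinv : ∀ x : ℝ, |(dm E)⁻¹ * x| ≤ |x| := by
    intro x
    rw [abs_mul, abs_of_nonneg hDi0]
    exact mul_le_of_le_one_left (abs_nonneg _) hDi
  refine ⟨?_, ?_, ?_⟩
  · refine (hinv _).trans ((abs_sub _ _).trans ?_)
    have h1 := g _ _ (hM.pvn i j) (hM.pvn l j)
    have h2 : |cc * tr (qq S u M j) * Xf S u a i l j M| ≤
        1 * BB ι E T j * LL M ^ (2 * (j + 1)) := by
      rw [abs_mul, abs_mul]
      exact mul_le_mul (mul_le_mul hcc ht (abs_nonneg _) zero_le_one) hX (abs_nonneg _)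
        (by rw [one_mul]; exact hB0)
    have h3 : (1 + BB ι E T j) * LL M ^ (2 * (j + 1)) =
      LL M ^ (2 * (j + 1)) + 1 * BB ι E T j * LL M ^ (2 * (j + 1)) := by ring
    rw [h3]
    exact add_le_add h1 h2
  · refine (hinv _).trans ((abs_add_le _ _).trans ?_)
    have h1 := g _ _ (hM.pvn i j) (hM.svn l j)
    have h2 := g _ _ (hM.svn i j) (hM.pvn l j)
    linarith
  · refine (abs_add_le _ _).trans ?_
    have h1 := (hinv ⟪sv S u M j i, S.J a (sv S u M j l)⟫).trans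
      (g _ _ (hM.svn i j) (hM.svn l j))
    have h4 : |tr (qq S u M j) / dm E| ≤ BB ι E T j := by
      rw [abs_div, abs_of_nonneg hD0.le]
      exact (div_le_self (abs_nonneg _) hD).trans ht
    have h5 : |-(1 - tr (qq S u M j) / dm E)| ≤ 1 + BB ι E T j := by
      rw [abs_neg]
      refine (abs_sub _ _).trans ?_
      rw [abs_one]
      linarith
    have h2 : |-(1 - tr (qq S u M j) / dm E) * cc * Xf S u a i l j M| ≤
        (1 + BB ι E T j) * 1 * LL M ^ (2 * (j + 1)) := by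
      rw [abs_mul, abs_mul]
      exact mul_le_mul (mul_le_mul h5 hcc (abs_nonneg _) (by linarith)) hX (abs_nonneg _)
        (by rw [mul_one]; linarith)
    have h3 : (2 + BB ι E T j) * LL M ^ (2 * (j + 1)) =
      (1 + BB ι E T j) * 1 * LL M ^ (2 * (j + 1)) + LL M ^ (2 * (j + 1)) := by ring
    rw [h3]
    exact add_le_add h2 h1

theorem integ (hPIN : SpecPIN) (hSTP : SpecSTP) (hMEB : SpecMEB) (hMEA : SpecMEA) (S : BStr ι E)
    (u : E) (hu : ‖u‖ = 1) (c : T → T → ℝ) (ν : Measure (T → E →L[ℝ] E)) (hν : GFam S c ν)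
    (hD : 1 ≤ dm E) (cc : ℝ) (hcc : |cc| ≤ 1) (a : ι) (i l : T) (j : ℕ) :
    Integrable (fun M => D1f S u cc a i l j M ^ 2) ν ∧ Integrable (D2f S u a i l j) ν ∧
    Integrable (epf S u cc a i l j) ν ∧
    Integrable (fun M : T → E →L[ℝ] E => ‖sv S u M j i‖ ^ 2) ν ∧
    Integrable (fun M : T → E →L[ℝ] E => rho (M i) u j ^ 4) ν ∧
    Integrable (fun M : T → E →L[ℝ] E => rho (M i) u j ^ 2) ν ∧
    Integrable (fun M : T → E →L[ℝ] E => ‖rh S u M j i‖ ^ 2) ν := by
  let _ : MeasurableSpace E := borel E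
  have _ : BorelSpace E := ⟨rfl⟩
  obtain ⟨-, m2, m3, m4⟩ := meas hMEB S u cc a i l j
  have hgood := good_ae hSTP hPIN S u hu c ν hν hD
  have hP := (hPIN ι E T S c ν hν).1
  have mr : Measurable fun M : T → E →L[ℝ] E => rh S u M j i := (hMEB ι E T S u j i).2.2.1
  have ms : Measurable fun M : T → E →L[ℝ] E => sv S u M j i :=
    (hMEB ι E T S u j i).2.2.2.2.2.1
  have mrho : Measurable fun M : T → E →L[ℝ] E => rho (M i) u j :=
    (hMEA ι E T S u j).2.2.2.2.1 i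
  have hpw : ∀ (M : T → E →L[ℝ] E) (x b : ℝ) (m n : ℕ), |x| ≤ b * LL M ^ m →
      |x ^ n| ≤ b ^ n * (1 + ∑ i, ‖M i‖) ^ (m * n) := by
    intro M x b m n hx
    rw [abs_pow, pow_mul, ← mul_pow]
    exact pow_le_pow_left₀ (abs_nonneg _) hx n
  refine ⟨?_, ?_, ?_, ?_, ?_, ?_, ?_⟩
  · refine hP _ ((1 + BB ι E T j) ^ 2) (2 * (j + 1) * 2) (m2.pow_const 2) ?_
    filter_upwards [hgood] with M hM
    exact hpw M _ _ _ 2 (bounds S u M hM hD cc hcc a i l j).1
  · refine hP _ 2 (2 * (j + 1)) m3 ?_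
    filter_upwards [hgood] with M hM
    exact (bounds S u M hM hD cc hcc a i l j).2.1
  · refine hP _ (2 + BB ι E T j) (2 * (j + 1)) m4 ?_
    filter_upwards [hgood] with M hM
    exact (bounds S u M hM hD cc hcc a i l j).2.2
  · refine hP _ (1 ^ 2) ((j + 1) * 2) (ms.norm.pow_const 2) ?_
    filter_upwards [hgood] with M hM
    refine hpw M _ _ _ 2 ?_
    rw [abs_norm, one_mul]
    exact hM.svn i j
  · refine hP _ (1 ^ 4) (j * 4) (mrho.pow_const 4) ?_
    filter_upwards [hgood] with M hM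
    refine hpw M _ _ _ 4 ?_
    rw [abs_of_nonneg (hM.rho0 i j), one_mul]
    exact hM.rhoL i j
  · refine hP _ (1 ^ 2) (j * 2) (mrho.pow_const 2) ?_
    filter_upwards [hgood] with M hM
    refine hpw M _ _ _ 2 ?_
    rw [abs_of_nonneg (hM.rho0 i j), one_mul]
    exact hM.rhoL i j
  · refine hP _ (1 ^ 2) (j * 2) (mr.norm.pow_const 2) ?_
    filter_upwards [hgood] with M hM
    refine hpw M _ _ _ 2 ?_
    rw [abs_norm, one_mul]
    exact (hM.rhn i j).trans (hM.rhoL i j)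

/-- integrability in `G` for fixed vectors -/
theorem integG (hPIN : SpecPIN) (S : BStr ι E) (c : T → T → ℝ)
    (ν : Measure (T → E →L[ℝ] E)) (hν : GFam S c ν) (Q : E →L[ℝ] E) (hQ : IsPr S Q) (a : ι)
    (i l : T) (r r' y : E) :
    Integrable (fun G : T → E →L[ℝ] E => ⟪Q (G i r), S.J a (Q (G l r'))⟫) ν ∧
    Integrable (fun G : T → E →L[ℝ] E => ⟪y, Q (G i r)⟫) ν := by
  let _ : MeasurableSpace E := borel E
  have _ : BorelSpace E := ⟨rfl⟩
  have hP := (hPIN ι E T S c ν hν).1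
  have hm : ∀ (i : T) (r : E), Measurable fun G : T → E →L[ℝ] E => Q (G i r) := by
    intro i r
    have h1 : Measurable fun G : T → E →L[ℝ] E => G i := measurable_pi_apply i
    exact Q.continuous.measurable.comp ((ContinuousLinearMap.measurable_apply r).comp h1)
  have hb : ∀ (G : T → E →L[ℝ] E) (i : T) (r : E), ‖Q (G i r)‖ ≤ LL G * ‖r‖ := by
    intro G i r
    have h1 : ‖Q (G i r)‖ ≤ ‖G i r‖ := JONM.norm_le S hQ _
    have h2 : ‖G i r‖ ≤ ‖G i‖ * ‖r‖ := (G i).le_opNorm r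
    have h3 : ‖G i‖ * ‖r‖ ≤ LL G * ‖r‖ := mul_le_mul_of_nonneg_right (norm_le_LL G i)
      (norm_nonneg _)
    exact h1.trans (h2.trans h3)
  constructor
  · refine hP _ (‖r‖ * ‖r'‖) 2 ((hm i r).inner ((S.J a).continuous.measurable.comp (hm l r')))
      (ae_of_all _ fun G => ?_)
    refine (inner_J_le S a _ _).trans ?_
    have h1 := mul_le_mul (hb G i r) (hb G l r') (norm_nonneg _)
      (mul_nonneg (zero_le_one.trans (one_le_LL G)) (norm_nonneg _))
    have h2 : ‖r‖ * ‖r'‖ * (1 + ∑ i, ‖G i‖) ^ 2 = LL G * ‖r‖ * (LL G * ‖r'‖) := by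
      unfold LL
      ring
    rw [h2]
    exact h1
  · refine hP _ (‖y‖ * ‖r‖) 1 (measurable_const.inner (hm i r)) (ae_of_all _ fun G => ?_)
    refine (abs_real_inner_le_norm _ _).trans ?_
    have h1 := mul_le_mul_of_nonneg_left (hb G i r) (norm_nonneg y)
    have h2 : ‖y‖ * ‖r‖ * (1 + ∑ i, ‖G i‖) ^ 1 = ‖y‖ * (LL G * ‖r‖) := by
      unfold LL
      ring
    rw [h2]
    exact h1

/-- conditional mean and variance of the martingale part, and mean of the mixed part -/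
theorem cond (hPIN : SpecPIN) (hSTK : SpecSTK) (hGI1 : SpecGI1) (S : BStr ι E)
    (u : E) (hu : ‖u‖ = 1) (c : T → T → ℝ) (ν : Measure (T → E →L[ℝ] E)) (hν : GFam S c ν)
    (hc : Cor c) (hD : 1 ≤ dm E) (a : ι) (i l : T) (j : ℕ) (M : T → E →L[ℝ] E)
    (hM : Good S u M) :
    ∫ G, D1f S u (c i l) a i l j (res (expl S u M j) M G) ∂ν = 0 ∧
    ∫ G, D1f S u (c i l) a i l j (res (expl S u M j) M G) ^ 2 ∂ν ≤
      (4 * (dm E)⁻¹) * (rho (M i) u j ^ 4 + rho (M l) u j ^ 4) ∧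
    ∫ G, |D2f S u a i l j (res (expl S u M j) M G)| ∂ν ≤
      (dm E)⁻¹ * (‖sv S u M j l‖ * ‖rh S u M j i‖ + ‖sv S u M j i‖ * ‖rh S u M j l‖) := by
  have hD0 : 0 < dm E := by linarith
  have hQ := hM.pr j i
  have hri := hM.qr i j
  have hrl := hM.qr l j
  obtain ⟨-, -, g3, -, g5, g6, -, -⟩ :=
    hGI1 ι E T S c ν hν hc (qq S u M j) hQ i l (rh S u M j i) (rh S u M j l) hri hrl
  obtain ⟨-, -, g3', -, -, -, -, -⟩ :=
    hGI1 ι E T S c ν hν hc (qq S u M j) hQ l i (rh S u M j l) (rh S u M j i) hrl hri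
  have _ := hν.gauss
  have hD1 : ∀ G, HermF S G → D1f S u (c i l) a i l j (res (expl S u M j) M G) =
      (dm E)⁻¹ * (⟪qq S u M j (G i (rh S u M j i)), S.J a (qq S u M j (G l (rh S u M j l)))⟫ -
        c i l * tr (qq S u M j) * ⟪rh S u M j i, S.J a (rh S u M j l)⟫) := by
    intro G hG
    have h := rs hSTK S u hu M G hM hG j i
    unfold D1f Xf
    rw [h.pv, h.pv, h.qq, h.rh, h.rh]
  have hD2 : ∀ G, HermF S G → |D2f S u a i l j (res (expl S u M j) M G)| ≤
      (dm E)⁻¹ * (|⟪S.J a (sv S u M j l), qq S u M j (G i (rh S u M j i))⟫| +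
        |⟪S.J a (sv S u M j i), qq S u M j (G l (rh S u M j l))⟫|) := by
    intro G hG
    have h := rs hSTK S u hu M G hM hG j i
    unfold D2f
    rw [h.pv, h.pv, h.sv, h.sv, abs_mul, abs_of_nonneg (inv_nonneg.2 hD0.le)]
    refine mul_le_mul_of_nonneg_left ?_ (inv_nonneg.2 hD0.le)
    refine (abs_add_le _ _).trans ?_
    rw [abs_J_swap S a (sv S u M j i), real_inner_comm]
  obtain ⟨i1, -⟩ := integG hPIN S c ν hν (qq S u M j) hQ a i l (rh S u M j i) (rh S u M j l) 0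
  refine ⟨?_, ?_, ?_⟩
  · have h1 : (fun G => D1f S u (c i l) a i l j (res (expl S u M j) M G)) =ᵐ[ν] fun G =>
      (dm E)⁻¹ * (⟪qq S u M j (G i (rh S u M j i)), S.J a (qq S u M j (G l (rh S u M j l)))⟫ -
        c i l * tr (qq S u M j) * ⟪rh S u M j i, S.J a (rh S u M j l)⟫) := by
      filter_upwards [hν.herm] with G hG
      exact hD1 G hG
    rw [integral_congr_ae h1, integral_const_mul, integral_sub i1 (integrable_const _), g5 a]
    simp
  · have h1 : (fun G => D1f S u (c i l) a i l j (res (expl S u M j) M G) ^ 2) =ᵐ[ν] fun G =>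
      ((dm E)⁻¹) ^ 2 * (⟪qq S u M j (G i (rh S u M j i)),
        S.J a (qq S u M j (G l (rh S u M j l)))⟫ -
        c i l * tr (qq S u M j) * ⟪rh S u M j i, S.J a (rh S u M j l)⟫) ^ 2 := by
      filter_upwards [hν.herm] with G hG
      rw [hD1 G hG, mul_pow]
    rw [integral_congr_ae h1, integral_const_mul]
    have h2 := mul_le_mul_of_nonneg_left (g6 a) (sq_nonneg (dm E)⁻¹)
    refine h2.trans ?_
    have h3 : ((dm E)⁻¹) ^ 2 * (2 * dm E * (‖rh S u M j i‖ ^ 2 + ‖rh S u M j l‖ ^ 2) ^ 2) =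
        (dm E)⁻¹ * (2 * (‖rh S u M j i‖ ^ 2 + ‖rh S u M j l‖ ^ 2) ^ 2) := by
      field_simp
    rw [h3]
    have h4 : ∀ i, ‖rh S u M j i‖ ^ 2 ≤ rho (M i) u j ^ 2 := fun i =>
      pow_le_pow_left₀ (norm_nonneg _) (hM.rhn i j) 2
    have h5 : (‖rh S u M j i‖ ^ 2 + ‖rh S u M j l‖ ^ 2) ^ 2 ≤
        (rho (M i) u j ^ 2 + rho (M l) u j ^ 2) ^ 2 :=
      pow_le_pow_left₀ (by positivity) (add_le_add (h4 i) (h4 l)) 2
    have h6 : 2 * (rho (M i) u j ^ 2 + rho (M l) u j ^ 2) ^ 2 ≤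
        4 * (rho (M i) u j ^ 4 + rho (M l) u j ^ 4) := by
      have : 0 ≤ (rho (M i) u j ^ 2 - rho (M l) u j ^ 2) ^ 2 := sq_nonneg _
      have e : 4 * (rho (M i) u j ^ 4 + rho (M l) u j ^ 4) =
        2 * (rho (M i) u j ^ 2 + rho (M l) u j ^ 2) ^ 2 +
        2 * (rho (M i) u j ^ 2 - rho (M l) u j ^ 2) ^ 2 := by ring
      rw [e]
      linarith
    have h7 : (dm E)⁻¹ * (2 * (‖rh S u M j i‖ ^ 2 + ‖rh S u M j l‖ ^ 2) ^ 2) ≤
        (dm E)⁻¹ * (4 * (rho (M i) u j ^ 4 + rho (M l) u j ^ 4)) :=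
      mul_le_mul_of_nonneg_left (by linarith) (inv_nonneg.2 hD0.le)
    refine h7.trans (le_of_eq ?_)
    ring
  · obtain ⟨-, k1⟩ := integG hPIN S c ν hν (qq S u M j) hQ a i l (rh S u M j i)
      (rh S u M j l) (S.J a (sv S u M j l))
    obtain ⟨-, k2⟩ := integG hPIN S c ν hν (qq S u M j) hQ a l i (rh S u M j l)
      (rh S u M j i) (S.J a (sv S u M j i))
    have h1 : ∫ G, |D2f S u a i l j (res (expl S u M j) M G)| ∂ν ≤
        ∫ G, (dm E)⁻¹ * (|⟪S.J a (sv S u M j l), qq S u M j (G i (rh S u M j i))⟫| +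
        |⟪S.J a (sv S u M j i), qq S u M j (G l (rh S u M j l))⟫|) ∂ν := by
      refine integral_mono_of_nonneg (ae_of_all _ fun _ => abs_nonneg _)
        ((k1.abs.add k2.abs).const_mul _) ?_
      filter_upwards [hν.herm] with G hG
      exact hD2 G hG
    refine h1.trans ?_
    rw [integral_const_mul, integral_add k1.abs k2.abs]
    refine mul_le_mul_of_nonneg_left ?_ (inv_nonneg.2 hD0.le)
    have h2 := g3 (S.J a (sv S u M j l))
    have h3 := g3' (S.J a (sv S u M j i))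
    rw [S.norm_J] at h2 h3
    exact add_le_add h2 h3

/-- the three bounds for the martingale lemma -/
theorem three (hRPI : SpecRPI) (hSTP : SpecSTP) (hSTK : SpecSTK)
    (hGI1 : SpecGI1) (hPIN : SpecPIN) (hMEB : SpecMEB) (hMEA : SpecMEA) (S : BStr ι E)
    (u : E) (hu : ‖u‖ = 1) (c : T → T → ℝ) (ν : Measure (T → E →L[ℝ] E)) (hν : GFam S c ν)
    (hc : Cor c) (hD : 1 ≤ dm E) (a : ι) (i l : T) (j : ℕ)
    (hr2 : ∀ i, ∫ M, rho (M i) u j ^ 2 ∂ν ≤ 1) (hr4 : ∀ i, ∫ M, rho (M i) u j ^ 4 ∂ν ≤ 2) :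
    ∫ M, D1f S u (c i l) a i l j M ^ 2 ∂ν ≤ 16 * (dm E)⁻¹ ∧
    ∫ M, |D2f S u a i l j M| ∂ν ≤ (dm E)⁻¹ * ((Real.sqrt (dm E))⁻¹ *
      (∫ M, ‖sv S u M j i‖ ^ 2 ∂ν + ∫ M, ‖sv S u M j l‖ ^ 2 ∂ν) + Real.sqrt (dm E)) ∧
    ∫ M, |epf S u (c i l) a i l j M| ∂ν ≤
      (dm E)⁻¹ * (Fintype.card ι * Fintype.card T * (j + 1)) +
      (dm E)⁻¹ * (∫ M, ‖sv S u M j i‖ ^ 2 ∂ν + ∫ M, ‖sv S u M j l‖ ^ 2 ∂ν) := by
  let _ : MeasurableSpace E := borel E
  have _ : BorelSpace E := ⟨rfl⟩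
  have hD0 : 0 < dm E := by linarith
  have hDi0 : 0 ≤ (dm E)⁻¹ := inv_nonneg.2 hD0.le
  have hcc := hc.le i l
  obtain ⟨m1, m2, m3, m4⟩ := meas hMEB S u (c i l) a i l j
  obtain ⟨i1, i2, i3, si, r4i, r2i, ri⟩ :=
    integ hPIN hSTP hMEB hMEA S u hu c ν hν hD (c i l) hcc a i l j
  obtain ⟨-, -, -, sl, r4l, r2l, rl⟩ :=
    integ hPIN hSTP hMEB hMEA S u hu c ν hν hD (c i l) hcc a l i j
  have hgood := good_ae hSTP hPIN S u hu c ν hν hD
  have hrh : ∀ i, Integrable (fun M : T → E →L[ℝ] E => ‖rh S u M j i‖ ^ 2) ν →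
      Integrable (fun M : T → E →L[ℝ] E => rho (M i) u j ^ 2) ν →
      ∫ M, ‖rh S u M j i‖ ^ 2 ∂ν ≤ 1 := by
    intro i k1 k2
    refine (integral_mono_ae k1 k2 ?_).trans (hr2 i)
    filter_upwards [hgood] with M hM
    exact pow_le_pow_left₀ (norm_nonneg _) (hM.rhn i j) 2
  have hri := hrh i ri r2i
  have hrl := hrh l rl r2l
  have hR := (hRPI ι E T S c ν u hν j).1
  refine ⟨?_, ?_, ?_⟩
  · obtain ⟨-, k2, k3⟩ := hR (fun M => D1f S u (c i l) a i l j M ^ 2) (m2.pow_const 2) i1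
    rw [k3]
    have h1 : ∫ M, ∫ G, D1f S u (c i l) a i l j (res (expl S u M j) M G) ^ 2 ∂ν ∂ν ≤
        ∫ M, (4 * (dm E)⁻¹) * (rho (M i) u j ^ 4 + rho (M l) u j ^ 4) ∂ν := by
      refine integral_mono_ae k2 ((r4i.add r4l).const_mul _) ?_
      filter_upwards [hgood] with M hM
      exact (cond hPIN hSTK hGI1 S u hu c ν hν hc hD a i l j M hM).2.1
    refine h1.trans ?_
    rw [integral_const_mul, integral_add r4i r4l]
    have h2 : (4 * (dm E)⁻¹) * (∫ M, rho (M i) u j ^ 4 ∂ν + ∫ M, rho (M l) u j ^ 4 ∂ν) ≤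
        (4 * (dm E)⁻¹) * (2 + 2) :=
      mul_le_mul_of_nonneg_left (add_le_add (hr4 i) (hr4 l)) (by positivity)
    refine h2.trans (le_of_eq ?_)
    ring
  · obtain ⟨-, k2, k3⟩ := hR (fun M => |D2f S u a i l j M|)
      (by simpa only [Real.norm_eq_abs] using m3.norm) i2.abs
    rw [k3]
    have hs0 : 0 < Real.sqrt (dm E) := Real.sqrt_pos.2 hD0
    have hi : Integrable (fun M : T → E →L[ℝ] E =>
        (dm E)⁻¹ * ((Real.sqrt (dm E))⁻¹ * (‖sv S u M j i‖ ^ 2 + ‖sv S u M j l‖ ^ 2) +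
          (Real.sqrt (dm E) / 2) * (‖rh S u M j i‖ ^ 2 + ‖rh S u M j l‖ ^ 2))) ν :=
      (((si.add sl).const_mul _).add ((ri.add rl).const_mul _)).const_mul _
    have hag : ∀ x y : ℝ, x * y ≤ (Real.sqrt (dm E))⁻¹ * x ^ 2 +
        (Real.sqrt (dm E) / 2) * y ^ 2 := by
      intro x y
      have h1 : 0 ≤ (Real.sqrt (dm E))⁻¹ * (x - (Real.sqrt (dm E) / 2) * y) ^ 2 := by positivity
      have h2 : (Real.sqrt (dm E))⁻¹ * (x - (Real.sqrt (dm E) / 2) * y) ^ 2 =
        (Real.sqrt (dm E))⁻¹ * x ^ 2 - x * y + (Real.sqrt (dm E) / 4) * y ^ 2 := by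
        field_simp
        ring
      have h3 : 0 ≤ (Real.sqrt (dm E) / 4) * y ^ 2 := by positivity
      have h4 : (Real.sqrt (dm E) / 2) * y ^ 2 =
        (Real.sqrt (dm E) / 4) * y ^ 2 + (Real.sqrt (dm E) / 4) * y ^ 2 := by ring
      linarith
    have h1 : ∫ M, ∫ G, |D2f S u a i l j (res (expl S u M j) M G)| ∂ν ∂ν ≤
        ∫ M, (dm E)⁻¹ * ((Real.sqrt (dm E))⁻¹ * (‖sv S u M j i‖ ^ 2 + ‖sv S u M j l‖ ^ 2) +
          (Real.sqrt (dm E) / 2) * (‖rh S u M j i‖ ^ 2 + ‖rh S u M j l‖ ^ 2)) ∂ν := by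
      refine integral_mono_ae k2 hi ?_
      filter_upwards [hgood] with M hM
      refine (cond hPIN hSTK hGI1 S u hu c ν hν hc hD a i l j M hM).2.2.trans ?_
      refine mul_le_mul_of_nonneg_left ?_ hDi0
      have h1 := hag ‖sv S u M j l‖ ‖rh S u M j i‖
      have h2 := hag ‖sv S u M j i‖ ‖rh S u M j l‖
      linarith
    refine h1.trans ?_
    rw [integral_const_mul]
    refine mul_le_mul_of_nonneg_left ?_ hDi0
    have q1 : Integrable (fun M : T → E →L[ℝ] E =>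
      (Real.sqrt (dm E))⁻¹ * (‖sv S u M j i‖ ^ 2 + ‖sv S u M j l‖ ^ 2)) ν :=
      (si.add sl).const_mul _
    have q2 : Integrable (fun M : T → E →L[ℝ] E =>
      (Real.sqrt (dm E) / 2) * (‖rh S u M j i‖ ^ 2 + ‖rh S u M j l‖ ^ 2)) ν :=
      (ri.add rl).const_mul _
    rw [integral_add q1 q2, integral_const_mul,
      integral_const_mul, integral_add si sl, integral_add ri rl]
    have h2 : (Real.sqrt (dm E) / 2) * (∫ M, ‖rh S u M j i‖ ^ 2 ∂ν +
        ∫ M, ‖rh S u M j l‖ ^ 2 ∂ν) ≤ (Real.sqrt (dm E) / 2) * (1 + 1) :=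
      mul_le_mul_of_nonneg_left (add_le_add hri hrl) (by positivity)
    linarith
  · have hK0 : (0 : ℝ) ≤ Fintype.card ι * Fintype.card T * (j + 1) := by positivity
    have hi : Integrable (fun M : T → E →L[ℝ] E =>
        ((dm E)⁻¹ * (Fintype.card ι * Fintype.card T * (j + 1)) / 2) *
          (‖rh S u M j i‖ ^ 2 + ‖rh S u M j l‖ ^ 2) +
        (dm E)⁻¹ * (‖sv S u M j i‖ ^ 2 + ‖sv S u M j l‖ ^ 2)) ν :=
      ((ri.add rl).const_mul _).add ((si.add sl).const_mul _)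
    have h1 : ∫ M, |epf S u (c i l) a i l j M| ∂ν ≤ ∫ M,
        (((dm E)⁻¹ * (Fintype.card ι * Fintype.card T * (j + 1)) / 2) *
          (‖rh S u M j i‖ ^ 2 + ‖rh S u M j l‖ ^ 2) +
        (dm E)⁻¹ * (‖sv S u M j i‖ ^ 2 + ‖sv S u M j l‖ ^ 2)) ∂ν := by
      refine integral_mono_ae i3.abs hi ?_
      filter_upwards [hgood] with M hM
      unfold epf
      refine (abs_add_le _ _).trans ?_
      have h1 : |-(1 - tr (qq S u M j) / dm E)| ≤
          (dm E)⁻¹ * (Fintype.card ι * Fintype.card T * (j + 1)) := by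
        have e : 1 - tr (qq S u M j) / dm E = (dm E)⁻¹ * (dm E - tr (qq S u M j)) := by
          field_simp
        have t1 := hM.tr1 j i
        have t2 := hM.tr2 j i
        rw [abs_neg, e, abs_of_nonneg (mul_nonneg hDi0 (by linarith))]
        exact mul_le_mul_of_nonneg_left (by linarith) hDi0
      have hxy : ∀ x y : E, |⟪x, S.J a y⟫| ≤ (‖x‖ ^ 2 + ‖y‖ ^ 2) / 2 := by
        intro x y
        have h := inner_J_le S a x y
        have h' : 0 ≤ (‖x‖ - ‖y‖) ^ 2 := sq_nonneg _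
        have e : (‖x‖ - ‖y‖) ^ 2 = ‖x‖ ^ 2 + ‖y‖ ^ 2 - 2 * (‖x‖ * ‖y‖) := by ring
        linarith
      have h2 : |-(1 - tr (qq S u M j) / dm E) * c i l * Xf S u a i l j M| ≤
          ((dm E)⁻¹ * (Fintype.card ι * Fintype.card T * (j + 1))) * 1 *
            ((‖rh S u M j i‖ ^ 2 + ‖rh S u M j l‖ ^ 2) / 2) := by
        rw [abs_mul, abs_mul]
        exact mul_le_mul (mul_le_mul h1 hcc (abs_nonneg _) (mul_nonneg hDi0 hK0)) (hxy _ _)
          (abs_nonneg _) (by positivity)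
      have h3 : |(dm E)⁻¹ * ⟪sv S u M j i, S.J a (sv S u M j l)⟫| ≤
          (dm E)⁻¹ * (‖sv S u M j i‖ ^ 2 + ‖sv S u M j l‖ ^ 2) := by
        rw [abs_mul, abs_of_nonneg hDi0]
        refine mul_le_mul_of_nonneg_left ((hxy _ _).trans ?_) hDi0
        have : 0 ≤ ‖sv S u M j i‖ ^ 2 + ‖sv S u M j l‖ ^ 2 := by positivity
        linarith
      have h4 : ((dm E)⁻¹ * (Fintype.card ι * Fintype.card T * (j + 1))) * 1 *
            ((‖rh S u M j i‖ ^ 2 + ‖rh S u M j l‖ ^ 2) / 2) =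
          ((dm E)⁻¹ * (Fintype.card ι * Fintype.card T * (j + 1)) / 2) *
          (‖rh S u M j i‖ ^ 2 + ‖rh S u M j l‖ ^ 2) := by ring
      rw [h4] at h2
      exact add_le_add h2 h3
    refine h1.trans ?_
    have q1 : Integrable (fun M : T → E →L[ℝ] E =>
      ((dm E)⁻¹ * (Fintype.card ι * Fintype.card T * (j + 1)) / 2) *
          (‖rh S u M j i‖ ^ 2 + ‖rh S u M j l‖ ^ 2)) ν := (ri.add rl).const_mul _
    have q2 : Integrable (fun M : T → E →L[ℝ] E =>
      (dm E)⁻¹ * (‖sv S u M j i‖ ^ 2 + ‖sv S u M j l‖ ^ 2)) ν := (si.add sl).const_mul _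
    rw [integral_add q1 q2, integral_const_mul,
      integral_const_mul, integral_add si sl, integral_add ri rl]
    have h2 : ((dm E)⁻¹ * (Fintype.card ι * Fintype.card T * (j + 1)) / 2) *
        (∫ M, ‖rh S u M j i‖ ^ 2 ∂ν + ∫ M, ‖rh S u M j l‖ ^ 2 ∂ν) ≤
        ((dm E)⁻¹ * (Fintype.card ι * Fintype.card T * (j + 1)) / 2) * (1 + 1) :=
      mul_le_mul_of_nonneg_left (add_le_add hri hrl) (by positivity)
    linarith

theorem rh_zero (S : BStr ι E) (u : E) (M : T → E →L[ℝ] E) (i : T) : rh S u M 0 i = u := by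
  simp [rh, rr, rho, expl, qv, lan, cp]

end Fin

end OVRM

open OVRM in
theorem specOVR (hMDL : SpecMDL) (hRPI : SpecRPI) (hRE1 : SpecRE1) (hRHO : SpecRHO)
    (hSTP : SpecSTP) (hSTK : SpecSTK) (hKNM : SpecKNM) (hGI1 : SpecGI1) (hPIN : SpecPIN)
    (hMEB : SpecMEB) (hMEA : SpecMEA) : SpecOVR := by
  intro ι _ _ T _
  obtain ⟨C1, hC1, hE1⟩ := hRE1 ι T
  obtain ⟨CR, hCR, hR⟩ := hRHO ι
  refine ⟨5 + 4 * C1 + Fintype.card ι * Fintype.card T + CR, by positivity, ?_⟩
  intro E _ _ _ S u c ν hν hc hu a i l k hk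
  let _ : MeasurableSpace E := borel E
  have _ : BorelSpace E := ⟨rfl⟩
  have hk0 : (0 : ℝ) ≤ k := Nat.cast_nonneg k
  have hk1 : (1 : ℝ) ≤ k + 1 := by linarith
  have hk2 : (1 : ℝ) ≤ (k + 1 : ℝ) ^ 2 := one_le_pow₀ hk1
  have hbt : (0 : ℝ) ≤ Fintype.card ι * Fintype.card T := by positivity
  have hexp : (5 + 4 * C1 + Fintype.card ι * Fintype.card T + CR) * ((k : ℝ) + 1) ^ 2 =
      5 * ((k : ℝ) + 1) ^ 2 + 4 * (C1 * ((k : ℝ) + 1) ^ 2) +
      (Fintype.card ι * Fintype.card T) * ((k : ℝ) + 1) ^ 2 + CR * ((k : ℝ) + 1) ^ 2 := by ring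
  have p1 : 0 ≤ C1 * ((k : ℝ) + 1) ^ 2 := by positivity
  have p2 : 0 ≤ (Fintype.card ι * Fintype.card T : ℝ) * ((k : ℝ) + 1) ^ 2 := by positivity
  have p3 : 0 ≤ CR * ((k : ℝ) + 1) ^ 2 := by positivity
  have hkD : ((k : ℝ) + 1) ^ 2 ≤ dm E := by linarith
  have hD : 1 ≤ dm E := by linarith
  have hC1D : C1 * ((k : ℝ) + 1) ^ 2 ≤ dm E := by linarith
  have hCRD : ∀ j ≤ k, CR * ((j : ℝ) + 1) ≤ dm E := by
    intro j hj
    have h1 : ((j : ℝ) + 1) ≤ ((k : ℝ) + 1) ^ 2 := by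
      have h2 : (j : ℝ) ≤ k := Nat.cast_le.2 hj
      have h3 : ((k : ℝ) + 1) ≤ ((k : ℝ) + 1) ^ 2 := by
        have := mul_le_mul_of_nonneg_left hk1 (by linarith : (0 : ℝ) ≤ k + 1)
        rw [mul_one, ← sq] at this
        exact this
      linarith
    have h2 := mul_le_mul_of_nonneg_left h1 hCR.le
    linarith
  have hD0 : 0 < dm E := by linarith
  have hs0 : 0 < Real.sqrt (dm E) := Real.sqrt_pos.2 hD0
  have hs1 : 1 ≤ Real.sqrt (dm E) := by
    rw [← Real.sqrt_one]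
    exact Real.sqrt_le_sqrt hD
  have hcc := hc.le i l
  have hT := fun (j : ℕ) (hj : j < k) => three hRPI hSTP hSTK hGI1 hPIN hMEB hMEA S u hu c ν
    hν hc hD a i l j (fun i => (hR E T S u c ν hν hc hu i j (hCRD j hj.le)).2.2.2.2.1)
    (fun i => (hR E T S u c ν hν hc hu i j (hCRD j hj.le)).2.2.2.2.2.1)
  have hgood := good_ae hSTP hPIN S u hu c ν hν hD
  have hM := hMDL ι E T S u c ν hν k (c i l) (Xf S u a i l) (D1f S u (c i l) a i l)
    (D2f S u a i l) (epf S u (c i l) a i l) (fun _ => 16 * (dm E)⁻¹)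
    (fun j => (dm E)⁻¹ * ((Real.sqrt (dm E))⁻¹ *
      (∫ M, ‖sv S u M j i‖ ^ 2 ∂ν + ∫ M, ‖sv S u M j l‖ ^ 2 ∂ν) + Real.sqrt (dm E)))
    (fun j => (dm E)⁻¹ * (Fintype.card ι * Fintype.card T * (j + 1)) +
      (dm E)⁻¹ * (∫ M, ‖sv S u M j i‖ ^ 2 ∂ν + ∫ M, ‖sv S u M j l‖ ^ 2 ∂ν)) hcc
    (fun M hM j _ => recur hSTP S u hu M hM hD0 (c i l) a i l j)
    (fun j => meas hMEB S u (c i l) a i l j)
    (fun j _ => known hSTK hKNM S u hu (c i l) a i l j)
    (fun j _ => by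
      obtain ⟨k1, k2, k3, -⟩ := integ hPIN hSTP hMEB hMEA S u hu c ν hν hD (c i l) hcc a i l j
      exact ⟨k1, k2, k3⟩)
    (fun j _ => by
      filter_upwards [hgood] with M hM
      exact (cond hPIN hSTK hGI1 S u hu c ν hν hc hD a i l j M hM).1)
    hT
  -- the initial value
  have hX0 : ∀ M : T → E →L[ℝ] E, c i l ^ k * Xf S u a i l 0 M = if a = S.o then c i l ^ k else 0 := by
    intro M
    unfold Xf
    rw [rh_zero, rh_zero]
    split_ifs with h
    · subst h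
      rw [S.J_o, real_inner_self_eq_norm_sq, hu]
      ring
    · rw [JONM.inner_self_J S h, mul_zero]
  have hL : ∫ M, |⟪rh S u M k i, S.J a (rh S u M k l)⟫ - if a = S.o then c i l ^ k else 0| ∂ν =
      ∫ M, |Xf S u a i l k M - c i l ^ k * Xf S u a i l 0 M| ∂ν := by
    congr 1
    funext M
    rw [hX0 M]
    rfl
  rw [hL]
  refine hM.trans ?_
  exact fin_sum (dm E) k C1 CR (Fintype.card ι * Fintype.card T)
    (fun j => ∫ M, ‖sv S u M j i‖ ^ 2 ∂ν) (fun j => ∫ M, ‖sv S u M j l‖ ^ 2 ∂ν) hD hkD hC1 hCR hbt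
    (hE1 E S u c ν hν hc hu i k hC1D).2.1 (hE1 E S u c ν hν hc hu l k hC1D).2.1

end Pool.Agent.Lib.MP17fa2c
end

section
/-!
# MP_17fa2c_pr, module ZE0: structure of `b_k²` after resampling
-/
set_option autoImplicit false

open MeasureTheory ProbabilityTheory Filter Topology
open scoped RealInnerProductSpace NNReal ENNReal

namespace Pool.Agent.Lib.MP17fa2c

namespace ZE0M

open EAUXM MEAM RSBM RSAM

/-- exponential Markov inequality -/
theorem chernoff {Ω : Type*} [MeasurableSpace Ω] (μ : Measure Ω) (f : Ω → ℝ) (hf : Measurable f)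
    (t B : ℝ) (h : ∫⁻ ω, ENNReal.ofReal (Real.exp (f ω)) ∂μ ≤ ENNReal.ofReal (Real.exp B)) :
    μ {ω | t < f ω} ≤ ENNReal.ofReal (Real.exp (B - t)) := by
  have hm : Measurable fun ω => ENNReal.ofReal (Real.exp (f ω)) := by fun_prop
  have hsub : {ω | t < f ω} ⊆ {ω | ENNReal.ofReal (Real.exp t) ≤
      ENNReal.ofReal (Real.exp (f ω))} := by
    intro ω hω
    exact ENNReal.ofReal_le_ofReal (Real.exp_le_exp.mpr (le_of_lt hω))
  have hmk := mul_meas_ge_le_lintegral (μ := μ) hm (ENNReal.ofReal (Real.exp t))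
  have h3 : ENNReal.ofReal (Real.exp t) * μ {ω | t < f ω} ≤ ENNReal.ofReal (Real.exp B) :=
    (mul_le_mul_right (measure_mono hsub) _).trans (hmk.trans h)
  have h4 : μ {ω | t < f ω} = ENNReal.ofReal (Real.exp (-t)) *
      (ENNReal.ofReal (Real.exp t) * μ {ω | t < f ω}) := by
    rw [← mul_assoc, ← ENNReal.ofReal_mul (Real.exp_pos _).le, ← Real.exp_add]
    simp
  rw [h4]
  refine (mul_le_mul_right h3 _).trans_eq ?_
  rw [← ENNReal.ofReal_mul (Real.exp_pos _).le, ← Real.exp_add]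
  congr 2
  ring

theorem gmgf (v : ℝ≥0) (s : ℝ) :
    ∫⁻ x, ENNReal.ofReal (Real.exp (s * x)) ∂(gaussianReal 0 v) =
      ENNReal.ofReal (Real.exp (v * s ^ 2 / 2)) := by
  rw [← ofReal_integral_eq_lintegral_ofReal (integrable_exp_mul_gaussianReal s)
    (Eventually.of_forall fun x => (Real.exp_pos _).le)]
  congr 1
  have h := congrFun (mgf_id_gaussianReal (μ := 0) (v := v)) s
  unfold mgf at h
  simp only [id, zero_mul, zero_add] at h
  exact h

/-- tail of a centered Gaussian variable -/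
theorem gtail (v : ℝ≥0) (V : ℝ) (hV : 0 < V) (hv : (v : ℝ) ≤ V) (x : ℝ) (hx : 0 < x) :
    gaussianReal 0 v {y | x < |y|} ≤ ENNReal.ofReal (2 * Real.exp (-(x ^ 2 / (2 * V)))) := by
  have key : ∀ s : ℝ, s ^ 2 = 1 → gaussianReal 0 v {y | x < s * y} ≤
      ENNReal.ofReal (Real.exp (-(x ^ 2 / (2 * V)))) := by
    intro s hs
    have h1 : ∫⁻ y, ENNReal.ofReal (Real.exp ((x / V * s) * y)) ∂(gaussianReal 0 v) ≤
        ENNReal.ofReal (Real.exp (x ^ 2 / (2 * V))) := by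
      rw [gmgf]
      apply ENNReal.ofReal_le_ofReal
      apply Real.exp_le_exp.mpr
      have h2 : (x / V * s) ^ 2 = x ^ 2 / V ^ 2 := by
        rw [mul_pow, hs, mul_one, div_pow]
      rw [h2]
      have h3 : (v : ℝ) * (x ^ 2 / V ^ 2) ≤ V * (x ^ 2 / V ^ 2) :=
        mul_le_mul_of_nonneg_right hv (by positivity)
      have h4 : V * (x ^ 2 / V ^ 2) / 2 = x ^ 2 / (2 * V) := by field_simp
      linarith
    have h2 := chernoff (gaussianReal 0 v) (fun y => (x / V * s) * y) (by fun_prop) (x ^ 2 / V) _ h1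
    refine (measure_mono ?_).trans (h2.trans_eq ?_)
    · intro y hy
      have h3 : x < s * y := hy
      show x ^ 2 / V < (x / V * s) * y
      have h4 := mul_lt_mul_of_pos_left h3 (show 0 < x / V by positivity)
      calc x ^ 2 / V = x / V * x := by ring
        _ < x / V * (s * y) := h4
        _ = _ := by ring
    · congr 2
      field_simp
      ring
  have hsub : {y : ℝ | x < |y|} ⊆ {y | x < 1 * y} ∪ {y | x < (-1) * y} := by
    intro y hy
    have h1 : x < |y| := hy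
    rcases abs_cases y with ⟨h, -⟩ | ⟨h, -⟩
    · left
      show x < 1 * y
      linarith
    · right
      show x < (-1) * y
      linarith
  refine (measure_mono hsub).trans ((measure_union_le _ _).trans
    ((add_le_add (key 1 (by norm_num)) (key (-1) (by norm_num))).trans_eq ?_))
  rw [← ENNReal.ofReal_add (Real.exp_pos _).le (Real.exp_pos _).le]
  congr 1
  ring

variable {ι : Type} [Fintype ι] [DecidableEq ι] {E : Type} [NormedAddCommGroup E]
  [InnerProductSpace ℝ E] [FiniteDimensional ℝ E] {T : Type} [Fintype T]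
  {S : BStr ι E} {c : T → T → ℝ} {ν : Measure (T → E →L[ℝ] E)}

omit [Fintype T] [FiniteDimensional ℝ E] in
theorem lin_meas (i : T) (z r : E) : Measurable fun G : T → E →L[ℝ] E => ⟪z, G i r⟫ := by
  have h : Continuous fun A : E →L[ℝ] E => ⟪z, A r⟫ := by fun_prop
  exact h.measurable.comp (measurable_pi_apply i)

/-- the law of a linear functional -/
theorem lin_law (hGLF : SpecGLF) (hg : GFam S c ν) (hc : Cor c) (i : T) (z r : E) :
    ∃ v : ℝ≥0, (v : ℝ) ≤ 2 * Fintype.card ι * (‖z‖ ^ 2 * ‖r‖ ^ 2) ∧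
      ν.map (fun G => ⟪z, G i r⟫) = gaussianReal 0 v := by
  obtain ⟨hv, hlaw⟩ := hGLF ι E T S c ν hg Unit (fun _ => i) (fun _ => z) (fun _ => r) _ rfl
  simp only [Finset.univ_unique, Finset.sum_singleton, hc.one, one_mul] at hv hlaw
  refine ⟨_, ?_, hlaw⟩
  rw [Real.coe_toNNReal _ hv]
  have h1 : ∀ a, |⟪z, S.J a z⟫ * ⟪r, S.J a r⟫ + ⟪z, S.J a r⟫ * ⟪r, S.J a z⟫| ≤
      2 * (‖z‖ ^ 2 * ‖r‖ ^ 2) := by
    intro a
    refine (abs_add_le _ _).trans ?_
    rw [abs_mul, abs_mul]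
    have e : ∀ x y : E, |⟪x, S.J a y⟫| ≤ ‖x‖ * ‖y‖ := by
      intro x y
      refine (abs_real_inner_le_norm _ _).trans ?_
      rw [S.norm_J]
    have e1 := mul_le_mul (e z z) (e r r) (abs_nonneg _) (by positivity)
    have e2 := mul_le_mul (e z r) (e r z) (abs_nonneg _) (by positivity)
    calc _ ≤ ‖z‖ * ‖z‖ * (‖r‖ * ‖r‖) + ‖z‖ * ‖r‖ * (‖r‖ * ‖z‖) := add_le_add e1 e2
      _ = _ := by ring
  calc _ ≤ ∑ _a : ι, 2 * (‖z‖ ^ 2 * ‖r‖ ^ 2) :=
        Finset.sum_le_sum fun a _ => (le_abs_self _).trans (h1 a)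
    _ = _ := by
      rw [Finset.sum_const, Finset.card_univ, nsmul_eq_mul]
      ring

theorem lin_tail (hGLF : SpecGLF) (hg : GFam S c ν) (hc : Cor c) (i : T) (z r : E) (V : ℝ)
    (hV : 0 < V) (h : 2 * Fintype.card ι * (‖z‖ ^ 2 * ‖r‖ ^ 2) ≤ V) (x : ℝ) (hx : 0 < x) :
    ν {G | x < |⟪z, G i r⟫|} ≤ ENNReal.ofReal (2 * Real.exp (-(x ^ 2 / (2 * V)))) := by
  obtain ⟨v, hv, hlaw⟩ := lin_law hGLF hg hc i z r
  have h1 := gtail v V hV (hv.trans h) x hx
  have hms : MeasurableSet {y : ℝ | x < |y|} :=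
    measurableSet_lt measurable_const (by fun_prop)
  rw [← hlaw, Measure.map_apply (lin_meas i z r) hms] at h1
  exact h1

theorem lin_sq (hGLF : SpecGLF) (hGMO : SpecGMO) (hg : GFam S c ν) (hc : Cor c) (i : T)
    (z r : E) : ∫ G, ⟪z, G i r⟫ ^ 2 ∂ν ≤ 2 * Fintype.card ι * (‖z‖ ^ 2 * ‖r‖ ^ 2) := by
  obtain ⟨v, hv, hlaw⟩ := lin_law hGLF hg hc i z r
  have h1 := integral_map (μ := ν) (lin_meas i z r).aemeasurable (f := fun x : ℝ => x ^ 2)
    (by fun_prop)
  rw [← h1, hlaw, hGMO.1]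
  exact hv

/-- the range of a projection -/
theorem proj_decomp (P : E →L[ℝ] E) (hP : IsPr S P) :
    ∃ (d : ℕ) (F : Finset (Fin d)) (b : Fin d → E), (F.card : ℝ) = tr P ∧ (∀ m, ‖b m‖ = 1) ∧
      ∀ x, ‖P x‖ ^ 2 = ∑ m ∈ F, ⟪b m, x⟫ ^ 2 := by
  have hsym : (P : E →ₗ[ℝ] E).IsSymmetric := hP.1.1
  set n := Module.finrank ℝ E with hn
  let b := hsym.eigenvectorBasis hn.symm
  let l : Fin n → ℝ := hsym.eigenvalues hn.symm
  have hBb : ∀ i, P (b i) = l i • b i := fun i => hsym.apply_eigenvectorBasis hn.symm i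
  have hon := b.orthonormal
  have hinn : ∀ i, ⟪b i, b i⟫ = (1 : ℝ) := by
    intro i
    rw [real_inner_self_eq_norm_sq, hon.norm_eq_one]
    norm_num
  have hll : ∀ i, l i = 0 ∨ l i = 1 := by
    intro i
    have h1 := hP.2 (b i)
    rw [hBb, map_smul, hBb, smul_smul] at h1
    have h2 := congrArg (fun y => ⟪b i, y⟫) h1
    simp only [real_inner_smul_right, hinn, mul_one] at h2
    have h5 : l i * (l i - 1) = 0 := by linarith
    rcases mul_eq_zero.mp h5 with h | h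
    · exact Or.inl h
    · exact Or.inr (by linarith)
  refine ⟨n, Finset.univ.filter (fun m => l m = 1), b, ?_, fun m => hon.norm_eq_one m, ?_⟩
  · unfold tr
    rw [LinearMap.trace_eq_sum_inner _ b, Finset.card_filter]
    push_cast
    refine Finset.sum_congr rfl fun m _ => ?_
    show (if l m = 1 then (1 : ℝ) else 0) = ⟪b m, P (b m)⟫
    rw [hBb, real_inner_smul_right, hinn, mul_one]
    rcases hll m with h | h
    · simp [h]
    · simp [h]
  · intro x
    rw [← b.sum_sq_norm_inner_right, Finset.sum_filter]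
    refine Finset.sum_congr rfl fun m _ => ?_
    have h1 : ⟪b m, P x⟫ = l m * ⟪b m, x⟫ := by
      rw [← hP.1.1, hBb, real_inner_smul_left]
    rw [h1, Real.norm_eq_abs, sq_abs]
    rcases hll m with h | h
    · simp [h]
    · simp [h]

theorem proj_tail (hGLF : SpecGLF) (hg : GFam S c ν) (hc : Cor c) (i : T) (P : E →L[ℝ] E)
    (hP : IsPr S P) (r : E) (hr : ‖r‖ ≤ 1) (N0 : ℝ) (h0 : 1 ≤ N0) (hN : tr P ≤ N0) (x : ℝ)
    (hx : 0 < x) : ν {G | x < ‖P (G i r)‖ ^ 2} ≤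
      ENNReal.ofReal (2 * N0 * Real.exp (-(x / (4 * Fintype.card ι * N0)))) := by
  obtain ⟨d, F, b, hF, hb, hx2⟩ := proj_decomp P hP
  have hβ1 : (1 : ℝ) ≤ Fintype.card ι := by
    have : Nonempty ι := ⟨S.o⟩
    exact_mod_cast (Fintype.card_pos : 0 < Fintype.card ι)
  set y : ℝ := Real.sqrt (x / N0) with hy
  have hxN : 0 < x / N0 := by positivity
  have hy0 : 0 < y := Real.sqrt_pos.2 hxN
  have hy2 : y ^ 2 = x / N0 := Real.sq_sqrt hxN.le
  have hsub : {G : T → E →L[ℝ] E | x < ‖P (G i r)‖ ^ 2} ⊆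
      ⋃ m ∈ F, {G | y < |⟪b m, G i r⟫|} := by
    intro G hG
    have hG' : x < ‖P (G i r)‖ ^ 2 := hG
    by_contra hcon
    simp only [Set.mem_iUnion, not_exists] at hcon
    have h1 : ∀ m ∈ F, ⟪b m, G i r⟫ ^ 2 ≤ x / N0 := by
      intro m hm
      have h2 : |⟪b m, G i r⟫| ≤ y := not_lt.mp (hcon m hm)
      rw [← hy2, ← sq_abs]
      exact pow_le_pow_left₀ (abs_nonneg _) h2 2
    have h2 : ∑ m ∈ F, ⟪b m, G i r⟫ ^ 2 ≤ F.card * (x / N0) := by
      refine (Finset.sum_le_sum h1).trans_eq ?_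
      rw [Finset.sum_const, nsmul_eq_mul]
    rw [hx2] at hG'
    have h3 : (F.card : ℝ) * (x / N0) ≤ N0 * (x / N0) :=
      mul_le_mul_of_nonneg_right (by rw [hF]; exact hN) hxN.le
    have h4 : N0 * (x / N0) = x := by field_simp
    linarith
  have h1 : ∀ m ∈ F, ν {G | y < |⟪b m, G i r⟫|} ≤
      ENNReal.ofReal (2 * Real.exp (-(x / (4 * Fintype.card ι * N0)))) := by
    intro m _
    have h2 := lin_tail hGLF hg hc i (b m) r (2 * Fintype.card ι) (by positivity)
      (by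
        rw [hb m]
        have : ‖r‖ ^ 2 ≤ 1 := pow_le_one₀ (norm_nonneg _) hr
        nlinarith) y hy0
    refine h2.trans_eq ?_
    rw [hy2]
    congr 3
    field_simp
    ring
  refine (measure_mono hsub).trans ((measure_biUnion_finset_le _ _).trans
    ((Finset.sum_le_sum h1).trans ?_))
  rw [Finset.sum_const, nsmul_eq_mul, ← ENNReal.ofReal_natCast, ← ENNReal.ofReal_mul
    (Nat.cast_nonneg _)]
  apply ENNReal.ofReal_le_ofReal
  rw [hF]
  have h3 : 0 < Real.exp (-(x / (4 * Fintype.card ι * N0))) := Real.exp_pos _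
  nlinarith

theorem proj_sq (hGLF : SpecGLF) (hGMO : SpecGMO) (hPIN : SpecPIN) (hg : GFam S c ν) (hc : Cor c)
    (i : T) (P : E →L[ℝ] E)
    (hP : IsPr S P) (r : E) (hr : ‖r‖ ≤ 1) (N0 : ℝ) (hN : tr P ≤ N0) :
    ∫ G, ‖P (G i r)‖ ^ 2 ∂ν ≤ 2 * Fintype.card ι * N0 := by
  obtain ⟨d, F, b, hF, hb, hx2⟩ := proj_decomp P hP
  simp only [hx2]
  have hint : ∀ m ∈ F, Integrable (fun G : T → E →L[ℝ] E => ⟪b m, G i r⟫ ^ 2) ν := by
    intro m _
    have p1 : PB ν (fun G : T → E →L[ℝ] E => ⟪b m, G i r⟫) := by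
      refine PB.mono ((PB.nrm i).mul (PB.const (‖b m‖ * ‖r‖))) (Eventually.of_forall fun G => ?_)
      refine (abs_real_inner_le_norm _ _).trans (le_trans ?_ (le_abs_self _))
      have := (G i).le_opNorm r
      have h2 := norm_nonneg (b m)
      calc ‖b m‖ * ‖G i r‖ ≤ ‖b m‖ * (‖G i‖ * ‖r‖) := mul_le_mul_of_nonneg_left this h2
        _ = _ := by ring
    exact (p1.pow 2).integrable hPIN hg ((lin_meas i (b m) r).pow_const 2)
  rw [integral_finsetSum _ hint]
  have h1 : ∀ m ∈ F, ∫ G, ⟪b m, G i r⟫ ^ 2 ∂ν ≤ 2 * Fintype.card ι := by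
    intro m _
    refine (lin_sq hGLF hGMO hg hc i (b m) r).trans ?_
    rw [hb m]
    have h2 : ‖r‖ ^ 2 ≤ 1 := pow_le_one₀ (norm_nonneg _) hr
    have h3 : (0 : ℝ) ≤ Fintype.card ι := Nat.cast_nonneg _
    nlinarith
  refine (Finset.sum_le_sum h1).trans ?_
  rw [Finset.sum_const, nsmul_eq_mul, hF]
  have h3 : (0 : ℝ) ≤ Fintype.card ι := Nat.cast_nonneg _
  nlinarith

/-- the increment of the exploration -/
theorem incr (hADD : SpecADD) (hEXP : SpecEXP) (S : BStr ι E) (u : E) (M : T → E →L[ℝ] E)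
    (k : ℕ) : IsPr S (expl S u M (k + 1) - expl S u M k) ∧
      tr (expl S u M (k + 1) - expl S u M k) ≤ Fintype.card ι * Fintype.card T := by
  obtain ⟨p1, -⟩ := hEXP ι E T S u M k
  obtain ⟨q1, q2, -⟩ := hEXP ι E T S u M (k + 1)
  obtain ⟨-, -, -, -, h5⟩ := EXPM.fold hADD S (fun i : T => qv (M i) u k)
      (Finset.univ : Finset T).toList (expl S u M k) p1
  rw [Finset.length_toList, Finset.card_univ] at h5
  have h6 : tr (expl S u M (k + 1)) ≤ tr (expl S u M k) +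
    Fintype.card ι * Fintype.card T := h5
  refine ⟨⟨⟨fun x y => ?_, fun a x => ?_⟩, fun x => ?_⟩, ?_⟩
  · simp only [ContinuousLinearMap.sub_apply, inner_sub_left, inner_sub_right, p1.1.1, q1.1.1]
  · simp only [ContinuousLinearMap.sub_apply, map_sub, p1.1.2, q1.1.2]
  · simp only [ContinuousLinearMap.sub_apply, map_sub, (q2 k (by omega) _).1,
      (q2 k (by omega) _).2, p1.2, q1.2]
    abel
  · have : tr (expl S u M (k + 1) - expl S u M k) = tr (expl S u M (k + 1)) -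
        tr (expl S u M k) := by
      unfold tr
      rw [ContinuousLinearMap.toLinearMap_sub, map_sub]
    rw [this]
    linarith

end ZE0M

open ZE0M EAUXM MEAM RSBM RSAM in
/-- Module ZE0. -/
theorem specZE0 (hSTP : SpecSTP) (hSTK : SpecSTK) (hKNO : SpecKNO) (hEXP : SpecEXP)
    (hADD : SpecADD) (hJON : SpecJON) (hLOR : SpecLOR) (hIND : SpecIND) (hGLF : SpecGLF)
    (hGMO : SpecGMO) (hGI1 : SpecGI1) (hPIN : SpecPIN) : SpecZE0 := by
  intro ι _ _ T _
  set β : ℝ := (Fintype.card ι : ℝ) with hβ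
  set t : ℝ := (Fintype.card T : ℝ) with ht
  have hβ0 : 0 ≤ β := Nat.cast_nonneg _
  have ht0 : 0 ≤ t := Nat.cast_nonneg _
  set N0 : ℝ := β * t with hN0
  have hN00 : 0 ≤ N0 := by positivity
  refine ⟨16 * β * N0 + 4 * β * (N0 + 1) + 2 * N0 + 2 + 16 * β, by
    have : 0 ≤ β * N0 := by positivity
    nlinarith, ?_⟩
  set C : ℝ := 16 * β * N0 + 4 * β * (N0 + 1) + 2 * N0 + 2 + 16 * β with hC
  intro E _ _ _ _ _ S u c ν hg hc hu i k hk
  have hsc := sc (E := E)
  have hscL := scL (E := E)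
  have := hg.gauss
  have hβ1 : 1 ≤ β := by
    have : Nonempty ι := ⟨S.o⟩
    show (1 : ℝ) ≤ (Fintype.card ι : ℝ)
    exact_mod_cast (Fintype.card_pos : 0 < Fintype.card ι)
  have ht1 : 1 ≤ t := by
    have : Nonempty T := ⟨i⟩
    show (1 : ℝ) ≤ (Fintype.card T : ℝ)
    exact_mod_cast (Fintype.card_pos : 0 < Fintype.card T)
  have hN1 : 1 ≤ N0 := by rw [hN0]; nlinarith
  have hβN : 0 ≤ β * N0 := by positivity
  filter_upwards [hg.herm] with M hM
  obtain ⟨-, h2, -, h4, h5, h6, h7, h8, -, -, -, h12, -⟩ := hSTP ι E T S u M hM hu k i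
  obtain ⟨-, -, j3, j4, -⟩ := hJON ι E S
  obtain ⟨hP', htr'⟩ := incr hADD hEXP S u M k
  obtain ⟨-, x2, -, -⟩ := hEXP ι E T S u M (k + 1)
  set P : E →L[ℝ] E := expl S u M k with hP
  set Q : E →L[ℝ] E := qq S u M k with hQ
  set r : E := rr S u M k i with hr
  set q : E := qv (M i) u k with hq
  set P' : E →L[ℝ] E := expl S u M (k + 1) - P with hP'd
  have hcq := j3 _ h12
  have hcr : cp Q r = r := by
    show r - Q r = _
    rw [h2, sub_zero]
  have hcqq : cp Q q = q := by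
    show q - Q q = _
    rw [h4, sub_zero]
  have hcPQ : ∀ x, cp P (cp Q x) = P' x := by
    intro x
    have e1 : cp Q x = expl S u M (k + 1) x := by
      show x - (x - expl S u M (k + 1) x) = _
      abel
    rw [e1]
    show expl S u M (k + 1) x - P (expl S u M (k + 1) x) = expl S u M (k + 1) x - P x
    rw [(x2 k (by omega) _).1]
  -- the objects
  set s : E := Q (M i (P q)) with hs
  set a0 : ℝ := av (M i) u k - ⟪r, M i r⟫ with ha0
  set y : E := cp Q (P (M i r) + M i (P q)) - a0 • cp Q q - cp Q ((lan (M i) u k).1) with hy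
  set g : (T → E →L[ℝ] E) → E := fun G => cp P ((cp Q ∘L G i ∘L cp Q) r) -
    ⟪r, (cp Q ∘L G i ∘L cp Q) r⟫ • cp Q q with hgd
  have hg1 : ∀ G : T → E →L[ℝ] E, g G = P' (G i r) - ⟪r, G i r⟫ • q := by
    intro G
    have e1 : (cp Q ∘L G i ∘L cp Q) r = cp Q (G i r) := by
      show cp Q (G i (cp Q r)) = _
      rw [hcr]
    show cp P ((cp Q ∘L G i ∘L cp Q) r) - ⟪r, (cp Q ∘L G i ∘L cp Q) r⟫ • cp Q q = _
    rw [e1, hcPQ, hcqq, ← hcq.1.1, hcr]
  have hPsi : ∀ G : T → E →L[ℝ] E, Psi S u M k i (cp Q ∘L G i ∘L cp Q) = y + g G := by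
    intro G
    show cp Q (P (M i r) + M i (P q)) + cp P ((cp Q ∘L G i ∘L cp Q) r) -
      (⟪r, (cp Q ∘L G i ∘L cp Q) r⟫ + a0) • cp Q q - cp Q ((lan (M i) u k).1) =
      (cp Q (P (M i r) + M i (P q)) - a0 • cp Q q - cp Q ((lan (M i) u k).1)) +
      (cp P ((cp Q ∘L G i ∘L cp Q) r) - ⟪r, (cp Q ∘L G i ∘L cp Q) r⟫ • cp Q q)
    rw [add_smul]
    abel
  have hb : ∀ G : T → E →L[ℝ] E, HermF S G → bv (res P M G i) u k ^ 2 =
      ‖Q (G i r) + s‖ ^ 2 + ‖y + g G‖ ^ 2 := by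
    intro G hG
    obtain ⟨k1, -, -, -, k5, -, k7, -, -, -, -, k12⟩ := hSTK ι E T S u hu k i
    have q1 : qv (res P M G i) u k = q := k1 M G hM hG
    have q7 : qq S u (res P M G) k = Q := k7 M G hM hG
    obtain ⟨l1, -, l3, -⟩ := k12 M G hM hG _ h5
    have hM' : HermF S (res P M G) := (hKNO ι E T S u M G k hM hG).1
    have e1 := bsq hLOR hEXP hJON hSTP hu i k hM'
    rw [q7, q1, wres hSTP hSTK hKNO hEXP hJON hu i k hM hG, hPsi] at e1
    have e2 : Q (res P M G i q) = Q (G i r) + s := by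
      conv_lhs => rw [hq, ← rr_add S u M k i]
      rw [map_add, map_add]
      show Q (res P M G i r) + Q (res P M G i (P q)) = Q (G i r) + Q (M i (P q))
      rw [l1, l3]
    rw [e2] at e1
    linarith
  -- `⟪y, g⟫` is a linear functional
  set z : E := P' y - ⟪y, q⟫ • r with hz
  have hyg : ∀ G : T → E →L[ℝ] E, ⟪y, g G⟫ = ⟪z, G i r⟫ := by
    intro G
    rw [hg1, hz, inner_sub_right, real_inner_smul_right, inner_sub_left (P' y) (⟪y, q⟫ • r),
      real_inner_smul_left, hP'.1.1 y]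
    ring
  have hzn : ‖z‖ ≤ 2 * ‖y‖ := by
    have e1 : ‖P' y‖ ≤ ‖y‖ := j4 _ hP' y
    have e2 : ‖⟪y, q⟫ • r‖ ≤ ‖y‖ := by
      rw [norm_smul, Real.norm_eq_abs]
      have e3 := abs_real_inner_le_norm y q
      have e4 : ‖y‖ * ‖q‖ ≤ ‖y‖ := mul_le_of_le_one_right (norm_nonneg _) h7
      calc |⟪y, q⟫| * ‖r‖ ≤ ‖y‖ * 1 :=
            mul_le_mul (e3.trans e4) h8 (norm_nonneg _) (norm_nonneg _)
        _ = ‖y‖ := mul_one _
    calc ‖z‖ ≤ ‖P' y‖ + ‖⟪y, q⟫ • r‖ := norm_sub_le _ _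
      _ ≤ 2 * ‖y‖ := by linarith
  have hgn : ∀ G : T → E →L[ℝ] E, ‖g G‖ ^ 2 ≤ 2 * ‖P' (G i r)‖ ^ 2 + 2 * ⟪r, G i r⟫ ^ 2 := by
    intro G
    rw [hg1]
    have e1 := norm_sub_le (P' (G i r)) (⟪r, G i r⟫ • q)
    have e2 : ‖⟪r, G i r⟫ • q‖ ≤ |⟪r, G i r⟫| := by
      rw [norm_smul, Real.norm_eq_abs]
      exact mul_le_of_le_one_right (abs_nonneg _) h7
    have e3 : ‖P' (G i r) - ⟪r, G i r⟫ • q‖ ≤ ‖P' (G i r)‖ + |⟪r, G i r⟫| := by linarith
    have e4 := pow_le_pow_left₀ (norm_nonneg _) e3 2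
    have e5 : ⟪r, G i r⟫ ^ 2 = |⟪r, G i r⟫| ^ 2 := (sq_abs _).symm
    rw [e5]
    nlinarith [sq_nonneg (‖P' (G i r)‖ - |⟪r, G i r⟫|)]
  -- measurability and growth
  have mP'G : Measurable fun G : T → E →L[ℝ] E => P' (G i r) := meas_Q P' i r
  have mrG : Measurable fun G : T → E →L[ℝ] E => ⟪r, G i r⟫ := lin_meas i r r
  have mg : Measurable g := by
    have : g = fun G : T → E →L[ℝ] E => P' (G i r) - ⟪r, G i r⟫ • q := funext hg1
    rw [this]
    exact mP'G.sub (mrG.smul_const q)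
  have pP' : PB ν (fun G : T → E →L[ℝ] E => ‖P' (G i r)‖) := pb_Q P' i r
  have prG : PB ν (fun G : T → E →L[ℝ] E => ⟪r, G i r⟫) := by
    refine PB.mono ((PB.nrm i).mul (PB.const (‖r‖ * ‖r‖))) (Eventually.of_forall fun G => ?_)
    refine (abs_real_inner_le_norm _ _).trans (le_trans ?_ (le_abs_self _))
    calc ‖r‖ * ‖G i r‖ ≤ ‖r‖ * (‖G i‖ * ‖r‖) :=
          mul_le_mul_of_nonneg_left ((G i).le_opNorm r) (norm_nonneg _)
      _ = _ := by ring
  have pg2 : PB ν (fun G => ‖g G‖ ^ 2) := by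
    refine PB.mono (((PB.const 2).mul (pP'.pow 2)).add ((PB.const 2).mul (prG.pow 2)))
      (Eventually.of_forall fun G => ?_)
    rw [abs_of_nonneg (sq_nonneg _)]
    exact (hgn G).trans (le_abs_self _)
  have ig2 : Integrable (fun G => ‖g G‖ ^ 2) ν := pg2.integrable hPIN hg (mg.norm.pow_const 2)
  have iP2 : Integrable (fun G : T → E →L[ℝ] E => ‖P' (G i r)‖ ^ 2) ν :=
    (pP'.pow 2).integrable hPIN hg (mP'G.norm.pow_const 2)
  have ir2 : Integrable (fun G : T → E →L[ℝ] E => ⟪r, G i r⟫ ^ 2) ν :=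
    (prG.pow 2).integrable hPIN hg (mrG.pow_const 2)
  have pzG : PB ν (fun G : T → E →L[ℝ] E => ⟪z, G i r⟫) := by
    refine PB.mono ((PB.nrm i).mul (PB.const (‖z‖ * ‖r‖))) (Eventually.of_forall fun G => ?_)
    refine (abs_real_inner_le_norm _ _).trans (le_trans ?_ (le_abs_self _))
    calc ‖z‖ * ‖G i r‖ ≤ ‖z‖ * (‖G i‖ * ‖r‖) :=
          mul_le_mul_of_nonneg_left ((G i).le_opNorm r) (norm_nonneg _)
      _ = _ := by ring
  have izG : Integrable (fun G : T → E →L[ℝ] E => ⟪z, G i r⟫) ν :=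
    pzG.integrable hPIN hg (lin_meas i z r)
  set γ : ℝ := ∫ G, ‖g G‖ ^ 2 ∂ν with hγ
  have hγ0 : 0 ≤ γ := integral_nonneg fun G => sq_nonneg _
  have hγC : γ ≤ 4 * β * (N0 + 1) := by
    have e1 : γ ≤ ∫ G, (2 * ‖P' (G i r)‖ ^ 2 + 2 * ⟪r, G i r⟫ ^ 2) ∂ν :=
      integral_mono ig2 ((iP2.const_mul 2).add (ir2.const_mul 2)) hgn
    rw [integral_add (iP2.const_mul 2) (ir2.const_mul 2), integral_const_mul,
      integral_const_mul] at e1
    have e2 := proj_sq hGLF hGMO hPIN hg hc i P' hP' r h8 N0 htr'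
    have e3 := lin_sq hGLF hGMO hg hc i r r
    have e4 : ‖r‖ ^ 2 * ‖r‖ ^ 2 ≤ 1 := by
      have : ‖r‖ ^ 2 ≤ 1 := pow_le_one₀ (norm_nonneg _) h8
      exact mul_le_one₀ this (sq_nonneg _) this
    have e5 : 2 * β * (‖r‖ ^ 2 * ‖r‖ ^ 2) ≤ 2 * β := by nlinarith
    have e6 : ∫ G, ⟪r, G i r⟫ ^ 2 ∂ν ≤ 2 * β := e3.trans e5
    have e7 : ∫ G, ‖P' (G i r)‖ ^ 2 ∂ν ≤ 2 * β * N0 := e2
    nlinarith
  -- the conditional mean
  have hzb : zb S u ν M k i + nk ι E k = tr Q * ‖r‖ ^ 2 + ‖s‖ ^ 2 + ‖y‖ ^ 2 + γ := by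
    have pQ : PB ν (fun G : T → E →L[ℝ] E => ‖Q (G i r) + s‖) := by
      refine PB.mono ((pb_Q Q i r).add (PB.const ‖s‖)) (Eventually.of_forall fun G => ?_)
      rw [abs_of_nonneg (norm_nonneg _)]
      exact (norm_add_le _ _).trans (le_abs_self _)
    have mQ : Measurable fun G : T → E →L[ℝ] E => Q (G i r) + s := (meas_Q Q i r).add_const s
    have iQ : Integrable (fun G : T → E →L[ℝ] E => ‖Q (G i r) + s‖ ^ 2) ν :=
      (pQ.pow 2).integrable hPIN hg (mQ.norm.pow_const 2)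
    have e1 : zb S u ν M k i = ∫ G, (‖Q (G i r) + s‖ ^ 2 +
        (‖y‖ ^ 2 + 2 * ⟪z, G i r⟫ + ‖g G‖ ^ 2) - nk ι E k) ∂ν := by
      unfold zb
      refine integral_congr_ae (hg.herm.mono fun G hG => ?_)
      show bv (res P M G i) u k ^ 2 - nk ι E k = _
      rw [hb G hG, norm_add_sq_real y (g G), hyg]
    have i1 : Integrable (fun G : T → E →L[ℝ] E => ‖y‖ ^ 2 + 2 * ⟪z, G i r⟫) ν :=
      (integrable_const _).add (izG.const_mul 2)
    have i2 : Integrable (fun G : T → E →L[ℝ] E => ‖y‖ ^ 2 + 2 * ⟪z, G i r⟫ + ‖g G‖ ^ 2) ν :=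
      i1.add ig2
    have i3 : Integrable (fun G : T → E →L[ℝ] E => ‖Q (G i r) + s‖ ^ 2 +
        (‖y‖ ^ 2 + 2 * ⟪z, G i r⟫ + ‖g G‖ ^ 2)) ν := iQ.add i2
    obtain ⟨-, -, -, g4, -⟩ := hGI1 ι E T S c ν hg hc Q h12 i i r r h2 h2
    rw [e1, integral_sub i3 (integrable_const _), integral_add iQ i2, integral_add i1 ig2,
      integral_add (integrable_const _) (izG.const_mul 2), integral_const_mul, hg.mean, g4]
    simp only [integral_const, probReal_univ, smul_eq_mul, one_mul, mul_zero, add_zero]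
    ring
  refine ⟨s, y, g, γ, h12.2 _, hγ0, ?_, ?_, ?_, ?_, ?_, ?_⟩
  · rw [hC]
    linarith
  · linarith
  · intro x hx
    by_cases hy0 : ‖y‖ = 0
    · rw [hy0]
      refine prob_le_one.trans ?_
      rw [← ENNReal.ofReal_one]
      apply ENNReal.ofReal_le_ofReal
      norm_num
    · have hyp : 0 < ‖y‖ := lt_of_le_of_ne (norm_nonneg _) (Ne.symm hy0)
      simp only [hyg]
      have e1 := lin_tail hGLF hg hc i z r (8 * β * ‖y‖ ^ 2) (by positivity)
        (by
          have e2 : ‖z‖ ^ 2 ≤ (2 * ‖y‖) ^ 2 := pow_le_pow_left₀ (norm_nonneg _) hzn 2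
          have e3 : ‖r‖ ^ 2 ≤ 1 := pow_le_one₀ (norm_nonneg _) h8
          have e4 : ‖z‖ ^ 2 * ‖r‖ ^ 2 ≤ (2 * ‖y‖) ^ 2 * 1 :=
            mul_le_mul e2 e3 (sq_nonneg _) (sq_nonneg _)
          have e5 : 2 * β * (‖z‖ ^ 2 * ‖r‖ ^ 2) ≤ 2 * β * ((2 * ‖y‖) ^ 2 * 1) :=
            mul_le_mul_of_nonneg_left e4 (by positivity)
          refine e5.trans_eq ?_
          ring) x hx
      refine e1.trans (ENNReal.ofReal_le_ofReal ?_)
      apply mul_le_mul_of_nonneg_left _ (by norm_num)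
      apply Real.exp_le_exp.mpr
      have e2 : x ^ 2 / (C * ‖y‖ ^ 2) ≤ x ^ 2 / (2 * (8 * β * ‖y‖ ^ 2)) := by
        apply div_le_div_of_nonneg_left (by positivity) (by positivity)
        have e3 : 16 * β ≤ C := by rw [hC]; nlinarith
        have e4 := mul_le_mul_of_nonneg_right e3 (sq_nonneg ‖y‖)
        linarith
      linarith
  · intro x hx
    have hx4 : 0 < x / 4 := by positivity
    have e1 := proj_tail hGLF hg hc i P' hP' r h8 N0 hN1 htr' (x / 4) hx4
    have e2 := lin_tail hGLF hg hc i r r (2 * β) (by positivity)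
      (by
        have e3 : ‖r‖ ^ 2 * ‖r‖ ^ 2 ≤ 1 := by
          have : ‖r‖ ^ 2 ≤ 1 := pow_le_one₀ (norm_nonneg _) h8
          exact mul_le_one₀ this (sq_nonneg _) this
        show 2 * β * (‖r‖ ^ 2 * ‖r‖ ^ 2) ≤ 2 * β
        nlinarith) (Real.sqrt (x / 4)) (Real.sqrt_pos.2 hx4)
    rw [Real.sq_sqrt hx4.le] at e2
    have hsub : {G | x < ‖g G‖ ^ 2} ⊆ {G : T → E →L[ℝ] E | x / 4 < ‖P' (G i r)‖ ^ 2} ∪
        {G | Real.sqrt (x / 4) < |⟪r, G i r⟫|} := by
      intro G hG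
      have hG' : x < ‖g G‖ ^ 2 := hG
      by_contra hcon
      simp only [Set.mem_union, Set.mem_ofPred_eq, not_or, not_lt] at hcon
      obtain ⟨c1, c2⟩ := hcon
      have c3 : ⟪r, G i r⟫ ^ 2 ≤ x / 4 := by
        rw [← sq_abs, ← Real.sq_sqrt hx4.le]
        exact pow_le_pow_left₀ (abs_nonneg _) c2 2
      have := hgn G
      linarith
    refine (measure_mono hsub).trans ((measure_union_le _ _).trans ((add_le_add e1 e2).trans ?_))
    rw [← ENNReal.ofReal_add (by positivity) (by positivity)]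
    apply ENNReal.ofReal_le_ofReal
    have f1 : Real.exp (-(x / 4 / (4 * β * N0))) ≤ Real.exp (-(x / C)) := by
      apply Real.exp_le_exp.mpr
      have f2 : x / C ≤ x / (16 * β * N0) := by
        apply div_le_div_of_nonneg_left (by positivity) (by positivity)
        rw [hC]
        nlinarith
      have f3 : x / 4 / (4 * β * N0) = x / (16 * β * N0) := by
        rw [div_div]
        congr 1
        ring
      linarith
    have f4 : Real.exp (-(x / 4 / (2 * (2 * β)))) ≤ Real.exp (-(x / C)) := by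
      apply Real.exp_le_exp.mpr
      have f2 : x / C ≤ x / (16 * β) := by
        apply div_le_div_of_nonneg_left (by positivity) (by positivity)
        rw [hC]
        nlinarith
      have f3 : x / 4 / (2 * (2 * β)) = x / (16 * β) := by
        rw [div_div]
        congr 1
        ring
      linarith
    have f5 : 0 < Real.exp (-(x / C)) := Real.exp_pos _
    have f6 : 2 * N0 * Real.exp (-(x / 4 / (4 * β * N0))) ≤ 2 * N0 * Real.exp (-(x / C)) :=
      mul_le_mul_of_nonneg_left f1 (by positivity)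
    have f7 : (2 * N0 + 2) * Real.exp (-(x / C)) ≤ C * Real.exp (-(x / C)) := by
      apply mul_le_mul_of_nonneg_right _ f5.le
      rw [hC]
      nlinarith
    linarith
  · have hi := (hIND ι E T S c ν hg Q h12).symm
    have m1 : Measurable fun Z : T → E →L[ℝ] E => Z i r :=
      meas_apply (measurable_pi_apply i) measurable_const
    have m2 : Measurable fun Z : T → E →L[ℝ] E => cp P (Z i r) - ⟪r, Z i r⟫ • cp Q q :=
      ((cp P).measurable.comp m1).sub ((measurable_const.inner m1).smul_const _)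
    have hcomp := hi.comp m1 m2
    have e1 : (fun Z : T → E →L[ℝ] E => Z i r) ∘
        (fun G : T → E →L[ℝ] E => fun i => Q ∘L G i ∘L cp Q) = fun G => Q (G i r) := by
      funext G
      show Q (G i (cp Q r)) = _
      rw [hcr]
    rw [e1] at hcomp
    exact hcomp
  · filter_upwards [hg.herm] with G hG
    rw [hb G hG, norm_add_sq_real, norm_add_sq_real]
    linarith

end Pool.Agent.Lib.MP17fa2c
end
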