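import Pool.Agent.Lib.MP_17fa2c_pr.TD.SpecM
import Pool.Agent.Lib.MP_17fa2c_pr.TD.SpecL

section
/-!
# MP_17fa2c_pr, module MDF: measurability of derivatives
-/
set_option autoImplicit false

open MeasureTheory ProbabilityTheory Filter Topology
open scoped RealInnerProductSpace NNReal ENNReal

namespace Pool.Agent.Lib.MP17fa2c

theorem specMDF : SpecMDF := by
  intro E _ _ _ F
  have h1 : Measurable (fderiv ℝ F) := measurable_fderiv ℝ F
  have h2 : Continuous fun p : ((E →L[ℝ] E) →L[ℝ] ℝ) × (E →L[ℝ] E) => p.1 p.2 :=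
    isBoundedBilinearMap_apply.continuous
  exact h2.measurable.comp ((h1.comp measurable_fst).prodMk measurable_snd)

end Pool.Agent.Lib.MP17fa2c
end

section
/-!
# MP_17fa2c_pr, module MGC: exponential moments of `χ²`
-/
set_option autoImplicit false

open MeasureTheory ProbabilityTheory Filter Topology
open scoped RealInnerProductSpace NNReal ENNReal

namespace Pool.Agent.Lib.MP17fa2c

namespace MGCM

/-- product formula for the lower Lebesgue integral on a power -/
lemma lint_pi {N : ℕ} (μ : Measure ℝ) [IsProbabilityMeasure μ] (f : ℝ → ℝ≥0∞)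
    (hf : Measurable f) :
    ∫⁻ x : Fin N → ℝ, ∏ i, f (x i) ∂(Measure.pi fun _ => μ) = (∫⁻ x, f x ∂μ) ^ N := by
  have h1 : iIndepFun (fun (i : Fin N) (ω : Fin N → ℝ) => f (ω i)) (Measure.pi fun _ => μ) :=
    iIndepFun_pi (fun _ => hf.aemeasurable)
  rw [lintegral_prod_eq_prod_lintegral_of_indepFun Finset.univ _ h1
    (fun i => hf.comp (measurable_pi_apply i))]
  have h2 : ∀ i : Fin N, ∫⁻ ω : Fin N → ℝ, f (ω i) ∂(Measure.pi fun _ => μ) =
      ∫⁻ x, f x ∂μ := fun i =>
    (measurePreserving_eval (fun _ : Fin N => μ) i).lintegral_comp hf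
  rw [Finset.prod_congr rfl fun i _ => h2 i, Finset.prod_const, Finset.card_univ, Fintype.card_fin]

/-- one-dimensional exponential moments -/
lemma one (θ : ℝ) (hθ : θ < 1 / 2) :
    ∫⁻ x, ENNReal.ofReal (Real.exp (θ * x ^ 2)) ∂(gaussianReal 0 1) =
      ENNReal.ofReal ((1 - 2 * θ) ^ (-(1 : ℝ) / 2)) := by
  have hpos : 0 < 1 / 2 - θ := by linarith
  have hm : Measurable fun x : ℝ => ENNReal.ofReal (Real.exp (θ * x ^ 2)) := by fun_prop
  rw [gaussianReal_of_var_ne_zero _ one_ne_zero,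
    lintegral_withDensity_eq_lintegral_mul _ (measurable_gaussianPDF 0 1) hm]
  have h1 : ∀ x : ℝ, (gaussianPDF 0 1 * fun x => ENNReal.ofReal (Real.exp (θ * x ^ 2))) x =
      ENNReal.ofReal ((Real.sqrt (2 * Real.pi))⁻¹ * Real.exp (-(1 / 2 - θ) * x ^ 2)) := by
    intro x
    rw [Pi.mul_apply, gaussianPDF, ← ENNReal.ofReal_mul (gaussianPDFReal_nonneg _ _ _),
      gaussianPDFReal]
    congr 1
    rw [mul_assoc, ← Real.exp_add]
    congr 2
    · simp
    · simp only [NNReal.coe_one]
      ring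
  rw [lintegral_congr h1, ← ofReal_integral_eq_lintegral_ofReal
    ((integrable_exp_neg_mul_sq hpos).const_mul _)
    (Eventually.of_forall fun x => by positivity), integral_const_mul, integral_gaussian]
  congr 1
  have h2 : Real.pi / (1 / 2 - θ) = 2 * Real.pi * (1 - 2 * θ)⁻¹ := by
    have : (1 - 2 * θ) ≠ 0 := by linarith
    have : (1 / 2 - θ) ≠ 0 := by linarith
    field_simp
  have h3 : 0 ≤ 1 - 2 * θ := by linarith
  have h4 : Real.sqrt (2 * Real.pi * (1 - 2 * θ)⁻¹) =
      Real.sqrt (2 * Real.pi) * Real.sqrt (1 - 2 * θ)⁻¹ := Real.sqrt_mul (by positivity) _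
  have h5 : Real.sqrt (2 * Real.pi) ≠ 0 := by positivity
  rw [h2, h4, ← mul_assoc, inv_mul_cancel₀ h5, one_mul,
    Real.sqrt_eq_rpow, Real.inv_rpow h3, ← Real.rpow_neg h3]
  congr 1
  ring

end MGCM

open MGCM in
theorem specMGC : SpecMGC := by
  intro N θ hθ
  have hpos : 0 < 1 - 2 * θ := by linarith
  have hm : Measurable fun x : ℝ => ENNReal.ofReal (Real.exp (θ * x ^ 2)) := by fun_prop
  rw [chi, lintegral_map hm (by fun_prop), ← map_pi_eq_stdGaussian, lintegral_map (by fun_prop)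
    (by fun_prop)]
  have h1 : ∀ x : Fin N → ℝ, ENNReal.ofReal (Real.exp (θ * ‖WithLp.toLp 2 x‖ ^ 2)) =
      ∏ i, ENNReal.ofReal (Real.exp (θ * x i ^ 2)) := by
    intro x
    rw [EuclideanSpace.real_norm_sq_eq, Finset.mul_sum, Real.exp_sum,
      ENNReal.ofReal_prod_of_nonneg fun i _ => (Real.exp_pos _).le]
  rw [lintegral_congr h1, lint_pi _ _ hm, one θ hθ, ← ENNReal.ofReal_pow (by positivity),
    ← Real.rpow_natCast, ← Real.rpow_mul hpos.le]
  congr 2
  ring

end Pool.Agent.Lib.MP17fa2c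
end

section
/-!
# Row 233, QFX (helper70): exponential moments of quadratic forms of a standard Gaussian vector
-/
set_option autoImplicit false

open MeasureTheory ProbabilityTheory Filter Topology
open scoped RealInnerProductSpace NNReal ENNReal BoundedContinuousFunction

namespace Pool.Agent.Lib.MP17fa2c

namespace QFXM

theorem exp_le (y : ℝ) (h1 : -(1 / 2) ≤ y) (h2 : y ≤ 1 / 2) :
    Real.exp (-(y + y ^ 2)) ≤ 1 - y := by
  rcases le_total 0 y with h0 | h0
  · have hs : 0 ≤ y + y ^ 2 := by positivity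
    have hq := Real.quadratic_le_exp_of_nonneg hs
    rw [Real.exp_neg]
    have hpos : 0 < 1 + (y + y ^ 2) + (y + y ^ 2) ^ 2 / 2 := by positivity
    refine (inv_anti₀ hpos hq).trans ?_
    rw [inv_le_iff_one_le_mul₀ hpos]
    have h3 : 0 ≤ 1 - y - y ^ 2 - y ^ 3 := by nlinarith [mul_nonneg h0 h0, mul_nonneg (mul_nonneg h0 h0) h0]
    have h4 : 0 ≤ y ^ 2 * (1 - y - y ^ 2 - y ^ 3) := mul_nonneg (sq_nonneg _) h3
    nlinarith
  · obtain ⟨z, hz⟩ : ∃ z : ℝ, z = -y := ⟨_, rfl⟩
    have hz0 : 0 ≤ z := by linarith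
    have hy : y = -z := by linarith
    have hl := Real.le_log_one_add_of_nonneg hz0
    have h3 : z - z ^ 2 ≤ Real.log (1 + z) := by
      refine le_trans ?_ hl
      rw [le_div_iff₀ (by linarith)]
      nlinarith [mul_nonneg hz0 hz0, mul_nonneg (mul_nonneg hz0 hz0) hz0]
    have h4 : Real.exp (z - z ^ 2) ≤ 1 + z := by
      calc Real.exp (z - z ^ 2) ≤ Real.exp (Real.log (1 + z)) := Real.exp_le_exp.2 h3
        _ = 1 + z := Real.exp_log (by linarith)
    have e1 : -(y + y ^ 2) = z - z ^ 2 := by rw [hy]; ring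
    rw [e1, hy]
    linarith

theorem one_dim (l : ℝ) (h : |l| ≤ 1 / 4) :
    Real.exp (-l) * (1 - 2 * l) ^ (-(1 : ℝ) / 2) ≤ Real.exp (2 * l ^ 2) := by
  obtain ⟨h1, h2⟩ := abs_le.1 h
  have hpos : 0 < 1 - 2 * l := by linarith
  rw [Real.rpow_def_of_pos hpos, ← Real.exp_add]
  apply Real.exp_le_exp.2
  have h3 := exp_le (2 * l) (by linarith) (by linarith)
  have h4 := (Real.le_log_iff_exp_le hpos).2 h3
  linarith

theorem one_int (l : ℝ) (h : |l| ≤ 1 / 4) :
    ∫⁻ z, ENNReal.ofReal (Real.exp (l * (z ^ 2 - 1))) ∂(gaussianReal 0 1) ≤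
      ENNReal.ofReal (Real.exp (2 * l ^ 2)) := by
  obtain ⟨h1, h2⟩ := abs_le.1 h
  have e : ∀ z : ℝ, ENNReal.ofReal (Real.exp (l * (z ^ 2 - 1))) =
      ENNReal.ofReal (Real.exp (-l)) * ENNReal.ofReal (Real.exp (l * z ^ 2)) := by
    intro z
    rw [← ENNReal.ofReal_mul (Real.exp_pos _).le, ← Real.exp_add]
    congr 2
    ring
  rw [lintegral_congr e, lintegral_const_mul _ (by fun_prop), MGCM.one l (by linarith),
    ← ENNReal.ofReal_mul (Real.exp_pos _).le]
  exact ENNReal.ofReal_le_ofReal (one_dim l h)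

theorem lint_pi {N : ℕ} (μ : Measure ℝ) [IsProbabilityMeasure μ] (f : Fin N → ℝ → ℝ≥0∞)
    (hf : ∀ i, Measurable (f i)) :
    ∫⁻ x : Fin N → ℝ, ∏ i, f i (x i) ∂(Measure.pi fun _ => μ) = ∏ i, ∫⁻ x, f i x ∂μ := by
  have h1 : iIndepFun (fun (i : Fin N) (ω : Fin N → ℝ) => f i (ω i)) (Measure.pi fun _ => μ) :=
    iIndepFun_pi (fun i => (hf i).aemeasurable)
  rw [lintegral_prod_eq_prod_lintegral_of_indepFun Finset.univ _ h1
    (fun i => (hf i).comp (measurable_pi_apply i))]
  exact Finset.prod_congr rfl fun i _ =>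
    (measurePreserving_eval (fun _ : Fin N => μ) i).lintegral_comp (hf i)

end QFXM

open QFXM in
theorem specQFX : SpecQFX := by
  intro F _ _ _ _ _ B hB hnorm
  have hsym : (B : F →ₗ[ℝ] F).IsSymmetric := hB
  obtain ⟨n, hn⟩ : ∃ n, n = Module.finrank ℝ F := ⟨_, rfl⟩
  obtain ⟨b, l, hBb⟩ : ∃ (b : OrthonormalBasis (Fin n) ℝ F) (l : Fin n → ℝ),
      ∀ i, B (b i) = l i • b i :=
    ⟨hsym.eigenvectorBasis hn.symm, hsym.eigenvalues hn.symm,
      fun i => hsym.apply_eigenvectorBasis hn.symm i⟩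
  have hon := b.orthonormal
  have hinn : ∀ i, ⟪b i, b i⟫ = (1 : ℝ) := by
    intro i
    rw [real_inner_self_eq_norm_sq, hon.norm_eq_one]
    norm_num
  have htr : tr B = ∑ i, l i := by
    unfold tr
    rw [LinearMap.trace_eq_sum_inner _ b]
    refine Finset.sum_congr rfl fun i _ => ?_
    show ⟪b i, B (b i)⟫ = l i
    rw [hBb, real_inner_smul_right, hinn, mul_one]
  have htr2 : tr (B ∘L B) = ∑ i, l i ^ 2 := by
    unfold tr
    rw [LinearMap.trace_eq_sum_inner _ b]
    refine Finset.sum_congr rfl fun i _ => ?_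
    show ⟪b i, B (B (b i))⟫ = l i ^ 2
    rw [hBb, map_smul, hBb, real_inner_smul_right, real_inner_smul_right, hinn]
    ring
  have hform : ∀ x : Fin n → ℝ, ⟪∑ i, x i • b i, B (∑ i, x i • b i)⟫ - tr B =
      ∑ i, l i * ((x i) ^ 2 - 1) := by
    intro x
    have h1 : B (∑ i, x i • b i) = ∑ i, (x i * l i) • b i := by
      rw [map_sum]
      refine Finset.sum_congr rfl fun i _ => ?_
      rw [map_smul, hBb, smul_smul]
    rw [h1, hon.inner_sum, htr, ← Finset.sum_sub_distrib]
    refine Finset.sum_congr rfl fun i _ => ?_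
    simp only [conj_trivial]
    ring
  have hl : ∀ i, |l i| ≤ 1 / 4 := by
    intro i
    have h := B.le_opNorm (b i)
    rw [hBb, norm_smul, hon.norm_eq_one, mul_one, mul_one, Real.norm_eq_abs] at h
    exact h.trans hnorm
  rw [stdGaussian_eq_map_pi_orthonormalBasis b, lintegral_map (by fun_prop) (by fun_prop)]
  have h1 : ∀ x : Fin n → ℝ, ENNReal.ofReal (Real.exp
      (⟪∑ i, x i • b i, B (∑ i, x i • b i)⟫ - tr B)) =
      ∏ i, ENNReal.ofReal (Real.exp (l i * ((x i) ^ 2 - 1))) := by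
    intro x
    rw [hform, Real.exp_sum, ENNReal.ofReal_prod_of_nonneg fun i _ => (Real.exp_pos _).le]
  rw [lintegral_congr h1, lint_pi _ (fun i z => ENNReal.ofReal (Real.exp (l i * (z ^ 2 - 1))))
    (fun i => by fun_prop), htr2, Finset.mul_sum, Real.exp_sum,
    ENNReal.ofReal_prod_of_nonneg fun i _ => (Real.exp_pos _).le]
  exact Finset.prod_le_prod' fun i _ => one_int (l i) (hl i)

end Pool.Agent.Lib.MP17fa2c
end

section
/-!
# MP_17fa2c_pr, block L, module ZLO: lower tail of `‖R_k^0 + R_k^1‖²`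
-/
set_option autoImplicit false

open MeasureTheory ProbabilityTheory Filter Topology
open scoped RealInnerProductSpace NNReal ENNReal BoundedContinuousFunction

namespace Pool.Agent.Lib.MP17fa2c

namespace ZLOM

/-- the numerical inequality of one step -/
lemma num (s D N γ δ z σ2 : ℝ) (hs : 0 ≤ s) (hD : 0 < D) (hγ : 0 ≤ γ) (hN1 : γ * D ≤ N)
    (hN2 : N ≤ D) (hσ0 : 0 ≤ σ2) (hσ : σ2 ≤ 12) (hz : δ * z ≤ σ2) :
    (1 + 2 * (s / D) * σ2) ^ (-N / 2) ≤
      Real.exp (144 * s ^ 2 / D) * Real.exp (-(s * γ * δ) * z) := by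
  set y := 2 * (s / D) * σ2 with hy
  have hy0 : 0 ≤ y := by positivity
  have hN0 : 0 ≤ N := le_trans (by positivity) hN1
  have hlog : y - y ^ 2 / 2 ≤ Real.log (1 + y) := by
    refine le_trans ?_ (Real.le_log_one_add_of_nonneg hy0)
    rw [le_div_iff₀ (by linarith)]
    nlinarith [pow_nonneg hy0 3]
  rw [Real.rpow_def_of_pos (by linarith), ← Real.exp_add]
  apply Real.exp_le_exp.mpr
  have h1 : Real.log (1 + y) * (-N / 2) ≤ (y - y ^ 2 / 2) * (-N / 2) := by
    apply mul_le_mul_of_nonpos_right hlog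
    linarith
  refine h1.trans ?_
  have e1 : (y - y ^ 2 / 2) * (-N / 2) = -(N / D) * (s * σ2) + (N / D) * (s ^ 2 * σ2 ^ 2 / D) := by
    rw [hy]
    field_simp
    ring
  rw [e1]
  have h2 : γ ≤ N / D := by rwa [le_div_iff₀ hD]
  have h3 : N / D ≤ 1 := by rw [div_le_one hD]; exact hN2
  have h4 : γ * (s * σ2) ≤ (N / D) * (s * σ2) := mul_le_mul_of_nonneg_right h2 (by positivity)
  have h5 : (N / D) * (s ^ 2 * σ2 ^ 2 / D) ≤ 1 * (s ^ 2 * σ2 ^ 2 / D) :=
    mul_le_mul_of_nonneg_right h3 (by positivity)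
  have h6 : s ^ 2 * σ2 ^ 2 / D ≤ 144 * s ^ 2 / D := by
    apply div_le_div_of_nonneg_right _ hD.le
    have : σ2 ^ 2 ≤ 144 := by nlinarith
    nlinarith [sq_nonneg s]
  have h7 : s * γ * (δ * z) ≤ s * γ * σ2 := mul_le_mul_of_nonneg_left hz (by positivity)
  nlinarith

/-- the sum of the residuals -/
noncomputable def zz {ι : Type} [Fintype ι] [DecidableEq ι]
    {E : Type} [NormedAddCommGroup E] [InnerProductSpace ℝ E] (S : BStr ι E) (u : E)
    (j : ℕ) (M : Fin 2 → E →L[ℝ] E) : E := rh S u M j 0 + rh S u M j 1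

/-- the good event -/
def gd {E : Type} [NormedAddCommGroup E] [InnerProductSpace ℝ E] (u : E)
    (j : ℕ) (M : Fin 2 → E →L[ℝ] E) : Prop := ∀ j' ≤ j, ∀ i, rho (M i) u j' ^ 2 ≤ 3

open scoped Classical in
/-- the integrand -/
noncomputable def FF {ι : Type} [Fintype ι] [DecidableEq ι]
    {E : Type} [NormedAddCommGroup E] [InnerProductSpace ℝ E] (S : BStr ι E) (u : E)
    (j j' : ℕ) (s : ℝ) (M : Fin 2 → E →L[ℝ] E) : ℝ≥0∞ :=
  if gd u j M then ENNReal.ofReal (Real.exp (-s * ‖zz S u j' M‖ ^ 2)) else 0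

section

variable {ι : Type} [Fintype ι] [DecidableEq ι]
  {E : Type} [NormedAddCommGroup E] [InnerProductSpace ℝ E] [FiniteDimensional ℝ E]

lemma meas_gd (hMEA : SpecMEA) (S : BStr ι E) (u : E) (j : ℕ) :
    MeasurableSet {M : Fin 2 → E →L[ℝ] E | gd u j M} := by
  let _ : MeasurableSpace E := borel E
  have _ : BorelSpace E := ⟨rfl⟩
  have h : {M : Fin 2 → E →L[ℝ] E | gd u j M} =
      ⋂ j' : ℕ, ⋂ (_ : j' ≤ j), ⋂ i : Fin 2, {M | rho (M i) u j' ^ 2 ≤ 3} := by
    ext M
    simp [gd]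
  rw [h]
  refine MeasurableSet.iInter fun j' => MeasurableSet.iInter fun _ => MeasurableSet.iInter fun i => ?_
  obtain ⟨-, -, -, -, h5, -⟩ := hMEA ι E (Fin 2) S u j'
  exact measurableSet_le ((h5 i).pow_const 2) measurable_const

lemma meas_zz (hMEB : SpecMEB) (S : BStr ι E) (u : E) (j : ℕ) :
    Measurable fun M : Fin 2 → E →L[ℝ] E => ‖zz S u j M‖ ^ 2 := by
  let _ : MeasurableSpace E := borel E
  have _ : BorelSpace E := ⟨rfl⟩
  obtain ⟨-, -, h0, -⟩ := hMEB ι E (Fin 2) S u j 0
  obtain ⟨-, -, h1, -⟩ := hMEB ι E (Fin 2) S u j 1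
  exact ((h0.add h1).norm).pow_const 2

lemma meas_FF (hMEA : SpecMEA) (hMEB : SpecMEB) (S : BStr ι E) (u : E) (j j' : ℕ) (s : ℝ) :
    Measurable (FF S u j j' s) := by
  classical
  unfold FF
  exact Measurable.ite (meas_gd hMEA S u j)
    ((((meas_zz hMEB S u j').const_mul _).exp).ennreal_ofReal) measurable_const

lemma rho_res (hKNO : SpecKNO) (S : BStr ι E) (u : E) (M G : Fin 2 → E →L[ℝ] E)
    (hM : HermF S M) (hG : HermF S G) (j j' : ℕ) (hj : j' ≤ j) (i : Fin 2) :
    rho (res (expl S u M j) M G i) u j' = rho (M i) u j' := by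
  obtain ⟨-, -, -, -, h5⟩ := hKNO ι E (Fin 2) S u M G j hM hG
  unfold rho
  refine Finset.prod_congr rfl fun l hl => ?_
  rw [(h5 l (lt_of_lt_of_le (Finset.mem_range.mp hl) hj) i).2]

lemma step (hRPE : SpecRPE) (hNCM : SpecNCM) (hSTP : SpecSTP) (hSTK : SpecSTK) (hKNO : SpecKNO)
    (hMEA : SpecMEA) (hMEB : SpecMEB) (S : BStr ι E) (u : E) (τ : ℝ)
    (μ : Measure (Fin 2 → E →L[ℝ] E)) (hτ : 0 ≤ τ) (hμ : GFam S (c2 (Real.exp (-τ))) μ)
    (hu : ‖u‖ = 1) (j : ℕ) (s : ℝ) (hs : 0 ≤ s) (hD : 0 < dm E)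
    (hj : 2 * Fintype.card ι * ((j : ℝ) + 1) ≤ dm E) :
    ∫⁻ M, FF S u (j + 1) (j + 1) s M ∂μ ≤ ENNReal.ofReal (Real.exp (144 * s ^ 2 / dm E)) *
      ∫⁻ M, FF S u j j (s * (1 - 2 * Fintype.card ι * ((j : ℝ) + 1) / dm E) *
        ((1 + Real.exp (-τ)) / 2)) M ∂μ := by
  set c := Real.exp (-τ) with hc
  have hc0 : 0 < c := Real.exp_pos _
  have hc1 : c ≤ 1 := by rw [hc]; exact Real.exp_le_one_iff.mpr (by linarith)
  set γ := 1 - 2 * Fintype.card ι * ((j : ℝ) + 1) / dm E with hγ
  have hγ0 : 0 ≤ γ := by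
    rw [hγ, sub_nonneg, div_le_one hD]
    exact hj
  set δ := (1 + c) / 2 with hδ
  rw [← lintegral_const_mul' _ _ ENNReal.ofReal_ne_top]
  calc ∫⁻ M, FF S u (j + 1) (j + 1) s M ∂μ ≤ ∫⁻ M, FF S u j (j + 1) s M ∂μ := by
        refine lintegral_mono fun M => ?_
        unfold FF
        by_cases h : gd u (j + 1) M
        · have h' : gd u j M := fun j' hj' i => h j' (by omega) i
          rw [if_pos h, if_pos h']
        · rw [if_neg h]
          exact zero_le
    _ = ∫⁻ M, ∫⁻ G, FF S u j (j + 1) s (res (expl S u M j) M G) ∂μ ∂μ :=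
        hRPE ι E (Fin 2) S _ μ u hμ j _ (meas_FF hMEA hMEB S u j (j + 1) s)
    _ ≤ ∫⁻ M, ENNReal.ofReal (Real.exp (144 * s ^ 2 / dm E)) * FF S u j j (s * γ * δ) M ∂μ := by
        refine lintegral_mono_ae ?_
        filter_upwards [hμ.herm] with M hM
        by_cases hg : gd u j M
        · -- good
          have hstp := hSTP ι E (Fin 2) S u M hM hu j
          set Q := qq S u M j with hQ
          set r : Fin 2 → E := fun i => rh S u M j i with hr
          set sv' := sv S u M j 0 + sv S u M j 1 with hsv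
          have hQp : IsPr S Q := (hstp 0).2.2.2.2.2.2.2.2.2.2.2.1
          have hQr : ∀ i, Q (r i) = 0 := fun i => (hstp i).2.2.1
          have hrn : ∀ i, ‖r i‖ ≤ rho (M i) u j := fun i => (hstp i).2.2.2.2.2.2.2.2.2.1
          have hρ0 : ∀ i, 0 ≤ rho (M i) u j := fun i => (hstp i).2.2.2.2.2.2.2.2.1
          have htr1 : dm E - Fintype.card ι * Fintype.card (Fin 2) * (j + 1) ≤ tr Q :=
            (hstp 0).2.2.2.2.2.2.2.2.2.2.2.2.1
          have htr2 : tr Q ≤ dm E := (hstp 0).2.2.2.2.2.2.2.2.2.2.2.2.2.1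
          have hexr : ∀ i, expl S u M j (r i) = 0 := by
            intro i
            have h1 := (hstp i).2.2.2.2.1
            simp only [hr, rh, map_smul, h1, smul_zero]
          have hMG : ∀ᵐ G ∂μ, FF S u j (j + 1) s (res (expl S u M j) M G) =
              ENNReal.ofReal (Real.exp (-(s / dm E) * ‖(∑ i, Q (G i (r i))) + sv'‖ ^ 2)) := by
            filter_upwards [hμ.herm] with G hG
            have hM' : HermF S (res (expl S u M j) M G) :=
              (hKNO ι E (Fin 2) S u M G j hM hG).1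
            have hg' : gd u j (res (expl S u M j) M G) := by
              intro j' hj' i
              rw [rho_res hKNO S u M G hM hG j j' hj' i]
              exact hg j' hj' i
            have hR : ∀ i, rh S u (res (expl S u M j) M G) (j + 1) i =
                (Real.sqrt (dm E))⁻¹ • (Q (G i (r i)) + sv S u M j i) := by
              intro i
              have h1 := (hSTP ι E (Fin 2) S u _ hM' hu j i).1
              obtain ⟨-, -, -, -, -, k6, k7, k8, -, -, -, k12⟩ := hSTK ι E (Fin 2) S u hu j i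
              have e6 : rh S u (res (expl S u M j) M G) j i = rh S u M j i := k6 M G hM hG
              have e7 : qq S u (res (expl S u M j) M G) j = qq S u M j := k7 M G hM hG
              have e8 : sv S u (res (expl S u M j) M G) j i = sv S u M j i := k8 M G hM hG
              have e12 := (k12 M G hM hG (r i) (hexr i)).1
              rw [h1, e6, e7, e8]
              congr 2
            unfold FF
            rw [if_pos hg']
            congr 2
            have hz : zz S u (j + 1) (res (expl S u M j) M G) =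
                (Real.sqrt (dm E))⁻¹ • ((∑ i, Q (G i (r i))) + sv') := by
              unfold zz
              rw [hR 0, hR 1, Fin.sum_univ_two, hsv, ← smul_add]
              congr 1
              abel
            rw [hz, norm_smul, mul_pow, Real.norm_of_nonneg (by positivity), inv_pow,
              Real.sq_sqrt hD.le]
            ring
          rw [lintegral_congr_ae hMG]
          set σ2 := ∑ i, ∑ l, c2 c i l * ⟪r i, r l⟫ with hσ2
          have hncm := hNCM ι E (Fin 2) S (c2 c) μ hμ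
            (fun i l => by unfold c2; simp only [eq_comm]) Q r sv' (s / dm E) σ2 hQp hQr
            (by positivity) hσ2
          refine hncm.trans ?_
          have hσe : σ2 = ‖r 0‖ ^ 2 + ‖r 1‖ ^ 2 + 2 * c * ⟪r 0, r 1⟫ := by
            rw [hσ2]
            simp only [Fin.sum_univ_two, c2]
            simp only [Fin.isValue, if_true, zero_ne_one, one_ne_zero, if_false,
              real_inner_self_eq_norm_sq]
            rw [real_inner_comm (r 0) (r 1)]
            ring
          have hin := abs_real_inner_le_norm (r 0) (r 1)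
          obtain ⟨hin1, hin2⟩ := abs_le.mp hin
          have hn0 := norm_nonneg (r 0)
          have hn1 := norm_nonneg (r 1)
          have hρ3 : ∀ i, ‖r i‖ ^ 2 ≤ 3 := fun i =>
            (pow_le_pow_left₀ (norm_nonneg _) (hrn i) 2).trans (hg j le_rfl i)
          have hσ0 : 0 ≤ σ2 := by
            rw [hσe]
            nlinarith [sq_nonneg (‖r 0‖ - ‖r 1‖), mul_nonneg hn0 hn1, mul_nonneg hc0.le
              (mul_nonneg hn0 hn1)]
          have hσ12 : σ2 ≤ 12 := by
            rw [hσe]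
            have h1 : 2 * c * ⟪r 0, r 1⟫ ≤ 2 * (‖r 0‖ * ‖r 1‖) := by
              nlinarith [mul_nonneg hn0 hn1]
            nlinarith [hρ3 0, hρ3 1, sq_nonneg (‖r 0‖ - ‖r 1‖)]
          have hzn : ‖zz S u j M‖ ^ 2 = ‖r 0‖ ^ 2 + 2 * ⟪r 0, r 1⟫ + ‖r 1‖ ^ 2 := by
            unfold zz
            exact norm_add_sq_real _ _
          have hδz : δ * ‖zz S u j M‖ ^ 2 ≤ σ2 := by
            rw [hzn, hσe, hδ]
            have h1 : ‖r 0 - r 1‖ ^ 2 = ‖r 0‖ ^ 2 - 2 * ⟪r 0, r 1⟫ + ‖r 1‖ ^ 2 :=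
              norm_sub_sq_real _ _
            have h2 : 0 ≤ (1 - c) / 2 * ‖r 0 - r 1‖ ^ 2 :=
              mul_nonneg (by linarith) (sq_nonneg _)
            rw [h1] at h2
            nlinarith
          have hN1 : γ * dm E ≤ tr Q := by
            refine le_trans (le_of_eq ?_) htr1
            rw [hγ, Fintype.card_fin]
            field_simp
            push_cast
            ring
          unfold FF
          rw [if_pos hg, ← ENNReal.ofReal_mul (Real.exp_pos _).le]
          exact ENNReal.ofReal_le_ofReal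
            (num s (dm E) (tr Q) γ δ (‖zz S u j M‖ ^ 2) σ2 hs hD hγ0 hN1 htr2 hσ0 hσ12 hδz)
        · -- bad
          have h0 : ∀ᵐ G ∂μ, FF S u j (j + 1) s (res (expl S u M j) M G) = 0 := by
            filter_upwards [hμ.herm] with G hG
            unfold FF
            rw [if_neg]
            intro h
            apply hg
            intro j' hj' i
            have := h j' hj' i
            rwa [rho_res hKNO S u M G hM hG j j' hj' i] at this
          rw [lintegral_congr_ae h0, lintegral_zero]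
          exact zero_le

omit [FiniteDimensional ℝ E] in
lemma zz_zero (S : BStr ι E) (u : E) (hu : ‖u‖ = 1) (M : Fin 2 → E →L[ℝ] E) :
    ‖zz S u 0 M‖ ^ 2 = 4 := by
  have h : ∀ i, rh S u M 0 i = u := by
    intro i
    simp [rh, rho, rr, cp, expl, qv, lan]
  unfold zz
  rw [h, h, ← two_smul ℝ u, norm_smul, hu]
  norm_num

end

end ZLOM

open ZLOM in
theorem specZLO (hRPE : SpecRPE) (hNCM : SpecNCM) (hSTP : SpecSTP) (hSTK : SpecSTK)
    (hKNO : SpecKNO) (hMEA : SpecMEA) (hMEB : SpecMEB) : SpecZLO := by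
  intro ι _ _
  set β : ℝ := (Fintype.card ι : ℝ) with hβ
  have hβ0 : 0 ≤ β := Nat.cast_nonneg _
  refine ⟨577 + 2 * β, by positivity, ?_⟩
  intro E _ _ _ S u τ μ hτ hμ hu k x hCD hkτ hx hx1
  set C := 577 + 2 * β with hC
  have hk0 : (0 : ℝ) ≤ k := Nat.cast_nonneg _
  have hD : 0 < dm E := lt_of_lt_of_le (by positivity) hCD
  have hk1 : (0 : ℝ) < (k : ℝ) + 1 := by positivity
  have hkk : (k : ℝ) + 1 ≤ ((k : ℝ) + 1) ^ 2 := by nlinarith
  have := hμ.gauss
  set c := Real.exp (-τ) with hc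
  have hc0 : 0 < c := Real.exp_pos _
  have hc1 : c ≤ 1 := by rw [hc]; exact Real.exp_le_one_iff.mpr (by linarith)
  have hcτ : 1 - c ≤ τ := by
    have := Real.add_one_le_exp (-τ)
    rw [hc]; linarith
  set D := dm E with hDdef
  set γ : ℕ → ℝ := fun j => 1 - 2 * β * ((j : ℝ) + 1) / D with hγ
  set δ := (1 + c) / 2 with hδ
  have hδ0 : 0 ≤ δ := by rw [hδ]; positivity
  have hδ1 : δ ≤ 1 := by rw [hδ]; linarith
  have hβj : ∀ j : ℕ, j < k → 2 * β * ((j : ℝ) + 1) ≤ D := by
    intro j hj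
    have h1 : (j : ℝ) + 1 ≤ k := by exact_mod_cast hj
    have h2 : 2 * β * ((k : ℝ) + 1) ^ 2 ≤ D := by
      refine le_trans ?_ hCD
      apply mul_le_mul_of_nonneg_right _ (sq_nonneg _)
      rw [hC]
      linarith
    have h3 := mul_le_mul_of_nonneg_left h1 (show 0 ≤ 2 * β by positivity)
    have h4 := mul_le_mul_of_nonneg_left hkk (show 0 ≤ 2 * β by positivity)
    have h5 : 2 * β * (k : ℝ) ≤ 2 * β * ((k : ℝ) + 1) :=
      mul_le_mul_of_nonneg_left (by linarith) (by positivity)
    linarith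
  have hγ0 : ∀ j < k, 0 ≤ γ j := by
    intro j hj
    simp only [hγ]
    rw [sub_nonneg, div_le_one hD]
    exact hβj j hj
  have hγ1 : ∀ j, γ j ≤ 1 := by
    intro j
    simp only [hγ]
    have : 0 ≤ 2 * β * ((j : ℝ) + 1) / D := by positivity
    linarith
  set p : ℕ → ℝ := fun j => ∏ l ∈ Finset.range j, (γ l * δ) with hp
  -- the recursion
  have hrec : ∀ j, j ≤ k → ∀ s : ℝ, 0 ≤ s → ∫⁻ M, FF S u j j s M ∂μ ≤
      ENNReal.ofReal (Real.exp (144 * j * s ^ 2 / D - 4 * s * p j)) := by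
    intro j
    induction j with
    | zero =>
      intro _ s hs
      calc ∫⁻ M, FF S u 0 0 s M ∂μ ≤ ∫⁻ _M, ENNReal.ofReal (Real.exp (-(4 * s))) ∂μ := by
            refine lintegral_mono fun M => ?_
            unfold FF
            split_ifs
            · rw [zz_zero S u hu M]
              apply ENNReal.ofReal_le_ofReal
              apply Real.exp_le_exp.mpr
              linarith
            · exact zero_le
        _ = ENNReal.ofReal (Real.exp (-(4 * s))) := by
            rw [lintegral_const, measure_univ, mul_one]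
        _ ≤ _ := by
            apply ENNReal.ofReal_le_ofReal
            apply Real.exp_le_exp.mpr
            simp [hp]
    | succ j ih =>
      intro hj s hs
      have hstep := step hRPE hNCM hSTP hSTK hKNO hMEA hMEB S u τ μ hτ hμ hu j s hs hD
        (hβj j (by omega))
      have hg0 := hγ0 j (by omega)
      have hg1 := hγ1 j
      have hs' : 0 ≤ s * γ j * δ := by positivity
      have h1 := ih (by omega) (s * γ j * δ) hs'
      refine hstep.trans ?_
      refine (mul_le_mul_right h1 (ENNReal.ofReal (Real.exp (144 * s ^ 2 / D)))).trans ?_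
      rw [← ENNReal.ofReal_mul (Real.exp_pos _).le, ← Real.exp_add]
      apply ENNReal.ofReal_le_ofReal
      apply Real.exp_le_exp.mpr
      have e1 : p (j + 1) = p j * (γ j * δ) := by
        simp only [hp]
        rw [Finset.prod_range_succ]
      rw [e1]
      have hgd : γ j * δ ≤ 1 := mul_le_one₀ hg1 hδ0 hδ1
      have hgd0 : 0 ≤ γ j * δ := by positivity
      have h2 : (s * γ j * δ) ^ 2 ≤ s ^ 2 := by
        have : (s * γ j * δ) = s * (γ j * δ) := by ring
        rw [this, mul_pow]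
        have h3 : (γ j * δ) ^ 2 ≤ 1 := pow_le_one₀ hgd0 hgd
        exact mul_le_of_le_one_right (sq_nonneg s) h3
      have h4 : 144 * (j : ℝ) * (s * γ j * δ) ^ 2 / D ≤ 144 * j * s ^ 2 / D := by
        apply div_le_div_of_nonneg_right _ hD.le
        apply mul_le_mul_of_nonneg_left h2 (by positivity)
      push_cast
      have e2 : 144 * ((j : ℝ) + 1) * s ^ 2 / D = 144 * s ^ 2 / D + 144 * j * s ^ 2 / D := by ring
      rw [e2]
      have e3 : 4 * (s * γ j * δ) * p j = 4 * s * (p j * (γ j * δ)) := by ring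
      rw [e3]
      linarith
  -- the product
  set w := 2 * β * ((k : ℝ) + 1) / D + τ / 2 with hw
  have hpp : ∀ j, j ≤ k → 0 ≤ p j ∧ p j ≤ 1 ∧ 1 - j * w ≤ p j := by
    intro j
    induction j with
    | zero => intro _; simp [hp]
    | succ j ih =>
      intro hj
      obtain ⟨i1, i2, i3⟩ := ih (by omega)
      have hg0 := hγ0 j (by omega)
      have hg1 := hγ1 j
      have e1 : p (j + 1) = p j * (γ j * δ) := by
        simp only [hp]
        rw [Finset.prod_range_succ]
      have hgd : γ j * δ ≤ 1 := mul_le_one₀ hg1 hδ0 hδ1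
      have hgd0 : 0 ≤ γ j * δ := by positivity
      have hjk : (j : ℝ) + 1 ≤ k := by exact_mod_cast hj
      have hgw : 1 - γ j * δ ≤ w := by
        have h1 : 1 - γ j ≤ 2 * β * ((k : ℝ) + 1) / D := by
          simp only [hγ]
          have : 2 * β * ((j : ℝ) + 1) / D ≤ 2 * β * ((k : ℝ) + 1) / D := by
            apply div_le_div_of_nonneg_right _ hD.le
            apply mul_le_mul_of_nonneg_left (by linarith) (by positivity)
          linarith
        have h2 : γ j * (1 - δ) ≤ τ / 2 := by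
          have h3 : 1 - δ ≤ τ / 2 := by rw [hδ]; linarith
          have h4 : 0 ≤ 1 - δ := by linarith
          calc γ j * (1 - δ) ≤ 1 * (1 - δ) := mul_le_mul_of_nonneg_right hg1 h4
            _ ≤ τ / 2 := by linarith
        have e4 : 1 - γ j * δ = (1 - γ j) + γ j * (1 - δ) := by ring
        rw [hw, e4]
        linarith
      rw [e1]
      refine ⟨mul_nonneg i1 hgd0, mul_le_one₀ i2 hgd0 hgd, ?_⟩
      push_cast
      have h5 : p j * (1 - γ j * δ) ≤ 1 * w :=
        mul_le_mul i2 hgw (by linarith) zero_le_one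
      have e5 : p j * (γ j * δ) = p j - p j * (1 - γ j * δ) := by ring
      rw [e5]
      linarith
  obtain ⟨-, -, hpk⟩ := hpp k le_rfl
  -- Markov
  set w' := ((k : ℝ) + 1) ^ 2 / D + ((k : ℝ) + 1) * τ with hw'
  have hw'0 : 0 ≤ w' := by positivity
  have hkw : (k : ℝ) * w ≤ (2 * β + 1) * w' := by
    have hw0 : 0 ≤ w := by positivity
    calc (k : ℝ) * w ≤ ((k : ℝ) + 1) * w := mul_le_mul_of_nonneg_right (by linarith) hw0
      _ = 2 * β * (((k : ℝ) + 1) ^ 2 / D) + ((k : ℝ) + 1) * τ / 2 := by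
          rw [hw]; field_simp
      _ ≤ _ := by
          rw [hw']
          have h1 : 0 ≤ ((k : ℝ) + 1) ^ 2 / D := by positivity
          have h2 : 0 ≤ ((k : ℝ) + 1) * τ := by positivity
          have h3 : 0 ≤ β * (((k : ℝ) + 1) * τ) := mul_nonneg hβ0 h2
          have e3 : (2 * β + 1) * (((k : ℝ) + 1) ^ 2 / D + ((k : ℝ) + 1) * τ) =
              2 * β * (((k : ℝ) + 1) ^ 2 / D) + ((k : ℝ) + 1) ^ 2 / D +
              2 * (β * (((k : ℝ) + 1) * τ)) + ((k : ℝ) + 1) * τ := by ring
          rw [e3]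
          linarith
  set thr := 4 * (1 - C * w') - x with hthr
  set s := x * D / (288 * ((k : ℝ) + 1)) with hs
  have hs0 : 0 ≤ s := by positivity
  have hexp : s * thr + (144 * k * s ^ 2 / D - 4 * s * p k) ≤
      -(x ^ 2 * D / (C * ((k : ℝ) + 1))) := by
    have h1 : s * thr - 4 * s * p k ≤ -(s * x) := by
      have h2 : 4 * (1 - C * w') - 4 * p k ≤ 0 := by
        have : (2 * β + 1) * w' ≤ C * w' := by
          apply mul_le_mul_of_nonneg_right _ hw'0
          rw [hC]; linarith
        linarith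
      have h3 : s * (4 * (1 - C * w') - 4 * p k) ≤ 0 := mul_nonpos_of_nonneg_of_nonpos hs0 h2
      have e6 : s * thr - 4 * s * p k = s * (4 * (1 - C * w') - 4 * p k) - s * x := by
        rw [hthr]; ring
      rw [e6]
      linarith
    have h4 : 144 * k * s ^ 2 / D ≤ s * x / 2 := by
      have e1 : 144 * k * s ^ 2 / D = s * x / 2 * (k / ((k : ℝ) + 1)) := by
        rw [hs]
        field_simp
        ring
      rw [e1]
      have h5 : (k : ℝ) / ((k : ℝ) + 1) ≤ 1 := by
        rw [div_le_one hk1]; linarith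
      have h6 : 0 ≤ s * x / 2 := by positivity
      exact mul_le_of_le_one_right h6 h5
    have h7 : x ^ 2 * D / (C * ((k : ℝ) + 1)) ≤ s * x / 2 := by
      rw [hs]
      have e2 : x * D / (288 * ((k : ℝ) + 1)) * x / 2 = x ^ 2 * D / (576 * ((k : ℝ) + 1)) := by
        field_simp
        norm_num
      rw [e2]
      apply div_le_div_of_nonneg_left (by positivity) (by positivity)
      apply mul_le_mul_of_nonneg_right _ hk1.le
      rw [hC]; linarith
    linarith
  set f : (Fin 2 → E →L[ℝ] E) → ℝ≥0∞ := fun M =>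
    ENNReal.ofReal (Real.exp (s * thr)) * FF S u k k s M with hf
  have hfm : Measurable f := (meas_FF hMEA hMEB S u k k s).const_mul _
  calc μ {M | (∀ j ≤ k, ∀ i, rho (M i) u j ^ 2 ≤ 3) ∧
        ‖rh S u M k 0 + rh S u M k 1‖ ^ 2 < 4 * (1 - C * w') - x}
      ≤ μ {M | 1 ≤ f M} := by
        refine measure_mono fun M hM => ?_
        obtain ⟨h1, h2⟩ := hM
        have h1' : gd u k M := h1
        have h2' : ‖zz S u k M‖ ^ 2 < thr := h2
        show 1 ≤ f M
        simp only [hf]
        unfold FF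
        rw [if_pos h1', ← ENNReal.ofReal_mul (Real.exp_pos _).le, ← Real.exp_add,
          ← ENNReal.ofReal_one]
        apply ENNReal.ofReal_le_ofReal
        apply Real.one_le_exp
        have h3 : s * ‖zz S u k M‖ ^ 2 ≤ s * thr := mul_le_mul_of_nonneg_left h2'.le hs0
        linarith
    _ ≤ ∫⁻ M, f M ∂μ := by
        have := mul_meas_ge_le_lintegral hfm (μ := μ) 1
        rwa [one_mul] at this
    _ ≤ ENNReal.ofReal (Real.exp (s * thr)) *
          ENNReal.ofReal (Real.exp (144 * k * s ^ 2 / D - 4 * s * p k)) := by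
        simp only [hf]
        rw [lintegral_const_mul' _ _ ENNReal.ofReal_ne_top]
        exact mul_le_mul_right (hrec k le_rfl s hs0) _
    _ ≤ ENNReal.ofReal (C * Real.exp (-(x ^ 2 * D / (C * ((k : ℝ) + 1))))) := by
        rw [← ENNReal.ofReal_mul (Real.exp_pos _).le, ← Real.exp_add]
        apply ENNReal.ofReal_le_ofReal
        refine (Real.exp_le_exp.mpr hexp).trans ?_
        have h1 : (1 : ℝ) ≤ C := by rw [hC]; linarith
        exact le_mul_of_one_le_left (Real.exp_pos _).le h1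

end Pool.Agent.Lib.MP17fa2c
end
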