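import Pool.Agent.Lib.MP_17fa2c_pr.TD.RSB
import Pool.Agent.Lib.MP_17fa2c_pr.TD.SU3
import Pool.Agent.Lib.MP_17fa2c_pr.TD.TX3
import Pool.Agent.Lib.MP_17fa2c_pr.TD.KMO
import Pool.Agent.Lib.MP_17fa2c_pr.TD.TRI
import Pool.Agent.Lib.MP_17fa2c_pr.TD.LDZ
import Pool.Agent.Lib.MP_17fa2c_pr.TD.MUL
import Pool.Agent.Lib.MP_17fa2c_pr.TD.GBK
import Pool.Agent.Lib.MP_17fa2c_pr.TD.NCM
import Pool.Agent.Lib.MP_17fa2c_pr.TD.RUP
import Pool.Agent.Lib.MP_17fa2c_pr.TD.ZE0
import Pool.Agent.Lib.MP_17fa2c_pr.TD.TSK
import Pool.Agent.Lib.MP_17fa2c_pr.TD.ZE1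
import Pool.Agent.Lib.MP_17fa2c_pr.TD.IND
import Pool.Agent.Lib.MP_17fa2c_pr.TD.ZLO
import Pool.Agent.Lib.MP_17fa2c_pr.TD.NEG
import Pool.Agent.Lib.MP_17fa2c_pr.TD.SPB
import Pool.Agent.Lib.MP_17fa2c_pr.TD.OUC
import Pool.Agent.Lib.MP_17fa2c_pr.TD.OUT
import Pool.Agent.Lib.MP_17fa2c_pr.TD.PRL
import Pool.Agent.Lib.MP_17fa2c_pr.TD.QF1
import Pool.Agent.Lib.MP_17fa2c_pr.TD.QUE
import Pool.Agent.Lib.MP_17fa2c_pr.TD.QFE
import Pool.Agent.Lib.MP_17fa2c_pr.TD.XMO
import Pool.Agent.Lib.MP_17fa2c_pr.TD.TRA
import Pool.Agent.Lib.MP_17fa2c_pr.TD.RPF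
import Pool.Agent.Lib.MP_17fa2c_pr.TD.TI3
import Pool.Agent.Lib.MP_17fa2c_pr.TD.WC3
import Pool.Agent.Lib.MP_17fa2c_pr.TD.UNQ
import Pool.Agent.Lib.MP_17fa2c_pr.TD.VCN

/-!
# MP_17fa2c_pr: all modules
-/

set_option autoImplicit false

namespace Pool.Agent.Lib.MP17fa2c

theorem allJON : SpecJON := specJON
theorem allIND : SpecIND := specIND allJON
theorem allGLF : SpecGLF := specGLF
theorem allQF1 : SpecQF1 := specQF1
theorem allQFE : SpecQFE := specQFE allQF1
theorem allQFC : SpecQFC := specQFC allQFE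
theorem allTRA : SpecTRA := specTRA
theorem allQUA : SpecQUA := specQUA allQFC allJON allTRA
theorem allCF1 : SpecCF1 := specCF1 allIND allGLF allQUA allJON
theorem allRPF : SpecRPF := specRPF
theorem allADD : SpecADD := specADD allJON
theorem allEXP : SpecEXP := specEXP allADD
theorem allKNO : SpecKNO := specKNO allEXP allJON
theorem allMEA : SpecMEA := specMEA
theorem allRPE : SpecRPE := specRPE allRPF allKNO allMEA allEXP
theorem allRPI : SpecRPI := specRPI allRPE allMEA
theorem allLOR : SpecLOR := specLOR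
theorem allLHM : SpecLHM := specLHM
theorem allEXO : SpecEXO := specEXO allLOR allLHM allADD allEXP
theorem allISO : SpecISO := specISO allGLF
theorem allGMO : SpecGMO := specGMO
theorem allCHN : SpecCHN := specCHN allGMO
theorem allDL1 : SpecDL1 := specDL1 allRPE allKNO allEXO allEXP allTRA allIND allGLF allISO allCHN allJON allMEA
theorem allDEL : SpecDEL := specDEL allDL1 allMEA
theorem allMRG : SpecMRG := specMRG
theorem allRHO : SpecRHO := specRHO allDEL allMRG allCHN allGMO allMEA
theorem allSTP : SpecSTP := specSTP allJON allTRA allEXP allLOR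
theorem allSTK : SpecSTK := specSTK allSTP allKNO allEXP
theorem allGI1 : SpecGI1 := specGI1 allJON allTRA allISO allCHN
theorem allPIN : SpecPIN := specPIN allMRG allLOR allSTP
theorem allMEB : SpecMEB := specMEB
theorem allRE1 : SpecRE1 := specRE1 allRPI allSTP allSTK allGI1 allRHO allPIN allMEB allKNO allMEA
theorem allRSA : SpecRSA := specRSA allRPI allRHO allRE1 allSTP allSTK allGI1 allPIN allMEB allKNO allLOR allMEA
theorem allRSB : SpecRSB := specRSB allRPI allRHO allRE1 allSTP allSTK allIND allISO allQUA allPIN allMEB allMEA allKNO allEXP allJON allLOR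
theorem allKNM : SpecKNM := specKNM allEXP allKNO
theorem allMDL : SpecMDL := specMDL allRPI allKNM
theorem allOVR : SpecOVR := specOVR allMDL allRPI allRE1 allRHO allSTP allSTK allKNM allGI1 allPIN allMEB allMEA
theorem allOVU : SpecOVU := specOVU allOVR allRHO allSTP allPIN allMEB allMEA
theorem allCHF : SpecCHF := specCHF allCF1 allRSA allRSB allOVU allRPI allSTP allSTK allPIN allMEB allMEA
theorem allMUL : SpecMUL := specMUL allCHF allSTK allKNM allMEA
theorem allLCF : SpecLCF := specLCF
theorem allOUC : SpecOUC := specOUC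
theorem allFDD : SpecFDD := specFDD allMUL allLCF allOUC allMEA
theorem allLO : SpecLO := allLOR
theorem allBLK : SpecBLK := specBLK allLO
theorem allOPD : SpecOPD := specOPD
theorem allSPB : SpecSPB := specSPB
theorem allLMK : SpecLMK := specLMK
theorem allEKB : SpecEKB := specEKB
theorem allEKG : SpecEKG := specEKG allEKB
theorem allNRK : SpecNRK := specNRK allBLK allOPD allSPB allLMK allEKG allLO
theorem allDIF : SpecDIF := specDIF
theorem allCHD : SpecCHD := specCHD allDIF allLO
theorem allVCN : SpecVCN := specVCN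
theorem allGRA : SpecGRA := specGRA allVCN
theorem allGRB : SpecGRB := specGRB allVCN
theorem allSCL : SpecSCL := specSCL
theorem allGBK : SpecGBK := specGBK allNRK allCHD allGRA allGRB allDIF allSCL
theorem allVAR : SpecVAR := specVAR allGLF allGMO allJON
theorem allMGC : SpecMGC := specMGC
theorem allKM1 : SpecKM1 := specKM1 allMGC
theorem allNEG : SpecNEG := specNEG
theorem allSMB : SpecSMB := specSMB allMGC allNEG
theorem allKMO : SpecKMO := specKMO allKM1 allSMB
theorem allKM0 : SpecKM0 := specKM0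
theorem allDBK : SpecDBK := specDBK allGBK allVAR allDEL allKMO allKM0 allLOR allLHM allMEA
theorem allPOS : SpecPOS := specPOS
theorem allMDF : SpecMDF := specMDF
theorem allROT : SpecROT := specROT
theorem allLMX : SpecLMX := specLMX
theorem allEDA : SpecEDA := specEDA
theorem allEDB : SpecEDB := specEDB
theorem allEDC : SpecEDC := specEDC
theorem allEDG : SpecEDG := specEDG allEDA allEDB allEDC
theorem allNRM : SpecNRM := specNRM allBLK allOPD allSPB allLMX allEDG allLO
theorem allGBD : SpecGBD := specGBD allNRM allCHD allGRA allGRB allDIF allSCL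
theorem allEXA : SpecEXA := specEXA
theorem allEXC : SpecEXC := specEXC allMGC
theorem allXMO : SpecXMO := specXMO allEXA allEXC allSMB
theorem allDMO : SpecDMO := specDMO allDEL allXMO allMEA
theorem allDBD : SpecDBD := specDBD allGBD allVAR allDMO allLOR allLHM allDEL allNEG
theorem allPSA : SpecPSA := specPSA allPOS allDIF allMDF allROT allDBD allDMO allMEA
theorem allINK : SpecINK := specINK allPSA allDIF allMDF allROT
theorem allPRL : SpecPRL := specPRL
theorem allUNQ : SpecUNQ := specUNQ
theorem allTSK : SpecTSK := specTSK allDBK allINK allPRL allUNQ allMRG allMEA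
theorem allRUP : SpecRUP := specRUP allDEL allMRG allMGC allMEA
theorem allNCM : SpecNCM := specNCM allISO
theorem allZLO : SpecZLO := specZLO allRPE allNCM allSTP allSTK allKNO allMEA allMEB
theorem allLDV : SpecLDV := specLDV allRUP allZLO allSTP
theorem allETA : SpecETA := specETA allRPE allDEL allMRG allGLF allSTP allSTK allMEA allKNO allJON
theorem allLDA : SpecLDA := specLDA allLDV allETA allRPE allGLF allJON allSTP allSTK allMEA allMEB
theorem allZE0 : SpecZE0 := specZE0 allSTP allSTK allKNO allEXP allADD allJON allLOR allIND allGLF allGMO allGI1 allPIN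
theorem allZE1 : SpecZE1 := specZE1 allZE0 allRPE allRPI allDEL allMRG allMGC allISO allCHN allGI1 allPIN allSTP allTRA allMEA
theorem allLDZ : SpecLDZ := specLDZ allZE0 allZE1 allRPE allSTP allSTK allGI1 allMEA allMEB
theorem allQFX : SpecQFX := specQFX
theorem allQUE : SpecQUE := specQUE allJON allTRA allQFX
theorem allLDB : SpecLDB := specLDB allLDV allLDZ allQUE allRPE allSTP allSTK allMEB allTRA
theorem allLDP : SpecLDP := specLDP allLDA allLDB allDEL allMRG allMEA allQFE allGMO
theorem allTX3 : SpecTX3 := specTX3 allTSK allLDP allRHO allMEA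
theorem allLDF : SpecLDF := specLDF allLDA allLDB
theorem allMID : SpecMID := specMID allLDF
theorem allOUT : SpecOUT := specOUT allGMO
theorem allITP : SpecITP := specITP
theorem allDYA : SpecDYA := specDYA
theorem allTI3 : SpecTI3 := specTI3 allDYA
theorem allSU3 : SpecSU3 := specSU3
theorem allARZ : SpecARZ := specARZ
theorem allUNI : SpecUNI := specUNI
theorem allINP : SpecINP := specINP
theorem allCHP : SpecCHP := specCHP
theorem allTGT : SpecTGT := specTGT allDYA allCHP
theorem allMSR : SpecMSR.{0} := specMSR allINP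
theorem allWC3 : SpecWC3 := specWC3 allITP allTI3 allSU3 allARZ allUNI allINP allTGT allMSR
theorem allPR2 : SpecPR2 := specPR2 allFDD allTX3 allMID allOUT allWC3
theorem allOPM : SpecOPM := specOPM
theorem allTRI : SpecTRI := specTRI allOPM
theorem allGF1 : SpecGF1 := specGF1
theorem allGF2 : SpecGF2 := specGF2
theorem allGFM : SpecGFM := specGFM allGF1 allGF2 allOPM
theorem allBST : SpecBST := specBST allOPM
theorem allAS2 : SpecAS2 := specAS2 allPR2 allTRI allGFM allBST allDEL
theorem allINC : SpecINC := specINC allPSA allDIF allMDF allROT allDBD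
theorem allTSI : SpecTSI := specTSI allINC allPRL allUNQ allMRG allMEA
theorem allCTP : SpecCTP := specCTP allTSI allDEL allDL1 allNEG allDIF allMEA
theorem allHHR : SpecHHR := specHHR
theorem allEXT : SpecEXT := specEXT allHHR
theorem allEXI : SpecEXI := specEXI allCTP allDIF allEXT allTRI allGFM allBST allOPM allMEA
theorem allFSR : SpecFSR := specFSR
theorem allFSC : SpecFSC := specFSC
theorem allFSQ : SpecFSQ := specFSQ
theorem allKS2 : SpecKS2 := specKS2

end Pool.Agent.Lib.MP17fa2c
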