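import Mathlib

/-!
# MP_17fa2c_pr (tridiagonal entries of the stationary GβE process): abstract set-up

`E` is a finite-dimensional real inner product space (`𝔽^n`, of real dimension `D = β n`), with a
`β`-structure: the right multiplications `J a` by the basis units of `𝔽` (`ι` = index set of the
units, `card ι = β`, `o` = the unit `1`).  Self-adjoint matrices over `𝔽` are the symmetric
operators commuting with the `J a` (`Herm`).
-/

set_option autoImplicit false

open MeasureTheory ProbabilityTheory Filter Topology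
open scoped RealInnerProductSpace NNReal ENNReal

namespace Pool.Agent.Lib.MP17fa2c

/-! ## Lanczos -/

section Lanczos

variable {E : Type} [NormedAddCommGroup E] [InnerProductSpace ℝ E]

/-- the Lanczos recursion, `lan A u j = (b_{j-1} q_{j-1}, q_j)`, indices from `0` -/
noncomputable def lan (A : E →L[ℝ] E) (u : E) : ℕ → E × E
  | 0 => (0, u)
  | j + 1 =>
    (‖A (lan A u j).2 - ⟪(lan A u j).2, A (lan A u j).2⟫ • (lan A u j).2 - (lan A u j).1‖ •
      (lan A u j).2,
    ‖A (lan A u j).2 - ⟪(lan A u j).2, A (lan A u j).2⟫ • (lan A u j).2 - (lan A u j).1‖⁻¹ •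
      (A (lan A u j).2 - ⟪(lan A u j).2, A (lan A u j).2⟫ • (lan A u j).2 - (lan A u j).1))

/-- Lanczos vectors `q_j`, `q_0 = u` -/
noncomputable def qv (A : E →L[ℝ] E) (u : E) (j : ℕ) : E := (lan A u j).2

/-- diagonal entries `a_j` -/
noncomputable def av (A : E →L[ℝ] E) (u : E) (j : ℕ) : ℝ := ⟪qv A u j, A (qv A u j)⟫

/-- `w_j = A q_j - a_j q_j - b_{j-1} q_{j-1} = b_j q_{j+1}` -/
noncomputable def wv (A : E →L[ℝ] E) (u : E) (j : ℕ) : E :=
  A (qv A u j) - av A u j • qv A u j - (lan A u j).1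

/-- off-diagonal entries `b_j ≥ 0` -/
noncomputable def bv (A : E →L[ℝ] E) (u : E) (j : ℕ) : ℝ := ‖wv A u j‖

/-- real dimension of `E` as a real number -/
noncomputable def dm (E : Type) [NormedAddCommGroup E] [InnerProductSpace ℝ E] : ℝ :=
  (Module.finrank ℝ E : ℝ)

/-- `ρ_j = ∏_{l<j} b_l / √D` -/
noncomputable def rho (A : E →L[ℝ] E) (u : E) (j : ℕ) : ℝ :=
  ∏ l ∈ Finset.range j, bv A u l / Real.sqrt (dm E)

end Lanczos

/-! ## β-structures -/

/-- A `β`-structure (`β = card ι`): right multiplications by the units of `𝔽`. -/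
structure BStr (ι : Type) [Fintype ι] [DecidableEq ι] (E : Type) [NormedAddCommGroup E]
    [InnerProductSpace ℝ E] where
  J : ι → (E →L[ℝ] E)
  o : ι
  J_o : ∀ x, J o x = x
  norm_J : ∀ a x, ‖J a x‖ = ‖x‖
  skew : ∀ a, a ≠ o → ∀ x y, ⟪J a x, y⟫ = -⟪x, J a y⟫
  mul : ∀ a b, ∃ c, ∃ s : ℝ, (s = 1 ∨ s = -1) ∧ (∀ x, J a (J b x) = s • J c x) ∧ (c = o ↔ a = b)

section Str

variable {ι : Type} [Fintype ι] [DecidableEq ι]
  {E : Type} [NormedAddCommGroup E] [InnerProductSpace ℝ E]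

/-- self-adjoint `𝔽`-matrices -/
def Herm (S : BStr ι E) (A : E →L[ℝ] E) : Prop :=
  (∀ x y, ⟪A x, y⟫ = ⟪x, A y⟫) ∧ ∀ a x, A (S.J a x) = S.J a (A x)

/-- orthogonal projections onto `𝔽`-subspaces -/
def IsPr (S : BStr ι E) (P : E →L[ℝ] E) : Prop := Herm S P ∧ ∀ x, P (P x) = P x

/-- trace of an operator -/
noncomputable def tr (P : E →L[ℝ] E) : ℝ := LinearMap.trace ℝ E (P : E →ₗ[ℝ] E)

/-- complementary projection -/
noncomputable def cp (P : E →L[ℝ] E) : E →L[ℝ] E := ContinuousLinearMap.id ℝ E - P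

/-- add the vector `v` (with all `J a v`) to the projection `P` -/
noncomputable def addv (S : BStr ι E) (P : E →L[ℝ] E) (v : E) : E →L[ℝ] E :=
  P + (‖cp P v‖ ^ 2)⁻¹ • ∑ a, InnerProductSpace.rankOne ℝ (S.J a (cp P v)) (S.J a (cp P v))

/-! ## exploration of a finite family of operators -/

variable {T : Type} [Fintype T]

/-- The projection `Π_j` onto the `𝔽`-span of the Lanczos vectors `q_l` of all the `M i`,
`l < j`. -/
noncomputable def expl (S : BStr ι E) (u : E) (M : T → E →L[ℝ] E) : ℕ → (E →L[ℝ] E)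
  | 0 => 0
  | j + 1 => (Finset.univ : Finset T).toList.foldl (fun P i => addv S P (qv (M i) u j))
      (expl S u M j)

/-- resampling of the unexplored block: `M - P^⊥ M P^⊥ + P^⊥ G P^⊥` -/
noncomputable def res (P : E →L[ℝ] E) (M G : T → E →L[ℝ] E) : T → E →L[ℝ] E :=
  fun i => M i - cp P ∘L M i ∘L cp P + cp P ∘L G i ∘L cp P

/-- all members of the family are self-adjoint -/
def HermF (S : BStr ι E) (M : T → E →L[ℝ] E) : Prop := ∀ i, Herm S (M i)

/-- `F` is known after `j` steps of the exploration -/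
def Kn {α : Type*} (S : BStr ι E) (u : E) (j : ℕ) (F : (T → E →L[ℝ] E) → α) : Prop :=
  ∀ M G : T → E →L[ℝ] E, HermF S M → HermF S G → F (res (expl S u M j) M G) = F M

end Str

/-! ## Gaussian families -/

/-- Centered Gaussian families of self-adjoint matrices with correlations `c`. -/
structure GFam {ι : Type} [Fintype ι] [DecidableEq ι] {E : Type} [NormedAddCommGroup E]
    [InnerProductSpace ℝ E] [FiniteDimensional ℝ E] {T : Type} [Fintype T]
    (S : BStr ι E) (c : T → T → ℝ) (ν : Measure (T → E →L[ℝ] E)) : Prop where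
  gauss : IsGaussian ν
  herm : ∀ᵐ M ∂ν, HermF S M
  mean : ∀ i x y, ∫ M, ⟪x, M i y⟫ ∂ν = 0
  cov : ∀ i l x y x' y', ∫ M, ⟪x, M i y⟫ * ⟪x', M l y'⟫ ∂ν =
    c i l * ∑ a, (⟪x, S.J a x'⟫ * ⟪y, S.J a y'⟫ + ⟪x, S.J a y'⟫ * ⟪y, S.J a x'⟫)

end Pool.Agent.Lib.MP17fa2c
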