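import Pool.Agent.Lib.MP_17fa2c_pr.TD.SpecA

/-!
# RPF: resampling for a fixed projection
-/

set_option autoImplicit false
set_option linter.unusedSectionVars false

open MeasureTheory ProbabilityTheory Filter Topology
open scoped RealInnerProductSpace NNReal ENNReal

namespace Pool.Agent.Lib.MP17fa2c

namespace RPFM

variable {ι : Type} [Fintype ι] [DecidableEq ι] {E : Type} [NormedAddCommGroup E]
  [InnerProductSpace ℝ E] [FiniteDimensional ℝ E] {T : Type} [Fintype T]

/-- `M ↦ cp P M cp P` -/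
noncomputable def Yop (P : E →L[ℝ] E) : (T → E →L[ℝ] E) →L[ℝ] (T → E →L[ℝ] E) :=
  ContinuousLinearMap.pi fun i =>
    ((ContinuousLinearMap.compL ℝ E E E (cp P)).comp
      ((ContinuousLinearMap.compL ℝ E E E).flip (cp P))).comp (ContinuousLinearMap.proj i)

/-- `M ↦ M - cp P M cp P` -/
noncomputable def Xop (P : E →L[ℝ] E) : (T → E →L[ℝ] E) →L[ℝ] (T → E →L[ℝ] E) :=
  ContinuousLinearMap.id ℝ _ - Yop P

omit [FiniteDimensional ℝ E] in
lemma Yop_apply (P : E →L[ℝ] E) (M : T → E →L[ℝ] E) (i : T) :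
    Yop P M i = cp P ∘L M i ∘L cp P := rfl

omit [FiniteDimensional ℝ E] in
lemma Xop_apply (P : E →L[ℝ] E) (M : T → E →L[ℝ] E) (i : T) :
    Xop P M i = M i - cp P ∘L M i ∘L cp P := rfl

omit [FiniteDimensional ℝ E] in
lemma res_eq (P : E →L[ℝ] E) (M G : T → E →L[ℝ] E) : res P M G = Xop P M + Yop P G := rfl

/-- the functional `M ↦ ⟪x, M i y⟫` -/
noncomputable def W (i : T) (x y : E) : StrongDual ℝ (T → E →L[ℝ] E) :=
  (innerSL ℝ x).comp ((ContinuousLinearMap.apply ℝ E y).comp (ContinuousLinearMap.proj i))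

omit [FiniteDimensional ℝ E] in
lemma W_apply (i : T) (x y : E) (M : T → E →L[ℝ] E) : W i x y M = ⟪x, M i y⟫ := rfl

/-- the unit operators -/
noncomputable def U [DecidableEq T] (i : T)
    (a b : Fin (Module.finrank ℝ E)) : T → E →L[ℝ] E :=
  Pi.single i (InnerProductSpace.rankOne ℝ (stdOrthonormalBasis ℝ E a) (stdOrthonormalBasis ℝ E b))

lemma dual_rep [DecidableEq T] (L : StrongDual ℝ (T → E →L[ℝ] E)) (M : T → E →L[ℝ] E) :
    L M = ∑ i, ∑ a, ∑ b, L (U i a b) *
      ⟪stdOrthonormalBasis ℝ E a, M i (stdOrthonormalBasis ℝ E b)⟫ := by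
  have h1 : ∀ A : E →L[ℝ] E, A = ∑ a, ∑ b,
      ⟪stdOrthonormalBasis ℝ E a, A (stdOrthonormalBasis ℝ E b)⟫ •
        InnerProductSpace.rankOne ℝ (stdOrthonormalBasis ℝ E a) (stdOrthonormalBasis ℝ E b) := by
    intro A
    ext z
    rw [Finset.sum_comm]
    simp only [_root_.sum_apply, _root_.smul_apply,
      InnerProductSpace.rankOne_apply]
    conv_lhs => rw [← (stdOrthonormalBasis ℝ E).sum_repr' z, map_sum]
    refine Finset.sum_congr rfl fun b _ => ?_
    rw [map_smul]
    conv_lhs => rw [← (stdOrthonormalBasis ℝ E).sum_repr' (A (stdOrthonormalBasis ℝ E b)),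
      Finset.smul_sum]
    refine Finset.sum_congr rfl fun a _ => ?_
    rw [smul_comm]
  have h2 : M = ∑ i, ∑ a, ∑ b,
      ⟪stdOrthonormalBasis ℝ E a, M i (stdOrthonormalBasis ℝ E b)⟫ • U i a b := by
    have h3 : M = ∑ i, Pi.single i (M i) := (Finset.univ_sum_single M).symm
    conv_lhs => rw [h3]
    refine Finset.sum_congr rfl fun i _ => ?_
    conv_lhs => rw [h1 (M i)]
    funext j
    by_cases hj : j = i
    · subst hj
      simp [U, Finset.sum_apply]
    · simp [U, Finset.sum_apply, Pi.single_eq_of_ne hj]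
  conv_lhs => rw [h2]
  simp only [map_sum, map_smul, smul_eq_mul]
  refine Finset.sum_congr rfl fun i _ => Finset.sum_congr rfl fun a _ =>
    Finset.sum_congr rfl fun b _ => mul_comm _ _

variable {S : BStr ι E} {c : T → T → ℝ} {ν : Measure (T → E →L[ℝ] E)}

lemma memLp_W (h : GFam S c ν) (i : T) (x y : E) : MemLp (fun M => ⟪x, M i y⟫) 2 ν := by
  have := h.gauss
  exact IsGaussian.memLp_dual ν (W i x y) 2 (by norm_num)

omit [FiniteDimensional ℝ E] in
lemma cp_herm {P : E →L[ℝ] E} (hP : IsPr S P) : Herm S (cp P) := by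
  refine ⟨fun x y => ?_, fun a x => ?_⟩
  · simp only [cp, _root_.sub_apply, ContinuousLinearMap.id_apply, inner_sub_left,
      inner_sub_right, hP.1.1 x y]
  · simp only [cp, _root_.sub_apply, ContinuousLinearMap.id_apply, map_sub, hP.1.2 a x]

omit [FiniteDimensional ℝ E] in
lemma cp_idem {P : E →L[ℝ] E} (hP : IsPr S P) (x : E) : cp P (cp P x) = cp P x := by
  simp only [cp, _root_.sub_apply, ContinuousLinearMap.id_apply, map_sub, hP.2]
  abel

omit [FiniteDimensional ℝ E] in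
lemma key {P : E →L[ℝ] E} (hP : IsPr S P) (a : ι) (x z : E) :
    ⟪cp P x, S.J a (cp P z)⟫ = ⟪x, S.J a (cp P z)⟫ := by
  rw [(cp_herm hP).1, (cp_herm hP).2, cp_idem hP]

lemma uncor (h : GFam S c ν) {P : E →L[ℝ] E} (hP : IsPr S P) (i l : T) (x y x' y' : E) :
    ∫ M, ⟪x, Xop P M i y⟫ * ⟪x', Yop P M l y'⟫ ∂ν = 0 := by
  have e : (fun M : T → E →L[ℝ] E => ⟪x, Xop P M i y⟫ * ⟪x', Yop P M l y'⟫) =
      fun M => ⟪x, M i y⟫ * ⟪cp P x', M l (cp P y')⟫ -
        ⟪cp P x, M i (cp P y)⟫ * ⟪cp P x', M l (cp P y')⟫ := by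
    funext M
    rw [Xop_apply, Yop_apply]
    simp only [_root_.sub_apply, ContinuousLinearMap.comp_apply, inner_sub_right]
    rw [← (cp_herm hP).1 x, ← (cp_herm hP).1 x']
    ring
  have i1 : ∀ a b, Integrable (fun M : T → E →L[ℝ] E =>
      ⟪a, M i b⟫ * ⟪cp P x', M l (cp P y')⟫) ν := fun a b =>
    (memLp_W h i a b).integrable_mul (memLp_W h l _ _)
  rw [e, integral_sub (i1 x y) (i1 _ _), h.cov, h.cov]
  simp only [key hP]
  ring

lemma memLp_X (h : GFam S c ν) (P : E →L[ℝ] E) (L : StrongDual ℝ (T → E →L[ℝ] E)) :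
    MemLp (fun M => L (Xop P M)) 2 ν := by
  have := h.gauss
  exact IsGaussian.memLp_dual ν (L.comp (Xop P)) 2 (by norm_num)

lemma memLp_Y (h : GFam S c ν) (P : E →L[ℝ] E) (L : StrongDual ℝ (T → E →L[ℝ] E)) :
    MemLp (fun M => L (Yop P M)) 2 ν := by
  have := h.gauss
  exact IsGaussian.memLp_dual ν (L.comp (Yop P)) 2 (by norm_num)

lemma mean0 [DecidableEq T] (h : GFam S c ν) (L : StrongDual ℝ (T → E →L[ℝ] E)) :
    ∫ M, L M ∂ν = 0 := by
  have := h.gauss
  have e : (fun M : T → E →L[ℝ] E => L M) = fun M => ∑ i, ∑ a, ∑ b, L (U i a b) *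
      ⟪stdOrthonormalBasis ℝ E a, M i (stdOrthonormalBasis ℝ E b)⟫ := funext (dual_rep L)
  rw [e, integral_finsetSum _ fun i _ => integrable_finsetSum _ fun a _ => integrable_finsetSum _
    fun b _ => ((memLp_W h i _ _).integrable (by norm_num)).const_mul _]
  refine Finset.sum_eq_zero fun i _ => ?_
  rw [integral_finsetSum _ fun a _ => integrable_finsetSum _
    fun b _ => ((memLp_W h i _ _).integrable (by norm_num)).const_mul _]
  refine Finset.sum_eq_zero fun a _ => ?_
  rw [integral_finsetSum _ fun b _ => ((memLp_W h i _ _).integrable (by norm_num)).const_mul _]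
  refine Finset.sum_eq_zero fun b _ => ?_
  rw [integral_const_mul, h.mean, mul_zero]

lemma cov0 [DecidableEq T] (h : GFam S c ν) {P : E →L[ℝ] E} (hP : IsPr S P)
    (L1 L2 : StrongDual ℝ (T → E →L[ℝ] E)) :
    ∫ M, L1 (Xop P M) * L2 (Yop P M) ∂ν = 0 := by
  have := h.gauss
  have hX : ∀ i x y, MemLp (fun M : T → E →L[ℝ] E => ⟪x, Xop P M i y⟫) 2 ν :=
    fun i x y => memLp_X h P (W i x y)
  have hY : ∀ i x y, MemLp (fun M : T → E →L[ℝ] E => ⟪x, Yop P M i y⟫) 2 ν :=
    fun i x y => memLp_Y h P (W i x y)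
  have hLY := memLp_Y h P L2
  -- first factor
  have h1 : ∀ (i : T) (x y : E), ∫ M, ⟪x, Xop P M i y⟫ * L2 (Yop P M) ∂ν = 0 := by
    intro i x y
    have e : (fun M : T → E →L[ℝ] E => ⟪x, Xop P M i y⟫ * L2 (Yop P M)) = fun M =>
        ∑ l, ∑ a, ∑ b, L2 (U l a b) * (⟪x, Xop P M i y⟫ *
          ⟪stdOrthonormalBasis ℝ E a, Yop P M l (stdOrthonormalBasis ℝ E b)⟫) := by
      funext M
      rw [dual_rep L2 (Yop P M), Finset.mul_sum]
      refine Finset.sum_congr rfl fun l _ => ?_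
      rw [Finset.mul_sum]
      refine Finset.sum_congr rfl fun a _ => ?_
      rw [Finset.mul_sum]
      refine Finset.sum_congr rfl fun b _ => ?_
      ring
    have hi : ∀ l a b, Integrable (fun M : T → E →L[ℝ] E => L2 (U l a b) * (⟪x, Xop P M i y⟫ *
        ⟪stdOrthonormalBasis ℝ E a, Yop P M l (stdOrthonormalBasis ℝ E b)⟫)) ν :=
      fun l a b => ((hX i x y).integrable_mul (hY l _ _)).const_mul _
    rw [e, integral_finsetSum _ fun l _ => integrable_finsetSum _ fun a _ => integrable_finsetSum _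
      fun b _ => hi l a b]
    refine Finset.sum_eq_zero fun l _ => ?_
    rw [integral_finsetSum _ fun a _ => integrable_finsetSum _ fun b _ => hi l a b]
    refine Finset.sum_eq_zero fun a _ => ?_
    rw [integral_finsetSum _ fun b _ => hi l a b]
    refine Finset.sum_eq_zero fun b _ => ?_
    rw [integral_const_mul, uncor h hP, mul_zero]
  have e : (fun M : T → E →L[ℝ] E => L1 (Xop P M) * L2 (Yop P M)) = fun M =>
      ∑ i, ∑ a, ∑ b, L1 (U i a b) * (⟪stdOrthonormalBasis ℝ E a,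
        Xop P M i (stdOrthonormalBasis ℝ E b)⟫ * L2 (Yop P M)) := by
    funext M
    rw [dual_rep L1 (Xop P M), Finset.sum_mul]
    refine Finset.sum_congr rfl fun l _ => ?_
    rw [Finset.sum_mul]
    refine Finset.sum_congr rfl fun a _ => ?_
    rw [Finset.sum_mul]
    refine Finset.sum_congr rfl fun b _ => ?_
    ring
  have hi : ∀ i a b, Integrable (fun M : T → E →L[ℝ] E => L1 (U i a b) *
      (⟪stdOrthonormalBasis ℝ E a, Xop P M i (stdOrthonormalBasis ℝ E b)⟫ * L2 (Yop P M))) ν :=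
    fun i a b => ((hX i _ _).integrable_mul hLY).const_mul _
  rw [e, integral_finsetSum _ fun l _ => integrable_finsetSum _ fun a _ => integrable_finsetSum _
    fun b _ => hi l a b]
  refine Finset.sum_eq_zero fun l _ => ?_
  rw [integral_finsetSum _ fun a _ => integrable_finsetSum _ fun b _ => hi l a b]
  refine Finset.sum_eq_zero fun a _ => ?_
  rw [integral_finsetSum _ fun b _ => hi l a b]
  refine Finset.sum_eq_zero fun b _ => ?_
  rw [integral_const_mul, h1, mul_zero]

lemma indep (h : GFam S c ν) {P : E →L[ℝ] E} (hP : IsPr S P) :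
    IndepFun (fun M => Xop P M) (fun M => Yop P M) ν := by
  classical
  have := h.gauss
  have hid : HasGaussianLaw (fun M : T → E →L[ℝ] E => M) ν := IsGaussian.hasGaussianLaw_id
  have hXY : HasGaussianLaw (fun M : T → E →L[ℝ] E => (Xop P M, Yop P M)) ν :=
    hid.map ((Xop P).prod (Yop P))
  refine hXY.indepFun_of_covariance_strongDual fun L1 L2 => ?_
  have e1 : (L1 ∘ fun M => Xop P M) = fun M => L1 (Xop P M) := rfl
  have e2 : (L2 ∘ fun M => Yop P M) = fun M => L2 (Yop P M) := rfl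
  have hm1 : ∫ M, L1 (Xop P M) ∂ν = 0 := mean0 h (L1.comp (Xop P))
  rw [e1, e2, covariance_eq_sub (memLp_X h P L1) (memLp_Y h P L2)]
  have h3 : ∫ M, ((fun M => L1 (Xop P M)) * fun M => L2 (Yop P M)) M ∂ν = 0 := cov0 h hP L1 L2
  rw [h3, hm1, zero_mul, sub_zero]

end RPFM

open RPFM in
theorem specRPF : SpecRPF := by
  intro ι _ _ E _ _ _ T _ S c ν h P hP F hF
  have := h.gauss
  have hX : Measurable (fun M : T → E →L[ℝ] E => Xop P M) := (Xop P).continuous.measurable
  have hY : Measurable (fun M : T → E →L[ℝ] E => Yop P M) := (Yop P).continuous.measurable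
  have hind := indep h hP
  have hprod := (indepFun_iff_map_prod_eq_prod_map_map hX.aemeasurable hY.aemeasurable).1 hind
  have hF2 : Measurable fun p : (T → E →L[ℝ] E) × (T → E →L[ℝ] E) => F (p.1 + p.2) :=
    hF.comp (measurable_fst.add measurable_snd)
  calc ∫⁻ M, F M ∂ν = ∫⁻ M, F (Xop P M + Yop P M) ∂ν := by
        refine lintegral_congr fun M => ?_
        congr 1
        simp [Xop]
    _ = ∫⁻ p, F (p.1 + p.2) ∂(ν.map fun M => (Xop P M, Yop P M)) := by
        rw [lintegral_map hF2 (hX.prodMk hY)]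
    _ = ∫⁻ M, ∫⁻ G, F (Xop P M + Yop P G) ∂ν ∂ν := by
        have := Measure.isProbabilityMeasure_map (μ := ν) hX.aemeasurable
        have := Measure.isProbabilityMeasure_map (μ := ν) hY.aemeasurable
        rw [hprod, lintegral_prod _ hF2.aemeasurable, lintegral_map hF2.lintegral_prod_right' hX]
        refine lintegral_congr fun M => ?_
        exact lintegral_map (hF2.comp measurable_prodMk_left) hY
    _ = ∫⁻ M, ∫⁻ G, F (res P M G) ∂ν ∂ν := rfl

end Pool.Agent.Lib.MP17fa2c
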