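import Pool.Agent.Lib.MP_17fa2c_pr.TD.Defs

/-!
# MP_17fa2c_pr, block T: derivatives of the Lanczos coefficients and edge estimates

Every module: file `TD/XXX.lean`, `import Pool.Agent.Lib.MP_17fa2c_pr.TD.SpecT`,
`theorem specXXX (hYYY : SpecYYY) .. : SpecXXX`, own lemmas in the namespace `XXXM`.
Everything here is deterministic.
-/

set_option autoImplicit false

open MeasureTheory ProbabilityTheory Filter Topology Polynomial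
open scoped RealInnerProductSpace NNReal ENNReal

namespace Pool.Agent.Lib.MP17fa2c

/-! ## Orthogonal polynomials -/

/-- `(b_{i+l-1} p_{l-1}, p_l)`: orthogonal polynomials of the Jacobi matrix starting at index `i` -/
noncomputable def opp (a b : ℕ → ℝ) (i : ℕ) : ℕ → ℝ[X] × ℝ[X]
  | 0 => (0, 1)
  | l + 1 => (C (b (i + l)) * (opp a b i l).2,
      C (b (i + l))⁻¹ * ((X - C (a (i + l))) * (opp a b i l).2 - (opp a b i l).1))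

/-- the same recursion for real numbers: `p l = P_l(y)` for `l ≤ N` -/
structure PolRec (α B : ℕ → ℝ) (N : ℕ) (y : ℝ) (p : ℕ → ℝ) : Prop where
  zero : p 0 = 1
  one : 0 < N → B 0 * p 1 = y - α 0
  succ : ∀ l, l + 1 < N → B (l + 1) * p (l + 2) = (y - α (l + 1)) * p (l + 1) - B l * p l

/-- data of the edge estimates -/
structure EdgeData (α B : ℕ → ℝ) (N : ℕ) (ω : ℝ) : Prop where
  pos : 0 < ω
  B_pos : ∀ l < N, 0 < B l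
  sumα : ∀ l ≤ N, |∑ i ∈ Finset.range l, α i| ≤ ω
  sumB : ∀ l ≤ N, |∑ i ∈ Finset.range l, (B i ^ 2 - 1)| ≤ ω

/-- exponent of the edge estimates -/
noncomputable def ex (N : ℕ) (ω : ℝ) (B : ℕ → ℝ) : ℝ :=
  N * ω + ∑ l ∈ Finset.range N, max 0 (-Real.log (2 * B l))

/-- **OPD** (60 lines). Degrees and evaluation of the `opp`. Proof: induction on `l`. -/
def SpecOPD : Prop := ∀ (a b : ℕ → ℝ) (i : ℕ),
  (∀ l, (opp a b i l).2.natDegree ≤ l ∧ (opp a b i l).1.natDegree ≤ l - 1) ∧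
  (∀ N, (∀ l < N, b (i + l) ≠ 0) → ∀ y : ℝ,
    PolRec (fun l => a (i + l)) (fun l => b (i + l)) N y (fun l => ((opp a b i l).2).eval y)) ∧
  ∀ l, (opp a b i (l + 1)).1 = C (b (i + l)) * (opp a b i l).2

/-! ## First variation of a Jacobi chain -/

/-- a Jacobi chain `q` of length `K` for `A`, with its first variation `dq` in the direction `H` -/
structure Chain {E : Type} [NormedAddCommGroup E] [InnerProductSpace ℝ E] (A H : E →L[ℝ] E)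
    (K : ℕ) (q dq : ℕ → E) (a b da db : ℕ → ℝ) : Prop where
  symA : ∀ x y, ⟪A x, y⟫ = ⟪x, A y⟫
  symH : ∀ x y, ⟪H x, y⟫ = ⟪x, H y⟫
  dq0 : dq 0 = 0
  on : ∀ i ≤ K, ∀ j ≤ K, ⟪q i, q j⟫ = if i = j then 1 else 0
  bne : ∀ j < K, b j ≠ 0
  jr0 : 0 < K → A (q 0) = a 0 • q 0 + b 0 • q 1
  jr : ∀ j, j + 1 < K → A (q (j + 1)) = b j • q j + a (j + 1) • q (j + 1) + b (j + 1) • q (j + 2)
  dj0 : 0 < K → H (q 0) + A (dq 0) = da 0 • q 0 + a 0 • dq 0 + db 0 • q 1 + b 0 • dq 1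
  dj : ∀ j, j + 1 < K → H (q (j + 1)) + A (dq (j + 1)) =
    db j • q j + b j • dq j + da (j + 1) • q (j + 1) + a (j + 1) • dq (j + 1) +
      db (j + 1) • q (j + 2) + b (j + 1) • dq (j + 2)
  don : ∀ i ≤ K, ∀ j ≤ K, ⟪dq i, q j⟫ + ⟪q i, dq j⟫ = 0

/-- **VCN** (150 lines). Variation of constants.
Proof. `Y_j = ∑_{i<j} b_i⁻¹ P^{(i+1)}_{j-1-i}(A) H q_i`, `P^{(i)}_l = (opp a b i l).2`, satisfies `Y_0 = 0`,
`b_j Y_{j+1} = (A - a_j) Y_j - b_{j-1} Y_{j-1} + H q_j` (definition of `opp`; `(opp a b (i+1) (j-1-i)).1 =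
b_{j-1} P^{(i+1)}_{j-2-i}`, `0` for `i = j-1`). By (two-step) induction `dq_j - Y_j ∈ span (q_0, …, q_j)`: insert
`dq_j = Y_j + v_j` in `dj`; `A v_j`, `v_j`, `v_{j-1}`, `q_{j+1}` are in `span (q_0, …, q_{j+1})`.
Polynomials in `A` are symmetric. -/
def SpecVCN : Prop := ∀ (E : Type) [NormedAddCommGroup E] [InnerProductSpace ℝ E]
  (A H : E →L[ℝ] E) (K : ℕ) (q dq : ℕ → E) (a b da db : ℕ → ℝ), Chain A H K q dq a b da db →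
  ∀ j ≤ K, ∀ x : E, (∀ i ≤ j, ⟪q i, x⟫ = 0) →
  ⟪x, dq j⟫ = ∑ i ∈ Finset.range j, (b i)⁻¹ * ⟪aeval A (opp a b (i + 1) (j - 1 - i)).2 x, H (q i)⟫

/-- **GRA** (80 lines; from VCN). Variation of the diagonal entries.
Proof. `a_k = ⟪q_k, A q_k⟫`: from `dj` and orthonormality `da_k = ⟪q_k, H q_k⟫ + ⟪q_k, A dq_k⟫ - b_{k-1} ⟪q_k, dq_{k-1}⟫
- a_k ⟪q_k, dq_k⟫ - b_k ⟪q_k, dq_{k+1}⟫`, and `⟪q_k, dq_k⟫ = 0`, `⟪q_k, A dq_k⟫ = b_k ⟪q_{k+1}, dq_k⟫ + b_{k-1} ⟪q_{k-1}, dq_k⟫`,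
`don`: so `da_k = 
⟪q_k, H q_k⟫ + 2 b_k ⟪q_{k+1}, dq_k⟫ - 2 b_{k-1} ⟪q_k, dq_{k-1}⟫`. Apply VCN to `x = q_{k+1}, j = k` and to
`x = q_k`, `j = k - 1` (`k ≥ 1`). -/
def SpecGRA : Prop := ∀ (E : Type) [NormedAddCommGroup E] [InnerProductSpace ℝ E]
  (A H : E →L[ℝ] E) (K : ℕ) (q dq : ℕ → E) (a b da db : ℕ → ℝ), Chain A H K q dq a b da db →
  ∀ k, k + 1 ≤ K →
  da k = ⟪q k, H (q k)⟫ + ∑ i ∈ Finset.range k, 2 * (b i)⁻¹ *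
    ⟪b k • aeval A (opp a b (i + 1) (k - 1 - i)).2 (q (k + 1)) -
      aeval A (opp a b (i + 1) (k - 1 - i)).1 (q k), H (q i)⟫

/-- **GRB** (100 lines; from VCN). Variation of the off-diagonal entries.
Proof. Take the inner product of `dj` (index `k`) with `q_{k+1}`: `⟪q_{k+1}, H q_k⟫ + ⟪q_{k+1}, A dq_k⟫ =
b_{k-1} ⟪q_{k+1}, dq_{k-1}⟫ + a_k ⟪q_{k+1}, dq_k⟫ + db_k + b_k ⟪q_{k+1}, dq_{k+1}⟫`, the last term is `0` and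
`⟪q_{k+1}, A dq_k⟫ = b_k ⟪q_k, dq_k⟫ + a_{k+1} ⟪q_{k+1}, dq_k⟫ + b_{k+1} ⟪q_{k+2}, dq_k⟫`. So `db_k = ⟪q_{k+1}, H q_k⟫ +
(a_{k+1} - a_k) ⟪q_{k+1}, dq_k⟫ + b_{k+1} ⟪q_{k+2}, dq_k⟫ - b_{k-1} ⟪q_{k+1}, dq_{k-1}⟫`; VCN. -/
def SpecGRB : Prop := ∀ (E : Type) [NormedAddCommGroup E] [InnerProductSpace ℝ E]
  (A H : E →L[ℝ] E) (K : ℕ) (q dq : ℕ → E) (a b da db : ℕ → ℝ), Chain A H K q dq a b da db →
  ∀ k, k + 2 ≤ K →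
  db k = ⟪q (k + 1), H (q k)⟫ + ∑ i ∈ Finset.range k, (b i)⁻¹ *
    ⟪(a (k + 1) - a k) • aeval A (opp a b (i + 1) (k - 1 - i)).2 (q (k + 1)) +
      b (k + 1) • aeval A (opp a b (i + 1) (k - 1 - i)).2 (q (k + 2)) -
      aeval A (opp a b (i + 1) (k - 1 - i)).1 (q (k + 1)), H (q i)⟫

/-- **DIF** (120 lines). Differentiability of the Lanczos data (on the space of all operators).
Proof. Induction on `j`: `lan (j+1)` is made of `A`, `lan j`, inner products and of the norm and the inverse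
norm of `wv`, which is `≠ 0` (`bv = ‖wv‖ ≠ 0`). -/
def SpecDIF : Prop := ∀ (E : Type) [NormedAddCommGroup E] [InnerProductSpace ℝ E] (u : E)
  (A : E →L[ℝ] E) (j : ℕ), (∀ l < j, bv A u l ≠ 0) →
  DifferentiableAt ℝ (fun A : E →L[ℝ] E => lan A u j) A ∧
  DifferentiableAt ℝ (fun A : E →L[ℝ] E => qv A u j) A ∧
  DifferentiableAt ℝ (fun A : E →L[ℝ] E => av A u j) A ∧
  DifferentiableAt ℝ (fun A : E →L[ℝ] E => bv A u j ^ 2) A ∧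
  (bv A u j ≠ 0 → DifferentiableAt ℝ (fun A : E →L[ℝ] E => bv A u j) A)

/-- Lanczos orthogonality (same as `SpecLOR` of block A). -/
def SpecLO : Prop := ∀ (E : Type) [NormedAddCommGroup E] [InnerProductSpace ℝ E]
  (A : E →L[ℝ] E) (u : E), (∀ x y, ⟪A x, y⟫ = ⟪x, A y⟫) → ‖u‖ = 1 →
  (∀ i j, i ≠ j → ⟪qv A u i, qv A u j⟫ = 0) ∧
  (∀ j, (∀ i < j, bv A u i ≠ 0) → ‖qv A u j‖ = 1) ∧
  (∀ j, (∃ i < j, bv A u i = 0) → qv A u j = 0) ∧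
  (∀ j, A (qv A u j) = bv A u j • qv A u (j + 1) + av A u j • qv A u j + (lan A u j).1) ∧
  (∀ j, (lan A u (j + 1)).1 = bv A u j • qv A u j) ∧
  (∀ j, ⟪qv A u (j + 1), A (qv A u j)⟫ = bv A u j) ∧
  (∀ j, bv A u j ≤ ‖A‖) ∧ ∀ j, |av A u j| ≤ ‖A‖

/-- **CHD** (120 lines; from DIF, LO). The Lanczos data are a Jacobi chain with first variation given by
the Fréchet derivatives.
Proof. Differentiate at `s = 0` along `A + s H` the relations `A q_j = b_j q_{j+1} + a_j q_j + b_{j-1} q_{j-1}`,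
`⟪q_i, q_j⟫ = δ_{ij}` of `SpecLO`, valid for small `s` (the `b_l` are continuous, `≠ 0`). -/
def SpecCHD : Prop := ∀ (E : Type) [NormedAddCommGroup E] [InnerProductSpace ℝ E] (u : E)
  (A H : E →L[ℝ] E) (K : ℕ), (∀ x y, ⟪A x, y⟫ = ⟪x, A y⟫) → (∀ x y, ⟪H x, y⟫ = ⟪x, H y⟫) →
  ‖u‖ = 1 → (∀ l ≤ K, bv A u l ≠ 0) →
  Chain A H K (qv A u) (fun j => fderiv ℝ (fun A : E →L[ℝ] E => qv A u j) A H) (av A u) (bv A u)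
    (fun j => fderiv ℝ (fun A : E →L[ℝ] E => av A u j) A H)
    (fun j => fderiv ℝ (fun A : E →L[ℝ] E => bv A u j) A H)

/-! ## The block and the spectral bound -/

/-- orthogonal projection on the span of `q_i, …, q_{i+N-1}` -/
noncomputable def bpr {E : Type} [NormedAddCommGroup E] [InnerProductSpace ℝ E]
    (A : E →L[ℝ] E) (u : E) (i N : ℕ) : E →L[ℝ] E :=
  ∑ s ∈ Finset.range N, InnerProductSpace.rankOne ℝ (qv A u (i + s)) (qv A u (i + s))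

/-- the block `Π A Π` -/
noncomputable def blk {E : Type} [NormedAddCommGroup E] [InnerProductSpace ℝ E]
    (A : E →L[ℝ] E) (u : E) (i N : ℕ) : E →L[ℝ] E :=
  bpr A u i N ∘L A ∘L bpr A u i N

/-- **BLK** (200 lines; from LO, OPD). The block.
Proof. `T = blk`: `T q_{i+s} = b_{i+s-1} q_{i+s-1} + a_{i+s} q_{i+s} + b_{i+s} q_{i+s+1}`, where the first term is
missing for `s = 0` and the last one for `s = N - 1`. (c) Induction on `l` with the recursion of `opp`.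
(d) For `e ≤ natDegree f` the vector `A^e q_{i+s} = T^e q_{i+s}` is in the span of the `q_{i+s'}`,
`|s' - s| ≤ e`, and `A = T` on `q_{i+s'}` for `1 ≤ s' ≤ N - 2`. -/
def SpecBLK : Prop := ∀ (E : Type) [NormedAddCommGroup E] [InnerProductSpace ℝ E]
  (A : E →L[ℝ] E) (u : E) (i N : ℕ), (∀ x y, ⟪A x, y⟫ = ⟪x, A y⟫) → ‖u‖ = 1 →
  (∀ l < i + N, bv A u l ≠ 0) →
  (∀ x y, ⟪blk A u i N x, y⟫ = ⟪x, blk A u i N y⟫) ∧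
  (∀ x, ⟪x, blk A u i N x⟫ = ∑ s ∈ Finset.range N, av A u (i + s) * ⟪qv A u (i + s), x⟫ ^ 2 +
    2 * ∑ s ∈ Finset.range (N - 1), bv A u (i + s) *
      (⟪qv A u (i + s), x⟫ * ⟪qv A u (i + s + 1), x⟫)) ∧
  (∀ x, ∑ s ∈ Finset.range N, ⟪qv A u (i + s), x⟫ ^ 2 ≤ ‖x‖ ^ 2) ∧
  (∀ l < N, aeval (blk A u i N) (opp (av A u) (bv A u) i l).2 (qv A u i) = qv A u (i + l)) ∧
  ∀ s < N, ∀ f : ℝ[X], f.natDegree ≤ s → f.natDegree + s < N →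
    aeval (blk A u i N) f (qv A u (i + s)) = aeval A f (qv A u (i + s))

/-- **SPB** (120 lines). Spectral bounds.
Proof. Orthonormal eigenbasis `e` of `T` with eigenvalues `y_e ∈ [-λ, λ]`: `f(T) x = ∑ f(y_e) ⟪e, x⟫ e`. Second part:
`‖h(T) x‖² = ∑ h(y_e)² ⟪e, x⟫²`, use `h = f₁ g₁` for `y_e ≥ 0`, `h = f₂ g₂` for `y_e < 0`. -/
def SpecSPB : Prop := ∀ (E : Type) [NormedAddCommGroup E] [InnerProductSpace ℝ E]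
  [FiniteDimensional ℝ E] (T : E →L[ℝ] E) (lam K : ℝ), (∀ x y, ⟪T x, y⟫ = ⟪x, T y⟫) →
  (∀ x, |⟪x, T x⟫| ≤ lam * ‖x‖ ^ 2) → 0 ≤ K →
  (∀ f : ℝ[X], (∀ y : ℝ, |y| ≤ lam → |f.eval y| ≤ K) → ∀ x, ‖aeval T f x‖ ≤ K * ‖x‖) ∧
  ∀ f₁ f₂ g₁ g₂ h : ℝ[X], h = f₁ * g₁ → h = f₂ * g₂ →
    (∀ y : ℝ, 0 ≤ y → y ≤ lam → |f₁.eval y| ≤ K) → (∀ y : ℝ, -lam ≤ y → y ≤ 0 → |f₂.eval y| ≤ K) →
    ∀ x, ‖aeval T h x‖ ^ 2 ≤ K ^ 2 * (‖aeval T g₁ x‖ ^ 2 + ‖aeval T g₂ x‖ ^ 2)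

/-! ## Edge estimates -/

/-- **LMX** (150 lines). Norm of a Jacobi matrix with small partial sums.
Proof. `∑ x² = 1`, `𝒟 = ∑_{l<N-1} (x_l - x_{l+1})²`. Upper bound for `ω ≤ 1/2`: Abel summation:
`∑ α_l x_l² = A_N x_{N-1}² + ∑_{l<N-1} A_{l+1} (x_l² - x_{l+1}²) ≤ ω x_{N-1}² + 2 ω √𝒟` (`A_l = ∑_{i<l} α_i`). `2 (B - 1) =
(B² - 1) - (B - 1)²`, so `2 ∑ B_l x_l x_{l+1} = 2 ∑ x_l x_{l+1} + ∑ z_l x_l x_{l+1} - ∑ (B_l - 1)² x_l x_{l+1}`, `z_l = B_l² - 1`;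
`2 ∑ x_l x_{l+1} ≤ 2 - x_{N-1}² - 𝒟`; `∑ z_l x_l x_{l+1} = Z_{N-1} x_{N-2} x_{N-1} + ∑ Z_{l+1} x_{l+1} (x_l - x_{l+2})
≤ ω (x_{N-1}² + √𝒟) + 2 ω √𝒟`; `|B_l - 1| ≤ |z_l| ≤ 2 ω`. Total `≤ 2 + (2ω-1) x_{N-1}² + 5 ω √𝒟 - 𝒟 + 4 ω² ≤ 2 + 11 ω²`.
For `ω ≥ 1/2`: `≤ 2 ω + 2 √(1 + 2 ω) ≤ 2 + 4 ω ≤ 2 + 8 ω²`. Lower bound: apply the upper bound to `-α`,
`(-1)^l x_l`. -/
def SpecLMX : Prop := ∀ (α B : ℕ → ℝ) (N : ℕ) (ω : ℝ), EdgeData α B N ω → ∀ x : ℕ → ℝ,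
  |∑ l ∈ Finset.range N, α l * x l ^ 2 +
    2 * ∑ l ∈ Finset.range (N - 1), B l * (x l * x (l + 1))| ≤
  (2 + 100 * ω ^ 2) * ∑ l ∈ Finset.range N, x l ^ 2

/-- **EDA** (120 lines). Edge estimate, at the edge.
Proof. `V_l = -∑_{i≤l} α_i - ∑_{i<l} (B_i² - 1)`, `|V_l| ≤ 2 ω`; `w_l = B_{l-1} p_l - p_{l-1} - V_{l-1} p_{l-1}` for `l ≥ 1`. Then
`w_1 = y - 1`, `p_l = B_{l-1}⁻¹ ((1 + V_{l-1}) p_{l-1} + w_l)` and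
`w_{l+1} = B_{l-1} w_l + (y - 2) p_l - V_{l-1} (p_l - B_{l-1} p_{l-1})`,
`p_l - B_{l-1} p_{l-1} = B_{l-1}⁻¹ (w_l + (1 + V_{l-1} - B_{l-1}²) p_{l-1})`. As `|B² - 1| ≤ 2 ω ≤ 1/4`, `|B^{±1} - 1| ≤ 2 ω`. For
`N_l = |w_l| + ω |p_{l-1}|`: `N_1 ≤ 4`, `N_{l+1} ≤ (1 + C ω) N_l`. Finally
`|p_l - p_{l-1}| = B⁻¹ |w_l + (1 + V - B) p_{l-1}| ≤ 8 N_l`. -/
def SpecEDA : Prop := ∃ C : ℝ, 0 < C ∧ ∀ (α B : ℕ → ℝ) (N : ℕ) (ω y : ℝ) (p : ℕ → ℝ),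
  EdgeData α B N ω → ω ≤ 1 / 8 → PolRec α B N y p → |y - 2| ≤ 100 * ω ^ 2 →
  ∀ l < N, |p (l + 1) - p l| ≤ C * Real.exp (C * (N * ω))

/-- **EDB** (150 lines). Edge estimate, inside.
Proof. Notation and recursion of EDA, `y = 2 - s²`, `ω ≤ s ≤ √2`. The map `(p, w) ↦ (p + w, w - s² (p + w))`
preserves `Q(p, w) = s² p² + s² p w + w²`, and `(1 - 1/√2) (s² p² + w²) ≤ Q ≤ 2 (s² p² + w²)`. The true step
`(p_{l-1}, w_l) ↦ (p_l, w_{l+1})` differs from it by a vector of `(s² p² + w²)^{1/2}`-norm `≤ C ω (s |p_{l-1}| + |w_l|)`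
(`|V| |1 - B² + V| |p| ≤ 8 ω² |p| ≤ 8 ω s |p|`). So `√Q` grows at most by the factor `1 + C ω` in each step, and
`|p_l - p_{l-1}| = B⁻¹ |w_l + (1 + V - B) p_{l-1}|`, `ω |p| ≤ s |p|`. Start: `p_0 = 1`, `w_1 = 1 - s²`. -/
def SpecEDB : Prop := ∃ C : ℝ, 0 < C ∧ ∀ (α B : ℕ → ℝ) (N : ℕ) (ω y : ℝ) (p : ℕ → ℝ),
  EdgeData α B N ω → ω ≤ 1 / 8 → PolRec α B N y p → 0 ≤ y → y ≤ 2 - ω ^ 2 →
  ∀ l < N, |p (l + 1) - p l| ≤ C * Real.exp (C * (N * ω))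

/-- **EDC** (80 lines). Crude bound for large `ω`.
Proof. `B_l⁻¹ ≤ 2 exp (max 0 (-log (2 B_l)))`, `B_l ≤ √(1 + 2 ω) ≤ 1 + ω`, `|α_l| ≤ 2 ω`, so `max (|p_{l+1}|, |p_l|) ≤
206 (1 + ω)² e^{g_l} max (|p_l|, |p_{l-1}|)`, `206 (1 + ω)² ≤ exp (C ω)` for `ω ≥ 1/8`. -/
def SpecEDC : Prop := ∃ C : ℝ, 0 < C ∧ ∀ (α B : ℕ → ℝ) (N : ℕ) (ω y : ℝ) (p : ℕ → ℝ),
  EdgeData α B N ω → 1 / 8 ≤ ω → PolRec α B N y p → |y| ≤ 2 + 100 * ω ^ 2 →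
  ∀ l ≤ N, |p l| ≤ Real.exp (C * ex N ω B)

/-- **EDG** (150 lines; from EDA, EDB, EDC). Edge estimates.
Proof. `y ≥ 0`: EDA or EDB or EDC. `y ≤ 0`: `(-1)^l p_l` is the recursion for `-α`, `-y`. Third: for `y ≥ 0`,
`B_{l+1} p_{l+2} - B_l p_l = B_{l+1} (p_{l+2} - p_{l+1}) + B_l (p_{l+1} - p_l) + (B_{l+1} - B_l) p_{l+1}`, `|B_{l+1} - B_l| ≤ 4 ω`,
`|p_{l+1}| ≤ 1 + N C e^{C ex}`, `B ≤ 1 + ω`, `N ω ≤ ex`. For `y ≤ 0` by symmetry. -/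
def SpecEDG : Prop := ∃ C : ℝ, 0 < C ∧ ∀ (α B : ℕ → ℝ) (N : ℕ) (ω y : ℝ) (p : ℕ → ℝ),
  EdgeData α B N ω → PolRec α B N y p → |y| ≤ 2 + 100 * ω ^ 2 →
  (0 ≤ y → ∀ l < N, |p (l + 1) - p l| ≤ C * Real.exp (C * ex N ω B)) ∧
  (y ≤ 0 → ∀ l < N, |p (l + 1) + p l| ≤ C * Real.exp (C * ex N ω B)) ∧
  (∀ l, l + 1 < N → |B (l + 1) * p (l + 2) - B l * p l| ≤ C * Real.exp (C * ex N ω B)) ∧
  (0 < N → |y - α 0| ≤ C * Real.exp (C * ex N ω B))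

/-! ## The gradient bound -/

/-- hypotheses of the gradient bound, at scale `R` -/
structure GData {E : Type} [NormedAddCommGroup E] [InnerProductSpace ℝ E]
    (A : E →L[ℝ] E) (u : E) (k : ℕ) (R ω : ℝ) : Prop where
  sym : ∀ x y, ⟪A x, y⟫ = ⟪x, A y⟫
  unit : ‖u‖ = 1
  R_pos : 0 < R
  pos : 0 < ω
  b_ne : ∀ l ≤ 2 * k + 2, bv A u l ≠ 0
  suma : ∀ i j, i ≤ j → j ≤ 2 * k + 3 → |∑ l ∈ Finset.Ico i j, av A u l / Real.sqrt R| ≤ ω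
  sumb : ∀ i j, i ≤ j → j ≤ 2 * k + 3 → |∑ l ∈ Finset.Ico i j, (bv A u l ^ 2 / R - 1)| ≤ ω

/-- **NRM** (200 lines; from BLK, OPD, SPB, LMX, EDG). Norms of the gradient vectors at scale `1`.
Proof. `m = k - i`, `T = blk A u (i+1) (2m+1)`, `P_l = (opp a b (i+1) l).2`, `α_s = a_{i+1+s}`, `B_s = b_{i+1+s}`: EdgeData with
`N = 2m+1` and `N = m`; by BLK and LMX `|⟪x, T x⟫| ≤ (2 + 100 ω²) ‖x‖²`. First vector: by (d) and (c) of BLK it is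
`(b_k P_{m-1} P_m - (opp (i+1) (m-1)).1 P_{m-1})(T) q_{i+1} = (b_k P_m - (opp (i+1) (m-1)).1)(T) q_k`, and
`b_k P_m(y) - (opp ..).1(y) = B_{m-1} p_m - B_{m-2} p_{m-2}` (`= y - α_0` for `m = 1`). Second vector: it is
`((a_{k+1} - a_k) P_{m-1} P_m + b_{k+1} P_{m-1} P_{m+1} - (opp (i+1) (m-1)).1 P_m)(T) q_{i+1}
= b_k (P_m² - P_{m-1}²)(T) q_{i+1}` (`b_{k+1} P_{m+1} = (X - a_{k+1}) P_m - b_k P_{m-1}`, `(opp (i+1) (m-1)).1 =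
(X - a_k) P_{m-1} - b_k P_m`); SPB with `f₁ = g₂ = P_m - P_{m-1}`, `f₂ = g₁ = P_m + P_{m-1}`, `‖g₁(T) q_{i+1}‖² =
‖q_{k+1} + q_k‖² = 2`; `b_k ≤ 1 + ω ≤ exp (ex)`. `ex` is monotone in `N` and for subintervals. -/
def SpecNRM : Prop := ∃ C : ℝ, 0 < C ∧ ∀ (E : Type) [NormedAddCommGroup E]
  [InnerProductSpace ℝ E] [FiniteDimensional ℝ E] (A : E →L[ℝ] E) (u : E) (k : ℕ) (ω : ℝ),
  GData A u k 1 ω → ∀ i < k,
  ‖bv A u k • aeval A (opp (av A u) (bv A u) (i + 1) (k - 1 - i)).2 (qv A u (k + 1)) -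
      aeval A (opp (av A u) (bv A u) (i + 1) (k - 1 - i)).1 (qv A u k)‖ ≤
    C * Real.exp (C * ex (2 * k + 3) ω (bv A u)) ∧
  ‖(av A u (k + 1) - av A u k) • aeval A (opp (av A u) (bv A u) (i + 1) (k - 1 - i)).2
        (qv A u (k + 1)) +
      bv A u (k + 1) • aeval A (opp (av A u) (bv A u) (i + 1) (k - 1 - i)).2 (qv A u (k + 2)) -
      aeval A (opp (av A u) (bv A u) (i + 1) (k - 1 - i)).1 (qv A u (k + 1))‖ ≤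
    C * Real.exp (C * ex (2 * k + 3) ω (bv A u))

/-- **SCL** (60 lines). Scaling. Proof: induction on `j`. -/
def SpecSCL : Prop := ∀ (E : Type) [NormedAddCommGroup E] [InnerProductSpace ℝ E]
  (A : E →L[ℝ] E) (u : E) (c : ℝ), 0 < c → ∀ j,
  lan (c • A) u j = (c • (lan A u j).1, (lan A u j).2) ∧ qv (c • A) u j = qv A u j ∧
  av (c • A) u j = c * av A u j ∧ bv (c • A) u j = c * bv A u j

/-- **GBD** (150 lines; from NRM, CHD, GRA, GRB, DIF, SCL). The gradient bound.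
Proof. Scale `1`: `x_i = 2 b_i⁻¹ w_i` (`i < k`), `x_k = q_k`; `d(b_k²) = 2 b_k db_k`, `y_i = 2 b_k b_i⁻¹ w'_i`, `y_k = 2 b_k q_{k+1}`;
`b_i⁻¹ ≤ 2 exp (ex)`, `b_k ≤ 1 + ω`. Scale `R`: apply this to `A' = c A`, `c = R^{-1/2}`: `av A = c⁻¹ av (c A)`, so
`fderiv (av) A H = fderiv (av) (c A) H`, and `fderiv (bv²) A H = c⁻¹ fderiv (bv²) (c A) H`. -/
def SpecGBD : Prop := ∃ C : ℝ, 0 < C ∧ ∀ (E : Type) [NormedAddCommGroup E]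
  [InnerProductSpace ℝ E] [FiniteDimensional ℝ E] (A : E →L[ℝ] E) (u : E) (k : ℕ) (R ω : ℝ),
  GData A u k R ω → ∃ x y : ℕ → E,
  (∀ H : E →L[ℝ] E, (∀ x y, ⟪H x, y⟫ = ⟪x, H y⟫) →
    fderiv ℝ (fun A : E →L[ℝ] E => av A u k) A H =
      ∑ i ∈ Finset.range (k + 1), ⟪x i, H (qv A u i)⟫) ∧
  (∀ H : E →L[ℝ] E, (∀ x y, ⟪H x, y⟫ = ⟪x, H y⟫) →
    fderiv ℝ (fun A : E →L[ℝ] E => bv A u k ^ 2) A H =
      ∑ i ∈ Finset.range (k + 1), ⟪y i, H (qv A u i)⟫) ∧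
  ∑ i ∈ Finset.range (k + 1), ‖x i‖ ^ 2 ≤
    C * (k + 1) * Real.exp (C * ex (2 * k + 3) ω (fun l => bv A u l / Real.sqrt R)) ∧
  ∑ i ∈ Finset.range (k + 1), ‖y i‖ ^ 2 ≤
    C * R * (k + 1) * Real.exp (C * ex (2 * k + 3) ω (fun l => bv A u l / Real.sqrt R))

/-- **POS** (80 lines). A differentiable function with integrable logarithmic derivative has no zero.
Proof. Let `g ψ₁ > 0`, and suppose `g ψ₀ = 0`; take the zero nearest to `ψ₁` on the segment between them. Between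
this zero and `ψ₁` `g > 0` and `|log g ψ₁ - log g ψ| ≤ ∫ |g'| / g ≤ I < ∞`, so `g ψ ≥ g ψ₁ e^{-I}`; continuity. -/
def SpecPOS : Prop := ∀ (g g' : ℝ → ℝ) (L : ℝ), (∀ x ∈ Set.Icc 0 L, HasDerivAt g (g' x) x) →
  (∀ x, 0 ≤ g x) → (∃ x ∈ Set.Icc 0 L, 0 < g x) →
  (∫⁻ x in Set.Icc 0 L, ENNReal.ofReal (|g' x| / g x)) ≠ ⊤ →
  Measurable g' → ∀ x ∈ Set.Icc 0 L, 0 < g x

end Pool.Agent.Lib.MP17fa2c
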