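import Pool.Agent.Lib.MP_17fa2c_pr.TD.SpecA
import Pool.Agent.Lib.MP_17fa2c_pr.TD.SpecT

/-!
# MP_17fa2c_pr, block M: moments, the Dumitriu–Edelman law, time regularity

Every module: file `TD/XXX.lean`, `import Pool.Agent.Lib.MP_17fa2c_pr.TD.SpecM`,
`theorem specXXX (hYYY : SpecYYY) .. : SpecXXX`, own lemmas in the namespace `XXXM`.
-/

set_option autoImplicit false

open MeasureTheory ProbabilityTheory Filter Topology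
open scoped RealInnerProductSpace NNReal ENNReal

namespace Pool.Agent.Lib.MP17fa2c

/-! ## Moments of the Dumitriu–Edelman law -/

/-- law of the norm of a standard Gaussian vector of `ℝ^N` -/
noncomputable def chi (N : ℕ) : Measure ℝ :=
  (stdGaussian (EuclideanSpace ℝ (Fin N))).map (fun x => ‖x‖)

/-- independent `a_j ~ N(0,2)`, `b_j ~ χ_{N_j}` -/
noncomputable def deLaw (N : ℕ → ℕ) (K : ℕ) : Measure (Fin K → ℝ × ℝ) :=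
  Measure.pi (fun j => (gaussianReal 0 2).prod (chi (N j)))

/-- extension by `0` of the two coordinates -/
noncomputable def xa {K : ℕ} (w : Fin K → ℝ × ℝ) (l : ℕ) : ℝ := if h : l < K then (w ⟨l, h⟩).1 else 0
/-- see `xa` -/
noncomputable def xb {K : ℕ} (w : Fin K → ℝ × ℝ) (l : ℕ) : ℝ := if h : l < K then (w ⟨l, h⟩).2 else 0

/-- largest partial sum of the `a_i / √R`, up to `K` -/
noncomputable def sma (K : ℕ) (R : ℝ) (a : ℕ → ℝ) : ℝ :=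
  (Finset.range (K + 1)).sup' ⟨0, by simp⟩
    (fun l => |∑ i ∈ Finset.range l, a i / Real.sqrt R|)
/-- largest partial sum of the `b_i² / R - 1`, up to `K` -/
noncomputable def smb (K : ℕ) (R : ℝ) (b : ℕ → ℝ) : ℝ :=
  (Finset.range (K + 1)).sup' ⟨0, by simp⟩
    (fun l => |∑ i ∈ Finset.range l, (b i ^ 2 / R - 1)|)
/-- the `ω` of the edge estimates -/
noncomputable def osc (K : ℕ) (R : ℝ) (a b : ℕ → ℝ) : ℝ := 1 / K + 2 * sma K R a + 2 * smb K R b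
/-- the exponent of the edge estimates -/
noncomputable def xe (K : ℕ) (R : ℝ) (a b : ℕ → ℝ) : ℝ :=
  ex K (osc K R a b) (fun l => b l / Real.sqrt R)

/-- **MGC** (80 lines). Exponential moments of `χ²`. (Product of one-dimensional integrals;
`stdGaussian_eq_map_pi_orthonormalBasis`, Gaussian integral.) -/
def SpecMGC : Prop := ∀ (N : ℕ) (θ : ℝ), θ < 1 / 2 →
  ∫⁻ x, ENNReal.ofReal (Real.exp (θ * x ^ 2)) ∂(chi N) =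
    ENNReal.ofReal ((1 - 2 * θ) ^ (-(N : ℝ) / 2))

/-- **NEG** (120 lines). Negative moments of `χ²`.
Proof. `‖x‖²/N = (1/N) ∑ x_i² ≥ ∏ |x_i|^{2/N}` (AM–GM), so `E (‖x‖²/N)^{-r} ≤ (E |z|^{-2r/N})^N`, and by Jensen
`E |z|^{-2r/N} ≤ (E |z|^{-1/2})^{4r/N}` (`2r/N ≤ 1/2`). `E |z|^{-1/2} ≤ 1 + 4/√(2π)`. -/
def SpecNEG : Prop := ∃ C : ℝ, 1 ≤ C ∧ ∀ (N : ℕ) (r : ℝ), 0 < N → 0 ≤ r → 4 * r ≤ N →
  ∫⁻ x, ENNReal.ofReal ((x ^ 2 / N) ^ (-r)) ∂(chi N) ≤ ENNReal.ofReal (C ^ r)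

/-- **EXA** (120 lines). Proof. `exp (t S) = (exp (100 t S))^{1/100} ≤ (∑_{l ≤ K} (exp (100 t A_l) + exp (-100 t A_l)))^{1/100}`,
`A_l = ∑_{i<l} a_i / √R`; Jensen (`E Y^{1/100} ≤ (E Y)^{1/100}`) and `E exp (s A_l) = exp (s² l / R)`. -/
def SpecEXA : Prop := ∀ (K : ℕ) (R t : ℝ) (N : ℕ → ℕ), 0 < R → 0 ≤ t →
  ∫⁻ w, ENNReal.ofReal (Real.exp (t * sma K R (xa w))) ∂(deLaw N K) ≤
    ENNReal.ofReal ((2 * ((K : ℝ) + 1)) ^ (1 / 100 : ℝ) * Real.exp (100 * t ^ 2 * K / R))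

/-- **EXC** (150 lines; from MGC). Proof. As EXA, with `E exp (s (b²/D - 1)) = e^{-s} (1 - 2 s/D)^{-N/2} ≤
exp (|s| (D - N)/D + 2 s²/D)` for `|s| ≤ D/4` (`-log (1 - x) ≤ x + x²` for `|x| ≤ 1/2`), `N = D - β (i+1)`,
`∑_{i<l} (i+1) ≤ K²`, `s = ± 100 t`. -/
def SpecEXC : Prop := ∀ (β K D : ℕ) (t : ℝ), 0 ≤ t → 400 * t ≤ D → β * K ≤ D → 0 < D →
  ∫⁻ w, ENNReal.ofReal (Real.exp (t * smb K D (xb w))) ∂(deLaw (fun j => D - β * (j + 1)) K) ≤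
    ENNReal.ofReal ((2 * ((K : ℝ) + 1)) ^ (1 / 100 : ℝ) *
      Real.exp (t * β * K ^ 2 / D + 200 * t ^ 2 * K / D))

/-- **SMB** (120 lines; from MGC, NEG). Small `b`.
Proof. The integral is `∏_l E exp (s max (0, -log (2 B_l)))`, `B = b/√D`, each factor is `≤ 1 + E[(2B)^{-s}; 2B < 1] ≤
1 + (E (2B)^{-2s} P(2B < 1))^{1/2}`. For `N ≥ 3D/4`: `E (4 B²)^{-s} ≤ E (2 b²/N)^{-s} ≤ C^s` (NEG), `P(b² < D/4) ≤ e^{D/4} E e^{-b²} =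
e^{D/4} 3^{-N/2} ≤ e^{-D/8}`. So the product is `≤ (1 + C_s e^{-D/16})^K ≤ 2`. -/
def SpecSMB : Prop := ∀ (β : ℕ) (s : ℝ), 0 < s → ∃ C : ℝ, 0 < C ∧ ∀ (K D : ℕ), 1 ≤ K → C * K ≤ D →
  ∫⁻ w, ENNReal.ofReal (Real.exp (s * ∑ l ∈ Finset.range K,
    max 0 (-Real.log (2 * (xb w l / Real.sqrt D))))) ∂(deLaw (fun j => D - β * (j + 1)) K) ≤ 2

/-- **XMO** (120 lines; from EXA, EXC, SMB). Exponential moments of the exponent of the edge estimates.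
Proof. `exp (s xe) = e^s · e^{2 s K sma} · e^{2 s K smb} · e^{s ∑ ...} ≤ e^s (x³ + y³ + z³)/3`; EXA and EXC with `t = 6 s K`. -/
def SpecXMO : Prop := ∀ (β : ℕ) (s : ℝ), 0 < s → ∃ C : ℝ, 0 < C ∧ ∀ (K D : ℕ), 1 ≤ K → C * K ≤ D →
  ∫⁻ w, ENNReal.ofReal (Real.exp (s * xe K D (xa w) (xb w)))
    ∂(deLaw (fun j => D - β * (j + 1)) K) ≤
  ENNReal.ofReal (C * (K : ℝ) ^ (1 / 100 : ℝ) * Real.exp (C * K ^ 3 / D))

/-! ## The Dumitriu–Edelman law -/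

/-- **DL1** (200 lines; from RPE, KNO, EXO, TRA, IND, GLF, ISO, CHN, JON, MEA, LOR). One step.
Proof. RPE with `j = K`. For `M` with `b_0, …, b_{K-1} ≠ 0` and `M' = res Π_K M G`: the coefficients of index
`< K`, `q = q_K` and `Π_{K+1}` do not change (KNO), `‖q‖ = 1`, `Π_K q = 0` (EXO). `M' q = Π_K M q + cp Π_K G q`, so
`a_K(M') = ⟪q, G q⟫`; with `Q = cp Π_{K+1}`: `b_K(M') = ‖Q M' q‖ = ‖Q G q‖` (EXO, KNO; `Q Π_K = 0`), `tr Q = D - β (K+1)`.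
`⟪q, G q⟫ = ⟪q, cp Q G cp Q q⟫` and `Q G q = Q G cp Q q` are independent (IND), `⟪q, G q⟫ ~ N(0,2)` (GLF, JON),
`Q G q ~ Q x`, `x` standard (ISO), `‖Q x‖ ~ χ` (CHN). -/
def SpecDL1 : Prop := ∀ (ι : Type) [Fintype ι] [DecidableEq ι] (E : Type) [NormedAddCommGroup E]
  [InnerProductSpace ℝ E] [FiniteDimensional ℝ E] (S : BStr ι E) (u : E)
  (ν : Measure (Unit → E →L[ℝ] E)), GFam S (fun _ _ => 1) ν → ‖u‖ = 1 → ∀ K : ℕ,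
  Fintype.card ι * (K + 1) ≤ Module.finrank ℝ E →
  (∀ᵐ M ∂ν, ∀ l < K, bv (M ()) u l ≠ 0) →
  ∀ F : (Fin K → ℝ × ℝ) × (ℝ × ℝ) → ℝ≥0∞, Measurable F →
  ∫⁻ M, F (fun j => (av (M ()) u j, bv (M ()) u j), (av (M ()) u K, bv (M ()) u K)) ∂ν =
  ∫⁻ M, ∫⁻ z, F (fun j => (av (M ()) u j, bv (M ()) u j), z)
    ∂((gaussianReal 0 2).prod (chi (Module.finrank ℝ E - Fintype.card ι * (K + 1)))) ∂ν

/-- **DEL** (120 lines; from DL1). The Dumitriu–Edelman law.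
Proof. Induction on `K`; `b_K ≠ 0` a.s. because `chi N {0} = 0` for `N ≥ 1`. -/
def SpecDEL : Prop := ∀ (ι : Type) [Fintype ι] [DecidableEq ι] (E : Type) [NormedAddCommGroup E]
  [InnerProductSpace ℝ E] [FiniteDimensional ℝ E] (S : BStr ι E) (u : E)
  (ν : Measure (Unit → E →L[ℝ] E)), GFam S (fun _ _ => 1) ν → ‖u‖ = 1 → ∀ K : ℕ,
  Fintype.card ι * K < Module.finrank ℝ E →
  (∀ᵐ M ∂ν, ∀ l < K, bv (M ()) u l ≠ 0) ∧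
  ν.map (fun M (j : Fin K) => (av (M ()) u j, bv (M ()) u j)) =
    deLaw (fun j => Module.finrank ℝ E - Fintype.card ι * (j + 1)) K

/-- **DMO** (60 lines; from DEL, XMO). -/
def SpecDMO : Prop := ∀ (ι : Type) [Fintype ι] [DecidableEq ι] (s : ℝ), 0 < s →
  ∃ C : ℝ, 0 < C ∧ ∀ (E : Type) [NormedAddCommGroup E]
  [InnerProductSpace ℝ E] [FiniteDimensional ℝ E] (S : BStr ι E) (u : E)
  (ν : Measure (Unit → E →L[ℝ] E)), GFam S (fun _ _ => 1) ν → ‖u‖ = 1 → ∀ K : ℕ, 1 ≤ K →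
  C * K ≤ dm E →
  (∀ᵐ M ∂ν, ∀ l < K, bv (M ()) u l ≠ 0) ∧
  ∫⁻ M, ENNReal.ofReal (Real.exp (s * xe K (dm E) (av (M ()) u) (bv (M ()) u))) ∂ν ≤
    ENNReal.ofReal (C * (K : ℝ) ^ (1 / 100 : ℝ) * Real.exp (C * K ^ 3 / dm E))

/-! ## Time regularity -/

/-- **VAR** (120 lines; from GLF, GMO, JON). Variance of the derivative in a Gaussian direction.
Proof. `v = ∑ ‖x_i‖² + ∑_{i,l,a} ⟪x_i, J a q_l⟫ ⟪q_i, J a x_l⟫`, `|⟪q_i, J a x_l⟫| = |⟪J a q_i, x_l⟫|`, so the second sum is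
`≤ ∑_{i,l,a} ⟪x_i, J a q_l⟫² ≤ ∑ ‖x_i‖²` (Bessel: the `J a q_l` are orthonormal). Fourth moment `3 v²`, first moment `≤ √v`. -/
def SpecVAR : Prop := ∀ (ι : Type) [Fintype ι] [DecidableEq ι] (E : Type) [NormedAddCommGroup E]
  [InnerProductSpace ℝ E] [FiniteDimensional ℝ E] (S : BStr ι E)
  (ν : Measure (Unit → E →L[ℝ] E)), GFam S (fun _ _ => 1) ν → ∀ (k : ℕ) (x q : ℕ → E),
  (∀ a, ∀ i < k, ∀ j < k, ⟪q i, S.J a (q j)⟫ = if a = S.o ∧ i = j then 1 else 0) →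
  ∫⁻ G, ENNReal.ofReal ((∑ i ∈ Finset.range k, ⟪x i, G () (q i)⟫) ^ 4) ∂ν ≤
    ENNReal.ofReal (12 * (∑ i ∈ Finset.range k, ‖x i‖ ^ 2) ^ 2) ∧
  ∫⁻ G, ENNReal.ofReal |∑ i ∈ Finset.range k, ⟪x i, G () (q i)⟫| ∂ν ≤
    ENNReal.ofReal (Real.sqrt (2 * ∑ i ∈ Finset.range k, ‖x i‖ ^ 2))

/-- **ROT** (80 lines). Rotation invariance of a pair of independent copies.
(`IsGaussian.map_rotation_eq_self..` or characteristic functions.) -/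
def SpecROT : Prop := ∀ (ι : Type) [Fintype ι] [DecidableEq ι] (E : Type) [NormedAddCommGroup E]
  [InnerProductSpace ℝ E] [FiniteDimensional ℝ E] (T : Type) [Fintype T] (S : BStr ι E)
  (c : T → T → ℝ) (ν : Measure (T → E →L[ℝ] E)), GFam S c ν → ∀ ψ : ℝ,
  (ν.prod ν).map (fun p => (Real.cos ψ • p.1 + Real.sin ψ • p.2,
    -Real.sin ψ • p.1 + Real.cos ψ • p.2)) = ν.prod ν

/-- correlations of a pair -/
def c2 (c : ℝ) (i l : Fin 2) : ℝ := if i = l then 1 else c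

/-- **PRL** (80 lines). The pair `(M, cos φ M + sin φ G)` is a Gaussian family. -/
def SpecPRL : Prop := ∀ (ι : Type) [Fintype ι] [DecidableEq ι] (E : Type) [NormedAddCommGroup E]
  [InnerProductSpace ℝ E] [FiniteDimensional ℝ E] (S : BStr ι E)
  (ν : Measure (Unit → E →L[ℝ] E)), GFam S (fun _ _ => 1) ν → ∀ φ : ℝ,
  GFam S (c2 (Real.cos φ)) ((ν.prod ν).map (fun p (i : Fin 2) =>
    if i = 0 then p.1 () else Real.cos φ • p.1 () + Real.sin φ • p.2 ()))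

/-- **MDF** (40 lines). Measurability of derivatives (`measurable_fderiv`). -/
def SpecMDF : Prop := ∀ (E : Type) [NormedAddCommGroup E]
  [InnerProductSpace ℝ E] [FiniteDimensional ℝ E] (F : (E →L[ℝ] E) → ℝ),
  Measurable fun p : (E →L[ℝ] E) × (E →L[ℝ] E) => fderiv ℝ F p.1 p.2

/-- **DBD** (120 lines; from GBD, VAR, DMO, LOR, LHM). Moments of the derivatives in a Gaussian direction.
Proof. For a.e. `M` `GData (M ()) u k D ω` holds with `ω = osc (2k+3) D ..` (`∑_{Ico i j} = ∑_{range j} - ∑_{range i}`);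
for such an `M` the inner integrals over `G` are bounded by GBD and VAR. `∑ ‖x_i‖² ≤ C (k+1) exp (C xe)`. For the
last claim: `E [b⁻² √(2 ∑ ‖y_i‖²)] ≤ (E b⁻⁴)^{1/2} (2 C D (k+1) E exp (C xe))^{1/2}`, `E b⁻⁴ < ∞` by DEL and NEG (`N ≥ 8`). -/
def SpecDBD : Prop := ∀ (ι : Type) [Fintype ι] [DecidableEq ι],
  ∃ C : ℝ, 0 < C ∧ ∀ (E : Type) [NormedAddCommGroup E]
  [InnerProductSpace ℝ E] [FiniteDimensional ℝ E] (S : BStr ι E) (u : E)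
  (ν : Measure (Unit → E →L[ℝ] E)), GFam S (fun _ _ => 1) ν → ‖u‖ = 1 → ∀ k : ℕ,
  C * (k + 1) ≤ dm E →
  ∫⁻ M, ∫⁻ G, ENNReal.ofReal
      ((fderiv ℝ (fun A : E →L[ℝ] E => av A u k) (M ()) (G ())) ^ 4) ∂ν ∂ν ≤
    ENNReal.ofReal (C * ((k : ℝ) + 1) ^ 2 * ((k : ℝ) + 1) ^ (1 / 100 : ℝ) *
      Real.exp (C * (k + 1) ^ 3 / dm E)) ∧
  ∫⁻ M, ∫⁻ G, ENNReal.ofReal
      ((fderiv ℝ (fun A : E →L[ℝ] E => bv A u k ^ 2) (M ()) (G ())) ^ 4) ∂ν ∂ν ≤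
    ENNReal.ofReal (C * dm E ^ 2 * ((k : ℝ) + 1) ^ 2 * ((k : ℝ) + 1) ^ (1 / 100 : ℝ) *
      Real.exp (C * (k + 1) ^ 3 / dm E)) ∧
  ∫⁻ M, ∫⁻ G, ENNReal.ofReal
      (|fderiv ℝ (fun A : E →L[ℝ] E => bv A u k ^ 2) (M ()) (G ())| / bv (M ()) u k ^ 2) ∂ν ∂ν ≠ ⊤

/-- **PSA** (150 lines; from POS, DIF, MDF, ROT, DBD, DMO). Almost surely no `b_l` vanishes along the path.
Proof. Induction on `l`; `g ψ = b_l(M_ψ)²`, `M_ψ = cos ψ M + sin ψ G`, `M'_ψ = -sin ψ M + cos ψ G`,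
`g' ψ = fderiv (bv²) M_ψ M'_ψ` (DIF, the `b_{l'}`, `l' < l`, do not vanish on the path). By Tonelli (MDF) and ROT
`E ∫_0^{2π} |g'|/g = 2π E_M E_G |fderiv (bv²) M G| / b_l(M)² < ∞`; `g 0 > 0` a.s.; POS with `L = 2π`, periodicity. -/
def SpecPSA : Prop := ∀ (ι : Type) [Fintype ι] [DecidableEq ι],
  ∃ C : ℝ, 0 < C ∧ ∀ (E : Type) [NormedAddCommGroup E]
  [InnerProductSpace ℝ E] [FiniteDimensional ℝ E] (S : BStr ι E) (u : E)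
  (ν : Measure (Unit → E →L[ℝ] E)), GFam S (fun _ _ => 1) ν → ‖u‖ = 1 → ∀ k : ℕ,
  C * (k + 1) ≤ dm E →
  ∀ᵐ p ∂(ν.prod ν), ∀ ψ : ℝ, ∀ l ≤ k, bv (Real.cos ψ • p.1 () + Real.sin ψ • p.2 ()) u l ≠ 0

/-- **INC** (150 lines; from PSA, DIF, MDF, ROT, DBD). Increments along the path.
Proof. `F = av` or `bv²`. For a.e. `p` the function `ψ ↦ F(M_ψ)` is differentiable with derivative
`fderiv F M_ψ M'_ψ`, so `|F(M_φ) - F(M_0)|⁴ ≤ φ³ ∫_0^φ |fderiv F M_ψ M'_ψ|⁴ dψ`; Tonelli, ROT, DBD. -/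
def SpecINC : Prop := ∀ (ι : Type) [Fintype ι] [DecidableEq ι],
  ∃ C : ℝ, 0 < C ∧ ∀ (E : Type) [NormedAddCommGroup E]
  [InnerProductSpace ℝ E] [FiniteDimensional ℝ E] (S : BStr ι E) (u : E)
  (ν : Measure (Unit → E →L[ℝ] E)), GFam S (fun _ _ => 1) ν → ‖u‖ = 1 → ∀ (k : ℕ) (φ : ℝ),
  C * (k + 1) ≤ dm E → 0 ≤ φ →
  ∫⁻ p, ENNReal.ofReal ((av (Real.cos φ • p.1 () + Real.sin φ • p.2 ()) u k -
      av (p.1 ()) u k) ^ 4) ∂(ν.prod ν) ≤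
    ENNReal.ofReal (C * φ ^ 4 * ((k : ℝ) + 1) ^ 2 * ((k : ℝ) + 1) ^ (1 / 100 : ℝ) *
      Real.exp (C * (k + 1) ^ 3 / dm E)) ∧
  ∫⁻ p, ENNReal.ofReal ((bv (Real.cos φ • p.1 () + Real.sin φ • p.2 ()) u k ^ 2 -
      bv (p.1 ()) u k ^ 2) ^ 4) ∂(ν.prod ν) ≤
    ENNReal.ofReal (C * dm E ^ 2 * φ ^ 4 * ((k : ℝ) + 1) ^ 2 * ((k : ℝ) + 1) ^ (1 / 100 : ℝ) *
      Real.exp (C * (k + 1) ^ 3 / dm E))

/-- **TSI** (80 lines; from INC, PRL, UNQ, MRG, MEA). Fourth moment of the increments of the process.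
Proof. `φ = arccos (exp (-τ)) ∈ [0, π/2]`; `1 - cos φ ≥ 2 φ²/π²`, so `φ⁴ ≤ 25 τ²`. The law of the pair is that of
`(M, cos φ M + sin φ G)` (PRL, UNQ). -/
def SpecTSI : Prop := ∀ (ι : Type) [Fintype ι] [DecidableEq ι],
  ∃ C : ℝ, 0 < C ∧ ∀ (E : Type) [NormedAddCommGroup E]
  [InnerProductSpace ℝ E] [FiniteDimensional ℝ E] (S : BStr ι E) (u : E) (τ : ℝ)
  (μ : Measure (Fin 2 → E →L[ℝ] E)), 0 ≤ τ → GFam S (c2 (Real.exp (-τ))) μ → ‖u‖ = 1 →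
  ∀ (k : ℕ), C * (k + 1) ≤ dm E →
  ∫⁻ M, ENNReal.ofReal ((av (M 1) u k - av (M 0) u k) ^ 4) ∂μ ≤
    ENNReal.ofReal (C * τ ^ 2 * ((k : ℝ) + 1) ^ 2 * ((k : ℝ) + 1) ^ (1 / 100 : ℝ) *
      Real.exp (C * (k + 1) ^ 3 / dm E)) ∧
  ∫⁻ M, ENNReal.ofReal ((bv (M 1) u k ^ 2 - bv (M 0) u k ^ 2) ^ 4) ∂μ ≤
    ENNReal.ofReal (C * dm E ^ 2 * τ ^ 2 * ((k : ℝ) + 1) ^ 2 * ((k : ℝ) + 1) ^ (1 / 100 : ℝ) *
      Real.exp (C * (k + 1) ^ 3 / dm E))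

end Pool.Agent.Lib.MP17fa2c
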