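import Pool.Agent.Lib.MP_17fa2c_pr.TD.SpecE
import Pool.Agent.Lib.MP_17fa2c_pr.TD.SpecL
import Pool.Agent.Lib.MP_17fa2c_pr.TD.RUP
import Pool.Agent.Lib.MP_17fa2c_pr.TD.NCM
import Pool.Agent.Lib.MP_17fa2c_pr.TD.RSB

section
/-!
# MP_17fa2c_pr, module GI1: Gaussian integrals with a fixed projection
-/
set_option autoImplicit false

open MeasureTheory ProbabilityTheory Filter Topology
open scoped RealInnerProductSpace NNReal ENNReal

namespace Pool.Agent.Lib.MP17fa2c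

namespace GI1M

variable {ι : Type} [Fintype ι] [DecidableEq ι] {E : Type} [NormedAddCommGroup E]
  [InnerProductSpace ℝ E]

theorem Jself (S : BStr ι E) (a : ι) (x : E) :
    ⟪x, S.J a x⟫ = if a = S.o then ‖x‖ ^ 2 else 0 := by
  split_ifs with h
  · rw [h, S.J_o, real_inner_self_eq_norm_sq]
  · have h1 := S.skew a h x x
    rw [real_inner_comm] at h1
    linarith

theorem Jort (S : BStr ι E) {Q : E →L[ℝ] E} (hQ : IsPr S Q) {r : E} (hr : Q r = 0) (a : ι)
    (y : E) : ⟪Q y, S.J a r⟫ = 0 := by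
  rw [hQ.1.1, hQ.1.2, hr, map_zero, inner_zero_right]

variable [FiniteDimensional ℝ E] {T : Type} [Fintype T]

/-- The trace of a projection is a natural number. -/
theorem tr_nat (Q : E →L[ℝ] E) (hQ : ∀ x, Q (Q x) = Q x) : ∃ n : ℕ, tr Q = n := by
  refine ⟨Module.finrank ℝ (LinearMap.range (Q : E →ₗ[ℝ] E)), ?_⟩
  have h : LinearMap.IsProj (LinearMap.range (Q : E →ₗ[ℝ] E)) (Q : E →ₗ[ℝ] E) :=
    ⟨fun x => ⟨x, rfl⟩, fun x hx => by
      obtain ⟨y, rfl⟩ := hx
      exact hQ y⟩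
  exact h.trace

theorem int_norm (E : Type) [NormedAddCommGroup E] [InnerProductSpace ℝ E]
    [FiniteDimensional ℝ E] [MeasurableSpace E] [BorelSpace E] (k : ℕ) :
    Integrable (fun x : E => ‖x‖ ^ k) (stdGaussian E) :=
  (IsGaussian.memLp_id (stdGaussian E) (k : ℝ≥0∞) (by simp)).integrable_norm_pow'

/-- Moments of the norm of an isotropic vector. -/
theorem key [MeasurableSpace E] [BorelSpace E] (hISO : SpecISO) (hCHN : SpecCHN) (S : BStr ι E)
    (c : T → T → ℝ) (ν : Measure (T → E →L[ℝ] E)) (hν : GFam S c ν) (hc : ∀ i l, c i l = c l i)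
    (Q : E →L[ℝ] E) (hQ : IsPr S Q) (f : T → E) (hf : ∀ t, Q (f t) = 0) (σ : ℝ)
    (hσ : σ = ∑ i, ∑ l, c i l * ⟪f i, f l⟫) :
    0 ≤ σ ∧ Integrable (fun G : T → E →L[ℝ] E => ‖∑ t, Q (G t (f t))‖ ^ 2) ν ∧
    ∫ G, ‖∑ t, Q (G t (f t))‖ ^ 2 ∂ν = σ * tr Q ∧
    Integrable (fun G : T → E →L[ℝ] E => (‖∑ t, Q (G t (f t))‖ ^ 2 - σ * tr Q) ^ 2) ν ∧
    ∫ G, (‖∑ t, Q (G t (f t))‖ ^ 2 - σ * tr Q) ^ 2 ∂ν = 2 * σ ^ 2 * tr Q := by
  obtain ⟨h0, hlaw⟩ := hISO ι E T S c ν hν hc Q f hQ hf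
  rw [← hσ] at h0 hlaw
  obtain ⟨n, hn⟩ := tr_nat Q hQ.2
  obtain ⟨-, m1, m2⟩ := hCHN E Q n hQ.1.1 hQ.2 hn
  have := hν.gauss
  have hZ : Measurable (fun G : T → E →L[ℝ] E => ∑ t, Q (G t (f t))) := by
    refine Finset.measurable_sum _ fun i _ => ?_
    exact Q.measurable.comp ((ContinuousLinearMap.measurable_apply (f i)).comp
      (measurable_pi_apply i))
  have hQx : Measurable (fun x : E => Real.sqrt σ • Q x) := Q.measurable.const_smul _
  have hint : ∀ φ : E → ℝ, Continuous φ → ∫ G, φ (∑ t, Q (G t (f t))) ∂ν =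
      ∫ x, φ (Real.sqrt σ • Q x) ∂(stdGaussian E) := by
    intro φ hφ
    rw [← integral_map hZ.aemeasurable hφ.aestronglyMeasurable, hlaw,
      integral_map hQx.aemeasurable hφ.aestronglyMeasurable]
  have hinte : ∀ φ : E → ℝ, Continuous φ →
      Integrable (fun x : E => φ (Real.sqrt σ • Q x)) (stdGaussian E) →
      Integrable (fun G : T → E →L[ℝ] E => φ (∑ t, Q (G t (f t)))) ν := by
    intro φ hφ hI
    have h1 : Integrable φ ((stdGaussian E).map (fun x : E => Real.sqrt σ • Q x)) :=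
      (integrable_map_measure hφ.aestronglyMeasurable hQx.aemeasurable).mpr hI
    rw [← hlaw] at h1
    exact (integrable_map_measure hφ.aestronglyMeasurable hZ.aemeasurable).mp h1
  have hsq : ∀ x : E, ‖Real.sqrt σ • Q x‖ ^ 2 = σ * ‖Q x‖ ^ 2 := by
    intro x
    rw [norm_smul, mul_pow, Real.norm_of_nonneg (Real.sqrt_nonneg _), Real.sq_sqrt h0]
  have hQi : ∀ k : ℕ, Integrable (fun x : E => ‖Q x‖ ^ k) (stdGaussian E) := by
    intro k
    refine ((int_norm E k).const_mul (‖Q‖ ^ k)).mono' ?_ (Eventually.of_forall fun x => ?_)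
    · exact (by fun_prop : Continuous fun x : E => ‖Q x‖ ^ k).aestronglyMeasurable
    · rw [Real.norm_of_nonneg (by positivity), ← mul_pow]
      exact pow_le_pow_left₀ (norm_nonneg _) (Q.le_opNorm x) k
  refine ⟨h0, ?_, ?_, ?_, ?_⟩
  · apply hinte (fun z => ‖z‖ ^ 2) (by fun_prop)
    simp only [hsq]
    exact (hQi 2).const_mul σ
  · rw [hint (fun z => ‖z‖ ^ 2) (by fun_prop)]
    simp only [hsq]
    rw [integral_const_mul, m1, hn]
  · apply hinte (fun z => (‖z‖ ^ 2 - σ * tr Q) ^ 2) (by fun_prop)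
    simp only [hsq]
    have e : (fun x : E => (σ * ‖Q x‖ ^ 2 - σ * tr Q) ^ 2) = fun x : E =>
        σ ^ 2 * ‖Q x‖ ^ 4 - 2 * σ ^ 2 * tr Q * ‖Q x‖ ^ 2 + (σ * tr Q) ^ 2 := by
      funext x
      ring
    rw [e]
    exact (((hQi 4).const_mul _).sub ((hQi 2).const_mul _)).add (integrable_const _)
  · rw [hint (fun z => (‖z‖ ^ 2 - σ * tr Q) ^ 2) (by fun_prop)]
    simp only [hsq]
    have e : (fun x : E => (σ * ‖Q x‖ ^ 2 - σ * tr Q) ^ 2) = fun x : E =>
        σ ^ 2 * (‖Q x‖ ^ 2 - (n : ℝ)) ^ 2 := by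
      funext x
      rw [hn]
      ring
    rw [e, integral_const_mul, m2, hn]
    ring

end GI1M

open GI1M in
theorem specGI1 (hJON : SpecJON) (hTRA : SpecTRA) (hISO : SpecISO) (hCHN : SpecCHN) :
    SpecGI1 := by
  classical
  intro ι _ _ E _ _ _ T _ S c ν hν hcor Q hQ i l r r' hr hr'
  let _ : MeasurableSpace E := borel E
  have : BorelSpace E := ⟨rfl⟩
  have := hν.gauss
  obtain ⟨-, jon2, -, jon4, -, -⟩ := hJON ι E S
  obtain ⟨tr0, trD, -, -, -⟩ := hTRA ι E S Q hQ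
  have hcov : ∀ (i l : T) (x y x' y' : E), ∫ M, ⟪x, M i y⟫ * ⟪x', M l y'⟫ ∂ν =
    c i l * ∑ a, (⟪x, S.J a x'⟫ * ⟪y, S.J a y'⟫ + ⟪x, S.J a y'⟫ * ⟪y, S.J a x'⟫) := hν.cov
  -- first and second moments of a functional
  have p1 : ∀ y, ∫ G, ⟪y, Q (G i r)⟫ ∂ν = 0 := by
    intro y
    have h : ∀ G : T → E →L[ℝ] E, ⟪y, Q (G i r)⟫ = ⟪Q y, G i r⟫ := fun G => (hQ.1.1 y _).symm
    simp only [h]
    exact hν.mean i (Q y) r
  have p2 : ∀ y, ∫ G, ⟪y, Q (G i r)⟫ ^ 2 ∂ν = ‖Q y‖ ^ 2 * ‖r‖ ^ 2 := by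
    intro y
    have h : ∀ G : T → E →L[ℝ] E, ⟪y, Q (G i r)⟫ ^ 2 = ⟪Q y, G i r⟫ * ⟪Q y, G i r⟫ := by
      intro G
      rw [← hQ.1.1, sq]
    simp only [h]
    rw [hcov, hcor.one, one_mul, Finset.sum_eq_single S.o]
    · rw [Jort S hQ hr, Jself, Jself, if_pos rfl, if_pos rfl]
      ring
    · intro a _ ha
      rw [Jort S hQ hr, Jself, if_neg ha]
      ring
    · intro h
      exact absurd (Finset.mem_univ _) h
  have hL : ∀ y, MemLp (fun G : T → E →L[ℝ] E => ⟪y, Q (G i r)⟫) 2 ν := by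
    intro y
    exact IsGaussian.memLp_dual ν ((innerSL ℝ y) ∘L Q ∘L
      ((ContinuousLinearMap.apply ℝ E r) ∘L (ContinuousLinearMap.proj i))) 2 (by simp)
  have p3 : ∀ y, ∫ G, |⟪y, Q (G i r)⟫| ∂ν ≤ ‖y‖ * ‖r‖ := by
    intro y
    have h1 : (∫ G, |⟪y, Q (G i r)⟫| ∂ν) ^ 2 ≤ ∫ G, |⟪y, Q (G i r)⟫| ^ 2 ∂ν := by
      have h2 : 0 ≤ ∫ G, |⟪y, Q (G i r)⟫| ^ 2 ∂ν - (∫ G, |⟪y, Q (G i r)⟫| ∂ν) ^ 2 := by
        have h3 := variance_nonneg |fun G : T → E →L[ℝ] E => ⟪y, Q (G i r)⟫| ν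
        rw [variance_eq_sub (hL y).abs] at h3
        exact h3
      linarith
    have h3 : ∫ G, |⟪y, Q (G i r)⟫| ^ 2 ∂ν = ‖Q y‖ ^ 2 * ‖r‖ ^ 2 := by
      rw [← p2 y]
      exact integral_congr_ae (Eventually.of_forall fun G => sq_abs _)
    have h4 : (∫ G, |⟪y, Q (G i r)⟫| ∂ν) ^ 2 ≤ (‖y‖ * ‖r‖) ^ 2 := by
      rw [h3] at h1
      refine h1.trans ?_
      rw [mul_pow]
      have := pow_le_pow_left₀ (norm_nonneg _) (jon4 Q hQ y) 2
      exact mul_le_mul_of_nonneg_right this (by positivity)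
    exact abs_le_of_sq_le_sq' h4 (by positivity) |>.2
  -- polarization
  have hpol : ∀ (a : ι) (s : ℝ), (s = 1 ∨ s = -1) → ∃ f : T → E, (∀ t, Q (f t) = 0) ∧
      (∀ G : T → E →L[ℝ] E, ∑ t, Q (G t (f t)) = Q (G i r) + s • Q (G l (S.J a r'))) ∧
      ∑ t, ∑ t', c t t' * ⟪f t, f t'⟫ =
        ‖r‖ ^ 2 + ‖r'‖ ^ 2 + 2 * s * (c i l * ⟪r, S.J a r'⟫) := by
    intro a s hs
    have hs2 : s * s = 1 := by rcases hs with rfl | rfl <;> norm_num
    refine ⟨fun t => (if t = i then r else 0) + (if t = l then s • S.J a r' else 0), ?_, ?_, ?_⟩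
    · intro t
      rw [map_add]
      have h1 : Q (if t = i then r else 0) = 0 := by split_ifs <;> simp [hr]
      have h2 : Q (if t = l then s • S.J a r' else 0) = 0 := by
        split_ifs
        · rw [map_smul, hQ.1.2, hr', map_zero, smul_zero]
        · simp
      rw [h1, h2, add_zero]
    · intro G
      simp only [map_add, Finset.sum_add_distrib]
      congr 1
      · rw [Finset.sum_eq_single i]
        · rw [if_pos rfl]
        · intro t _ ht
          rw [if_neg ht]; simp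
        · intro h
          exact absurd (Finset.mem_univ _) h
      · rw [Finset.sum_eq_single l]
        · rw [if_pos rfl]; simp
        · intro t _ ht
          rw [if_neg ht]; simp
        · intro h
          exact absurd (Finset.mem_univ _) h
    · have hb : ∀ (g h : T → E), ∑ t, ∑ t', c t t' * ⟪g t + h t, g t' + h t'⟫ =
          ∑ t, ∑ t', c t t' * ⟪g t, g t'⟫ + ∑ t, ∑ t', c t t' * ⟪g t, h t'⟫ +
          ∑ t, ∑ t', c t t' * ⟪h t, g t'⟫ + ∑ t, ∑ t', c t t' * ⟪h t, h t'⟫ := by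
        intro g h
        simp only [← Finset.sum_add_distrib]
        refine Finset.sum_congr rfl fun t _ => Finset.sum_congr rfl fun t' _ => ?_
        rw [inner_add_left, inner_add_right, inner_add_right]
        ring
      have hd : ∀ (i l : T) (x y : E), ∑ t, ∑ t', c t t' * ⟪(if t = i then x else 0),
          (if t' = l then y else 0)⟫ = c i l * ⟪x, y⟫ := by
        intro i l x y
        rw [Finset.sum_eq_single i]
        · rw [Finset.sum_eq_single l]
          · rw [if_pos rfl, if_pos rfl]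
          · intro t _ ht
            rw [if_neg ht, inner_zero_right, mul_zero]
          · intro h
            exact absurd (Finset.mem_univ _) h
        · intro t _ ht
          refine Finset.sum_eq_zero fun t' _ => ?_
          rw [if_neg ht, inner_zero_left, mul_zero]
        · intro h
          exact absurd (Finset.mem_univ _) h
      rw [hb (fun t => if t = i then r else 0) (fun t => if t = l then s • S.J a r' else 0)]
      rw [hd i i r r, hd i l r (s • S.J a r'), hd l i (s • S.J a r') r,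
        hd l l (s • S.J a r') (s • S.J a r'), hcor.one, hcor.one, hcor.symm l i,
        real_inner_smul_right, real_inner_smul_left, real_inner_smul_left,
        real_inner_smul_right, jon2, real_inner_comm (S.J a r') r,
        real_inner_self_eq_norm_sq, real_inner_self_eq_norm_sq]
      linear_combination (‖r'‖ ^ 2) * hs2
  -- the two squares
  have hU : ∀ (a : ι) (s : ℝ), (s = 1 ∨ s = -1) → ∃ σ : ℝ, 0 ≤ σ ∧
      σ = ‖r‖ ^ 2 + ‖r'‖ ^ 2 + 2 * s * (c i l * ⟪r, S.J a r'⟫) ∧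
      Integrable (fun G : T → E →L[ℝ] E =>
        ‖Q (G i r) + s • S.J a (Q (G l r'))‖ ^ 2) ν ∧
      ∫ G, ‖Q (G i r) + s • S.J a (Q (G l r'))‖ ^ 2 ∂ν = σ * tr Q ∧
      Integrable (fun G : T → E →L[ℝ] E =>
        (‖Q (G i r) + s • S.J a (Q (G l r'))‖ ^ 2 - σ * tr Q) ^ 2) ν ∧
      ∫ G, (‖Q (G i r) + s • S.J a (Q (G l r'))‖ ^ 2 - σ * tr Q) ^ 2 ∂ν =
        2 * σ ^ 2 * tr Q := by
    intro a s hs
    obtain ⟨f, f1, f2, f3⟩ := hpol a s hs
    obtain ⟨k0, k1, k2, k3, k4⟩ := key hISO hCHN S c ν hν hcor.symm Q hQ f f1 _ f3.symm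
    have hae : ∀ᵐ G ∂ν, ∑ t, Q (G t (f t)) = Q (G i r) + s • S.J a (Q (G l r')) := by
      filter_upwards [hν.herm] with G hG
      rw [f2, (hG l).2, hQ.1.2]
    refine ⟨_, k0, rfl, ?_, ?_, ?_, ?_⟩
    · exact k1.congr (by filter_upwards [hae] with G hG; rw [hG])
    · rw [← k2]
      exact integral_congr_ae (by filter_upwards [hae] with G hG; rw [hG])
    · exact k3.congr (by filter_upwards [hae] with G hG; rw [hG])
    · rw [← k4]
      exact integral_congr_ae (by filter_upwards [hae] with G hG; rw [hG])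
  have hpt : ∀ (a : ι) (G : T → E →L[ℝ] E), ⟪Q (G i r), S.J a (Q (G l r'))⟫ =
      (1 / 4) * (‖Q (G i r) + (1 : ℝ) • S.J a (Q (G l r'))‖ ^ 2 -
        ‖Q (G i r) + (-1 : ℝ) • S.J a (Q (G l r'))‖ ^ 2) := by
    intro a G
    rw [one_smul, neg_one_smul, ← sub_eq_add_neg, norm_add_sq_real, norm_sub_sq_real]
    ring
  have p5 : ∀ a, ∫ G, ⟪Q (G i r), S.J a (Q (G l r'))⟫ ∂ν = c i l * tr Q * ⟪r, S.J a r'⟫ := by
    intro a
    obtain ⟨σ, -, s2, u1, u2, -, -⟩ := hU a 1 (Or.inl rfl)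
    obtain ⟨τ, -, t2, v1, v2, -, -⟩ := hU a (-1) (Or.inr rfl)
    simp only [hpt a]
    rw [integral_const_mul, integral_sub u1 v1, u2, v2, s2, t2]
    ring
  have p6 : ∀ a, ∫ G, (⟪Q (G i r), S.J a (Q (G l r'))⟫ - c i l * tr Q * ⟪r, S.J a r'⟫) ^ 2 ∂ν ≤
      2 * dm E * (‖r‖ ^ 2 + ‖r'‖ ^ 2) ^ 2 := by
    intro a
    obtain ⟨σ, s1, s2, -, -, u3, u4⟩ := hU a 1 (Or.inl rfl)
    obtain ⟨τ, t1, t2, -, -, v3, v4⟩ := hU a (-1) (Or.inr rfl)
    have hle : ∀ G : T → E →L[ℝ] E,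
        (⟪Q (G i r), S.J a (Q (G l r'))⟫ - c i l * tr Q * ⟪r, S.J a r'⟫) ^ 2 ≤
        (1 / 8) * ((‖Q (G i r) + (1 : ℝ) • S.J a (Q (G l r'))‖ ^ 2 - σ * tr Q) ^ 2 +
          (‖Q (G i r) + (-1 : ℝ) • S.J a (Q (G l r'))‖ ^ 2 - τ * tr Q) ^ 2) := by
      intro G
      have h1 : ⟪Q (G i r), S.J a (Q (G l r'))⟫ - c i l * tr Q * ⟪r, S.J a r'⟫ =
          (1 / 4) * ((‖Q (G i r) + (1 : ℝ) • S.J a (Q (G l r'))‖ ^ 2 - σ * tr Q) -
          (‖Q (G i r) + (-1 : ℝ) • S.J a (Q (G l r'))‖ ^ 2 - τ * tr Q)) := by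
        rw [hpt a G, s2, t2]
        ring
      rw [h1]
      nlinarith [sq_nonneg ((‖Q (G i r) + (1 : ℝ) • S.J a (Q (G l r'))‖ ^ 2 - σ * tr Q) +
          (‖Q (G i r) + (-1 : ℝ) • S.J a (Q (G l r'))‖ ^ 2 - τ * tr Q))]
    have h2 : ∫ G, (⟪Q (G i r), S.J a (Q (G l r'))⟫ - c i l * tr Q * ⟪r, S.J a r'⟫) ^ 2 ∂ν ≤
        ∫ G, (1 / 8) * ((‖Q (G i r) + (1 : ℝ) • S.J a (Q (G l r'))‖ ^ 2 - σ * tr Q) ^ 2 +
          (‖Q (G i r) + (-1 : ℝ) • S.J a (Q (G l r'))‖ ^ 2 - τ * tr Q) ^ 2) ∂ν :=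
      integral_mono_of_nonneg (Eventually.of_forall fun G => sq_nonneg _)
        ((u3.add v3).const_mul _) (Eventually.of_forall hle)
    refine h2.trans ?_
    rw [integral_const_mul, integral_add u3 v3, u4, v4]
    have hx : |c i l * ⟪r, S.J a r'⟫| ≤ (‖r‖ ^ 2 + ‖r'‖ ^ 2) / 2 := by
      rw [abs_mul]
      have h3 : |⟪r, S.J a r'⟫| ≤ ‖r‖ * ‖r'‖ := by
        have := abs_real_inner_le_norm r (S.J a r')
        rwa [S.norm_J] at this
      have h4 : |c i l| * |⟪r, S.J a r'⟫| ≤ 1 * (‖r‖ * ‖r'‖) :=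
        mul_le_mul (hcor.le i l) h3 (abs_nonneg _) (by norm_num)
      nlinarith [sq_nonneg (‖r‖ - ‖r'‖)]
    obtain ⟨hx1, hx2⟩ := abs_le.mp hx
    have hN : 0 ≤ ‖r‖ ^ 2 + ‖r'‖ ^ 2 := by positivity
    have hσ : σ ≤ 2 * (‖r‖ ^ 2 + ‖r'‖ ^ 2) := by rw [s2]; linarith
    have hτ : τ ≤ 2 * (‖r‖ ^ 2 + ‖r'‖ ^ 2) := by rw [t2]; linarith
    have hσ2 : σ ^ 2 ≤ 4 * (‖r‖ ^ 2 + ‖r'‖ ^ 2) ^ 2 := by
      calc σ ^ 2 ≤ (2 * (‖r‖ ^ 2 + ‖r'‖ ^ 2)) ^ 2 := pow_le_pow_left₀ s1 hσ 2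
        _ = _ := by ring
    have hτ2 : τ ^ 2 ≤ 4 * (‖r‖ ^ 2 + ‖r'‖ ^ 2) ^ 2 := by
      calc τ ^ 2 ≤ (2 * (‖r‖ ^ 2 + ‖r'‖ ^ 2)) ^ 2 := pow_le_pow_left₀ t1 hτ 2
        _ = _ := by ring
    calc 1 / 8 * (2 * σ ^ 2 * tr Q + 2 * τ ^ 2 * tr Q) = (σ ^ 2 + τ ^ 2) / 4 * tr Q := by ring
      _ ≤ (2 * (‖r‖ ^ 2 + ‖r'‖ ^ 2) ^ 2) * dm E := by
          apply mul_le_mul (by linarith) trD tr0 (by positivity)
      _ = _ := by ring
  have p4 : ∀ s, ∫ G, ‖Q (G i r) + s‖ ^ 2 ∂ν = tr Q * ‖r‖ ^ 2 + ‖s‖ ^ 2 := by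
    intro s
    obtain ⟨k0, k1, k2, -, -⟩ := key hISO hCHN S c ν hν hcor.symm Q hQ
      (fun t => if t = i then r else 0) (fun t => by split_ifs <;> simp [hr]) _ rfl
    have h1 : ∀ G : T → E →L[ℝ] E, ∑ t, Q (G t (if t = i then r else 0)) = Q (G i r) := by
      intro G
      rw [Finset.sum_eq_single i]
      · rw [if_pos rfl]
      · intro t _ ht
        rw [if_neg ht]; simp
      · intro h
        exact absurd (Finset.mem_univ _) h
    have h2 : ∑ t, ∑ t', c t t' * ⟪(if t = i then r else 0), (if t' = i then r else 0)⟫ =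
        ‖r‖ ^ 2 := by
      rw [Finset.sum_eq_single i]
      · rw [Finset.sum_eq_single i]
        · rw [if_pos rfl, hcor.one, real_inner_self_eq_norm_sq, one_mul]
        · intro t _ ht
          rw [if_neg ht, inner_zero_right, mul_zero]
        · intro h
          exact absurd (Finset.mem_univ _) h
      · intro t _ ht
        refine Finset.sum_eq_zero fun t' _ => ?_
        rw [if_neg ht, inner_zero_left, mul_zero]
      · intro h
        exact absurd (Finset.mem_univ _) h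
    simp only [h1] at k1 k2
    rw [h2] at k2
    have h3 : ∀ G : T → E →L[ℝ] E, ‖Q (G i r) + s‖ ^ 2 =
        ‖Q (G i r)‖ ^ 2 + 2 * ⟪s, Q (G i r)⟫ + ‖s‖ ^ 2 := by
      intro G
      rw [norm_add_sq_real, real_inner_comm]
    simp only [h3]
    have h4 : Integrable (fun G : T → E →L[ℝ] E => ⟪s, Q (G i r)⟫) ν :=
      (hL s).integrable (by norm_num)
    have k5 : Integrable (fun G : T → E →L[ℝ] E => ‖Q (G i r)‖ ^ 2 + 2 * ⟪s, Q (G i r)⟫) ν :=
      k1.add (h4.const_mul 2)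
    rw [integral_add k5 (integrable_const _), integral_add k1 (h4.const_mul 2),
      integral_const_mul, p1 s, k2]
    simp
    ring
  refine ⟨p1, p2, p3, p4, p5, p6, hν.mean i r r, ?_⟩
  have h : ∀ G : T → E →L[ℝ] E, ⟪r, G i r⟫ ^ 2 = ⟪r, G i r⟫ * ⟪r, G i r⟫ := fun G => sq _
  simp only [h]
  rw [hcov, hcor.one, one_mul, Finset.sum_eq_single S.o]
  · rw [Jself, if_pos rfl]
    ring
  · intro a _ ha
    rw [Jself, if_neg ha]
    ring
  · intro h
    exact absurd (Finset.mem_univ _) h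

end Pool.Agent.Lib.MP17fa2c
end

section
/-!
# MP_17fa2c_pr, module KNM: monotonicity of `Kn`
-/
set_option autoImplicit false

open MeasureTheory ProbabilityTheory Filter Topology
open scoped RealInnerProductSpace NNReal ENNReal

namespace Pool.Agent.Lib.MP17fa2c

theorem specKNM (hEXP : SpecEXP) (hKNO : SpecKNO) : SpecKNM := by
  intro ι _ _ E _ _ _ T _ S u α F j j' hjj hF M G hM hG
  have hM' : HermF S (res (expl S u M j') M G) := (hKNO ι E T S u M G j' hM hG).1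
  obtain ⟨-, e2, -, -⟩ := hEXP ι E T S u M j'
  have h1 : ∀ x, cp (expl S u M j) (cp (expl S u M j') x) = cp (expl S u M j') x := by
    intro x
    simp [cp, (e2 j hjj x).1]
  have h2 : ∀ x, cp (expl S u M j') (cp (expl S u M j) x) = cp (expl S u M j') x := by
    intro x
    simp only [cp, sub_apply, ContinuousLinearMap.id_apply, map_sub,
      (e2 j hjj x).2]
    abel
  have h3 : res (expl S u M j) M (res (expl S u M j') M G) = res (expl S u M j') M G := by
    funext i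
    ext x
    simp only [res, add_apply, sub_apply,
      ContinuousLinearMap.comp_apply, map_add, map_sub, h1, h2]
    abel
  rw [← h3]
  exact hF M _ hM hM'

end Pool.Agent.Lib.MP17fa2c
end

section
/-! # MDL: the abstract martingale lemma -/
set_option autoImplicit false

open MeasureTheory ProbabilityTheory Filter Topology
open scoped RealInnerProductSpace NNReal ENNReal

namespace Pool.Agent.Lib.MP17fa2c

namespace MDLM

/-- `∑_{j<n} c^{n-1-j} D_j` -/
noncomputable def mart {Ω : Type} (c : ℝ) (D : ℕ → Ω → ℝ) : ℕ → Ω → ℝ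
  | 0 => fun _ => 0
  | n + 1 => fun M => c * mart c D n M + D n M

theorem mart_meas {Ω : Type} [MeasurableSpace Ω] (c : ℝ) (D : ℕ → Ω → ℝ)
    (hD : ∀ j, Measurable (D j)) : ∀ n, Measurable (mart c D n) := by
  intro n
  induction n with
  | zero => exact measurable_const
  | succ n ih => exact (ih.const_mul c).add (hD n)

/-- the `L¹` bound -/
theorem mart_l1 {Ω : Type} [MeasurableSpace Ω] (ν : Measure Ω) (c : ℝ) (hc : |c| ≤ 1)
    (D : ℕ → Ω → ℝ) (k : ℕ) (b : ℕ → ℝ) (hi : ∀ j < k, Integrable (D j) ν)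
    (hb : ∀ j < k, ∫ M, |D j M| ∂ν ≤ b j) :
    ∀ n ≤ k, Integrable (mart c D n) ν ∧
      ∫ M, |mart c D n M| ∂ν ≤ ∑ j ∈ Finset.range n, b j := by
  intro n
  induction n with
  | zero =>
    intro _
    refine ⟨integrable_zero _ _ _, ?_⟩
    simp [mart]
  | succ n ih =>
    intro hn
    obtain ⟨i1, i2⟩ := ih (by omega)
    have hD := hi n (by omega)
    refine ⟨(i1.const_mul c).add hD, ?_⟩
    rw [Finset.sum_range_succ]
    have h1 : ∫ M, |mart c D (n + 1) M| ∂ν ≤ ∫ M, (|mart c D n M| + |D n M|) ∂ν := by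
      refine integral_mono ((i1.const_mul c).add hD).abs (i1.abs.add hD.abs) fun M => ?_
      show |c * mart c D n M + D n M| ≤ |mart c D n M| + |D n M|
      have h2 : |c * mart c D n M| ≤ |mart c D n M| := by
        rw [abs_mul]
        exact mul_le_of_le_one_left (abs_nonneg _) hc
      exact (abs_add_le _ _).trans (by linarith)
    have h3 : ∫ M, (|mart c D n M| + |D n M|) ∂ν =
        ∫ M, |mart c D n M| ∂ν + ∫ M, |D n M| ∂ν := integral_add i1.abs hD.abs
    have h4 := hb n (by omega)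
    linarith

/-- the `L²` bound for orthogonal increments -/
theorem mart_l2 {Ω : Type} [MeasurableSpace Ω] (ν : Measure Ω) (c : ℝ) (hc : |c| ≤ 1)
    (D : ℕ → Ω → ℝ) (hD : ∀ j, Measurable (D j)) (k : ℕ) (b : ℕ → ℝ)
    (hi : ∀ j < k, Integrable (fun M => D j M ^ 2) ν)
    (hb : ∀ j < k, ∫ M, D j M ^ 2 ∂ν ≤ b j)
    (ho : ∀ j < k, Integrable (fun M => mart c D j M ^ 2) ν →
      ∫ M, mart c D j M * D j M ∂ν = 0) :
    ∀ n ≤ k, Integrable (fun M => mart c D n M ^ 2) ν ∧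
      ∫ M, mart c D n M ^ 2 ∂ν ≤ ∑ j ∈ Finset.range n, b j := by
  intro n
  induction n with
  | zero =>
    intro _
    refine ⟨?_, ?_⟩
    · simp [mart]
    · simp [mart]
  | succ n ih =>
    intro hn
    obtain ⟨i1, i2⟩ := ih (by omega)
    have hDn := hi n (by omega)
    have m1 := mart_meas c D hD n
    have m2 := hD n
    have L1 : MemLp (mart c D n) 2 ν := (memLp_two_iff_integrable_sq m1.aestronglyMeasurable).2 i1
    have L2 : MemLp (D n) 2 ν := (memLp_two_iff_integrable_sq m2.aestronglyMeasurable).2 hDn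
    have hcr : Integrable (fun M => mart c D n M * D n M) ν := L1.integrable_mul L2
    have e1 : (fun M => mart c D (n + 1) M ^ 2) =
        fun M => c ^ 2 * mart c D n M ^ 2 + 2 * c * (mart c D n M * D n M) + D n M ^ 2 := by
      funext M
      show (c * mart c D n M + D n M) ^ 2 = _
      ring
    have j1 : Integrable (fun M => c ^ 2 * mart c D n M ^ 2) ν := i1.const_mul _
    have j2 : Integrable (fun M => 2 * c * (mart c D n M * D n M)) ν := hcr.const_mul _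
    have j3 : Integrable (fun M => c ^ 2 * mart c D n M ^ 2 +
      2 * c * (mart c D n M * D n M)) ν := j1.add j2
    refine ⟨?_, ?_⟩
    · rw [e1]
      exact j3.add hDn
    · rw [e1, integral_add j3 hDn, integral_add j1 j2, integral_const_mul, integral_const_mul,
        ho n (by omega) i1, Finset.sum_range_succ]
      have h4 := hb n (by omega)
      have h5 : c ^ 2 ≤ 1 := by
        rw [← sq_abs]
        exact pow_le_one₀ (abs_nonneg c) hc
      have h6 : 0 ≤ ∫ M, mart c D n M ^ 2 ∂ν := integral_nonneg fun M => sq_nonneg _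
      have h7 : c ^ 2 * ∫ M, mart c D n M ^ 2 ∂ν ≤ ∫ M, mart c D n M ^ 2 ∂ν :=
        mul_le_of_le_one_left h6 h5
      linarith

theorem abs_le_sqrt {Ω : Type} [MeasurableSpace Ω] (ν : Measure Ω) [IsProbabilityMeasure ν]
    (f : Ω → ℝ) (hf : Measurable f) (hi : Integrable (fun M => f M ^ 2) ν) (b : ℝ)
    (hb : ∫ M, f M ^ 2 ∂ν ≤ b) : Integrable f ν ∧ ∫ M, |f M| ∂ν ≤ Real.sqrt b := by
  have L1 : MemLp f 2 ν := (memLp_two_iff_integrable_sq hf.aestronglyMeasurable).2 hi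
  have hfi : Integrable f ν := L1.integrable (by norm_num)
  refine ⟨hfi, ?_⟩
  apply Real.le_sqrt_of_sq_le
  refine le_trans ?_ hb
  have h1 : (∫ M, |f M| ∂ν) ^ 2 ≤ ∫ M, |f M| ^ 2 ∂ν := by
    have hv : 0 ≤ ∫ M, (|f M| - ∫ M, |f M| ∂ν) ^ 2 ∂ν := integral_nonneg fun M => sq_nonneg _
    have e1 : (fun M => (|f M| - ∫ M, |f M| ∂ν) ^ 2) =
        fun M => f M ^ 2 + ((-2 * ∫ M, |f M| ∂ν) * |f M| + (∫ M, |f M| ∂ν) ^ 2) := by
      funext M
      rw [← sq_abs (f M)]
      ring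
    have j1 : Integrable (fun M => (-2 * ∫ M, |f M| ∂ν) * |f M|) ν := hfi.abs.const_mul _
    have j2 : Integrable (fun M => (-2 * ∫ M, |f M| ∂ν) * |f M| + (∫ M, |f M| ∂ν) ^ 2) ν :=
      j1.add (integrable_const _)
    rw [e1, integral_add hi j2, integral_add j1 (integrable_const _), integral_const_mul,
      integral_const] at hv
    have e2 : (fun M => |f M| ^ 2) = fun M => f M ^ 2 := by
      funext M
      exact sq_abs _
    rw [e2]
    simp only [probReal_univ, smul_eq_mul, one_mul] at hv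
    have e3 : -2 * (∫ M, |f M| ∂ν) * ∫ M, |f M| ∂ν = -2 * (∫ M, |f M| ∂ν) ^ 2 := by ring
    linarith
  refine h1.trans (le_of_eq ?_)
  congr 1
  funext M
  exact sq_abs _

end MDLM

open MDLM in
theorem specMDL (hRPI : SpecRPI) (hKNM : SpecKNM) : SpecMDL := by
  intro ι _ _ E _ _ _ T _ S u cc ν hν k c X D1 D2 ep v d e hc hrec hmeas hkn hint hmean hbd
  have _ := hν.gauss
  have hherm := hν.herm
  -- the martingale part is known
  have hK : ∀ n ≤ k, Kn S u n (mart c D1 n) := by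
    intro n
    induction n with
    | zero => intro _ M G _ _; rfl
    | succ n ih =>
      intro hn M G hM hG
      have h1 := hKNM ι E T S u ℝ (mart c D1 n) n (n + 1) (by omega) (ih (by omega)) M G hM hG
      have h2 := hkn n (by omega) M G hM hG
      show c * mart c D1 n (res (expl S u M (n + 1)) M G) + D1 n (res (expl S u M (n + 1)) M G) =
        c * mart c D1 n M + D1 n M
      rw [h1, h2]
  have hmD1 : ∀ j, Measurable (D1 j) := fun j => (hmeas j).2.1
  have hmE : ∀ j, Measurable (fun M => ep j M + D2 j M) := fun j =>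
    (hmeas j).2.2.2.add (hmeas j).2.2.1
  -- orthogonality
  have horth : ∀ j < k, Integrable (fun M => mart c D1 j M ^ 2) ν →
      ∫ M, mart c D1 j M * D1 j M ∂ν = 0 := by
    intro j hj hji
    have m1 := mart_meas c D1 hmD1 j
    have L1 : MemLp (mart c D1 j) 2 ν := (memLp_two_iff_integrable_sq m1.aestronglyMeasurable).2 hji
    have L2 : MemLp (D1 j) 2 ν :=
      (memLp_two_iff_integrable_sq (hmD1 j).aestronglyMeasurable).2 (hint j hj).1
    have hcr : Integrable (fun M => mart c D1 j M * D1 j M) ν := L1.integrable_mul L2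
    have h := ((hRPI ι E T S cc ν u hν j).1 (fun M => mart c D1 j M * D1 j M)
      (m1.mul (hmD1 j)) hcr).2.2
    rw [h]
    refine (integral_congr_ae ?_).trans (integral_zero _ _)
    filter_upwards [hherm, hmean j hj] with M hM hM2
    have h2 : (fun G => mart c D1 j (res (expl S u M j) M G) * D1 j (res (expl S u M j) M G)) =ᵐ[ν]
        fun G => mart c D1 j M * D1 j (res (expl S u M j) M G) := by
      filter_upwards [hherm] with G hG
      rw [hK j hj.le M G hM hG]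
    rw [integral_congr_ae h2, integral_const_mul, hM2, mul_zero]
  obtain ⟨a1, a2⟩ := mart_l2 ν c hc D1 hmD1 k v (fun j hj => (hint j hj).1)
    (fun j hj => (hbd j hj).1) horth k le_rfl
  obtain ⟨a3, a4⟩ := abs_le_sqrt ν _ (mart_meas c D1 hmD1 k) a1 _ a2
  obtain ⟨b1, b2⟩ := mart_l1 ν c hc (fun j M => ep j M + D2 j M) k (fun j => d j + e j)
    (fun j hj => (hint j hj).2.2.add (hint j hj).2.1) (fun j hj => by
      have i1 := (hint j hj).2.2
      have i2 := (hint j hj).2.1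
      have h1 : ∫ M, |ep j M + D2 j M| ∂ν ≤ ∫ M, (|ep j M| + |D2 j M|) ∂ν :=
        integral_mono (i1.add i2).abs (i1.abs.add i2.abs) fun M => abs_add_le _ _
      rw [integral_add i1.abs i2.abs] at h1
      have h2 := (hbd j hj).2
      linarith) k le_rfl
  -- the decomposition
  have hdec : ∀ M, HermF S M → ∀ n ≤ k, X n M - c ^ n * X 0 M =
      mart c D1 n M + mart c (fun j M => ep j M + D2 j M) n M := by
    intro M hM n
    induction n with
    | zero => intro _; simp [mart]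
    | succ n ih =>
      intro hn
      have h1 := ih (by omega)
      have h2 := hrec M hM n (by omega)
      show X (n + 1) M - c ^ (n + 1) * X 0 M = (c * mart c D1 n M + D1 n M) +
        (c * mart c (fun j M => ep j M + D2 j M) n M + (ep n M + D2 n M))
      rw [h2]
      have h3 : X n M = c ^ n * X 0 M + (mart c D1 n M +
        mart c (fun j M => ep j M + D2 j M) n M) := by linarith
      rw [h3]
      ring
  have e1 : ∫ M, |X k M - c ^ k * X 0 M| ∂ν =
      ∫ M, |mart c D1 k M + mart c (fun j M => ep j M + D2 j M) k M| ∂ν := by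
    refine integral_congr_ae ?_
    filter_upwards [hherm] with M hM
    rw [hdec M hM k le_rfl]
  rw [e1]
  have h1 : ∫ M, |mart c D1 k M + mart c (fun j M => ep j M + D2 j M) k M| ∂ν ≤
      ∫ M, (|mart c D1 k M| + |mart c (fun j M => ep j M + D2 j M) k M|) ∂ν :=
    integral_mono (a3.add b1).abs (a3.abs.add b1.abs) fun M => abs_add_le _ _
  rw [integral_add a3.abs b1.abs] at h1
  linarith

end Pool.Agent.Lib.MP17fa2c
end

section
/-!
# Module PIN: integrability of functions of polynomial growth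
-/
set_option autoImplicit false

open MeasureTheory ProbabilityTheory Filter Topology
open scoped RealInnerProductSpace NNReal ENNReal

namespace Pool.Agent.Lib.MP17fa2c

namespace PINM

/-- power of a sum -/
theorem pow_le {T : Type} [Fintype T] (x : T → ℝ) (hx : ∀ i, 0 ≤ x i) (m : ℕ) :
    (1 + ∑ i, x i) ^ m ≤ ((Fintype.card T : ℝ) + 1) ^ m * (1 + ∑ i, x i ^ m) := by
  have hs : 0 ≤ ∑ i, x i := Finset.sum_nonneg fun i _ => hx i
  have hsm : 0 ≤ ∑ i, x i ^ m := Finset.sum_nonneg fun i _ => pow_nonneg (hx i) m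
  rcases m with _ | n
  · simp
  · have h1 := pow_sum_div_card_le_sum_pow (s := (Finset.univ : Finset (Option T)))
      (f := fun o => o.elim (1 : ℝ) x) (n := n) (fun o _ => by
        rcases o with _ | i
        · exact zero_le_one
        · exact hx i)
    rw [Fintype.sum_option, Fintype.sum_option, Finset.card_univ, Fintype.card_option] at h1
    simp only [Option.elim_none, Option.elim_some, one_pow] at h1
    have hc : (0 : ℝ) < ((Fintype.card T + 1 : ℕ) : ℝ) ^ n := by positivity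
    rw [div_le_iff₀ hc] at h1
    refine h1.trans ?_
    rw [mul_comm]
    apply mul_le_mul_of_nonneg_right _ (by positivity)
    push_cast
    apply pow_le_pow_right₀ _ (Nat.le_succ n)
    have : (0 : ℝ) ≤ (Fintype.card T : ℝ) := Nat.cast_nonneg _
    linarith

variable {ι : Type} [Fintype ι] [DecidableEq ι]
  {E : Type} [NormedAddCommGroup E] [InnerProductSpace ℝ E]

theorem pr_norm_le {S : BStr ι E} {P : E →L[ℝ] E} (hP : IsPr S P) (x : E) : ‖P x‖ ≤ ‖x‖ := by
  have h1 : ‖P x‖ * ‖P x‖ ≤ ‖x‖ * ‖P x‖ := by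
    calc ‖P x‖ * ‖P x‖ = ⟪P x, P x⟫ := (real_inner_self_eq_norm_mul_norm _).symm
      _ = ⟪x, P (P x)⟫ := hP.1.1 x (P x)
      _ = ⟪x, P x⟫ := by rw [hP.2]
      _ ≤ ‖x‖ * ‖P x‖ := real_inner_le_norm _ _
  rcases (norm_nonneg (P x)).eq_or_lt with h0 | h0
  · rw [← h0]
    exact norm_nonneg x
  · exact le_of_mul_le_mul_right h1 h0

end PINM

theorem specPIN (hMRG : SpecMRG) (hLOR : SpecLOR) (hSTP : SpecSTP) : SpecPIN := by
  intro ι _ _ E _ _ _ T _ S c ν hν
  have hg := hν.gauss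
  constructor
  · intro F C m hF hb
    have hM := (hMRG ι E T S c ν hν).2
    have hint : Integrable (fun M : T → E →L[ℝ] E =>
        |C| * (((Fintype.card T : ℝ) + 1) ^ m * (1 + ∑ i, ‖M i‖ ^ m))) ν := by
      apply Integrable.const_mul
      apply Integrable.const_mul
      exact (integrable_const _).add (integrable_finsetSum _ fun i _ => hM i m)
    refine hint.mono' hF.aestronglyMeasurable ?_
    filter_upwards [hb] with M hM'
    have h0 : 0 ≤ (1 + ∑ i, ‖M i‖) ^ m := by positivity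
    calc ‖F M‖ = |F M| := Real.norm_eq_abs _
      _ ≤ C * (1 + ∑ i, ‖M i‖) ^ m := hM'
      _ ≤ |C| * (1 + ∑ i, ‖M i‖) ^ m := mul_le_mul_of_nonneg_right (le_abs_self C) h0
      _ ≤ _ := mul_le_mul_of_nonneg_left
          (PINM.pow_le (fun i => ‖M i‖) (fun i => norm_nonneg _) m) (abs_nonneg C)
  · intro u hu
    filter_upwards [hν.herm] with M hM
    intro i j
    have hL := hLOR E (M i) u (hM i).1 hu
    have hS := hSTP ι E T S u M hM hu j i
    obtain ⟨-, -, -, -, -, -, hq, -, hr0, hrh, hpy, hpr, -⟩ := hS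
    have hb : ∀ l, bv (M i) u l ≤ ‖M i‖ := hL.2.2.2.2.2.2.1
    have ha : ∀ l, |av (M i) u l| ≤ ‖M i‖ := hL.2.2.2.2.2.2.2
    have hrho : rho (M i) u j ≤ (‖M i‖ / Real.sqrt (dm E)) ^ j := by
      unfold rho
      calc ∏ l ∈ Finset.range j, bv (M i) u l / Real.sqrt (dm E)
          ≤ ∏ l ∈ Finset.range j, ‖M i‖ / Real.sqrt (dm E) := by
            apply Finset.prod_le_prod
            · intro l _
              exact div_nonneg (norm_nonneg _) (Real.sqrt_nonneg _)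
            · intro l _
              exact div_le_div_of_nonneg_right (hb l) (Real.sqrt_nonneg _)
        _ = (‖M i‖ / Real.sqrt (dm E)) ^ j := by
            rw [Finset.prod_const, Finset.card_range]
    refine ⟨ha j, hb j, hrho, hrh.trans hrho, ?_⟩
    have hex : ‖expl S u M j (qv (M i) u j)‖ ≤ 1 := by
      have h1 : ‖expl S u M j (qv (M i) u j)‖ ^ 2 ≤ 1 := by
        have h2 : ‖qv (M i) u j‖ ^ 2 ≤ 1 := by
          have := pow_le_pow_left₀ (norm_nonneg _) hq 2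
          simpa using this
        have h3 : 0 ≤ ‖rr S u M j i‖ ^ 2 := sq_nonneg _
        linarith
      have h4 : 0 ≤ ‖expl S u M j (qv (M i) u j)‖ := norm_nonneg _
      nlinarith
    have h5 : ‖qq S u M j (M i (expl S u M j (qv (M i) u j)))‖ ≤ ‖M i‖ := by
      calc ‖qq S u M j (M i (expl S u M j (qv (M i) u j)))‖
          ≤ ‖M i (expl S u M j (qv (M i) u j))‖ := PINM.pr_norm_le hpr _
        _ ≤ ‖M i‖ * ‖expl S u M j (qv (M i) u j)‖ := (M i).le_opNorm _
        _ ≤ ‖M i‖ * 1 := mul_le_mul_of_nonneg_left hex (norm_nonneg _)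
        _ = ‖M i‖ := mul_one _
    unfold sv
    rw [norm_smul, Real.norm_of_nonneg hr0]
    exact mul_le_mul hrho h5 (norm_nonneg _) (by positivity)

end Pool.Agent.Lib.MP17fa2c
end

section
/-! # STK: what is known, and the effect of the resampling -/
set_option autoImplicit false

open MeasureTheory ProbabilityTheory Filter Topology
open scoped RealInnerProductSpace NNReal ENNReal

namespace Pool.Agent.Lib.MP17fa2c

namespace STKM

variable {ι : Type} [Fintype ι] [DecidableEq ι] {E : Type} [NormedAddCommGroup E]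
  [InnerProductSpace ℝ E] {T : Type} [Fintype T]

theorem res_eq (P : E →L[ℝ] E) (M G : T → E →L[ℝ] E) (i : T) (x : E) :
    res P M G i x = M i x - cp P (M i (cp P x)) + cp P (G i (cp P x)) := by
  simp [res]

theorem cp_app (P : E →L[ℝ] E) (x : E) : cp P x = x - P x := by
  simp [cp]

theorem rho_congr {A B : E →L[ℝ] E} {u : E} {j : ℕ} (h : ∀ l < j, bv A u l = bv B u l) :
    rho A u j = rho B u j := by
  unfold rho
  refine Finset.prod_congr rfl fun l hl => ?_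
  rw [h l (Finset.mem_range.1 hl)]

end STKM

open STKM in
theorem specSTK (hSTP : SpecSTP) (hKNO : SpecKNO) (hEXP : SpecEXP) : SpecSTK := by
  intro ι _ _ E _ _ _ T _ S u hu j i
  -- facts at the level `j`
  have K0 : ∀ M G : T → E →L[ℝ] E, HermF S M → HermF S G →
      qv (res (expl S u M j) M G i) u j = qv (M i) u j ∧
      rho (res (expl S u M j) M G i) u j = rho (M i) u j ∧
      expl S u (res (expl S u M j) M G) j = expl S u M j ∧
      expl S u (res (expl S u M j) M G) (j + 1) = expl S u M (j + 1) := by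
    intro M G hM hG
    obtain ⟨-, -, k3, k4, k5⟩ := hKNO ι E T S u M G j hM hG
    refine ⟨?_, rho_congr fun l hl => (k5 l hl i).2, k4 j (by omega), k4 (j + 1) le_rfl⟩
    unfold qv
    rw [k3 j le_rfl i]
  have K1 : ∀ M G : T → E →L[ℝ] E, HermF S M → HermF S G →
      rr S u (res (expl S u M j) M G) j i = rr S u M j i := by
    intro M G hM hG
    obtain ⟨a1, -, a3, -⟩ := K0 M G hM hG
    unfold rr
    rw [a1, a3]
  have K2 : ∀ M G : T → E →L[ℝ] E, HermF S M → HermF S G →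
      rh S u (res (expl S u M j) M G) j i = rh S u M j i := by
    intro M G hM hG
    obtain ⟨-, a2, -, -⟩ := K0 M G hM hG
    unfold rh
    rw [a2, K1 M G hM hG]
  have K3 : ∀ M G : T → E →L[ℝ] E, HermF S M → HermF S G →
      qq S u (res (expl S u M j) M G) j = qq S u M j := by
    intro M G hM hG
    obtain ⟨-, -, -, a4⟩ := K0 M G hM hG
    unfold qq
    rw [a4]
  refine ⟨fun M G hM hG => (K0 M G hM hG).1, fun M G hM hG => (K0 M G hM hG).2.1,
    fun M G hM hG => (K0 M G hM hG).2.2.1, fun M G hM hG => (K0 M G hM hG).2.2.2,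
    K1, K2, K3, ?_, ?_, ?_, ?_, ?_⟩
  · intro M G hM hG
    obtain ⟨a1, a2, a3, -⟩ := K0 M G hM hG
    obtain ⟨-, k2, -, -, -⟩ := hKNO ι E T S u M G j hM hG
    obtain ⟨e1, -, -, -⟩ := hEXP ι E T S u M j
    show sv S u (res (expl S u M j) M G) j i = sv S u M j i
    unfold sv
    rw [a1, a2, a3, K3 M G hM hG, k2 _ (e1.2 _) i]
  · intro M G hM hG
    obtain ⟨-, -, -, -, k5⟩ := hKNO ι E T S u M G (j + 1) hM hG
    exact (k5 j (by omega) i).1
  · intro M G hM hG
    obtain ⟨-, -, -, -, k5⟩ := hKNO ι E T S u M G (j + 1) hM hG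
    exact (k5 j (by omega) i).2
  · intro M G hM hG
    obtain ⟨-, k2, k3, k4, k5⟩ := hKNO ι E T S u M G (j + 1) hM hG
    obtain ⟨-, -, -, -, -, s6, -⟩ := hSTP ι E T S u M hM hu j i
    have hq : qv (res (expl S u M (j + 1)) M G i) u j = qv (M i) u j := by
      unfold qv
      rw [k3 j (by omega) i]
    have hr : rr S u (res (expl S u M (j + 1)) M G) j i = rr S u M j i := by
      unfold rr
      rw [hq, k4 j (by omega)]
    have hrho : rho (res (expl S u M (j + 1)) M G i) u j = rho (M i) u j :=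
      rho_congr fun l hl => (k5 l (by omega) i).2
    have hrh : rh S u (res (expl S u M (j + 1)) M G) j i = rh S u M j i := by
      unfold rh
      rw [hr, hrho]
    have hfix : expl S u M (j + 1) (rh S u M j i) = rh S u M j i := by
      unfold rh
      rw [map_smul, s6]
    show qq S u (res (expl S u M (j + 1)) M G) j
      (res (expl S u M (j + 1)) M G i (rh S u (res (expl S u M (j + 1)) M G) j i)) = _
    rw [hrh, k2 _ hfix i]
    unfold qq
    rw [k4 (j + 1) (by omega)]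
  · intro M G hM hG r hr
    obtain ⟨e1, -, -, -⟩ := hEXP ι E T S u M j
    obtain ⟨-, k2, -, -, -⟩ := hKNO ι E T S u M G j hM hG
    obtain ⟨-, -, -, -, -, -, -, -, -, -, -, -, -, -, s15⟩ := hSTP ι E T S u M hM hu j i
    have hcr : cp (expl S u M j) r = r := by
      rw [cp_app, hr, sub_zero]
    have hres : res (expl S u M j) M G i r = expl S u M j (M i r) + cp (expl S u M j) (G i r) := by
      rw [res_eq, hcr, cp_app _ (M i r)]
      abel
    have hz : ∀ x, qq S u M j (expl S u M j x) = 0 := by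
      intro x
      have h := s15 x
      rw [cp_app, map_sub] at h
      have h2 : qq S u M j x - qq S u M j (expl S u M j x) - qq S u M j x = 0 := by
        rw [h, sub_self]
      have h3 : qq S u M j (expl S u M j x) =
        -(qq S u M j x - qq S u M j (expl S u M j x) - qq S u M j x) := by abel
      rw [h3, h2, neg_zero]
    refine ⟨?_, ?_, fun x => k2 _ (e1.2 x) i, hres⟩
    · rw [hres, map_add, hz, s15, zero_add]
    · rw [hres, inner_add_right, ← e1.1.1, hr, inner_zero_left, zero_add, cp_app, inner_sub_right,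
        ← e1.1.1 r, hr, inner_zero_left, sub_zero]

end Pool.Agent.Lib.MP17fa2c
end

section
/-!
# MP_17fa2c_pr, module STP: one step of the residuals
-/
set_option autoImplicit false

open MeasureTheory ProbabilityTheory Filter Topology
open scoped RealInnerProductSpace NNReal ENNReal

namespace Pool.Agent.Lib.MP17fa2c

theorem specSTP (hJON : SpecJON) (hTRA : SpecTRA) (hEXP : SpecEXP) (hLOR : SpecLOR) :
    SpecSTP := by
  intro ι _ _ E _ _ _ T _ S u M hM hu j i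
  obtain ⟨-, -, j3, j4, j5, -⟩ := hJON ι E S
  obtain ⟨e1, e2, e3, e4⟩ := hEXP ι E T S u M (j + 1)
  obtain ⟨f1, -, -, -⟩ := hEXP ι E T S u M j
  obtain ⟨-, l2, l3, l4, l5, -, -, -⟩ := hLOR E (M i) u (hM i).1 hu
  obtain ⟨t1, -, t3, -, -⟩ := hTRA ι E S _ e1
  have hQq : ∀ l < j + 1, qq S u M j (qv (M i) u l) = 0 := by
    intro l hl
    simp [qq, cp, e3 l hl i]
  have hQP : ∀ x, qq S u M j (expl S u M j x) = 0 := by
    intro x
    simp [qq, cp, (e2 j (by omega) x).2]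
  have hQc : ∀ x, qq S u M j (cp (expl S u M j) x) = qq S u M j x := by
    intro x
    have : cp (expl S u M j) x = x - expl S u M j x := by simp [cp]
    rw [this, map_sub, hQP, sub_zero]
  have hQr : qq S u M j (rr S u M j i) = 0 := by
    rw [rr, hQc, hQq j (by omega)]
  have hQrh : qq S u M j (rh S u M j i) = 0 := by
    rw [rh, map_smul, hQr, smul_zero]
  have hq1 : ‖qv (M i) u j‖ ≤ 1 := by
    by_cases h : ∃ l < j, bv (M i) u l = 0
    · rw [l3 j h, norm_zero]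
      exact zero_le_one
    · push Not at h
      exact (l2 j h).le
  have hr1 : ‖rr S u M j i‖ ≤ 1 := (j4 _ (j3 _ f1) _).trans hq1
  have hrho : 0 ≤ rho (M i) u j :=
    Finset.prod_nonneg fun l _ => div_nonneg (norm_nonneg _) (Real.sqrt_nonneg _)
  have hl1 : qq S u M j (lan (M i) u j).1 = 0 := by
    cases j with
    | zero =>
      show qq S u M 0 (0 : E) = 0
      rw [map_zero]
    | succ l =>
      rw [l5 l, map_smul, hQq l (by omega), smul_zero]
  have hdec : qv (M i) u j = rr S u M j i + expl S u M j (qv (M i) u j) := by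
    simp [rr, cp]
  have hstep : bv (M i) u j • qq S u M j (qv (M i) u (j + 1)) =
      qq S u M j (M i (rr S u M j i)) + qq S u M j (M i (expl S u M j (qv (M i) u j))) := by
    have h1 : qq S u M j (M i (qv (M i) u j)) = bv (M i) u j • qq S u M j (qv (M i) u (j + 1)) := by
      rw [l4 j, map_add, map_add, map_smul, map_smul, hQq j (by omega), hl1]
      simp
    rw [← h1, ← map_add, ← map_add, ← hdec]
  refine ⟨?_, hQr, hQrh, hQq j (by omega), ?_, ?_, hq1, hr1, hrho, ?_, ?_, j3 _ e1, ?_, ?_, hQc⟩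
  · have h1 : rh S u M (j + 1) i = rho (M i) u (j + 1) • qq S u M j (qv (M i) u (j + 1)) := rfl
    have h2 : rho (M i) u (j + 1) = rho (M i) u j * (bv (M i) u j / Real.sqrt (dm E)) :=
      Finset.prod_range_succ _ _
    rw [h1, h2, rh, sv, map_smul, map_smul, ← smul_add, ← hstep]
    simp only [smul_smul]
    congr 1
    ring
  · have h := f1.2 (qv (M i) u j)
    simp [rr, cp, h]
  · have h : qq S u M j (rr S u M j i) = rr S u M j i - expl S u M (j + 1) (rr S u M j i) := by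
      simp [qq, cp]
    rw [hQr] at h
    exact (sub_eq_zero.1 h.symm).symm
  · rw [rh, norm_smul, Real.norm_of_nonneg hrho]
    exact mul_le_of_le_one_right hrho hr1
  · rw [j5 _ f1 (qv (M i) u j), add_comm]
    rfl
  · have : tr (qq S u M j) = dm E - tr (expl S u M (j + 1)) := t3
    rw [this]
    push_cast at e4
    linarith
  · have : tr (qq S u M j) = dm E - tr (expl S u M (j + 1)) := t3
    rw [this]
    linarith

end Pool.Agent.Lib.MP17fa2c
end

section
/-!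
# MP_17fa2c_pr, block L, module ZE1: exponential moments of the conditional mean `zb`
-/
set_option autoImplicit false

open MeasureTheory ProbabilityTheory Filter Topology
open scoped RealInnerProductSpace NNReal ENNReal BoundedContinuousFunction

namespace Pool.Agent.Lib.MP17fa2c

namespace ZE1M

/-- `(1 - 2 a)^{-N/2}` for small `a` -/
theorem pw (a N : ℝ) (ha : |a| ≤ 1 / 4) (hN : 0 ≤ N) :
    Real.exp (N * (a + a ^ 2 - 8 * |a| ^ 3)) ≤ (1 - 2 * a) ^ (-N / 2) ∧
    (1 - 2 * a) ^ (-N / 2) ≤ Real.exp (N * (a + a ^ 2 + 8 * |a| ^ 3)) := by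
  obtain ⟨ha1, ha2⟩ := abs_le.mp ha
  have hx : |2 * a| = 2 * |a| := by rw [abs_mul]; norm_num
  have h1 := Real.abs_log_sub_add_sum_range_le (x := 2 * a) (by rw [hx]; linarith) 2
  have h2 : |2 * a| ^ (2 + 1) / (1 - |2 * a|) ≤ 16 * |a| ^ 3 := by
    rw [hx, div_le_iff₀ (by linarith)]
    have : 0 ≤ |a| ^ 3 := by positivity
    have h3 : (2 * |a|) ^ (2 + 1) = 8 * |a| ^ 3 := by ring
    rw [h3]
    nlinarith
  have h3 : (∑ i ∈ Finset.range 2, (2 * a) ^ (i + 1) / ((i : ℝ) + 1)) = 2 * a + 2 * a ^ 2 := by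
    simp only [Finset.sum_range_succ, Finset.sum_range_zero]
    norm_num
    ring
  rw [h3] at h1
  obtain ⟨h4, h5⟩ := abs_le.mp (h1.trans h2)
  have hpos : 0 < 1 - 2 * a := by linarith
  rw [Real.rpow_def_of_pos hpos]
  constructor
  · apply Real.exp_le_exp.mpr
    have := mul_le_mul_of_nonneg_left h5 (show 0 ≤ N / 2 by positivity)
    nlinarith
  · apply Real.exp_le_exp.mpr
    have := mul_le_mul_of_nonneg_left h4 (show 0 ≤ N / 2 by positivity)
    nlinarith

variable {ι : Type} [Fintype ι] [DecidableEq ι]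
  {E : Type} [NormedAddCommGroup E] [InnerProductSpace ℝ E] [FiniteDimensional ℝ E]
  {T : Type} [Fintype T] {S : BStr ι E} {c : T → T → ℝ} {ν : Measure (T → E →L[ℝ] E)}

/-- the Gaussian part -/
theorem gpart (hISO : SpecISO) (hCHN : SpecCHN) (hMGC : SpecMGC) (hg : GFam S c ν) (hc : Cor c)
    (Q : E →L[ℝ] E) (hQ : IsPr S Q) (i : T) (r s : E) (hr : Q r = 0) (hr1 : ‖r‖ ≤ 1)
    [MeasurableSpace E] [BorelSpace E] (n : ℕ) (hn : tr Q = n) (θ : ℝ) (hθ : |θ| ≤ 1 / 4) :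
    ENNReal.ofReal ((1 - 2 * (θ * ‖r‖ ^ 2)) ^ (-(n : ℝ) / 2)) ≤
    ∫⁻ G, ENNReal.ofReal (Real.exp (θ * ‖Q (G i r)‖ ^ 2 + 2 * θ * ⟪Q (G i r), s⟫)) ∂ν := by
  classical
  obtain ⟨-, hlaw⟩ := hISO ι E T S c ν hg hc.symm Q (fun l => if l = i then r else 0) hQ
    (fun l => by
      by_cases h : l = i
      · simp [h, hr]
      · simp [h])
  have e1 : (fun G : T → E →L[ℝ] E => ∑ l, Q (G l (if l = i then r else 0))) =
      fun G => Q (G i r) := by
    funext G
    rw [Finset.sum_eq_single i]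
    · simp
    · intro l _ hl
      simp [hl]
    · intro h
      exact absurd (Finset.mem_univ i) h
  have e2 : ∑ l, ∑ l', c l l' * ⟪(if l = i then r else 0 : E), (if l' = i then r else 0 : E)⟫ =
      ‖r‖ ^ 2 := by
    rw [Finset.sum_eq_single i]
    · rw [Finset.sum_eq_single i]
      · rw [if_pos rfl, hc.one, real_inner_self_eq_norm_sq, one_mul]
      · intro t _ ht
        rw [if_neg ht, inner_zero_right, mul_zero]
      · intro h
        exact absurd (Finset.mem_univ i) h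
    · intro t _ ht
      refine Finset.sum_eq_zero fun t' _ => ?_
      rw [if_neg ht, inner_zero_left, mul_zero]
    · intro h
      exact absurd (Finset.mem_univ i) h
  rw [e1, e2, Real.sqrt_sq (norm_nonneg r)] at hlaw
  have hQx : Measurable (fun x : E => ‖r‖ • Q x) := Q.measurable.const_smul _
  set F : E → ℝ≥0∞ := fun z => ENNReal.ofReal (Real.exp (θ * ‖z‖ ^ 2 + 2 * θ * ⟪z, s⟫)) with hF
  have hFm : Measurable F := by
    have : Continuous fun z : E => Real.exp (θ * ‖z‖ ^ 2 + 2 * θ * ⟪z, s⟫) := by fun_prop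
    exact this.measurable.ennreal_ofReal
  have h1 : ∫⁻ G, F (Q (G i r)) ∂ν = ∫⁻ x, F (‖r‖ • Q x) ∂(stdGaussian E) := by
    rw [← lintegral_map hFm (RSBM.meas_Q Q i r), hlaw, lintegral_map hFm hQx]
  have h2 : (stdGaussian E).map (LinearIsometryEquiv.neg ℝ : E ≃ₗᵢ[ℝ] E) = stdGaussian E :=
    stdGaussian_map _
  have h3 : ∫⁻ x, F (‖r‖ • Q x) ∂(stdGaussian E) = ∫⁻ x, F (-(‖r‖ • Q x)) ∂(stdGaussian E) := by
    have hm' : Measurable (fun x : E => F (‖r‖ • Q x)) := hFm.comp hQx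
    conv_lhs => rw [← h2]
    rw [lintegral_map hm' (LinearIsometryEquiv.neg ℝ : E ≃ₗᵢ[ℝ] E).continuous.measurable]
    refine lintegral_congr fun x => ?_
    show F (‖r‖ • Q (-x)) = F (-(‖r‖ • Q x))
    rw [map_neg, smul_neg]
  obtain ⟨hch, -⟩ := hCHN E Q n hQ.1.1 hQ.2 hn
  have h4 : ∫⁻ x, ENNReal.ofReal (Real.exp ((θ * ‖r‖ ^ 2) * ‖Q x‖ ^ 2)) ∂(stdGaussian E) =
      ENNReal.ofReal ((1 - 2 * (θ * ‖r‖ ^ 2)) ^ (-(n : ℝ) / 2)) := by
    have hle : θ * ‖r‖ ^ 2 < 1 / 2 := by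
      have h5 : ‖r‖ ^ 2 ≤ 1 := pow_le_one₀ (norm_nonneg _) hr1
      have h6 : 0 ≤ ‖r‖ ^ 2 := by positivity
      obtain ⟨h7, h8⟩ := abs_le.mp hθ
      nlinarith
    rw [← hMGC n (θ * ‖r‖ ^ 2) hle]
    have hm : Measurable fun y : ℝ => ENNReal.ofReal (Real.exp ((θ * ‖r‖ ^ 2) * y ^ 2)) := by
      fun_prop
    have hmQ : Measurable fun x : E => ‖Q x‖ := Q.measurable.norm
    rw [← lintegral_map (f := fun y : ℝ => ENNReal.ofReal (Real.exp ((θ * ‖r‖ ^ 2) * y ^ 2)))
      hm hmQ, hch]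
    rfl
  have h5 : 2 * ∫⁻ x, F (‖r‖ • Q x) ∂(stdGaussian E) ≥
      2 * ∫⁻ x, ENNReal.ofReal (Real.exp ((θ * ‖r‖ ^ 2) * ‖Q x‖ ^ 2)) ∂(stdGaussian E) := by
    calc 2 * ∫⁻ x, F (‖r‖ • Q x) ∂(stdGaussian E)
        = ∫⁻ x, F (‖r‖ • Q x) ∂(stdGaussian E) + ∫⁻ x, F (-(‖r‖ • Q x)) ∂(stdGaussian E) := by
          rw [two_mul, ← h3]
      _ = ∫⁻ x, (F (‖r‖ • Q x) + F (-(‖r‖ • Q x))) ∂(stdGaussian E) :=
          (lintegral_add_left (hFm.comp hQx) _).symm
      _ ≥ ∫⁻ x, 2 * ENNReal.ofReal (Real.exp ((θ * ‖r‖ ^ 2) * ‖Q x‖ ^ 2)) ∂(stdGaussian E) := by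
          refine lintegral_mono fun x => ?_
          simp only [hF, norm_neg, inner_neg_left]
          rw [← ENNReal.ofReal_add (Real.exp_pos _).le (Real.exp_pos _).le,
            show (2 : ℝ≥0∞) = ENNReal.ofReal 2 by norm_num, ← ENNReal.ofReal_mul (by norm_num)]
          apply ENNReal.ofReal_le_ofReal
          have e3 : θ * ‖‖r‖ • Q x‖ ^ 2 = θ * ‖r‖ ^ 2 * ‖Q x‖ ^ 2 := by
            rw [norm_smul, norm_norm]; ring
          rw [e3, mul_neg, Real.exp_add, Real.exp_add, Real.exp_neg]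
          set v := Real.exp (2 * θ * ⟪‖r‖ • Q x, s⟫) with hv
          have hv0 : 0 < v := Real.exp_pos _
          have hv1 : 2 ≤ v + v⁻¹ := by
            have : 0 ≤ (v - 1) ^ 2 / v := by positivity
            have e4 : (v - 1) ^ 2 / v = v + v⁻¹ - 2 := by field_simp; ring
            linarith
          have := mul_le_mul_of_nonneg_left hv1 (Real.exp_pos (θ * ‖r‖ ^ 2 * ‖Q x‖ ^ 2)).le
          linarith
      _ = _ := lintegral_const_mul' _ _ (by norm_num)
  show _ ≤ ∫⁻ G, F (Q (G i r)) ∂ν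
  rw [h1, ← h4]
  exact (ENNReal.mul_le_mul_iff_right (by norm_num) (by norm_num)).mp h5

/-- Jensen -/
theorem jen {Ω : Type} [MeasurableSpace Ω] (μ : Measure Ω) [IsProbabilityMeasure μ] (h : Ω → ℝ)
    (hi : Integrable h μ) (h0 : ∫ x, h x ∂μ = 0) (θ : ℝ) :
    1 ≤ ∫⁻ x, ENNReal.ofReal (Real.exp (θ * h x)) ∂μ := by
  by_cases hfin : ∫⁻ x, ENNReal.ofReal (Real.exp (θ * h x)) ∂μ = ⊤
  · rw [hfin]; exact le_top
  · have hm : AEStronglyMeasurable (fun x => Real.exp (θ * h x)) μ :=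
      (Real.continuous_exp.comp_aestronglyMeasurable (hi.aestronglyMeasurable.const_mul θ))
    have hI : Integrable (fun x => Real.exp (θ * h x)) μ := by
      refine ⟨hm, ?_⟩
      rw [hasFiniteIntegral_iff_ofReal (Eventually.of_forall fun x => (Real.exp_pos _).le)]
      exact lt_top_iff_ne_top.mpr hfin
    rw [← ofReal_integral_eq_lintegral_ofReal hI (Eventually.of_forall fun x => (Real.exp_pos _).le),
      ← ENNReal.ofReal_one]
    apply ENNReal.ofReal_le_ofReal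
    have h1 : ∫ x, (θ * h x + 1) ∂μ ≤ ∫ x, Real.exp (θ * h x) ∂μ :=
      integral_mono ((hi.const_mul θ).add (integrable_const 1)) hI
        (fun x => Real.add_one_le_exp _)
    rw [integral_add (hi.const_mul θ) (integrable_const 1), integral_const_mul, h0, mul_zero,
      zero_add, integral_const] at h1
    simpa using h1

/-- lower bound for the conditional exponential moment -/
theorem low (hISO : SpecISO) (hCHN : SpecCHN) (hMGC : SpecMGC) (hGI1 : SpecGI1) (hPIN : SpecPIN)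
    (hg : GFam S c ν) (hc : Cor c)
    (Q : E →L[ℝ] E) (hQ : IsPr S Q) (i : T) (r s y : E) (g : (T → E →L[ℝ] E) → E) (γ z : ℝ)
    (hr : Q r = 0) (hr1 : ‖r‖ ≤ 1)
    [MeasurableSpace E] [BorelSpace E] (htD : tr Q ≤ dm E) (ht0 : 0 ≤ tr Q)
    (θ : ℝ) (hθ : |θ| ≤ 1 / 4) (B : (T → E →L[ℝ] E) → ℝ) (hBi : Integrable B ν)
    (hz : z = ∫ G, B G ∂ν)
    (hind : IndepFun (fun G : T → E →L[ℝ] E => Q (G i r)) g ν)
    (hid : ∀ᵐ G ∂ν, B G - z - (‖Q (G i r)‖ ^ 2 - tr Q * ‖r‖ ^ 2) =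
      2 * ⟪Q (G i r), s⟫ + 2 * ⟪y, g G⟫ + ‖g G‖ ^ 2 - γ) :
    ENNReal.ofReal (Real.exp (θ * z + θ ^ 2 * (tr Q * ‖r‖ ^ 4) - 8 * |θ| ^ 3 * dm E)) ≤
      ∫⁻ G, ENNReal.ofReal (Real.exp (θ * B G)) ∂ν := by
  have := hg.gauss
  obtain ⟨n, hn⟩ := GI1M.tr_nat Q hQ.2
  have hmQ := RSBM.meas_Q (T := T) Q i r
  obtain ⟨g1, -, -, g4, -⟩ := hGI1 ι E T S c ν hg hc Q hQ i i r r hr hr
  -- integrability
  have pQ := RSBM.pb_Q (ν := ν) (T := T) Q i r
  have i1 : Integrable (fun G : T → E →L[ℝ] E => ‖Q (G i r)‖ ^ 2) ν :=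
    (pQ.pow 2).integrable hPIN hg (hmQ.norm.pow_const 2)
  have i2 : Integrable (fun G : T → E →L[ℝ] E => ⟪Q (G i r), s⟫) ν := by
    refine EAUXM.PB.integrable (EAUXM.PB.mono (pQ.mul (EAUXM.PB.const ‖s‖))
      (Eventually.of_forall fun G => ?_)) hPIN hg (hmQ.inner measurable_const)
    exact (abs_real_inner_le_norm _ _).trans (le_abs_self _)
  have m1 : ∫ G, ‖Q (G i r)‖ ^ 2 ∂ν = tr Q * ‖r‖ ^ 2 := by
    have := g4 0
    simpa using this
  have m2 : ∫ G, ⟪Q (G i r), s⟫ ∂ν = 0 := by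
    have := g1 s
    simp_rw [real_inner_comm s]
    exact this
  -- the remaining part
  set h : (T → E →L[ℝ] E) → ℝ := fun G => 2 * ⟪y, g G⟫ + ‖g G‖ ^ 2 - γ with hh
  have hae : h =ᵐ[ν] fun G => B G - z - (‖Q (G i r)‖ ^ 2 - tr Q * ‖r‖ ^ 2) -
      2 * ⟪Q (G i r), s⟫ := by
    filter_upwards [hid] with G hG
    simp only [hh]
    linarith
  have j1 : Integrable (fun G => B G - z) ν := hBi.sub (integrable_const _)
  have j2 : Integrable (fun G : T → E →L[ℝ] E => ‖Q (G i r)‖ ^ 2 - tr Q * ‖r‖ ^ 2) ν :=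
    i1.sub (integrable_const _)
  have j3 : Integrable (fun G : T → E →L[ℝ] E => 2 * ⟪Q (G i r), s⟫) ν := i2.const_mul 2
  have j12 : Integrable (fun G : T → E →L[ℝ] E =>
      B G - z - (‖Q (G i r)‖ ^ 2 - tr Q * ‖r‖ ^ 2)) ν := j1.sub j2
  have hhi : Integrable h ν := by
    refine Integrable.congr ?_ hae.symm
    exact j12.sub j3
  have hh0 : ∫ G, h G ∂ν = 0 := by
    have m3 : ∫ G, 2 * ⟪Q (G i r), s⟫ ∂ν = 0 := by rw [integral_const_mul, m2, mul_zero]
    have m4 : ∫ _G : T → E →L[ℝ] E, z ∂ν = z := by simp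
    have m5 : ∫ _G : T → E →L[ℝ] E, tr Q * ‖r‖ ^ 2 ∂ν = tr Q * ‖r‖ ^ 2 := by
      rw [integral_const]; simp
    rw [integral_congr_ae hae, integral_sub j12 j3, integral_sub j1 j2,
      integral_sub hBi (integrable_const _), integral_sub i1 (integrable_const _), m3, m4, m5,
      m1, ← hz]
    ring
  have hindh : IndepFun (fun G : T → E →L[ℝ] E => Q (G i r)) h ν := by
    have hφ : Measurable fun x : E => 2 * ⟪y, x⟫ + ‖x‖ ^ 2 - γ := by
      have : Continuous fun x : E => 2 * ⟪y, x⟫ + ‖x‖ ^ 2 - γ := by fun_prop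
      exact this.measurable
    exact hind.comp measurable_id hφ
  set F : E → ℝ≥0∞ := fun x => ENNReal.ofReal (Real.exp (θ * ‖x‖ ^ 2 + 2 * θ * ⟪x, s⟫)) with hF
  have hFm : Measurable F := by
    have : Continuous fun x : E => Real.exp (θ * ‖x‖ ^ 2 + 2 * θ * ⟪x, s⟫) := by fun_prop
    exact this.measurable.ennreal_ofReal
  set H : ℝ → ℝ≥0∞ := fun x => ENNReal.ofReal (Real.exp (θ * x)) with hH
  have hHm : Measurable H := by
    rw [hH]; fun_prop
  have hindF : IndepFun (fun G : T → E →L[ℝ] E => F (Q (G i r))) (fun G => H (h G)) ν :=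
    hindh.comp hFm hHm
  have hk : ∫⁻ G, ENNReal.ofReal (Real.exp (θ * B G)) ∂ν =
      ENNReal.ofReal (Real.exp (θ * z - θ * (tr Q * ‖r‖ ^ 2))) *
        ((∫⁻ G, F (Q (G i r)) ∂ν) * ∫⁻ G, H (h G) ∂ν) := by
    have hmul := lintegral_mul_eq_lintegral_mul_lintegral_of_indepFun''
      (f := fun G : T → E →L[ℝ] E => F (Q (G i r))) (g := fun G => H (h G))
      (hFm.comp hmQ).aemeasurable (hHm.comp_aemeasurable hhi.aemeasurable) hindF
    rw [← hmul, ← lintegral_const_mul' _ _ ENNReal.ofReal_ne_top]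
    refine lintegral_congr_ae ?_
    filter_upwards [hae] with G hG
    simp only [hF, hH, hG]
    rw [← ENNReal.ofReal_mul (Real.exp_pos _).le, ← ENNReal.ofReal_mul (Real.exp_pos _).le,
      ← Real.exp_add, ← Real.exp_add]
    congr 2
    ring
  rw [hk]
  have hJ := jen ν h hhi hh0 θ
  have hG := gpart hISO hCHN hMGC hg hc Q hQ i r s hr hr1 n hn θ hθ
  have hr2 : ‖r‖ ^ 2 ≤ 1 := pow_le_one₀ (norm_nonneg _) hr1
  have ha : |θ * ‖r‖ ^ 2| ≤ |θ| := by
    rw [abs_mul, abs_of_nonneg (by positivity : (0 : ℝ) ≤ ‖r‖ ^ 2)]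
    exact mul_le_of_le_one_right (abs_nonneg _) hr2
  obtain ⟨hp, -⟩ := pw (θ * ‖r‖ ^ 2) n (ha.trans hθ) (Nat.cast_nonneg n)
  have h3 : |θ * ‖r‖ ^ 2| ^ 3 ≤ |θ| ^ 3 := pow_le_pow_left₀ (abs_nonneg _) ha 3
  calc ENNReal.ofReal (Real.exp (θ * z + θ ^ 2 * (tr Q * ‖r‖ ^ 4) - 8 * |θ| ^ 3 * dm E))
      ≤ ENNReal.ofReal (Real.exp (θ * z - θ * (tr Q * ‖r‖ ^ 2)) *
          Real.exp ((n : ℝ) * (θ * ‖r‖ ^ 2 + (θ * ‖r‖ ^ 2) ^ 2 - 8 * |θ * ‖r‖ ^ 2| ^ 3))) := by
        apply ENNReal.ofReal_le_ofReal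
        rw [← Real.exp_add]
        apply Real.exp_le_exp.mpr
        rw [← hn]
        have e1 : tr Q * (θ * ‖r‖ ^ 2 + (θ * ‖r‖ ^ 2) ^ 2 - 8 * |θ * ‖r‖ ^ 2| ^ 3) =
          θ * (tr Q * ‖r‖ ^ 2) + θ ^ 2 * (tr Q * ‖r‖ ^ 4) - 8 * (tr Q * |θ * ‖r‖ ^ 2| ^ 3) := by
          ring
        rw [e1]
        have e2 : tr Q * |θ * ‖r‖ ^ 2| ^ 3 ≤ dm E * |θ| ^ 3 :=
          mul_le_mul htD h3 (by positivity) (ht0.trans htD)
        linarith
    _ = ENNReal.ofReal (Real.exp (θ * z - θ * (tr Q * ‖r‖ ^ 2))) *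
          (ENNReal.ofReal (Real.exp ((n : ℝ) * (θ * ‖r‖ ^ 2 + (θ * ‖r‖ ^ 2) ^ 2 -
            8 * |θ * ‖r‖ ^ 2| ^ 3))) * 1) := by
        rw [mul_one, ENNReal.ofReal_mul (Real.exp_pos _).le]
    _ ≤ _ := by
        refine mul_le_mul' le_rfl (mul_le_mul' ((ENNReal.ofReal_le_ofReal hp).trans hG) hJ)

/-- the unconditional exponential moment -/
theorem up (hDEL : SpecDEL) (hMRG : SpecMRG) (hMGC : SpecMGC) (hMEA : SpecMEA)
    (hg : GFam S c ν) (hc : Cor c) {u : E} (hu : ‖u‖ = 1) (i : T) (k : ℕ)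
    (hk : Fintype.card ι * (k + 1) < Module.finrank ℝ E)
    (θ : ℝ) (hθ : |θ| ≤ 1 / 4) :
    ∫⁻ M, ENNReal.ofReal (Real.exp (θ * (bv (M i) u k ^ 2 - nk ι E k))) ∂ν ≤
      ENNReal.ofReal (Real.exp (θ ^ 2 * nk ι E k + 8 * |θ| ^ 3 * dm E)) := by
  let _ : MeasurableSpace E := borel E
  have _ : BorelSpace E := ⟨rfl⟩
  have := hg.gauss
  obtain ⟨-, l4, l5⟩ := RHOM.law hDEL hMRG hMEA S u c ν hg hc hu i (k + 1) hk
  set N : ℕ := Module.finrank ℝ E - Fintype.card ι * (k + 1) with hN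
  have hNn : (N : ℝ) = nk ι E k := by
    rw [hN, Nat.cast_sub hk.le]
    unfold nk dm
    push_cast
    ring
  have hN0 : (0 : ℝ) ≤ N := Nat.cast_nonneg N
  have hND : (N : ℝ) ≤ dm E := by
    unfold dm
    exact_mod_cast Nat.sub_le _ _
  have hm : Measurable fun b : ℝ => ENNReal.ofReal (Real.exp (θ * (b ^ 2 - nk ι E k))) := by
    fun_prop
  have hmw : Measurable fun w : Fin (k + 1) → ℝ × ℝ =>
      ENNReal.ofReal (Real.exp (θ * ((w (Fin.last k)).2 ^ 2 - nk ι E k))) := by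
    fun_prop
  have h1 : ∫⁻ M, ENNReal.ofReal (Real.exp (θ * (bv (M i) u k ^ 2 - nk ι E k))) ∂ν =
      ∫⁻ b, ENNReal.ofReal (Real.exp (θ * (b ^ 2 - nk ι E k))) ∂(chi N) := by
    have e1 : ∫⁻ M, ENNReal.ofReal (Real.exp (θ * (bv (M i) u k ^ 2 - nk ι E k))) ∂ν =
        ∫⁻ w : Fin (k + 1) → ℝ × ℝ, ENNReal.ofReal (Real.exp (θ * ((w (Fin.last k)).2 ^ 2 -
          nk ι E k))) ∂(deLaw (fun j => Module.finrank ℝ E - Fintype.card ι * (j + 1)) (k + 1)) := by
      rw [← l5, lintegral_map hmw l4]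
      rfl
    rw [e1]
    unfold deLaw
    have hmp := measurePreserving_eval (fun j : Fin (k + 1) =>
      (gaussianReal 0 2).prod (chi (Module.finrank ℝ E - Fintype.card ι * ((j : ℕ) + 1))))
      (Fin.last k)
    have hm2 : Measurable fun z : ℝ × ℝ =>
      ENNReal.ofReal (Real.exp (θ * (z.2 ^ 2 - nk ι E k))) := by fun_prop
    have e2 := hmp.lintegral_comp hm2
    refine Eq.trans ?_ (e2.trans ?_)
    · rfl
    rw [lintegral_prod _ hm2.aemeasurable]
    simp only [lintegral_const, measure_univ, mul_one]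
    rfl
  have h2 : ∫⁻ b, ENNReal.ofReal (Real.exp (θ * (b ^ 2 - nk ι E k))) ∂(chi N) =
      ENNReal.ofReal (Real.exp (-(θ * nk ι E k))) *
        ENNReal.ofReal ((1 - 2 * θ) ^ (-(N : ℝ) / 2)) := by
    have hθ2 : θ < 1 / 2 := by linarith [(abs_le.mp hθ).2]
    rw [← hMGC N θ hθ2, ← lintegral_const_mul' _ _ ENNReal.ofReal_ne_top]
    refine lintegral_congr fun b => ?_
    rw [← ENNReal.ofReal_mul (Real.exp_pos _).le, ← Real.exp_add]
    congr 2
    ring
  rw [h1, h2, ← ENNReal.ofReal_mul (Real.exp_pos _).le]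
  apply ENNReal.ofReal_le_ofReal
  obtain ⟨-, hp⟩ := pw θ N hθ hN0
  calc Real.exp (-(θ * nk ι E k)) * (1 - 2 * θ) ^ (-(N : ℝ) / 2)
      ≤ Real.exp (-(θ * nk ι E k)) * Real.exp (N * (θ + θ ^ 2 + 8 * |θ| ^ 3)) :=
        mul_le_mul_of_nonneg_left hp (Real.exp_pos _).le
    _ ≤ _ := by
        rw [← Real.exp_add]
        apply Real.exp_le_exp.mpr
        rw [← hNn]
        have e3 : 0 ≤ |θ| ^ 3 := by positivity
        nlinarith

end ZE1M

open ZE1M in
/-- **ZE1** -/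
theorem specZE1 (hZE0 : SpecZE0) (hRPE : SpecRPE) (hRPI : SpecRPI) (hDEL : SpecDEL)
    (hMRG : SpecMRG) (hMGC : SpecMGC) (hISO : SpecISO) (hCHN : SpecCHN) (hGI1 : SpecGI1)
    (hPIN : SpecPIN) (hSTP : SpecSTP) (hTRA : SpecTRA) (hMEA : SpecMEA) : SpecZE1 := by
  intro ι _ _ T _
  obtain ⟨C₀, hC₀, hze⟩ := hZE0 ι T
  refine ⟨C₀ + 16 + Fintype.card ι + 1, by
    have : (0 : ℝ) ≤ Fintype.card ι := Nat.cast_nonneg _
    linarith, ?_⟩
  intro E _ _ _ S u c ν hg hc hu i k θ hk hθ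
  let _ : MeasurableSpace E := borel E
  have _ : BorelSpace E := ⟨rfl⟩
  have := hg.gauss
  have hcard : (0 : ℝ) ≤ Fintype.card ι := Nat.cast_nonneg _
  have hk1 : (0 : ℝ) < (k : ℝ) + 1 := by positivity
  have hk0 : C₀ * ((k : ℝ) + 1) ≤ dm E := by nlinarith
  have hkι : Fintype.card ι * (k + 1) < Module.finrank ℝ E := by
    have h1 : (Fintype.card ι : ℝ) * ((k : ℝ) + 1) < dm E := by nlinarith
    unfold dm at h1
    exact_mod_cast h1
  have hθ4 : |θ| ≤ 1 / 4 := by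
    have := abs_nonneg θ
    nlinarith
  have hD0 : 0 ≤ dm E := by unfold dm; positivity
  -- integrability of `b² - N`
  have hmb : Measurable fun M : T → E →L[ℝ] E => bv (M i) u k := (hMEA ι E T S u k).2.2.2.1 i
  have hmB : Measurable fun M : T → E →L[ℝ] E => bv (M i) u k ^ 2 - nk ι E k :=
    (hmb.pow_const 2).sub_const _
  have hiB : Integrable (fun M : T → E →L[ℝ] E => bv (M i) u k ^ 2 - nk ι E k) ν :=
    (((EAUXM.pb_base hPIN hSTP hg hu i k).2.1.pow 2).sub (EAUXM.PB.const _)).integrable hPIN hg hmB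
  obtain ⟨hi2, -, -⟩ := (hRPI ι E T S c ν u hg k).1 _ hmB hiB
  have hkey : ∀ᵐ M ∂ν, ENNReal.ofReal (Real.exp (θ * zb S u ν M k i +
      θ ^ 2 * (tr (qq S u M k) * ‖rr S u M k i‖ ^ 4) - 8 * |θ| ^ 3 * dm E)) ≤
      ∫⁻ G, ENNReal.ofReal (Real.exp (θ * (bv (res (expl S u M k) M G i) u k ^ 2 -
        nk ι E k))) ∂ν := by
    filter_upwards [hg.herm, hi2, hze E S u c ν hg hc hu i k hk0] with M hM hI hZ
    obtain ⟨s, y, g, γ, -, -, -, -, -, -, hind, hid⟩ := hZ
    have hstp := hSTP ι E T S u M hM hu k i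
    obtain ⟨-, h2, -, -, -, -, -, h8, -, -, -, h12, -, h14, -⟩ := hstp
    exact low hISO hCHN hMGC hGI1 hPIN hg hc (qq S u M k) h12 i (rr S u M k i) s y g γ
      (zb S u ν M k i) h2 h8 h14 (hTRA ι E S _ h12).1 θ hθ4 _ hI rfl hind hid
  have hup := up hDEL hMRG hMGC hMEA hg hc hu i k hkι θ hθ4
  have hmF : Measurable fun M : T → E →L[ℝ] E =>
      ENNReal.ofReal (Real.exp (θ * (bv (M i) u k ^ 2 - nk ι E k))) :=
    ((hmB.const_mul θ).exp).ennreal_ofReal
  have hrpe := hRPE ι E T S c ν u hg k _ hmF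
  rw [hrpe] at hup
  calc ∫⁻ M, ENNReal.ofReal (Real.exp (θ * zb S u ν M k i -
        θ ^ 2 * (nk ι E k - tr (qq S u M k) * ‖rr S u M k i‖ ^ 4))) ∂ν
      = ∫⁻ M, ENNReal.ofReal (Real.exp (8 * |θ| ^ 3 * dm E - θ ^ 2 * nk ι E k)) *
          ENNReal.ofReal (Real.exp (θ * zb S u ν M k i +
            θ ^ 2 * (tr (qq S u M k) * ‖rr S u M k i‖ ^ 4) - 8 * |θ| ^ 3 * dm E)) ∂ν := by
        refine lintegral_congr fun M => ?_
        rw [← ENNReal.ofReal_mul (Real.exp_pos _).le, ← Real.exp_add]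
        congr 2
        ring
    _ = ENNReal.ofReal (Real.exp (8 * |θ| ^ 3 * dm E - θ ^ 2 * nk ι E k)) *
          ∫⁻ M, ENNReal.ofReal (Real.exp (θ * zb S u ν M k i +
            θ ^ 2 * (tr (qq S u M k) * ‖rr S u M k i‖ ^ 4) - 8 * |θ| ^ 3 * dm E)) ∂ν :=
        lintegral_const_mul' _ _ ENNReal.ofReal_ne_top
    _ ≤ ENNReal.ofReal (Real.exp (8 * |θ| ^ 3 * dm E - θ ^ 2 * nk ι E k)) *
          ENNReal.ofReal (Real.exp (θ ^ 2 * nk ι E k + 8 * |θ| ^ 3 * dm E)) :=
        mul_le_mul' le_rfl ((lintegral_mono_ae hkey).trans hup)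
    _ = ENNReal.ofReal (Real.exp (16 * |θ| ^ 3 * dm E)) := by
        rw [← ENNReal.ofReal_mul (Real.exp_pos _).le, ← Real.exp_add]
        congr 2
        ring
    _ ≤ _ := by
        apply ENNReal.ofReal_le_ofReal
        apply Real.exp_le_exp.mpr
        have h1 : 0 ≤ |θ| ^ 3 * dm E := by positivity
        have h2 : 16 * (|θ| ^ 3 * dm E) ≤ (C₀ + 16 + Fintype.card ι + 1) * (|θ| ^ 3 * dm E) :=
          mul_le_mul_of_nonneg_right (by linarith) h1
        linarith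

end Pool.Agent.Lib.MP17fa2c
end
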